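import Pool.Agent.Lib.H56.Gen.Check

/-!
# Certificate data: parameters and tables
-/

set_option maxRecDepth 100000

namespace Pool.Agent.Lib.H56.Gen.D8

noncomputable def par : Par := .mk 512 1024 384 2 5 8 4 0 2
  0xe800e800e800e800e800e800e800e800e800e800e800e800e800e800e800e800e800e800e800e800ea00eb00ec00ee00f000f200f400f600f800fa00fd00ff010201050108010a010e011101140117011b011e01220126012a012e01320136013a013f01430148014d01510156015b01600165016b01700175017b01800186018c01920198019e01a401aa01b001b601bd01c301ca01d101d701de01e501ec01f301fa0202020902100218021f0227022f0236023e0246024e0256025e0266026e0277027f02880290029902a102aa02b302bb02c402cd02d602df02e802f202fb0304030e03170320032a0334033d03470351035a0364036e03780382038c039603a003ab03b503bf03ca03d403de03e903f403fe04090413041e04290434043f04490454045f046a04750481048c049704a204ad04b904c404cf04db04e604f204fd050905140520052c05370543054f055b05660572057e058a059605a205ae05ba05c605d205de05ea05f60602060f061b062706330640064c065806650671067e068a069606a306af06bc06c906d506e206ee06fb070707140721072d073a074707540760076d077a0787079407a007ad07ba07c707d407e107ee07f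a080708140821082e083b084808550862086f087c0889089608a308b008bd08ca08d708e408f208ff090c0919092609330940094d095a096709750982098f099c09a909b609c309d009de09eb09f80a050a120a1f0a2c0a3a0a470a540a610a6e0a7b0a880a960aa30ab00abd0aca0ad70ae40af10aff0b0c0b190b260b330b400b4d0b5a0b670b740b810b8f0b9c0ba90bb60bc30bd00bdd0bea0bf70c040c110c1e0c2b0c380c450c520c5f0c6c0c790c860c920c9f0cac0cb90cc60cd30ce00ced0cfa0d060d130d200d2d0d3a0d460d530d600d6d0d7a0d860d930da00dac0db90dc60dd20ddf0dec0df80e050e120e1e0e2b0e370e440e510e5d0e6a0e760e830e8f0e9c0ea80eb50ec10ece0eda0ee60ef30eff0f0c0f180f240f310f3d0f490f560f620f6e0f7a0f870f930f9f0fab0fb80fc40fd00fdc0fe80ff41000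
  0x4100410042004200420042004300430043004400440045004600460047004800480049004a004b004c004d004e004f0051005200530055005600580059005b005d005e00600062006400660068006a006c006f0071007300760078007b007d0080008300860089008b008e009200950098009b009e00a200a500a900ac00b000b300b700bb00bf00c300c600ca00cf00d300d700db00df00e400e800ec00f100f500fa00ff01030108010d01120116011b01200125012a012f0134013a013f01440149014f0154015a015f0164016a01700175017b01800186018c01920197019d01a301a901af01b501bb01c101c701cd01d301d901df01e501eb01f101f701fd0204020a02100216021d02230229022f0236023c02420249024f0255025c02620268026f0275027c02820288028f0295029c02a202a902af02b502bc02c202c902cf02d602dc02e202e902ef02f602fc03030309030f0316031c0323032903300336033c0343034903500356035c0363036903700376037c0383038903900396039c03a303a903b003b603bc03c303c903d003d603dd03e303ea03f003f703fd0404040b04110418041e0425042c0433043904400447044e0455045c0463046a0471047804800487048e0496049d04a504ac04b404bc04c404cc04d404dc04e404ec04f504fe0506050f05180521052b0534053e05470551055b05660570057b05860591059c05a805b305bf05cc05d805e505f20600060d061b062a063906480657066706780688069a06ab06bd06d006e306f7070b07200735074b07620779079107aa07c407de07f9081508320850086e088e08af08d108f40918093d0964098c09b509e00a0d0a3b0a6a0a9b0acf0b040b3b0b740baf0bed0c2d0c6f0cb40cfc0d470d950de60e3a0e920eee0f4e0fb2101b108810fb117311f0127312fd138e142614c6156e161f16d9179e186e194a1a331b2a1c301d461e6f1fab20fc226523e82587274629282b322d682fcf326e354d38753bf13fcd441b48ef4e6054905ba663d96d6f78c9866e9724ac0fc6feea60ea60ea60ea60ea60ea60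
  17285 4538

end Pool.Agent.Lib.H56.Gen.D8
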