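import Pool.Agent.Lib.H56.Gen.Data
import Pool.Agent.Lib.H56.Gen.PolyCheck
import Pool.Agent.Lib.H56.Gen.D8.Par

/-!
# Certificate data: polynomials
-/

set_option maxRecDepth 100000

namespace Pool.Agent.Lib.H56.Gen.D8

noncomputable def pd : PD := .mk [10000, -11361, -2287, -260, 4473]
  [-19649, 23963, -9057, 3246]
  [-11237, 16131, -49, -4845] 10000 7895 8885 9869 10000 4096 1024

theorem okpar : okP par = true := by decide +kernel

theorem okpd : pdOK par pd = true := by decide +kernel

end Pool.Agent.Lib.H56.Gen.D8
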