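import Pool.Agent.Lib.H56.Gen.D8.Par
import Pool.Agent.Lib.H56.Gen.D8.Cos

/-!
# Certificate tree V, part 0
-/

set_option maxRecDepth 100000

namespace Pool.Agent.Lib.H56.Gen.D8

open Tr

noncomputable def v0_0 : Tr := (U (S (K 3) (V (T (K 3) (U (K 3) (S (K 3) (V (T (K 3) (S (K 3) (V (T L (V L L)) (K 1)))) (K 1))))) (K 1))) (S (K 3) (V (T (U (K 3) (S (K 3) (V (T (F 16776951 (S (K 1) (K 0))) (S (T (K 3) (V (F 32832 L) (F 32832 L))) (V (T (K 8) (F 32832 L)) (T (F 32832 L) (F 32832 L))))) (T (S (K 3) (T (K 3) (V (F 32832 L) (F 2097216 L)))) (S (V (T (K 3) (F 2097216 L)) (K 1)) (V (T (F 32832 L) (F 2097216 L)) (T (F 2097216 L) (K 1)))))))) (U (S (K 3) (V (T (S (K 3) (V (T L L) (T L L))) (S (V (T L L) (F 16777213 (T (K 0) (K 0)))) (V (T L L) (T L L)))) (F 16777213 (T (T (K 0) (K 0)) (K 0))))) (S (V (T (S (K 3) (T (K 3) (V (F 524352 L) (F 2097216 L))))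 (S (T (K 3) (V (F 16448 L) (K 1))) (V (T L (F 2097216 L)) (T (F 2097216 L) (K 1))))) (K 1)) (V (T (S (V (T L L) (T L L)) (V (T (F 32832 L) L) (T L L))) (S (V (T L L) (T (F 2097216 L) (F 2097216 L))) (V (T L L) (T L L)))) (T (V (S (T (F 2097216 L) (K 1)) (T (F 2097216 L) (F 2097216 L))) (K 1)) (S (K 1) (T (V (F 2097216 L) (K 1)) (K 1)))))))) (F 16777213 (T (K 0) (K 0))))))
noncomputable def v0_1 : Tr := (V (T (U (F 16776951 (S (K 1) (K 0))) (S (F 11176000 (V (K 9) (T (K 13) (S (K 13) L)))) (V (K 8) (T (K 8) (F 9076800 L))))) (U (S (V (T (K 3) (S (K 3) (T (F 8946752 L) (F 11042880 L)))) (T (S (K 3) (F 557120 L)) (V (S (K 3) (F 11042880 L)) (S (F 11042880 L) (F 11042880 L))))) (V (T (K 8) (T (F 8945728 L) (F 8421440 L))) (T (S (F 557120 L) (F 8945728 L)) (S (F 32832 L) (F 32832 L))))) (S (V (T (F 8945728 L) (S (F 11042880 L) (F 11042880 L))) (T (S (F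 11042880 L) (F 11042880 L)) (F 11173952 (S (T L L) (T L L))))) (V (T (F 9011264 L) (S (F 9011264 L) (F 9011264 L))) (T (S (F 11042880 L) (F 9076800 L)) (S (F 8945728 L) (F 8945728 L))))))) (T (U (S (K 3) (V (T (F 16776951 (S (K 1) (K 0))) (S (F 2654272 L) (F 2654272 L))) (T (F 11176000 (S (K 13) (T (K 6) L))) (V (F 2654272 L) (F 11176000 (S (K 15) L)))))) (S (T (K 3) (S (K 3) (V (F 11044928 L) (F 11173952 L)))) (F 11173952 (V (T (S L L) (S L L)) (T (V L L) (S L L)))))) (U (S (V (T (T (K 3) (F 2621504 L)) (S (F 11010112 L) (F 2621504 L))) (F 16777213 (T (K 0) (K 0)))) (V (T (S (T (F 11042880 L) (F 11042880 L)) (F 2129984 L)) (S (F 2097216 L) (F 2097216 L))) (T (S (F 11010112 L) (F 10485824 L)) (S (K 1) (F 10485824 L))))) (S (V (T (S (F 11042880 L) (F 11042880 L)) (S (F 11042880 L) (F 11010112 L))) (T (F 11010112 L) (F 15220800 (S (K 16) L)))) (V (T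 (S (F 11042880 L) (F 11042880 L)) (S (F 11010112 L) (F 10518592 L))) (T (S (F 11141184 L) (F 11141184 L)) (S (F 15335488 L) (F 11141184 L))))))))
noncomputable def v0_2 : Tr := (T (U (S (V (T (K 3) (S (K 3) (T (K 3) L))) (T (K 3) (S (K 3) (T (K 3) L)))) (V (T (V (K 8) (S L L)) (S (V L L) (V L L))) (T (S (T (K 3) L) (T L L)) (S (T L L) (V (T (F 2129984 L) (F 2097216 L)) L))))) (S (V (T (S (K 3) (T (F 557120 L) (F 32832 L))) (S (T (F 524352 L) (F 524352 L)) (T (F 32832 L) (F 32832 L)))) (T (S (K 3) (T (F 2097216 L) (F 2097216 L))) (V (S (F 2621504 L) (F 2097216 L)) (S (F 11010112 L) (F 2621504 L))))) (V (T (S (T (F 557120 L) (F 32832 L)) (T (F 8421440 L) (F 32832 L))) (S (T (F 32832 L) L) (T (F 32832 L) L))) (T (S (T (F 32832 L) (F 2097216 L)) (T (F 32832 L) (F 32832 L))) (S (T (F 2097216 L) (F 2097216 L)) (T L L)))))) (U (S (V (T (S (T (K 3) L) (V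 (T (F 524352 L) (F 524352 L)) L)) (S (T L L) (V (T (F 2097216 L) (F 2097216 L)) L))) (T (V (S (K 1) L) (K 1)) (K 1))) (V (T (S (V (T (F 32832 L) (F 8388672 L)) (T (F 2097216 L) (F 2097216 L))) (V (T (F 32832 L) (F 32832 L)) (T (F 8388672 L) (F 2097216 L)))) (S (V (T (F 8388672 L) (F 2097216 L)) (T (F 2097216 L) (F 6291520 L))) (V (T (F 8388672 L) (F 8388672 L)) (T (F 2097216 L) (F 2097216 L))))) (T (S (T L L) (V (T (F 2097216 L) (F 2097216 L)) L)) (V (S L L) (K 1))))) (S (V (T (S (T (F 2097216 L) (F 2097216 L)) (T L L)) (S (T (F 2097216 L) (F 2097216 L)) (T (F 2097216 L) (F 2097216 L)))) (T (S (T (F 2113600 L) (F 6307904 L)) (T (F 2097216 L) (F 6291520 L))) (V (S (F 6307904 L) (F 6291520 L)) (K 1)))) (V (T (S (T L L) (T L L)) (S (T L L) (T L L))) (T (S (T (F 2097216 L) (F 2097216 L)) (T L (F 2097216 L))) (V (S (F 6291520 L) (F 2097216 L)) (S (F 14680128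 L) (F 6291520 L))))))))
noncomputable def v0_3 : Tr := (T (U (S (V (T (S (F 32832 L) (F 32832 L)) (S L L)) (T (S (F 2097216 L) (F 2097216 L)) (S (F 2097216 L) (T (F 11010112 L) (F 11010112 L))))) (V (T (S (F 32832 L) (F 32832 L)) (S L (T (F 8421440 L) (F 8421440 L)))) (T (S L L) (T (S (F 10485824 L) (F 10485824 L)) (S (F 10485824 L) (F 10485824 L)))))) (S (V (T (S (F 8945728 L) (F 8945728 L)) (S (F 8912960 L) (F 8421440 L))) (T (S (F 11010112 L) (F 10485824 L)) (S (F 11010112 L) (F 10485824 L)))) (V (T (S (F 8945728 L) (F 8945728 L)) (S (F 8421440 L) (F 8421440 L))) (T (S (F 10485824 L) (F 8421440 L)) (S (F 10485824 L) (F 10485824 L)))))) (U (S (V (T (S L L) (S (F 2097216 L) L)) (T (S (T (F 15204416 L) (F 14696512 L)) (F 2097216 L)) (S (F 15220800 (T L L)) (T (F 14696512 L) (F 14696512 L))))) (V (T (S (T (F 8421440 L) (F 10485824 L)) (T (F 8421440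 L) (F 8388672 L))) (S (T (F 10485824 L) (F 10485824 L)) (T (F 8388672 L) (F 10485824 L)))) (T (V (S (F 10485824 L) (F 10485824 L)) (S (F 14680128 L) (F 10485824 L))) (V (S (F 14680128 L) (F 10485824 L)) (S (F 14696512 L) (F 14680128 L)))))) (S (V (T (S (F 10485824 L) (F 8388672 L)) (S (T (F 15204416 L) (F 15220800 L)) (F 10485824 L))) (T (S (F 14680128 L) (F 14680128 L)) (S (F 14696512 L) (F 14696512 L)))) (V (T (S (F 8388672 L) (F 8388672 L)) (S (F 8388672 L) (F 8388672 L))) (T (S (F 10485824 L) (F 10485824 L)) (S (F 14680128 L) (T (F 15204416 L) (F 15204416 L))))))))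
noncomputable def v0_4 : Tr := (S (V (T (U (S (K 3) (V (T (K 3) (S (K 3) (F 524352 L))) (T (S (K 3) (F 2621504 L)) (V (F 2621504 L) (F 15220800 (S (K 16) L)))))) (S (V (T (K 3) (S (K 3) (F 11026496 L))) (F 16269376 (T (K 13) (S (K 13) L)))) (V (T (S (F 11042880 L) (F 8945728 L)) (V (F 8912960 L) (F 11010112 L))) (T (S (F 11026496 L) (F 11010112 L)) (S (F 15220800 L) (F 11026496 L)))))) (U (S (F 16269376 (V (T (K 13) (S (K 13) (T L L))) (F 98303 (T (K 0) (K 0))))) (V (T (S (F 2621504 L) (F 2097216 L)) (V (F 2097216 L) (S (F 16269376 L) (F 14696512 L)))) (F 15220800 (T (V (S L L) (K 16)) (S (K 16) (T L L)))))) (S (F 16269376 (V (T (S (T (K 13) L) (T L L)) (S L (T L L))) (T (S L L) L))) (V (T (S (F 11010112 L) (F 11010112 L)) (S (F 16269376 (T L L)) (F 14680128 L))) (F 15220800 (T (S L (T L L)) (S L L))))))) (F 15220800 (T (U (K 16) (S (K 16) (V (T (S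 L L) (S (K 16) L)) (K 16)))) (K 16)))) (V v0_3 (T (U (S (V (T (S (F 11010112 L) (F 10485824 L)) (S (K 1) (F 14680128 L))) (K 1)) (V (T (S (F 2097216 L) (F 2097216 L)) (S (F 10485824 L) (F 2097216 L))) (F 16777213 (T (K 0) (K 0))))) (S (V (T (S (F 11026496 L) (F 11010112 L)) (S (F 15220800 L) (F 15204416 L))) (K 1)) (V (T (S (F 11010112 L) (F 10485824 L)) (S (F 14680128 L) (F 14680128 L))) (T (S (F 15220800 L) (F 14811200 L)) (F 14827584 (S (K 16) L)))))) (U (S (F 16777213 (T (K 0) (K 0))) (V (T (S (F 14680128 L) (T (F 14696512 L) (F 14696512 L))) (S (K 1) (F 14680128 L))) (K 1))) (S (F 15220800 (V (T (S L L) L) (K 16))) (V (T (S (F 14696512 L) (F 14680128 L)) (S (F 15220800 L) (F 14696512 L))) (K 1)))))))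
noncomputable def v0_5 : Tr := (T (U (S (K 3) (V (T (K 3) (U (S (K 3) (V (K 8) (T (K 3) (S (K 3) (T (F 32832 L) L))))) (S (K 3) (V (T (K 8) (S (F 32832 L) (K 8))) (T (S (K 3) (F 32832 L)) (V (S (F 557120 L) (F 557120 L)) (S (F 557120 L) (F 557120 L)))))))) (T (F 16773111 (U (K 1) (S (K 1) (V (T (K 1) (K 0)) (K 0))))) (U (S (K 3) (V (T (K 3) (S (K 3) (T (K 12) L))) (K 1))) (S (F 16777205 (V (K 0) (K 1))) (V (T (S (K 3) (T (F 2654272 L) (F 2129984 L))) (V (S (F 2621504 L) (F 2129984 L)) (S (F 2621504 L) (F 10485824 L)))) (T (S (K 1) (F 2097216 L)) (K 1)))))))) (S (V (T (K 3) (U (K 3) (S (K 3) (T (K 3) (S (K 3) (V (F 11042880 L) (F 11042880 L))))))) (F 15220800 (T (K 14) (U (K 14) (S (K 14) (T (K 14) (V (S (K 14) L) (K 16)))))))) v0_1)) (U (S (V (T (K 3) (U (S (K 3) (V (T (K 3) (S (K 3) (T (K 3) (F 16448 L)))) (K 1))) (S (K 3) (V (T (S (K 3) (T (F 2097216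 L) (F 2621504 L))) (V L (S (F 6832192 L) (F 6307904 L)))) (T (V (S (K 1) (F 2637888 L)) (K 1)) (K 1)))))) (K 1)) (V v0_2 (T (U (S (K 1) (V (T (V (S (K 1) L) (K 1)) (K 1)) (K 1))) (S (V (T (T (S (K 1) (F 2621504 L)) (K 1)) (K 1)) (K 1)) (V (T (S (T (F 10485824 L) (F 10485824 L)) (T (F 2097216 L) (F 2097216 L))) (V (S (F 10485824 L) (F 2097216 L)) (K 1))) (K 1)))) (U (K 1) (S (K 1) (V (T (T (S (K 1) (F 6291520 L)) (K 1)) (K 1)) (K 1))))))) v0_4))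
noncomputable def v0_6 : Tr := (U (F 16773109 (T (F 4 (U (K 0) (S (K 0) (V (K 0) (K 1))))) (F 1 (U (S (K 1) (V (K 1) (K 0))) (S (K 1) (V (K 1) (K 0))))))) (T (F 16773109 (S (K 1) (V (K 1) (T (U (K 0) (S (F 1 (V (K 1) (K 0))) (K 0))) (F 2 (U (K 1) (S (K 0) (V (K 1) (K 0))))))))) (S (F 16777141 (V (K 1) (F 2 (T (K 0) (U (K 0) (S (K 1) (K 0))))))) (V (T (F 16773111 (U (K 1) (S (K 1) (V (K 1) (K 0))))) (U (F 16777205 (S (K 0) (V (U (K 0) (T (K 0) (S (K 0) (V (K 0) (K 1))))) (K 1)))) (S (F 16777205 (V (K 0) (K 1))) (V (T (F 11176000 (U (K 13) (S (K 13) (V (T (K 13) (U (K 13) (S (K 13) (V (K 9) (T (K 13) (U (K 13) (S (K 13) (V (K 9) (T (K 6) (S L L)))))))))) (T (K 13) (U (K 6) (S (K 13) (V (T (K 13) (U (K 6) (S (K 13) (V (T (K 6) (S L L)) (K 15))))) (K 15))))))))) (U (S (K 3) (V (T (K 3) v0_0) (K 1))) (S (F 16269376 (V (T (K 13) (U (K 13) (S (K 13) (V (T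 (K 13) (U (K 13) (T (K 13) (S (K 13) (V (S (K 13) L) (K 15)))))) (K 15))))) (K 15))) (V v0_5 (T (U (K 1) (S (K 1) (V (T (U (F 16777213 (S (K 0) (V (T (K 0) (K 0)) (K 0)))) (S (K 1) (V (T (F 11176000 (S L L)) (F 11141184 L)) (K 1)))) (K 1)) (K 1)))) (K 1)))))) (K 1))))) (K 1)))))
noncomputable def v0_7 : Tr := (U (S (V (T (V (K 8) (S (F 8196 L) (F 73732 L))) (S (V (F 8196 L) (F 8196 L)) (T (F 8196 L) (F 8196 L)))) (T (S (V (F 8196 L) (F 8196 L)) (V (F 8196 L) (T (F 1122308 L) (F 73732 L)))) (S (V (T (F 17833988 L) (F 1056772 L)) (T (F 1056772 L) (F 1056772 L))) (V (T (F 73732 L) (F 16785412 L)) (T (F 16785412 L) (F 16785412 L)))))) (V (T (K 8) (S (T (F 8196 L) (F 8196 L)) (T (F 73732 L) (F 8196 L)))) (T (S (V (F 8196 L) (T (F 16850948 L) (F 73732 L))) (V (F 8196 L) (F 8196 L))) (S (V (T (F 73732 L) (F 73732 L)) (T (F 16785412 L) (F 16785412 L))) (V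 (T (F 204804 L) (F 73732 L)) (T (F 73732 L) (F 16785412 L))))))) (S (V (T (S (T (F 204804 L) (F 204804 L)) (T (F 16982020 L) (F 204804 L))) (S (T (F 73732 L) (F 73732 L)) (T (F 73732 L) (F 73732 L)))) (T (S (T (F 73732 L) (F 8196 L)) (T (F 73732 L) (F 8196 L))) (S (T (F 8196 L) (F 8196 L)) (T (F 8196 L) (F 8196 L))))) (V (T (V (K 8) (S (F 204804 L) (F 16982020 L))) (V (S (F 204804 L) (F 204804 L)) (S (F 73732 L) (F 73732 L)))) (T (S (T (F 73732 L) (F 8196 L)) (T (F 73732 L) (F 73732 L))) (S (T (F 8196 L) (F 8196 L)) (T (F 8196 L) (F 8196 L)))))))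
noncomputable def v0_8 : Tr := (S (V (T (F 33554159 (U (K 1) (S (K 1) (K 0)))) (U (S (K 4) (V (K 7) (T (K 4) (S (K 4) (T (F 74756 L) (F 73732 L)))))) (S (F 3351556 (V (T (K 14) (S (K 15) (T (K 14) L))) (K 14))) (V (F 18031620 (T (K 10) (V (K 11) (S L (K 11))))) (T (S (K 4) (T (K 8) (F 16983044 L))) (S (F 73732 L) (T (F 205828 L) (F 205828 L)))))))) (T (K 4) (U (S (K 4) (V (T (K 4) (S (K 4) (T (K 4) (F 8196 L)))) (T (K 4) (S (K 4) (T (K 4) (F 8196 L)))))) (S (K 4) (V (T (S (K 4) (T (F 1122308 L) (F 73732 L))) (S (T (F 1056772 L) (F 1056772 L)) (T (F 73732 L) (F 16785412 L)))) (T (S (K 4) (T (F 1056772 L) (F 1056772 L))) (S (T (F 1056772 L) (F 1056772 L)) (T (F 1056772 L) (F 16785412 L))))))))) (V (T (K 8) (U (S (V (K 7) (T (K 8) (V (K 7) (S (F 73732 L) (K 8))))) (K 8)) (S (V (K 7) (T (K 8) (S (T (F 16983044 L) (F 205828 L)) (T (K 8) (F 205828 L)))))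 (V (K 7) (T (K 8) (T (K 8) (F 204804 L))))))) (T (U (S (V (K 8) (T (K 4) (T (K 4) (S (K 4) (F 8196 L))))) (V (K 8) (T (K 8) (S (T (K 8) (F 8196 L)) (K 8))))) (S (V (T (K 8) (T (K 8) (F 73732 L))) (T (S (K 4) (F 73732 L)) (V (S (F 1122308 L) (F 1122308 L)) (S (F 73732 L) (F 73732 L))))) (V (K 8) (T (K 8) (S (T (F 16850948 L) (F 73732 L)) (T (K 8) (F 16850948 L))))))) v0_7)))
noncomputable def v0_9 : Tr := (V (T (F 18031620 (U (S (K 14) (V (K 10) (T (K 10) (S L (K 10))))) (S (T (K 14) (V L (S (K 14) L))) (T (K 10) (V (K 10) (S L (F 131076 L))))))) (U (S (V (F 20128772 (T (S (K 13) L) (S (T (K 13) L) (T L L)))) (T (F 18031620 (S (K 14) (T (K 14) L))) (S (F 3153924 L) (F 1122308 L)))) (V (F 18031620 (T (K 10) (S (T (F 131076 L) L) L))) (T (F 18031620 (S (T L L) (T L L))) (V (F 18031620 (S L L)) (F 73732 L))))) (S (V (F 20128772 (T (S L L) (S L L))) (T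 (F 20128772 (V (S L L) (S L L))) (S (F 19996676 L) (F 20127748 (T L L))))) (V (F 20128772 (T L (S L L))) (T (F 18031620 (S (T L L) L)) (S (F 20127748 (T L L)) (F 16983044 L))))))) (T (U (S (K 4) (V (T (F 33554159 (V (K 0) (K 1))) (S (T (K 4) (F 17900548 L)) (F 17899524 L))) (T (K 4) (S (K 4) (F 73732 L))))) (S (V (T (K 4) (S (K 4) (F 17900548 L))) (T (K 4) (S (K 4) (F 17899524 L)))) (V (T (F 18031620 (S L L)) (S (F 17900548 L) (F 18030596 L))) (T (S (F 17900548 L) (F 17900548 L)) (S (F 17899524 L) (F 17899524 L)))))) (U (S (V (T (S (K 4) (F 1122308 L)) (S (F 3153924 L) (F 1056772 L))) (T (K 4) (S (K 4) (F 5251076 L)))) (V (T (S (F 73732 L) (F 73732 L)) (S (F 8196 L) (F 8196 L))) (T (S (F 1056772 L) (F 8196 L)) (S (F 1056772 L) (F 8196 L))))) (S (V (T (S (F 19996676 L) (F 17899524 L)) (S (F 19931140 L) (F 19931140 L))) (T (S (F 24125444 L) (F 22028292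 L)) (S (F 32546820 (T L L)) (F 22028292 L)))) (V (T (S (F 17899524 L) (F 17899524 L)) (S (F 17833988 L) (F 16850948 L))) (T (S (F 17833988 L) (F 17833988 L)) (S (F 22028292 L) (F 17833988 L))))))))
noncomputable def v0_10 : Tr := (T (U (S (V (T (K 8) (V (K 8) (S (F 18030596 L) (F 18031620 L)))) (T (V (F 17899524 L) (F 1122308 L)) (S (F 73732 L) (F 73732 L)))) (V (K 8) (T (S (F 17899524 L) (K 8)) (S (F 73732 L) (F 16850948 L))))) (S (V (T (F 20128772 (S L (K 9))) (S (F 18030596 L) (F 18031620 L))) (T (S (F 18030596 L) (F 18030596 L)) (S (F 17899524 L) (F 17899524 L)))) (V (F 18031620 (T (K 10) (S L L))) (T (S (F 18030596 L) (F 18031620 L)) (S (F 16982020 L) (F 16982020 L)))))) (U (S (V (T (T (S (F 18030596 L) (F 18030596 L)) (F 73732 L)) (V (S (F 16982020 L) (F 16982020 L)) (F 8196 L))) (T (S (F 8196 L) (F 8196 L)) (S (F 8196 L) (T (F 16850948 L) (F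 16785412 L))))) (V (T (S (T (F 16983044 L) (F 16983044 L)) (F 16982020 L)) (S (T (F 16982020 L) (F 16982020 L)) (T (F 16982020 L) (F 16982020 L)))) (T (V (S (F 16982020 L) (F 16982020 L)) (S (F 16850948 L) (F 16850948 L))) (S (T (F 16850948 L) (F 16785412 L)) (T (F 16850948 L) (F 16785412 L)))))) (S (V (T (S (F 16982020 L) (F 16982020 L)) (T (F 16850948 L) (S (F 18030596 L) (F 18030596 L)))) (T (S (F 16850948 L) (F 16850948 L)) (S (F 16785412 L) (F 16785412 L)))) (V (T (S (F 18030596 L) (F 16983044 L)) (V (F 16982020 L) (F 16850948 L))) (T (S (F 16850948 L) (F 16850948 L)) (S (F 16785412 L) (F 16785412 L)))))))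
noncomputable def v0_11 : Tr := (S (V (F 20128772 (T (K 13) (U (K 13) (S (K 13) (V (K 10) (T (K 13) (U (F 105471 (S (K 0) (F 1 (V (K 0) (K 1))))) (S (K 13) (V (S L (K 10)) (T L L)))))))))) (T (K 4) (U (K 4) (S (K 4) (V (F 19997700 (T (K 14) (U (K 14) (S (K 14) (T (K 14) (S (K 14) (V L L))))))) (T (K 4) (U (K 4) (S (K 4) (V (T (K 4) (S (K 4) (F 19963908 L))) (F 32546820 (T (K 13) (T (K 13) L)))))))))))) (V (F 20128772 (T (K 9) (U (K 9) (S (V (K 10) (T (K 9) (U (S (V (K 10) (T (K 10) (S L (K 10)))) (K 10)) (T (K 9) (V (K 10) (S L L)))))) (K 9))))) (T (F 18031620 (U (F 244735 (S (K 0) (K 1))) (S (V (K 10) (T (K 14) (U (K 14) (S (K 14) (V (K 10) (T (K 14) (S (K 14) L))))))) (V (K 10) (T (K 10) (U (K 10) (S (T (K 10) (V (K 10) (S L L))) (K 10)))))))) (U v0_8 (S v0_9 (V (T (K 8) (U (S (V (F 18031620 (T (K 11) (S L (K 11)))) (T (S (F 16983044 L) (K 8)) (S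 (T (F 18031620 L) (F 16983044 L)) (F 16982020 L)))) (T (K 8) (V (K 7) (S (F 16982020 L) (F 16983044 L))))) (S (V (F 20129284 (T (K 8) (S L L))) (T (F 20128772 (S L L)) (S (F 16983044 L) (F 16983044 L)))) (V (K 8) (T (F 18032132 (S L (K 9))) (S (F 18031620 L) (F 16983556 L))))))) v0_10))))))
noncomputable def v0_12 : Tr := (S (F 33538031 (V (K 0) (K 1))) (V (K 8) (T (F 33554159 (U (K 1) (S (K 1) (K 0)))) (U (S (K 4) (V (K 8) (T (K 4) (U (S (K 4) (V (K 7) (T (K 4) (U (K 4) (S (K 4) (V (K 7) (T (K 4) (S (K 4) (V (K 8) (T (V (K 8) (F 8196 L)) (V (F 8196 L) (F 8196 L)))))))))))) (S (K 4) (V (K 8) (T (F 33554159 (U (K 1) (S (K 1) (K 0)))) (U (S (K 4) (V (K 8) (T (F 33554159 (S (K 1) (K 0))) (S (V (T (F 8196 L) (F 8196 L)) (T (F 8196 L) (F 8196 L))) (V (T (K 8) (F 8196 L)) (T (F 8196 L) (F 8196 L))))))) (S (V (T (F 33554159 (S (K 1) (K 0))) (S (T (K 4) (V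 (F 9220 L) (F 9220 L))) (V (T (K 8) (F 73732 L)) (T (F 73732 L) (F 73732 L))))) (T (S (K 4) (T (K 4) (V (F 73732 L) (F 73732 L)))) (S (T (K 4) (V (F 8196 L) (F 40964 L))) (V (T (F 73732 L) (F 8196 L)) (T (F 8196 L) (F 8196 L)))))) (V (T (K 8) (T (K 8) (V (K 8) (S (F 73732 L) (F 73732 L))))) (T (V (S (T (K 8) (F 73732 L)) (K 8)) (S (T (F 73732 L) (F 73732 L)) (T (K 8) (F 73732 L)))) (S (V (T (F 73732 L) (F 8196 L)) (T (F 8196 L) (F 8196 L))) (V (T (F 73732 L) (F 8196 L)) (T (F 8196 L) (F 8196 L))))))))))))))) v0_11))))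
noncomputable def treeV0 : Tr := (F 0xfffffffffffffffffffffffffffffeefffffffffffffffffffffffffffffffffffffffffffffffffffffffffffffffffffffffffffffe4ffffffffffffffffffffd75fffffffd57fffffffffffffffff87fffffffffffffffffffffffffffffffffffffffffffffffffffffffffffffffffffffffffffffff3fcffe3d7ffffff93fffffffffffffffffffffffffffffffffffffffffffffffffffffffffffffffffffffffffffffffffffffe67ffffffff3f3fffff9e7fffff33fffffffffffffffffffffffffffffffffffffffffffffffffffffffffffffffffffffffffffffffffffffffff (S (F 139088220913663 (V (K 1) (K 0))) (V (F 93807817960106 v0_6) (F 38116397503829 (U (F 33546091 (T (F 3 (U (K 1) (S (K 1) (V (K 0) (K 1))))) (F 8 (U (F 4 (S (K 1) (V (K 0) (K 1)))) (S (K 0) (V (F 1 (T (K 0) (K 1))) (K 0))))))) (T (F 33554411 (S (K 0) (V (T (F 1 (U (K 0) (S (K 0) (K 0)))) (U (F 1 (S (K 0) (K 0))) (S (V (K 1) (K 0)) (F 1 (V (K 0) (T (K 0)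 (K 0))))))) (K 0)))) (S (F 33554275 (V (T (F 5 (U (K 1) (S (K 1) (V (K 0) (K 1))))) (F 8 (U (K 0) (S (K 0) (F 1 (V (K 0) (K 1))))))) (K 1))) (V (F 33546091 (T (U (F 5 (S (K 1) (V (K 0) (K 1)))) (F 2 (S (F 4 (V (K 1) (K 0))) (F 2 (V (K 1) (K 0)))))) (K 1))) (T (F 33554159 (U (K 1) (S (K 1) (K 0)))) (U (F 33554287 (S (K 1) (V (K 0) (U (K 1) (T (K 1) (S (K 1) (V (K 0) (K 1)))))))) v0_12))))))))))

theorem pV0 : chkV par treeV0 128 128 128 128 256 256 0 163840 Lc = true := by decide +kernel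

noncomputable def v1_0 : Tr := (V (F 523 (T (F 310 (S (F 4 (V (K 2) (U (K 0) (V (K 2) L)))) (V (K 0) (U (K 0) (V (K 0) (S L L)))))) (S (F 268 (V (K 0) (U (T (K 0) (S (V (K 0) (U (K 5) L)) (V (K 2) (U (K 5) (S (F 8 L) (K 2)))))) (T (F 24 (V (K 3) L)) (V (F 24 (S L L)) (F 8 L)))))) (V (F 83 (U (K 1) (T (K 1) (S (T (K 1) (F 16 L)) (V (T (K 1) L) (F 16 L)))))) (F 22 (U (T (S (K 1) (V (K 4) (S (K 1) L))) (S (K 3) (V (K 1) (U (K 3) L)))) (T (S (F 1 L) (F 1 L)) (V L (S (F 16 L) (F 16 L)))))))))) (T (F 3791 (S (F 2 (V (U (K 2) (V L (K 1))) (K 1))) (V (U (K 2) (T (V L (K 2)) (S (V L (K 2)) (V L (K 2))))) (K 2)))) (S (F 1805 (V (U (T (K 4) (S (V (U (K 0) (F 64 L)) (K 4)) (V (U (K 0) (S (F 64 L) L)) (K 4)))) (T (F 66 (V L (K 1))) (S (S (F 64 L) (F 64 L)) (V (F 68 L) (F 64 L))))) (K 4))) (V (U (F 1672 (T (F 386 (S (K 2) (V (U (K 5) (S (K 2) L)) (K 2)))) (S (V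 (U (F 502 (T (K 1) (K 0))) (V (F 452 (S L (K 2))) (T (K 4) (F 68 L)))) (K 4)) (F 390 (V (U (K 3) (T (S L L) (K 3))) (K 2)))))) (F 1546 (T (F 266 (S (F 17 (V L (K 2))) (V (F 1 L) (V (S (F 17 L) (F 16 L)) (K 2))))) (S (V (F 270 (S (F 1 L) L)) (F 388 (T L L))) (V (F 266 (S (S (F 16 L) (F 16 L)) L)) (T (V (F 270 L) (S (F 390 L) (F 6 L))) (V (S (F 396 L) (F 14 L)) (S (F 388 L) (T (F 12 L) (F 4 L)))))))))) (F 1287 (U (K 5) (T (K 5) (S (V (T (K 5) (F 128 L)) (K 5)) (V (T (U (K 5) (V (F 128 L) (K 5))) (U (K 5) (V (F 128 L) (F 192 L)))) (F 65 (T (K 1) (T (K 1) L))))))))))))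
noncomputable def treeV1 : Tr := (F 0xfffffffffffffffffffffffffffffffffffffffffffffffffffffffffffffffffffffffffffffffffffffffffffffffffffffffffffffffffffffffffffffffffffffffffffffffffffffffffffffffffffffffffffffffffffffffffffffffffffffffffffffffffffffffffffffffffffffffffffffffffffefffffffffffffffffffffffffffffffffffffffffffffffffffffffffffffffffffffffffffffffffffffffffffbfffffffff3ffffffffffffffff9f3fffff3fffffffffffffffffffffffffffffffffffffffffffffffffffffffffffffffffffffffffffffffffffffff9fd v1_0)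

theorem pV1 : chkV par treeV1 64 64 128 128 256 256 163840 327680 Lc = true := by decide +kernel

noncomputable def v2_0 : Tr := (S (V (T (F 3909 (U (K 1) (S (K 1) (U (K 1) (V (S (K 1) L) (S L L)))))) (U (K 7) (S (K 7) (V (F 8004 (U (K 0) (T (S (K 0) (F 32 L)) (S L (F 32 L))))) (T (F 3649 L) (F 2624 L)))))) (F 2625 (T (U (K 3) (V (S (K 3) (F 2 L)) (S (F 2 L) (F 6 L)))) (U (S (K 3) (V (K 3) L)) (S (V (S (K 3) L) (F 256 L)) (V (S L L) (F 256 L))))))) (V (T (F 3141 (U (F 7 (S (V (K 4) (T L L)) (V (T L L) (T L L)))) (S (V (F 5 (T L (S (F 32 L) (F 32 L)))) (S (F 2 L) (F 6 L))) (F 7 (V (T L L) (T L L)))))) (F 7936 (U (S (S (K 0) (U (K 0) (V (F 34 L) (F 130 L)))) (F 130 (V (T (F 2 L) L) (T (F 2 L) L)))) (S (V (F 130 (T (S (F 2 L) (F 2 L)) (S L (F 2 L)))) (T (F 130 L) (F 128 L))) (V (F 160 (T (F 16 L) L)) (S (F 128 L) (F 128 L))))))) (T (F 1601 (U (S (V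 (F 7 (S (K 5) L)) (F 6 L)) (V (F 5 L) (F 7 L))) (V (S (F 2 L) (F 3 L)) (S (F 3 L) (F 7 L))))) (U (S (V (F 833 (S L (F 4 L))) (F 2561 L)) (F 6657 (V (S (F 3 L) (F 3 L)) L))) (V (S (F 2561 L) (F 7681 L)) (S (F 2563 L) (F 7937 L)))))))
noncomputable def v2_1 : Tr := (V (T (F 13824 (U (S (V (T (F 5 L) (F 21 (S (K 6) L))) (U (K 1) (T (F 545 L) (F 32 L)))) (V (T (F 37 L) (F 17 L)) (T (F 545 L) (F 33 L)))) (S (V (T (F 1 L) (S (F 1 L) (F 49 L))) (T (F 32 L) (S (F 32 L) (F 544 L)))) (T (F 545 (V L (F 8 L))) (V (F 529 L) (F 545 L)))))) (U (S (V (T (F 15872 (T L L)) (F 12832 (T (S (F 2 L) (F 3 L)) (S L (F 3 L))))) (F 13824 (T (V L (S (F 48 L) (F 48 L))) (V (S (F 16 L) (F 16 L)) (S (F 288 L) (F 272 L)))))) (V (F 13856 (T (S (F 1 L) (F 17 L)) (V (F 1 L) L))) (T (F 9744 (S (F 1 L) (F 34 L))) (F 13856 (V L L))))) (S (V (F 12832 (T (S L (F 3 L)) (V L (S (F 2 L) (F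 514 L))))) (T (F 13824 (S L (F 32 L))) (F 12832 (S L (F 256 L))))) (F 13824 (V (T (F 17 L) (S (F 17 L) (F 529 L))) (T (F 512 L) (S (F 528 L) (F 784 L)))))))) (T (U (S (F 5137 (V (T (F 4 L) (S (F 5 L) (F 5 L))) (S (F 512 L) (F 512 L)))) (F 9233 (V (T (F 7 L) (F 5 L)) (S (F 513 L) (F 516 L))))) (S (F 5137 (V (T (F 5 L) (F 5 L)) (F 512 L))) (F 9233 (V L (F 513 L))))) (F 5138 (U (S (V (T (S (F 4 L) (F 5 L)) (S (F 5 L) (F 5 L))) (T (F 548 L) (F 545 L))) (F 517 (V (T (S L L) (S L L)) (T (F 4 L) (F 8 L))))) (S (V (T (F 512 L) (F 577 (S L (F 32 L)))) (F 512 L)) (V (F 517 (T L (S (F 4 L) (F 4 L)))) (F 577 (S L L))))))))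
noncomputable def v2_2 : Tr := (S (V (T (U (K 8) (S (V (K 8) (V (K 8) (T (K 8) (F 5136 L)))) (V (T (F 13840 (V (S (F 5 L) (F 5 L)) L)) (S (F 12800 L) (F 13824 L))) (T (F 5136 L) (S (F 5136 L) (F 5648 L)))))) (U (F 12816 (S (K 2) (V (K 2) (U (K 2) (T (K 2) (S (K 2) L)))))) (S (V (T (U (K 8) (S (K 8) (F 4128 L))) (U (K 8) (S (K 8) (S (F 4640 L) (F 4640 L))))) (U (K 8) (T (S (K 8) (F 4113 L)) (F 4146 (S L L))))) (V (T (S (T (F 12832 L) (F 12800 L)) (S (F 12800 L) (F 12832 L))) (V (F 12832 (U L (S (F 32 L) (F 2 L)))) (T (F 12800 L) (F 12848 (S L L))))) (T (S (F 4112 L) (F 4624 L)) (S (F 4112 L) (F 12800 L))))))) (T (F 5137 (U (S (K 3) (V (T (K 3) (S (K 3) (F 4 L))) (S (F 544 L) (F 544 L)))) (S (V (T (F 16 L) L) (F 560 L)) (V (T (F 4 L) L) (F 512 L))))) (F 4115 (U (S (V (K 4) (S (K 4) (F 68 L))) (V (U (K 4) (T (F 4 L) (F 64 L))) (T (F 76 L) (F 68 L))))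 (S (V (T (S (F 68 L) (F 68 L)) (S (F 192 L) (F 192 L))) (F 68 L)) (V (T (S (F 68 L) (F 12 L)) L) (F 196 (S L L)))))))) v2_1)
noncomputable def v2_3 : Tr := (T (S (F 3377 (V (U (K 3) (T (V (K 3) L) (V (K 3) (F 32 L)))) (U (K 6) (T (F 32 L) (F 32 L))))) (V (U (F 8125 (T (S (K 0) (V (K 0) (K 1))) (K 1))) (T (S (F 2464 (V (F 4 L) (F 258 L))) (V (F 7072 L) (F 3361 L))) (S (F 3329 (V (S (K 3) (F 4 L)) (F 48 L))) (V (F 1409 (S (F 2 L) L)) (F 3329 L))))) (U (K 1) (T (F 3361 (V (S (F 20 L) L) (K 7))) (F 3089 (S (S (F 132 L) L) (V (K 8) (F 64 L)))))))) (S (F 3345 (V (U (K 3) (T (V (K 3) (F 64 L)) (S (F 245 (T (K 0) (K 1))) (V (U (K 3) L) (K 1))))) (U (K 1) (T (T (F 64 L) (K 1)) (K 1))))) (V (U (K 1) (T (F 3329 (S (V (S (F 36 L) (F 32 L)) (F 32 L)) (V (T (F 5 L) (F 37 L)) (S (F 36 L) (F 33 L))))) (F 3089 (S (V (T (F 12 L) (S (F 12 L) (F 12 L))) (U (K 1) (S (F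 196 L) (F 68 L)))) (V (F 69 (T (S (F 16 L) (F 16 L)) (V (F 16 L) L))) (T (F 1 L) (U (S (K 1) (F 65 L)) (F 68 L)))))))) (F 3089 (U (K 1) (T (S (V (F 4 L) (K 1)) (V (S (F 64 L) L) (T (F 192 L) (F 64 L)))) (S (K 1) (V (T (S (F 68 L) (F 64 L)) (K 1)) (K 1)))))))))
noncomputable def v2_4 : Tr := (T (S (F 13325 (V (T (V (S (F 48 L) (F 16 L)) (F 48 L)) (S (S (F 176 L) (F 48 L)) (S (F 16 L) L))) (T (F 176 L) (F 160 L)))) (V (F 13324 (T (U (V (S (F 530 L) (F 23 L)) (F 528 L)) (S (F 530 L) (F 514 L))) (U (V (S (F 532 L) (F 517 L)) (F 512 L)) (S (F 512 L) (F 512 L))))) (F 4109 (T (S (F 10 L) L) (S (F 130 L) (S (F 130 L) (F 2 L))))))) (S (F 13389 (V (T (V (S (F 16 L) L) L) (S (V (S (F 96 L) (F 32 L)) (F 96 L)) (V (S L L) L))) (T (S (F 96 L) (F 64 L)) (F 96 (U (V L L) (S (F 1 L) L)))))) (V (F 13325 (T (U (V (S (F 33 L) (F 1 L)) (F 97 (S L L))) (S L (S (F 1 L)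 (F 1 L)))) (U (S (V (F 32 L) (S (F 224 L) (F 96 L))) (V (F 97 (S L L)) (S (F 96 L) (F 96 L)))) (V (S (F 96 L) (F 65 L)) (S (F 224 L) (F 96 L)))))) (T (F 12365 (U (S (F 132 L) (V (F 68 L) (F 192 L))) (S (F 196 L) (F 64 L)))) (F 9313 (U (S (F 450 (V (S L L) L)) (V (F 386 (V L (S (F 66 L) (F 64 L)))) (S (F 194 L) (F 64 L)))) (S (F 450 (S L L)) (V (F 386 L) (F 194 L)))))))))
noncomputable def v2_5 : Tr := (S (F 1788014 (V (U (K 5) (T (K 5) (S (K 5) (V (K 5) (T (F 148 (U (K 3) (V (K 3) L))) (U (K 5) (S (K 5) (V (T (K 5) (F 4 L)) (F 150 L))))))))) (F 146 (U (T (S (K 3) (V (K 3) (F 32 L))) (F 117 (S (V (K 0) (K 1)) (V (K 0) (K 1))))) (T (S (T (F 32 L) (F 32 L)) (V (U (K 3) (F 32 L)) (F 48 L))) (S (F 48 (V L (F 1 L))) (V (T (F 32 L) (U (F 32 L) (F 48 L))) (T (F 48 L) (F 16 L))))))))) (V (U (F 205291 (T (S (K 8) (V (F 657 (U (K 1) (T (K 1) (S (K 1) (V (K 1)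 (T (K 1) L)))))) (U (K 8) (T (F 657 (S (K 1) (V (S (K 1) L) L))) (S (K 8) (V (F 656 (S (K 1) L)) (F 529 (T (F 5 L) L)))))))) (S (K 8) (V (U (K 8) (T (S (K 8) (V (T (K 8) (F 512 L)) (F 656 (T L (F 237 (S (K 1) (K 0))))))) (S (K 8) (V (F 1783 (T (S (K 0) (K 1)) (K 1))) (U (K 3) (T L (S (F 1024 L) (F 1056 L)))))))) (U (F 1787 (T (K 0) (S (K 0) (V (K 0) (K 1))))) (T (S (F 1043 (V (K 1) (T (K 1) (S (K 1) L)))) (V (T (F 529 (S (K 1) L)) (V (F 16 L) (F 1040 L))) (F 1043 (T (S L L) (S L L))))) (F 1042 (S (V (U (K 1) (T (K 1) (S (K 1) L))) (F 136 (U (K 4) (T L L)))) (V (U (S (K 1) (T (K 5) (S L (K 5)))) (T (S L (F 128 L)) (S (F 8 L) (F 16 L)))) (T (S (F 128 L) (F 128 L)) (F 136 (S (S L L) (S (F 4 L) (F 4 L)))))))))))))) (T (F 221386 v2_0) (F 204908 v2_2))) (U (F 1269928 v2_3) (F 1073316 v2_4))))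
noncomputable def v2_6 : Tr := (V (T (U (F 3139 (S (K 6) (V (U (K 6) (T (K 6) (S (F 25 (T (K 4) L)) (V (F 16 L) (F 17 L))))) (U (K 6) (T (S (K 6) (S (K 6) (F 17 L))) (S (F 41 L) (F 9 L))))))) (S (V (F 35904 (T (F 1544 (U (K 4) (S (F 224 L) (F 1 L)))) (T (F 2060 (S (F 322 L) (F 1 L))) (F 2069 L)))) (F 48386 (S (F 137 L) L))) (V (F 2627 (T (S (V (S (F 1040 L) (F 16 L)) (S (F 21 L) (F 17 L))) (V (S (F 4 L) (F 4 L)) (T (F 17 L) (F 17 L)))) (S (T (S (F 25 L) (F 17 L)) (F 25 L)) (V (S (F 1 L) (F 1 L)) (S (F 25 L) (F 17 L)))))) (F 35842 (T (V (S (F 76 L) (F 2120 (S (F 128 L) L))) (F 6 L)) (F 2116 (S (F 384 L) L))))))) (F 40001 (U (S (V (F 13 (U (K 5) (S (F 1 L) L))) (F 9 L)) (V (T (S (F 524 (U (K 4) L)) (U (S (F 524 L) (F 516 L)) (S (F 517 L) (F 516 L)))) (F 517 (S (F 32 L) (S (F 32 L) L)))) (T (S (F 521 L) (F 512 L)) (F 521 L)))) (S (V (F 13 (S (F 64 L)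 L)) (F 779 L)) (V (T (S (F 513 L) (U (F 516 L) (F 517 L))) (F 517 (S (F 32 L) L))) (S (F 523 L) (F 513 L))))))) (F 39936 (T (U (S (F 43 (T (F 38 (V (K 1) L)) L)) (V (T (U (K 4) (F 1026 L)) (F 3104 (S (F 160 L) L))) (F 1027 (S (F 160 L) L)))) (S (F 1035 L) (V (S (F 1035 L) (F 1026 L)) (F 3083 L)))) (F 2089 (S (S (F 129 L) (F 128 L)) (V (U (S (F 129 L) (F 1 L)) (F 129 L)) (F 128 L)))))))
noncomputable def v2_7 : Tr := (T (S (F 64870 (V (K 1) (T (K 1) (V (K 1) L)))) (V (F 10754 (T (U (K 5) (S (K 5) (V (T (K 5) (S (K 5) (U (K 5) (V (F 1344 L) (F 1288 L))))) (F 1033 (U (K 5) (S (K 5) (T (S (K 5) (F 4 L)) L))))))) (U (K 5) (S (F 1033 (V (U (K 5) (T (K 5) (S (K 5) L))) (T (K 5) (U (K 5) (F 192 L))))) (V (T (U (K 5) (S (S (K 5) (F 1032 L)) (T (F 1088 L) (F 3136 L)))) (S (U (K 5) (V (F 3136 L) (F 1097 L))) (V (F 3136 (T L L)) (T (F 1096 L) (F 2120 L))))) (T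 (S (F 1033 (U (K 5) L)) (V (F 1032 L) (F 1033 L))) (S (S (F 1033 L) (F 9 L)) (T (F 9 L) (F 9 L))))))))) (F 44034 (T (U (K 4) (V (S (K 4) (T (F 644 (S (K 4) L)) (S (F 518 L) (F 516 L)))) (F 518 (S (F 76 L) L)))) (U (S (K 4) (V (T (K 4) (U (K 4) (S (K 4) (F 6 L)))) (T (S (K 4) (F 6 L)) (S (F 42 L) (F 34 L))))) (S (T (F 514 L) (F 522 L)) (V (T (S (F 518 L) (F 516 L)) (S (F 518 L) (F 6 L))) (F 2 L)))))))) (S (F 64768 (V (T (U (K 1) (U (K 1) (T (F 64 L) (F 324 L)))) (S (F 324 L) (V (S (F 325 L) (F 260 L)) (F 452 L)))) (T (T (F 192 L) (F 196 L)) (F 324 L)))) v2_6))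
noncomputable def v2_8 : Tr := (S (F 2581 (V (U (T (K 3) (S (K 3) (S (K 3) (V (F 1153 L) (F 129 L))))) (T (F 1153 (V (S (K 5) L) (S L L))) (S (V (F 129 L) (F 1153 (S L L))) (F 1153 (V L (S L L)))))) (U (T (F 161 (V (K 5) (S (K 5) (S (K 5) L)))) (S (K 3) (V (T (F 129 L) (S (F 161 L) (F 1153 L))) (T (F 129 L) (S (F 1056 L) (F 160 L)))))) (T (V (F 1153 (S L L)) (S (F 161 L) (F 1153 L))) (V (S (S (F 129 L) (F 1153 L)) (F 1153 (S L L))) (S (S (F 1056 L) (F 1056 L)) (S (F 1152 L) (F 1153 L)))))))) (F 596 (V (U (T (F 3089 (V (K 2) (S (S L L) (K 2)))) (V (F 3089 (S (S L L) (S L (K 2)))) (S (F 2065 (S L L)) (F 1041 (S L L))))) (F 3073 (T (V (S (F 32 L) (F 160 L)) (S (F 32 L) (F 160 L))) (S (V (F 32 L) (S (F 32 L) (F 32 L))) (T (F 32 L) L))))) (U (T (F 2065 (V (S L (S (F 1 L) (F 1 L))) (S L L))) (S (V (T (F 3089 L) (F 2049 L)) (T (F 2065 L) (F 2048 L))) (F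 3073 (V (T (F 32 L) (S (F 32 L) (F 32 L))) (T L (S L L)))))) (F 3073 (T (V (S (F 32 L) (F 32 L)) (S (F 40 L) (F 160 L))) (S (V L (S (F 32 L) (F 32 L))) (V L (S (F 32 L) (F 1 L))))))))))
noncomputable def v2_9 : Tr := (S (V (F 139779 (U (T (S (K 3) (V (F 2449 (S (K 5) L)) (F 7440 (T (F 130 L) L)))) (V (S (T (K 3) (F 1296 L)) (T (F 3344 L) (F 7184 (S (F 2 L) L)))) (S (F 5392 (T L (K 7))) (T (F 5392 L) (F 5136 L))))) (T (F 6544 (S (V (S (F 128 L) (F 129 L)) (S (F 1 L) (F 129 L))) (V (F 128 L) (F 1 L)))) (F 7424 (S (V (S (F 16 L) (F 16 L)) (S (F 16 L) (F 16 L))) (V (S (F 16 L) (F 2 L)) (S (F 16 L) (F 2 L)))))))) (F 131607 (U (T (S (K 1) (T (S (F 552 L) (F 296 L)) (K 1))) (K 1)) (T (S (F 2336 (V (S (F 34 L) (F 34 L)) L)) (F 2088 (T (S (F 6 L) (F 6 L)) L))) (S (F 2088 (T (S (F 2 L) (F 2 L)) L)) (T (F 2056 L) (F 2056 L))))))) (V (U (T (F 141515 (V (S (S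 (F 33 L) (F 33 L)) (S (F 545 L) (F 517 L))) (F 800 (S (T (F 64 L) L) (T (F 80 L) (S (F 64 L) (F 64 L))))))) (F 139271 (S (V (T (F 4944 (S L (F 128 L))) (S (F 6720 L) (F 6464 L))) (S (F 2112 L) (F 2112 L))) (V (T (F 4865 L) (F 6464 (S L L))) (T (F 6464 L) (F 6208 L)))))) (F 139471 (T (F 81 (V (S L L) (S (S (F 1 L) (F 33 L)) (F 1 L)))) (S (V (S (F 576 L) (F 576 L)) (S (F 576 L) (F 576 L))) (V (S (F 576 L) (F 513 L)) (S (F 576 L) (F 576 L))))))) (F 139799 (U (T (V (S (F 1168 (S L L)) (F 1156 (T (F 144 L) L))) (F 148 (S (K 6) (S L L)))) (V (S (S (K 1) L) (T (F 1152 L) (F 1152 L))) (K 1))) (T (S (T (F 1424 L) (F 1152 L)) (S (F 1152 L) (F 1152 L))) (S (T (F 1024 L) (F 1024 L)) (V (S (F 1168 L) (F 1156 L)) (F 1152 L))))))))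
noncomputable def v2_10 : Tr := (U (T (F 257759 (S (K 0) (V (U (K 0) (T (F 4 (S (K 1) (K 0))) (V (F 4 (S (K 1) (S (K 1) (K 0)))) (K 2)))) (K 2)))) (S (F 225279 (V (U (K 1) (T (K 1) (S (K 1) (V (K 1) (K 0))))) (K 0))) (V (U (F 225247 (T (K 2) (U (K 2) (S (K 1) (F 2 (V (K 0) (K 1))))))) (T (F 207554 (S (U (K 2) (S (K 2) (V (F 640 L) (F 576 L)))) (U (K 5) (V (S (F 130 L) (F 130 L)) (T (F 706 L) (F 576 L)))))) (S (F 139779 (V (T (U (K 3) (F 273 L)) (S (F 16 L) L)) (T (S (K 1) (F 1040 L)) (K 1)))) (V (T (F 207490 (V (S (F 288 L) (F 288 L)) (S (F 1056 L) (F 1280 L)))) (S (F 139779 L) (F 139905 L))) (F 139797 (T (S (F 16 L) (F 128 L)) (S L L))))))) (F 158357 (U (K 1) (T (S (K 1) (V (U (K 1) (S L (F 1 L))) (K 1))) (K 1))))))) (T (F 10443 (S (V (F 67 (U (T (K 5) (S (K 5) (T (K 5) L))) (T (F 65 (S (K 1) (S L L))) (V (S (F 3 L) (F 65 L)) (F 3 (S L (F 2 L)))))))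 (F 1600 (U (F 208 (T (S (K 1) (S (K 1) L)) (V (S (K 1) (S L L)) (S (K 0) (T L (K 0)))))) (T (F 80 (S L (F 1 L))) (S (T (F 208 L) (F 128 L)) (F 192 (S L L))))))) (F 11 (V (U (T (F 17 (V (S L L) (S (F 32 L) (F 32 L)))) (V (S (F 16 L) (F 1 L)) (F 17 (S L L)))) (F 17 (T (V (S (F 32 L) (F 32 L)) (F 32 L)) (V (S L (F 32 L)) (S (F 32 L) (F 32 L)))))) (F 19 (T (V (S L L) (S L L)) (V (S (T L (S L L)) (S L L)) (U (T (S L L) (S L L)) (S L L))))))))) v2_9))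
noncomputable def v2_11 : Tr := (S (F 129852224 (V (U (K 7) (T (K 7) (S (K 7) (V (K 7) (U (K 7) (T (K 7) (S (K 7) (V (F 6408 (S (K 2) L)) (F 4385 (S (K 3) L)))))))))) (U (K 7) (T (F 2603 (S (K 3) (V (K 3) (U (K 3) (V (K 3) (S (K 3) (T (K 3) L))))))) (F 291 (S (F 491 (V (K 0) (K 1))) (V (U (K 4) (T (V (K 4) (S (K 4) (S (K 4) (F 129 L)))) (S (T (K 4) (S (K 4) (F 1 L))) (T (S (F 1 L) (F 1 L)) (S (F 1 L) (F 1 L)))))) (U (K 2) (T (V (S (K 2) L) (K 2)) (K 2)))))))))) (V (F 62415377 (U (T (F 61311 (S (K 0) (K 1))) (S (K 12) (V (F 35412 (U (K 2) (T (K 5) (S (V (K 5) (U (K 2) (S (K 2) L))) (K 5))))) (U (F 61279 (T (K 0) (U (K 0) (S (K 0) (V (K 1) (F 2 (T (K 1) (K 0)))))))) (T (F 35412 (S (K 2) (V (K 5) (T (K 5) L)))) (S (F 33300 (V (U (K 2) (S (K 2) (F 136 L))) (U (K 2) (T (F 2184 L) (S (F 2056 L) (F 2176 L)))))) (F 33360 (V (T (F 522 (S L (K 4))) (S (F 512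 L) (F 8 L))) (T (S (F 520 L) (F 520 L)) (U (S (F 512 L) (F 512 L)) (F 512 L))))))))))) (T (F 34885 (S (V (F 1296 (U (K 5) (T (K 5) (S (K 5) (T L L))))) (U (K 2) (T (S (K 2) (S (K 2) (F 1280 L))) (F 1296 (S (K 5) (T L L)))))) (V (U (K 6) (T (V (K 6) (F 1026 L)) (V (F 1026 L) (F 1298 (S L L))))) (U (T (F 1979 (S (K 1) (K 0))) (V (F 1296 (S L (K 2))) (F 274 (S L (S (F 1 L) (F 1 L)))))) (F 1298 (T (V (S L L) (S (F 8 L) (F 8 L))) (V (S L L) (S L (F 8 L))))))))) v2_8))) (F 44909312 v2_10)))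
noncomputable def v2_12 : Tr := (S (F 1170 (V (U (F 1632 (T (K 3) (T (K 3) (S (K 3) L)))) (T (S (K 3) (T (V (F 32 L) (F 1632 L)) (F 1568 (S (F 4 L) L)))) (F 1632 (S L (T (S (F 4 L) L) (F 1 L)))))) (F 1600 (U (F 175 (T (K 1) (K 0))) (T (S (S (K 4) (F 4 L)) (T (F 4 L) (F 4 L))) (S (F 9 L) (F 4 L))))))) (V (U (T (S (F 1426 (T (K 3) (V (S (K 3) L) (F 256 L)))) (V (T (S (F 1298 L) (F 274 L)) (S (F 1298 L) (F 274 L))) (F 402 (T (S (F 16 L) L) L)))) (S (F 402 (V (T (F 16 L) (F 1600 (S (F 12 L) L))) (F 1616 (S L L)))) (F 275 (V (T (S (F 64 L) L) L) (F 1216 (T (S (F 8 L) L) L)))))) (T (S (F 1298 (V (T L (F 1024 L)) (T (F 1056 L) (F 1568 L)))) (V (T (F 274 L) (F 275 L)) (F 275 (S (F 1024 L) L)))) (F 275 (S (V (S (F 1152 L) (F 1024 L)) (F 1216 L)) (V (S L L) (F 1216 (S L L))))))) (F 391 (U (T (S (F 336 (U (K 5) (T L L))) (T (S (F 80 L) (F 64 L)) (F 64 L))) (V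 (S (F 336 L) (F 64 L)) (K 1))) (T (S (F 336 (T (S L L) L)) (V (S (F 320 L) (F 256 L)) (F 320 L))) (F 832 (S (S (F 4 L) (F 4 L)) (S L L))))))))
noncomputable def v2_13 : Tr := (V (U (T (K 11) (S (K 11) (V (U (K 11) (T (K 11) (S (F 22527 (V (K 1) (F 2 (T (K 0) (K 0))))) (V (T (U (K 11) (S (K 11) (F 274 L))) (S (F 464 L) (F 384 L))) (F 452 (T (S (K 3) L) (F 1024 L))))))) (F 24575 (U (K 0) (T (K 0) (K 0))))))) (T (S (F 1495 (V (K 3) (U (K 3) (T (K 3) (T (K 3) (S (K 3) (S (K 3) L))))))) (V (U (F 1298 (T (K 3) (S (K 3) (T (K 3) (U (K 3) (V L L)))))) (T (F 1298 (S (K 3) (V (S (F 1 L) (F 1 L)) (S L L)))) (S (F 1298 (V (T L L) (T (F 32 L) (F 32 L)))) (V (S (F 274 L) (F 274 L)) (T (F 1298 L) (F 275 L)))))) (U (F 1412 (T (K 3) (S (K 3) (V (T (K 3) (S (K 3) (F 640 L))) (T (F 1152 L) (F 1568 L)))))) (F 403 (T (S (V (K 3) (T (K 3) (F 528 L))) (V (T (F 16 L) (F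 16 L)) (T (F 16 L) (F 528 L)))) (S (T (V (F 16 L) (F 592 L)) (S (F 592 L) (F 528 L))) (T (V (F 16 L) (F 528 L)) (S (F 528 L) (F 512 L))))))))) v2_12)) (F 1415 (U (K 1) (T (S (F 501 (V (U (K 1) (T (K 0) (K 1))) (K 1))) (V (U (F 509 (T (T (K 0) (K 0)) (K 0))) (T (S (V (S (F 128 L) (F 128 L)) (K 1)) (V (T (F 128 L) (F 128 L)) L)) (V (S (S (F 160 L) (F 160 L)) (S (F 160 L) (F 160 L))) (K 1)))) (K 1))) (S (K 1) (V (U (K 1) (V (T (S (K 1) (F 160 L)) (F 416 (S (K 4) L))) (K 1))) (K 1)))))))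
noncomputable def v2_14 : Tr := (U (T (F 122367 (U (S (K 0) (K 1)) (S (K 0) (V (K 1) (T (K 1) (S (S (K 0) (K 1)) (K 1))))))) (U (S (K 13) (V (T (K 9) (S (V (K 9) (T (K 9) (S (F 65672 L) (K 9)))) (K 9))) (T (V (K 9) (S (K 13) (T (K 9) (F 65664 L)))) (U (S (T (K 13) (V L L)) (V (S L (K 9)) (T L L))) (V (S (S L L) (S (F 136 L) (F 136 L))) (S (S L L) (S L L))))))) (S (V (T (K 13) (S (K 13) (V (F 65930 (S L L)) (S (F 138 L) (F 138 L))))) (T (S (K 13) (V (F 138 L) (F 130 L))) (V (S (K 13) (S (F 130 L) (F 130 L))) (S (S (K 13) (F 18 L)) (S L L))))) (V (T (K 9) (S (V (F 65930 (S L (K 6))) (S (F 138 L) (F 65674 L))) (V (K 9) (S (F 65928 L) (F 65928 L))))) (T (S (V (F 65674 L) L) (V (F 65928 L) (F 136 L))) (V (S (S (F 136 L) (F 136 L)) (S (F 136 L) (F 136 L))) (S (S L L) (S L L)))))))) (T (S (V (F 65930 (T (F 4027 (S (K 1) (K 0))) (S L (F 8 L)))) (T (F 65946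 (U (K 2) L)) (S (F 65690 (T (F 128 L) L)) (F 65930 (T (F 512 L) L))))) (F 65930 (V (T (K 6) (S (F 1024 L) (K 6))) (T (S (F 8 L) (F 1024 L)) (U (S L L) (S (F 2560 L) (F 1536 L))))))) (S (V (U (T (S (F 65674 L) (F 65930 L)) (S (S (F 138 L) (F 138 L)) (S (F 138 L) (F 138 L)))) (T (F 65946 (S L L)) (S (F 155 (S L L)) (F 394 L)))) (U (T (S (T (F 155 L) (F 154 L)) (T (F 65690 L) (F 154 L))) (V (S (F 146 L) (F 138 L)) (S (F 19 L) (S (F 27 L) (F 27 L))))) (T (S (F 155 (S (F 1 L) (F 256 L))) (F 154 L)) (F 155 (V (S L L) (S L L)))))) (V (T (F 65930 (V L (S L (F 1024 L)))) (V (F 65930 (S L L)) (S (F 138 L) (F 65930 (S L L))))) (U (T (S (S (F 138 L) (F 394 L)) (T (F 65930 L) (F 394 L))) (V (S (F 138 L) (F 138 L)) (S (F 10 L) (F 10 L)))) (T (S (F 410 L) (F 65930 L)) (V (F 395 (S L (F 2048 L))) (S (F 155 L) (F 271 L)))))))))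
noncomputable def v2_15 : Tr := (T (U (F 122303 (S (K 0) (V (T (K 0) (V (F 4 (S (K 1) (K 0))) (K 2))) (K 2)))) (S (F 90111 (V (K 1) (T (K 1) (V (K 1) (K 0))))) (V (T (V (K 9) (F 65920 L)) (V (S (F 65672 L) (F 65928 L)) (S (F 144 L) (F 65792 L)))) (T (V (F 65552 L) (S (F 5137 L) (F 66576 L))) (V (S (F 17 L) (F 1040 L)) (S (F 1041 L) (F 1040 L))))))) (U (S (F 90111 (V (T (K 1) (V (K 1) (K 0))) (K 0))) (V (T (V (S (S (K 13) L) (S L L)) (S (S (K 13) L) (T L L))) (U (V (S (T (K 13) L) (T L L)) (S (K 15) (T L L))) (S (V (S L L) (S (K 15) (F 17 L))) (V (S L L) (S L L))))) (T (V (S (K 15) (T (F 1040 L) (K 15))) (K 15)) (K 15)))) (S (V (T (S (K 13) (V L (F 17 L))) (S (T (K 13) (S (K 13) (F 19 L))) (V (S (F 17 L) (F 17 L)) (F 17 L)))) (F 98303 (T (T (K 0) (K 0)) (K 0)))) (V (T (V (S L L) (S L L)) (V (S (S L L) (S L L)) (S (S (F 17 L) (F 17 L)) (T (F 17 L) (F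 17 L))))) (T (V (S (F 17 L) L) (S (K 15) (S (K 15) (F 1073 L)))) (V (S (F 17 L) (S (F 49 L) (F 49 L))) (K 15)))))))
noncomputable def v2_16 : Tr := (T (S (V (T (V (F 69786 (S (F 1024 L) (F 64 L))) (S (F 4251 L) (F 65690 L))) (V (U (F 146 L) (F 155 L)) (S (F 147 L) (F 19 L)))) (T (S (S (F 1043 L) (F 1043 L)) (F 19 L)) (V (S (F 1043 L) (F 19 L)) (S (F 1075 L) (F 1043 L))))) (V (T (F 65946 (V (S (F 8 L) (F 8 L)) (S L L))) (V (S (F 154 L) (F 65930 (S (F 512 L) L))) (S (F 26 L) (F 266 L)))) (U (T (S (F 19 L) (F 65808 L)) (S (F 17 L) (F 17 L))) (T (S (F 155 L) (F 283 L)) (S (F 27 L) (F 27 L)))))) (S (V (U (T (S (S (F 19 L) (F 19 L)) (T (F 19 L) (F 19 L))) (S (S (F 19 L) (F 19 L)) (T (F 19 L) (F 19 L)))) (T (T (F 19 L) (F 19 L)) (S (F 27 L) (F 19 L)))) (T (V (S (F 1043 L) (F 19 L)) (F 1075 (S (F 2048 L) L))) (F 1075 (U (S (K 1) (S (F 2048 L) L)) (S (F 2048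 L) (F 2048 L)))))) (V (U (T (S (S (F 17 L) (F 17 L)) (S L L)) (S (T (F 17 L) (F 17 L)) (T (F 17 L) L))) (T (S (S (F 27 L) (F 27 L)) (F 11 L)) (S (S (F 27 L) (F 27 L)) (S (F 27 L) (F 25 L))))) (U (T (S (S (F 1041 L) (F 49 L)) (S (F 49 L) (F 17 L))) (S (S (F 1075 L) (F 1073 L)) (T (F 53 L) (F 1077 L)))) (T (S (F 51 L) (F 53 L)) (F 55 (S L (S (F 64 L) L))))))))
noncomputable def v2_17 : Tr := (T (S (V (U (T (K 14) (S (K 14) (T (K 14) (F 149 L)))) (F 405 (T (S (K 3) (S (F 2048 L) (F 2048 L))) (V (S (F 2064 L) (F 2048 L)) L)))) (T (F 413 (U (K 3) (S (K 3) L))) (S (F 2197 (S (F 256 L) L)) (S (F 149 L) (F 149 L))))) (V (U (T (F 405 (V (S (S (K 3) (F 2048 L)) (S (F 2048 L) (F 2048 L))) (S L (S (F 2048 L) L)))) (V (S (F 405 (S (F 2048 L) L)) (F 285 (S L L))) (S (F 149 L) (F 157 (S L L))))) (F 413 (T (S (S L L) (T L L)) (V (S L L) (S L L))))) (U (T (S (S (K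 14) (F 149 L)) (T (F 149 L) (F 149 L))) (S (S (F 2197 L) (F 149 L)) (T (F 149 L) (F 149 L)))) (T (S (F 405 L) (F 149 L)) (S (F 157 L) (F 149 L)))))) (S (V (U (T (S (S (K 14) (F 149 L)) (S (F 149 L) (F 21 L))) (S (F 149 L) (F 21 L))) (T (S (F 405 L) (F 157 (S (F 512 L) L))) (F 157 (S (F 512 L) L)))) (F 2197 (T (S (F 1024 L) (S (F 1024 L) L)) (S (F 5184 L) (T (F 5184 L) (F 7232 L)))))) (V (U (T (S (T (F 21 L) (F 21 L)) (V (S (F 29 L) (F 29 L)) (F 21 L))) (S (S (F 21 L) (F 21 L)) (V (F 17 L) (F 21 L)))) (T (S (F 157 (S L L)) (S (F 29 L) (F 29 L))) (S (F 29 L) (S (F 31 L) (F 29 L))))) (U (T (S (F 149 L) (F 21 L)) (S (F 3125 L) (F 55 L))) (F 181 (T (S (F 4096 L) L) (S (F 4288 L) (F 6144 L))))))))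
noncomputable def v2_18 : Tr := (V (U (T (U (K 14) (S (K 14) (V (T (K 14) (S (K 14) (T (V (F 400 L) (F 145 L)) (V (F 273 L) (F 21 L))))) (T (F 2197 (V (K 3) (T (K 3) (S (K 3) L)))) (S (T (K 14) (F 149 L)) (V (T (F 149 L) (F 149 L)) (S (F 2197 L) (F 149 L)))))))) (U (S (K 14) (V (T (U (K 14) (T (K 14) (S (K 14) (V (F 17 L) (F 21 L))))) (S (U (K 14) (T L (F 2049 L))) (V (T (S (F 17 L) L) (S (F 17 L) (F 17 L))) (T L (F 2049 L))))) (T (S (K 16) (V (S (K 16) L) (K 16))) (K 16)))) (S (V (T (K 14) (S (K 14) (S (F 17 L) (F 17 L)))) (F 196607 (T (K 0) (K 0)))) (V (T (S (V (S (F 17 L) (F 17 L)) (F 17 L)) (V (T (F 17 L) (F 17 L)) (S (F 17 L) (F 17 L)))) (V (S (S (F 21 L) (F 17 L)) (S (F 17 L) L)) (S (F 21 L) L))) (T (V (S (F 149 L) (S (F 149 L) (F 21 L))) (K 16)) (V (S (F 3109 L) (F 37 L)) (K 16))))))) v2_17) (F 2197 (U (F 8189 (T (U (K 0) (S (K 0) (V (T (K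 0) (K 0)) (K 0)))) (K 0))) (T (S (U (K 1) (V (T (F 1024 L) (F 5184 L)) (K 1))) (V (T (S (S (F 1024 L) L) (T L (F 1024 L))) (S (F 1024 L) (T (F 1024 L) (F 5120 L)))) (F 8189 (T (K 0) (K 0))))) (S (F 8189 (T (K 0) (K 0))) (V (T (U (K 1) (F 5120 L)) (S (F 7232 L) (F 5184 L))) (K 1)))))))
noncomputable def v2_19 : Tr := (V (F 8979217 (T (U (S (V (T (K 12) (F 1072 L)) (T (F 1554 L) (F 18 L))) (V (K 12) (T (K 12) (F 18 L)))) (S (V (F 1586 (S L L)) (S (F 530 L) (F 530 L))) (V (F 1586 (S L (K 7))) (T (F 1586 L) (F 530 L))))) (U (S (V (T (F 1056 L) L) (T (S (F 530 L) (F 530 L)) (S (F 18 L) (F 18 L)))) (V (T (F 48 L) L) (T (S (F 530 L) (F 530 L)) (S (F 18 L) (F 18 L))))) (S (V (T (F 50 L) (F 34 L)) (T (F 18 L) L)) (V (T (F 1074 L) (F 48 L)) (T (F 18 L) (S (F 50 L) (F 50 L)))))))) (F 44106513 (T (U (S (V (T (S (K 15) (F 784 L)) (S (F 272 L) (F 272 L))) (T (S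 (F 304 L) (F 304 L)) L)) (V (T (S (F 784 L) (F 280 L)) (S (F 272 L) (F 272 L))) (T (S (F 304 L) (F 272 L)) (S (F 272 L) (F 272 L))))) (S (V (T (F 272 L) (F 272 L)) (T (F 304 L) (F 272 L))) (V (T (F 280 L) L) (T (F 272 L) L)))) (U (S (V (T (S (F 272 L) L) (S (F 17 L) L)) (T L (S (F 49 L) (F 49 L)))) (V (T (S L L) (S L L)) (T (S (F 272 L) L) (S (F 17 L) L)))) (S (V (T L L) (T (F 17 L) (F 33 L))) (V (T L (S (F 17 L) (F 17 L))) (T L L)))))))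
noncomputable def v2_20 : Tr := (U (S (F 42009361 (V (T (U (K 16) (S (K 16) (T (F 1578 (V (K 3) L)) (S (F 1056 L) (F 1056 L))))) (U (S (K 16) (V (T L (S (F 1058 L) (F 34 L))) (T L (S (F 98 L) (F 40 L))))) (S (T (K 16) (S (K 16) L)) (V (S L L) (S L L))))) (T (U (F 617 (S (K 3) (V (K 3) (T (K 3) (S (K 3) L))))) (S (K 16) (V (T (F 616 L) (F 552 L)) (T (F 616 L) (F 616 L))))) (U (S (F 720895 (V (K 1) (K 0))) (V (T (F 96 L) (S (F 105 L) (F 97 L))) (T (F 73 L) (K 18)))) (S (T (V (F 609 L) (F 619 L)) (S (F 75 L) (F 73 L))) (V (T (F 104 L) (F 97 L)) (T (F 105 L) (F 107 L)))))))) v2_19) (F 42533649 (S (V (T (S (V (T (F 794 L) (F 538 L)) (T (F 778 L) (F 298 L))) (V (T (F 794 L) (F 538 L)) (T (F 778 L) (F 266 L)))) (S (V (S (F 34 L) L) (T (F 299 (S L L)) (F 35 L))) (V (T (F 26 L) (F 18 L)) (T (F 10 L) (S (F 43 L) (F 11 L)))))) (T (S (V (T (F 298 L) (F 299 (S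 (F 512 L) L))) (F 299 (T L L))) (T (V (F 266 L) (F 297 L)) (V (F 296 L) (F 297 L)))) (S (V (T (F 43 L) (F 43 L)) (F 299 (T L (F 64 L)))) (T (V (F 41 L) (F 43 L)) (V (S (F 299 L) (F 43 L)) (F 43 L)))))) (V (T (S (V (T (F 1818 L) (F 538 L)) (T (F 792 L) (F 280 L))) (V (S (F 794 L) (F 1816 L)) (S (F 280 L) (F 280 L)))) (S (V (T (F 26 L) (F 24 L)) (T (F 24 L) L)) (V (T (F 536 L) (F 24 L)) (T (F 24 L) L)))) (T (S (V (T (F 266 L) (F 264 L)) (T (F 265 L) (F 265 L))) (V (T (F 280 L) (F 264 L)) (T (F 264 L) (F 264 L)))) (S (V (T (F 9 L) (F 9 L)) (T (F 41 L) (F 41 L))) (V (T L L) (T (F 9 L) (F 9 L)))))))))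
noncomputable def v2_21 : Tr := (V (T (U (S (F 42009361 (V (T (S L L) (S L L)) (T (S L L) (S (F 65 L) L)))) (T (F 8979217 (V (S L L) (S L L))) (V (F 8979217 (S L L)) (F 34145041 (S L L))))) (S (F 42009361 (V (T L (S (F 35 L) (F 48 L))) (T L L))) (F 8979217 (T (V L (S (F 19 L) (F 18 L))) (V (S (F 34 L) (F 34 L)) (S (F 19 L) (F 18 L))))))) (U (S (F 42009361 (V (T (S L L) (S L L)) (T (S (F 65 L) L) (S (F 67 L) (F 65 L))))) (V (T (F 34145041 (S L L)) (F 100729617 (S L L))) (F 100729617 (T (S L L) (S L L))))) (S (F 42009361 (V (T L (S (F 67 L) (F 3 L))) (T L (S (F 75 L) (F 75 L))))) (T (V (F 34145041 L) (F 100729617 L)) (F 109118225 (V (S L L) L)))))) (T (F 42009361 (U (S (T (V (S (F 73 L) (F 9 L)) (F 73 L)) (V (S (F 73 L) (F 73 L)) (K 18))) (V (T (S (F 9 L) L) (S (F 9 L) L)) (T (S (F 73 L) (F 73 L)) (S (F 201 L) (F 201 L))))) (S (V (T (F 65 L) (F 65 L))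 (S (F 75 L) (F 73 L))) (V (T (S (F 41 L) (F 41 L)) L) (T (F 73 L) (F 73 L)))))) (F 100729617 (U (S (V (T (F 66 L) (F 67 L)) (K 18)) (T (V L (F 194 L)) (V L (F 203 L)))) (S (V (T (F 67 L) (F 75 L)) (F 203 (S L L))) (V (T (F 66 L) (F 67 L)) (T (F 202 L) (F 207 L))))))))
noncomputable def v2_22 : Tr := (S (V (T (S (V (T (S (F 107 L) (F 115 L)) (S (F 107 L) (F 115 L))) (T (F 99 L) (F 99 L))) (T (V (F 34 L) (F 35 L)) (V (S (F 99 L) (F 51 L)) (F 107 (S L L))))) (S (V (T (F 107 (S L L)) (F 99 L)) (S (F 99 L) (F 67 L))) (V (T (S (F 99 L) (F 99 L)) (S (F 115 L) (F 99 L))) (T (F 67 L) (F 75 L))))) (T (S (T (F 107 (V L (F 5120 L))) (F 75 L)) (V (T (F 107 (S L L)) (F 75 L)) (F 107 (S L L)))) (S (F 203 (T L L)) (V (S (F 203 L) (F 75 L)) (F 203 L))))) (V (T (S (V (T (S (F 58 L) (F 58 L)) (S (F 51 L) (F 56 L))) (T (S (F 43 L) (F 43 L)) (S (F 43 L) (F 43 L)))) (V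 (T (S (F 58 L) (F 58 L)) (S (F 56 L) (F 56 L))) (T (S (F 57 L) (F 57 L)) (S (F 43 L) (F 41 L))))) (S (V (T (S (F 51 L) (F 35 L)) (S (F 99 L) (F 35 L))) (T (F 3 L) (F 67 L))) (V (T (S (F 49 L) (F 56 L)) (S (F 35 L) (F 49 L))) (T (S (F 43 L) (F 41 L)) (F 3 L))))) (T (S (V (T (F 41 L) (F 107 (S L L))) (T (F 75 L) (F 203 L))) (V (T (S (F 43 L) (F 43 L)) (S (F 43 L) (F 43 L))) (T (F 41 L) (F 75 L)))) (S (V (T (F 75 L) (F 79 L)) (F 203 (S L L))) (V (T (F 11 L) (F 75 L)) (F 203 (T L L)))))))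
noncomputable def v2_23 : Tr := (S (V (U (T (F 570 (S (V L (S (F 20480 L) (F 4608 L))) (V L (S (F 16896 L) L)))) (S (V (F 59 (S L L)) (F 619 (S L L))) (F 59 (T (S L L) (S L L))))) (F 59 (T (S (T (F 9728 L) (F 9728 L)) (S (F 1536 L) (F 1536 L))) (V (S (F 8704 L) (F 1536 L)) (S (F 9216 L) (F 9216 L)))))) (F 107 (U (T (S (V (S (F 9216 L) (F 9216 L)) L) (V (S L L) (S (F 9216 L) L))) (S (T (S (F 9216 L) L) L) (V (S L L) L))) (T (V (S (F 9728 L) (F 9216 L)) (S (F 25600 L) (F 25600 L))) (S (S (F 9216 L) (F 9216 L)) (T (F 9216 L) (F 9216 L))))))) (V (U (T (F 570 (S (V L (S L L)) (V (F 768 L) L))) (S (V (F 58 L) (F 59 (S L L))) (V (F 58 L) (F 59 (S L L))))) (T (F 1594 (S (S (F 8192 L) (F 8192 L)) (S (F 256 L) (F 4352 L)))) (F 59 (V (S (F 1536 L) (F 16896 L)) (S L L))))) (U (T (V (S (F 571 (S L L)) (F 568 L)) (S (F 619 (S L L)) (F 553 L))) (S (V (S (F 107 L)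 (F 59 L)) (F 619 (S L L))) (V (S (F 59 L) (F 57 L)) (F 41 L)))) (F 59 (T (S (T (F 9216 L) (F 9216 L)) (S L L)) (S (S L L) (T L L)))))))
noncomputable def v2_24 : Tr := (S (V (U (T (F 107 (V (S (T L L) (T L L)) (S (S L L) (S L L)))) (S (V (F 99 L) (F 107 L)) (V (F 115 (S L L)) (F 107 (S L L))))) (F 123 (T (S (T (F 512 L) (F 8192 L)) (T L L)) (S (S L L) (T L (F 8192 L)))))) (F 107 (U (T (S (S L L) (T L L)) (V (S L L) (S (F 20672 L) (F 20480 L)))) (T (S L (S (F 24576 L) (F 24576 L))) (S (F 28672 L) (S (F 28672 L) (F 28672 L))))))) (V (U (T (F 59 (S (V (T L L) (T L L)) (V (T L L) (T L L)))) (S (V (F 59 (T L L)) (F 107 (S L L))) (F 59 (T (V L L) (V (S (F 24576 L) (F 24576 L)) L))))) (F 59 (T (S (S L L) (V L L)) (S (V L (S (F 28672 L) (F 28672 L))) (T L L))))) (U (T (S (F 107 (V (S L L) L)) (V (S (F 107 L) (F 43 L)) (F 111 (S L L)))) (F 79 (S (V (S L L)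 L) (V (T L (F 12288 L)) (S (F 12288 L) (F 12288 L)))))) (F 63 (T (S (T (F 8192 L) (F 8192 L)) (V L (F 8192 L))) (S (T (F 12288 L) (F 12288 L)) (V (F 8192 L) (F 12288 L))))))))
noncomputable def v2_25 : Tr := (U (T v2_20 (U (S (F 42009361 (V (T (U (S (V (T L (S (F 67 L) (F 66 L))) (T (F 65 L) (S (F 99 L) (F 99 L)))) (V (T (S (F 34 L) (F 34 L)) (S (F 34 L) L)) (T L (S (F 67 L) (F 65 L))))) (S (V (T (F 34 L) (S (F 99 L) (F 99 L))) (T (F 107 (S L L)) (F 67 L))) (V (T L L) (T (F 33 L) (F 65 L))))) (U (S (V (T (S (F 99 L) (F 67 L)) (S (F 99 L) (F 67 L))) (T (F 67 L) (F 195 L))) (V (T (S (F 65 L) L) (S (F 67 L) (F 65 L))) (T (S (F 75 L) (F 67 L)) (S (F 75 L) (F 67 L))))) (S (V (T (F 67 L) (F 67 L)) (S (F 67 L) (F 67 L))) (V (T (S (F 99 L) (F 35 L)) (S (F 99 L) (F 67 L))) (T (S (F 107 L) (F 99 L)) (F 67 L)))))) (T (U (S (T (S (K 18) (F 67 L)) (K 18)) (V (T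 (F 65 L) (F 67 L)) (K 18))) (S (V (S (F 75 L) (F 67 L)) (K 18)) (V (S (F 67 L) (F 65 L)) (S (K 18) (F 75 L))))) (U (S (K 18) (T (S (K 18) (F 67 L)) (K 18))) (V (S (F 195 L) (S (F 75 L) (F 75 L))) (K 18)))))) v2_21) (F 42009361 v2_22))) (F 42009361 (T v2_23 v2_24)))
noncomputable def v2_26 : Tr := (T (U (S (F 307 (V (T (U (K 1) (V (T (S (K 1) L) (K 1)) (K 1))) (K 1)) (K 1))) (V (T (U (S (T (V (S (K 17) (F 305 L)) (K 17)) (K 17)) (V (T (S (F 304 L) (F 273 L)) L) (K 17))) (S (V (T (F 305 L) (F 305 L)) (K 17)) (V (T (F 273 L) (F 273 L)) (T (F 305 L) (K 17))))) (U (S (K 17) (V (T L (K 17)) (K 17))) (V (S (S (K 17) (F 289 L)) (T (F 49 L) (F 97 L))) (K 17)))) (K 17))) (S (V (T (S (F 307 (V (S (F 64 L) L) (K 1))) (V (S (F 305 L) (F 305 L)) (F 4403 (S (K 1) L)))) (F 307 (V (S (K 1) (S L L)) (K 1)))) (K 17)) (V (T (S (V (T (F 305 L) (F 305 L)) (S (F 369 L)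 (F 305 L))) (V (T (F 273 L) (F 273 L)) (T (F 305 L) (F 369 L)))) (V (S (S (F 51 L) (F 49 L)) (T (F 49 L) (F 113 L))) (T (F 369 (S (K 1) L)) (F 119 (S (K 1) L))))) (F 4465 (T (S (K 1) (V (S (K 1) L) (K 1))) (K 1)))))) (U (S (K 17) (V (T (S (K 17) (T (U (K 17) (S (K 17) (F 101 L))) (K 17))) (K 17)) (K 17))) (S (F 393215 (V (T (T (K 0) (K 0)) (K 0)) (K 0))) (V (T (S (T (F 99 L) (F 4199 (S (F 64 L) (F 2048 L)))) (V (S (F 99 L) (F 97 L)) (F 103 L))) (F 103 (V (S (F 64 L) (S (F 64 L) L)) (K 1)))) (K 17)))))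
noncomputable def v2_27 : Tr := (T (S (F 307 (V (U (T (S (S (F 64 L) L) (T L (F 2048 L))) (S (S (F 2112 L) (F 2112 L)) (T (F 2048 L) (F 10240 L)))) (T (S (F 2048 L) (F 2048 L)) (S (F 10304 L) (F 10240 L)))) (T (F 14400 (U (K 8) (S L L))) (U (K 1) (F 10304 L))))) (V (U (T (S (T (F 305 L) (F 307 L)) (V (F 273 L) (F 309 L))) (S (F 307 (V L (F 10240 L))) (V (F 51 L) (F 119 L)))) (T (F 309 (S (S (F 8192 L) (F 8192 L)) (S (F 8192 L) L))) (F 119 (S (S (F 1024 L) (F 1024 L)) (S (F 1024 L) L))))) (F 375 (T (V (S (S (F 64 L) L) (T L (F 64 L))) (S (F 64 L) (S (F 2112 L) (F 64 L)))) (S (T (F 64 L) (F 192 L)) (V (S (F 64 L) (F 64 L)) (F 64 L))))))) (F 103 (S (V (T (S (T (F 5184 L) (F 5312 L)) (T (F 4160 L) (F 4160 L))) (U (S (F 5312 L) (F 4288 L)) (F 4288 L))) (F 5312 (T (S (K 8) L) (K 8)))) (V (U (T (S (S (F 4160 L) (F 4096 L)) (T (S (F 5120 L) (F 5120 L)) (F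 4096 L))) (S (F 192 L) L)) (T (S (F 5120 L) (F 4096 L)) (S (F 12480 L) (F 12288 L)))) (T (S (F 5312 (S (F 1 L) L)) (F 4160 L)) (F 12480 (S (F 2 L) L)))))))
noncomputable def v2_28 : Tr := (V (F 102 (U (T (S (T (K 3) (U (K 3) (V (F 273 L) (F 17 L)))) (V (F 273 (T L (S L (F 1 L)))) (T (F 257 L) (S (F 17 L) (F 257 L))))) (S (V (T (S (F 16 L) (F 1 L)) (S L L)) (T (S (F 16 L) (F 16 L)) (S L L))) (V (T (S (F 257 L) (F 257 L)) (S L L)) (T (S L L) (S L L))))) (T (S (V (S (F 273 L) (F 2305 L)) (S (F 16 L) (F 257 L))) (F 2305 (V (S L (F 32 L)) (T (F 32 L) L)))) (S (V (S L L) (T (F 2048 L) (F 2048 L))) (V (T (F 2305 L) (F 2048 L)) (T (F 2304 L) (F 2048 L))))))) (U (T (S (F 102 (V (U (K 3) (S (F 16 L) (F 16 L))) (T (F 1104 (S (K 5) L)) (S (F 1104 L) (F 3136 L))))) (V (F 102 (T L (S (F 16 L) (F 2048 L)))) (F 550 (T (S (F 272 L) (F 2304 L)) (S (F 3072 L) (F 3072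 L)))))) (S (V (F 614 (T (S (F 16 L) L) (S (F 512 L) (F 1024 L)))) (F 557 (T L (F 1024 L)))) (V (T (F 102 (S (F 2048 L) L)) (F 39 (S (F 64 L) (F 2048 L)))) (F 557 (T (S (F 1024 L) (F 1024 L)) L))))) (F 39 (T (S (V (S (F 512 L) (F 512 L)) (T (F 592 L) (F 2624 L))) (T (S (F 576 L) (F 768 L)) (V (F 768 L) (F 2624 L)))) (S (T (V (F 576 L) (F 2624 L)) (V (F 2560 L) (F 2640 L))) (V (T (F 2560 L) (F 2560 L)) (S (F 2112 L) (F 2112 L))))))))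
noncomputable def v2_29 : Tr := (V (U (T (F 32994 (S (V (T (F 1536 L) (F 1544 (S L L))) (T (F 512 L) (S (F 512 L) (F 512 L)))) (V (T (F 1536 L) (F 1024 L)) (T (F 1544 (S L L)) (S (F 1536 L) (F 1536 L)))))) (S (F 102 (V (T (S (F 257 L) (F 2305 L)) (S L (S (F 2304 L) (F 2304 L)))) (T (S L (F 256 L)) (S L (S (F 2048 L) (F 2048 L)))))) (F 227 (V (T (S (F 1025 L) (F 1025 L)) (S L (F 1 L))) (T (T L (S (F 1024 L) (F 1025 L))) (V (S (F 1024 L) (F 1024 L)) (S (F 1024 L) (F 1024 L)))))))) (F 103 (T (S (V (F 273 (S L L)) (S (F 257 L) (F 257 L))) (V (F 273 (S L L)) (S (F 257 L) (F 257 L)))) (S (V (T (F 257 L) (F 256 L)) (T (F 256 L) L)) (V (T (F 257 L) (F 257 L)) (T (F 257 L) (F 256 L))))))) (U (T (S (V (F 102 (T (S (F 257 L) (F 2305 L)) (S (F 2048 L) (F 256 L)))) (F 39 (T (S (F 576 L) (F 768 L)) (S (F 64 L) (F 2048 L))))) (F 39 (V (T (F 769 (S L L)) (S (S (F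 768 L) (F 768 L)) (S (F 768 L) (F 768 L)))) (T (S (F 768 L) (F 768 L)) (S (F 2048 L) (F 256 L)))))) (S (V (T (S (F 102 L) (F 39 L)) (F 39 (S L L))) (F 47 (T (S (F 64 L) L) (S (F 64 L) (F 64 L))))) (F 39 (V (T (S L (S (F 256 L) (F 768 L))) (S (S (F 2048 L) (F 2048 L)) (S (F 2048 L) (F 256 L)))) (T (V L (F 2048 L)) (S (F 2048 L) (F 2048 L))))))) (F 39 (T (V (S (S (F 768 L) (F 768 L)) (S (F 768 L) (F 768 L))) (S (S (F 2560 L) (F 768 L)) (S (F 768 L) (F 768 L)))) (S (T (V (F 768 L) (F 2112 L)) (S (F 2048 L) (F 2048 L))) (T (V (F 768 L) (F 2304 L)) (V (F 2304 L) (F 2304 L))))))))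
noncomputable def v2_30 : Tr := (V (U (T (S (F 102 (V (T (S L (S (F 2048 L) (F 2048 L))) (S L (S (F 2048 L) L))) (T (S (F 2048 L) L) (S (F 2048 L) (F 2048 L))))) (V (F 102 (T (S (S (F 2048 L) L) (S (F 2048 L) L)) (S (S L L) (S L L)))) (T (S (F 102 L) (F 38 L)) (F 39 (S L (S (F 512 L) (F 512 L))))))) (S (V (T (F 102 (S L (S (F 2048 L) (F 2048 L)))) (F 71 (S (F 512 L) L))) (F 559 (T (S (F 256 L) L) (S (F 320 L) (F 64 L))))) (V (T (F 103 (V (S L L) (S L L))) (S (F 7 L) (F 7 L))) (F 47 (T (S L (S (F 512 L) L)) (S (F 64 L) L)))))) (T (F 103 (S (V (T (S (F 16 L) (F 256 L)) (S (F 1024 L) (F 1024 L))) (T L (F 1024 L))) (V (T L (S (F 1024 L) (F 1024 L))) (T L L)))) (S (F 103 (V (T L (S (F 1536 L) (F 1536 L))) (S (F 1088 L) (F 1024 L)))) (V (F 71 (T (S (F 2560 L) (F 2560 L)) L)) (F 47 (T L (F 512 L))))))) (F 47 (U (T (S (T (V (S (F 576 L) (F 64 L)) (F 192 L))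 (V (F 64 L) (F 208 L))) (T (V (S (F 64 L) L) (F 64 L)) (V (S (F 576 L) (F 64 L)) (F 192 L)))) (S (T (S (F 704 L) (F 192 L)) (F 192 L)) (T (V (S (F 704 L) (F 192 L)) (F 1216 L)) (S (F 1216 L) (F 192 L))))) (T (S (T (S (F 704 L) (F 576 L)) (F 704 (S L L))) (V (S L L) (S (F 192 L) (F 192 L)))) (S (S (F 704 L) (F 192 L)) (T (F 704 (S L L)) (F 192 L)))))))
noncomputable def v2_31 : Tr := (U (T (S (V (T (F 102 (S (S (F 2048 L) L) (S (F 2048 L) (F 2048 L)))) (F 71 (S (T (F 512 L) (F 512 L)) (S L L)))) (F 39 (T (S (S (F 512 L) L) (S L L)) (S (S (F 512 L) L) (S L L))))) (V (T (F 227 (S (S L L) (S L L))) (V (F 227 (S L L)) (F 3 L))) (T (S (F 39 (S L L)) (F 35 L)) (F 39 (S (S L L) (S L L)))))) (S (V (T (S (F 71 (S L L)) (S (F 7 L) (F 7 L))) (S (F 71 (S L L)) (S (F 71 L) (F 7 L)))) (T (S (F 15 L) (F 7 L)) (F 15 (S L L)))) (V (T (S (S (F 7 L) (F 7 L)) (S (F 7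 L) (F 67 L))) (S (S (F 7 L) (F 7 L)) (S (F 7 L) (F 7 L)))) (T (S (F 7 L) (F 15 (S L L))) (F 15 (S (S (F 1024 L) L) (S L L))))))) (T (F 39 (S (V (T (F 2816 (S L L)) (S (F 768 L) (F 2816 L))) (T (F 512 L) (F 512 L))) (V (T (F 768 L) (F 2816 (S L L))) (T (F 2816 (S L L)) L)))) (S (V (F 71 (T L L)) (F 47 (T L L))) (V (T (F 71 L) (F 15 L)) (F 15 (T L L))))))
noncomputable def v2_32 : Tr := (U (T (F 44647185 (S (V (U (K 13) (T (K 13) (S (K 13) (V (U (T (K 13) (S (K 13) (T (K 13) (F 154 L)))) (F 155 (T (S (K 3) (F 1 L)) (S (S (F 16 L) L) (S L L))))) (U (T (K 13) (S (K 13) (T (K 13) (F 19 L)))) (T (F 155 (S (K 3) L)) (V (F 4251 (S L L)) (F 19 L)))))))) (U (K 13) (T (S (K 13) (V (F 155 (U (K 3) (T (K 3) (S (K 3) L)))) (T (K 13) (U (K 13) (F 1043 L))))) (S (V (T (K 13) (T (K 13) (F 1043 L))) (K 15)) (V (T (U (K 13) (S (F 1171 L) (F 155 L))) (S (T (F 1043 L)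 (F 1043 L)) (T (F 19 L) (F 1043 L)))) (F 1075 (V (T (S (F 16 L) L) (S (K 1) (F 2048 L))) (K 1)))))))) (V v2_14 (U v2_15 v2_16)))) (S (F 59048721 v2_18) (V v2_25 (F 44106513 (U v2_26 v2_27))))) (F 128516881 (T (S v2_28 v2_29) (S v2_30 (V v2_31 (F 15 (U (T (S (V (T (S (S (F 1088 L) (F 1088 L)) (S (F 1024 L) (F 1024 L))) (S (F 1024 L) (F 1024 L))) (T (S (F 1216 L) (F 1088 L)) (F 1088 L))) (V (T (S (S (F 1024 L) (F 1024 L)) (S (F 1024 L) (F 1024 L))) (S (S (F 1088 L) (F 1024 L)) (S (F 1024 L) (F 1024 L)))) (T (S (F 1088 L) (F 1024 L)) (S (F 1216 L) (F 1088 L))))) (S (V (T (S (F 1088 L) (F 1088 L)) (F 64 L)) (F 1216 (T L (F 1 L)))) (T (V (S (F 1024 L) L) (F 1216 (S L L))) (V (S (F 1088 L) (F 1024 L)) (F 1216 L))))) (T (S (V (T (F 1024 L) (F 1536 L)) (S (F 1088 L) (F 1088 L))) (T (V (F 1024 L) (F 1088 L)) (S (F 1024 L) (F 1024 L)))) (S (V (S (F 1088 L)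 (F 1024 L)) (F 3264 (S L L))) (T (S (F 1088 L) (F 1024 L)) (S (F 1216 L) (F 1088 L))))))))))))
noncomputable def v2_33 : Tr := (S (V (U (T (S (F 643 (V (T L L) (K 1))) (V (T (F 131 L) (F 131 L)) (S (K 12) (F 131 L)))) (V (S (F 195 (S (K 1) L)) (S (F 135 L) (F 131 L))) (K 12))) (F 135 (T (S (T (S (F 272 L) (F 256 L)) L) (V (S (F 256 L) L) (S (F 16 L) (F 256 L)))) (S (T (F 64 L) (F 64 L)) (T L (F 64 L)))))) (F 199 (U (K 1) (T (S (K 1) (T L L)) (S (K 1) (S (K 1) L)))))) (V (U (T (S (F 135 (V (T (S L L) (S L L)) (T L L))) (V (T (S (F 135 L) (F 39 L)) (F 135 (S L L))) (T (F 131 L) (F 135 L)))) (S (T (V (F 131 L) (F 199 L)) (F 135 (S (F 64 L) L))) (F 135 (T (V (S L L) L) (V (S (F 64 L) L) (F 64 L)))))) (F 135 (T (S (T (S (F 256 L) (F 128 L)) (S (F 256 L) (F 128 L))) (V (T (F 384 L) (F 128 L)) (S (F 128 L) (F 128 L)))) (S (T (S (F 64 L) (F 128 L)) L) (T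 (S (F 128 L) (F 128 L)) (S (F 64 L) (F 128 L))))))) (U (T (S (K 12) (V (S (F 135 L) (F 131 L)) (K 12))) (K 12)) (F 135 (T (S (T (F 64 L) (F 64 L)) (T L (F 64 L))) (S (S (F 64 L) (F 64 L)) (S (F 64 L) (F 64 L))))))))
noncomputable def v2_34 : Tr := (U (T (S (F 12287 (V (U (K 0) (T (S (K 0) (T (K 0) (K 0))) (K 0))) (K 0))) (V (U (T (U (K 12) (S (K 12) (V (T (V (S (K 12) (F 128 L)) (K 12)) (K 12)) (K 12)))) (K 12)) (T (S (V (T (V (S (F 641 L) (F 129 L)) (S (K 12) (F 131 L))) (F 135 (U (K 1) (S (K 1) L)))) (K 12)) (V (T (V (S (F 129 L) (F 130 L)) (S (F 131 L) (F 131 L))) (S (T (F 130 L) (F 131 L)) (T (F 130 L) (F 130 L)))) (T (S (K 12) (F 130 L)) (K 12)))) (S (F 12287 (T (K 0) (K 0))) (V (T (S (T (F 131 L) (F 131 L)) (T (F 130 L) (F 131 L))) (F 135 (U (K 1) (S (F 64 L) L)))) (K 12))))) (K 12))) (S (K 12) (V (U (K 12) (T (S (K 12) (T (V (S (K 12) (F 131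 L)) (K 12)) (K 12))) (K 12))) (K 12)))) (T v2_33 (F 135 (S (V (U (T (S (K 1) (T (S (K 1) (F 80 L)) (K 1))) (K 1)) (T (S (S (F 80 L) (F 64 L)) (S (F 64 L) (F 64 L))) (S (F 832 (S L L)) (S (F 832 L) (F 576 L))))) (F 1021 (U (K 0) (T (K 0) (K 0))))) (V (U (T (S (T (S (F 64 L) (F 64 L)) (F 64 L)) (T (S (F 64 L) L) (S (F 64 L) (F 64 L)))) (S (S (F 64 L) (F 64 L)) (T (F 64 L) (F 576 L)))) (T (S (S (F 64 L) (F 64 L)) (T L (F 64 L))) (S (S (F 576 L) (F 576 L)) (S (F 576 L) (F 576 L))))) (U (F 1021 (T (K 0) (K 0))) (T (S (S (F 576 L) (F 576 L)) (F 64 L)) (S (S (F 576 L) (F 576 L)) (S (F 576 L) (F 576 L))))))))))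
noncomputable def v2_35 : Tr := (U (S (F 2689 (V (F 259 (U (K 5) (T (K 5) (S (K 5) (V (S L L) (S L L)))))) (U (K 4) (T (F 322 (S (K 4) (V (S (K 4) (F 128 L)) L))) (S (F 1089 (T (K 4) (S (K 4) L))) (V (F 65 L) (F 1089 (S L (F 2 L))))))))) (F 19072 (V (U (T (F 1153 (S (K 5) (T L L))) (S (V (F 129 L) (F 129 L)) (F 1153 (V L (S L (F 8 L)))))) (F 1153 (T (S (T L L) (S L L)) (S (V L L) (T L L))))) (U (T (F 1185 (S (K 4) (V L L))) (S (V (F 1057 (S L L)) (F 1568 (S L L))) (V (F 1153 (S L (F 8 L))) (F 1056 L)))) (T (F 1185 (V (S L L) (S L (F 1 L)))) (V (S (F 1152 L) (F 1153 L)) (F 1568 (S L (S (F 2 L) (F 130 L)))))))))) (S (V (F 25225 (T (S (V (T (F 2 L) (F 2 L)) (U (F 2 L) (F 2 L))) (V (S (F 2 L) (F 2 L)) (S (F 2 L) (F 2 L)))) (S (V (T (S (F 2 L) (F 258 L)) (S (F 2 L) (F 2 L))) (T (S (F 2 L) (F 258 L)) L)) (V (T (F 2 L) (F 2 L)) (T (F 2 L) (F 2 L)))))) (T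 (F 8329 (S (V (S (F 132 L) (F 132 L)) (F 1152 L)) (V (F 21 (S L L)) (F 1156 (S L (F 128 L)))))) (S (F 163 (T (F 512 L) (U (F 33 L) (F 545 L)))) (F 18571 (V (T (F 8 L) (F 8 L)) (S (F 64 L) (F 64 L))))))) (F 18441 (V (T (F 41 (S (V (S L L) (S L L)) (V L L))) (S (F 41 (V (S L L) (S L L))) (T (F 1065 (S L L)) (F 9 L)))) (T (V (F 41 (S (S (F 1 L) (F 1 L)) L)) (F 1057 (S (S (F 4 L) (F 4 L)) (F 32 L)))) (S (V (F 1064 (S L L)) (F 1184 (S L (F 16 L)))) (S (F 1032 L) (F 1032 L))))))))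
noncomputable def v2_36 : Tr := (T (U (F 2196 (S (F 1154 (V (T (K 3) (S (K 3) (V (K 3) L))) (T (S (K 3) (F 32 L)) (S L (S L L))))) (V (T (V (F 146 (S L (F 128 L))) (F 1026 L)) (V (F 146 (S L (F 128 L))) (F 1154 (S L (F 16 L))))) (T (F 1162 (S L L)) (V (F 1170 (S L L)) (F 1152 L)))))) (F 8373 (S (V (T (S (F 4 L) (F 4 L)) (S (S (F 4 L) (F 4 L)) (S (F 4 L) (F 4 L)))) (T (F 12 L) L)) (V (T (S (F 4 L) (F 4 L)) (S (F 4 L) (F 4 L))) (T (F 12 L) (S (F 5 L) (F 5 L))))))) (U (S (V (F 177 (U (T (K 6) (S (K 6) (T (F 40 L) (F 40 L)))) (S (T (F 512 L) (F 256 L)) (T (F 520 L) (F 8 L))))) (F 165 (T (V (S (F 768 L) (F 264 L)) (F 512 L)) (S (F 512 L) (S (F 512 L) (F 512 L)))))) (V (F 2097 (U (T (F 81 (S (T (F 130 (S (K 2) L)) L) (V (F 130 (S L L)) (F 2 L)))) (S (V (F 81 (S L (F 2 L))) (F 80 L)) (F 81 (T L (S (F 2 L) (F 2 L)))))) (T (S (F 576 L) (F 593 (S L L))) (S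 (F 81 (T L L)) (S (F 81 L) (F 529 L)))))) (F 2209 (T (S (T (F 640 L) (F 640 L)) (T (F 640 L) (F 640 L))) (S (V (S (F 640 L) (F 640 L)) (F 768 L)) (U (S (F 384 L) (F 129 L)) (F 640 L))))))) (S (F 165 (V (T (F 266 (S (S L L) (S L L))) (S (F 256 L) (S (F 257 L) (F 264 L)))) (T (S (F 770 L) (F 776 L)) (F 512 L)))) (F 53 (V (T (S (F 138 (S L L)) (F 137 (S L (F 128 L)))) (S (F 137 (V L L)) (S (F 9 L) (F 9 L)))) (T (S (F 136 L) (F 136 L)) (S (F 640 L) (F 136 L))))))))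
noncomputable def v2_37 : Tr := (U (S (V (F 2210 (U (T (V (S L L) (S L L)) (S (V L L) (T L L))) (T (S (S L L) (S L L)) (S (S L L) (S L L))))) (U (T (F 2226 (V (S L L) (S L L))) (S (F 162 (T (F 1 L) L)) (F 2082 (T (F 8 L) L)))) (F 162 (T (S (S (F 33 L) (F 33 L)) (F 1 L)) (V (S (F 257 L) (F 257 L)) (S (F 288 L) (F 257 L))))))) (V (U (F 2082 (T (S (S (F 8 L) (F 8 L)) (S (F 8 L) (F 8 L))) (S (S L L) (S L L)))) (T (F 2178 (S (S (F 16 L) (F 16 L)) L)) (F 2082 (S L L)))) (F 2082 (U (T (V (S (F 264 L) (F 10 L)) (S (F 296 L) (F 264 L))) (S (S L L) (S L L))) (T (S (F 8 L) (F 8 L)) (V (S (F 264 L) (F 264 L)) (S (F 288 L) (F 288 L)))))))) (S (V (T (F 2178 (S (T (F 16 L) (F 16 L)) (S L (F 16 L)))) (F 2082 (S (S L L) (S L (F 256 L))))) (F 35 (T (V (S (F 17 L) (F 17 L)) (S (F 17 L) (F 17 L))) (S (S L L) (S (F 1 L) (F 1 L)))))) (V (T (S (F 2210 (S L L)) (F 2050 L))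 (F 2083 (S (S L L) (S L L)))) (F 2051 (T (V L (S (F 40 L) (F 40 L))) (S (S (F 32 L) (F 32 L)) (S (F 32 L) (F 32 L))))))))
noncomputable def v2_38 : Tr := (U (F 16481 (S (V (U (T (F 808 (S (T (F 64 L) L) (T (F 64 L) (F 64 L)))) (S (T (F 808 (S L L)) (F 520 L)) (F 776 (T L L)))) (F 776 (T (F 136 (V (S L L) (S L L))) (S (S L L) (S L L))))) (U (T (F 800 (S (S L L) (T (F 16 L) (F 16 L)))) (T (S (F 552 L) (F 776 L)) (S (F 552 L) (F 776 L)))) (T (F 800 (S L L)) (S (F 768 L) (F 768 L))))) (V (F 776 (U (T (F 136 (S (S L L) (S L L))) (S (T (F 128 L) L) (T (F 128 L) L))) (T (S (F 128 L) (F 128 L)) (S (S L (F 128 L)) (S (F 128 L) (F 128 L)))))) (T (F 776 (S (V (F 8 L) L) (T (F 128 L) L))) (S (T (F 264 L) (F 776 (S L L))) (V (F 264 L) (F 264 L))))))) (F 109 (S (V (T (S (F 67 (S L L)) (F 19 (S L L))) (S (S (F 17 L) (F 17 L)) (S (F 17 L) (F 17 L)))) (T (S (F 64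 L) (F 65 L)) (S (S (F 65 L) (F 65 L)) (F 1 L)))) (V (T (F 19 (S (S L L) (S L L))) (S (S (F 17 L) (F 17 L)) (S (F 17 L) (F 17 L)))) (T (S (F 17 L) (F 17 L)) (S (F 1 L) (F 1 L)))))))
noncomputable def v2_39 : Tr := (V (F 576553 (T (U (S (V (U (T (V (F 2176 L) (F 2176 L)) (V (F 2176 L) (F 2210 (S L (F 2 L))))) (T (S (F 2176 L) (F 2178 L)) (V (F 2176 L) (F 2178 L)))) (F 2178 (U (T (V (S (F 18 L) (F 18 L)) (F 16 L)) (V (S (F 48 L) (F 18 L)) (F 16 L))) (T (S L L) (S (F 16 L) (F 16 L)))))) (V (U (T (F 2688 (S L (F 1 L))) (F 2178 (S L L))) (T (F 2176 L) (F 2178 (S L (F 2 L))))) (F 2178 (T (V (S (F 2 L) (F 2 L)) (S (F 18 L) (F 258 L))) (V (S (F 16 L) (F 2 L)) (S (F 18 L) (F 18 L))))))) (S (V (T (S (S (F 2176 L) (F 2176 L)) (S (F 2176 L) (F 2178 L))) (F 2178 (V (S L L) (S (F 16 L) (F 256 L))))) (F 2178 (T (S (S L L) L) (S (S (F 16 L) (F 16 L)) L)))) (V (T (S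 (F 2176 L) (F 3200 L)) (V (F 2176 L) (F 2179 (S L (F 2 L))))) (F 2178 (T (S (F 256 L) (F 256 L)) (V L (F 256 L))))))) v2_37)) (F 658440 (T (F 8460 (U (S (V (F 201 (T (V (S (F 32 L) (F 32 L)) (F 33 (S L L))) (S (V L (F 1 L)) (T (F 1 L) (F 1 L))))) (F 1216 (T (F 48 (S L (F 1 L))) (S L (S (F 128 L) (F 144 L)))))) (V (T (F 141 (V L (F 9 (S L L)))) (F 1097 (V (S (F 4 L) (F 32 L)) (F 36 (S L L))))) (F 1225 (T (S (F 16 L) (F 16 L)) (S (S L L) (S L (F 16 L))))))) (S (V (F 1153 (T (S (F 4 L) (F 32 L)) (S (F 4 L) (F 4 L)))) (F 1216 (T (F 32 L) (S (F 128 L) (F 128 L))))) (V (F 1033 (T (F 68 (S L L)) (V (F 8 L) (F 12 L)))) (F 1217 (T (F 32 L) (S (F 16 L) (F 16 L)))))))) v2_38)))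
noncomputable def v2_40 : Tr := (S (V (U (F 5440 (T (S (K 3) (V L (S (K 3) (F 1024 L)))) (S (T (K 3) (S (K 3) (F 1056 L))) (V (S (F 1024 L) (F 1024 L)) (S (F 1056 L) (F 1056 L)))))) (F 1345 (T (S (V (S (F 4 L) (F 5 L)) (S (F 68 L) (F 68 L))) (V (S (F 5 L) (F 5 L)) (S (F 68 L) (F 68 L)))) (S (V (S (F 4 L) (F 4 L)) (S (F 1092 L) (F 1088 L))) (V (S (F 4 L) (F 4 L)) (S (F 1028 L) (F 1028 L))))))) (F 1377 (U (T (S (K 4) (U (K 4) (V (F 4 L) (F 516 L)))) (S (T (F 576 L) (F 580 L)) (F 580 (T (S L L) (S L L))))) (T (S (T (F 512 L) (F 512 L)) (T (S (F 516 L) (F 516 L)) (S (F 516 L) (F 516 L)))) (S (S (F 576 L) (F 576 L)) (T (F 516 L) (F 580 L))))))) (F 5185 (V (U (T (V (S (S (F 17 L) (F 17 L)) (F 273 (S L L))) (S (S (F 16 L) (F 272 L)) (S (F 272 L) (F 272 L)))) (S (T (T L L) (S (F 16 L) L)) (V (S (F 16 L) (F 256 L)) (S (F 16 L) (F 1024 L))))) (T (S (V (F 273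 (S L L)) (F 16 L)) (T (F 257 L) (F 256 L))) (S (T L L) (T L L)))) (U (T (S (V (S (F 80 L) (F 80 L)) (F 1104 (S L L))) (V L (F 1104 (S L L)))) (S (F 1104 (T (S L L) (S (F 4 L) (F 4 L)))) (T (F 1104 (S L L)) (F 1088 L)))) (T (S (F 1104 (T (S L (F 2 L)) (S L L))) (T (F 1088 L) (F 1088 L))) (S (S (F 1088 L) (F 1088 L)) (S (F 1088 L) (F 1088 L))))))))
noncomputable def v2_41 : Tr := (U (S (V (U (F 5185 (T (S (F 1104 (V (S L L) (F 4 L))) (V (S (F 80 L) (F 16 L)) (F 1232 (S L L)))) (F 1216 (S (F 8 L) (S (F 8 L) L))))) (F 1091 (T (S (S (F 416 L) (F 160 L)) (V (F 4 L) (F 420 (S L L)))) (S (F 1440 L) (F 388 L))))) (F 1331 (T (S (S (F 64 L) L) (U (S (F 68 L) (F 68 L)) (F 64 L))) (S (F 288 L) (F 256 L))))) (F 5185 (V (U (T (S (T (S (F 1024 L) (F 1024 L)) (S (F 1088 L) (F 1088 L))) (V (S (F 1024 L) L) (S (F 1088 L) (F 1088 L)))) (S (T (F 1088 L) (F 1216 L)) (T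 (S (F 1216 L) (F 1088 L)) (F 1152 L)))) (T (S (V L (F 1088 L)) (T (F 1024 L) (F 1024 L))) (S (F 1216 (S L L)) (S (F 1152 L) (F 1536 L))))) (F 1216 (U (T (S (S (F 8 L) L) (T L (F 8 L))) (S (F 1 L) L)) (T (S (S (F 8 L) (F 8 L)) (S L L)) (S (F 1 L) (F 1 L)))))))) (S (V (F 1091 (T (S (V (F 32 L) (F 416 (S (F 1 L) L))) (T (S (F 132 L) (F 132 L)) (F 4 L))) (F 1408 (S (S (F 4 L) L) (S L L))))) (F 1079 (T (S (F 32 L) (S (F 160 L) (F 128 L))) (S (F 352 L) (F 160 L))))) (F 1091 (V (T (S (T (S (F 516 L) (F 516 L)) (F 4 L)) (T (F 4 L) (F 4 L))) (S (T (F 1028 L) (F 1284 L)) (S (F 1028 L) (F 1028 L)))) (T (S (S (F 1408 L) (F 388 L)) (F 388 (S L L))) (F 1408 (S L (S (F 32 L) (F 32 L)))))))))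
noncomputable def v2_42 : Tr := (T (U (S (V (F 330 (U (T (S L (V (F 137 (S L L)) (F 9 L))) (S (F 1 L) (F 1 L))) (T (S (F 1 L) (S (F 129 L) (F 129 L))) (S (F 257 L) (F 129 L))))) (F 78 (T (S (F 32 L) L) (S (F 545 L) (F 1 L))))) (V (F 9490 (U (T (S (T (S (F 80 L) (F 80 L)) (S (F 80 L) (F 80 L))) (T (S (F 80 L) (F 144 L)) (F 16 L))) (S (T (F 80 L) (F 80 L)) (S (F 64 L) (F 64 L)))) (T (S (S (F 16 L) (F 16 L)) (S (F 16 L) L)) (S (S (F 80 L) (F 80 L)) (S (F 80 L) (F 80 L)))))) (U (T (S (F 8266 L) (F 9544 (S (F 128 L) (F 32 L)))) (F 9544 (S (F 128 L) L))) (F 8266 (T (S (F 260 L) (F 388 (S L L))) (S (F 784 L) (F 20 L))))))) (S (F 78 (V (T (S (F 1 L) (S (F 257 L) (F 256 L))) (S (F 545 L) (F 33 L))) (S (F 513 L) L))) (V (T (F 8214 (S (S (F 64 L) (F 4 L)) (S (F 4 L) (F 4 L)))) (F 8454 (S (F 256 L) (T (F 132 L) (F 388 L))))) (F 8206 (T (S (F 68 L) (F 4 L)) (S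 (F 592 L) (F 576 L))))))) (U (F 8458 (S (V (T (S (F 544 L) (F 32 L)) (F 544 L)) (F 800 (S (F 2 L) L))) (V (T (S (S (F 544 L) (F 36 L)) (U (F 164 (S L L)) (F 132 L))) (S (F 544 L) (S (F 548 L) (F 644 L)))) (T (S (F 800 L) (S (F 800 L) (F 516 L))) (F 800 (S (F 2 L) L)))))) (F 8203 (S (V (T (F 576 L) (F 720 L)) (F 720 L)) (V (T (S (F 592 L) (F 20 L)) (F 16 L)) (S (F 592 L) (F 512 L)))))))
noncomputable def v2_43 : Tr := (S (V (U (T (F 1100 (S (V (F 1 L) L) (V (F 1 L) (F 1 L)))) (S (V (F 1100 (S L L)) (S (F 1093 L) (F 1100 L))) (F 1100 (V (S (F 1 L) (F 1 L)) (S (F 512 L) (F 512 L)))))) (F 1100 (T (S (T (F 17 L) (F 1 L)) (S (F 1 L) (F 1 L))) (S (T L L) (S L L))))) (U (T (S (V (F 1100 L) (F 1125 (S (F 16 L) (F 128 L)))) (V (F 1100 L) (F 1093 L))) (F 1093 (S (V (S (F 64 L) (F 64 L)) (S (F 80 L) (F 80 L))) (T L L)))) (F 1093 (T (S (S (F 256 L) (F 256 L))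 (S (F 256 L) (F 256 L))) (S (T (F 64 L) (F 64 L)) (S (F 64 L) (F 256 L))))))) (V (F 1100 (U (T (S (T (F 1 L) (F 1 L)) (T (F 1 L) (F 1 L))) (S (V L (S (F 512 L) (F 512 L))) (V (S (F 513 L) (F 513 L)) L))) (T (S (S (F 1 L) (F 513 L)) (S (F 513 L) (F 513 L))) (S (S L (F 512 L)) (S (F 512 L) (F 512 L)))))) (U (T (F 1100 (S (V L (F 512 L)) (T (F 512 L) (F 512 L)))) (S (F 1093 (T (S (F 320 L) (F 320 L)) L)) (F 1097 (V (S (F 256 L) (F 256 L)) L)))) (F 1101 (T (S (S L L) (S (F 1 L) (F 1 L))) (S (S L L) (S L L)))))))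
noncomputable def v2_44 : Tr := (S (V (U (T (S (F 1093 (V (S L L) (S L L))) (V (F 1100 (S L L)) (F 1093 (S L (F 256 L))))) (F 1093 (S (T (S (F 64 L) L) L) (V (S L L) (S (F 512 L) (F 512 L)))))) (F 1093 (T (S (T L L) (T (F 256 L) (F 256 L))) (S (S L L) (S L L))))) (F 1125 (U (T (S (T L (F 64 L)) (V (S L L) L)) (S (S (F 320 L) (F 320 L)) (S (F 64 L) (F 64 L)))) (T (S (S (F 64 L) L) (S L L)) (S (F 64 L) (S (F 320 L) (F 320 L))))))) (V (F 1093 (U (T (S (V (S (F 256 L) (F 256 L)) (S (F 256 L) (F 256 L))) (T (S (F 256 L) (F 256 L)) (S (F 256 L) (F 256 L)))) (S (T (S (F 256 L) (F 256 L)) (S (F 512 L) (F 256 L))) (T (S (F 256 L) (F 256 L)) (S (F 256 L) (F 256 L))))) (T (S (T (F 256 L) (F 256 L)) (S (F 256 L) (F 256 L))) (S (S L (F 256 L)) (S (F 256 L) (F 256 L)))))) (U (T (S (T (F 1093 L) (F 1121 L)) (T (F 1097 L) (F 1089 L))) (S (F 1121 (S (F 64 L) L)) (S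 (F 1121 L) (F 1089 L)))) (F 1093 (T (S (S (F 64 L) (F 256 L)) (S (F 256 L) (F 256 L))) (S (S (F 704 L) (F 576 L)) L))))))
noncomputable def v2_45 : Tr := (U (S (V (F 1121 (U (T (S (T (F 256 L) (F 256 L)) (T (F 256 L) (F 256 L))) (S (S (F 320 L) (F 64 L)) (S (F 64 L) (F 64 L)))) (T (S (S (F 384 L) (F 384 L)) (S (F 384 L) (F 384 L))) (S (S (F 320 L) (F 320 L)) (F 256 L))))) (U (F 1137 (T (S (S (F 16 L) (F 16 L)) (S (F 64 L) (F 64 L))) (S L L))) (F 1065 (T (S (F 448 (S L L)) (F 64 L)) (S (F 384 L) (F 192 L)))))) (F 1121 (V (U (T (S (T (S (F 384 L) (F 384 L)) (F 128 L)) (T (F 128 L) (F 128 L))) (S (S (F 256 L) L) (S L L))) (T (S (S (F 384 L) (F 384 L)) (S (F 384 L) (F 384 L))) (S L (S (F 384 L) (F 384 L))))) (U (T (S L (S (F 128 L) (F 128 L))) (S (F 64 L) (F 64 L))) (T (S (F 128 L) (F 128 L)) (S (F 192 L) (F 192 L))))))) (S (F 45 (V (T (S (T (F 136 L)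 (F 136 L)) (S (F 136 L) (F 136 L))) (S (S (F 136 L) (F 136 L)) (S (F 136 L) (F 136 L)))) (T (S (S (F 384 L) (F 384 L)) (F 128 L)) (S (F 264 L) (F 384 L))))) (F 105 (V (T (S (S (F 264 L) (F 264 L)) (S (F 264 L) (F 264 L))) (S (S (F 264 L) (F 264 L)) (S (F 264 L) (F 264 L)))) (T (S (F 256 L) (S (F 264 L) (F 264 L))) (S (F 392 (S L L)) (F 136 L)))))))
noncomputable def v2_46 : Tr := (V (T (U v2_43 (F 1101 (S (V (T (V (S (F 1 L) (F 1 L)) (S L (F 1 L))) (S (T L L) (S L L))) (T (S (S L L) (S L L)) (S (S L L) (S L (F 64 L))))) (V (T (S (S (F 1 L) (F 1 L)) (S (F 1 L) (F 1 L))) (S (S L (F 1 L)) (S (F 1 L) (F 1 L)))) (T (S (S L (F 1 L)) (S (F 1 L) (F 1 L))) (S (S (F 64 L) (F 64 L)) (S (F 64 L) (F 64 L)))))))) (U v2_44 (F 1093 (S (V (T (S (T (F 256 L) (F 256 L)) (S (F 256 L) (F 256 L))) (S (S (F 512 L) (F 512 L)) (S (F 768 L) (F 768 L)))) (T (S (S (F 320 L)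 (F 320 L)) (S (F 320 L) (F 320 L))) (F 704 (S (S L L) (S L L))))) (V (T (S (S (F 768 L) (F 768 L)) (S (F 768 L) (F 768 L))) (S (S (F 768 L) (F 768 L)) (F 256 L))) (T (S (S (F 320 L) (F 320 L)) (F 256 L)) (F 832 (S (S L L) (S L L))))))))) (T v2_45 (U (F 1073 (S (V (U (T (S (F 64 L) (F 64 L)) (S (F 832 L) (F 576 L))) (T (S (F 320 L) (F 320 L)) (F 832 (S L L)))) (T (S (S (F 768 L) (F 512 L)) (S (F 512 L) (F 576 L))) (S (F 896 (S L L)) (S (F 768 L) (F 768 L))))) (V (U (T (S (S (F 320 L) (F 576 L)) (S (F 64 L) (F 64 L))) (S (F 576 L) (F 576 L))) (T (S (F 64 L) (F 64 L)) (F 832 (S L L)))) (U (T (S (F 576 L) (F 576 L)) (S (F 576 L) (F 576 L))) (T (F 704 (S L L)) (F 832 (S L (F 1 L)))))))) (S (F 1077 (V (T (S (F 64 L) (F 64 L)) (S (F 320 L) (F 320 L))) (T (S (F 384 L) (F 384 L)) (S (F 400 L) (F 384 L))))) (F 1121 (V (T (S (F 960 (S L L)) (F 384 L)) (F 832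 (S L (S (F 1 L) (F 1 L))))) (F 704 (T (S (S (F 1 L) (F 1 L)) L) (S (F 1 L) (F 1 L))))))))))
noncomputable def v2_47 : Tr := (T (S (V (T (F 576650 (U (S (K 7) (V (U (K 7) (T (S (K 7) (S (K 7) (F 2304 L))) (F 2338 (V (S L L) (S L L))))) (F 2338 (U (T (K 2) (V (K 2) (S (K 2) (F 16 L)))) (T (S (K 2) (S L L)) (S (T (F 16 L) (F 16 L)) (S L (F 16 L)))))))) (S (V (T (U (K 7) (V (S (F 2304 L) (F 2306 L)) L)) (F 290 (S (U (K 3) (V (S (F 1 L) (F 1 L)) (F 1 L))) (V (T (F 1 L) (F 1 L)) (S L (F 1 L)))))) (T (S (F 51 (U (K 4) (S L L))) (V (F 34 L) (F 50 L))) (V (S (F 50 (S L (F 8 L))) (F 290 L)) (F 51 (S (S L (F 8 L)) L))))) (V (T (S (V (S (F 2304 L) (F 2306 L)) (F 2304 L)) (T (F 2304 L) (F 2304 L))) (F 2306 (S (V (S (F 16 L) (F 16 L)) (S (F 16 L) (F 16 L))) (V L L)))) (T (V (S (F 258 L) (F 2306 L)) (S (F 51 L) (F 2322 L))) (F 290 (S (T L (F 1 L)) (T (F 1 L) (F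 1 L))))))))) (F 167424 v2_35)) (F 692736 v2_36)) v2_39) (S (V (F 165377 (T (U v2_40 (S (V (T (F 1345 (S (T (V (F 260 L) (F 1280 L)) (S (F 1024 L) (F 1024 L))) (V (T (F 260 L) (F 260 L)) (T (F 260 L) (F 1028 L))))) (S (F 1347 (V (S L L) (S (F 64 L) (F 64 L)))) (V (F 5185 (S (F 16 L) (F 1024 L))) (F 1091 (S (F 32 L) (F 4 L)))))) (F 99 (T (U (S (S (F 80 L) (F 80 L)) (S (F 80 L) (F 80 L))) (S (F 576 L) (F 592 (S L L)))) (S (T (F 80 L) (F 336 L)) (S (F 80 L) (F 16 L)))))) (V (F 5193 (T (S (V L (S (F 512 L) (F 512 L))) (T (F 1 L) L)) (S (V (S (F 512 L) (F 512 L)) (S (F 512 L) (F 512 L))) (V L (S (F 512 L) (F 512 L)))))) (F 1091 (T (S (V (S (F 516 L) (F 548 L)) (S (F 672 L) (F 644 L))) (T (F 516 L) (F 644 (S L L)))) (S (T (F 132 L) (F 132 L)) (V (F 516 L) (F 132 L)))))))) v2_41)) (F 923136 v2_42)) (F 656905 v2_46)))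
noncomputable def v2_48 : Tr := (T (U (S (V (F 42 (T (F 11 (S L L)) (S L (S (F 8 L) (F 8 L))))) (F 296 (T (F 128 L) (S (F 192 L) (F 64 L))))) (V (F 2346 (T (S (F 1 L) (F 5 L)) (V (S (F 1 L) (F 4 L)) (S L L)))) (T (F 296 (S (F 130 L) (F 1 L))) (S (F 296 L) (F 2312 (S (F 16 L) L)))))) (S (F 42 (V (T (F 11 L) L) (S (F 136 L) (F 8 L)))) (F 2058 (V (T (F 37 L) L) (T (F 36 L) (S (F 36 L) (F 4 L))))))) (U (S (V (T (S (F 46 (T L L)) (S (F 2088 L) (F 2056 L))) (S (F 44 (S L L)) (F 2060 (S L L)))) (U (K 9) (S (F 38 L) (F 36 L)))) (V (U (T (S (F 2088 L) (F 2056 L)) (S (F 2060 L) (F 2184 L))) (T (S (F 2058 L) (F 2312 L)) (S (F 2060 L) (F 2184 L)))) (T (F 2316 (V (S L L) (S (F 16 L) (F 16 L)))) (S (F 2052 L) (F 2060 (S L (F 4 L))))))) (S (V (T (F 42 (S (F 128 L) (F 1 L))) (F 2054 (S (F 32 L) (S (F 160 L) (F 128 L))))) (S (F 38 L) (F 6 L))) (V (F 2058 (T (S L L)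 (S L L))) (F 2060 (T (S (F 128 L) (F 4 L)) (S (F 128 L) (F 128 L))))))))
noncomputable def v2_49 : Tr := (S (F 13440 (V (T (U (F 386 (S (V (T (F 194 L) (F 128 L)) (F 130 L)) (V (T (F 194 (S L L)) (S (F 192 L) (F 64 L))) (T (F 194 L) (F 128 L))))) (S (F 1158 (T (F 68 L) L)) (F 266 (V (S (F 130 L) (F 2 L)) (F 136 L))))) (U (S (U (K 9) (T (F 6 L) (F 6 L))) (V (T (F 262 (S L (S (F 128 L) (F 128 L)))) (U (K 9) (F 6 L))) (U (K 9) (F 6 L)))) (S (S (F 135 L) (F 6 L)) (V (T (F 262 L) (F 6 L)) (F 6 L))))) (T (S (F 134 (S (F 258 L) L)) (F 388 (U (T (F 128 L) L) (F 128 L)))) (F 133 (U (S (S (F 320 L) (F 256 L)) (T L (S (F 264 L) (F 256 L)))) (S (F 258 L) (S (F 264 L) (F 256 L)))))))) (V (F 25608 v2_48) (T (F 11288 (U (S (U (K 8) (T (F 46 (S (F 2 L) L)) (F 36 L))) (V (T (F 42 (S (F 64 L) L)) (F 1064 (S (F 64 L) L))) (T (F 1064 L) (F 1056 L)))) (S (T (F 46 (S (F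 2 L) L)) (F 36 L)) (T (S (F 44 L) (F 8 L)) (S (F 36 L) (F 8 L)))))) (U (F 10264 (S (F 73 (U (K 2) (V (S (F 385 L) (F 256 L)) (F 129 L)))) (V (U (K 9) (S (F 2120 L) (F 2056 L))) (F 2113 (T L (F 128 L)))))) (S (F 47248 (T (S (F 67 L) (F 66 L)) L)) (F 10265 (V (T (F 8 L) (F 5 L)) (S (F 71 L) (F 5 L)))))))))
noncomputable def v2_50 : Tr := (T (U (S (V (T (S (F 548 (S L L)) (S (F 644 L) (F 524 L))) (S (F 7 (S (F 64 L) (F 4 L))) (S (F 517 L) (F 644 L)))) (F 547 (U (K 1) (T (S (F 132 L) (F 128 L)) L)))) (V (T (F 524 (S (S L L) (T (F 8 L) (F 8 L)))) (F 644 (S (S L L) (T (F 64 L) (F 64 L))))) (T (S (F 516 L) (F 517 (S L L))) (S (F 513 L) (F 513 L))))) (S (V (F 518 (T (S (F 32 L) (F 128 L)) (S (F 288 L) (F 264 L)))) (F 7 (S (F 64 L) L))) (T (V (F 524 (S (F 128 L) L)) (F 519 (S L L))) (F 517 (V (S (F 256 L) (F 136 L)) (S (F 264 L) (F 264 L))))))) (U (S (V (T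 (F 133 (S (F 256 L) (T (F 4 L) (F 260 L)))) (F 643 (S (F 144 L) L))) (F 35 (T (S (F 20 L) (F 20 L)) L))) (F 641 (V (T (S (S (F 128 L) (F 128 L)) (S (F 128 L) (F 128 L))) (S (S (F 384 L) (F 256 L)) (S (F 256 L) (F 256 L)))) (T (S (F 256 L) (S (F 256 L) (F 256 L))) (S (F 272 L) (F 256 L)))))) (S (T (F 7 (S (F 64 L) L)) (F 131 (S (F 32 L) L))) (F 515 (V (T (S (F 264 L) (F 264 L)) (S (F 264 L) (F 264 L))) (T L (F 8 L)))))))
noncomputable def v2_51 : Tr := (S (F 30848 (V (T (U (S (F 1027 (U (K 1) (S (F 64 L) L))) (U (K 8) (V (T (F 1026 L) (F 1027 L)) (F 1027 L)))) (S (F 1027 (S (F 64 L) L)) (V (T (F 1026 L) (F 1027 L)) (F 1027 L)))) (U (S (T (F 11 L) (F 1033 L)) (U (K 8) (T (F 1027 L) (F 1057 L)))) (S (F 1035 (S (F 16 L) L)) (T (F 1025 L) (F 1027 L))))) (T (U (S (S (F 75 L) (F 65 L)) (V (F 1 L) (F 1089 L))) (V (F 1091 (S (F 32 L) L)) (F 65 L))) (U (S (F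 73 (S (F 1 L) L)) (F 1033 (V (S (F 24 L) (F 8 L)) L))) (S (F 1097 L) (S (F 1097 L) (F 1025 L))))))) (V (F 26625 v2_50) (F 47105 (T (U (S (V (S (F 17 L) (F 16 L)) (S (F 145 L) (F 400 L))) (V (T (S (F 400 L) (F 384 L)) (F 385 (S (F 16 L) L))) (F 400 (T L L)))) (S (T (F 16 L) (F 16 L)) (V (T (F 257 L) (F 385 L)) L))) (U (S (V (T (F 17 L) (F 25 L)) (S (F 153 L) (F 17 L))) (V (F 321 (T (S (F 16 L) L) (S (F 16 L) L))) (T (F 272 L) (F 16 L)))) (S (V (S (F 153 L) (F 273 L)) (F 17 L)) (V (S (F 17 L) (F 257 L)) (S (F 145 L) (F 17 L)))))))))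
noncomputable def v2_52 : Tr := (V (U (F 62010970112 (T v2_11 (S (F 128794897 v2_13) (V v2_32 (F 112149265 v2_34))))) (F 61740446191 v2_47)) (F 61747046399 (U (T (F 26120 (S (F 722 (V (U (K 1) (T (S (K 1) (V (T (U (K 1) (S (K 1) L)) (K 1)) (K 1))) (K 1))) (K 1))) (V (U (K 8) (T (S (V (U (K 8) (T (F 658 (S (F 4 L) (F 1 L))) (S (K 8) (F 144 L)))) (K 8)) (F 1168 (V (U (T (F 69 (V (S L L) (S (K 4) L))) (S (K 1) (V (F 4 L) (K 1)))) (T (F 65 (S L (F 16 L))) (V (S (F 68 L) (F 5 L)) (S (F 4 L) (F 4 L))))) (U (K 1) (T (S L L) (K 1)))))) (S (K 8) (V (U (K 8) (T (V (S (F 1104 L) (F 1216 L)) (F 1232 (S (K 1) L))) (S (K 8) (S (F 1092 L) (F 1088 L))))) (K 8))))) (K 8)))) (S (F 47505 (V (K 6) (U (K 6) (T (F 191 (S (K 0) (K 0))) (S (F 187 (V (K 0) (K 1))) (V (K 6) (T L L))))))) (V (F 28201 (U (K 6) (T (S (K 6) (V (U (K 6) (T (S (K 6) (S (K 6) L)) (K 6))) (K 6)))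 (F 191 (S (K 0) (V (U (K 0) (T (K 0) (K 0))) (K 0))))))) (F 39041 (U (K 9) (T (F 1535 (S (K 0) (K 0))) (S (V (K 9) (U (K 9) (S (F 147 L) (F 18 L)))) (V (F 1535 (U (K 0) (S (K 0) (K 0)))) (T (F 386 (V (K 1) L)) (S (F 146 L) (F 384 L))))))))))) (T v2_49 v2_51))))
noncomputable def treeV2 : Tr := (F 0xffffffffffffffffffffffffffffffffffffffffffffffffffffffffffffffffffffffffffffffffffffffffffffffffffffffffffffedffffffffffffffffffffdf7fffffffddffffffffffffffffffaffffffffffffffffffffffffffffffffffffffffffffffffffffffffffffffffffffffffffffffff7fdffc7cfffffffb7fffffffffffffffffffffffffffffffffffffffffffffffffffffffffffffffffffffffffffffffffffffe67ffbffffe7f7fffff9e7fffbe77ffffffffffffffffffffffffffffffffffffffffffffffffffffffffffffffffffffffffffffffffefffffbbd (T (F 17465434623 v2_5) (S (F 44583417343 (V (U (F 57155 (T (K 1) (S (K 1) (V (U (K 1) (T (K 1) (S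 (K 1) (V (U (K 1) (T (K 1) (S (K 1) L))) (F 45 (T (K 1) (F 2 (T (K 0) (K 0))))))))) (F 47 (U (K 0) (T (K 0) (K 0)))))))) v2_7) (F 46082 (U (F 587 (T (S (V (K 1) (U (K 1) L)) (K 1)) (S (V (F 9 (U (K 3) (S L (K 3)))) (U (K 5) (S (F 8 L) L))) (V (K 1) (U (K 5) (T (V (K 1) L) (K 5))))))) (T (F 578 (S (F 160 (V L (F 1 L))) (V (T (U (U (K 1) L) L) (U (T (S (K 1) L) (K 1)) (F 128 L))) (T (F 128 L) (F 160 L))))) (S (F 587 (V L L)) (V (F 11 (T (V (S (F 50 L) L) (F 18 L)) (V (F 33 (S (F 36 L) L)) (F 2 L)))) (F 585 (T (F 64 L) (S (F 65 L) L)))))))))) v2_52)))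

theorem pV2 : chkV par treeV2 192 64 128 128 128 128 163840 327680 Lc = true := by decide +kernel

noncomputable def v3_0 : Tr := (T (F 18620 (S (V (U (K 2) (T (F 330 L) (S (F 394 L) (F 258 L)))) (U (K 4) (T (F 386 (S (K 3) (V L (K 3)))) (S (K 4) (V (F 136 L) (K 4)))))) (V (U (F 507 (T (K 0) (K 1))) (T (V (S (F 330 L) (F 258 L)) (F 386 (S L L))) (S (F 386 (T L (K 5))) (V (F 386 L) (F 384 L))))) (U (F 1003 (T (S (K 0) (V (K 1) (K 0))) (S (K 0) (F 1 (V (K 0) (S (K 0) (K 0))))))) (T (V (S (F 386 L) (F 416 L)) (S (F 160 L) (F 161 L))) (S (V (F 128 L) (S (K 4) (F 160 L))) (V (F 128 L) (S (F 160 L) (F 160 L))))))))) (S (F 37069 (V (F 1019 (U (K 0) (T (S (K 0) (K 0)) (S (T (K 0) (K 0)) (K 0))))) (U (K 4) (T (F 266 (S (K 4) (V (S (F 2 L) L) (K 4)))) (S (T (K 4) (F 2 L)) (V (F 8 L) (F 42 (S (K 4) L)))))))) (V (F 18684 (U (K 2) (T (S (K 2) (T (V (F 130 L)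 (F 1 L)) (K 2))) (F 507 (S (K 0) (V (K 0) (T (K 0) (K 0)))))))) (U (F 121597 (T (F 8 (S (F 1 (V (K 0) (K 1))) (V (K 2) (F 4 (S (K 0) (K 1)))))) (F 4 (S (F 1 (V (K 0) (K 1))) (F 2 (V (K 0) (K 1))))))) (T (F 6352 (S (V (F 772 (S (F 128 L) L)) (F 2818 (S (F 64 L) L))) (V (T (F 389 L) (F 386 L)) (F 2594 (T (S (F 6 L) (F 132 L)) (F 128 L)))))) (F 39105 (S (V (F 896 (S L L)) (F 768 L)) (V (S (F 896 L) (F 129 L)) (F 785 (S L L))))))))))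
noncomputable def v3_1 : Tr := (T (F 18492 (S (V (F 650 (T L (S (F 2 L) (F 2 L)))) (T (V (F 642 L) (F 386 (S (F 32 L) L))) (F 394 (V (S (F 2 L) L) (S (F 1 L) L))))) (V (T (S (F 642 L) (S (F 642 L) (F 514 L))) (F 386 (S (S (F 34 L) (F 2 L)) (V (F 2 L) L)))) (T (V (F 386 (S (F 2 L) L)) (U (F 384 L) (F 386 L))) (F 386 (U (V (S (F 32 L) (F 128 L)) (S (F 32 L) (F 128 L))) (V L (S (F 33 L) (F 160 L))))))))) (S (F 37068 (V (T (F 394 (V L (S (F 3 L) (F 2 L)))) (S (F 1290 (S (F 1 L) L)) (T (F 266 L) (F 264 L)))) (T (F 1290 (V (S (F 2 L) L) (S L L))) (U (S (F 1282 L) (F 1034 (S (F 2 L) L))) (F 1034 (S (F 2 L) L)))))) (F 35016 (V (T (F 906 (U (V (S (F 2 L) L) (S L L)) (V L (S (F 2 L) (F 64 L))))) (U (S (F 776 (T L L)) (F 392 (V (S (F 132 L) L) (S (F 5 L) (F 4 L))))) (F 776 (S L (T (F 4 L) L))))) (T (U (V (T (F 898 L) (F 776 L)) (F 2824 (S (F 64 L) L))) (F 904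 (S (F 65 (S L L)) (T (F 64 L) (F 1 L))))) (F 2568 (U (S (T (F 2 L) (F 256 L)) (T L (F 272 L))) (S (S (F 130 L) (F 128 L)) (S (F 256 L) L)))))))))
noncomputable def v3_2 : Tr := (S (V (F 1344 (T (U (K 4) (V (F 34 (S L L)) (S (K 4) (F 2 L)))) (U (F 34 (V (S (K 2) L) (K 2))) (S (S (F 32 L) (F 32 L)) (F 34 (V L L)))))) (F 1156 (T (U (K 5) (S (K 5) (U (K 5) (V (F 6 L) (F 148 (S (K 1) L)))))) (U (K 5) (S (K 5) (V (S (F 4 L) (F 20 L)) (F 144 (U (K 1) (T L (S (F 8 L) (F 8 L))))))))))) (V (T (F 448 (U (S (V (F 8 L) (F 137 (S (K 2) L))) (V (F 128 L) (F 137 (S L L)))) (V (S (F 1 L) (F 128 L)) (S (F 1 L) (F 137 (S L L)))))) (F 1216 (U (V (S (F 42 (S L L)) (F 2 L)) (F 40 (S (S L (F 1 L)) (S (F 1 L) (F 1 L))))) (V (F 34 (S L L)) (S (F 32 L) (F 160 L)))))) (T (F 1168 (U (S (F 132 (V (T (F 16 L) L) (K 2))) (V (F 134 (S L L)) (T (F 132 L) (F 160 L)))) (S (V (F 6 (S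 L (F 1 L))) (T (F 132 L) (F 160 L))) (F 132 (V (S (F 16 L) (F 16 L)) (S (F 2 L) (F 2 L))))))) (F 1044 (U (F 140 (S (S (K 1) (V (S L L) (T (K 1) L))) (V (S L L) (T L L)))) (S (V (F 12 (S L (F 1 L))) (T (F 132 L) (F 136 L))) (F 140 (V (S L L) (T L L)))))))))
noncomputable def v3_3 : Tr := (S (V (F 53578 (T (U (F 532 (S (K 4) (V L (S (K 4) (F 64 L))))) (S (S (F 512 L) (F 512 L)) (T (F 516 L) (F 516 L)))) (U (S (V (F 516 L) (K 3)) (T (F 512 L) (S (F 528 L) (F 529 L)))) (V (S (F 516 L) (F 517 L)) (S (S (F 512 L) (F 512 L)) L))))) (T (F 53322 (U (K 3) (S (V (T (K 3) (F 32 L)) (K 3)) (V (S (F 36 L) (F 1060 L)) (T (F 52 (S L (F 128 L))) (S (F 49 (S L L)) (F 21 L))))))) (U (F 127818 (S (K 1) (V (T (K 1) (S (K 1) L)) (K 1)))) (S (V (F 53578 (U (K 3) (S L L))) (F 45634 (T (U (K 3) (S (K 3) (F 258 L))) (U (K 3) (S (K 3) (F 1 L)))))) (F 37442 (V (F 546 (T L (S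 (F 256 L) (F 256 L)))) (T (F 7 (U L (S (F 4 L) (F 4 L)))) (S (S (F 5 L) (F 5 L)) (F 7 (S L L)))))))))) (V (F 20810 (T (U (F 1064 (S (V (F 64 L) (F 64 L)) (V (F 128 L) (F 192 L)))) (F 1034 (S (S L L) (T (F 128 L) (F 144 L))))) (U (F 41 (V (F 129 (S L L)) (S (S (F 128 L) (F 129 L)) (F 1 L)))) (S (F 1027 (T (F 64 L) L)) (F 1065 (T (F 64 L) L)))))) (F 119362 (T (U (S (F 138 (U (K 5) (V (S (F 1 L) (F 9 L)) (S (K 5) L)))) (V (F 650 (S L L)) (T (F 650 L) (F 131 L)))) (S (V (F 650 (T (F 4 L) L)) (T (F 650 (S L (F 4 L))) (F 2 L))) (F 642 (V (S (F 16 L) (F 20 L)) (T (F 16 L) L))))) (U (S (V (T (F 138 L) (F 130 L)) (T (S (F 11 L) (F 131 L)) (S (F 1 L) (F 3 L)))) (V (T (F 650 L) (F 130 L)) (T (F 3 L) (S (F 3 L) (F 131 L))))) (S (V (T (F 642 L) (F 128 L)) (T (S (F 3 L) (F 131 L)) (S (F 1 L) (F 3 L)))) (V (F 642 (T (F 16 L) L)) (F 515 (T L (S L (F 2 L)))))))))))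
noncomputable def v3_4 : Tr := (S (F 930846 (V (U (T (F 1629 (S (K 2) (V (V L (K 2)) (K 2)))) (F 1065 (S (F 416 (V (U (K 5) (S (K 2) L)) (K 2))) (V (U (K 1) (T (T (F 164 L) (F 4 L)) (S (F 420 L) (F 256 L)))) (K 3))))) (T (F 537 (S (F 484 (V L (K 1))) (V (F 164 L) (T (S (F 164 L) L) (F 452 (U (K 2) (S (F 1 L) L))))))) (F 1065 (S (F 420 (V L (V (S (K 2) L) (K 2)))) (V (T (F 132 L) (F 384 L)) (T (S (F 256 L) (S (F 260 L) (F 260 L))) (S (F 256 L) (S (F 256 L) (F 256 L))))))))) (U (K 8) (T (K 8) (S (K 8) (V (T (F 1595 (U (K 2) (V (S (K 2) L) (K 2)))) (U (K 8) (S (K 8) (T (F 1058 L) (F 1058 L))))) (K 8))))))) (V (F 4727828 (U v3_0 v3_1)) (U (F 291472 (T (F 41225 (S (K 4) (V (U (K 4) (T (F 451 (S (K 3) (U (K 3) (V L (S (K 3) (F 1 L)))))) (S (K 4) (V (F 1154 (T (F 6 L) (F 160 (S (F 16 L) (F 8 L))))) (F 1289 (T (F 70 (S (K 1) L)) L)))))) (F 1519 (U (K 1) (T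 (K 1) (S (K 1) (V (K 0) (K 1))))))))) (F 17426 (S (K 4) (V (U (K 10) (T (F 2594 (S (V (S (K 4) L) (K 4)) (U (K 0) (V (F 128 L) (F 192 L))))) (F 545 (S (V (F 385 (S L L)) (S (K 5) (F 128 L))) (V (F 257 L) (S (F 257 L) (F 257 L))))))) (U (K 4) (T (F 549 (S (K 5) (V (T (F 129 L) (F 1 L)) (F 192 (T (K 0) (S (K 0) L)))))) (S (K 4) (V (F 549 (T (F 64 L) L)) (F 13 (T L (F 503 (S (K 0) (K 0)))))))))))))) (F 413702 (T (F 51465 v3_2) v3_3)))))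
noncomputable def v3_5 : Tr := (U (F 2596 (T (S (F 448 (V (U (F 26 (T (K 0) (F 1 (S (K 1) (K 0))))) (S L L)) (K 2))) (V (U (F 477 (T (K 1) (K 0))) (T (S (F 452 L) (F 320 L)) (S (F 448 L) (F 320 L)))) (U (K 3) (T (K 3) (V L (K 3)))))) (S (V (F 448 (U (K 3) (T (S (F 16 L) L) (K 3)))) (F 146 (U (K 3) (T (S (K 3) (V L (K 3))) (F 39 (S (V (K 0) (K 1)) (T (V (K 0) (K 1)) (K 0)))))))) (V (U (K 5) (T (S (F 384 L) (F 256 L)) (S (T (F 384 L) (F 128 L)) (K 5)))) (U (F 467 (T (F 4 (S (K 0) (V (K 1) (K 0)))) (F 2 (S (K 0) (V (K 1) (K 0)))))) (T (S (V (F 130 L) (K 3)) (V (F 144 L) (F 128 L))) (S (U (K 2) (V (F 130 L) (S (F 130 L) (F 146 L)))) (V (S (F 130 L) (F 128 L)) (F 146 (T L (S L L))))))))))) (T (S (F 2596 (V (F 448 L) (T (S (F 320 L) (F 320 L)) (S (F 128 L) L)))) (V (F 2607 (T L L)) (T (F 2565 (S (F 32 L) L)) (F 2596 (S L (S (F 256 L) (F 256 L))))))) (S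 (V (F 2599 (T (F 66 L) L)) (T (F 2598 (V (F 64 L) (S (F 2 L) L))) (U (F 1570 (S (V (F 194 L) (T (F 194 L) (F 64 L))) (V (F 194 L) (S (S (F 130 L) (F 130 L)) (F 130 L))))) (F 3110 (V (F 66 L) (S (F 64 L) (F 2 L))))))) (F 2598 (V (T (S (F 192 L) (F 128 L)) (S (F 128 L) (S (F 129 L) (F 128 L)))) (T (V (S (F 130 L) (F 128 L)) (S L (S (F 2 L) L))) (U (V (S (F 2 L) (F 1 L)) (S (S (F 2 L) (F 2 L)) (S (F 2 L) (F 2 L)))) (V L (S (S (F 2 L) (F 2 L)) (S (F 2 L) (F 1 L)))))))))))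
noncomputable def v3_6 : Tr := (U (S (V (F 13410 (T (S (S (F 128 L) (F 130 L)) (F 128 L)) (V (S (F 128 L) (F 130 L)) (S (S L L) (S L L))))) (U (F 9314 (T (K 4) (V (S (F 2 L) (S (F 34 L) (F 34 L))) (S (K 4) (T (F 33 L) (F 33 L)))))) (T (F 12386 (V (S (F 260 L) (F 260 L)) (S (F 32 L) (F 4 L)))) (V (F 13410 (S L L)) (F 16482 (S (F 320 L) (F 1 L))))))) (F 9314 (V (T (F 262 (S L (F 64 L))) (S (T (F 258 L) (F 2 L)) (T (F 262 L) (V (F 295 L) (F 3 L))))) (U (T (F 35 (V (S L (F 2 L)) (S (T (K 4) L) (S L L)))) (V (S (S (F 33 L) (F 33 L)) (T (F 291 L) (F 33 L))) (S (T (F 33 L) (F 33 L)) (T (F 33 L) (F 33 L))))) (T (V (F 259 (S L (F 8 L))) (S (F 2 L) (F 35 (S L L)))) (V (S (F 2 L) (S (F 3 L) (F 35 L))) (S (T (F 33 L) (F 33 L)) (T (F 33 L) (F 33 L))))))))) (S (V (F 13414 (T (S (F 2 L) (F 2 L)) (V L (S L L)))) (T (F 12386 (V (S (F 260 L) (F 260 L)) (S (F 256 L)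 L))) (S (F 4194 (S (F 256 L) L)) (F 8290 (V (F 2 L) (F 1 L)))))) (V (F 13414 (T (S (F 2 L) (F 2 L)) (V L (S L L)))) (T (F 13378 (S (V (F 288 L) (S (F 32 L) (F 288 L))) (V (F 288 L) (S (F 257 L) (F 257 L))))) (V (F 9282 (S (S (F 66 L) (F 65 L)) (T (F 515 L) (F 65 L)))) (S (F 24674 (S L L)) (F 25602 (S (F 32 L) (F 16 L)))))))))
noncomputable def v3_7 : Tr := (U (F 24768 (S (K 4) (V (U (K 4) (T (F 261 (S (K 5) (V (F 18 L) L))) (S (F 37 (T (K 5) (V (F 2 L) L))) (V (F 517 L) (S (F 5 L) (F 517 L)))))) (U (K 4) (T (K 4) (S (T (K 4) L) (V (S (F 4 L) (F 4 L)) L))))))) (S (V (F 12386 (T (V (S (F 260 L) (F 260 L)) (S (F 256 L) (S (F 288 L) (F 256 L)))) (V (S (F 256 L) (S (F 288 L) (F 256 L))) (S (F 32 L) (S (F 32 L) (F 32 L)))))) (T (F 12388 (U (K 4) (V (S (F 352 L) (F 256 L)) (S (F 353 L) (F 33 L))))) (F 16578 (S (V (F 194 L) (F 1472 L)) (T (S (F 65 L) (F 1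 L)) (S (F 1216 L) (F 65 L))))))) (V (T (F 13380 (V (S (F 288 L) (F 257 L)) (T L (S (F 272 L) (F 17 L))))) (V (F 13382 (S (S (F 32 L) (F 32 L)) (S (F 1 L) (F 1 L)))) (S (F 12482 (T (F 256 L) (F 1 L))) (F 25792 (T (F 129 L) (F 256 L)))))) (F 24768 (T (S (V (T (F 257 L) (F 257 L)) (U (F 1 L) (F 257 L))) (V (U (F 261 (S L L)) (F 257 L)) (T (F 261 (S L L)) (F 256 L)))) (S (V (S (F 512 L) (F 512 L)) L) (V (S (F 512 L) (F 4 L)) (S L L))))))))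
noncomputable def v3_8 : Tr := (U (S (F 226 (V (U (T (K 6) (T (K 6) (S (K 6) (F 257 L)))) (T (S (K 6) (V (F 2 L) (F 3 L))) (V (S (F 261 L) (F 257 L)) (F 257 L)))) (F 1409 (U (K 1) (T (T (K 1) (S (K 1) (F 64 L))) L))))) (V (F 24768 (U (T (V (F 548 (S (T (K 4) L) (T (S (K 4) (F 128 L)) L))) (S (K 4) (T (F 36 L) (F 36 L)))) (V (F 548 (S (T L L) (T (S (F 128 L) L) (S (F 4 L) L)))) (S (F 544 L) (F 548 (T (S (F 4 L) L) L))))) (T (S (V (F 548 (T (F 128 L) L)) (S (F 544 L) (F 544 L))) (V (S (F 516 L) (F 517 L)) (S (F 516 L) (F 516 L)))) (S (V (S (F 544 L) (F 544 L)) (F 544 L)) (V (F 548 (T L L)) (S (F 544 L) (F 516 L))))))) (U (F 24768 (T (S (K 4) (T (K 4) (S (F 36 L) (F 4 L)))) (S (F 736 (T L (F 17 L))) (V (F 548 (S (F 4 L) L)) (F 1760 L))))) (T (F 24768 (S (V (S (F 672 L) (F 544 L)) (F 224 L)) (V (S (F 516 L) (F 4 L)) (F 512 L)))) (F 16586 (S (F 704 (S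 (F 64 L) L)) (T (F 1 L) (F 577 L)))))))) (S (V (T (S (F 4194 (S (F 320 L) L)) (F 8290 (V (F 2 L) (S (F 65 L) (F 65 L))))) (F 16610 (V (S (F 640 L) L) (S (F 706 L) (F 640 L))))) (F 16618 (T (S (F 320 L) (V L (F 320 L))) (S (F 322 L) (F 320 L))))) (V (T (F 24642 (S (V (S (F 64 L) (F 32 L)) (T (F 32 L) (F 96 L))) (V (S (F 4 L) (F 36 L)) (S (F 32 L) (F 32 L))))) (S (F 16610 (V (T (F 1 L) (F 1 L)) (S (F 512 L) (F 1 L)))) (F 24706 (V (S (F 32 L) (F 4 L)) (S (F 32 L) (F 32 L)))))) (T (V (F 24770 (S (S (F 32 L) L) (S L L))) (F 16577 (S (S (F 1472 L) (F 1281 L)) (T (F 1 L) (F 1025 L))))) (F 16579 (S (S (F 448 L) (F 384 L)) (V (S (F 257 L) (F 1 L)) (F 257 L))))))))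
noncomputable def v3_9 : Tr := (S (F 1773072 (V (T (U (K 6) (S (F 1046 (V (F 2 L) (S (K 5) L))) (F 3090 (V (S (F 6 L) (F 6 L)) (T (S (F 128 L) (F 4 L)) (S (F 128 L) L)))))) (U (S (V (U (K 6) (S (F 1052 L) (F 1044 L))) (K 6)) (V (T (F 3344 (U (K 3) L)) (V (F 3348 (S L L)) (S (F 1300 L) (F 1296 L)))) (T (K 6) (U (K 6) (S (F 1084 L) (F 1044 L)))))) (S (V (F 1046 (S (F 384 L) L)) (F 1053 (S (F 192 L) L))) (V (F 3090 (T L (S (F 128 L) L))) (T (S (F 1046 L) (F 1044 L)) (S (F 1053 L) (F 1044 L))))))) (T (U (K 6) (S (K 6) (V (U (K 6) (T (F 3090 L) (F 1052 L))) (F 1085 (T (K 5) (T L (F 1 L))))))) (U (F 4156 (S (K 5) (T (K 5) (V (S (K 5) L) (K 5))))) (S (F 5181 (S (F 32 L) L)) (V (F 1052 (T (S (F 321 L) L) (F 321 (S (F 1 L) L)))) (F 5165 L))))))) (F 1710096 (V (T (F 13378 (U (S (V (F 290 (S L L)) (V (S (K 3) (S (K 3) (F 288 L))) (K 3))) (V (F 290 (S L L)) (T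 (S (F 288 L) (F 304 L)) (V (F 304 (S L (F 64 L))) (S (S (F 48 L) (F 304 L)) (F 304 (S L L))))))) (S (V (F 290 (S L L)) (T (S (F 288 L) (F 288 L)) (V (F 288 L) (S (F 288 L) (F 288 L))))) (V (F 290 (S L L)) (T (S (F 288 L) (F 288 L)) (S (S (F 288 L) (F 288 L)) (F 256 L))))))) v3_6) (T v3_7 v3_8))))
noncomputable def v3_10 : Tr := (U (F 138802 (T (K 8) (S (K 8) (V (U (K 8) (T (F 3099 (S (K 2) (V (U (K 2) L) (K 2)))) (S (F 2187 (V (U (K 3) (T (K 3) (S (K 3) (T L (K 2))))) (K 3))) (V (F 6283 (U (F 121 (T (K 0) (F 1 (S (K 0) (S (K 0) (K 0)))))) (T (F 33 (S L L)) (V (F 33 (S L L)) (S (S L L) L))))) (U (K 8) (T (F 6283 (V (S (K 2) L) (K 2))) (S (F 4234 (T (K 3) (V (F 256 L) L))) (F 4233 (V (T (F 257 L) (F 1 L)) (T (S (K 3) (F 257 L)) (S (F 256 L) (F 256 L)))))))))))) (U (K 8) (T (K 8) (S (K 8) (V (F 4234 (U (K 3) (T (K 3) (S (K 3) (U (K 3) (V (S L L) (S (K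 3) L))))))) (F 4323 (U (K 3) (T (K 3) (T (K 3) (S (K 3) (S (K 3) L)))))))))))))) (T (F 1610246 (S (F 7278 (V (T (K 2) (U (K 2) (V (S (K 2) L) (K 2)))) (K 2))) (V (F 5220 (T (U (K 3) (V (S (F 384 L) (F 256 L)) (S (K 3) (S (F 2 L) L)))) (U (S (K 3) (V (F 2 L) (S (K 3) (F 2 L)))) (S (V (F 130 L) (T (F 2 L) (S (F 130 L) (F 130 L)))) (V (F 130 L) (T (F 2 L) (S (F 130 L) (F 130 L)))))))) (T (U (K 8) (S (K 8) (V (F 3140 (S (K 3) (T L (S (F 32 L) (F 32 L))))) (T (K 8) (S (K 8) (V (F 3104 L) (F 3232 (S (K 3) L)))))))) (U (K 8) (S (V (F 2150 (T (K 4) (U (K 4) (S (K 4) L)))) (F 2210 (U (K 4) (T (K 4) (S (K 4) (S (K 4) L)))))) (V (F 3108 (T (S (U (K 3) (F 288 L)) (S (F 32 L) (F 256 L))) (S (V (F 288 L) (F 256 L)) (T (F 256 L) (F 256 L))))) (T (F 3106 (U (K 3) (S (S (K 3) L) (V (F 17 L) (S (F 17 L) (F 17 L)))))) (F 2210 (S (U (K 4) (V (F 4 L) (F 1 L))) (V (S (F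 4 L) (F 5 L)) (U (S (K 4) (F 5 L)) (F 1 L))))))))))))) v3_9))
noncomputable def v3_11 : Tr := (S (F 160656 (V (U (K 3) (T (S (T (F 257 L) (K 3)) (V (S (F 513 L) (F 513 L)) (S (F 769 L) (F 513 L)))) (K 3))) (U (F 1015 (T (S (K 0) (K 0)) (S (K 0) (K 0)))) (T (S (V (F 256 L) (F 784 (S (F 32 L) L))) (V (S (F 768 L) (F 512 L)) (F 784 (T L (S (F 32 L) L))))) (F 770 (S (V (U (K 4) L) (T (F 9 (S L L)) (U (F 9 (S L L)) (F 1 L)))) (V (F 111 (S (K 0) (K 0))) (T (U (K 4) (F 8 L)) (U (K 4) (S (F 9 L) (F 8 L))))))))))) (F 143377 (V (U (F 6127 (T (S (V (K 0) (K 1)) (V (K 0) (U (K 0) (T (K 0) (K 1))))) (S (K 1) (V (U (K 0) (T (K 0) (K 1))) (K 1))))) (T (F 197 (S (V (T (F 4 L) (F 32 L)) (S (F 32 L) (F 32 L))) (V (T (F 4 L) (F 4 L)) (T (F 52 L) (F 20 L))))) (S (F 229 (V (T L (S (K 5) (F 16 L))) (K 5))) (V (T (F 1221 (S (F 16 L) (F 8 L))) (F 225 (S (F 128 L) (F 16 L))))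 (F 421 (U (K 5) (T (F 16 L) (S (K 5) (F 128 L))))))))) (U (F 8175 (T (K 0) (K 0))) (T (S (F 420 (V (U (K 5) (S (F 272 L) (F 272 L))) (U (K 6) (T (F 17 L) (F 1 L))))) (V (F 453 (T (F 4 L) (S (F 16 L) (F 16 L)))) (T (S (F 484 L) (F 1413 L)) (K 3)))) (F 294 (S (V (K 6) (U (K 6) (T (S (F 49 L) (F 1 L)) (S (F 1 L) (S (F 3 L) (K 6)))))) (V (U (K 6) (T (S (K 6) (F 272 L)) (K 6))) (U (K 6) (T (K 7) (U (K 6) (S (F 1 L) L))))))))))))
noncomputable def v3_12 : Tr := (S (F 159760 (V (T (U (S (F 2163 L) (S (F 4209 L) (F 97 L))) (F 113 (S (F 259 L) L))) (F 4211 (U (S (S (F 1 L) (F 1 L)) (V L L)) (S (F 1 L) (T (F 1 L) (F 1 L)))))) (T (F 2160 (U (S (S (F 128 L) L) (V (F 257 L) (S (F 129 L) (F 1 L)))) (V (F 385 (S L L)) (S (F 385 L) (F 1 L))))) (U (S (F 2162 (V L (T (F 17 L) (S (F 3 L) (F 17 L))))) (F 6162 (V (T (F 304 L) (F 48 L)) (T (F 16 L) (S (F 40 L) (F 40 L))))))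 (S (F 2098 (T (F 32 L) (S (F 33 L) (F 1 L)))) (F 6162 (V (F 304 (S L L)) (S (F 32 L) (F 256 L))))))))) (F 159745 (V (T (F 609 (U (S (V L L) (V (S (F 4 L) (F 4 L)) (S (F 4 L) (F 20 L)))) (S (T (F 256 L) L) (V L L)))) (U (S (F 561 (V (S (F 288 L) (F 32 L)) (T (F 288 L) (F 256 L)))) (V (T (F 1633 L) (F 577 L)) (T (F 609 L) (F 529 L)))) (S (F 99 (V L (S (F 73 L) (F 72 L)))) (F 579 (V (S (F 32 L) L) (S (F 64 L) L)))))) (T (U (S (V (F 625 (S (F 16 L) L)) (F 720 (T (F 16 L) L))) (F 705 (V (S (F 16 L) L) (T (F 16 L) (S (F 288 L) (F 32 L)))))) (S (V (F 625 L) (F 577 L)) (V (F 577 L) (S (F 579 L) (F 705 L))))) (U (S (V (T (F 625 L) (F 659 (S (F 1 L) L))) (F 4754 (T (S (F 8 L) L) (S L (S (F 128 L) (F 128 L)))))) (F 658 (V (T (S (F 272 L) (F 272 L)) (S (F 256 L) (F 256 L))) (T (S (F 256 L) (F 256 L)) (S L (S (F 256 L) (F 256 L))))))) (S (V (F 595 (S (F 1 L) L))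 (F 4626 (T (F 256 L) L))) (T (S (F 531 L) (F 643 L)) (F 659 (V L (S (F 1 L) (F 1 L)))))))))))
noncomputable def v3_13 : Tr := (U (T (S (F 29072 (V (U (F 3583 (T (K 0) (S (K 0) (K 0)))) (T (S (F 11 (T (F 8 L) L)) (F 259 (V (K 2) L))) (F 35 (S (T L (F 2 L)) (V (K 2) L))))) (U (F 3439 (T (F 4 (S (K 0) (V (V (K 1) (K 0)) (K 0)))) (F 3 (S (K 0) (K 0))))) (T (S (F 1027 (T L (F 32 L))) (T (F 3 L) (F 3 L))) (S (T (F 1059 L) (F 1056 L)) (V (F 1059 L) (F 3168 (S (F 128 L) L)))))))) (V (F 213400 (U (K 8) (T (S (V (K 8) (S (F 14 L) (F 1030 L))) (V (K 8) (S (F 1030 L) (F 1024 L)))) (F 1030 (S (V (K 1) (S L (F 8 L))) (V (K 1) (S (F 8 L) (F 8 L)))))))) (F 29072 (U (F 2370 (T (S (V (F 253 (S (K 0) (K 0))) (T (K 6) L)) (F 189 (V (K 1) (K 0)))) (S (F 136 (V (T (S (K 2) L) (K 2)) (K 2))) (V (T (F 128 L) (F 136 (S (K 2) L))) (K 5))))) (T (F 259 (S (V L (F 17 L)) (V (S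 (F 17 L) (F 17 L)) (F 17 L)))) (S (V (F 2307 L) (F 2113 (S L (F 256 L)))) (F 2115 (V (S (F 20 L) (F 4 L)) (S L (F 4 L)))))))))) v3_11) (T (F 151696 (S (V (T (S (F 2125 (S (F 128 L) L)) (T (F 77 L) (F 69 L))) (S (F 69 L) (T (F 69 L) (F 69 L)))) (T (F 2117 (S (S (F 32 L) L) (T L L))) (U (V (F 2117 L) (F 6244 (S (F 128 L) L))) (F 2117 (S (F 32 L) L))))) (V (T (U (S (F 581 (T (F 128 L) L)) (V (F 585 (S (F 128 L) L)) (F 4677 L))) (F 581 (S (S (F 128 L) (F 128 L)) (T L (F 1 L))))) (U (S (T (F 581 L) (F 4165 L)) (F 4677 (V (S L L) L))) (F 4165 (S (S L L) (T (F 4 L) (F 4 L)))))) (T (U (F 4677 (S (S L L) (S L L))) (S (F 69 L) (F 4677 (S L L)))) (U (S (F 4165 (T (F 20 L) L)) (F 4229 (T (F 20 L) L))) (S (F 4165 (S (F 1 L) L)) (S (F 4165 L) (F 4101 L)))))))) v3_12))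
noncomputable def v3_14 : Tr := (S (V (F 7236 (U (K 2) (T (S (K 2) (V (S (K 2) L) (K 2))) (S (V (S (K 2) (F 8 L)) (K 2)) (V (T (F 8 L) (F 8 L)) (F 9 (U (K 4) (T L L)))))))) (F 7714 (U (K 1) (T (K 1) (S (K 1) (V (U (K 1) (S (K 1) (T (K 1) L))) (K 1))))))) (V (U (F 8053 (T (S (K 0) (F 1 (V (T (K 0) (K 1)) (K 1)))) (K 1))) (T (S (V (F 5188 (S (F 1 L) (F 4 L))) (F 3140 (T (F 4 L) L))) (V (F 5445 (S L L)) (T (F 5444 L) (F 1284 L)))) (S (V (F 7236 (U (K 5) (S (F 8 L) L))) (T (F 3076 L) (F 7716 (S L (K 4))))) (F 5444 (V (T L (K 5)) (K 5)))))) (U (F 8055 (T (K 1) (S (K 0) (K 1)))) (T (S (V (F 3588 (U (K 2) (T (F 10 L) (F 1 L)))) (F 7712 (U (K 1) (T (K 1) (S (K 1) L))))) (F 8183 (V (S (K 0) (K 0)) (K 0)))) (F 6688 (S (V (U (K 5) (T (S (F 65 L) (K 5)) (S (F 129 L) (F 129 L)))) (U (T (K 2) (S (K 2) (V (K 5) (S (K 2) (F 129 L))))) (T (V (S (F 129 L) (F 129 L))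 (S (K 2) (F 129 L))) (S (T (F 128 L) (F 128 L)) (S (F 128 L) (F 128 L)))))) (V (K 5) (U (K 5) (T (U (K 5) (S (F 129 L) (K 5))) (S (S (F 128 L) (F 129 L)) (T (F 129 L) (F 129 L))))))))))))
noncomputable def v3_15 : Tr := (S (F 217 (V (F 6689 (T (F 146 (S L (S L L))) (S (V (F 146 L) (U (F 144 (S L (F 16 L))) (F 18 L))) (F 130 (U (S (F 4 L) (F 4 L)) L))))) (U (T (F 6673 (S (K 5) (V (F 146 L) (S (K 5) L)))) (S (F 4656 (V (T (F 257 L) (S (K 6) (F 257 L))) (T (K 5) (S (K 5) L)))) (V (F 4145 (T (F 5 L) L)) (T (F 4625 (S (F 32 L) L)) (S (F 560 L) (F 4144 L)))))) (T (F 6673 (S (V (F 18 L) (T (F 18 L) (F 16 L))) (T (F 130 L) (S (F 2 L) (F 130 L))))) (S (F 6704 (V (T (F 130 L) L) (T (S (F 128 L) (F 128 L)) (S L L)))) (V (F 6689 (S L (F 2 L))) (S (F 6656 L) (F 6656 L)))))))) (F 91 (V (F 5891 (T (S (F 24 (S L L)) (T (F 24 L) (F 16 L))) (S (U (F 24 (S L L)) (F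 8 L)) (U (S (F 8 L) (F 8 L)) L)))) (U (T (F 5889 (S (V (F 152 L) (S (F 16 L) (F 16 L))) (S (F 128 L) (F 128 L)))) (S (V (F 5379 (S L L)) (T (F 4609 L) (F 1024 L))) (V (F 5891 (S L L)) (T (F 4865 L) (F 5377 (S L L)))))) (T (F 5891 (S (S L L) (S (F 16 L) (F 16 L)))) (S (V (F 5889 L) (T (F 5889 L) (F 5632 L))) (F 5377 (T (S (F 258 L) (F 258 L)) (S L (F 256 L))))))))))
noncomputable def v3_16 : Tr := (V (U (T (F 349 (S (V (F 2065 (T L (S L L))) (T (K 3) (S (F 16 L) (F 16 L)))) (V (F 2305 (T (F 32 L) (S L L))) (T (F 1 L) (S (F 2048 L) (F 2048 L)))))) (S (V (T (F 345 L) (F 217 (S (F 512 L) (F 4096 L)))) (F 345 (T (S (F 2048 L) (F 2048 L)) (S L L)))) (V (F 95 (T (S (F 512 L) (F 513 L)) (S L L))) (T (F 93 (S L L)) (S (F 93 L) (F 89 L)))))) (F 95 (T (V (S (S (F 529 L) (F 769 L)) (F 769 (S L (F 2 L)))) (S (T (F 513 L) (F 512 L)) (S (F 512 L) (F 513 L)))) (S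 (V (T (F 512 L) L) (T (S (F 528 L) (F 1536 L)) (S (F 1536 L) (F 1536 L)))) (V (T (F 768 L) (F 1024 L)) (T (S (F 1536 L) (F 1536 L)) (S (F 1536 L) (F 1536 L)))))))) (F 93 (U (T (S (V (T (K 3) (S (K 3) (F 512 L))) (T (K 3) (S (K 3) (F 512 L)))) (V (T (S (F 528 L) (F 513 L)) (V (F 512 L) (S (F 4624 L) (F 4624 L)))) (T (S (F 512 L) (F 512 L)) (S (F 512 L) (S (F 528 L) (F 512 L)))))) (S (V (T (S (F 512 L) (F 512 L)) (S (F 512 L) (F 512 L))) (T (S (F 528 L) (F 528 L)) (F 512 L))) (V (T (S (S (F 512 L) (F 512 L)) (S (F 512 L) (F 512 L))) (S L (S (F 512 L) (F 4096 L)))) (T (S (F 512 L) (S (F 512 L) (F 512 L))) (S (F 512 L) (S (F 4608 L) (F 4608 L))))))) (T (S (V (T (F 528 L) (F 512 L)) (T (F 512 L) (F 512 L))) (V (T (F 4608 L) (S (F 4624 L) (F 4864 L))) (T (F 512 L) (S (F 4624 L) (F 4624 L))))) (S (V (T (F 512 L) (S (F 5632 L) (F 5632 L))) (T (F 4608 L) (F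 4624 L))) (V (T (S (F 5632 L) (F 5632 L)) (S (F 5632 L) (F 5632 L))) (T (S (F 4624 L) (F 6656 L)) (S (F 6656 L) (F 6656 L)))))))))
noncomputable def v3_17 : Tr := (T (F 349 (S (F 2321 (V (U (K 5) (T (K 5) (V (S (K 5) L) (K 5)))) (K 5))) (V (U (F 273 (T (K 6) (S (K 6) (V (F 1 L) (T (K 6) L))))) (F 2065 (T (S (S (K 6) (F 4 L)) (S (F 260 L) (F 260 L))) (S (V (F 4 L) (S L (F 4 L))) (T (F 4 L) (S (F 4 L) (F 4 L))))))) (U (T (K 3) (S (K 3) (T (K 3) (S (K 3) (V (F 273 L) (F 16 L)))))) (T (F 273 (S (K 6) (V (S (F 1 L) (F 1 L)) (S L (F 1 L))))) (S (V (T (F 2065 L) (F 17 L)) (T (F 17 L) (F 16 L))) (V (S (F 2049 L) (F 2305 L)) (S L (F 2048 L))))))))) (S (F 345 (V (U (T (K 3) (S (V (T (K 3) (S (K 3) (F 560 L))) (K 3)) (V (T (S (K 3) (F 2064 L)) (S (F 48 L) (F 16 L))) (U (K 3) (T (F 2064 L) (F 16 L)))))) (T (S (T (K 3) (V (F 2608 L) (F 2064 L))) (V (T (F 6673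 L) (F 6160 L)) (T (F 2065 L) (F 2064 L)))) (S (V (F 6672 (T (S (F 16 L) (F 16 L)) (S (F 16 L) L))) (T (F 2064 L) (F 6704 (S L L)))) (V (T (F 6144 L) (F 6672 (S L L))) (T (F 2048 L) (S (F 6672 L) (F 6656 L))))))) (U (T (K 3) (S (K 3) (T (K 3) (V (S (F 2096 L) (F 2064 L)) (F 2256 L))))) (T (S (K 3) (V (T (F 2064 L) (F 2064 L)) (T (F 2064 L) (F 2064 L)))) (S (V (S (F 2096 L) (F 2064 L)) (F 6352 (S (F 8 L) L))) (V (T (F 2064 L) (F 6144 L)) (S (F 6288 L) (F 6160 L)))))))) v3_16))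
noncomputable def v3_18 : Tr := (V (U (T (F 244735 (S (K 0) (V (K 1) (U (K 0) (V (S (K 0) (K 1)) (K 0)))))) (S (F 209887 (V (U (K 1) (T (S (K 1) L) (S (K 0) (T L (K 0))))) (F 28 (U (K 0) (T (K 0) (S (K 1) (V (T (K 0) (K 1)) (K 0)))))))) (V (F 209631 (U (K 2) (V (K 2) (T (S (F 16 L) (K 2)) (S (T (F 16 L) L) (K 2)))))) (U (F 197320 (T (K 1) (U (F 3966 (S (K 1) (K 0))) (S (K 0) (V (K 4) (T (K 1) (S (K 0) L))))))) (T (F 205663 (S (F 36 (V (S (K 3) L) (K 3))) (V (F 36 (S L L)) (U (K 1) (S L L))))) (S (F 131161 (V (F 4625 (T (S (F 76 L) (F 73 L)) (S (F 64 L) (F 8 L)))) (T (S (K 2) (F 4105 L)) (U (K 1) (F 512 L))))) (V (F 197326 (T (F 576 L) L)) (F 131147 (T (S (F 2177 L) (F 4225 L)) (S (F 2048 L) (F 2048 L))))))))))) (T (F 205599 (S (V (F 36 (T L (S (F 2 L) (F 2 L)))) (F 96 (U (K 4) (T (K 4) (S (S (K 4) (F 8 L)) L))))) (V (T (F 36 (S (F 2 L) L)) (S (F 100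 L) (F 32 L))) (T (S (F 36 L) (F 32 L)) (S (V (F 100 L) (F 64 L)) (V (F 96 L) (F 64 L))))))) v3_15)) (U (T (K 14) (S (K 14) (V (U (F 131161 (T (K 2) (U (K 2) (S (K 2) (V (V (T (K 2) (S (K 1) L)) (K 2)) (K 2)))))) (T (F 131417 (S (K 2) (V (T (K 2) (S (K 2) (F 1024 L))) (T (K 2) (U (K 2) (S (K 2) L)))))) (S (V (S (K 14) (T (K 14) (S (F 89 L) (F 89 L)))) (F 345 (T (K 3) (U (K 3) (S (K 3) L))))) (V (T (F 131161 (V L (S (F 256 L) L))) (S (T (F 89 L) (F 89 L)) (T (F 89 L) (F 89 L)))) (T (F 345 (U (K 3) (S L L))) (S (V (F 89 L) (F 89 L)) (V (S (F 345 L) (F 91 L)) (S (F 345 L) (F 89 L))))))))) (U (K 14) (T (K 14) (S (F 345 (V (T (K 3) (U (K 3) (S (K 3) L))) (K 3))) (V (U (T (K 14) (S (K 14) (T (F 89 L) (F 89 L)))) (T (S (K 14) (F 89 L)) (V (F 89 L) (F 89 L)))) (U (T (K 14) (T (K 14) (F 81 L))) (T (F 345 (V L (S (K 3) (F 2064 L)))) (F 93 (S (F 512 L) L)))))))))))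 v3_17))
noncomputable def v3_19 : Tr := (U (T (K 7) (S (V (F 16127 (U (K 0) (T (K 0) (K 0)))) (U (T (K 7) (U (F 16127 (S (K 0) (K 0))) (S (V (K 8) (T (F 8210 L) (S (F 8208 L) (K 8)))) (K 8)))) (T (F 9331 (S (U (K 4) (S L L)) (K 4))) (S (T (F 8275 (V (F 64 L) (S L L))) (V (F 8243 L) (S (F 8210 L) (F 8210 L)))) (F 8242 (V (K 4) (T (S (F 576 L) (F 576 L)) (S L (F 512 L))))))))) (F 8307 (V (K 4) (U (K 5) (T (K 5) (S (U (K 4) (T (K 5) (S L L))) (K 5)))))))) (T (F 103 (S (V (U (K 6) (T (F 8 L) (S (F 137 L) (F 136 L)))) (F 137 (T (U (K 1) (S L L)) (S (U L L) (U (K 1) L))))) (V (K 6) (U (K 6) (T (K 6) (S (F 129 L) (S (F 129 L) (K 6)))))))) (F 8243 (S (V (U (T (F 324 (S (S (F 8 L) L) (K 1))) (S (F 64 L) (S (F 64 L) (F 64 L)))) (T (S (F 324 L) (F 320 L)) (S (F 320 L) (F 64 L)))) (U (T (S (S (F 320 L) (F 320 L)) (S (F 320 L) (F 320 L))) (S (T (S (F 64 L) (F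 320 L)) (S L L)) (T (F 64 L) (S (F 64 L) (F 64 L))))) (T (S (F 324 (S L L)) (F 64 L)) (S (T (F 320 L) (S (F 320 L) (F 320 L))) (S (F 64 L) (F 64 L)))))) (V (U (F 463 (T (K 0) (F 1 (S (S (K 0) (K 0)) (K 0))))) (T (S (S (F 320 L) (F 320 L)) (K 5)) (S (S (F 320 L) (F 320 L)) (S (F 64 L) (F 64 L))))) (U (T (S (S (F 64 L) (F 64 L)) (K 5)) (S (T (F 64 L) (S (F 64 L) (F 64 L))) (S (F 64 L) (F 64 L)))) (T (S (F 64 L) (S (F 320 L) (F 320 L))) (S (S (F 64 L) (F 64 L)) (S (F 64 L) (F 64 L))))))))))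
noncomputable def v3_20 : Tr := (U (T (F 2109644 (U (F 32699 (S (K 1) (K 0))) (S (K 2) (V (K 6) (T (K 6) (S L (S (F 10368 L) (K 6)))))))) (U (S (V (F 2101452 (T (K 2) (S (K 1) (T L L)))) (T (K 18) (V (S (K 19) (S (K 18) (F 4300 L))) (K 18)))) (V (F 2101452 (T (K 6) (S (V (K 5) L) (K 5)))) (T (F 2101452 (S (V L (K 2)) (T (K 6) (S L L)))) (S (V (S (F 4300 L) (F 4300 L)) (T (F 4300 L) (F 4301 (S L L)))) (V (F 2101452 (S L L)) (T (F 4300 L) (F 4301 (S L L)))))))) (S (V (T (F 3158220 (S (K 1) L)) (S (F 4300 L) (F 2101452 (S L L)))) (T (S (K 18) (S (K 18) (F 4300 L))) (F 4301 (S (T (K 3) (V (F 36864 L) (F 36864 L))) (V L (S L L)))))) (V (F 2109644 (T (S (F 2049 L) (K 6)) (S (S L L) (S (F 4097 L) (F 6145 L))))) (T (V (F 2109676 (S L (F 2048 L))) (S (F 4302 L) (F 2101484 L))) (S (T (F 4300 L) (F 4301 (S L L))) (T (F 4300 L) (F 4301 (S L L))))))))) (T (F 2101486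 (S (V (F 12672 (T (S (F 512 L) (F 576 L)) (S (S L L) L))) (T (F 10624 (U (K 7) (S (F 64 L) (F 1 L)))) (S (U (K 2) (S (F 10496 L) (F 10624 L))) (S (F 8192 L) (F 8192 L))))) (V (F 4481 (T (K 4) (U L (F 1 L)))) (T (S (F 4480 L) (F 12672 L)) (S (S (F 128 L) (F 384 L)) (T (F 12672 L) (F 4480 L))))))) (S (F 4303 (V (T (S (S (F 4097 L) (F 24577 L)) (V (F 24835 L) (F 24577 L))) (S (T (F 20480 L) L) (S L L))) (U (T (S (S L L) (S L L)) (S (T L L) (V L (S (F 20480 L) (F 20480 L))))) (T (S L (F 12288 L)) (S (S (F 20480 L) (F 20480 L)) (S (F 20480 L) (F 20480 L))))))) (V (F 12541 (T (U (S (F 3 L) (F 259 L)) (F 4097 L)) (S (T (F 1 L) L) (S (F 1 L) (F 1 L))))) (U (T (S (F 4302 L) (F 2109676 (S (F 4096 L) (F 2048 L)))) (F 4301 (S (T L L) (S L L)))) (F 4303 (T (S (F 24576 L) (F 24832 L)) (S L (S (F 24576 L) (F 24576 L))))))))))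
noncomputable def v3_21 : Tr := (U (S (K 18) (V (T (U (V (S (K 18) (S (K 18) (F 4300 L))) (K 18)) (S (K 18) (V (S (F 4302 L) (F 2101452 L)) (S (F 4300 L) (F 4300 L))))) (U (S (V (T (K 18) (F 4300 L)) (K 18)) (V (T (F 4300 L) (F 4301 (S L L))) (T (F 4302 (S (K 3) L)) (S (F 4300 L) (F 4300 L))))) (S (V (S (F 4300 L) (F 4300 L)) (F 4559 (T (S (K 3) L) (S L L)))) (V (T (F 4302 L) (F 4300 L)) (T (F 4300 L) (F 4300 L)))))) (T (U (K 18) (S (K 18) (T (K 18) (V (F 4238 L) (F 4495 (S (K 3) L)))))) (U (S (K 18) (V (T (S (K 18) (F 4238 L)) (S (F 399 L) (F 271 L))) (T (S (K 18) (F 271 L)) (F 399 (S L L))))) (S (V (F 399 (T L L)) (S (F 399 L) (F 271 L))) (V (T (F 398 L) (F 399 (S L L))) (T (F 271 L) (F 271 L)))))))) (S (F 4494 (V (T (V (S (K 3) (S (K 3) L)) (K 3)) (S (T (K 3) (V (F 36864 L) (F 36864 L))) (V (T (F 36864 L) (S (F 36880 L) (F 36864 L))) (T (S (K 3)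 (F 37376 L)) (S (F 37376 L) (F 36864 L)))))) (T (K 3) (S (K 3) (V (T (F 36864 L) (F 36864 L)) (S L L)))))) (V (T (S (F 4302 (V (S L L) (T L L))) (V (F 4300 L) (F 4302 (T L L)))) (S (F 4303 (V (T L (S L L)) (T (S L L) (S L L)))) (V (S (F 4300 L) (F 4300 L)) (F 4302 (T L (S (F 36864 L) L)))))) (T (S (F 4494 (V (T L (S (F 37376 L) (F 36864 L))) (T L L))) (V (F 4302 (T L L)) (F 399 (T L L)))) (S (F 399 (V (T L L) (T L L))) (V (F 207 (T (S (F 8704 L) L) (S L L))) (F 399 (T L L))))))))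
noncomputable def v3_22 : Tr := (T (F 4302 (S (V (U (T (K 3) (S (K 3) (S (K 3) (F 36864 L)))) (T (F 45569 (S (K 8) L)) (S (F 37376 L) (F 45568 (S L L))))) (U (T (K 3) (S (K 3) (T (K 3) (F 36864 L)))) (F 45568 (T (S (K 8) (S L L)) (S (S L L) (T L L)))))) (V (U (T (S (F 8705 L) (F 8961 (S L (F 2 L)))) (S L (S (F 8704 L) (F 8704 L)))) (T (F 8961 (S (F 4 L) (F 1 L))) (T (F 41472 L) (S (F 45568 L) (F 58112 L))))) (U (T (S (V (F 45568 L) (F 12800 L)) (S (F 8704 L) (F 8704 L))) (S (V (F 36864 L) (F 36864 L)) (T L (S (F 36864 L) (F 40960 L))))) (T (F 45568 (S (S L L) (S L L))) (S (F 45568 (T L L)) (S (F 45056 L) (F 45056 L)))))))) (S (F 4559 (V (U (T (S (T (K 3) L) (V L L)) (S (V L L) (V (S (F 512 L) L) (S (F 512 L) L)))) (T (S (S (F 512 L) (F 512 L)) (S (F 4096 L) L)) (S (S L L) (S L L)))) (U (T (S (T (K 3) L) (V L L)) (V (S L (S (F 4096 L) (F 4096 L)))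 (S (F 512 L) L))) (T (V (S (F 4608 L) (F 4608 L)) (S (F 4608 L) (F 4608 L))) (S L (S L L)))))) (V (F 4302 (U (T (S (V (F 36864 L) (S (F 45056 L) (F 36864 L))) (V L L)) (S (V (S (F 36864 L) (F 36864 L)) (S (F 36864 L) (F 36864 L))) (T (S (F 36864 L) L) (S L L)))) (T (S (S (F 36864 L) (F 45056 L)) (S (F 40960 L) (F 57344 L))) (S (S (F 36864 L) (F 36864 L)) (T (F 45056 L) (F 36864 L)))))) (F 463 (U (T (S (V (S (F 8704 L) L) (S (F 8704 L) L)) (V (S L L) (S L L))) (V (S (S L L) (S L L)) (S (S L L) (S L L)))) (T (S (T (F 8704 L) (F 8704 L)) (V (F 8704 L) (F 8704 L))) (S (S L L) (T L L))))))))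
noncomputable def v3_23 : Tr := (V (T (U (S (V (F 2101452 (S L L)) (T (F 4300 L) (F 4302 (S L L)))) (V (K 14) (T (F 2101452 L) (S (F 4332 L) (F 12492 L))))) (S (V (F 4300 L) (S (F 4300 L) (F 4300 L))) (T (F 12492 L) (S (F 4300 L) (F 12492 L))))) (U (S (V (T (F 4300 L) (S (F 4301 L) (F 4300 L))) (T (S (F 4300 L) (F 4300 L)) (S (F 4300 L) (F 204 L)))) (V (T (F 4300 L) (F 12492 (S L L))) (T (S (F 4300 L) (F 4300 L)) (S (F 204 L) (F 204 L))))) (S (V (T (F 4302 L) (F 4300 L)) (T (F 4302 (S L L)) (S (F 4302 L) (F 4301 L)))) (V (S (F 4300 L) (F 4300 L)) (T (F 4300 L) (F 4302 (S L L))))))) (T (U (S (V (T (F 4302 (S (K 3) L)) (S (F 4300 L) (F 4300 L))) (T (S (K 18) (F 4238 L)) (S (F 398 L) (F 142 L)))) (V (T (S (F 4302 L) (F 4332 L)) (S (F 4300 L) (F 4300 L))) (T (F 136 L) (S (F 142 L) (F 140 L))))) (S (V (T (F 4300 L) (F 4302 (S L L))) (T (F 142 L) (F 142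 L))) (V (T (F 4300 L) (F 4302 (S L L))) (T (F 204 L) (S (F 206 L) (F 206 L)))))) (U (S (V (T (S (F 4236 L) (F 204 L)) (S (F 142 L) (F 142 L))) (T (S (F 271 L) (F 142 L)) (S (F 271 L) (F 15 L)))) (V (T (S (F 204 L) (F 204 L)) (S (F 140 L) (F 200 L))) (T (S (F 138 L) (F 140 L)) (S (F 14 L) (F 14 L))))) (S (V (T (F 204 L) (S (F 207 L) (F 206 L))) (F 399 (T (S L L) (S L L)))) (V (T (S (F 4300 L) (F 4300 L)) (S (F 206 L) (F 206 L))) (T (S (F 143 L) (F 206 L)) (S (F 143 L) (F 143 L))))))))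
noncomputable def v3_24 : Tr := (V (T (V (K 14) (S (T (F 12492 L) (F 4332 (S L L))) (F 2109676 (U (K 6) (S L (K 6)))))) (U (S (V (T (F 12524 L) (F 4300 L)) (T (S (F 4300 L) (F 12492 L)) (S (F 204 L) (F 4300 L)))) (V (F 12492 (S L L)) (T (F 12488 L) (F 4288 L)))) (S (V (S (F 4300 L) (F 12492 L)) (T (F 4300 L) (F 4332 (S L L)))) (V (F 12524 (S L L)) (T (F 12520 L) (F 4300 L)))))) (T (U (S (V (T (F 4300 L) (S (F 4300 L) (F 4300 L))) (T (S (F 4296 L) (F 4296 L)) (S (F 200 L) (F 200 L)))) (V (T (K 14) (F 4296 L)) (T (F 200 L) (S (F 200 L) (F 232 L))))) (S (V (T (F 4332 L) (F 4296 L)) (T (F 4296 L) (F 200 L))) (V (T (F 12524 L) (F 4328 L)) (T (F 4328 L) (F 200 L))))) (U (S (V (T (S (F 204 L) (F 4296 L)) (S (F 200 L) (F 200 L))) (T (S (F 136 L) (F 200 L)) L)) (V (T (F 192 L) (S (F 200 L) (F 200 L))) (T (S (F 200 L) (F 200 L)) (S (F 192 L) (F 192 L))))) (S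 (T (V (F 200 L) (F 136 L)) (V (S (F 206 L) (F 204 L)) (S (F 142 L) (F 202 L)))) (V (T (F 4296 L) (F 192 L)) (T (F 192 L) (S (F 202 L) (F 202 L))))))))
noncomputable def v3_25 : Tr := (S (V (T (S (V (F 4300 L) (S (F 4300 L) (F 4300 L))) (F 4332 (V (S (F 257 L) (F 257 L)) (S L L)))) (S (T (V (F 4302 L) (F 4300 L)) (V (F 4301 L) (F 4300 L))) (V (S (F 4300 L) (F 4300 L)) (T (F 4300 L) (F 4300 L))))) (T (S (V (F 4302 (T L (S L L))) (T (F 206 L) (F 143 L))) (V (F 4302 (T L (S L L))) (T (F 206 L) (F 207 (S L L))))) (S (V (F 207 (T (S L L) (S L L))) (T (F 143 L) (F 399 (S L L)))) (V (T (F 4302 (S L L)) (F 207 (S L L))) (F 207 (T (S L L) (S L L))))))) (V (T (F 4332 (S (V (F 257 L) (S L L)) (V (F 8449 L) (S (F 8448 L) (F 8448 L))))) (S (V (F 4332 (S L L)) (T (F 4332 L) (F 4300 L))) (F 4332 (V (T (F 8449 L) (F 8448 L)) (T L L))))) (T (S (V (T (F 4332 L) (F 4300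 L)) (F 238 (T (S L L) (S L L)))) (V (F 4332 (T (F 16640 L) L)) (T (F 234 L) (F 238 (S L L))))) (S (V (T (F 204 L) (F 207 (S L L))) (T (F 207 (S L L)) (V (F 239 (S L L)) (F 143 L)))) (V (T (F 236 L) (F 204 L)) (T (F 202 L) (S (F 203 L) (F 234 L))))))))
noncomputable def v3_26 : Tr := (S (V (U (T (F 4302 (S (T L L) (T (F 8448 L) L))) (S (F 4303 (V (S L L) (S L L))) (V (F 4348 L) (F 4303 (S L L))))) (F 4335 (T (S (S (F 8192 L) (F 8192 L)) (S (F 8192 L) (F 8448 L))) (S (T (F 8192 L) L) (T (F 8192 L) (F 8192 L)))))) (F 207 (U (T (S (V (S L (F 16896 L)) (S L L)) (V (S (F 16896 L) (F 16896 L)) (S L L))) (S (V (S L L) (S L L)) (V (S L L) (S L L)))) (T (S (T (F 25088 L) (F 16896 L)) (T (F 49664 L) (F 16896 L))) (S (V (F 57856 (S L L)) (F 24576 L)) (T (F 16896 L) L)))))) (V (F 4332 (U (T (V (F 24833 (S L (F 16 L))) (S (F 16640 L) (F 24832 L))) (S (V (S (F 24832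 L) (F 24832 L)) (S L (F 24576 L))) (T (F 8448 L) (S (F 8448 L) (F 24832 L))))) (T (S (F 24832 L) (F 24833 L)) (S (T (F 57600 L) (F 57344 L)) (F 57600 (T L L)))))) (U (T (F 238 (S (V (S (F 33280 L) (F 16896 L)) (S L L)) (V (S (F 768 L) (F 17152 L)) (S L L)))) (S (F 207 (T (V (F 16896 L) L) (S L L))) (F 238 (V (T (F 16896 L) (F 49152 L)) (T L (S (F 49664 L) (F 49664 L))))))) (F 255 (T (S (T (F 512 L) (S (F 768 L) (F 768 L))) (T (F 768 L) (F 512 L))) (S (T L L) (T L L)))))))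
noncomputable def v3_27 : Tr := (U (T (U (S (V (F 2101452 (T (K 6) (S (V (K 6) (S L L)) (K 6)))) (T (F 2103532 (U (K 2) (S (K 2) (T (K 6) (S L L))))) (U (S (K 18) (V (S (F 4300 L) (F 2101452 L)) (T (F 4300 L) (F 4232 L)))) (V (S (F 4302 (S (K 3) L)) (F 4332 (S L L))) (S (T (K 18) (F 4238 L)) (T (F 4302 L) (F 4300 L))))))) (V (K 14) (T (K 14) (U (S (V (K 14) (T (F 4332 L) (F 4296 L))) (T (K 14) (V (K 14) (F 4328 L)))) (S (V (F 12524 (S L (K 7))) (S (F 4300 L) (F 4328 L))) (F 12520 (T (K 7) (S L L)))))))) (S (V (F 4332 (T (K 7) (S (T (F 257 L) L) (T (F 769 L) (F 257 L))))) (F 4302 (T (V (S (S (F 8705 L) (F 8961 L)) (F 8961 (S L L))) (S (S (F 8704 L) (F 8704 L)) (S (F 8704 L) (F 8705 L)))) (S (V (S L L) (T L L)) (V (S L L) (T L L)))))) (F 4332 (V (T (K 7) (S (S (F 769 L) (K 7)) (K 7))) (T (T (K 7) (V (K 7) (S (F 17152 L) (F 17153 L)))) (S (V (S L (F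 16640 L)) (T L (S (F 16896 L) (F 16896 L)))) (V (S (F 769 L) (F 769 L)) (T (F 17152 L) L)))))))) (U (S v3_23 v3_24) v3_25)) (T (F 4334 (S (V (T (S (S (F 769 L) (F 769 L)) (F 8961 (S L L))) (S (T (F 257 L) L) (V (F 25345 (S L L)) L))) (U (T (S (S L L) (T (F 769 L) (F 768 L))) (S (V L L) (V L L))) (T (S (F 768 L) (F 769 L)) (S (S (F 16896 L) (F 16896 L)) (S (F 16896 L) (F 16896 L)))))) (V (T (F 8961 (S L (F 1024 L))) (S (T (F 8961 L) (F 8449 L)) (F 8961 (T (F 1 L) L)))) (U (T (S (T (F 8961 L) (F 769 L)) (F 8961 (S L L))) (S (T L L) (T (F 768 L) L))) (T (S (F 769 L) (F 8961 L)) (S (S (F 16640 L) (F 8960 L)) (F 8448 L))))))) v3_26))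
noncomputable def v3_28 : Tr := (S (V v3_20 (U (T (U (K 18) (S (K 18) (V (T (F 3915775 (V (S (K 0) (K 1)) (K 0))) (S (F 2101454 (V L (K 2))) (T (F 2101454 L) (F 4300 L)))) (F 4302 (T (K 3) (S (K 3) (V (S L L) (T L L)))))))) v3_21) v3_22)) (V (U (T (K 14) (U (S (V (K 15) (T (F 2109644 (S (U (K 6) (S L (K 6))) (K 6))) (S (V (F 2109644 (S L L)) (T (F 2101452 L) (F 4300 L))) (V (K 15) (S (F 4300 L) (F 12492 L)))))) (F 12524 (V (K 6) (T (K 7) (S (U (K 7) (V (K 6) L)) (K 7)))))) (S (V (F 3158268 (T (K 5) (S (S L (F 2048 L)) (K 4)))) (T (F 2109676 (S (T (F 2049 L) L) (S (F 2048 L) (F 2049 L)))) (S (T (F 12492 L) (F 4300 L)) (F 12492 (V (F 12289 L) L))))) (F 12540 (V (K 7) (T (K 7) (S (T (F 3 L) L) (S (F 1 L) (F 3 L))))))))) (F 4348 (T (F 8961 (S (V (K 4) (T (S (F 1024 L) (K 4)) (T L (S (F 1 L) (F 1025 L))))) (U (K 4) (T (K 4) (S (F 1025 L) (K 4)))))) (S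 (V (F 16643 (T (S (F 1 L) (F 17 L)) (S (S L L) L))) (U (T (S (F 257 L) (F 8449 L)) (S (S L L) (S L (F 257 L)))) (T (F 24833 (S L (F 8 L))) (S (S (F 24832 L) (F 24832 L)) (F 24832 L))))) (V (F 24835 (T (S (F 8 L) (K 4)) (S L (F 8 L)))) (T (S (F 8449 L) (F 8451 L)) (S (T (F 8449 L) (F 16640 L)) (S (F 257 L) (F 8449 L))))))))) v3_27))
noncomputable def v3_29 : Tr := (S (V (F 8961 (U (T (F 577 (S (T L L) (S L (K 4)))) (S (V (F 581 (S L L)) (S (F 1 L) (F 1 L))) (T (F 576 L) (S (F 513 L) (F 513 L))))) (T (F 577 (S (S L (F 32 L)) (S (F 32 L) (F 32 L)))) (S (S (F 1 L) (F 1 L)) (S (F 513 L) (F 513 L)))))) (U (T (F 4865 (S (T (K 7) (V (F 65 L) (F 64 L))) (V (S (F 65 L) (F 65 L)) (T (F 65 L) (F 1 L))))) (S (V (F 4865 (T (F 64 L) (S (F 64 L) (F 1 L)))) (T (F 4609 L) (S (F 4609 L) (F 4609 L)))) (F 4865 (V (T (F 1 L) (S (F 65 L) (F 65 L))) (T (S (F 1 L) (F 65 L))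 (S L L)))))) (F 13056 (T (S (V (F 544 L) (S (F 544 L) (F 544 L))) (V (F 544 L) (F 512 L))) (S (V (S (F 512 L) (F 512 L)) (T (F 512 L) L)) (V (S (F 544 L) (F 544 L)) (T (F 544 L) (F 512 L)))))))) (F 8961 (V (U (T (K 3) (V (K 3) (S (S (F 513 L) (F 513 L)) (F 512 L)))) (T (S (F 577 (S L L)) (F 513 L)) (S (S (F 513 L) (F 513 L)) (S (F 513 L) (F 513 L))))) (U (T (S (V (F 64 L) (S (F 1 L) (F 1 L))) (T (K 3) L)) (S (V (S L L) (T L (S L (F 1 L)))) (V (S L (F 512 L)) (T (F 1 L) (S (F 1 L) (F 1 L)))))) (T (S (T (F 65 L) (F 1 L)) (S (F 1 L) (F 1 L))) (S (V (S (F 65 L) (F 513 L)) (S (F 1 L) (F 1 L))) (T L (S (F 1 L) (F 1 L)))))))))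
noncomputable def v3_30 : Tr := (U (T (S (V (T (S (F 4609 L) (F 4609 L)) (S (S (F 12800 L) (F 12800 L)) (F 4608 L))) (T (S (F 4608 L) (F 4608 L)) (S (S (F 4608 L) (F 4608 L)) (S (F 4608 L) (F 4608 L))))) (V (T (S (F 13056 L) (F 8961 L)) (S (S (F 12800 L) (F 12800 L)) (F 8960 L))) (T (S (F 4608 L) (F 4608 L)) (S (S (F 4608 L) (F 4608 L)) (S (F 4608 L) (F 4608 L)))))) (S (V (T (S (S (F 4608 L) (F 4608 L)) (S (F 12288 L) (F 12288 L))) (S (S (F 4096 L) (F 4096 L)) (T (F 12288 L) (F 12288 L)))) (T (S (S (F 4608 L) (F 4608 L)) (S (F 4608 L) (F 4608 L))) (S (F 4096 L) (S (F 12288 L) (F 12288 L))))) (V (T (S (S (F 12288 L) (F 12288 L)) (S (F 12288 L) (F 12288 L))) (S (T (F 12288 L) (F 12288 L)) (S (F 12288 L) (F 12288 L)))) (T (S (S (F 4608 L) (F 12288 L)) (S (F 12288 L) (F 12288 L))) (S (S (F 12288 L) (F 12288 L)) (T (F 12288 L) (F 12288 L))))))) (T (S (V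 (T (F 13056 L) (F 12800 L)) (T (F 12800 L) (F 13056 (S L L)))) (V (F 13056 (T (F 512 L) L)) (T (F 12800 L) (F 13056 (S L L))))) (S (V (T (S (F 13824 L) (F 13056 L)) (F 13824 (S L L))) (T (F 14848 (S L L)) (F 12288 L))) (V (T (F 12288 L) (F 13056 (S L L))) (T (F 13056 (S L L)) (F 14848 (S L L)))))))
noncomputable def v3_31 : Tr := (V (U (T (F 8961 (S (V (S (F 516 L) (F 516 L)) (T (F 512 L) L)) (T (F 512 L) (S (F 512 L) (F 516 L))))) (S (T (F 8961 (V (F 512 L) (S L L))) (V (F 8449 L) (S (F 8448 L) (F 8449 L)))) (T (F 8963 (V (F 4 L) (S L L))) (V (F 8963 L) (S (F 8449 L) (F 8961 L)))))) (T (F 8961 (S (T (F 513 L) L) (S (F 512 L) (F 512 L)))) (S (T (F 8961 (S (F 1 L) (F 512 L))) (S (F 8449 L) (F 8961 L))) (F 8961 (T (S (F 516 L) (F 516 L)) (S L (F 512 L))))))) (U (T (S (V (T (F 13057 (S L L)) (S (F 8960 L) (F 8961 L))) (T (S (F 8960 L) (F 8960 L)) (S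 (S (F 12288 L) (F 12800 L)) (S (F 8960 L) (F 8960 L))))) (V (F 8961 (T L (S L (F 512 L)))) (T (F 8961 (S L L)) (S (S (F 8960 L) (F 8960 L)) (S (F 8960 L) (F 8961 L)))))) (S (V (T (S (F 8192 L) (F 8448 L)) (S (S (F 12288 L) (F 12288 L)) (S (F 8448 L) (F 8448 L)))) (T (S (S (F 12288 L) (F 12288 L)) (S (F 12288 L) (F 12288 L))) (S (T (F 12288 L) (F 12288 L)) (T (F 12288 L) (F 12288 L))))) (V (T (S (F 8448 L) (F 8960 L)) (S (S (F 8448 L) (F 8448 L)) (S (F 8960 L) (F 8960 L)))) (T (S (S (F 8448 L) (F 8448 L)) (S (F 8448 L) (F 8448 L))) (S (S (F 8192 L) (F 8192 L)) (S (F 8192 L) (F 8192 L))))))) (T (S (V (S (F 13056 L) (F 8961 L)) (F 13056 (T L (S (F 512 L) (F 512 L))))) (V (F 8961 (S L L)) (S (F 8960 L) (F 8960 L)))) (S (V (T (F 12544 L) (F 13056 (S L (F 2 L)))) (T (F 12288 L) (F 12288 L))) (V (S (F 8448 L) (F 8448 L)) (T (F 12544 L) (S (F 13056 L) (F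 14592 L))))))))
noncomputable def v3_32 : Tr := (U (T (F 6382 (S (V (F 8465 (U (K 7) (T (K 4) (S (U (K 7) (V (F 879 (S (K 0) (K 1))) (S (K 7) (F 2 L)))) (T (K 4) (V (K 4) (S (F 1 L) (K 4)))))))) (U (K 3) (T (K 3) (S (K 3) (V (T (F 12561 (S (K 6) L)) (S (F 257 L) (F 257 L))) (T (S (K 3) (F 257 L)) (S (T (F 2049 L) (F 2048 L)) (S (F 1 L) (F 1 L))))))))) (V (K 7) (U (F 16247 (T (K 0) (U (K 0) (S (V (K 0) (S (K 1) (K 0))) (K 0))))) (T (K 7) (S (V (U (K 7) (S (F 4353 L) (F 12545 L))) (T (S (F 2305 L) (F 4353 L)) (S (T (F 8449 L) (F 257 L)) (S (F 257 L) (F 257 L))))) (T (K 7) (V (K 7) (S (F 257 L) (S (F 4353 L) (F 12545 L))))))))))) v3_28) (F 4335 (T v3_29 (S (V (U (T (S (V (F 13059 (T L (S L L))) (T (F 13057 (S L (F 32 L))) (S (F 12800 L) (F 13056 L)))) (F 8961 (T (S L (F 512 L)) (V (F 512 L) (S (F 1 L) (F 1 L)))))) (S (V (T (F 12545 (S L (F 4 L))) (S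 (F 12544 L) (F 12544 L))) (T (S (F 12288 L) (F 12288 L)) (S (S (F 12288 L) (F 12288 L)) (S (F 12288 L) (F 12288 L))))) (V (T (F 8449 L) (S (F 12545 L) (F 9473 L))) (T (S (F 12544 L) (F 8449 L)) (S (S (F 12288 L) (F 12544 L)) (F 8192 L)))))) (T (F 13056 (S (V (F 512 L) (T (F 544 L) L)) (T (F 512 L) (S (F 512 L) (F 768 L))))) (S (V (S (F 12544 L) (F 13056 L)) (T (F 12800 L) (F 12288 L))) (V (F 12545 (S L (F 4 L))) (T (F 13056 L) (F 12544 L)))))) v3_30) v3_31))))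
noncomputable def v3_33 : Tr := (T (U (F 203 (S (K 7) (V (T (F 580 (S (K 1) L)) (S (F 516 L) (F 516 L))) (U (K 7) (T (S (K 7) (F 512 L)) (S L L)))))) (S (V (F 4234 (T (S (F 544 L) (F 576 L)) (S (F 64 L) (F 512 L)))) (F 202 (T (U (K 7) (S (S L (F 1024 L)) (S (F 1024 L) (F 1024 L)))) (S (U (K 7) (S (F 32 L) (F 1024 L))) (V (F 1024 L) (S (F 1056 L) (F 1056 L))))))) (F 195 (V (T (S (F 1028 L) (F 1540 L)) (S (F 1028 L) (F 1028 L))) (T (S (T (F 512 L) (F 512 L)) (S (F 512 L) (F 512 L))) (S (T (F 512 L) (F 512 L)) (T (F 512 L) (F 514 L)))))))) (U (F 715 (S (V (U (K 6) (T (S (K 6) (F 260 L)) (S (F 2 L) (F 2 L)))) (U (K 6) (T (K 6) (S (K 6) (V (F 2 L) (F 2 L)))))) (V (T (S (S (F 256 L) (F 260 L)) (S (F 260 L) (F 260 L))) (S (S (F 2 L) (F 2 L)) (S (F 2 L) (F 256 L)))) (U (T (S (K 6) (S (K 6) (F 2 L))) (S (T (K 6) (F 2 L)) (T (F 2 L) (F 2 L)))) (T (V L (S (F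 2 L) (F 2 L))) (S (T (F 2 L) (F 2 L)) (S (F 2 L) (F 2 L)))))))) (S (F 650 (V (T (T L (S (F 68 L) (F 1092 L))) (V (F 1030 (S L (F 8 L))) (F 1090 (S (S L (F 64 L)) L)))) (F 1090 (T (S (V (S L L) (T L L)) (V (S L L) (S L L))) (S (V (S L L) (T L L)) (V (S L L) (S L L))))))) (F 203 (V (T (S L (F 512 L)) (S (S (F 34 L) (F 34 L)) (S (F 34 L) (F 34 L)))) (T (S (V (F 32 L) (S (F 34 L) (F 34 L))) (T (F 2 L) (F 2 L))) (S (V (F 34 L) (S (F 34 L) (F 34 L))) (T (F 34 L) (F 34 L)))))))))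
noncomputable def v3_34 : Tr := (T (U (S (F 203 (V (T (S (F 580 L) (F 772 L)) (S (F 516 L) (F 516 L))) (T (U (S (F 768 L) (F 768 L)) (S (F 768 L) (F 768 L))) (S (S L L) (S (F 512 L) (F 512 L)))))) (F 197 (V (T (F 260 L) (S (F 1540 L) (F 1792 L))) (T (F 1792 (S L L)) (S (S (F 1536 L) (F 1536 L)) (F 1536 L)))))) (F 195 (S (V (F 1540 (T (S L L) (S L L))) (T (S (F 512 L) (F 1536 L)) (S (S (F 512 L) (F 1536 L)) (F 512 L)))) (T (V (F 1029 L) (F 1792 (S L (F 128 L)))) (V (F 1024 L) (S (F 1536 L) (F 1536 L))))))) (F 75 (U (S (V (T (S (F 1152 L) (F 1152 L)) (F 1186 (S (S L L) (S L L)))) (U (F 162 (T (S (S L (F 1 L)) L) (S (S L L) (S L (F 1 L))))) (T (S (F 130 L) (F 162 L)) (F 162 (S (S L L) L))))) (V (T (S (F 1152 L) (F 1152 L)) (S (F 1152 L) (S (F 1154 L) (F 1152 L)))) (U (T (F 1154 (S L L)) (F 1058 (S (S (F 4 L) (F 4 L)) L))) (T (F 1154 (S L L)) (S (F 162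 L) (F 1058 L)))))) (S (V (T (S (F 1152 L) (F 1156 L)) (S (F 130 L) (F 1154 L))) (T (S (S (F 130 L) (F 130 L)) (S (F 130 L) (F 130 L))) (S (S (F 34 L) (F 34 L)) (F 162 (S L L))))) (V (T (F 1156 (S L L)) (S (F 1026 L) (F 1026 L))) (T (S (S (F 130 L) (F 1154 L)) (F 130 L)) (S (F 2 L) (F 2 L))))))))
noncomputable def v3_35 : Tr := (U (S (F 12297 (V (F 1538 (T (S (F 24 L) (F 12 L)) (S (U (F 20 (T (F 8 L) L)) (F 16 L)) (S (F 4 L) (F 4 L))))) (U (T (S (F 1120 (V (F 72 L) L)) (F 1090 (T (F 9 L) L))) (S (V (F 1136 (S L L)) (T (F 112 L) (F 96 L))) (V (F 1090 L) (S (F 1088 L) (F 1088 L))))) (T (F 1090 (S (T (F 8 L) L) (S (F 8 L) (F 8 L)))) (V (S (F 1104 (S (F 8 L) (F 64 L))) (F 1090 L)) (S (F 64 L) (F 64 L))))))) (F 10313 (V (F 770 (T (S (F 4 L) L) (S (S L L) (S L L)))) (U (T (S (F 514 L) (F 770 L)) (S (T (F 514 L) (S (F 514 L) (F 514 L))) (T (F 770 L) (F 512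 L)))) (T (S (F 514 L) (F 770 L)) (S (T (F 514 L) (F 2 L)) (S (F 514 L) (F 770 L)))))))) (F 14337 (S (V (T (F 1808 (S (F 8 L) L)) (S (F 1280 L) (F 1792 L))) (T (S (T (F 1280 L) (F 1280 L)) (S (F 1280 L) (F 1312 L))) (V (S (S (F 1280 L) (F 1312 L)) (F 1280 L)) (S (S (F 288 L) (F 288 L)) (S (F 288 L) (F 288 L)))))) (V (T (F 1536 L) (F 1792 (S L (F 4 L)))) (T (F 1312 (S (S L L) L)) (S (T (F 1312 L) (F 288 L)) (F 1312 (S L L))))))))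
noncomputable def v3_36 : Tr := (S (V (F 8229 (U (T (S (K 7) (S (F 68 L) (F 68 L))) (V (S (F 68 L) (F 70 L)) (S (S (F 64 L) (F 64 L)) (S (F 68 L) (F 68 L))))) (T (V (F 68 L) (S (F 68 L) (F 70 L))) (S (V (F 70 L) (S (F 66 L) (F 68 L))) (T (F 68 L) (F 4 L)))))) (U (T (F 9317 (S (K 5) (V (S (K 5) L) (S (K 5) L)))) (S (F 8292 (T (K 6) (V (F 512 L) L))) (V (F 8292 (S L (F 512 L))) (S (F 100 L) (F 8292 L))))) (F 8292 (T (S (V (S (F 516 L) (F 516 L)) (S (F 512 L) (F 512 L))) (V (F 516 L) (S (F 516 L) (F 516 L)))) (S (V (S (F 512 L) (F 512 L)) (S L L)) (V L (S L L))))))) (V (F 9253 (U (T (S (S (F 34 L) (F 34 L)) (F 32 L)) (S (T (F 32 L) L) (S L (F 32 L)))) (T (S (F 32 L) (F 32 L)) (S (S L (F 2 L)) L)))) (U (T (F 9317 (V (S L L) (S (S L L) (S L L)))) (S (V (F 8229 (S (F 64 L) (F 4 L))) (F 8292 (S L L))) (V (F 9317 (S L L)) (F 8228 L)))) (T (F 9253 (S (V (F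 32 L) (S (F 32 L) (F 32 L))) (S L L))) (V (F 9253 (S (S (F 32 L) (F 32 L)) L)) (S (F 8228 L) (F 9252 L)))))))
noncomputable def v3_37 : Tr := (S (V (U (T (V (F 10276 (S (S (F 32 L) (F 32 L)) (S (F 512 L) (F 544 L)))) (F 8292 (S (S L L) (S L L)))) (S (F 8292 (V (T (F 2 L) (F 2 L)) (T L (F 2 L)))) (F 10276 (V (T (F 32 L) L) (T L L))))) (T (V (F 10277 (S (S (F 32 L) (F 32 L)) (S (F 2 L) (F 34 L)))) (S (F 10340 (S L L)) (F 8228 L))) (F 10276 (V (S (S (F 32 L) L) (S L (F 2 L))) (S (S (F 32 L) L) (S L L)))))) (U (T (F 8292 (V (S (T L L) (T L L)) (S (S L L) (T L L)))) (S (F 8292 (V (S (F 2 L) L) (F 8 L))) (V (S (F 10276 L) (F 8228 L)) (F 8228 L)))) (T (F 8292 (S (V (S L L) (S (F 2 L) L)) (V (S L L) (S L L)))) (S (F 10336 (V (S (F 128 L) (F 128 L)) (F 1 L))) (V (F 10276 (S (F 32 L) L)) (F 12324 L)))))) (V (U (T (S (V (F 9253 L) (S (F 8229 L) (F 9252 L)))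 (F 9253 (V L (S L L)))) (S (V (F 10276 (S L L)) (S (F 8228 L) (F 8228 L))) (V (F 10276 (S L (F 2 L))) (S (F 8228 L) (F 8228 L))))) (T (F 9252 (S (T (F 512 L) L) (T (F 514 L) (F 512 L)))) (F 10276 (S (V (S (F 2 L) (F 2 L)) (S L (F 2 L))) (V (F 2 L) (S (F 2 L) (F 2 L))))))) (U (T (S (V (S (F 8228 L) (F 8228 L)) (S (F 8228 L) (F 8228 L))) (V (S (F 8228 L) (F 9252 L)) (S (F 8228 L) (F 8228 L)))) (S (V (S (F 8228 L) (F 8228 L)) (S (F 10276 L) (F 12324 L))) (V (S (F 8228 L) (F 8228 L)) (S (F 8228 L) (F 8228 L))))) (T (S (V (F 8228 L) (S (F 8292 L) (F 12324 L))) (V (F 9252 L) (F 8228 L))) (S (V (F 10276 (S L (F 1 L))) (F 8228 L)) (T (F 8228 L) (F 8228 L)))))))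
noncomputable def v3_38 : Tr := (T (U v3_36 (S (V (T (F 9285 (V (S (F 2 L) (F 2 L)) (S (S (F 32 L) (F 32 L)) (S (F 34 L) (F 34 L))))) (S (F 9284 (V (S (F 514 L) (F 546 L)) (T (F 544 L) (F 34 L)))) (F 9253 (V (F 2 L) (S (F 32 L) (F 2 L)))))) (T (F 9316 (S (V (T (F 256 L) (F 256 L)) (T (S (F 256 L) (F 256 L)) L)) (V (S (F 256 L) (F 256 L)) (T (F 256 L) (F 256 L))))) (S (V (F 9316 (T L L)) (S (F 8288 L) (F 8292 L))) (F 9252 (V (S (F 32 L) (F 512 L)) (S L L)))))) (F 9252 (V (T (S (T (F 544 L) (F 544 L)) (F 512 L)) (S (T (F 514 L) (F 512 L)) (T (F 514 L) (F 514 L)))) (T (S (V (S (F 544 L) (F 546 L)) (F 512 L)) (T (F 512 L) (F 512 L))) (S (V L (S (F 32 L) (F 1 L))) (S L L))))))) (U v3_37 (S (V (F 10276 (T (S (V (S (F 2 L) (F 2 L)) (T (F 32 L) (F 32 L))) (V (S (F 514 L) (F 514 L)) (S (F 2 L) (F 2 L)))) (S (V (S L L) (S L L)) (V (S (F 2 L) (F 2 L)) (S L (F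 2 L)))))) (T (T (S (S (F 8288 L) (F 8228 L)) (S (F 8228 L) (F 9252 L))) (S (V (F 10276 L) (F 14432 L)) (S (F 10276 L) (F 12324 L)))) (F 14368 (S (V (S (F 16 L) L) L) (V (S (F 128 L) (F 128 L)) (S (F 128 L) (F 128 L))))))) (V (F 11300 (T (S (V (S (F 256 L) (F 256 L)) (S (F 256 L) (F 256 L))) (T (F 256 L) L)) (S (V (S L (F 1 L)) (S L (F 1 L))) (V L L)))) (T (F 9252 (S (V (S (F 2 L) (F 2 L)) (S (F 1 L) (F 1 L))) (T L L))) (F 14372 (S (V (S L (F 1 L)) (S L (F 1 L))) (T (S (F 1 L) (F 1 L)) (S (F 1 L) (F 1 L))))))))))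
noncomputable def v3_39 : Tr := (T (U (S (F 18723 (V (T (S (F 48 L) (F 32 L)) (S (F 34 L) (F 2 L))) (T (S (F 288 L) (S (F 290 L) (F 288 L))) (S (F 290 (S L L)) (S (F 290 L) (F 258 L)))))) (V (F 18466 (T (S (F 1104 L) (F 65 L)) (S (F 18 L) (F 16 L)))) (T (F 18530 (S (S (F 784 L) (F 528 L)) L)) (F 20771 (S (S (F 258 L) (F 258 L)) (V (F 2 L) (F 256 L))))))) (S (F 18435 (V (T (F 192 L) (F 18 L)) (F 146 (T (S (F 8 L) (F 8 L)) (S (F 1 L) (F 1 L)))))) (F 18466 (V (T (F 65 L) (F 2 L)) (T (S (F 1090 L) (F 1027 L)) (F 1042 (S (F 1 L) L))))))) (F 6432 (U (S (V (F 1537 (T (S L L) (S (S (F 1 L) (F 1 L)) (S (F 1 L) (F 1 L))))) (F 1281 (U (T (S (F 1 L) (F 1 L)) (S (T (F 1 L) (F 1 L)) (S (F 1 L) (F 1 L)))) (T (S (F 1 L) (F 1 L)) (S L (F 1 L)))))) (V (T (S (F 1537 (S (F 1 L) L)) (S (F 1537 L) (F 513 L))) (F 1792 (S (S (F 128 L) (F 128 L)) (S L L)))) (F 1792 (U (T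 (S (F 128 L) (F 128 L)) (S L L)) (T (S (F 128 L) (F 128 L)) (S (F 128 L) (F 128 L))))))) (F 1537 (S (T (V (S (F 1 L) (F 128 L)) (S (F 1 L) (F 1 L))) (V (S (F 1 L) (F 1 L)) (S (S (F 1 L) (F 1 L)) (S (F 1 L) (F 129 L))))) (V (T (S (F 128 L) (F 128 L)) (F 129 (S L L))) (T (S (F 1 L) (F 1 L)) (S (F 1 L) (F 129 L)))))))))
noncomputable def v3_40 : Tr := (S (V (U (T (F 4865 (S (T L (S (F 2 L) (F 2 L))) (S L L))) (S (T (S (F 5888 L) (F 4865 L)) (S (F 5376 L) (F 5888 L))) (T (F 4864 L) (F 4352 L)))) (T (F 4865 (S (S (F 2 L) (F 2 L)) L)) (S (T (F 5888 L) (F 5376 L)) (F 5888 (S L L))))) (U (T (S (V (S (F 4864 L) (F 4865 L)) (S (F 4864 L) (F 4864 L))) (V (F 4864 L) (S (F 4864 L) (F 4864 L)))) (S (V (S (F 4608 L) (F 4864 L)) (S (F 4608 L) (F 6656 L))) (T (S (F 4864 L) (F 4864 L)) (S (F 4608 L) (F 4864 L))))) (T (S (T (F 4864 L) (F 4864 L)) (S (F 4864 L) (F 4864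 L))) (S (T (F 4608 L) (F 4608 L)) (T (F 4864 L) (F 4864 L)))))) (V (U (T (F 771 (S (S (F 1 L) (F 1 L)) (S (F 1 L) (F 4 L)))) (S (T (F 4865 L) (F 4864 L)) (S (F 769 L) (F 771 L)))) (F 4865 (T (S L (F 256 L)) (S (S (F 2 L) (F 2 L)) (S (F 2 L) (F 258 L)))))) (U (T (S (T (F 4864 L) (F 4865 (S L L))) (T (F 4865 L) (F 4864 L))) (S (T (S (F 4864 L) (F 6912 L)) (S (F 4864 L) (F 6400 L))) (V (F 5888 (S L L)) (F 6912 (S L L))))) (T (F 4865 (S (S L L) (S L L))) (S (S (F 4864 L) (F 4864 L)) (F 6912 (S L L)))))))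
noncomputable def v3_41 : Tr := (T (F 4865 (U (S (V (U (T (S (F 288 L) (F 288 L)) (S L L)) (T (S (F 288 L) (F 288 L)) (S L (F 256 L)))) (U (T (S (S L L) (S L (F 32 L))) (S (V L (S L L)) (V L (S L (F 32 L))))) (T (S (S (F 32 L) (F 32 L)) L) (S (T L L) (S L L))))) (V (T (S (S (F 256 L) (F 256 L)) (S (F 256 L) (F 256 L))) (S (T (F 256 L) (F 256 L)) (T (F 256 L) (F 256 L)))) (U (T (S (S (F 32 L) (F 32 L)) (S (F 256 L) (F 256 L))) (S (T L L) (S L L))) (T (S L L) (S (S L (F 1 L)) L))))) (S (V (T (S L L) (S L L)) (T (S (S L L) (S L (F 1 L))) (S (S L L) (S L (F 1 L))))) (V (T (S (F 256 L) (F 256 L)) (S (F 2 L) (F 256 L))) (T (S (S (F 1 L) (F 1 L)) L) (S (S (F 1 L) (F 1 L)) L)))))) (U v3_40 (S (V (F 5888 (T (S (S (F 256 L) (F 256 L)) (S (F 256 L) (F 257 L))) (S (S L L) (S (F 1 L) (F 1 L))))) (T (S (S (F 4864 L) (F 6912 L)) (F 6912 (S L (F 1 L)))) (F 6912 (S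 (T L (S (F 1 L) (F 1 L))) (T (F 1 L) (F 1 L)))))) (V (F 5888 (T (S (F 256 L) (F 256 L)) (S L (S (F 257 L) (F 257 L))))) (F 6912 (T (S (S (F 1 L) (F 256 L)) L) (S (S (F 1 L) (F 1 L)) (S (F 1 L) (F 1 L)))))))))
noncomputable def v3_42 : Tr := (T (F 557155 (S (V (F 4230 (T (U (S (V (F 48 L) (S (K 7) (F 96 L))) (V (F 96 L) (F 1120 (T L L)))) (S (T (F 32 L) (S (F 48 L) (F 96 L))) (T (F 32 L) (S (F 1056 L) (F 1056 L))))) (U (S (F 112 (V L (T (F 2 L) (F 3 (S (F 2 L) L))))) (V (F 1120 (S (F 8 L) L)) (T (F 1120 L) (F 1616 (S (F 4 L) L))))) (S (V (F 50 L) (S (F 48 L) (F 16 L))) (V (F 32 L) (S (F 1024 L) (F 1024 L))))))) v3_33) (V (F 4229 (T (U (S (V (F 97 L) (T (F 1376 L) (F 1088 L))) (V (F 353 L) (S (F 64 L) (F 320 L)))) (S (V (F 1057 L) (S (F 1088 L) (F 1088 L))) (T (F 321 L) (F 1089 (S L (F 2 L)))))) (U (S (V (S (F 1088 L) (F 64 L)) (T (F 1600 (S (F 4 L)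 L)) (F 1104 (S (F 1 L) L)))) (V (S (F 64 L) (F 64 L)) (T (F 64 L) (S (F 1088 L) (F 1088 L))))) (S (V (F 1089 (S L L)) (T (F 1088 L) (F 1090 (S (F 16 L) L)))) (V (S (F 65 L) (F 321 L)) (T (F 65 L) (F 64 L))))))) v3_34))) (S (V (F 295443 (T (U (F 6274 (S (V (F 530 (S (F 2 L) (F 1 L))) (F 290 (T (S (F 18 L) (F 3 L)) (T (S (F 17 L) (F 3 L)) (S (F 1 L) (F 1 L)))))) (F 1568 (V (T (F 8 L) (F 65 (S (F 8 L) L))) (F 65 (T (S L L) (S (S L L) (S L L)))))))) (F 14338 (S (V (F 536 (S (F 2 L) (F 1 L))) (F 1296 (T (S L (F 1 L)) (S (S L L) L)))) (V (F 1552 (T L L)) (T (F 1552 (S (F 1 L) (F 8 L))) (F 1312 (S L (F 1 L)))))))) v3_35)) (F 1376810 v3_38)) (V (F 1605729 v3_39) (F 1413641 v3_41))))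
noncomputable def treeV3 : Tr := (F 0xfffffffffffffffffffffffffffffffffffffffffffffffffffffffffffffffffffffffffffffffffffffffffffffffffffffffffffff6fffffffffffffffffffff7dfffffffe77fffffffffffffffffd7fffffffffffffffffffffffffffffffffffffffffffffffffffffffffffffffffffffffffffffffbfeffe3e7ffffff9bffffffffffffffffffffffffffffffffffffffffffffffffffffffffffffffffffffffffffffdfffffffff73ff9ffffe3fbfffff9e3fffbf33fffffffffdfffffffffffffffffffffffffffffffffffffffffffffffffffffffffffffffffffffff7ffffdfd (T (F 2484911653887 v3_4) (S (F 1806093241247 (V (F 1644044 v3_5) v3_10)) (V (F 4217721236463 v3_13) (F 3317925758992 (U (T (F 1071875653 v3_14) (S (F 742462059 v3_18) (V (F 784437855 v3_19) (F 529003 v3_32)))) (F 1036058626 v3_42)))))))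

theorem pV3 : chkV par treeV3 192 64 128 128 384 128 163840 327680 Lc = true := by decide +kernel


end Pool.Agent.Lib.H56.Gen.D8
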