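import Pool.Agent.Lib.H56.Gen.D8.Par
import Pool.Agent.Lib.H56.Gen.D8.Cos

/-!
# Certificate tree V, part 1
-/

set_option maxRecDepth 100000

namespace Pool.Agent.Lib.H56.Gen.D8

open Tr

noncomputable def v4_0 : Tr := (V (F 537 (T (F 81 (S (V (U (V (F 4 L) (F 78 L)) (F 78 L)) (F 78 (U L (F 4 L)))) (V (U (T (F 76 (U (K 0) (V L (F 4 L)))) (U (F 66 (V (K 0) L)) (V (F 4 L) (F 70 L)))) (F 6 (T (F 8 L) L))) (F 66 (U (T (F 12 (V L L)) L) (F 12 L)))))) (S (F 274 (V (U (T (F 68 (S (F 8 L) L)) (U (S (F 68 L) (F 20 L)) (F 71 L))) (F 71 L)) (F 66 (U (T (F 8 L) L) (F 24 L))))) (V (U (T (U (V (U (K 2) (F 65 L)) (F 339 L)) (F 321 (V L (F 73 L)))) (F 322 (U (S (F 8 L) (T L (F 17 L))) (S (F 73 L) (F 1 L))))) (F 321 (T (F 10 L) (F 65 L)))) (F 338 (U (T (F 32 L) (V L (F 2 L))) (F 34 L))))))) (T (F 12572 (S (F 40 (V (F 13 (U L (F 4 L))) (U (V (F 13 L) L)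 (F 13 L)))) (V (F 156 (U (U (V (F 2 L) (S (F 2 L) L)) (F 2 L)) (F 2 L))) (U (T (F 60 (U (K 2) (V (F 1 L) L))) (U (F 180 (S (K 2) (V (U (K 2) L) (K 2)))) (V (F 180 L) (S (F 172 L) (F 32 L))))) (F 184 (V (F 2 L) L)))))) (S (F 13092 (V (F 144 (U (T (F 2 L) L) (F 3 L))) (U (T (F 52 (V (F 1 L) L)) (V (F 144 L) (S (F 160 L) (F 128 L)))) (F 180 L)))) (V (F 4885 (U (T (S (F 97 L) (F 80 (T (F 32 L) (S (F 34 L) (F 2 L))))) (F 33 (U (S L (V (F 6 L) (T (F 6 L) (F 2 L)))) (F 6 (S L L))))) (F 97 L))) (F 12580 (U (T (U (S (V (F 356 L) (F 68 L)) (V (F 356 (V (S (F 2 L) L) (T L L))) (U (K 1) (S (F 356 L) (F 64 L))))) (V (F 356 L) (S (F 364 L) (F 320 L)))) (U (S (V (F 356 L) (F 261 L)) (V (T (F 260 L) (F 260 L)) (T (F 260 L) (F 389 L)))) (V (F 292 L) (F 256 L)))) (F 356 (T (S (F 1 L) L) (S (F 17 L) (F 1 L))))))))))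
noncomputable def v4_1 : Tr := (V (T (F 45073 (U (S (K 5) (V (U (K 5) (T (S (K 5) (F 2688 L)) (S (F 640 L) (F 640 L)))) (U (K 5) (T (F 194 L) (F 66 L))))) (S (V (S (S (F 2688 L) (F 2688 L)) (V (S (F 2696 L) (F 2688 L)) (F 2688 L))) (S (F 6784 L) (F 130 L))) (V (T (S (F 2176 L) (F 2176 L)) (S (S (F 2688 L) (F 2560 L)) (F 512 L))) (V L (F 66 L)))))) (U (S (F 41200 (V (T (K 6) (V (S (K 6) (F 8 L)) (F 1024 L))) (F 3202 (U (K 2) (T L L))))) (V (T (F 45104 (U (K 5) (S (F 128 L) (F 64 L)))) (V (S (F 45232 L) (F 45344 L)) (F 110896 (S L L)))) (F 106769 (T (S (F 4 L) (F 4 L)) (S (F 2432 (S L L)) (F 2308 (T L L))))))) (S (F 41009 (V (T (S (F 6912 L) (F 2304 L)) (S (F 6912 L) (F 6144 L))) (F 4482 (T L (F 4 L))))) (V (F 41009 (T (S (F 8 L) (F 8 L)) (S (F 4096 L) (F 8 L)))) (F 110867 (T (S (F 128 L) L) (S (F 192 L) (F 128 L)))))))) (F 106771 (T (V (S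 (T (F 76 L) (F 196 L)) (U (S (F 76 L) (F 12 L)) (F 268 (S (F 8 L) L)))) (F 140 (S (F 14 L) L))) (U (V (S (F 960 L) (S (F 388 L) (F 132 L))) (F 652 L)) (S (F 960 L) (T (F 132 L) (F 896 L)))))))
noncomputable def v4_2 : Tr := (T (F 47249 (U (S (F 832 (V (T (K 3) (U (K 3) (V (K 3) (F 2 L)))) (F 69 (U (K 3) (T L (F 16 L)))))) (V (T (U (F 550 (S (K 4) (V (K 4) (S (K 4) L)))) (S (F 772 (V (F 2 L) (F 8 L))) (V (F 900 (S L L)) (F 518 L)))) (U (S (K 4) (U (K 4) (S (K 4) (V (S (K 4) (F 516 L)) (F 546 L))))) (S (V (S (F 896 L) (F 640 L)) (F 512 L)) (V (S (F 512 L) (T (F 644 L) (F 512 L))) (V (F 512 L) (F 34 L)))))) (T (F 546 (V (S (S (F 2 L) (F 2 L)) (S L L)) (S (F 11 L) (F 2 L)))) (V (S (S (F 290 L) (F 34 L)) (U (F 34 L) (F 546 L))) (F 1058 (S (F 11 L) L)))))) (S (F 1984 (V (U (V (F 8 L) (F 8 L)) (F 8 L)) (V (F 16 L) (F 25 L)))) (V (U (S (F 900 (V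 (S (F 1 L) L) (S (F 1 L) L))) (T (F 772 (S L L)) (V (F 644 (S L L)) (F 514 L)))) (F 900 (S (S (F 1 L) L) (V L L)))) (U (F 546 (V (S (F 3 L) L) (F 3 (S (F 48 L) L)))) (F 1794 (V L (F 5 L)))))))) (U (S (F 41207 (V (T (U (K 6) (U (K 6) (V (F 264 L) (F 408 L)))) (U (K 6) (V (S (F 386 L) L) (F 386 L)))) (F 402 (V (U (K 0) L) (F 4 L))))) v4_1) (S (F 41215 (V (U (V (T (F 8 L) (F 8 L)) (F 16 L)) (S (F 18 L) L)) (F 146 (T (F 4 L) L)))) (V (F 41009 (T (S (U (V (F 2312 L) (F 6408 L)) (F 6408 (S (F 1 L) L))) (V (U (S (F 2312 L) (F 2056 L)) (F 6408 L)) (U (S (F 6154 L) (F 2058 L)) (F 6410 L)))) (S (U (V (S (F 7936 L) (F 6400 L)) (F 6914 L)) (F 7170 L)) (V (U (T (S (F 6408 L) (F 6152 L)) (S (F 6154 L) (F 6152 L))) (F 6152 L)) (U (S (F 6154 L) (F 4106 L)) (F 6154 L)))))) (F 106771 (T (V (S (F 1856 L) (S (F 1284 L) (F 260 L))) (F 524 L)) (F 896 (U (S (F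 19 L) (S (F 33 L) L)) (F 1 L)))))))))
noncomputable def v4_3 : Tr := (S (V (T (F 2188 (U (S (V (S (F 16 L) (F 16 L)) (S (F 144 L) (F 144 L))) (V (S (S (F 144 L) (F 144 L)) (F 144 L)) (S (F 144 L) (F 144 L)))) (S (V L (S (F 146 L) (F 144 L))) (V (S (F 144 L) (F 144 L)) (S (F 144 L) (F 144 L)))))) (U (S (V (F 2188 (U (S (K 5) (T (F 208 L) (F 144 L))) (S (S (F 16 L) (F 16 L)) L))) (F 202 (T (S (F 130 L) (F 130 L)) (S L L)))) (V (F 78 (T (S (F 34 L) (F 290 L)) (T (F 32 L) L))) (T (F 206 L) (F 74 L)))) (S (V (F 2188 (U (S L L) (S (F 4 L) (F 128 L)))) (T (F 202 L) (F 74 L))) (V (F 2062 (U (S (F 16 L) (F 32 L)) L)) (F 78 (S L L)))))) (T (F 202 (V (S (S L L) (T (F 128 L) L)) (S (F 128 L) L))) (U (V (S (F 202 (S L L)) (F 74 L)) (F 4298 (S L L))) (V (S (F 202 L) (F 78 L)) (F 74 L))))) (V (T (F 2118 (U (V (F 336 (S (T L L) (S L L))) (S (S (F 144 L)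 (F 400 L)) (F 400 (S L L)))) (S (V (T (F 272 L) (F 272 L)) (S (F 144 L) (F 144 L))) (V (S (F 272 L) (F 272 L)) (S (F 384 L) (F 384 L)))))) (F 78 (U (V (S (T (F 290 (S L (F 1 L))) (S (F 384 L) (F 386 L))) (F 386 (T L L))) (S (S L (F 256 L)) (S (F 384 L) (F 384 L)))) (S (V (T (F 258 L) (S (F 258 L) (F 266 L))) (S L (F 256 L))) (V (S (F 258 L) (F 258 L)) (F 256 L)))))) (T (F 78 (V (U (S (F 32 L) (F 288 L)) (S (F 32 L) (F 258 L))) (S L L))) (U (V (F 78 (S L (F 256 L))) (F 4171 (S L (F 128 L)))) (V (F 78 (S L (F 264 L))) (F 74 L))))))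
noncomputable def v4_4 : Tr := (T (U (S (V (T (F 45328 (S (F 64 L) (F 10 L))) (V (F 110592 L) (F 110865 (S L (F 128 L))))) (F 110865 (T (S (F 4 L) (F 4 L)) (S L L)))) (F 110848 (V (T (F 263 (U L (S (F 1 L) (F 257 L)))) (S (F 256 L) (F 4105 L))) (T (F 4357 (S L L)) (S (F 4356 L) (F 4357 L)))))) (F 45073 (S (V (T (S (F 2560 L) (F 2050 L)) (S (F 512 L) (F 514 L))) (T (F 586 (S L L)) (S (F 578 L) (F 578 L)))) (V (T (S (F 14 L) (F 15 L)) (S (F 578 L) (F 579 L))) (T (F 74 L) (F 66 L)))))) (U (F 110848 (S (V (T (S (T (F 128 L) (F 128 L)) (S (F 128 L) (F 128 L))) (S (V (F 128 L) (F 128 L)) (S (F 128 L) (F 128 L)))) (T (S (S (F 4480 L) (F 4480 L)) (F 4352 L)) (V (S (F 4480 L) (F 4480 L)) (F 6592 (S L L))))) (V (T (S (F 128 L) (F 129 L)) (S (S (F 128 L) (F 129 L)) (S (F 137 L) (F 137 L)))) (T (S (F 4352 L) (F 4480 L)) (V (F 4224 L) (F 6528 L))))))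 (F 110625 (S (V (T (S (S (F 256 L) (F 256 L)) L) (S L L)) (T (S (F 288 L) (F 2336 L)) (F 2336 (S L L)))) (V (T (S (F 32 L) (F 33 L)) (V (F 1 L) (F 289 (S L (F 1 L))))) (F 2336 (T (S L (F 256 L)) (S L (F 256 L)))))))))
noncomputable def v4_5 : Tr := (S (V v4_4 (F 110865 (T (U (S (V (S (F 1028 L) (F 4 L)) (F 1092 L)) (V (S (F 4 L) (F 1028 L)) (F 1156 L))) (V (S (S (F 1028 L) (F 1028 L)) (S (F 1028 L) (F 1156 L))) (F 1156 (S (F 4 L) L)))) (U (S (V (S (F 1024 L) (F 1024 L)) (F 1220 L)) (V (S (F 1024 L) (F 1024 L)) (F 1092 L))) (S (V (S (F 1152 L) (F 1152 L)) (F 1220 L)) (T (F 1156 (S L L)) (S (F 1152 L) (F 1152 L)))))))) (V (T (F 78081 (U (S (V (F 27 (T (S (F 264 L) (F 280 L)) (S L (F 272 L)))) (F 523 (T (F 256 L) L))) (F 525 (V (F 392 (T L L)) (S (F 256 L) (F 136 L))))) (S (V (F 519 (T (F 256 L) (S (F 8 L) (F 264 L)))) (S (F 522 L) (F 523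 L))) (F 783 (V (T (F 64 L) (F 64 L)) (S L (F 64 L))))))) (F 241920 (U (S (V (T (F 2116 (S L (F 256 L))) (S (F 68 L) (F 2116 L))) (T (F 2176 L) (F 3136 (S L (F 64 L))))) (F 2116 (T (V (F 384 L) (F 136 L)) (V (F 256 L) (F 128 L))))) (S (V (T (F 2112 L) (F 2112 L)) (F 2240 (T L (S (F 1 L) (F 65 L))))) (V (F 2116 (S L (F 256 L))) (F 3266 (T (F 32 L) L))))))) (F 78097 (T (U (V (S (F 2058 (S L (F 256 L))) (F 11 L)) (F 2059 (S L (F 4 L)))) (S (F 2058 (T L L)) (F 2057 (S L (F 4 L))))) (F 2306 (U (S (V (T (F 320 L) (F 256 L)) (F 64 L)) (V (F 352 (T L L)) (S (F 320 L) (F 352 L)))) (S (V (S (F 64 L) (F 256 L)) (F 64 L)) (V (S (F 320 L) (F 320 L)) (F 320 L)))))))))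
noncomputable def v4_6 : Tr := (S (V (T (S (U (V (T (F 2560 L) (F 2560 L)) (S (F 2562 L) (F 578 L))) (V (F 2562 L) (F 6658 L))) (U (V (T (F 2574 (S L (F 128 L))) (F 515 L)) (S (F 578 L) (F 586 L))) (V (F 2566 L) (F 6658 L)))) (S (U (V (T (S (F 2562 L) (F 2562 L)) (F 6658 (S L L))) (T (F 4610 L) (F 6722 (S L L)))) (F 6658 (V (S L L) (S (F 8 L) (F 8 L))))) (V (U (T (F 2563 (S L (F 16 L))) (F 4611 (S L (F 16 L)))) (F 6659 (S L L))) (F 4674 (U (T L L) L))))) (T (F 4170 (U (S (S L L) (S L L)) (S (F 4 L) (S (F 5 L) (F 5 L))))) (F 4674 (S (U (S L L) L) (U (T L L) (S (F 1 L) (F 256 L))))))) (V (T (U (S (V (F 519 (T (F 258 L) (F 32 L))) (F 587 (S L (F 128 L)))) (F 591 (T L L))) (F 2567 (S (T (F 128 L) (F 16 L)) (F 144 (S L (F 32 L)))))) (S (U (V (S (F 515 L) (F 579 L)) (F 4675 (T (F 64 L) L))) (F 4611 (V (F 1 L) (F 16 L)))) (F 579 (T (V (F 256 L)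 (F 129 L)) (V (F 1 L) (F 1 L)))))) (F 4674 (T (S (U (S (F 64 L) (F 64 L)) (F 64 L)) (V (S (F 320 L) (F 448 L)) (F 320 L))) (S (V (U L (F 320 L)) (S (F 64 L) (F 256 L))) (U (T (F 320 L) (F 256 L)) (F 256 L)))))))
noncomputable def v4_7 : Tr := (U (T (F 38929 (U v4_3 (S (V (T (F 2188 (U (S (V (F 6 L) (F 130 L)) (V (F 128 L) (F 144 L))) (S (F 134 (S L L)) (S (F 134 L) (F 132 L))))) (S (V (U (T (F 2700 L) (F 2060 L)) (F 2700 L)) (U (F 2058 L) (F 2574 L))) (F 2062 (U (V (S L (F 4 L)) (S (F 32 L) (F 32 L))) (V (F 4 L) (F 4 L)))))) (V (T (F 2254 (S (S (F 2 L) L) (S L L))) (S (F 74 L) (F 74 L))) (T (F 74 L) (F 4170 (S (F 1 L) (F 4 L)))))) (V (T (F 2062 (U (S (V (S (F 272 L) (F 272 L)) (F 32 L)) (V (F 288 L) (F 288 L))) (S (F 256 L) (S (F 288 L) (F 288 L))))) (U (V (F 2063 (S (S L (F 4 L)) (S (F 4 L) (F 36 L)))) (F 78 (S L (F 258 L)))) (F 2063 (S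 (V (F 4 L) (F 32 L)) (F 36 (T L L)))))) (T (F 78 (U (S L L) (S (F 3 L) (F 258 L)))) (S (T (F 78 L) (F 4170 L)) (F 79 (T L (F 1 L))))))))) (U v4_5 (F 45073 v4_6))) (F 110613 (T (S (F 518 (U (V (U (S (F 10 L) (S (F 10 L) (F 130 L))) (F 11 L)) (F 17 (T L (S (F 32 L) (F 32 L))))) (F 155 (S L L)))) (F 7 (U (V (U (S (S (F 6 L) (F 4 L)) (S (F 4 L) (F 4 L))) (F 7 (S (F 8 L) (F 4 L)))) (F 33 (U (T L (S (F 16 L) (F 48 L))) (F 16 L)))) (F 39 (S L L))))) (S (V (U (T (F 1282 (U (S L (F 128 L)) (F 128 L))) (U (S (F 1280 L) (F 1283 (S L L))) (F 1281 L))) (F 1799 (S L L))) (F 1312 (U (S (T (F 1 L) (F 1 L)) (T (F 32 L) L)) (F 161 L)))) (F 1281 (V (U (T (F 192 (S (S L L) (S (F 4 L) (F 4 L)))) (S (S (F 128 L) (F 136 L)) (F 136 (S L (F 1 L))))) (F 192 L)) (U (T (F 72 (S L (F 1 L))) (S (F 72 (S L L)) (F 8 L))) (F 201 (S L L)))))))))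
noncomputable def v4_8 : Tr := (T (U (S (V (T (S (F 290 L) (F 34 L)) (S (F 290 L) (F 2 L))) (S (F 354 L) (F 258 L))) (V (T (S (F 2 L) (F 2 L)) (S (S (F 2 L) (F 3 L)) L)) (T (S (F 259 L) (F 3 L)) (S (F 386 L) (F 130 L))))) (S (V (S (S (F 770 L) (F 258 L)) (S (F 2 L) (F 2 L))) (F 258 L)) (V (T (S (F 262 L) (F 7 L)) (S (F 130 L) (F 131 L))) (T (F 258 L) (F 130 L))))) (U (S (V (T (S (F 322 L) (F 2 L)) (F 194 (S (S (F 2 L) (F 2 L)) (U L (F 2 L))))) (F 450 (T L (S (F 1 L) L)))) (V (T (S (S (F 130 L) (F 2 L)) (S (F 2 L) (F 2 L))) (S (F 194 (V (S L L) L)) (V (S (F 131 L) (F 130 L)) (F 194 (S L L))))) (T (S (F 194 L) (S (F 194 L) (F 130 L))) (F 194 (S (V (F 2 L) (F 2 L)) (V (S (F 2 L) L) (S (F 2 L) L))))))) (S (F 386 (V (T (S (F 2 L) L) (U (S (F 3 L) (F 2 L)) (F 2 L))) (F 3 (S L L)))) (V (T (S (F 130 L) (F 130 L)) (S (S (F 130 L) (F 130 L)) (U (F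 130 L) (F 131 L)))) (F 386 (T (S (F 2 L) L) (U (S (F 67 L) (F 2 L)) (F 2 L))))))))
noncomputable def v4_9 : Tr := (V (T (U (S (F 49268 (V (V (T (S (K 6) (F 256 L)) (F 256 L)) (S (F 2432 L) (F 2178 (T L (F 4 L))))) (F 2178 (T L (F 4 L))))) (V (T (S (F 49252 (V (F 8 L) (F 642 L))) (F 53540 (V L (F 2 L)))) (F 115044 (S (T L (F 128 L)) (U (S (F 4 L) (F 4 L)) (F 1024 L))))) (F 115061 (T (S L (S L L)) (S L (S (F 4 L) L)))))) (F 49189 (S (V (T (F 5634 (S (F 2 L) L)) (F 5632 L)) (F 1666 L)) (V (T (V (F 8 L) (F 1026 L)) (S (F 1538 L) (F 514 L))) (F 1666 (T (S (F 1 L) (F 64 L)) L)))))) (F 49253 (U (S (V (T (V (F 768 L) (F 898 L)) (F 642 (S (F 5 L) L))) (F 1666 (S (F 3 L) L))) (V (T (S (V (F 130 L) (F 642 L)) (S (F 130 L) (F 130 L))) (S (F 642 (S L L)) (V (F 163 (S L L)) (F 642 L)))) (F 642 (T (S (F 2 L) L) (S (F 2 L) L))))) (S (F 2562 (V (S (F 7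 L) L) (F 7 L))) (V (T (S (F 2562 L) (F 130 L)) (S (F 2690 L) (F 131 L))) (F 642 (S (F 3 L) L))))))) (F 115029 (T (S (U (F 384 L) (F 960 L)) (V (U (S (F 384 L) (F 128 L)) (F 384 L)) (S (F 896 L) (F 384 L)))) (S (S (F 960 L) (F 768 L)) (U (T (S (F 896 L) (F 384 L)) (F 256 L)) (F 384 L))))))
noncomputable def v4_10 : Tr := (T (U (S (F 49407 (V (T (V (S (F 128 L) (U (T (K 6) L) (F 2 L))) (F 130 (U (S (K 0) L) L))) (S (F 130 (S (F 2 L) L)) (V (V (S (F 130 L) L) (F 128 L)) (F 130 L)))) (F 130 (T L L)))) v4_9) (F 49207 (S (F 1792 (V (T (S (F 65 L) L) (F 64 L)) (F 73 L))) (V (T (S (V (S (F 1792 L) (F 512 L)) (F 1666 L)) (U (V (T L (F 514 L)) (F 642 (S (F 1 L) L))) (S (F 1538 L) (F 2 L)))) (S (F 1538 (T L (F 2 L))) (U (V (S (F 1539 L) (F 514 L)) (F 1666 L)) (F 1539 (S (F 2 L) L))))) (F 1666 (S (S (F 1 L) L) (T (T L L) L))))))) (U (S (F 82399 (V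 (T (S (F 35 L) L) (F 33 L)) (F 2 L))) (V (T (F 65861 (U (S (T (F 7686 (V (S (F 65 L) L) (F 65 L))) (F 7425 L)) (V (T (S (F 1539 (S (F 256 L) L)) (T (F 519 L) (F 579 L))) (F 4675 (S (S (F 3 L) (F 2 L)) (V L (F 2 L))))) (T (F 3586 (S (F 129 L) (F 256 L))) (F 7171 L)))) (S (F 7686 (T L (F 65 L))) (V (F 4611 (T (S (F 259 L) (F 256 L)) (S (F 275 L) (F 3 L)))) (F 7171 L))))) (F 196955 (S (F 672 (V L (F 96 L))) (V (U (T (F 289 (S (F 1 L) (S (F 1 L) L))) (F 545 L)) (F 545 (S (F 1 L) L))) (S (F 673 L) (F 513 L)))))) (F 65887 (T (S (F 262 L) (U (S (F 259 L) (F 3 L)) (F 7 L))) (S (F 327 L) (F 257 L)))))) (F 98399 (S (F 386 (T (S (F 65 L) (F 1 L)) (F 64 L))) (V (T (F 515 (S (S (F 3 L) (F 2 L)) (U (V (S (F 10 L) L) (F 2 L)) (F 2 L)))) (F 641 (S (F 65 L) (T L L)))) (T (F 130 L) (F 387 L)))))))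
noncomputable def v4_11 : Tr := (T (F 82504 (U (S (V (T (V (S (F 32 L) (F 33 L)) (S (F 2080 L) (F 6176 L))) (S (T (F 2080 L) (F 2208 L)) (T (F 2081 L) (F 2081 L)))) (F 6432 (T (S (T L (F 4 L)) (S L L)) (S (T (F 4 L) (F 4 L)) (T (F 4 L) (F 4 L)))))) (V (T (S (S (F 33 L) (F 33 L)) (S (F 41 L) (F 41 L))) (V (F 2089 (S L L)) (F 6177 (S L (F 64 L))))) (T (F 6432 (S (S L L) (S (F 256 L) (F 256 L)))) (S (F 6304 (S (F 4 L) (F 256 L))) (F 6177 L))))) (S (V (T (S (S (F 6144 L) (F 6176 L)) (F 6144 L)) (S (F 6144 L) (S (F 6145 L) (F 6177 L)))) (F 6432 (T (S L L) (S (F 4 L) (F 4 L))))) (V (T (V (F 4097 L) (F 6433 (S L L))) (F 6177 (S (S L L) L))) (F 6432 (T (S L (F 256 L)) (S (F 256 L) (F 256 L)))))))) (U (S (F 1738 (V (T (S (V (F 11 (S L (F 64 L))) (F 2051 L)) (F 11 (V (S (F 64 L) (F 64 L)) (S (F 1 L) (F 65 L))))) (S (V (F 35 L) (F 2051 L)) (F 11 (V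 (S (F 64 L) (F 65 L)) (S (F 1 L) (F 65 L)))))) (T (F 2306 (S (S L L) (S L (F 64 L)))) (V (F 2307 (S L L)) (F 2304 L))))) (F 17482 (V (T (S (F 4419 (V (S (F 32 L) (F 32 L)) L)) (F 83 (S L (F 1 L)))) (F 275 (S (U (S (F 32 L) (F 33 L)) (F 1 L)) (S (F 1 L) (F 1 L))))) (T (F 4418 (S (S (F 4 L) (F 256 L)) (S (F 256 L) (F 288 L)))) (S (F 4865 (S L (F 256 L))) (F 4355 L)))))) (F 196683 (S (V (T (U (F 352 (S L (F 128 L))) (F 320 L)) (F 352 (S L L))) (F 864 (T (S L L) (S (F 1 L) L)))) (V (T (F 98 (S L L)) (F 290 (S L L))) (F 290 (T (S (S (F 20 L) (F 20 L)) (F 16 L)) (S (F 4 L) (F 4 L)))))))))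
noncomputable def v4_12 : Tr := (V (F 214088 (T (U (S (V (T (S (F 20 L) (F 2068 L)) (F 1044 (S (S L (F 1 L)) (S (F 1 L) (F 1 L))))) (F 3088 (T (S L (F 64 L)) (S L (F 64 L))))) (F 3092 (T (V (S L (F 128 L)) (S (F 4 L) (F 4 L))) (V (S L L) (S L (F 4 L)))))) (F 3088 (S (T (V (S L (F 64 L)) (S (F 4 L) (F 68 L))) (V (S L (F 64 L)) (S (F 4 L) (F 4 L)))) (T (V (F 64 L) (F 4 L)) (V (S (F 64 L) (F 320 L)) L))))) (U (F 3076 (S (V (T (S (S (F 32 L) (F 32 L)) L) (S (S (F 8 L) (F 8 L)) (F 8 L))) (T (S (F 8 L) (F 8 L)) (S (S (F 8 L) (F 12 L)) (F 8 L)))) (T (V (S (F 32 L) (F 32 L)) (S (F 8 L) (F 8 L))) (V (S (F 8 L) (F 8 L)) (S (F 8 L) (F 8 L)))))) (S (V (F 3076 (T (S (F 32 L) (F 32 L)) (S (F 8 L) (F 8 L)))) (T (F 3072 L) (F 3136 (S (F 4 L) (F 64 L))))) (T (V (F 3092 (S L L)) (F 3072 L)) (F 3140 (V (S L (F 1 L)) (S (F 4 L) (F 4 L))))))))) (F 17515 (T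 (U (S (V (F 67 (T L (S (F 4 L) (F 4 L)))) (F 322 (S L L))) (V (T (F 67 L) (F 3 L)) (F 259 (T (F 72 L) L)))) (S (F 67 (V (T L L) (S (F 4 L) (F 4 L)))) (T (F 67 (S L L)) (S (F 3 L) (F 3 L))))) (U (S (V (T (F 323 (S L L)) (F 273 (S L L))) (T (F 257 L) (S (F 321 L) (F 273 L)))) (T (F 259 (V (S (F 32 L) (F 32 L)) (S L (F 32 L)))) (F 273 (V (S L L) (S L L))))) (S (V (T (F 323 (S L L)) (F 257 L)) (S (F 257 L) (F 257 L))) (T (V (F 3 L) (F 259 L)) (V (F 257 L) (F 257 L))))))))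
noncomputable def v4_13 : Tr := (S (V (T (S (U (V (T (S (F 5252 L) (F 1157 L)) (S (F 5249 L) (F 4229 L))) (T (F 1220 L) (F 1728 L))) (F 5252 (V (T (F 256 L) (F 256 L)) L))) (U (V (T (S (F 1157 L) (F 4293 L)) (F 133 L)) (F 1220 (T L (S (F 260 L) (F 257 L))))) (F 5253 (V (S L L) (S (F 8 L) (F 8 L)))))) (S (U (V (F 4737 (T (S (F 2 L) (F 128 L)) L)) (F 1729 (T L (F 1 L)))) (F 5761 (V (S (F 4 L) L) (F 4 L)))) (U (T (V (F 133 L) (F 1733 (S L L))) (V (F 4677 (S L (F 32 L))) (F 1601 L))) (V (F 4101 L) (F 5697 (S (F 4 L) (F 64 L))))))) (T (S (F 1728 (U (S (F 3 L) L) (F 3 L))) (F 1220 (U (V (S (F 4 L) (F 256 L)) (F 260 L)) L))) (S (F 7872 (U (S (F 64 L) L) (F 64 L))) (U (S (F 3776 L) (F 1601 L)) (F 7745 (S (F 2 L) (F 32 L))))))) (V (T (S (U (F 197 (V (T L L) (T (F 4 L) (S (F 5 L) (F 5 L))))) (F 5253 (V (S L (F 8 L)) (S (F 8 L) (F 8 L))))) (T (F 197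 (V L (S (F 4 L) (F 5 L)))) (U (F 85 (S L (F 4 L))) (F 5189 L)))) (S (U (T (S (F 69 L) (F 69 L)) (S (F 581 L) (F 85 L))) (F 5189 (V (S L L) (S (F 2 L) L)))) (U (F 85 (T (S L L) (S L L))) (F 4165 (T (S (F 66 L) (F 66 L)) L))))) (F 1093 (T (S (U (V (S (F 16 L) (F 16 L)) (F 16 L)) (S (F 16 L) (F 16 L))) (U (V (S (F 16 L) (F 16 L)) L) (S L L))) (S (U (T (S (F 4 L) (F 4 L)) (S (F 5 L) (F 5 L))) (T (F 4 L) (F 5 L))) (U (T (S (F 4 L) (F 4 L)) (S (F 4 L) (F 4 L))) (T L (S (F 7 L) (F 5 L)))))))))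
noncomputable def v4_14 : Tr := (T (U (S (V (T (S (F 2384 (V L L)) (F 2324 (T L L))) (S (F 2384 (S L L)) (S (F 2320 L) (F 2320 L)))) (T (F 2880 (S L (S (F 16 L) L))) (S (F 3904 L) (F 2832 L)))) (V (F 2324 (T (S (S L L) (S L (F 256 L))) (S (S L L) (S (F 1 L) (F 1 L))))) (T (S (F 2816 L) (F 2324 L)) (F 2832 (S L (S (F 64 L) (F 64 L))))))) (S (T (V (F 6401 (S (S (F 8 L) (F 8 L)) L)) (F 2880 L)) (V (F 6416 (S (F 8 L) L)) (F 7936 L))) (V (T (F 2309 (S L (F 64 L))) (F 6416 (S L (F 64 L)))) (F 6912 (T (S (F 64 L) (F 64 L)) (S (F 17 L) (F 80 L))))))) (U (S (V (T (F 6416 (S (S (F 3 L) (F 2 L)) (S (F 2 L) L))) (F 5904 (S (F 4 L) L))) (F 7696 (S (F 4 L) (S (F 4 L) L)))) (F 6416 (V (T (S (S (F 64 L) (F 64 L)) (S (F 64 L) (F 64 L))) (S (S (F 3 L) (F 65 L)) (F 64 L))) (T (S (F 3 L) (F 2 L)) (S (F 3 L) (F 67 L)))))) (F 6416 (S (V (T (S (F 3 L) (F 1 L))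 (S (F 11 L) (F 3 L))) (S (F 11 L) (F 3 L))) (T (V (S (F 64 L) (F 64 L)) (F 67 (S L L))) (V (S (F 3 L) (F 65 L)) (F 3 L)))))))
noncomputable def v4_15 : Tr := (V (T (U (F 276 (S (V (T (S (S (F 256 L) (F 256 L)) (F 256 L)) (S L (F 1 L))) (T (S L L) (S (F 4 L) (F 4 L)))) (V (T (S (F 256 L) (F 256 L)) (S (F 256 L) (F 257 L))) (T (S (F 256 L) (F 256 L)) (S (F 4 L) (F 1 L)))))) (S (T (V (F 277 (S L (F 1 L))) (F 260 L)) (F 2324 (V (S (F 128 L) (F 128 L)) (S (F 2 L) (F 2 L))))) (F 276 (T (V (S (F 257 L) (F 257 L)) (S (F 260 L) (F 257 L))) (V L L))))) (U (F 276 (S (V (T (S L (F 1 L)) (S (F 1 L) (F 1 L))) (T (S (F 5 L) (F 5 L)) (F 7 (S L L)))) (T (V (S (F 1 L) (F 1 L)) (S (F 5 L) (F 5 L))) (V (S (F 1 L) (F 1 L)) (S (F 7 L) (F 5 L)))))) (F 2320 (S (T (V (S (F 66 L) (F 66 L)) (F 67 (S L L))) (S (S (F 3 L) (F 65 L)) (F 64 L))) (T (V (S (F 320 L) (F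 320 L)) (F 64 L)) (S (F 64 L) (F 64 L))))))) (T (F 772 (U (S (T (V (S (F 32 L) (F 32 L)) (S (F 3 L) (F 3 L))) (V (S (F 34 L) (F 33 L)) (F 35 (S L L)))) (T (V (S (F 32 L) (F 32 L)) (S (F 34 L) (F 33 L))) (V (S (F 33 L) (F 33 L)) (F 35 (S L L))))) (S (T (S L L) (S (F 3 L) (F 3 L))) (T (S L L) (S (F 3 L) (F 1 L)))))) (F 3584 (U (S (V (F 81 (T (S L L) (S L L))) (S (F 16 L) (F 16 L))) (T (F 81 (V (S L L) (S L L))) (V (F 81 (S L L)) (F 80 L)))) (S (T (S (F 17 L) (F 81 L)) L) (F 81 (T (S L L) (S L L))))))))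
noncomputable def v4_16 : Tr := (S (V (T (S (U (T (F 4865 (V L (F 11 L))) (F 7936 (S (F 128 L) L))) (F 7937 (S (F 2 L) L))) (U (V (F 4865 (T (S (F 160 L) (F 160 L)) L)) (F 5888 (S (F 1 L) (F 256 L)))) (F 4865 (V L (F 2 L))))) (S (F 7936 (U (T (S (F 10 L) (F 8 L)) L) L)) (U (F 4880 (V (S (F 1 L) L) (S (F 3 L) (F 3 L)))) (F 7936 (S (F 8 L) L))))) (F 7424 (T (S (S (F 261 L) (F 5 L)) (U (S (F 5 L) (F 1 L)) (F 257 L))) (S (F 4 L) (S (F 1 L) L))))) (V (T (S (F 4868 (U (T (V (S (F 288 L) (F 290 L)) (F 256 L)) (S (F 32 L) (F 32 L))) (T (S (F 258 L) (F 258 L)) (F 290 (S L L))))) (T (F 533 (U (V (F 1 L) (F 8 L)) (F 1 L))) (F 4884 (U (S L (F 128 L)) (F 130 (S L L)))))) (S (T (V (F 4884 (S L (F 128 L))) (F 5888 L)) (F 7952 (U (S (F 16 L) (F 16 L)) L))) (F 4884 (T (S L L) (S L L))))) (F 5888 (T (S (U (V (S (F 65 L) (F 65 L)) (F 1 L)) (F 1 L)) (T (U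 (S (F 65 L) (F 80 L)) (F 65 L)) (S (S (F 65 L) (F 65 L)) (F 64 L)))) (S (U (S (F 1 L) (F 1 L)) (S (F 17 L) (F 65 L))) (S (T (F 65 L) (F 65 L)) (T (F 65 L) (F 81 L))))))))
noncomputable def v4_17 : Tr := (T (S (V (U (T (F 259 (S (S (F 1 L) L) (T (F 128 L) (F 128 L)))) (S (F 3331 (S (F 2 L) L)) (S (F 1155 L) (F 11 L)))) (F 2315 (S (F 1 L) L))) (F 2434 (U (S (S (F 129 L) (F 1 L)) (T (S (F 129 L) (F 160 L)) (F 129 L))) (F 129 L)))) (F 139 (V (U (T (S (T (F 8 L) L) (T (F 136 L) (F 128 L))) (S (T L L) (T L L))) (T (F 136 L) (F 129 (S (F 8 L) (F 2 L))))) (U (T (S (S (F 8 L) (F 8 L)) (S L L)) (S (S (F 3 L) (F 2 L)) (S (F 2 L) L))) (S (F 3 L) (F 1 L)))))) (S (F 3203 (V (U (T (S L (S L L)) (S L (S (F 8 L) (F 8 L)))) (S (F 66 L) L)) (U (T (S (F 34 L) (F 2 L)) (S (F 3 L) L)) (S (F 3 L) (F 2 L))))) (V (U (T (F 139 (S (S (F 2 L) (S (F 2 L) (F 2 L)))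 (T L (F 2 L)))) (F 3201 (S (S (F 128 L) (F 160 L)) (F 40 (S L L))))) (F 3203 (S L (F 104 (T L L))))) (F 3201 (U (T (S (F 128 L) (F 160 (S L L))) (S L (S (F 32 L) (F 32 L)))) (F 224 (T (S L L) (S L L))))))))
noncomputable def v4_18 : Tr := (U (S (F 938 (V (T (S (F 770 (S (F 16 L) L)) (V (T (F 266 L) (F 258 L)) (F 770 L))) (S (S (F 1538 L) (F 1536 L)) (U (S (F 1536 L) (F 512 L)) (F 1536 L)))) (F 1552 (T (S (F 65 L) L) (S (F 64 L) (S (F 64 L) L)))))) (V (F 8874 (T (U (S (F 330 (V (S L L) (S (F 2 L) (F 2 L)))) (V (S (F 322 L) (F 259 L)) (S (F 328 L) (F 265 L)))) (S (T (F 330 L) (F 258 L)) (F 259 (V (S (F 8 L) (F 64 L)) (S (F 72 L) (F 64 L)))))) (U (S (V (T (F 257 L) (F 769 (S (F 4 L) (F 1 L)))) (F 512 L)) (V (T (S (F 321 L) (F 265 L)) (F 769 (S (F 1 L) L))) (T (F 257 L) (F 769 L)))) (S (T (F 768 L) (F 1793 (S (F 2 L) L))) (V (S (F 769 L) (F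 257 L)) (F 1793 (S L L))))))) (T (F 12988 (S (U (S (F 416 L) (F 160 L)) (F 416 L)) (U (V (S (F 161 L) (F 128 L)) (F 32 L)) (S (F 384 L) (F 128 L))))) (F 677 (U (S (F 3216 (S (F 128 L) L)) (T (F 3097 (S L L)) (F 9 L))) (S (F 3200 L) (F 3081 (S L L)))))))) (F 682 (S (F 3200 (V (S (T (F 145 L) (F 385 L)) (T (S (F 161 L) (F 129 L)) (F 1 L))) (T (F 145 L) (S (F 401 L) (F 144 L))))) (V (T (F 522 (S (S (S (F 10 L) (F 2 L)) L) (U (T (F 256 L) (F 256 L)) (F 256 L)))) (F 1537 (S (U (S (F 261 L) (F 65 L)) (F 321 L)) (U (T (F 64 L) (F 321 (S L L))) (F 321 (S L L)))))) (T (F 3600 (S (F 66 L) (F 144 (U (S (F 1 L) L) (F 1 L))))) (F 3073 (S L (T (F 1 L) L))))))))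
noncomputable def v4_19 : Tr := (U (F 551 (S (V (T (F 2432 (S L (U (T (F 256 L) (F 256 L)) (F 256 L)))) (F 385 (S (F 1 L) (T L L)))) (T (V (F 2433 (S (F 144 L) L)) (F 384 L)) (F 385 (S (F 260 L) (T L L))))) (V (T (F 2305 (U (S (V (S (F 4 L) (F 64 L)) L) (T (V (S (F 65 L) (F 65 L)) (F 64 L)) (S (F 64 L) (F 64 L)))) (S (S (F 4 L) L) (S L (T (F 65 L) (F 65 L)))))) (U (S (S (F 2305 L) (F 257 L)) (T (F 2345 (S L L)) (F 257 L))) (S (F 257 L) (S (F 2305 L) (F 257 L))))) (T (U (S (F 385 (S (F 32 L) L)) (T (F 257 L) (F 257 L))) (S (F 257 L) (F 265 (S L L)))) (U (S (S (F 385 L) (F 257 L)) (T (F 1 L) (F 1 L))) (S (F 385 (S (F 4 L) L)) (S (F 257 L) (F 1 L)))))))) (F 65575 (S (V (F 2368 (S (T (F 261 L) (F 262 L)) (T (F 4 L) L))) (F 448 (T (S (F 289 L) (F 1 L)) (S (F 261 L) L)))) (V (F 2368 (T (S (S (F 1 L) L) (U (S (F 65 L) (F 65 L)) (F 1 L))) (S (S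 (F 4 L) L) (U (S (F 1 L) (F 1 L)) L)))) (T (S (F 2368 (S (F 4 L) L)) (S (F 320 L) (F 64 L))) (S (S (F 448 L) (F 64 L)) (T (F 64 L) L)))))))
noncomputable def v4_20 : Tr := (V (F 9588814 (U (T (U (S (V v4_11 (F 1067 (T (U (S (F 1666 (V (T (S (F 64 L) (F 64 L)) L) L)) (F 1162 (V (T L (S (F 260 L) (F 260 L))) (S (F 4 L) (F 4 L))))) (F 1674 (S (T (S L L) (S (F 2 L) L)) (V (T L L) (S (F 2 L) (F 128 L)))))) (U (S (V (T (F 1666 (S (F 2 L) (F 64 L))) (F 1664 L)) (F 2688 L)) (V (T (F 1674 (S L L)) (F 1545 (S (F 8 L) L))) (T (F 1672 L) (F 3712 L)))) (S (F 3714 (V (S (F 1 L) L) (F 1 L))) (V (F 1539 (T (S (F 136 L) (F 136 L)) L)) (F 3713 (S (F 128 L) L)))))))) v4_12) (F 65611 v4_13)) (U (S (V (F 132227 v4_14) (F 1195 (T (U (S (V (T (F 1152 L) (F 3201 L)) (F 3201 L)) (V (T (S (F 1665 L) (F 521 L)) (F 3585 (S (F 2 L) (F 32 L)))) (F 3073 (S (F 4 L) L))))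 (F 3073 (S (S (F 5 L) (F 4 L)) (T (S (F 5 L) (F 1 L)) L)))) (F 3073 (U (S (S (F 22 L) (F 4 L)) (T (S (F 20 L) (F 16 L)) L)) (S (F 4 L) (S (F 4 L) L))))))) (F 132235 v4_15)) (F 132107 v4_16))) (F 111 v4_17))) (F 105515086 (U (T v4_18 v4_19) (T (F 33439 (S (U (U (S (F 329 L) (F 320 L)) (F 321 L)) (F 329 L)) (V (U (S (F 261 (T (F 2 L) L)) (T (F 5 L) (F 261 (S L L)))) (F 325 (S (F 8 L) L))) (U (S (F 321 L) (T (F 269 L) (F 257 L))) (F 321 L))))) (F 65575 (S (F 2497 (V (U (T (F 1 L) L) (F 1 L)) (U (T (F 1 L) L) (F 1 L)))) (V (F 3136 (U (T (S (F 258 L) (F 2 L)) (S (F 2 L) L)) (T (F 258 L) L))) (U (T (F 3136 (S (F 258 L) L)) (S (F 2368 L) (F 64 L))) (T (F 3137 L) (F 2049 L))))))))))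
noncomputable def v4_21 : Tr := (T (F 13922328 (S (V (U v4_2 (F 41023 (T (F 284 (U (V (S (F 17 L) (S (F 16 L) L)) (F 18 (S (F 8 L) (S (F 8 L) L)))) (F 17 L))) (S (V (F 772 (T L (F 32 L))) (F 914 L)) (V (U (U (S (F 264 L) (T (F 10 L) (F 10 L))) (F 266 L)) (F 783 L)) (U (T (F 154 (S (F 3 L) L)) (F 642 L)) (F 926 L))))))) (F 108891 (U (T (F 36 (U (V (S (F 3 L) (T L L)) (F 1 L)) (V (U (F 1 L) (F 3 L)) (F 3 L)))) (U (V (S (F 228 L) (T (F 36 L) (F 64 L))) (F 224 L)) (F 160 (U (T (F 8 L) (F 1 L)) (F 1 L))))) (F 224 (U (T (S (F 12 L) (F 4 L)) L) (F 12 L)))))) (V v4_7 (F 80147 (U v4_8 (T (S (F 770 (U (V L (F 33 L)) (F 97 L))) (F 134 (U (V (S (F 3 L) (F 65 L)) (F 2 L)) (F 67 L)))) (S (F 898 (U (V (S (F 1 L) L) (F 33 L)) (F 33 L))) (F 131 (U (V (T L (S (F 3 L) (F 1 L))) (F 3 (T L L))) (F 3 (S (F 16 L) (F 1 L)))))))))))) (S (F 43151428 (V (U v4_10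 (F 114815 (T (S (V (F 128 L) (F 193 L)) (U (V (T (S (F 129 L) L) (F 65 (S (F 1 L) L))) (F 64 L)) (F 1 L))) (F 65 (S (S (F 33 L) (F 1 L)) (U (V (T L (F 1 L)) (F 1 L)) (F 1 L))))))) (F 115037 (U (T (U (S (F 456 L) (V (T (F 8 L) (F 264 L)) (F 328 L))) (V (S (F 457 L) (F 384 L)) (F 456 L))) (U (S (F 328 (S (F 32 L) L)) (V (T (F 328 L) (F 321 L)) (S (F 329 L) (F 320 L)))) (F 321 (V (S (F 9 L) L) (S (F 40 L) (F 8 L)))))) (T (F 456 (U (S (F 16 L) L) (F 16 L))) (U (T (F 328 L) (F 321 L)) (F 457 L))))))) v4_20))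
noncomputable def v4_22 : Tr := (S (F 459 (V (F 1109 (V (T (F 2 L) L) (U (K 3) (T (F 2 L) (S (F 35 L) (F 2 L)))))) (T (F 1560 (U (K 2) (U (K 2) (V (F 32 L) L)))) (U (K 7) (S (F 3592 (T L L)) (V (F 536 (S (F 17 L) L)) (F 2568 (T L (F 1 L))))))))) (V (F 174410 (T (S (F 704 (U (S L L) L)) (U (S (F 640 L) (F 640 L)) (F 640 L))) (S (U (S (F 512 L) (F 512 L)) (F 512 L)) (V (F 640 L) (U L (F 512 L)))))) (T (F 8522 (U (S (K 6) (V (F 4133 (T L (S (F 4 L) (F 4 L)))) (U (K 6) (T (F 516 L) (S (F 552 L) (F 44 L)))))) (S (V (F 4613 (S (F 32 L) L)) (V (F 4608 L) (S (F 4620 L) (F 4616 L)))) (V (F 4133 (T (F 4 L) L)) (T (S (F 4612 L) (F 4612 L)) (U (F 8 L) (F 4608 L))))))) (U (S (F 8522 (V (U (K 6) (S (K 6) (F 37 L))) (T (K 6) (U (K 6) (S (K 6) (F 520 L)))))) (V (F 174410 (T (S (F 2 L) (F 512 L)) (S (F 2 L) L))) (T (F 26954 (U (K 4) (S L L))) (V (F 26698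 (S (F 64 L) (F 1 L))) (S (F 24906 L) (F 157762 L)))))) (S (F 8522 (V (T (F 4129 L) (F 41 L)) (U (T (F 520 L) (F 520 L)) (T (F 4616 L) (F 4616 L))))) (V (F 141642 (T (F 1154 (S L L)) L)) (F 24650 (T (U (S (F 4736 L) (F 4225 L)) (F 4224 L)) (U L (F 4096 L))))))))))
noncomputable def v4_23 : Tr := (T (F 45419 (U (S (V (F 137 (U (K 3) (S (F 19 L) L))) (U (K 4) (V (F 132 L) (K 4)))) (V (F 137 (V (S (S (F 1 L) L) (S L L)) (S (U (K 3) L) (U (S L L) L)))) (T (U (F 137 (S (K 3) (V (S (K 3) L) (K 3)))) (S (S (F 132 L) (F 132 L)) (V (F 137 L) (F 128 L)))) (U (S (K 4) (U (K 4) (V (F 137 L) (S (K 4) (F 4 L))))) (S (V (F 136 L) (S (F 132 L) (F 4 L))) (V (F 9 L) (S L L))))))) (S (V (F 393 (S (F 9 L) L)) (F 388 (V L (S (F 1 L) L)))) (V (F 137 (U (S (F 1 L) L) (F 17 (S L L)))) (U (S (V (F 133 L) (F 132 L)) (V (F 129 L) (S (F 132 L) (F 132 L)))) (S (F 132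 L) (F 133 (S L L)))))))) (U v4_22 (S (F 383 (V (F 85 (T L (S (F 17 L) (F 1 L)))) (U (V (F 536 (T (F 16 L) L)) (T (F 536 L) (F 520 L))) (F 524 (T (F 16 L) L))))) (F 8267 (V (F 293 (T (S (F 6 L) (S (F 6 L) (F 6 L))) (S (S (F 7 L) (F 3 L)) (S (F 1 L) L)))) (T (S (V (F 3332 (S (F 64 L) L)) (U (F 1288 L) (F 7436 L))) (V (F 1285 (U L (F 130 L))) (U (S (F 1288 L) (S (F 1292 L) (F 1284 L))) (F 1292 L)))) (S (U (V (F 1281 L) (F 5384 (T L L))) (F 5384 (S (F 64 L) L))) (V (T (F 1285 (S L L)) (F 1 L)) (U (T (F 1032 L) (F 8 L)) (F 5128 L))))))))))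
noncomputable def v4_24 : Tr := (T (F 6290 (U (S (V (F 138 (S (F 32 L) L)) (T (S (F 142 L) (F 12 L)) (F 140 (S (F 64 L) L)))) (V (T (S (F 134 L) (F 6 L)) (S (F 142 L) (F 6 L))) (T (S (F 4 L) (S (F 12 L) (F 4 L))) (V (F 140 (S (F 32 L) L)) (S (F 141 L) (F 12 L)))))) (S (F 142 (V (S (F 32 L) (F 32 L)) (V L (S (F 32 L) (F 32 L))))) (V (T (F 6 L) (F 134 (S (F 96 L) (F 1 L)))) (T (S (F 134 L) (F 6 L)) (F 133 (S (F 32 L) (S (F 32 L) L)))))))) (U (F 1672 (S (V (F 647 (T (S (F 32 L) (F 32 L)) (S (F 32 L) L))) (T (F 645 (S (F 32 L) L)) (S (F 517 L) (S (F 517 L) (F 641 L))))) (V (F 140 (T (S (F 66 L) (V (F 66 L) (F 2 L))) (S (S (F 130 L) (F 128 L)) (U (S (F 130 L) L) (F 130 (S (F 1 L) L)))))) (T (F 648 (S (F 160 (V L L)) (V (F 32 L) (S (F 160 L) (F 128 L))))) (S (T (F 641 L) (F 129 L)) (V (F 129 L) (F 129 L))))))) (F 17928 (S (F 530 (V (F 196 (S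 L L)) (T (F 64 L) (S (F 192 L) (F 128 L))))) (V (F 663 (S (S L L) (U (T L L) L))) (T (F 662 (U (S (F 1 L) L) L)) (S (F 528 L) (U (F 148 L) (F 1668 L)))))))))
noncomputable def v4_25 : Tr := (S (V (F 9873 (T (V (S (F 34 L) (F 2 L)) (S (F 34 (S L L)) (S (F 2 L) (F 2 L)))) (S (F 34 (U (S L L) L)) (V (F 34 L) (S (F 34 L) (F 32 L)))))) (F 8840 (T (U (S (V (F 582 (S L L)) (S (F 70 L) (F 580 L))) (F 580 (V (S (F 32 L) (F 32 L)) (S L (F 1 L))))) (S (V (F 582 L) (F 6 L)) (F 582 (V L (S L L))))) (U (S (V (F 580 (S (F 32 L) L)) (U (F 580 (S (K 2) (S L L))) (S (F 68 L) (F 516 L)))) (V (F 580 (S L (F 1 L))) (T (F 576 L) (F 580 (S L (F 1 L)))))) (S (V (F 580 L) (S (F 4 L) (F 4 L))) (V (F 580 L) (U (F 580 (S L L)) (F 516 L)))))))) (V (F 1681 (T (V (S (F 4 L) (S (F 5 L) (F 4 L))) (U (S (F 69 L) (F 261 L)) (S (F 69 L) (F 5 L)))) (S (V (F 69 (S L L)) (S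 (F 65 L) (F 65 L))) (V (T (F 5 L) (F 65 L)) (F 321 (U L L)))))) (F 8721 (T (U (S (V (F 22 L) (F 656 (S (F 16 L) (F 4 L)))) (F 532 (V (S (F 34 L) (F 40 L)) (F 10 (S L L))))) (F 532 (S (V (F 34 (S L L)) (S (F 2 L) (F 2 L))) (V (S (F 32 L) (F 32 L)) (S (F 2 L) (F 2 L)))))) (U (S (V (F 148 L) (F 688 (T L (S (F 8 L) (F 8 L))))) (F 660 (V L (T (F 4 L) (F 4 L))))) (S (V (F 148 L) (F 644 (T (S (F 8 L) (F 12 L)) L))) (F 644 (V (S (F 8 L) (F 8 L)) (S L (F 4 L))))))))))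
noncomputable def v4_26 : Tr := (V (F 20773 (T (S (U (S (F 64 L) (F 64 L)) L) (U (S (F 64 L) (F 64 L)) L)) (U (S (S L L) (S L L)) (S (S L L) (S L L))))) (T (U (S (V (F 20773 (T (F 64 L) (S (F 4 L) (F 64 L)))) (T (F 4357 (U (F 128 L) (F 1 L))) (V (F 20773 (S L L)) (F 257 L)))) (F 4133 (V (S (F 33 L) (F 289 L)) (T (S (F 33 L) (F 1345 L)) (S (F 1024 L) (F 1025 L)))))) (S (V (F 20773 (S L L)) (T (F 21764 (S L (F 512 L))) (F 20485 (S L (F 128 L))))) (F 20485 (V (S (F 148 L) (F 400 L)) (T (F 4 L) L))))) (U (S (V (F 4389 (T (S (F 1 L) (F 1 L)) (S L (F 1 L)))) (T (S (F 4137 (T L L)) (F 4129 L)) (S (T (F 41 L) (F 41 L)) (S (F 41 L) (F 43 L))))) (V (F 4133 (T (F 33 L) (F 1024 L))) (T (F 39 (S L (F 128 L))) (F 43 (S (S L (F 128 L)) (F 128 L)))))) (S (V (F 20517 (T L (S (F 16 L) (F 16 L)))) (T (S (F 20488 L) (F 20489 L)) (V (F 20481 L) (F 20489 (S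 L (F 1024 L)))))) (V (F 20517 (T (F 512 L) L)) (T (F 20517 (S L (F 512 L))) (V (F 20515 L) (F 16395 L))))))))
noncomputable def v4_27 : Tr := (U (S (F 295362 v4_26) (F 1221058 (V (T (F 5130 (S (V (F 16 L) (S (F 16 L) (F 16 L))) (V (T (F 20 L) (F 272 L)) (U (F 276 L) (F 260 L))))) (U (S (F 5186 (S L L)) (F 5129 (S L L))) (S (S (F 5186 L) (F 5123 L)) (S (F 5123 L) (F 5129 L))))) (T (F 5130 (U (S (V (S (F 272 L) (F 272 L)) (T (F 292 (S L L)) (S (F 288 L) (F 416 L)))) (V (F 256 L) (F 292 (T L L)))) (S (V (S (F 16 L) (F 260 L)) (T (S (F 260 L) (F 292 L)) (F 256 L))) (V (F 256 L) (F 292 (T L L)))))) (U (S (V (F 5155 (T (F 64 L) L)) (T (F 5155 (S L (F 64 L))) (F 39 (S L (F 1 L))))) (F 4131 (T (S (F 2 L) (F 130 L)) (V (F 130 L) (F 256 L))))) (S (T (F 5123 (V (F 128 L) L)) (V (F 5155 L) (F 4099 L))) (F 5123 (V L (T (F 160 L) (F 288 L)))))))))) (F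 295371 (S (V (T (F 293 (S (S (F 6 L) (F 4 L)) (T (F 4 L) L))) (S (F 293 (T L L)) (T (F 37 L) (F 37 L)))) (T (S (U (V (F 1317 (S L L)) (S (F 1028 L) (F 1028 L))) (T (F 1285 L) (F 1029 L))) (U (V (F 1061 L) (S (F 1029 L) (F 1029 L))) (S (F 1029 L) (F 1031 L)))) (S (U (V (S (F 37 L) (F 37 L)) (T (F 1 L) (S (F 4105 L) (F 4107 L)))) (V (F 5125 L) (F 5129 (S L L)))) (U (V (F 39 (S L L)) (S (F 9 L) (F 7 L))) (T (F 1031 L) (F 15 L)))))) (V (T (F 1077 (U (V (F 136 (S (F 16 L) L)) (S (F 136 L) (F 128 L))) (S (F 8 L) (F 128 L)))) (S (U (F 37 L) (F 39 L)) (F 39 (U (S (F 128 L) (F 128 L)) L)))) (T (S (U (F 39 (T (S (F 4 L) (F 132 L)) (S L (F 4 L)))) (F 1031 (S L (F 64 L)))) (F 1079 (U (V L (S L (F 16 L))) (T L L)))) (S (T (F 1031 (V (S (F 64 L) (F 64 L)) (S L (F 64 L)))) (F 39 (U (S L (F 256 L)) (F 256 L)))) (F 39 (U (T (F 128 L) (F 256 L)) (S (F 4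 L) (F 260 L))))))))))
noncomputable def v4_28 : Tr := (U (T (F 409705 (U v4_25 (S (F 9864 (V (F 290 (S (U (S L L) (F 32 L)) (U (T L L) L))) (U (S (V (F 258 L) (T (F 322 L) L)) (T (S (F 258 L) (F 258 L)) (V (F 288 L) (S (F 256 L) (F 256 L))))) (S (V (F 322 L) (F 66 L)) (T (F 322 L) (F 256 L)))))) (V (F 9361 (S (U (T (F 6 L) (F 70 L)) (F 70 (S L L))) (U (T (F 2 L) (F 324 (V (F 16 L) L))) (F 322 (T L (S (F 16 L) (F 16 L))))))) (F 9225 (U (T (F 22 (S (V (F 4 L) (S (F 1 L) (F 1 L))) (F 5 (U (S L L) (S L L))))) (S (V (F 148 L) (S (F 532 L) (F 644 L))) (F 644 (T L (S L (F 4 L)))))) (T (S (F 534 L) (F 642 (T (F 8 L) (F 32 L)))) (S (F 516 L) (F 644 (S L L)))))))))) v4_27) (F 1475051 (T (F 324 (S (U (V (F 17 (S (F 2 L) L)) (S (F 32 L) (S (F 32 L) (F 32 L)))) (F 113 L)) (U (U (V (F 80 (S L L)) (F 96 (S (S L L) (S L L)))) (V (F 81 L) (F 96 L))) (F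 113 (S L L))))) (S (V (U (U (T (F 840 L) (F 72 L)) (F 840 L)) (F 843 L)) (U (S (T (F 514 L) (S (F 514 L) (F 514 L))) (U (T (F 3 L) (F 515 (S L (F 32 L)))) (F 515 L))) (F 771 L))) (V (U (T (F 269 (S L (S L L))) (U (S (F 521 L) (F 13 L)) (F 521 L))) (F 783 (S (F 2 L) L))) (U (T (S (F 3 L) (F 7 (S L (F 64 L)))) (F 515 (U (S L (F 32 L)) L))) (F 775 (S L (F 16 L)))))))))
noncomputable def v4_29 : Tr := (T (U (F 426568 (S (V (F 4385 (T (S (F 272 L) (F 256 L)) (S (F 18 L) (F 272 L)))) (F 13056 (T (U (K 4) (S (F 36 L) L)) (V (S (F 1056 L) (F 1056 L)) (S (F 36 L) (F 32 L)))))) (V (F 4137 (T (S (F 32 L) (F 32 L)) (S (S (F 48 L) (F 48 L)) L))) (T (V (F 4137 (S L L)) (S (F 552 L) (F 41 L))) (S (F 8744 (V (S (F 1026 L) (F 1026 L)) L)) (T (F 41 L) (F 8745 (S L L)))))))) (F 393804 (S (V (F 601 (T L (S (F 19 L) (F 18 L)))) (T (F 25096 (S (F 6 L) L)) (F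 25609 (S (F 6 L) L)))) (V (T (F 81 L) (F 8281 (S (F 16 L) (F 1 L)))) (S (T (F 24600 (S L L)) (F 25608 L)) (F 16409 (T (S L L) (S (F 1 L) (F 1 L))))))))) (F 426698 (U (S (V (F 2337 (T (S L L) (S L (S (F 64 L) L)))) (T (S (F 2336 L) (T (F 2081 L) (F 2081 L))) (S (F 2337 L) (S (F 2337 L) (F 2081 L))))) (V (F 2089 (T (S (S L L) (S L L)) (V (S (F 8 L) (F 8 L)) (S (F 8 L) L)))) (T (S (T (F 33 L) (F 2081 L)) (V (F 41 L) (F 41 L))) (S (S (F 2081 L) (F 2081 L)) (T (F 35 L) (F 35 L)))))) (S (V (F 2337 (T L (S (F 3 L) (F 1 L)))) (T (F 6145 L) (F 6401 L))) (V (S (S (F 2081 L) (F 2081 L)) (F 2089 (T L L))) (T (S (F 6145 L) (F 6177 (S L L))) (F 6177 (S L (T L (F 256 L))))))))))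
noncomputable def v4_30 : Tr := (U (S (F 394190 (V (T (V (F 3157 (S (F 17 L) L)) (S (F 3145 L) (F 81 (S (F 64 L) L)))) (F 2113 (V (S (F 225 L) (F 160 L)) (S (F 65 L) (T (F 64 L) (F 64 L)))))) (T (U (S (K 7) (T (K 7) (V (F 73 L) (F 520 L)))) (S (F 3592 (S (F 132 L) L)) (V (F 2121 (S (F 3 L) L)) (F 2568 L)))) (U (V (F 73 (S (F 7 L) (T L L))) (S (F 3657 L) (V (F 584 L) (F 3592 L)))) (F 2057 (V (S (F 275 L) (F 16 L)) (S (F 275 L) (F 3 L)))))))) (V (F 1462860 (T (U (F 194 (V (S (F 3 L) (F 3 L)) (S (S (F 130 L) (F 128 L)) (S L L)))) (V (F 2242 L) (S (F 1218 L) (F 66 L)))) (U (F 1216 (V (S (F 193 L) (F 129 L)) (S (S (F 64 L) (F 64 L)) (S L L)))) (V (F 1218 L) (S (F 3268 (S L L)) (S (F 1220 L) (F 1154 L))))))) v4_29)) (F 393807 (S (F 7681 (V (V (F 68 L) (F 36 (T L L))) (S (T (F 32 L) (F 36 L)) (T (V (F 32 L) (F 32 L)) (T (F 32 L) (F 36 L))))))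 (V (T (F 597 (S (S (F 4 L) L) (U (S (F 64 L) L) (F 64 L)))) (V (F 1621 (S (F 33 L) L)) (S (F 1609 L) (F 1105 (S L L))))) (T (S (V (S (F 1545 L) (F 521 L)) (T (F 2056 L) (F 3080 L))) (U (V (S (F 89 L) (F 25 L)) (T (F 24 L) (F 9 L))) (T (F 25 L) (F 25 L)))) (S (U (T (F 1033 L) (F 3081 L)) (F 7177 L)) (U (V (T (F 89 L) (F 1097 L)) (S (F 3081 L) (F 1033 L))) (T (F 1033 L) (F 1035 L)))))))))
noncomputable def v4_31 : Tr := (T (F 1344202 (U (S (V (F 2338 (T (V L (S (F 3 L) (F 1 L))) (V L L))) (F 6178 (V (T (S (F 6 L) (F 4 L)) (S (F 261 L) (F 256 L))) (T (S (F 7 L) (F 256 L)) (S (F 271 L) (F 264 L)))))) (V (T (S (S (F 2338 L) (F 2090 L)) (F 2090 (S L L))) (S (S (F 2082 L) (F 2082 L)) (F 2083 (V (F 128 L) L)))) (T (S (F 2083 (V L (S (F 1 L) (F 1 L)))) (V (F 2083 L) (F 4259 (S L L)))) (V (F 2083 (S (S (F 1 L) (F 1 L)) (S (F 1 L) (F 16 L)))) (F 6305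 (S L (S L L))))))) (S (F 6178 (V (T (S (F 7 L) (F 4 L)) (F 4 L)) (T (F 1 L) (F 259 (S (F 48 L) L))))) (V (F 6178 (T (S L L) (S L (S (F 256 L) (F 256 L))))) (F 6147 (T (V (S (F 36 L) (F 32 L)) L) (S (F 32 L) (S (F 32 L) (F 32 L))))))))) (F 1085574 (U (S (V (T (F 9988 (V (F 256 L) (F 3 L))) (F 22273 (S (F 129 L) L))) (F 21377 (V (S (F 135 L) (F 4 L)) (F 3 L)))) (V (T (F 9475 (V (S (F 512 L) (F 512 L)) (S (F 1 L) (S (F 17 L) (F 1 L))))) (F 17411 (S (S (F 24 L) (F 16 L)) (T (F 1 L) (F 1 L))))) (F 17793 (T (S (T (F 513 L) (F 514 L)) (V (S (F 513 L) (F 513 L)) (F 513 L))) (S (F 6 L) (S (F 514 L) (F 514 L))))))) (F 25601 (S (F 521 (V (T (S (F 193 L) (F 1 L)) (F 64 L)) (F 192 (S (F 33 L) L)))) (V (T (S (F 1544 L) (F 1536 L)) (S (F 1033 L) (F 1025 L))) (S (F 1033 L) (F 1048 (T L (F 128 L))))))))))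
noncomputable def v4_32 : Tr := (S (F 1217422 (V (T (V (S (F 1670 L) (F 130 L)) (S (F 1922 L) (U (S (F 1666 L) (F 130 L)) (F 1666 L)))) (F 1664 (S (T L (F 1 L)) (V (T (F 64 L) L) (T L L))))) (T (S (F 1920 (T L (F 1 L))) (V (T (F 1154 (S (F 3 L) L)) (F 1664 L)) (F 1920 (U (S (F 65 L) L) (F 96 L))))) (F 1792 (S (F 129 L) (V (T (F 1 L) (F 129 L)) (F 130 L))))))) (V (F 1052878 (T (U (S (F 1542 (V (F 320 L) (T (F 128 L) (S (F 129 L) (F 192 L))))) (F 550 (V (F 264 L) (T (S (F 136 L) (F 136 L)) (S (F 128 L) (F 128 L)))))) (V (F 9774 (S (F 32 L) L)) (F 534 (S (S (F 11 L) (F 9 L)) (S (F 1 L) (S (F 128 L) (F 128 L))))))) (U (S (F 1556 (V (T (F 320 L) (F 256 L)) (T (S (F 257 L) (F 256 L)) (S (F 3 L) (S (F 1 L) (F 256 L)))))) (V (F 1078 (T (F 8 L) (S (F 8 L) (F 256 L)))) (T (S (F 534 L) (F 54 L)) (V (F 23 (S (F 24 L) (F 256 L))) (S (F 1555 L) (F 8243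 L)))))) (F 8214 (S (V (F 12 L) (T (F 12 L) (F 13 (S (F 1 L) L)))) (V (S (F 12 L) (F 640 L)) (T (S (F 12 L) (F 640 L)) (S (F 520 L) (F 512 L))))))))) v4_31))
noncomputable def v4_33 : Tr := (V (F 1512268 (U (T (F 1092 (U (S (F 3 (T L (S (F 2 L) L))) (V (F 3 L) (T L (S (F 3 L) (F 1 L))))) (F 3 (V L (S (F 34 L) (T L L)))))) (U (S (V (F 1860 L) (F 578 (T (F 67 (S L L)) (S (F 3 L) (U (F 64 L) (F 67 L)))))) (F 1604 (V (T (F 65 L) (F 1 L)) (T (S (F 32 L) L) (V (S (F 65 L) (F 64 L)) (S (S L L) (U L (F 64 L)))))))) (F 1600 (S (F 65 (V (F 3 L) (S (F 34 L) L))) (V (F 33 (S (F 1 L) L)) (T (F 32 L) (S (F 97 L) (F 32 L)))))))) (F 1796 (T (U (S (F 99 L) L) (F 99 L)) (U (V (F 66 L) (F 34 (T L (S (F 17 L) (F 1 L))))) (F 99 L)))))) (U (T v4_30 (U v4_32 (F 1179855 (S (F 5640 (V (S (F 137 L) (T (F 136 L) (F 136 L))) (T (S (F 393 L) (F 129 L)) (F 265 L))))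 (V (T (S (F 1610 (U (S (F 1 L) L) (F 65 L))) (V (F 598 L) (F 586 (T L L)))) (S (F 5706 (V L (T (F 64 L) (F 64 L)))) (U (T (F 90 L) (F 75 (S (F 1 L) L))) (F 4171 L)))) (T (S (F 4618 (V (S (F 19 L) (F 16 L)) (S (F 275 L) (F 257 L)))) (V (F 586 (U (T L (F 256 L)) (F 256 L))) (F 523 (U (S (F 3 L) L) (F 3 L))))) (S (F 4619 (V (S (F 19 L) (F 16 L)) (F 3 L))) (F 75 (U (V (S (F 9 L) L) (S (F 11 L) (F 1 L))) (S (F 11 L) (F 1 L))))))))))) (F 1475151 (T (S (F 1922 (V (F 4 L) (T L (F 32 L)))) (V (F 150 (U (T (F 3 (S (F 16 L) L)) (S (F 7 L) (F 4 L))) (F 71 L))) (U (T (S (F 1922 L) (F 516 L)) (F 1793 (V L L))) (F 1927 L)))) (S (F 1923 (V (F 4 L) L)) (U (V (F 1424 (U (T (F 32 L) (F 64 L)) (F 96 L))) (F 1793 (T (S (F 9 L) L) (S (F 73 L) (F 8 L))))) (F 1811 (S (F 17 L) L))))))))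
noncomputable def v4_34 : Tr := (U (S (V (T (F 9104 (V L (S (F 389 L) (F 384 L)))) (S (F 10130 L) (F 8961 (T (F 72 L) (F 516 L))))) (F 8466 (T (S (F 28 (T L L)) (U (F 536 (S (F 16 L) L)) (F 528 L))) (U (S (S (F 28 L) (F 524 L)) (S (F 516 L) (F 516 L))) (S (F 516 L) (S (F 524 L) (F 516 L))))))) (V (T (U (S (F 9105 (S L L)) (S (F 401 L) (F 145 L))) (S (F 8577 L) (F 8337 (S (F 16 L) L)))) (U (S (F 8577 (S (F 12 L) L)) (T (F 8321 L) (F 8449 L))) (S (F 8449 L) (S (F 8449 L) (F 8449 L))))) (T (U (S (F 401 (S (F 1 L) L)) (F 8465 (T (F 16 L) L))) (F 8465 (S (S (F 528 L) (F 528 L)) (S (F 16 L) L)))) (F 8465 (U (S (T (F 4 L) (F 548 (S L L))) (T L (F 548 (S L L)))) (S (S (F 516 L) (F 516 L)) (S (F 4 L) L))))))) (S (V (F 8963 (T (S (F 77 L) (F 8 L)) (S (F 76 L) L))) (T (F 8594 (S (F 8 L) (S (F 256 L) (F 256 L)))) (F 9475 (S (S (F 68 L) (F 64 L)) (S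 (F 64 L) L))))) (V (T (S (F 8577 (S (F 8 L) L)) (T (F 8337 L) (F 8321 L))) (S (S (F 8451 L) (F 8449 L)) (T (F 8193 L) (F 8193 L)))) (T (S (F 8465 (S (F 512 L) L)) (T (F 8337 L) (F 8465 L))) (S (F 8451 (S (F 4 L) L)) (S (F 8449 L) (F 8193 L)))))))
noncomputable def v4_35 : Tr := (U (T (U (S (F 912 (V (T (S (F 323 L) (F 2 L)) (S (F 267 L) L)) (T (S (F 256 L) (S (F 257 L) (F 256 L))) (S (F 256 L) (S (F 257 L) (F 256 L)))))) (V (T (S (F 912 (S (F 2 L) L)) (F 664 (V (S (F 18 L) (F 512 L)) (S (F 528 L) (F 528 L))))) (U (S (F 912 L) (F 665 (S (F 16 L) L))) (S (F 913 L) (F 145 L)))) (T (U (F 913 (S L (S (F 64 L) (F 64 L)))) (S (F 914 L) (F 401 L))) (F 401 (U (S L (S (F 16 L) L)) (S (F 512 L) (S (F 1 L) (F 1 L)))))))) (S (F 402 (V (T (F 19 L) (F 529 (S (F 80 L) L))) (T (S (F 19 L) (F 16 L)) (S (F 529 L) (F 1 L))))) (V (T (S (F 13200 L) (F 657 (T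 (F 132 L) (F 1 L)))) (F 8337 (S (S (F 536 L) (F 24 L)) (S L L)))) (T (S (F 402 (S (F 17 L) (F 512 L))) (S (F 401 L) (F 145 L))) (S (F 8593 (S (F 256 L) L)) (T (F 401 L) (F 8337 L))))))) v4_34) (T (S (F 8594 (U (V (F 11 (S (F 1 L) L)) (T (F 9 L) (F 256 L))) (F 267 (S (F 1 L) L)))) (F 8337 (V (U (T (F 523 (S (F 18 L) L)) (S (F 537 L) (F 2 L))) (F 531 (S (F 18 L) L))) (U (T (S (F 530 L) (F 514 L)) (S (F 528 L) (F 512 L))) (F 530 (S (F 64 L) L)))))) (S (F 8451 (V (U (T (F 25 L) (F 24 L)) (F 25 L)) (U (T (S (F 156 L) (F 656 L)) (S (F 645 L) (F 516 L))) (F 517 (S (F 50 L) L))))) (V (U (T (S (F 8579 L) (F 8321 L)) (S (F 8451 L) (F 8193 L))) (T (F 12419 L) (F 8195 L))) (U (T (F 8211 (S (F 16 L) L)) (F 8451 (S (F 512 L) L))) (F 8451 (T (F 128 L) (F 512 L))))))))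
noncomputable def v4_36 : Tr := (T (F 828168 (U (S (V (T (S (F 2194 L) (F 2070 L)) (S (F 2068 L) (F 2069 L))) (T (S (T (F 20 L) (F 20 L)) (S (F 20 L) (F 21 L))) (S (T (F 21 L) (F 4116 L)) (S (F 21 L) (F 21 L))))) (V (F 2067 (T (S (F 512 L) (F 65 L)) (S L (F 64 L)))) (T (S (S (F 21 L) (F 85 L)) (F 85 (S L (F 4 L)))) (F 85 (S (S L L) (S L (F 2 L))))))) (S (V (T (F 2064 L) (F 2064 L)) (T (U (F 4 L) (S (F 14340 L) (F 10261 L))) (S (F 14340 (S L L)) (F 12309 (T L L))))) (V (T (F 10258 L) (F 10257 L)) (T (V (F 8209 L) (F 8197 L)) (F 12309 (S (S L L) L))))))) (F 860424 (U (S (F 8340 (V (T (S (F 2 L) (F 2 L)) (S (S (F 18 L) (F 18 L)) (F 1042 (S L L)))) (T (S (V (F 1040 L) (S (F 1040 L) (F 1104 L))) (V (F 1040 L) (F 1104 (S L L)))) (S (V (F 1040 L) (F 1104 (S L L))) (V (F 1040 L) (F 1104 (S L (F 128 L)))))))) (F 149 (V (T (S (F 4 L) (F 6 L)) (S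 (F 6 L) (F 6 L))) (T (S (S (F 130 L) (F 130 L)) (S (F 130 L) (F 130 L))) (F 162 (S (V L L) (S L L))))))) (S (V (F 12436 (T (S (F 1 L) (F 1 L)) (S (F 8 L) (F 512 L)))) (T (F 8325 (U (S (F 272 L) (F 258 L)) (S (F 19 L) (F 259 L)))) (F 25105 (S (V (F 17 L) (F 17 L)) (T (F 272 L) (F 257 L)))))) (F 24597 (V (T (S (F 33 L) (F 33 L)) (S (F 33 L) (F 33 L))) (T (S (S (F 33 L) (F 33 L)) (F 32 L)) (T L (F 73 (S L L))))))))))
noncomputable def v4_37 : Tr := (V (T (F 10306 (U (S (T (F 512 L) (S (F 544 L) (F 544 L))) (T (F 160 L) (F 32 L))) (S (T (F 512 L) (F 512 L)) (S L L)))) (U (S (F 2115 (V (F 1 L) (S (F 2 L) (F 1 L)))) (F 10306 (T L (S (F 544 L) (F 33 L))))) (F 10306 (S (T (F 512 L) (S (F 769 L) (F 545 L))) (T (F 512 L) (F 1 L)))))) (T (U (S (V (F 2115 (T (F 1 L) L)) (F 101 (T (S L (F 513 L)) (S L (F 2 L))))) (F 8291 (V (T (F 130 L) (F 2 L)) (T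 (S (F 258 L) (F 258 L)) (S (F 256 L) (F 257 L)))))) (S (V (F 10339 (T L L)) (F 8261 (T L (S (F 65 L) (F 67 L))))) (F 8259 (V (S (F 2 L) (F 66 L)) (T (F 578 L) (F 576 L)))))) (U (S (V (F 2085 (T (S (F 576 L) (F 576 L)) (S (F 66 L) (F 514 L)))) (F 4133 (T (S (F 64 L) (F 64 L)) (S (F 16 L) (F 1 L))))) (T (F 8289 (V (F 512 L) (S (F 257 L) (F 257 L)))) (F 12325 (V (S (F 257 L) (F 257 L)) (S L (F 256 L)))))) (S (F 12293 (T (V (F 545 (S L (F 4 L))) (S (F 96 L) (F 97 L))) (V (F 1 L) (S (F 65 L) (F 65 L))))) (F 12321 (T (V (F 545 L) (F 256 L)) (V (F 513 L) (F 256 L))))))))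
noncomputable def v4_38 : Tr := (S (V (F 598 (T (S (U L (F 17 L)) (U (S (F 1 L) (F 512 L)) (F 1 L))) (S (U (S (F 17 L) (F 513 L)) (F 513 L)) (U (S (F 513 L) (F 513 L)) (F 513 L))))) (T (S (F 16914 (U (V (S (F 64 L) (F 64 L)) (T (S (F 1280 L) (F 1280 L)) (S (F 1280 L) (F 1280 L)))) (T (F 256 L) (S (F 1280 L) (F 1344 L))))) (V (F 16978 (T (S (F 256 L) (F 768 L)) (S (F 512 L) (F 768 L)))) (F 539 (U (T L (S (F 129 L) (F 129 L))) (S (F 5 L) (F 5 L)))))) (S (F 16906 (V (U (T (F 320 L) (F 1348 (S L L))) (F 1344 (S L L))) (U (S (T (F 1284 L) (F 1092 L)) (T (F 1344 L) (F 1284 L))) (S (F 1284 L) (F 1280 L))))) (F 16475 (U (T (V (F 16 L) (S (F 16 L) (F 16 L))) (V L (S (F 16 L) (F 48 L)))) (T (S (F 16 L) (F 272 L)) (S (F 16 L) (F 256 L)))))))) (V (F 597 (T (S (U (S (F 512 L) (F 512 L)) (F 512 L)) (V L (S (F 512 L) (F 512 L)))) (S (U (S (F 513 L) (F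 513 L)) (F 769 (S L L))) (U (S (F 513 L) (F 1 L)) (F 769 (S L L)))))) (T (F 531 (S (U (V (F 1153 (S L L)) (T (F 1664 L) (F 641 L))) (V (F 1153 L) (F 513 L))) (F 1664 (U (T L (F 132 (S L L))) (S (F 128 L) (F 132 L)))))) (F 16467 (S (T (U (S (F 256 L) (F 768 L)) (F 768 L)) (U (S (F 256 L) (F 288 L)) (F 256 L))) (U (V (F 512 L) (F 800 (T L L))) (S (F 768 L) (F 768 L))))))))
noncomputable def v4_39 : Tr := (T (U (S (V (F 6155 (T (S (T (F 16 L) (F 16 L)) (S (F 16 L) (F 16 L))) (S (T L L) (S L (F 32 L))))) (T (S (F 2179 (V (S (F 258 L) (F 288 L)) (F 32 L))) (F 2123 (T L L))) (S (F 6209 (V L (S (F 17 L) (F 17 L)))) (F 2121 (V (F 2 L) (F 1 L)))))) (V (F 6155 (T (S L (F 32 L)) (S (S (F 32 L) (F 32 L)) (F 32 L)))) (F 2121 (T (S (S (F 512 L) (F 512 L)) (F 512 L)) (S (T (F 513 L) (F 3 L)) (S (F 513 L) (F 513 L))))))) (F 14338 (S (T (V (S (S (F 136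 L) (F 640 L)) (F 640 L)) (S (S (F 520 L) (F 520 L)) (S (F 640 L) (F 640 L)))) (V (S (F 512 L) (F 640 L)) (S (F 512 L) (F 512 L)))) (V (T (S (F 640 L) (F 656 L)) (S (F 640 L) (F 656 L))) (T (S (S (F 640 L) (F 656 L)) (F 656 (S L L))) (F 656 (S (S L L) (S L L)))))))) (U (S (V (T (F 6153 (S (S L L) (S L (F 32 L)))) (F 14337 (S (V L (S (F 16 L) (F 144 L))) (V (F 128 L) (S (F 144 L) (F 144 L)))))) (F 12353 (T (S (V (S (F 17 L) (F 129 L)) (F 1 L)) (V (S (F 129 L) (F 129 L)) (F 1 L))) (S L (S (F 1 L) (F 1 L)))))) (F 6217 (V (T (S (S (F 256 L) (F 1 L)) (S (F 257 L) (F 257 L))) (S (T (F 1 L) (F 1 L)) (S (F 1 L) (F 257 L)))) (T (S (T (F 1 L) (F 1 L)) (S (F 1 L) (F 1 L))) (S (T (F 1 L) (F 1 L)) (S (F 1 L) (F 1 L))))))) (F 14337 (S (V (T (S (F 512 L) (S (F 640 L) (F 656 L))) (S L (F 128 L))) (T (S (F 16 L) (F 16 L)) (S (F 17 L) (F 16 L)))) (T (V (S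 (F 640 L) (F 656 L)) (S (S (F 144 L) (F 656 L)) (F 144 L))) (V (S (F 144 L) (F 656 L)) (S (F 144 L) (F 144 L))))))))
noncomputable def v4_40 : Tr := (V (T (U (S (F 4103 (V (S (F 33 L) (F 33 L)) (T (F 64 L) (F 8 L)))) (F 12357 (V (S (F 256 L) (F 16 L)) (T (F 256 L) (F 256 L))))) (F 12295 (S (T L (S (F 260 L) (F 260 L))) (T L L)))) (F 12807 (U (S (V (S L L) (F 144 (T (S L L) (S L L)))) (T (V (F 16 L) (F 144 (S L L))) (V (F 16 L) (F 144 (S L L))))) (S (T (S (F 128 L) (F 144 L)) (S (F 128 L) (F 144 L))) (V (S (F 16 L) (F 16 L)) (F 144 (T L L))))))) (T (U (F 75 (S (V (T (S (F 18 L) (F 18 L)) (F 19 (S L L))) (T (S (F 16 L) (F 17 L)) (S (F 17 L) (F 17 L)))) (V (F 515 (T (S L L) (S (F 16 L) (F 16 L)))) (T (S (F 17 L) (F 19 L)) (F 19 (S L L)))))) (F 8203 (S (T (V (F 1 L) (F 73 (S L L))) (F 73 (V (S L (F 1 L)) (S L L)))) (T (V (F 65 L) (F 64 L))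 (V (F 65 L) (F 73 (S L (F 1 L)))))))) (F 12874 (U (S (V (T (S (F 128 L) (F 128 L)) (S L (F 128 L))) (T (S L L) (S L L))) (T (V (F 192 (S L L)) (S (F 128 L) (F 128 L))) (S (T L L) (S L L)))) (S (T (V (S (F 128 L) (F 192 L)) (S (F 128 L) (F 128 L))) (V (S (F 128 L) (F 192 L)) (S (F 128 L) (F 128 L)))) (T (V (F 128 L) L) (S L L)))))))
noncomputable def v4_41 : Tr := (S (V (T (S (F 2130 (V (S (F 264 L) (F 768 L)) (U (S (F 136 L) (F 640 L)) (F 640 L)))) (F 87 (U (T (F 16 L) (F 4 L)) (S (F 260 L) (F 260 L))))) (F 2131 (S (U (T (S (F 128 L) (F 384 L)) (S (F 128 L) (F 128 L))) (T (F 384 L) (F 384 L))) (U (V (F 256 L) (S (F 128 L) (F 128 L))) (S (F 384 L) (F 384 L)))))) (T (S (F 2059 (U (V (T (F 328 (S L L)) (F 64 L)) (T L (S (F 72 L) (F 80 L)))) (V (S (F 72 L) (F 320 L)) L))) (F 91 (U (T (V L (S (F 36 L) (F 36 L))) (V (F 4 L) (S (F 36 L) (F 36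 L)))) (T (S (F 4 L) (F 4 L)) (S (F 4 L) (F 36 L)))))) (F 2121 (S (U (V (T (F 512 L) L) (S (F 1 L) L)) (V (F 512 L) (S (F 515 L) (F 529 L)))) (U (V (T (F 640 L) (F 128 L)) (T (F 656 (S L L)) (F 16 L))) (S (S (F 512 L) (F 512 L)) (S (F 640 L) (F 640 L)))))))) (V (F 87 (T (S (U (S L L) L) (U (S L L) L)) (S (U (F 292 (T (S L L) (S L L))) (S (F 260 L) (F 260 L))) (T (S (F 260 L) (F 288 L)) (S (F 260 L) (F 260 L)))))) (F 89 (T (S (T (U (S (F 544 L) (F 544 L)) (F 512 L)) (U (F 548 (V L (S L (F 1 L)))) (F 516 L))) (T (F 800 (U (S L L) L)) (S (S (F 544 L) (F 548 L)) (F 544 L)))) (S (T (U (V (F 548 L) (F 36 L)) (F 804 (S L L))) (S (S (F 36 L) (F 36 L)) (S (F 36 L) (F 548 L)))) (F 548 (T (U (S (F 1 L) (F 1 L)) L) (V (S (F 1 L) (F 1 L)) (S L L)))))))))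
noncomputable def v4_42 : Tr := (T (U (S (V (F 963340 (T (U (S (T (F 1056 L) (F 32 L)) (T (F 1056 L) (F 1024 L))) (S (S (F 1056 L) (F 1024 L)) (S (F 1024 L) (F 1024 L)))) (U (S (T (F 32 L) (S (F 608 L) (F 576 L))) (T L (F 1537 (S L L)))) (S (T (F 1536 L) (F 1536 L)) (T (F 1025 L) (F 1539 (S L L))))))) v4_36) (F 1618184 v4_37)) (F 532749 v4_38)) (U (S (V (F 307470 (T (U (S (V (F 646 L) (F 651 (T (S L (F 128 L)) (S L L)))) (F 519 (V (S (F 17 L) (F 17 L)) (T (S (F 272 L) (F 272 L)) (S (F 256 L) (F 288 L)))))) (S (F 4738 (V (F 128 L) (T L (S (F 320 L) (F 320 L))))) (V (F 4231 L) (T (F 4231 L) (F 4619 L))))) (U (S (V (F 527 (T L (S L (F 1 L)))) (T (F 523 (S (S L (F 1 L)) L)) (S (S (F 521 L) (F 523 L)) (F 523 (S L (F 1 L)))))) (V (F 519 (S L L)) (F 523 (T (S (F 32 L) (F 33 L)) (S L (F 32 L)))))) (F 4611 (S (T (V (F 384 L) (S (F 128 L) (F 128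 L))) (V (F 128 L) (S (S (F 128 L) (F 128 L)) (F 128 L)))) (V (S (F 256 L) (F 384 L)) (T (S (F 384 L) (F 400 L)) (S (F 144 L) (F 400 L))))))))) (F 340290 v4_39)) (F 1093898 v4_40)) (F 270607 v4_41)))
noncomputable def v4_43 : Tr := (T (S (V (F 298 (U (S (T (F 130 L) (F 384 L)) (T (F 256 L) (F 256 L))) (F 387 (S (F 8 L) L)))) (U (T (F 269 (S (V (F 258 L) (F 2 L)) (T (F 258 L) (F 256 L)))) (S (F 2317 (T L L)) (S (F 269 L) (F 15 L)))) (F 2319 (S (F 1 L) L)))) (V (F 43 (U (T (S (F 16 L) (F 16 L)) (S (S (F 272 L) (F 272 L)) L)) (F 275 (T L (S L L))))) (F 15 (U (T (S (S (F 18 L) (F 146 L)) (F 146 (S L L))) (S (S (F 128 L) (F 128 L)) (S (F 128 L) (F 130 L)))) (T (F 146 L) (F 130 L)))))) (S (V (F 1071 (U (T (S (S (F 8 L) L) (S L L)) (S (S (F 1 L) (F 1 L)) (S L L))) (T (F 9 L) (F 3 L)))) (U (T (S (F 3077 (S (F 1 L) (F 32 L))) (F 1069 (T L L))) (F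 5157 (S (S (F 1 L) (F 1 L)) (S L (F 64 L))))) (F 7175 (T (F 64 L) (F 16 L))))) (F 45 (V (U (T (S (S (F 256 L) (F 256 L)) (S (F 256 L) (F 256 L))) (S (S (F 260 L) (F 260 L)) (S (F 260 L) (F 260 L)))) (T (F 256 L) (F 256 L))) (U (T (S (S L (F 256 L)) (S (F 256 L) (F 256 L))) (S (S (F 5 L) (F 260 L)) (F 292 (T (S (F 16 L) (F 16 L)) L)))) (F 259 (T (S (F 32 L) (F 4 L)) (F 36 (S L L)))))))))
noncomputable def treeV4 : Tr := (F 0xfffffffffffffffffffffffffffffffffffffffffffffffffffffffffffffffffffffffffffffffffffffffffffffffffffffffffffffffffffffffffffffffffffffffffffffffffffffffffffffffffffffffffffffffffffffffffffffffffffffffffffffffffffffffffffffffffffffffffffffffffffcffc3fffffffff3fffffffffffffffffffffffffffffffffffffffffffffffffffffffffffffffffffffffffffffffffffffe63ff9ffffe3f3fffff0e3fffbe33ffffffffffffffffffffffffffffffffffffffffffffffffffffffffffffffffffffffffffffffffffffff9b8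 (S (F 49795823615 v4_0) (V (F 297636221090 v4_21) (F 111938635077 (T (S (F 19711132 (V (F 174361 (U (T (U (F 388 (V (F 5 L) (S (F 7 L) (T L (F 3 (S (F 16 L) L)))))) (F 896 (S (F 19 L) (T (F 16 L) (F 1 L))))) (U (S (F 864 (T L L)) (V (F 960 L) (T (F 576 L) (F 576 L)))) (F 832 (S (F 3 L) (T (F 1 L) L))))) (F 962 (U (T (S (F 9 L) (F 8 L)) (S (F 9 L) L)) (F 9 L))))) (U v4_23 (F 32879 (T (F 1309 (U (S (S (F 1 L) L) (V (F 8 L) (S L L))) (F 1 L))) (S (F 1796 (V (F 80 L) (T (F 16 L) (F 64 L)))) (U (V (F 1321 (S (F 16 L) L)) (U (S (F 1292 L) (F 13 (T (F 5 L) L))) (F 1293 (S (F 33 L) L)))) (F 1295 L)))))))) (F 18924812 (V (F 1187977 (U v4_24 (F 31754 (T (F 36 (S (V L (S (F 34 L) (F 32 L))) (U (V L (S (F 33 L) (F 1 L))) (F 35 L)))) (S (F 5 (U (S (F 4 L) L) (F 7 L))) (U (S (F 5 (T (F 4 L) L)) (F 129 (V (F 18 L) (T (F 18 L) L)))) (F 165 L))))))) v4_28)))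 (S (F 136086672 v4_33) (F 138150021 (V (F 692237 v4_35) (U v4_42 (F 794895 v4_43))))))))))

theorem pV4 : chkV par treeV4 128 128 128 128 256 256 327680 655360 Lc = true := by decide +kernel

noncomputable def treeV5 : Tr := (F 0xfffffffffffffffffffffffffffffffffffffffffffffffffffffffffffffffffffffffffffffffffffffffffffffffffffffffffffffffffffffffffffffffffffffffffffffffffffffffffffffffffffffffffffffffffffffffffffffffffffffffffffffffffffffffffffffffffffffffffffffffffffffffffffffffffffffffffffffffffffffffffffffffffffffffffffffffffffffffffffffffffffffffffffffffffffffffffffffffffe3f3fffff9e3fffff7ffffffffffffffffffffffffffffffffffffffffffffffffffffffffffffffffffffffffffffffffffffffffff (S (F 1183 (V (F 1 (U (T (F 4 L) L) (F 7 L))) (U (T (F 3 L) L) (F 15 L)))) (V (F 532 (T (F 39 (S (F 3 (U (V L L) (F 3 L))) (V (U (U (S (F 2 L) L) (F 15 L))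 (F 15 L)) (F 1 (U (U (S (F 4 L) L) (F 7 L)) (F 7 L)))))) (S (F 225 (V (U (T L L) (F 15 L)) (F 4 (U (T L L) (F 7 L))))) (V (F 131 (U (U (U (T (S (F 18 L) (F 2 L)) (S (F 2 L) (F 8 L))) (F 18 L)) (F 31 L)) (F 31 L))) (U (U (U (S (F 160 L) (F 129 (T (F 50 L) (S (F 2 L) L)))) (F 167 L)) (F 255 L)) (F 255 L)))))) (F 1545 (T (F 51 (S (U (S (F 1 L) L) (F 7 L)) (V (U (U L (F 7 L)) (F 7 L)) (U (U (S L L) (F 7 L)) (F 7 L))))) (S (F 114 (U (U (T L L) (F 7 L)) (F 7 L))) (V (U (U (U (T (F 50 (S (F 1 L) (F 8 L))) (S (F 114 L) (S (F 18 L) L))) (F 114 L)) (F 127 L)) (F 127 L)) (U (U (U (T (F 18 (S (F 3 L) L)) (F 66 (S (F 3 L) (S (F 6 L) (F 4 L))))) (F 122 L)) (F 127 L)) (F 127 L)))))))))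

theorem pV5 : chkV par treeV5 128 128 128 128 256 256 655360 1310720 Lc = true := by decide +kernel

noncomputable def v6_0 : Tr := (S (F 470336019 (V (T (U (S (V (T (S (F 3 L) (T (F 3 L) (F 2051 L))) (F 262143 (S (K 0) (K 0)))) (K 18)) (V (T (T (S (F 3 L) L) (S (F 3 L) L)) (S (T (F 2051 L) (K 18)) (T (F 3 L) (K 18)))) (F 131071 (T (K 1) (K 0))))) (S (V (T (S (F 2051 L) (F 3 L)) (F 3 L)) (K 17)) (V (T (S (T (F 3 L) (F 67 L)) L) (S (F 3 L) (F 3 L))) (T (S (F 2115 L) (F 67 L)) (K 18))))) (U (K 18) (S (K 18) (V (T (S (K 18) (F 2051 L)) (K 18)) (K 18))))) (K 17))) (V (T (U (S (F 469811731 (V (T (V (S L L) (S (F 65 L) L)) (S (T (F 65 L) (F 67 L)) (T L (F 65 L)))) (T (S (F 66 L) (T (F 66 L) (F 67 L))) (K 19)))) (V (T (S (F 49683 L) (F 402702867 (T L L))) (F 402702867 (S (T L (F 129 L)) (T L L)))) (F 469811731 (T (S (T L (F 65 L)) (T L L)) (S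 L L))))) (S (F 469811731 (V (T (S L L) (S (F 65 L) L)) (T (S (F 67 L) (F 66 L)) (S (F 195 L) (F 195 L))))) (V (T (V (F 268485139 L) (F 503366163 (S L L))) (F 402702867 (V L L))) (F 469811731 (T (S L L) (S (F 193 L) (F 65 L))))))) (F 469811731 (U (S (V (T (S (K 19) L) (K 19)) (K 19)) (V (T (V (S L L) L) (K 19)) (K 19))) (S (T (V (S (F 67 L) (F 65 L)) (K 19)) (K 19)) (V (T (S L L) (S (K 19) (F 69 L))) (K 19)))))) (F 470598163 (T (U (F 65535 (S (K 0) (T (T (K 1) (K 0)) (K 0)))) (S (K 16) (V (T L (K 17)) (K 17)))) (K 17)))))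
noncomputable def v6_1 : Tr := (S (F 520667667 (V (T (U (K 15) (S (K 15) (V (T (U (K 8) (V (S (K 15) (T L (F 1536 L))) (K 15))) (K 16)) (K 16)))) (K 16)) (K 16))) (V (T (U (S (F 67682835 (V (T (U (S (K 19) (V (T (S (K 19) (T L (K 20))) (K 20)) (K 20))) (S (T (V (V (S (K 19) (F 14 L)) (K 20)) (K 20)) (K 20)) (V (T (S (T (F 3 L) (F 11 L)) (T L (F 3 L))) (F 1048575 (S (K 0) (K 0)))) (K 20)))) (K 20)) (K 20))) (V (T (U (S (V (T (S (T (F 67158547 L) (F 134791699 L)) (T (F 49683 L) (F 49683 L))) (S (K 2) (T (F 134267411 L) (K 2)))) (K 2)) (V (T (S (V (T (F 134267411 L) (F 201376275 L)) (F 49683 L)) (V (T (F 268485139 L) (F 134267411 L)) (F 49683 L))) (V (S (F 49683 L) (F 49683 L)) (F 536870907 (S (K 0) (K 0))))) (T (V (S (K 3) (F 134267411 L)) (K 2)) (K 2)))) (S (V (T (S (F 201376275 (T L L)) (T (F 67158547 L) (F 201376275 L))) (F 201376275 (V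 (S L L) (F 1048575 (S (K 0) (K 0)))))) (F 470336019 (T (S (K 18) (T L (K 18))) (K 18)))) (V (T (S (T (F 134267411 L) (F 134267411 L)) (T (F 49683 L) (F 49683 L))) (V (S (F 201376275 L) (F 134267411 L)) (F 201376275 (S L L)))) (F 201376275 (T (S (T L (F 129 L)) (T L L)) (K 20)))))) (U (F 536870907 (S (K 0) (K 0))) (S (K 2) (V (T (S (K 2) (F 134267411 L)) (K 2)) (K 2))))) (K 2))) v6_0) (F 536870907 (U (K 0) (S (K 0) (K 0))))) (K 2)))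
noncomputable def v6_2 : Tr := (T (S (F 536870374 (V (F 1 (T (K 1) (U (K 1) (S (F 2 (V (K 1) (K 0))) (K 1))))) (F 12 (T (K 1) (U (K 0) (S (K 0) (K 1))))))) (V (T (U (F 536866811 (S (K 1) (V (K 0) (K 1)))) (S (F 536870899 (V (T (K 0) (K 1)) (K 0))) (V (T (U (S (K 3) (V (T (U (S (K 2) (V (T (U (K 3) (S (K 2) (V (T (S (K 2) (V (T (V (F 49683 L) (K 2)) (K 2)) (K 2))) (K 2)) (K 2)))) (K 2)) (K 2))) (S (K 12) (V (T (U (S (K 12) (V (T (S (V (T (F 49683 L) (K 2)) (K 2)) (V (T (F 49683 L) (F 49683 L)) (F 536870899 (T (K 0) (K 1))))) (K 2)) (K 2))) (S (V (T (V (S (F 49683 L) (T (F 134267411 L) (F 134267411 L))) (K 3)) (K 2)) (K 2)) (V (T (S (V (T (F 49683 L) (F 134267411 L)) (T (F 134267411 L) (K 2))) (V (T (F 49683 L) (F 134267411 L)) (T (F 134267411 L) (F 134267411 L)))) (S (K 2) (V (T (F 134267411 L) (K 2)) (K 2)))) (K 2)))) (K 2)) (K 2)))) (K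 2)) (K 2))) v6_1) (K 2)) (K 2)))) (F 536870867 (U (F 1 (S (K 1) (V (K 0) (K 1)))) (S (F 4 (V (K 1) (K 0))) (F 1 (V (K 0) (K 1))))))) (F 536870391 (T (U (S (K 0) (K 1)) (S (V (K 1) (K 0)) (V (K 1) (K 0)))) (U (K 0) (S (K 0) (V (T (K 1) (K 0)) (K 0)))))))) (F 536821196 (S (F 39 (V (F 2 (T (U (K 1) (S (K 1) (V (K 0) (K 1)))) (K 1))) (K 1))) (F 80 (V (F 9 (T (U (F 3 (S (K 0) (K 0))) (S (F 1 (V (K 0) (K 1))) (F 2 (V (K 0) (T (K 1) (K 0)))))) (F 1 (U (F 2 (S (K 0) (K 0))) (S (V (K 0) (K 1)) (K 0)))))) (F 18 (T (K 1) (U (F 4 (S (K 1) (K 0))) (S (V (K 1) (F 2 (T (K 1) (K 0)))) (F 4 (V (K 0) (K 1))))))))))))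
noncomputable def v6_3 : Tr := (V (T (U (F 8388539 (S (V (K 0) (K 1)) (K 0))) (S (V (K 6) (T (S (T L (K 2)) (K 6)) (S (K 2) (T (V (K 6) L) (K 2))))) (F 8388543 (V (K 0) (T (K 0) (S (K 0) (K 0))))))) (U (F 8388539 (S (K 1) (V (K 0) (T (K 0) (K 1))))) (S (K 2) (V (K 6) (T (S (T (V (K 6) L) (K 2)) (K 6)) (S (K 2) (V (K 6) (T L (K 2))))))))) (T (U (S (K 2) (V (T (V (K 6) (S (T L L) (T (K 6) L))) (S (K 2) (V (K 6) (T L L)))) (T (S (V (T L L) (T L L)) (V (T L L) (T L L))) (S (K 2) (V (T L L) (T L (K 0))))))) (S (V (T (S (T (V L L) (K 2)) (V (T L L) (T L L))) (S (K 2) (T (V L L) (K 2)))) (T (S (T (V L L) (K 2)) (V (T L L) (T L L))) (S (K 2) (T (V L L) (K 2))))) (V (T (S (V (T L L) (T L L)) (V (K 6) (T L L))) (S (V (T L L) (T L L)) (V (T L L) (T L L)))) (T (S (V (T L L) (T L L)) (V (T L L) (T L L))) (S (V (T L L) (T L L)) (V (T L L) (T L L)))))))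 (U (K 2) (S (K 2) (V (T (S (T (V L L) (K 2)) (V (T L L) (T L L))) (S (K 2) (T (V L L) (K 2)))) (T (V (S (T L (K 0)) (T L L)) (K 0)) (K 0)))))))
noncomputable def v6_4 : Tr := (T (U (F 8388539 (S (V (K 0) (T (U (S (K 1) (K 0)) (S (K 1) (K 0))) (U (K 1) (S (K 1) (V (K 0) (K 1)))))) (F 2 (V (K 0) (T (K 0) (K 0)))))) (S (V (K 6) (T (U (S (V (K 6) (T (F 5030400 (S (T L (K 14)) L)) (V (F 4768256 L) (K 2)))) (F 8388543 (T (K 0) (S (K 0) (K 0))))) (F 5030400 (S (V (F 130047 (S (K 0) (K 0))) (T (S L L) (S L L))) (V (K 10) (T (S L (K 10)) (S L L)))))) (U (S (K 2) (V (K 6) (T (F 5030400 (S (T L (K 14)) (K 10))) (S (K 2) (F 4751360 L))))) (S (T (S (K 2) (V (K 6) (F 4768256 L))) (K 2)) (V (F 8388543 (S (K 0) (K 0))) (T (S (F 4768256 L) (F 4768256 L)) (S (F 4751872 L) (F 4751872 L)))))))) (V (K 6) (T (F 8388543 (U (K 0) (S (S (K 0) (K 0)) (K 0)))) (U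 (F 8388543 (S (T (K 0) (S (K 0) (K 0))) (K 0))) (S (V (K 6) (T (S (F 4768256 L) (K 6)) (S (F 4768256 L) (F 4768256 L)))) (F 8388543 (S (K 0) (K 0))))))))) (U (F 8387515 (S (K 2) (V (K 1) (T (F 1 (U (S (K 0) (K 1)) (S (V (K 1) (S (K 0) (K 1))) (K 1)))) (U (K 2) (S (K 2) (F 4 (V (K 0) (V (K 0) (K 1)))))))))) (S (V (F 8388539 (T (U (K 0) (S (K 1) (K 0))) (K 1))) (T (U (K 2) (S (K 2) (T (V (F 8388539 (S (K 1) (K 0))) (S (K 2) (F 4751872 L))) (K 2)))) (K 2))) (V (K 6) (T (U (S (V (K 6) (T (S (F 4751360 L) (F 4751360 L)) (S (K 2) (F 4751360 L)))) (V (K 6) (T (K 6) (S (F 4751360 L) (K 6))))) (S (V (F 8388543 (S (K 0) (K 0))) (T (S (F 4751872 L) (F 4767744 L)) (S (F 6848512 L) (F 4882432 L)))) (V (K 6) (T (S (F 4898816 L) (K 6)) (S (F 6979584 L) (F 4898816 L)))))) (U (S (K 2) (V (K 6) (T (S (F 4751360 L) (F 4882432 L)) (F 6981632 (S (K 14) (T L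 (K 6))))))) (S (V (F 6981632 (S (K 14) (T (K 10) L))) (T (S (K 2) (F 6979584 L)) (K 2))) (V (F 8388543 (S (K 0) (K 0))) (T (S (F 6979584 L) (F 6979584 L)) (F 6981632 (S L (T L L))))))))))))
noncomputable def v6_5 : Tr := (T (U (S (V (T (S (V L (T L L)) (V L (T L L))) (S (V L L) (V L (T L L)))) (T (S (V (T L (F 2621440 L)) L) (V (T L L) L)) (S (T L (K 2)) (V L L)))) (V (T (S (V L (T L L)) (T L (V (F 49152 L) L))) (S (V (T L L) (T L L)) (V (T (F 49152 L) L) (T L L)))) (T (S (V (T L L) (T L L)) (V (T L L) (T L L))) (S (V (T L L) L) (V (T L L) (T L L)))))) (S (V (T (S (T L L) (T L L)) (S (T L L) (T L L))) (T (S (T L L) (T L L)) (S (T L (F 6291456 L)) (T L L)))) (V (T (S (T L L) (T L L)) (S (T L L) (T L L))) (T (S (T L L) (T L L)) (S (T L L) (T L L)))))) (U (S (V (T (S (K 2) (V L L)) (K 2)) (T (S (K 2) (T L (K 0))) (K 0))) (V (T (S (V (T L L)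 (T L (F 2621440 L))) (V (T L L) (T L L))) (S (T L (K 2)) (V L L))) (T (S (V L (K 0)) (V (T L (F 6291456 L)) L)) (F 8388606 (S (K 0) (K 0)))))) (S (V (T (S (T L L) (T L L)) (S (K 2) (T L (F 2621440 L)))) (T (S L (T L (F 6291456 L))) (K 0))) (V (T (S (T L L) (T L L)) (S (T L L) (T L L))) (T (S (T L L) (T L L)) (S (T (F 6291456 L) (K 0)) (T (F 6291456 L) (K 0))))))))
noncomputable def v6_6 : Tr := (S (V (T (U (S (K 2) (V (F 8388539 (T (S (K 1) (K 0)) (K 1))) (T (S (K 2) (T L (K 2))) (K 2)))) (S (K 2) (V (T (V (K 6) (S (F 573952 L) (F 573952 L))) (S (K 2) L)) (T (S (T (F 557056 L) L) (T (F 49152 L) L)) (S (K 2) (T L L)))))) (K 2)) (T (U (S (K 2) (V (T (S (K 2) (T L (K 2))) (K 2)) (T (S (K 2) (T L L)) (K 2)))) (S (V (K 2) (T (S (K 2) (T (F 1318912 L) (K 2))) (K 2))) (V (T (S (T L L) (T L L)) (S (K 2) (T L L))) (T (S L (T L L)) (S (K 2) (T (F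 2105344 L) (F 2105344 L))))))) (F 8388603 (U (K 0) (S (K 0) (K 0)))))) (V (T (U (S (V (K 6) (T (T (S L L) (S L L)) (S (T L (K 2)) (T L L)))) (V (K 6) (V (K 6) (T (S L (K 6)) (S L L))))) (S (V (T (K 6) (V (K 6) (S (F 49664 L) (K 6)))) (T (V (S (F 49664 L) (F 4243456 L)) (S L (F 49152 L))) (S (T L L) (T L L)))) (V (K 6) (T (S (T (F 4243456 L) (F 49152 L)) (T (F 4243968 L) (F 4243456 L))) (V (S (F 49152 L) (K 6)) (S L L)))))) (U (S (V (F 8388539 (T (S (K 1) (K 0)) (K 1))) (T (S (K 2) (T L (K 2))) (K 2))) (V (K 6) (T (S (T L L) (T L L)) (S (T L L) (T L L))))) (S (V (T (V (K 6) (S (F 557056 L) (F 4227072 L))) (S (K 2) (T (F 4227072 L) (F 557056 L)))) (T (S (T L L) (T L L)) (S (K 2) (T L L)))) (V (T (K 6) (S (T (K 6) (F 4227072 L)) (K 6))) (T (S (T L L) (T L L)) (S (T L L) (T L L))))))) v6_5))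
noncomputable def v6_7 : Tr := (V (T (U (S (V (T (S (K 2) (T (F 4768256 L) (F 4768256 L))) (K 2)) (T (S (F 786432 L) L) (F 8388603 (S (K 0) (K 0))))) (V (T (S (T (F 5030400 L) (F 4768256 L)) (T (F 5030400 L) (F 4768256 L))) (S (T (F 4768256 L) (F 4751872 L)) (T (F 4768256 L) (F 4767744 L)))) (T (S L L) (S L L)))) (S (V (T (F 5030400 (S (T L L) (T L L))) (S (F 4751872 L) (F 4751872 L))) (T (S (F 4997120 L) (F 4980736 L)) (S (F 7077888 L) (F 4980736 L)))) (V (T (S (F 4768256 L) (F 4768256 L)) (S (F 4767744 L) (F 4767744 L))) (T (S (F 4751360 L) (F 4243456 L)) (T (F 4718592 L) (F 4718592 L)))))) (U (S (K 2) (V (S (K 2) (T (F 557056 L) (T (F 4751360 L) (K 2)))) (T (S (K 2) L) (K 2)))) (S (V (T (S (K 2) (F 4751872 L)) (K 2)) (T (S (K 2) (F 6815744 L)) (K 2))) (V (T (S (F 4751360 L) (F 4751360 L)) (S (F 4751360 L) (F 4751360 L))) (T (S (F 6815744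 L) (F 4718592 L)) (S (F 6815744 L) (F 6815744 L))))))) (T (U (S (V (T (S (F 786432 L) L) (S (K 2) (F 2621440 L))) (T (S (V (F 7086080 L) (F 8134656 L)) (T (F 3416064 L) (F 7872512 L))) (F 8134656 (S (K 14) (T L (K 14)))))) (V (T (S L L) (S L L)) (T (S L L) (S (T (F 6823936 L) (F 7872512 L)) (F 6291456 L))))) (S (V (T (S (F 7077888 L) (F 4980736 L)) (S (F 8134656 (T L (K 14))) (T (F 7086080 L) (F 8134656 L)))) (F 8134656 (T (S (T L L) (T L L)) (S L (T L L))))) (V (T (S (F 4718592 L) (F 4718592 L)) (S (F 6815744 L) (F 4718592 L))) (T (T (F 4456448 L) (S (F 8126464 L) (F 8126464 L))) (V (F 6815744 L) (F 8134656 (S L L))))))) (U (S (K 2) (V (T (S (F 2621440 L) (T (F 6815744 L) (F 6815744 L))) (F 8388603 (S (K 0) (K 0)))) (T (S (F 8134656 (T L (K 14))) (T (F 7872512 L) (F 7872512 L))) (K 0)))) (S (F 8134656 (T (S (K 14) (V (T L (K 14)) L)) (K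 14))) (V (T (S (F 6823936 L) (F 6815744 L)) (S (F 7872512 L) (F 6823936 L))) (T (S (F 8134656 L) (F 7872512 L)) (F 8134656 (S L L))))))))
noncomputable def v6_8 : Tr := (T (U (S (V (T (S (F 4243968 L) (F 4243968 L)) (S (T (F 4768256 L) (F 4243968 L)) (F 4243456 L))) (T (V (S (F 4243968 L) (F 4243968 L)) L) (V (S (F 4751360 L) (F 4243456 L)) L))) (V (T (K 6) (S (F 4243456 L) (K 6))) (T (S (T (F 4243968 L) (F 4243968 L)) (T (F 4244224 L) (F 4243968 L))) (S L (T (F 4243456 L) (F 4243456 L)))))) (S (V (T (S (F 4768256 L) (F 4768256 L)) (S (F 4767744 L) (F 4243968 L))) (T (S (F 4243456 L) (F 4243456 L)) (S (F 4227072 L) (F 4227072 L)))) (V (T (F 4768512 (S L (K 10))) (S (F 4768256 L) (F 4244224 L))) (T (S (F 4243456 L) (F 4243968 L)) (S (F 4243456 L) (F 4243456 L)))))) (U (S (V (T (V (F 4227072 L) L) (S L L)) (T (S L L) (S L L))) (V (T (V (K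 6) (S (F 4767744 L) (F 4767744 L))) (V (F 4227072 L) L)) (T (V (S (F 4751360 L) (F 4243456 L)) L) (S L (T (F 4751360 L) (F 4751360 L)))))) (S (V (T (S (F 4751360 L) (F 4243456 L)) (S (F 4751360 L) (F 4751360 L))) (T (S (F 4227072 L) (F 4227072 L)) (S (T (F 6848512 L) (F 6848512 L)) (F 4227072 L)))) (V (T (S (F 4767744 L) (F 4374528 L)) (S (F 4751360 L) (F 4243456 L))) (T (S (F 4227072 L) (F 4227072 L)) (S (F 4227072 L) (F 4227072 L)))))))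
noncomputable def v6_9 : Tr := (T (U (S (V (T (S L L) (S L L)) (T (S L (T (F 6291456 L) (F 6291456 L))) (S L L))) (V (T (S L L) (S (T (F 4227072 L) (F 4227072 L)) (T (F 4227072 L) (F 4227072 L)))) (T (S (T L L) (T L L)) (S L (T L (F 6291456 L)))))) (S (V (T (S L L) (S (F 4718592 L) L)) (T (S (F 6291456 L) L) (S (F 6815744 L) (F 6291456 L)))) (V (T (V (S (F 4767744 L) (F 4767744 L)) L) (S L L)) (T (S L L) (S (T (F 7340032 L) (F 7864320 L)) L))))) (U (S (V (T (S (T (F 6291456 L) (F 6815744 L)) L) (S (F 2621440 L) L)) (T (V L (F 6291456 L)) (V (S (F 7872512 L) (F 7872512 L)) (K 0)))) (V (T (S L (T (F 4227072 L) (F 4227072 L))) (V L (S (F 6815744 L) (F 6815744 L)))) (T (S (T (F 6291456 L) (F 6815744 L)) (T (F 6291456 L) (F 6815744 L))) (V L (F 6291456 L))))) (S (V (T (S (T (F 6848512 L) (F 7864320 L)) (F 6291456 L)) (S (F 6815744 L) (F 6815744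 L))) (T (S (F 7864320 L) (F 6815744 L)) (S (F 7872512 L) (F 7864320 L)))) (V (T (S L L) (S (F 6291456 L) (F 6291456 L))) (T (S (F 6291456 L) (F 6291456 L)) (S (F 7864320 L) (F 6815744 L)))))))
noncomputable def v6_10 : Tr := (V (T (U (S (V (T (S (T (F 4751360 L) (K 2)) L) (S (K 2) (T (F 6848512 L) (K 2)))) (S (K 2) (T (T (F 6815744 L) (F 6815744 L)) (T (F 6848512 L) (K 2))))) (V (T (S L (F 4227072 L)) (S (F 557056 L) (F 163840 L))) (T (S L L) (S (F 2621440 L) (F 2621440 L))))) (S (V (T (S (T (F 6979584 L) (F 6979584 L)) (F 4751360 L)) (S (F 6848512 L) (F 6848512 L))) (T (S (F 6815744 L) (F 6815744 L)) (S (F 6856704 L) (F 6848512 L)))) (V (T (S (F 4751360 L) (F 4358144 L)) (T (F 4751360 L) (F 6981632 (S L L)))) (T (V (F 4227072 L) (S (F 6979584 L) (F 6979584 L))) (S (F 6848512 L) (T (F 6979584 L) (F 6981632 L))))))) (U (S (K 2) (V (T (S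 (F 2654208 L) (F 2654208 L)) (F 6981632 (S (K 14) (T L (K 6))))) (T (S (F 6817792 L) (F 6815744 L)) (K 0)))) (S (T (V (S (K 2) (F 6848512 L)) (F 6815744 L)) (K 2)) (V (T (S (F 6848512 L) (F 6981632 (T L L))) (F 6981632 (S L (T L L)))) (T (S (F 6850560 L) (F 6979584 L)) (F 6981632 (S (K 16) L))))))) (T (U (S (V (T (S (K 2) (T (F 6823936 L) (F 7872512 L))) (K 0)) (K 0)) (V (T (S (F 2621440 L) L) (S (K 0) (F 6815744 L))) (F 8388606 (S (K 0) (K 0))))) (S (V (T (S (F 7872512 L) (F 7864320 L)) (F 8003584 (S (K 16) L))) (F 8388606 (S (K 0) (K 0)))) (V (T (S (F 6815744 L) (F 6815744 L)) (S (F 7995392 L) (F 6979584 L))) (T (S (F 7872512 L) (F 7995392 L)) (K 0))))) (F 8388606 (U (K 0) (S (K 0) (K 0))))))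
noncomputable def v6_11 : Tr := (S (V (F 5030400 (T (U (K 14) (S (K 14) (V (F 113663 (T (U (K 0) (S (K 0) (K 1))) (K 0))) (T (U (K 14) (S (K 14) (T (V L (S (K 14) L)) (K 14)))) (K 14))))) (K 14))) (T (U (K 2) (S (K 2) (V (T (U (K 2) (S (K 2) (V (T (V (F 7127552 (S (K 13) L)) (F 4997632 L)) (K 2)) (T (S (K 2) (F 4981248 L)) (K 2))))) (K 2)) (T (U (F 8388603 (S (K 0) (K 0))) (S (K 2) (V (T (V (F 7086080 L) (F 8135168 (S (K 13) L))) (K 2)) (F 8134656 (T (S L L) L))))) (K 2))))) (K 2))) (V v6_4 (T (U v6_6 (S v6_7 (V v6_8 v6_9))) (U (S (K 2) (V (T (U (S (K 2) (V (F 8388539 (T (S (K 1) (K 0)) (K 1))) (T (S (K 2) (T L (K 10))) (K 2)))) (S (K 2) (V (T (V (K 6) (S (F 557056 L) (F 4227072 L))) (S (T (F 557056 L) (K 2)) (T (F 163840 L) (F 2654208 L)))) (T (S (T L (F 2621440 L)) (T L (F 2129920 L))) (S (K 2) (T (F 2129920 L) (F 2654208 L))))))) (U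 (K 2) (S (K 2) (V (F 8387579 (S (K 1) (K 0))) (T (S (K 0) (F 2621440 L)) (K 0)))))) (T (U (S (K 0) (V (T (S (K 0) (T L (K 0))) (K 0)) (K 0))) (S (K 2) (V (T (S (T (F 2621440 L) (K 0)) (T (F 2621440 L) (F 2621440 L))) (K 0)) (K 0)))) (K 0)))) (S (V (T (U (K 2) (S (K 2) (T (S (K 2) (V (T (F 7110656 L) (K 2)) (F 6848512 L))) (K 2)))) (K 2)) (F 8134656 (T (U (K 14) (S (K 14) (V (T (S (K 14) L) (K 16)) (K 16)))) (K 16)))) v6_10)))))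
noncomputable def v6_12 : Tr := (T (U (F 8388539 (S (K 1) (V (U (T (K 0) (K 1)) (T (K 0) (K 1))) (U (K 1) (T (S (K 1) (V (T (K 0) (K 1)) (K 1))) (K 1)))))) (S (F 8388603 (V (K 0) (T (U (K 0) (S (K 0) (K 0))) (K 0)))) (V (F 8387515 (T (F 1 (U (S (K 0) (K 1)) (S (V (K 1) (T (U (K 0) (S (K 0) (K 1))) (K 0))) (K 1)))) (U (S (K 2) (F 4 (V (K 0) (K 1)))) (S (K 2) (V (K 1) (T (F 1 (U (K 1) (S (K 0) (K 1)))) (K 0))))))) (T (U (S (K 2) (V (F 8384443 (T (U (K 0) (F 1 (S (V (K 1) (K 0)) (K 1)))) (F 1 (U (K 0) (S (K 0) (V (K 1) (T (K 1) (K 0)))))))) (T (U (S (K 2) (V (F 8384507 (T (K 0) (K 1))) (T (U (K 2) (S (K 2) (V (F 8388539 (T (S (K 1) (K 0)) (K 1))) (T (S (K 2) (U (K 2) (V (T L L) (T L L)))) (K 2))))) (K 2)))) (S (K 2) v6_3)) (K 2)))) v6_11) (F 6981632 (U (K 14) (S (K 14) (V (T (U (F 114623 (S (K 0) (K 1))) (S (K 14) (V (F 113599 (T (F 4 (U (K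 0) (S (S (K 1) (K 0)) (K 0)))) (K 2))) (T (U (K 6) (S (K 14) (T (V (S L (K 10)) (S L L)) (K 6)))) (K 14))))) (K 14)) (T (U (K 14) (S (K 16) (V (T (U (K 14) (S (K 14) (V (T (S (K 14) L) (K 16)) (K 16)))) (K 16)) (K 16)))) (K 16)))))))))) (F 8387579 (U (K 1) (S (K 1) (V (T (U (K 1) (S (K 1) (K 0))) (K 1)) (K 1))))))
noncomputable def v6_13 : Tr := (S (F 1111606255681535 (V (K 2) (U (T (U (F 2 (S (K 0) (F 1 (V (K 1) (K 0))))) (F 8 (S (F 1 (V (K 0) (K 1))) (F 2 (V (K 1) (K 0)))))) (F 8 (U (S (F 1 (V (K 0) (K 1))) (F 2 (V (K 1) (K 0)))) (S (F 1 (V (K 0) (K 1))) (F 2 (V (K 1) (K 0))))))) (T (S (F 12 (V (K 1) (K 0))) (F 2 (V (K 1) (F 2 (T (K 1) (K 0)))))) (F 8 (S (F 1 (V (K 0) (K 1))) (F 2 (V (K 1) (K 0))))))))) (V (F 1312066617649834 (U (F 536870342 (T (U (S (F 11 (V (K 0) (K 1))) (F 22 (V (K 0) (T (K 0) (K 1))))) (F 18 (S (F 4 (V (K 1) (K 0)))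 (F 2 (V (F 1 (T (K 0) (K 0))) (T (K 1) (K 0))))))) (U (S (F 11 (V (K 0) (K 1))) (F 28 (V (K 0) (K 1)))) (S (F 11 (V (K 0) (K 1))) (F 28 (V (F 2 (T (S (K 0) (K 0)) (K 0))) (K 1))))))) v6_2)) (F 2070013902411093 (U (F 8387515 (T (F 1 (U (S (K 0) (V (T (K 1) (U (K 0) (S (K 0) (K 1)))) (K 0))) (S (K 0) (V (T (K 1) (S (K 0) (K 1))) (K 0))))) (F 2 (U (K 0) (S (K 0) (V (T (S (K 0) (K 1)) (K 0)) (K 0))))))) (T (S (F 8388595 (V (K 1) (T (U (K 0) (S (K 0) (K 1))) (F 1 (U (K 0) (S (K 0) (K 0))))))) (V (F 8387515 (T (F 1 (U (K 1) (S (V (K 1) (T (K 1) (K 0))) (K 1)))) (U (F 1 (S (K 0) (K 1))) (S (K 2) (F 4 (V (K 0) (T (K 0) (K 1)))))))) v6_12)) (F 8387514 (S (K 2) (V (T (F 8 (U (F 2 (S (K 1) (K 0))) (S (K 0) (V (F 1 (T (K 1) (K 0))) (F 2 (T (K 0) (K 1))))))) (F 2 (U (S (K 1) (F 2 (V (K 0) (K 1)))) (F 1 (S (K 1) (V (K 0) (K 1))))))) (K 2)))))))))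
noncomputable def treeV6 : Tr := (F 0xfffffffffffffffffffffffffffffeefffffffffffffffffffffffffffffffffffffffffffffffffffffffffffffffffffffffffffffe4ffffffffffffffffffffd75fffffffd57fffffffffffffffff87fffffffffffffffffffffffffffffffffffffffffffffffffffffffffffffffffffffffffffffff3fcffebc7ffffff93fffffffffffffffffffffffffffffffffffffffffffffffffffffffffffffffffffffffffffffffffffffe67ffffffff3f3fffff9e3fffff33fbffffffffffffffffffffffffffffffffffffffffffffffffffffffffffffffffffffffffffffffffffff9ff v6_13)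

theorem pV6 : chkV par treeV6 128 128 384 128 256 256 0 163840 Lc = true := by decide +kernel

noncomputable def v7_0 : Tr := (S (F 3588 (V (F 33 (U (T (S (V (U (K 1) L) (U (K 2) (S (K 2) L))) (V (U (K 3) (S L (K 3))) (U (K 1) (T (K 4) L)))) (F 49 (S (F 1 (V (K 0) (K 1))) (F 2 (V (K 1) (K 0)))))) (T (S (S L L) (V L (F 32 L))) (S (F 33 (V L L)) (V (S (F 33 L) (F 1 L)) (F 33 L)))))) (U (F 235 (T (K 1) (K 0))) (T (S (V L (K 4)) (V (F 3 L) (F 138 L))) (F 162 (S (K 1) (S (K 1) L))))))) (V (U (F 3848 (T (S (V (K 2) (U (F 121 (T (K 1) (K 0))) (T (F 121 (V (F 2 (S (K 0) (K 0))) (K 1))) (S L (K 2))))) (K 2)) (F 123 (S (K 0) (K 0))))) (T (S (F 3852 (V (T L (S (F 8 L) (K 2))) (T L L))) (V (F 3356 (T (U (K 3) L) (F 55 (U (K 0) (S (K 0) (K 0)))))) (T (F 268 (U (S (T (F 6 L) (F 5 L)) (V (K 5) (S (F 5 L) L))) (F 7 (V L L)))) (F 2308 (U (F 495 (S (K 0)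 (K 0))) (V (F 64 L) (F 3 L))))))) (F 3725 (S (V (K 2) (V (S (F 1 L) (K 2)) L)) (V (K 2) (T (U (K 2) (S (F 1 L) (K 2))) (K 2))))))) (F 2564 (U (T (S (K 3) (V (F 262 (U (K 4) (T (K 4) (S (T (K 4) L) (K 3))))) (F 261 (U (K 4) (T (K 4) L))))) (F 261 (S (F 58 (V (K 1) (K 0))) (V (F 55 (U (K 0) (T (S (K 0) (K 0)) (K 0)))) (U (K 0) (S (F 2 L) L)))))) (T (S (F 261 (V (S (F 34 L) (F 32 L)) L)) (V (T (S (F 7 L) (V (S (F 7 L) (F 2 L)) (F 263 L))) (F 262 (V (S (F 34 L) L) (F 32 L)))) (F 261 (S (F 32 L) L)))) (S (F 261 (S (F 2 L) L)) (V (S (F 261 L) (T (F 260 L) (F 261 L))) (F 325 L))))))))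
noncomputable def v7_1 : Tr := (V (F 5131 (T (S (F 1180 (V (K 2) (U (T (S (V (K 2) (U (K 2) (S L (K 2)))) (K 2)) (K 2)) (T (S (V L (F 8 L)) (V (K 2) L)) (S (V (K 2) (F 32 L)) (K 2)))))) (F 42 (V (F 132 (U (T (S (K 2) (V (U (K 1) L) (K 2))) (S (K 2) (V (S (K 2) L) (K 2)))) (T (S (F 9 (S L L)) (S (F 8 L) L)) (S (K 2) (S (F 8 L) L))))) (F 72 (U (K 2) (T (S (F 59 (V (K 0) (S (K 0) (K 0)))) (V (S (F 1 L) (F 9 L)) (T (F 2 L) (K 2)))) (K 2))))))) (F 307 (S (F 55 (V (K 0) (U (K 0) (T (S (K 0) (K 0)) (K 0))))) (V (U (K 3) (T (S (K 3) (V (F 16 L) (K 3))) (S (K 3) (V (F 2 L) (K 3))))) (K 3)))))) (F 10816 (T v7_0 (F 3725 (S (V (U (K 4) (T (S (F 3 (V L (K 1))) (V (F 27 (S (K 0) (K 0))) (F 1 L))) (F 3 (S (F 4 (V (K 1) (K 0))) (F 2 (V (K 0) (K 1))))))) (U (K 3) (T (S (K 3) (S (K 3) L)) (K 3)))) (V (U (K 2) (T (S (V (K 2) (S (F 1 L) (K 2))) (K 2)) (F 27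 (S (V (K 0) (S (K 0) (K 0))) (K 0))))) (U (F 11 (T (S (K 0) (V (K 1) (K 0))) (K 0))) (T (S (S L L) (V (S L (S L (K 2))) L)) (S (S (F 2 L) (F 2 L)) (V (S (F 2 L) (K 2)) (F 2 L)))))))))))
noncomputable def treeV7 : Tr := (F 0xfffffffffffffffffffffffffffffffffffffffffffffffffffffffffffffffffffffffffffffffffffffffffffffffffffffffffffffffffffffffffffffffffffffffffffffffffffffffffffffffffffffffffffffffffffffffffffffffffffffffffffffffffffffffffffffffffffffffffffffffffffefffffffffffffbfffffffffffffffffffffffffffffffffffffffffffffffffffffffffffffffffffffffffffffffffffffff3ffffffffffffffff9e3fffff3ffbfffffffffeffffffffffffffffffffffffffffffffffffffffffffffffffffffffffffffffffffffffff9fd v7_1)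

theorem pV7 : chkV par treeV7 64 64 384 128 256 256 163840 327680 Lc = true := by decide +kernel

noncomputable def v8_0 : Tr := (U (T (S (F 535 (V (U (K 1) (T (K 4) L)) (U (K 1) (S (F 8 L) L)))) (V (U (F 1791 (T (K 0) (K 0))) (T (F 19 (S (V (S (F 64 L) (F 64 L)) (K 2)) (V (S L (F 72 (T L (F 32 L)))) (S (F 1 L) L)))) (S (F 21 (S (F 128 L) L)) (V (F 17 L) (F 21 L))))) (F 535 (U (K 1) (T (K 1) (S L (K 1))))))) (S (F 535 (V (U (F 60 (T (K 0) (K 1))) (S (F 16 L) L)) (K 5))) (V (U (F 1727 (T (K 0) (S (V (K 1) (K 0)) (K 1)))) (T (S (F 21 L) (S (F 21 L) (F 16 L))) (F 533 (S L (V (K 3) L))))) (U (K 3) (T (F 21 (S (F 130 L) (S (F 130 L) L))) (F 517 (S (K 6) (S (K 6) L)))))))) (T (F 19 (S (F 130 (V (T (S (F 32 L) L) L) (S (F 36 L) (F 32 L)))) (V (T (U (S (S (F 192 L) (F 128 L)) (V (S (F 65 L) (F 1 L)) (F 128 L))) (S (F 129 L) (S (F 129 L) L))) (S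 (F 128 L) (V (S (F 129 L) (F 128 L)) (F 129 L)))) (S (F 130 (S L L)) (T (S (F 129 L) (F 128 L)) (F 128 L)))))) (S (F 535 (V L L)) (V (F 21 (T (S (F 130 L) (S (F 128 L) L)) (S (F 130 L) (S (F 2 L) L)))) (F 519 (S (F 32 L) (T (F 32 L) L)))))))
noncomputable def v8_1 : Tr := (U (F 37064 (T (S (F 2037 (V (U (K 1) (T (T (K 0) (K 1)) (K 1))) (K 1))) (V (U (F 2045 (T (U (K 0) (S (K 0) (T (T (K 0) (K 0)) (K 0)))) (K 0))) (T (S (F 176 (V (T L (F 3 L)) (K 6))) (T (S (F 1024 L) (V L (F 1680 L))) (U (F 1024 L) (F 1792 L)))) (F 1824 (V (S (F 5 L) (T (S (F 5 L) L) (F 1 L))) (K 5))))) (K 1))) (F 2040 (S (F 4 (V (S (K 0) (K 1)) (K 0))) (F 3 (V (U (K 0) (S (K 0) (K 0))) (K 0))))))) (T (F 32843 (S (F 1632 (V (F 18 (T (S (S L L) (U (S L L) L)) (S L (S L L)))) (U (K 5) (S (F 16 L) L)))) (V (F 644 (U (T (S (S (F 9 L) (F 1 L)) (V (T (S (F 1 L) L) (F 1 L)) (S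 (F 9 L) (F 1 L)))) (S (F 13 L) (S (F 13 L) (F 1 L)))) (T (S (S (F 13 L) (F 1 L)) (T (S (F 1 L) (F 1 L)) (F 1 L))) (S (F 13 L) (F 1 L))))) (T (S (F 1572 (V (F 2 L) (F 4 L))) (F 1156 (U L (F 1 L)))) (F 1604 (S (F 4 L) (T (F 2 L) (F 2 L)))))))) (F 4439 (S (V (T (F 353 (S L L)) (F 33 L)) (S (F 33 L) (F 32 L))) (V (T (F 321 (S (S (F 2 L) (F 2 L)) (S (F 2 L) L))) (S (F 353 L) (F 65 L))) (T (S (F 289 L) (F 33 L)) (S (F 97 L) (F 33 L))))))))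
noncomputable def v8_2 : Tr := (V (U (T (U (S (F 25667 (V (T (S (K 1) (T L (K 1))) (K 1)) (K 0))) (V (T (S (T (F 1091 L) (F 9283 L)) (V (T (F 1091 L) (F 9283 L)) (F 9411 (S (K 1) L)))) (V (S (F 9411 L) (F 9283 L)) (K 20))) (K 19))) (S (F 25667 (V (T (S (F 9216 L) L) (S (F 27648 L) (F 9216 L))) (K 1))) (V (T (S (S (F 9411 L) (F 9283 L)) (T (F 1091 L) (F 9283 L))) (F 9411 (S L (S L L)))) (F 25803 (T (T L (K 1)) (K 0)))))) (F 1048575 (U (K 0) (S (K 0) (S (K 0) (K 0)))))) (T (S (F 1131 (V (T (S (F 4224 L) (S (F 8320 L) L)) (F 28800 (S (F 16 L) (S (F 16 L) L)))) (F 21696 (T (S (F 1 L) L) (F 1 L))))) (V (U (T (S (F 1131 L) (F 1099 L)) (F 9423 (S (F 2048 L) (S (F 4096 L) L)))) (F 1279 (T (S L (S L L)) (T L (F 128 L))))) (F 25839 (T (S L (S L L)) (S (F 1536 L) (F 1024 L)))))) (F 9439 (S (V (T (T (F 2112 L) (F 3136 L)) (F 3136 L)) (F 3648 (S (F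 5 L) L))) (V (T (S (S (F 3136 L) (F 3072 L)) (S (F 3072 L) (F 1024 L))) (S (F 3136 L) (F 3072 L))) (F 3648 (U (K 7) (S (F 4 L) L)))))))) (F 26351 (U (K 1) (T (S (K 1) (T (V L (K 1)) (K 1))) (F 1022 (S (K 0) (K 0)))))))
noncomputable def v8_3 : Tr := (S (V (T (U (S (V (T (F 1091 L) (F 9283 L)) (F 1091 L)) (V (T (S (F 1091 L) (F 1091 L)) (S (F 1219 L) (F 1219 L))) (T (F 1091 L) (F 9411 L)))) (S (T (S (F 1219 L) (F 1091 L)) (F 1091 L)) (V (T (S (F 1123 L) (F 1123 L)) (F 1091 L)) (S (F 1219 L) (F 1091 L))))) (S (V (S (F 9283 L) (F 9283 L)) (K 20)) (V (T (S (F 9283 L) (F 1095 L)) (F 9283 L)) (F 1048575 (S (K 0) (K 0)))))) (F 9411 (T (T (V (S (K 1) L) (K 0)) (K 1)) (K 0)))) (V (T (U (S (V (T (S (F 1089 L) (F 1025 L)) (S (F 1091 L) (F 1089 L))) (T (S (F 1219 L) (F 1091 L)) (F 1091 L))) (V (T (S (F 1025 L) L) (S (F 1025 L) (F 1025 L))) (T L (S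 (F 1219 L) (F 1093 L))))) (S (V (T (S (F 1091 L) (F 1091 L)) (S (F 1095 L) (F 1095 L))) (T (F 1091 L) (F 1219 L))) (T (V L (F 1025 L)) (V (F 1025 L) (F 1091 L))))) (U (S (V (T (F 1089 L) (F 1219 L)) (F 1048575 (S (K 0) (K 0)))) (V (T (S (F 1093 L) (F 1029 L)) (F 1089 L)) (T (F 1217 L) (K 20)))) (S (V (T (F 1091 L) (F 1223 L)) (F 1223 (S L L))) (V (T (F 1089 L) (F 1221 L)) (S (F 1223 L) (F 1221 L)))))) (T (U (S (T (S (F 25795 L) (F 1219 L)) (K 20)) (V (T (F 1217 L) (F 1223 L)) (K 20))) (S (T (F 1219 L) (F 9415 L)) (T (T (F 1219 L) (F 1223 L)) (F 1231 (S (F 128 L) L))))) (F 1048575 (S (K 0) (K 0))))))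
noncomputable def v8_4 : Tr := (T (S (V (U (T (S (S (F 1131 L) (F 1099 L)) (T (F 1147 (S L L)) (F 1103 L))) (F 1223 (S (S (F 8320 L) L) (T L (F 24576 L))))) (F 1151 (T (S (S L L) (T L (F 4096 L))) (S (F 4096 L) (S (F 4096 L) (F 4096 L)))))) (F 1231 (T (S (T (F 4224 L) (F 4288 L)) (T (F 4096 L) (F 4224 L))) (S (F 12480 (S L L)) (F 8320 L))))) (V (U (T (S (F 1111 (V (T L L) (S L L))) (V (F 1087 (T (S (F 8192 L) (F 8192 L)) L)) (S (F 1103 L) (F 1055 L)))) (F 1111 (S (V L (F 20480 L)) (V (S L L) (S (F 28672 L) (F 20480 L)))))) (F 1087 (T (S (T (F 8192 L) (F 8192 L)) (T L (F 8192 L))) (S (T (F 12288 L) (F 14336 L)) (V (F 8192 L) (F 12288 L)))))) (F 1231 (U (T (S (S (F 128 L) L) (T L (F 8192 L))) (S (F 8320 L) (F 128 L))) (T (S (S (F 12416 L) (F 12416 L)) (S (F 12288 L) (F 12288 L))) (S (F 14464 L) (F 12416 L))))))) (F 1239 (S (V (T (S (T (F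 8320 L) (F 14464 L)) (V (F 8192 L) (F 10368 L))) (S (F 10368 L) (F 14464 (S L L)))) (F 10432 (T (S (F 1 L) L) (K 9)))) (V (U (T (S (S (F 2176 L) (F 128 L)) (T (F 8192 L) (F 8320 L))) (S (F 10368 L) (S (F 10368 L) (F 10368 L)))) (T (S (F 10240 L) (F 8192 L)) (F 14464 (S L L)))) (T (S (F 10368 L) (S (F 10432 L) (F 10368 L))) (F 16382 (S (K 0) (K 0))))))))
noncomputable def v8_5 : Tr := (V (U (T (U v8_3 (S (V (T (S (T (S (F 1099 L) (F 1091 L)) (F 1091 L)) (V (T (F 1091 L) (F 1095 L)) (S (F 1095 L) (F 1095 L)))) (S (T (F 1219 L) (F 9415 L)) (F 1223 (T (S L L) L)))) (F 1231 (T (S (S (F 192 L) (F 128 L)) (T L (F 128 L))) (F 16382 (S (K 0) (S (K 0) (K 0))))))) (V (T (S (V (T (F 1027 L) (F 1091 L)) (S (F 1091 L) (F 1091 L))) (T (V (S (F 1043 L) (F 1045 L)) (F 1031 L)) (V (S (F 1047 L) (F 1047 L)) (F 1095 L)))) (S (V (T (F 1095 L) (F 1223 L)) (F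 1223 (S L L))) (V (T (F 1031 L) (F 1095 L)) (F 1223 (T L L))))) (F 1103 (T (S (T (S L L) L) (V (T L L) (S (F 4224 L) (F 4224 L)))) (S (S (F 4288 L) (F 4224 L)) (V L (K 0)))))))) (U (F 9413 (S (K 0) (V (T (S (K 0) (U (K 0) (T (S (K 0) L) (K 0)))) (K 0)) (K 0)))) (F 1223 (S (V (T (S L (S (F 2176 L) L)) (K 0)) (K 0)) (V (T (S (V L (K 0)) (T (S L L) L)) (F 32766 (S (K 0) (K 0)))) (K 0)))))) v8_4) (F 25807 (U (T (U (K 1) (S (K 1) (T (S (K 1) (V (S (F 512 L) L) (K 0))) (K 0)))) (K 0)) (T (S (V (T (S (F 3328 L) (F 3072 L)) (F 3584 (S (F 1 L) L))) (K 1)) (T (V (S L (S (F 2048 L) (F 2048 L))) (F 3584 (S (F 1 L) L))) (V (S (F 3584 L) (F 2560 L)) (K 0)))) (F 4094 (S (K 0) (K 0)))))))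
noncomputable def v8_6 : Tr := (S (V (U (T (S (V (T (S (F 11904 L) (F 9728 L)) (F 9856 L)) (F 11456 (S (F 1 L) L))) (T (V (S (F 9728 L) (F 9216 L)) (F 9344 L)) (F 13440 (V (S L L) (F 8 L))))) (F 13440 (S (T (S (F 11 L) (F 9 L)) (F 9 L)) (V (T (S (F 10 L) (F 2 L)) (F 8 L)) (S (F 11 L) (F 9 L)))))) (T (S (F 11904 (T (S (F 4 L) L) (S (F 5 L) (F 1 L)))) (T (S (F 9856 L) (F 9728 L)) (F 13952 (S (F 1 L) L)))) (F 13440 (S (V (F 10 L) (F 27 L)) (T L (F 10 L)))))) (F 11456 (U (T (S (S (F 3 L) (F 1 L)) (T L (F 1 L))) (S (F 3 L) (S (F 3 L) (F 3 L)))) (T (S (F 1 L) (S (F 3 L) (F 1 L))) (S (F 11 L) (F 3 L)))))) (V (U (T (S (V (T (S (S (F 9728 L) (F 9216 L)) (S (F 9216 L) (F 9216 L))) (S (F 13312 L) (F 9216 L))) (T (S (F 9408 L) (F 9344 L)) (F 9344 L))) (V (T (S (S (F 9216 L) (F 9216 L)) (S (F 9216 L) (F 1024 L))) (S (F 9216 L) (S (F 13312 L) (F 13312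 L)))) (T (S (F 9216 L) (F 9216 L)) (F 13440 (S L L))))) (S (F 13440 (T (V (S L L) (F 8 L)) (S (F 8 L) L))) (T (V (S (F 13312 L) (F 13312 L)) (F 13504 (S L L))) (F 13440 (V (S (F 2 L) L) (F 8 L)))))) (T (S (T (S (F 9216 L) (F 9216 L)) (S (F 13440 L) (F 13312 L))) (V (T (F 9216 L) (F 13312 L)) (S (F 13312 L) (F 13312 L)))) (F 13440 (S (T (S (F 2 L) (F 2 L)) L) (T (V L (F 8 L)) (S (F 2 L) (F 2 L))))))) (F 9408 (U (T (S (T (S (F 3 L) (F 2 L)) (S (F 7 L) (F 3 L))) (T (S L L) (S (F 3 L) (F 1 L)))) (S (S (F 3 L) (F 1 L)) (T (S (F 3 L) (F 3 L)) (F 1 L)))) (T (S (T (F 2 L) (F 3 L)) (T L (F 1 L))) (S (F 7 (S L L)) (S (F 3 L) (F 1 L))))))))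
noncomputable def v8_7 : Tr := (V (F 8399433 (U (T (S v8_2 v8_5) (F 9695 (S (F 2046 (V (U (K 0) (T (S (K 0) (K 0)) (K 0))) (K 0))) (V (U (K 0) (T (S (F 2046 (S (K 0) (K 0))) (V (T (S (F 64 L) L) (K 0)) (K 0))) (K 0))) (K 0))))) (F 127 (T v8_6 (S (F 12480 (V (U (T (S (F 22 (S (F 64 L) L)) (S (F 18 L) (F 2 L))) (F 23 (S L (K 0)))) (T (S (F 7 L) (S (F 7 L) (F 6 L))) (F 22 (S (F 64 L) L)))) (U (F 511 (S (K 0) (K 0))) (T (F 7 (S (F 32 L) L)) (F 21 (S (F 16 L) (F 64 L))))))) (F 13440 (V (U (T (S (V (S (F 8 L) L) (F 8 L)) (T (S L L) (S (F 8 L) (F 8 L)))) (T (S (F 8 L) (F 511 (S (K 0) (K 0)))) (K 9))) (T (S (S (F 8 L) (F 8 L)) (T L (F 8 L))) (S (S (F 26 L) (F 10 L)) (S (F 10 L) (F 8 L))))) (U (F 511 (T (S (K 0) (K 0)) (K 0))) (T (S (F 11 (S (F 32 L) L)) (F 8 L)) (F 511 (S (S (K 0) (K 0)) (S (K 0) (K 0))))))))))))) (F 268317769 (U (F 511 (T (S (K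 0) (V (U (K 0) (T (K 1) (K 0))) (K 0))) (K 0))) (T (S (V (U (F 1535 (T (K 0) (K 0))) (T (F 25 (S (F 128 L) L)) (F 11 (S (F 32 L) L)))) (F 1535 (U (K 0) (T (K 0) (K 0))))) (V (F 25 (U (T (S (S L L) (S L L)) (K 0)) (T (S L (S (F 128 L) L)) (S (S (F 128 L) (F 128 L)) (S (F 128 L) (F 128 L)))))) (U (K 10) (T (S (F 11 (S L L)) (F 25 (S L L))) (F 1023 (S (S (K 0) (K 0)) (K 0))))))) (S (V (F 42 (U (K 0) (T (S (F 144 L) (F 128 L)) (S (F 80 L) (F 16 L))))) (F 102 (U (K 1) (T (S (K 1) L) L)))) (F 102 (V (F 126 (U (K 0) (S (K 0) (K 0)))) (U (K 0) (T (K 0) (S L (K 0)))))))))))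
noncomputable def v8_8 : Tr := (S (V (F 178 (U (F 2025 (T (S (F 4 (V (K 1) (K 0))) (F 1 (V (K 0) (K 1)))) (F 6 (S (K 0) (K 0))))) (T (S (V (F 1096 (S (F 128 L) L)) (F 64 L)) (F 73 (V (F 9 (T (S L L) (S L L))) (T (S (F 9 L) (F 1 L)) L)))) (S (F 1352 (V (K 3) (S L L))) (V (F 2031 (S (K 0) (K 0))) (S (F 1288 L) (F 9 L))))))) (U (F 27583 (T (K 0) (S (V (U (K 0) (F 1 (S (K 0) (K 1)))) (K 2)) (V (F 4 (U (K 1) (F 2 (S (K 0) (K 0))))) (K 2))))) (T (F 402 (S (F 1408 (V L (S (F 64 L) L))) (V (S (F 1416 L) (F 9 L)) (S (F 1408 L) (F 1289 L))))) (F 155 (S (V L (F 290 (S (K 1) L))) (V (F 296 (S L L)) (S (F 34 L) (F 40 L)))))))) (V (U (F 23551 (T (K 0) (S (K 1) (K 0)))) (T (F 18465 (S (V (F 208 (U (K 7) (T (S (F 3 L) (F 2 L)) (F 9 (S L (K 0)))))) (U (K 0) (T (F 1264 (S L (K 5))) (F 1056 L)))) (F 720 (V (U (K 6) (T (S (S (F 1 L) L) (T L (K 6))) (K 6)))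 (K 6))))) (F 18435 (S (V (T (F 480 (S L (K 6))) (F 168 (S (K 5) L))) (T (F 168 (S (F 4 L) L)) (F 40 L))) (V (K 0) (U (K 0) (T L (F 40 L)))))))) (U (F 2698 (T (F 1017 (S (K 0) (K 1))) (S (V (U (K 2) (S (F 129 L) (F 1 L))) (U (K 8) (S (F 640 L) (F 641 L)))) (F 641 (V (K 6) (U (K 0) (T L (K 0)))))))) (F 18435 (T (S (V (T (S (F 432 L) (F 48 L)) (F 304 (S (F 6 L) (F 16 L)))) (F 800 (T L (F 24 L)))) (V (U (K 0) (T (K 0) (F 256 L))) (F 808 (T (S L (K 6)) (S (F 8 L) L))))) (F 296 (S (V (S (F 2 L) L) (S (F 2 L) (F 2 L))) (V (T (S (F 2 L) L) (F 2 L)) (S (F 2 L) (F 2 L))))))))))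
noncomputable def v8_9 : Tr := (V (T (U (S (F 5633 (V (T (S (F 14 L) (S (F 74 L) (F 66 L))) (F 14 (U (F 4 L) L))) (S (F 12 L) (S (F 12 L) (F 12 L))))) (F 5129 (V (T (S (U (F 6 L) (F 6 L)) (V (S (F 4 L) (F 4 L)) (S (F 22 L) (F 6 L)))) (S (F 6 L) (S (F 6 L) (F 6 L)))) (T (S (F 18 L) (S (F 6 L) (F 6 L))) (S (F 26 L) (F 6 L)))))) (S (F 5633 (V (S (S (F 12 L) (F 8 L)) (T (F 2 L) (F 14 L))) (S (F 13 L) (F 12 L)))) (V (F 5385 (T (S (S (F 2 L) (F 2 L)) (S (F 2 L) L)) (S (F 2 L) (S (F 2 L) (F 2 L))))) (F 5633 (T (S (F 66 L) (F 66 L)) L))))) (U (S (F 5824 (V (S (F 144 L) (F 128 L)) L)) (F 1665 (V (T (F 69 (S L (S L L))) (S (F 77 L) (F 68 L))) (S (F 9 L) (F 73 (T L L)))))) (S (F 5824 (T (S (F 129 L) (F 128 L)) L)) (F 5633 (V (T (S (F 70 L) (F 66 L)) (S (F 76 L) (F 68 L))) (S (F 13 L) (F 4 L))))))) (T (F 5633 (U (S (V (F 12 L) (F 13 L)) (V (S (S (F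 13 L) (F 12 L)) (S (F 8 L) L)) (T (F 9 L) (F 13 L)))) (S (F 13 (S L L)) (V (S (F 13 L) (F 1 L)) (F 13 (S (F 4 L) L)))))) (U (F 705 (S (S (F 7 L) (F 6 L)) (V (S (F 7 L) (F 4 L)) (F 2 L)))) (F 2752 (S (F 3 L) (T (F 256 L) (F 256 L)))))))
noncomputable def v8_10 : Tr := (U (S (V (U (T (S (F 1664 (T L (F 1 L))) (T (F 1536 L) (F 2688 L))) (F 2688 (S (S (F 5 L) (F 5 L)) (S (F 4 L) (F 1 L))))) (F 3712 (T (S (S (F 2 L) L) (S L L)) (S (F 2 L) (S (F 2 L) (F 2 L)))))) (F 3264 (T (S (S (F 1 L) (F 1 L)) (U L (F 1 L))) (S (S (F 5 L) (F 1 L)) (S (F 1 L) (F 1 L)))))) (V (U (T (S (T (F 512 L) (F 2560 L)) (T (S (F 3584 L) (F 2816 L)) (F 2048 L))) (S (F 2688 (T L (F 4 L))) (T (F 2176 L) (F 2688 L)))) (T (S (F 3584 (S L L)) (S (F 3584 L) (F 2816 L))) (F 2688 (S (S (F 1 L) (F 1 L)) (S (F 1 L) L))))) (F 2240 (U (T (S (S (F 3 L) (F 3 L)) (S (F 1 L) (F 1 L)))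 (S (F 3 L) L)) (T (S (S (F 7 L) (F 3 L)) (F 1 L)) (S (F 3 L) (F 3 L))))))) (S (F 3584 (V (T (S (S (F 2 L) (F 2 L)) (S (F 2 L) (F 1 L))) (S (S (F 6 L) (F 6 L)) (S (F 6 L) (F 3 L)))) (T (S (F 6 L) (F 6 L)) (S (F 6 L) (F 6 L))))) (V (F 2816 (T (S (S (F 1 L) (F 1 L)) (S (F 1 L) (F 1 L))) (S (S (F 3 L) (F 3 L)) (S (F 3 L) (F 2 L))))) (F 3776 (T (S L (S (F 1 L) (F 1 L))) (S L (S (F 1 L) (F 1 L))))))))
noncomputable def v8_11 : Tr := (T (U (S (V (F 6692 (T (S L (S (F 2 L) (F 2 L))) (S L (S (F 2 L) (F 2 L))))) (S (F 6688 (S (F 8 L) L)) (F 6180 (T L (F 1 L))))) (V (F 4900 (U (T (S (F 1 L) L) (S (F 1 L) L)) (T (S (F 1 L) (F 1 L)) (S (F 1 L) (F 1 L))))) (F 6180 (T (S (S (F 2 L) (F 2 L)) (S (F 2 L) (F 2 L))) (S L (S (F 1 L) L)))))) (S (V (F 6688 (S (S (F 1 L) (F 64 L)) (T (F 67 L) (F 65 L)))) (F 7200 (S (F 9 L) L))) (F 6692 (V (T (F 3 (S L L)) (S (F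 2 L) (F 2 L))) (T (S (F 1 L) (F 3 L)) (S (F 1 L) (F 1 L))))))) (U (S (V (F 2596 (T (S (F 9 L) (F 1 L)) (S (F 24 L) (F 8 L)))) (F 3232 (T L (F 72 L)))) (V (U (F 6180 (T (S (F 2 L) (S (F 14 L) (F 6 L))) (S (F 10 L) (F 8 L)))) (T (F 6948 (S L L)) (F 2052 L))) (T (S (F 2212 L) (F 2084 L)) (F 3204 (S (F 24 L) L))))) (S (V (S (F 6816 L) (F 6272 L)) (F 7328 (S (F 4 L) L))) (V (T (F 6692 (S (F 1 L) L)) (F 7300 (S L L))) (F 3204 (T (S (F 17 L) (F 17 L)) L))))))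
noncomputable def v8_12 : Tr := (T (U (S (V (F 960 (T (S (S (F 19 L) (F 17 L)) (S (F 17 L) (F 16 L))) (S (F 1 L) (S (F 1 L) (F 1 L))))) (F 4928 (T (S (F 24 L) (F 16 L)) (S (F 24 L) (F 8 L))))) (V (U (F 960 (T (S (S (F 19 L) (F 18 L)) (S (F 18 L) (F 18 L))) (S (F 16 L) (F 2 L)))) (F 2944 (T (S (F 20 L) L) (S (F 4 L) (F 4 L))))) (T (F 960 (S (S (F 1 L) (F 1 L)) (S L L))) (S (F 4928 L) (F 448 L))))) (S (T (F 4928 (V (S (F 1 L) (S (F 5 L) (F 5 L))) (S (F 18 L) (F 1 L)))) (V (F 4928 (S (F 4 L) L)) (F 4416 L))) (V (T (S (F 2944 L) (F 2688 L)) (F 960 (S L (S (F 2 L) (F 2 L))))) (T (S (F 6976 L) (F 6528 L)) (F 4928 (S (F 2 L) (F 4 L))))))) (U (S (V (F 4928 (T (S (F 8 L) L) (S (F 40 L) (F 8 L)))) (F 4448 (T L (F 34 L)))) (V (F 960 (U (T (S (F 1 L) (F 32 L)) (S (F 33 L) (F 33 L))) (T (S (F 1 L) (F 32 L)) (S (F 33 L) (F 33 L))))) (F 4424 (T (S (F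 4 L) L) (S (F 22 L) (F 2 L)))))) (S (V (F 4928 (T (S (F 2 L) (F 4 L)) (S (F 10 L) (F 2 L)))) (F 5440 (S (F 10 L) L))) (V (F 960 (T (S L L) (S (F 1 L) (F 32 L)))) (F 5440 (T (S (F 34 L) (F 2 L)) L))))))
noncomputable def v8_13 : Tr := (T (S (F 2091 v8_9) (V (T (F 149828 v8_10) (F 147561 (U (S (V (F 1424 (T (S (S (F 5 L) (F 1 L)) (T L L)) (S (F 5 (S L L)) (S (F 4 L) L)))) (F 2320 (T (S (F 9 L) (S (F 5 L) (F 5 L))) (S (F 9 L) (F 8 L))))) (V (F 1168 (U (T (S (S (F 5 L) (F 4 L)) (S L L)) (S (F 4 L) (S (F 4 L) (F 4 L)))) (T (S L L) (S (F 4 L) L)))) (F 400 (T (S (S (F 3 L) (F 3 L)) (T (F 2 L) (F 2 L))) (S (T (F 3 L) (F 1 L)) (T (F 2 L) (F 2 L))))))) (S (F 3088 (V (T (S (S (F 14 L) (F 6 L)) (F 4 L)) (S (F 14 (S L L)) (S (F 6 L) (F 6 L)))) (T (S (F 10 L) (F 6 L)) (S (F 10 L) (F 2 L))))) (V (F 1168 (T (S L L) (S L (S (F 4 L) (F 2 L))))) (F 3456 (T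 (S (F 8 L) (F 9 (S L L))) (S L (S (F 8 L) (F 8 L)))))))))) (F 131235 v8_11))) (S (F 683 (V (T (U (S (F 704 (V L (F 258 L))) (V (F 584 (S (F 8 L) (T (F 260 L) (F 264 L)))) (F 641 (S (F 72 L) L)))) (S (F 704 (S (F 3 L) L)) (V (S (F 641 L) (F 513 L)) (F 640 L)))) (U (S (F 1664 (T L L)) (F 649 (V (T (S (F 10 L) (F 8 L)) L) (S (F 2 L) (F 2 L))))) (S (F 1664 (S (F 4 L) L)) (V (S (F 1665 L) (F 640 L)) (F 1665 L))))) (T (U (S (F 1152 L) (S (F 1728 L) (F 1152 L))) (S (F 3776 L) (F 1152 L))) (U (S (F 1666 (S (F 1 L) L)) (S (F 1664 L) (F 1152 L))) (F 1664 (S (F 129 L) (S (F 128 L) (F 256 L)))))))) (V (F 147497 v8_12) (F 131755 (T (U (S (V (S (F 580 L) (F 4 L)) (F 576 L)) (V (T (S (F 516 L) (F 4 L)) (F 532 (S (F 8 L) L))) (T (F 516 L) (F 596 L)))) (S (T (F 580 (S (F 2 L) L)) (F 576 L)) (V (T (F 1540 (S (F 1 L) L)) (F 516 L)) (S (F 580 L) (F 532 L)))))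 (U (S (T (F 576 L) (F 580 L)) (F 532 (V (T L (F 10 L)) (F 10 (S L L))))) (S (S (F 576 L) (F 576 L)) (V (F 532 (S (F 8 L) L)) (F 592 L)))))))))
noncomputable def v8_14 : Tr := (S (F 108320 (V (U (F 895 (T (K 0) (S (K 0) (K 0)))) (T (F 521 (S (V (K 1) (S L (K 1))) (F 125 (V (K 0) (S (K 0) (K 0)))))) (S (V (S (F 11 L) (F 9 L)) (K 2)) (V (S (F 520 L) (F 520 L)) (S (K 2) L))))) (F 553 (U (K 4) (T (S (K 4) (V (T (S (K 4) L) (K 4)) (K 4))) (K 4)))))) (F 75265 (V (F 145 (U (F 509 (T (K 0) (S (K 0) (K 0)))) (T (S (V (K 1) (T (K 1) (S (F 36 L) (F 36 L)))) (V (F 508 (U (K 1) (S (K 0) (K 1)))) (U (K 1) (T (K 1) (S (F 292 L) (F 36 L)))))) (S (V (U (K 1) (S (F 36 L) (F 36 L))) (T (F 32 L) (F 32 L))) (V (U (F 508 (S (K 0) (K 1))) (T (F 292 (S L (K 5))) (F 36 L))) (T (S (F 52 L) (F 36 L)) (F 20 L))))))) (U (F 3063 (T (S (K 1) (V (K 0) (K 1))) (S (K 1)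 (V (U (K 0) (T (F 2 (S (K 0) (K 0))) (K 1))) (K 1))))) (T (S (F 49 (V (T (S (F 272 L) (F 16 L)) (S (F 272 L) (F 20 L))) (T (S (K 6) (F 8 L)) (K 6)))) (V (F 161 (T (S (F 32 L) (S (F 4 L) (F 4 L))) (S (F 36 L) (F 36 L)))) (T (F 176 (S (F 256 L) (F 4 L))) (F 209 (S L L))))) (F 145 (S (V (T (S (K 6) (F 48 L)) (K 6)) (K 6)) (V (T L (F 16 L)) (S (K 6) (T (F 20 L) (F 16 L)))))))))))
noncomputable def v8_15 : Tr := (S (F 108288 (V (T (U (S (F 41 (S (F 1 L) L)) (F 1033 (V (F 144 (S L L)) L))) (F 1033 (S L (T L (F 16 L))))) (U (S (F 41 (S (F 2 L) L)) (V (F 1064 L) (F 40 L))) (S (F 41 L) (F 1057 (S (F 32 L) L))))) (T (U (S (T (F 1097 L) (F 521 L)) (F 1033 (V (S (F 24 L) (F 16 L)) (S (F 8 L) (F 8 L))))) (S (F 1545 L) (S (F 1033 L) (F 1025 L)))) (U (S (T (F 513 L) (F 513 L)) (V (F 1057 (S (F 32 L) L)) (S (F 1537 L) (F 1025 L)))) (S (F 513 L) (S (F 1537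 L) (F 1 L))))))) (V (F 107041 (T (U (S (V (T (F 33 L) (F 56 L)) (F 49 (T L (F 32 L)))) (F 289 (V (T (S L (S L L)) (S (F 32 L) L)) (T (S (F 16 L) L) (S (F 48 L) (F 32 L)))))) (S (F 41 (V (S (F 32 L) L) (S (F 32 L) (F 32 L)))) (T (F 289 (V (S (F 128 L) (F 128 L)) L)) (S (F 33 L) (F 1 L))))) (U (S (F 56 (V (S (F 4 L) L) (S (F 128 L) L))) (V (T (F 296 (S (F 16 L) L)) (F 280 L)) (S (F 280 L) (F 264 L)))) (S (V (F 24 L) (F 24 L)) (V (S (F 265 L) (F 264 L)) (S (F 25 L) (F 280 L))))))) (T (F 107009 (U (S (V (F 56 (S (F 272 L) L)) (F 25 (S (F 64 L) L))) (V (T (F 160 L) (F 152 L)) (T (F 24 L) (F 24 L)))) (S (F 25 (V L (S (F 80 L) (F 64 L)))) (T (S (F 17 L) (F 1 L)) (S (F 25 L) (F 136 L)))))) (F 107776 (U (S (V (F 2120 (S (F 256 L) (F 16 L))) (S (F 2057 L) (F 2056 L))) (V (F 2152 (S L L)) (T (F 2120 L) (F 2144 L)))) (S (T (F 2121 (S L L)) (F 8 L))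 (F 2120 (V (S (F 272 L) (F 16 L)) (S (F 256 L) (F 16 L))))))))))
noncomputable def v8_16 : Tr := (S (F 100096 (V (T (U (S (F 1091 (S (F 32 L) L)) (T (F 66 L) (F 66 L))) (F 67 (S (F 258 L) (S (F 2 L) L)))) (F 1090 (U (S (S (F 400 L) (F 272 L)) (V (F 16 L) L)) (S (F 384 L) (S (F 400 L) (F 272 L)))))) (T (F 1027 (U (S (U (K 7) (S (F 16 L) (F 16 L))) (U (K 7) (V (F 48 L) L))) (S (S (F 16 L) (F 16 L)) (V (F 17 L) L)))) (F 1089 (U (S (U (K 6) (S (F 128 L) L)) (U (K 6) (S (F 16 L) (S (F 18 L) (F 18 L))))) (S (S (F 128 L) (F 128 L)) (S (F 16 L) (F 16 L)))))))) (V (F 108064 (T (U (S (V (F 1032 L) (F 8 L)) (F 1192 (V (S L L) (S L L)))) (S (S (F 1032 L) (F 1032 L)) (T (F 1024 L) (F 1064 L)))) (U (S (V (F 40 L) (F 1576 (S L L))) (F 1064 (V (F 4 L) (S (F 1 L) (F 4 L))))) (S (S (F 40 L) (F 40 L)) (F 1064 (V L L)))))) (T (F 107808 (U (S (V (S (F 552 L)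 (F 1064 L)) (S (F 520 L) (F 552 (S L L)))) (V (F 1064 (S L (F 4 L))) (T (F 1056 L) (F 1576 (S L L))))) (S (V (F 1032 L) (F 553 (S L L))) (V (F 1032 L) (F 1064 (S L L)))))) (F 34656 (U (S (V (F 517 (S L L)) (S (F 514 L) (F 512 L))) (V (S (F 5 L) (F 1029 L)) (S (S (F 513 L) (F 516 L)) (S (F 516 L) (F 516 L))))) (S (F 519 (S (S L L) (T L L))) (V (F 1541 (S L L)) (T (F 5 L) (F 513 L)))))))))
noncomputable def v8_17 : Tr := (S (F 257894031343 (V (F 5185 v8_0) (U (F 32231 (T (S (F 4 (V (K 1) (K 0))) (F 2 (V (U (K 1) (T (V (K 0) (K 1)) (K 1))) (K 1)))) (F 4 (S (K 0) (V (K 1) (U (K 0) (T (K 1) (K 0)))))))) (T (F 30976 (S (V (F 649 (S (F 8 L) L)) (F 401 (T L (U (K 2) (S (F 3 L) (F 1 L)))))) (V (T (S (F 905 L) (F 512 L)) (V (F 649 L) (F 640 L))) (T (F 896 (V L (S (F 68 L) (F 4 L)))) (S (F 656 (V (F 64 L) (S (F 64 L) L))) (U (S (F 656 L) (F 640 L))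 (F 896 L))))))) (F 26629 (S (V (F 43 (S (S (K 2) L) (T (F 8 L) L))) (T (U (K 7) (S (K 7) (F 10 L))) (K 7))) (V (T (S (F 43 L) (F 33 L)) (S (F 42 L) (F 35 (S (F 32 L) L)))) (T (U (S (F 11 (V L (K 2))) (U (K 2) (S (F 1 L) (F 1 L)))) (S (F 11 (S L L)) (S (F 3 L) (F 3 L)))) (U (S (K 7) (V (F 34 L) (F 306 (U (K 1) (S (K 1) L))))) (S (S (F 298 (S L L)) (F 258 L)) (S (F 258 L) (F 34 L)))))))))))) (V (F 808141998336 (U (T (S (F 230306880 (V v8_1 (F 33559 (U (K 1) (T (S (K 1) (V (U (K 1) (S (F 320 L) (F 324 (T L L)))) (K 1))) (S (F 509 (T (K 0) (K 0))) (V (U (K 1) (S (F 196 L) (F 68 L))) (T (K 1) (F 132 L))))))))) v8_7) (F 259822848 v8_8)) (F 267919360 v8_13))) (F 807591188223 (U (T v8_14 (F 108320 (S (V (U (K 2) (T (S (K 2) (V (S (F 8 L) (F 16 L)) (K 2))) (S (K 2) (V (S (K 2) (F 16 L)) (K 2))))) (K 2)) (V (U (F 592 (T (S (V (U (K 1) (S (K 4) L))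 (K 4)) (V (U (K 0) (T (K 0) (F 8 L))) (U (K 4) (S (K 4) L)))) (S (K 4) (V (U (K 6) (S L L)) (K 4))))) (T (S (V (S (F 528 L) (F 592 L)) (S L (F 16 L))) (F 592 (V (T L (F 8 L)) (S L L)))) (S (V (S (F 16 L) (F 528 L)) (K 2)) (V (F 592 (S L L)) (S (F 16 L) (F 528 L)))))) (U (K 2) (T (S (K 2) (V (T (F 528 L) (F 592 (S (K 4) L))) (K 2))) (S (K 2) (V (U (K 2) (S (K 2) (F 528 L))) (K 2))))))))) (T v8_15 v8_16)))))
noncomputable def v8_18 : Tr := (V (U (T (F 1062 (S (V (U (K 0) (T (F 322 L) (F 320 L))) (K 7)) (V (U (F 495 (T (S (K 0) (K 0)) (K 0))) (T (S (S (F 354 L) (F 66 L)) (V (K 4) (F 34 L))) (F 354 (S (S L (K 1)) (K 1))))) (F 383 (U (K 0) (T (K 0) (K 0))))))) (F 1653 (S (F 58 (V (K 1) (K 0))) (V (U (K 3) (T (F 55 (S (S (K 0) (K 0)) (K 0))) (S (F 2 L) (K 3)))) (U (K 4) (S (F 2 L) L)))))) (T (S (F 3639 (V (S (F 8 L) L) (S (F 8 L) (F 8 L)))) (V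 (F 2086 (T (S (F 322 L) (S (F 66 L) L)) (S (F 258 L) (V (F 2 L) (F 34 L))))) (F 3109 (S (F 32 L) (T (F 128 L) (F 16 L)))))) (S (F 1653 (S (S L (F 32 L)) L)) (V (T (F 3172 (U (S (F 146 L) (S (F 130 L) L)) (S (F 210 L) (F 2 L)))) (F 1633 (S (F 208 L) (S (F 80 L) L)))) (F 1653 (S (F 2 L) L)))))) (F 1541 (U (F 112 (T (F 53 (S (K 0) (V (U (K 1) (T (K 1) (S (K 0) (K 1)))) (K 0)))) (S (K 3) (V (U (K 3) (S (K 3) L)) (K 3))))) (T (S (V (T (F 98 (S (K 4) L)) (F 112 (S (K 3) L))) (K 2)) (V (T (S (F 96 L) (F 50 (S L L))) (F 112 (S (F 16 L) L))) (T (U (S (K 2) (S (K 2) (F 48 L))) (S (S (K 2) (F 96 L)) (F 32 L))) (U (F 112 (S (K 3) (S (K 3) L))) (S (K 2) (F 48 L)))))) (S (K 2) (V (F 112 (S (S L L) L)) (T (F 112 (U (K 3) (S (K 3) (S L L)))) (U (K 2) (S (K 2) (S (F 80 L) (F 112 L)))))))))))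
noncomputable def v8_19 : Tr := (S (V (F 4079 (U (K 0) (T (S (V (K 0) (S (K 0) (K 0))) (V (K 0) (S (K 0) (K 0)))) (S (K 0) (K 0))))) (U (F 4015 (T (S (K 0) (V (K 1) (K 0))) (K 0))) (T (F 1792 (S (V (S (F 138 L) (F 130 L)) (K 2)) (V (S (F 130 L) (F 32 L)) (S (F 130 L) (F 128 L))))) (F 898 (S (V (S (F 2 L) (F 2 L)) (K 2)) (V (U (K 4) (S (F 66 L) (F 34 L))) (S L (S (F 2 L) (F 2 L))))))))) (V (F 1033 (U (F 447 (T (S (K 0) (K 0)) (K 0))) (T (S (V (F 447 (S (K 0) (K 0))) (T (F 4 L) (F 6 L))) (V (T (F 28 (S (S L L) (K 0))) (S (F 24 L) (F 16 L))) (T (S (F 14 L) (F 20 L)) L))) (S (F 447 (V (K 0) (S (K 0) (K 0)))) (V (S (K 6) (T (F 24 L) (F 10 L))) (F 14 (U (K 5) (S L L)))))))) (F 1792 (U (T (S (V (K 4) (U (K 2) (T (F 32 L) (K 2)))) (K 0)) (F 483 (S (F 2 (V (K 1) (K 0))) (F 4 (V (K 1) (U (K 1) (S (K 1) (K 0)))))))) (T (S (V (S (F 32 L) (F 288 L))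 (S L (F 32 L))) (V (S (F 288 L) (F 288 L)) (S (F 288 L) (F 288 L)))) (S (V (S (S (F 130 L) (F 160 L)) (S (F 160 L) (F 288 L))) (S (S (F 130 L) (F 128 L)) (S (F 128 L) (F 128 L)))) (V (T (F 288 L) (F 290 (S L L))) (T (S (F 416 L) (F 352 L)) (S (F 160 L) (F 416 L))))))))))
noncomputable def v8_20 : Tr := (S (F 16529 (V (T (U (S (F 1792 (T L L)) (F 1312 (V (S (F 34 L) (F 32 L)) (F 2 L)))) (F 1792 (S (S (F 136 L) (F 8 L)) (T L L)))) (F 1824 (U (S (V (F 247 (S (K 0) (K 0))) (F 64 L)) (V (S (F 16 L) (F 16 L)) (F 80 (S L L)))) (S (S (F 96 L) (F 64 L)) (V (S (F 64 L) (F 16 L)) (F 64 L)))))) (T (F 1568 (U (S (S (F 131 L) (F 130 L)) (V (F 2 L) (F 128 L))) (S (F 130 L) (S (F 130 L) (F 2 L))))) (F 802 (U (S (S (F 65 L) (F 2 L)) (V (F 66 (S L L)) L)) (S (F 3 L) (F 66 (S L L)))))))) (V (F 51220 (T (U (S (F 1192 (V (T (S (F 2 L) L) (S (F 2 L) (F 2 L)))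 (S (F 2 L) (F 2 L)))) (V (T (F 200 (S (F 1 L) L)) (F 1160 (S (F 10 L) (F 4 L)))) (F 1064 (T L (F 6 L))))) (S (V (T (F 1152 L) (F 1448 (S L L))) (F 1448 (S L L))) (T (V (F 392 (S (F 1 L) (F 4 L))) (F 1288 L)) (F 1288 (S L (S (F 2 L) (F 2 L))))))) (F 1416 (U (S (V (T (S (F 36 L) (F 6 L)) (F 4 L)) (S (F 4 L) (F 4 L))) (V (T (S (F 6 L) (F 4 L)) (F 36 (S L L))) (S (F 4 L) (F 4 L)))) (S (V (T (F 4 L) (F 4 L)) (S (F 4 L) (F 4 L))) (V (T (S (F 36 L) (F 2 L)) (F 36 (S L L))) (S (F 4 L) (F 4 L)))))))) (F 17053 (T (U (S (V (F 1 L) (S (F 130 L) (F 9 L))) (F 137 (T (S L L) (S L L)))) (S (S L L) (T (F 137 (S L L)) (F 1 L)))) (U (S (V (S (F 138 L) (F 136 L)) (F 134 (S L L))) (V (F 137 (S L L)) (S (F 130 L) (F 9 L)))) (S (V (F 128 L) (F 130 L)) (V (F 1 L) L)))))))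
noncomputable def v8_21 : Tr := (V (T (F 770 (U (S (V (S (F 16 L) (F 176 (S L L))) (F 96 (S L (S (F 2 L) (F 2 L))))) (F 144 (V (T (S (F 2 L) (F 2 L)) (S (F 2 L) (F 2 L))) (T L (S (F 3 L) (F 2 L)))))) (S (V (F 48 (S L (S (F 1 L) (F 1 L)))) (F 96 (S L L))) (F 144 (T (S L L) (V (S (F 2 L) (F 2 L)) (F 3 (S L L)))))))) (F 522 (U (S (V (F 224 (S (K 0) (S L L))) (S (F 64 L) (F 96 (S L (F 1 L))))) (F 160 (V (S (S (F 1 L) (F 1 L)) (S (F 16 L) (F 16 L))) (S (S (F 1 L) (F 1 L)) (S (F 1 L) (F 1 L)))))) (S (V (S (F 64 L) (F 224 (S L L))) (S (F 64 L) (F 64 L))) (V (F 160 (S (S (F 1 L) (F 1 L)) (S (F 16 L) (F 16 L)))) (F 192 (S L (S (F 1 L) (F 1 L))))))))) (T (U (F 14 (S (V (S (F 6 L) (F 2 L)) (S (F 4 L) (F 4 L))) (V (F 6 (S L (F 3 (T L L)))) (S (F 2 L) (F 2 L))))) (S (F 14 (V (F 6 (S L L)) L)) (F 522 (V (F 130 (S (F 1 L) L)) (S (F 66 L) (F 192 L))))))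 (F 14 (U (S (V (S (F 64 L) (F 64 L)) (S (F 65 L) (F 64 L))) (V (S (F 64 L) (F 194 (S L L))) (S (F 64 L) (F 128 L)))) (S (V (S (F 2 L) (F 2 L)) (F 1 L)) (V (S (F 128 L) (F 130 L)) (S (F 128 L) (F 128 L))))))))
noncomputable def v8_22 : Tr := (U (F 3151376 (T (F 28688 v8_19) (S (F 27692 (V (F 503 (U (K 0) (T (S (K 0) (K 0)) (S (K 0) (K 0))))) (U (F 479 (T (K 0) (K 0))) (T (S (U (K 5) (S (F 338 L) (F 258 L))) (V (F 503 (S (K 0) (K 0))) (S (F 322 L) (F 2 L)))) (S (S (F 338 L) (F 272 L)) (V (F 503 (S (K 0) (K 0))) (F 256 L))))))) (V (F 65278 (U (K 0) (T (S (K 0) (U (K 0) (S (K 0) (V (K 0) (S (K 0) (K 1)))))) (F 2 (S (K 0) (V (K 0) (S (K 0) (K 0)))))))) (U (F 65279 (T (S (K 0) (V (K 0) (U (K 0) (S (K 0) (K 0))))) (S (K 0) (K 0)))) (T (S (F 15404 (V (F 503 (S (K 0) (S (K 0) (K 0)))) (S (S (F 2 L) (F 2 L)) (S (F 4 L) (F 4 L))))) (F 4620 (V (F 1031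 (T (S (F 130 L) (F 66 L)) (F 196 (S (S (K 0) L) L)))) (F 280 (S (T (F 66 L) (F 320 L)) (T (F 386 L) (F 322 L))))))) (F 15404 (S (V (F 503 (S (K 0) (K 0))) (S (F 258 L) (F 4 L))) (V (U (K 3) (S (F 5 L) (F 135 (S L L)))) (S (F 4 L) (S (F 5 L) (F 5 L)))))))))))) (F 2163734 (T v8_20 (F 681 (S (V (T (F 262 (U (S (V (K 4) L) (F 66 (V (F 59 (S (K 0) (K 0))) (S L L)))) (F 66 (S (V L L) (V (S (F 2 L) L) (S L (F 2 L))))))) (F 14 (U (S (V (K 5) L) (V (K 5) (S (F 4 L) (F 2 L)))) (S (S (F 1 L) L) (V (S (F 6 L) (F 2 L)) L))))) (T (F 270 (U (S (S (F 9 L) (F 1 L)) (V (S (F 2 L) (F 2 L)) L)) (S (F 1 L) (S (F 1 L) L)))) (U (S (F 1356 L) (F 14 (S (F 1 L) L))) (F 1038 (S (F 10 L) (S (F 2 L) L)))))) v8_21)))))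
noncomputable def v8_23 : Tr := (T (S (F 28187 (V (F 95 (U (K 0) (T (K 0) (K 0)))) (U (K 5) (T (F 91 (S (S (S (K 1) (K 0)) (K 0)) (K 0))) (S (S (K 2) L) (V (K 5) (S (F 16 L) (F 2 L)))))))) (V (U (F 63757 (T (S (K 4) (V (U (K 4) (T L (K 4))) (K 4))) (K 4))) (T (F 22540 (S (V (T (F 1026 L) (F 1046 (S (K 2) L))) (K 7)) (V (S (F 1026 L) (F 1043 (S L L))) (U (K 7) (S (F 6 L) (F 1029 L)))))) (S (F 15897 (V (U (K 5) (S (F 2 L) L)) (K 5))) (V (F 7176 (T (F 2566 (S L (F 160 L))) (S (F 268 L) (F 538 L)))) (F 15872 (U (K 5) (T (F 128 L) (F 64 L)))))))) (F 28179 (U (K 5) (T (K 5) (S (V (K 5) (S (F 64 L) L)) (V (F 223 (T (K 0) (K 0))) (T (K 5) (S (F 2 L) (F 2 L)))))))))) (F 9744 (S (F 3082 (V (U (F 250 (T (K 0) (S (K 1) (K 0)))) (T (S (F 10 L) (S (F 66 L) L)) (F 10 (S (F 8 L) (S L L))))) (U (F 222 (T (S (K 0) (K 1)) (S (K 0) (K 1)))) (T (S (F 10 (S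 (K 2) L)) (S (F 10 L) (F 2 L))) (F 10 (S (S (K 2) L) (S L L))))))) (V (U (F 2077 (T (K 3) (S (K 3) (V (U (K 3) (S (K 3) L)) (K 3))))) (T (S (F 2060 (V (S (F 129 L) L) (S (F 133 L) (F 129 L)))) (V (S (F 2076 (S L L)) (S (F 2060 L) (F 28 L))) (F 2060 (S L (S (F 256 L) (F 256 L)))))) (S (F 3082 (V (S (F 96 L) (F 64 L)) L)) (F 2060 (V (S (F 64 L) (F 64 L)) (S (F 129 L) (F 129 L))))))) (F 3074 (U (F 506 (T (S (K 1) (K 0)) (K 1))) (T (S (V (S (F 194 L) (F 192 L)) L) (V (S (F 192 L) (S (F 192 L) (F 192 L))) (S (F 64 L) (F 128 L)))) (S (S (F 10 L) L) (V (S (F 192 L) (F 192 L)) (S (K 0) (F 256 L)))))))))))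
noncomputable def v8_24 : Tr := (S (F 6281 (V (T (U (S (F 646 (S (F 1 L) L)) (S (F 642 L) (F 2 L))) (S (F 902 L) (F 130 L))) (F 646 (U (S L (S L L)) (S (F 4 L) L)))) (F 644 (T (U (S (S L L) (V (S (F 32 L) (F 32 L)) (S (F 32 L) (F 32 L)))) (S (S (F 32 L) (F 32 L)) (S (F 32 L) (F 32 L)))) (U (S (F 4 L) (S (F 32 L) (F 32 L))) (S (F 4 L) (F 32 L))))))) (V (F 12425 (T (U (S (V (S (F 386 L) (F 259 L)) (S (F 386 L) (F 258 L))) (V (S (F 259 L) (F 265 L)) (S (F 258 L) (F 258 L)))) (S (V (F 258 L) (F 258 L)) (V (F 256 L) (S (F 262 L) (F 259 L))))) (U (S (F 134 (V (S (F 2 L) L) (S (F 1 L) (F 1 L)))) (V (F 262 (S L (S (F 2 L) (F 64 L)))) (F 134 (S L (S L L))))) (F 134 (S (V L (F 1 L)) (V (S (F 2 L) (F 2 L)) (S (F 2 L) L))))))) (T (F 14472 (U (S (V (S (F 834 L) (F 514 L)) (F 834 (S L (S L L)))) (V (S (F 2 L) L) (S (F 2 L) (S (F 514 L) (F 2 L))))) (S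 (F 578 (V L (S (F 65 L) (F 1 L)))) (V (S (F 578 L) (F 514 L)) (S (F 834 L) (F 514 L)))))) (U (F 7296 (S (F 1728 (V (F 32 L) L)) (V (T (F 2 L) (F 1090 L)) (F 1602 (S (F 2 L) L))))) (F 11409 (S (F 322 (S L L)) (V (F 67 (S (F 1 L) L)) (F 256 L))))))))
noncomputable def treeV8 : Tr := (F 0xffffffffffffffffffffffffffffffffffffffffffffffffffffffffffffffffffffffffffffffffffffffffffffffffffffffffffffffffffffffffffffffffffdf7fffffffdcffffffffffffffffffaffffffffffffffffffffffffffffffffffffffffffffffffffffffffffffffffffffffffffffffff3fdffe7c7ffffffb7ffffffffffffffffffffffffffffffffffffffffffffffffffffffffffffffffffffffffbffffffffffdfe67ffffffff3f1fffff9e7fffff73fbffffffffffbffffffffffffffffffffffffffffffffffffffffffffffffffffffffffffeffffffffffffbfd (T v8_17 (F 550320508671 (S (F 3362838 v8_18) (V v8_22 (U (F 1250816 v8_23) (F 1249798 (T v8_24 (F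 3089 (S (V (F 1060 (T (S (F 10 L) (F 66 (S L L))) (S (F 10 L) L))) (F 1312 (T (U (S (F 36 L) (F 32 L)) (F 36 (S L L))) (U (S (F 4 L) (F 36 L)) (F 36 (S L L)))))) (V (F 38 (T (U (S (V L (F 5 L)) (V (S (F 4 L) L) (S (F 129 L) (F 128 L)))) (S (F 5 (S L L)) (V (S (F 132 L) (F 128 L)) L))) (U (S (S (F 5 L) (F 1 L)) (V (S (F 129 L) (F 192 L)) (F 1 L))) (S (F 1 L) (S (F 1 L) L))))) (T (U (S (F 1316 (S (F 32 L) L)) (F 1058 (V (F 192 (S L L)) L))) (F 1060 (S (F 2 L) (S (F 66 L) (F 64 L))))) (U (S (F 1312 L) (S (F 1060 L) (F 1056 L))) (S (F 1316 L) (F 1024 L)))))))))))))))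

theorem pV8 : chkV par treeV8 192 64 384 128 128 128 163840 327680 Lc = true := by decide +kernel

noncomputable def v9_0 : Tr := (T (U (S (F 35174 (V (F 386 (U (K 1) (S L L))) (T (V (F 386 L) (S (F 384 L) (F 384 L))) (U (K 6) (V (F 384 L) (S (K 6) (F 512 L))))))) (V (F 16734 (T (F 18 L) (S (F 528 L) (F 512 L)))) (F 358 (T (F 1542 (S (S (F 16 L) (F 16 L)) (S (F 16 L) (F 1 L)))) (S (F 2082 (U (K 2) (V (F 131 L) L))) (V (F 3588 (S L L)) (S (F 2560 L) (F 2564 L)))))))) (F 33094 (S (F 1296 (V (S (F 130 L) (F 130 L)) (T (S (F 130 L) (F 130 L)) (V (S (F 130 L) (F 130 L)) (S L L))))) (V (F 1538 (S (F 32 L) (F 1 L))) (T (F 1794 (S (F 16 L) (F 1 L))) (V (F 3586 (S (F 1 L) L)) (F 2306 (S (S (F 32 L) L) (S (F 1 L) (F 1 L)))))))))) (U (F 359 (S (K 8) (V (U (K 8) (T (F 1540 (S (S (K 0) L) (S L L))) (S (K 8) (T (F 516 L) (K 8))))) (U (K 8) (T (V (S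 (K 8) (S (F 516 L) (F 1540 L))) (S (F 1791 (S (K 0) (K 0))) L)) (K 8)))))) (S (V (F 374 (T (V (F 550 L) (S (F 554 L) (F 518 (S (F 16 L) (F 1 L))))) (F 1036 (U (K 1) (S (F 80 (T L (K 4))) L))))) (F 35108 (T (S (V (F 1156 L) (F 2180 L)) (V (F 3200 (S (F 64 L) L)) (T (F 3200 L) (F 2180 L)))) (V (F 2180 (U (K 3) (S (F 256 L) (F 1 L)))) (F 2053 (S L (U (K 4) (F 8 L)))))))) (F 327 (V (T (F 3076 (S (S (F 1 L) (F 1 L)) L)) (F 1540 (S (U (S L L) L) (U (S L L) L)))) (T (S (V (F 516 L) (S (F 514 L) (F 514 L))) (U (T (F 1540 L) (F 516 L)) (F 1540 (S L L)))) (V (S (S (F 520 L) (F 520 L)) (S (F 516 L) (F 516 L))) (S (U (F 520 L) (F 521 L)) (U (F 512 L) (F 521 (S L L)))))))))))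
noncomputable def v9_1 : Tr := (V (F 16467 (T (U (S (K 8) (V (U (K 8) (T (F 1025 L) (F 1541 (S (K 1) L)))) (U (K 8) (T (S (K 8) (F 1536 L)) (K 8))))) (S (F 1541 (U (K 1) (V (S (F 160 L) (F 32 L)) (T (S (K 1) (F 4 L)) (K 1))))) (V (S (F 1541 (S L L)) (F 1025 L)) (T (S (F 1537 (S L L)) (F 1025 L)) (F 517 (S (S L L) (S L L))))))) (F 517 (U (K 2) (S (K 2) (V (S (S L (F 2 L)) L) (S (T (S (K 2) L) (K 2)) (T (S L (F 32 L)) (S L (F 32 L)))))))))) (T (U (K 7) (S (F 74017 (V (F 2432 (T (S (K 2) (U (K 2) (S (K 2) L))) (K 2))) (U (K 6) (T (S (K 6) (S (F 1033 L) (F 1025 L))) (K 6))))) (F 65635 (V (T (S (F 644 (U (K 2) (V (F 128 L) (S (F 1 L) (F 1 L))))) (V (F 514 L) (S (F 644 (S L L)) (F 642 L)))) (S (F 518 (U (K 2) (S (K 2) L))) (V (F 518 (S L (F 8 L))) (F 644 (T L L))))) (F 2180 (T (S (U (K 2) (V L L)) (V (U (S (K 2) L) L) (T (S (F 16 L) (F 16 L))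 L))) (U (K 2) (S (V (S (K 2) (F 16 L)) L) (V L L))))))))) (F 73827 (U (K 7) (S (K 7) (V (T (S (K 7) (U (K 7) (S (F 258 L) (F 258 L)))) (F 274 (S (K 2) (V (S (K 2) L) (K 2))))) (T (S (K 7) (T (U (K 7) (S (K 7) (F 80 L))) (K 7))) (K 7))))))))
noncomputable def v9_2 : Tr := (T (S (V (F 117086 (T (V (S (F 33 L) (F 1 L)) (S (F 33 (S L L)) (S (F 1 L) L))) (F 33 (U (K 1) (S (K 1) (U (K 1) (V (F 1 L) (S (K 1) L)))))))) (F 35108 (T (U (S (F 772 (V (K 3) (T (S (F 4 L) L) (K 3)))) (F 644 (V (F 134 (T L (K 4))) (T (V (F 6 L) (S (F 4 L) (F 2 L))) (K 3))))) (S (V (F 902 L) (F 516 L)) (V (F 1926 (S L L)) (T (F 898 (S (F 64 L) (F 2 L))) (S (F 519 L) (F 644 L)))))) (U (K 6) (S (F 2565 (V (F 247 (S (K 0) (K 0))) (T L L))) (V (F 772 (U (K 3) (T (F 134 L) (F 256 L)))) (T (S (F 517 L) (F 4 L)) (F 2053 (V (S (K 4) (F 8 L)) L))))))))) (V (F 16474 (T (F 1170 (U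 (V (F 129 (S L L)) (S L (S (F 1 L) (F 1 L)))) (S (F 128 L) (F 129 (S L L))))) (U (S (F 3219 (V (T L (K 1)) (K 1))) (V (F 2177 (T (F 288 L) (S (F 32 L) L))) (T (F 3200 (S (S (F 16 L) (F 16 L)) L)) (S (K 8) (S (F 2176 L) (F 2176 L)))))) (S (F 145 (V (F 257 L) (T (F 258 L) (S (F 129 L) (F 1 L))))) (V (F 2051 L) (T (F 3201 L) (S (F 2177 L) (F 3073 L)))))))) v9_0)) (S (F 130943 (V (K 0) (T (U (K 0) (S (K 0) (K 0))) (K 0)))) v9_1))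
noncomputable def v9_3 : Tr := (S (F 7616 (V (F 121 (U (K 0) (T (S (V (K 0) (K 1)) (F 2 (V (K 0) (U (K 0) (S (K 0) (K 0)))))) (F 2 (S (K 0) (K 0)))))) (U (K 1) (T (K 1) (S (S (F 33 L) L) (V (F 123 (S (K 0) (K 0))) L)))))) (V (F 4169 (U (K 6) (T (S (F 447 (V (K 0) (U (K 0) (T (S (K 0) (S (K 0) (K 0))) (K 0))))) (V (U (K 6) (T (S (K 6) (T (V (F 389 L) (F 256 L)) (K 6))) (K 6))) (U (K 6) (T (S (T (V L (S (F 9 L) (F 9 L))) (K 6)) (V (T L (F 447 (S (K 0) (K 0)))) (T (S (F 1 L) (F 1 L)) L))) (F 447 (S (K 0) (K 0))))))) (F 447 (S (K 0) (K 0)))))) (U (F 8143 (T (S (K 0) (V (K 1) (K 0))) (F 1 (S (K 0) (K 0))))) (T (S (F 6592 (V (U (K 2) (T (T (K 2) L) (F 1 L))) (T (K 2) (F 1 L)))) (F 2121 (V (U (F 415 (T (T (K 1) (F 2 (S (K 0) (K 0)))) (K 0))) (T (V (S (T (F 8 L) (F 9 L)) (T L (F 1 L))) (S (F 9 L) (T (F 9 L) (F 25 L)))) (F 25 (S (T L (K 2)) (V (F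 59 (S (K 0) (K 0))) (F 32 L)))))) (F 27 (T (U (K 3) (S L (S L L))) (S L L)))))) (F 7552 (S (V (K 3) L) (F 18 (V (F 55 (S (K 0) (K 0))) (T L L)))))))))
noncomputable def v9_4 : Tr := (S (F 18176 (V (U (T (V (F 3712 (S (K 1) L)) (S (F 1152 L) (F 1152 L))) (K 6)) (T (V (F 1664 (S (F 64 L) (F 1 L))) (S (F 644 L) (F 3200 L))) (V (S (F 2180 L) (F 3200 (S (F 64 L) L))) (F 2180 (S L (S (F 1 L) (F 1 L))))))) (U (T (V (S (F 2068 L) (F 3216 (T L L))) (F 2068 (S (F 8 L) L))) (F 2068 (V (F 495 (S (K 0) (K 0))) L))) (T (V (S (F 2068 L) (F 3072 L)) (F 2068 (S (F 256 L) L))) (F 2068 (S L (T L (F 8 L)))))))) (V (F 1555 (U (T (V (F 1058 (S L L)) (S (S (F 98 L) (F 34 L)) (F 98 (T (F 1 L) L)))) (V (S (K 8) (S (F 96 L) (F 64 L))) (S (F 1791 (S (K 0) (K 0))) (T (F 96 L) (F 96 L))))) (T (V (S (F 1058 L) (F 1030 L)) (S (F 1058 (S L L)) (S (F 98 L) (F 66 L))))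 (S (V (S (F 34 L) (F 34 L)) (S (F 34 L) (F 34 L))) (V L (S (F 2 L) (F 64 L))))))) (F 17921 (U (F 2352 (T (V (S (T L L) (T L (S L L))) (S (T L (F 32 L)) (T (S L L) L))) (V (S (T L (K 2)) (T (S (F 32 L) L) (S (K 2) (F 32 L)))) (S (S (F 32 L) (F 32 L)) (T L (F 32 L)))))) (T (V (S (F 2320 (S L L)) (F 2336 (T (F 16 L) L))) (F 2352 (S (T L (F 32 L)) (T L L)))) (V (S (F 304 (S (F 64 L) (F 1 L))) (F 2336 (S L L))) (F 2096 (S (F 64 L) (T (F 4 L) (F 68 L))))))))))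
noncomputable def v9_5 : Tr := (U (S (F 22401 (V (F 495 (U (K 0) (S (K 0) (K 0)))) (T (S (F 1 L) (T L (F 1 L))) (F 495 (S (K 0) (K 0)))))) (V (F 1555 (U (K 8) (T (S (T (V (F 34 L) (F 42 L)) (K 8)) (V (S (F 64 L) (F 64 L)) (S (F 72 L) (F 72 L)))) (F 1791 (S (K 0) (S (K 0) (K 0))))))) (F 22145 (U (F 584 (T (S (K 2) (V (K 2) (S (K 2) L))) (K 2))) (T (S (V (F 72 L) (F 585 L)) (V (S (F 584 L) (F 576 L)) (F 585 (S L L)))) (S (F 9 L) (F 585 (V (S (K 2) L) L)))))))) (S (F 22273 (V (T (V (S (F 1 L) L) (S (F 9 L) (F 1 L))) (S (S (F 9 L) (F 1 L)) (V (S (F 65 L) (F 65 L)) (F 9 L)))) (T (V (S (F 13 L) (F 9 L)) (F 13 L)) (S (F 77 L) (F 9 L))))) (V (T (F 1555 (V (S (T (F 2 L) (F 10 L)) (S (F 2 L) L)) (T (S (F 10 L) (F 2 L)) (S (F 11 L) (F 9 L))))) (F 5633 (V (S (S (F 259 L) (S (F 259 L) (F 2305 L))) (U (F 2304 L) (F 2305 L))) (S (F 35 (S (F 64 L) (F 8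 L))) (F 2337 (T (S (F 128 L) (F 128 L)) L)))))) (F 22017 (T (S (F 25 (V (S L L) L)) (V (U (F 1168 (S (F 128 L) L)) (F 1025 L)) (F 1041 (S (F 32 L) L)))) (S (F 25 (T L L)) (V (F 1041 (U (F 36 (S L L)) L)) (F 25 L))))))))
noncomputable def v9_6 : Tr := (T (U (F 18305 (S (V (T (V (S (F 13 L) (F 4 L)) (F 13 (S (F 8 L) L))) (F 13 (S (F 8 L) L))) (F 13 (S L L))) (V (U (T (V (S (F 580 (T L L)) (T (F 576 L) (F 580 L))) (F 580 (S L (S (F 64 L) L)))) (S (F 13 L) (F 580 (V (S (F 64 L) L) (F 80 L))))) (T (S (S (F 5 L) (F 4 L)) (V (T (F 576 L) (F 580 L)) (F 516 L))) (S (F 13 L) (F 581 (V (S L L) L))))) (F 13 (T (S L (U (F 1 L) (F 1 L))) (F 9 (S L L))))))) (S (F 55169 (V (T (S (F 2 L) (S (F 2 L) L)) (F 2 L)) (F 2 L))) (V (F 17537 (T (S (V (S (F 53 L) (F 2096 L)) (F 53 L)) (V (S (F 2096 L) (F 2304 L)) (F 37 (S (F 64 L) (F 1 L))))) (F 21 (S (S (F 192 L)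 (F 64 L)) (V (S (F 65 L) (F 1 L)) (F 65 L)))))) (F 55681 (T (S (F 262 L) (F 2 L)) (F 4 L)))))) (F 54145 (U (S (V (S (F 38 L) (F 6 L)) (F 6 L)) (V (S (S (F 38 L) (F 6 L)) (T (S (F 38 L) (F 36 L)) (F 38 L))) (F 38 (S L L)))) (S (S (F 7 L) (F 2 L)) (V (T (U (F 4 L) (F 4 L)) (S (F 38 L) (F 6 L))) (F 2 L))))))
noncomputable def v9_7 : Tr := (S (V (F 18176 (T (U (S (V (T (S (F 525 L) (F 516 L)) (F 524 (S (F 321 L) L))) (F 2077 (S (F 2 L) L))) (V (T (V (S (F 644 L) (F 640 L)) (S (F 532 L) (F 4 L))) (U (K 6) (S (F 2564 L) (F 4 L)))) (T (V (F 4 L) (F 2076 L)) (F 2068 (V L (F 322 L)))))) (S (F 517 (V (S (F 385 L) L) (F 193 L))) (V (T (S (F 517 L) (F 516 L)) (S (F 2565 L) (F 5 L))) (F 2053 (T (S (F 194 L) L) (F 128 L)))))) (F 2053 (U (S (F 194 (V (K 2) L)) (V (K 4) (S (F 194 L) (F 192 L)))) (S (S (F 450 L) (F 192 L)) (V (T (S (F 66 L) L) L) (F 192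 L))))))) (F 56193 (T (U (S (F 66 L) (V (S (F 66 L) (F 2 L)) (F 66 L))) (S (F 67 L) (S (F 67 L) (F 2 L)))) (S (F 67 L) (S (F 3 L) L))))) (V (T (U v9_4 (S (F 18176 (V (T (S (F 512 L) (V (F 1664 L) (F 1152 L))) (S (S (F 2052 L) (F 4 L)) (V (F 3200 (S L L)) (F 2052 L)))) (T (V (S (F 2564 L) (F 3072 L)) (S (F 2069 L) (F 2052 L))) (F 2053 (S L (V L (F 64 L))))))) (V (F 17922 (T (V (F 1282 (S (S (F 32 L) (F 32 L)) (S (F 1 L) (F 1 L)))) (S (F 2320 (S L L)) (F 2306 (S L L)))) (S (V (S (F 2320 L) (F 2304 L)) (S (F 2064 L) (F 2304 L))) (V (T (F 2306 L) (F 2304 L)) (S (F 2304 L) (F 2304 L)))))) (T (F 17411 (S (V (F 560 (T L L)) (S (F 112 L) (F 48 L))) (V (S (F 528 L) (F 528 L)) (S (F 80 L) (F 576 L))))) (F 17921 (V (S (S (F 21 L) (F 2320 L)) (S (F 2304 L) (F 2304 L))) (S (F 53 (S L L)) (T (F 2336 L) (F 2085 L))))))))) v9_5) v9_6))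
noncomputable def v9_8 : Tr := (S (F 9664 (V (T (U (F 495 (S (K 0) (K 0))) (S (F 5 L) (S (F 5 L) (T (F 5 L) (F 5 L))))) (F 131 (U (K 3) (S L (V (K 3) L))))) (T (S (F 135 L) (F 2 L)) (S (F 195 L) (F 130 L))))) (V (T (U (F 16367 (S (K 0) (V (K 0) (S (K 0) (K 0))))) (S (F 13184 (V (U (K 4) (T (S (F 6 L) L) (S (K 4) (F 4 L)))) (T (F 6 L) (F 6 L)))) (V (T (S (F 4800 (V (S (F 9 L) (F 64 L)) (S (F 73 L) (F 9 L)))) (F 4744 (V (U (S (F 528 L) (F 528 L)) (F 512 L)) (S (F 17 L) (F 528 L))))) (F 4800 (S (U (K 5) (S (F 9 L) (F 1 L))) (U (K 5) (V (S (F 577 L) (F 576 L)) (F 65 L)))))) (F 8896 (T (S (F 9 L) (S (F 1 L) (F 1 L))) (S (F 12 L) (S (F 9 L) (F 8 L)))))))) (U (K 4) (S (F 10176 (V (K 3) (S (F 1 L) L))) (V (T (S (K 4) (V (F 712 (S (K 6) L)) (F 704 L))) (F 16367 (S (K 0) (K 0)))) (F 9024 (T (S (F 76 L) (S (F 12 L) (F 8 L))) (S (K 5) (F 4 L))))))))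 (F 9664 (T (U (S (S (F 5 L) (F 4 L)) (V (S (F 37 L) (F 4 L)) (F 32 L))) (S (F 1 L) (S (F 1 L) (T (F 1 L) (F 4 L))))) (U (S (S (F 130 L) L) (V (K 4) L)) (S (F 2 L) (S L (T (F 4 L) (F 2 L)))))))))
noncomputable def treeV9 : Tr := (F 0xfffffffffffffffffffffffffffffffffffffffffffffffffffffffffffffffffffffffffffffffffffffffffffffffffffffffffffffffffffffffffffffffffffffffffffff77ffffffffffffffffffffffffffffffffffffffffffffffffffffffffffffffffffffffffffffffffffffffffffffffffffffefffff3fffffffbffffffffffffffffffffffffffffffffffffffffffffffffffffffffffffffffffffffffffffffffffffff73ffffffffbf9fffff9e3fffff3bffffffffffffffffffffffffffffffffffffffffffffffffffffffffffffffffffffffffffffffffffffff9fd (V (F 2835 (U (F 51551 (T (S (K 5) (V (F 91 (U (K 0) (T (S (K 0) (F 1 (V (K 0) (T (K 0) (K 0))))) (S (K 0) (V (K 1) (K 0)))))) (U (K 5) (T (S (K 5) (V (T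 (U (K 5) L) (K 5)) (U (K 5) (T (S (K 5) (F 64 L)) (K 5))))) (K 5))))) (K 5))) v9_2)) (U (F 5398040 (T v9_3 (F 7552 (S (V (K 3) (U (F 247 (T (S (K 0) (K 0)) (K 0))) (T (S (F 65 L) (S L (K 3))) (F 65 (S L (K 3)))))) (F 247 (V (K 0) (U (K 0) (T (S (K 0) (K 0)) (K 0))))))))) (T (F 1198099 v9_7) (F 5390919 v9_8)))))

theorem pV9 : chkV par treeV9 160 32 320 64 384 128 163840 327680 Lc = true := by decide +kernel

noncomputable def v10_0 : Tr := (V (F 32511 (U (K 0) (T (K 0) (S (K 0) (K 0))))) (U (F 32503 (T (S (V (K 0) (K 1)) (K 0)) (S (K 1) (V (K 0) (U (K 1) (T (K 0) (K 1))))))) (T (F 18435 (S (V (U (K 4) (T (F 229 (S L (K 3))) (S (F 1057 L) (F 161 L)))) (F 1185 (U (T (S (K 0) L) (K 0)) (T (S (F 4 L) (F 32 L)) (S (T L (K 0)) (T L (S L L))))))) (V (F 2031 (U (K 0) (S (K 0) (K 0)))) (U (F 1519 (T (F 1 (S (K 0) (K 0))) (S (T (K 1) (S (K 0) (K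 1))) (K 1)))) (T (F 1156 (S (F 136 (S L L)) L)) (S (F 1185 (T L L)) (S (F 1153 L) (F 1184 L)))))))) (F 2086 (S (F 1091 (V (U (K 0) (T (S (K 0) (U (K 3) (S L L))) (K 0))) (U (K 0) (T (S (K 0) (T (S (K 0) L) (K 0))) (K 0))))) (V (F 67 (U (K 4) (T (F 239 (S (K 0) (K 0))) (S (V (K 4) (T (F 1 L) L)) (K 4))))) (U (T (V (K 5) (S (K 9) (S (F 1088 L) (K 5)))) (S (K 9) (S (K 9) (T (F 64 L) (S (K 9) (F 66 L)))))) (T (S (F 67 (T (S (F 1 L) (F 1 L)) (S L L))) (F 1027 (T L (S (F 8 L) (F 8 L))))) (F 67 (S (S (K 1) (T (S L L) (S (K 1) L))) (T (S L L) (V L L))))))))))))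
noncomputable def v10_1 : Tr := (T (F 1043 (S (V (U (K 5) (T (F 2015 (S (S (K 0) (K 0)) (K 0))) (S (F 67 (V (K 4) (S L (F 128 L)))) (F 69 (V (K 4) (S (F 128 L) (F 4 L))))))) (U (T (S (V (K 5) (U (K 9) (S (K 9) (F 66 L)))) (V (K 5) (T (F 64 L) (F 64 L)))) (S (F 1503 (V (S (K 0) (S (K 0) (K 1))) (K 0))) (V (K 5) (T (F 66 L) (F 87 (S L L)))))) (T (S (F 67 (V (T L L) (T L L))) (V (F 1 L) (S (F 65 L) (F 65 L)))) (F 67 (S (T (S L L) (F 160 (V L L))) (V (S (F 128 L) (F 128 L)) (S (F 128 L) (F 128 L)))))))) (V (F 2015 (U (K 0) (T (K 0) (S (S (K 0) (K 0)) (K 0))))) (U (T (F 2015 (S (K 0) (K 0))) (S (V (K 5) (S (F 68 L) (F 68 L))) (F 324 (V (K 3) (T (K 3) L))))) (T (S (T (F 1 L) (F 69 (S L L))) (T (F 5 L) (F 261 (S L (F 1 L))))) (S (F 69 (V (S (F 4 L) (F 4 L)) (S (F 128 L) (F 128 L)))) (V (F 325 (S L L)) (F 5 L)))))))) (S (V (F 21666 (U (F 293 (T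 (F 21 (S (S (K 1) (K 0)) (K 0))) (S (F 21 (V (K 0) (K 1))) (V (K 3) (S L L))))) (T (S (V (F 1 L) (F 293 (S L L))) (S (F 1 L) (F 256 L))) (S (F 37 (S L (F 1 L))) (F 5 L))))) (F 12433 (U (T (S (K 7) (T (V (F 580 L) (F 525 L)) (F 589 (S (K 1) L)))) (F 589 (S (K 1) (V L (K 1))))) (T (F 521 (S (V (F 36 (S L L)) L) (V (F 32 L) (F 32 L)))) (F 77 (S (S (K 2) L) (S (F 1 L) (F 1 L)))))))) (F 21635 (V (U (F 503 (T (K 0) (S (S (K 0) (K 0)) (K 0)))) (T (S (V (K 3) (F 32 L)) (T (F 32 L) (F 32 L))) (S (F 37 (S L L)) (S (F 36 L) (F 36 L))))) (U (T (S (V (S (F 96 L) (F 96 L)) (F 97 (T L (F 16 L)))) (F 100 (V (F 55 (S (K 0) (K 0))) (S L L)))) (F 101 (S (V L L) (V (S L L) L)))) (T (S (T (F 65 L) (F 101 (S L L))) (V (F 96 L) (F 97 L))) (F 101 (S L (S L L)))))))))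
noncomputable def v10_2 : Tr := (T (F 1647648 (S v10_0 (V (F 29697 (U (K 2) (T (S (K 2) (V (U (K 2) (T L (F 104 (S (K 4) L)))) (K 2))) (K 2)))) (U (F 32511 (T (K 0) (S (K 0) (K 0)))) (T (F 18467 (S (V (K 4) (U (K 4) (T (S (F 4 L) (F 4 L)) (S (S (F 544 L) (F 516 L)) (S (F 516 L) (F 516 L)))))) (V (K 4) (U (K 4) (T (V (K 4) (S (F 516 L) (F 516 L))) (V (K 4) (S (F 516 L) (F 516 L)))))))) (F 2086 (S (V (F 2015 (U (K 0) (T (K 0) (K 0)))) (U (T (K 5) (S (T (K 5) (S (F 64 L) (K 5))) (K 5))) (T (S (S (F 1025 L) (F 1025 L)) (S (F 1025 L) (F 1025 L))) (S (T (F 1 L) (F 67 (S L L))) (T (F 1025 L) (F 1 L)))))) (V (K 5) (U (K 5) (T (S (S (F 1025 L) (F 1025 L)) (F 1033 (S L (F 64 L)))) (S (T (F 1025 L) (F 1025 L)) (S (F 1025 L) (F 1029 L))))))))))))) (F 232456 (S (F 24722 (V (F 77 (U (F 43 (T (K 0) (S (K 1) (K 0)))) (T (F 43 (S (V (K 0) (U (K 1) (T (S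 (K 1) (K 0)) (K 1)))) (K 0))) (S (K 2) (V (K 4) (U (F 43 (T (K 0) (K 1))) (S (F 43 (T (S (K 1) (K 0)) (K 1))) (T (K 4) (S L L))))))))) (U (K 7) (T (S (K 7) (V (U (F 879 (T (K 1) (K 0))) (T (S (V (K 4) (T (F 516 L) (K 7))) (V (K 4) (T (F 516 L) (F 516 L)))) (S (K 7) (V (S (F 5 L) (K 4)) (S (K 7) (F 516 L)))))) (U (K 7) (T (S (K 7) (V (T (F 516 L) (F 516 L)) (T (F 517 (S (K 1) L)) (F 512 L)))) (S (K 7) (V (S (K 7) (F 516 L)) (K 7))))))) (S (K 7) (V (U (K 7) (T (S (K 7) (V (F 5 L) (K 7))) (K 7))) (K 7))))))) (V (F 30386 (U (K 1) (T (K 1) (S (V (K 1) (U (K 1) (T (K 1) (S (S L (K 1)) (K 1))))) (F 61 (V (K 0) (U (K 0) (T (K 0) (S (K 0) (K 0)))))))))) (U (F 30455 (T (F 1 (S (V (K 1) (U (K 0) (T (K 1) (S (K 0) (K 1))))) (K 1))) (S (V (U (K 2) (F 4 (T (K 0) (K 1)))) (K 2)) (F 4 (V (K 0) (U (K 1) (T (S (T (K 0) (K 1)) (K 0)) (K 1)))))))) v10_1)))))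
noncomputable def v10_3 : Tr := (S (V (F 18706 (U (T (S (S (F 768 L) (F 768 L)) (S (F 768 L) (F 768 L))) (S (F 800 (T (S (K 0) L) (K 0))) (T (F 768 L) (S (F 288 L) (F 800 L))))) (T (S (F 512 L) (F 512 L)) (S (S (F 256 L) (F 256 L)) (S (F 256 L) (F 768 L)))))) (F 16660 (U (F 580 (T (S (T (S (K 1) L) (K 1)) (T (S (F 1 L) (F 1 L)) (S L L))) (S (K 1) (U (K 1) (V (S L L) (S (K 1) L)))))) (T (S (V (F 516 L) L) (S (F 516 L) (F 580 (S L L)))) (S (V (S (F 516 L) (F 516 L)) (S (F 64 L) (F 64 L))) (V (F 580 (S L L)) (S (F 576 L) (F 576 L)))))))) (V (U (F 2323 (T (S (F 1 L) (F 64 L)) (S (V (F 65 L) (F 577 (S L L))) (T (F 576 L) (F 577 (S L L)))))) (F 18435 (T (S (F 1296 L) (F 336 L)) (S (F 1296 (S L L)) (F 1088 L))))) (F 18518 (U (T (S (T (S (F 272 L) (F 272 L)) (S (F 272 L) (F 272 L))) (T (F 272 L) (F 256 L))) (S (T (S (F 16 L) (F 16 L)) (S (F 16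 L) (F 16 L))) (T L (S (F 16 L) (F 16 L))))) (T (S (S L (F 256 L)) (S (F 256 L) (F 256 L))) (S (T (S (F 16 L) (F 17 L)) (S (F 16 L) (F 17 L))) (S L L)))))))
noncomputable def v10_4 : Tr := (T (F 18450 (U (S (V (T (F 1042 L) (S (F 1040 L) (F 1040 L))) (T (F 1042 (V L (S (F 1 L) (F 1 L)))) (S (T (F 1552 L) (V (F 1616 L) (F 528 L))) (F 1552 (U (S (F 4 L) (F 4 L)) L))))) (V (T (F 1106 (S L L)) (S (F 1042 (S L L)) (F 1026 L))) (F 1600 (T (S (S (F 64 L) (F 64 L)) (S (F 64 L) (F 64 L))) (S (T L (S (F 8 L) (F 8 L))) (U (S (F 8 L) (F 8 L)) L)))))) (S (V (F 1042 (S L (S (F 128 L) (F 128 L)))) (T (F 1554 (S L L)) (S (V (F 1554 L) (F 528 L)) (F 1536 L)))) (V (F 1043 (T L (S L L))) (T (S (F 1554 L) (F 1091 L)) (S (F 1536 L) (F 1538 L))))))) (U v10_3 (S (V (F 18690 (T (S (F 1152 L) (F 1152 L)) (S (U (S (F 640 L) (F 1664 L)) (F 513 L)) (S (F 513 L) (F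 513 L))))) (F 16660 (T (S (V (S (F 516 L) (F 1540 L)) (S (F 4 L) (F 4 L))) (T (F 516 L) (S (F 516 L) (F 580 L)))) (S (V (T (F 516 L) (F 516 L)) (S (F 1 L) (F 1 L))) (T (S (F 516 L) (F 516 L)) (V (F 517 L) (F 5 L))))))) (V (F 26627 (T (S (F 128 L) (F 129 L)) (S (T (F 136 L) (F 520 L)) L))) (F 18438 (T (S (S (F 256 L) (F 320 L)) (S (F 320 L) (F 1344 L))) (S (U (S (F 320 L) (F 321 L)) (F 257 L)) (U (F 321 (S L L)) (F 65 L)))))))))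
noncomputable def v10_5 : Tr := (T (U (F 4177 (S (V (T (F 1029 (S L (S (F 128 L) (F 128 L)))) (S (F 1029 (S L L)) (S (F 1029 L) (F 1030 L)))) (T (F 1029 (S (S (F 1 L) L) (S L L))) (S (U (F 1536 L) (F 1537 L)) (S (F 1536 L) (F 1540 L))))) (V (T (F 7 (S (S (F 1 L) (F 1 L)) L)) (S (S (F 1030 L) (F 7 L)) (F 7 (S L L)))) (U (T (S (F 1029 L) (F 1028 L)) (F 1540 (S L L))) (F 1030 (T (S (F 128 L) (F 128 L)) (S (F 1 L) (F 1 L)))))))) (F 22545 (S (T (V (F 513 L) (F 545 (S L (F 1 L)))) (V (F 545 (S L L)) (S (F 544 L) (F 545 L)))) (V (T (F 33 L) (F 545 (S L L))) (F 545 (T (S (F 1 L) L) (S L L))))))) (U (S (V (F 4163 (U (T (S (F 288 L) (F 258 L)) (S (S (F 1312 L) (F 1282 L)) (F 1282 (S L L)))) (T (S (F 259 L) (F 262 L)) (S (F 1026 L) (F 1026 L))))) (F 4182 (U (T (S (S (F 513 L) (F 513 L)) (S (F 513 L) (F 514 L))) (S (T (F 1 L) (F 1 L)) (S (F 512 L)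 (F 512 L)))) (T (S (S (F 513 L) (F 515 L)) (F 512 L)) (S (S (F 1 L) (F 3 L)) (S (F 3 L) (F 3 L))))))) (F 4163 (V (U (T (F 1286 (S (S L L) (S L L))) (S (F 1026 L) (F 1026 L))) (T (F 262 (S (F 128 L) L)) (S (F 1282 L) (F 1030 L)))) (U (T (S (F 1280 L) (F 1282 L)) (S (S (F 1280 L) (F 1282 L)) (F 1282 (S L L)))) (F 1282 (T (S L (F 64 L)) (S (S L L) (S (F 128 L) (F 64 L))))))))) (F 12354 (S (V (T (F 1027 (S L (F 4 L))) (S (F 1025 L) (F 1025 L))) (F 641 (T (S (T (F 1 L) (F 1 L)) (S (F 1 L) (F 1 L))) (S (T L L) (S L L))))) (V (T (F 1155 (S L L)) (S (F 1025 L) (F 1538 L))) (T (F 1666 (S (S (F 64 L) (F 64 L)) L)) (S (F 513 L) (F 1536 L))))))))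
noncomputable def v10_6 : Tr := (S (V (F 853289 (T (U (F 5137 (S (V (F 265 L) (T (F 265 L) (F 256 L))) (V (S (F 265 L) (F 1 L)) (T (F 257 L) (S (F 257 L) (F 257 L)))))) (F 7171 (S (S (F 36 L) (F 32 L)) (V (F 4 L) L)))) (U (S (V (F 7187 (U (K 1) (S L L))) (T (F 4115 (S L L)) (S (S (F 4114 L) (F 4114 L)) (S (F 4114 L) (F 6162 L))))) (V (F 7171 (U (K 1) (S (F 32 L) (F 8 L)))) (T (F 7187 (S (S L L) (S L L))) (S (F 6147 (S L L)) (S (F 6147 L) (F 2115 L)))))) (S (V (F 7170 L) (F 6147 (T (F 1 L) (S (F 64 L) (F 64 L))))) (F 7171 (V (S L L) (T L (S L L)))))))) (F 1704969 v10_4)) (F 1639457 (V (T (F 26625 (U (S (V (F 137 (T L (S (F 16 L) (F 16 L)))) (T (F 129 L) (S (F 1161 L) (F 161 L)))) (V (T (F 161 (S (F 32 L) L)) L) (F 161 (T (S (F 32 L) L) (S L L))))) (S (F 137 (V (S (F 32 L) L) (S (F 1 L) L))) (V (S (F 9 L) (F 1 L)) (S (F 33 L) (F 33 L))))))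 (U (S (V (F 31041 (U (K 1) (S (F 128 L) L))) (F 12291 (T (U (K 3) (F 3 L)) (S (S (F 80 L) (F 80 L)) (S (F 80 L) (F 66 L)))))) (F 10305 (V (T (S (F 19 L) (F 81 L)) (F 81 (S L L))) (T (S (F 3 L) (F 3 L)) (S (S (F 1026 L) (F 1026 L)) (F 2 L)))))) (F 30721 (S (V (S (F 516 L) (F 20 L)) (T (F 512 L) (F 532 (S L L)))) (V (S (F 16 L) (F 16 L)) (T (F 16 L) (S (F 528 L) (F 528 L)))))))) v10_5)))
noncomputable def v10_7 : Tr := (T (U (S (V (T (S (F 6146 L) (F 6146 L)) (S (F 6146 L) (F 6146 L))) (U (T (S (S (K 3) (F 4102 L)) (F 4098 L)) (F 6212 (S (K 6) (S L L)))) (T (S (F 6146 L) (F 6150 L)) (S (F 6148 L) (F 6212 L))))) (V (U (K 8) (S (F 6146 L) (F 6146 L))) (U (T (S (F 6210 (S L (F 128 L))) (F 2114 L)) (F 6214 (S (S L L) (S L L)))) (T (F 6210 (S L (F 256 L))) (F 6212 (S L (F 128 L))))))) (S (V (S (F 6146 L) (F 6146 L)) (T (S (F 6146 L) (F 6150 L))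 (S (F 6148 L) (F 6150 L)))) (V (S (F 6146 L) (F 6210 L)) (T (S (F 6150 L) (F 6210 L)) (F 6212 (S L L)))))) (U (S (V (T (F 6150 (S L (S (F 48 L) (F 48 L)))) (F 6756 (S L L))) (F 6724 (S (K 5) (T (V L (S (F 16 L) (F 16 L))) (S L (F 8 L)))))) (V (F 6210 (S (T (F 128 L) (F 146 L)) (T (F 16 L) (F 146 L)))) (F 6212 (T (S (S L L) (S (F 16 L) (F 16 L))) (S (F 2 L) (F 18 L)))))) (S (F 6660 (V (S L (F 128 L)) (T (S L (F 8 L)) (S (S (F 8 L) (F 24 L)) (F 8 L))))) (V (T (F 6210 L) (F 6724 L)) (F 6724 (T (S L L) (S (F 8 L) (F 136 L))))))))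
noncomputable def v10_8 : Tr := (U (S (V (U (F 2389 (T (S (K 6) (S (K 6) (T L L))) (K 6))) (T (F 2324 (S (S (S (K 7) L) L) (S L (F 32 L)))) (F 2372 (S (K 7) (T (F 64 L) (F 5 L)))))) (F 337 (U (K 7) (T (S (V (S (K 7) (F 256 L)) (K 7)) (V (S (F 260 L) (F 260 L)) (S (F 9 L) (F 257 L)))) (F 265 (S (K 1) (S (K 1) (V L L)))))))) (V (F 2372 (U (T (S (V (F 64 L) (S (F 576 L) (F 576 L))) (V (F 512 L) (F 577 (S L L)))) (S (T (F 64 L) (S (F 69 L) (F 577 L))) (S (F 1 L) (F 1 L)))) (T (S (S (F 512 L) (F 512 L)) (S (F 513 L) (F 513 L))) (S (S (F 65 L) (F 513 L)) (F 1 L))))) (F 337 (U (T (S (V (S (F 260 L) (F 260 L)) (S (F 256 L) (F 260 L))) (T (S (F 260 L) (F 261 L)) (F 261 (S L L)))) (F 265 (S (V (S (K 1) L) (K 1)) (V (S (F 32 L) (F 32 L)) (S L (F 32 L)))))) (T (S (V (F 261 (S L L)) (S (F 257 L) (F 261 L))) (T (F 260 L) (F 261 (S L (F 32 L))))) (S (V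 (F 269 (S L L)) (F 9 L)) (F 261 (T L (S (F 32 L) (F 32 L)))))))))) (S (V (F 10500 (T (S (S (S L L) L) (S L L)) (S (V (F 2 L) (S (F 2 L) (F 18 L))) (S (S (F 2 L) (F 16 L)) (F 16 L))))) (T (F 8465 (S (T (V (F 2 L) (S (F 36 L) (F 36 L))) (V (F 4 L) (S (F 36 L) (F 36 L)))) (V (T (F 258 L) (F 290 (S L (F 32 L)))) (T (S (F 38 L) (F 290 L)) (F 38 (S L L)))))) (F 9552 (S (V (S L L) (T (S (F 256 L) (F 258 L)) (S (F 256 L) (F 256 L)))) (T (V (S (F 320 L) (F 322 L)) (F 256 L)) (V (F 2 L) (F 256 L))))))) (V (F 10500 (T (S (S (F 512 L) (F 16 L)) (S (F 16 L) (F 528 L))) (S (S (F 16 L) (F 528 L)) (S (F 528 L) (F 528 L))))) (T (F 10305 (S (V (S (F 264 L) (F 328 L)) (S (F 72 L) (F 72 L))) (T (F 328 (S L L)) (F 320 L)))) (F 8513 (S (V (F 262 (S L L)) (S (F 68 L) (F 70 L))) (S (F 322 (T L (F 32 L))) (F 258 L))))))))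
noncomputable def v10_9 : Tr := (U (S (F 1162 (V (U (K 5) (T (S (K 5) (S (K 5) L)) (K 5))) (K 5))) (V (F 1162 (U (S (V (S (K 5) L) (K 5)) (T (S (F 16 L) (F 16 L)) (F 16 L))) (T (S (S (F 16 L) (F 16 L)) (F 128 L)) (S L (F 8 L))))) (F 162 (U (T (S (K 5) (V (F 322 (S L (F 4 L))) (F 320 L))) (S (K 5) (S (K 5) (F 320 L)))) (T (S (V (F 320 L) (F 256 L)) (V (F 322 L) (F 320 L))) (S (S (K 5) (F 64 L)) (S (F 320 L) (F 322 L)))))))) (S (V (S (F 138 (T (V (S (F 2 L) (F 34 L)) (S L (F 2 L))) (U (K 6) (S L (F 2 L))))) (F 1160 (T (V (F 128 L) (S (F 128 L) (F 144 L))) (T (S (F 144 L) (F 144 L)) L)))) (T (S (U (K 4) (S (F 163 (T L L)) (F 130 L))) (V (F 138 (S (F 32 L) (F 2 L))) (F 162 (S L (F 256 L))))) (S (U (K 4) (S (F 2 L) (F 2 L))) (U (F 138 (S (K 6) (S L (F 32 L)))) (S (F 10 L) (F 138 L)))))) (V (F 1162 (S (T (S L (F 128 L)) (S L (F 128 L))) (T L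 (F 128 L)))) (T (S (V (F 1162 L) (F 163 (S L (F 2 L)))) (F 1162 (S L (F 128 L)))) (S (V (F 1194 (S L L)) (F 34 L)) (F 1162 (S L (F 128 L))))))))
noncomputable def v10_10 : Tr := (T (U (S (F 8838 (V (U (K 3) (S L L)) (U (U (K 3) (T (F 1015 (S (K 0) (K 0))) (S (F 257 L) (F 800 L)))) (T (S (F 513 L) (F 768 L)) (S (F 257 L) (F 768 L)))))) (V (F 4291 (U (K 3) (S (F 512 L) L))) (F 135 (T (S (S (F 130 L) (F 130 L)) L) (F 1154 (S (S L L) (S L L))))))) (S (F 24582 (V (T (F 9 L) (F 1128 (S L L))) (S (T (F 1064 L) (F 552 L)) (S (F 32 L) (F 32 L))))) (V (F 20611 (T L (F 545 (S L L)))) (F 8327 (S (S L L) (T (F 3 L) (F 576 L))))))) (U (S (F 8900 (V (S (T (F 257 L) (F 385 L)) (T (F 384 L) (F 385 L))) (S (T (S (F 129 L) (F 129 L)) (F 129 L)) (T (S (F 129 L) (F 384 L)) (F 129 L))))) (V (F 710 (T (S (F 256 L) (F 512 L)) (S (F 258 L) (F 256 L)))) (F 8396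 (T (S (S (F 272 L) (F 272 L)) (S (F 272 L) (F 768 L))) (S (F 16 L) (S (F 528 L) (F 528 L))))))) (S (F 25228 (V (S (S (F 146 L) (F 144 L)) (S (F 144 L) (F 144 L))) (S (S (F 2 L) (F 16 L)) (S (F 16 L) (F 16 L))))) (F 204 (V (S (F 546 (S (F 128 L) L)) (F 512 L)) (S (T (F 515 L) (F 1059 L)) (T (F 1538 L) (F 35 L))))))))
noncomputable def v10_11 : Tr := (U (S (V (U (T (S (S (F 73 L) (F 1027 L)) (F 1035 (S L L))) (S (F 3136 (S L L)) (F 1089 (S L L)))) (T (S (F 3073 L) (F 1027 L)) (F 3073 (S (S (F 8 L) (F 8 L)) L)))) (U (T (S (F 2057 (T L (S (F 17 L) (F 17 L)))) (S (F 2057 (S L (F 1 L))) (F 1033 L))) (F 3081 (S (V (F 8 L) (F 8 L)) (T L (F 8 L))))) (F 3081 (T (S (S L L) (S L L)) (S (S (F 8 L) (F 8 L)) (S (F 8 L) (F 8 L))))))) (V (U (S (T (F 1035 (S L L)) (F 1025 L)) (F 1027 (T L (S (F 64 L) (F 64 L))))) (T (F 1027 (S L L)) (S (F 3073 L) (F 1027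 L)))) (U (F 1033 (T (S (S L L) (S L (F 256 L))) (S (S (F 1 L) L) (S L L)))) (T (F 1033 (S (S (F 1 L) (F 1 L)) (S (F 1 L) (F 256 L)))) (S (F 3073 L) (F 1025 L)))))) (S (V (S (T (F 3073 (S (F 8 L) (F 256 L))) (F 3136 L)) (F 3073 (T (S (F 256 L) (F 256 L)) L))) (F 3073 (T (S (S L (F 64 L)) (S (F 64 L) (F 64 L))) (S (S (F 8 L) (F 72 L)) L)))) (V (T (F 1027 (S L L)) (S (F 3073 L) (F 1025 L))) (F 3073 (T (S (S (F 64 L) (F 64 L)) (S (F 64 L) (F 64 L))) (S L (S (F 64 L) (F 64 L))))))))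
noncomputable def treeV10 : Tr := (F 0xfffffffffffffffffffffffffffffffffffffffffffffffffffffffffffffffffffffffffffffffffffffffffffffffffffffffffffffefffffffffffffffffffffffffffffffffffffffffffffffffffffffffffffffffffffffffffffffffffffffffffffffffffffffffffffffffffffffffffffffffffbfeffffe7fffffffbffffffffffffffffffffffffffffffffffffffffffffffffffffffffffffffffffffffffffffffffffffff77ffffffffbf9fffff9e7fffff33fbffffffffffffffffffffffffffffffffffffffffffffffffffffffffffffffffffffffffffffffffffffbff (U v10_2 (T v10_6 (S (V (F 722217 v10_7) (T (F 689163 v10_8) (F 166223 v10_9))) (V (F 590885 v10_10) (F 756777 (T v10_11 (U (S (F 3136 (V (T (S (S (F 2 L) (F 256 L)) (S (F 256 L) (F 16 L))) (S (F 18 L) (F 18 L))) (U (F 290 (T (S (T L L) (S L (F 4 L))) (S (S L (F 4 L)) (S (F 4 L) (F 4 L))))) (S (T (F 290 (S L L)) (F 258 L)) (F 290 (T L (F 4 L)))))))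 (V (U (F 1105 (T (S (S (F 1 L) (F 1 L)) (S L L)) (S (F 5 L) (F 1 L)))) (T (S (F 3137 L) (F 1041 L)) (F 3409 (S L L)))) (F 3073 (T (S (V (F 40 L) (F 74 L)) (T (F 64 L) (F 40 L))) (F 42 (S (S (F 4 L) (F 4 L)) L)))))) (S (F 3136 (V (T (S (F 2 L) (F 256 L)) (F 274 (S L L))) (T (S (S (F 258 L) (F 290 L)) (F 258 L)) (S (F 2 L) (F 274 L))))) (F 3073 (V (T (S L L) (S (F 42 L) (F 40 L))) (T (S (F 10 L) (F 32 L)) (F 42 (S (F 4 L) L))))))))))))))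

theorem pV10 : chkV par treeV10 224 32 320 64 320 64 163840 327680 Lc = true := by decide +kernel


end Pool.Agent.Lib.H56.Gen.D8
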