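import Pool.Agent.Lib.H56.Gen.D8.Par
import Pool.Agent.Lib.H56.Gen.D8.Cos

/-!
# Certificate tree V, part 2
-/

set_option maxRecDepth 100000

namespace Pool.Agent.Lib.H56.Gen.D8

open Tr

noncomputable def v11_0 : Tr := (S (F 111616 (V (U (F 3273 (T (S (K 0) (T (S (K 0) L) (K 0))) (K 0))) (T (S (V (F 3273 (S L L)) (S (F 193 L) (F 2113 L))) (F 2113 (V (F 65 L) (S L (F 64 L))))) (S (K 9) (V (F 1089 (T (F 65 L) L)) (T (F 65 L) (F 64 L)))))) (U (T (S (F 3583 (S (K 0) (K 0))) (U (K 9) (V (S (F 64 L) (F 64 L)) (T (F 64 L) (F 64 L))))) (K 9)) (T (S (V (T (F 196 L) (F 192 L)) (F 196 (T (S (F 256 L) L) (S (F 256 L) L)))) (V (T (F 65 L) (F 64 L)) (T (F 1 L) L))) (S (T (V (F 64 L) (F 192 L)) (K 9)) (V (T (F 64 L) (F 64 L)) (T (S (F 193 L) (F 65 L)) (F 64 L)))))))) (V (U (F 107522 (T (F 2067 (S (V (F 8 L) (T (F 8 L) (S (F 8 L) (F 8 L)))) (T L (S (F 8 L) (F 8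 L))))) (S (T (V (F 2195 L) (F 130 L)) (K 10)) (T (F 147 (V (F 1 L) (S L (F 1 L)))) (V (F 2193 L) (S (F 146 L) (F 19 L))))))) (F 128000 (T (F 1540 (S (S L L) (S L L))) (S (V (S (F 548 L) (F 1540 L)) (T (F 516 L) (F 32 L))) (T (F 1572 (S L L)) (S (F 516 L) (F 1540 L))))))) (F 111616 (U (T (S (V (T (F 2049 L) L) (T (S (F 64 L) (F 1 L)) (S L L))) (V (F 1033 (T (S (F 1 L) (F 1 L)) (S L L))) (T (S (F 1 L) (F 1 L)) (S L L)))) (S (V (T (S (K 9) (F 64 L)) (K 9)) (T (S (K 9) L) (K 9))) (V (T (S (F 64 L) (F 1025 L)) (S (F 64 L) (F 1 L))) (T (S L L) (S L L))))) (T (S (V (S (F 1 L) (F 9 L)) (T (F 1 L) (S (F 65 L) (F 65 L)))) (V (S (F 9 L) (F 2057 L)) (T (F 9 L) (F 1 L)))) (S (V (T (F 1 L) L) (T L L)) (V (T (F 9 L) (F 1 L)) (T (S (F 65 L) (F 9 L)) L))))))))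
noncomputable def v11_1 : Tr := (U (T (S (K 2) (V (F 58627 (U (F 479 (T (K 1) (K 0))) (T (V (K 5) (S (T (F 66 L) (K 9)) (U (K 5) L))) (F 479 (S (K 0) (T (S (K 0) (K 1)) (K 0))))))) (U (K 2) (T (S (F 131067 (V (K 0) (S (K 0) (K 0)))) (V (F 41987 (T (S (F 36 L) (F 34 L)) (S (K 11) L))) (T (V (F 111616 (S (F 64 L) (F 2048 L))) (S (F 78848 L) (F 110592 L))) (F 111616 (U (K 9) (S (K 9) L)))))) (K 2))))) (K 2)) (T v11_0 (F 111616 (S (F 3583 (V (K 0) (U (K 0) (T (S (K 0) (K 0)) (K 0))))) (V (U (T (S (K 9) (V (F 1097 (T (S L L) (S (K 1) L))) (T (S (K 9) (F 1088 L)) (K 9)))) (K 9)) (T (S (V (T (F 1097 (S L (F 1 L))) (F 1088 L)) (T (F 64 L) (F 64 L))) (V (F 1033 (T (F 16 L) L)) (T (F 9 L) (F 1 L)))) (S (K 9) (V (F 1097 (T (S L L) (S L L))) (T (F 64 L) (F 65 L)))))) (U (T (S (K 9) (V (T (S (K 9) (F 64 L)) (K 9)) (T (S (K 9) L) (K 9)))) (K 9)) (T (S (V (T (S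 (F 65 L) (F 65 L)) (F 64 L)) (T (F 64 L) (F 80 L))) (V (T L (F 64 L)) (T L (F 64 L)))) (S (K 9) (V (S (F 64 L) (F 64 L)) (S (F 80 L) (F 80 L)))))))))))
noncomputable def v11_2 : Tr := (V (U (F 131067 (T (U (K 0) (S (K 0) (K 0))) (K 0))) (T (S (V (U (K 2) (T (S (K 2) (F 78848 L)) (K 2))) (U (K 2) (T (S (K 2) (F 78848 L)) (K 2)))) (V (U (T (S (K 2) (S (K 2) (F 77824 L))) (K 2)) (T (S (F 78848 L) (F 77824 L)) (V (F 111648 (S (K 8) L)) (F 77824 L)))) (U (T (S (K 2) (T (F 77824 L) (F 77824 L))) (K 2)) (T (V (F 77824 L) (F 77824 L)) (S (F 77824 L) (F 77824 L)))))) (F 131067 (S (K 0) (V (K 0) (U (K 0) (S (K 0) (K 0)))))))) (U (T (U (F 131067 (S (K 0) (K 0))) (S (K 2) (V (F 131067 (T (S (K 0) (K 0)) (K 0))) (T (S (K 2) (S (K 2) (F 69632 L))) (K 2))))) (K 2)) (T (S (V (T (F 78352 (U (K 8) (S (F 128 L) L))) (S (K 2) (F 77952 L))) (F 94848 (T (U (K 7) L) (S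 (F 114 L) (F 48 L))))) (V (T (S (T (F 77824 L) (F 77824 L)) (V (S (F 78848 L) (F 77824 L)) (F 77824 L))) (S (S (F 77952 L) (F 77824 L)) (V (F 77824 L) (F 78848 L)))) (T (S (S (F 94336 L) (F 94208 L)) (S (F 77824 L) (F 77824 L))) (S (F 94400 L) (F 77952 L))))) (F 78976 (S (F 3583 (S (K 0) (K 0))) (V (T (U (K 9) (S (K 9) L)) (K 9)) (F 39 (U (K 2) (T (S (F 32 L) L) (F 32 L))))))))))
noncomputable def v11_3 : Tr := (V (U (T (S (V (T (S (F 111616 L) (F 110592 L)) (F 111616 (V L L))) (T (S (F 79360 L) (F 78848 L)) (F 111616 (S L L)))) (V (T (S (F 110592 L) (F 110592 L)) (F 111616 (S (S L L) (S L L)))) (T (V (F 128000 (S L L)) (F 77824 L)) (S (F 110592 L) (F 111616 (S L L)))))) (F 111616 (S (V (T (U (K 9) L) (K 9)) (T (S (F 80 L) (F 64 L)) (F 81 (S (K 2) L)))) (V (T (S (S (F 64 L) (F 64 L)) (S L L)) (S L L)) (T (S L (S (F 1 L) (F 1 L))) (S (F 80 L) (F 16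 L))))))) (T (F 126976 (S (V (T (S (F 6 L) (F 6 L)) (S (F 66 L) (F 6 L))) (T L (S (F 70 L) (F 6 L)))) (V (T (S (F 6 L) (F 6 L)) (S (F 6 L) (F 6 L))) (T (S (F 6 L) (F 6 L)) (S (F 6 L) (F 6 L)))))) (F 111616 (S (V (T (S (F 65 L) (F 65 L)) (F 1 L)) (S (F 17 L) (F 1 L))) (V (T (S (F 65 L) (F 65 L)) L) (T (S (F 65 L) (F 3 L)) (F 1 L))))))) (U (T (S (V (T (F 94720 (S (F 128 L) L)) (F 126976 L)) (F 127616 (T L (F 9 L)))) (V (T (S (F 94208 L) (F 94208 L)) (F 126976 (S L L))) (F 126976 (T (S (F 4 L) L) (F 16 L))))) (F 128000 (S (V (T (S (F 43 L) (F 40 L)) (F 41 L)) (F 59 (S (F 16 L) L))) (V (T (S (F 8 L) L) (S (F 41 L) (F 9 L))) (T (F 9 L) (F 57 L)))))) (F 126976 (T (S (V (T (F 4 L) (F 6 L)) (F 21 (T L (F 320 L)))) (V (T L (F 7 (S L L))) (S (F 5 L) (F 4 L)))) (S (F 23 (T (S (F 32 L) L) (F 32 L))) (V (T (F 18 L) (F 19 L)) (F 23 (S (F 32 L) L))))))))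
noncomputable def v11_4 : Tr := (T (S (V (U (F 78880 (T (S (V (T (S (K 9) (F 136 L)) (K 9)) (F 138 (T (S (K 3) L) (F 507 (S (K 0) (K 0)))))) (V (T (S (F 128 L) L) (S (K 9) L)) (T (S (F 136 L) (F 8 L)) (S (F 168 L) (F 8 L))))) (F 3583 (S (K 0) (V (K 0) (S (K 0) (K 0))))))) (F 128000 (T (S (V (T (S (F 98 L) (F 34 L)) (F 98 (S (F 32 L) L))) (F 98 (T (S (F 32 L) L) (S (F 160 L) (F 32 L))))) (V (T (S (F 34 L) (F 2 L)) (S (F 34 L) (F 32 L))) (T (S (F 66 L) (F 34 L)) (F 2 L)))) (S (F 106 (V (T (S L L) (F 123 (S (K 0) (K 0)))) (S (F 64 L) L))) (V (T (S (F 98 L) (F 34 L)) (F 32 L)) (S (F 42 L) (F 40 L))))))) (F 94720 (U (T (V (S (F 212 (S (F 16 L) L)) (T (S (F 212 L) (F 192 L)) (F 212 (S (F 144 L) L)))) (F 241 (S (F 96 L) (T L (F 96 L))))) (F 213 (S (F 80 L) (T (V L (F 80 L)) (F 80 L))))) (T (S (F 213 (V (S (F 16 L) L) (F 80 L))) (T (S (F 149 L) (F 17 L))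 (F 23 (S (F 80 L) L)))) (F 119 (S (F 16 L) (T L (F 16 L)))))))) v11_3) (F 111616 (S (F 81 (V (U (K 2) (T (S (F 507 (S (K 0) (K 0))) (V (S (K 2) L) (F 384 L))) (K 2))) (F 432 (T (S L (T L L)) (S L L))))) (V (U (T (S (K 9) (V (T (S (K 9) (F 64 L)) (K 9)) (F 82 (T (S (K 2) L) (K 2))))) (K 9)) (T (S (V (S (F 80 L) (F 80 L)) (F 83 (S (F 128 L) L))) (V (S (F 16 L) (F 1 L)) (F 19 (S L L)))) (F 83 (S (V (K 2) (F 128 L)) (V (S L L) (S (F 128 L) L)))))) (F 19 (U (T (S (F 352 (U (K 3) L)) (V (T (S (F 96 L) (F 32 L)) (F 96 L)) (F 96 L))) (F 507 (S (K 0) (S (K 0) (K 0))))) (T (S (F 352 (S (F 2 L) L)) (S (F 32 L) L)) (S (F 368 L) (F 96 L)))))))))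
noncomputable def v11_5 : Tr := (U (T (U (F 262075 (S (V (K 0) (K 1)) (K 0))) (S (F 172291 (V (K 7) (T (V (K 7) (S (K 11) L)) (F 1919 (V (S (K 0) (K 1)) (K 0)))))) (F 42242 (V (K 7) (T (K 7) (S (S L (K 7)) (K 7))))))) (U (F 262075 (S (K 1) (V (K 0) (T (K 0) (K 1))))) (S (K 2) (V (K 6) (T (V (K 6) (S (F 173058 (S (K 11) L)) (F 173056 L))) (F 173058 (S (K 11) (U (K 11) (S (K 11) L))))))))) (T (S (V (F 173315 (T (S (F 3 L) (F 3 L)) (S L (F 2 L)))) (U (T (F 172035 (S (F 16 L) (F 64 L))) (S (F 173056 L) (F 173056 L))) (T (F 173313 (S (F 1 L) (F 2050 L))) (F 238592 (S (F 2 L) (F 16 L)))))) (V (F 189699 (T (K 5) (S L (K 5)))) (T (F 188675 (S (S L (F 8 L)) L)) (F 173312 (S (S L (F 2048 L)) (T (F 6146 L) (F 2050 L))))))) (S (V (F 173058 (T (S L (F 32 L)) (U (K 11) (S (K 11) (F 36 L))))) (U (F 173058 (T (S (K 11) (S (K 11) L)) (K 11))) (F 177152 (T (S L L)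 (S (K 10) L))))) (V (F 173314 (T (S (F 2 L) (F 2050 L)) (S (S L (F 2 L)) (S (F 2 L) (F 2 L))))) (U (T (S (F 173056 L) (F 173314 (S L L))) (S (S (K 2) (F 173056 L)) (F 173058 (S L L)))) (T (F 189696 (S L L)) (S (F 177152 L) (F 173312 L))))))))
noncomputable def v11_6 : Tr := (U (T (U (F 262075 (S (V (K 0) (T (S (K 1) (K 0)) (K 1))) (K 0))) (S (V (K 6) (T (V (K 6) (S (S (K 2) (F 173056 L)) (F 140288 L))) (S (K 2) (V (K 6) (F 140288 L))))) (V (K 6) (T (K 6) (S (V (K 6) (F 140288 L)) (K 6)))))) (U (F 261563 (S (K 2) (F 4 (V (K 0) (T (F 2 (S (K 0) (K 0))) (K 1)))))) (S (V (F 262075 (S (K 1) (K 0))) (T (S (K 2) (T (F 140288 L) (K 2))) (K 2))) (V (K 6) (T (S (V (K 6) (F 140288 L)) (F 140546 (V (K 7) (S L L)))) (U (K 9) (S (F 132098 L) (F 140546 (S L L))))))))) (T (S (V (F 173314 (T (U (K 6) (S (F 3 L) (F 3 L))) (S (T L L) (T (F 2 L) (F 2 L))))) (U (T (S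 (S (F 173056 L) (F 173058 L)) (F 173314 (T L L))) (S (S (F 173056 L) (F 173056 L)) (S (F 173056 L) (F 140290 L)))) (T (F 173312 (S L (F 2 L))) (S (F 238592 L) (F 173312 L))))) (V (F 189698 (U (K 5) (T L (S (F 1 L) (K 5))))) (U (F 140546 (T (V (K 7) (S (F 2 L) (F 6 L))) (S (S L L) (S (F 4 L) (F 4 L))))) (F 156928 (T (S (S (F 2051 L) (F 2051 L)) (F 2050 L)) (S (F 2 L) (F 2048 L))))))) (S (V (F 173058 (T (S (T (F 32 L) L) (T (F 32 L) (F 32 L))) (S (S L L) (T (F 32 L) (F 32 L))))) (T (S (V (F 173056 L) (F 177152 L)) (T (F 173056 L) (F 173056 L))) (S (F 168992 (V (F 4 L) (F 1 L))) (F 177152 (V L (S (F 129 L) (F 129 L))))))) (V (F 140546 (T (U (K 7) (S (F 6 L) (F 7 L))) (S (S L (F 4 L)) (S (F 4 L) (F 4 L))))) (U (T (S (F 140288 L) (F 140546 (S L L))) (S (F 140290 L) (F 140546 (S L L)))) (T (S (F 173312 L) (F 156930 L)) (S (F 242688 L) (F 156930 L))))))))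
noncomputable def v11_7 : Tr := (T (S (V (F 262079 (U (K 0) (T (K 0) (S (T (K 0) (S (K 0) (K 0))) (K 0))))) v11_5) (V (K 6) (U (F 173058 (T (F 8063 (U (K 0) (S (K 0) (K 0)))) (U (F 8063 (S (K 0) (K 0))) (S (V (K 7) (T (K 7) (S (V (K 7) (S L (K 7))) (K 7)))) (K 7))))) (T (F 189698 (S (V (K 5) (T (S (F 1024 L) (F 1025 L)) (S (S L (F 1024 L)) (S (F 1024 L) (F 1025 L))))) (U (K 5) (T (F 1025 L) (S (F 1025 L) (F 1033 L)))))) (S (V (F 189698 (T (K 5) (S L (K 5)))) (T (F 189698 (S (V L (S L L)) (S L L))) (S (V (F 173314 L) (F 173056 L)) (F 189696 (V (F 1024 L) (S L (F 1024 L))))))) (F 189698 (V (K 5) (T (S (S (F 1024 L) (F 1024 L)) (S (F 1024 L) (F 1025 L))) (S (T L L) (S L L)))))))))) (S (V (F 189730 (U (F 735 (T (K 1) (K 0))) (T (F 735 (S (V (K 1) (T (S (K 0) (K 1)) (K 0))) (F 1 (T (K 0) (S (K 0) (K 0)))))) (S (K 8) (V (K 5) (T (U (K 5) (S L L)) (U (K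 8) (S (K 8) L)))))))) (U (K 2) (T (S (F 177154 (V (U (K 10) (T (S (K 10) L) (K 10))) (K 10))) (V (F 173058 (T (S (S L L) (S (F 32 L) (F 32 L))) (S (S (K 11) L) (S L L)))) (U (T (S (K 2) (S (F 173056 L) (F 173056 L))) (K 2)) (T (S (F 177152 L) (F 238592 L)) (F 177152 (S (K 10) L)))))) (F 177152 (S (K 10) (V (U (K 10) (T (S (K 10) (F 2048 L)) (K 10))) (U (K 10) (T (S (K 10) (F 1 L)) (K 10))))))))) (V (F 189730 (U (K 5) (T (F 991 (S (K 0) (K 0))) (S (T (K 5) (U (K 5) (V (K 5) (S L (K 5))))) (K 5))))) v11_6)))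
noncomputable def v11_8 : Tr := (S (V (U (T (F 6161 (S (S L L) (S L L))) (S (T (F 6161 (S (F 256 L) (F 8 L))) (V (F 6289 L) (F 2065 L))) (F 6161 (T (S (F 8 L) (F 64 L)) (S L L))))) (F 6161 (T (S L (S (F 320 L) (F 64 L))) (S (T L (S (F 256 L) (F 256 L))) (T (F 256 L) L))))) (U (T (S (V (F 6161 (T L (S (F 256 L) (F 256 L)))) (T (S (F 19 L) (F 4113 L)) (S (F 3 L) (F 17 L)))) (T (F 6161 (S (S L L) L)) (V (F 6161 L) (S (F 2065 L) (F 2065 L))))) (S (V (T (S (F 2065 L) (F 2067 L)) (S (F 3 L) (F 2065 L))) (T (S (F 2 L) (F 2 L)) (S (F 2 L) (F 2 L)))) (V (T (F 6161 (S L (F 256 L))) (S (F 2065 L) (F 6161 L))) (T (S (F 17 L) (F 17 L)) (S (F 2 L) (F 1 L)))))) (T (S (T (F 4115 (S L (F 1 L))) (V (F 6163 L) (F 19 L))) (V (F 6161 (S (F 256 L) (F 64 L))) (S (F 19 L) (F 4113 L)))) (S (V (T (F 2067 L) (F 19 L)) (T (F 3 L) (S (F 19 L) (F 19 L)))) (T (S (F 19 L) (F 2065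 L)) (F 2067 (V L (S L L)))))))) (V (F 6161 (U (T (V (K 4) (S L (F 64 L))) (V (K 4) (S (S L L) (S (F 64 L) (K 4))))) (T (S (S (F 64 L) (F 64 L)) (S (F 64 L) (F 64 L))) (S (S L (F 64 L)) (S (F 64 L) (F 64 L)))))) (U (T (F 6161 (S (T (S L (F 64 L)) (V L (S L L))) (T L (S L (F 64 L))))) (S (T (V (F 6161 L) (S (F 2065 L) (F 2065 L))) (V (F 6161 (S L L)) (S (F 17 L) (F 2065 L)))) (T (F 6161 (V L (S L L))) (V (F 6161 L) (S (F 2065 L) (F 6161 L)))))) (T (F 6161 (S (T L (S (F 256 L) (F 64 L))) (T (F 64 L) L))) (S (V (F 6161 (S L L)) (S (F 17 L) (F 17 L))) (F 6161 (T (S L (F 64 L)) (S L L))))))))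
noncomputable def v11_9 : Tr := (V (U (F 173058 (T (S (V (S (F 34 L) (F 34 L)) (T (F 39 (S L L)) (S (F 261 L) (F 35 L)))) (T (V (K 7) (F 35 L)) (V (F 4131 L) (S (F 39 L) (F 291 L))))) (S (V (T (S (F 294 L) (F 291 L)) (F 294 (S (K 1) L))) (T (S (F 261 L) (F 37 L)) (S (K 11) (F 261 L)))) (V (T (F 34 L) (F 34 L)) (T (S (F 35 L) (F 35 L)) (S (F 261 L) (F 35 L))))))) (F 254976 (T (S (F 1033 (T (S L L) (V L (S (F 16 L) (F 16 L))))) (T (F 1032 L) (F 1033 (S L L)))) (S (V (F 1033 (T L L)) (S (F 1 L) (F 1 L))) (T (S (F 1032 L) (F 1032 L)) (F 1033 (V L L))))))) (F 238592 (U (T (S (V (T (S (F 3 L) (F 3 L)) (S (F 130 L) (F 3 L))) (T (S (F 2 L) (F 2 L)) (S (F 130 L) (F 2 L)))) (V (T (S (F 17 L) (F 2065 L)) (S (F 3 L) (F 17 L))) (T (S (F 2 L) (F 1 L)) (S (F 2 L) (F 2 L))))) (S (V (S (K 10) (T (F 130 L) (F 162 L))) (T (S (K 10) (F 162 L)) (K 10))) (V (T (S (F 2050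 L) (F 3 L)) (S (F 2178 L) (F 2050 L))) (T (S (F 130 L) (F 2 L)) (S (F 166 L) (F 38 L)))))) (T (S (V (T (F 3 L) (F 3 L)) (T (S (F 131 L) (F 19 L)) (F 3 L))) (V (T (F 19 L) (F 19 L)) (T (F 3 L) (F 3 L)))) (S (V (S (F 130 L) (F 3 L)) (S (F 38 L) (F 6 L))) (V (S (F 3 L) (F 3 L)) (T (F 7 L) (F 7 L))))))))
noncomputable def v11_10 : Tr := (V (F 189698 (U (T (S (V (K 5) (T (F 1025 L) (F 1 L))) (U (K 5) (T (F 1025 L) (F 1025 L)))) (S (V (S L L) (T (S (F 1 L) (F 65 L)) (S (F 1 L) (F 5 L)))) (V (F 2015 (S (K 0) (K 0))) (T (F 1 L) L)))) (T (S (T (F 1025 L) (F 1 L)) (T (F 1025 L) (F 1025 L))) (S (T (S (F 3 L) (F 5 L)) (S (F 1 L) (F 5 L))) (T (F 1 L) (S (F 5 L) (F 5 L))))))) (F 238592 (U (T (S (V (T (S (F 2065 L) (F 2065 L)) (S (F 2065 L) (F 2065 L))) (T (S (F 1 L) (F 17 L)) (S (F 1 L) (S (F 19 L) (F 2065 L))))) (T (V (F 6161 (S L L)) (S (F 17 L) (F 2065 L)))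 (V (S (F 2065 L) (F 2069 L)) (S (F 17 L) (F 17 L))))) (S (V (T (S (F 17 L) (F 2065 L)) (S (F 2051 L) (F 2065 L))) (T (S (F 2 L) (F 3 L)) (S (F 6 L) (F 6 L)))) (V (T (S (F 2065 L) (F 2069 L)) (S (F 2065 L) (F 2065 L))) (T (S (F 17 L) (F 17 L)) (S (F 5 L) (F 21 L)))))) (T (S (T (V (F 2067 L) (F 17 L)) (V (F 2065 L) (F 19 L))) (V (S (F 2065 L) (F 2065 L)) (S (F 17 L) (F 17 L)))) (S (V (S (F 19 L) (F 2065 L)) (T (F 19 L) (F 7 L))) (V (F 2069 (T L L)) (T (F 21 L) (F 23 L))))))))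
noncomputable def v11_11 : Tr := (T (U (S (K 2) (V (T (S (T (F 49664 L) (S (K 2) (F 49666 L))) (V (K 6) (S (F 49666 L) (F 49666 L)))) (S (K 2) (V (K 6) (T (F 49664 L) (F 49664 L))))) (T (U (S (K 2) (V (S (F 49664 L) (F 49664 L)) (T (F 49664 L) (S (K 2) (F 573952 L))))) (S (V (S (F 573952 L) (F 573952 L)) (T (F 573952 L) (F 573952 L))) (V (S (F 573952 L) (F 573952 L)) (T (F 573952 L) (F 49664 L))))) (U (K 2) (S (K 2) (T (V (F 573952 L) (F 582144 (S (K 12) L))) (K 2))))))) (S (V (T (S (K 2) (T (F 573952 L) (F 573952 L))) (K 2)) (T (S (F 844288 (T (V L L) (K 11))) (V (S (F 582144 L) (F 573952 L)) (F 844288 (T L L)))) (F 1048571 (S (K 0) (K 0))))) (V (T (S (S (F 49664 L) (F 180736 L)) (S (F 180736 L) (F 180992 L))) (S (V (F 573952 L) (S (F 576000 L) (F 573952 L))) (F 705024 (V L (S L L))))) (T (S (V (S (F 573952 L) (F 573952 L)) (T (F 582144 L) (F 573952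 L))) (V (S (F 573952 L) (F 573952 L)) (T (F 573952 L) (F 573952 L)))) (S (V (S (F 573952 L) (F 573952 L)) (F 582144 (T L (S (K 12) (F 17 L))))) (V (T (F 705024 L) (F 573952 L)) (T (F 573952 L) (F 573952 L)))))))) (U (K 2) (S (K 2) (V (F 705024 (T (S (K 12) (V (S L L) (T L L))) (V (S (K 12) (T L (K 12))) (K 12)))) (T (S (K 2) (V (T (F 573952 L) (F 576000 L)) (F 827904 (T (S L L) L)))) (K 2))))))
noncomputable def v11_12 : Tr := (T (S (V (U (T (S (F 582144 (S L L)) (F 573952 L)) (S (F 844288 (T L (K 11))) (S (F 582144 L) (F 705024 L)))) (F 975360 (T (V L (S (F 4 L) (F 4 L))) (S (S (F 4 L) L) (S L L))))) (F 844288 (U (T (S (V L L) (V (S (F 1 L) (F 1 L)) (S (F 1 L) (F 1 L)))) (S (V L L) (V (S (F 8 L) (F 8 L)) (S (F 8 L) (F 8 L))))) (T (S (S (F 1 L) (F 1 L)) (S L L)) (S (S (F 8 L) (F 1 L)) (S (F 1 L) L)))))) (V (F 705024 (U (T (S (S L L) (S (F 66 L) (F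 66 L))) (S (S L L) (S L L))) (T (S (F 3 L) (F 66 L)) (S L L)))) (U (T (V (S (F 836096 L) (F 705024 L)) (F 836096 (S (S L L) (S L L)))) (F 836096 (S (V (S (F 5 L) L) (S (F 5 L) L)) (V (S L L) (S L L))))) (F 836096 (T (S (S L L) (S L L)) (S (T (F 5 L) (F 5 L)) (T (F 5 L) (F 5 L)))))))) (S (F 584192 (V (U (T (T (S (K 11) L) (K 11)) (K 11)) (T (S (S (F 3 L) (F 3 L)) (T (F 3 L) (F 3 L))) (S (K 11) (S (F 3 L) (F 3 L))))) (U (T (T (S (K 11) (S (K 11) (F 1 L))) (K 11)) (K 11)) (T (S (S (F 3 L) (F 3 L)) (T (F 3 L) (F 3 L))) (S (K 11) (S (F 67 L) (F 3 L))))))) (V (F 705024 (U (T (T (S L L) (S L (S (F 17 L) (F 17 L)))) (S (T (S (K 12) (F 20 L)) (K 12)) (V L L))) (T (V (S (F 21 L) (F 19 L)) (S (F 21 L) (F 21 L))) (S (S (F 21 L) (F 21 L)) (T (F 21 L) (F 21 L)))))) (U (T (S (F 844288 (V (S (F 9 L) (F 1 L)) (S (F 8 L) (F 8 L)))) (F 705024 (V L (T (F 5 L) (F 21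 L))))) (F 961024 (S (V (S (K 10) (F 2 L)) L) (V (T (F 2 L) (F 2 L)) (S (F 2 L) (F 2 L)))))) (F 975360 (T (S (T (F 4 L) (F 4 L)) (T L L)) (S (S (F 4 L) (F 4 L)) (T (F 4 L) (F 4 L)))))))))
noncomputable def v11_13 : Tr := (U (S (V (F 1048571 (T (U (K 0) (S (K 0) (K 0))) (K 0))) (T (S (K 2) (T (V (F 794624 L) (F 811008 L)) (K 2))) (K 2))) (V (T (U (S (V (K 2) (T (S (K 2) (F 795136 L)) (K 2))) (V (T (S (F 573952 L) (F 49664 L)) (S (K 2) (F 49664 L))) (T L (S (K 2) (F 794624 L))))) (S (V (F 844288 (T (S L L) (S (K 11) L))) (T (F 795136 L) (F 795136 L))) (V (T (F 49664 L) (F 582144 (S L L))) (T (S (F 843776 L) (F 573952 L)) (F 794624 L))))) (U (F 1048571 (S (K 0) (K 0))) (S (K 2) (V (T (F 557568 L) (K 2)) (T (F 794624 L) (F 827392 L)))))) (T (U (S (T (V (F 794624 L) (F 811008 L)) (K 2)) (V (T (S (F 811008 L) (F 794624 L)) (S (F 827392 L) (F 827392 L)))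 (T (F 794624 L) (F 794624 L)))) (S (V (S (F 795136 L) (F 794624 L)) (S (F 811008 L) (F 811008 L))) (V (T (F 794624 L) (F 794624 L)) (S (F 794624 L) (F 794624 L))))) (S (F 1048571 (S (K 0) (K 0))) (V (T (S (F 827392 L) (F 794624 L)) (F 794624 L)) (T (F 794624 L) (F 794752 L))))))) (S (V (F 844288 (T (S (T (V L L) (K 11)) (V (T (S (F 256 L) L) (S (F 8 L) (F 8 L))) (T (S (F 256 L) L) L))) (S (K 11) (T (V L L) (K 11))))) (T (S (S (F 811008 L) (F 794624 L)) (V (S (F 811520 L) (F 811008 L)) (F 811008 L))) (V (S (K 2) (F 827392 L)) (F 794752 L)))) (V (T (S (F 844288 (V (T (S L L) (S L L)) (T (S L L) (S L L)))) (V (F 836096 (T (S L L) (S L L))) (T (F 836096 (S L L)) (F 843776 (S L L))))) (S (V (F 827904 (T (S L L) L)) (S (F 827392 L) (F 827392 L))) (V (T (F 836096 (S L L)) (F 827392 L)) (T (F 827392 L) (F 827392 L))))) (T (T (V (S (F 811008 L) (F 843776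 (S L L))) (S (F 843776 L) (F 811008 L))) (S (S (F 811008 L) (F 794624 L)) (V (F 827392 L) (F 811008 L)))) (S (T (F 794624 L) (F 794752 L)) (V (S (F 827392 L) (F 794624 L)) (F 794624 L)))))))
noncomputable def v11_14 : Tr := (T (S (V (F 844288 (U (T (S (V L L) (V (S (F 1 L) L) (S (F 2 L) L))) (S (T L L) (V (S (F 8 L) (F 8 L)) L))) (T (S (S (F 2 L) L) (S L L)) (S L (S (F 1 L) (F 1 L)))))) (U (T (V (F 843776 (S L L)) (F 811008 L)) (F 843776 (S L L))) (F 844288 (T (S L (S (F 2 L) (F 2 L))) (S (F 66 L) (F 1 L)))))) (V (U (T (F 836096 (S (V (S L L) (S L L)) (V (S L L) (T L L)))) (F 843776 (S (V (S (F 33 L) L) L) (V (S L L) (S L L))))) (F 844288 (T (S (S L L) (T L L)) (S (S L L) (T L (F 1 L)))))) (U (T (F 843776 (S (V L L) (V (S L L) (S L L)))) (S (F 843776 (S L L)) (S (F 827392 L) (F 827392 L)))) (F 843776 (T (S (S L L) (S L L)) (S L (S (F 3 L) (F 3 L))))))))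 (S (V (F 829952 (U (T (S (K 11) (S L L)) (K 11)) (T (S (F 4 L) (S (F 5 L) (F 5 L))) (V (F 5 L) (F 69 L))))) (F 974976 (T (S (S (F 6 L) (F 6 L)) (S (F 4 L) L)) (S (F 7 L) (F 6 L))))) (V (U (T (S (S (F 827904 L) (F 843776 L)) (F 958464 (T (S L L) L))) (F 960512 (S (S (K 11) (F 64 L)) (S L L)))) (F 976896 (T (V (S (F 8 L) (F 8 L)) (S (F 9 L) (F 8 L))) (S L L)))) (F 958464 (U (T (S L (S (F 136 L) L)) (S (F 141 L) (F 140 L))) (T (S (F 138 L) (F 6 L)) (F 143 (S L L))))))))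
noncomputable def v11_15 : Tr := (U (S (V (T (F 1048511 (S (K 0) (K 0))) (S (V (K 6) (S (F 147968 L) (K 6))) (K 6))) (T (U (S (V (S (F 147968 L) (F 147968 L)) (T (F 147968 L) (S (F 672256 L) (F 672256 L)))) (V (K 6) (T (F 147968 L) (S (F 213504 L) (F 213504 L))))) (S (V (S (F 213504 L) (F 213504 L)) (T (F 672256 L) (F 147968 L))) (V (F 148224 L) (S (F 147968 L) (F 147968 L))))) (U (S (V (T (F 147968 L) (S (K 2) (F 213504 L))) (T (S (F 672256 L) (F 147968 L)) L)) (V (S (F 16896 L) (F 16896 L)) (T (S (F 147968 L) (F 213504 L)) (S (F 541184 L) (F 82432 L))))) (S (V (S (F 147968 L) (F 147968 L)) (T (F 147968 L) (S (F 737792 L) (F 672256 L)))) (T (V (F 213760 L) (F 147968 L)) (V (F 213504 L) (F 16896 L))))))) (V (K 6) (T (U (S (V (K 6) (T (F 213760 L) (F 147968 L))) (F 1048511 (S (K 0) (K 0)))) (S (V (K 6) (S (F 148224 L) (F 148224 L))) (F 246528 (T L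 (S L (F 4096 L)))))) (U (S (V (K 6) (T (F 16896 L) (S (F 82432 L) (F 82432 L)))) (V (K 6) (T (F 213760 (S L (K 8))) (S (F 82688 L) (F 82688 L))))) (S (V (S (F 213504 L) (F 213760 L)) (T (F 82432 L) (F 16896 L))) (V (K 6) (T (F 82688 L) (F 82688 L)))))))) (S (V (T (F 213760 (V (K 8) (S L (F 16388 L)))) (S (T (F 213760 L) (F 213504 L)) (F 213760 (T L L)))) (T (S (V (F 147968 L) (S (F 147968 L) (F 147968 L))) (V (F 213760 (S L L)) (S (F 147968 L) (F 147968 L)))) (S (T (F 737792 (V L (S L L))) (V (F 672256 L) (F 737792 (S L L)))) (V (S (F 213504 L) (F 213504 L)) (T (F 147968 L) (F 737792 (S L L))))))) (V (F 246528 (V (K 7) (T (F 16255 (S (K 0) (K 0))) (S L (K 7))))) (T (F 213760 (S (V (S L (F 8196 L)) (T L L)) (T L (S L (F 8196 L))))) (S (V (F 213760 (S L L)) (T (F 213504 L) (F 737792 (S L L)))) (T (F 213760 (S L L)) (S (F 82688 L) (F 82688 L))))))))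
noncomputable def v11_16 : Tr := (S (V (T (U (S (V (K 6) (S (K 2) (F 18944 L))) (K 6)) (V (K 6) (S (S (F 672256 L) (F 213504 L)) (S (F 84480 L) (K 6))))) (F 608768 (U (F 28415 (S (K 0) (T (S (K 0) (K 1)) (K 0)))) (S (K 12) (V (K 8) (T L L)))))) (T (U (S (K 2) (V (T (F 16896 L) (F 524800 L)) (T (S (F 541184 L) (F 541184 L)) L))) (S (V (T (F 739840 (S L L)) (F 541184 L)) (S (K 2) L)) (V (T (F 606720 L) (F 608768 (S L L))) (S L L)))) (U (S (K 2) (T (V (F 589824 L) (K 2)) (K 2))) (S (K 2) (T (V (F 590336 L) (F 591872 L)) (V (F 592384 L) (F 600064 L))))))) (V (F 608768 (T (F 32511 (U (K 0) (S (K 0) (K 0)))) (U (F 32511 (S (K 0) (K 0))) (S (V (K 8) (T L L)) (K 8))))) (T (U (S (V (T (F 82432 L) (S (F 606720 L) (F 608768 L))) (T L (S (F 591872 L) (F 591872 L)))) (V (K 6) (T (S (F 82432 L) (F 82688 L)) L))) (S (V (S (F 82432 L) (F 82432 L)) (T (F 81920 L)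 (F 589824 L))) (V (S (F 82432 L) (F 82688 L)) (T (F 82432 L) (S (F 608256 L) (F 608768 L)))))) (U (S (T (V (F 589824 L) (S (F 591872 L) (F 591872 L))) (V (S (F 592384 L) (F 592384 L)) (S (F 592384 L) (F 592384 L)))) (V (T (F 83968 L) (F 591872 L)) (T (S (F 591872 L) (F 591872 L)) (S (F 592384 L) (F 591872 L))))) (S (T (V (F 606208 L) (F 589824 L)) (V (F 591872 L) (F 591872 L))) (T (V (F 608256 L) (F 589824 L)) (V (F 608256 L) (F 591872 L))))))))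
noncomputable def v11_17 : Tr := (S (V (F 739840 (U (T (S (T L L) (T (F 32 L) L)) (S (V L (S (F 1 L) (F 1 L))) (T L (S (F 1 L) (F 32 L))))) (T (S L (S (F 34 L) (F 34 L))) (S (S (F 1 L) (F 1 L)) L)))) (U (T (F 737792 (S (V (S L L) (S L L)) (V (S L L) (S L L)))) (S (F 723456 (V (S (F 5 L) L) (S (F 9 L) (F 9 L)))) (F 739328 (V (S L L) (S L L))))) (F 999936 (T (S (S L L) (S L L)) (S (V (F 10 L) (F 10 L)) (T (F 8 L) (F 8 L))))))) (V (F 609024 (U (T (T (S (F 6 L) (F 4102 L)) (S (S (F 4102 L) (F 4102 L)) (F 6 L))) (S (T (S (F 6 L) (F 6 L)) L) (T (F 6 L) (F 4 L)))) (T (S (S (F 7 L) (F 4102 L)) (F 6 L)) (S (S (F 6 L) (F 6 L)) (S (F 6 L) (F 4102 L)))))) (U (T (S (F 737792 (V (S L (F 18 L)) (S L L))) (V (F 738048 (S (F 16 L) (F 2 L))) (F 606720 L))) (S (F 739328 (V (S L L) (S L L))) (V (F 608768 (S L L)) (F 608256 L)))) (T (F 737792 (S (T (F 3 L) (F 17 L))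 (S L (F 66 L)))) (F 739328 (S (T (F 33 L) (F 33 L)) (V (F 34 L) (F 3 L))))))))
noncomputable def v11_18 : Tr := (U (T v11_15 (U v11_16 (S (V (T (F 737792 (S (V (S L L) (T L L)) (V (S (F 80 L) (K 8)) (S L L)))) (F 608768 (S (V (T L L) (T (S (F 10 L) (F 3 L)) (S (K 12) (F 10 L)))) (V (S L L) (T L L))))) (T (S (V (F 739840 (T (S L L) (S L L))) (T (F 737792 (S L L)) (F 721408 L))) (V (T (F 739840 (S L L)) (F 606720 L)) (T (F 737792 (S L L)) (S (F 737792 L) (F 739328 L))))) (S (V (F 723456 (T (S L L) L)) (T (F 729088 L) (F 993792 (S (K 10) L)))) (V (T (F 739840 (S L L)) (F 592384 L)) (T (F 720896 L) (F 722944 L)))))) (V (T (S (F 84736 (T (S (F 8196 L) (F 8204 L)) (S L (F 8193 L)))) (F 115458 (T (F 4 L) L))) (F 608768 (S (V (S L (K 8)) (T L L)) (V (K 8) (S L L))))) (T (S (V (T (F 737792 L) (F 606720 L)) (T (F 606208 L) (F 606208 L))) (V (S (F 606720 L)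 (F 606976 L)) (T (F 606208 L) (F 606208 L)))) (S (V (T (F 608256 L) (F 608256 L)) (T (F 591872 L) (F 591872 L))) (T (V (F 608768 L) (F 606208 L)) (V (F 608256 L) (F 591872 L))))))))) (T (S (V (F 213760 (U (T (S L (F 24580 L)) (S (S L L) (S (F 5 L) (F 5 L)))) (T (F 16391 (S L (F 1 L))) (S (F 5 L) (F 37 L))))) (U (T (S (V (F 770560 L) (F 672256 L)) (T (F 246528 L) (F 737792 L))) (F 737792 (S (V (S L L) (S L L)) (V L (S L L))))) (F 999936 (T (S (S (F 1 L) (F 1 L)) (S (F 1 L) (F 33 L))) (S (S L L) (T (F 1 L) (F 1 L))))))) (F 246272 (V (T (F 24641 (S (S L L) L)) (U (S (S (F 8257 L) (F 8273 L)) (F 8257 L)) (F 8273 (S L (F 1024 L))))) (U (T (S (T (F 65 L) L) (S L (F 65 L))) (S (V (S (F 65 L) (F 81 L)) (S L L)) (V (F 65 L) (S L (F 65 L))))) (T (T (F 65 L) (S (F 67 L) (F 8259 L))) (S (S (F 3 L) (F 65 L)) (S (F 65 L) (F 67 L)))))))) v11_17))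
noncomputable def v11_19 : Tr := (V (T (U (S (V (T (S (F 311808 L) (F 311808 L)) (S (F 311808 L) (F 311808 L))) (T (S (F 311296 L) (F 311296 L)) (S (F 1343488 L) (F 1343488 L)))) (V (T (S (F 311808 L) (F 311808 L)) (S (F 49664 L) (F 49664 L))) (T (S (F 311296 L) (F 311296 L)) (S (F 294912 L) (F 49152 L))))) (S (V (T (S (F 1360384 L) (F 1360384 L)) (S (F 1360384 L) (F 1360384 L))) (T (S (F 1360384 L) (F 1359872 L)) (S (F 1884160 L) (F 1359872 L)))) (V (T (S (F 1360384 L) (F 442880 L)) (S (F 1360384 L) (F 1360384 L))) (T (S (F 311808 L) (F 311808 L)) (S (F 1359872 L) (F 1359872 L)))))) (U (S (V (T (S (F 1344000 L) (F 1343488 L)) (S (K 2) (F 1343488 L))) (T (S (F 1843200 L) (F 1343488 L)) (S (K 2) (F 1351680 L)))) (V (T (S (F 49664 L) (F 49664 L)) (S (F 1343488 L) (F 1097728 L))) (T (S (F 1081344 L) (F 1081344 L)) (S (F 1343488 L) (F 1081344 L)))))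 (S (V (T (S (F 1360384 L) (F 1360384 L)) (F 1343488 L)) (T (F 1343488 L) (S (F 1876480 L) (F 1875968 L)))) (T (V (F 49152 L) (F 1081344 L)) (V (F 1081344 L) (F 1081344 L)))))) (T (U (S (V (T (S (F 1843200 L) (F 1835008 L)) (S (F 1843200 L) (F 1835008 L))) (T (S (F 1843200 L) (F 1843200 L)) (S (F 1875968 L) (F 1843200 L)))) (V (T (S (F 1310720 L) (F 294912 L)) (S (F 1835008 L) (F 1310720 L))) (T (S (F 1835008 L) (F 1572864 L)) (S (F 1843200 L) (F 1835008 L))))) (S (V (T (S (F 1859584 L) (F 1851392 L)) (S (F 1875968 L) (F 1875968 L))) (T (S (F 1892352 L) (F 1859584 L)) (F 1843200 L))) (T (V (S (F 1359872 L) (F 1359872 L)) (S (F 1843200 L) (F 1843200 L))) (V (S (F 1867776 L) (F 1867776 L)) (S (F 1875968 L) (F 1843200 L)))))) (U (S (V (T (S (F 1875968 L) (F 1843200 L)) (S (K 2) (F 1875968 L))) (T (F 1843200 L) (F 1843328 L))) (V (T (S (F 1835008 L) (F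 1835008 L)) (S (F 1843200 L) (F 1843200 L))) (T (S (F 1843200 L) (F 1843200 L)) (F 1843200 L)))) (S (V (T (F 1843200 L) (F 1843200 L)) (S (F 1843328 L) (F 1843200 L))) (V (T (S (F 1875968 L) (F 1867776 L)) (S (F 1875968 L) (F 1875968 L))) (T (F 1843200 L) (F 1974272 L)))))))
noncomputable def v11_20 : Tr := (V (F 154275904 (T (U (S (V (T (F 279040 L) (S (F 410112 L) (F 410112 L))) (T (S (F 409600 L) (F 409600 L)) (S (F 278528 L) (F 278528 L)))) (V (T (F 279296 L) (F 16896 L)) (T L (S (F 278528 L) (F 344064 L))))) (S (V (T (F 410112 L) (F 279040 L)) (T (F 278528 L) (S (F 1458176 L) (F 409600 L)))) (V (T (F 410368 L) (F 344576 L)) (T (F 278528 L) (F 278528 L))))) (U (S (V (T (S (F 279040 L) (F 279040 L)) (S (F 1327104 L) (F 1327104 L))) (T (S (F 1310720 L) (F 1310720 L)) (S (F 1310720 L) (F 1310720 L)))) (V (T (S (F 344064 L) (F 344576 L)) (S (F 344064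 L) (F 344064 L))) (T (S (F 278528 L) (F 278528 L)) (S (F 1310720 L) (F 1310720 L))))) (S (V (T (F 278528 L) (S (F 1392640 L) (F 1392640 L))) (T (S (F 1458176 L) (F 1327104 L)) (S (F 1507328 L) (F 1392640 L)))) (V (T (F 344064 L) (S (F 1392640 L) (F 1393152 L))) (T (S (F 1392640 L) (F 1392640 L)) (S (F 1392640 L) (F 1392640 L)))))))) (T (U (S (V (T (F 154276032 (S L L)) (F 154275840 L)) (F 154275843 (T (S L L) (S L L)))) (V (F 154275904 (T (S L L) (S L L))) (T (F 154275904 (S L L)) (F 154275841 (S L L))))) (S (F 154275844 (V (T (S (F 311296 L) (F 311296 L)) (S (F 1343488 L) (F 1097728 L))) (T (S (F 1867776 L) (F 1835008 L)) (S (F 1843200 L) (F 1835008 L))))) (V (F 154276032 (T L L)) (F 154275841 (T L L))))) (F 154275841 (U (S (V (T (S (F 557056 L) (F 557056 L)) (S (F 1605632 L) (F 557056 L))) (T (S (F 1581056 L) (F 1572864 L)) (S (F 1974272 L) (F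 1712128 L)))) (V (T (S L L) (S (F 557056 L) (F 557056 L))) (T (S (F 1572864 L) (F 1572864 L)) (S (F 1703936 L) (F 1703936 L))))) (S (T (V L (F 1572864 L)) (V (F 1572864 L) (F 1843200 L))) (V (T (S (F 688128 L) (F 688128 L)) (S (F 1736704 L) (F 1736704 L))) (T (S (F 1736704 L) (F 1605632 L)) (F 1572864 L))))))))
noncomputable def v11_21 : Tr := (S (V (T (S (V (T (F 311808 L) (F 1884672 (S L L))) (T (S (F 1884672 L) (F 1884160 L)) (S (F 1892352 L) (F 1884160 L)))) (V (T (F 311808 L) (F 311808 L)) (T (S (F 1360384 L) (F 1360384 L)) (S (F 1884160 L) (F 1884160 L))))) (S (V (T (F 1359872 L) (F 1359872 L)) (T (F 1867776 L) (F 1892352 (S L L)))) (V (T (S (F 1360384 L) (F 1360384 L)) (S (F 1490944 L) (F 1490944 L))) (T (S (F 1884160 L) (F 1884160 L)) (S (F 1892352 L) (F 1998848 L)))))) (T (S (V (T (S (F 1892352 L) (F 1884160 L)) (F 1892352 (S L L))) (T (F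 1843200 L) (F 1875968 L))) (V (T (S (F 1884160 L) (F 1884160 L)) (S (F 1884160 L) (F 1884160 L))) (T (F 1835008 L) (S (F 1892352 L) (F 1875968 L))))) (S (V (T (F 1843200 L) (F 1875968 L)) (S (F 1875968 L) (F 1875968 L))) (V (T (S (F 1875968 L) (F 1884160 L)) (F 2007040 (S L L))) (S (F 1843200 L) (F 1843200 L)))))) (V (T (S (V (T (F 442880 L) (F 311808 L)) (T (F 311296 L) (S (F 1490944 L) (F 1490944 L)))) (V (T (F 508672 (S L (F 1 L))) (F 442880 L)) (T (F 442368 L) (F 180224 L)))) (S (T (V (S (F 1490944 L) (F 1490944 L)) (S (F 1359872 L) (F 1490944 L))) (V (S (F 1490944 L) (F 1490944 L)) (F 1212416 L))) (V (T (F 442368 L) (S (F 1490944 L) (F 1294336 L))) (T (S (F 1490944 L) (F 1490944 L)) (S (F 1490944 L) (F 1753088 L)))))) (T (S (V (T (S (F 1359872 L) (F 1359872 L)) (S (F 1884160 L) (F 1359872 L))) (T (U (F 1835008 L) (F 1884160 L)) (S (F 1884160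 L) (F 1867776 L)))) (T (V (S (F 1359872 L) (F 442368 L)) (S (F 1622016 L) (F 1622016 L))) (V (S (F 1228800 L) (F 1228800 L)) (S (F 1867776 L) (F 1622016 L))))) (S (V (T (S (F 1884160 L) (F 1998848 L)) (S (F 1998848 L) (F 1998848 L))) (T (F 1835008 L) (F 2007040 (S L L)))) (V (T (S (F 1736704 L) (F 1228800 L)) (S (F 1998848 L) (F 1753088 L))) (T (S (F 1998848 L) (F 1998848 L)) (S (F 1998848 L) (F 1998848 L))))))))
noncomputable def v11_22 : Tr := (V (T (U (S (V (T (S (F 163840 L) (F 163840 L)) (S (F 163840 L) (F 163840 L))) (T (S (F 163840 L) L) (S (F 172032 L) (F 165888 L)))) (V (T (S (F 163840 L) (F 163840 L)) (S (F 163840 L) (F 163840 L))) (T (S L L) (S (F 163840 L) (F 163840 L))))) (S (V (T L (S (F 428032 L) (F 165888 L))) (T L (F 163840 L))) (V (T (S (F 180224 L) (F 180224 L)) (S (F 182272 L) (F 182272 L))) (T (S (F 688128 L) (F 180224 L)) (S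 (F 690176 L) (F 165888 L)))))) (U (S (V (T (S (F 165888 L) (F 165888 L)) (S (K 2) (F 174080 L))) (T (F 40960 L) (F 698496 (S (K 13) L)))) (V (T (S (F 165888 L) (F 165888 L)) (S (F 174080 L) (F 165888 L))) (T (S (F 165888 L) (F 165888 L)) (F 165888 L)))) (S (V (T (F 163840 L) (F 174080 L)) (T (F 688128 L) (F 698368 L))) (V (T (F 163840 L) (F 165888 L)) (T (F 163840 L) (F 690176 L)))))) (T (U (S (T (V (S (F 565248 L) (F 557056 L)) (F 794624 L)) (S (F 532480 L) (F 532480 L))) (T (V (S (F 163840 L) (F 163840 L)) L) (V L (F 663552 L)))) (S (T (V (F 532480 L) (F 925696 L)) (S (F 925696 L) (F 663552 L))) (V (T (S (F 688128 L) (F 688128 L)) (S (F 698368 L) (F 690176 L))) (T (F 663552 L) (F 667648 L))))) (U (S (K 0) (V (T (F 663552 L) (K 0)) (K 0))) (S (V (S (F 927872 L) (F 698368 L)) (K 0)) (V (T (F 696320 L) (F 702464 L)) (K 0))))))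
noncomputable def v11_23 : Tr := (U (S (V (T (U (S (K 2) (V (T (S (F 294912 L) (F 163840 L)) L) (T L (F 532480 L)))) (S (T (V (F 303104 L) (F 794624 L)) (K 2)) (V (T L (F 163840 L)) (T (F 294912 L) (F 958464 (S L L)))))) (U (K 2) (S (K 2) (S (K 2) (T (T (F 565248 L) (F 567296 L)) (F 698368 (T L (K 12)))))))) (T (U (S (F 1048571 (S (K 0) (K 0))) (V (T (S (F 827392 L) (F 827392 L)) (F 796672 L)) (F 1048574 (S (K 0) (K 0))))) (S (V (S (F 796800 L) (F 796672 L)) (F 798848 L)) (V (S (F 827392 L) (F 794624 L)) (F 794624 L)))) (F 1048574 (S (K 0) (S (K 0) (K 0)))))) v11_22) (S (V (T (S (V (T (F 819200 L) (F 827392 L)) (T (F 827392 L) (F 958464 L))) (T (V (F 294912 L) (F 819200 L)) (V (F 425984 L) (F 960512 (S L L))))) (S (F 958464 (V (T L L) (S (F 136 L) L))) (V (T (F 950272 L) (F 961024 (S L L))) (F 958464 (T L (F 136 L)))))) (T (S (T (F 794624 L) (F 958592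 (S (F 8 L) L))) (V (T (F 827392 L) (F 958464 L)) (F 925696 L))) (F 960640 (S (V (S (F 4 L) (F 4 L)) (K 12)) (V (S L L) (K 12)))))) (V (T (S (V (T (S (F 442368 L) (F 442368 L)) (F 163840 L)) (T (S (F 950272 L) (F 950272 L)) (F 688128 L))) (V (T (S (F 442368 L) (F 182272 L)) (F 163840 L)) (T (F 163840 L) (F 163840 L)))) (S (V (T (F 165888 L) (F 690176 L)) (T (F 696320 L) (F 964608 (S L L)))) (V (T (F 165888 L) (F 165888 L)) (T (F 688128 L) (F 690176 L))))) (T (S (F 958464 (V (T (S L L) (S L L)) (T L L))) (T (V (S (F 950272 L) (F 950272 L)) (F 696320 L)) (V (F 688128 L) (F 958464 L)))) (F 698368 (S (V (T L (F 9 L)) (S (F 137 L) (F 137 L))) (V (T L L) (T (F 9 L) (K 14)))))))))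
noncomputable def v11_24 : Tr := (S (V (U (T (S (F 934400 (V (S L L) (S L L))) (V (F 737792 (S L L)) (S (F 933888 L) (F 933888 L)))) (S (V (F 999936 (T L L)) (F 942080 (S L L))) (F 999424 (T (V L L) (V L L))))) (F 999424 (T (S (T L L) (V (F 33 L) L)) (S (V L L) (T L L))))) (U (T (S (F 942080 (V (S L L) (S L L))) (V (S (F 933888 L) (F 933888 L)) (F 1007616 (T L L)))) (V (F 942080 (S (S L L) (T L L))) (F 991232 (S L (S L L))))) (T (S (F 942080 (T L L)) (F 1032192 (V L (S (F 17 L) (F 17 L))))) (F 1007616 (S (S L L) (S L L)))))) (V (U (T (S (V (F 737792 (S L L)) (F 999424 (T L L))) (V (F 246272 (S L L)) (F 770048 (S L L)))) (S (V (F 737792 (S L L)) (F 999424 (T L L))) (V (S (F 737792 L) (F 770048 L)) (F 999424 (T L L))))) (F 1032192 (T (S (T (F 16 L) (S (F 48 L) (F 48 L))) (V (S (F 52 L) (F 52 L)) (S (F 48 L) (F 48 L)))) (S (V (S (F 20 L) (F 20 L)) L)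 (T L L))))) (U (T (S (T (S (F 933888 L) (F 933888 L)) (F 999424 (V L L))) (F 999424 (T (V (S (F 33 L) (F 33 L)) (S L L)) (V L L)))) (S (V (F 999424 (T L L)) (F 991232 (S L L))) (V (F 999424 (T L L)) (S (F 999424 L) (F 983040 L))))) (F 1032192 (T (S (T L L) (T L L)) (S (V L (F 1 L)) (T L L)))))))
noncomputable def v11_25 : Tr := (U (T (U (S (F 154275844 v11_19) v11_20) (F 154275844 v11_21)) (F 154275845 v11_23)) (F 154275908 (T v11_24 (S (V (U (T (S (F 991232 (V (S L L) L)) (V (F 999424 (S L L)) (F 991232 (S L L)))) (F 993280 (S (V L (F 64 L)) (T (S L L) (S (F 2 L) (F 2 L)))))) (F 1007616 (T (S (S L L) (S L L)) (V (S (F 20 L) (F 20 L)) (S (F 22 L) (F 6 L)))))) (F 991232 (U (T (S (S L L) (T L L)) (S (S (F 141 L) (F 140 L)) (T (F 12 L) (F 141 L)))) (T (S L L) (S (F 141 L) (F 140 L)))))) (V (U (T (S (F 999424 (V (S L L) (S L L))) (V (F 606208 L) (S (F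 999424 L) (F 868352 L)))) (S (F 985088 (V (S L L) (S (F 12 L) L))) (T (F 870400 (S L L)) (F 854016 L)))) (F 999424 (T (S (S L L) (T L L)) (S (T (F 10 L) (F 10 L)) (S L L))))) (U (T (S (F 991232 (T (S L L) L)) (V (S (F 991232 L) (F 999424 L)) (F 993280 (S L L)))) (F 993280 (S (V L (F 68 L)) (V (S (F 4 L) (F 4 L)) (F 4 L))))) (T (S (F 1007616 (S (F 4 L) L)) (F 1015808 (V L (F 6 L)))) (F 997376 (S L (S (F 1 L) (F 1 L)))))))))))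
noncomputable def v11_26 : Tr := (U (S (V (T (U (K 2) (V (S (K 2) (S (K 2) (F 8704 L))) (K 2))) (K 2)) (K 2)) (V (T (U (S (V (K 6) (T L L)) (F 131007 (S (K 0) (K 0)))) (S (V (K 6) (S L L)) (V (K 6) (S L (F 8704 L))))) (U (S (K 2) (V (K 6) (S L L))) (S (V (S (K 2) (F 8704 L)) L) (V (K 6) (S L L))))) (T (U (S (T (V (S (K 2) L) L) (K 2)) (V (T L L) (T (S L L) L))) (S (V (S L L) (S L L)) (V (S L L) (S L L)))) (U (S (K 2) (T (V L L) (K 10))) (S (V L (K 2)) (V (S L L) L)))))) (S (V (T (S (T (V (F 41472 L) (F 33280 L)) (K 2)) (V (S (F 8704 L) (F 8704 L)) (S L L))) (S (K 2) (V (S (K 2) (F 8704 L)) L))) (T (S (K 2) (V (S L L) (T (F 36864 L) (F 102400 L)))) (S (K 2) (T (S (K 2) (F 102400 L)) (K 2))))) (V (T (S (V (S (F 8704 L) (F 8960 L)) (T (F 8704 L) (F 8704 L))) (V (S (F 8960 L) (K 6)) (T (F 8960 L) (F 8704 L)))) (S (V (S (F 8704 L) (F 8704 L)) L) (V (S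 (F 8706 L) (F 8960 L)) L))) (T (S (V (S L L) (S L L)) (V (S L L) (S L L))) (S (V L (F 69632 L)) (V (S L L) L))))))
noncomputable def v11_27 : Tr := (T (S (V (U (T (S (V (F 41472 L) (F 41472 L)) (V (F 41472 L) (S (F 107008 L) (F 107008 L)))) (S (V (F 45568 L) (F 102912 L)) (V (F 41472 L) (F 37376 L)))) (T (S (F 111104 (T L L)) (F 41472 L)) (F 111104 (S (S L L) (S L L))))) (U (T (S (T (F 102400 L) (F 102400 L)) (V (F 98304 L) (F 102400 L))) (S (S (K 2) (F 102528 L)) (S (F 102528 L) (F 102400 L)))) (T (F 111104 (S (S L L) (T L L))) (S (F 103040 L) (F 102912 L))))) (V (U (T (S (T (F 8704 L) (F 8704 L)) (T (F 8960 L) (F 8960 L))) (S (T (F 8704 L) (F 8704 L)) (S (F 8704 L) (F 8704 L)))) (T (S (F 41472 L) (F 58112 (S L L))) (S (S (F 107008 L) (F 107008 L)) (F 25088 L)))) (U (T (S (V L (F 98304 L)) (T L L)) (S (T (F 102400 L) (F 104448 L)) (S (F 69632 L)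 L))) (T (S (S (F 107008 L) (F 106496 L)) (S (F 106496 L) (F 74240 L))) (S (F 102400 L) (S (F 112640 L) (F 108544 L))))))) (S (V (U (S (K 2) (T (T (F 102912 L) (F 103040 L)) (F 105088 (S (K 8) L)))) (T (F 111104 (S L (S (F 16 L) (F 2 L)))) (F 105088 (S (F 32 L) (F 2 L))))) (F 104576 (T (S (S (F 8 L) (F 8 L)) (T L (F 8 L))) (S (K 9) L)))) (V (U (T (S (S (F 37376 L) (F 70144 L)) (S (F 8704 L) (F 8704 L))) (V (S (F 103040 L) (F 104960 L)) (F 105088 (S (F 32 L) L)))) (T (S (F 111104 (S L L)) (F 74240 L)) (F 104960 (S (F 16 L) L)))) (T (S (V (F 104448 L) (F 104576 L)) (V (S (F 104576 L) (F 104448 L)) (F 104576 (S (F 8 L) L)))) (F 104576 (S (S (F 8 L) (F 8 L)) (S L L)))))))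
noncomputable def v11_28 : Tr := (U (T (U (S (K 2) (V (T (U (S (V (T L (K 0)) (K 0)) (V (T L L) (K 0))) (S (V (S (F 69632 L) (F 69632 L)) (K 0)) (V (S L L) (S (K 0) (F 69632 L))))) (F 131070 (S (K 0) (K 0)))) (K 0))) (S (V (T (S (K 2) (V (S (F 102528 L) (F 102400 L)) (F 104576 (S L L)))) (K 2)) (K 0)) (V (T (S (V (S (F 102400 L) (F 69632 L)) (S (F 104576 L) (F 102528 L))) (V (S L L) (S (F 71680 L) (F 71680 L)))) (S (F 104576 (V (S (F 64 L) L) (K 11))) (V (S (F 104576 L) (F 71808 L)) (K 0)))) (F 104576 (T (S (K 11) (U (K 11) (S (K 11) L))) (K 11)))))) (F 131070 (U (K 0) (S (K 0) (K 0))))) (T (S (V (T (V (S (F 102528 L) (F 102400 L)) (F 104576 (S L (S (F 2 L) (F 2 L))))) (F 104576 (S (S (F 8 L) (F 8 L)) (S L L)))) (F 104576 (T (S L (S (F 1 L) (F 1 L))) (S (K 11) (F 1 L))))) (V (U (T (S (T (F 102400 L) (F 104448 L)) (V (F 98304 L) (F 104576 (S L L))))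 (S (F 104576 (S L L)) (T (F 104448 L) (F 120960 L)))) (T (S (F 112640 (S L L)) (S (F 112640 L) (F 104448 L))) (F 104576 (S (F 1 L) L)))) (F 104576 (T (S (S L L) (T (S (F 1 L) L) L)) (S L L))))) (F 104576 (S (V (U (K 11) (S (F 64 L) (F 64 L))) (K 11)) (V (T (S L (S (F 1 L) L)) (F 2047 (S (K 0) (K 0)))) (K 11))))))
noncomputable def v11_29 : Tr := (T (S (F 154275852 (V (U v11_11 v11_12) (U (T v11_13 (U (F 1048570 (S (K 0) (V (K 0) (T (F 2 (S (K 0) (K 0))) (K 1))))) (S (K 2) (V (T (S (F 1048571 (S (K 0) (K 0))) (V (S (F 827392 L) (F 827392 L)) (S (F 829440 L) (F 827392 L)))) (F 1048571 (S (K 0) (K 0)))) (T (S (F 794752 L) (S (F 794752 L) (F 794752 L))) (F 931968 (S (K 10) (S (K 12) L)))))))) v11_14))) (V (F 154275908 v11_18) v11_25)) (F 154276949 (S (V (U (K 2) (T (S (K 2) (V (U (T (S (K 2) (T (S (K 2) (F 45568 L)) (K 2))) (K 2)) (F 111104 (T (S (S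 L L) (S L L)) (S (K 9) L)))) (U (T (S (K 2) (V (F 102912 L) (F 103040 L))) (K 2)) (T (F 111104 (S L (S (F 16 L) L))) (F 105088 (S (K 8) L)))))) (K 2))) (U (K 2) (T (S (F 129184 (V (F 447 (S (K 0) (K 0))) (T (S (K 6) L) (K 8)))) (V (T (S (F 104576 (S (F 8 L) L)) (T (F 102528 L) (F 105088 L))) (F 104576 (S (K 9) L))) (F 120960 (T (S (F 1 L) L) (F 1023 (S (K 0) (K 0))))))) (F 131066 (S (K 0) (V (K 0) (K 1))))))) (V (U (T v11_26 (U (S (K 2) (V (F 130043 (T (S (K 1) (K 0)) (K 0))) (T (V (S (K 0) (S (K 2) (F 4224 L))) (K 0)) (K 0)))) (S (K 2) (V (T (S (T L L) (S L L)) (S (S (K 2) (F 4736 L)) (S (F 4224 L) (F 2176 L)))) (T (S (V (F 69760 L) (K 0)) (V (F 4224 L) (F 71808 L))) (F 131070 (S (K 0) (K 0)))))))) v11_27) v11_28))))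
noncomputable def v11_30 : Tr := (U (T (S (V (T (S (F 8704 L) (F 25088 L)) (F 27136 (V (S L L) (S L L)))) (T (S (S (F 25088 L) (F 25088 L)) (S (F 25088 L) (F 25088 L))) (S (S (F 10752 L) (F 10752 L)) (S (F 10752 L) (F 10752 L))))) (V (T (S (F 17152 L) (F 19200 L)) (T (F 16896 L) (F 27136 (S L (F 4 L))))) (T (S (S (F 25088 L) (F 25088 L)) (F 16896 L)) (S (S (F 10752 L) (F 25088 L)) (S (F 25088 L) (F 25088 L)))))) (S (V (T (S (S (F 10752 L) (F 10752 L)) (S (F 10752 L) (F 10752 L))) (F 27136 (S (S L L) (S L L)))) (T (S (S (F 27136 L) (F 10752 L)) (S (F 10752 L) (F 10752 L))) (S (F 10752 L) (F 10752 L)))) (V (T (S (S (F 10752 L) (F 10752 L)) (S (F 18944 L) (F 27136 L))) (S (S (F 27136 L) (F 10752 L)) (S (F 10752 L) (F 27136 L)))) (T (S (S (F 10752 L) (F 10752 L)) (S (F 10752 L) (F 10752 L))) (F 27136 (S (S L L) (S L L))))))) (T (S (F 27136 (V (T L (S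 (F 4 L) (F 4 L))) (T (S (F 2 L) (F 2 L)) (S (F 2 L) L)))) (V (F 27392 (T L (S L (F 256 L)))) (T (F 25088 L) (F 25088 L)))) (F 27136 (S (V (T (S (F 4 L) (F 4 L)) (S (F 1 L) (F 1 L))) (T (S (F 1 L) (F 1 L)) L)) (V (T (S (F 4 L) (F 4 L)) (S (F 4 L) (F 5 L))) (T (S (F 1 L) (F 1 L)) (S (F 1 L) (F 1 L))))))))
noncomputable def v11_31 : Tr := (U (T (S (V (T (S (T (F 25088 L) (F 25088 L)) (S (F 16896 L) (F 16896 L))) (S (T (F 25088 L) (F 25088 L)) (T (F 25088 L) (F 25088 L)))) (T (S (S (F 24576 L) (F 24576 L)) (S (F 24576 L) (F 24576 L))) (S (F 24576 L) (S (F 25088 L) (F 25088 L))))) (V (T (S (S (F 16896 L) (F 17152 L)) (S (F 17152 L) (F 17152 L))) (S (S (F 16896 L) (F 16896 L)) (S (F 16896 L) (F 16896 L)))) (T (S (S (F 24576 L) (F 24576 L)) (S (F 16896 L) (F 16896 L))) (S (S (F 24576 L) (F 24576 L)) (S (F 24576 L) (F 24576 L)))))) (S (V (T (S (S (F 25088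 L) (F 25088 L)) (S (F 25088 L) (F 25088 L))) (F 27136 (S (S L L) (S L L)))) (F 30720 (T (S (S (F 2 L) L) (S L L)) (S (F 8 L) L)))) (V (U (T (S (F 24576 L) L) (S (F 10240 L) (F 18432 L))) (T (F 27136 (S L L)) (F 30720 (S (F 2 L) L)))) (T (S (F 30720 (S L L)) (S (F 28672 L) (F 28672 L))) (F 30720 (S L (S (F 8 L) L))))))) (T (S (V (T (F 25088 L) (F 25088 L)) (T (F 25088 L) (F 31232 (S L L)))) (V (T (F 17152 L) (F 17152 L)) (T (F 25088 L) (F 31232 (S L (F 2 L)))))) (F 30720 (S (V (T (S (F 2 L) (F 6 L)) (S (F 10 L) (F 10 L))) (T (S (F 10 L) (F 10 L)) (F 2 L))) (V (T (S (F 6 L) (F 6 L)) (S (F 6 L) (F 6 L))) (T L (F 2 L)))))))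
noncomputable def v11_32 : Tr := (S (V v11_30 (U (T (S (V (T (S (S (F 25088 L) (F 25088 L)) (T (F 25088 L) (F 25088 L))) (F 27136 (V (S L L) (S L L)))) (T (S (F 25088 L) (S (F 25088 L) (F 25088 L))) (S (F 25216 L) (F 25088 L)))) (V (T (S (T (F 25088 L) (F 25088 L)) (T (F 25088 L) (F 25088 L))) (S (S (F 25088 L) (F 25088 L)) (S (F 25088 L) (F 25088 L)))) (T (S (S (F 25088 L) (F 25088 L)) (S (F 25088 L) (F 25088 L))) (S (F 25088 L) (F 24576 L))))) (S (V (T (S (F 10752 L) (F 10752 L)) (F 27264 (S L L))) (F 27136 (T (V L (F 9 L)) (F 41 (S (F 32 L) L))))) (V (T (S (F 27136 (S L L)) (S (F 27136 L) (F 25088 L))) (F 27136 (S L (S (F 1 L) (F 1 L))))) (F 30720 (T (S L L) (S (F 10 L) (F 10 L))))))) (T (S (V (T (F 28160 (S L L)) (F 25088 L)) (S (F 25088 L) (F 25088 L))) (V (T (F 27136 (S (F 2 L) (F 4 L))) (F 25088 L)) (T (F 25088 L) (F 32256 (S L L))))) (F 27136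 (S (V (T L (F 1 L)) (S (F 9 L) (F 9 L))) (V (T (S (F 9 L) (F 1 L)) (S (F 9 L) (F 9 L))) (T (F 1 L) (F 9 L)))))))) (V (U (T (S (V (T (F 19200 (S L (F 1024 L))) (S (F 17152 L) (F 19200 L))) (T (S (F 16896 L) (F 19200 (S L L))) (S (S (F 25088 L) (F 18944 L)) (S (F 18944 L) (F 17152 L))))) (V (T (F 17153 L) (F 19202 (S L L))) (T (S (F 17152 L) (F 17152 L)) (F 19200 (S (S L L) (S L L)))))) (S (V (T (F 19200 (S (S L L) (S L (F 512 L)))) (S (F 27136 (S L L)) (F 19200 (S L L)))) (T (S (F 27136 (T L L)) (S (F 18944 L) (F 18944 L))) (S (S (F 10752 L) (F 10752 L)) (F 27136 (T L L))))) (V (F 19200 (T (S L L) (S (S L L) L))) (T (S (S (F 18944 L) (F 18944 L)) (F 19200 (T L L))) (S (S (F 18944 L) (F 18944 L)) (S (F 18944 L) (F 18944 L))))))) (T (S (T (S (F 17152 L) (F 19200 L)) (F 19200 (V L (S (F 1 L) (F 1 L))))) (F 19200 (T (S L (F 1024 L)) (V (F 512 L) L))))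 (F 19200 (S (V (T L (S (F 3 L) (F 3 L))) (T (S (F 1 L) (F 3 L)) (S (F 3 L) (F 3 L)))) (T (V L (S (F 3 L) (F 3 L))) (V L L)))))) v11_31))
noncomputable def v11_33 : Tr := (V (U (T (S (V (T (S (F 10752 L) (F 10752 L)) (F 10880 (S (F 32 L) L))) (F 10880 (T (S (F 2 L) L) (S (F 35 L) (F 34 L))))) (V (T (F 27136 (S (S L L) (S L L))) (S (F 10880 L) (F 10752 L))) (T (S (F 10880 L) (F 10752 L)) (F 14976 (S L L))))) (F 14976 (S (T (V (S (K 7) (F 16 L)) (S (K 7) (F 17 L))) (K 7)) (V (T (S L L) (S (F 17 L) (F 16 L))) (T (S (F 17 L) (F 1 L)) (S (F 17 L) (F 17 L))))))) (T (F 27136 (S (V (T (S (F 33 L) (F 1 L)) (F 1 L)) (T (F 1 L) (F 9 L))) (V (T L L) (T L (F 9 L))))) (F 14848 (S (V (S (F 40 L) (F 9 L)) (F 41 (S L L))) (V (T (F 1 L) (F 41 L)) (S (F 41 L) (F 9 L))))))) (F 14464 (U (T (S (V (T (S (F 37 L) (F 5 L)) (F 5 L)) (F 37 (S (F 32 L) L))) (V (T (S (F 5 L)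 (F 4 L)) (F 37 (S L L))) (S (F 5 L) (F 1 L)))) (S (F 37 (V (S (F 32 L) L) (F 32 L))) (V (T (F 5 L) (F 37 L)) (F 37 (S (F 32 L) L))))) (T (S (T (S (F 37 L) (F 5 L)) (F 5 L)) (V (T (F 5 L) (F 37 L)) (F 37 (S L L)))) (S (F 37 (S (F 32 L) L)) (V (F 5 L) (F 37 L)))))))
noncomputable def v11_34 : Tr := (V (U (T (S (V (T (F 27136 (S (S L L) (S L L))) (S (F 10752 L) (F 27136 (S L L)))) (T (S (F 10752 L) (F 27136 (S L L))) (F 14848 (S L L)))) (V (T (S (F 18944 L) (F 19200 (S L L))) (S (F 18944 L) (F 18944 L))) (T (S (F 27136 (S L L)) (S (F 27136 L) (F 18944 L))) (F 31232 (V (S L L) (S (F 4 L) L)))))) (S (F 14848 (V (T (S L L) (S (F 40 L) (F 8 L))) (T (S (F 9 L) (F 8 L)) (F 41 (S L L))))) (V (T (V (F 18944 L) (F 31232 (S L L))) (F 14848 (S (F 8 L) (F 1 L)))) (T (S (F 14976 L) (F 30720 L)) (F 31360 (S L L)))))) (T (S (F 27136 (V (T L L) (T (S (F 9 L) (F 5 L))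 (F 1 L)))) (V (F 19200 (T L (F 2 L))) (F 31232 (T (S (F 2 L) (F 2 L)) L)))) (F 31232 (S (V (T L (F 4 L)) (S (F 4 L) (F 4 L))) (V (T L (F 4 L)) (T L (F 4 L))))))) (F 30720 (U (T (S (V (T (S L L) (S (F 10 L) (F 8 L))) (T (S (F 10 L) (F 10 L)) (F 8 L))) (V (T (S (S (F 2 L) (F 2 L)) (S L L)) (S (F 8 L) L)) (T (S (F 8 L) (F 8 L)) (S (F 10 L) (F 10 L))))) (S (V (T (F 42 (S L L)) (F 10 L)) (S (F 42 L) (F 10 L))) (V (T (S (F 10 L) (F 10 L)) (F 8 L)) (T (F 8 L) (F 10 L))))) (T (S (V (T (F 2 L) (F 10 L)) (S (F 10 L) (F 10 L))) (V (T (S (F 10 L) (F 6 L)) (F 2 L)) (S (F 10 L) (F 8 L)))) (S (V (S (F 42 L) (F 10 L)) (F 10 L)) (V (S (F 10 L) (F 10 L)) (S (F 42 L) (F 10 L))))))))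
noncomputable def v11_35 : Tr := (S (F 524155 (V (U (K 1) (T (S (K 1) (V (S (K 1) (K 0)) (K 1))) (K 1))) (K 1))) (V (F 35858 (U (F 16095 (T (F 2 (U (K 0) (S (K 0) (K 0)))) (K 1))) (T (S (V (K 8) (T (F 582 (U (K 4) (S L L))) (S (F 522 L) (F 582 (S L L))))) (V (K 8) (U (K 8) (S (F 68 L) (F 68 L))))) (S (V (U (K 8) (T (F 582 L) (F 730 L))) (F 666 (S (K 1) (U (K 1) (S (F 256 L) (F 32 L)))))) (F 596 (V (F 1007 (S (K 0) (K 0))) (U (K 6) (T L (F 420 (S L L)))))))))) (U (F 520059 (T (U (K 0) (S (K 2) (V (F 4 (V (K 0) (K 1))) (F 2 (S (K 0) (K 1)))))) (F 2 (U (K 0) (S (K 0) (K 1)))))) (T (S (F 166928 (V (T (S (T (F 4100 L) (K 11)) (F 4096 L)) (F 4420 (S (K 1) (S L L)))) (F 77 (S (K 2) (U (K 2) (T L (F 34 L))))))) (V (F 35858 (T (S (F 64 L) (S (F 68 L) (F 68 L))) (S (T (F 530 L) (F 658 L)) (S (F 596 L) (F 84 L))))) (T (S (F 412688 (T (F 2 L) (F 36 L))) (F 44048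 L)) (F 421200 (S (S L L) (S L L)))))) (F 421200 (S (V (S (K 7) (T (S (K 7) (F 258 L)) (K 7))) (K 7)) (V (U (K 2) (T (S (F 322 L) (F 266 L)) (F 320 L))) (T (S (F 64 L) L) (S (F 320 L) (F 320 L))))))))))
noncomputable def v11_36 : Tr := (V (U (T (S (V (T (F 4130 L) (F 4386 L)) (F 4131 (T (S (F 16 L) (F 256 L)) (S (F 528 L) (F 272 L))))) (V (S (F 4130 L) (F 4130 L)) (T (F 4130 L) (F 4139 (S (F 16 L) (F 4 L)))))) (S (F 4365 (V (T (S (F 320 L) (F 320 L)) (F 320 L)) (S (S (F 32 L) (F 288 L)) (F 352 (T L (F 8 L)))))) (F 4138 (T (V (F 4 L) (F 512 L)) (F 532 (V (S (F 1 L) (F 4 L)) (F 5 (S L L)))))))) (F 4131 (T (S (T (S (F 512 L) (F 256 L)) (S (F 768 L) (F 256 L))) (V (S (F 256 L) (F 256 L)) (S (F 256 L) (F 256 L)))) (S (F 784 (T (S L L) (S (F 2 L) (F 2 L)))) (V (F 256 L) (F 848 (S L L))))))) (U (T (S (T (V (F 4103 (S (F 512 L) (F 128 L))) (F 77 (S (F 32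 L) (F 512 L)))) (F 335 (V (S L L) (S L L)))) (V (F 4139 (T (S L L) (S (F 256 L) (F 256 L)))) (F 15 (T (S (F 128 L) L) (S (F 160 L) (F 160 L)))))) (F 333 (S (V (S L (F 2 L)) (S L L)) (V (T (S (F 258 L) (F 322 L)) (F 258 L)) (S (F 256 L) (S (F 264 L) (F 264 L))))))) (F 15 (T (S (V (S (F 128 L) (F 256 L)) (S (F 160 L) (F 128 L))) (T (V (F 258 L) (F 384 L)) (S (F 384 L) (F 258 L)))) (S (F 162 (V (S L (F 2 L)) (S L L))) (T (S (F 416 L) (F 386 L)) (F 160 L)))))))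
noncomputable def v11_37 : Tr := (T (F 166928 (S (V (U (T (S (F 4389 (V (T (S (K 1) L) (K 1)) (K 1))) (V (F 4386 (T (S (F 256 L) (F 512 L)) (S (F 768 L) (F 768 L)))) (F 4357 (T (S (F 512 L) (F 64 L)) (S (F 288 L) (F 768 L)))))) (F 4365 (S (K 1) (V (T (S (F 96 L) (F 320 L)) (F 32 L)) (S (K 1) (S (F 32 L) (F 32 L))))))) (T (S (V (F 4391 (T (S (F 128 L) (F 128 L)) L)) (F 269 (S (F 64 L) (F 512 L)))) (F 4103 (V (S (F 128 L) (F 128 L)) (T (F 128 L) (F 528 L))))) (F 4431 (S (V (S L L) (S (K 1) L)) (V (S L (F 32 L)) (S L L)))))) (F 77 (U (T (S (K 2) (V (T (S (F 32 L) (F 32 L)) (S (K 2) (F 34 L))) (T (S (F 544 L) (F 544 L)) (S (K 2) (F 544 L))))) (S (K 2) (V (S (K 2) (F 32 L)) (K 2)))) (T (S (V (S (F 32 L) (F 32 L)) (S (F 544 L) (F 544 L))) (V (S (F 32 L) (F 512 L)) (S (F 544 L) (F 544 L)))) (S (T (S (K 2) (F 544 L)) (K 2)) (V (F 32 L) (S (F 544 L) (F 544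 L)))))))) v11_36)) (F 453952 (S (V (U (F 353 (T (S (K 1) (V (S (K 1) L) (K 1))) (K 1))) (T (S (V (F 288 L) (K 7)) (V (F 289 L) (F 33 L))) (F 97 (S (K 2) (V (F 2 L) L))))) (U (K 7) (T (S (K 7) (V (F 33 L) (F 97 (S (K 2) L)))) (F 353 (S (K 1) (V (S (K 1) L) (K 1))))))) (V (U (F 352 (T (S (V (F 80 (S L L)) (S (F 64 L) (F 64 L))) (F 80 (V (S L L) (S L L)))) (S (V (F 64 L) L) (V (F 80 L) (F 64 L))))) (F 289 (T (S (T (F 32 L) (F 32 L)) (F 36 (S L L))) (S (S (F 4 L) (F 36 L)) (F 36 (S L L)))))) (U (T (S (V (F 352 (S L L)) (F 97 (S (K 2) L))) (F 97 (V (S (F 2 L) (F 2 L)) (S L L)))) (F 353 (S (V (S (K 1) L) (K 0)) (V (S L (F 16 L)) (K 0))))) (T (S (V (F 33 L) (F 33 L)) (S (F 33 L) (F 97 L))) (S (V (F 97 L) (F 65 L)) (T (F 97 L) (F 321 L)))))))))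
noncomputable def v11_38 : Tr := (S (F 658 (V (U (T (S (K 2) (S (K 2) (V (S (F 128 L) (F 128 L)) (F 128 L)))) (K 2)) (T (S (V (S (F 640 L) (F 640 L)) (F 640 L)) (V (S (F 640 L) (F 640 L)) (S (F 640 L) (F 640 L)))) (S (F 1019 (S (K 0) (K 0))) (V (S (F 640 L) (F 640 L)) (F 640 L))))) (U (T (S (K 2) (V (S (K 2) (F 640 L)) (K 0))) (K 0)) (T (S (F 672 (S (F 1 L) L)) (S (F 672 L) (F 640 L))) (S (F 544 L) (F 672 (S L L))))))) (V (U (T (S (F 666 (V (T (S (F 256 L) (F 256 L)) L) (T L (F 256 L)))) (V (F 538 (T (S (F 512 L) (F 512 L)) L)) (F 665 (T (S (F 256 L) (F 256 L)) L)))) (F 667 (S (V (S L L) (F 254 (S (K 0) (K 0)))) (V (S L (S (F 8 L) (F 8 L))) (S L L))))) (F 539 (T (S (V (S (F 32 L) (F 32 L)) (S (F 32 L) (F 32 L))) (V (S (F 32 L) L) (S (F 32 L) (F 32 L)))) (S (V (S (F 40 L) (F 40 L)) (F 32 L)) (V (S (F 40 L) (F 40 L)) (S (F 40 L) (F 40 L))))))) (F 539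 (U (T (S (V (S (F 32 L) (F 32 L)) (K 0)) (V (T L (F 32 L)) (K 0))) (K 0)) (T (S (T L (F 32 L)) (V (S (F 32 L) (F 32 L)) L)) (S (T (F 32 L) (F 96 L)) (T (F 32 L) (F 32 L))))))))
noncomputable def v11_39 : Tr := (S (F 445520 (V (U (K 8) (T (S (K 8) (V (U (K 8) (T (S (K 8) (T (V (F 512 L) (F 18 L)) (K 8))) (K 8))) (K 8))) (K 8))) (F 55 (U (K 2) (T (S (F 59 (V (K 0) (S (K 0) (K 0)))) (V (F 59 (U (K 0) (T (S (K 0) (S (K 0) (K 0))) (K 0)))) (U (K 2) (S (F 59 (S (K 0) (K 0))) (T L (K 2)))))) (F 59 (S (K 0) (K 0)))))))) (V (U (T v11_35 (F 453978 (S (K 5) (V (F 93 (U (K 1) (T (S (V (K 1) (K 0)) (K 1)) (S (K 0) (K 1))))) (U (K 5) (T (S (K 5) (V (U (K 1) (S L (F 1 L))) (K 6))) (K 6))))))) v11_37) (F 418048 (U (T (S (K 11) (V (U (F 6139 (T (U (K 1) (S (K 0) (V (S (K 1) (T (F 1 (S (K 1) (K 0))) (K 0))) (K 0)))) (K 0))) (T (S (F 664 (V (S (K 2) (U (K 2) (S (F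 256 L) L))) (F 1022 (S (K 0) (K 0))))) (V (T (S (S (F 664 L) (F 536 L)) (T (F 520 L) (F 536 L))) (F 664 (S L L))) (T (S (F 664 L) (F 648 L)) (K 13)))) (F 8191 (S (K 0) (S (K 0) (K 0)))))) (K 13))) (F 8191 (S (K 0) (K 0)))) (T v11_38 (F 147 (S (V (U (K 2) (T (S (K 2) (V (F 280 (S (K 4) L)) (F 272 L))) (K 2))) (U (K 0) (S (K 2) (T (F 64 L) (K 0))))) (V (U (F 1022 (T (S (K 0) (S (K 0) (K 0))) (K 0))) (T (S (V (F 272 L) (F 272 L)) (V (F 272 L) (F 272 L))) (S (T (F 256 L) (F 8 L)) (V (F 264 L) (K 0))))) (F 1022 (U (K 0) (T (S (S (K 0) (K 0)) (K 0)) (K 0))))))))))))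
noncomputable def v11_40 : Tr := (S (V (U (T (S (V (F 7332 L) (F 1186 (S L (F 1 L)))) (F 5252 (V (F 145 L) L))) (S (V (F 3232 (S L L)) (T (F 1186 L) (F 1184 L))) (T (F 1188 (S L (F 2 L))) (S (F 1184 L) (F 1184 L))))) (T (S (F 5156 (T (F 128 L) L)) (F 5252 (S (F 128 L) (F 1 L)))) (S (V (F 1060 L) (S (F 1184 L) (F 1184 L))) (V (F 1188 L) (F 1152 L))))) (U (T (S (F 1186 (V (T L L) (T L L))) (V (S (F 1154 L) (F 1154 L)) (T (F 1154 L) (F 1154 L)))) (S (V (T (F 1184 L) (F 1184 L)) (S (F 1186 L) (F 1184 L))) (V (T (F 1184 L) (F 1184 L)) (T (F 1184 L) (F 1184 L))))) (T (S (V (F 1186 (S L L)) (S (F 1186 L) (F 1154 L))) (V (F 1158 (S L L)) (S (F 1154 L) (F 1154 L)))) (S (F 1186 (V (T L L) (S L L))) (V (S (F 1184 L) (F 1184 L)) (S (F 1154 L) (F 1154 L))))))) (V (U (T (F 7300 (S (S L (F 64 L)) L)) (S (V (F 3204 L) (S (F 1156 L) (F 3204 L))) (F 3204 (T (F 1 L)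 L)))) (T (F 7302 (S (S L L) (S L L))) (S (T (F 3204 L) (F 1156 L)) (F 3204 (S L (F 1 L)))))) (U (T (S (V (F 1158 (S L L)) (S (F 1152 L) (F 1152 L))) (T (F 1156 L) (S (F 1156 L) (F 3204 L)))) (S (V (S (F 1152 L) (F 1152 L)) (S (F 1152 L) (F 1152 L))) (V (S (F 1156 L) (F 1156 L)) (S (F 1152 L) (F 1152 L))))) (T (S (V (F 1156 L) (F 1152 L)) (S (F 1156 L) (F 1156 L))) (S (V (F 1152 L) (S (F 1154 L) (F 1154 L))) (V (F 1156 L) (F 1152 L)))))))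
noncomputable def v11_41 : Tr := (S (V (U (T (S (T (V (F 1184 L) (F 1184 L)) (K 9)) (V (S (F 1184 L) (F 1184 L)) (T (F 1184 L) (F 1184 L)))) (S (K 9) (T (V (F 1184 L) (F 1192 L)) (K 9)))) (T (S (V (S (F 1184 L) (F 1184 L)) (S (F 1184 L) (F 1184 L))) (V (S (F 1184 L) (F 1188 L)) (S (F 1184 L) (F 1184 L)))) (S (V (S (F 1192 L) (F 1184 L)) (F 1192 (S (F 256 L) L))) (V (S (F 1184 L) (F 1185 L)) (F 1192 (S L L)))))) (U (T (S (V (S (F 1192 L) (F 1184 L)) (F 1194 (S (F 16 L) L))) (V (T (F 1184 L) (F 1192 L)) (F 1192 (S L L)))) (F 1192 (S (K 2) (T (S (K 2) L) (K 2))))) (T (S (F 1192 (V (S L L) (S (F 384 L) (F 384 L)))) (V (S (F 1192 L) (F 1185 L)) (F 1193 (S L L)))) (F 1193 (S (V (S (F 128 L) (F 128 L)) (F 128 L)) (V (S L L) L)))))) (V (U (T (S (T (S (F 1156 L) (F 3204 L)) (T (F 1152 L) (F 1152 L))) (V (F 3236 (S L L)) (S (F 1156 L) (F 3204 L)))) (S (V (S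 (F 1184 L) (F 1184 L)) (S (F 1184 L) (F 1184 L))) (T (S (F 1156 L) (F 3204 L)) (S (F 1184 L) (F 3204 L))))) (T (S (V (F 1156 L) (F 1152 L)) (T (F 3204 L) (F 1156 L))) (S (T (F 1152 L) (F 1185 (S L L))) (T (F 1156 L) (F 1156 L))))) (U (T (S (V (S (F 1152 L) (F 1152 L)) (S (F 1184 L) (F 1184 L))) (V (S (F 1152 L) (F 1156 L)) (S (F 1184 L) (F 1153 L)))) (S (F 1192 (V (S L L) (S (F 256 L) (F 256 L)))) (V (S (F 1192 L) (F 1185 L)) (F 1193 (S L L))))) (T (S (V (F 1152 L) (F 1152 L)) (T (F 1152 L) (F 1152 L))) (S (F 1193 (V (S L L) (S (F 128 L) L))) (V (F 1153 L) (F 1161 L)))))))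
noncomputable def v11_42 : Tr := (T (U v11_40 (S (V (T (S (T (F 5126 L) (F 1030 L)) (F 5126 (T (F 1 L) L))) (S (T (S (F 1030 L) (F 1030 L)) (S (F 1056 L) (F 1156 L))) (V (F 1030 L) (S (F 1156 L) (F 1158 L))))) (T (V (S (S (F 1154 L) (F 1030 L)) (F 1158 (S L L))) (S (S (F 1154 L) (F 1154 L)) (S (F 1154 L) (F 1158 L)))) (V (S (T (F 1154 L) (F 1154 L)) (S (F 1154 L) (F 1156 L))) (S (S (F 1155 L) (F 1154 L)) (S (F 1154 L) (F 1154 L)))))) (V (T (F 7174 (S (S L L) (S (F 4 L) (F 4 L)))) (S (T (F 3204 L) (F 1156 L)) (F 3204 (S L L)))) (T (F 1158 (S (V (S L (F 1 L)) (S L L)) (T L L))) (S (V (S (F 1158 L) (F 1157 L)) (S (F 1155 L) (F 1157 L))) (V (F 1156 L) (F 1159 (S L L)))))))) (U v11_41 (S (V (T (S (V (S (F 1056 L) (F 1060 L)) (S (F 1184 L) (F 1184 L))) (V (F 1028 L) (S (F 1184 L) (F 1153 L)))) (S (V (T (F 1057 L) (F 1193 (S L L))) (F 1185 (T L (S (F 320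 L) (F 320 L))))) (F 1185 (V (T L L) (T L (S (F 192 L) (F 192 L))))))) (T (S (V (F 1186 (T L (S (F 320 L) (F 320 L)))) (F 171 (U (S (F 4 L) (F 4 L)) L))) (V (S (F 1153 L) (F 1153 L)) (F 1161 (S L L)))) (F 1193 (S (V (S L L) (S (F 128 L) (F 128 L))) (V (S L L) (S L L)))))) (V (T (S (V (F 1156 L) (S (F 1156 L) (F 1157 L))) (F 1157 (T L (S (F 2 L) (F 2 L))))) (S (V (F 1157 (S L L)) (S (F 1185 L) (F 1157 L))) (F 1157 (V (S (F 2 L) (F 2 L)) (S L (F 32 L)))))) (T (S (V (F 1157 (S L L)) (F 1161 (S L L))) (V (F 1157 (S L L)) (F 1153 L))) (S (F 1193 (V (S L L) (S L L))) (V (F 1153 L) (F 1161 L))))))))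
noncomputable def v11_43 : Tr := (S (V (U (T (F 9250 (S (V (T (F 16 L) (F 32 L)) (S (F 48 L) (F 16 L))) (V (T L L) (S L L)))) (S (F 9322 (V (S L L) (F 144 (S L L)))) (V (F 9312 (S (F 256 L) L)) (F 9258 L)))) (F 9250 (T (S (V (S (F 32 L) (F 32 L)) L) (V (S L L) (S (F 512 L) (F 512 L)))) (S (V (S (F 672 L) (F 160 L)) (F 672 L)) (V L (F 672 (S L L))))))) (U (F 9258 (T (S (V (S (F 304 L) (F 48 L)) (F 368 L)) (V (S (F 256 L) L) (F 272 L))) (S (F 368 L) (S (F 368 L) (F 288 L))))) (F 8227 (T (S (S (F 416 L) (F 260 L)) (T (F 4 L) (F 260 L))) (S (F 484 L) (F 260 L)))))) (V (U (T (S (V (S (F 9248 L) (F 9248 L)) (F 9250 (T L L))) (V (S (F 9248 L) (F 9248 L)) (S (F 9248 L) (F 9248 L)))) (S (V (S (F 9248 L) (F 9248 L)) (F 9248 L)) (V (S (F 9248 L) (F 9248 L)) (F 9249 (S L L))))) (T (F 9250 (S (V (S L L) (S (F 512 L) (F 512 L))) (T (S L (F 256 L)) (S L (F 512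 L))))) (S (V (F 9248 L) (F 9259 (S L L))) (V (F 9248 L) (F 9249 L))))) (U (T (F 9250 (S (V (S (F 512 L) L) (S (F 704 L) (F 640 L))) (V (S L L) (S (F 640 L) (F 512 L))))) (F 9257 (S (T (F 256 L) (F 288 L)) (T (S (F 256 L) (F 256 L)) L)))) (F 9249 (T (S (V (S (F 640 L) (F 640 L)) (F 640 L)) (V (S (F 512 L) (F 512 L)) (F 512 L))) (S (S (F 672 L) (F 640 L)) (V (F 128 L) (F 640 L))))))))
noncomputable def v11_44 : Tr := (U (F 9249 (S (V (U (F 672 (T (S (S (F 4 L) L) (V (S L L) L)) (S (F 4 L) (S (F 4 L) L)))) (T (S (F 672 (S (F 4 L) L)) (V (F 160 L) (F 672 L))) (F 672 (S (F 4 L) (S (F 4 L) L))))) (F 736 (T (S (F 2 L) (S (F 2 L) L)) (S (F 2 L) (F 2 L))))) (V (U (T (S (V (S (F 160 L) (F 128 L)) (F 160 L)) (V (S (F 128 L) (F 128 L)) (S (F 160 L) (F 160 L)))) (S (T (F 160 L) (F 160 L)) (T (S (F 160 L) (F 160 L)) (S (F 672 L) (F 160 L))))) (T (S (V (F 128 L)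 (F 160 L)) (T L (F 128 L))) (S (S (F 672 L) (F 160 L)) (S (F 160 L) (F 128 L))))) (T (S (T (F 640 L) (F 736 (S (F 2 L) L))) (T (F 128 L) (F 128 L))) (S (F 736 (S (F 2 L) L)) (S (F 224 L) (F 160 L))))))) (S (V (F 43 (T (S (U (F 129 L) (F 129 L)) (V (S (F 9 L) (F 9 L)) (F 9 L))) (S (F 128 L) (U (F 137 (S L L)) (F 129 L))))) (F 75 (T (S (F 449 L) (F 129 L)) (F 256 L)))) (F 9249 (V (T (S (T (S (F 640 L) (F 640 L)) (F 128 L)) (T L (F 128 L))) (S (T (F 128 L) (F 672 (S L L))) (S (F 128 L) (F 128 L)))) (T (S (S (F 672 L) (F 640 L)) (S (F 640 L) (F 640 L))) (S (F 672 (S (F 2 L) L)) (S (F 672 L) (F 640 L))))))))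
noncomputable def v11_45 : Tr := (U (S (V (F 6164 (U (T (S (S (F 320 L) (F 320 L)) (F 64 L)) (S (T (F 256 L) (F 256 L)) (S (F 256 L) (F 256 L)))) (T (S (F 320 L) (F 320 L)) (S (S (F 256 L) (F 256 L)) (S (F 320 L) (F 320 L)))))) (U (T (S (T (F 4117 L) (F 21 L)) (F 2069 (T (F 1 L) L))) (S (V (F 2069 (S L L)) (S (F 21 L) (F 21 L))) (T (F 21 L) (F 2069 (S L L))))) (T (S (S (F 29 L) (F 4117 L)) (F 6165 (S L (F 64 L)))) (S (T (F 21 L) (F 21 L)) (S (F 21 L) (F 2069 L)))))) (V (F 6164 (U (T (S (F 64 L) (F 64 L)) (S L (F 64 L))) (T (S (F 320 L) (F 192 L)) (S (F 64 L) (F 192 L))))) (U (T (F 6172 (S (S L L) (S L L))) (S (T (F 2069 L) (F 2068 L)) (S (F 2068 L) (F 6164 L)))) (T (F 6172 (S (S (F 128 L) (F 128 L)) L)) (S (F 2069 (S L (F 256 L))) (F 2068 L)))))) (S (V (F 2069 (T (S (F 385 (S L L)) (F 129 L)) (S L (F 1 L)))) (T (F 29 (S (S L (F 1 L)) L)) (F 23 (S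 (T L L) (S L (F 2 L)))))) (V (F 6174 (T (S (F 64 L) (F 64 L)) (S (S (F 64 L) (F 64 L)) L))) (F 2069 (T (S (S (F 129 L) (F 385 L)) (F 385 (S L L))) (S (S (F 256 L) (F 256 L)) (S (F 384 L) (F 384 L))))))))
noncomputable def v11_46 : Tr := (S (V (F 2069 (U (T (S (V L (S L L)) (T L L)) (S (V (S (F 16 L) (F 256 L)) (S L L)) (T (S (F 256 L) (F 256 L)) (S (F 256 L) (F 256 L))))) (T (S (S L L) (S L (F 256 L))) (S (T L (F 256 L)) (T (F 256 L) (F 256 L)))))) (U (T (S (V (S (F 21 L) (F 21 L)) (S (F 7 L) (F 7 L))) (T (F 2069 (S L L)) (F 23 (S L L)))) (S (V (F 5 L) (F 39 (S (F 32 L) L))) (T (F 23 (S L L)) (F 39 (S L (F 128 L)))))) (T (S (T (F 21 L) (F 7 L)) (S (F 21 L) (F 23 L))) (S (S (F 7 L) (F 7 L)) (F 23 (T L L)))))) (V (U (T (F 6164 (S (S L L) (S L (F 128 L)))) (S (S (F 2068 L) (F 2068 L)) (F 2070 (T L L)))) (T (S (F 2068 L) (F 6164 L)) (F 2071 (S (S L L)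 (S L L))))) (U (T (S (T (F 21 L) (F 2071 (S L L))) (V (F 2068 L) (F 2071 (S L L)))) (S (F 2071 (T (S L L) (S L L))) (T (F 22 L) (F 2071 (S L L))))) (F 23 (T (S (S L L) (S L (F 2 L))) (S (S L L) (S L L)))))))
noncomputable def v11_47 : Tr := (S (V (U (T (S (V (S (F 21 L) (F 21 L)) (S (F 5 L) (F 5 L))) (T (S (F 21 L) (F 29 L)) (S (F 21 L) (F 21 L)))) (S (V (S (F 5 L) (F 21 L)) (S (F 7 L) (F 7 L))) (V (S (F 21 L) (F 21 L)) (S (F 7 L) (F 7 L))))) (T (S (T (F 21 L) (F 21 L)) (S (F 21 L) (F 21 L))) (S (T (F 5 L) (F 7 L)) (T (F 23 L) (F 7 L))))) (U (T (S (T (S (F 9 L) (F 3 L)) (S (F 7 L) (F 7 L))) (V (S (F 7 L) (F 7 L)) (S (F 7 L) (F 7 L)))) (S (F 39 (V (S L L) L)) (V (F 39 (S L L)) (F 7 L)))) (T (S (T (F 11 L) (F 7 L)) (T (F 7 L) (F 7 L))) (S (F 39 (S L L)) (S (F 7 L) (F 7 L)))))) (V (U (T (S (T (F 17 L) (F 23 (S L L))) (T (F 21 L) (F 20 L))) (S (F 23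 (V (S L L) (S L L))) (T (F 20 L) (F 23 (S L L))))) (T (S (S (F 21 L) (F 23 L)) (F 23 (S L L))) (F 23 (S (T L L) (S L L))))) (U (T (S (T (S (F 19 L) (F 23 L)) (S (F 7 L) (F 23 L))) (F 23 (V (S L L) (S L L)))) (S (V (F 23 (S L L)) (F 39 (S L L))) (F 23 (V (S L L) (S L L))))) (T (F 23 (S (T L L) (S L L))) (S (S (F 7 L) (F 7 L)) (F 23 (S L L)))))))
noncomputable def v11_48 : Tr := (U (S (V (U (T (S (V (S (F 7 L) (F 7 L)) (F 39 (S (F 32 L) L))) (V (S (F 7 L) (F 23 L)) (F 39 (S L L)))) (F 39 (S (V (S (F 32 L) (F 32 L)) (F 32 L)) (V (S (F 32 L) (F 32 L)) L)))) (T (S (S (F 7 L) (F 7 L)) (S (F 7 L) (F 7 L))) (F 39 (S (S L L) (S L L))))) (F 39 (U (T (S (S L L) (T (S (F 256 L) L) L)) (S (S (F 96 L) (F 32 L)) (S (F 32 L) L))) (T (S (S (F 256 L) (F 256 L)) (S L L)) (S L L))))) (V (U (T (S (V (F 23 (S L L)) (S (F 39 L) (F 23 L))) (F 23 (T (S L L) (S L L)))) (S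 (V (F 7 L) (F 39 L)) (F 55 (V (S L L) (S L L))))) (T (S (S (F 7 L) (F 23 L)) (F 23 (S L L))) (S (F 39 (S L L)) (F 23 (S L L))))) (U (T (S (V (F 7 L) (F 39 L)) (V (S (F 39 L) (F 23 L)) (F 55 (S L L)))) (F 39 (S (S L L) (T L L)))) (F 39 (T (S (S L L) (S L L)) (S (S (F 32 L) L) (S (F 128 L) (F 128 L)))))))) (S (V (T (S (S (F 7 L) (F 23 L)) (F 23 (S L L))) (F 39 (S (S L L) (S L L)))) (F 39 (T (S (S (F 256 L) (F 256 L)) (S (F 256 L) (F 128 L))) (S (S (F 256 L) (F 256 L)) (S (F 256 L) L))))) (V (F 23 (T (S (S L L) (S L L)) (S (S (F 128 L) (F 128 L)) (S (F 128 L) (F 128 L))))) (F 39 (T (S (S (F 128 L) (F 128 L)) (S (F 128 L) (F 128 L))) (S (S L (F 128 L)) (S (F 128 L) (F 128 L))))))))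
noncomputable def v11_49 : Tr := (S (V (F 345217 v11_42) (F 344256 (T (U v11_43 (S (V (T (F 9250 (S (V (S L L) (S (F 512 L) (F 512 L))) (V (S L (F 512 L)) (S (F 512 L) (F 512 L))))) (F 8227 (S (V (S (F 260 L) (F 4 L)) (F 256 L)) (V (S (F 4 L) (F 4 L)) (S (F 260 L) (F 260 L)))))) (F 8235 (T (S (S L L) (V (S (F 4 L) (F 4 L)) L)) (S (S (F 224 L) (F 192 L)) L)))) (V (T (F 9250 (S (V (S (F 256 L) (F 256 L)) (S (F 512 L) (F 512 L))) (V (S (F 768 L) (F 768 L)) (S (F 768 L) (F 768 L))))) (F 9249 (S (V (S (F 512 L) (F 512 L)) (S (F 640 L) (F 640 L))) (T L L)))) (F 9251 (T (S (T (S (F 128 L) (F 128 L)) L) (V L L)) (S (T (S (F 192 L) (F 128 L)) (F 128 L)) (T L (F 128 L)))))))) v11_44))) (F 17609 (V (T v11_45 (U v11_46 (F 23 (S (V (T (S (T (F 2 L) (F 2 L)) (S (F 2 L) (F 2 L))) (S (T (F 2 L) L) (S (F 2 L) (F 2 L)))) (T (S (T L L) (S L L)) (S (T L L) (S L L))))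 (V (T (S (S (F 2 L) (F 3 L)) (S (F 3 L) (F 3 L))) (S (S (F 2 L) (F 2 L)) (S (F 2 L) (F 2 L)))) (T (S (S (F 2 L) (F 2 L)) (S (F 2 L) (F 2 L))) (S (S L (F 2 L)) (S (F 2 L) (F 2 L))))))))) (T (U v11_47 (S (V (F 23 (T (S (T (F 256 L) L) (S L (F 256 L))) (S (T L L) (S L L)))) (F 15 (T (S (S L L) (T (F 256 L) (F 256 L))) (S (T L (F 128 L)) (S L (F 256 L)))))) (F 23 (V (T (S (S (F 256 L) (F 256 L)) (S (F 256 L) (F 256 L))) (S (S (F 256 L) (F 256 L)) (S (F 256 L) (F 256 L)))) (T (S (S (F 256 L) (F 256 L)) L) (S (S (F 256 L) (F 256 L)) (S (F 256 L) (F 256 L)))))))) v11_48))))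
noncomputable def v11_50 : Tr := (U (S (F 4181 (V (U (K 2) (T (S (K 2) (V (S L L) (S L L))) (K 2))) (U (K 2) (T (S (S (K 2) L) (V L (F 128 L))) (S (K 2) (T L (K 2))))))) (V (U (T (S (F 4180 (S (K 2) (T L (F 256 L)))) (F 4165 (T (S L L) (S (F 64 L) (F 64 L))))) (F 5205 (S (K 1) (V (S L L) (S L L))))) (F 4165 (T (S (V (S (F 64 L) (F 66 L)) (S (F 64 L) (F 64 L))) (V L (S (F 192 L) (F 192 L)))) (S (V (S (F 66 L) (F 66 L)) (F 64 L)) (T (F 64 L) (F 64 L)))))) (F 4181 (U (T (S (V (S (K 2) L) L) (V (S L L) (S L L))) (S (K 2) (V L L))) (T (S (V L L) (V L L)) (S (V L L) (T L L))))))) (S (V (F 4165 (T (S (V (T (S (F 64 L) (F 64 L)) (S (F 64 L) (F 64 L))) (T (F 64 L) (F 64 L))) (V (T L (F 64 L)) (S (F 64 L) (F 64 L)))) (S (V (T (S (F 64 L) (F 64 L)) (S (F 64 L) (F 64 L))) (U (F 64 L) (S (F 320 L) (F 320 L)))) (V (T (F 64 L) (F 64 L)) (S (F 64 L) (F 64 L))))))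 (T (F 4181 (S (V (S L L) (S (F 128 L) (F 128 L))) (V (S L L) (S (F 128 L) L)))) (S (T (F 85 (S (F 256 L) (F 1 L))) (F 81 L)) (F 4181 (V (S L L) (S L L)))))) (V (T (S (F 4165 (V (S (F 64 L) (F 128 L)) (S (F 64 L) (F 64 L)))) (V (F 4109 L) (F 4181 (S L (F 64 L))))) (F 4181 (S (V (S L L) (S L L)) (V (S (F 64 L) (F 64 L)) (S (F 64 L) (F 64 L)))))) (F 4181 (T (S (V (S L L) (S L L)) (T (S L L) (S L (F 64 L)))) (S (V (S L L) (S L L)) (V (S L (F 64 L)) (S L L))))))))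
noncomputable def v11_51 : Tr := (U (S (K 7) (V (F 2306 (U (T (S (K 2) (V (F 16 L) (K 2))) (K 2)) (T (S (V (S (K 2) (F 18 L)) (S (K 2) (F 18 L))) (V (F 18 L) (F 16 L))) (S (K 2) (V (F 16 L) L))))) (U (K 7) (T (S (S (K 7) (F 2304 L)) (F 2306 (S L L))) (S (K 7) (S (K 7) (F 2304 L))))))) (S (V (T (S (F 2336 (U (K 2) (V (S (F 128 L) (F 128 L)) L))) (V (F 2338 (T (S L (F 64 L)) (S L L))) (S (F 2336 (S L L)) (F 2306 L)))) (U (K 7) (S (V (F 2336 (S (K 2) L)) (F 2304 L)) (V (F 2304 L) (F 2304 L))))) (T (S (S (F 257 L) (F 256 L)) (V (F 2336 (S L L)) (F 2304 L))) (S (S (F 25 L) (F 257 L)) (S (F 256 L) (T (F 2304 L) (F 2304 L)))))) (V (T (F 2306 (S (V (S (F 16 L) (F 16 L)) (S L (F 16 L))) (T (S (F 16 L) (F 144 L)) (S (F 16 L) (F 144 L))))) (S (V (S (F 2304 L) (F 2306 L)) (S (F 2304 L) (F 2304 L))) (F 2306 (V (S (F 16 L) (F 130 L)) (S L (F 128 L)))))) (T (S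 (V (F 2306 (S L L)) (S (F 2336 L) (F 2306 L))) (F 2306 (V (S (F 16 L) (F 16 L)) (S L (F 16 L))))) (S (V (S (F 2304 L) (F 2304 L)) (S (F 2304 L) (F 2304 L))) (V (S (F 2304 L) (F 2306 L)) (S (F 2304 L) (F 2306 L))))))))
noncomputable def v11_52 : Tr := (T (U (S (V (S (F 633 (T L (F 1 L))) (F 4688 (T (S (F 384 L) (F 128 L)) (S (F 304 L) (F 288 L))))) (F 617 (S (F 32 L) L))) (F 4688 (V (U (T (S (S (F 384 L) (F 128 L)) (S (F 128 L) (F 128 L))) (S (K 2) (S (F 128 L) (F 128 L)))) (T (S (S (F 384 L) (F 384 L)) (S (F 128 L) (F 128 L))) (S (F 32 L) (S (F 128 L) (F 128 L))))) (T (S (F 288 L) (S (F 416 L) (F 160 L))) (S (F 304 L) (S (F 304 L) (F 288 L))))))) (S (V (T (F 83 (S (F 128 L) (U (F 9 L) (F 1 L)))) (S (F 121 L) (S (F 601 L) (F 4625 L)))) (F 105 (S (F 257 L) L))) (V (T (F 4690 (S (U L (S (F 128 L) (F 128 L))) (V (S (F 128 L) L) L))) (S (S (F 4688 L)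 (F 4624 L)) (T (F 4626 L) (F 4624 L)))) (T (F 4673 (S (F 64 L) (S (F 288 L) (F 288 L)))) (F 4617 (S (F 16 L) L)))))) (U (S (F 553 (V (F 503 (S (K 0) (K 0))) (S (F 32 L) L))) (V (U (F 7935 (S (K 0) (K 0))) (T (S (F 4633 L) (F 4624 L)) (F 4632 (S (K 2) L)))) (F 4617 (T (S (F 96 L) (F 64 L)) (S (F 96 L) (F 32 L)))))) (S (V (T (S (F 121 L) (F 521 L)) (F 553 (S (F 64 L) L))) (S (F 109 L) (F 41 L))) (V (T (S (S (F 4625 L) (F 4624 L)) (S (F 4624 L) (F 4624 L))) (S (F 4632 (S (F 256 L) L)) (S (F 4632 L) (F 4624 L)))) (F 4617 (T (S (F 32 L) L) (S (F 32 L) L)))))))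
noncomputable def v11_53 : Tr := (S (F 581 (V (U (T (S (V (F 290 (S L L)) (S (F 160 L) (F 416 L))) (V (F 290 (S L L)) (F 256 L))) (S (T (F 162 (S L (F 2 L))) (F 160 L)) (F 162 (V (S (F 2 L) (F 2 L)) L)))) (T (S (T (F 258 L) (F 288 L)) (S (F 258 L) (F 258 L))) (S (S (F 160 L) (F 416 L)) (F 386 (T L (F 4 L)))))) (U (T (S (V (S (F 160 L) (F 160 L)) (S (F 160 L) (F 160 L))) (V (F 128 L) (F 128 L))) (S (V (F 160 L) (F 160 L)) (V (F 160 L) (F 160 L)))) (T (S (T (F 128 L) (F 160 L)) (S (F 128 L) (F 384 L))) (S (S (F 160 L) (F 160 L)) (S (F 160 L) (F 160 L))))))) (V (F 4684 (U (T (S (T (S (F 272 L) (F 256 L)) (F 256 L)) (T L L)) (S (S (F 320 L) (F 320 L)) (S (F 320 L) (F 256 L)))) (T (S (S (F 256 L) (F 256 L)) (S (F 256 L) (F 256 L))) (S (F 336 (S L L)) (F 256 L))))) (F 581 (U (T (S (T (F 256 L) (F 128 L)) (S (F 256 L) (F 256 L))) (S (S (F 160 L) (F 160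 L)) (S (F 384 L) (F 386 L)))) (T (S (S (F 384 L) (F 384 L)) (S (F 384 L) (F 258 L))) (S (F 416 (S L L)) (F 384 L)))))))
noncomputable def v11_54 : Tr := (U (F 209 (S (V (U (T (S (T (F 272 L) (F 272 L)) (F 274 (S L (F 2 L)))) (S (T (F 272 L) (F 256 L)) (F 274 (S L (F 16 L))))) (T (S (S (F 272 L) (F 274 L)) (F 402 (S L L))) (S (S (F 272 L) (F 274 L)) (F 258 L)))) (U (T (S (V (F 272 L) (F 272 L)) (T (F 272 L) (F 272 L))) (S (V (F 256 L) (F 256 L)) (T (F 256 L) (F 256 L)))) (T (S (S (F 256 L) (F 256 L)) (S (F 272 L) (F 272 L))) (S (S L (F 256 L)) (S (F 256 L) (F 264 L)))))) (V (F 402 (T (S (V L L) (S L L)) (S (S L (F 8 L)) (S (F 8 L) (F 8 L))))) (U (T (S (S (F 272 L) (F 274 L)) (F 400 (S L (F 32 L)))) (S (S (F 264 L) (F 280 L)) (F 264 L))) (T (F 400 (S (S L L) L)) (S (F 256 L) (F 392 L))))))) (S (F 209 (V (T (S (V (F 400 L) (F 272 L)) (F 400 (S L (F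 32 L)))) (S (S (F 256 L) (F 384 L)) (F 386 (S L (F 8 L))))) (T (S (V (F 256 L) (S (F 272 L) (F 272 L))) (S (F 256 L) (F 384 L))) (S (V (S (F 256 L) (F 384 L)) L) (T (F 256 L) (F 256 L)))))) (F 93 (V (S (T (F 82 (S L L)) (F 66 L)) (T (F 18 L) (F 74 L))) (T (S (S (F 64 L) (F 80 L)) (F 64 L)) (S (S (F 64 L) (F 66 L)) (F 64 L)))))))
noncomputable def v11_55 : Tr := (U (S (V (F 597 (U (T (S (T (F 32 L) (F 32 L)) (T L (F 32 L))) (S (S (F 32 L) (F 32 L)) (S (F 32 L) (F 32 L)))) (T (S (S (F 32 L) (F 32 L)) (S (F 32 L) (F 32 L))) (S (S (F 32 L) (F 32 L)) (S (F 32 L) (F 32 L)))))) (F 209 (U (T (S (F 336 (S (F 1 L) L)) (S (F 336 L) (F 272 L))) (F 336 (S L (S L L)))) (T (S (F 272 L) (F 336 (S L L))) (S (F 80 L) (F 256 L)))))) (F 85 (V (U (T (S (T (F 16 L) (F 16 L)) (T (F 16 L) (F 16 L))) (S (T (F 80 L) (F 80 L)) (S (F 80 L) (F 80 L)))) (T (S (S (F 80 L) (F 272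 L)) (S (F 272 L) (F 272 L))) (S (S (F 80 L) (F 80 L)) (S (F 80 L) (F 336 L))))) (U (T (S (S (F 80 L) (F 80 L)) (S (F 16 L) (F 16 L))) (S (S (F 208 L) (F 80 L)) (S (F 80 L) (F 80 L)))) (T (S (S (F 80 L) (F 80 L)) (S (F 80 L) (F 80 L))) (S (F 64 L) (F 64 L))))))) (S (V (F 85 (T (S (S (F 16 L) (F 16 L)) (S (F 16 L) (F 16 L))) (S (T (F 64 L) (F 64 L)) (S (F 64 L) (F 64 L))))) (T (F 597 (S (S (F 32 L) (F 32 L)) (S L L))) (F 209 (S (S (F 576 L) (F 64 L)) (S (F 256 L) (F 256 L)))))) (F 85 (V (T (S (S (F 272 L) (F 272 L)) (S (F 272 L) (F 272 L))) (S (S (F 64 L) (F 16 L)) (S (F 272 L) (F 272 L)))) (T (S (S (F 16 L) (F 16 L)) (S (F 16 L) (F 16 L))) (S (S (F 64 L) (F 64 L)) (S (F 64 L) (F 64 L))))))))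
noncomputable def v11_56 : Tr := (U (F 209 (S (V (U (T (S (S (F 16 L) (F 16 L)) (S (F 256 L) (F 256 L))) (S (F 1019 (S (K 0) (K 0))) (S (F 64 L) (F 64 L)))) (T (S L (S (F 256 L) (F 272 L))) (S L L))) (T (S (S (F 576 L) (F 576 L)) (S (F 64 L) (F 64 L))) (S (S (F 608 L) (F 576 L)) (S (F 576 L) (F 72 L))))) (V (U (T (S (S (F 256 L) (F 272 L)) (S (F 272 L) (F 272 L))) (S (S (F 256 L) (F 264 L)) (S (F 264 L) (F 264 L)))) (T (S (S (F 272 L) (F 272 L)) (F 256 L)) (S L (F 256 L)))) (U (T (S (F 64 L) (S (F 320 L) (F 320 L))) (S (F 72 L) (F 328 (S L L)))) (T (S (F 64 L) (F 256 L)) (S (F 72 L) (F 72 L))))))) (S (V (F 209 (T (S (S L L) (T (F 256 L) L)) (S (S L L) (S L L)))) (F 177 (T (S (S (F 576 L) (F 576 L)) (S (F 64 L) (F 64 L))) (S (F 512 L) (S (F 576 L) (F 576 L)))))) (F 209 (V (T (S (S (F 256 L) (F 256 L)) (S (F 384 L) (F 384 L))) (S (S (F 256 L) (F 256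 L)) (S (F 384 L) (F 392 L)))) (T (S (S (F 64 L) (F 256 L)) (S (F 256 L) (F 256 L))) (S (S (F 72 L) (F 72 L)) (S (F 72 L) (F 72 L))))))))
noncomputable def treeV11 : Tr := (F 0xfffffffffffffffffffffffffffffffffffffffffffffffffffffffffffffffffffffffffffffffffffffffffffffffffffffffffffff6fffffffffffffffffffff7dffffffff77fffffffffffffffffd7fffffffffffffffffffffffffffffffffffffffffffffffffffffffffffffffffffffffffffffffbfefffbf3ffffffdbffffffffffffffffffffffffffffffffffffffffffffffffffffffffffffffffffffffffffffffffffffff73ffffffffbf9fffff9f3fffffbbffffffffffffffffffffffffffffffffffffffffffffffffffffffffffffffffffffffffffffffffffffffdff (U (T (S (F 154284173 (V v11_1 (U (T (S (F 131059 (V (F 1 (U (K 0) (T (S (K 0) (K 0)) (K 0)))) (U (K 1) (T (S (K 0) (T (K 0) (F 1 (S (K 0) (K 0))))) (F 1 (S (K 0) (K 0))))))) v11_2) (F 131067 (S (K 0) (V (K 0) (U (K 0) (T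 (S (K 0) (K 0)) (K 0))))))) v11_4))) (V (F 154284116 (U v11_7 (T (F 238592 v11_8) (S v11_9 v11_10)))) (U v11_29 (F 154276063 (T v11_32 (S v11_33 v11_34)))))) (F 153224277 v11_39)) (F 8447 (T v11_49 (S (V (T (F 328904 v11_50) (F 464448 v11_51)) (F 463424 v11_52)) (F 196681 (V (T (U v11_53 (F 581 (S (V (T (S (S (F 256 L) (F 256 L)) (S (F 258 L) (F 258 L))) (S (T (F 384 L) (F 418 (S L L))) (S (F 384 L) (F 386 L)))) (T (S (T (F 128 L) (F 128 L)) (T (F 384 L) (F 384 L))) (S (V (F 160 L) (F 416 (S L L))) (T (F 384 L) (F 160 L))))) (V (T (S (S (F 258 L) (F 258 L)) (S (F 258 L) (F 258 L))) (F 386 (S (S L L) (S L L)))) (T (S (S (F 384 L) (F 384 L)) (S (F 384 L) (F 258 L))) (S (S (F 384 L) (F 384 L)) (F 386 (S L L)))))))) v11_54) (T v11_55 v11_56))))))))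

theorem pV11 : chkV par treeV11 224 32 320 64 448 64 163840 327680 Lc = true := by decide +kernel

noncomputable def v12_0 : Tr := (V (F 2182 (U (F 1013 (T (F 2 (S (K 0) (K 0))) (S (K 1) (V (K 0) (K 1))))) (T (S (V (F 261 (T (K 5) (S L (K 5)))) (T (S (S (F 37 L) (F 261 L)) (F 261 (V (K 5) L))) (F 37 (S L L)))) (V (F 1015 (U (K 0) (S (K 0) (K 0)))) (U (F 261 (T (K 5) (S L (K 5)))) (T (S (F 261 L) (F 772 (S (F 64 L) L))) (F 773 (S L L)))))) (S (V (S (F 5 L) (F 1 L)) (S (F 5 L) (F 5 L))) (V (S (S (F 257 L) (F 257 L)) (T (F 257 L) (F 769 L))) (S (F 1 L) (S (F 257 L) (F 257 L)))))))) (U (F 12239 (T (F 4 (S (K 0) (K 1))) (S (K 1) (F 2 (V (K 1) (U (K 0) (T (K 1) (K 0)))))))) (T (F 10374 (S (V (U (F 274 (S (K 2) (T L (K 5)))) (S (S (F 2 L) (F 18 L)) (F 2 L))) (F 274 (U (K 2) (T (S (K 2) L) (S (K 2) L))))) (V (U (T (S (F 402 (S L L)) (S (F 386 L) (F 384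 L))) (K 0)) (T (F 386 (S (F 4 L) L)) (F 258 L))) (F 274 (U (T (S (S (F 1 L) (F 1 L)) (S (F 1 L) (F 1 L))) (S L (K 5))) (T (S (F 1 L) (F 1 L)) (S (F 1 L) (F 1 L)))))))) (F 11268 (S (V (S (K 5) (S (F 256 L) (F 264 L))) (F 784 (U (K 2) (T (S (K 2) L) (K 2))))) (V (U (K 0) (S (F 280 L) (F 776 L))) (U (F 784 (T (S L (K 6)) (S L (F 8 L)))) (T (F 792 (S L (F 1 L))) (F 528 L)))))))))
noncomputable def v12_1 : Tr := (V (F 56328 (T (U (S (V (F 280 (S (K 2) L)) (S (K 6) (T (F 24 L) (K 6)))) (V (F 408 (S L L)) (S (S (F 24 L) (F 280 L)) (F 24 L)))) (S (V (F 280 (S L (F 2 L))) (S (T (F 264 L) (F 24 L)) (S (F 24 L) (F 280 L)))) (V (F 24 L) (S (F 24 L) (F 280 L))))) (U (S (F 60 (V (S (K 3) L) (K 3))) (V (F 24 L) (S (F 24 L) (F 56 L)))) (S (V (F 24 L) (S (S (K 6) (F 16 L)) (F 16 L))) (S (F 16 L) (F 24 L)))))) (T (U (F 54280 (S (K 7) (V (F 50 (S (T (S (K 3) (F 16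 L)) (K 3)) (T L (F 16 L)))) (U (K 7) (T (S (K 7) (F 80 L)) (S (K 7) (F 32 L))))))) (S (V (F 50184 (T (S (V (F 38 L) (F 2 L)) (F 38 (S L (F 2 L)))) (U (K 8) (S L (F 70 L))))) (T (F 50178 (U (K 8) (S (S (K 8) L) (S (F 512 L) (F 514 L))))) (S (K 4) (V (F 50184 L) (F 50176 L))))) (F 50184 (V (T (F 38 (S L (F 34 L))) (F 70 (S L (F 34 L)))) (T (S (S (F 2 L) (F 6 L)) (F 6 L)) (S (S L (F 4 L)) (F 70 (S L (F 16 L))))))))) (F 50184 (U (S (K 8) (V (F 198 (S (K 3) (T (F 16 L) L))) (U (K 8) (S (K 8) (S (K 8) (F 64 L)))))) (S (V (T (F 70 (S (K 3) (S L L))) (S (K 8) (F 68 L))) (T (S (K 8) (S (K 8) L)) (K 8))) (V (F 70 (S (T L (F 64 L)) (S L (F 16 L)))) (S (T (S (F 64 L) (F 68 L)) (S (F 68 L) (F 196 L))) (T (F 68 L) (F 68 L)))))))))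
noncomputable def v12_2 : Tr := (V (F 6344 (T (U (S (F 523 (V (S (F 2 L) L) (S L (S (F 1 L) (F 1 L))))) (V (T (S (F 771 L) (F 768 L)) (F 523 (S (F 2 L) L))) (F 515 (T (S (F 64 L) L) (F 65 (S L L)))))) (F 523 (S (V (S (F 2 L) (F 2 L)) (S (F 1 L) (F 1 L))) (V (S (F 2 L) (S (F 2 L) (F 2 L))) (S (F 1 L) L))))) (F 11 (U (S (V L (S (F 16 L) (F 3 L))) (V (S (F 6 L) (F 2 L)) (F 3 (S L L)))) (S (S (F 2 L) (F 2 L)) (V (F 2 L) (F 2 L))))))) (F 52296 (T (U (S (V (F 50 (T (S (F 2 L) (F 3 L)) (S (F 1 L) (F 3 L)))) (T (F 50 (S (S L (F 1 L)) (F 3 (S L L)))) (S (S (F 34 L) (F 546 L)) (F 546 L)))) (V (F 274 (S (S (F 1 L) (F 1 L)) (S (F 1 L) L))) (F 562 (T (S (F 1 L) (F 1 L)) (S L (F 1 L)))))) (S (V (S (F 18 L) (F 274 L)) (S (T (F 258 L) (F 514 L)) (S (F 258 L) (F 770 L)))) (V (F 786 (S L L)) (S (F 258 L) (F 770 L))))) (U (S (V (S (F 2 L) (F 18 L)) (T (S (S (F 34 L)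 (F 546 L)) (F 546 L)) (S (F 32 L) (F 546 L)))) (V (F 530 (S L L)) (T (F 514 L) (F 514 L)))) (S (V (S (F 514 L) (F 530 L)) (T (S (F 514 L) (F 802 L)) L)) (V (F 514 L) (S (F 514 L) (F 770 L))))))))
noncomputable def v12_3 : Tr := (S (V (F 3078 (T (U (S (K 6) (S (T (F 10 L) (F 10 L)) (F 2 L))) (S (V (F 10 L) (S (K 6) (F 10 L))) (S (F 2 L) (F 10 L)))) (U (S (K 6) (V (F 10 L) (F 14 (S (K 3) L)))) (S (V (F 8 L) (S (K 6) (F 12 L))) (S (F 8 L) (F 10 L)))))) (F 1286 (T (U (S (K 6) (V (S (K 6) (S (K 6) (F 36 L))) (K 6))) (S (V (S (K 6) (S (K 6) (F 4 L))) (K 6)) (V (S (S (F 4 L) (F 6 L)) (F 4 L)) (S (T L (F 12 L)) (T (F 36 L) (F 44 L)))))) (U (K 6) (S (K 6) (V (S (F 12 L) (F 12 L)) (F 13 (S (S (K 3) L) (S L L))))))))) (V (T (F 6150 (U (S (S (F 2 L) (F 18 L)) (S (F 2 L) (F 16 L))) (S (S (F 18 L) (F 18 L)) (S (F 18 L) (F 258 L))))) (F 7172 (U (S (S (F 260 L)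 (F 260 L)) (S (F 260 L) (F 256 L))) (S (F 256 L) L)))) (T (U (S (F 3078 (V (S (F 2 L) (F 34 L)) (S (S (F 8 L) (F 32 L)) (S (F 40 L) (F 544 L))))) (F 7172 (V L (S (F 256 L) (F 784 L))))) (S (F 3078 (V (S (F 10 L) (F 546 L)) (S L (F 512 L)))) (F 7172 (S L (F 512 L))))) (U (S (F 3906 (V (S (F 64 L) (F 64 L)) (S (F 192 (S (K 2) L)) L))) (F 3078 (V (F 2 L) (S (F 44 L) (F 524 L))))) (F 3078 (S (V L (S (F 12 L) (F 524 L))) (V (F 6 L) (F 524 (S L (F 32 L))))))))))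
noncomputable def v12_4 : Tr := (T (S (K 5) (V (U (F 4055 (T (S (K 1) (V (U (K 2) (T (F 4 (S (K 0) (K 1))) (K 2))) (K 2))) (K 1))) (T (S (F 2579 (V (U (K 5) (T (S (K 5) (S (K 5) L)) (K 5))) (K 5))) (V (F 2579 (U (T (F 18 (S (V L (K 2)) (S L L))) (S (K 5) (S (F 2 L) (F 18 L)))) (T (S (S (F 16 L) (F 18 L)) (F 18 L)) (S (S (F 2 L) (F 18 L)) (F 2 L))))) (U (F 8183 (T (S (K 0) (K 0)) (K 0))) (T (F 2563 (S (T L L) (S (F 64 L) (F 320 L)))) (F 531 (S (S (K 6) L) (S (F 2 L) (F 258 L)))))))) (S (K 5) (V (U (F 2578 (T (S (K 5) L) (F 447 (S (K 0) (K 0))))) (F 1555 (T (S (S (F 2 L) (F 2 L)) (F 2 L)) (S L (F 6 L))))) (F 786 (U (K 6) (S (K 5) (T L (F 260 L))))))))) (U (K 5) (T (F 8151 (S (K 0) (V (F 1 (U (K 0) (T (S (S (K 0) (K 0)) (K 0)) (S (K 0) (K 0))))) (U (K 1) (T (K 1) (S (K 0) (K 1))))))) (S (K 5) (V (F 785 (U (K 5) (S (K 5) (T (F 128 L) (F 264 L))))) (T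 (S (K 5) (F 261 L)) (K 5)))))))) (S (K 5) (V (U (K 5) (T (S (K 5) (V (U (F 8151 (S (K 0) (S (K 0) (K 1)))) (S (F 785 L) (F 1808 L))) (F 1937 (S (K 3) (T L L))))) (F 1937 (S (K 3) (V (S (K 3) (S L L)) (S (K 3) (S (K 3) L))))))) (F 913 (U (K 4) (T (S (K 4) (V (S (K 4) (T L (K 4))) (K 4))) (K 4)))))))
noncomputable def v12_5 : Tr := (V (T (U (F 4431 (S (K 7) (V (U (K 7) (T (S (K 7) (S (K 7) L)) (K 7))) (K 7)))) (S (V (F 4429 (T (S (K 7) (U (K 7) (V L (F 1024 L)))) (S (K 7) (U (K 7) (S (K 7) L))))) (F 65806 (T (U (K 7) (S (F 28 L) (F 264 L))) (F 276 (U (K 3) (S (K 3) L)))))) (F 4421 (V (T (S (V (S (F 3072 L) (F 3072 L)) (T (F 3072 L) (F 3072 L))) (T (S (F 3072 L) (F 3074 L)) (F 2048 L))) (S (V L (S (F 3072 L) (F 3072 L))) (T (F 2048 L) (F 2048 L)))) (T (S (V (S (F 3072 L) (F 3072 L)) (F 3080 (S L L))) (V (S (F 3072 L) (F 3072 L)) (F 3080 (S L L)))) (S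 (U (K 7) (F 3072 L)) (V (F 2048 L) (F 3072 L)))))))) (U (K 7) (S (F 130943 (V (K 0) (S (K 0) (K 0)))) (V (F 4421 (T (S (S L (F 64 L)) (S (F 64 L) (F 320 L))) (S (S (K 7) (F 320 L)) (F 2368 (S L (F 64 L)))))) (F 8519 (T (S (V (F 8 L) (F 1041 L)) (S (F 72 L) (F 72 L))) (F 73 (U (K 3) (S (F 33 (S (K 3) L)) L))))))))) (F 8462 (T (U (F 2321 (S (F 251 (V (K 0) (S (K 0) (K 0)))) (V (F 251 (T (S (K 0) (S (K 0) (K 0))) (K 0))) (U (K 2) (T L (F 8 L)))))) (S (V (S (S (F 21 L) (F 17 L)) (F 273 (T L (F 1 L)))) (F 21 (S (F 32 L) L))) (V (T (S (F 2305 (S (F 32 L) (F 64 L))) (F 2312 (S L L))) (S (F 273 L) (F 2305 (S (F 32 L) (F 64 L))))) (T (F 2321 (S (F 64 L) L)) (F 17 L))))) (U (F 3967 (S (K 0) (V (K 0) (S (K 0) (K 0))))) (S (V (S (F 21 L) (F 81 (S (F 128 L) L))) (F 85 (S (F 6 L) (F 8 L)))) (V (F 273 (T (S (F 1 L) (F 1 L)) (S (F 144 L) (F 17 L)))) (F 21 (T L (F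 32 L)))))))))
noncomputable def v12_6 : Tr := (T (F 4419 (U (S (V (U (F 2306 (T (S (T L (K 2)) (S (F 8 L) (F 9 L))) (S (K 2) (S (F 8 L) (F 136 L))))) (T (S (F 2050 L) (F 2370 L)) (F 2368 (S (S L (F 128 L)) (F 128 L))))) (U (T (S (K 7) (S (F 3072 L) (F 3136 L))) (F 3392 (S (K 1) (S (K 1) L)))) (T (S (S (F 3072 L) (F 3136 L)) (F 3136 (S L (F 128 L)))) (S (F 2112 L) (F 2112 L))))) (V (F 2374 (T (S (S L (F 1 L)) (F 1 L)) (S (S L (F 1 L)) (F 1 L)))) (U (T (F 3138 (S (S L (F 2 L)) L)) (S (F 2112 L) (F 2370 L))) (F 2368 (T (S (S (F 129 L) (F 193 L)) (F 129 L)) (S L (F 193 L))))))) (S (V (T (S (S (F 2050 L) (F 3074 L)) (F 3334 (S L (F 4 L)))) (S (S (F 2304 L) (F 2368 L)) (F 2374 (S L (F 1 L))))) (T (S (V (F 3072 L) (F 3072 L)) (S (F 3072 L) (F 3074 L))) (S (S (F 2048 L) (F 3072 L)) (F 3136 (S L (F 64 L)))))) (V (F 3398 (T (S L L) (S L L))) (T (F 3078 (S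 (S L (F 8 L)) (F 8 L))) (S (F 2116 L) (F 1350 L))))))) (F 4675 (U (S (V (F 2368 (U (S (K 2) (T L (F 32 L))) (T (S (S (K 2) (F 64 L)) (F 64 L)) (S (F 32 L) (F 96 L))))) (F 2120 (U (K 3) (T (S L (F 4 L)) (S (K 3) (F 36 L)))))) (V (F 324 (T (S (F 128 L) (F 129 L)) (S (F 1 L) (F 193 L)))) (F 2376 (U (T (S L (F 32 L)) (S (F 32 L) (F 32 L))) (T (S (F 32 L) (F 96 L)) (S (F 32 L) (F 33 L))))))) (S (V (F 2368 (S (T (S L (F 64 L)) L) (T (F 64 L) (F 64 L)))) (T (S (F 2120 (S L L)) (F 2112 L)) (F 2120 (S L (F 4 L))))) (V (S (F 260 L) (F 326 L)) (F 2372 (T (S L (F 64 L)) (S (F 32 L) (F 33 L)))))))))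
noncomputable def v12_7 : Tr := (T (F 331 (U (S (V (F 2072 (T (S (S L L) (T L (F 8 L))) (U (K 2) (S (F 264 L) (F 8 L))))) (T (S (F 2089 L) (F 2072 L)) (F 2185 (S (F 16 L) L)))) (V (F 2192 (U (T (S (S (F 32 L) (F 32 L)) L) (S (F 32 L) (F 32 L))) (T (S L (F 128 L)) (S (F 32 L) (F 34 L))))) (F 152 (T (S (S (F 1 L) (F 1 L)) L) (S (F 1 L) (F 1 L)))))) (S (V (F 2072 (T (S (S L L) (S L L)) (S (S (F 8 L) (F 8 L)) (S (F 8 L) (F 8 L))))) (T (S (F 2057 L) (F 2072 L)) (F 2185 (S (F 16 L) L)))) (V (T (S (F 2192 (S L (F 64 L))) (F 148 L)) (F 156 (S (S (F 1 L) (F 1 L)) L))) (F 2072 (T (S L (F 8 L)) (S (F 8 L) (F 72 L)))))))) (F 9027 (U (S (V (S (K 6) (T (F 1032 L) (F 1049 L))) (F 1553 (U (K 2) (T L L)))) (V (T (S (F 1032 L) (F 1032 L)) (F 1160 (S L (F 32 L)))) (T (F 1544 (S (F 128 L) L)) (F 1049 (S (F 1 L) L))))) (S (V (T (S (F 1536 L) (F 1032 L)) (S (F 1553 L)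 (F 1036 L))) (F 1541 (T (S (F 16 L) L) (S (F 18 L) (F 16 L))))) (V (T (S (F 1544 L) (F 652 L)) (F 1164 (S L (F 1 L)))) (F 1540 (S (T (F 128 L) (F 144 L)) (T (F 32 L) (F 34 L)))))))))
noncomputable def v12_8 : Tr := (V (F 20673 (T (U (S (V (S (K 7) (S (F 2136 L) (F 6220 L))) (F 7256 (S (K 2) (T L (F 16 L))))) (V (S (F 6220 (S L L)) (F 5188 L)) (F 6220 (S (F 33 (T L L)) (S L (F 1 L)))))) (F 3084 (S (V (S (T (F 16 L) (F 80 L)) (S L (F 1 L))) (S (F 81 (T (S L L) (S (F 1 L) (F 1 L)))) (T (F 17 L) (F 81 L)))) (V (S L (F 17 L)) (S (T (F 17 L) (F 81 L)) (S (F 17 L) (F 17 L))))))) (F 2076 (U (S (F 35 (V (S (K 3) (S L L)) (S (K 3) (T (F 1 L) (F 1 L))))) (V (S (F 32 L) (F 33 L)) (F 35 (S (T (F 1 L) (F 1 L)) (S L L))))) (S (V (S (S (F 258 L) (F 290 L)) (F 2 L)) (F 291 (S (T L L) (T L L)))) (V (S (F 3 L) (F 3 L)) (F 35 (S (T (F 1 L) (F 1 L)) (S L L))))))))) (F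 8846 (T (U (F 2344 (S (F 160 (S (K 3) (U (K 3) (S (K 3) (V (S (K 3) (F 2 L)) (F 32 L)))))) (V (T (S (F 144 L) (F 48 L)) (F 176 (S L L))) (F 160 (T (S (F 32 L) (F 2 L)) (S (F 32 L) (F 2 L))))))) (F 2060 (S (T (V (S (F 289 L) (F 292 L)) (F 293 (S L L))) (F 292 (V (S L (F 2 L)) (S (F 32 L) (F 32 L))))) (V (S (F 324 (T L (F 2 L))) (S (F 68 L) (F 68 L))) (F 292 (T (S (F 32 L) (F 2 L)) (S (F 32 L) (F 2 L)))))))) (F 293 (U (F 65 (S (F 55 (S (K 0) (K 0))) (V (S (T (F 2 L) (F 2 L)) (S (F 2 L) (F 2 L))) (T (S (F 32 L) (F 2 L)) (S (F 32 L) (F 2 L)))))) (S (S (V (F 67 (T L L)) (F 6 (S L (F 32 L)))) (F 65 (V (S L L) (S (F 32 L) (F 32 L))))) (F 65 (V (S (T (F 2 L) (F 2 L)) (S (F 2 L) (F 2 L))) (S L (S (F 2 L) (F 2 L)))))))))))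
noncomputable def v12_9 : Tr := (V (U (F 8594866 (T (S (F 11398 (V (U (K 4) (T (S (K 4) (V (U (K 1) (S (F 32 L) (F 64 L))) (S (K 4) (U (K 4) L)))) (S (K 4) (V (S (K 4) (F 8 L)) (K 4))))) (K 4))) v12_0) (S (F 11718 (V (U (K 2) (T (S (K 2) (V (S (K 2) L) (K 2))) (S (K 2) (V (S (K 2) L) (K 2))))) (K 2))) (V (F 10246 (U (F 958 (T (K 1) (S (V (K 1) (K 0)) (K 1)))) (T (S (V (F 50 (S (F 16 L) L)) (S (F 10 L) (F 18 L))) (V (S (F 18 L) (F 528 L)) (S (F 18 L) (F 528 L)))) (S (V (F 26 (S (F 16 L) L)) (S (F 10 L) (F 42 L))) (V (F 26 (S L (K 6))) (S (F 42 L) (F 10 L))))))) (U (F 12098 (T (F 114 (S (K 1) (F 2 (V (K 0) (F 1 (U (K 0) (T (K 0) (K 0)))))))) (S (K 2) (V (U (K 3) (S (K 2) (S L (K 0)))) (K 2))))) (T (S (F 11270 (V (S (K 5) (S L (F 16 L))) (K 5))) (V (F 11268 (S L L)) (F 9283 (T (S (F 2 L) (F 258 L)) (S (F 12 L) (F 262 L)))))) (F 9474 (S (V (S (K 5) (F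 16 L)) (K 5)) (V (S (F 18 L) (F 258 L)) (S (F 20 L) (F 20 L))))))))))) (T (F 11601120 (S v12_1 v12_2)) (F 8594851 v12_3))) (U (F 12674499 v12_4) (T (F 1049059 (S v12_5 (V v12_6 v12_7))) (F 8547 (S (V (F 26765 (T (U (K 6) (S (K 6) (V (F 168 (S (T (S (K 3) L) (K 3)) (T (S (F 32 L) (F 32 L)) (S (F 160 L) (F 33 L))))) (F 1057 (U (K 3) (T (S (F 1 L) (F 36 L)) (F 100 (S (K 2) L)))))))) (F 141 (U (K 3) (S (K 3) (S (K 3) (U (K 3) (V L (F 17 (S L L)))))))))) (F 174622 (T (U (F 495 (S (K 0) (K 0))) (S (F 194 (U (K 2) (V (F 59 (S (K 0) (K 0))) L))) (V (S (S (K 4) (F 66 L)) (F 290 (T L (S (F 2 L) (F 2 L))))) (S (F 66 L) (F 66 L))))) (U (K 4) (S (F 194 (V (K 2) (S (K 2) L))) (V (U (K 4) (S (F 194 L) (F 98 L))) (S (F 192 L) (F 192 L)))))))) v12_8)))))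
noncomputable def treeV12 : Tr := (F 0xfffffffffffffffffffffffffffffffffffffffffffffffffffffffffffffffffffffffffffffffffffffffffffffffffffffffffffffffffffffffffffffffffffffffffffffffffffffffffffffffffffffffffffffffffffffffffffffffffffffffffffffffffffffffffffffffffffffffffffffffffbffffffe3fffffffbffffffffffffffffffffffffffffffffffffffffffffffffffffffffffffffffffffffffdffffffffffcff73ffffffffff9fffffde3fffffbbfbffffffffffffffffffffffffffffffffffffffffffffffffffffffffffffffffffffffff7ffffffffffb9ff (S (F 3146211 (V (F 27185 (U (K 5) (T (S (K 5) (V (T (U (K 5) (S (K 5) (V (S (K 5) (F 8 L)) (T (S (K 5) (S (K 5) (F 128 L))) (K 5))))) (U (K 5) (S (K 5) (V (S (K 5) (F 12 L)) (K 5))))) (K 5))) (K 5)))) (F 38022 (U (F 991 (T (S (V (K 0) (U (K 0) (T (S (K 0) (K 0)) (K 0)))) (K 0)) (S (K 0) (K 0)))) (T (S (F 266 (V (F 119 (T (U (K 0) (S (K 0) (K 0))) (U (K 0)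 (S (K 0) (K 0))))) (S (F 64 L) (T L (S (F 80 L) L))))) (V (F 991 (T (U (K 0) (S (K 0) (V (K 0) (S (K 0) (K 0))))) (U (K 0) (S (K 0) (K 0))))) (T (U (F 991 (S (K 0) (K 0))) (S (F 258 L) (T L (S (F 266 L) (F 66 L))))) (U (F 991 (S (K 0) (K 0))) (S (F 258 L) (S (F 258 L) (S (F 258 L) (F 2 L)))))))) (F 402 (S (F 40 (V (K 1) (S L (V (K 1) L)))) (V (K 2) (T (U (K 2) (S (S (F 32 L) L) (V (K 2) L))) (F 59 (U (K 0) (S (S (K 0) (K 0)) (S (K 0) (K 0)))))))))))))) v12_9))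

theorem pV12 : chkV par treeV12 192 64 448 64 384 128 163840 327680 Lc = true := by decide +kernel

noncomputable def v13_0 : Tr := (T (S (V (U (T (F 2332 (U (T (F 80 (S (F 2 L) (F 9 L))) (F 144 (S (F 2 L) (F 9 L)))) (F 224 (S (F 16 L) (F 1 L))))) (F 2681 (U (F 36 (S (K 1) (S (K 1) L))) (S (F 21 L) (F 33 L))))) (F 6207 (S (F 4 L) L))) (F 6460 (U (T (V L (F 32 L)) (V (T (F 32 L) (F 32 L)) (F 32 L))) (F 48 L)))) (V (F 2139 (U (T (U (S (F 12 L) (F 4 L)) (F 68 (S L L))) (F 36 (S (U L (F 1 L)) (S L L)))) (S (F 33 L) (F 36 (S (F 16 L) L))))) (U (T (F 2142 (U (V (F 72 (S (F 1 L) L)) (S (F 40 L) (F 8 L))) (S (F 41 L) (F 32 L)))) (F 2105 (U (S (F 72 (U (K 2) (V (F 3 L) (F 32 L)))) (V (F 164 (S L L)) (U (K 4) (S (F 104 L) (F 160 L))))) (S (S (F 73 L) (F 64 L)) (V (F 164 L) L))))) (F 2107 (T (F 105 L) (S (F 73 L) L)))))) (F 2097 (S (V (F 69 (U (T (U (K 3)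 (S (F 22 L) (F 5 L))) (U (K 3) (S (F 50 L) (F 5 L)))) (S (F 18 L) (F 1 L)))) (F 201 (U (T (U (V (F 24 (S L (K 0))) L) (S (F 24 L) (F 8 L))) (F 24 (U (S L (K 0)) (S L L)))) (F 8 L)))) (V (F 292 (U (T (U (S (S (K 2) (F 2 L)) (S (F 2 L) (F 18 L))) (S (F 34 L) (F 2 L))) (U (S (F 50 (V L (K 1))) (S (F 2 L) (F 16 L))) (S (F 34 L) (F 2 L)))) (F 34 (S L L)))) (U (T (U (F 356 (S (K 1) (V (S (K 1) (S L L)) (K 1)))) (S (F 69 (V (F 4 L) (F 18 L))) (V (F 357 (S L L)) (V (F 64 L) (F 69 (S (F 18 L) L)))))) (F 71 (U (K 3) (S (V (F 4 L) (F 18 L)) (V (F 5 (S L L)) (S (F 16 L) L)))))) (T (S (F 193 L) (F 321 (V (F 18 L) L))) (F 69 (S L (V (F 33 L) (F 32 L))))))))))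
noncomputable def v13_1 : Tr := (T (F 300 (S (V (F 67 (U (T L (F 33 (S L L))) (F 3 L))) (U (T (V (F 67 L) (S (F 65 L) (F 325 L))) (F 327 (S (S L L) L))) (F 327 L))) (V (U (T (U (S (F 67 (T L L)) (V (T (F 226 L) (F 66 L)) (F 67 (T L (S (F 33 L) L))))) (F 67 (V (F 2 L) (F 1 L)))) (F 322 (U (S (V (F 32 L) (F 48 L)) (V (T (V L L) (U (K 2) (S (F 48 L) (F 32 L)))) (S (F 48 L) (T (F 32 L) (S (F 48 L) (F 32 L)))))) (V (S (F 48 L) (S (F 33 L) L)) (F 32 L))))) (F 323 (T (F 1 L) (S (F 17 L) L)))) (U (T (F 259 (U (S (F 34 (S L L)) (V (S (F 34 L) L) (F 32 L))) (S (F 34 L) (F 2 L)))) (F 261 (S (F 34 L) (V L (F 34 L))))) (F 323 (S (F 17 L) L)))))) (F 57 (S (F 151 (V (F 8 (U (U (S L (S L L)) L) L)) (U (T (S (S L L) L) (S (S L L) (F 8 (S L L)))) L))) (V (U (T (U (S (F 147 (V L (F 24 L))) (V (F 146 (T (U (K 2) (S (F 48 L) L)) (F 59 (S (K 0) (K 0))))) (F 149 (S (F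 16 L) (T L L))))) (S (F 151 L) (V (V (F 3 L) (F 147 L)) (F 151 L)))) (F 15 (U (F 18 (S (V L L) (V (K 0) (U (K 0) L)))) (S (F 18 L) (V (S (F 18 L) L) (F 18 L)))))) (F 151 (U (S (F 8 L) (T L (F 8 L))) (F 8 L)))) (F 149 (U (T (S L (V (S (F 16 L) L) (F 16 L))) (S L (U (S (F 24 L) (F 8 L)) (F 24 L)))) (F 16 L)))))))
noncomputable def v13_2 : Tr := (V (U (T (U (F 21 (S (V (F 2 L) (F 3 L)) (V (S (S (F 2 L) L) (T (U (S (F 65 L) (F 1 L)) (F 1 L)) L)) (T L (F 2 L))))) (S (F 277 L) (V (T (F 5 L) (F 21 L)) (F 261 L)))) (U (S (F 277 (S (F 2 L) L)) (V (T (F 21 (S (F 3 L) L)) (F 273 (S (F 34 L) L))) (F 273 (S (F 34 L) L)))) (S (F 405 L) (V (S (F 405 L) (F 17 L)) (F 277 L))))) (T (F 261 (S (F 65 L) (U (T (F 1 L) (F 16 L)) (F 81 L)))) (F 273 (S (F 98 L) (U (S (F 98 L) L) (F 99 L)))))) (U (T (F 261 (U (S (V (F 9 L) (S (F 9 L) (F 1 L))) (V (T (F 1 L) (F 16 L)) (T (F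 1 L) (S (F 1 L) L)))) (S (S (F 3 L) (F 1 L)) (V (F 1 L) (S (F 3 L) (F 1 L)))))) (U (S (F 388 (V (F 72 (S L L)) (T (S (F 64 L) (F 64 L)) (S (S (F 64 L) (F 64 L)) (S (F 64 L) L))))) (V (F 273 (T (F 32 L) L)) (T (S (F 257 L) (F 385 (S L L))) (S (S (F 388 L) (F 385 L)) (S (F 384 L) (F 400 L)))))) (S (F 389 (V (F 8 L) (S L L))) (V (F 273 L) (F 385 (S L (S L L))))))) (T (F 773 (U (V L (S (F 5 L) (F 1 L))) (F 1 L))) (F 385 (S (V (F 33 L) (F 32 L)) (U (S (F 33 L) (F 8 L)) (F 41 L)))))))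
noncomputable def v13_3 : Tr := (V (F 107041 (T (F 73 (U (S (T (V (S (F 260 L) (F 260 L)) (F 388 (S L L))) (S (S (F 132 L) (F 132 L)) (V (F 260 L) (F 388 L)))) (V (T (S (F 260 L) (F 260 L)) (S (F 260 L) (F 260 L))) (F 388 (T (S L L) (S L L))))) (S (V (F 388 (T (S L L) (S L L))) (S (F 384 L) (F 384 L))) (T (S (F 260 L) (F 260 L)) (S (F 388 (S L L)) (F 260 L)))))) (U (S (V (F 585 (T (S (F 64 L) (F 128 L)) (S (F 64 L) (F 64 L)))) (T (F 69 L) (F 7 L))) (T (F 587 (V (S L L) (S (F 64 L) (F 64 L)))) (S (F 525 (S L L)) (F 522 (V (F 16 L) (F 384 L)))))) (F 7 (S (T (V (F 292 (S L L)) (F 288 L)) (S (F 256 L) (F 256 L))) (T (V (F 292 (S L L)) (F 260 L)) (V (F 292 (S L L)) (F 4 L)))))))) (F 184865 (T (U (S (V (F 35 (S L L)) (F 33 L)) (F 291 (T (S L (S (F 64 L) (F 64 L))) (S L L)))) (F 35 (S (T L L) (V (F 132 (T L L)) (S (F 4 L) (F 4 L)))))) (U (S (T (F 1 L) (F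 8 L)) (T (F 259 (S L L)) (S (F 265 L) (F 257 L)))) (S (S (F 11 L) (F 1 L)) (T (F 1 L) (F 1 L)))))))
noncomputable def v13_4 : Tr := (U (S (V (F 238112 (T (U (S (F 2082 (V (S (F 96 L) L) (F 288 L))) (V (F 2084 (T (S (F 384 L) (F 260 L)) (S (F 384 L) (F 132 L)))) (F 2083 (T L L)))) (F 2083 (S (T (S (F 160 L) (F 128 L)) L) (V (F 132 (T (S L L) (S L L))) (S (F 128 L) (F 128 L)))))) (U (S (F 59 (T L (F 1 L))) (T (F 2082 (S (F 256 L) L)) (F 2058 (S (F 288 L) L)))) (F 2051 (S (S (F 224 L) (F 160 L)) (V (T (F 32 L) (F 32 L)) (F 128 L))))))) (F 250368 (T (F 2065 (U (S (F 208 L) (S (F 208 L) (F 16 L))) (S (F 208 L) L))) (S (F 93 L) (F 2116 (V (S (F 352 L) (F 256 L)) (F 64 L))))))) v13_3) (F 254464 (S (V (T (F 2129 (S (U (S (F 96 L) (F 128 L)) (F 128 L)) (U (V (S (F 128 L) (F 128 L)) L) (S (F 128 L) (F 128 L))))) (S (F 69 (S (F 192 L) L)) (F 2113 (U (S (F 32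 L) L) L)))) (T (F 2065 (S (F 192 L) (S (F 16 L) L))) (F 2113 (S (F 224 L) (S (F 192 L) L))))) (V (T (F 2130 (S (U (F 132 (T (S L L) (S L L))) (S (F 128 L) (F 128 L))) (T (S (F 132 (S L L)) (F 4 L)) (F 132 (U (S L L) (S L L)))))) (F 2113 (S (U (V (S (F 256 L) (F 256 L)) L) (S (F 256 L) (F 256 L))) (T (U (F 292 (S L L)) (F 260 L)) (U (S (F 260 L) (F 260 L)) (F 292 (S L L))))))) (T (S (T (F 2131 (S L L)) (F 2049 L)) (F 2115 (T (S (F 32 L) (F 32 L)) (S L (F 4 L))))) (F 2113 (S (U (S (F 128 L) (F 128 L)) L) (U (S L L) (S (F 256 L) (F 256 L))))))))))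
noncomputable def v13_5 : Tr := (S (F 169504 (V (T (U (S (F 22 L) (V (F 2053 (S (F 256 L) L)) (F 22 L))) (S (F 23 L) (F 2054 (T (S (F 320 L) (F 384 L)) L)))) (U (F 22 (S L (T (S (F 9 L) (F 1 L)) L))) (S (F 23 L) (S (F 22 L) (F 6 L))))) (T (S (F 23 L) (S (F 23 L) (F 18 L))) (S (F 1047 L) (S (F 23 L) (F 18 L)))))) (F 37409 (V (T (U (S (V (T (F 1035 (S (F 320 L) (F 128 L))) (F 1069 (S (F 128 L) L))) (F 45 (S (F 256 L) L))) (V (F 1050 (T (S (F 256 L) (F 128 L)) (S (F 64 L) (F 128 L)))) (F 1039 (T (S (F 64 L) (F 128 L)) (S (F 64 L) (F 64 L)))))) (S (F 15 (T (S (F 128 L) (F 256 L)) (S (F 128 L) (F 128 L)))) (F 1037 (T (V (S (F 384 L) (F 384 L)) (F 256 L)) (V (S (F 448 L) (F 384 L)) (F 64 L)))))) (U (S (V (T (F 41 L) (F 1069 (S (F 32 L) (F 64 L)))) (F 45 (S (F 64 L) L))) (T (V (F 1084 (S (F 128 L) L)) (F 1061 L)) (F 1069 (V (S (F 64 L) (F 64 L)) L)))) (F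 45 (S (V (T L L) (S (F 64 L) (F 4 L))) (T (S (F 4 L) (F 4 L)) (S L (F 4 L))))))) (T (U (S (S (F 109 L) (F 37 L)) (V (F 1061 (S L L)) (F 37 L))) (S (F 45 (S (F 64 L) L)) (S (F 37 L) (F 39 (S L L))))) (U (S (F 101 (S (F 128 L) L)) (T (F 37 L) (F 1061 L))) (S (F 101 (S (F 128 L) L)) (T (F 37 L) (F 37 L))))))))
noncomputable def v13_6 : Tr := (T (S (V (U (T (F 1033 (S (F 1 L) (S (F 16 L) (F 16 L)))) (S (F 1066 L) (F 1057 (S (F 128 L) L)))) (F 1577 (T L L))) (U (S (F 1038 L) (T (F 1033 L) (F 1058 L))) (F 1545 (S (F 97 L) L)))) (V (F 1057 (U (T (S (S (F 32 L) (F 32 L)) (F 36 (T L (S L (F 16 L))))) (S (S L L) (S L L))) (T (F 35 (S L (F 16 L))) (S (F 3 L) (F 6 L))))) (U (T (S (F 1025 L) (F 1057 (S (F 32 L) L))) (S (F 1024 L) (F 1057 (S L L)))) (F 1057 (T (S (F 33 L) (F 34 L)) (S (F 3 L) (F 2 L))))))) (S (V (U (S (F 38 (S (F 3 L) L)) (F 1058 (T (S (F 128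 L) (F 128 L)) (S (F 66 L) (F 2 L))))) (F 1315 (S (F 33 L) L))) (F 38 (U (S (F 6 L) (T (F 1 L) (F 7 L))) (F 135 (S L L))))) (V (U (T (F 1057 (S (S (F 128 L) L) (S L L))) (F 1058 (S (S (F 2 L) (F 128 L)) (T (F 128 L) (F 128 L))))) (F 1315 (T (S (F 1 L) L) (S (F 1 L) (F 2 L))))) (F 1058 (U (T (S (S (F 128 L) (F 128 L)) (S L L)) (S (S (F 3 L) (F 2 L)) (S (F 2 L) (F 2 L)))) (S (F 2 L) (F 130 (T L (F 32 L)))))))))
noncomputable def v13_7 : Tr := (U (S (F 250624 (V (T (S (F 1036 L) (T (F 1032 L) (F 1028 L))) (S (F 44 L) (S (F 1060 L) (F 4 L)))) (T (S (F 1548 (S (F 64 L) L)) (T (F 1028 L) (F 1028 L))) (S (F 516 L) (S (F 1540 L) (F 4 L)))))) (F 184321 (V (T (U (S (S (F 113 L) (F 81 L)) (T (F 81 L) (F 337 (S (F 64 L) (F 4 L))))) (S (S (F 121 L) (F 337 L)) (S (F 273 L) (F 273 L)))) (U (S (F 312 (S (F 256 L) L)) (T (F 272 L) (F 280 L))) (S (F 281 (S (F 64 L)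 L)) (T (F 273 L) (F 265 L))))) (T (U (S (F 57 (T L L)) (T (F 1 L) (F 1 L))) (S (F 57 (S (F 64 L) L)) (S (F 17 L) (F 1 L)))) (U (S (F 57 (S (F 16 L) L)) (S (F 40 L) (F 8 L))) (S (F 57 (S (F 1 L) L)) (S (F 41 L) (F 265 L)))))))) (F 249857 (S (V (T (S (F 2109 L) (F 24 L)) (F 28 (S (F 321 L) L))) (F 28 (S (S (F 257 L) (F 1 L)) (T L (F 1 L))))) (V (T (S (S (F 9 L) (F 8 L)) (S L L)) (S (T (F 12 L) (F 12 L)) (T L (F 140 (S L L))))) (T (S (S (F 28 L) L) (T L L)) (S (S (F 2076 L) (F 20 L)) (T L (F 4 L))))))))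
noncomputable def v13_8 : Tr := (U (S (F 218880 (V (T (S (F 547 L) (S (F 547 L) (F 33 L))) (F 545 (S (F 128 L) (S (F 144 L) L)))) (T (S (F 545 (S (F 128 L) L)) (S (F 545 L) (F 513 L))) (S (F 802 (S L L)) (F 545 (S (F 128 L) L)))))) (F 185344 (V (T (U (S (F 4248 (S (F 256 L) L)) (S (F 4248 L) (F 4232 L))) (S (F 4249 (S (F 128 L) L)) (S (F 4248 L) (F 4232 L)))) (U (F 216 (S (S (F 2 L) (F 1 L)) (V (F 1 L) (F 1 L)))) (S (F 152 L) (F 4248 (S L L))))) (T (U (S (F 153 (S (F 2 L) L)) (S (F 4240 L) (F 4240 L))) (S (F 25 L) (F 4241 (S (F 64 L) L)))) (U (S (F 2201 (T L (F 16 L))) (S (F 2264 (S (F 128 L) L)) (S (F 2264 L) (F 4304 L)))) (S (F 2201 L) (S (F 2264 L) (F 4304 L)))))))) (F 185344 (S (F 27 (V (S (F 34 L) (T (F 32 L) (F 38 L))) (S (S (F 38 L) (F 6 L)) (T (F 3 L) (F 38 L))))) (V (T (S (T (F 4233 L) (F 153 L)) (F 4233 (U (S (F 64 L) L) (S (F 256 L) (F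 256 L))))) (S (F 153 (S (F 258 L) L)) (T (F 4233 (S (F 64 L) L)) (S (F 4249 L) (F 4296 L))))) (T (S (F 6161 (S (F 72 L) L)) (S (F 4113 L) (F 4097 L))) (F 2193 (S (F 322 (S (F 4 L) L)) (U (S (F 82 L) (F 17 L)) (F 3 L)))))))))
noncomputable def v13_9 : Tr := (V (U (T v13_4 (U v13_5 (F 180768 (S (V (T (F 23 (S (S (F 192 L) (F 128 L)) (U (S (F 129 L) (F 1 L)) (S (F 129 L) (F 257 L))))) (S (F 54 L) (U (S (F 55 L) (F 4118 L)) (F 23 L)))) (F 23 (T (S (F 131 L) (S (F 129 L) (F 1 L))) (S (F 134 L) (S (F 131 L) (F 128 L)))))) (V (T (S (F 4103 (U (T L (S (F 384 L) (F 384 L))) (S (F 384 L) (F 256 L)))) (F 4107 (U (V (S (F 256 L) (F 4 L)) (S (F 384 L) (F 260 L))) (S (F 256 L) (F 256 L))))) (F 4118 (S (U (T (S (F 384 L) (F 384 L)) (S (F 256 L) (F 256 L))) (S (F 256 L) (F 256 L))) (U (T (S (F 384 L) (F 388 L)) (S (F 256 L) (F 132 L))) (S (F 256 L) (F 384 L))))))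 (T (S (F 4119 (V (S L L) (S (F 64 L) L))) (T (F 4103 (S (F 128 L) L)) (F 4117 (S (F 256 L) L)))) (S (F 4118 (U (S (F 320 L) (F 64 L)) L)) (U (S (F 4118 L) (F 4116 L)) (F 4119 (S L L)))))))))) (F 258560 v13_6)) (U (T v13_7 v13_8) (F 249856 (T (S (F 6169 (V (U (T L (F 72 (S (F 2 L) L))) (F 64 L)) (U (T (F 64 L) (F 64 L)) (F 65 L)))) (V (U (T (S (F 4105 L) (F 4097 L)) (S (F 4105 L) (F 4096 L))) (T (F 6155 (S (F 32 L) L)) (F 4097 L))) (U (T (S (F 6160 L) (F 4096 L)) (S (F 6165 L) (F 4100 L))) (S (F 6149 L) (S (F 7169 L) (F 6145 L)))))) (S (F 2077 (U (S (F 2 L) (T L (F 19 L))) (F 19 (S (F 4 L) L)))) (V (U (T (F 4229 (S (F 128 L) (S (F 128 L) (F 2 L)))) (F 1165 (S (F 66 L) (S (F 3 L) (F 1 L))))) (F 7301 (T (S (F 112 L) (F 64 L)) (F 32 L)))) (F 7172 (U (S (F 352 (S (F 8 L) L)) (T L (F 292 L))) (F 292 (S (F 10 L) L))))))))))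
noncomputable def v13_10 : Tr := (T (F 3090 (U (S (F 269 (V (F 9 (S (S (F 8 L) (F 8 L)) L)) (T (S (U (K 5) (F 1 L)) (U (S (K 5) (F 8 L)) (F 9 (S L L)))) (U (K 5) (S (S (K 5) (F 1 L)) (S (F 1 L) (F 9 L))))))) (V (F 77 (S (F 4 L) L)) (T (F 13 (S (S (S (F 4 L) (F 4 L)) L) (S (F 16 L) (F 16 L)))) (F 457 (U (S (S L L) L) (S (S (F 16 L) (F 16 L)) L)))))) (S (F 1284 (V (F 166 (S L L)) (S (S L L) (F 160 (T L (S L L)))))) (V (F 1229 (S (F 2 L) L)) (S (F 1037 (T L (S (F 8 L) (F 8 L)))) (T (F 1037 L) (F 73 L))))))) (U (F 18024 (S (F 388 (V (S (S (F 2 L) (F 18 L)) (S (F 2 L) (F 2 L))) (T (U (K 3) (S (K 3) (S L L))) (U (K 3) (S (K 3) (S L L)))))) (V (F 164 (S (F 1 L) L)) (T (U (S (S (F 132 L) (F 164 L)) (F 132 L)) (S (F 388 (S L (F 2 L))) (F 164 L))) (U (S (S (F 260 L) (F 388 L)) (F 128 L)) (F 388 (S (S L (F 1 L)) L))))))) (F 3170 (S (F 644 (V (F 82 (S L L))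 (S (S (F 3 (S (F 4 L) L)) (F 1 L)) (V (F 80 L) (S (F 1 L) (F 64 L)))))) (V (F 713 (S (F 8 L) L)) (S (F 649 (U (S L L) (F 16 L))) (T (F 9 L) (F 905 (S L L)))))))))
noncomputable def v13_11 : Tr := (S (F 174 (V (T (U (S L (S (F 32 L) L)) (S (F 2 L) (S (F 1 L) L))) (U (S (F 2 L) (S (F 34 L) (F 32 L))) (S (F 6 L) (S (F 38 L) (F 32 L))))) (T (S (F 258 L) (S (F 34 L) L)) (S (F 294 L) (S (F 294 L) (F 34 L)))))) (V (T (U (S (F 142 (V (T (F 1 L) (F 129 L)) (F 128 L))) (F 8582 (V (T (S (F 132 L) (F 196 L)) (F 196 (S L L))) (S (F 128 L) (F 4 L))))) (F 142 (S (V (S (F 1 L) (F 1 L)) L) (V (T (F 41 (S L (F 2 L))) (F 9 L)) (S (F 33 L) (F 33 L)))))) (F 398 (U (S (V (S (F 65 L) (F 65 L)) (F 64 L)) (V (T (S (F 73 L) (F 13 L)) (F 9 L)) (S (F 69 L) (F 73 L)))) (S (V (S (F 68 L) (F 1 L)) (F 64 L)) (V (T (F 13 (S L (F 2 L))) (F 5 L)) (S (F 69 L) (F 5 L))))))) (F 390 (T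 (U (S (S (F 320 L) (F 64 L)) (V (F 1 L) (F 65 L))) (S (S (F 322 L) (F 320 L)) (T (F 1 L) (F 1 L)))) (U (S (F 322 (S (F 32 L) L)) (S (F 324 (S L L)) (S (F 69 L) (F 65 L)))) (F 324 (S (S (F 32 L) (F 32 L)) (V (S (F 64 L) (F 64 L)) L))))))))
noncomputable def v13_12 : Tr := (S (V (T (F 418 (U (S (S (F 1 L) L) (V (S (F 32 L) (F 32 L)) L)) (S L (S L L)))) (U (F 290 (S (S (F 3 L) (F 2 L)) (V (S (F 2 L) (F 2 L)) L))) (S (F 162 L) (F 290 (S (F 2 L) L))))) (T (F 162 (S (F 3 L) (S (F 3 L) L))) (F 546 (S (F 2 L) (S (F 2 L) L))))) (V (T (U (F 416 (S (V (S (F 32 L) (F 64 L)) (F 96 (S L L))) (V (S (F 64 L) (F 80 (S L L))) (S (F 64 L) (F 64 L))))) (S (F 416 (V (S (F 32 L) (F 64 L)) (F 96 (S L L)))) (F 385 (S (V (F 4 L) (F 4 L)) (T L (F 4 L)))))) (U (S (F 290 (V (S (F 2 L) (F 64 L)) (S (F 2 L) (F 64 L)))) (F 289 (V (S (F 64 L) (F 34 (S L L))) (S (F 64 L) (F 64 L)))))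 (S (F 290 (S (S L L) (S L L))) (F 289 (V (S (F 66 (S L L)) (F 2 L)) (S (F 64 L) (F 64 L))))))) (T (F 416 (U (S (V (F 32 L) (F 32 L)) (V (S (F 96 L) (F 64 L)) (F 96 (S L L)))) (S (S (F 32 L) (F 32 L)) (F 96 (V (S L L) (S L L)))))) (U (S (S (F 546 L) (F 34 L)) (F 291 (V (S L L) (S L L)))) (S (F 290 (S (F 1 L) L)) (V (F 291 (S L L)) (F 34 L)))))))
noncomputable def v13_13 : Tr := (T (U v13_11 (S (F 174 (V (T (S (F 2 L) (U (S (F 2 L) L) L)) (S (F 6 L) (U L (F 6 L)))) (S (F 294 L) (T (F 2 L) (F 294 L))))) (V (F 142 (T (S (U (S L (S (F 1 L) (F 1 L))) (S (F 5 L) (F 1 L))) (U (T (S (F 9 L) (F 265 L)) (S (F 33 L) (F 41 L))) (S (F 1 L) (F 5 L)))) (S (U (T (S (F 161 L) (F 37 L)) (F 165 (S L L))) (S (F 164 L) (F 5 L))) (F 37 (U (T (S L L) (S L L)) (V (S (F 2 L) (F 2 L)) (S (F 4 L) (F 2 L)))))))) (T (S (F 174 (U (S (F 6 L) (F 1 L)) (F 1 L))) (F 8326 (U (S (F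 256 L) (F 16 L)) (S (F 258 L) (F 258 L))))) (F 2446 (S (F 34 (U (S (F 1 L) L) L)) (U (V (F 33 (S (F 32 L) L)) (F 32 L)) (S (F 33 L) (F 1 L))))))))) (U (F 2440 v13_12) (S (F 6572 (V (S (F 96 (V (S L L) L)) (U (S (F 32 L) (T (F 32 L) (F 32 L))) (S (F 96 L) (F 32 L)))) (S (F 96 L) (T (F 96 L) (F 64 L))))) (F 2314 (V (T (S (F 336 (U (S (F 32 L) L) (S (F 96 L) (F 32 L)))) (F 273 (U (S (T (F 4 L) (F 4 L)) (T L L)) (S (S (F 4 L) (F 4 L)) L)))) (S (F 82 (U (V (S (F 66 L) (F 2 L)) L) (S (F 66 L) (F 2 L)))) (F 81 (U (S (V (F 66 (S L L)) (F 64 L)) (V (F 2 L) (F 64 L))) (F 66 (V (S L L) (S L L))))))) (T (F 338 (S (U (S (F 1 L) (F 32 L)) (F 1 L)) (U (V (S (F 32 L) (F 32 L)) L) (S (F 32 L) (F 32 L))))) (S (S (F 834 L) (F 66 L)) (V (U (F 66 L) (F 323 L)) (S (F 322 L) (F 66 L))))))))))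
noncomputable def v13_14 : Tr := (T (F 414877 (U (S (F 517 (V (S (F 146 (S L L)) (T (F 128 L) (F 18 L))) (F 18 (T (S (S L L) (S L L)) (S (S L L) (S L L)))))) (V (T (U (S (F 802 (S (F 32 L) L)) (S (F 546 L) (F 34 L))) (S (F 546 L) (S (F 802 L) (F 34 L)))) (F 804 (U (S (S (F 96 L) (F 32 L)) (V (F 33 (S L L)) L)) (S (F 32 L) (V (F 32 L) (F 32 L)))))) (F 800 (T (U (S (F 160 (S (F 1 L) L)) (V L L)) (S (F 160 L) (S (F 224 L) (F 64 L)))) (U (S (F 160 L) (S (F 160 L) (F 32 L))) (F 160 (S L (S (F 32 L) L)))))))) (S (F 773 (V (F 72 (S L (S L L))) (S (T (F 64 L) (F 8 L)) (S (F 8 L) (F 8 L))))) (V (T (S (F 775 (S (F 8 L) L)) (F 290 (U (S (F 66 L) L) (F 65 (S (F 33 L) L))))) (F 806 (S (S (F 33 L) (F 32 L)) (U (S (F 32 L) L) L)))) (F 805 (S (U (S (F 32 L) (F 32 L)) (F 32 L)) (U (T (S (F 33 L) (F 32 L)) L) (S (F 33 L) (F 32 L))))))))) (F 347361 (U (S (F 1029 (V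 (S (F 36 L) (S (F 38 L) (F 36 L))) (T (S (F 4 L) (F 36 L)) (S (F 64 L) (F 4 L))))) (V (F 1792 (T (U (S (F 328 L) (V (F 8 L) (F 264 L))) (S (F 328 L) (S (F 328 L) (F 8 L)))) (U (S (F 264 L) (S (F 265 L) (F 264 L))) (S (F 328 L) (F 256 L))))) (T (F 1793 (U (S (F 72 L) L) (S (F 72 L) (F 64 L)))) (S (F 1285 L) (F 1 L))))) (S (F 1285 (V (S (F 18 L) (F 2 L)) (S (S L L) (S (F 2 L) (F 2 L))))) (F 1792 (V (T (S (F 328 L) (U (F 64 L) (F 448 L))) (S (F 320 L) (S (F 448 L) (F 257 L)))) (T (S (F 320 L) (F 256 L)) (S (F 320 L) (F 320 L)))))))))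
noncomputable def v13_15 : Tr := (V (F 263325 (U v13_13 (F 2190 (T (S (U (S (F 322 (S (F 4 L) L)) (V (T (F 256 L) (F 322 L)) (F 338 L))) (F 451 (S (F 2 L) L))) (V (U (T (S (U (F 1 L) (F 385 L)) (S (F 257 L) (F 385 (S L L)))) (S (S (F 67 L) (F 17 L)) (T (F 1 L) (F 145 (S L L))))) (F 387 (S L (S (F 4 L) (F 4 L))))) (U (S (T (F 259 (S (F 2 L) L)) (F 338 L)) (T (S (F 257 L) (F 257 L)) (F 19 (S (F 4 L) L)))) (F 403 (S (F 1 L) L))))) (S (F 338 (U (S (S (F 1 L) L) (V L (F 1 L))) (F 1 L))) (U (S (F 82 (V (S (F 1 L) (S (F 32 L) (F 32 L))) (F 33 (S L L)))) (F 19 (U (V (T L (F 6 (S L L))) (S (F 5 L) (F 4 L))) (F 6 (V L (F 8 L)))))) (F 467 (S L L)))))))) (U v13_14 (F 2032893 (T (S (F 10 (U (S L (S (F 8 L) (F 8 L))) (F 8 L))) (U (S (F 10 (T L (F 8 L))) (F 152 (V (T (S (F 8 L) L) (F 8 L)) (S (F 8 L) (F 8 L))))) (F 154 (S (F 8 L) L)))) (F 18 (S (U (S (S L L) (S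 L L)) (F 32 L)) (U (S (S L L) (V L L)) (F 41 (S L L)))))))))
noncomputable def v13_16 : Tr := (S (F 16687 (V (F 46 (T L (V L (S (F 16 L) (S (F 16 L) L))))) (T (V (F 62 (S L (S L L))) (S (F 28 L) (T (F 22 L) (F 20 L)))) (S (V (F 28 L) (F 21 L)) (V (V (F 29 (S L L)) (S (F 29 L) (F 20 L))) (S (F 20 L) (T (F 20 L) (F 17 L)))))))) (V (F 46087 (T (S (F 658 L) (F 130 L)) (S (T (F 130 L) (S (F 641 (S L L)) (F 513 L))) (V (F 3 L) (S (F 1 L) (F 1 L)))))) (T (F 57606 (U (S (V (F 1166 L) (T (F 142 L) (S (F 1668 L) (F 140 L)))) (V (F 1163 (S L L)) (T (F 14 L) (F 13 (S L (S (F 128 L) (F 128 L))))))) (S (F 1158 (V (F 97 L) (S (F 1 L) L))) (F 1035 (T L (V (F 68 L) (S (F 64 L) (F 64 L)))))))) (U (S (V (F 18439 (T (F 94 (S (F 5 L) (F 64 L))) (S (F 2121 (S (F 66 L) (F 160 L))) (F 2067 (V (F 192 L) (F 16 L)))))) (F 84235 (S (T (F 640 L) (F 128 L)) (T (T (F 513 L) (F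 513 L)) (S (F 128 L) (F 512 L)))))) (V (F 119813 (T (F 521 (S L L)) (S (F 3 L) (F 2 L)))) (F 116993 (T (S (F 1540 (V (F 128 L) L)) (T (F 1540 L) (F 516 L))) (S (V (F 1796 (S L L)) (F 1280 L)) (V (F 516 L) (F 772 (S L L)))))))) (F 83975 (S (V (F 1031 (S (F 18 L) (F 64 L))) (S (F 1314 (S L L)) (S (F 1312 L) (F 1057 L)))) (V (F 15 (S (S (F 1 L) (F 1 L)) L)) (S (F 1057 (T (F 128 L) L)) (T (F 43 L) (F 1033 L))))))))))
noncomputable def v13_17 : Tr := (T (U (S (V (S (F 2099 (V (F 1032 L) (S (F 66 L) (F 66 L)))) (F 3110 (T (S (F 1033 L) (F 11 L)) (V (F 1033 L) (F 1056 L))))) (F 18723 (T (S (F 128 L) (S (F 128 L) L)) (S (S (F 640 L) (F 128 L)) (T L L))))) (V (F 35878 (S (T (S (F 4 L) (F 4 L)) (V (F 4 L) L)) (T (S (F 4 L) (F 5 L)) (S (F 4 L) (F 4 L))))) (S (F 18722 (V (T (F 9 L) (S (F 1032 L) (F 9 L))) (T (F 1024 L) (F 1024 L)))) (F 35874 (T (V (F 529 (S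 L L)) (S (F 17 L) (F 17 L))) (V (F 512 L) (S (F 17 L) (F 17 L)))))))) (F 2086 (S (V (T (F 2059 L) (F 2056 L)) (F 2114 (S (T (F 130 L) (F 2 L)) (T (F 2 L) L)))) (V (F 25 (S (T (F 257 L) (F 1 L)) (S L L))) (S (T (F 2051 L) (F 2050 L)) (T (F 2067 (S L L)) (S (F 2051 L) (F 19 L)))))))) (U (S (V (S (F 6195 (U (K 4) (T (F 512 L) L))) (F 3106 (T (S (F 8 L) (F 8 L)) (T L L)))) (F 2353 (S (U (K 5) (T (F 1154 L) (F 1026 L))) (T (V (F 1024 L) (S (F 1154 L) (F 1026 L))) (U (K 5) (S (F 130 L) (F 2 L))))))) (V (F 3106 (S (T (V (F 1033 L) (F 1 L)) (V (F 1033 (S L (F 8 L))) L)) (F 1033 (T (S (S L L) L) (V L (S L L)))))) (T (S (F 18466 (U (S (F 160 L) (F 40 L)) (F 2048 L))) (V (F 35874 L) (F 2146 (S (F 66 L) (F 17 L))))) (S (V (F 2082 L) (F 2369 L)) (V (F 35906 (S L (F 64 L))) (F 3136 L)))))) (S (V (F 2087 (S (V (F 520 L) (F 512 L)) (T (F 8 L) (S (F 520 L) (F 9 L)))))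 (S (F 18739 (T (F 256 L) L)) (F 2055 (T (F 514 L) (F 1024 L))))) (V (F 38918 (S (T (F 128 L) (S (F 128 L) (F 132 L))) (T (F 132 L) (F 4 L)))) (S (F 2055 (T (F 512 L) (S (F 256 L) (F 256 L)))) (T (F 34854 (S (F 1024 L) (F 8 L))) (F 2118 (S (F 2048 L) (F 1 L)))))))))
noncomputable def v13_18 : Tr := (S (F 2099 (V (T (F 1036 (S (V (F 40 L) (S (F 72 L) (F 8 L))) (V (F 160 (S L L)) (U (S (F 8 L) (S (F 32 L) (F 32 L))) (F 192 L))))) (U (F 1048 (S (K 4) (T (V (F 160 L) (S (K 4) L)) (K 4)))) (F 1036 (S (S (F 72 L) L) (V (F 160 L) (S (F 8 L) L)))))) (T (U (S (F 70 (V (F 64 L) (F 3 L))) (V (F 74 (S L (T (F 1 L) L))) (T (F 66 L) (F 66 L)))) (S (F 1102 (S (F 1 L) L)) (V (F 1038 (S (F 8 L) L)) (F 1090 L)))) (U (S (F 838 (V (K 2) L)) (U (K 5) (V (S (K 5) (F 8 L)) (F 322 (S (F 34 L) L))))) (S (F 1098 (S (F 35 L) L)) (V (T (F 1090 L) (F 1032 L)) (F 1090 (S (F 33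 L) L)))))))) (V (F 4134 (T (U (S (V (F 533 L) (F 25 (T (S (F 133 L) (F 129 L)) (S (F 5 L) (F 128 L))))) (F 21 (V L (T L (S (F 128 L) (F 128 L)))))) (F 29 (S (S (F 1 L) (S (F 1 L) (F 1 L))) (S L L)))) (U (S (V (F 25 (T (F 128 L) L)) (S (F 536 (U (K 5) (S (F 1 L) (F 256 L)))) (F 25 (T L (S L (F 4 L)))))) (F 25 (V (S (F 128 L) (F 136 L)) (S (T L L) (T (F 128 L) (F 8 L)))))) (S (V (F 29 L) (S (F 2568 L) (F 25 L))) (F 25 (V (F 128 L) (S L L))))))) v13_17))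
noncomputable def v13_19 : Tr := (T (F 2347024 (U v13_16 (F 24583 (S (F 2572 (V (F 224 (T (F 2 L) L)) (S (F 8 L) (F 136 (T (F 1 L) (T (F 1 L) L)))))) (V (F 2071 (T (F 18 (S (F 1 L) L)) (S (F 66 L) L))) (T (F 78 (S (F 5 (U L (F 3 L))) (F 192 (U (S L L) (F 32 L))))) (F 2057 (S (V (F 386 L) (S (F 146 L) (F 256 L))) (U (V (F 448 L) (S (F 384 L) (F 384 L))) (F 448 (S L L))))))))))) (F 9158673 (U v13_18 (S (F 14391 (V (S (T (F 19 L) (F 2 L)) (T (F 1 L) (V (F 5 L) L))) (S (F 146 (T L L)) (U (T (F 18 (V (F 32 L) L)) (V (F 2 L) (F 18 L))) (F 18 (T (F 32 L) L)))))) (V (F 14374 (T (F 517 (S (S (F 2 L) L) (S L L))) (S (V (F 517 L) (S (F 640 L) (F 513 L))) (U (S (F 517 (S L L)) (F 5 L)) (F 517 L))))) (F 2055 (T (S (V (F 524 (S (F 130 L) (F 256 L))) (S (F 1542 L) (F 514 L))) (F 515 (U (V (S (F 384 L) (F 192 L)) (T L (S (F 128 L) (F 128 L)))) (V (F 448 L) (F 128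 L))))) (S (V (S (F 1544 L) (S (F 520 L) (F 520 L))) (U (S (F 1546 L) (F 514 L)) (F 1546 L))) (U (V (F 521 (S (S L L) (S (F 64 L) (F 64 L)))) (S (S (F 520 L) (F 8 L)) (T (F 11 L) (F 9 L)))) (V (F 521 L) (F 11 (S (F 4 L) L))))))))))))
noncomputable def v13_20 : Tr := (T (U (S (V (T (F 4210 (S (F 768 L) (F 2 L))) (F 117 (V (F 512 L) (F 1 L)))) (F 16501 (T (V L L) (S (F 256 L) L)))) (V (T (F 13330 (S (S (F 64 L) (F 64 L)) (S (F 1 L) (F 1 L)))) (F 24594 (S (V (F 1156 L) (F 1152 L)) (U (S (F 132 L) (F 132 L)) (F 1028 L))))) (T (F 24593 (S (V (F 1152 L) (F 192 L)) (T (F 1024 L) (F 1024 L)))) (S (F 16437 (S (F 128 L) L)) (F 24593 (T (F 1024 L) (F 512 L))))))) (S (F 119 (V (T (F 6 L) (S (F 7 L) (F 3 L))) (T (S (F 7 L) (F 5 L)) (F 1 L)))) (F 24595 (V (T (S (F 129 L) (F 5 L)) (S (F 640 L) (F 4 L))) (T (S (F 640 L) L) (S (F 640 L) (F 512 L))))))) (F 16433 (U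 (S (V (T (V (F 640 L) (F 640 L)) (V (F 1664 (S (F 2 L) L)) (F 640 L))) (F 704 (T (S (F 2 L) L) L))) (V (S (T (V (F 513 L) (F 513 L)) (S (F 512 L) (F 512 L))) (T (V (F 1033 (S L L)) (S (F 1537 L) (F 521 L))) (V (F 521 (S L L)) (F 513 L)))) (T (S (F 512 L) (V (F 513 L) (F 577 L))) (V (S (F 704 L) (F 576 L)) (F 577 (S (F 4 L) L)))))) (S (V (F 1664 (T L (S (F 64 L) L))) (F 640 L)) (V (T (F 1537 (S (S (F 2 L) L) (S L L))) (S (F 1536 L) (F 1537 (T L L)))) (S (F 1664 (T L L)) (T (F 1537 (S L L)) (F 1536 L))))))))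
noncomputable def v13_21 : Tr := (U (S (F 101 (V (T (F 1284 (S (T (F 1 L) (F 129 L)) (V (T (S (F 128 L) L) (S (F 128 L) L)) (T L (F 128 L))))) (S (F 1797 (S (F 1 L) L)) (V (U (S (F 1285 L) (F 257 L)) (F 1285 L)) (F 769 L)))) (F 1541 (T (V (S (F 67 L) (F 1 L)) (F 3 L)) (F 2 L))))) (V v13_20 (T (U (S (F 16629 (V (T L (F 64 L)) (F 192 L))) (V (S (F 16501 (T L (F 64 L))) (F 16529 (T (S (F 513 L) (F 1 L)) (F 512 L)))) (F 16597 (T (S (F 448 L) (F 1 L)) (F 192 L))))) (F 16407 (S (F 896 (T L (F 1 L))) (V (T (S (F 385 L) (F 1 L)) (F 256 L)) (S (F 960 L) (F 576 L)))))) (F 16549 (U (S (F 320 L) (V (S (F 192 L) (T (F 192 L) (F 448 L))) (F 832 L))) (S (F 960 L) (V (S (F 448 L) (F 128 L)) (F 833 L)))))))) (F 16391 (S (F 386 (V (S (F 67 L) (T (F 2 L) (F 3 L))) (F 1 L))) (V (T (S (F 898 (U (V (S (F 96 L) (F 64 L)) L) (F 64 L))) (U (V (F 515 (S (F 2 L) L)) (S (F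 769 L) (F 513 L))) (F 515 (S (F 2 L) L)))) (S (V (F 770 (S (F 2 L) L)) (F 896 L)) (U (V (F 769 (T L (S (F 128 L) L))) (T (F 769 L) (F 768 L))) (F 769 (V L L))))) (T (S (F 1920 (S (F 33 L) L)) (U (T (F 513 L) (F 1536 L)) (F 1537 L))) (S (F 1474 L) (V (T (F 768 L) (F 320 L)) (F 1472 L))))))))
noncomputable def v13_22 : Tr := (V (T (U (F 594 (S (V (S (S (F 1216 L) (F 1152 L)) (T (F 1216 (S L L)) (F 1152 L))) (F 1216 (S (F 3 L) L))) (V (T (S (S (F 1152 L) (F 1024 L)) (V (F 1 L) (F 1088 L))) (S (V (F 1024 L) (F 1216 L)) (V (F 64 L) (S (F 1216 L) (F 1088 L))))) (S (F 1216 (T L L)) (T (S (F 1216 L) (F 1088 L)) (S (F 1216 L) (F 1088 L))))))) (F 579 (S (V (T (F 384 L) (F 384 L)) (F 704 L)) (V (S (T (F 1280 L) (F 256 L)) (T (F 1281 (V L L)) (V (F 1280 L) (F 1280 L)))) (T (S (F 1472 L) (F 320 L)) (S (F 1472 L) (F 320 L))))))) (U (S (F 737 (V (S (F 64 L) (T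 (F 64 L) (F 64 L))) (F 128 L))) (V (T (S (F 721 (U (S (F 576 L) (F 64 L)) (F 512 L))) (V (F 722 (S L L)) (F 657 L))) (F 657 (S (U (F 128 L) (F 128 L)) (V (S L L) L)))) (F 673 (S (F 256 L) (T (F 128 L) (F 256 L)))))) (S (F 737 (V (T (S (F 960 L) (F 576 L)) L) (F 384 L))) (V (S (T (F 531 L) (F 657 L)) (T (F 147 (V (F 1024 L) (F 32 L))) (S (F 657 L) (F 149 L)))) (S (F 685 L) (F 641 L)))))) (F 681 (T (S (F 832 (S (F 32 L) L)) (V (U (S (F 960 L) (F 576 L)) (S (F 960 L) (F 576 L))) (F 832 (S (F 1 L) L)))) (S (F 320 L) (V (U (S (F 832 L) (F 64 L)) (F 256 L)) (F 256 L))))))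
noncomputable def v13_23 : Tr := (U (T (F 6378068 v13_21) (F 9027669 (U (S (F 611 (V (T (S (F 962 L) (V (T (F 640 L) (F 384 L)) (F 834 L))) (S (F 962 L) (U (S (F 834 L) (F 320 L)) (F 832 L)))) (F 834 (S (F 17 L) L)))) v13_22) (S (F 8815 (V (T (S (F 98 L) (F 64 L)) L) (F 34 L))) (V (T (F 23 (S (F 800 (U (T (S (F 65 L) L) L) (F 1 L))) (U (V (S (S (F 800 L) (F 288 L)) (S (F 288 L) (F 256 L))) (T (F 288 L) (F 160 L))) (V (F 261 (S (F 16 L) L)) (F 288 L))))) (S (F 551 (V (T (S (F 960 L) (F 384 L)) L) (F 576 L))) (V (F 23 (U (S L (T (F 128 L) (F 128 L))) L)) (F 647 (U (S (F 640 L) L) (F 512 L)))))) (F 655 (S (F 194 (T L L)) (T (S (F 192 L) (S (F 128 L) L)) (T (S (F 194 L) (F 128 L)) (F 128 L)))))))))) (F 16334933 (T (F 6290 (S (F 225 (V L L)) (U (V (T (S (F 225 L) (F 1 L)) (S (F 225 L) (S (F 65 L) (F 1 L)))) (F 224 (U (T L L) L))) (F 225 (T L L))))) (S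 (F 3231 (T L (F 16 L))) (V (U (S (F 3231 (T L L)) (T (F 1046 (S (F 18 L) (F 1 L))) (F 1063 (S (F 128 L) L)))) (F 7199 L)) (F 173 (U (T (F 192 (S (F 56 L) L)) (F 2 L)) (F 199 L))))))))
noncomputable def v13_24 : Tr := (S (V (F 57459 (T (S (S (F 9 L) (F 1 L)) (V (F 1 L) (S (F 9 L) (F 1 L)))) (U (S (S L L) (S (S (F 1 L) (F 1 L)) (S (F 1 L) (F 1 L)))) (S (S (F 3 L) (F 3 L)) (S (F 3 L) (F 1 L)))))) (T (F 122962 (U (S (V (F 580 (S L L)) (T (F 516 L) (S (S (F 69 L) (F 517 L)) (F 517 L)))) (V (F 512 L) (T (F 516 L) (F 517 (S L (F 16 L)))))) (S (T (F 516 L) (F 517 (S L L))) (S (F 512 L) (F 512 L))))) (F 82001 (U (S (V (F 259 (T (S (F 65 L) (F 65 L)) (S (F 256 L) (F 256 L)))) (T (S (S (F 276 L) (F 22 L)) (F 22 L)) (S (V (F 262 L) (F 276 L)) (S (F 262 L) (F 22 L))))) (V (T (F 2051 L) (F 3 L)) (S (T (F 22 L) (F 6 L)) (T (F 23 L) (F 70 L))))) (S (T (F 2055 (S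 (S L L) L)) (S (T (F 2054 L) (F 262 L)) (F 6 L))) (V (F 2311 (S L L)) (T (F 2071 (S L (F 16 L))) (F 6 L)))))))) (V (F 106515 (T (U (S (S (F 129 L) (F 128 L)) (V (S (F 416 L) (F 160 L)) (F 128 L))) (S (S (F 385 L) (F 129 L)) (S (F 128 L) L))) (U (S (T (F 129 L) (S (F 385 L) (F 161 L))) (V (F 128 L) (F 161 (S L L)))) (S (F 385 (S L L)) (S (F 129 L) (F 128 L)))))) (F 73809 (T (U (S (F 2067 (V (S (F 16 L) (F 16 L)) (S L L))) (V (F 2065 (S (F 256 L) (F 16 L))) (F 2051 (S (F 64 L) (F 16 L))))) (F 2051 (S (S L L) (S L L)))) (U (S (V (F 2051 (S L L)) (F 70 (T (S (F 257 L) (F 321 L)) (S (F 64 L) (F 256 L))))) (F 2115 (V (T L (S (F 128 L) (F 128 L))) (T (F 160 (S L L)) (S (F 128 L) (F 128 L)))))) (S (V (F 2119 (S L L)) (T (F 2055 L) (F 70 L))) (F 2118 (V (S (F 128 L) (F 128 L)) (T (F 128 L) L)))))))))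
noncomputable def v13_25 : Tr := (T (U (S (F 22608 (V (T (S (F 1028 L) (F 1029 L)) (F 1540 (S (S L (F 256 L)) L))) (T (S (F 1537 (V L (S (F 32 L) (F 32 L)))) (S (F 1537 L) (F 1029 L))) (S (V (F 1537 L) (F 513 L)) (V (F 1540 L) (F 1601 (S L (F 16 L)))))))) (F 22594 (V (S (S (F 260 L) (F 260 L)) (S (F 260 L) (F 68 L))) (T (S (F 5 L) (F 69 L)) (F 1345 (S (V (F 64 L) L) (S (F 64 L) (F 64 L)))))))) (F 22594 (S (V (F 1284 (S (S L (F 256 L)) L)) (F 1281 (T (S L (S (F 128 L) (F 128 L))) (S (S L (F 128 L)) L)))) (T (S (F 1029 (S L L)) (F 5 L)) (F 1284 (V L (S (F 256 L) (F 264 L)))))))) (U (F 22548 (S (V (F 1156 (T (S (S L (F 8 L)) L) (S (U (S (F 8 L) (F 264 L)) (F 8 L)) (S (F 8 L) (F 264 L))))) (T (S (V (F 1216 (S L (F 64 L))) (S (F 192 L) (F 193 L))) (F 1216 (V L (S (F 256 L) (F 256 L))))) (S (V (F 64 L) (S (F 64 L) (F 1088 L))) (V (F 1092 L) (F 64 L)))))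 (F 1092 (V (S (T (F 8 L) (F 8 L)) (S (F 8 L) (F 8 L))) (S (T (S (F 8 L) (F 8 L)) (S L (F 8 L))) (T (F 8 L) L)))))) (F 20502 (S (V (F 268 (S (T (F 8 L) L) (S L (F 8 L)))) (S (T (S (F 264 L) (F 268 L)) (S (F 128 L) (F 136 L))) (F 140 (T (S L (F 8 L)) (S L L))))) (V (F 268 (T L (S (F 264 L) (F 264 L)))) (F 140 (S (T L L) (S L L))))))))
noncomputable def v13_26 : Tr := (V (T (F 43074 (U (S (V (F 2050 L) (S (F 70 L) (F 67 L))) (V (F 2145 (S (F 128 L) L)) (F 67 (S L (S (F 257 L) (F 257 L)))))) (F 2051 (S (S (F 256 L) L) (S L (S (F 272 L) (F 16 L))))))) (F 30914 (U (S (V (F 82 (S (F 2 L) L)) (S (F 320 L) (F 320 L))) (S (T (F 2 L) (F 18 L)) (V (F 18 L) (F 16 L)))) (S (V (F 66 L) (F 322 (S L L))) (S (F 2 L) (S (F 18 L) (F 18 L))))))) (F 30850 (T (U (S (V (T (F 35 (S L L)) (F 161 (S L L))) (T (S (F 33 L) (F 41 L)) (F 545 (S L L)))) (V (F 35 (T (S (F 1 L) (F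 1 L)) (S L L))) (T (S (F 41 L) (F 35 L)) (S (F 545 L) (F 33 L))))) (S (V (S (F 33 L) (F 33 L)) (T (S (F 545 L) (F 1057 L)) (F 673 (S L L)))) (S (T (F 33 L) (F 545 (S L L))) (F 35 (T L (S L L)))))) (U (S (F 673 (V (S (S L L) (S L L)) (T (S L L) (S L (F 8 L))))) (V (S (F 673 (S L L)) (F 49 (S L L))) (F 545 (T (S (F 4 L) (F 16 L)) (F 20 (S L L)))))) (S (V (F 672 (S L L)) (F 641 (S (S L L) (S (F 8 L) (F 8 L))))) (V (F 545 (S L L)) (S (F 513 L) (F 545 (S (F 4 L) (F 16 L))))))))))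
noncomputable def v13_27 : Tr := (S (V (F 30802 (T (S (F 770 (S L L)) (S (F 770 L) (F 515 L))) (S (V (F 770 L) (S (F 768 L) (F 768 L))) (S (F 258 L) (F 258 L))))) (F 28678 (T (S (F 2689 (U (V (S (F 64 L) (F 64 L)) (S (S L L) (T (F 64 L) (F 64 L)))) (V (F 192 L) (S (F 64 L) (F 64 L))))) (F 133 (U (V L (S L L)) (S (F 1 L) (F 257 L))))) (S (V (F 644 (U (S L L) (S (F 257 L) (F 265 L)))) (U (S (S (F 2560 L) (F 2560 L)) (S (F 516 L) (F 580 L))) (F 2561 (S L (F 128 L))))) (V (F 644 (U (S (F 8 L) (F 264 L)) (F 256 L))) (S (T (F 516 L) (F 580 (S L (F 1 L)))) (F 580 (T L L)))))))) (F 30722 (V (F 2114 (T (S (S (F 256 L) (F 256 L)) (U (S (F 272 L) (F 272 L)) (F 256 L))) (S (U (F 21 (S L L)) (F 17 L)) (U (S (F 17 L) (F 272 L)) (F 305 (S L L)))))) (T (S (V (F 2113 (S (F 1 L) (F 256 L))) (F 1089 (U (S (F 16 L) (F 16 L)) (F 1 L)))) (F 97 (U (T (S (F 257 L) (F 257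 L)) (S (F 2 L) (F 257 L))) (S (F 257 L) (F 257 L))))) (F 1057 (S (U (V (S (F 20 L) (F 20 L)) (S (F 4 L) (F 4 L))) (S (S (F 20 L) (F 20 L)) (F 4 L))) (U (V (S (F 20 L) (F 48 L)) (S (F 4 L) (F 16 L))) (S (F 16 L) (F 16 L)))))))))
noncomputable def v13_28 : Tr := (U (T (F 3281027 (U v13_24 (F 106499 (S (F 641 (V (T (S (F 12 L) L) (S (F 4 L) (S (F 260 L) (F 4 L)))) (T (S (T (F 64 L) (S (F 260 L) (F 320 L))) (S L (S (F 256 L) (F 256 L)))) (S (U (T (F 256 L) (S (F 257 L) (F 257 L))) (F 261 (S L L))) (U (S (S (F 256 L) (F 256 L)) (F 256 L)) (F 256 L)))))) (V (T (S (S (F 897 L) (F 640 L)) (T L (F 512 L))) (S (F 641 (S (F 256 L) L)) (S (F 640 L) (F 512 L)))) (F 641 (T (S (T L L) (U (S (F 256 L) (F 256 L)) L)) (S (U (S (F 256 L) (F 256 L)) (F 256 L)) (U (S (F 256 L) (S (F 272 L) (F 272 L))) (S (F 272 L) (F 272 L))))))))))) (F 10698755 (U (S (V (F 26706 (T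 (U (S (V (F 2 L) (T (F 2 L) (F 4 L))) (V (F 2 L) (S (F 6 L) (F 6 L)))) (S (S (F 518 L) (F 1030 L)) (F 1030 (S L L)))) (U (S (V (F 582 (S L (F 8 L))) (S (S (F 516 L) (F 580 L)) (F 516 L))) (F 580 (V (F 72 (S L L)) (S L L)))) (S (V (F 518 L) (F 580 (S L L))) (F 582 (V L (S L L))))))) v13_25) v13_26) v13_27))) (F 15859767 (T (S (F 10324 (V (U (T (F 64 L) (F 321 (S (F 2 L) L))) (F 321 (S (F 3 L) L))) (U (T (S (F 321 L) (F 257 L)) (S (F 321 L) (F 257 L))) (F 321 (S (F 1 L) L))))) (V (U (T (S (F 14420 L) (F 10304 L)) (F 14404 (S (F 288 L) L))) (F 14400 (T L (F 672 (S (F 3 L) (F 8 L)))))) (F 14420 (U (T (S L (S (F 8 L) (F 8 L))) (S (F 128 L) L)) (T (F 192 (S (F 16 L) L)) (F 128 L)))))) (F 4117 (S (V (F 323 (U (S (S L L) (S L L)) L)) (U (S (T (F 323 (S L L)) (S (F 257 L) (F 258 L))) (T (F 323 (S L L)) (S (F 258 L) (F 290 L)))) (F 323 (S L L)))) (V (F 67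 (U (S (S (F 2 L) L) (T L (F 8 L))) (S (F 10 L) (F 24 L)))) (U (S (T (F 99 (S L L)) (S (F 290 L) (F 35 L))) (F 35 (T (S (F 8 L) (F 8 L)) (S L L)))) (F 99 (S L L)))))))))
noncomputable def v13_29 : Tr := (T (U (S (V (T (F 3077 (S L L)) (F 7172 (S (T L L) (S L L)))) (T (F 7172 (S (V L (S L (F 16 L))) (T L L))) (S (V (F 7172 (S L (F 16 L))) (F 6148 L)) (F 7172 (V L (S (F 16 L) (F 16 L))))))) (V (T (F 3079 (S L (F 1 L))) (F 7172 (S L (F 128 L)))) (F 7204 (T (S (S L L) L) (S (V L L) (S L L)))))) (S (V (F 7172 (T (S (F 256 L) (F 384 L)) (S L (F 256 L)))) (T (S (F 7168 L) (F 7172 L)) (S (F 7168 L) (F 7172 L)))) (F 7172 (T (V (F 256 L) (S (F 256 L) (F 272 L))) (V L (S L (F 16 L))))))) (U (S (V (T (S (F 7172 (V L (S (F 4 L) (F 4 L)))) (S (F 5124 L) (F 5124 L))) (S (F 4740 (V (S (F 2 L) (F 2 L)) (S (F 1 L) (F 16 L)))) (V (F 5252 L) (F 5668 (S L L))))) (T (S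 (V (F 6660 (S (F 4 L) (F 16 L))) (F 6688 L)) (F 6180 (V (S (F 1 L) (F 1 L)) (S (F 2 L) (F 3 L))))) (S (F 6816 (V (S L L) L)) (F 4644 (T L L))))) (F 5156 (V (T (S (S L L) L) (S (S L L) (S L (F 128 L)))) (T (S (T L L) (S (F 1 L) (F 1 L))) (S (V (S (F 10 L) (F 10 L)) (F 2 L)) (S (F 2 L) (F 2 L))))))) (S (V (T (F 7172 (S L L)) (F 7680 (S (S (F 2 L) (F 64 L)) (S (F 64 L) (F 64 L))))) (F 7680 (T (S (S (F 2 L) (F 8 L)) L) (S (S (F 2 L) (F 8 L)) (S (F 8 L) (F 8 L)))))) (V (T (F 7172 (S L (F 128 L))) (S (F 5636 L) (F 5156 L))) (F 7204 (T (S (S L (F 1 L)) L) (S (T (F 1 L) (F 1 L)) (S (F 1 L) (F 1 L)))))))))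
noncomputable def v13_30 : Tr := (T (F 135751 (U (S (V (T (S (V (F 1024 L) (F 544 L)) (V (F 1060 (S L L)) (F 1056 L))) (S (S (F 544 L) (F 544 L)) (S (F 544 L) (F 36 L)))) (T (S (F 544 L) (F 1568 (S L L))) (S (F 800 L) (F 544 L)))) (V (F 1060 (T (S (T L L) (S L L)) (S (T L L) (S L L)))) (T (S (S (F 1568 L) (F 1060 L)) (F 1572 (S L L))) (S (F 544 L) (F 548 L))))) (S (V (T (S (F 1536 L) (F 1056 L)) (S (F 1536 L) (F 1568 (S L (F 32 L))))) (F 1568 (T (S (F 1 L) L) (S (F 1 L) (F 1 L))))) (T (V (F 1060 (S (S L (F 1 L)) L)) (F 1568 (S L (F 32 L)))) (F 1060 (V (S L L) (S (F 1 L) (F 1 L)))))))) (F 5653 (U (S (V (T (F 2305 (S (S (F 4 L) (F 4 L)) (S (F 4 L) (F 64 L)))) (F 2432 (S L (S (F 256 L) (F 256 L))))) (T (F 2433 (S (F 6 L) L)) (F 2688 L))) (V (F 265 (T (S (S (F 1 L) (F 1 L)) (S (F 1 L) (F 2 L))) (S (S (F 1 L) (F 1 L)) (S (F 1 L) (F 2 L))))) (F 2305 (T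 (S (F 64 L) (F 64 L)) (S (F 4 L) (F 64 L)))))) (S (V (F 3328 (T (S (F 256 L) (F 256 L)) (S (F 2 L) (F 256 L)))) (S (F 3712 L) (F 3073 L))) (F 3329 (V (S (T L L) (T (S (F 32 L) (F 32 L)) (S (F 32 L) (F 32 L)))) (T (S (F 1 L) (F 32 L)) (S (F 2 L) (F 32 L)))))))))
noncomputable def v13_31 : Tr := (V (T (F 3080 (U (S (V (T (F 400 (S L L)) (S (F 144 L) (F 400 L))) (T (S (F 16 L) (F 400 L)) (S (F 16 L) (F 144 L)))) (T (F 400 (S (S L L) (S L L))) (V (F 400 (S L L)) (S (F 144 L) (F 400 L))))) (S (V (T (F 384 L) (F 400 (S L L))) (T (F 16 L) (S (F 144 L) (F 400 L)))) (T (F 400 (S L L)) (V (F 400 L) (F 16 L)))))) (U (F 1064 (S (V (T (S (F 128 L) (F 129 L)) (S L (F 128 L))) (T (S L (F 1 L)) (S (S (F 2 L) (F 2 L)) L))) (T (V (S (F 129 L) (F 385 L)) (S (F 128 L) (F 129 L))) (V (S (F 128 L) (F 128 L)) (S (F 128 L) (F 128 L)))))) (S (F 1064 (T (V (S (F 129 L) (F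 385 L)) (S (F 1 L) (F 129 L))) (V (S (F 128 L) (F 129 L)) (S (F 2 L) (F 2 L))))) (F 1058 (T (V (F 1 L) (S (F 65 L) (F 65 L))) (V L (S (F 65 L) (F 65 L)))))))) (T (F 3112 (U (S (V (T (S L L) (S (S L (F 1 L)) L)) (T (S L L) (S L (F 1 L)))) (V (T (S (F 128 L) (F 128 L)) (S L (F 64 L))) (T (S L L) (S (F 1 L) L)))) (S (T (V (S (F 128 L) (F 128 L)) (S (F 1 L) (F 1 L))) (V (S (F 1 L) (F 1 L)) (S (F 1 L) (F 1 L)))) (T (S L L) (V (S (F 64 L) (F 64 L)) (S (F 1 L) (F 1 L))))))) (U (S (V (F 1064 (T (S L (F 1 L)) (S (S (F 2 L) (F 3 L)) (S (F 3 L) (F 3 L))))) (F 552 (T (S (F 1 L) (F 2 L)) (S (F 1 L) (F 2 L))))) (F 1064 (V (T (S (F 1 L) (F 1 L)) (S (F 2 L) (F 2 L))) (T (S (F 3 L) (F 2 L)) (S (F 2 L) (F 2 L)))))) (F 3624 (S (T (V (S L L) (S L L)) (V (S (S L L) L) (S L L))) (T (V (S L L) (S L L)) (V (S L L) (S L L))))))))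
noncomputable def v13_32 : Tr := (V (T (S (V (F 1173 (U (S L L) L)) (U (T (F 1169 L) (F 5264 (S (F 256 L) (F 64 L)))) (F 5265 (S (F 2 L) L)))) (F 1172 (U (V (S (F 384 L) (F 384 L)) (S L L)) (T (F 384 L) (F 385 (S L L)))))) (S (U (V (S (F 5248 L) (F 5252 (S L L))) (F 5264 (T (S (F 2 L) (F 64 L)) (S (F 2 L) (F 8 L))))) (V (F 5249 L) (F 5264 (S (F 2 L) L)))) (T (V (F 1156 L) (F 5264 (S L (S (F 64 L) (F 72 L))))) (U (V (F 5252 L) (F 5328 (S L (F 32 L)))) (F 5254 (S L (F 8 L))))))) (T (S (F 5264 (U (V (T (S (F 8 L) (F 8 L)) L) (S (F 8 L) (F 8 L))) (S L L))) (U (V (F 1172 (T L (S (F 17 L) (F 17 L)))) (F 5328 (T (S (F 32 L) (F 32 L)) L))) (F 5328 (T (S (F 128 L) (F 32 L)) (S (F 1 L) (F 32 L)))))) (S (U (F 5264 (V (T L (S (F 10 L) (F 10 L))) (S (F 11 L) (F 8 L)))) (F 4304 (V (S (F 6 L) (F 2 L)) (F 1 L)))) (F 5200 (U (T (V (S (F 72 L) (F 72 L)) (F 8 L)) (V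 (S (F 10 L) (F 72 L)) L)) (T (S (F 9 L) (F 72 L)) (S (F 9 L) (F 8 L))))))))
noncomputable def v13_33 : Tr := (U (F 1109 (S (V (F 673 (T (S (V (S (F 64 L) (F 64 L)) (S (F 64 L) (F 64 L))) (V (U (F 64 L) (F 66 L)) (S (F 64 L) (F 64 L)))) (S (V (U (S (F 65 L) (F 66 L)) (F 64 L)) (S L L)) (V (S (F 64 L) (F 64 L)) (S (F 64 L) (F 64 L)))))) (S (F 4768 (T (T (S (F 256 L) (F 256 L)) L) (U L L))) (T (F 673 (V (S (F 64 L) (F 64 L)) L)) (S (F 545 L) (F 553 (S L L)))))) (V (T (F 2217 (S (V (S (F 4 L) (F 4 L)) (S (F 4 L) (F 4 L))) (T L L))) (F 649 (S (V (S (F 34 L) (F 34 L)) (S (F 32 L) (F 34 L))) (S (F 2 L) (F 2 L))))) (T (F 169 (S (V (S (F 10 L) (F 10 L)) (S (F 9 L) (F 10 L))) (T (F 2 L) (F 2 L)))) (F 553 (S (S (S L L) L) (S L L))))))) (S (V (F 131293 (S (T (V (F 1156 L) (F 1168 L)) (T (F 144 L) (F 16 L))) (T (S (F 132 L) (F 196 L)) (S (F 192 L) (F 68 L)))))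 (F 4183 (T (S (F 2688 (V (F 256 L) (F 4 L))) (F 2113 (T (F 8 L) (F 2 L)))) (S (F 576 L) (F 577 (U L (F 1 L))))))) (F 132189 (V (T (S (F 84 (S L L)) (F 68 L)) (S (F 324 (S L L)) (F 68 L))) (T (S (S (F 1104 L) (F 84 L)) (F 84 (S L L))) (S (S (F 272 L) (F 276 L)) (F 276 (S L L))))))))
noncomputable def v13_34 : Tr := (U (S (V (F 1233 (T (S (V (S (F 2081 L) (F 2057 L)) (F 2080 L)) (V (F 2057 L) (F 2089 (S L L)))) (S (V (S (F 33 L) (F 9 L)) (F 32 L)) (V (S (F 2057 L) (F 2057 L)) (S (F 41 L) (F 41 L)))))) (F 5265 (S (T (S (F 6400 L) (F 4352 L)) (F 4096 L)) (T (S (F 4352 L) (F 257 L)) (T (F 257 L) (F 257 L)))))) (F 132305 (V (T (S (V (F 1540 L) (F 1044 (S L (F 2 L)))) (F 1540 (S L (F 32 L)))) (S (V (F 1028 L) (F 4 L)) (F 1540 (T L L)))) (T (S (V (F 1044 (S L (F 2 L))) (F 20 L)) (F 1044 (V L (S (F 2 L) (F 2 L))))) (S (V (S (F 20 L) (F 1044 L)) (F 16 L))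 (T (F 20 L) (F 20 L))))))) (F 1233 (S (V (S (T (V (F 3073 L) (F 7168 L)) (S (F 5120 L) (F 3072 L))) (T (V (F 3209 (S L L)) (F 3073 L)) (V (F 3073 L) (S (F 7169 L) (F 3081 L))))) (S (T (S (F 7200 L) (F 6176 L)) (F 4128 L)) (T (T (F 6177 L) (F 4129 L)) (S (F 5152 L) (F 5152 L))))) (V (F 3081 (T (S (S L L) L) (S (T L (S (F 128 L) (F 128 L))) (S (F 128 L) (F 128 L))))) (T (S (F 3105 (S L L)) (F 3081 (S L (F 32 L)))) (S (S (F 1057 L) (F 1057 L)) (F 3081 (S L L))))))))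
noncomputable def v13_35 : Tr := (T (U (S (V (T (F 3112 (S L (F 128 L))) (F 3616 (S L (F 128 L)))) (F 3592 (T (S (S (F 16 L) (F 16 L)) (S (F 16 L) (F 16 L))) (S (S (F 4 L) (F 16 L)) L)))) (V (F 3106 (T (S (F 64 L) (F 64 L)) (S (F 2 L) (F 2 L)))) (F 3112 (T (S (F 2 L) (F 128 L)) (S (S (F 10 L) (F 130 L)) (F 2 L)))))) (S (V (F 3618 (T (S L L) (S L L))) (F 3592 (T (S (S (F 17 L) (F 17 L)) (F 16 L)) (S L (F 16 L))))) (S (F 3616 (V (T (F 128 L) (F 160 L)) (T (F 32 L) (F 32 L)))) (T (F 3106 (S L L)) (F 3594 (V (F 16 L) L)))))) (U (S (V (F 3712 (S (T L L) (T (F 128 L) (F 128 L)))) (T (F 2696 (S (S L (F 2 L)) (S (F 2 L) (F 2 L)))) (S (T (F 2696 L) (F 1672 L)) (F 3720 (S L L))))) (V (F 3714 (T (S (F 8 L) (F 8 L)) (S (F 32 L) (F 48 L)))) (F 3592 (T (S (F 4 L) (F 128 L)) (S (F 4 L) (F 132 L)))))) (F 3712 (S (V (T (S (F 128 L) (F 128 L)) (S (F 128 L) (F 160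 L))) (S (T L L) (T (F 32 L) (F 32 L)))) (T (V (S (F 136 L) (F 136 L)) (S (F 128 L) (F 160 L))) (V (S (F 144 L) (F 176 L)) (S (F 160 L) (F 160 L))))))))
noncomputable def v13_36 : Tr := (T (U (S (V (T (F 3364 (S (S L L) (S L L))) (F 2436 (S (S L (F 2 L)) (S (F 2 L) (F 2 L))))) (T (S (F 6404 L) (F 3332 L)) (F 2436 (S (S (F 1 L) (F 1 L)) L)))) (F 3332 (V (T (S (S (F 16 L) (F 16 L)) (F 16 L)) (S L L)) (T (S L L) (S L L))))) (S (T (F 3332 (V (S (F 1 L) (F 16 L)) (S (F 1 L) (F 1 L)))) (V (F 3332 (S L L)) (F 7424 (S (F 2 L) (F 64 L))))) (F 3332 (T (V (S (F 16 L) (F 16 L)) (S (F 1 L) (F 1 L))) (V (S (F 4 L) (F 128 L)) (S (F 1 L) (F 1 L))))))) (U (S (V (T (F 2436 (S (S L L) (S L (F 2 L)))) (S (F 1412 (S L L)) (F 388 L))) (T (S (F 4740 L) (F 900 L)) (S (F 4740 L) (F 900 L)))) (V (F 3460 (T (S (S L L) L) (S (S L L) L))) (T (F 2436 (S L (S (F 6 L) (F 6 L))))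 (F 900 (S L (F 4 L)))))) (S (V (F 1412 (T (S (S (F 2 L) (F 3 L)) (S (F 3 L) (F 3 L))) (S L (S (F 3 L) (F 3 L))))) (S (F 5760 (T (F 1 L) (F 64 L))) (F 1412 (T (F 2 L) (F 5 L))))) (F 3460 (T (V (S L L) (S (F 1 L) (F 2 L))) (S (V L (F 2 L)) (S L L)))))))
noncomputable def v13_37 : Tr := (V (T (F 131165 (S (U (V (T (F 2688 (S (F 16 L) (F 64 L))) (S (F 2688 L) (F 2624 L))) (S (F 2576 (T (F 4 L) (F 8 L))) (T (F 2256 L) (F 2624 L)))) (S (T (F 2688 L) (F 2624 L)) (T (F 2688 L) (F 2624 L)))) (V (T (F 2180 (S (S L (F 128 L)) L)) (U (S (F 2628 L) (F 198 L)) (F 2054 L))) (U (S (F 2128 (T (F 8 L) (F 2 L))) (F 2116 (T (F 8 L) (F 2 L)))) (S (F 2624 L) (F 2116 L)))))) (F 157 (S (V (U (S (T (F 5121 L) (F 5248 L)) (F 5249 (T L (S L (F 128 L))))) (T (F 5121 L) (F 5253 (S L L)))) (U (S (S (F 4256 L) (F 5248 L)) (T (F 5249 L) (F 5248 L))) (S (F 5280 L) (F 5249 L))))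 (V (U (F 1161 (T (S L (F 128 L)) (S L (F 128 L)))) (F 5253 (S (S L (F 64 L)) (S (F 64 L) (F 64 L))))) (F 5249 (U (T (S L (F 64 L)) (S L L)) (S L L))))))) (F 5147 (T (S (V (S (S (F 3328 L) (F 2304 L)) (T (F 2817 (S L L)) (F 2304 L))) (F 3328 (T L L))) (T (F 2561 (U (S L (S (F 2 L) (F 64 L))) (S (F 3 L) (F 1 L)))) (F 2305 (U (V (S (F 2 L) (F 2 L)) (F 1 L)) (S (F 3 L) (F 3 L)))))) (S (U (S (F 1280 L) (F 3328 (T (F 256 L) L))) (F 3328 (S (F 2 L) L))) (U (T (F 2305 (V (S (F 2 L) (F 2 L)) (F 1 L))) (F 1281 (S L L))) (F 3329 (S (S L L) (T (F 1 L) (F 1 L)))))))))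
noncomputable def v13_38 : Tr := (V (T (S (T (F 6724 (U (V (S (F 64 L) (F 64 L)) (S (F 16 L) (F 16 L))) (S (F 64 L) (F 64 L)))) (V (F 2566 (S L L)) (U (F 2564 L) (F 6662 L)))) (T (U (V (F 582 L) (F 2628 L)) (F 6726 (S L L))) (F 2566 (U (S L L) (S (F 1 L) (F 17 L)))))) (S (U (F 2820 (V (T (S (F 129 L) (F 136 L)) (S (F 129 L) (F 129 L))) (T (S (F 1 L) (F 160 L)) (S (F 128 L) (F 129 L))))) (F 2818 (V (S (F 128 L) (F 129 L)) (S (F 1 L) (S (F 129 L) (F 129 L)))))) (F 2566 (U (V (S L (F 4 L)) (T L (S (F 68 L) (F 100 L)))) (V (S (F 5 L) (F 5 L)) (S (F 5 L) (F 5 L))))))) (T (S (F 6672 (U (S (T L (S (F 2 L) (F 64 L))) (V (T (F 72 L) (F 66 L)) L)) (T (S (F 64 L) (F 65 L)) (S (F 1 L) (F 65 L))))) (F 2580 (U (T (V L (F 1 L)) (S (S (F 1 L) (F 1 L)) L)) (T (S (F 129 L) (F 129 L)) (S (F 129 L) (F 129 L)))))) (S (U (S (F 6928 (T (S L L) (V L (F 1 L)))) (V (S (F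 6912 L) (F 2820 L)) (F 6416 (S (F 1 L) (F 2 L))))) (F 6912 (V (S (F 16 L) (F 64 L)) (S (F 17 L) (F 17 L))))) (T (F 2580 (U (V L (F 1 L)) (S (F 3 L) (F 131 L)))) (V (F 2820 (S L (F 128 L))) (F 6928 (S (S (F 1 L) (F 33 L)) (F 32 L))))))))
noncomputable def v13_39 : Tr := (T (U (S (V (F 135748 v13_29) v13_30) (F 148037 v13_31)) (F 131087 (S v13_32 (V (T (S (T (F 1175 (S (S L L) L)) (V (F 1159 L) (F 1172 L))) (F 1159 (V (S L L) (F 80 (T (S L L) (S L L)))))) (S (V (F 1158 (T L (S (F 16 L) (F 17 L)))) (F 1220 (U (T (F 32 L) (S (F 33 L) (F 161 L))) (S (F 129 L) (F 129 L))))) (F 1222 (S (T L (V (F 1 L) L)) (T L (S L L)))))) (F 1108 (T (S (T (U (S (F 16 L) (F 17 L)) (F 16 L)) (U (V (F 16 L) (F 19 (S L L))) (S (F 17 L) (F 145 L)))) (T (S (F 16 L) (F 16 L)) (S (S (F 17 L) (F 17 L)) (F 16 L)))) (S (T (U (S (S (F 17 L) (F 17 L)) (S (F 17 L) (F 17 L))) (S (F 17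 L) (F 17 L))) (U (V (S (F 17 L) (F 17 L)) (F 19 (S L L))) (S (F 17 L) (F 17 L)))) (T (U (V (F 16 L) (F 17 L)) (F 145 (S L L))) (U (V (F 145 (S L L)) (F 1 L)) (S (F 17 L) (F 145 L))))))))))) (U (S (V (T v13_33 v13_34) (T (F 5141 (U (S (V (T (F 4928 (S (F 2 L) (S (F 256 L) (F 256 L)))) (S (F 5568 L) (F 4864 L))) (F 5440 (S (F 5 L) L))) (V (T (S (F 4617 (T (F 16 L) (F 4 L))) (F 841 (S L L))) (S (F 4865 (S L L)) (F 777 (S L L)))) (T (S (F 5441 L) (F 4865 L)) (F 5377 (S (F 2 L) L))))) (S (V (S (F 4416 L) (F 4865 (T L L))) (F 7425 (S (F 6 L) L))) (V (T (F 6657 (S L L)) (F 4865 (S L (S (F 1 L) (F 1 L))))) (F 6401 (T (S (F 3 L) (F 2 L)) (S (F 3 L) (F 1 L)))))))) (F 5265 (U (S (V (T (S (F 4992 L) (F 4609 L)) (S (F 6016 L) (F 4736 L))) (F 5760 (S (F 4 L) L))) (V (T (S (S (F 4865 L) (F 4361 L)) (S (F 265 L) (F 265 L))) (S (F 4865 (S L L)) (S (F 4361 L) (F 265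 L)))) (S (F 4608 L) (F 4617 (T L (F 2 L)))))) (S (V (T (F 4608 L) (S (F 7808 L) (F 5633 L))) (F 7808 (S (F 128 L) L))) (T (V (S (F 5121 L) (F 7425 (S L L))) (F 7681 (S L L))) (V (S (F 5121 L) (F 5121 L)) (F 5632 L)))))))) (V (F 148545 v13_35) (F 136209 v13_36))) (S v13_37 (F 132109 v13_38))))
noncomputable def v13_40 : Tr := (T (F 131151 (S (V (F 2178 (U (S (T (S (F 288 L) (F 288 L)) (S (F 256 L) (F 256 L))) (T (F 416 (S L L)) (T (F 384 L) (F 128 L)))) (S (F 289 L) (F 384 L)))) (U (T (F 2193 (S (S (F 1 L) (F 1 L)) (S L (F 8 L)))) (F 2128 (S (T (F 9 L) (F 1 L)) (T (F 8 L) (S (F 9 L) (F 9 L)))))) (F 3219 (T L (S (F 5 L) (F 4 L)))))) (V (F 134 (U (T (S (F 256 L) (S (F 320 L) (F 272 L))) (S (S (F 257 L) (F 257 L)) (T (F 273 L) (F 17 L)))) (T (F 257 L) (F 275 (S L L))))) (F 2128 (U (T (S (S (F 264 L) (F 72 L)) (U (F 72 L) (F 456 L))) (S (T (S (F 73 L)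 (F 200 L)) L) (U (S (F 72 L) (F 200 L)) (F 200 L)))) (F 385 (S (T (F 9 L) (F 8 L)) (T (F 9 L) (F 1 L))))))))) (F 31 (S (V (U (T (S (F 3077 (S L L)) (F 2181 (S L L))) (F 3205 (S (U (S L L) (F 1 L)) (U (S L L) (F 1 L))))) (F 7303 (S (S (F 2 L) L) (T (F 2 L) (F 32 L))))) (U (S (F 5280 (T (T (F 261 (S L L)) (F 257 L)) L)) (T (V (F 2177 L) (F 7329 (S L L))) (F 7329 (U (S (F 32 L) L) (F 32 L))))) (F 7333 (S (F 32 L) (S L L))))) (V (F 2181 (U (T (S (U (S (F 128 L) (F 136 L)) (F 136 L)) (S (F 128 L) (F 128 L))) (S (U (T (F 128 L) (F 130 L)) (F 130 L)) (S (S (F 130 L) (F 130 L)) (S (F 130 L) (F 128 L))))) (S (S (F 258 L) (F 384 L)) (S (F 384 L) (F 384 L))))) (U (T (S (F 6305 (U (S L L) (F 64 L))) (F 2189 (T (F 33 (S L L)) L))) (F 7301 (S (S (S L L) (S L L)) (S (S L (F 32 L)) (S (F 32 L) (F 32 L)))))) (F 6277 (S (S (F 1 L) (F 1 L)) (S (F 1 L) (F 64 L)))))))))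
noncomputable def v13_41 : Tr := (T (U (S (F 24604 (V (T (S (K 8) (S (K 8) (F 1024 L))) (K 8)) (S (K 8) (U (K 8) (T (F 161 L) (K 8)))))) (V (F 16540 (T (S (V (F 9218 L) (F 64 L)) (F 9282 (V (S (F 288 L) (F 288 L)) (S L L)))) (S (U (K 9) (S (F 1104 L) (F 9280 L))) (F 9284 (U (S (K 2) L) (S L (F 256 L))))))) (F 18460 (T (S (U (K 8) (F 1 L)) (V (S (F 8704 L) (F 9728 L)) L)) (U (K 8) (S (S (F 1169 L) (F 1041 L)) L)))))) (F 81948 (S (V (S (T (F 1051 (S L L)) (F 1033 L)) (T (S (F 1035 L) (F 1027 L)) (S (F 1065 L) (F 1057 L)))) (S (S (F 1065 L) (F 41 L)) (T (S (F 4137 L) (F 41 L)) (F 1065 (S L L))))) (V (S (T (F 1026 L) (S (F 1057 L) (F 9248 L))) (T (F 9730 (S L (F 32 L))) (V (F 9762 L) (F 9248 L)))) (S (T (S (F 41 L) (F 33 L)) (S (F 41 L) (F 33 L))) (T (S (F 33 L) (F 1056 L)) (S (F 33 L) (F 1056 L)))))))) (U (F 18508 (S (K 8) (V (T (U (K 8) (S (F 2064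 L) (F 8708 L))) (F 8724 (S (K 3) (U (K 3) L)))) (U (K 8) (S (F 16127 (S (K 0) (K 0))) (T (S (F 2065 L) (F 2065 L)) (F 2065 L))))))) (F 67660 (S (V (F 2073 (S (U (K 4) L) (U (T (S (F 8 L) L) L) (S L L)))) (S (F 2069 L) (T (F 2073 (S (F 256 L) L)) (F 2069 L)))) (V (S (T (S (F 2057 L) (F 2057 L)) (F 2073 (S L L))) (T (F 10760 (S L L)) (F 8728 (S L (F 32 L))))) (S (V (F 2073 (T (S L L) L)) (S (F 2073 L) (F 2065 L))) (T (V (F 2056 L) (F 2057 L)) (V (F 25 L) (F 2077 (S L L))))))))))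
noncomputable def v13_42 : Tr := (S (F 335900 (V (T (F 525 (U (K 4) (S (V (F 4 L) (F 4 L)) (V (S (F 12 L) (F 12 L)) (S L (S L L)))))) (U (K 7) (S (K 7) (U (K 7) (V (F 1565 (S (F 32 L) L)) (F 516 L)))))) (T (U (F 8063 (S (K 0) (K 0))) (S (F 3662 (T (S (F 48 L) (F 32 L)) L)) (V (S (F 589 L) (S (F 525 L) (F 524 L))) (F 2136 (S (F 196 L) L))))) (F 1554 (U (K 3) (S (F 82 (S (F 3 L) L)) (V (U (K 3) (S (F 208 L) (F 128 L))) (S (F 210 L) (F 18 L))))))))) (V (F 81996 (T (U (S (F 10754 (V (S (S (K 2) (F 192 L)) (F 64 L)) (S (K 2) (U (K 2) (T (F 64 L) L))))) (V (F 10802 (S L (F 16 L))) (S (T (F 10770 (S L (F 32 L))) (F 8738 (S L (F 2 L)))) (F 8722 (T (F 2 L) (F 64 L)))))) (S (V (F 10778 (S (F 128 L) L)) (S (F 2059 (T (F 256 L) L)) (S (F 2067 L) (F 10754 L)))) (F 10754 (V (F 98 (S L (F 8 L))) (S (S L L) (S (F 32 L) (F 96 L))))))) (U (S (F 8810 (V (S (K 3) (S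 (K 3) L)) (K 3))) (V (F 8810 (S L (F 32 L))) (S (T (F 8736 L) (F 8808 (S (K 3) L))) (F 8800 (T (F 256 L) (F 64 L)))))) (S (V (F 554 (S (S (F 516 L) (F 517 L)) (F 65 L))) (S (F 2089 (T L L)) (T (F 2088 L) (F 553 L)))) (V (F 8802 (S (F 64 L) (F 34 L))) (S (S (F 8736 L) (F 8738 L)) (F 8802 (S L L)))))))) v13_41))
noncomputable def v13_43 : Tr := (S (F 335996 (V (T (F 13 (S (S (F 128 L) L) (V L (S (F 64 L) (S (F 64 L) L))))) (S (F 15 (V L L)) (U (V (F 13 L) (F 21 (S (F 192 L) L))) (F 5 L)))) (T (S (F 591 L) (V (S (F 15 L) (F 5 L)) (F 515 L))) (F 22 (S (F 146 (S (F 1 L) L)) (U (V (S (F 192 L) (F 128 L)) (F 18 L)) (F 128 L))))))) (V (F 213084 (T (S (U (V (F 2825 L) (S (F 525 L) (F 2057 L))) (F 2569 (S (F 64 L) L))) (V (F 2825 (S L L)) (U (S (F 2305 L) (F 2328 L)) (F 2305 L)))) (S (V (S (F 517 L) (F 2305 L)) (U (F 21 (S L (S (F 1 L) (F 1 L)))) (F 517 L)))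 (V (F 2320 (S (F 256 L) (F 16 L))) (U (S (F 2065 (S (F 128 L) (F 4 L))) (F 2320 L)) (F 2065 L)))))) (T (F 81948 (S (U (V (F 1035 (S L (S (F 128 L) L))) (T (F 11 L) (F 1067 (S (F 258 L) L)))) (F 1035 (V (F 4 L) (F 2 L)))) (U (V (S (S (F 1059 L) (F 9219 L)) (S (F 9219 L) (F 9250 L))) (S (T (F 1059 L) (F 1057 L)) (T (F 9251 (S L L)) (F 1057 L)))) (F 1059 (V (S (F 1 L) (F 1 L)) (S (F 256 L) L)))))) (F 329820 (S (U (V (F 13 (S L (S L L))) (T (F 8 L) (F 10 L))) (V (F 13 L) (F 526 L))) (S (U (V (S (F 12 L) (F 12 L)) (S (F 12 L) (F 12 L))) (S (F 13 L) (F 5 L))) (U (V (S (F 2052 L) (F 2052 L)) (S (F 4 L) (F 4 L))) (V (F 2053 L) (F 13 L)))))))))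
noncomputable def v13_44 : Tr := (S (F 3089 (V (T (U (K 3) (S (K 3) (V (S (K 3) (F 160 L)) (K 3)))) (K 3)) (T (U (K 3) (S (F 338 L) (S (F 274 L) (S (F 400 L) (F 384 L))))) (U (K 3) (S (F 370 L) (S (K 3) (F 288 L))))))) (V (T (U (F 8792 (S (K 3) (V (S (F 128 L) (F 132 L)) (U (K 3) (S L (F 256 L)))))) (S (F 89 (V (S (F 17 L) (F 17 L)) (S (S (F 12 L) (F 4 L)) (S (F 4 L) (F 16 L))))) (F 8792 (V (S (F 384 L) (F 132 L)) (S (S (F 256 L) (F 256 L)) L))))) (F 89 (U (S (K 5) (V (F 25 (S L L)) (S (K 5) (F 17 L)))) (S (V (F 281 (S L L)) (S (F 268 L) (F 280 L))) (V (F 17 L) (F 273 (S L L))))))) (T (U (F 89 (S (K 5) (V (S (K 5) (U (K 5) (S (F 16 L) (F 17 L)))) (S (K 5) (S (K 5) (T L (K 5))))))) (S (F 2069 (V (S (F 256 L) (U (K 4) (F 320 L))) (S (F 100 L) (F 64 L)))) (V (F 89 (S (S L L) (V (S (F 17 L) (F 17 L)) L))) (S (F 2069 (T L (F 320 L))) (F 29 (T (S (F 4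 L) (F 128 L)) (F 128 L))))))) (F 93 (U (S (K 5) (S (K 5) (V (S (K 5) (F 17 L)) (K 5)))) (S (U (K 5) (S (F 76 L) (F 12 L))) (V (S (F 8 L) (F 1 L)) (S (F 12 L) (S (F 12 L) (F 12 L))))))))))
noncomputable def v13_45 : Tr := (U (T (U v13_42 v13_43) (F 67660 (U v13_44 (S (F 3165 (V (S (V (F 64 L) (F 64 L)) (U (V (S (F 96 L) (F 64 L)) (S (F 96 L) (F 64 L))) (S (F 96 L) (F 64 L)))) (S (F 66 (S (F 3 L) L)) (V (S (F 64 L) L) L)))) (V (T (S (F 89 (U (S (S (F 4 L) (F 4 L)) (S (F 1 L) (F 1 L))) (F 524 (V (F 64 L) L)))) (F 8265 (V (S (F 648 L) (F 524 L)) (U (S (F 136 L) (F 648 L)) (F 640 L))))) (F 93 (S (V (S (F 13 L) (F 25 L)) (S (F 12 L) (F 8 L))) (S (V (F 281 L) (F 9 L)) (U (F 17 L) (F 281 L)))))) (T (S (F 2069 (U (V (S (F 324 L) (F 320 L)) (F 4 L)) (S (F 836 L) (F 260 L)))) (U (F 89 (V (S (F 4 L) L) (S (F 260 L) (S (F 260 L) (F 260 L))))) (F 2077 (S (S (F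 68 L) (F 4 L)) (S (F 64 L) (F 64 L)))))) (F 3165 (S (U (S L L) L) (U (V (S (F 1 L) (F 1 L)) (S (F 2 L) L)) (S (F 1 L) L)))))))))) (F 475228 (T (S (U (V (F 262 (S (F 194 L) L)) (F 771 (T (F 72 L) (F 32 L)))) (F 1799 L)) (V (U (S (S (F 1282 L) (F 1280 L)) (F 1408 (T L (S (F 16 L) (F 24 L))))) (F 1287 L)) (U (S (F 259 (T (S (F 66 L) L) (S (F 66 L) (F 64 L)))) (T (S (F 1280 L) (F 1032 L)) (V (F 1288 L) (F 265 L)))) (F 1803 (S (F 16 L) L))))) (F 283 (S (U (V (S (F 34 L) (F 1 L)) (S (F 50 L) (F 2 L))) (F 34 L)) (V (U (S (S (F 1 L) (F 1 L)) (S (F 1 L) (F 1 L))) (F 3 L)) (U (S (S (F 2 L) (F 2 L)) (S L L)) (F 3 L))))))))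
noncomputable def v13_46 : Tr := (U (S (F 4246 (V (T (S (F 326 L) (S (F 66 L) (T (F 64 L) (F 2 L)))) (S (F 326 L) (U (S (F 326 L) (F 6 L)) (F 6 L)))) (F 322 (S (F 18 L) L)))) (V (T (U (S (F 4244 (V (S (F 64 L) (T (F 128 L) (F 128 L))) (F 256 L))) (V (S (T (F 4248 (T L L)) (F 4244 (S (F 128 L) L))) (T (V (S (F 4232 L) (F 4232 L)) (F 4240 L)) (V (S (F 4248 L) (F 152 L)) (F 4240 L)))) (F 4244 (S L (T L (F 256 L)))))) (S (F 4246 (S L (T (S (F 128 L) L) L))) (V (S (T (F 4240 L) (F 4242 L)) (T (S (F 4232 L) (F 4106 L)) (F 4098 L))) (F 4246 (S L (T L (F 4 L))))))) (U (S (F 4246 (S L (V (K 4) (F 6 L)))) (V (U (K 8) (S (F 5268 (S (F 128 L) L)) (S (F 4244 L) (F 1044 L)))) (F 4246 (S (F 4 L) (S (F 4 L) L))))) (S (F 4246 (S (F 6 L) (S (F 4 L) L))) (V (S (F 1046 (S (F 2 L) L)) (T (F 4118 (S (F 32 L) L)) (F 1046 L))) (F 4246 (S (F 6 L) L)))))) (F 4246 (T (S (F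 2 L) (V (U (S (F 66 L) L) L) (F 2 L))) (S (F 2 L) (V (S (F 6 L) L) (F 2 L))))))) (S (F 6295 (S (F 34 L) (T L (S (F 34 L) (F 2 L))))) (V (T (S (F 4246 (U (T L L) (F 260 L))) (V (U (S (F 4114 L) (S (F 4106 L) (F 4106 L))) (F 5131 (S (F 128 L) L))) (F 4118 (U (T (F 32 L) (F 32 L)) (F 512 L))))) (F 1046 (S (U (S (F 550 L) (F 34 L)) (F 550 L)) (U (V (S (F 2 L) (S (F 2 L) L)) (S (F 294 L) (F 34 L))) (S (F 6 L) (S (F 258 L) (F 2 L))))))) (F 4246 (S (F 262 (S (F 2 L) L)) (T (S (F 262 L) L) (S (F 262 L) (F 6 L))))))))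
noncomputable def v13_47 : Tr := (U (S (F 920 (V (S (F 40 (S (F 1 L) L)) (V (U (K 2) L) (S (F 40 L) (F 32 L)))) (F 40 (S (F 1 L) L)))) (V (T (U (S (F 920 (V (K 2) L)) (U (K 5) (S (F 792 (S (F 2 L) L)) (V (F 264 L) (F 920 L))))) (S (F 912 (S (F 8 L) L)) (S (F 784 (T L (F 2 L))) (V (S (F 776 L) (F 264 L)) (F 920 L))))) (F 904 (U (F 40 (S (F 27 (S (K 0) (K 0))) (U (K 2) (V (F 27 (S (K 0) (K 0))) (S L L))))) (S (S (F 8 L) (S (F 40 L) (F 8 L))) (V (S (F 8 L) L) (S (F 40 L) (F 8 L))))))) (F 664 (T (S (S (F 66 L) (F 2 L)) (V (S (F 2 L) (F 2 L)) (F 2 L))) (U (S (F 64 L) (V (S (F 66 L) (F 2 L)) (F 2 L))) (S (F 66 L) (S (F 66 L) (F 2 L)))))))) (S (F 921 (S (F 8 L) (V (S (F 16 L) L) (F 24 L)))) (V (T (S (F 912 (V (S (F 72 L) L) (F 72 L))) (U (S (F 912 L) (F 776 (S (F 2 L) L))) (F 904 (S (F 40 L) L)))) (F 904 (S (V (S (F 72 L) (F 8 L)) (F 72 L)) (U (S (F 8 L)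 L) L)))) (F 920 (S (F 32 L) (U (S (F 32 L) L) (F 32 L)))))))
noncomputable def v13_48 : Tr := (T (F 18445 (U (S (V (F 1542 (S (T (T (S (F 66 L) (F 66 L)) L) (S L (F 2 L))) (T L L))) (T (S (V (F 4608 L) (S (F 4608 L) (F 4612 L))) (V (F 5638 (S L (F 1 L))) (F 4608 L))) (S (V (S (F 5632 L) (F 5636 L)) (S (F 4608 L) (F 5632 L))) (S (F 1536 L) (F 1540 L))))) (V (F 1542 (T L L)) (F 5636 (T (S (T (F 256 L) (F 256 L)) (F 256 L)) (S (S L (F 256 L)) (F 256 L)))))) (S (V (F 1542 (S (T (S (F 66 L) (F 66 L)) L) (T (F 66 L) (F 2 L)))) (S (T (T (F 4614 (S L (F 4 L))) (F 4612 L)) (V (F 5124 L) (F 4100 L))) (T (F 4614 (V (F 4 L) L)) (F 5636 (S L (F 256 L)))))) (F 1542 (V (T (F 2 L) (F 2 L)) (S (T (F 2 L) L) (T (F 3 L) (F 34 L)))))))) (U (F 18572 (S (V (F 8772 (S (T (S L (F 256 L)) (S (F 64 L) (F 64 L))) (T L (F 256 L)))) (T (S (V (F 8704 L) (F 8192 L)) (V (F 8772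 L) (F 8708 L))) (S (S (F 528 L) (F 8708 L)) (F 8772 (S L L))))) (V (F 8774 (S (S L (F 2 L)) (F 2 L))) (S (T (F 8708 L) (F 8772 L)) (F 8772 (T (F 256 L) (F 1 L))))))) (F 84044 (S (V (S (T (F 4354 L) (F 4384 L)) (S (F 4384 L) (F 4386 L))) (S (T (S (F 1024 L) (F 5120 L)) (S (F 1025 L) (F 4353 L))) (T (S (F 5376 L) (F 5376 L)) (F 4352 L)))) (V (F 4386 (S L (F 2 L))) (S (S (F 4352 L) (F 4384 L)) (F 4386 (S L (F 2 L)))))))))
noncomputable def v13_49 : Tr := (S (V (T (S (V (F 2578 L) (S (F 2562 L) (F 2594 L))) (F 2594 (S L (F 16 L)))) (S (V (F 610 L) (U (F 546 L) (F 2658 L))) (F 610 (S L (F 2 L))))) (T (S (V (F 2594 (U (S (S L L) L) (S (F 256 L) (F 256 L)))) (U (S (T (F 2082 L) (F 2083 (S L L))) (F 2594 (T L L))) (F 2083 (S (S (F 1 L) (F 1 L)) L)))) (F 2594 (U (V (S (F 16 L) (F 17 L)) (S (S L L) L)) (S (S L L) L)))) (S (U (V (T (F 2595 (S L (F 16 L))) (F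 544 L)) (S (T (F 2083 (S L L)) (F 2081 L)) (S (F 2081 L) (F 2592 L)))) (F 2083 (S (V (F 4 L) L) (V (F 36 L) L)))) (T (U (S (F 546 L) (F 2658 L)) (F 2595 (S L (F 16 L)))) (U (S (F 546 L) (F 2658 L)) (F 2659 (S L (F 1 L)))))))) (V (F 2658 (T (S (S L L) (S L (S (F 2 L) L))) (S (S (F 2 L) (F 2 L)) (S (F 1 L) (F 1 L))))) (T (F 2594 (S (V (S (F 16 L) (F 16 L)) (U (S (F 1 L) (F 17 L)) (F 1 L))) (U (S (F 16 L) (S (F 17 L) (F 17 L))) (S (F 17 L) (F 17 L))))) (F 610 (S (U (S L (F 2 L)) (S (F 3 L) (F 259 L))) (S (S (F 2 L) (F 3 L)) (F 2 L)))))))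
noncomputable def v13_50 : Tr := (V (T (U (F 5256 (S (V (F 128 L) (S L (F 128 L))) (S (F 128 L) (F 128 L)))) (F 5250 (S (V (F 64 L) (S (F 64 L) (F 64 L))) (S (F 64 L) (F 4 L))))) (F 5256 (U (S (S (S (F 256 L) (F 64 L)) L) (S (F 128 L) (F 192 L))) (S (S L (F 128 L)) (S (F 192 L) (F 192 L)))))) (T (U (S (V (F 5256 (S (T (S (F 256 L) (F 256 L)) L) (S L L))) (S (F 1037 (U (K 5) (V (S (F 17 L) (F 17 L)) L))) (F 5256 (T (S L (F 64 L)) (S (F 320 L) (F 320 L)))))) (F 5256 (V (S L (F 128 L)) (S (T L (F 64 L)) (S L (F 64 L)))))) (S (V (S (F 5256 (S L L)) (F 5248 L)) (S (T (F 5129 (S L L)) (F 1037 L)) (T (F 5248 L) (F 5261 (S L L))))) (V (F 5250 (S L (F 128 L))) (S (S (F 5249 L) (F 5252 L)) (F 5248 L))))) (U (F 5260 (S (V (S (S (F 128 L) (F 128 L)) L) (S (U (K 3) (F 128 L)) (S (F 128 L) (F 128 L)))) (V (S (F 128 L) (F 128 L)) (S (S (F 128 L) (F 128 L)) L))))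 (F 1037 (S (S (V (F 17 L) L) (V (F 17 L) (S (F 17 L) (F 17 L)))) (V (S (F 17 L) (F 17 L)) (S (S (F 17 L) (F 17 L)) (F 17 L))))))))
noncomputable def v13_51 : Tr := (U (S v13_50 (V (F 5250 (T (U (S L (F 2 L)) (S L (F 3 L))) (U (S (F 64 L) (F 1 L)) (S (F 128 L) (F 1 L))))) (T (U (S (V (F 5250 L) (S (F 5252 L) (F 7298 L))) (F 7298 (S L L))) (S (F 5250 (V (F 1 L) (S (F 128 L) (F 129 L)))) (F 4226 L))) (F 5252 (U (S (V L (S (F 320 L) (F 65 L))) (S (F 128 L) (F 129 L))) (S (S (S (F 64 L) (F 64 L)) L) (S (F 129 L) (F 129 L)))))))) (S (V (F 5250 (T (S (U (S L (F 256 L)) L) (S L (F 4 L))) (S (S (S (F 320 L) (F 320 L)) (F 256 L)) (S (F 256 L) (F 132 L))))) (T (S (V (F 5249 (U (S L (F 256 L)) L)) (U (S (T (F 5633 L) (F 5133 L)) (F 5125 (S L (F 8 L)))) (F 1541 (S (F 128 L) (F 1 L))))) (S (U (T (F 5250 L) (F 5249 L)) (F 5251 L)) (V (F 5251 L) (F 5248 L)))) (F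 5125 (S (U (S (S (F 128 L) (F 128 L)) (V (F 140 L) (F 136 L))) (S (F 132 L) (F 132 L))) (U (V (F 8 L) (S (F 136 L) (F 136 L))) (S (F 136 L) (F 264 L))))))) (V (F 5250 (T (S L (F 2 L)) (S L (F 128 L)))) (T (F 5250 (S (S (T L (F 128 L)) L) (S (F 1 L) (F 3 L)))) (S (V (F 5250 L) (F 5253 (S L L))) (F 5254 (S L (F 1 L))))))))
noncomputable def v13_52 : Tr := (U (T (U (S (V (F 215245 (T (U (S (V (F 24 L) (T (S (F 264 L) (F 280 L)) L)) (F 280 (S (S L L) L))) (S (V (F 280 L) (S (F 256 L) (F 264 L))) (S (F 264 L) (F 280 L)))) (U (S (V (F 24 L) (S (S (F 16 L) (F 20 L)) (F 16 L))) (S (F 24 L) (F 280 L))) (S (S (T (F 16 L) (F 16 L)) (F 16 L)) (S (F 272 L) (F 280 L)))))) v13_48) (F 215245 (V (T (F 280 (U (S (V (F 2 L) (S (F 1 L) (F 1 L))) (V (S (F 3 L) (F 2 L)) (S (F 1 L) (F 1 L)))) (S (S L L) (V L L)))) (U (S (F 16 L) (F 280 (S L L))) (S (F 272 L) (F 784 (S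 (F 8 L) L))))) (T (U (S (V (F 280 (S L (F 1 L))) (T (F 784 (S L (F 8 L))) (F 16 L))) (F 784 (V (S (F 8 L) (F 8 L)) (S L (F 8 L))))) (S (V (F 784 (S L (F 8 L))) (S (F 256 L) (F 272 L))) (V (F 272 L) (F 784 (S L (F 8 L)))))) (U (S (V (F 16 L) (T (F 16 L) (F 16 L))) (S (F 16 L) (F 528 L))) (S (V (F 272 L) (S (F 16 L) (F 784 L))) (S (F 272 L) (F 784 L)))))))) (F 81997 v13_49)) (F 85064 v13_51)) (F 84061 (T (S (V (F 771 (U (S (T L (S (F 8 L) (F 8 L))) (T L (F 8 L))) (F 73 (S L L)))) (U (T (S (S (F 3 L) (F 3 L)) (F 259 (S L L))) (S (S (F 3 L) (F 7 L)) (F 291 (S L L)))) (F 1543 (S L (F 1 L))))) (F 259 (V (F 18 (U (S (S L L) (T (F 36 (S L L)) (F 32 L))) (F 37 (S L L)))) (U (S (T (S (F 1 L) (F 17 L)) (F 17 (S L (F 1 L)))) (F 17 (T (S L L) L))) (F 147 (S L L)))))) (S (F 37 (V (F 134 (U (S (S L L) (S L L)) (F 16 L))) (U (S (U (T (S (F 130 L) (F 132 L)) (F 66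 L)) (F 195 L)) (F 132 (U (S L L) (F 16 L)))) (F 199 (S L L))))) (F 294 (V (U (S (F 66 (S L (F 16 L))) (F 2 L)) (F 67 L)) (U (S (S (F 64 L) (F 64 L)) (F 65 (S L L))) (F 67 L))))))))
noncomputable def v13_53 : Tr := (T (U (S (V (T (F 18460 (S (V (F 512 L) (S (F 4225 L) (F 4225 L))) (V (S (F 12800 L) (F 12804 L)) (S (F 12416 L) (F 12800 L))))) (S (V (F 18588 L) (F 264734 L)) (F 18589 (S (S L L) (S L L))))) (F 264734 (T (S (S (F 28 L) (F 20 L)) (S (F 8 L) (F 8 L))) (S (S (F 22 L) (F 20 L)) (S (F 20 L) (F 4 L)))))) (F 18445 (V (T (S (S (F 4608 L) (F 12800 L)) (S (F 4612 L) (F 12806 L))) (S (S (F 4608 L) (F 4612 L)) (F 516 L))) (T (S (U (F 12929 (S L L)) (F 12416 L)) (F 12928 (T L L))) (S (U (F 12928 L) (F 12417 L)) (F 12928 (S L L))))))) (F 67612 (S (V (S (T (S (F 9 L) (F 9 L)) (S (F 9 L) (F 9 L))) (T (S (F 8200 L) (F 12296 L)) (S (F 8200 L) (F 9224 L))))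 (T (S (F 4225 L) (F 4233 (S L L))) (F 4229 (S L (S L L))))) (V (T (S (S (F 12808 L) (F 8714 L)) (F 12810 (S L (F 2 L)))) (S (S (F 8712 L) (F 9736 L)) (F 9736 L))) (S (T (S (F 12297 L) (F 12424 L)) (S (F 12417 L) (F 12297 L))) (F 12808 (T (S L (F 8 L)) (S L (F 8 L))))))))) (U (S (V (T (S (F 10268 (V (F 16 L) (F 4225 L))) (F 18589 (S L L))) (S (F 305244 (S (F 32 L) (F 4 L))) (V (F 19661 L) (F 305308 L)))) (F 305694 (S (T L (F 2 L)) (T (S (F 2 L) L) (S (F 18 L) (F 18 L)))))) (V (F 18573 (S (T L (S (F 580 L) (F 580 L))) (T (F 516 L) (F 580 L)))) (F 2574 (T (S (S (F 12297 L) (F 12808 L)) (F 12816 (T L (F 64 L)))) (S (S (F 4141 L) (F 8717 L)) (F 8860 (S L L))))))) (S (F 67612 (V (S (T (S (F 1033 L) (F 1033 L)) (F 1045 (S L L))) (T (S (F 1033 L) (F 9224 L)) (S (F 1037 L) (F 9225 L)))) (S (F 4245 (T L (F 4 L))) (T (F 4229 (S (F 128 L) L)) (F 4117 L)))))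 (V (F 84173 (S (T (S (F 512 L) (F 512 L)) L) (T (F 512 L) (F 1056 L)))) (F 67614 (S (T (S (F 133 L) (F 4109 L)) (F 1029 L)) (T (F 4104 L) (S (F 5125 L) (F 5196 L)))))))))
noncomputable def v13_54 : Tr := (V (F 18569 (T (U (S (V (F 12804 (T (S (S (F 257 L) (F 265 L)) (F 257 L)) (S L (F 273 L)))) (F 14464 (S (T (S L (F 128 L)) (S (F 128 L) (F 128 L))) (T (S (F 384 L) (F 384 L)) (F 128 L))))) (V (F 12870 (T (F 9 (S L L)) L)) (S (F 14468 (T (F 128 L) (F 10 L))) (F 10822 (S L (F 1 L)))))) (F 14340 (S (V (S (T (F 258 L) (F 258 L)) (S (F 258 L) (F 258 L))) (T (S L (F 258 L)) (S L (F 258 L)))) (V (S (F 258 L) (F 274 L)) (F 266 (T (S L (F 16 L)) (S (F 16 L) (F 16 L)))))))) (U (S (V (F 12868 (S (T L L) (S L (F 128 L)))) (T (F 12420 (S L (F 20 L))) (F 12876 (S (S L (F 8 L)) L)))) (F 8772 (T (S L (F 272 L)) (S L (F 272 L))))) (S (V (F 4676 (S (S L (F 2 L)) (F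 1 L))) (F 14852 (T (S L (F 8 L)) (S (S (F 72 L) (F 72 L)) (F 72 L))))) (F 8772 (V (F 256 L) (S (F 1 L) (F 259 L)))))))) (T (F 2587 (U (S (V (T (S (F 4624 L) (F 4624 L)) (F 4636 (S (S L L) (S L (F 8 L))))) (F 4621 (T (S L L) (S L L)))) (S (F 4628 (V (T L (F 8 L)) (T (F 64 L) (F 72 L)))) (F 540 (T (S L L) (T (F 16 L) (F 16 L)))))) (S (V (S (T (F 4628 L) (F 4109 L)) (F 4628 (T L (F 64 L)))) (F 4621 (T (S L L) (S L (F 8 L))))) (T (F 540 (S (S (F 1 L) (F 1 L)) (S (F 128 L) (F 129 L)))) (F 4628 (V L (S (F 320 L) (F 328 L)))))))) (F 100378 (U (S (V (F 6496 (T (S (S (F 128 L) (F 128 L)) (S (F 32 L) (F 34 L))) (S (F 130 (S L L)) (F 32 L)))) (F 2145 (S (S (F 64 L) (F 1 L)) (T (F 9 L) (F 73 L))))) (F 4448 (T (S (V (F 65 L) (F 321 L)) (S (F 64 L) (F 68 L))) (V (F 69 (S L L)) (F 261 (S L (F 2 L))))))) (S (V (S (F 6209 (T L (F 16 L))) (T (F 6468 L) (F 6945 L)))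 (F 6241 (T (S (F 2 L) (F 4 L)) (S (F 34 L) (F 6 L))))) (F 4896 (V (S (F 73 (T L L)) (F 64 L)) (F 265 (T (S L (F 2 L)) (S L (F 2 L)))))))))))
noncomputable def v13_55 : Tr := (V (T (S (V (S (U (T (F 4105 L) (F 4105 L)) (F 1035 L)) (U (T (F 8203 L) (F 8201 L)) (F 13323 (S L L)))) (U (S (F 4229 (S L L)) (F 4097 L)) (F 4103 (S (F 4 L) (F 512 L))))) (V (F 9226 (U (S (T (F 1 L) L) (T (F 5 L) (F 5 L))) (S (F 512 L) (F 513 L)))) (F 12297 (U (S (T L L) (S L L)) (T (F 512 L) (F 2 L)))))) (S (V (U (S (T (F 1033 L) (F 1037 L)) (S (F 1033 L) (F 1033 L))) (F 1037 (S (F 2 L) (F 1 L)))) (F 5125 (U (S (S (F 144 L) (F 128 L)) (S (F 128 L) L)) (S (F 384 L) (F 256 L))))) (V (U (S (F 9225 (S L L)) (F 9736 L)) (F 9225 (S (F 256 L) (F 513 L)))) (U (S (F 5125 (S L L)) (F 13321 (T L (F 128 L)))) (F 5133 (S L (F 1 L))))))) (T (S (F 4229 (U (S (F 128 L) (S (F 128 L) L)) (S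 (F 644 L) (F 128 L)))) (U (V (S (F 4229 (S (F 1 L) L)) (F 12293 (S L L))) (F 12421 (S (F 64 L) L))) (F 4229 (S L (S (F 1 L) (F 1 L)))))) (S (F 4245 (U (S (F 6 L) L) (S (F 262 L) (F 6 L)))) (F 5125 (U (V (S L L) (S (F 176 L) (F 144 L))) (V (S (F 144 L) (F 257 L)) (F 144 L)))))))
noncomputable def v13_56 : Tr := (V (F 84057 (T (F 3074 (S (U (V (S (S (F 2 L) (F 2 L)) (F 2 L)) (T (S (F 2 L) (F 258 L)) (S (F 2 L) (F 18 L)))) (S (V (F 258 L) (F 256 L)) (S (F 2 L) (F 258 L)))) (U (V (S (F 18 L) (F 18 L)) (S (F 2 L) (F 18 L))) (S (F 2 L) (F 18 L))))) (S (V (S (T (F 1282 L) (F 1312 L)) (F 1314 (S L (F 1 L)))) (S (F 3073 (U (T (F 2 L) (F 144 L)) (F 144 L))) (F 3360 (U L (F 160 L))))) (F 2338 (S (U (T (F 1 L) (F 65 L)) (F 65 L)) (T (F 1 L) (F 64 L))))))) (F 67614 (T (S (U (V (T (F 4105 L) (F 4109 (S (F 16 L) (F 6 L)))) (F 4229 (T L L))) (V (F 4109 (T (F 256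 L) (F 2 L))) (F 5253 (S L (F 64 L))))) (U (V (F 5642 (S L (F 8 L))) (F 4237 (S L (F 4 L)))) (F 5135 (S (S L (F 2 L)) (F 2 L))))) (S (U (S (V (F 5125 (S L (F 16 L))) (F 1157 L)) (F 5189 (V (F 66 (T L L)) (S (F 8 L) (F 8 L))))) (F 5125 (S (S L L) (S (F 128 L) (F 128 L))))) (F 5189 (U (S (V (F 74 (T L L)) (S (F 8 L) (F 72 L))) (F 66 (T L L))) (S (S (F 64 L) (F 66 L)) (F 66 (S L (F 1 L))))))))))
noncomputable def v13_57 : Tr := (V (T (U (S (F 553 (V (S (U (K 5) (S (F 68 L) (F 260 L))) (V (U (F 273 (S (K 3) L)) (F 256 L)) L)) (F 70 (S (S L L) (T (S L L) L))))) (V (F 8996 (S (T (S (F 64 L) (F 64 L)) (S (F 320 L) (F 320 L))) (T L (F 64 L)))) (S (F 553 (V L (F 70 (S L L)))) (F 13089 (T (U (F 40 L) (F 64 L)) (F 40 (S L L))))))) (S (V (S (F 2569 (T L (F 64 L))) (F 549 (T (S (F 256 L) (F 1 L)) (F 256 L)))) (F 6697 (S (S (F 18 L) (F 16 L)) (S L L)))) (V (F 8740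 (S (U (S (F 640 L) (F 520 L)) (F 512 L)) (T (F 8 L) (F 520 L)))) (S (F 2601 (V L (S (F 34 L) (F 34 L)))) (F 8737 (S (F 128 L) (F 256 L))))))) (F 553 (U (S (V (S (S (F 76 L) (F 68 L)) (S (F 272 L) (F 272 L))) (F 78 (S (S L L) (S L L)))) (V (F 273 (S (S L L) (S L L))) (S (S (F 70 L) (F 82 L)) (F 19 (S L L))))) (S (S (V (F 12 L) (F 78 L)) (V (F 256 L) (F 14 L))) (V (F 273 (S (S L L) (S L L))) (S (F 6 L) (F 3 L))))))) (F 6249 (T (U (S (V (S (F 6 L) (F 4 L)) (F 6 L)) (S (T L (S (F 6 L) (F 4 L))) (T (S (F 4 L) (F 1 L)) (S (F 4 L) (F 4 L))))) (S (F 6 (V (S L L) L)) (S (V (F 4 L) (F 6 L)) (V (T (F 4 L) (F 5 L)) (F 6 L))))) (U (S (F 6 (V (S L L) (S L L))) (V (S (F 6 (S L L)) (F 4 L)) (F 6 (S L L)))) (F 6 (S (V (S L L) L) (S (V L L) (V (S L L) L))))))))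
noncomputable def v13_58 : Tr := (V (T (U (F 4364 (S (V (S (S L L) L) (S (T (F 1 L) (F 321 (S L (F 4 L)))) (S (F 1 L) (F 1 L)))) (V (S (F 1 L) (F 129 L)) (T (F 1 L) (F 1 L))))) (S (V (T (F 4360 L) (F 6413 (S L L))) (F 4364 (S (S (S (F 256 L) (F 256 L)) (F 256 L)) (S (F 256 L) (F 1 L))))) (F 6408 (V L (S (F 64 L) (F 65 L)))))) (F 4364 (U (S (V (S (S (F 320 L) (F 321 L)) (F 64 L)) (S (S (F 320 L) (F 320 L)) (F 321 (S L L)))) (V (S (F 65 L) (F 65 L)) (S (F 321 (S L L)) (F 65 L)))) (S (S (V (S (F 320 L) (F 321 L)) (S (F 320 L) (F 320 L))) (V (F 320 L) (S (F 320 L) (F 321 L)))) (V (S (F 257 L) (F 257 L)) (S (F 321 (S L L)) (F 257 L))))))) (T (U (S (F 2117 (V (S (F 73 (T (S (F 32 L) (F 32 L)) L)) (T (F 137 L) (F 73 L))) (S (F 66 L) (F 75 (T L L))))) (F 6468 (V (T (S (F 160 L) (F 33 L)) (F 176 (S L L))) (S (F 145 (T L L)) (F 128 L))))) (S (S (F 2117 (V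 (T (F 3 L) (F 65 L)) (F 66 L))) (F 6149 (V (S (F 1 L) (F 4 L)) (F 81 (S L L))))) (F 6404 (V (T (F 64 L) (F 328 (S L (F 32 L)))) (F 265 (T (S L (F 2 L)) (S (F 4 L) (F 2 L)))))))) (U (F 2069 (S (S (V (S (F 35 L) (F 41 L)) (F 38 L)) (F 41 (V (S L L) (S (F 32 L) (F 32 L))))) (V (F 137 (S (T (F 4 L) (F 4 L)) (S L L))) (F 41 (S L (S L L)))))) (S (F 2069 (S (V (F 3 L) (F 38 L)) (V (S (F 41 L) (F 9 L)) (F 35 (S (F 32 L) L))))) (F 6149 (V (S (T (F 148 L) (F 196 L)) (F 196 (S L L))) (S (S (F 81 L) (F 84 L)) (F 84 (S L L)))))))))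
noncomputable def v13_59 : Tr := (S (V (T (S (F 1065 (U (V (S L (S (F 128 L) (F 128 L))) (S (F 6 L) (F 2 L))) (V (S (F 132 L) (F 129 L)) (F 134 (S (F 4 L) L))))) (U (V (F 4133 (S (S (F 2 L) (F 2 L)) (S (F 8 L) (F 8 L)))) (S (F 3113 (S L L)) (F 5157 (S L L)))) (F 1061 (V (S (F 1 L) (F 9 L)) (S (F 130 L) (F 3 L)))))) (S (F 1577 (U (S (S (F 66 L) (F 2 L)) (S (F 64 L) (F 64 L))) (F 66 (S L L)))) (S (F 1065 (V (U (F 129 L) (F 133 L)) (S (F 4 L) (F 4 L)))) (F 4141 (U (S L L) (F 2 L)))))) (F 3081 (T (S (S (F 18 L) (F 50 (U L (F 2 L)))) (U (V (S (F 48 L) (F 32 L)) (F 48 L)) (S (F 50 L) (F 48 L)))) (F 50 (S (U (S L L) L) (U (V (S L L) (S (F 32 L) (F 32 L))) (S L L))))))) (V (T (S (F 4133 (V (U (S (F 8 L) (F 9 L)) (F 8 L)) (U (S (S (F 1 L) (F 9 L)) (S (F 9 L) (F 11 L))) (S (F 3 L) (F 11 L))))) (F 6436 (S (U (S L (F 128 L)) (F 129 L)) (T (F 64 L) L)))) (S (F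 4133 (U (S (V (F 136 L) (F 129 L)) (S (F 8 L) (F 8 L))) (V (F 8 L) (F 1 L)))) (F 6436 (U (V L (S (F 128 L) (F 128 L))) (S (F 128 L) (F 128 L)))))) (T (S (F 3105 (U (V (S (F 1 L) (S (F 129 L) (F 129 L))) (S (F 80 L) (F 17 L))) (S (F 1 L) (S (F 129 L) (F 129 L))))) (F 6177 (U (S (V (F 133 (S L L)) (F 1 L)) (T (F 133 (S L (F 8 L))) (F 132 L))) (V (F 133 (S L L)) (S (F 145 L) (F 133 L)))))) (S (F 3113 (U (S (V (F 3 L) (F 18 L)) (T (F 1 L) (F 3 L))) (S (F 3 L) (F 65 (T L (F 32 L)))))) (F 6177 (U (S (V (F 132 L) (F 81 L)) (T (F 132 L) (F 132 L))) (S (F 129 L) (F 133 (T L L)))))))))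
noncomputable def v13_60 : Tr := (T (S (V (U (T (S (U (V (F 1029 L) (F 7 L)) (F 1031 L)) (F 1031 (U (S (S L L) L) L))) (F 7 (S (S L (S (F 1 L) (F 1 L))) (U (S (F 1 L) (F 1 L)) (F 33 L))))) (F 1543 (S (F 32 L) L))) (U (S (F 67 (T (S (F 194 L) (F 128 L)) (F 66 (S (F 1 L) L)))) (U (T (F 1027 (S (F 8 L) (F 128 L))) (F 1026 L)) (F 1031 (S (F 1 L) L)))) (F 1551 (S (F 4 L) L)))) (V (F 1029 (U (T (S (S L (F 2 L)) (S (F 2 L) (F 18 L))) (S (S (F 128 L) (F 146 (S L L))) (F 146 (S L L)))) (F 144 (S L (F 48 L))))) (F 1030 (U (T (S (S (S (F 128 L) (F 128 L)) (F 128 L)) (F 130 (S L (F 4 L)))) (S (U (S (F 16 L) (F 144 L)) (F 144 L)) (F 144 (S (S L (F 16 L)) (F 16 L))))) (S (F 129 L) (F 146 L)))))) (F 38 (S (V (U (S (F 66 (S L (S L L))) (U (T (S (F 65 L) (F 129 L)) (F 67 (S L L))) (F 195 (S L L)))) (F 195 L)) (F 66 (U (S (F 5 (S L L)) (S (F 1 L) L)) (F 37 L)))) (V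 (U (S (U (S (F 1 L) (F 5 (S L L))) (F 131 L)) (F 5 (U (T (F 1 L) L) (F 1 L)))) (F 199 (S L L))) (U (S (U (T (F 1 L) (F 67 L)) (F 195 L)) (U (T (F 1 L) (F 3 L)) (F 131 L))) (F 195 (S (F 2 L) (F 8 L))))))))
noncomputable def v13_61 : Tr := (S (V v13_45 (U (T (F 264220 v13_46) (F 370772 v13_47)) (F 501854 (T (S (F 73 (T (S (F 17 L) (F 16 L)) L)) (U (V (S (F 65 (S (F 40 L) L)) (U (V (T (F 1 L) (F 65 L)) (F 64 L)) (F 65 L))) (F 72 (S (F 48 L) L))) (F 73 (S (F 17 L) L)))) (F 65 (S (S (F 56 L) (F 8 L)) (U (V (S (F 24 L) (S (F 24 L) (F 16 L))) (F 24 (S (F 1 L) L))) (F 24 L)))))))) (V v13_52 (U (T (U (S (V v13_53 (F 35358 (T (U (S (V (S (F 17 L) (F 21 (T L (F 1 L)))) (F 21 (S (F 32 L) (F 1 L)))) (V (S (T (F 2049 L) (F 5 L)) (T (S (F 2305 L) (F 2312 L)) (F 2049 L))) (F 2309 (T (S (F 32 L) L) (S (F 32 L) (F 32 L)))))) (S (V (S (F 21 L) (S (F 21 L) (F 5 L)))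 (F 21 L)) (V (F 2053 (S (T L L) (T (S (F 128 L) (F 128 L)) L))) (S (F 21 L) (F 5 L))))) (U (S (F 21 (V (S (F 32 L) (S (F 32 L) (F 32 L))) L)) (V (S (F 21 (T L (F 32 L))) (F 2053 (T L (F 84 (S L L))))) (F 85 (S (F 4 L) L)))) (S (F 21 (S L (S (F 4 L) L))) (V (S (F 21 (S L L)) (S (F 5 L) (F 5 L))) (F 21 (S (F 36 L) L)))))))) v13_54) (S (F 67612 v13_55) v13_56)) (U (S (F 100364 v13_57) (F 68684 v13_58)) (F 100428 v13_59))) (F 329822 v13_60))))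
noncomputable def v13_62 : Tr := (V (T (F 3735095505 (S (F 227072 v13_2) v13_9)) (F 2290104931 (S (F 1261604 (V (F 19026 (U (T (U (S (F 326 (S (F 2 L) L)) (V (S (F 262 L) (T (F 258 L) (F 262 L))) (F 294 (S (F 2 L) L)))) (F 262 (S (F 2 L) (V (S (F 6 L) L) (F 2 L))))) (U (S (F 358 (S L L)) (V (F 292 (S (F 18 L) (T (S (F 18 L) (F 16 L)) L))) (F 100 L))) (F 292 (S (F 18 L) (V (S (F 18 L) (F 16 L)) (F 2 L)))))) (F 262 (S (F 6 (S (F 8 L) L)) (U (T L (F 4 L)) (F 5 L)))))) (U v13_10 (F 23555 (T (S (V (F 210 L) (S (F 448 L) (S (F 448 L) (F 194 L)))) (F 82 (U (S (S (F 2 L) (F 2 L)) (S (F 4 L) (F 4 L))) (F 2 L)))) (S (F 496 (U (S L (F 4 (S L L))) (F 4 L))) (F 50 (U (S (F 3 (S L L)) (S (F 2 L) (F 1 L))) (F 7 L))))))))) v13_15))) (T (F 469762726 (S (V (U v13_19 (F 16498809 (T (F 772 (U (S (F 36 (T (F 17 L) L)) (V (F 1 L) (T (F 5 L) L))) (F 33 (S (F 9 L) L))))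 (S (F 262 (U (V (S (F 73 L) (F 3 L)) (S (F 105 L) (F 64 L))) (F 73 L))) (V (U (S (F 518 L) (F 900 (S L L))) (F 902 L)) (U (T (F 772 (S (F 32 L) L)) (S (F 262 L) (S (F 768 L) (F 768 L)))) (F 775 (S (F 16 L) L)))))))) v13_23) (V v13_28 (F 82005 (U v13_39 v13_40))))) (F 2168484775 v13_61)))
noncomputable def treeV13 : Tr := (F 0xfffffffffffffffffffffffffffffffffffffffffffffffffffffffffffffffffffffffffffffffffffffffffffffffffffffffffffffffffffffffffffffffffffffffffffffffffffffffffffffffffffffffffffffffffffffffffffffffffffffffffffffffffffffffffffffffffffffffffffffffffffeffffc3fffffff3fffffffffffffffffffffffffffffffffffffffffffffffffffffffffffffffffffffffffffffffffffdff63ffffffff3f1fffff9e3fffff33f9fffffffffffffffffffffffffffffffffffffffffffffffffffffffffffffffffffffffffffffffffffb9fd (S (F 453112831 (V v13_0 v13_1)) v13_62))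

theorem pV13 : chkV par treeV13 128 128 384 128 256 256 327680 655360 Lc = true := by decide +kernel

noncomputable def v14_0 : Tr := (V (T (S (F 543 (V (U (T L (F 4 L)) (F 15 L)) (U (T L L) (F 15 L)))) (V (F 530 (U (T (U (S (F 112 L) (T (F 20 L) (F 4 L))) (F 127 L)) (F 68 (U (S (F 1 L) (S (F 1 L) L)) (F 31 L)))) (F 127 L))) (U (T (U (S (F 543 L) (T (F 528 L) (F 529 L))) (F 1023 L)) (F 599 (U (S (F 4 L) (S (F 4 L) L)) (F 15 L)))) (F 1023 L)))) (F 631 (S (F 4 (U (U (S L L) (F 3 L)) (F 3 L))) (V (U (U (S L L) (F 7 L)) (F 7 L)) (U (U (S (F 4 L) L) (F 7 L)) (F 7 L)))))) (T (S (F 31 (V (U (T (S (F 5 L) (F 1 L)) L) (F 31 L)) (U (T (F 4 L) (F 20 (S (F 1 L) L))) (F 31 L)))) (V (F 533 (U (U (U (S (T (F 34 L) (F 40 L)) (T (S (F 32 L) L) (F 40 L))) (F 40 L)) (F 63 L)) (F 63 L))) (U (T (F 661 (U (S L (S (F 4 L) (F 4 L))) (F 31 L))) (F 39 (U (S (F 4 L) (S (F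 1 L) (F 1 L))) (F 63 L)))) (F 1023 L)))) (F 103 (S (F 24 (U (U (V L (F 1 L)) (F 7 L)) (F 7 L))) (V (U (U (S (F 17 (S (F 1 L) L)) (F 9 (S L L))) (F 31 L)) (F 31 L)) (U (U (S (F 20 L) (S (F 17 L) (F 1 L))) (F 31 L)) (F 31 L)))))))
noncomputable def treeV14 : Tr := (F 0xffffffffffffffffffffffffffffffffffffffffffffffffffffffffffffffffffffffffffffffffffffffffffffffffffffffffffffffffffffffffffffffffffffffffffffffffffffffffffffffffffffffffffffffffffffffffffffffffffffffffffffffffffffffffffffffffffffffffffffffffffffffffffffffffffffffffffffffffffffffffffffffffffffffffffffffffffffffffffffffffffffffffffffffffffffffffffffffffff3f1fffff9e3ffffffffffffffffffffffffffffffffffffffffffffffffffffffffffffffffffffffffffffffffffffffffffffffff (S (F 31 (V (T (U (S (F 13 L) (F 1 L)) (F 31 L)) (F 24 (U (U (S (F 1 L) (F 4 L)) (F 7 L)) (F 7 L)))) (F 20 (T (U (S L L) (F 7 L))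 (F 1 (U (S L L) (F 3 L))))))) v14_0))

theorem pV14 : chkV par treeV14 128 128 384 128 256 256 655360 1310720 Lc = true := by decide +kernel

noncomputable def treeV15 : Tr := (F 0xfffffffffffffffffffffffffffffffffffffffffffffffffffffffffffffffffffffffffffffffffffffffffffffffffffffffffffffffffffffffffffffffffffffffffffffffffffffffffffffffffffffffffffffffffffffffffffffffffffffffffffffffffffffffffffffffffffffffffffffffffffffffffffffffffffffffffffffffffffffffffffffffffffffffffffffffffffffffffffffffffffffffffffffffffffffffffffffffffffffffffffffffffffffffffffffffffffffffffffffffffffffffffffffffffffffffffffffffffffffffffffffffffffffffffffff L)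

theorem pV15 : chkV par treeV15 128 128 256 256 256 256 1310720 2621440 Lc = true := by decide +kernel


end Pool.Agent.Lib.H56.Gen.D8
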