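import Pool.Agent.Lib.H56.Gen.Split
import Pool.Agent.Lib.H56.Gen.D8.V0
import Pool.Agent.Lib.H56.Gen.D8.V1
import Pool.Agent.Lib.H56.Gen.D8.V2

/-!
# Certificate tree V
-/

set_option maxRecDepth 100000

namespace Pool.Agent.Lib.H56.Gen.D8

noncomputable def treeV : Tr := (Tr.U (Tr.T (Tr.U (Tr.U (Tr.U treeV0 (Tr.S treeV1 (Tr.V treeV2 treeV3))) treeV4) treeV5) (Tr.U (Tr.U (Tr.U treeV6 (Tr.S treeV7 (Tr.V treeV8 (Tr.T (Tr.S treeV9 (Tr.V treeV10 treeV11)) treeV12)))) treeV13) treeV14)) treeV15)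

theorem okV : chkV par treeV 128 128 256 256 256 256 0 2621440 Lc = true :=
  (chkV_U (c1 := 1310720) (by decide +kernel)
  (chkV_T (c1 := 128) (c2 := 384) (h := 128) (by decide +kernel) (by decide +kernel) (by decide +kernel)
  (chkV_U (c1 := 655360) (by decide +kernel)
  (chkV_U (c1 := 327680) (by decide +kernel)
  (chkV_U (c1 := 163840) (by decide +kernel)
  pV0
  (chkV_S (c1 := 64) (c2 := 192) (h := 64) (by decide +kernel) (by decide +kernel) (by decide +kernel)
  pV1
  (chkV_V (c1 := 128) (c2 := 384) (h := 128) (by decide +kernel) (by decide +kernel) (by decide +kernel)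
  pV2
  pV3)))
  pV4)
  pV5)
  (chkV_U (c1 := 655360) (by decide +kernel)
  (chkV_U (c1 := 327680) (by decide +kernel)
  (chkV_U (c1 := 163840) (by decide +kernel)
  pV6
  (chkV_S (c1 := 64) (c2 := 192) (h := 64) (by decide +kernel) (by decide +kernel) (by decide +kernel)
  pV7
  (chkV_V (c1 := 128) (c2 := 384) (h := 128) (by decide +kernel) (by decide +kernel) (by decide +kernel)
  pV8
  (chkV_T (c1 := 320) (c2 := 448) (h := 64) (by decide +kernel) (by decide +kernel) (by decide +kernel)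
  (chkV_S (c1 := 160) (c2 := 224) (h := 32) (by decide +kernel) (by decide +kernel) (by decide +kernel)
  pV9
  (chkV_V (c1 := 320) (c2 := 448) (h := 64) (by decide +kernel) (by decide +kernel) (by decide +kernel)
  pV10
  pV11))
  pV12))))
  pV13)
  pV14))
  pV15)

end Pool.Agent.Lib.H56.Gen.D8
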