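import Pool.Agent.Lib.H56.Gen.D8.Par
import Pool.Agent.Lib.H56.Gen.D8.Cos

/-!
# Certificate tree W, part 0
-/

set_option maxRecDepth 100000

namespace Pool.Agent.Lib.H56.Gen.D8

open Tr

noncomputable def w0_0 : Tr := (V (F 0x44444855020606186291512211101244885202a20494a28aa501800885100a880802880a801082a4882a45022480210a21220500100020a2a2948a482110021102109282110a828a29410454284620519892a1 (U L (F 0xe70007f86038707f000080000000003fe0e068b83ece41f1f8000033ff6231f9c0501e0fe7030b430000010000efd60300e87f97c7f098781fe62f278f (T (F 0x3be20f8c5fd0d25060c1022385847a4051fc80a8f01f21fe682761c431e180a7468097ff89f14 (S (K 132) (F 0x409067480000266360000129e37c1a181c18f21f008 (V (K 29) (F 0x40232081002cc0523028002800100 (T (F 0x5c109809120836011d91a79 (U (K 37) (F 0xa0410a0790000764 (T (K 20) (K 20))))) (F 0x6a800063c044c12180082 (U (K 39) (F 0x5eb94ee3c03400027a4 (T (K 14) (K 34))))))))))) (F 0x385107d105747c7c386f81e054c41ff4450648608a7198fe107908643001d00245f0037001f00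 (S (F 0x181e363158f50f4045611382000183c50e0438081d6c010 (V (K 28) (F 0xa1082504110101aa420d44100282422 (T (K 75) (F 0x2f0025240009882241002a (U (K 13) (F 0x1c7246117001c20022c (S (K 34) (K 40))))))))) (F 0x2212392318c00201647185c3001463008982084600f40dc (V (F 0x20a4110120150b0a01012405004902502 (T (F 0x93040000544c709a000083ba0 (U (K 23) (F 0x80030c6a02900009b60 (S (K 40) (F 10995659441152 (V (K 14) (K 27))))))) (F 0x10354aa4600020431031000400 (U (F 0x2400880000000410 (S (K 58) L)) (F 0xa7fc2027a80675000bd8 (S (F 4398113818112 (V (K 9) (K 6))) (F 108027017625664 (V (F 2624001 (U (F 8589934848 (S (K 4) L)) (F 25792872865 (U (S (K 3) (F 16908544 (T L (T (S (K 19) L) (S L L))))) (F 16777216 (T (F 73856 (S (K 3) (S (K 3) (U L (S L L))))) (S (T (K 21) L) (F 65664 (T (V (S (S (K 3) L) (S L L)) L) (S L (T L L))))))))))) (K 4))))))))) (K 30))))))))) (F 0x42222210081818186102808910880890244092014524200404a88064010809012a288454450aa00524500a841120510a11090a82802809011112a00a5008aa448000249414aa004415020828085211028044904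 (U L (F 0x1e7c000fe02018180ff80020000000001fe4381c01c3b9c471f8000067ff4311fc7070387f71c0f83000002000007fce43107e5fe5f1ff0843c0ff903f278f (T (F 0x1df541f052f93870869380400c20130807fb4001e43e07faf006da48c1e0c0031e5940ffff03e30 (S (K 137) (F 0x1024c44a2414002ee1a100104184f81604cd860c47c400 (V (F 0x260484010a4a15089860010a140810 (T (F 0x1078044201740ef438624d1f1 (U (K 15) (F 0x160204e0f0002674 (S (K 33) (K 33))))) (F 0x1828d80602cc04aa1a0448302 (U (F 0x24093410800000042 (S (K 43) (K 41))) (F 0x17cc13dd701c0008f2 (V (K 32) (F 68728389795 (T (K 9) (K 20))))))))) (K 30))))) (F 0x1c0c20fe88041e3e5388dc2390ea01fa001ac96100e383f8243f840c4900c05007f012e78883e08 (S (F 0x80e3f1a6330c9c0023118a1200054242b00ba28c1b590030 (V (F 0x2a049044c08001500510b000a08428281 (T (F 0x18681420443138061081609412 (U (K 15) (F 0x34e4614e601f64005c2 (S (K 34) (F 550074622055 (S (K 9) (K 13))))))) (F 0x2200388a204214402841062e (U (K 19) (F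 0x3181600cc01743002e18 (S (K 40) (F 4855456237716068 (S (K 10) (K 13))))))))) (K 29))) (F 0x25013e20e72021065231893030053c44818046004043f023c (V (F 0xa081020c0044040004416408028a2c020 (T (F 0x2164100029a2708c48949228b44 (U (F 0x284d14800408652222 (S (K 38) L)) (F 0x6393182ac0768002ee0 (V (K 38) (F 171851399585 (S (K 10) (K 20))))))) (K 76))) (F 0x48220453210a0021020610001400d0094 (T (F 0x63004001ce230180080069a8e (U (K 20) (F 0x42ce6212601c60004ef8 (S (K 39) (K 31))))) (F 0x1083084a4a43e40482101235001 (U (F 0x4068000000000400048 (S (K 52) L)) (F 0x1e5f9000ee00fe000a5c (S (F 13469563093380 (V (K 20) (K 10))) (F 44255343480868 (V (K 15) (F 532736 (U (T (K 20) (F 9797927968 (T L L))) (F 6442451968 (T (F 16386 (S (K 22) (K 18))) (F 33619987 (U (S (K 21) (F 64 (T L (F 16777217 (S L L))))) (F 1 (S (F 524289 (T (K 19) (T L L))) (F 524288 (T L (F 8388608 (S (S L L) L)))))))))))))))))))))))))))))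
noncomputable def treeW0 : Tr := (F 0xff060ff0c20fc000020f01c700001803fffe0007ff21f01c01c7042081800ffc03fffffe223f82003ff04001e0a003c04107c888ffc9049fc0207f101e43ffffe1820ffffff0843fffc00803f1209222047fe0903ff083f9fc9108400041100000fc0008ff01fc9ffffffe223f107040110240001fe0c001f1e4f04381fffff913e3f801807fff901201200041003cffffffffff81fffe200139020024108080812227fff9913c80f3484ffe23f319fffe3e1fffc79e3ff910223ffff02601100204ffff80900204040400920048c8001fffffffffffff8020002000003ff8387fffe39fe3098 (S (F 0x31e0108c7c00804011e427e0298007001e011f30fe0781e11248013f83123029f27841c00e003c20061227fce5383c860587c03f82101001c0087ffc2c003e070fffff0e009704807c0007c0ff900955c01fc9f0800000000f8040000e01fffe02000003e003e027fff10011ffc3fc0008303000300000103f1088047fff (V (K 146) (K 145))) (F 0x9e0887800f887e008f0ff0006007c006001e073f1000781f03801c064133c04381f0020018003e001c124fff0e0721e060fc2200e0200f84f8c040f4e183e0420e3ff3e15ff8203f2001c0001cbc407001003ffffc00010007fc0001e003001f780f000614004009e4ff00f04061c8708080060001fc64004fff8c00200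 w0_0)))

theorem pW0 : chkW par treeW0 128 128 128 128 256 256 0 163840 Lc = true := by decide +kernel

noncomputable def w1_0 : Tr := (T (F 25952360 (S (V (K 9) (F 98560 (U (F 32 (T L (F 140 (S L L)))) (F 35840 (T (F 132 (S L L)) (F 22 (S (F 32 (V L L)) (F 32 (S L L))))))))) (F 272 (U (V (K 9) (F 8 (T (F 24576 (S (F 16 (S L L)) L)) (F 64 (S L (F 18 (S L L))))))) (F 65544 (T (F 8192 (V (K 7) (F 2 (S L (F 1025 (S L L)))))) (F 32 (V (F 11282 (S L L)) (S (F 5120 (S L L)) (F 2 (S L L))))))))))) (F 16785432 (U (F 263200 (S (F 182280 (T (F 4 (V (K 8) (F 64 (S (F 513 (U L (S L L))) (F 1 (V L L)))))) (K 8))) (F 131072 (V (F 4144 (T (F 26624 (S (K 3) L)) (F 6144 (S (K 7) (F 2049 (S L L)))))) (F 4 (S (F 8200 (T (F 12 (V L L)) (K 9))) (F 12288 (T (U L (F 2048 (T L L))) (F 2052 (V L (K 5))))))))))) (F 263330 (S (F 92168 (V (F 2 (T (F 1024 (S L L)) (U (K 5) (F 1024 (S (S (K 4) (K 4)) L))))) (T (F 2 (S (F 68 (T L (S L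 L))) (V L (F 68 (S L L))))) (S (F 2 (V (T L (K 5)) L)) (F 2 (V (S L L) L)))))) (F 69632 (V (S (F 2054 (T (F 3072 (S L L)) (F 3072 (V L L)))) (F 8711 (T (T L L) (T L L)))) (F 2050 (S (F 2048 (T (V L (S L L)) (F 2 (V L L)))) (T (V L (S L L)) (F 2048 (V (S L L) L))))))))))))
noncomputable def w1_1 : Tr := (S (F 0x4310020aa8e410693e99c1 (V (K 22) (F 0x2a00a48400800542 (U (F 902128173076 (T (K 14) (F 73014608264 (U (K 18) (F 67122791 (V (K 10) (F 131076 (T (K 8) (S (F 1 (V (K 9) (F 66560 (S L L)))) (K 10)))))))))) (F 70918553989055 (T (F 89653824 (V (K 5) (F 196736 (S (F 8324 (U (K 4) (F 2049 (S (F 2056 (S L L)) (F 2060 (S L L)))))) (F 156 (U (F 1048 (U (K 0) (S (K 6) L))) (F 1024 (T L (F 128 (S L (F 10 (S L L)))))))))))) (F 67766472 (S (F 8738 (U (F 4 (V (K 5) (S (F 1 (T (F 16 (S L L)) (U (S L L) L))) (F 2048 (T (F 2568 (S L L)) (F 10240 (S L (F 4 (S L L))))))))) (F 40984 (V (F 1 (V (K 8) (F 4 (T (K 2) (S L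 L))))) (F 512 (T (S (F 1024 (S L L)) (V L L)) (S (F 1024 (T L L)) (V L L)))))))) (F 41000 (V (F 16392 (U (K 4) (F 2 (T (K 9) (F 4096 (U (K 5) (S (S L L) (F 2 (S L (K 6)))))))))) (F 256 (U (F 4096 (T (F 4612 (V (K 3) (F 256 (S L L)))) (S (F 512 (U (K 6) (F 1026 (S L L)))) (K 6)))) (F 2048 (S (F 4612 (T (V L (F 256 (S L L))) (T L L))) (F 4108 (T (F 8 (V L (S L L))) (V L L))))))))))))))))) (F 0x845032181a300673200e9 (V (F 0x1128019000008190 (U (K 37) (F 1636074371170159 (T (K 13) (F 21233744 (U (K 12) (F 525835 (S (F 221200 (V (K 3) (F 5 (V (K 9) (F 2 (S (K 1) L)))))) (F 68 (V (T (K 7) (F 11 (S (K 8) (F 2048 (U (K 3) L))))) (F 73 (T (F 3072 (S (K 2) L)) (F 6144 (S L (F 513 (S L L)))))))))))))))) (F 0x388444802a8801642 (U (F 9070975914304 (T (F 240733192448 (U (K 16) (F 184552458 (S (K 11) (F 136 (U (K 12) (F 131100 (T (K 8) (F 131592 (S (K 7) L)))))))))) (F 566970417304 (S (K 23) (F 134742028 (U (K 8) (F 269320216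 (T (F 2 (S (K 6) (F 532512 (U L (F 70 (S L L)))))) (K 15))))))))) (F 51127388151755 w1_0))))))
noncomputable def w1_2 : Tr := (U (F 2478468661249 (T (K 13) (F 2155937864 (S (F 4563510768 (U (K 9) (F 6029312 (V (F 3 (V (F 4096 (T (K 7) (F 4128 (S L L)))) (K 9))) (K 10))))) (F 4563469512 (U (K 9) (F 130351104 (V (F 66053 (V (F 1024 (T (K 7) (S L (K 8)))) (K 8))) (K 11))))))))) (F 160529028824575 (S (F 48267328 (U (F 2048 (V (F 4 (T (K 8) (F 32 (U (T (K 9) (S L L)) (S (F 81928 (T L L)) (F 81944 (T L L))))))) (K 10))) (F 165925 (T (F 4 (V (F 4 (S L L)) (K 5))) (V (U (T (F 4 (S L L)) (F 4 (V L L))) (F 8196 (T (S L L) (S L L)))) (F 12320 (T (K 3) (F 256 (V (S L L) (K 6)))))))))) (F 34112016 (T (F 98444 (V (F 2052 (U (F 2 (V (F 12 (S (K 5) L)) (K 7))) (F 2050 (T L (S L (F 4 (T L L))))))) (K 8))) (F 262278 (U (F 16 (V (F 4128 (T (F 512 (V (F 512 (U (S L L) (S L L))) (K 5))) (S (V (F 512 (S L L)) (S L L)) (F 512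 (V (F 512 (T L L)) (T L L)))))) (K 7))) (V (F 8 (T (F 12306 (S (V L (S L L)) (F 256 (V L (S L L))))) (V (F 8240 (S (F 2052 (S L L)) (F 4 (S L L)))) (F 4096 (S (F 8192 (U L L)) (F 1536 (S L L))))))) (F 16 (T (K 7) (F 4100 (S (F 4112 (S L L)) (F 512 (V (T L L) L))))))))))))))
noncomputable def w1_3 : Tr := (S (F 8932500 (U (F 24 (V (F 66 (T (S (F 8192 (V (F 1536 (S L L)) (T (K 5) L))) (F 8196 (U (S L L) (V L L)))) (F 8192 (V (S (F 512 (T L (K 5))) (K 6)) (S (T L L) (S L L)))))) (F 1 (V (F 16384 (S (K 6) (F 16 (T (K 7) (S L L))))) (K 7))))) (F 196632 (V (F 2064 (T (V (F 4 (S (F 2 (S L L)) L)) (S (S L L) (S L L))) (S (V (S L L) (S L L)) (V L (S L L))))) (T (F 2048 (U (K 6) (F 1024 (S L L)))) (S (V (U L L) (F 516 (S L L))) (F 2048 (V (S L L) L)))))))) (F 2100224 (U (F 1056 (V (F 197122 (S (F 32772 (T (F 4100 (V (F 1024 (S L L)) (U L L))) (F 4 (U (K 5) (F 8192 (V (K 7) L)))))) (T (F 32780 (V (F 8 (T L L)) (S L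 L))) (F 8192 (T (F 4098 (S L L)) (K 9)))))) (F 262144 (T (F 132096 (U (K 9) (F 49154 (T (K 6) (F 20480 (S (K 6) L)))))) (F 32768 (S (F 5 (V (F 66560 (S L L)) (K 8))) (F 256 (U (V L (K 8)) L)))))))) (F 7405608 (V (F 32 (T (F 8 (S (F 4226 (V (F 1028 (S L L)) (S L L))) (F 4100 (V L (F 64 (S L L)))))) (F 16384 (V (F 3072 (S L L)) (F 64 (S L L)))))) (F 16640 (T (F 516 (S (F 2 (V L L)) (S L L))) (F 8192 (V (F 2064 (S (F 512 (S L L)) L)) (S L L))))))))))
noncomputable def w1_4 : Tr := (V (F 144115463092174993 (U (F 30822854033443 (T (F 275369297732 (S (K 19) (F 67108913 (U (K 9) (F 9961476 (V (F 655362 (U (K 6) (F 200708 (T (K 9) (F 132 (S (K 5) L)))))) (K 13))))))) (F 207232566552 (S (F 3087140992 (V (F 71336448 (U (F 4352 (S (K 6) (K 6))) (F 1448 (U (F 1024 (T (K 9) (K 10))) (F 99328 (T (V (F 2048 (S L (K 5))) (K 7)) (S (K 8) (K 8)))))))) (K 7))) (F 537002000 (V (F 1083445280 (U (K 16) (F 1049896 (T (F 262172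 (V (S (K 11) (F 34 (S (K 4) (K 4)))) (K 10))) (K 7))))) (K 10))))))) (F 826837137375015 (T (F 402718828 (S (F 1590570 (V (F 4 (U (F 4096 (V (F 1024 (T (S (K 7) L) (U (F 32 (S (K 0) L)) L))) (K 5))) (F 9 (T (F 1028 (U L (S L L))) (F 2304 (S (F 256 (S L L)) L)))))) (K 7))) (F 3163136 (U (F 16384 (V (F 32802 (T (F 4 (V (F 8208 (S L L)) (K 9))) (F 4 (U (F 132 (V (S L L) (K 5))) (F 132 (S (F 4096 (S L L)) (F 512 (S L L)))))))) (K 11))) (F 806916 (V (F 4104 (T (T (F 2 (S L L)) (F 2176 (S L L))) (F 2176 (S (V L L) (S L L))))) (F 66 (T (K 6) (V (F 1024 (S L L)) (K 6)))))))))) (F 176160808 w1_3))))) (F 0x1040921004215048 (U (K 30) (F 23776944951175 (T (K 12) (F 268501032 (U (K 14) (F 6278 (S (F 737296 (V (F 64 (T (K 8) (F 32 (S (K 5) (F 512 (T (K 6) L)))))) (K 5))) (F 524296 (V (F 512 (T (F 49160 (S (K 6) L)) (F 49152 (S (F 18948 (V L L)) (F 16384 (V L L)))))) (F 4098 (S (K 8) (T (K 8) (F 20480 (V L L))))))))))))))))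
noncomputable def treeW1 : Tr := (F 0xfffffffffffffffffffffffffffffffffffffffffffffffffffffffffffffffffffffffffffffffffffffffffffffffffffffffffffffc7fff207fd0fffffffffffffffffff0801fffcffffffffffffa1ffff809ffff97ffffffffffffffffffffffffffffffffffffffffffffffffffffffffffffffc61ffde49bc3c1e1fff9f3e7f8ff8c7fffffffffffffffffffffffffffffffffffffffffffffffffffffffffffffff99ffb0f24ffffe23ff199ffe3fffffc70e1ff1102339ffffff81f0fffffffffffffffffffffffffffffffffffffffffffffffffffffffffffffffbbfffc10fff8f8 (V (F 0x922101500492224882000892011080188a94021000044 (T (F 0x69d661e1429f30f0367c4004000446900880 (S (F 0x75c2b007044c5e001dc461 (V (K 20) (F 108651617479557192 (U (K 32) (F 90160019518431 (U (K 14) (F 18875568 (T (K 9) (F 41348 (S (K 8) (F 25088 (S (K 3) L)))))))))))) (F 0x218000100c230e21d8430 (V (K 28) (F 0x1080001a8a0a0481240 (U (K 34) (F 13459671603486607 (V (K 13) (F 8623816714 (T (F 75777413 (U (K 8) L)) (F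 86025108 (U (F 580 (S (K 8) (F 10247 (S (K 4) L)))) (F 200710 (S L (F 1 (T L (F 128 (S L L)))))))))))))))))) (F 0x582be00428073803061e1c823607d2180f00 w1_1))) (F 0x2042aa0049240410242ab024a02112812020202135289 (T (F 0x6120f852fcfd0f00cfc0421024403c1114 (S (F 0x391c302702478005c1c7 (V (F 567019839752 (U (K 31) (F 7146853865407 (T (K 12) (F 4768528 (U (K 8) (F 12 (S (K 9) (F 32784 (T (K 5) L)))))))))) (K 19))) (F 0x210002b012c1c458024 (V (F 0x4010200282244808 (U (K 33) (F 1121708030967231 (V (F 2113569 (T (F 2621473 (U (K 6) (F 286730 (S L L)))) (F 135360 (S (F 393736 (U (K 8) (F 4120 (S L L)))) (F 139270 (U (F 8320 (T (K 4) (S (K 4) L))) (F 8193 (T (F 512 (S L L)) (F 64 (S L L)))))))))) (K 10))))) (K 26))))) (F 0x309c0158082d803cc3c900ce03d03c1e00 (S (F 0x11288118120c0875c36603 (V (F 703962873921557 w1_2) (K 20))) (F 0x4000181816198073ea6261 w1_4)))))))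

theorem pW1 : chkW par treeW1 64 64 128 128 256 256 163840 327680 Lc = true := by decide +kernel

noncomputable def w2_0 : Tr := (T (F 8391876 (S (F 2162690 (V (K 10) (F 135168 (U (F 65664 (T (F 4 (T L L)) (F 2049 (S L L)))) (F 65538 (S (F 4101 (S L L)) (F 256 (T L L)))))))) (F 66560 (T (F 266241 (U (F 8192 (V (K 8) (F 1 (S (F 2 (U L L)) (F 32 (T (F 2056 (U L L)) (F 6144 (S L L)))))))) (F 2052 (V (F 8 (S L (F 16 (T L L)))) (F 8193 (S L (U L (S L L)))))))) (F 1 (U (F 128 (V (K 9) (F 32771 (S (F 2 (T L L)) (F 4 (V (F 4098 (S L L)) (U L (F 4096 (S L L))))))))) (F 14 (V (F 8 (S L (F 16 (T L L)))) (F 2049 (S (T L L) (V (S L L) L))))))))))) (F 68032 (S (F 2097238 (U (F 512 (V (K 6) (F 81920 (T (F 1041 (S L L)) (F 8200 (S L (F 4096 (S L L)))))))) (F 3 (T (F 2048 (S (F 65 (S L L)) (F 8192 (V L L)))) (F 33026 (V L (F 4 (T (S L L) (S L L))))))))) (T (F 1081348 (U (V (F 262160 (V (K 8) (F 229376 (S (K 6) L)))) (F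 135175 (S (F 532 (T L L)) (V (F 2 (S L L)) (F 512 (T (F 2048 (S L L)) L)))))) (F 393217 (V (F 2 (S L (T L L))) (F 98304 (S (F 10752 (S L L)) (T L (F 2048 (S L L))))))))) (F 2097220 (U (F 6 (V (F 8194 (T L (F 65 (S (K 7) L)))) (F 132100 (U (K 11) (F 8192 (S (T L L) (S L L))))))) (F 393219 (V (F 2048 (S (S L L) (S L L))) (F 33024 (S (T L (F 4 (S L L))) (V (F 8 (S L L)) (S L L))))))))))))
noncomputable def w2_1 : Tr := (S (F 677380100 (V (F 1114113 (U (K 10) (F 32768 (S (K 10) (F 131080 (T L (F 8 (T L L)))))))) (F 8390672 (U (F 32768 (T (K 9) (F 217089 (U (K 7) (F 4 (S (K 8) (F 1024 (T L L)))))))) (F 2129948 (T (F 1040 (V L (F 40 (S L L)))) (F 2048 (S (F 8 (T L L)) (F 8 (V L L)))))))))) (F 939524128 (U (F 37120 (V (T (F 393504 (V (F 8192 (S (K 8) L)) (F 131080 (S L L)))) (F 917504 (T (F 264192 (V (S (K 9) L) L)) (F 263168 (S L (U (S L L) L)))))) (F 917506 (T (F 16384 (V (S L (F 8192 (S L L))) (F 8352 (U (T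 L (F 2048 (S L L))) (F 2048 (S (S L L) (S L L))))))) (F 1024 (S (F 64 (V (U (K 8) (S L L)) (F 12288 (U (T L L) (T L L))))) (V (U (T L L) (T L L)) (F 72 (U (F 4096 (T (S L L) L)) (T L L)))))))))) (F 312 (T (F 1072 (V (F 4096 (S L L)) (F 131328 (S (F 4096 (U (S L L) (S L L))) (F 4096 (U (T L L) (S L L))))))) (F 1040 (V (V (F 4096 (S L L)) (F 264448 (S L (S L L)))) (F 264448 (T (F 8 (V (S L L) (F 2048 (S L L)))) (F 8 (V (S L L) (F 2048 (S L L)))))))))))))
noncomputable def w2_2 : Tr := (S (F 33751044 (V (F 4194592 (U (F 16 (T (K 11) (F 1025 (V (K 11) (F 90 (S (K 9) L)))))) (F 12582912 (T (F 135168 (S (F 136 (T (K 9) L)) (T L L))) (F 794624 (V (F 4 (S L L)) (F 1024 (S L L)))))))) (F 42209281 (T (F 147476 (U (F 32768 (U (K 7) (S (K 7) (F 65552 (T L L))))) (F 1 (S (F 4 (T L L)) (F 36 (T L L)))))) (F 20 (U (S (F 32784 (U (K 7) L)) (F 144 (V L (S L L)))) (F 262161 (V (F 2056 (S L L)) (S L L))))))))) (F 2099232 (T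 (F 4206657 (U (F 266242 (V (F 1 (S (U (K 10) (T L (S L L))) (V (F 513 (T L L)) (T (F 256 (T L L)) (U L L))))) (F 8192 (S (F 16 (T (F 18433 (V (S L L) (S L L))) (F 16385 (V L (S L L))))) (F 262272 (T (U (F 4096 (V L L)) (F 8192 (V L L))) (F 12288 (U (S L L) (S L L))))))))) (F 4456448 (V (V (S (T L L) (F 524544 (T L L))) (F 590080 (T (S L L) (S L L)))) (F 590080 (T (F 32 (S (V L L) (F 9216 (V L L)))) (F 32 (V (S L L) (F 8192 (S L L)))))))))) (F 67108897 (U (F 20480 (V (F 262160 (U (F 2048 (V (F 1024 (T L (F 128 (S L L)))) (T (S L L) L))) (F 1048576 (S (F 256 (T L L)) (F 256 (V (F 513 (S L L)) (F 8 (S L L)))))))) (F 557056 (S (F 66576 (V (F 16384 (S L L)) (T L L))) (F 1048576 (T (F 98824 (U L L)) (F 32768 (S L L)))))))) (F 16777224 (V (F 524296 (T (F 6144 (S (F 4096 (S L L)) L)) (F 4100 (S L (F 512 (S L L)))))) (F 1116672 (S (F 32776 (V L L)) (F 32768 (T L L)))))))))))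
noncomputable def w2_3 : Tr := (S (F 234210197762 (U (F 4719104 (V (K 9) (K 18))) (F 8391188 (V (F 213026 (V (K 10) (F 69636 (V (K 6) (S (K 6) (F 32768 (U (K 8) (F 4096 (T (F 8192 (S (K 7) L)) L))))))))) (F 2097416 (T (F 65895 (U (K 12) (S (F 2 (T (F 1024 (S L L)) L)) (F 8 (V (F 2048 (T L L)) (K 1)))))) (F 10 (S (F 16400 (U (F 2 (S (K 4) L)) (F 24579 (S L L)))) (F 262168 (U (K 1) (F 1 (V L (F 4 (S L L)))))))))))))) (F 9664858496 (U (F 2 (T (F 948322304 (V (F 1048704 (V (K 9) (K 14))) (K 6))) (K 19))) (F 50340015 (V (F 49156 (T (F 129 (S (F 32776 (U (V (K 8) (F 1 (V (K 6) (K 11)))) (F 1 (T (V (S (K 6) L) (V (T L L) L)) (V (S (K 6) L) (T (S L L) L)))))) (F 65536 (U (V (T L (F 4097 (S L L))) (F 4097 (T (V L (K 11)) (K 11)))) (F 4097 (V (T (S L L) (V L (S L L))) (T (V (S L L) L) (V (S L L) L)))))))) (F 32774 (U (F 1024 (V (S (K 8) (F 1 (S L L))) (K 3))) (F 32768 (T (F 16 (V (S (S (K 6) L) (S L L)) (S (S L L)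 (S L L)))) (F 16 (S (V L L) (V L L))))))))) (F 1576976 (U (K 3) (F 1 (T (F 77824 (V (F 2048 (T (V (S L (S L L)) (K 11)) (K 11))) (K 1))) (F 98304 (V (F 2 (S (F 4096 (S L (K 0))) (K 13))) (F 2048 (S (T L L) (T (K 13) L))))))))))))))
noncomputable def w2_4 : Tr := (V (F 98324 (T (F 4096 (S (F 1024 (V (T (U (S L L) L) (U (S L L) L)) (T (F 1 (S (S L L) (S L L))) (U (V (S L L) L) (F 1 (S L L)))))) (U (F 1024 (V (T (S L L) (S L L)) (T (F 1 (V L (T L (S L L)))) (S (F 1 (T L L)) (F 1 (V L L)))))) (F 1024 (V (T (S L L) (S L L)) (T (F 1 (S L L)) (F 1 (S L L)))))))) (F 4096 (S (F 1024 (V (T (U (S L L) L) (U (S L L) L)) (T (T (F 1 (V L L)) (F 1 (S L L))) (S L L)))) (U (F 1024 (V (T (S L L) (S L L)) (T (S L (F 1 (S L L))) (S L L)))) (T (F 1024 (V (S L L) (F 1 (S L L)))) (F 1024 (V (S L L) L)))))))) (F 8224 (T (F 8209 (S (T (F 4100 (V (U (S (S L L) (S L L)) (S (S L L) (S L L))) (S (F 1025 (S L L)) (F 1 (U (S L L) L)))))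 (F 4096 (V (F 2048 (S (V L L) (V L L))) (F 1025 (S (F 4 (S L L)) (T L L)))))) (U (F 4096 (V (F 2048 (T (S (S L L) (U (S L L) (S L L))) (S (S L L) (V L L)))) (F 1 (T (F 4 (U (K 0) (F 512 (S L L)))) (F 8 (S L (T L L))))))) (F 4 (V (F 4 (T (V (S L L) (S L L)) (S (S L L) (S L L)))) (F 2048 (T (F 1024 (S (S L L) L)) (F 4096 (T L L))))))))) (F 1 (S (F 65544 (V (F 6150 (T (S L L) L)) (T (F 2052 (V L (S L L))) (U L (F 4 (S L L)))))) (F 65536 (T (F 6148 (V (F 2052 (U (S L L) L)) (U (V L L) (S L L)))) (F 4096 (V (F 12300 (V L L)) (U (F 8 (S L L)) (S L L)))))))))))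
noncomputable def w2_5 : Tr := (S (F 2490384 (T (F 8290 (V (F 40 (S (V L (F 4096 (S L L))) (V (S L L) (F 4096 (T L L))))) (F 1 (S (F 2 (V (F 20 (S L L)) (T L L))) (F 512 (V (F 4 (U (T L L) (F 2 (S L L)))) (F 2048 (T (F 512 (S L L)) L)))))))) (V (F 32770 (S (F 2064 (V L (F 16386 (S L L)))) (F 6176 (T (F 512 (V L L)) (F 512 (S L L)))))) (F 270404 (S (F 8192 (T (F 512 (V L L)) (F 8192 (S L L)))) (F 1024 (T (F 2 (V L (F 1 (S L L)))) (F 8194 (S L L))))))))) (F 417792 (V (F 51204 (T (F 16 (V (S (T L (S L L)) (T (F 8192 (S L L)) (S L L))) (S (F 8192 (U (T (S L L) (S L L)) (S L L))) (F 8192 (T (S L L) (S L L)))))) (T (F 16 (V (S (S L L) (S L L)) (F 8192 (S (U L L) (S L L))))) (F 16 (S (V L (F 8196 (S L L))) (V (S L L) L)))))) (T (F 284676 (S (V (F 4 (U (T (S L L) (F 4 (S L L))) (F 4 (S L L)))) (F 2048 (T (F 1024 (U (S L L) L)) (F 4096 (S L (S L L)))))) (V (F 4 (T (S (T L L) (S L L)) (F 4 (S L L)))) (F 2048 (T (F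 1024 (S (T L L) (S L L))) (F 4096 (S L L))))))) (F 266248 (S (F 8 (T (F 1028 (V (F 4 (S L L)) (F 1 (S L L)))) (F 16384 (V L (S L L))))) (F 40 (T (F 4 (V (F 4 (S L L)) (F 1 (S L L)))) (F 8192 (V L (S L L)))))))))))
noncomputable def w2_6 : Tr := (F 16 (U (T (F 278848 (V (F 139268 (S (F 65 (T (F 8264 (V (S L L) L)) (F 4 (T L L)))) (F 36865 (V (F 4096 (T (F 16 (S L L)) (S L L))) (F 17412 (T (F 5 (S L L)) L)))))) (F 3686536 (S (V (T (F 16 (S L L)) L) (T (U L L) (F 16384 (S L L)))) (T (F 16 (V (T L L) (U L L))) (V (F 16 (S L L)) L)))))) (F 4194308 (V (F 327680 (T (F 559104 (S (F 266240 (S L L)) (F 264192 (S L L)))) (F 524288 (S L (F 1056800 (S L L)))))) (F 12615680 (S (F 525312 (T (F 32832 (S L L)) (V L L))) (F 16384 (T (F 16960 (U (S L L) L)) (F 2 (V (F 40 (S L L)) L))))))))) (F 65 (T (F 133128 (V (F 278656 (S (F 8192 (T (F 2056 (V L L)) (V L L))) (F 8192 (V (F 16392 (S L L)) (F 2049 (T L L)))))) (F 67 (S (F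 128 (V (F 17408 (S L L)) (T L L))) (F 192 (V (F 8192 (T L L)) (U (S L L) L))))))) (F 8 (V (F 1048640 (S (T (F 16896 (S L L)) (F 540674 (S L L))) (F 8224 (V (T L L) L)))) (F 131 (T (S (F 1030 (S L L)) (F 64 (S L L))) (F 6 (S (S L L) (S L L)))))))))))
noncomputable def w2_7 : Tr := (T (F 2150700673 (U (F 65536 (S (F 18383106 (T (F 577610 (V (S (V (K 7) (U (K 7) (F 1 (S L L)))) (V (U (K 7) (S L L)) (T (F 1 (U L L)) (F 1 (U (S L L) L))))) (F 1 (V (S (T (U L L) (S L L)) (T (U (S L L) (S L L)) (V (S L L) L))) (F 2050 (S (T L L) (T (S L L) (S L L)))))))) (F 540680 (V (F 34856 (S (V (K 5) (T L L)) (V (T (S L L) (S L L)) (T (F 4096 (V L L)) L)))) (F 16387 (S (V (F 4098 (S L L)) (T (F 16 (S L L)) (U L L))) (F 16 (V (F 2058 (S L L)) (T (F 8 (S L L)) (S L L)))))))))) (F 2195971 w2_4))) (F 100728848 w2_5))) (F 2417066629 (S (F 4098 (T (F 2097984 (U (V (F 65538 (V (F 80 (T (F 36 (S L L)) (F 2 (S L L)))) (F 131077 (S L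 L)))) (F 1835012 (S (F 1024 (T (F 8192 (U (S L L) L)) (V L L))) (F 1024 (T (V (F 8224 (S L L)) (U L L)) (S L (S L L))))))) (F 1048580 (V (F 131088 (S (F 2 (V L L)) (V L (F 65536 (S L L))))) (F 3 (S (F 16386 (T (F 8704 (S L L)) (S L L))) (T (F 16450 (S L L)) (F 2 (S L L))))))))) (F 6291968 (U (F 524288 (V (F 160 (S (F 2 (T L L)) (V L (F 393216 (S L L))))) (F 3 (S (F 33792 (U (K 13) (T (F 4 (S L L)) L))) (V (F 40960 (U (S (K 13) L) L)) (F 1024 (T L L))))))) (F 2129922 (V (F 64 (S (F 8192 (S L L)) (T L L))) (F 3 (S (F 16384 (V (F 8 (S L L)) (F 64 (T L L)))) (T (S L L) L))))))))) w2_6)))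
noncomputable def w2_8 : Tr := (V (F 0x90000220024a2804 (U (F 299492960512245760 (T (F 17869417153032 (S (K 16) (F 85899362306 (V (F 268435457 (U (K 13) (F 2415919112 (T (K 16) (F 17041290 (S (K 10) (F 1049088 (U (K 9) (F 1 (T (K 9) L)))))))))) (F 1073750018 (U (K 13) (F 1748500496 (S (K 11) (F 8193 (T (F 512 (U (K 10) (F 1 (T (F 16416 (S L L)) (F 524464 (V L L)))))) (F 1049232 (U (V (K 9) (F 8192 (T L L))) (F 1 (V (T L L) (F 16 (T (F 16 (S L L)) (F 4096 (S L L)))))))))))))))))) (F 4960754910356 (S (K 15) (F 1118210 (V (F 570428486 (U (K 11) (F 131088 (S (K 12) (F 8192 (T (F 2097408 (U (K 11) (F 7 (V (F 129 (S (K 8) L)) (T L L))))) (F 1048576 (U (K 6) (F 5 (V (F 1 (S L (K 4))) (F 64 (S L L)))))))))))) (F 4198408 (U (T (K 12) (F 128 (V (K 16) (K 8)))) (F 134479908 (T (F 1048595 (U (F 32896 (S (K 10) (V (S (K 10) (K 5)) L))) (F 32768 (T (F 36866 (S (K 7) (F 65536 (V L L)))) (F 32770 (V (S (K 8) L) L))))))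 (F 2097160 (V (F 2129928 (U (S (K 11) (F 4 (S (K 8) L))) (F 5 (T L L)))) (F 16 (T (F 262274 (S L L)) (F 32 (S L L)))))))))))))))) (F 520661923394519080 (T (F 25910389763 w2_1) (F 17448450323 w2_2))))) (F 0x1100a0800480800080 (U (F 22489548193936 (T (F 107453875409 w2_3) (F 5634998155668 (S (F 163747733506 (U (F 134234120 (V (K 10) (K 5))) (F 134217736 (T (F 269058048 (V (F 320 (S (K 10) (F 4211072 (T L (F 131074 (S L L)))))) (F 4259866 (V (F 16384 (S (K 14) (F 69633 (S (K 3) L)))) (K 4))))) (F 276856836 (V (F 1280 (V (F 131074 (S (K 12) L)) (K 4))) (K 20))))))) (F 2686451712 (V (F 33595409 (U (K 22) (F 268959792 (T (F 297089 (S (F 1052672 (V (F 81952 (S L L)) (F 8 (T L L)))) (F 1048592 (U (K 4) (F 2 (T (F 141316 (S L L)) L)))))) (F 4194336 (S (F 4211200 (V L (F 524289 (T L L)))) (F 8704 (V (F 524352 (S L L)) (F 33296 (S L L)))))))))) (F 1610678528 (U (K 5) (F 1409810440 (T (F 820225 (U (S (K 4) (F 1703936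 (V (K 1) (K 13)))) (F 1966080 (S (F 8 (V (S L L) (K 4))) (F 8 (V (F 2048 (S L L)) (T L L))))))) (F 21 (S (K 4) (F 192 (V (F 128 (U (K 4) (F 540672 (S L L)))) (K 16))))))))))))))) (F 0x1f77d47460002190 w2_7))))
noncomputable def w2_9 : Tr := (T (F 3758883718 (S (F 139328 (U (K 12) (F 262160 (V (K 8) (F 664064 (T (K 7) (F 33 (S (K 8) L)))))))) (F 131072 (T (F 2097168 (U (K 9) (F 36 (V (S (K 12) (S (K 12) L)) (F 2052 (S L L)))))) (F 1179648 (V (F 135168 (U (K 11) (S (F 256 (T (K 8) L)) (F 131072 (S L L))))) (F 526850 (U (S (K 10) (F 65792 (S L L))) (F 265 (S L L)))))))))) (F 3523281408 (S (F 135272456 (U (F 4168 (T (K 8) (F 87552 (V (F 32 (S (K 8) L)) (F 16389 (U (K 3) (F 4096 (S L L)))))))) (F 4202 (V (T (F 8192 (S (K 9) (S L L))) (F 262144 (S (F 171 (S L L)) (T L L)))) (F 414210 (T (S (F 16 (S L L)) (S L L)) (S (F 17 (V L L)) (T (S L L) (F 17 (S L L)))))))))) (F 8 (U (F 409616 (V (F 262144 (T (F 614 (S (K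 8) (S L L))) (F 34 (S (F 74242 (S L L)) (F 2 (U (F 128 (S L L)) L)))))) (F 4325378 (T (F 546 (S (F 196864 (T L L)) (T L L))) (F 657 (S (F 41216 (U (K 10) (F 1 (S L L)))) (U (F 32768 (S L L)) (F 98304 (S L L))))))))) (F 16534 (T (F 787456 (V (F 32 (S L (V L L))) (F 263235 (S (F 256 (S L L)) (S L L))))) (F 4718592 (V (F 1024 (S (F 147456 (S L L)) (F 131074 (S L L)))) (F 526417 (S (F 17152 (S L L)) (S (F 16640 (S L L)) L))))))))))))
noncomputable def w2_10 : Tr := (T (F 2101346 (U (F 2816 (V (F 3 (T (K 3) (V (K 3) (F 2048 (S L L))))) (F 16 (S (V (F 24576 (S L L)) (T (S L L) (F 4096 (S L L)))) (T (F 8192 (S (S L L) L)) (F 4096 (V L (S L L)))))))) (F 264192 (V (F 257 (S (F 256 (T (F 4 (S L L)) (F 4 (S L L)))) (T (F 256 (S L L)) (F 256 (S L L))))) (F 136 (S (F 256 (V (F 1 (T (S L L) (F 4096 (S L L)))) (F 2 (T (S L L) L)))) (F 256 (T (F 1 (S L L)) (F 2 (V L (S L L))))))))))) (F 2098240 (U (F 1536 (V (F 1 (S (F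 8448 (T (F 3 (V L L)) (F 23 (V L L)))) (F 65536 (U (K 13) (F 1 (V (F 256 (S L L)) (F 36864 (S L L)))))))) (F 66 (S (F 20736 (V (T (F 3 (S L L)) (F 32 (S L L))) (F 32 (S L L)))) (V (F 32768 (T L (F 3 (S L L)))) (F 20480 (T (S L L) L))))))) (F 1572864 (V (F 257 (S (F 82688 (T (F 2 (S L L)) (F 3 (U L L)))) (T (F 17152 (V L L)) (F 81920 (V L L))))) (F 538 (S (F 512 (T (F 32 (V L L)) (S L L))) (T (F 512 (V (F 1 (S L L)) (S L L))) (F 512 (V (F 1 (S L L)) (S L L)))))))))))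
noncomputable def w2_11 : Tr := (T (F 2961638850 (U (F 32 (S (F 2 (T (F 24576 (V (K 8) (F 49152 (S (F 8194 (T L L)) (F 24576 (T (S L L) L)))))) (F 24580 (S (F 192 (V (K 7) (T L (V L L)))) (F 64 (V (K 3) (V (F 16384 (S L L)) (F 2 (T L L))))))))) (T (F 262145 (U (K 3) (F 196610 (V (S L L) (F 12 (V (K 2) (S L L))))))) (F 131074 (V (F 196608 (T (F 16448 (S (K 2) L)) (K 12))) (F 12800 (S (T (F 8195 (S L L)) (S (F 8192 (S L L)) L)) (F 8195 (V (S L (K 2)) (S L L)))))))))) (F 1572900 (S (T (F 9 (S (F 4100 (T L (F 2048 (V L L)))) (F 2 (V (S L L) (F 4 (T L (S L L))))))) (F 152 (V (F 8192 (U (S L L) (S L L))) (S (V (F 8192 (T L L)) (F 2 (S L L))) (V (F 8192 (U L L)) (F 2 (S L L))))))) (F 1 (T (F 8194 (V (S (S L L) (S L L)) (F 4 (S (T (S L L) (S L L)) (T (S L L) (S L L)))))) (F 512 (V (S (F 8 (T L L)) (F 8192 (S L L))) (F 12 (S (V (S L L) (F 2 (S L L))) (F 2 (T (S L L) (S L L))))))))))))) (F 687868164 (S (F 3160072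 (T (F 557154 (U (F 512 (V (F 1 (S (F 256 (V (K 5) L)) (F 8192 (T L (F 16 (S L L)))))) (S (F 68 (U L (V L (S L L)))) (T (F 4 (V L (S L L))) (F 68 (V L L)))))) (F 512 (S (F 65 (V (F 4096 (T L L)) (F 2048 (S (F 512 (S L L)) (T L L))))) (F 1 (V (F 8192 (V (F 2 (S L L)) (U (S L L) L))) (F 4096 (V (F 1 (U L L)) (S L L))))))))) (F 554 (U (F 9248 (V (F 4098 (S L (F 2048 (S L L)))) (S (V (F 4096 (S L L)) L) (F 4096 (U (S L L) (V L L)))))) (F 73728 (S (F 18 (V (F 4130 (V (S L L) L)) (V (F 34 (S L L)) L))) (F 8720 (V (F 2048 (T L (F 1 (S L L)))) (T (S L L) L))))))))) (F 262210 w2_10))))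
noncomputable def w2_12 : Tr := (U (F 67176712 (T (F 294984 (U (F 1 (S (K 17) (T (F 1024 (U L L)) (V (U L (F 1024 (S L L))) (U (S L L) (F 1024 (S L L))))))) (F 2049 (S (F 64 (V (T (K 3) (S (K 3) L)) (F 131072 (S L L)))) (T (F 82 (V L L)) (V (F 64 (S L L)) (F 2 (S L L)))))))) (F 33587200 (S (F 1048576 (T (F 65568 (V (U (U (K 3) (S (K 3) L)) (S L (S L L))) (F 524288 (S L L)))) (U (S L L) (F 4 (S L L))))) (F 131136 (U (T (V (S (F 8 (T L L)) (V L (S L L))) (S L L)) (V (S (S L L) (T L L)) L)) (T (F 8 (V (S (S L L) (S L L)) (F 524288 (S L L)))) (V (S L (T L L)) L)))))))) (F 209723393 (T (F 8817730 (S (F 65536 (U (T (F 4 (S L L)) (S L L)) (F 4 (T L L)))) (F 16384 (U (T (S L L) (V L L)) (T (S L L) (F 2 (S L L))))))) (F 294912 (S (F 2097152 (T (F 1049634 (V (F 64 (S L L)) L)) (F 3 (U L (F 135168 (S L L)))))) (F 4228 (U (T (F 64 (S L (F 294912 (T L L)))) (U (T (F 2 (S L L)) L) L)) (F 86 (T (S L L) (F 65536 (S L L)))))))))))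
noncomputable def w2_13 : Tr := (T (F 93450001574789584 (S (F 72602135692292 (V (F 303168 (U (K 13) (F 31281119236 (T (K 16) (F 256901124 (V (K 6) (F 131584 (U (K 13) (F 1025 (S (K 6) L)))))))))) (F 279172874370 (U (K 11) (F 12092702728 (T (F 67174528 (S (K 9) (F 8388612 (T (K 14) L)))) (F 119554210 (S (F 524416 (S (K 11) L)) (V L L))))))))) (F 70678292201538 (V (F 336076804 (U (F 8452 (S (K 21) (F 1073741864 (T (K 14) (F 75632705 (U (F 262144 (S (K 5) L)) (T L L))))))) (F 5639241732 (T (F 65544 (S (F 38011010 (U (K 13) (F 5 (T L L)))) (F 42336257 (U (F 294912 (T L L)) (F 4 (V L L)))))) (F 271646728 (S (F 4194327 (U (F 2048 (S (K 3) L)) (T L L))) (F 2 (T (U L L) (F 6819840 (U L L)))))))))) (F 5377097872 (U (F 256 (T (F 1073879074 (U (K 18) (F 33554440 (S (K 16) (S L L))))) (F 4060879366 (S (F 131072 (U (K 14) (S L L))) (F 131345 (U L (S L L))))))) (F 6712983568 (T (F 69214464 (U (S (F 9437186 (S L L)) (T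 L L)) (F 1048580 (S (F 2359299 (S L L)) (T (F 256 (S L L)) (F 32 (S L L))))))) (F 239075648 (S (F 2097664 (U (F 133120 (S L L)) (F 9 (S L L)))) (F 8 (T (F 2048 (V L L)) (F 2109440 (S L L)))))))))))))) (F 258209383683727505 (S (F 103079256076 (V (F 67641360 (U (F 8324 (T (K 22) (F 268435468 (S (K 5) (F 1 (U (F 4196352 (T (K 3) L)) (F 2 (T L L)))))))) (F 813694980 (T (F 41474 (S (F 8683520 (S (K 13) (F 540676 (S (K 5) L)))) (F 1081410 (T (F 20 (S L L)) (F 524304 (S L L)))))) (F 2097219 (S (F 10240 (V (F 2097280 (T L L)) L)) (F 75777 (V (F 524292 (T (S L L) L)) (S L L))))))))) (F 8589934594 (U (K 3) (F 16156459008 (T (F 526722 (V (F 151552 (S L L)) (K 3))) (F 2 (S (K 3) (F 1147136 (V (F 4194336 (S L L)) (K 19))))))))))) (F 549755813902 (V (F 140258590728 w2_12) (F 68753031200 (T (F 9663742592 (U (F 83894272 (V (F 16812545 (U (S (K 20) (F 32784 (S (K 1) L))) (F 1040 (S L (F 65600 (S L L)))))) (K 2))) (F 4228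 (S (F 114294784 (T (F 1328 (S L L)) (F 272 (S L L)))) (F 12648457 (T (F 5248 (V L L)) (F 1153 (S L L)))))))) (F 25769804289 (U (F 83886080 (S (K 1) (F 4 (T (F 75776 (U (K 1) L)) (K 26))))) (F 4 (S (F 876625984 (V (F 526400 (S L L)) (F 16409 (S (K 1) L)))) (F 67125312 (T (F 16793642 (S L L)) L)))))))))))))
noncomputable def w2_14 : Tr := (S (F 4202536 (U (F 4915232 (T (F 29753600 (V (F 136 (S (T L L) (F 2 (V L L)))) (S (T (F 262144 (S L L)) L) (F 262144 (V L L))))) (F 4194304 (V (F 65568 (S (F 2097152 (V L (F 16 (S L L)))) (F 1114113 (T (F 524546 (S L L)) (F 2 (S L L)))))) (F 75 (S (F 4352 (T L (F 68 (U L L)))) (T L (F 262144 (S L L))))))))) (F 65550 (T (F 3148288 (V (F 272 (S (F 67584 (T L L)) (F 1048834 (S L L)))) (F 18437 (S (F 98304 (U (S L L) L)) (F 2 (S L L)))))) (F 83896576 (V (F 4 (S (F 459008 (T L L)) (F 131329 (S L L)))) (F 9 (S (F 327680 (V L (F 40 (S L L)))) (T (F 393472 (S L L)) (F 262144 (S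 L L))))))))))) (F 12884902914 (T (F 69993664 (U (F 1050628 (V (F 1048848 (S (T L L) (F 532 (S L L)))) (F 2048 (S (F 262144 (V L (F 3 (S L L)))) (F 1 (V L L)))))) (F 8390656 (V (F 2097424 (S L (F 1032 (S L L)))) (F 526341 (S (T L L) (F 1 (S L L)))))))) (F 336167944 (U (F 1 (V (F 344144 (S (T (F 512 (S L L)) L) (F 131588 (S L L)))) (F 1 (S (F 3145984 (T L (F 2 (S L L)))) (T L (F 3407872 (S L L))))))) (F 8388608 (V (F 4202536 (S (F 262208 (S L L)) (F 64 (S L L)))) (F 3 (S (T L L) (F 131073 (T L (F 2 (S L L)))))))))))))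
noncomputable def w2_15 : Tr := (T (F 3023694744603 (S (F 1073807876 (V (F 272 (T (F 2228256 (U (F 2048 (S (K 10) (F 130 (T L L)))) (F 1572864 (V (F 65536 (S L L)) (F 530 (S L L)))))) (F 65708 (S (F 16 (U (F 256 (S L L)) (S L L))) (F 524288 (U (F 128 (S L L)) L)))))) (F 122716160 (U (F 8192 (T (F 16 (S (F 128 (T L L)) (T L L))) (F 3076 (S (T L L) (S L L))))) (T (F 8192 (S (F 8224 (S L L)) (F 65 (T L L)))) (F 656384 (S L (F 65 (S L L))))))))) (F 4210690 (U (T (F 540706 (V (F 1114112 (S (F 2113552 (T (F 8 (S L L)) L)) (F 4194320 (T (F 136 (V L L)) (F 134 (S L L)))))) (F 172 (S (F 589824 (U (F 1024 (S L L)) (F 8192 (S L L)))) (F 288 (V (T L L) L)))))) (F 100681728 (V (F 540800 (S (F 1409026 (T L L)) (F 2162688 (T (F 270336 (S L L)) (F 81 (S L L)))))) (F 2097194 (S (F 131074 (T L L)) (F 65536 (V (F 33792 (S L L)) L))))))) (F 100663299 (T (F 524288 (V (F 196760 (S (F 1026 (S L L)) (T L L))) (F 1312768 (S (F 18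 (S L L)) (F 8224 (T L L)))))) (F 2129984 (V (F 128 (S (F 2082 (S L L)) (F 65601 (T L L)))) (F 1377282 (S (S L L) (S L L))))))))))) (F 8181912698883 w2_14))
noncomputable def w2_16 : Tr := (S (F 268437574 (T (F 33794 (V (F 1081346 (S (F 2049 (U (F 256 (T L L)) (F 24576 (S L L)))) (U (S L L) (F 17 (S L L))))) (F 2098176 (U (F 1 (U (K 3) (F 49154 (S (F 256 (T L L)) (T L L))))) (F 262193 (S (F 8320 (V (S L L) (F 4 (S L L)))) (T (F 128 (S L L)) (F 512 (S L L))))))))) (F 8401921 (V (F 262400 (U (S (F 33 (T L L)) (T (F 32 (S L L)) (F 33 (S L L)))) (F 33 (S (F 8192 (T (S L L) (S L L))) (V L (S L L)))))) (F 524288 (S (F 1136 (U (F 128 (U (K 11) (F 1 (V L (F 1024 (S L L)))))) (F 18432 (T L (S L L))))) (U (F 1089 (U (K 2) (F 2048 (T L (F 8 (S L L)))))) (F 49 (T (F 256 (S L L)) (F 4096 (V L L))))))))))) (U (F 67110912 (T (F 67141634 (V (F 262144 (S (F 4456449 (T (F 90114 (S L L)) (F 1057794 (S L L)))) (F 131105 (V L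 (F 1064962 (S L L)))))) (F 25202690 (S (F 32776 (U (K 3) (F 2 (T L L)))) (F 264 (T (V L L) (F 18 (S L L)))))))) (F 117452807 (V (F 512 (S (F 32896 (V L (S L L))) (V L (F 128 (S L L))))) (F 4096 (S (F 32768 (U (K 2) (T (F 16640 (S L L)) (F 12288 (S L L))))) (T (U (K 16) (F 32776 (S L L))) (F 32768 (V (S L L) L))))))))) (F 872415240 (T (F 16810032 (V (F 1024 (S (F 589825 (S L L)) (F 1 (T (F 32800 (S L L)) L)))) (F 2129922 (S (F 32768 (T (F 256 (S L L)) L)) (F 64 (V L (F 2048 (T L L)))))))) (F 26215457 (V (F 128 (S (F 1280 (V L (F 1024 (S L L)))) (T L (F 256 (S L L))))) (F 10240 (S (F 1032 (V (S L L) (F 4096 (S L L)))) (F 1032 (V (S L L) (T L L)))))))))))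
noncomputable def w2_17 : Tr := (T (F 74 (V (F 2097152 (U (F 1281 (U (K 3) (S (F 8448 (T L L)) (F 258 (S L L))))) (F 257 (S (F 66816 (T (F 16384 (S L L)) (F 8 (S L L)))) (F 2 (V L (F 16 (S L L)))))))) (F 1081344 (S (F 16 (U (F 4352 (T (F 33153 (S L L)) (F 392 (S L (F 8194 (S L L)))))) (F 299008 (T (F 16512 (V L L)) (F 1 (S (F 1536 (S L L)) (S L L))))))) (F 262273 (U (T (F 128 (V (F 128 (S L L)) (F 8 (S L L)))) (V (F 640 (S L L)) (F 24576 (U L L)))) (F 8192 (T (S L L) (F 4 (V L (F 16384 (S L L)))))))))))) (F 4612 (U (V (F 2621440 (S (F 512 (U (K 3) (F 278528 (T (F 4 (S L L)) (F 1 (V L (S L L))))))) (U (K 16) (F 1 (T (F 66560 (S L L)) (F 263168 (S L L))))))) (F 1081344 (S (F 32 (U (F 65536 (T (F 392 (S L L)) (F 384 (S L L)))) (F 327680 (T (F 4 (S L L)) (F 128 (V L L)))))) (F 1 (T (F 278528 (U (F 1 (S L L)) (F 5 (S L L)))) (F 409600 (V (S L L) (S L L)))))))) (F 3145728 (V (F 1 (S (F 32768 (T (F 132 (V L (F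 32768 (S L L)))) (F 129 (V (F 32768 (S L L)) L)))) (T (F 65536 (S L L)) (F 294912 (V L (S L L)))))) (F 50 (S (T (F 81920 (S (F 32 (S L L)) (T L L))) (V (F 65536 (S L L)) (F 512 (S L L)))) (F 65536 (T (F 2 (V (S L L) (S L L))) (U (V (S L L) (S L L)) (S L L)))))))))))
noncomputable def w2_18 : Tr := (T (F 24 (U (F 2099200 (V (S (F 4224 (V L (T L L))) (F 4096 (T (F 2048 (S L L)) (F 2048 (S L L))))) (F 160 (S (T (F 128 (V (S L L) (F 8 (S L L)))) (F 8192 (V (S L L) (F 8 (S L L))))) (T (F 128 (V (S L L) (F 8 (S L L)))) (V (S L L) (F 16384 (S L L)))))))) (F 2164736 (V (S (F 64 (T (F 128 (S L L)) (S L L))) (T (F 2048 (S L L)) L)) (F 80 (S (T (F 8192 (V L (S L L))) (V (S L L) (F 73728 (S L L)))) (T (S (F 8192 (S L L)) L) (V L (F 73728 (S L L)))))))))) (F 4225 (S (F 282624 (V (U (T (S L L) (V L L)) (T (F 4 (S L L)) (F 1 (S L L)))) (U (V (T (S L L) (F 1 (S L L))) (F 25 (T (S L L) (S L L)))) (F 1 (T (F 32768 (S (F 6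 (S L L)) (F 4 (S L L)))) (F 24576 (S (T L L) (F 16384 (S L L))))))))) (F 4097 (V (T (F 4 (U (S L L) L)) (F 68 (U (S L L) (S L L)))) (F 64 (U (F 32768 (T (V (S L L) (F 17 (S L L))) (F 1 (V (S L L) (F 12288 (S L L)))))) (F 163840 (T (F 2 (V L (F 4096 (S L L)))) (V (S L L) (F 12 (S L L))))))))))))
noncomputable def w2_19 : Tr := (S (F 0x81fe0300430400180410a8104c (V (F 0xa88080808200006520a (U (F 848857336652104 (T (K 40) (F 1829691568986642 (S (K 10) (F 35979790336 (V (F 66560 (U (K 10) (F 3238133784 (T (K 17) (F 16777345 (S (K 7) (F 4096 (T (K 14) L)))))))) (F 5369233553 (T (K 4) (K 4))))))))) (F 0x7d3ff419f0000348 w2_9))) (F 0x11110042444410280041 (U (F 0x608c91008000608a (T (F 70398901494433 (S (F 25844645912 (U (K 19) (F 12582972 (V (K 4) (F 532484 (T (K 13) (S (F 258 (S L L)) (K 13)))))))) (K 8))) (F 123150805508640 (S (F 380241393684 (U (V (K 16) (K 15)) (F 11289 (V (F 65540 (T (K 13) (F 20 (S L (K 3)))))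 (F 133120 (T (F 16384 (U (K 8) (F 24576 (S L L)))) (F 16404 (S (K 4) (K 8))))))))) (F 345342742548 (V (K 25) (F 16419 (U (K 11) (F 12673024 (T (F 2146 (V (K 4) (F 20480 (T (K 10) (K 4))))) (K 9))))))))))) (F 0x7edffe10780001d8 w2_11))))) (F 0x2110230ff0004e58001208c1d0 (V (F 0x10800000840a0a0008 (U (F 596753338906705920 w2_13) (F 0x1f9e9d84200000580 w2_15))) (F 0x1004a08000091001040 (U (F 0x1081c20020100100 (T (F 3518437284708756 (S (F 8877699842054 (V (F 1073741864 (U (K 5) (F 1412431876 (T (F 16384 (U (K 4) (F 8388612 (T (F 644 (S (K 3) L)) (K 18))))) (K 20))))) (K 27))) (F 214748381254 (V (F 8606711808 (U (K 4) (F 21749563396 (T (F 36 (S (F 100712448 (V (F 131200 (S L L)) (K 19))) (F 32800 (T (F 768 (V L L)) (F 16401 (V L (K 3))))))) (F 16908321 (S (K 3) (F 8389632 (V (F 2359296 (S L L)) (K 19))))))))) (K 31))))) (F 14957769069297683 (S (F 5981815767044 (V (K 28) (F 132137 (U (K 5) (F 268435460 (T (F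 16778436 (S (K 3) (K 3))) (F 1044 (S (F 166912 (V (K 15) (K 8))) (F 262148 (V (K 18) (F 162 (T L L)))))))))))) (F 2216211513350 (V (F 68719482896 (U (K 3) (F 10485760002 (S (K 25) (U (K 25) (F 2069 (V (T L L) (K 2)))))))) (F 10487595 (U (K 4) (F 150994946 (T (F 16778442 (S (K 2) (K 2))) (F 16777296 (S (F 4210688 (V (K 18) (F 64 (S L L)))) (F 2113537 (U (F 4 (S (K 1) (K 1))) (F 7 (T (S L L) L)))))))))))))))) (F 0xfce1f204a00005d0 (T (F 171832258747 w2_16) (F 927750684759 (S (F 138706960 w2_17) (F 973078546 w2_18))))))))))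
noncomputable def treeW2 : Tr := (F 0xfffffffffffffffffffffffffffffffffffffffffffffffffffffffffffffffffffffffffffffffffffffffffffffffffffffffffff9a4dffd2affdfffffffffe3861ffffff9847fffdfffffffe49ffa27fffe93ffffffffffffffffffffffffffffffffffffffffffffffffffffffffffffffffffffcffff3e49fc787ffffd933fff9fff9ffffffffffffffffffffffffffffffffffffffffffffffffffffffffffffffff33fd93f27ffffe67f31bfffc3e3fffef1c3ff91e6373ffff27e9fc3bfffffffffffffffffffffffffffffffffffffffffffffffffffffffffff77fffffc31fff199 (T (F 0x2e23f0cf094849c0003ff060601cd2b783e3e1f3 (S (F 0x1274308e080800430002204 (V (F 0x41000001141125380 (U (K 20) (F 70337328773661276 (T (K 17) (F 35041 (V (K 14) (F 1352 (U (K 11) (S (K 11) (F 787456 (U (K 8) (F 262160 (S (K 9) (T L L)))))))))))))) (F 0x920a8210222002012 (U (F 2257400453267458 (T (F 7146932469797 (U (K 12) (F 1310195714 (V (K 14) (F 65544 (V (K 10) (F 5767168 (T (F 65546 (S (K 0) L)) (K 15)))))))))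 (F 2783212241120 (S (F 85926625298 (T (K 18) (K 23))) (F 91285880850 (V (K 18) (K 23))))))) (F 34898629929996646 w2_0))))) (F 0x48051f8000340208000238 w2_8))) (F 0x8780fe0b8081dc187a6340600004f80e03c783 w2_19)))

theorem pW2 : chkW par treeW2 192 64 128 128 128 128 163840 327680 Lc = true := by decide +kernel

noncomputable def w3_0 : Tr := (T (F 212373600 (S (V (F 1638400 (U (F 528 (V (T (F 2 (S L L)) L) (K 6))) (F 73732 (T (F 6144 (S L L)) (F 320 (T L L)))))) (K 6)) (F 1048832 (T (F 1 (U (F 16 (V (F 36 (S (U (T L L) (F 4096 (S L L))) (F 4112 (U (V (S L L) (S (K 8) L)) (T L (S L L)))))) (K 11))) (F 49168 (V (F 8 (S (F 2 (S L L)) (T L (F 2 (S L L))))) (V (F 8 (T (S L L) L)) L))))) (F 16408 (V (F 2048 (U (F 1 (S (F 256 (T (S L L) L)) (T (V (U L L) L) (V L L)))) (F 1 (S (F 2 (T L L)) (V (F 2 (S L L)) (T L L)))))) (F 4096 (U (K 9) (T (F 1 (S L L)) L))))))))) (F 12652784 (S (F 141610 (V (F 10240 (T (U (V L (K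 3)) (F 4096 (S L (F 1 (S L L))))) (U (T (V L L) (S (S L L) (S L L))) (F 4096 (S (S L L) (T L L)))))) (U (K 9) (F 8192 (U (K 4) (F 8192 (T L L))))))) (F 10304 (T (F 2048 (V (F 196612 (U (S (F 5124 (V L (S L L))) (T (F 4096 (T L L)) (F 4 (V L L)))) (F 8192 (S (F 2058 (T L L)) (T (F 2 (S L L)) L))))) (F 8192 (U (V (F 16384 (S (K 6) (U (K 6) L))) (K 9)) (F 49153 (T (F 2 (S L L)) (F 8 (S L L)))))))) (F 8208 (U (F 64 (V (F 8192 (S (F 2 (T (V L L) (V L L))) (T (F 24576 (V L L)) (F 2 (V L (S L L)))))) (S (K 9) (V (F 8192 (T L (F 258 (S L L)))) (K 9))))) (F 65542 (V (S (F 512 (V (F 4096 (S L L)) (S L L))) (F 512 (V (F 4096 (S L L)) (S L L)))) (F 512 (S (S L L) (T L L))))))))))))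
noncomputable def w3_1 : Tr := (V (F 268698464 (U (T (K 20) (K 5)) (F 132169736 (T (F 16468 (V (T (K 13) (V (K 13) (U (K 13) (S L (F 2048 (S L L)))))) (U (T (K 13) (S (K 3) (S (K 3) L))) (T (F 2048 (S (S L L) (S (S L L) (S L L)))) (S (V L (S L L)) (S (V L L) (S L L))))))) (F 4 (U (V (T (K 16) (K 4)) (K 4)) (S (T (F 8200 (V (F 16 (S L L)) (S L L))) (K 4)) (T (F 10248 (V (S L L) (S L L))) (V (F 10240 (S L L)) (V L L)))))))))) (F 536871050 (U (F 12582920 (S (K 19) (F 2064 (T (F 3151880 (V (K 15) (K 13))) (F 1048576 (S (K 18) (K 18))))))) (F 394297352 (T (F 2 (U (F 4104 (V (F 321 (S (T (F 2048 (S (K 9) L)) (K 3)) (T (F 2048 (V L L)) L))) (S (K 13) (F 256 (T L L))))) (F 1064960 (T (F 32960 (S (F 6144 (V (F 4 (S L L)) L)) (V (F 10240 (S L (T L L))) (S L L)))) (V (F 68 (S (F 8200 (S L L)) (F 10248 (S L L)))) (S L L)))))) (F 129 (U (F 524288 (V (F 4 (U (K 4) (T (F 4096 (S (K 12) L)) (F 512 (S (K 12) (K 12))))))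 (F 512 (S (K 6) L)))) (F 589824 (S (F 65536 (V (T (F 2048 (S L L)) L) (F 256 (S (K 10) L)))) (V (T (F 32 (S L L)) L) (S L L)))))))))))
noncomputable def w3_2 : Tr := (T (F 180498417584768 (S (F 110696071186 (U (F 2097152 (V (K 4) (K 6))) (F 33554456 (V (F 23105536 (T (F 147497 (S (F 4096 (U (K 11) (F 4 (V (F 512 (S L L)) (T L L))))) (F 6656 (U (T (K 0) (K 9)) (V (T (S L (K 0)) L) (T (S L L) L)))))) (F 9 (V (K 3) (U (K 3) (F 8192 (T (F 2056 (S (K 3) (K 3))) (K 13)))))))) (F 8388608 (S (K 17) (F 262660 (U (K 5) (F 524288 (V (F 65 (T (F 26628 (T L L)) (F 33024 (T L L)))) (K 14))))))))))) (F 1409286400 w3_1))) (F 11132828149314 (S (F 100940211206 (U (F 4 (V (K 5) (K 8))) (F 8389133 (T (V (F 786436 (S (K 13) (K 13))) (F 8192 (S (K 11) (V (F 65536 (U (K 3) (F 196608 (S L L)))) (K 11))))) (V (F 4 (U (K 15) (F 2 (S (F 4096 (T (K 13) (K 13))) (K 3))))) (F 8192 (T (S (K 11) (F 256 (U (V (K 4) (K 7)) (V L L)))) (F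 8448 (S (F 4096 (V (U (K 9) L) (K 9))) (U (V L (K 6)) (V L L))))))))))) (F 17727226880 (V (F 1342439552 (U (K 5) (F 213909512 (T (F 73734 (U (K 4) (F 262144 (S (K 13) (T (S (K 13) (F 32 (V L (K 4)))) (K 13)))))) (F 2099204 (S (K 3) (F 524320 (T (K 14) (K 14))))))))) (F 536936528 (U (F 2048 (T (F 50626564 (U (K 4) (F 1048576 (V (K 16) (F 2304 (T (K 13) (K 13))))))) (F 33596422 (V (K 5) (K 15))))) (F 234881028 (T (F 4206592 (S (F 1048576 (T (F 139331 (U L (S L L))) (F 576 (U (F 64 (S L L)) (F 4 (V L L)))))) (F 1835076 (U (T L L) (T (S L L) (F 144 (S L L))))))) (F 1152 (U (F 1024 (S (F 525313 (T (S L L) (F 32 (V L L)))) (T (F 533504 (V (K 4) L)) (F 540672 (V L L))))) (F 2097152 (S (F 525312 (V (F 516 (T (F 3 (S L L)) (F 4096 (S L L)))) (T L L))) (T (F 533505 (V L L)) (F 17408 (V L L))))))))))))))))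
noncomputable def w3_3 : Tr := (T (F 147505 (V (F 5120 (U (S (V (U (T (F 8 (S L L)) (S L L)) (F 8 (T L L))) (U (T (S L L) L) (T L L))) (V (T (F 8 (V L (S L L))) (U (F 8 (S L L)) (F 8 (S L L)))) (U (T (F 8 (S L L)) (U L L)) (F 8 (T L L))))) (S (V (F 2056 (S L L)) (T L L)) (F 8 (V (T (F 2 (S L L)) L) (T (S L L) L)))))) (U (V (F 1024 (T (F 20 (S L (U L L))) (F 4 (S L (S L L))))) (S (K 4) (S L L))) (S (F 4096 (V (F 8 (S L L)) L)) (F 4096 (V (F 8 (S L L)) L)))))) (F 8 (V (F 278528 (S (F 16404 (U (V (T (F 16 (U (S L L) L)) (S L L)) (T (F 16 (S L L)) L)) (T (V L (S L L)) (V L L)))) (F 16 (U (F 32 (V (F 4096 (U (T (F 2048 (S L L)) L) (F 2048 (T L L)))) (T (F 4100 (U L L)) (S L L)))) (F 8192 (T (F 4608 (V L L)) (S L L))))))) (U (T (F 311300 (S (F 4 (S L L)) (F 1024 (S L L)))) (S (F 57860 (S L L)) (F 262144 (U L (F 12 (S L L)))))) (F 311296 (S (F 8192 (T L L)) (T (F 9216 (S L L)) (S L L))))))))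
noncomputable def w3_4 : Tr := (T (F 8 (V (F 84 (S (F 4096 (V (F 8 (T (S (V L (S L L)) (V (F 2048 (S L L)) (S L L))) (U (S (S L L) (S L L)) (S L (S L L))))) (T (F 8 (U (V (S L L) (S L L)) (S L L))) (U (F 8 (S L L)) (F 8 (S L L)))))) (F 1024 (U (V (F 4 (T (S (S L L) (V (F 2048 (S L L)) (S L L))) (V (S L L) (S L L)))) (T (F 4 (V (S L (S L L)) (S L L))) (V (F 4 (S L L)) L))) (F 4 (V (T (S (T L L) (T L L)) (S (S L L) (S L L))) (T (S (S L L) L) (S L L)))))))) (V (F 208 (S (F 4096 (U (T (F 4 (S L L)) (S L L)) (F 4 (T L L)))) (F 4096 (U (T (F 4 (S L L)) (S L L)) (T (F 4 (S L L)) L))))) (S (F 16 (T (F 10240 (U L L)) (F 16384 (S L L)))) (F 192 (U (T (F 2048 (S L L)) L) (F 10240 (T L L)))))))) (F 65536 (V (F 32 (S (F 8192 (T (U (V (F 4112 (S L L)) (S L (S L L))) (F 4096 (V (F 4096 (S L L)) (S L L)))) (V (U (S L L) (S L L)) (F 16384 (S L L))))) (V (F 10240 (T (U (F 2048 (V (S L L) (S L L))) (F 2048 (S L L))) (U (S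 L L) L))) (T (F 8192 (U (F 16 (T L L)) (F 4096 (S L L)))) (U (S L L) L))))) (U (V (S (F 65536 (T L L)) (T (F 32 (S L L)) L)) (S (F 65536 (S L L)) (S L L))) (S (T (F 8 (S L L)) (F 65544 (S L L))) (V (T L L) (S L L)))))))
noncomputable def w3_5 : Tr := (T (F 36864 (V (F 1048580 (U (F 1 (S (F 16384 (V (T L (F 128 (S L L))) (F 136 (T L L)))) (T (V (F 20480 (S L L)) (F 512 (S L L))) (F 512 (V (S L L) (S L L)))))) (F 17 (V (S (F 16384 (T L L)) (T L L)) (S (F 16896 (T L L)) (T L L)))))) (F 17408 (U (S (F 65568 (T (F 69632 (V L L)) (F 4096 (V L L)))) (F 65536 (V (F 196608 (U (S L L) L)) (T L L)))) (F 65569 (S (F 4096 (T L L)) (T L (S L L)))))))) (F 1024 (V (F 1049604 (S (F 48 (U (F 64 (T (F 1 (V L (U L L))) (F 2048 (S L (F 16384 (S L L)))))) (F 73730 (V (S L L) (F 1280 (S L L)))))) (F 1 (U (F 64 (T (V L (F 16 (U L L))) (F 16 (U (S L L) (F 4112 (S L L)))))) (F 16386 (T (F 1024 (S L L)) (F 4104 (S L L)))))))) (F 32896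 (U (S (F 17456 (V (F 4 (T L (F 8256 (S L L)))) (F 514 (T L L)))) (F 256 (V (F 516 (T (F 1 (S L L)) (U (S L L) L))) (T (F 512 (T L L)) (F 81922 (S L L)))))) (F 393249 (S (F 4104 (V L L)) (T (S L L) (F 4104 (S L L))))))))))
noncomputable def w3_6 : Tr := (T (F 18948097 (U (V (F 1049088 (S (F 131072 (T (F 32 (V (F 40 (U L L)) (S L L))) (V (S L L) (F 512 (S L L))))) (F 4096 (V (T (F 20480 (U L L)) (U L L)) (T (U L L) (F 2 (U L L))))))) (F 2 (S (F 2560 (T (F 131072 (V L L)) (F 4096 (U (S L L) (F 1 (S L L)))))) (F 16385 (V (F 128 (U (F 256 (S L L)) (S L L))) (F 9728 (U L L))))))) (F 1114112 (V (F 512 (S (F 2 (T (V L (S L L)) (V L L))) (F 64 (T (V L L) (T L L))))) (F 131072 (T (S (F 256 (S L L)) (F 32 (S L L))) (V (S L L) L))))))) (F 8388608 (U (V (F 25165834 (S (F 19712 (V (T L (S L L)) (T (S L L) (F 4608 (S L L))))) (F 16384 (T (F 800 (V (S L L) (F 384 (S L L)))) (F 2048 (V (F 512 (S L L)) (F 144 (U L L))))))))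 (F 311552 (S (F 525312 (V (F 393220 (T L (U L L))) (U (T L L) (F 262150 (S L L))))) (F 1 (T (F 525320 (U (F 32768 (S L L)) (S L L))) (V (F 524298 (U L L)) (F 68 (S L L)))))))) (F 16777224 (V (F 2097153 (S (F 131072 (T (F 9728 (V L L)) (F 262272 (S L L)))) (F 131136 (T (V L L) (F 131264 (S L L)))))) (F 1081888 (S (F 16386 (U (F 576 (S L L)) (F 64 (S L L)))) (F 18432 (V L (U L L))))))))))
noncomputable def w3_7 : Tr := (S (F 98308 (T (F 525314 (U (V (F 1049669 (U (K 12) (F 48 (S (K 7) L)))) (K 11)) (F 17563656 (V (F 1345536 (V L (S L L))) (F 2 (S L (F 128 (S L L)))))))) (F 17302720 (U (F 524800 (V (F 1048578 (T (F 4114 (S (K 9) (S L L))) (F 4162 (U (F 4096 (S (K 5) L)) (S L L))))) (F 8192 (T (K 8) (V (F 262145 (S (K 10) L)) (K 8)))))) (F 6291588 (V (F 264192 (S (T L L) (F 8 (T L L)))) (F 2 (V (F 128 (S L L)) (T L L))))))))) (F 537919488 (U (F 268509184 (T (F 8448 (V (F 2228240 (S (F 2 (V (F 257 (T L L)) (F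 262148 (S L L)))) (F 1048576 (V (F 4224 (V L L)) (F 131074 (T L L)))))) (F 1048580 (T (F 2228224 (S L (F 18432 (S L L)))) (F 196736 (S (F 1 (V L L)) (F 1 (V L L)))))))) (F 8388872 (V (F 131072 (T (F 1028 (S (F 262400 (V L L)) (F 16385 (V L L)))) (F 68 (S (F 264496 (V L L)) (F 1 (V (F 67584 (S L L)) (F 49152 (T L L)))))))) (F 32816 (S (F 1024 (V (U (T L L) L) (T L L))) (F 524288 (V (F 8192 (U (F 512 (T L L)) (T L L))) (F 262912 (T L L)))))))))) (F 1 (T (F 4293136 (V (F 4788224 (T (F 32772 (S L L)) (S L L))) (F 18 (V (F 1097 (S L L)) (S L L))))) (F 4195345 (V (F 2443264 (S (F 16640 (S L (T L L))) (U (F 131072 (T L L)) (F 4 (S L L))))) (F 18 (S (F 12416 (T L (F 65536 (S L L)))) (F 4608 (T L (F 135168 (S L L)))))))))))))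
noncomputable def w3_8 : Tr := (U (F 342274005505703936 (T (F 279173927466 (S (K 14) (F 412333646337 (V (F 17184064560 (U (K 10) (F 1409286148 (S (K 17) (F 262146 (T (F 8388632 (U (K 15) (F 262145 (T (S L L) L)))) (F 18032658 (V L L)))))))) (F 8591278080 (U (K 10) (F 2818572288 (T (K 18) (F 8914985 (U (K 8) (F 6422528 (T (K 11) L)))))))))))) (F 74836211934400 (S (K 12) (F 5435817985 (V (F 41943042 (U (K 20) (F 427819008 (T (F 8224 (U (F 256 (S (K 13) (K 4))) (F 4194304 (S (F 1572864 (V L (K 7))) (F 8192 (V L (F 262144 (S L L)))))))) (F 2236424 (V (F 67588 (S (F 65537 (U (K 5) (S L L))) (U (T (K 3) L) (F 1 (T L (S L L)))))) (T (S (K 7) (F 1050624 (U (K 2) L))) (F 1083392 (U (S (K 10) L) (F 16 (S L L))))))))))) (F 262405 (U (K 11) (F 134217736 (S (K 15) (F 147460 (T (F 4194720 (U (K 12) (F 2 (V L L)))) (F 4227200 (U (F 524320 (T (K 7) (K 12))) (F 34 (T (T L L) (F 1 (T L L)))))))))))))))))) (F 1147978543246876672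 (T (F 4569696261 (U (F 1048576 (V (F 2290614306 (T (F 33556754 (S (K 14) (F 131073 (V (F 512 (U (S L L) (F 16 (S L L)))) (F 8192 (S L L)))))) (S (F 35923974 (U (K 11) (F 24 (S (K 7) L)))) (F 35913990 (S (F 2560 (V L L)) (F 128 (V L L))))))) (F 512 (S (K 13) (F 1611143424 (T (F 6422528 (U L L)) (F 2098192 (T (F 1048577 (S L L)) (F 1048593 (V L L)))))))))) (F 6443499520 (S (F 201326688 (T (F 1049204 (V (F 542728 (S L L)) (S (K 13) L))) (F 3145744 (V (F 5382152 (T L L)) (F 524608 (S (K 9) L)))))) (F 2097216 (V (F 16779345 (T (F 2396169 (V (T L L) (S L L))) (F 32776 (T (F 1048578 (S L L)) (F 73732 (S L L)))))) (F 2359296 (T (F 2916400 (S L L)) (F 5800464 (S L L)))))))))) (F 73014745353 w3_7))))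
noncomputable def w3_9 : Tr := (S (F 0xd0703820820a020600200c0c (V (F 0x281540480008404a0a8 (U (F 162158380089700612 (T (F 274878629984 (U (K 10) (F 3456106538 (V (F 8389249 (S (K 0) (F 1314816 (V (F 16 (T (F 196644 (T L (K 11))) (K 3))) (K 12))))) (K 18))))) (F 68787669454 (S (F 2686978 (U (K 16) (F 18874653 (V (F 16388 (T (K 10) (F 4112 (U (K 5) (F 6 (S (K 9) L)))))) (K 7))))) (F 202637314 (V (F 8388608 (U (K 5) (F 10485772 (T (F 16 (V (K 3) (K 6))) (F 192 (U (K 3) (F 12288 (V (K 12) (S (K 9) (T (K 12) L)))))))))) (K 15))))))) (F 285976598539141550 w3_0))) (F 0x24a0480020006b0914 (U (K 18) (F 284835956257735052 (T (K 21) (F 821184 (U (K 13) (F 8 (V (F 10485762 (S (K 10) (F 516 (U (K 12) (F 1 (T L (F 270368 (S (K 9) L)))))))) (K 13))))))))))) (F 0x1180687e0004820183026c70 (V (F 0x100284800292040524 (U (F 35485028188416 w3_2) (F 34268504672702888 (T (F 19407057935 (S (F 8398850 w3_3) (F 4196416 (U (F 513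 w3_4) (F 545 (T (F 32776 (V (F 52 (S (V (U (T (F 4 (S L L)) (S L L)) (F 4 (S L L))) (T (S L (S L L)) (S L L))) (V (T (F 4 (U (S L L) L)) (S L L)) (T (S L L) (S L L))))) (S (F 4 (T (F 3072 (V (S L L) L)) (S L L))) (F 32 (V (F 5120 (U (S L L) L)) (S L L)))))) (F 32768 (V (S (F 16 (T (F 8200 (V (F 8 (S L L)) L)) (V L L))) (F 16 (T (F 2056 (V (F 4 (S L L)) (S L L))) (V (S L L) L)))) (V (S (T (F 8196 (S L L)) L) (T L L)) (T (S L L) L)))))))))) (F 144667 (S (F 69638 w3_5) (F 65536 w3_6))))))) (F 0x48080000042a8800 w3_8))))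
noncomputable def w3_10 : Tr := (T (F 8821918413139 (S (F 127963148 (V (F 69730318 (U (F 16388 (T (K 13) (F 265248 (S (K 5) (K 7))))) (F 1851398 (U (V (F 16 (T L L)) (K 10)) (T (F 16 (V (F 2 (S L L)) (K 5))) (F 132 (S L (F 1024 (V L (F 32 (S L L))))))))))) (K 17))) (F 38721815846 (U (F 2360064 (V (F 12623874 (T (K 15) (K 9))) (K 7))) (F 134228766 (V (F 512 (T (F 4112 (S (F 4098 (V (K 11) (F 64 (V (F 2 (S (K 8) L)) (K 5))))) (V (K 4) (F 512 (U (S L (K 11)) (F 16400 (T L (S L L)))))))) (F 131344 (S (F 2080 (U (T (K 5) (K 5)) (V (F 4096 (S L L)) (F 4 (T L (S L L)))))) (V (T (K 3) (F 10240 (S L L))) (F 10272 (U (K 4) (T (S L L) (S L L))))))))) (F 165954 (T (K 9) (F 8 (S (K 5) (V (F 128 (U (T (K 7) (K 4)) (T (S (K 7) L) (S L L)))) (K 5)))))))))))) (F 211115913019776 (S (F 4675266002944 (U (F 1048592 (V (K 10) (K 11))) (F 20913 (V (F 8650920 (T (F 10240 (U (S (K 6) (F 69638 (S L L))) (F 98304 (S L (F 16408 (S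 L L)))))) (K 12))) (F 2116 (T (F 131136 (S (K 8) (F 4 (V (F 40962 (S (K 5) L)) (K 11))))) (F 262144 (S (S (K 7) (K 7)) (F 4 (U (K 13) (F 72 (S (K 6) L)))))))))))) (F 107418223112 (U (F 4210704 (V (K 14) (F 34742784 (T (F 55607873 (U (K 5) (F 264192 (S (K 11) L)))) (F 33280 (S (K 8) (F 16785414 (V (K 11) (K 14))))))))) (F 213393 (T (F 144445458 (V (F 33318 (U (K 10) (V (K 10) (S (F 578 (S L L)) (F 66 (S L (K 4))))))) (F 266240 (U (V (F 69896 (U L L)) (F 512 (S (K 10) L))) (F 65536 (V (F 8210 (T (F 128 (S L L)) L)) (S (K 10) L))))))) (F 8929280 (V (F 9701445 (S (F 512 (U (K 7) L)) (K 10))) (F 32768 (S (F 8394788 (U (K 12) L)) (F 6 (V (F 655429 (S L L)) (F 262144 (S L L)))))))))))))))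
noncomputable def w3_11 : Tr := (U (F 49152 (T (F 16392 (V (F 256 (S (F 34 (T (V L (S L L)) (V (S L L) (F 64 (S L L))))) (F 2 (T (F 1024 (V L (S L L))) (V (S L L) (F 1088 (U L L))))))) (F 2112 (S (F 128 (U (K 8) (T (S (K 8) L) L))) (T (F 128 (V (V L L) L)) (F 4224 (V (S L L) L))))))) (V (F 16904 (S (V (F 16384 (T (U L L) (F 256 (U L L)))) (F 1092 (T (F 2 (S L L)) (F 2 (S L L))))) (F 64 (V (F 2 (T (S L L) (U L (S L L)))) (T (F 34 (U L L)) (F 4096 (S L L))))))) (F 67648 (S (F 136 (U (V (F 8 (S L L)) (K 6)) (F 2 (S L L)))) (F 4096 (T (F 2048 (V (F 64 (U L L)) (S L L))) (F 2048 (U (S L L) L))))))))) (F 557072 (T (F 20 (V (F 256 (S (V (F 16384 (T L L)) (F 272 (S L L))) (F 16384 (V (F 1 (S L L)) (F 32 (S L L)))))) (F 2052 (S (F 64 (T L L)) (U (F 256 (T L L)) L))))) (F 2048 (V (F 20480 (S (F 128 (U (V (F 1 (S L L)) (F 4 (S L L))) (F 1 (T L L)))) (V (F 16512 (T L L)) (F 4096 (T L L))))) (F 4 (S (F 64 (V L L)) (F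 16 (T (F 4608 (S L L)) (S L L))))))))))
noncomputable def w3_12 : Tr := (S (F 1056776 (U (F 12432 (V (F 1114120 (T (F 16434 (S (V (S L L) (F 140 (S L L))) (F 34 (V (U (S L L) (S L L)) (F 2176 (S L L)))))) (V (F 16434 (S L L)) (F 32768 (S (F 128 (S L L)) (F 4104 (S L L))))))) (F 528 (T (F 196612 (U (F 4096 (V (F 2 (S L L)) (K 9))) (F 37888 (S (S L L) L)))) (F 32 (S (F 4 (V L (F 17 (S L L)))) (F 4100 (V L L)))))))) (F 726 (V (F 4096 (T (F 40968 (S (F 33800 (V (S L L) L)) (F 2 (V (F 1024 (S L L)) L)))) (F 65 (S (F 32768 (V L (F 2048 (S L L)))) (F 8 (T L L)))))) (F 8192 (T (F 66112 (S (F 32776 (S L L)) (S L L))) (F 16449 (S (F 16644 (V L L)) (F 4 (V L L)))))))))) (F 262144 (V (F 78119430 (U (F 327680 (T (F 24 (S (F 1540 (T (F 4096 (V (S L L) (S L L))) (V (S L L) L))) (F 512 (V (F 8256 (T (F 2 (S L L)) (S L L))) (F 16384 (T (F 256 (S L L)) L)))))) (F 65544 (S (F 9984 (U L L)) (T (F 8192 (V L (S L L))) (F 1024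 (V L L))))))) (F 360452 (T (F 8 (S (F 768 (V (T L L) L)) (T (F 258 (V L (S L L))) (F 32768 (S (F 64 (S L L)) (F 8192 (S L L))))))) (F 1 (S (F 8192 (T L L)) (F 8192 (T (S L L) (S L L))))))))) (F 144 (U (T (F 25690134 (S (F 266752 (U L (F 8192 (S L L)))) (F 20496 (U (F 256 (V L L)) (F 8194 (S L L)))))) (F 1081352 (S (F 271392 (V L L)) (F 2129922 (V (F 278532 (S L L)) L))))) (F 25165832 (T (F 3670040 (S (F 512 (T L L)) (F 16400 (T (S L L) L)))) (F 9 (S (F 278544 (S L L)) (F 2 (S L L)))))))))))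
noncomputable def w3_13 : Tr := (T (F 60234662796 (S (U (K 12) (F 1048600 (V (F 1065216 (T (K 8) (F 1052680 (V (F 131337 (S (K 6) L)) (K 10))))) (K 13)))) (F 1048592 (U (V (F 22036736 (T (K 7) (F 2048 (U (K 11) (V (F 2 (S (K 7) L)) L))))) (K 13)) (F 2097152 (V (F 4243972 (T (F 65552 (S L (F 1 (S L L)))) (F 262144 (V (F 8194 (S L L)) (F 131072 (S L L)))))) (F 8388608 (T (F 1048704 (V (F 1122308 (S (K 8) L)) L)) (F 262400 (S (S (K 9) L) L)))))))))) (F 19428016640 (S (F 100995240 (V (F 33624072 (U (T (K 8) (F 2229248 (U (S (K 10) (F 65568 (S (K 7) L))) (F 65570 (S L L))))) (F 2637828 (T (S (F 257 (S L L)) (F 128 (S L L))) (F 5 (S (F 16896 (S L L)) (F 512 (S L L)))))))) (F 524545 (U (F 4096 (T (K 12) (F 9232 (U (K 8) (F 196616 (S (K 8) L)))))) (F 3411976 (T (U (K 9) (F 1 (S (K 8) L))) (F 1 (S (F 33792 (S L L)) (V L L))))))))) (F 8392728 (U (F 532480 (V (F 17301505 (T (F 1049668 (V (S (F 5124 (S L L)) (F 66 (S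 L L))) (F 1052676 (S L L)))) (F 5245952 (V (S L (S L L)) (F 1114112 (S L (S L L))))))) (F 134234152 (T (F 198 (S (K 8) (T L L))) (F 262272 (S (F 164353 (V (F 4 (S L L)) L)) (F 524289 (V (S L L) L)))))))) (F 67117325 (T (F 524304 (V (F 2105472 (S (F 2560 (S L L)) (F 262146 (V L L)))) (F 256 (V (F 256 (S L L)) (F 262176 (S L L)))))) (F 8405008 (V (F 1052672 (S (F 163840 (S L L)) (F 2048 (S L L)))) (F 32778 (V L (S L L))))))))))))
noncomputable def w3_14 : Tr := (F 0x8afe44894200a34020002804 (V (F 0x22900840228000080c (U (F 36028805625692936 w3_10) (F 258948306497962760 (T (F 15570076038 (S (F 1056900 (U (T (F 1056880 (V (F 42 (S (F 4096 (T (S L L) (F 96 (S L L)))) (T (V L L) (U (S L L) (F 64 (S L L)))))) (K 7))) (F 16 (V (F 98326 (U (F 5184 (S (F 64 (U (F 4 (S L L)) L)) (V (T L L) (F 1024 (S L L))))) (F 68 (S (F 290 (S L L)) (F 8 (V (S L L) L)))))) (F 266496 (S (K 9) (F 65560 (U (K 7) (F 2 (S L L)))))))))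 (F 524368 (V (F 16394 (T (S (F 17409 (V (F 4 (S L L)) L)) (F 4096 (T (F 16400 (S L L)) (F 256 (S L L))))) (F 68 (S (F 8194 (T L L)) (F 8 (U (V (S L L) L) (F 1 (S L L)))))))) (F 67712 (T (F 24584 (S L (S L L))) (F 8192 (S L (F 2050 (S L L)))))))))) (F 1835014 w3_11))) (F 15066251776 w3_12))))) (F 0x10100044128080090 (U (F 351981163184408 (T (K 34) (F 123146913056000 (S (K 12) (F 549761056896 (V (F 141738442820 (U (K 9) (F 1103134724 (T (F 17169 (S (K 8) (F 66 (V (F 32768 (S (K 5) L)) (K 11))))) (S (F 4211217 (T (K 7) (F 524800 (S (K 10) L)))) (F 528 (V (F 66 (S L L)) (F 2097156 (T L L))))))))) (F 536871176 (U (K 10) (F 17381589048 (T (K 19) (F 67111043 (S (K 6) (F 16384 (U (K 14) (F 12 (S (K 6) L)))))))))))))))) (F 1085351185025597872 w3_13)))))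
noncomputable def w3_15 : Tr := (U (F 17597316 (U (F 32896 (V (K 15) (F 20 (S (K 7) (K 11))))) (F 5242880 (V (F 524288 (T (K 4) (F 16896 (S (K 7) (K 13))))) (F 8228 (T (F 514 (S (K 9) (V (S (K 9) L) (K 9)))) (F 16390 (S (K 5) (K 5))))))))) (F 2829 (T (F 1054722 (V (F 1024 (V (K 4) (F 2208 (T (F 16384 (U (K 3) (S (S L (K 3)) L))) (U (K 12) (F 32768 (S (F 2048 (S L L)) L))))))) (F 41216 (U (S (F 41218 (V (V (S (K 8) L) (K 8)) (K 8))) (V (F 256 (T (S L L) (F 32788 (S L L)))) (F 40962 (S (K 9) (T (K 9) L))))) (F 2 (S (F 16 (V (F 128 (T (S L L) (F 20 (S L L)))) (K 5))) (V (T (F 512 (S L L)) (F 20 (S (F 128 (S L L)) L))) (F 20 (T (S L L) (F 2048 (S L L))))))))))) (F 1081414 (V (F 2048 (S (F 768 (V (S (K 13) (K 13)) (F 2068 (U (T L (K 8)) (F 1024 (T L L)))))) (F 256 (V (K 14) (F 4100 (U (T (K 3) L) (T (F 128 (S L L)) (F 4096 (S L L))))))))) (F 17428 (U (F 128 (S (F 8 (T (F 128 (V (S (K 4) (K 4)) (K 7))) (V (K 9)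 L))) (T (V (S L L) L) (F 8 (S L (K 9)))))) (F 4096 (S (F 128 (V (T (F 128 (S L L)) (U L L)) (T (S (K 5) L) (S L L)))) (F 128 (V (T (S (S L L) L) (S L L)) (T (S L L) L))))))))))))
noncomputable def w3_16 : Tr := (V (F 256 (U (K 6) (F 1279262724 (T (F 20987968 (U (K 3) (F 524288 (V (K 17) (F 81984 (S (F 131072 (T (K 13) L)) (F 65536 (T (F 256 (S (K 3) (K 3))) L)))))))) (F 524608 (S (F 4195334 (V (K 15) (F 4 (T (F 32 (U (K 13) (S L L))) (S L (F 32 (S L L))))))) (F 1049604 (V (K 15) (F 4 (T (F 66 (U (K 13) L)) (F 2 (U L (S L L))))))))))))) (F 16785417 (U (F 262400 (T (F 8421572 (U (K 16) (S (F 514 (V (F 1024 (S (K 4) (K 4))) (F 131080 (S L L)))) (V (K 5) (K 16))))) (F 12583120 (U (F 258 (S (K 8) L)) (F 262144 (S (F 265216 (V (S (K 9) L) (K 9))) (F 2048 (V L (K 12))))))))) (F 34865152 (T (F 4268064 (S (F 1048578 (U (F 1024 (V (T (F 256 (S L L)) (F 32770 (S L L))) (F 32770 (T (S L L) (F 8 (S L L)))))) (F 131072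 (T (F 128 (V (S L L) (F 4 (S L L)))) (F 32896 (V (S L L) (F 8 (S L L)))))))) (V (T (F 262146 (U (S L L) (F 131074 (S L L)))) (F 131076 (U (F 131072 (S L L)) (S L L)))) (F 131076 (T (U (F 1024 (S L L)) (S L (S L L))) (U (S L (S L L)) (F 1 (S L (S L L))))))))) (F 6291496 (S (F 1048642 (U (F 1024 (T (F 128 (V (S L L) L)) (F 8320 (S (K 5) L)))) (F 8 (V (F 128 (T (S L L) (F 8 (S L L)))) (F 8192 (T (F 384 (S L L)) L)))))) (F 64 (V (F 2048 (T (U (F 2 (S L L)) (T (F 2 (S L L)) L)) (F 2 (U L L)))) (F 17 (T (F 256 (U (S L L) (F 8 (S L L)))) (F 16386 (U (K 3) L)))))))))))))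
noncomputable def w3_17 : Tr := (S (F 120264327172 (U (F 67108864 (V (K 15) (F 134877440 (V (K 13) (F 33554432 (T (F 37830666 (S (K 9) (K 8))) (F 67586 (S (K 12) (K 12))))))))) (F 1073745936 (T (F 907542568 (S (F 1050706 (U (F 8192 (V (K 4) (F 1024 (V (K 10) L)))) (F 8192 (V (V (F 192 (S L L)) (K 4)) (F 1024 (T (F 128 (U L L)) L)))))) (F 1048608 (V (F 294912 (T (F 768 (V (S L L) (F 4096 (S L L)))) (F 264 (V L (K 11))))) (F 16928 (T (F 18 (U (K 10) (V L L))) (F 16 (V (S (K 10) (K 10)) L)))))))) (F 604110848 (V (K 11) (F 16384 (S (F 8194 (T (F 2163329 (V L L)) (F 128 (S L L)))) (F 262178 (V (F 1048901 (S (K 11) (K 11))) (F 65536 (S L L)))))))))))) (F 22550675622 (U (T (F 536889355 (V (F 262144 (V (K 20) (F 260 (U (K 12) (F 589824 (S (K 7) L)))))) (K 12))) (F 24576 (V (F 403308544 (S (K 11) (F 16777216 (S (K 12) L)))) (K 13)))) (F 536887305 (T (F 75792384 (V (F 100 (S (F 524288 (T (U (F 1024 (S L L)) (V L L))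 (F 8 (V (S L L) (F 16384 (S L L)))))) (T (V (F 262402 (S L L)) (U L (F 524288 (S L L)))) (V (F 262146 (S L L)) (F 557056 (S L L)))))) (F 257 (T (F 98304 (S (F 8208 (U (K 11) (F 32768 (V L L)))) (F 8192 (U (F 8192 (S L L)) (F 73728 (S L L)))))) (F 81920 (S (U (K 6) (F 16 (S L L))) (F 262160 (V (S L L) (K 12))))))))) (F 109117440 (V (F 16 (S (F 49152 (V (F 32 (S L L)) (K 7))) (F 65537 (U (F 32 (S L L)) (F 96 (T L L)))))) (F 384 (S (V (K 12) (F 512 (T L L))) (F 1 (U (K 7) (T (F 64 (S L L)) L))))))))))))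
noncomputable def w3_18 : Tr := (T (F 8192 (U (F 131584 (V (F 131072 (S (F 8450 (V (F 3 (T L (S L L))) (F 2192 (T L (S L L))))) (T (F 393472 (V (S L L) L)) (F 1026 (V (F 513 (S L L)) (F 4096 (S (F 2112 (S L L)) L))))))) (F 270592 (S (F 6144 (V (T (F 128 (V L L)) (F 4 (S (F 128 (S L L)) (S L L)))) (F 4 (T (S L L) (S L L))))) (T (V (U (F 128 (S L L)) L) (F 22528 (U (S L L) L))) (F 22528 (V (U (S L L) L) (U (S L L) L)))))))) (F 36866 (V (F 131089 (S (F 4224 (V (F 65 (S L L)) (T L (S L L)))) (F 32768 (T (F 128 (S L L)) (V L L))))) (F 32 (S (F 288 (T (F 16401 (S L L)) (F 16400 (S (S L L) L)))) (F 131104 (T (F 16648 (S L L)) (F 16648 (V L L)))))))))) (F 2097152 (V (F 131072 (S (F 6192 (U (F 1024 (T (F 16512 (V (F 4096 (S L L)) (S (F 16 (S L L)) L))) (V (F 16512 (S L L)) (F 4 (U (F 256 (S L L)) (F 2 (S L L))))))) (F 66562 (T (V L L) (F 2 (V L L)))))) (U (F 4352 (T (F 2 (V (F 515 (S L L)) (F 1040 (U L (F 2048 (S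 L L)))))) (F 8192 (V (F 65539 (U L L)) (F 532 (U (S L L) L)))))) (F 524577 (T (F 128 (V (F 1 (S L L)) (F 10 (S L L)))) (F 40960 (V L (S L L)))))))) (F 626688 (U (F 256 (S (F 288 (T (F 8 (V (S (S L L) (S L L)) (U L L))) (F 8 (V (S L L) (U L L))))) (T (F 8480 (V (U (S L L) L) (U (S L L) L))) (V (F 8448 (U (F 512 (S L L)) (S L L))) (F 32 (U (F 8 (S L L)) (S L L))))))) (F 65544 (S (F 256 (V (F 128 (T (S L L) (S L L))) (F 1024 (S L L)))) (F 32768 (T (F 192 (V (S L L) L)) (V (S L L) L))))))))))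
noncomputable def w3_19 : Tr := (T (F 5244928 (V (F 1048579 (S (F 73762 (T (S (F 2432 (S L L)) (F 2048 (U L L))) (F 32768 (V L (F 16 (U (S L L) L)))))) (F 8224 (T (F 135168 (U (S L L) (F 2 (S L L)))) (F 196624 (U (S L L) (V L L))))))) (F 2130496 (S (F 2 (T (F 16384 (V (F 2 (U (F 1024 (S L L)) L)) (F 32896 (U (S L L) L)))) (F 16388 (V (U (S L L) L) (F 12288 (U L (S L L))))))) (F 32 (T (F 1 (V (F 131076 (U L L)) (F 65536 (S L L)))) (F 4 (V (F 131072 (S L L)) (S L (F 131072 (S L L))))))))))) (F 1343556 (V (F 16 (S (F 514 (T (F 131073 (U (V L (F 32768 (S L L))) (F 65536 (V L L)))) (F 131072 (U (V (F 196608 (S L L)) (F 32768 (S L L))) (F 135168 (V L L)))))) (F 1572868 (T (F 66048 (V (S L L) (U L (S L L)))) (F 65536 (V (F 128 (S L L)) (F 65536 (S L L)))))))) (F 4 (S (F 65538 (V (F 8 (T (F 288 (U (S L L) L)) (F 16384 (S (F 2304 (T L L)) (F 2048 (S L L)))))) (F 8208 (T (F 8320 (S L L)) (S (F 256 (S L L)) (S L L))))))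 (T (F 131136 (V (F 1025 (U (S L L) L)) (F 24 (S L L)))) (F 98304 (V (F 8 (S (F 66 (S L L)) (F 131136 (S L L)))) (F 4096 (U (F 16384 (S L L)) (F 131072 (S L L))))))))))))
noncomputable def w3_20 : Tr := (U (F 528 (T (F 17694728 (V (F 65554 (S (F 1026 (V (F 16384 (T (F 128 (S L L)) (T L L))) (T (F 128 (U (S L L) L)) (T L L)))) (F 2 (U (V (F 32768 (T (F 128 (S L L)) (S L L))) (T (F 128 (S L L)) (F 128 (S L L)))) (F 32768 (V (F 32768 (T (S L L) L)) (T (S L L) L))))))) (F 524288 (S (F 263168 (U (F 18432 (T (F 4096 (S L L)) (S L L))) (F 65544 (T (F 4 (S L L)) L)))) (F 262152 (V (F 8 (T (F 512 (U (F 1024 (S L L)) L)) (F 512 (S L L)))) (F 4352 (U (S L L) (S L L))))))))) (F 16777220 (V (F 2621584 (S (F 262656 (T (F 24 (V (U L L) (S L L))) (F 8 (V (F 8192 (S L L)) (S L L))))) (F 16384 (T (F 131074 (V (S L L) (F 8448 (S L L)))) (V (F 2 (S L L)) L))))) (F 4128 (S (F 1048576 (T (F 786488 (S L L)) (F 264 (S L L)))) (F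 32770 (T (F 262192 (S L L)) (F 16 (S L L)))))))))) (F 33554946 (T (F 8847364 (V (F 65552 (S (T (F 131586 (S L (T L L))) (F 164354 (V L L))) (F 131074 (T (V (F 1 (S L L)) (F 2 (S L L))) (F 2 (V (S L L) L)))))) (F 262148 (S (F 16896 (T (F 1 (S L L)) (F 1 (S L L)))) (F 131072 (T (F 16388 (V L L)) (F 16388 (S L L)))))))) (F 27328512 (V (F 327684 (S (F 49152 (T (F 64 (S L L)) (F 64 (S L L)))) (F 16384 (T (F 4 (V (S L L) L)) (V (S L L) L))))) (F 8 (S (F 133120 (V L L)) (F 2 (T (F 131340 (S L L)) L)))))))))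
noncomputable def w3_21 : Tr := (T (F 41944768 (U (F 262144 (V (F 18 (S (T (F 2 (V (F 3 (S L L)) (F 24 (U (S L L) (F 32768 (S L L)))))) (F 49154 (V (F 3 (S L L)) (S L L)))) (F 262144 (T (F 65536 (V (F 65536 (S L L)) (F 8192 (S L L)))) (F 65544 (V (F 32768 (S L L)) (F 8192 (S L L)))))))) (F 96 (S (V (F 147456 (T (U (S L L) (F 32768 (S L L))) (S L L))) (T (F 131104 (S L L)) (S L L))) (V (F 147456 (T (S (S L L) L) (S L L))) (T (F 131104 (S L L)) (F 1 (S L L)))))))) (F 2113538 (V (F 17 (S (F 8192 (V (F 1 (T (S L L) (F 16384 (S L L)))) (F 2 (T (S L L) (S L L))))) (T (F 65536 (V (S L L) (F 5 (S L L)))) (F 32768 (S (F 4 (V L L)) (F 32769 (S L L))))))) (F 36 (S (F 65536 (T (F 4 (V (S L L) L)) (F 4 (S L L)))) (F 65536 (T (F 4 (V (S L L) L)) (F 4 (S L L)))))))))) (F 67111688 (S (V (F 98314 (U (F 16 (T (F 65536 (V (F 1 (S L L)) (S L L))) (V (F 196608 (S L L)) (S L L)))) (F 19 (T (F 8192 (V (F 1 (S L L)) (S L L))) (V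 (S L L) L))))) (T (F 491530 (U (V (S L L) L) (F 1 (S L L)))) (F 262144 (U (F 1310784 (S L L)) (F 81 (S L L)))))) (F 4227083 (V (U (F 40 (T (F 32768 (V (F 1 (S L L)) (S L L))) (V (F 49152 (S L L)) (S L L)))) (F 40 (T (F 36864 (V (F 1 (S L L)) (S L L))) (V (F 49152 (S L L)) (S L L))))) (T (F 40 (V (U (S L L) L) (F 4096 (S L L)))) (F 8 (U (S L L) (F 4096 (S L L))))))))))
noncomputable def w3_22 : Tr := (S (F 412316928068 (V (F 17716756480 (U (K 8) (F 3407675396 (T (F 4672 (U (K 7) (F 196608 (V (F 36864 (S (K 5) (T (K 5) L))) (K 9))))) (F 516 (S (F 514 (T (K 11) (U (K 11) L))) (F 16386 (V (F 16898 (U (S (K 5) L) (S L L))) (U (K 11) L))))))))) (F 2147559424 (U (K 9) (F 629932032 (T (K 15) (F 16777224 (T (K 8) (F 8194 (S (K 13) (F 4096 (S (K 7) L)))))))))))) (F 4294967361 (V (F 4563435586 (U (F 1076363336 (T (F 410153 (V (F 262144 (T (K 3) (F 48 (S (K 7) (K 12))))) (K 12))) (K 12))) (F 5778178056 (T (F 541700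 (U (T (F 512 (S (F 262177 (V L (K 6))) (F 32 (V (F 16388 (S L L)) L)))) (F 1098240 (V (F 16392 (S L L)) (K 4)))) (F 1048576 (S (F 263216 (V (F 2 (T L L)) (T L L))) (F 16 (T (V (F 32772 (S L L)) (F 16896 (S L L))) (F 16384 (V (F 32768 (S L L)) (F 256 (S L (K 12))))))))))) (F 1217 (S (F 2050 (U (K 5) (F 131072 (T (F 65544 (S L L)) (S L L))))) (F 32 (U (K 5) (F 131072 (T (F 131072 (V (S L L) (K 4))) (K 13))))))))))) (F 17213440004 (U (F 5505280 (S (K 20) (K 13))) (F 6717440000 (T (F 8946440 (U (K 14) (F 2359296 (S (F 263168 (V (F 65536 (S (K 9) L)) L)) (F 524288 (S (K 13) (K 13))))))) (F 134742024 (T (F 197640 (S (F 1049096 (S L L)) (F 512 (V (K 12) L)))) (F 9219 (S (S L L) (F 524672 (S L L)))))))))))))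
noncomputable def w3_23 : Tr := (V (F 3584 (U (F 2147483904 (T (K 16) (F 2152726528 (S (F 117507072 (U (F 1024 (S L L)) (F 8388608 (S L L)))) (V (K 11) (F 66560 (T (K 15) L))))))) (F 2952790018 (T (F 4209702 (S (F 1024 (V (F 327685 (U (K 11) L)) (F 1048576 (S L L)))) (F 524293 (V (K 6) (F 4096 (T (K 11) L)))))) (F 536875012 (S (F 1088 (T (S L L) (F 16896 (S L L)))) (F 4227136 (T (F 16648 (S L L)) L)))))))) (F 69055021060 (U (F 16908800 (T (F 536870936 (U (F 512 (S (K 19) (F 128 (T (K 10) L)))) (F 540672 (V (F 64 (S L (K 11))) (F 1081352 (S (F 5 (S (K 16) L)) (S L L))))))) (F 554176520 (S (F 3145733 (U (T (S (K 17) L) (V L (S (F 4 (S L L)) (T L L)))) (T (S L L) (F 4 (V (S L L) (S (S L L) (S L L))))))) (F 1048577 (T (F 2097152 (U (S L L) (F 278528 (S L L)))) (F 2097152 (U (V L (S (U (S L L) L) (S L L))) (V L (S (F 262144 (S L L)) (S L L))))))))))) (F 822083585 (T (F 1060994 (S (F 4194304 (T (F 536 (S L L))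 (F 4202498 (V L L)))) (F 786432 (V (F 514 (S L L)) (F 2228228 (S L L)))))) (F 269751304 (S (F 1048586 (U (V (F 48 (S L L)) (T (F 32 (S L L)) (S L L))) (F 35 (T L L)))) (U (F 8 (V (F 96 (S L L)) (F 1048576 (T L (S L L))))) (F 3604480 (T L L))))))))))
noncomputable def w3_24 : Tr := (U (F 131072 (T (F 9175056 (V (F 2 (S (F 1026 (T (F 148032 (U (V L L) L)) (F 131648 (U (F 8 (S L L)) (S L L))))) (F 32 (T (F 132096 (V (F 18432 (S L L)) (U (F 2048 (S L L)) L))) (F 131072 (S (F 4352 (V (S L L) L)) (F 266496 (V (S L L) L)))))))) (S (F 1049600 (T (F 262656 (V L L)) (F 4098 (V L L)))) (F 2097154 (T (F 524288 (V (F 512 (U L L)) L)) (F 532482 (V L L))))))) (F 294916 (V (F 524354 (S (F 262146 (V (F 16384 (T (F 256 (S L L)) (F 256 (S L L)))) (F 256 (T (S L L) (S L L))))) (T (F 262160 (S (F 65536 (U (S L L) L)) (F 1 (U L (S L L))))) (S (F 262146 (V L L)) (F 786449 (S L L)))))) (S (F 2099205 (V (F 278532 (S L L)) (F 257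 (S L L)))) (F 4194371 (T (F 262148 (S L L)) (F 256 (S L L))))))))) (F 16777415 (T (F 264 (V (F 32 (S (F 2 (V (F 8448 (T L L)) (S L L))) (F 16 (T (F 256 (U (S L L) L)) (U (S L L) L))))) (S (F 131328 (V (S L L) L)) (V (F 32 (S L L)) (F 327680 (S L L)))))) (F 32772 (V (F 65536 (S (F 66 (V (F 8192 (T L L)) L)) (F 64 (T (V (F 8192 (S L L)) L) (V (F 8192 (S L L)) L))))) (F 2048 (S (F 2 (S L L)) (F 1 (V (F 32768 (S L L)) L)))))))))
noncomputable def w3_25 : Tr := (S (F 134250756 (V (F 537923840 (U (F 36864 (T (F 327812 (S (F 262144 (V L L)) (T (F 802820 (U L L)) (F 262144 (S L L))))) (F 8388608 (S (F 1052804 (T L (F 17 (S L L)))) (F 160 (V L (F 526337 (S L L)))))))) (F 16809986 (T (F 4167 (S (F 128 (U (S L L) L)) (F 32928 (V L L)))) (F 4103 (V (U (F 32 (S L L)) (S L L)) (S L L))))))) (F 270598145 (T (F 34635778 (U (F 1081856 (S (F 278528 (T L L)) (F 16400 (S L (F 131074 (S L L)))))) (F 546 (S (F 4 (S L L)) L))))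 (F 24840 (U (S (F 262148 (T L (F 147457 (S L L)))) (F 6293504 (T (F 262144 (S L L)) L))) (F 23 (S L L)))))))) (F 4297101318 (U (F 6295552 (V (F 131072 (T (F 450 (S (F 128 (T (F 131584 (U (S L L) L)) (F 512 (U L L)))) (F 133 (V (F 32768 (T (S L L) L)) (F 1 (S L L)))))) (F 25165826 (S (F 66048 (V (F 64 (S L L)) L)) (F 2113536 (V (T L L) L)))))) (F 34078849 (T (F 32 (S (F 513 (V L (F 135168 (S L L)))) (F 129 (T (F 2144 (S L L)) (F 2049 (S L L)))))) (F 2117632 (S (F 258 (T L L)) (F 262144 (T (S L L) L)))))))) (F 138416131 (T (F 786464 (V (F 48 (S (F 262144 (T L L)) (F 1 (T (F 135168 (S L L)) L)))) (F 1064960 (S L (F 24576 (T L L)))))) (F 524288 (V (F 131104 (S (V (F 32768 (S L L)) L) (F 32769 (T L (S L L))))) (F 4194308 (S (F 1088 (S L L)) (F 80 (S L L)))))))))))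
noncomputable def w3_26 : Tr := (U (F 0x8000100800910000 (T (F 32090898548495588 w3_22) (F 185918624878371844 (S (F 3161095999500 (V (F 17315168324 (U (F 262144 (T (F 134221920 (U (K 7) (F 32768 (S (K 16) (T (K 10) L))))) (F 134283264 (U (F 256 (S (K 18) (F 33554528 (S L L)))) (F 16384 (S (F 4194400 (T L L)) (F 131168 (S L L)))))))) (F 25231362 (T (F 1538 (V (F 4194304 (S (F 524296 (S L L)) (F 524420 (S L L)))) (S (F 4458504 (S L L)) (T L L)))) (F 16896 (S (F 8388616 (T (F 1 (S L L)) (F 1048640 (V L L)))) (T (V L L) (F 8388610 (S L L))))))))) (F 8589942784 (U (F 550096 (T (K 20) (F 83888140 (S (K 4) (F 131073 (U (V (S (K 16) L) (K 16)) (V (T L (S L L)) (T (K 16) (S L L))))))))) (F 2315255808 (T (F 604048386 (V (F 1081376 (S (F 2067 (S (K 6) L)) (F 16384 (S L L)))) (F 8390930 (S (K 14) (F 589824 (U (S (K 3) L) L)))))) (F 353501444 (S (F 8388608 (V (F 2106112 (U (F 9 (S L L)) L)) (F 4194321 (U L L)))) (F 16915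 (T (V L (F 2 (U L L))) (F 1 (U (V L L) L)))))))))))) (F 549773116430 w3_23))))) (F 0xfb97d049000005a0 (T (F 413394862857 (S (F 1182798340 (V (F 35815456 (T (F 525314 (U (F 512 (S (F 1024 (V (F 4096 (U (S (K 5) L) L)) (S (K 9) L))) (U (F 1024 (T (F 4096 (S L L)) (S L L))) (V (F 1032 (S L L)) (S L L))))) (F 64 (S (F 256 (T L L)) (F 65792 (T (S L L) (S L L))))))) (F 1026 (U (F 128 (S (V (F 65792 (U (S L L) L)) (S L L)) (F 65536 (V (U (F 8192 (T L L)) (S L L)) (T L L))))) (F 131202 (S (S L L) (F 32768 (T (S L L) L)))))))) (F 2048 (U (F 1024 (T (F 559104 (S (K 8) (F 32769 (V (T L L) L)))) (F 2097408 (V (F 129 (S L (F 131072 (S L L)))) (F 2097168 (S (F 131072 (S (K 7) L)) L)))))) (F 16777220 (T (F 524304 (V (F 1048897 (S L L)) (F 4 (S L L)))) (F 1048704 (S (F 8 (S L L)) (F 1048641 (S L L)))))))))) (F 100673025 w3_24))) (F 2818035426305 w3_25))))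
noncomputable def treeW3 : Tr := (F 0xfffffffffffffffffffffffffffffffffffffffffffffffffffffffffffffffffffffffffffffffffffffffffffffffffffffffffff984fffca07fcffffffffff1c20ffffff8443fffeffffffff09ff907fffedbffffffffffffffffffffffffffffffffffffffffffffffffffffffffffffffffffffe7fff3e4cfe3c3ffffcd93fffcfffcffffffffffffffffffffffffffffffffffffffffffffffffffffffffffffffff9bfccbfb7ffffe23f19dfffe1e1fffe78e3ff99f233bffff27e5fc1ffffffffffffffffffffffffffffffffffffffffffffffffffffffffffffbbfffffe18fff99c (T (F 0xc47c19c80013125827f8381804c51bc4fe3f81cb w3_9) (F 0x110e41fc8606333908a18701a8016fc078c3f0f5b (S w3_14 (F 0x704042e0003464000003460 (V (F 0x94202481101001100c8 (U (F 154329655661301888 (T (F 327655564254774 (S (F 17717264386 w3_15) (F 2155937792 w3_16))) (F 633870131436545 w3_17))) (F 0x1eecf210300000a0 (T (F 869730888733 (S (F 275284034 w3_18) (F 270532608 (U (F 4096 w3_19) (F 33556545 (T (F 16420 (V (F 4105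 (S (F 16386 (T (S L L) (F 8 (S L L)))) (F 16384 (T (F 32768 (S L L)) (F 32776 (V L L)))))) (F 96 (S (F 290 (V (F 8 (T L L)) (F 16 (T L L)))) (F 288 (U (F 8 (V (F 32768 (S L L)) (F 16384 (S L L)))) (F 8 (T (S L L) L)))))))) (F 1458212 (S (F 65536 (V (T (F 65664 (V L L)) (V (F 65664 (S L L)) (F 8192 (S L L)))) (F 40960 (T (V (S L L) (F 1024 (S L L))) (V (S L L) (S L L)))))) (V (F 1 (T (F 258 (V L L)) (F 2 (V (S L L) (U L L))))) (F 2 (T (V (S L L) (F 16416 (S L L))) (F 16384 (S (F 16384 (T L L)) (V L L)))))))))))))) (F 1515052990481 (S (F 1077018624 w3_20) (F 1611661314 w3_21))))))) (F 0x10000226024482410 w3_26)))))))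

theorem pW3 : chkW par treeW3 192 64 128 128 384 128 163840 327680 Lc = true := by decide +kernel


end Pool.Agent.Lib.H56.Gen.D8
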