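import Pool.Agent.Lib.H56.Gen.D8.Par
import Pool.Agent.Lib.H56.Gen.D8.Cos

/-!
# Certificate tree W, part 1
-/

set_option maxRecDepth 100000

namespace Pool.Agent.Lib.H56.Gen.D8

open Tr

noncomputable def w4_0 : Tr := (S (F 9831834468516 (V (F 37814336 (U (F 33554432 (U (K 12) (F 2228495 (T (F 262156 (S L L)) (F 155744 (V (F 2050 (S L L)) (F 1024 (S L L)))))))) (F 130154832 (T (F 53249 (U (S L L) L)) (F 4146 (U (S L L) (F 4108 (S L L)))))))) (F 67108871 (U (F 41951952 (U (F 65540 (T (F 131200 (V (K 7) (F 16452 (S L L)))) (F 137232 (S (F 128 (U L (S L L))) (F 12 (V L L)))))) (F 5 (T L (F 12320 (S (F 2176 (S L L)) (F 12 (S L L)))))))) (F 113246920 (U (F 33280 (T (F 81940 (S L L)) (F 6160 (S L L)))) (F 40964 (T L L)))))))) (F 275347675328 (V (F 3292546048 (U (F 537919620 (U (F 16777298 (T (K 9) (F 6160 (V (K 11) (F 336 (U (K 8) (F 65536 (S (K 7) L)))))))) (F 82 (T (F 9977932 (V (F 4 (S L L)) (F 8 (U (F 8 (S L L))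 L)))) (F 143364 (S (F 411 (V L L)) (F 147456 (T (F 155648 (V L L)) (F 139264 (V L L)))))))))) (F 1938817164 (U (T (F 294924 (V (F 34816 (S L L)) (F 16392 (S L L)))) (F 66324 (S (F 52228 (S L L)) (F 32788 (S L L))))) (F 262147 (T L (F 166920 (S L L)))))))) (F 134217732 (U (F 60826468 (T (F 19 (U (F 393228 (S (F 4197 (S L L)) (F 16512 (T (F 8208 (S L L)) (F 9472 (S L L)))))) (F 917516 (S (F 49 (S L L)) (F 64 (S L L)))))) (F 13543 (U (S (F 18440 (U (F 8 (S L L)) (F 1024 (S L L)))) (F 4 (U (F 4128 (T L (F 2 (S L L)))) (V L (F 12320 (S L L)))))) (F 12 (S (F 18 (S L L)) (S L L))))))) (F 32130466364 (U (F 165892 (T (S L L) (F 1536 (S L L)))) (F 163845 (T L (F 3072 (S L L)))))))))))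
noncomputable def w4_1 : Tr := (U (S (V (U (K 10) (T (K 10) (V (S (S L L) (S L L)) (S (S L L) L)))) (U (V (K 10) (F 2048 (T (K 2) (S (S L L) L)))) (T (S (T L L) (V L L)) (S (V (S L L) (S L L)) (V (S L L) (S L L)))))) (V (U (V (K 10) (S (K 10) (T (K 10) L))) (V (T (S (K 10) L) (S (S L L) (F 16 (S L L)))) (S (T L (S L L)) (F 16 (T L L))))) (T (U (K 10) (S (V L L) (F 16 (S L L)))) (U (S (V (S L L) L) (V L (F 2050 (S L L)))) (S (V (S L L) (T L L)) (F 16 (V (S L L) L))))))) (S (V (T (S (U (S L L) L) (U (S L L) L)) (S (U (V L L) (S L L)) (U (V L L) (S L L)))) (T (U (V (S L L) (S L L)) (V L L)) (U (S (V L L) (V L (S L L))) (V (S L L) (S L L))))) (V (T (F 16 (S (U (S L L) L) (F 2 (U L L)))) (S (U (V L (S L L)) (F 16 (S L L))) (F 4112 (U (T L L) L)))) (T (F 16 (V (U L L) (S L L))) (S (U (V L L) (F 16 (S L L))) (F 4112 (V (T L L) L)))))))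
noncomputable def w4_2 : Tr := (T (F 327760 (S (F 4097 (V (T L (U L (F 2048 (S L L)))) (F 1162 (T (S L L) (U (S L L) L))))) (F 2057 (V (T L (S (F 1032 (S L L)) (F 3072 (T L L)))) (F 3210 (T (S L L) (U (S L L) (S L L)))))))) (F 270338 (S (F 1 (V (F 20520 (T (F 512 (S (F 64 (V L L)) (V (S L L) (F 64 (S L L))))) (S (F 512 (V (T L L) (F 64 (S L L)))) (V (U (S L L) L) (F 512 (T L L)))))) (F 516 (U (F 514 (T (S (F 8 (S L L)) L) (F 4 (V (F 4 (S L L)) (F 2 (S L L)))))) (F 2056 (T (F 1036 (S L L)) (V L (F 512 (S L L))))))))) (F 8196 (V (F 18448 (U (T (S (V L L) (F 258 (S L L))) (S (V (S L L) (S L L)) (F 258 (V L L)))) (S (T (F 256 (S L L)) (V (S L L) L)) (F 258 (T L (V L L)))))) (F 4096 (T (F 3584 (U (F 288 (S (F 1 (S L L)) (F 1 (S L L)))) (F 1280 (V (S L L) L)))) (F 5 (S (F 12 (U (F 136 (S L L)) (S L L))) (F 24 (V (T L L) (F 136 (U L L)))))))))))))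
noncomputable def w4_3 : Tr := (V (F 8199 (U (F 5244608 (T (F 5 (U (F 8208 (V (K 3) (U (K 3) (S (K 3) (F 512 (V (K 9) (S L L))))))) (F 8208 (S (V (T L (S (S L L) (S L L))) (T (F 512 (S L L)) (U (S L L) (S L L)))) (F 512 (V (T (S L L) (U (S L L) (S L L))) (V (U L L) (S L L)))))))) (F 8213 w4_1))) (F 10094288 (U (F 1 (T (V (S (S L L) (F 16 (S L L))) (S (F 16 (S L L)) (F 4112 (S L L)))) (V (S (T (S L L) (S L L)) (F 16 (T (S L L) (F 2 (S L L))))) (S (T (S L L) (U (S L L) (S L L))) (F 16 (T (F 2 (S L L)) (F 2 (S L L)))))))) (F 1 (T (F 16 (V (S L L) (S L L))) (S (V (S L L) (S L L)) (F 4112 (V (S L L) L))))))))) (F 262288 (U (F 10494464 (U (F 16384 w4_2) (F 16387 (T (F 65552 (S (F 4096 (V (F 4112 (T L (F 512 (S L L)))) (F 10506 (S L L)))) (F 2054 (V (F 16 (T (S L L) (U (S L L) L))) (F 2058 (S L L)))))) (F 16400 (S (F 1026 (T (F 8 (V (V (S L L) (F 2048 (S L L))) L)) (F 2 (V (V (S L (S L L)) (F 1028 (U L L))) (F 1028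 (S L L)))))) (F 1024 (V (F 8192 (T (F 512 (U (S (F 2048 (S L L)) L) (F 2048 (S L L)))) (F 4096 (U (S (T L L) (F 2056 (T L L))) (F 2056 (S L L)))))) (F 6162 (T (F 258 (S L L)) (U (F 2 (S L L)) (F 2 (S L L))))))))))))) (F 31457872 (T (F 12290 (U (F 256 (V (F 4 (S (T L L) (F 2048 (S L L)))) (F 4098 (S L L)))) (F 12288 (S L L)))) (F 138 (U (S (F 32 (V (T (S L L) (T L L)) (F 4608 (S L L)))) (F 8240 (V (T L (S L L)) (F 1024 (T L L))))) (F 32 (S (F 512 (S L L)) (F 514 (S L L)))))))))))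
noncomputable def w4_4 : Tr := (U (T (F 262216 (V (F 36 (U (K 10) (F 10 (S (F 62976 (S (K 2) L)) (T L (F 42496 (S L L))))))) (F 901120 (S (F 8 (U (K 9) (F 8192 (S L L)))) (F 4608 (T (T L L) (F 1536 (S L L)))))))) (F 1706 (S (F 122896 (V (U (T (K 2) (S (V L L) (F 576 (S L L)))) (V (F 576 (T L (S L L))) (T L (S L L)))) (T (U (S L L) (S L (S L L))) (U (V (S L L) (F 1026 (S L L))) (S (V L (S L L)) (V L L)))))) (F 98308 (V (F 258 (T (F 8 (U (S L L) (F 1 (S L L)))) (U (S (F 8 (S L L)) (S L L)) (S (F 2056 (S L L)) (S L L))))) (F 1 (T (F 4104 (S (U L L) (F 64 (S L L)))) (F 4096 (S (F 256 (V (F 16 (S L L)) (F 2 (S L L)))) (F 64 (V (S L L) L))))))))))) (F 11 (T (F 458768 (S (F 25 (V (F 4 (T L (F 1 (S L L)))) (F 4096 (U (S L L) (S L L))))) (F 8192 (V (F 2064 (T L (F 3 (S L L)))) (U (F 8192 (S L L)) (F 26624 (S L L))))))) (F 995344 (S (F 1 (V (T (F 4 (U (S L L) L)) (S (U (S L L) L) (F 4 (U L L)))) (U (T (S (S L L) L) (S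 (T L L) (S L L))) (T (S L L) (S L L))))) (F 1024 (V (F 16 (T (U (S L L) L) (U L L))) (F 2048 (T (U L L) (U (S L L) L))))))))))
noncomputable def w4_5 : Tr := (S (F 114704 (U (F 4612 (V (F 1024 (U (T (S (S L L) (S L L)) (S (V (S L L) L) (U L (S L L)))) (T (S (S L L) (S L L)) (S (T L L) (T L L))))) (T (U (S (V L L) (V L L)) (S (F 1024 (S L L)) (F 1024 (S L L)))) (U (S (V L (S L L)) (V L (S L L))) (S (F 1024 (V L L)) (F 1024 (V L L))))))) (F 1 (V (F 16 (T (F 1024 (U (S L L) (S L L))) (F 1024 (V (S L L) (F 512 (S L L)))))) (F 2050 (T (U (F 128 (S L L)) L) (U (S (S L L) L) (F 128 (S L L))))))))) (F 98306 (U (F 1032 (V (F 4096 (T (F 256 (S (F 1024 (U L L)) (F 2 (S L L)))) (F 256 (S (F 1024 (U (T L L) (S L L))) (U (V L L) L))))) (F 8 (U (T (S (F 2 (T L (S L L))) (S L L)) (S (F 2 (V (S L L) L)) (V (S L L) L))) (T (S L (S L L)) (V (F 1 (S L L)) (S L L))))))) (F 2049 (T (F 8 (V (F 1 (U (S L L) L)) (F 4 (S L L)))) (V (F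 4104 (U (F 2 (S L L)) L)) (F 1024 (S L L))))))))
noncomputable def w4_6 : Tr := (V (F 4297101474 (U (F 1312592 w4_4) (F 1067189872 (T (U (T (F 4097 (V (S L L) (F 16 (S L L)))) (F 513 (S (F 2048 (V L L)) (S L L)))) (F 4609 (S L L))) (F 5 (U (F 32 (V (S (T (S L L) (S L L)) (F 512 (S L L))) (S (T (S L L) (S L L)) (U (S L L) L)))) (F 32 (S (T L L) L)))))))) (F 2315264065 (U (F 5509392 (T (F 1572912 (U (F 528384 (S (F 156 (U (F 1024 (T (F 1 (S L L)) (F 4106 (V (F 1024 (S L L)) (F 4 (S L L)))))) (F 24576 (T (F 2 (S L L)) (F 6 (V L (F 2 (S L L)))))))) (F 256 (U (F 17410 (T (F 8193 (S L (F 1024 (S L L)))) (F 32 (V L (F 4096 (S L L)))))) (F 147456 (T (F 16388 (T L L)) (F 16434 (V L (F 2048 (S L L)))))))))) (F 1642496 (S (F 55 (T (V L L) (V (V L L) (F 1026 (S L L))))) (T (F 16390 (S L L)) (F 19 (S L (F 8194 (S L L))))))))) (F 3670 w4_5))) (F 2140012848 (U (F 129 (T (F 8192 (S (F 514 (V L L)) (F 512 (S L L)))) (F 12304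 (S (V (T L (S L L)) (F 1024 (S L L))) (V (S L L) (F 1024 (S L L))))))) (F 4101 (T (F 256 (S L L)) (F 4352 (S (T L L) L)))))))))
noncomputable def w4_7 : Tr := (S (F 149087374827532 (V (F 136333312 (U (F 139493396 (U (F 65600 (T (F 1900552 (V (F 36992 (S L L)) (K 6))) (F 798784 (U (F 128 (V (F 4121 (S L L)) (K 8))) (F 4101 (S (T L L) (V L L))))))) (F 589911 (T (F 32780 (T L L)) (F 6176 (T L (S L L))))))) (F 517472564 (T (F 26625 (U L L)) (F 2072 (V L (F 1024 (S L L)))))))) (F 268468294 (U (F 2949136 (U (K 9) (F 311299 (T (F 213068 (T L L)) (F 20480 (V (F 8704 (V L L)) (F 1029 (S L L)))))))) (F 208143156 (T (F 32771 (U (T L L) L)) (F 113 (U (V L (F 4112 (S L L))) L)))))))) (F 2217813776768 (V (F 17716871168 (U (F 34678866188 (U (F 4198034 (T (F 32908 (S (F 32 (V L L)) (U (F 512 (T L L)) (F 1 (S L L))))) (F 2048 (S (F 1096 (V (F 137 (U (T L L) L)) (F 8192 (U (K 5) L)))) (F 1024 (U (F 128 (T (F 12288 (S L L)) (F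 32768 (V (F 6 (S L L)) L)))) (F 4 (V (F 41472 (S L L)) (S L L))))))))) (F 1170 (T (F 2408716 (U (S L L) L)) (F 53256 (S (F 1099 (T L (F 4096 (S L L)))) (F 32768 (V L (F 64 (T L L)))))))))) (F 62132322604 (U (F 832 (T (F 140 (S L L)) (F 10240 (S L L)))) (F 262147 (S L L)))))) (F 304398469 (U (F 6292060 (T (F 1032 (U (K 8) (F 1212420 (V (F 16 (S L L)) (F 1 (S L L)))))) (F 7170 (U (V (F 65536 (U (K 9) (F 80 (S (K 8) L)))) (K 8)) (T (F 335876 (S L (F 2 (S L L)))) (F 67584 (S (F 103 (V L L)) (F 16416 (V L L))))))))) (F 912261724 (T (F 65604 (U (V (F 4096 (S L L)) (F 16384 (S L L))) L)) (F 384 (U (V (F 21504 (S L L)) (F 8192 (S L L))) L)))))))))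
noncomputable def w4_8 : Tr := (T (F 4610 (U (S (F 73744 (V (F 8224 (U (T L (S L L)) (F 1024 (T L L)))) (T L (U (F 8224 (S (K 7) L)) L)))) (F 8216 (V (F 8260 (T (U L L) (F 256 (U (S L L) (F 1 (S L L)))))) (U (F 64 (U (K 7) (F 4096 (S L L)))) (F 1 (T L L)))))) (F 73744 (S (V (F 8226 (S L L)) (T L (F 1 (S L L)))) (F 1024 (T (F 2048 (V L L)) (V (F 1153 (S L L)) (S L L)))))))) (F 2 (U (F 3201 (S (F 1 (V (T (U (F 2056 (V (F 514 (S L L)) (T L L))) (F 2056 (S L L))) (U (S (F 2056 (V (F 516 (S L L)) L)) (F 3084 (T L L))) (F 2056 (S L L)))) (F 2056 (U (F 128 (T (S L L) (F 1024 (S (S L L) (S L L))))) (F 1 (T (S L L) (F 16 (V (S L L) (S L L))))))))) (F 6144 (V (F 256 (U (F 8 (T (F 256 (S L (T L L))) (S (F 1024 (S L L)) (T L L)))) (F 9 (T (V L L) (V (S L L) L))))) (F 512 (T (U (S L (F 8 (S L L))) (F 1 (S L L))) (U (V (F 8 (S L L)) (F 257 (S L L))) (F 9 (S L L))))))))) (F 294912 (S (F 4160 (V (F 577 (T L (S L L))) (F 16416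 (T (F 128 (U (S L L) L)) (F 4096 (U (F 16 (S L L)) (S L L))))))) (F 12800 (V (F 2305 (T L (T L L))) (F 128 (T (V L L) (F 4100 (V L L)))))))))))
noncomputable def w4_9 : Tr := (U (F 8192 (T (F 65536 (V (F 16384 (S (K 10) (F 64 (U (K 5) (F 2049 (S L L)))))) (K 5))) (F 65600 (V (S (F 3 (T (F 4 (U (K 3) (V L (S L L)))) (S (V (F 4 (U L (S L L))) (U (K 10) (S L L))) (F 4 (V (F 128 (U L L)) (U (K 3) L)))))) (F 8704 (V (T (F 8 (U (K 5) L)) (F 8192 (U (F 33 (S L L)) (F 512 (S L L))))) (F 12288 (T (S L L) (S (U L L) (F 256 (S L L)))))))) (F 3 (S (U (K 10) (T (K 10) (V (S L (S L L)) (S (S L L) (S L L))))) (U (V (F 68 (S (K 3) (F 256 (T (K 7) L)))) (K 10)) (T (F 4 (V L (S (K 3) L))) (V (F 4 (S L L)) (S (T L L) L)))))))))) (F 8195 (T (S (F 32832 (V (F 2048 (V (S L L) (U L L))) (T (S L L) (U (S L L) (S L L))))) (F 20 (V (F 256 (T (F 4096 (S L L)) (F 4112 (U L L)))) (T L (F 513 (S L L)))))) (S (F 32832 (V (T (F 2048 (V (S L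 L) (U L L))) (U (V (F 2048 (S L L)) (S L L)) (V L (S L L)))) (T (U (S (S L L) (S L L)) (S L L)) (U (S (T L (S L L)) (V (S L L) L)) (V (S L L) (S L L)))))) (T (F 32788 (V (F 128 (U (S L L) L)) (F 256 (S (T L L) (F 1024 (S L L)))))) (F 32768 (V (F 5120 (U (F 48 (T L (S L L))) (F 16 (S L L)))) (F 256 (S (U (V L L) (F 16 (S L L))) (F 4116 (U (S L L) L)))))))))))
noncomputable def w4_10 : Tr := (U (F 2048 (T (F 2129968 (S (F 135450 (V (F 2177 (T (F 514 (U L L)) (F 10 (S (U L L) (F 4 (S L L)))))) (F 1024 (T (F 8 (U L L)) (F 66 (S L L)))))) (F 133192 (V (F 9 (T (U (F 576 (S L L)) (F 2 (S L L))) (F 98 (U (S L (S L L)) (S L L))))) (F 34944 (T (F 8192 (V L L)) (F 8208 (U (S L L) L)))))))) (F 10602529 (S (F 8202 (V (T (F 5124 (U (F 16 (S (S L L) (S L L))) (V (F 256 (S L L)) L))) (U (F 1024 (S (F 1056 (V L L)) (F 1056 (V L L)))) (F 4096 (S (F 1057 (S L L)) (F 4 (S L L)))))) (F 132 (T (S (F 2 (U L L)) (U (S L L) L)) (U (V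 (S (S L L) L) (S L L)) (F 2 (S L L))))))) (F 8194 (V (F 1024 (U (T (F 2 (S (F 2052 (S L L)) (S L L))) (S (F 4 (V L L)) (T L L))) (S (F 6 (T L (T L L))) (F 2 (T L (S L L)))))) (F 4 (T (S (F 132 (T L L)) (F 144 (T L L))) (S (F 132 (U (T L L) L)) (U (F 128 (S L L)) L)))))))))) (F 1049098 (T (F 532496 (S (F 32887 (V (F 257 (S L L)) (F 128 (V (F 1024 (S L L)) L)))) (F 32 (U (F 8192 (T (F 8192 (S L L)) (F 65554 (V L L)))) (F 237576 (V L L)))))) (F 1630224 (S (F 3 (V (F 513 (T (F 512 (S L L)) (F 2 (S (F 4 (S L L)) L)))) (F 8 (T (F 4128 (V L L)) (F 4096 (U (F 64 (S L L)) L)))))) (F 32768 (V (F 256 (U (F 8 (T (S L L) (S L L))) (F 11 (S L L)))) (F 4 (T (S L L) (S L L))))))))))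
noncomputable def w4_11 : Tr := (T (F 4489744 (U (F 530440 (V (S (F 28 (U (K 8) (F 4096 (S L L)))) (U (U (K 8) (F 12 (S L L))) (F 12 (S L L)))) (U (K 8) (F 8 (S (F 28688 (V L (K 4))) (T (S (K 8) L) L)))))) (F 589832 (S (F 207 (V (V L (T L L)) (T L (F 2048 (U L L))))) (T (F 132 (V (F 2048 (S L L)) L)) (F 198 (V (S L L) (S L L)))))))) (F 2100758 (U (F 576 (S (F 8202 (V (U (T (V L (F 16 (S (K 5) L))) (F 16 (V (F 4160 (S L L)) (T (S L L) L)))) (F 4096 (T (S L L) (F 256 (V (S L L) (F 2048 (S L L))))))) (F 16 (U (F 4 (T (K 7) (F 2048 (S (F 1 (S L L)) (S L L))))) (F 3 (T (V L L) (F 1024 (V (S L L) (S L L))))))))) (F 2 (V (T (F 8 (U (S L L) (F 2 (S L L)))) (V (F 1 (S L (F 128 (S L L)))) (F 8224 (U (S L L) (S L L))))) (F 32 (U (T (F 2048 (S L L)) (F 4 (V (S L L) (F 10240 (S L L))))) (F 4 (T (F 4104 (T L L)) (V (S L L) L))))))))) (F 196616 (S (F 131 (V (F 32 (T (U (S L L) L) (V L (S L L)))) (F 16 (T (F 129 (S (T L L) L))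 (U (F 128 (V (S L L) L)) (F 1 (S L L))))))) (F 1152 (V (T (S L L) (F 4096 (S L L))) (F 12288 (T (S L L) (F 128 (S L L)))))))))))
noncomputable def w4_12 : Tr := (S (F 16024926127684 (V (F 262678 (U (F 131220 w4_8) (F 13107392 (T (U (F 81928 (V (F 16457 (S L L)) (F 512 (S L L)))) (F 90112 (S L L))) (F 8 (U (S (F 2064 (V L (F 513 (T L (S L L))))) (F 33060 (V (F 8192 (S L L)) (F 1056 (S L L))))) (F 52 (T (S L L) (F 16388 (S L L)))))))))) (F 18891776 (U (F 13795584 w4_9) (F 32669984 (T (U (T (F 10241 (V (S L L) (F 16 (S L L)))) (F 513 (V (S (S L L) L) (S L (F 16 (S L L)))))) (F 2561 (S (S L L) L))) (F 513 (U (V (S (U (T (S L L) (S L L)) (S L L)) (F 4112 (T L (S L L)))) (S (T (S L L) (V (S L L) L)) (F 16 (T (S L L) (F 2 (S L L)))))) (S (T L (S L L)) (F 4112 (T L L))))))))))) (F 18283139302340 (V (F 1083179024 (U (F 66304 w4_10) (F 530055984 (T (F 24 (U (S (F 12288 (V L L)) (F 8200 (V L L))) (F 8200 (S L L)))) (F 28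 (U (V (F 1 (S (F 2 (T L L)) (F 2 (S L L)))) (S (F 8 (T L L)) (T L L))) (S (S L L) L))))))) (F 8704 (U (F 3604 w4_11) (F 2132807264 (T (U (F 40960 (S (F 12544 (V L L)) (F 288 (V L L)))) (F 40960 (S L (F 32 (S L L))))) (F 12 (U (F 20 (V (F 256 (S (F 128 (T L L)) (S L L))) (F 544 (S (F 2048 (T L L)) L)))) (S (F 80 (T L L)) (F 4 (S L L))))))))))))
noncomputable def w4_13 : Tr := (V (F 2491484242016 (U (F 270533128 (T (F 100680368 (U (F 8 (V (F 1048576 (S (F 16 (V (K 12) L)) (F 2048 (U (F 65602 (S (K 8) L)) (F 65538 (S L L)))))) (F 66 (S (F 65620 (T L L)) (F 4 (T (F 16 (S L L)) (F 98576 (U (F 8 (S L L)) L)))))))) (F 12582988 (S (F 16384 (V L (F 24576 (S L L)))) (F 16 (V L (F 16400 (T L L)))))))) (F 39895074 (U (F 294916 (S (F 131080 (V (U (K 8) (F 4 (T L L))) (F 16 (T (F 32768 (S L L)) (U (F 16 (S (K 7) L)) L))))) (V (F 131080 (U (F 4 (T (F 32 (S (K 7) L)) (S L L))) (F 8196 (T (S L L) (S L L))))) (F 32768 (T (F 65548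 (T (F 48 (S L L)) (S L L))) (U (F 65540 (S L L)) (F 65540 (S L L)))))))) (F 1343500 (S (F 65536 (V (T L (S L L)) (F 139272 (T L L)))) (F 65536 (V (F 4096 (T (S L L) L)) (T (F 131072 (S L L)) (F 131080 (S L L))))))))))) (F 27715961468 (T (F 262192 (U (F 16384 (S (F 16392 (V L L)) (F 128 (S L L)))) (F 65552 (S L L)))) (F 396448 (U (S (V L (F 8192 (S L L))) (V L L)) (S L L))))))) (F 549756928384 (U (F 150495841556 (U (F 131072 (T (F 8248 (S (F 589921 (T (F 16424 (U (F 4096 (S L L)) L)) (F 264 (U (F 8192 (S L L)) L)))) (F 1572896 (T (F 307232 (U (F 1088 (V L (S L L))) (F 1024 (S L L)))) (F 262408 (V (S L (F 32 (T L L))) (F 17 (U (F 16 (S L L)) (S L L))))))))) (F 24870 (S (F 163905 (T (F 32770 (V L (U (F 64 (S L L)) L))) (U (F 33026 (S L (S L L))) (F 32770 (V L L))))) (T (F 393217 (V (F 20480 (T (F 4096 (S L L)) L)) (F 2048 (U (F 1 (S L L)) (F 17 (S L L)))))) (F 32835 (U (F 2 (V (F 8 (S L L)) (S (F 64 (S L L)) (S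 L L)))) (F 2 (V (S L L) (S L L)))))))))) (F 27525121 (T (F 196644 (S (F 16388 (T L (F 256 (S L L)))) (F 65536 (T (F 20480 (S L L)) (F 256 (V L L)))))) (F 67600 (S (F 65537 (S (F 8192 (S L L)) (F 8202 (S L L)))) (F 147456 (U (T (F 4098 (S L L)) (F 65664 (S L L))) (F 65538 (S L L)))))))))) (F 425369561580 (U (F 2097152 (T (F 1445928 (S L L)) (F 4331544 (S (F 8 (S L L)) (F 8192 (S L L)))))) (F 2883616 (T L L)))))))
noncomputable def w4_14 : Tr := (T (F 268533872 (U (F 1572872 (S (F 1572992 (U (F 524416 (V (T L (T L L)) (T (F 2064 (S L L)) (F 4096 (S (F 20 (S L L)) (F 514 (S L L))))))) (F 524292 (V (F 20480 (S L L)) (T L (F 8192 (S L L))))))) (F 1064960 (T (F 264 (V (U (F 2 (S L L)) L) (F 262306 (U (F 256 (S L L)) L)))) (F 1064960 (V (S (F 8192 (U L L)) (F 264192 (V L L))) (F 262144 (U (F 1088 (S (F 16384 (S L L)) (F 1024 (S L L)))) (F 68 (S L L)))))))))) (F 101711888 (S (F 1835008 (V (F 80 (S L L)) (F 40960 (S L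 L)))) (F 8208 (V (T L L) (F 10 (T L L)))))))) (F 536876066 (U (F 8 (S (F 2064 (V (F 2375688 (U (F 8192 (T (F 64 (S L (F 36864 (S L L)))) (F 64 (S L (S L L))))) (F 270336 (T (F 36 (S L L)) (F 36 (S L L)))))) (F 272 (T (F 656392 (U (F 514 (S L (F 32 (S L L)))) (F 8196 (S L L)))) (F 2228224 (U (F 132608 (S L (S L L))) (F 131090 (S L L)))))))) (F 16 (T (F 4719104 (V (F 524800 (U (F 4224 (S (S L L) (F 131072 (S L L)))) (F 128 (S L L)))) (F 2114816 (S (F 1064 (S L L)) (F 1024 (U (F 32768 (S L L)) L)))))) (F 256 (V (F 65608 (U (S (F 8328 (S L L)) (F 10 (T L L))) (F 8 (T (F 16384 (S L L)) L)))) (F 8654848 (U (F 296960 (S (S L L) (F 4096 (S L L)))) (F 262144 (S L L)))))))))) (F 25166344 (S (F 2097664 (T (F 69644 (V L (F 1 (S L L)))) (F 72 (V (F 131072 (U (F 8192 (S L L)) L)) (F 262145 (S L L)))))) (F 32 (T (F 4194568 (V (S L L) (F 262144 (S L L)))) (F 4194304 (V (F 278528 (T L L)) (F 1048576 (S L L)))))))))))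
noncomputable def w4_15 : Tr := (T (F 704671760 (U (F 266384 (S (F 131104 (U (F 16 (V (F 40 (T (F 48 (S L (F 1 (S L L)))) (S (F 2 (S L L)) (F 16 (S L L))))) (F 2049 (T (F 1040 (S L (F 4 (T (S L L) L)))) (F 16384 (S (F 4096 (S L L)) (T L (S L L)))))))) (F 18 (T (F 2089 (V (F 8 (S L L)) (S L L))) (F 1 (V (F 5120 (S L L)) (F 16384 (S L L)))))))) (F 155712 (T (F 33808 (V (F 4 (U (S (T L L) (T L (S L L))) (S L L))) (U (S (V (F 4 (S L L)) (S L L)) (V (F 4 (S L L)) (S L L))) (U (S L (S L L)) L)))) (F 1024 (U (F 1024 (V (F 1024 (S (S L L) (F 1 (S L L)))) (F 8192 (S (V (S L L) L) (V (T L L) L))))) (F 1 (V (F 2048 (S L L)) (F 16 (S L L)))))))))) (F 8388804 (S (F 262176 (U (F 8452 (T (F 1044 (S L L)) (S L L))) (F 12292 (S L L)))) (F 1120 (U (F 4096 (T (F 5636 (S L L)) (F 5120 (S L L)))) (F 4104 (S L L)))))))) (F 11534336 (U (F 4106 (S (F 2109456 (U (F 512 (T (F 32 (V (F 32768 (S L (F 32768 (S L L)))) (F 401408 (S (F 16384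 (S L L)) (T (F 512 (S L L)) L))))) (F 3 (V (F 16384 (S L (S L L))) (F 8194 (S (F 4096 (S L L)) (T L L))))))) (F 1048578 (T (F 1056 (V (F 20480 (S L L)) (F 65536 (S (S L L) L)))) (F 33 (V (S L L) (S L L))))))) (T (F 12288 (S (F 295936 (U (F 65568 (V (F 16416 (S L L)) (F 196608 (T (F 512 (S L L)) L)))) (F 65537 (V L L)))) (F 65600 (T (F 2257 (U (F 72 (V L L)) L)) (F 65 (V (F 98308 (S L L)) (F 262152 (S L L)))))))) (F 8194 (V (F 133120 (S (F 131073 (U (S L L) L)) (F 1 (T L L)))) (F 4194312 (U (F 1056 (S (T L L) (T L L))) (S L L)))))))) (F 142606376 (S (F 6293504 (T (F 99840 (V L L)) (F 1081608 (S L (S L L))))) (F 8192 (T (F 264194 (V (F 548 (S L L)) (F 17 (S L L)))) (F 4196352 (V (F 524800 (S L L)) (F 16 (S L L)))))))))))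
noncomputable def w4_16 : Tr := (T (F 268517424 (U (F 4 (S (F 1314824 (V (F 32768 (T (F 8 (U (S (K 8) L) (F 8 (S L L)))) (F 386 (U (S L L) (F 16384 (S L L)))))) (F 526336 (T (F 4 (U (F 24576 (S L L)) L)) (F 161 (U (S L L) L)))))) (F 8 (V (F 262144 (T (F 263176 (U (F 32 (S L L)) (F 4 (S L L)))) (F 327808 (U (S L (S L L)) (F 327680 (S L L)))))) (F 4194384 (T (F 1044 (U (S L L) (F 4 (S L L)))) (F 128 (U (F 4610 (S L L)) (F 688128 (S L L)))))))))) (F 6291492 (S (F 1040 (T (F 8 (U (F 16384 (V (S L L) L)) (F 67 (S L L)))) (F 798752 (S (F 2048 (V L L)) L)))) (F 16 (T (F 2052 (U (V L L) (F 65 (S L L)))) (F 540672 (U (F 8192 (S L L)) (F 1 (S L L)))))))))) (F 423626802 (U (F 20480 (S (F 1540 (V (U (T (F 8192 (S L L)) (F 155648 (S L (F 1 (S L L))))) (F 8192 (T (S L (S L L)) (F 11 (S L L))))) (F 135168 (T (U (S (F 44 (S L L)) (F 16448 (S L L))) (F 6 (S L L))) (F 16385 (U (F 4352 (S (F 8 (S L L)) L)) (F 12288 (S L L))))))))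 (T (F 1028 (V (U (F 16384 (S (F 128 (S L L)) L)) (S L L)) (F 262146 (S (F 16 (S L L)) (T L L))))) (F 4 (U (V (S (F 1024 (S L L)) (F 1026 (S L L))) (F 541186 (S (F 132 (S L L)) (S L L)))) (F 524288 (V (S L L) (F 131092 (S L L))))))))) (F 5242880 (S (F 320 (T (F 396288 (S (F 3 (V L L)) L)) (F 458752 (V L (F 16402 (S L L)))))) (T (F 258 (V (F 66560 (S L L)) (F 8194 (S L L)))) (F 323 (V (S L L) (F 65538 (S L L))))))))))
noncomputable def w4_17 : Tr := (U (F 1050624 (S (F 262936 (V (F 66562 (T (F 512 (S (F 2048 (T L L)) (T L L))) (F 3 (S (F 512 (V L (S L L))) (F 16 (T L (S L L))))))) (F 32768 (T (F 16416 (U (S (F 512 (T L L)) (F 16 (S L L))) (S L L))) (S (F 50 (U (S L L) L)) (F 16418 (U (S L L) L))))))) (F 1343488 (T (S (F 34560 (V (F 1 (U (F 2048 (S L L)) L)) (F 10 (U (T L L) L)))) (F 262144 (V (F 640 (U (F 4096 (S L L)) (F 8192 (S L L)))) (F 12 (U (F 512 (V (F 96 (S L L)) (F 1 (T L L)))) (F 32768 (S L L))))))) (F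 147456 (S (F 132 (U (F 512 (V (F 1 (T L L)) (V (F 1 (S L L)) L))) (F 24576 (T L L)))) (T (F 5 (U (V (F 1024 (S L L)) (F 512 (S L L))) (V L L))) (F 4 (V (F 50176 (U (S L L) L)) (F 512 (U (S L L) L))))))))))) (F 10223624 (S (F 65 (T (F 71680 (U (F 8 (V L L)) L)) (F 70656 (V (F 4096 (S L L)) (S L (S L L)))))) (F 131328 (U (T (F 16 (S (F 64 (S L L)) (T L L))) (F 98304 (S (S L L) (F 1024 (S L L))))) (F 65536 (T (S L L) (F 1 (S L L)))))))))
noncomputable def w4_18 : Tr := (V (F 77309707042 (U (F 553960400 w4_16) (F 1220576037772 (T (F 41948676 (U (F 576 (S (F 82185 (V L L)) (F 9 (S L L)))) (F 3407904 (S L L)))) (F 1031 (U (F 20 (S (F 69713 (T (F 71712 (S L L)) (S L L))) (F 36864 (T (F 8192 (S L L)) (F 32800 (S L L)))))) (F 148 (S L (F 32768 (S L L)))))))))) (F 5502125801537 (U (F 8757720640 (T (F 2214592624 (U (F 68161550 (S (F 7432 (T (F 73728 (V (F 1028 (U (S L L) L)) (U (F 1024 (S L (F 2 (S L L)))) (F 8192 (S L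 L))))) (F 1024 (V (F 2049 (S (F 6144 (S L L)) (V L L))) (F 8 (U (S (F 16384 (S L L)) (F 16400 (S L L))) (F 16384 (S L L)))))))) (F 135169 (T (F 66304 (U (V (S L L) (F 64 (S (F 4098 (S L L)) (F 2 (S L L))))) (F 16384 (V (S L L) (F 4352 (S L L)))))) (F 71680 (V (F 64 (U (F 256 (S (S L L) L)) (S L L))) (F 132 (U (F 256 (S (T L L) (T L (S L L)))) (S L L))))))))) (F 209715206 (S (F 3732 (T (F 10 (S L L)) (F 4096 (S (F 4098 (S L L)) (F 16384 (S L L)))))) (F 2230272 (T (F 1538 (U (F 528 (S L L)) L)) (F 12288 (S L (F 66048 (U L L)))))))))) (F 3758109794 w4_17))) (F 1783183192780 (T (F 1048576 (U (F 16 (S (F 132004 (T L L)) (T L (F 524292 (S L L))))) (F 3145746 (S L L)))) (F 39 (U (S (F 16384 (T (F 36888 (S L L)) (F 65536 (S L L)))) (F 34 (T L (S L L)))) (F 34 (S L L)))))))))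
noncomputable def w4_19 : Tr := (T (F 12884901985 (U (F 8228 (S (F 4284432 (U (T (F 6815752 (V (F 32 (S L (S L L))) (F 1737728 (S L L)))) (F 4260004 (V (F 32 (S (S L L) L)) (F 526338 (S L L))))) (F 2097164 (V (F 40 (T (F 8 (S L L)) (F 16384 (S L L)))) (F 2752512 (T (F 81920 (S L L)) (F 329728 (S L L)))))))) (F 671154208 (T (F 9453568 (V (F 131144 (U (F 64 (S L (S L L))) (S L L))) (F 266240 (U (F 2048 (S L L)) (F 262184 (S L L)))))) (F 8519744 (V (F 1056 (S (F 266240 (U L L)) (F 294976 (V L L)))) (F 272384 (U (F 525320 (S L L)) (F 524290 (S L L)))))))))) (F 805307440 (S (F 100941832 (V (F 8192 (T (F 525392 (V L L)) (F 525440 (S L L)))) (F 12587042 (T (F 65792 (S L L)) L)))) (F 278536 (T (F 32772 (V (F 16 (S L L)) (F 4718595 (S L L)))) (F 262148 (V (F 592 (S L L)) (F 6946819 (S L L)))))))))) (F 67117060 (U (F 160 (S (F 3575676993 (T (F 7344128 (V (F 1024 (U (F 32770 (S L L)) (S L L))) (F 526464 (U (S L L) (F 131072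 (S L L)))))) (F 6307842 (S (F 516 (V (S L L) (F 262400 (U (S L L) L)))) (F 4 (V (F 2048 (T L L)) (F 524544 (U (S L L) L)))))))) (F 4313841696 (U (F 22 (T (F 33554449 (V (F 2232833 (S L L)) (F 2308 (S L (F 8193 (S L L)))))) (F 8536072 (V (F 3 (T L (F 5121 (S L L)))) (F 6295552 (S (F 2 (S L L)) (F 786432 (S L L)))))))) (F 570425368 (T (F 16777236 (V (F 1319936 (S L L)) (F 4198922 (S L L)))) (F 27262988 (V (S L L) (F 1057920 (S L L)))))))))) (F 38117834956 (S (F 16779268 (S (F 20972048 (V (F 128 (T L L)) (F 557088 (T L (F 131072 (S L L)))))) (F 20972032 (T (F 524288 (V L L)) (F 163840 (V L (F 16386 (S L L)))))))) (F 50331657 (V (F 4194305 (T (S L L) (S L L))) (F 290 (T (F 262146 (S L L)) (F 1315330 (S L L)))))))))))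
noncomputable def w4_20 : Tr := (S (F 2097704 (T (F 1179650 (V (S (U (F 128 (S L L)) (F 4 (S L L))) (U (T L (S L L)) L)) (F 12 (S (U (V (T L L) (F 32768 (T L (S L L)))) (T L L)) (U (T (S L L) (F 32768 (S L L))) (F 2 (S L L))))))) (F 1048578 (S (F 20 (U (V (T (S L L) (F 65536 (S L L))) (F 81920 (T (V L L) (S L L)))) (F 81920 (T (V L (S L L)) (F 1 (S L L)))))) (U (F 16 (V (T (F 32768 (S L L)) (F 131072 (S L L))) (F 147456 (T (F 2 (S L L)) (V (S L L) (S L L)))))) (F 5 (V (S L L) (F 49152 (V (S L L) (S L L)))))))))) (F 9 (U (F 8 (T (F 4 (V (F 2 (S (F 64 (T L (S L L))) (F 262144 (V L (F 4096 (S L L)))))) (F 16384 (S (F 262168 (T (F 2 (S L L)) (F 81920 (S L L)))) (F 131080 (T (S L L) (F 16384 (S L L)))))))) (S (F 1048704 (V (T (F 131072 (S L L)) (F 606208 (S L L))) (F 638976 (T (F 2 (S L L)) (U (S L L) L))))) (F 128 (V (F 2 (T L (F 33 (S L L)))) (F 1146880 (T (F 32770 (S L L)) (F 65540 (S (S L L) L))))))))) (F 1048590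 (T (F 8 (S (F 32768 (V L (F 20 (T L L)))) (V L (F 4096 (S L L))))) (F 4 (V (S (F 4096 (S L L)) (F 32769 (T L L))) (F 184320 (S (T L L) (F 8192 (S L L)))))))))))
noncomputable def w4_21 : Tr := (T (F 4563468741 (U (F 80 (S (F 2113553 (T (F 9438210 (U (F 393232 (S (F 384 (V L (F 64 (T L L)))) (V (F 256 (S L L)) (T L L)))) (F 393216 (V (F 256 (S L L)) (F 8192 (S L L)))))) (F 8421382 (S (F 2212 (V (F 512 (S L L)) (U (F 8192 (V L (S L L))) (F 2 (S L L))))) (U (F 264352 (V L (F 8192 (T L L)))) (F 262148 (V L (F 10240 (S L L))))))))) (F 33 (T (F 10248 (V (F 2097152 (U (F 2098176 (S (F 294912 (S L L)) (S L L))) (F 2097168 (S L L)))) (F 1 (U (F 65542 (S (F 32768 (T L L)) (F 64 (S L L)))) (F 81952 (T L L)))))) (F 33693764 (V (F 526336 (U (F 2 (S (S L L) (S L L))) (F 2 (S L L)))) (F 32 (U (F 8196 (S (F 66048 (V L (F 4096 (S L L)))) (T L L))) (F 6 (S (F 68 (S L L)) (S L L))))))))))) (F 855638296 (S (F 3408896 (T (F 16512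 (U (V L (S L L)) (F 32 (S L L)))) (F 20480 (V (U (F 512 (S L L)) L) (F 32 (U (S L L) L)))))) (T (F 2364480 (V (S L L) (F 8194 (S L L)))) (F 2360384 (U (F 2 (V (S L L) (F 16 (S L L)))) (F 2 (S L (S L L)))))))))) (F 40132247563 (U (F 8404992 w4_20) (F 82837514 (S (F 132 (T (U (V (S (F 8192 (S L L)) L) (F 172032 (S L (F 8192 (S L L))))) (F 8192 (S L L))) (F 163840 (U (F 4 (S (F 16384 (V L L)) (V L (S L L)))) (F 5 (S L L)))))) (F 262148 (T (V (S L (S L L)) (F 2048 (U (F 16 (S L (S L L))) (F 17 (S L L))))) (F 133120 (S (U (V L (F 10 (S L L))) L) (F 32768 (U (T (F 2048 (S L L)) L) L)))))))))))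
noncomputable def w4_22 : Tr := (T (F 0x260021022020e5782f (S (F 211121550264192 w4_13) (F 844428975612960 (V (F 69793251360 (U (F 5372920004 w4_14) (F 884897497328 (T (F 92289104 (U (F 262144 (S (F 131072 (S L L)) L)) L)) (F 67633220 (U (F 2392064 (S (F 934016 (S L L)) (F 262144 (T L (F 64 (S L L)))))) (F 2097288 (S L L)))))))) (F 137438953792 (U (F 584853754066 w4_15) (F 1701343973604 (T (F 60842352 (U (F 9218 (S L L)) L)) (F 41943808 (U (F 2 (S (F 4720673 (T L L)) (F 1 (T L (F 48 (S L L)))))) (F 16777248 (S L L)))))))))))) (F 0x20404411c220186180c (S (F 900843071046157440 w4_18) (F 324699252969178240 (V (F 36440650022976 (U (F 2233718546432 w4_19) (F 15659920535776 (T (F 41943044 (U (S (F 2105876 (T (F 384 (S L L)) (F 257 (S L L)))) (F 2097154 (T L (F 2113537 (S L L))))) (F 16777216 (S L (F 4194308 (S L L)))))) (F 50331653 (S (F 80 (U (T (F 524545 (S L L)) (F 1048833 (S L L))) (F 1048577 (S L L)))) (F 70 (U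 (T (F 262144 (S L L)) (F 1310721 (S L L))) (F 262145 (T L L)))))))))) (F 4295033344 (U (F 9589330 w4_21) (F 134074920438224 (T (F 27557888 (S (F 16460 (U (F 262144 (T L (F 16384 (S L L)))) L)) (F 12 (U (F 1183744 (T (S L L) (S L L))) (F 1179648 (S L L)))))) (F 67928064 (S (F 17858564 (U (F 688128 (T (F 139266 (S L L)) (F 205056 (S L (S L L))))) L)) (F 16777306 (U (F 264192 (T (F 512 (S L L)) (F 135680 (S L (F 16388 (S L L)))))) (F 262145 (S L L)))))))))))))))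
noncomputable def w4_23 : Tr := (V (F 4294969440 (U (F 9261034624 (T (F 788570160 (U (F 16640 (S (F 270336 (T (F 417808 (U (F 8192 (S L L)) L)) (F 147736 (V (F 8201 (S L L)) L)))) (F 1352705 (T (V (U (F 17408 (S L L)) L) (F 16384 (S L L))) (F 16384 (V (U (S L (S L L)) L) (S L L))))))) (F 6291460 (S (F 8260 (T L (F 520 (S L L)))) (F 565248 (U (F 1024 (T L (F 256 (S L L)))) L)))))) (F 49186 (U (F 8205 (S (F 3279624 (U (F 8198 (T (F 512 (V L L)) (V (S (F 512 (S L L)) L) (F 512 (S L L))))) (F 8194 (T (F 8704 (S L L)) (V L L))))) (F 6815744 (T (F 135698 (V (F 1 (U (F 16 (S L (S L L))) (S L L))) (F 2184 (S L L)))) (F 2056 (U (F 33048 (V (F 16512 (S (S L L) (S L L))) (F 16 (S L L)))) (F 264 (V (F 65800 (S L L)) (F 8192 (S L L)))))))))) (F 17302076 (S (F 262792 (V L (S (F 64 (S L L)) L))) (F 1048576 (U (F 4 (T (F 163841 (S L L)) (F 4232 (S L L)))) (F 524290 (S L L)))))))))) (F 442515860732 (T (F 144 (U (F 8196 (S L (F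 33280 (S L L)))) L)) (F 530580 (U (S (F 4 (S L L)) L) L)))))) (F 36775661696 (U (F 75296145952 (T (F 67633168 (U (F 2097308 (S (F 2576 (U (K 8) (V (F 132096 (S L L)) (S (K 8) L)))) (F 12288 (V (F 1060 (T (F 8 (V L L)) (F 528 (S L L)))) (F 135168 (U (F 16384 (S (K 7) L)) (S L L))))))) (F 287309980 (S (F 4 (V (F 5120 (T L L)) L)) (F 1024 (V (F 263200 (S L L)) L)))))) (F 268486704 (U (F 2180 (S (F 589824 (T (F 540676 (U (K 10) (V L L))) (F 8192 (U (F 66 (V L (K 8))) (F 131074 (V L (S L L))))))) (F 64 (T (F 12 (V (F 8 (V L L)) (F 32768 (U L L)))) (F 1048640 (V (F 131136 (U (S L L) (F 4096 (S L L)))) (F 65568 (U (F 4 (S L L)) (F 4 (S L L)))))))))) (F 524684 (S (F 270338 (V (F 34816 (S L L)) (F 4096 (S L L)))) (F 8192 (V (T (F 69636 (S L L)) L) (F 270340 (T L L)))))))))) (F 214379267676 (T (F 2129924 (U (V (S L L) (F 1048576 (S L L))) (F 131088 (S L L)))) (F 265217 (U (F 8196 (V (F 34 (S L L)) (F 2064 (S L L)))) (F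 294916 (S L L)))))))))
noncomputable def w4_24 : Tr := (T (F 570884145 (U (F 262674 (S (F 18440 (U (F 132096 (T (F 8192 (V (F 2048 (S (F 4096 (S L L)) (F 520 (T L L)))) (S (F 2 (S L L)) (F 16 (T L L))))) (V (F 8192 (S (F 2 (S L L)) (U (F 2048 (T L L)) L))) (F 16384 (S L L))))) (F 131078 (T (F 64 (V (F 1536 (S L L)) (S L L))) (F 64 (V (S L L) L)))))) (F 16384 (T (F 74020 (V (F 80 (U (F 4096 (S (V (S L L) (S L L)) (V (S L L) (S L L)))) (F 4096 (S L L)))) (F 1 (U (F 256 (V (F 8 (S L L)) L)) (S L L))))) (F 524288 (V (F 1152 (U (F 32 (S (F 20 (V L L)) (F 20 (T L L)))) (F 16384 (S L L)))) (S (F 4 (U (F 2304 (S L L)) L)) (F 8196 (U L L))))))))) (F 19136528 (S (F 925760 (T (F 2176 (S L L)) (S L L))) (F 12352 (T (F 8266 (U (F 128 (S L L)) L)) (V (F 2 (S L L)) L))))))) (F 134283298 (U (F 2098248 (S (F 16400 (U (F 525318 (T (F 128 (V (F 131328 (S (F 1024 (S L L)) (F 1024 (V L (S L L))))) (F 16416 (S L L)))) (F 128 (V (F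 131072 (S (F 8512 (S L L)) (V (F 256 (S L L)) (F 68 (S L L))))) (F 17408 (S L L)))))) (F 540672 (T (F 525313 (V (F 512 (S L L)) (F 66 (S L L)))) (F 786432 (V (F 262144 (S L L)) L)))))) (F 16384 (T (F 9437184 (S (F 1067012 (V (F 2048 (U (F 256 (S L L)) L)) (F 2 (T L L)))) (F 16384 (U (F 8194 (V (T L L) (F 131072 (S L L)))) (F 270336 (V L L)))))) (U (F 1064964 (V (F 524289 (S (V L (S L L)) (T L L))) (F 384 (S (F 16448 (S L L)) (F 262208 (S L L)))))) (F 9453568 (V (T L (F 262208 (S L L))) (F 262208 (S L L))))))))) (F 321126472 (S (F 1573888 (T (F 512 (V L L)) (F 72 (S L (V L L))))) (F 9216 (T (F 2 (V (S L L) L)) (F 4 (V (F 131072 (S L L)) L)))))))))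
noncomputable def w4_25 : Tr := (U (F 585457730752 (T (F 942194704 (U (S (F 2097280 (V (F 2359296 (T (F 2360328 (U (F 32768 (S L L)) L)) (F 4 (U (F 24 (S L L)) L)))) (F 1048592 (U (F 4 (T L L)) (F 8 (T L L)))))) (T (F 35652272 (V (F 655364 (U (F 16 (S L L)) L)) (U L L))) (V (F 33554593 (U (F 16388 (S L L)) (F 12 (S L L)))) (F 3276808 (U (F 163840 (S L L)) L))))) (F 35651712 (S (F 1835008 (T L (F 65536 (S L L)))) (V (F 4325380 (S L L)) (F 72 (S L L))))))) (F 16 (U (F 134217784 (S (F 35795472 (V (F 128 (T (F 65544 (U (F 133 (S L L)) L)) (F 1064962 (U (F 4160 (S L L)) L)))) (F 32832 (U (F 2 (T (F 64 (T L L)) (S L (F 64 (S L L))))) (F 131074 (T L (S L L))))))) (F 34209792 (T (F 4096 (V (F 18120712 (S (F 65792 (S L L)) (S L L))) (F 656 (U (F 1048576 (V L L)) (F 1048640 (S L L)))))) (F 19202240 (V (F 561152 (S (F 128 (V L L)) (F 128 (S L L)))) (U (S (F 768 (S L L)) (F 524288 (T L L))) (S L L)))))))) (F 285212784 (S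 (F 51380240 (T (F 12544 (S L L)) (F 4260128 (V L (F 256 (S L L)))))) (F 1310720 (T (F 33563136 (V L L)) (F 52560008 (V L (F 4096 (S L L)))))))))))) (F 1710470727152 (T (F 19542080 (U (S L (F 16 (S L L))) (F 589824 (S L L)))) (F 35651784 (U (S (F 8388676 (S L L)) (F 8388736 (S L L))) (F 8388672 (S L L)))))))
noncomputable def w4_26 : Tr := (T (F 1073742960 (U (F 2099202 (S (F 1544 (V (F 4136 (T (F 49152 (U (S L (F 8 (T L L))) (F 2 (S L L)))) (F 34 (U (F 6 (S L L)) (S L L))))) (F 278532 (T (F 24608 (U (F 64 (S L L)) L)) (F 8192 (U (F 1028 (S L L)) (F 4 (S L L)))))))) (F 2097672 (V (F 2068 (U (F 4096 (T (F 2 (S (F 128 (T L L)) (T L L))) (F 1024 (S L (F 8192 (U (T L L) L)))))) (F 32768 (T (F 8 (S L L)) (F 17408 (S L L)))))) (F 278530 (S (F 32832 (U (T L L) (S L L))) (F 32768 (T (F 532 (U L L)) (U (F 528 (S L L)) L))))))))) (F 6291474 (S (F 800 (T (F 10 (V L L)) (F 131076 (V L (F 16384 (S L L)))))) (F 524320 (T (F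 6146 (U (F 512 (S L L)) L)) (F 266240 (U (F 512 (V L L)) (F 65537 (S L L)))))))))) (F 1342179506 (U (F 132096 (S (F 260 (V (F 8 (U (F 128 (T (F 34832 (S (F 2064 (S L L)) L)) (F 6144 (S (F 4098 (S L L)) (F 6 (S L L)))))) (F 4 (T (F 6144 (S L L)) (F 77832 (S L L)))))) (F 16 (T (F 98432 (U (V L L) (F 8192 (S L L)))) (F 34 (S (F 6148 (S L L)) (T L L))))))) (T (F 268 (V (F 42 (U (S (F 64 (V L L)) (F 2048 (V (S L L) L))) (S L L))) (U (S L (F 6 (S L L))) (F 8 (S L L))))) (F 260 (V (F 131106 (U (S (V L L) (F 18432 (S L L))) (F 16384 (S L L)))) (U (S (F 16384 (T L L)) (F 2 (S L L))) (F 131072 (S L L)))))))) (F 3145728 (S (F 128 (T (F 532488 (U (F 264 (V (S L L) L)) (F 16393 (S L L)))) (F 525328 (V (F 16392 (S L (S L L))) (F 16 (S L L)))))) (F 2064 (T (F 8 (V (U (F 147520 (S L L)) L) (F 64 (S L L)))) (F 262144 (V (F 32768 (U (F 4096 (S L L)) L)) (F 32 (S L L)))))))))))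
noncomputable def w4_27 : Tr := (T (F 328304 (U (F 67108884 (S (F 1083392 (V (F 8200 (T (F 72 (U (F 4096 (S L L)) L)) (F 128 (S L (F 4096 (S L L)))))) (F 16384 (U (T (F 131208 (S (K 8) L)) (F 384 (S L L))) (F 8 (T (F 8200 (S L L)) (F 8192 (S L L)))))))) (F 128 (V (F 1245192 (S (F 2176 (T (F 8 (U L L)) (F 8 (S L L)))) (F 2048 (U (F 261 (T L L)) (S L L))))) (F 528 (U (T (F 263240 (S L L)) (F 128 (T L (S L L)))) (F 8 (T (F 2060 (S L L)) (F 16384 (S L L)))))))))) (F 76021764 (S (F 1311296 (V (F 16392 (T L (F 4 (S L L)))) (F 256 (S (F 32768 (T L L)) L)))) (F 1048640 (T (F 73740 (V (S L L) L)) (V (F 12 (S L L)) L))))))) (F 2147561570 (U (F 8388608 (S (F 5245184 (V (F 65536 (T (F 4352 (V (F 69889 (S L L)) (S L (S L L)))) (F 1048582 (U (F 2432 (S L L)) (S L L))))) (F 1048832 (T (F 272 (S (F 32 (U L L)) (S L L))) (F 16640 (U (F 8192 (S (F 66 (S L L)) L)) (F 73728 (S L L)))))))) (F 4196384 (V (F 1 (T (F 64 (S (F 256 (V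 L L)) (T L L))) (F 2 (U (F 16904 (S L L)) (F 524296 (S L L)))))) (F 528 (T (U (S L (S L L)) (F 2 (S L L))) (F 32898 (U (S L L) (S L L))))))))) (F 9437184 (S (F 2622466 (V (F 524288 (T (F 130 (S L L)) (F 524322 (S L L)))) (F 16640 (T (F 134 (S L L)) (F 7 (S L L)))))) (T (F 525320 (V (F 1 (S L L)) (F 1048584 (S L L)))) (F 524302 (V (F 8193 (S L L)) (F 65544 (S L L))))))))))
noncomputable def w4_28 : Tr := (U (F 1076 (S (F 262928 (U (F 65552 (T (F 197128 (S (F 128 (V (T L (S L L)) (S L L))) (V (F 16384 (T (S L L) L)) (T L L)))) (F 131080 (S (F 2 (V (V (F 257 (S L L)) (F 2 (S L L))) (F 130 (T L L)))) (F 2 (V (T (F 257 (S L L)) (F 2 (S L L))) (F 2 (T L L)))))))) (F 6 (T (F 65544 (S (F 8320 (T L (F 128 (S L L)))) (F 128 (V L L)))) (F 24 (V (F 4 (S (S L L) (F 1 (S L L)))) (F 32768 (S L (F 8192 (S L L)))))))))) (F 1310976 (T (F 262148 (V (F 1 (U (F 4352 (S (F 32768 (V (S L L) (F 4096 (S L L)))) (T L L))) (S L (F 256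 (S L L))))) (F 144 (S (F 16384 (U (F 256 (V (F 32768 (S L L)) L)) L)) (U (V (F 131328 (S L L)) L) L))))) (F 335872 (U (F 65536 (V (F 131072 (S (T (F 32768 (S L L)) (F 32773 (S L L))) (T (S L L) (F 1 (V L L))))) (F 81920 (S (T (S L L) (S L L)) (T (V L L) (V L L)))))) (F 65536 (S (F 16386 (V (F 1 (T L L)) (F 2 (S L L)))) (F 147456 (V (S L L) (F 1 (S L L)))))))))))) (F 17826328 (S (F 7340056 (V (F 262164 (T (S L L) (F 16 (S (F 16384 (S L L)) L)))) (F 139264 (T (F 4096 (S L L)) (S (S L L) L))))) (F 1114121 (U (F 20 (T (V (S L L) L) (F 32 (S (F 16386 (T L L)) (T L L))))) (F 4 (T (F 32768 (S L L)) (F 37 (V L (S L L))))))))))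
noncomputable def w4_29 : Tr := (S (F 4194369 (T (F 1835008 (U (F 331776 (V (F 8 (S (T (U L (S L L)) (U L L)) (T (F 16384 (S L L)) (V L L)))) (S L (F 2 (T L L))))) (F 262144 (S (F 2 (V (F 86016 (S L L)) (S L L))) (F 70 (V (F 8192 (T L L)) L)))))) (F 1572866 (V (F 40964 (S (F 4 (U (T (S L L) L) (S L L))) (F 4 (U (T (S L L) (S L L)) (T L L))))) (U (F 8192 (S L (F 65536 (T L L)))) (F 4 (S L L))))))) (F 131104 (U (F 8 (T (F 655377 (S (F 98310 (V (T (F 1 (S L L)) (S L L)) (T (S L L) (S L L)))) (F 4 (V (F 5 (T (V L L) (F 16384 (V (S L L) (S L L))))) (F 8 (T (F 16384 (S L L)) (F 16384 (S L L)))))))) (F 40 (S (F 1048578 (V (F 81920 (T (F 16384 (V L L)) (V (F 65536 (S L L)) L))) (F 4 (T L (S L L))))) (F 40 (V (F 1 (T (F 163844 (S L (S L L))) (F 131074 (S (S L L) (F 16384 (S L L)))))) (F 65536 (T (F 147456 (S L L)) L)))))))) (F 9175054 (T (F 81924 (S (V (F 16384 (T L L)) (S L L)) (V (F 16384 (T L L)) (S L L)))) (F 4 (S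 (V (F 65546 (T (S L L) L)) (S L L)) (F 9 (V (F 16385 (S L L)) (S L L))))))))))
noncomputable def w4_30 : Tr := (T (F 292328573409 (U (F 6291488 (S (F 4194304 (T (F 18874376 (U (F 8448 (V (F 33417 (S L (S L L))) (S (F 4100 (S L L)) (F 128 (S L L))))) (F 1572864 (V (F 32769 (S L L)) (F 4224 (S L L)))))) (F 17039360 (S (F 2097416 (U (F 516 (V (F 263168 (S L L)) (S L L))) (F 4 (V L L)))) (F 9437192 (U (F 258 (V (F 141312 (S L L)) L)) (F 2 (V L L)))))))) (F 79822864 (T (U (F 1048708 (V (F 4128 (S (T L L) (F 8 (T L L)))) (S (S L L) (S L L)))) (F 1048576 (S (F 794656 (V L L)) (F 270368 (V L (S L L)))))) (F 1081344 (V (F 2048 (U (F 4 (S (S L L) (T (F 2048 (S L L)) (S L L)))) (S (F 6 (S L L)) (F 4 (S L L))))) (F 4096 (U (S L (F 129 (S L L))) (S L L))))))))) (F 304087096 (S (F 2097152 (V (F 196613 (T (S L L) (U L L))) (T (F 196868 (U L L)) (F 65536 (S L L))))) (F 96 (V (F 137 (S (F 131072 (T L (S L L))) (F 1 (U (F 128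 (T L L)) L)))) (T (F 648 (U (S L L) L)) (S L (F 2097282 (S L L)))))))))) (F 275146391556 (U (F 2182086688 (S (F 67108945 (T (F 16810000 (V (F 18882624 (S (F 4098 (S L L)) (F 131072 (U (F 270336 (T L L)) L)))) (F 4194816 (U (F 513 (S L L)) (F 4 (S L L)))))) (F 5 (V (F 36992 (S (F 532484 (T L L)) (F 6 (T L L)))) (F 8389634 (U (F 4360 (S L L)) (F 1048576 (S L L)))))))) (F 2415920144 (U (F 16396 (T (F 49 (S (F 2 (V (F 36872 (T L L)) (F 1056768 (S L L)))) (F 262720 (V (T L (S L L)) L)))) (F 8421376 (V (F 196640 (S (F 1 (S L L)) (F 524288 (S L L)))) (F 1048577 (S L (F 65536 (S L L)))))))) (F 146800650 (T (F 2098184 (V (F 288 (S L (F 131072 (S L L)))) (S L L))) (S (F 2098176 (V L L)) (F 2171912 (V (S L L) L))))))))) (F 38386270308 (S (F 16778240 (T (F 5251076 (V (F 2097184 (S L L)) (F 2 (S L L)))) (F 20971520 (V (F 10486794 (S L L)) (F 524544 (S L L)))))) (F 16777224 (T (F 2170884 (V (F 2097184 (S (S L L) L)) (F 1048576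 (S L L)))) (F 50331650 (V (F 6300820 (S L L)) (S L L))))))))))
noncomputable def w4_31 : Tr := (V (F 34368129568 (U (F 27955565189 (T (F 2147492193 w4_28) (F 4294992644 (U (F 524804 w4_29) (F 298320402 (S (F 4 (U (F 2 (T (F 65536 (V (F 131112 (S L L)) (F 2 (S L L)))) (V (F 86017 (S L L)) (S L L)))) (F 524290 (T (F 32768 (S L L)) (F 1 (V (F 4 (S L L)) L)))))) (F 794624 (U (T (F 163842 (S (V (F 4096 (S L L)) L) (V (F 4096 (S L L)) (S L L)))) (F 163840 (V (F 20480 (S L (F 1 (S L L)))) (S L L)))) (F 163840 (T (F 20480 (V (S L L) L)) (F 1 (S (S L L) L)))))))))))) (F 54856932955060 (T (F 50350212 (U (F 262145 (S (F 524292 (T L (F 278528 (S L L)))) (F 167936 (T (S L L) (F 163842 (S L L)))))) (F 4456465 (S L L)))) (F 67111173 (U (F 5505025 (S (F 128 (T (F 262150 (S L L)) (F 262656 (S (S L L) L)))) (F 271488 (T (F 10 (S (S L L) L)) (F 32768 (S L L)))))) (F 13893633 (S L (F 196672 (S L L)))))))))) (F 2491098891520 (U (F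 4294967312 w4_30) (F 7964144443796 (S (F 20971524 (T (F 598020 (U (T L (S L L)) L)) (F 8388608 (U (T (F 1049161 (S L L)) (F 4194369 (S L L))) (F 5242881 (S L L)))))) (F 79691812 (T (F 36864 (U (T (F 131072 (S L L)) (F 262144 (S L L))) L)) (F 2097154 (U (T (F 288 (S L L)) (F 524289 (S L L))) (F 1 (S L L)))))))))))
noncomputable def treeW4 : Tr := (F 0xfffffffffffffffffffffffffffffffffffffffffffffffffffffffffffffffffffffffffffffffffffffffffffffffffffffffffffffffffffffffffffffffffffffffffffffffffffffffffffffffffffffffffffffffffffffffffffffffffffffffffffffffffffffffffffffffffffffffffffffffff1e0738100defff811f7fffffffffffffffffffffffffffffffffffffffffffffffffffffffffffffffffffffffffffffffff7fc2213107ffc1c0fffc70c1ff810201fffffffffffffffffffffffffffffffffffffffffffffffffffffffffffffffffffffffffffffffffffc1008 (S (F 0x48fc04010203f8801e271e6fa063f (V (F 0x105080020404001121 (T (F 146937909575159488 w4_0) (F 57726005019524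 (S (F 102399771641100 w4_3) (F 1778533004 w4_6))))) (F 0x82a40110000120804 (T (F 2114085982309764 w4_7) (F 72067490599346697 w4_12))))) (F 0x443a0102002007c7e01807000700 (V (F 0x9010242100200004200009 w4_22) (F 0x4a08021812108100006244 (T (F 0x42000e048800e9781f (S (F 2199962788288 w4_23) (F 26663257686016 (V (F 67112992 (U (F 76241 w4_24) (F 1771674101232 (T (F 10492992 (U (F 9 (S (F 65536 (S L L)) L)) L)) (F 1088 (U (F 1 (S (F 3146752 (S L L)) (F 262144 (T L (F 65572 (S L L)))))) (F 32 (S L L)))))))) (F 1208221696 w4_25))))) (F 259527625109542937 (S (F 58562190868976128 (V (F 549755945360 (U (F 201588936 w4_26) (F 76999033036 (U (F 512 (T (F 1048592 (S (F 196801 (S L L)) (F 393217 (S L L)))) (F 7340032 (S (F 49168 (V L (S L L))) (F 524288 (T (F 10 (S L L)) (S L L))))))) (F 5 (S (F 2113584 (T L (F 131088 (S L L)))) (F 2113553 (T L (S L L))))))))) (F 137438961696 (U (F 2684354756 w4_27) (F 446299111628 (T (F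 1049216 (U (S (F 8216 (V (F 18 (S L L)) L)) (V (F 589836 (S L L)) (F 16 (S L L)))) (F 1572888 (S L L)))) (F 262275 (U (S (F 8192 (T (F 32 (S L L)) (F 8 (S L L)))) (F 8 (V (F 64 (S L L)) (S L L)))) (S (F 8216 (S L L)) (F 8 (S L L))))))))))) (F 22570774695116800 w4_31)))))))))

theorem pW4 : chkW par treeW4 128 128 128 128 256 256 327680 655360 Lc = true := by decide +kernel

noncomputable def w5_0 : Tr := (V (F 5075345808033800 (T (F 3968550879301 (S (F 238379090664 (U (F 2623730 (U (F 8192 (U (F 32774 (V L L)) L)) L)) L)) (F 85899347056 (U (F 404762652 (U (F 2592768 (V (F 131584 (V L L)) (F 8192 (T L L)))) L)) L)))) (F 73804719096792 (S (F 198105369216 (V (F 2048 (U (F 53502793 (U (F 94 (T (F 2048 (T L L)) (F 2048 (T (S L L) (T L L))))) L)) L)) (F 8454160 (U (F 39387264 (U (F 131134 (T L (V L L))) L)) L)))) (F 188978561664 (V (F 541065248 (U (F 288498049 (U (F 67784 (U (T L (F 20480 (S L L))) (F 22528 (S L L))))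 L)) L)) (F 1026 (U (F 101205832 (U (F 450 (U (F 1 (T L (F 12 (S L L)))) L)) L)) L)))))))) (F 38562209252507920 (T (F 61083025408516 (S (F 120015847432 (U (F 524528 (U (F 327680 (V L (F 33312 (T L L)))) L)) L)) (F 38655229960 (V (F 263172 (U (F 252837984 (U (F 96 (T L L)) L)) L)) (F 134217800 (U (F 103952388 (U (F 448 (T L (F 491520 (S L L)))) L)) L)))))) (F 3367272220632 (S (F 4294971464 (V (F 335544324 (U (F 80281792 (U (F 124 (T L (F 16384 (S L L)))) L)) L)) (F 16777217 (U (F 428933540 (U (F 190 (T (F 4356 (S L L)) (F 4096 (U (F 16 (S L L)) L)))) L)) L)))) (F 12884907032 (V (F 16777728 (U (F 4522112 (U (F 65796 (U (F 81924 (T L (S L L))) (F 638980 (S L L)))) L)) L)) (F 33554432 (U (F 67928212 (U (F 816 (T (F 4096 (S L L)) (U (F 36864 (S L L)) L))) L)) L)))))))))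
noncomputable def w5_1 : Tr := (V (F 49680402113728544 (T (F 103379862831108 (S (F 549756076856 (V (F 65668 (U (F 170984225 (U (F 4616 (S L L)) L)) L)) (F 537001986 (U (F 159940736 (U (F 24 (S L L)) L)) L)))) (F 12582960 (V (F 1048586 (U (F 134222081 (U (F 91144 (T (F 9503328 (S L L)) L)) L)) L)) (F 19864223748 (U (F 303112480 (U (F 33816576 (S L L)) L)) L)))))) (F 2327890100320 (S (F 60263762584 (V (F 268435974 (U (F 16925697 (U (F 1536 (T (F 16392 (S L L)) (F 1064960 (S L L)))) L)) L)) (F 41 (U (F 138576896 (U (F 8389408 (S (F 524306 (T L L)) (F 6 (S L L)))) L)) L)))) (F 184 (V (F 4100 (U (F 2022641921 (U (S (F 327680 (T L (F 6 (S L L)))) (F 3211264 (T L L))) L)) L)) (F 19864232192 (U (F 655482880 (U (F 4202496 (T L (F 262146 (S L L)))) (F 5767173 (S L L)))) L)))))))) (F 34362114048 (T (F 1872193440981292 (S (F 4398314980568 (V (F 3489665032 (U (F 79726592 (U (F 2328 (U (F 4 (S L L)) L)) L)) L)) (F 256 (U (F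 610689100 (U (F 48 (T L (F 393216 (S L L)))) L)) L)))) (F 2272 (V (F 283467849744 (U (F 1145455104 (U (F 67141696 (S L (F 1048610 (S L L)))) L)) L)) (F 134234656 (U (F 9224196 (U (F 160 (U (F 2244608 (S L L)) L)) L)) L)))))) (F 4547305215124429 (S (F 120259084296 (V (F 268470276 (U (F 102777928 (U (F 4195072 (T L (F 524305 (S L L)))) L)) L)) (F 672137216 (U (F 573768196 (U (F 4195840 (T (F 598040 (S L L)) (F 65536 (S L (F 196608 (S L L)))))) L)) L)))) (F 50335784 (V (F 19327418372 (U (F 469960712 (U (F 4195328 (T (F 102422 (S L L)) (F 622598 (S L L)))) (F 8126464 (S L L)))) L)) (F 1075838984 (U (F 407339036 (U (T (F 524804 (S L L)) (F 2097164 (S L (F 1 (S L L))))) (F 2883588 (S L L)))) L)))))))))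
noncomputable def treeW5 : Tr := (F 0xfffffffffffffffffffffffffffffffffffffffffffffffffffffffffffffffffffffffffffffffffffffffffffffffffffffffffffffffffffffffffffffffffffffffffffffffffffffffffffffffffffffffffffffffffffffffffffffffffffffffffffffffffffffffffffffffffffffffffffffffffffffffffffffffffffffffffffffffffffffffffffffffffffffffffffffffffffffffffffffffffffffffffffffffffffffffe21ff09f81c1c0fff830c1c3f08023fffffffffffffffffffffffffffffffffffffffffffffffffffffffffffffffffffffffffffffffffffff008 (S (F 0x603c3f100000042407 w5_0) (F 0x90e2308000000038c0 w5_1)))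

theorem pW5 : chkW par treeW5 128 128 128 128 256 256 655360 1310720 Lc = true := by decide +kernel

noncomputable def w6_0 : Tr := (T (F 0xd03eb861fc0805b56188fc8f68626e10383f70be4040e207ff518691081c00802650438b067ff8888048 (S (F 0xc038f8e1610001e18cfc210400301d5069189394181ce0a8107 (V (K 35) (F 0x14c04110000814142824904005280882490 (T (F 0x22210704001f042106080060604 (U (K 21) (F 0xe7f84c02ac0092801b5d4 (S (K 39) (K 40))))) (F 0x83041800201500900e0080c0c8d (U (K 21) (F 0x8b12621af007650008cc4 (S (K 39) (K 39))))))))) (F 0x393818c4632000a1444f18aa103894a25411800c17041768367 (V (F 0x8214a0c108082290018002280411a21202 (T (F 0x3220c40208b761027200020c0a2 (U (K 26) (F 0x43620067300710002384 (S (F 12385048225399600 (S (K 11) (K 17))) (K 35))))) (F 0x931000008250003162484081281 (U (F 0x20100308000409005802 (S (K 55) (K 50))) (F 0x96e3003580b7c8000dc60 (S (K 40) (F 9429549846954112 (T (K 17) (F 605858889728 (V (K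 22) (K 15))))))))))) (F 0x120a940202096cd620408a4024000404911 (T (F 0x1144708500843401f401045920 (U (F 0x8000000200a4a0000 (S (K 49) (F 0xc81500c8805800181 (S (K 12) L)))) (F 0x41c000480326000a9c0 (S (F 101421223543573537 (S (K 8) (K 8))) (F 225182542243824161 (U (S (K 11) (F 689615668228 (T (F 103618183180 (V (K 10) L)) L))) (F 5085510500380 (T (F 103083935748 (V (S (F 33587208 (T L (F 209715216 (S (K 2) (K 6))))) (K 10)) (F 1115717675 (U (S (K 20) (U L (T (S L L) L))) (S (T (V L L) (K 20)) (T (V L (S (T L L) (T L L))) (V (S L L) (S L (S L L))))))))) (F 45634224192 (S (K 4) (F 138944513 (U L (F 1 (V (F 512 (S L L)) (F 1 (S (K 20) (F 16384 (U L L)))))))))))))))))) (F 0x2028b28000014180800400801 (U (K 21) (F 0x25945800dc06b3000179a0 (S (K 44) (F 144722119032312912 (T (F 8801471725794 (V (F 287311876 (S (K 6) (K 16))) (K 30))) (K 10))))))))))))) (F 0x98241f87791687188011c04348081003f9128919b0c1c08380010187cb9c1c3c00877803e14284fc07f061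 (S (K 170) (F 0x44e71b04c80c028e6443546001926182e4c741e0945ab23a2814f (V (F 0x128444082004c8801082a4000109440255 (T (F 0xb22004400f400bc2c486000546 (U (F 0x78014604009100c44 (S (K 51) (K 31))) (F 0x1db8f0cb7013b88000cc4 (S (K 35) (F 19800352981512 (U (K 24) (F 17183014960 (T (F 1025 (V (K 13) (K 20))) (F 67113985 (T (K 19) (K 19))))))))))) (F 0x1c291209193e41a81a084e04278 (U (F 578150909176971268 (S (K 48) L)) (F 0x1a1080e4720d0000064 (S (K 41) (F 1231607651680296 (V (K 24) (K 10))))))))) (K 33))))))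
noncomputable def w6_1 : Tr := (F 0x2f001103c01f0023f02078901f8001310403001e007e787c00032383c003f8023c00fe41e41e3c203f8401e4009fc1009e00fc4f27c0613073ff04041f12401c8201041e1f01c27827927ff3fc48710857880060001ffe01fc412e040801fff8184020003f878010801e2007fbfe07e001f820018824823fc3fe080003f9400201c020700201f786024fffc0600841 (V (F 0x2211120410060186061092a42122110402120420a08a0908488aa284211004d24009042080108108044081410820a50844480840848850002412490908128101502a2040820410210914aa5050014a2108124240021808c2289290 (U L (F 0x18200041ffffc0bc0101c300000000002000c38b9070be01fff018f3e3f00001c07b3181fe1e03c21f1fc580000ea40000048a0303f383c00f03fffc9f38167f87f8160193c7f (T (F 0xdc0fd330fd47001818c47c0ffc060772063fcf27c88403111ffe0a9212483908043001fc9a03ffc449040 (S (F 0xe033f520c62026b957c14b20002838c395800c009e022030207 (V (F 0x50428141044d4120002a40588108053022 (T (K 83) (F 0x20c6100480003e10404a0e2942b (U (K 16) (F 0x183b24723e0bf4803126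 (V (K 33) (K 28))))))) (F 0x2a404229213228200950100804800c28090 (T (K 77) (F 0x18108001e00710e8820b395a15 (U (K 20) (F 0x61910a4e01f90009d08 (S (K 35) (K 30))))))))) (F 0x2dc313245ce00200646f8c352a02119088010402419e21690767 (V (F 0x41010a8243254000880022200085021081 (T (F 0x12034a020c270202bca0081101a0 (U (F 0x800007c280000000020 (S (K 57) (F 0xc87900406010088b01 (S (K 6) L)))) (F 0x10ec0007e6007140037e2 (S (F 1125906361882817 (T (K 5) (K 5))) (F 1688852017185889 (V (F 3307267424293 (T (F 35433480208 (V (F 134218048 (U (F 2097152 (S (K 1) L)) (F 2883584 (S (S (K 9) L) (F 33818880 (T (S L L) L)))))) (K 1))) (K 34))) (K 3))))))) (F 0x3408400140040751cad00022141 (U (F 0x405520010022b5804802 (S (K 51) L)) (F 0x4f09600cf02fa60006e60 (S (F 2480613257123537 (T (K 6) (K 6))) (F 2298749536 (V (K 9) (K 10))))))))) (F 0x90822529281284815408004d4002000a00 (T (F 0x88910c00233c0057004c2088a2 (U (F 0x41048000000015300 (S (K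 46) (K 55))) (F 0x23a802ee600c40011ba0 (S (F 932386332230528 (T (K 7) (K 16))) (F 4873035601447392 (V (K 7) (K 16))))))) (F 0x218621001004126221138005083 (U (K 26) (F 0x12d4f0163c0ef20006dc0 (S (K 29) (F 22007437727792 (V (F 86185345216 (T (K 23) (K 16))) (K 16))))))))))))) (F 0x1303107fabc010286150ce201801e11a23f9000c3161c5c001c914c0c1e19681cb8003b90ff1a0147c27f041 (S (F 0x1c27e35789400a360c29b605310f1770f18770062f845906fe2f553 (V (F 0x10049102084402c061504405001 (T (F 0xc00080131a0b000a606f218 (U (K 0) (F 0x3cd80f98c0678000180 (S (K 28) (F 257423164187348 (V (K 11) (K 0))))))) (K 73))) (K 24))) (F 0x5004e705cb08829e0eb898c4104cc0f4e1c42220f0618442a60044f (V (F 0x84242448912824050035400a8000012428 (T (F 0x10188008303c026440480805328e (U (F 0x6121a0001000010124 (S (K 53) (K 35))) (F 0x3dbeb2734780fa00007a4 (S (F 8813412389188 (S (K 12) (K 12))) (F 1392108417025 (S (K 11) (K 11))))))) (F 0xa78012220d824e4938cc1498f5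 (U (F 0x30500001200100000c (S (K 44) (K 44))) (F 0x3758020301e00001c8 (S (F 916992733283726 (S (K 10) (K 10))) (K 36))))))) (F 0x940110a120c06400a010004102200028880 (T (K 85) (F 0x10218410160bac01098300c2d4c7c (U (F 0x1404a4039000802000c (S (K 30) (K 44))) (F 0x2d60404af907800001cc (S (F 4505815965243141 (S (F 1155482517584 (S (K 24) (K 12))) (K 25))) (F 703691267010560 (V (K 16) (K 23))))))))))))))))) (F 0x211088852818180618049480210910880084812841410242524051442008808090aa45094408208210008440025040a84222144284244000112080424244854aa0a54050a14824000042251028a0825142448210261848421144908 (U L (F 0xc1000047fff823806039c0000000000080083878101c03fffc0d75f8fc0001c07b4a43ffaf007003c3f08000ff0800000c0f0101f9c0f20703fffc9f3c039fe1fe05c193c7f w6_0)))))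
noncomputable def treeW6 : Tr := (F 0x80c1040fe1007c03f1c0c000c33ffe00c001fc0000980c030000fff060f806004000211110204120000f08001f90007c1fac2444047f80083f8001f003f7ffffffc10607ffffc0103fc0f0840ffe011e00447e01001c260023fff927f1208e8904074004800000040088811000880900f00f9ffe001fc01ff11c73e1c0ffffff8107c7e00830007fffe41d200848201000022004010001004000000410003f803ffffc4018800440ff43f846221ff1ffff1f0fffff9e3c3fff3030c7ffffa4809044c7c47ffffe1f4021024000044100100082200400000400040007fffffc187ffff19ff10c8 (S (F 0x63c02100020084610ffff0081f2484fc914e003803c901f81c3c40041fcc9247027e48e48e03445f8010e0909e4920ffc7ffc9049c8b83c7f07f847e4e2020104201fe0180643924f07ff2024921e0000fe417f01f9248a78824fc91ffe080000843f086481204024fc47ffe32006008192490f927fffe10407f08ffc800093ce01c0801c03810484f0008003ffff (V (K 148) (F 0x84444404402c0c030c020a1212244200a0022521512900a2aaa08888819910400401002228414a5001488054155544410a214891042220850810104a2a0125428124000242411514845220882200aa4881110880a2484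 (U L (F 0x80f8fe38e3ef80e0e0ff00800000003000fe4f0701f43e79c040000000004c761ff7e0600e1f01170040364007e04380838703f03fff9c19933fe1fe00cc9fbc9f (T (F 0x27c3f805840e30fe110c0f9fba0cff881dff43800b8561fc8ffe3247487c30310903c203fe00060 (S (F 0x44ffbf110290032405f40f3c1821c100082807fc1829 (V (K 2) (K 23))) (F 0x50907e2340403011401828bf8a4b84824d1103b09864 (V (K 31) (F 0x282820081510404640420260a8904 (T (K 66) (K 88))))))) (F 0x6723f851f08a1cfe080d808fbe447fce047b4c73038480efc32e8879027f00380700fe007e07061 (S (F 0x21e77800260945135fc180a21150e41822a0209fa864 (V (K 2) (K 26))) (F 0x80006188900f0482cf19f0638829464901b01c876be2 (V (K 34) (K 1))))))))))) w6_1))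

theorem pW6 : chkW par treeW6 128 128 384 128 256 256 0 163840 Lc = true := by decide +kernel

noncomputable def w7_0 : Tr := (V (F 0x2028010201008500 (U (F 281549333692609 (T (F 17729792779632 (U (K 23) (F 662212 (S (K 8) (F 6295588 (T (K 12) (F 1310724 (U L L)))))))) (F 2279562543106 (S (K 23) (F 12230742081 (U (K 7) (F 42991624 (U (K 15) (F 1301 (T L (K 6))))))))))) (F 3237004579765471 (T (F 337903760 (S (F 131103 (U (F 32784 (T (K 4) (K 7))) (F 114736 (V (F 64 (T (V L (S (K 5) L)) (S (K 5) L))) (F 1026 (V (S (K 5) L) (K 5))))))) (F 16452 (U (F 266288 (V (F 8192 (T (F 12288 (V (K 4) L)) (F 1024 (S L (F 4100 (T L L)))))) (F 16392 (S (K 5) (F 8194 (T L (F 1 (S (K 4) L)))))))) (F 786480 (V (F 8192 (T (F 26624 (S (F 256 (V L L)) (V L L))) (F 10240 (V (S L (F 2048 (S L L))) L)))) (F 16420 (S (F 7176 (T L L)) (F 4098 (T (F 1 (T L L)) (T L L))))))))))) (F 302120978 (S (K 14) (F 1030 (U (F 131376 (V (F 32784 (S (K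 5) (F 1024 (T (F 2048 (T L L)) L)))) (K 10))) (F 1228816 (T (F 6400 (V (F 2 (S L (S L L))) (F 5128 (S (K 5) L)))) (F 1028 (V (F 83 (S L L)) (K 7))))))))))))) (F 0x119006800284002c2 (U (K 36) (F 4423139239 (T (F 608436344 (U (K 12) (F 786433 (S (F 729112 (S (K 7) (K 7))) (F 606232 (V (F 2052 (T (F 2048 (S (F 2 (S (K 5) L)) (S L L))) (S (K 5) (S (K 5) L)))) (S (K 8) (F 2048 (T (F 4096 (S (K 7) L)) (K 5)))))))))) (K 14))))))
noncomputable def w7_1 : Tr := (T (F 109183052 (U (S (F 4097 (V (T (F 6144 (S (F 1033 (U L L)) (F 7168 (T L L)))) (F 6160 (U L (F 2049 (S L L))))) (F 20512 (T (F 1 (U (K 8) (F 12296 (S L L)))) (F 3 (V L (K 6))))))) (F 98376 (V (F 1024 (U (T (F 2048 (S (S L L) (S (K 6) (K 6)))) (S L (K 7))) (T (S (F 2048 (V L L)) (F 2048 (T L L))) (S L (K 7))))) (F 40 (T (V (F 32 (U L (S L L))) (K 7)) (F 32 (V (U L L) (F 5632 (S L L))))))))) (F 65544 (S (F 196672 (V (T (F 9 (S (F 4116 (T L L)) (F 1032 (V L L))))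 (F 2065 (V (U L L) (F 2560 (S L L))))) (F 1035 (T (S (F 4 (S L L)) (V (S L L) L)) (S (F 4 (S (K 5) L)) (F 512 (T L L))))))) (F 2048 (V (F 8192 (T (F 1032 (U (S (F 1 (T L L)) (T (S L L) L)) (F 2052 (S L (F 2048 (S L L)))))) (F 41984 (S (F 128 (V L L)) (F 512 (T L L)))))) (F 1060 (T (F 16 (S (F 5 (V L L)) (F 512 (V (S L L) L)))) (F 8192 (U (F 768 (V (S L L) (F 512 (S L L)))) (F 1792 (V (S L L) (F 256 (S L L)))))))))))))) (F 125830240 (U (F 160 (S (F 16392 (V (F 10240 (S L L)) (K 8))) (F 32804 (V (S (K 7) (K 7)) (F 4118 (T L (K 1))))))) (F 196646 (S (F 24576 (V (F 516 (S L L)) (F 1026 (T (F 8 (S (K 5) L)) L)))) (F 3080 (V (T (S L L) L) (F 2 (T (U (S L L) L) L)))))))))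
noncomputable def w7_2 : Tr := (T (F 21495944 (S (F 7372899 (U (F 1024 (V (F 2 (S (K 7) (K 7))) (F 32801 (T (F 16384 (S (F 512 (V (T L L) (V L (K 6)))) (V (S L (K 7)) (F 512 (S L L))))) (F 16 (V (F 1 (S L (K 5))) (S (F 17 (S L L)) (F 1 (T L (K 5)))))))))) (F 402432 (V (T (F 2048 (V (F 512 (S L L)) (F 4 (S (S L L) (F 20 (S L L)))))) (F 4 (S (F 4 (S L (K 6))) (K 7)))) (F 4096 (T (S (F 2064 (V (T L L) (T L L))) (F 2048 (V L (F 256 (S L L))))) (F 2064 (S (T (S L L) L) (U (S L L) (F 512 (S L L))))))))))) (F 4198400 (V (F 10485760 (U (K 13) (F 786499 (T (F 100352 (S (F 2052 (V L L)) (F 2048 (T L L)))) (F 32768 (S (K 9) (K 9))))))) (F 16778256 (U (T (F 524340 (S (F 131080 (V (K 9) (F 2049 (S L L)))) (U (K 7) (F 139268 (S L L))))) (F 17 (S (K 8) (K 8)))) (F 262279 (T (F 49152 (S (F 6148 (T L L)) (F 4096 (S L L)))) (F 36864 (S (F 4098 (V L L)) (S L L))))))))))) (F 3221749768 (S (F 7340712 (V (K 8) (F 1053252 (U (S (F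 3 (S L (K 6))) (K 9)) (F 19 (T (F 4104 (S (T L L) L)) (F 4 (S L L)))))))) (F 4096 (U (K 11) (F 103678072 (V (K 9) (F 2048 (T (F 16512 (S (F 2048 (S L (K 5))) (K 7))) (K 6))))))))))
noncomputable def w7_3 : Tr := (T (F 17825816 (U (F 1572864 (S (F 6709264 (T (K 7) (F 280 (V (F 1 (U (T (K 5) L) (F 1 (V (S L L) L)))) (F 2048 (U (K 4) L)))))) (F 139520 (V (F 524288 (T (F 16384 (U (F 64 (S (K 7) (T (K 7) L))) (F 35 (S (F 18432 (S L L)) (F 16384 (S L L)))))) (F 395264 (S (F 20 (V (U L L) (F 1024 (S L L)))) (F 16 (V (S L (K 6)) (U L L))))))) (F 194 (T (F 73728 (S (K 6) (F 8 (V L (K 8))))) (F 83968 (S (F 8194 (U L L)) (F 8192 (U (V L L) (F 4 (V L L)))))))))))) (F 1573763 (S (F 180240 (V (F 8256 (T (V (S (F 512 (S L L)) (S L L)) (F 512 (S L L))) (F 2048 (U (F 2 (V (S L L) (F 4 (S L L)))) (F 256 (S (F 256 (S L L)) (S L L))))))) (F 1029 (T (U (K 7) (S L (T (K 7) L))) (S L (V L L)))))) (F 147464 (V (F 16512 (T (F 2048 (S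 (F 512 (T L L)) (V L L))) (S (F 2048 (V L (F 5 (S L L)))) (U (S L L) L)))) (T (F 2 (S (F 10248 (V L L)) (V L L))) (F 9 (S (F 4096 (V L (S L L))) (F 1 (T (F 1 (S L L)) L))))))))))) (F 403570713 (U (F 2052 (S (F 135216 (T (F 2064 (V (F 1024 (U (S L L) (F 3 (S L L)))) L)) (F 16 (U L (F 8192 (T L L)))))) (F 8208 (T (F 8192 (S (F 21504 (V (U L (F 1 (S L L))) (U L L))) (F 4096 (V (V (K 8) (F 18 (S L (K 6)))) (F 18 (V (S (F 4 (S L L)) L) (F 261 (S L L)))))))) (F 2 (U (F 2048 (V (S (K 7) (K 7)) (F 16416 (S L L)))) (F 4 (V (S L (K 8)) (F 16400 (S L L)))))))))) (F 65606 (S (F 69648 (T (F 1027 (V (F 64 (U (S L L) (F 128 (S L L)))) (F 4 (S L L)))) (F 2112 (S L (U L (S L L)))))) (F 65796 (T (F 2048 (V (F 2048 (S (V L L) (S L L))) (F 512 (S (F 2 (S L L)) (F 2 (S L L)))))) (V (S (F 10 (S L L)) (F 2 (S L L))) (F 8200 (S L (U (S L L) L)))))))))))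
noncomputable def w7_4 : Tr := (S (F 0x8e94811800cc012202cca1f (V (F 11893589211152405 (U (F 285882760757248 (T (F 57984155712 (S (F 25906132208 (U (V (K 1) (K 7)) (F 15925248 (V (F 257 (T (F 131072 (S L (F 6144 (S L L)))) (K 1))) (F 16452 (T (K 8) (K 6))))))) (F 26849846300 (U (F 262144 (V (K 17) (K 16))) (F 28606464 (V (F 3 (S (F 262144 (U (K 9) (F 16404 (S L (K 7))))) (K 8))) (F 81956 (T (K 7) (F 1024 (U (K 14) (F 4099 (S (K 1) L)))))))))))) (F 1381368890368 (S (F 537478812 (S (K 1) (K 1))) (F 270533124 (V (K 10) (K 1))))))) (F 285874356715135 w7_1))) (F 360332505049497600 (U (F 13342431649312 (T (K 16) (K 14))) (F 3100625690623871 (S (F 133169664 (T (F 22530 (V (F 1024 (S (K 5) (F 64 (V (F 5 (T (S L L) (K 5))) (K 7))))) (K 8))) (K 7))) (F 89391680 (T (F 40964 (V (F 1156 (U (F 8192 (U (K 7) (F 4096 (T (K 4) (S (K 6) L))))) (F 1025 (T (U (K 7) (S (F 2048 (S L L)) L)) (F 513 (V (F 128 (S L L)) L)))))) (F 98320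 (T (K 3) (K 6))))) (F 8193 (V (F 67845 (S (K 6) (F 1024 (U (F 520 (S (K 5) L)) (F 524 (T L L)))))) (K 9))))))))))) (F 0x243908819008ef007784819b (V (F 83476041629175809 (U (F 8796697010176 (T (F 35596957451064 (S (F 11812931712 (V (K 7) (F 16973856 (U (F 524288 (S (K 5) (K 5))) (F 354 (U (F 8 (T (K 11) (K 12))) (F 135176 (T (V (F 5 (S (K 5) (K 5))) (K 9)) (F 1 (S L (K 5))))))))))) (K 25))) (F 4593473815168 (S (K 22) (K 22))))) (F 98956066484103 w7_2))) (F 1970324854343880 (U (F 4536626692352 (T (F 4565552595352 (S (K 22) (F 135397376 (U (K 8) (F 72392704 (T (K 15) (F 8388672 (V (F 1069056 (V (K 12) (F 132 (S (K 7) (K 6))))) (F 855040 (U (K 9) (F 82 (S (K 7) L)))))))))))) (F 5088194625857 (U (F 393216 (S (K 1) (F 29360132 (V (K 17) (K 24))))) (F 4196 (S (F 37937160 (V (K 19) (K 13))) (F 8454156 (U (F 2048 (V (K 7) (F 1317376 (T L (K 16))))) (F 1799 (S (F 71680 (V (K 7) L)) (F 4096 (V (K 9) (F 65698 (T L L))))))))))))))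 (F 43998308196143 w7_3))))))
noncomputable def w7_5 : Tr := (V (F 0x4942092041240444a81200491013084104904a100308400012 (T (F 0x1a3800f0d1d7c180083fc070f4200e11f08de10 (S (F 0x380000c056600914064c09f (V (K 21) (F 0x2a0005a24012021482 (U (F 21999944728710 (T (F 5653250736744 (U (K 22) (F 536890799 (S (F 131072 (S (F 278533 (T (F 100352 (V (K 4) (S L (K 6)))) (K 7))) (K 11))) (K 9))))) (K 14))) (F 3100623979282175 (T (F 88211656 (S (F 1 (V (F 16472 (S (F 129 (V (K 6) (F 4 (U (K 6) (F 3 (S L L)))))) (K 8))) (F 1028 (U (T (F 2064 (U (S (F 16384 (S L L)) (K 7)) (F 16392 (S (S L L) L)))) (F 8192 (S L (K 7)))) (F 8197 (T (F 8212 (S L (F 2 (S L L)))) (F 8192 (V L (F 128 (S L L)))))))))) (F 32776 (V (K 8) (U (K 8) (F 8 (T (F 4368 (S (F 8708 (S L L)) (F 512 (V (K 6) L)))) (K 9)))))))) (F 100663520 (S (F 133 (U (K 9) (F 458760 (V (K 6) (F 4384 (S L (K 6))))))) (K 12))))))))) (F 0x10e6000d88067810ec640789 w7_0))) (F 0x470ef8c0f8a1f04f0039b018002200007082012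 (S (F 0x1fd36280183303320390607397 (V (K 20) (F 0x1012010c540040200 (U (K 36) (F 2959885366788063 (S (K 14) (K 14))))))) (F 0x8808e0100200d839e04ed201d1 (V (F 0x104000808a800408000 (U (K 40) (F 0x5fd8000477837eef (S (K 15) (F 2149585313 (V (F 33622082 (S (K 8) (F 1049602 (T (F 67588 (U (F 5388 (S (K 6) L)) (F 7168 (T L L)))) (F 90280 (U (K 4) L)))))) (K 15))))))) (K 27))))))) (F 0x1084124a88090008100028126524108849229082c4318a8aa4 (T (F 0x8c03c09878640227c033f0b080e01f03bc20 w7_4) (F 0x842e00606be09c026f0221832101003804021 (S (F 0x7f232022625c38007a1a9f3d7 (V (F 18016597602013328 (U (K 50) (F 44530279370703 (T (F 13382208 (S (F 262268 (U (F 2 (S (K 13) (K 13))) L)) (F 1048608 (T (F 458756 (U (S (K 14) L) L)) (F 147489 (S L L)))))) (F 10486401 (U (K 23) (F 524916 (S L L)))))))) (F 4521330326241288 (U (K 34) (F 3325472980574175 (T (F 28183600 (U (K 7) (F 6 (S (K 9) (F 16384 (S (K 4) L)))))) (K 13))))))) (F 0x222b780b0100a813c11b0081d1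 (V (F 0x840504510004028002 (U (K 41) (F 213921052626222567 (T (F 277612816 (S (F 394371 (S (F 393728 (U (K 7) (F 6144 (T L L)))) (K 8))) (K 14))) (F 3225420065 (S (F 1052230 (S (K 9) (K 9))) (K 15))))))) (F 0x1004a0208a950804040 (U (F 234767753977006144 (T (F 4607998174760 (U (K 29) (F 67109653 (S (K 0) (F 3145730 (V (K 12) (K 20))))))) (K 0))) (F 4222125573831151 (T (F 3257418305 (S (F 42075395 (U (F 32864 (T L L)) (F 303214 (T L L)))) (F 49676454 (U (F 1280 (T (S (F 1024 (T L L)) (V (K 7) (F 32 (S L L)))) (F 32 (V (K 5) L)))) (F 17408 (T (F 16 (S (F 4 (S L L)) (V L (F 128 (S L L))))) (S L (V (K 7) L)))))))) (F 20410009217 (S (F 8522848 (U (F 4161 (S (K 16) (K 16))) L)) (F 46139971 (U (F 2048 (V (K 7) (F 34824 (S (K 0) L)))) (F 41014 (T L L)))))))))))))))))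
noncomputable def treeW7 : Tr := (F 0xfffffffffffffffffffffffffffffffffffffffffffffffffffffffffffffffffffffffffffffffffffffffffffffffffffffffffffffe09ffe04ff0ffffffffffffffffffffc0103ff0fffffffffffe8ffffec91fff827ffffffffffffffffffffffffffffffffffffffffffffffffffffffffffe1fe23fff1c73e1e0ffc1ffe1061fff8c7fffffffffffffffffffffffffffffffffffffffffffffffffffffffffffffff893ff0fffffc63331f99ffffff8fffff0e1e3fff3038ff3fffe4f0ffc447fffffffffffffffffffffffffffffffffffffffffffffffffffffffc083fffff6fff8f8 w7_5)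

theorem pW7 : chkW par treeW7 64 64 384 128 256 256 163840 327680 Lc = true := by decide +kernel

noncomputable def w8_0 : Tr := (T (F 1135280149234588 (S (F 138424912129 (U (K 4) (F 96141312 (T (F 416 (V (K 8) (K 4))) (F 10 (S (F 6148 (U L (F 1 (V L (K 8))))) (F 4100 (U (K 12) (F 1 (V (F 4160 (T L L)) L)))))))))) (F 8392469 (U (F 86016 (T (K 23) (K 23))) (F 1376268 (T (F 1153 (V (F 320 (S (F 26698 (U (K 6) L)) (F 2097152 (U (T L L) (F 671744 (T L L)))))) (K 3))) (F 82391 (U (F 65536 (V (F 66564 (V (S L (S L L)) (K 2))) (K 13))) (F 65536 (V (F 66564 (S (F 128 (V L (T (K 10) (K 10)))) (T L (S (F 128 (S L L)) (S L L))))) (F 128 (S (F 2048 (V (K 11) L)) (K 3))))))))))))) (F 1274128383082624 (S (F 47783615761 (V (F 22036993 (U (T (K 15) (K 20)) (F 524299 (S (F 2306 (U (S L L) (F 16 (T L L)))) (F 4098 (T (F 8192 (U (F 64 (T (K 10) L)) (V (F 2048 (T L L)) L))) (U (T L L) (F 16 (T (V L (K 8)) L))))))))) (K 12))) (F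 172335829069 (U (F 148907008 (T (K 15) (F 1310721 (V (F 393216 (S (S (K 10) (K 10)) (K 10))) (K 10))))) (F 451018772 (T (F 262146 (S (F 1026 (V (F 16896 (U (V (F 2048 (T (K 10) (K 8))) (K 2)) (S (T (F 2048 (V L L)) (F 2048 (S L L))) (F 2048 (T (V L L) (V L L)))))) (T (F 16400 (U (K 2) (S (K 8) L))) (K 6)))) (F 4 (V (F 33796 (U (F 128 (S (V (K 8) (K 10)) (V (K 8) (T (K 10) (K 10))))) (T (F 128 (V L (S L L))) (F 128 (V (S (K 8) (K 8)) (S L L)))))) (F 128 (V (F 64 (U (K 11) (F 8192 (T (F 2048 (S L L)) (S L L))))) (K 9))))))) (F 2304 (S (F 65542 (V (U (V (K 9) (S (K 6) L)) (V (F 8192 (S (K 4) (K 4))) (F 16 (T L L)))) (K 6))) (V (F 65544 (V (K 9) (S (F 24576 (U (S (K 4) (K 4)) (T L L))) (F 16384 (U (K 5) (F 2 (T L L))))))) (U (K 10) (F 69638 (V (T L L) (K 5))))))))))))))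
noncomputable def w8_1 : Tr := (U (F 4 (T (F 560 (S (F 2967040 (V (F 64 (U L (S L L))) (F 16 (V (F 256 (S L L)) (S L (S L L)))))) (F 65536 (V (T (F 4096 (V L L)) (F 1048653 (S L L))) (F 333 (V (T L (S L L)) (T L (F 512 (S L L))))))))) (F 1053 (S (F 284160 (V (F 16388 (U (F 32 (T L (S L L))) (V (F 32 (S L L)) (T L L)))) (T (F 4 (V (S (S L L) L) (S L L))) (V (F 16384 (U (S L L) L)) (F 8 (S L L)))))) (V (F 65601 (U (F 256 (T L (F 16896 (S L L)))) (F 18 (T (S L L) (F 1280 (S L L)))))) (F 267264 (T (F 16 (V (F 8193 (S L L)) (F 512 (S L L)))) (F 65680 (V (F 2048 (S L L)) (S L L)))))))))) (F 35717124 (T (F 41 (V (S (F 409600 (S L L)) (T L L)) (F 413696 (S (F 32 (V (S L L) (T (S L L) (F 512 (S L L))))) (V (S L L) (T (S L L) (S L L))))))) (F 142 (V (F 32769 (S (F 80 (V (S L L) (F 256 (S L L)))) (T (F 1 (S L L)) (F 64 (U L L))))) (F 4096 (S (F 192 (T (F 20480 (U (S L L) (S L L))) (F 16384 (V L (F 4 (S L L)))))) (F 4 (T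 (F 32768 (S (F 48 (S L L)) (F 16384 (S L L)))) (F 1025 (V (S L L) L)))))))))))
noncomputable def w8_2 : Tr := (T (F 65536 (S (F 33024 (V (F 512 (U (T (F 2048 (V (S L L) (F 8 (S L L)))) (V (F 2048 (S L L)) (F 512 (S L L)))) (F 512 (S (F 4 (T L L)) (F 4 (T L L)))))) (F 16 (V (T (S L (S L L)) (S L L)) (F 9216 (S L L)))))) (V (F 32 (U (F 10 (V (S (F 128 (S L L)) (S L L)) (F 128 (T (S L L) (S L L))))) (F 10 (T (F 1024 (S L L)) (V L (F 1152 (S L L))))))) (F 33024 (T (F 16 (S (V (T L L) L) (V L L))) (F 16 (V (F 32 (S L (S L L))) (S L L)))))))) (F 2 (V (F 64 (S (F 128 (T (U (V (F 2 (S L L)) (F 1024 (S L L))) (F 1026 (V L (S L L)))) (F 1024 (V (U L (S L L)) (S L (S L L)))))) (T (F 16512 (V (F 2048 (S L L)) (U (S L L) (F 512 (S L L))))) (F 128 (V (F 2 (U (F 4 (S (K 4) (K 4))) (S L L))) (S (F 1024 (S L L)) (F 2 (V L L)))))))) (F 4608 (S (T (S L (V L L)) (F 9 (V L L))) (T (F 8192 (V (F 32 (S L L)) (F 9216 (S L L)))) (F 256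 (S (F 1024 (S L L)) (V (S L L) L)))))))))
noncomputable def w8_3 : Tr := (S (F 2623750 (U (T (F 12288 (S (F 8256 (V (F 1 (T (U L (S L L)) L)) (F 8192 (S L L)))) (F 8192 (V (F 1 (T (F 4 (S (F 128 (V L L)) (F 32 (U (S L L) L)))) (F 256 (U (S L (S L L)) (V L L))))) (T (U (S L L) L) L))))) (F 8193 (S (F 32 (V (F 1088 (T L (S L L))) L)) (F 16 (V (F 64 (T (S (T L L) (F 4096 (V L L))) (V (F 16 (S L L)) (F 8 (S L L))))) (F 16384 (U (K 4) (F 4 (S L L))))))))) (F 12288 (T (F 8192 (V (F 1 (S (F 1 (T L (F 512 (V L L)))) (V (F 260 (S L (S L L))) (F 1 (T L (S L L)))))) (F 18432 (S (U L (S L L)) (T (V (F 4096 (S L L)) (S L L)) (F 4096 (S L L))))))) (F 32768 (S (F 17408 (V (T (V L L) L) (F 4 (S L L)))) (V (T (S L (F 66 (S L L))) (F 16448 (S L L))) (F 18432 (T (S L L) L))))))))) (F 11010178 (U (F 4096 w8_2) (F 143360 (T (F 16384 (S (F 256 (V (T (F 4 (U (S L L) L)) (S (F 4 (S L L)) L)) (F 1 (V (T (S L L) (S L L)) (F 1024 (S L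 L)))))) (V (F 4096 (S (T (S L L) (F 256 (S L L))) (F 256 (T L L)))) (T (V (F 4096 (S L L)) (F 16640 (S L L))) (F 16640 (V (S L L) L)))))) (V (F 512 (S (F 256 (V (F 4096 (T L L)) (F 1 (T L (S L L))))) (F 2 (V (F 4 (S L L)) (T (F 64 (S L L)) L))))) (F 65 (S (F 2048 (T (S L L) (S L L))) (V (S (S L L) (F 66 (S L L))) (F 2048 (T L L)))))))))))
noncomputable def w8_4 : Tr := (S (F 28690 (U (F 131080 (T (F 148032 (S (F 43008 (V (F 4097 (S L L)) (K 8))) (F 32770 (V (F 3 (T L (F 1024 (S L L)))) (F 20 (U L L)))))) (F 33 (V (F 278602 (S (K 9) (T L (K 4)))) (K 7))))) (F 6488072 (V (F 83976 (S (F 256 (T (F 7 (S L L)) (F 2 (S L L)))) (T (F 8192 (T (F 19 (S L L)) (F 3 (S L L)))) (F 8192 (V (U L (S L L)) L))))) (F 2 (T (F 16392 (S (F 18 (V L L)) (F 8704 (S L L)))) (S (F 2064 (S (K 8) L)) (F 16384 (S L L))))))))) (F 68157572 (U (F 4 (T (F 1054848 (V (F 327680 (S (F 146 (S (F 10240 (T L L)) (F 2048 (T L L)))) (F 8 (V (F 16384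 (T L (F 32 (S L L)))) (F 36864 (T (S L L) L)))))) (F 135680 (U (K 6) (F 1 (S (F 8192 (S L L)) (V (S L L) L))))))) (F 7177 (V (F 69636 (S (F 1 (U (K 9) (F 2048 (T (S L L) L)))) (T (F 8 (V L L)) (F 9 (S L L))))) (F 139264 (U (K 5) (F 8 (S L (F 4 (S L L)))))))))) (F 12648452 (T (F 131072 (V (F 394240 (S (F 102 (V (U (S L L) (S L L)) (T L L))) (F 2 (T (F 512 (V (S L L) L)) (F 8704 (V (S L L) (F 8 (S L L)))))))) (F 16896 (S (F 198 (T (S L L) L)) (T (F 10 (T L L)) (F 194 (S L L))))))) (F 658 (V (F 33796 (S (T (U (S L L) (S L L)) (S L L)) (V (T L (S L L)) (S (S L L) (S L L))))) (S (F 1028 (S L L)) (F 4 (T (F 32 (S L L)) (F 32 (S L L))))))))))))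
noncomputable def w8_5 : Tr := (V (F 0x40222242214401050214 (U (F 0x1008080490022009 w8_0) (F 333266384035511615 (T (F 171849286040 (S (F 67218485 (U (F 394248 (T (F 68 (V (S (V L (F 2 (S L L))) (F 2 (U L (S L L)))) (F 2 (S (V L L) (U (S L L) (V L (F 1 (S L L)))))))) (F 16384 (V (S (F 4352 (U (V L L) (T (F 8 (S L L)) (F 8 (S L L))))) (U (F 4352 (V L (S L L))) (F 4096 (V L (S L L))))) (S (F 2304 (T L L)) (U (F 256 (T L L)) (S L (T L (S L L))))))))) (F 393224 (V (F 4 (T (F 33792 (S (F 5 (V L L)) (F 4096 (S L L)))) (F 514 (S (F 33 (T (F 512 (S L L)) L)) (T (F 33 (S L L)) (F 8192 (V L L))))))) (F 32896 (T (F 20480 (S (F 17 (T (S L L) L)) (F 16 (V (S L L) (F 1024 (U (S L L) L)))))) (F 16384 (S (F 36 (U (T L L) (S L L))) (V (F 2 (S (S L L) L)) (F 4 (U (S L L) (S L L)))))))))))) (F 335806472 w8_1))) (F 461720289434 w8_3))))) (F 0x22108921102940802002 (U (F 603552735992024100 (T (F 2823584851036472 (S (F 25828821506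 (V (K 10) (K 6))) (F 68745756938 (U (K 12) (F 50413580 (T (F 2099209 (V (F 131072 (V (K 15) (K 9))) (K 9))) (K 13))))))) (F 2323442019338400 (S (K 29) (F 274914230342 (V (K 14) (F 268828672 (S (K 18) (K 13))))))))) (F 716072352300268735 (T (F 4324360472 w8_4) (F 56926011416 (S (F 4384 (T (F 64 (U (V (F 1196049 (S (K 5) (F 12292 (S (K 9) (K 4))))) (K 13)) (F 262224 (V (F 278592 (S (F 3 (S (K 6) L)) (F 20481 (S L L)))) (F 65552 (S (K 10) L)))))) (F 96 (S (K 13) (F 1048576 (V (F 819233 (U (K 10) L)) (K 6))))))) (F 655360 (U (F 32770 (V (F 2129 (U (K 11) (F 24576 (T (F 12289 (S (K 9) (F 1 (T (S L L) L)))) (F 32769 (S L (T L (K 10)))))))) (F 32 (T (F 82944 (S (F 40960 (S (K 4) L)) (F 163841 (S L L)))) (F 17 (S (K 14) (F 1104 (S L L)))))))) (F 9273344 (T (F 163976 (V (F 16388 (S (T (S L L) L) (F 4096 (V (S L L) (S L L))))) (S (S L L) (F 1 (U (S L L) L))))) (F 262144 (V (F 148481 (S (T (S L L) L) (T (F 2048 (S L L))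 (U (S L L) L)))) (F 16 (S L L)))))))))))))))
noncomputable def w8_6 : Tr := (S (F 274877907007 (V (F 4362078341 (U (F 256 (T (F 8256 (V (F 16384 (U (F 262144 (S (K 20) L)) (F 262144 (S L L)))) (K 22))) (F 2109440 (V (U (S (K 19) (K 19)) (F 64 (S L L))) (K 21))))) (F 16416 (T (F 262144 (S (F 262160 (T (V L L) (F 526336 (V L L)))) (T (F 262160 (S L L)) (V L L)))) (F 4984832 (S (F 153 (U (V L (K 2)) (F 131072 (V L (F 66 (S (F 256 (S L L)) (S L L))))))) (F 17 (T (F 131072 (U L L)) (F 131072 (V L (F 257 (S L L)))))))))))) (F 2315337728 (U (K 24) (F 8243 (T (F 4196356 (S (K 17) (F 1048580 (V (F 32 (U (K 15) (S L L))) (K 2))))) (F 5244929 (U (K 16) (F 262146 (S (F 81920 (T (K 13) (K 13))) (F 32 (T (F 2 (S (K 2) L)) (F 10 (V (S L L) (F 256 (S (K 11) L)))))))))))))))) (F 1511828496544 (V (F 32 (T (F 8624021504 (U (F 4 (S (F 16777229 (U (T L L) (F 25165824 (T L L)))) (F 16777224 (T (F 1058112 (U (U L L) (S L L))) (F 67108864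 (V (F 692256 (U L L)) (F 3 (S (K 0) (K 0))))))))) (F 738197504 (S (F 3 (T (F 4128 (U L L)) (F 524288 (S L L)))) (F 16777232 (T (F 16779280 (U (F 8704 (S L L)) L)) (F 20971520 (V L L)))))))) (F 34086925 (U (F 8 (V (F 67108864 (S (F 50594816 (S (K 21) (K 21))) (T (F 35652240 (S L L)) (K 0)))) (K 25))) (F 138674176 (S (F 3 (T (F 524288 (V L L)) (F 790528 (V L (F 5 (S L L)))))) (F 18874370 (T (F 2228224 (S L L)) (F 2162688 (S L L)))))))))) (F 30064771072 (U (F 67109248 (T (F 256 (T (K 25) (K 25))) (K 1))) (F 65543 (T (S (F 142623232 (T (F 8388612 (V L (K 1))) (F 266302 (V L (K 2))))) (F 134217761 (T (F 131072 (V L L)) (F 135290 (S L L))))) (F 181420064 (S (F 514 (U (F 131328 (S (K 14) (K 15))) (F 131072 (T (F 512 (S L L)) (F 512 (V (S L L) L)))))) (U (K 19) (F 6 (S (F 2048 (T (K 16) (S L (K 16)))) (K 1)))))))))))))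
noncomputable def w8_7 : Tr := (V (F 4295237648 (U (F 33719520 (T (F 786434 (V (F 131072 (S (K 5) (K 2))) (K 15))) (F 2654208 (S (K 12) (K 12))))) (F 2296 (T (F 8650778 (S (F 131713 (U (V (S (K 4) (K 4)) (F 8192 (T (K 11) (F 64 (S (K 2) L))))) (T (V L (F 8192 (S (S L L) L))) (S (F 8192 (V (K 9) L)) (V (K 4) (F 8192 (S L L))))))) (F 131584 (U (V (S (K 4) (K 1)) (F 66048 (T L (S L L)))) (F 65536 (V (T L (S L L)) (F 64 (T (S L L) (S L L))))))))) (F 12603408 (S (F 196608 (V (K 5) (F 32768 (U (F 132 (S (K 5) (K 5))) (S (F 16516 (T L L)) (F 16388 (T (F 128 (S L L)) L))))))) (F 131080 (U (S (K 6) (K 6)) (T (F 6 (V (S (K 10) (K 10)) (F 2 (S L L)))) (V (K 6) (F 32770 (S L L)))))))))))) (F 11477794848 (U (F 1053208 (T (K 5) (F 1028 (V (U (K 13) (F 1 (T (K 4) (S (K 9) L)))) (K 8))))) (F 9 (T (F 1085462 (S (F 2 (V (F 8192 (U (K 11) (F 8192 (T (S L (S L L)) (F 128 (S L L)))))) (F 256 (U (T (K 11) (K 6)) (T (F 8196 (S L L))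 (S (K 6) L)))))) (F 10 (U (T (K 3) (U (K 3) (V L (S L L)))) (T (F 2 (V (S L L) (S L L))) (V (F 2 (S (V L L) (S L L))) (S L (S L L)))))))) (F 1052676 (S (F 66112 (U (V (S (F 32768 (T L (K 6))) (F 32768 (T L L))) (K 9)) (T (F 2 (V (F 2 (S L L)) (F 32 (S (K 8) L)))) (V (F 32768 (S L L)) (K 9))))) (F 65600 (U (V (S (F 66050 (T L L)) (F 81922 (T L L))) (F 512 (S (K 7) (T L L)))) (T (F 2 (V (F 10 (S (S L L) (S L L))) (S (F 256 (S L L)) (F 8 (S L L))))) (V (F 65538 (S (F 128 (S L L)) L)) (F 512 (S L (S L L))))))))))))))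
noncomputable def w8_8 : Tr := (V (F 4194304 (U (F 1073758624 (T (K 5) (F 4206592 (S (K 16) (K 19))))) (F 1073742274 (T (F 142737416 (S (F 5246976 (U (K 2) (F 262146 (V (S L L) (F 273 (T L L)))))) (F 8392704 (T (F 39 (V L (K 17))) (K 3))))) (F 152186880 (S (F 1310721 (U (F 131072 (T (F 32768 (V (K 2) (F 1024 (S L (K 13))))) (F 32832 (S (K 5) (K 5))))) (F 131072 (T (F 32768 (V (S L (K 2)) (F 1024 (S L L)))) (F 32832 (V L (S L L))))))) (F 262148 (U (K 4) (F 524288 (V (K 14) (F 64 (T (F 8 (S L (K 13))) (F 8 (S L L)))))))))))))) (F 2886008832 (U (T (F 37748880 (S (K 5) (K 4))) (F 4219152 (S (F 4194306 (U (K 4) (S (F 262185 (T L L)) (F 524320 (V (F 262144 (S (K 11) L)) L))))) (F 65540 (V (K 16) (F 1 (U (K 15) (T (F 65536 (S L (K 14))) (K 15))))))))) (F 17 (T (F 1048612 (S (F 3145765 (U (F 1536 (T (F 16384 (V (K 1) L)) (V (F 16384 (S L (K 1))) (F 2 (S L L))))) (T (F 514 (V (S L L) (F 130 (S L L)))) (F 1536 (V (F 16384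 (S L L)) (F 2 (S (S L L) L))))))) (F 1 (T (F 1048590 (V (K 16) (F 8 (S (T L L) (K 1))))) (F 131072 (U (F 258 (S (F 2062 (S L (K 13))) (K 4))) (F 393218 (V (S L (K 2)) (F 1024 (S L L)))))))))) (F 540704 (S (F 2098177 (T (F 32774 (U (F 4 (V (F 16384 (S L L)) (S L L))) (V (F 32770 (S L L)) (F 4 (S L L))))) (F 131076 (V (F 65546 (U (S L L) (S L L))) (S (U L (F 65536 (S L L))) (F 65544 (U L L))))))) (F 1048608 (V (F 1310720 (T (F 32896 (U (K 3) (S L L))) (F 128 (U (S L L) (S L L))))) (T (F 4 (S (F 262669 (U L L)) (F 5 (U L (S L L))))) (F 131076 (U (F 256 (S L (S L L))) (F 1 (S L (S L L)))))))))))))))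
noncomputable def w8_9 : Tr := (T (F 9568260 (U (F 16384 (S (F 4259840 (V (F 2097152 (U (F 32 (T L L)) (F 1048576 (T L L)))) (F 645 (T (F 32768 (V (S L L) (F 2 (S L L)))) (F 98304 (U (F 32768 (S L L)) (S L L))))))) (F 1 (V (F 131072 (T (F 1048640 (S L L)) (F 3145728 (S L L)))) (F 523 (T (F 67584 (S L L)) (F 198656 (S (F 4 (S L L)) L)))))))) (F 135 (V (F 1025 (S (T L (F 3 (S L L))) (U (T L L) (S L L)))) (F 1081344 (S (F 291 (T (S L L) (S L L))) (F 262144 (T (F 66048 (S L L)) L)))))))) (F 327155713 (U (F 4194576 (V (F 544 (S (F 17 (U (V (S L L) (F 1024 (S L L))) (F 4096 (V L (F 34 (S L L)))))) (F 1 (V (S L L) (F 16384 (U (S L L) (S L L))))))) (F 1118208 (S (F 258 (T (V (U L L) (F 4096 (S L (S L L)))) (F 512 (V (S (S L L) L) (S L (S L L)))))) (V (F 4352 (T (S L L) (U (F 16384 (S L L)) (S L L)))) (F 2 (T (F 512 (U (S L L) L)) (F 512 (U (F 1024 (S L L)) (F 8 (S L L))))))))))) (F 4194465 (S (F 16896 (V (F 8 (T (F 65536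 (S L L)) (F 65536 (S L L)))) (F 64 (T (F 106496 (V L L)) (F 98304 (S L (F 2 (S L L)))))))) (F 589824 (V (F 4352 (T L L)) (F 40 (T (F 32768 (S L L)) (F 32768 (V L (S L L))))))))))))
noncomputable def w8_10 : Tr := (S (F 2181054488 w8_9) (F 10770973697 (U (F 33619970 (T (F 1024 (V (F 8913441 (S (F 2 (T (F 262144 (S L L)) L)) (F 1 (V (F 4 (S L L)) (S L L))))) (F 23068672 (S (F 4 (T (F 512 (V L L)) (F 540672 (S L L)))) (F 2097153 (V (F 262160 (S L L)) (F 8192 (U (F 16512 (S L L)) L)))))))) (F 52 (S (F 1048576 (V (F 69632 (V (F 262144 (S L L)) (F 528384 (T L (S L L))))) (F 129 (T (F 4096 (S (F 512 (V L L)) (F 8192 (U L L)))) (F 69664 (V (F 256 (S L L)) (S L (S L L)))))))) (F 1048608 (V (F 1048578 (T L (F 262272 (S L L)))) (F 129 (T (F 1 (U (S L L) (F 33 (S L L)))) (S (F 2048 (V L L)) (F 262145 (S L L))))))))))) (F 436404226 (T (F 8 (S (F 2097152 (V (F 2048 (U (F 33 (S L L)) (S L L))) (F 1 (T (S L L) (F 540672 (S L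 L)))))) (F 1 (V (F 65536 (S L L)) (F 3 (T L (F 262144 (S L L)))))))) (F 15 (V (F 32 (S (F 4 (T (F 256 (S L L)) L)) (F 131072 (U (S L L) (S L L))))) (F 16384 (S (F 4 (T (S L L) (F 4096 (V (F 1024 (S L L)) (F 1 (S L L)))))) (T (F 131072 (S L L)) (F 4100 (V L L))))))))))))
noncomputable def w8_11 : Tr := (S (F 5244930 (V (F 65602 (U (F 256 (V (U (F 512 (S (S L L) (S L L))) (S L L)) (F 512 (T (F 2 (S (S L L) (S L L))) (F 2 (S (S L L) (T L L))))))) (F 16 (V (S L L) (F 17664 (T L L)))))) (F 267264 (U (F 32768 (V (F 32 (T (F 4 (S (S L L) (S L L))) (S (F 128 (V L L)) (F 4 (V L L))))) (T (F 2048 (S (F 64 (S L L)) (F 4 (S L L)))) (F 2304 (S (S L L) (F 256 (S L L))))))) (F 32784 (V (F 4096 (S (T L L) (F 1 (T L L)))) (F 16384 (T (F 2 (S L L)) (S L L))))))))) (F 6291458 (U (F 1026 (V (F 8200 (T (U (S L (S L L)) (S (S L L) L)) (F 256 (S (U (F 64 (V L L)) (S L L)) (U (S L L) L))))) (F 640 (T (F 8192 (V (F 1024 (S (F 8192 (U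 L L)) (S L L))) (F 2 (S (T L L) (F 32 (U L L)))))) (F 32800 (V (F 4 (S (U L L) (U L L))) (S (S L L) (F 4 (U L L))))))))) (F 1212418 (V (F 2176 (T (S L L) (S L L))) (F 17 (T (V (F 544 (S L L)) (S L L)) (F 1536 (V (F 128 (S L L)) (S L L))))))))))
noncomputable def w8_12 : Tr := (U (F 17408 (S (F 8214 (V (F 65538 (T (F 4096 (V (U (F 2 (S L L)) L) (F 2 (S (T L L) (S L L))))) (F 16384 (V (F 4 (U (S (K 4) (K 4)) L)) (S (F 128 (S L L)) (F 4 (S L L))))))) (F 4 (V (F 32770 (T (S (F 144 (S L L)) (V L L)) (F 128 (S L (S L L))))) (F 2304 (T (F 2 (S L L)) (F 16 (S L L)))))))) (F 10 (V (F 262162 (U (F 1026 (V (T L L) (S (F 2 (T L L)) (T L L)))) (T (F 2 (V L (F 64 (S L L)))) (F 1026 (V L L))))) (F 131332 (V (F 32768 (T (F 16388 (S (S L L) (U L L))) (S (F 16384 (S L L)) (F 4 (S L L))))) (T (S (F 34816 (S L L)) (F 32768 (V (F 16388 (S L L)) L))) (F 2048 (S (F 128 (T L L)) (V L L)))))))))) (F 7864320 (S (F 264704 (V (F 2048 (T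 (F 17408 (S (S L L) L)) (F 32768 (V (S L L) L)))) (F 35 (V (F 32 (T (S L L) (S L L))) (S L (T L L)))))) (F 524320 (V (F 513 (V (F 8192 (S L L)) (F 512 (T L (S L L))))) (F 160 (T (F 49408 (V (S L L) (S L L))) (F 49408 (V L (S L L))))))))))
noncomputable def w8_13 : Tr := (T (F 20972068 (S (F 2228230 (V (F 512 (V (U (S L L) L) (T (S L L) (S (F 1280 (V L L)) (F 1024 (S L L)))))) (F 64 (V (T (F 256 (S (S L L) L)) (F 768 (S (S L L) (S L L)))) (S (F 33280 (T (F 64 (S L L)) (F 64 (V L L)))) (T (T L L) (F 33280 (S L L)))))))) (F 2097156 (V (T (F 524289 (V L (S L L))) (F 524296 (S (F 257 (V L L)) (F 131072 (S L L))))) (F 136 (T (S (F 2 (U (T L L) (F 1 (S L L)))) (F 131073 (V L L))) (S (F 2 (V (T L L) (F 128 (S L L)))) (F 131072 (V (F 65536 (S L L)) (T L L)))))))))) (F 65 (V (F 9568264 (S (F 525056 (T (F 2 (V (U L L) (F 32832 (U (S L L) L)))) (U (S L (T L L)) (F 131078 (S L L))))) (V (F 1048577 (T (F 1030 (S L L)) (F 3072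 (S L L)))) (F 131072 (T (F 4 (S (F 832 (S L L)) (F 262145 (S L L)))) (F 10240 (U (F 128 (S L L)) L))))))) (F 40960 (S (F 3407872 (T (F 36864 (S (F 262 (U (V L (S L L)) (F 2 (S L L)))) (F 2 (V (F 514 (S L L)) (F 32768 (T L L)))))) (F 135680 (V (F 10 (S (F 2 (S L L)) L)) (U (S (S L L) L) (F 1 (S L L))))))) (F 144 (V (F 524296 (S (F 98304 (T (T L L) (F 512 (S L L)))) (F 1 (T L (F 4 (S L L)))))) (F 20 (T (F 2 (S (F 65540 (S L L)) (F 131076 (S L L)))) (F 4 (S (S L L) (F 131072 (S L L)))))))))))))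
noncomputable def w8_14 : Tr := (S (F 214748381270 (U (F 142606336 (V (F 67108945 (S (K 4) (K 4))) (K 15))) (F 3422617600 (T (F 8388608 (V (F 46399488 (V (K 17) (F 18 (T (K 4) (F 2048 (S L L)))))) (F 2260992 (S (K 9) (T (F 1048576 (V L (K 12))) (K 9)))))) (F 8388912 (V (F 4194304 (S (F 3584 (V (F 212993 (U (K 5) (F 8192 (S L L)))) (K 10))) (F 2097156 (T (F 328704 (V (F 32768 (S (K 2) (K 2))) L)) (F 3072 (V (F 10 (U (K 3) L)) (K 7))))))) (K 13))))))) (F 764504179457 (V (F 285736964 (U (F 154 (S (K 3) (K 3))) (F 16411 (T (F 8388610 (U (K 19) (F 2 (S (F 655360 (V (K 16) (S L L))) (F 1 (T (K 18) (F 2 (S L L)))))))) (F 1572864 (S (F 41 (T (F 131072 (U (K 14) (F 65536 (S L L)))) (V (F 64 (S (F 384 (S L L)) (F 65538 (S L L)))) (F 2048 (S (S L L) L))))) (T (F 1048585 (V L (F 32768 (S L L)))) (F 32808 (S (F 327680 (V L L)) (F 327681 (V L L))))))))))) (F 2829058048 (U (S (K 14) (V (F 288 (T (K 4) (F 42242052 (S (K 8) L))))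 (K 14))) (F 4097 (T (F 262148 (S (F 129 (T (F 278530 (S L L)) (F 2375680 (V L (K 6))))) (F 8388626 (T (F 1310721 (S L L)) (F 32768 (V L L)))))) (F 1179652 (S (F 3 (T (F 16384 (S (K 7) (F 20 (T L L)))) (K 12))) (F 18 (T (F 65536 (U L (F 1 (S L L)))) (F 34816 (U (S (K 7) L) (F 2 (S L (F 24576 (S L L)))))))))))))))))
noncomputable def w8_15 : Tr := (V (F 27921481824 (U (F 2162689 (T (F 48529416 (S (F 524288 (T (F 33794 (V (K 13) (K 7))) (K 11))) (F 262160 (U (F 2 (S L L)) (V (S L L) (F 2 (S (K 7) L))))))) (F 14942216 (S (K 10) (F 260 (V (U (K 17) (T (F 67588 (S L (K 3))) (F 2050 (S (K 8) (K 3))))) (K 12))))))) (F 1129 (T (F 4325384 (S (F 3146241 (V (F 32832 (U (T (F 128 (S L L)) (F 128 (S L L))) (T (F 2 (S L L)) (S L (S L L))))) (U (K 11) (T (S L L) (F 24640 (S (K 5) L)))))) (F 1065488 (T (F 2 (V (F 5 (S (S L L) L)) (U (S L L) (S L L)))) (S (F 2 (V (U L (F 1 (S L L))) (F 16 (T L L)))) (U (V (S L L) L) (V L (F 131072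 (S L L))))))))) (F 4211208 (S (F 1048577 (V (F 8192 (T (F 256 (S (F 512 (V L (K 7))) (F 2 (U L L)))) (F 256 (U (K 10) (S L L))))) (K 11))) (F 128 (V (T (F 65540 (S (F 131072 (U L (F 131072 (S L L)))) (U (S L L) (F 1 (S L L))))) (S (F 2050 (U (S L L) L)) (F 65540 (U L (S L L))))) (F 32768 (T (U (F 262144 (S (K 11) L)) (F 131074 (S L (S L L)))) (F 262144 (U (K 11) (F 139264 (S L L)))))))))))))) (F 75563008 (U (K 17) (F 1073746536 (S (K 15) (F 167772176 (U (K 10) (F 66 (V (F 1048592 (T (F 262176 (T (F 16386 (S L L)) (F 16514 (S (K 5) L)))) (F 528400 (T (K 11) (K 11))))) (K 14))))))))))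
noncomputable def w8_16 : Tr := (U (F 2097164 (T (F 512 (V (F 5767168 (S (F 528 (T (F 16384 (V (F 2 (S L L)) (F 1 (S L L)))) (F 65536 (U (F 4 (S L L)) (F 4 (S L L)))))) (F 24 (T (V (F 1024 (S L L)) (S L L)) (F 1 (S (F 130 (V L L)) (V L (S L L)))))))) (F 2146304 (S (T (F 1058 (U (S L L) (F 65536 (S L L)))) (F 1035 (S L (F 1024 (S L L))))) (F 1 (T (F 278528 (V (F 1 (S L L)) (S L L))) (S (V (F 393216 (S L L)) L) (F 16385 (T L L))))))))) (F 145 (V (F 262144 (S (F 802 (V (F 1 (S (F 64 (T L L)) (U L (S L L)))) (F 36864 (T L L)))) (F 524288 (T (F 139264 (U (F 4 (S (F 512 (S L L)) (S L L))) (F 4 (V (F 512 (S L L)) (F 32768 (S L L)))))) (F 8192 (V (F 10 (U (F 1536 (S L L)) (S L L))) (F 145 (S L (F 16384 (S L L)))))))))) (F 1064960 (S (F 656 (U (K 10) (T (F 32768 (S L L)) (F 1 (S (K 5) L))))) (F 262144 (T (F 9216 (V (F 2 (S L L)) (F 128 (S L L)))) (F 9216 (U (K 5) (S L L))))))))))) (F 67436548 (T (F 1048593 (S (F 524288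 (V (F 9 (T (F 1024 (V (F 1 (S L L)) (F 4 (S L L)))) (F 65536 (V (F 32 (S L L)) (F 2 (S L L)))))) (F 16 (V (F 147456 (T (S L L) (F 1 (S L L)))) (T (F 16896 (S L L)) (F 66048 (S L L))))))) (F 524288 (V (F 9 (T (V (F 65536 (S L L)) (S L L)) (F 65536 (V L (S L L))))) (F 16 (T (F 147456 (U (V (S L L) (S L L)) (S L L))) (F 196608 (S (F 2 (S L L)) (F 32770 (S L L)))))))))) (F 25 (S (F 524292 (V (F 1 (T (F 32768 (V (F 32800 (S L L)) (F 2 (S L L)))) (F 2049 (S L (S L L))))) (F 72 (T (F 512 (V L L)) (F 513 (S L L)))))) (F 5 (V (F 3 (T (F 16384 (V (S L L) (F 2 (S L L)))) (S (F 16384 (V L L)) (F 16384 (V L L))))) (F 16 (T (F 32768 (V (F 1 (S L L)) L)) (F 33792 (S L L)))))))))))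
noncomputable def w8_17 : Tr := (T (F 16386 (S (F 4 (U (V (F 557056 (V (T (S L L) (F 2 (S L L))) (F 4 (T (S L L) (F 16384 (S (S L L) L)))))) (F 1196032 (T (F 9 (S (F 8192 (S L L)) (F 8193 (S L L)))) (F 16 (V (F 73728 (S L L)) (S L L)))))) (F 1736704 (V (T (S (F 4 (S L L)) L) (F 5 (V (S L L) (S L L)))) (F 12 (T (S (V L L) (F 1 (S L L))) (F 16384 (V (S L L) (S L L))))))))) (F 2097157 (V (F 16384 (T (F 5 (V (S L L) (U (S L L) L))) (F 4 (U (F 65536 (V L (S L L))) (F 98304 (S L L)))))) (U (F 81920 (T (F 9 (V (S L L) (F 4096 (S L L)))) (F 8 (V (F 32768 (S L L)) (F 4096 (S L L)))))) (F 352256 (T (S (F 4 (S L L)) (F 4 (S L L))) (F 5 (V (S L L) (S L L)))))))))) (F 1048576 (U (S (F 72 (V (F 327682 (T (F 2 (V (U (S L L) L) (F 8192 (S (S L L) (S L L))))) (U (S (F 2 (V (S L L) L)) (F 2 (V L L))) (F 19 (S (T L L) (S L L)))))) (F 1097728 (T (F 65538 (V (S L L) (S L L))) (F 66 (S (F 2 (V L L)) (U L L))))))) (F 4 (V (F 1179650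 (V (T (S (F 9 (S L L)) L) (F 8200 (S (F 32768 (S L L)) L))) (F 10 (T (F 65536 (S (S L L) L)) (S (F 65536 (S L L)) (F 65536 (S L L))))))) (F 2703360 (T (S (F 65544 (V L L)) (F 196620 (T L L))) (F 8 (V (F 16384 (S (S L L) (S L L))) (F 2048 (S L L))))))))) (F 2097477 (S (V (F 131072 (T (F 5 (V (S L L) (S L L))) (F 1 (V (F 16384 (S L L)) (S L L))))) (F 73728 (T (V (F 5 (S L L)) (S L L)) (V (S L L) L)))) (V (F 147456 (T (F 1 (S (T L L) L)) (F 1 (S (V L L) (T L L))))) (F 73728 (T (F 4 (S (V L L) (F 1 (S L L)))) (S (V (S L L) L) (F 4 (V L L)))))))))))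
noncomputable def w8_18 : Tr := (T (F 2058 (V (F 524356 (S (F 24578 (U (F 192 (T (V (F 4096 (S L L)) L) (F 8192 (V (S L L) L)))) (F 3 (T (F 512 (S L (S L L))) (F 768 (S L L)))))) (U (T (F 8194 (V (F 130 (U (S L L) (F 4096 (S L L)))) (F 17 (S L (T L L))))) (F 8192 (S (F 65937 (S L L)) (V (F 128 (T L L)) L)))) (F 270338 (S (F 9 (T (S L L) (S L L))) (T (F 1 (V L L)) (F 8 (S L L)))))))) (F 129 (U (F 50176 (U (K 5) (F 32768 (S (T L L) (T (F 2 (S L L)) (F 16384 (S (K 4) L))))))) (F 49154 (S (F 129 (T (S L L) (F 16896 (S L L)))) (T (F 2 (S L L)) (F 130 (S L L))))))))) (F 655360 (V (F 2084 (S (F 536582 (U (U (K 4) (S (F 1 (S L L)) (F 4096 (T L L)))) (F 1 (T (F 4 (S L L)) (S L L))))) (U (F 8208 (T (F 65537 (V (F 132 (S L L)) (F 1024 (S L L)))) (F 65 (S (F 2 (V L L)) (F 256 (V L L)))))) (F 524294 (S (F 16416 (T (F 2 (S L L)) L)) (F 49152 (T (S L L) L))))))) (F 513 (U (S (F 10246 (V (F 18 (S L (K 10))) (F 8192 (S L L))))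 (F 67584 (U (K 5) (F 196610 (T (F 1024 (S L L)) (F 1024 (S L L))))))) (F 589830 (S (F 33 (S L (F 512 (T L L)))) (V (F 128 (T L L)) (S L L)))))))))
noncomputable def w8_19 : Tr := (T (F 16777216 (S (F 4341762 (V (F 786436 (U (V (F 32832 (T (F 32770 (S L L)) (S (F 128 (S L L)) (S L L)))) (F 270336 (S (F 8 (T L L)) (F 8 (T L L))))) (F 262144 (T (F 65552 (V (F 40960 (S L L)) (F 4096 (S L L)))) (F 16 (V (F 66 (S L L)) (F 8192 (S L L)))))))) (F 97 (T (F 131084 (V (U (S (K 4) L) L) (S L L))) (F 131072 (S (F 64 (V L L)) (F 49152 (U L (S L L))))))))) (F 8519704 (V (T (F 16 (V (F 524420 (S (F 65538 (S L L)) (F 1 (S L L)))) (F 1310720 (S (F 131144 (S L L)) (F 2048 (T L L)))))) (F 16900 (S (F 2 (V (F 10 (S L L)) (F 49 (S L L)))) (F 294912 (V L (S L L)))))) (F 613 (T (F 2 (V (S (S L L) (S L L)) (S L L))) (F 2 (S (U (S L L) (S L L)) (V (S L L) L))))))))) (F 2060 (V (F 1056 (S (F 1179712 (T (F 2 (S (F 33 (U (F 512 (S L L))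 L)) (F 1 (V (U (S L L) L) (F 12288 (S L L)))))) (F 270336 (S (F 72 (T L L)) (F 8 (U (F 1024 (S L L)) L)))))) (F 131072 (V (F 16388 (S (F 1 (T (F 32770 (S L L)) (F 2 (S L L)))) (F 9 (T (S L L) (S L L))))) (F 1146880 (S (F 65536 (U (F 8192 (S L L)) (F 8194 (S L L)))) (F 32768 (T (F 8192 (S L L)) (S L L))))))))) (F 9175040 (S (F 524296 (V (T (F 4114 (U (K 4) L)) (F 4096 (U (K 4) L))) (F 4096 (T (F 65536 (S L L)) L)))) (T (F 851976 (S (V L L) (V L (S L L)))) (F 525312 (V (F 32776 (U (F 8192 (S L L)) L)) (F 2048 (S L L))))))))))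
noncomputable def w8_20 : Tr := (U (F 212602191896 (T (F 47606690060961308 w8_14) (F 53110981533893889 (S (F 1649338763328 (V (F 4836556802 (U (K 14) (F 134217879 (S (K 14) (F 2097168 (V (F 270336 (T (F 9218 (U (K 7) (T (F 8 (S L L)) (F 256 (S (K 8) (S L L)))))) (F 17920 (T (K 7) (K 7))))) (K 8))))))) (K 16))) (F 1374456905856 w8_15))))) (F 612489674435835135 (T (F 412400812348 (S (F 67110912 w8_16) (F 318769153 w8_17))) (F 485616517153 (S (F 822088200 w8_18) (F 536871040 (U (F 8224 w8_19) (F 268435460 (T (F 29376710 (S (F 2 (V (F 65536 (V (F 81920 (T (S L L) (F 16 (S L L)))) (F 8192 (T (F 32 (S L L)) (F 32 (S L L)))))) (F 72 (T (F 2 (S L (S L L))) (V L L))))) (F 4 (V (F 4 (S (F 2 (T (F 1 (V L L)) (F 32 (V L L)))) (T (F 65536 (V L L)) (V L L)))) (F 8 (T (F 2 (V (S L L) (F 32 (S L L)))) (F 2050 (V (S L L) L)))))))) (F 4195394 (S (F 2228230 (V (F 66048 (T (F 2 (S (F 8 (S L L)) (F 8 (S L L)))) (F 8192 (V L (S L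 L))))) (F 8 (T (F 514 (S L L)) (V L L))))) (F 2060 (V (F 135200 (U (F 32768 (T (S L (S L L)) (S L L))) (F 32768 (T (S L L) (F 8 (S L L)))))) (F 18 (T (F 16386 (V (F 16384 (S L L)) L)) (F 2 (S L L)))))))))))))))))
noncomputable def treeW8 : Tr := (F 0xffffffffffffffffffffffffffffffffffffffffffffffffffffffffffffffffffffffffffffffffffffffffffffffffffffffcfffffe49fffeaffffffffffffffc21fffffff843fffffffffffffffffa6fffedbffffffffffffffffffffffffffffffffffffffffffffffffffffffffffffffffffffc7fff3bcffe3c3ffffff933ffffff8ffffffffffffffffffffffffffffffffffffffffffffffffffffffffffffffff93ffd3fffff9fe67ffffffff3f1fffff1c3fffff33f3fffffff9fc3ffdeffffffffffffffffffffffffffffffffffffffffffffffffffffffff876fffffffff31f9 (S (F 0x3a3a200800240e40000c00ff907 w8_5) (F 0x18619a1410008bc1009da4004503 (V (F 0x1101200428200404828 (U (F 72620582662836490 (T (F 13653187969942364 w8_6) (F 62522904289493057 (S (F 1649268491084 w8_7) (F 1133873464140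 w8_8))))) (F 360288094745680383 (T (F 6614266413244 w8_10) (F 7743867977729 (S (F 6444550421 (T (F 6 w8_11) (F 32772 w8_12))) (F 5505024016 (U (F 67109376 w8_13) (F 472121348 (T (F 1572905 (S (F 2 (V (F 2048 (T (F 256 (S L L)) (S L L))) (F 16 (T (S (F 32768 (T L L)) (F 32 (V L L))) (F 32 (S (F 1 (S L L)) (U (S L L) L))))))) (F 64 (V (V (F 65536 (S L L)) (T L L)) (S (F 32784 (T (S L L) (V L L))) (T (F 65536 (S L L)) (F 16 (V L L)))))))) (F 1064960 (S (F 2 (V (F 9 (T (F 514 (S L L)) (F 1538 (S L L)))) (F 262784 (S (F 65536 (T (F 16 (V L L)) L)) (F 65536 (U (V L L) L)))))) (V (F 1179648 (T (F 65536 (S (S L L) L)) (S (F 65664 (S L L)) L))) (F 8196 (U (F 8 (S (F 132096 (V (S L L) L)) (F 131072 (T (F 8 (S L L)) L)))) (F 41 (T (S L L) (F 1024 (S L L))))))))))))))))))) (F 0x28888180001050080504 w8_20)))))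

theorem pW8 : chkW par treeW8 192 64 320 64 128 128 163840 327680 Lc = true := by decide +kernel


end Pool.Agent.Lib.H56.Gen.D8
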