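import Pool.Agent.Lib.H56.Gen.D8.Par
import Pool.Agent.Lib.H56.Gen.D8.Cos

/-!
# Certificate tree W, part 2
-/

set_option maxRecDepth 100000

namespace Pool.Agent.Lib.H56.Gen.D8

open Tr

noncomputable def w9_0 : Tr := (T (F 17408 (S (F 81936 (U (F 64 (V (T (V (S L L) (S L L)) (S (F 16 (T L L)) (S L L))) (F 1 (U (F 1024 (S (K 3) L)) (F 1024 (T L L)))))) (F 16384 (V (F 128 (T (S L L) (F 512 (S L L)))) (F 4 (T (V L L) (F 1088 (S L L)))))))) (F 16896 (V (U (V (T (F 6 (S L L)) (F 2 (S L L))) (F 2048 (T (F 8192 (S L L)) (S L L)))) (F 34818 (T (S L L) (S L L)))) (F 6144 (U (T (F 4096 (V (S L L) (F 4096 (S L L)))) (F 1 (V (S L L) (S L L)))) (F 4097 (T (S L L) (S L L))))))))) (F 33024 (U (S (F 304 (V (F 8 (V (S L (K 7)) (F 9 (S L L)))) (F 18448 (U L (F 1024 (S L L)))))) (F 256 (V (F 8 (T (S (F 48 (S L L)) (V (K 9) L)) (F 32 (V L (F 18432 (S L L)))))) (F 73728 (V (F 2048 (T (S L L) (F 1024 (S L L)))) (F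 1024 (U (K 9) (S L L)))))))) (F 65537 (S (F 6144 (V (F 2080 (T (S L L) L)) (F 1028 (T (F 128 (S L L)) L)))) (V (F 260 (T (F 8 (S L L)) (F 16 (S L L)))) (F 8192 (V (F 4160 (T (F 1024 (S L L)) L)) (F 2048 (T L L))))))))))
noncomputable def w9_1 : Tr := (S (F 65537 (T (F 65666 (U (F 8 (S L (F 2 (T (F 16532 (V L L)) (V L L))))) (F 98312 (S (F 1024 (T L L)) (F 2048 (T (F 8 (V L L)) (F 8 (S L L)))))))) (F 196612 (U (F 2048 (S (F 6 (T L L)) (F 2 (V (F 12 (T L L)) (F 16385 (V L (K 4))))))) (F 98304 (S (F 34816 (S L L)) (F 4112 (U (S L L) L)))))))) (F 16384 (U (F 65536 (T (F 655369 (S (F 16400 (V (F 2116 (T (S L L) (S L L))) (U (S L L) (F 8196 (S L L))))) (F 8192 (V (F 4096 (V (K 6) (F 4096 (S L (F 32 (S L L)))))) (F 2052 (U (V (S L (S L L)) (T (K 10) (S L L))) (S (V (S L L) L) (V (S L L) (S L L))))))))) (F 16400 (S (F 262146 (V (F 12 (U (S (S L (K 7)) (K 7)) (F 4 (V L (S L L))))) (F 49152 (U (S L L) (F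 2048 (S L L)))))) (F 49666 (V (V (K 7) (F 1 (S (S L L) (F 4 (S L (K 6)))))) (F 4097 (U (S (T L L) (V (S L L) (S L L))) (T (V L L) (F 16 (S L L))))))))))) (F 229386 (T (F 1 (S (F 2 (V (F 4 (T (F 260 (S L L)) (F 8 (S L L)))) (F 2048 (T L (S L L))))) (F 8192 (V (F 2048 (T L (S L L))) (F 1024 (V (U (T L L) (F 2 (S L L))) (F 2 (S L L)))))))) (F 4097 (S (F 2 (V (F 4 (S L (S L L))) (V (S L L) L))) (V (F 4096 (S (F 4096 (T L L)) (T L L))) (T (F 4098 (S L L)) (F 146 (S L L)))))))))))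
noncomputable def w9_2 : Tr := (U (F 14716448421707808 (T (F 1757261881934016 (S (F 27246731394 (U (K 12) (F 102825986 (V (F 131106 (T (F 143364 (S L (F 8192 (U (K 8) (F 512 (S L L)))))) (F 2048 (U (K 7) (F 82 (S (K 0) L)))))) (K 10))))) (F 25904546820 (U (F 335544330 (V (F 1049605 (S (K 8) (K 8))) (K 13))) (F 889716746 (T (F 1048704 (V (F 524304 (S (F 65602 (V (K 6) (F 2048 (U (K 5) (T L (K 5)))))) (F 2 (U (K 7) (F 4 (S (F 32 (S (K 6) (K 6))) (K 10))))))) (K 11))) (F 4 (V (F 1081376 (S (F 32784 (U (K 7) (F 4100 (S L (K 8))))) (K 10))) (K 12))))))))) (F 2285095138362400 (S (F 331251531865 (V (K 0) (K 8))) (F 858994738280 (U (F 268500992 (V (K 16) (K 12))) (F 805306368 (T (F 83886209 (V (F 4261888 (S (F 180359 (S (K 6) (K 6))) (K 11))) (K 13))) (F 21530627 (S (F 802816 (V (F 65561 (S (K 7) (K 7))) (U (K 17) (F 1 (S L L))))) (F 32770 (V (K 11) (F 38 (U (K 10) (F 36864 (T (S L (K 3)) L))))))))))))))))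 (F 0xccf000117c8e7f3f (T (F 3759146072 (S (F 12585792 (U (F 512 (T (F 40 (S (F 36868 (V (F 68 (T L L)) (K 8))) (F 4 (V (F 272 (U (T L L) (T (S L L) L))) (F 4105 (S L L)))))) (F 1073 (V (F 3076 (U L (T (S L L) L))) (F 8 (U L (S (K 8) L))))))) (F 270336 (T (F 148 (V (F 132 (S (F 4 (T L L)) (T (S L L) (F 4 (S L L))))) (F 2048 (S L (T L L))))) (F 8 (S (F 8704 (T L L)) (F 12928 (V (F 512 (T L L)) L)))))))) (F 8390824 w9_0))) (F 7526293576 w9_1))))
noncomputable def w9_3 : Tr := (T (F 30070018160 (S (F 26215200 (V (F 16 (U (K 13) (F 65 (S (K 6) (F 33 (T L L)))))) (K 7))) (F 655648 (T (F 65536 (S (F 819200 (U (F 1 (V (F 521 (T L L)) (K 13))) (F 270336 (V (F 65544 (S L L)) (S (K 11) L))))) (F 2621440 (U (V (F 640000 (U (K 3) (F 8192 (T L L)))) (F 18 (S (K 13) L))) (F 540674 (V (F 12 (S L (T (F 512 (S L L)) L))) (F 8192 (S L L)))))))) (F 64 (S (F 262336 (V (F 278533 (U (F 256 (S (K 4) L)) (F 8 (S L L))))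 (K 6))) (F 2097152 (U (V (F 1245442 (T (F 4 (U L L)) (F 16 (U L L)))) (F 524292 (U (K 13) (F 80 (S (K 5) L))))) (F 1081350 (V (F 8 (T (F 12288 (S L L)) (F 2112 (S L L)))) (F 32 (T L L)))))))))))) (F 21479031312 (S (K 18) (F 102240256 (U (F 33856 (V (F 4194883 (T (S (F 131076 (U (K 10) (F 16388 (S (K 4) L)))) (F 16384 (U (V (F 32780 (S L L)) (F 16385 (S (K 5) L))) (F 49160 (S L (S L L)))))) (F 131364 (S (T (F 4 (S (K 4) L)) (K 9)) (F 4 (S (V (F 1024 (S L L)) (K 4)) (F 1024 (V (F 1024 (S L L)) (U L L))))))))) (K 15))) (F 51150856 (S (F 131072 (V (F 8465 (T (F 8 (S L L)) (F 9 (S L L)))) (K 6))) (F 541728 (T (V (F 4098 (T (S L L) (F 1024 (U L L)))) (F 32768 (S L (T L L)))) (F 128 (V (F 8 (S (F 8194 (S L L)) (F 2 (U L L)))) (F 1025 (S L (T L L))))))))))))))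
noncomputable def w9_4 : Tr := (V (F 32928 (U (F 69632 (S (K 9) (K 9))) (F 4148 (T (F 1245188 (S (F 514 (U (K 8) (F 1048576 (T (F 262146 (V (F 4 (S (K 10) (K 10))) (F 8 (S L L)))) (V (K 11) (F 294912 (S (K 6) L))))))) (F 10 (U (F 8192 (S (K 11) (F 528385 (V (K 4) (S L L))))) (F 1048576 (T (F 65536 (V (F 65 (S L (K 13))) (F 4096 (S L L)))) (F 64 (V (F 136 (S L L)) (S L L))))))))) (F 147456 (S (F 3 (S (K 9) (K 9))) (F 16450 (U (S (K 9) (K 9)) (F 2097152 (T (F 262208 (V L L)) (F 1 (S (K 9) L)))))))))))) (F 2150760448 (U (F 4210688 (T (F 8388640 (S (F 17825833 (U (K 17) (F 4 (V (K 3) (F 1024 (T (F 2048 (S (K 8) (K 3))) (K 9))))))) (K 6))) (F 136316928 (S (F 8654848 (S (K 8) (K 8))) (F 524296 (S (K 9) (K 18))))))) (F 25 (T (F 32928 (S (F 5505033 (U (V (S (F 4608 (S (K 10) (K 10))) (F 36864 (S (K 10) L))) (F 512 (S (S L L) (S L L)))) (V (T (F 36866 (S L L)) (S L L)) (T (F 4096 (S L L)) (F 512 (S L L))))))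 (V (F 2097440 (T (F 16 (S (F 9 (S L L)) (F 5 (U L L)))) (F 16 (S L (F 2048 (S L L)))))) (F 1310728 (T (F 73728 (U (S L L) (F 65537 (S L L)))) (F 256 (S (F 262145 (S L L)) (F 128 (S L L))))))))) (F 8421504 (S (F 5374977 (U (F 256 (V (F 16384 (S (K 6) (K 6))) (F 48 (S L L)))) (V (F 8 (T L L)) (F 286976 (T L L))))) (F 266241 (V (U (K 18) (S L (F 1048576 (S L L)))) (F 40 (U (F 131584 (S L L)) (F 1 (S L L)))))))))))))
noncomputable def w9_5 : Tr := (S (F 246290912972405 (V (F 5100273666 (S (K 16) (K 16))) (F 2097416 (U (F 132104 (T (K 14) (K 14))) (F 268437535 (T (F 4 (S (F 524324 (U (K 12) (F 401408 (V (S L (K 7)) (K 3))))) (F 526336 (U (F 16384 (V (K 10) (K 7))) (F 671744 (V (F 128 (S (K 8) (K 8))) (S (F 2064 (S L L)) (T L L)))))))) (F 166016 (S (F 81923 (U (T (K 10) (K 10)) (V (S (K 7) (K 7)) (F 16420 (S L (T L L)))))) (F 98304 (U (V (K 7) (F 65572 (S (K 5) (K 8)))) (F 98304 (S (F 4096 (V (K 6) (F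 8192 (S L (F 256 (S L L)))))) (V (K 7) (F 4096 (T L L))))))))))))))) (F 158331823986506 (V (F 17179869248 (U (K 22) (F 21 (S (K 13) (F 6442975872 (S (K 16) (F 32769 (T (F 17563682 (V (K 11) L)) (K 11))))))))) (F 206426996740 (U (F 16384 (S (K 13) (F 32 (S (K 18) (K 18))))) (F 671089675 (S (F 68747264 (T (F 2687009 (U (S (F 512 (S (K 8) (K 8))) (F 66048 (S (K 7) (K 7)))) (F 65536 (V (F 4224 (S (K 7) L)) (T L (S L L)))))) (F 65568 (U (F 16384 (S (K 9) (K 9))) (F 1048576 (T (F 65536 (V (F 2 (S (K 9) (K 9))) (F 8256 (S L (S L L))))) (F 4129 (V (S (K 9) (K 9)) (F 152 (S (S L L) (S L L))))))))))) (F 67174400 (T (F 2097221 (V (F 2130 (T L L)) (F 65568 (U L (F 8 (S L L)))))) (F 224 (U (V (K 11) (F 33344 (S (F 2048 (S (K 8) (K 8))) L))) (F 2129920 (V (S L L) (F 8192 (T (F 131080 (S L L)) (F 384 (S L L)))))))))))))))))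
noncomputable def w9_6 : Tr := (T (F 4096 (U (F 131072 (S (F 1048620 (V (F 66 (V (F 6 (T (F 4 (S L L)) L)) (F 512 (T (F 24576 (S (S L L) L)) (S L L))))) (F 544 (S (F 34816 (T (V L L) (F 9 (U L L)))) (V (F 2048 (T L L)) (F 69632 (T L (S L L)))))))) (V (F 2097168 (T (F 851976 (S (F 34818 (T L L)) (F 2050 (V L L)))) (F 327680 (U (S (F 131074 (S L L)) (F 4098 (S L L))) (F 4102 (S L L)))))) (F 1048612 (V (F 65536 (S (F 512 (T (F 65538 (S L L)) L)) (F 4096 (U (T L L) L)))) (F 544 (S (F 139264 (T L (T L L))) (F 131080 (T (S L L) L))))))))) (F 7340033 (S (F 540684 (V (F 16 (T (S L L) (F 16384 (S L L)))) (F 129 (T (F 1024 (V (S L L) L)) (F 2048 (S L L)))))) (F 8 (V (F 131137 (V (S L L) (F 2 (S L L)))) (F 65570 (T (F 2050 (S L L)) (V L L))))))))) (F 4 (V (F 266240 (S (F 1574932 (U (V (S (K 10) (K 10)) (F 16 (S (T L L) (T L L)))) (F 17 (T L (S L L))))) (U (F 524288 (V (F 131074 (U (K 7) L)) (F 66048 (T (F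 8 (S L L)) (F 262144 (S L L)))))) (F 3145732 (V L (F 32785 (S L L))))))) (F 525380 (S (F 557060 (U (T (F 8320 (V (F 16384 (S L L)) (S L L))) (F 1 (V (F 520 (S L L)) (S L L)))) (F 1 (T (F 514 (S L L)) (V (F 520 (S L L)) (S L L)))))) (F 524288 (U (F 256 (T (F 16 (S (F 8 (V L L)) (U (S L L) (F 16384 (S L L))))) (F 16384 (V (F 4096 (U (S L L) L)) (S (S L L) (F 4096 (S L L))))))) (F 65544 (T (F 520 (S L L)) (F 65536 (S (S L L) L)))))))))))
noncomputable def w9_7 : Tr := (T (F 33026 (U (F 4259968 (S (F 40960 (V (F 1048594 (U (F 16384 (V (F 32768 (T (S L L) (S L L))) (T L L))) (F 524296 (T (F 32784 (S L L)) (S L L))))) (F 2752516 (U (T (V (F 36866 (S L L)) (S L L)) (V (S L L) L)) (F 262144 (T (F 65568 (V L L)) (V L (F 16 (S L L))))))))) (F 16777216 (V (F 2621513 (T (F 2048 (U (V L (F 32 (S L L))) (V (S L L) L))) (F 2048 (S (F 32 (V L L)) (U (F 32 (S L L)) (S L L)))))) (F 256 (V (F 589828 (T (F 131072 (S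 L (F 262148 (S L L)))) (F 131200 (S L L)))) (F 2097192 (T (F 131104 (S L L)) (F 256 (S (F 2 (T L L)) L)))))))))) (F 33554433 (S (F 525324 (V (F 525377 (S (F 2050 (T L L)) (F 32768 (V L (F 32 (S L L)))))) (F 1048864 (T (F 9222 (S L L)) (F 132100 (S L L)))))) (F 1048 (V (F 137 (T (F 32772 (V L (F 32 (S L L)))) (F 34816 (V L L)))) (F 1049152 (U (V (F 65536 (T L L)) (F 278532 (S L L))) (F 16384 (T (F 65568 (S L L)) L)))))))))) (F 8650752 (U (F 134251008 (S (F 8320 (V (F 262144 (V (F 2359300 (T (F 65537 (S L L)) L)) (F 1048586 (S (F 65537 (T L L)) L)))) (F 5373957 (T (V (F 8 (S L L)) (F 50176 (S L L))) (F 17408 (V (F 8192 (S L L)) (F 264 (S L L)))))))) (F 33562784 (V (F 524296 (T (F 16384 (S (F 1 (T L L)) (F 33281 (S L L)))) (F 512 (V (F 32769 (S L L)) (S L L))))) (F 264194 (U (V (S L L) (F 16 (S L L))) (V (S L L) (F 49168 (S L L))))))))) (F 8388609 (S (F 266258 (V (F 1705984 (T (F 262144 (S L L)) L))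 (F 2359330 (V (F 520 (S L L)) (F 32768 (T L (F 64 (S L L)))))))) (F 266402 (V (F 526336 (T (F 589824 (V L L)) L)) (F 262176 (T (F 516 (S L L)) (F 262400 (S L L)))))))))))
noncomputable def w9_8 : Tr := (S (F 25509900 (T (F 16385 (V (F 8 (U (V (K 8) (F 4 (S L L))) (S (F 4 (S L L)) (S L L)))) (U (F 8192 (T (V (S L L) (F 1024 (S L L))) (F 1088 (V (S L L) (S (S L L) (S L L)))))) (F 8192 (S (F 1024 (V (T L L) (S L L))) (T (V L L) (F 1024 (V L L)))))))) (F 16648 (V (U (U (K 7) (V (K 7) (F 16 (S L L)))) (V (F 8 (S L L)) (F 16400 (S L L)))) (F 16400 (U (S (U (V (S L L) (T (S L L) L)) (V (S L L) (F 256 (S L L)))) (V (T L (U L L)) (U (T (S L L) (F 256 (S L L))) (F 256 (S L L))))) (V (S (S L L) (S L L)) (F 256 (S L (T L L)))))))))) (F 16777216 (T (F 1048578 (U (F 8192 (V (F 32768 (T (F 1024 (S L (F 512 (S L L)))) (F 565764 (S L L)))) (F 65560 (T (S (F 131076 (V L L)) (F 512 (U (F 128 (S L L)) L))) (F 139780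 (V (S L L) (F 512 (S (S L L) L)))))))) (F 2228228 (V (F 16384 (T L L)) (F 32836 (T (V L (S L L)) (F 4352 (V L (F 512 (S L L)))))))))) (F 3150513 (V (U (U (K 8) (S (F 8 (S (K 7) (K 7))) L)) (S (F 8 (T L L)) L)) (F 40 (U (V (S (T L (F 1 (T L L))) (T L L)) (S (F 513 (T (U L L) (U L L))) (F 513 (U (T L (S L L)) (S L L))))) (F 1 (V (S (S L L) L) (F 16 (S (T L L) (T L L))))))))))))
noncomputable def w9_9 : Tr := (U (F 98432 (T (F 2 (V (F 516 (S (F 6817794 (V (F 8 (S L L)) (F 1024 (S L L)))) (F 4327424 (T (V L L) (S L L))))) (F 16777258 (S (F 65816 (V (F 2 (T (F 4224 (S L L)) (F 4096 (S L L)))) (T (F 2 (U (S L L) L)) (U (F 2 (S L L)) (F 8200 (S L L)))))) (V (F 1212416 (S L L)) (F 65816 (U (S L L) (T L L)))))))) (F 8388864 (V (S (F 4489234 (S (F 335873 (V (K 7) L)) (F 270336 (S L L)))) (F 258 (T (F 2228226 (S L L)) L))) (F 5013522 (S (F 8192 (V (T (S L L) (F 131272 (U L L))) (F 200 (T (F 2 (S L (S L L)))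 (F 1 (S (F 8192 (U (S L L) L)) (U L L))))))) (U (V (S L L) (F 9216 (T L (F 72 (S L L))))) (F 32770 (V L (F 144 (T L L))))))))))) (F 192 (S (F 88105026 (V (T (F 34 (T L L)) (F 1658880 (S L L))) (F 593920 (T (F 8192 (S (F 65538 (U (S L L) L)) (F 2 (T L L)))) (F 8209 (V (S (F 2 (S L L)) L) (F 96 (S (S L L) (T L L))))))))) (F 67117122 (T (F 4096 (V (F 2260992 (S L L)) (F 262162 (V (F 80 (S L L)) (F 36 (S L L)))))) (F 659472 (V (F 8192 (S L L)) (F 131138 (U (V L (F 144 (S L L))) (F 65664 (S L L)))))))))))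
noncomputable def w9_10 : Tr := (U (F 3584 (T (K 15) (F 109118976 (S (K 7) (F 294912 (T (K 11) (K 11))))))) (F 150998543 (T (F 1048584 (U (S (K 6) (F 2 (V (T L (S (K 12) L)) (F 64 (T (K 5) (K 5)))))) (F 2 (S (V (T (F 2 (S (K 5) (S L L))) (F 64 (S L (T L L)))) (F 64 (T (K 5) (F 9232 (U (K 9) (S L L)))))) (V (S (T L (F 64 (S L L))) (T L L)) (S (F 64 (T (S (K 5) L) (F 1040 (S L L)))) (T L (F 192 (S L L))))))))) (F 16768 (S (F 16385 (T (F 16384 (U (K 4) (F 2048 (S (F 8192 (V L (S L L))) (V (S L L) (F 8192 (U L (S L L)))))))) (F 32776 (U (V (S (K 4) (S L L)) (K 2)) (F 1 (V (S (U L (S L L)) (U L (S L L))) (S (S L L) (V L L)))))))) (U (T (F 16385 (V (S L L) (F 16384 (S (K 4) (S (K 4) L))))) (F 16385 (S (F 8 (V (S L L) L)) (V L (F 16392 (V L L)))))) (F 16385 (V (T (F 16384 (S (S L L) L)) (F 8 (S (T L L) (S L L)))) (F 8 (S (F 2 (T (V L (U L L)) (F 8192 (V (S L L) (S L L))))) (F 2 (T (S (S L L) L) (S L (T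 L L))))))))))))))
noncomputable def w9_11 : Tr := (S (F 1241248563665 (V (F 268582912 (U (F 1024 (S (F 2105360 (S (K 7) (K 11))) (K 12))) (F 23 (T (F 1245184 (U (K 7) (F 65553 (S (F 69642 (V (K 3) (S L L))) (F 2 (V (K 5) (F 8208 (T (K 9) (F 8208 (S L L)))))))))) (F 7348368 (S (F 8192 (U (K 14) (F 4096 (V (F 8204 (T L (S L L))) (F 4097 (S L L)))))) (F 8220 (V (F 2 (U (S (K 3) (K 3)) (S (T L L) (T (S L L) L)))) (U (K 11) (S (T L (K 11)) (F 2 (T L (K 1))))))))))))) (F 16785536 (U (F 4210752 (S (K 6) (K 16))) (F 12585029 (S (F 196608 (V (F 257 (S (K 5) (S (K 5) (F 36864 (T L (F 4097 (V L (K 4)))))))) (K 13))) (F 1311744 (T (U (K 3) (F 67 (T (F 2048 (S L L)) (F 2048 (V (F 4 (S L L)) L))))) (F 7 (S (F 4 (U (V (K 0) (K 9)) (F 8 (V (F 1024 (T L L)) (V L (K 4)))))) (F 6144 (U (K 0) (V (T (K 0) (K 0)) (F 1024 (T L L))))))))))))))) (F 17039437 (V (F 12911378432 w9_10) (F 6816256 (U (F 4202496 (S (K 19) (F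 151453744 (T (K 11) (K 8))))) (F 201355387 (S (F 1319056 (T (F 8 (V (F 4 (S (U (K 4) (T L L)) (U (K 4) (T (S L L) (S L L))))) (U (K 12) (S (F 16384 (S L L)) (F 4 (T L (K 2))))))) (F 1 (U (K 13) (U (K 13) (V (F 4096 (S (K 1) (F 2048 (T (S L L) (K 11))))) (F 16384 (S (F 1024 (T (K 12) (S L L))) (K 0))))))))) (F 1081472 (T (F 32770 (U (V (S (K 10) (K 10)) (F 2056 (T (S (K 2) (K 4)) (K 2)))) (S (F 8 (V (T (F 16 (S L L)) (F 16 (U L L))) (F 16 (T L (F 8192 (S L L)))))) (V (T (S L L) (F 2056 (S L L))) (F 2056 (T L (S L L))))))) (F 8226 (V (F 4 (S (U (K 2) (F 1 (T (V L (S (K 11) L)) (V (S (K 11) L) (K 11))))) (T (U (S (K 2) L) (V (S L L) L)) (F 1 (U (K 11) (V L (S (K 11) L))))))) (F 16384 (S (K 1) (F 2048 (T (V (S (K 11) L) (K 11)) (K 11))))))))))))))))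
noncomputable def w9_12 : Tr := (T (F 393218 (U (F 16 (S (F 65540 (V (F 257 (U (K 11) (T (F 8194 (S L L)) (F 65792 (S L L))))) (F 16384 (S L (F 131072 (T L L)))))) (F 1114112 (V (F 640 (V (S (F 16 (T (F 8 (S L L)) L)) (F 16 (U (T L L) L))) (U (K 11) (F 4 (S L L))))) (S (F 73728 (T L L)) (T (V L L) L)))))) (F 1572897 (S (F 131072 (V (F 4 (V (F 512 (T L L)) (T L (F 8 (S L L))))) (F 8192 (S L (F 8192 (S L L)))))) (F 16384 (V (T (F 136 (S L L)) (F 512 (V L (S L L)))) (T (F 8 (S L L)) (F 8192 (S L L))))))))) (F 655360 (S (F 524288 (U (F 32 (V (F 528433 (S (F 32768 (T (V L L) (F 8 (S L L)))) (V (T L L) (F 32768 (U L L))))) (F 2 (V (F 622850 (U L L)) (F 262148 (T L L)))))) (F 3145730 (V (F 1036 (S (F 18 (T L L)) (T L (F 16 (S L L))))) (F 147456 (T (F 8192 (S L L)) (F 10240 (S L L)))))))) (F 2097185 (U (F 66048 (V (V (T (F 128 (S L L)) (S L (S L L))) (F 32768 (T (S L L) (F 16 (S (S L L) (F 256 (S L L)))))))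 (F 36864 (V (T (U L L) (F 128 (U (S L L) L))) (F 128 (T (S L L) (F 1025 (S L L)))))))) (F 4 (V (F 1032 (T (V (S L L) (S L L)) (F 65536 (S (F 2048 (S L L)) (S L L))))) (F 16384 (T (F 16386 (S L L)) (F 135298 (S (S L L) L)))))))))))
noncomputable def w9_13 : Tr := (U (F 8 (S (F 8192 (V (F 131072 (T (S (V (F 1024 (S L L)) L) (F 512 (V L L))) (F 512 (V (S L (S L L)) (S (F 18432 (S L L)) (S L L)))))) (F 4352 (T (S (F 10 (U L L)) (F 2 (V L L))) (F 8 (S (F 16384 (V (S L L) (F 16 (S L L)))) (V (S L L) (F 1024 (V L L))))))))) (F 1024 (V (U (F 64 (T (F 1026 (V L (S L L))) (V (F 1026 (S L L)) (S L L)))) (V (F 131072 (T L L)) (F 64 (T (F 2 (S L L)) (S L L))))) (F 64 (S (V (T L (F 64 (U L L))) (F 72 (T (T L L) (F 1024 (T L L))))) (U (V (T L L) (F 64 (T L L))) (T (T L L) (F 8 (V L L)))))))))) (F 131080 (V (S (F 4098 (V (S (T L L) (T L L)) (T (S L L) (F 256 (S L L))))) (T (F 2 (V (S L L) L)) (F 512 (V L (F 64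 (S L L)))))) (F 4096 (S (S (F 69632 (T L (F 128 (S L L)))) (F 256 (T (F 2 (S L L)) (F 32 (V L L))))) (F 256 (T (V (S L L) L) (V (S L L) (F 32 (S (S L L) L))))))))))
noncomputable def w9_14 : Tr := (U (F 32 (V (F 4096 (S (V (F 8196 (S (T (S L L) L) (T (U L L) (F 16 (S L L))))) (F 4609 (S (T L (S L L)) (T L (S L L))))) (F 8196 (V (S (U (F 16 (T (S L L) (S L L))) (F 16 (T L (S L L)))) (T (U (F 16 (S L L)) L) (F 16 (U (S L L) (S L L))))) (F 16 (S (T (S L L) (F 1025 (S L L))) (T (U (S L L) (S L L)) (V (S L L) L)))))))) (F 32804 (S (V (F 4 (S (U (K 4) L) (U (T L L) (T L L)))) (U (K 8) (S (K 8) (S L L)))) (F 4 (S (V (T (V L L) (U (S L L) (S L L))) (T (U L L) (U L L))) (V (T (F 1026 (S L L)) (V L (S L L))) (T (U (S L L) (S L L)) (U (S L L) L))))))))) (F 2080 (S (F 4 (V (F 4104 (S (V (S L L) (F 2048 (S L L))) (V (F 512 (S L L)) (T L L)))) (F 1 (S (T L L) (F 1024 (V (T L L) (S L L))))))) (F 2048 (V (F 4096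 (S (T (F 1024 (V L L)) (F 2 (U (F 4 (S L L)) L))) (F 1024 (V (T L L) (T L L))))) (F 2048 (S (F 4096 (V (F 1024 (T L L)) (T L L))) (V (F 2 (T (S L L) L)) (F 4096 (U (S L L) L))))))))))
noncomputable def w9_15 : Tr := (T (F 262162 (V (S (F 64 (V (F 32768 (T (S L L) (F 4 (U (S L L) L)))) (F 8208 (T (F 2 (U L L)) (F 16384 (T L (F 256 (S L L)))))))) (T (V (F 2 (S L L)) (F 72 (U (S L L) L))) (F 8264 (V (S L L) (U (F 512 (S L L)) (S L L)))))) (F 72 (T (V (S (F 1024 (U L L)) (U (F 1024 (S L L)) L)) (F 1040 (S (F 8192 (S L L)) (F 8192 (S L L))))) (F 1041 (V (S (U (S L L) (S L L)) (U (S L L) L)) (S (F 4100 (S L L)) (V (S L L) L)))))))) (F 73730 (V (F 16388 (V (S (F 17 (T (U (F 32 (S L L)) L) (F 32 (S (U (S L L) L) (T L L))))) (U (F 1040 (T (S L L) (F 8192 (S L L)))) (F 1041 (T L (S L L))))) (F 1041 (S (T (U (V (S L L) L) (S L L)) (U (S (S L L) (S L L)) (V (S L L) L))) (T (S (U L L) (T L L)) (U (V (S L L)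 (S L L)) (V L (S L L)))))))) (F 135232 (S (V (F 4100 (T (V (S L L) L) (F 4100 (U (S L L) L)))) (F 2049 (T (V L (S L L)) (U (V (S L L) (S L L)) (S (S L L) L))))) (V (F 4100 (T (U (V L L) (S L L)) (V (U (S L L) (S L L)) (F 4096 (S L L))))) (T (F 5 (S L (F 4 (T L L)))) (F 2049 (V (F 2048 (S L L)) (S (S L L) (S L L)))))))))))
noncomputable def w9_16 : Tr := (V (F 262160 (T (F 131072 (U (T (V (S L L) (S (F 2048 (S L L)) (S L L))) (S (F 2064 (V (S L L) (F 72 (S L L)))) (V L L))) (V (T (S L L) (F 16384 (S L L))) (T (S L L) (F 19472 (S L L)))))) (F 64 (U (S (F 18466 (V (T L (F 8192 (S (S L L) L))) (T (S L L) (F 8192 (S (T L L) (S L L)))))) (F 2050 (V (T L (F 2056 (S L L))) (F 2056 (T (S L L) (F 1 (V L (S L L)))))))) (F 18466 (V (S (S L L) (S L L)) (S (F 8192 (T L (S L L))) (T L (F 8192 (S L L)))))))))) (F 73730 (T (F 16388 (U (F 1024 (V (T (S (S L L) (S L L)) (F 1024 (S (S L L) (S L L)))) (F 1024 (T (S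 (S L L) (S L L)) (S (F 1 (S L L)) (V (S L L) L)))))) (T (S (F 16 (V L L)) (V L L)) (F 1040 (V (S (S L L) L) (F 8192 (S (S L L) (S L L)))))))) (F 4160 (U (F 8 (S (F 16384 (V (F 2048 (T (V (S L L) L) (S (S L L) (S L L)))) (T (F 2048 (V (S L L) L)) (F 1 (S L L))))) (F 4 (V (T (S (F 1 (T L L)) (T L L)) (F 1 (S (T L L) (V L L)))) (F 1 (T (S (S L L) (V L L)) (S (T L L) (U L (S L L))))))))) (F 8193 (S (V (F 2048 (T (S L L) (S L (T L L)))) (T (F 2048 (S L (S L L))) (F 4 (S L (F 4 (S L L)))))) (F 2048 (V (T (S L L) (V L (S L L))) (T (S (S L L) (S L L)) (V (S L L) L)))))))))))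
noncomputable def w9_17 : Tr := (T (F 131074 (V (F 16384 (S (T (S (F 32769 (U L (S L L))) (V L L)) (F 2065 (V (U (S L L) L) (F 32 (S L L))))) (S (T (V L L) (F 16 (V (S L L) (F 96 (S L L))))) (V (T L L) (T L L))))) (F 32 (S (F 2081 (S (T (F 2048 (S L L)) (V (F 2048 (S L L)) (F 4 (S L L)))) (F 2048 (T (V L L) (U (V L L) L))))) (F 2056 (S (F 1024 (V (T L (F 1 (S L L))) (F 1 (T (S L L) L)))) (V (T L (F 1024 (S L L))) (F 1024 (U (T L L) L))))))))) (F 12354 (V (F 4100 (S (F 1 (V (S (T (S L L) (S L L)) (U (S L L) (S L L))) (S (T (S L L) (U (S L L) L)) (T (S L L) (U (S L L) L))))) (V (S (F 1 (U (S L L) L)) (T L L)) (F 1 (S (T (S L L) (V L L)) (U (S L L) L)))))) (F 32768 (S (S (F 2048 (V (F 4 (T (F 4 (S L L)) (S L L))) (F 8192 (U (T L (S L L)) (F 1024 (S L L)))))) (F 4096 (V (F 2048 (U (T (S L L) (F 1024 (S L L))) (F 1024 (S L L)))) (F 4 (T (S L L) (F 1 (U (S L L) L))))))) (F 4096 (S (V (F 2048 (T (T L L)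 (V L (F 1024 (S L L))))) (F 4 (T (F 4 (T L L)) (T L L)))) (F 2048 (V (T (S L L) (S L L)) (T (V L L) (F 1024 (S L L))))))))))))
noncomputable def w9_18 : Tr := (S (F 313000256 (T (F 5275656 (S (F 1 (U (V (F 49154 (S (V (U (F 8 (S L L)) (F 8 (S L L))) (F 8200 (S L L))) (F 128 (U (F 1024 (V (S L L) (S L L))) (F 1024 (T (S L L) (V L L))))))) (F 135460 (V (F 4 (T L (S L L))) (S (K 8) (U (S (K 8) L) L))))) (F 4096 (V (F 32776 (S (F 2 (T L (T L L))) (F 4096 (T (S L L) (F 64 (S L L)))))) (F 16384 (T (F 4098 (S L L)) (F 32912 (S (S L L) (F 4 (S L L)))))))))) (F 16 (U (F 256 (V (F 32776 (S (F 17408 (T (U (S L L) (S L L)) (U (V (S L L) L) (V L L)))) (F 1024 (T (V L (U L L)) (F 1 (U (V (S L L) L) (V L L))))))) (F 2049 (V (F 4098 (S (F 8 (T L L)) (T (S L L) (F 8 (S L L))))) (F 17412 (S (U L (S L L)) (T L (S L L)))))))) (F 135168 (V (F 16388 (S (V (S L L) (F 128 (S L L))) (F 128 (T (S L L) (V L L))))) (F 128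 (S (F 6 (V (T L L) L)) (F 6 (V (F 4 (T L L)) (F 512 (T L L)))))))))))) (F 7373320 w9_14))) (F 18908033 (U (F 131104 (S w9_15 w9_16)) (F 131120 w9_17))))
noncomputable def w9_19 : Tr := (U (F 0x2300010800680908 (T (F 121740150710477888 (S (F 1717999583302 (V (F 825231360 (T (K 11) (K 11))) (F 1141374984 (U (K 13) (F 4 (T (F 524290 (S (F 4718592 (U (K 11) (F 5537792 (S L (K 7))))) (K 11))) (F 4195400 (S (F 1 (V (F 65538 (S (K 14) (K 9))) (K 6))) (F 16452 (U (K 10) (F 811010 (V (K 5) L)))))))))))) (F 34494324736 (V (F 2449473544 (U (F 32784 (T (F 553689094 (S (K 11) (F 2891778 (V (U (K 8) (F 65536 (S (K 9) L))) (K 8))))) (K 16))) (F 134217841 (T (F 33558530 (S (F 4197441 (U (K 11) (F 278528 (V (F 4096 (T (F 8 (S (K 5) L)) (S (K 10) L))) (K 5))))) (F 524288 (U (F 4624 (V (T (F 262272 (S L L)) (F 263200 (S L L))) (K 9))) (F 4194304 (T (F 131584 (V (F 8192 (S L L)) (F 574722 (S L L)))) (F 1184305 (V (S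 L L) L)))))))) (F 34129924 (S (F 524323 (U (K 11) (V (F 512 (T (F 2048 (S (K 9) L)) (S (K 5) L))) (K 11)))) (F 3 (U (F 33794 (V (S L L) (K 5))) (F 32768 (S (F 65664 (V (S L L) (S (K 10) L))) (F 65664 (T L (S L L))))))))))))) (F 4299227172 (U (K 15) (F 268440312 (T (K 14) (F 2106368 (S (F 8194 (U (K 11) (F 131072 (V (K 5) (F 8192 (T (K 10) (F 32 (S L L)))))))) (F 3 (U (K 12) (T (K 12) (F 64 (V (K 5) (F 9216 (S L L))))))))))))))))) (F 74873512646812708 w9_11))) (F 0x6000006ac069f93f (T (F 13609711190880 (S (F 1627414785 w9_12) (F 285213218 (T (F 2097152 (V (F 16793600 (U (S (F 9193474 (S (F 64 (T (F 16 (V L (S L L))) (V (F 16 (S L L)) L))) (T (F 24576 (T L L)) (F 64 (V L L))))) (F 8390672 (S (F 524312 (T (F 8 (U (F 64 (S L L)) (S L L))) (F 2048 (V L (F 320 (S L L)))))) (F 65560 (T (V (F 4 (S L L)) (F 2 (S L L))) (F 2304 (U L L))))))) (F 8650752 (S (F 1310728 (S (F 4098 (V L L)) (F 512 (T (F 81920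 (S L L)) (F 64 (S L L)))))) (F 262152 (V (F 1052 (T (F 8 (S L L)) L)) (T (F 1046 (S L L)) (F 2 (S L L))))))))) (F 8388657 (U (S (F 49154 (V (F 512 (T (F 1024 (S L L)) (S L L))) (T (S L L) (F 74496 (S L L))))) (F 1024 (U (F 525440 (T (F 512 (S L L)) (F 2048 (V (F 128 (S L L)) (S L L))))) (T (F 524288 (V (F 1024 (S L L)) L)) (F 1216 (S (F 2 (S L L)) L)))))) (S (F 16394 (S (F 131136 (T L L)) (T (F 131072 (V L L)) (F 1088 (S L L))))) (F 1032 (T (F 393216 (V L (F 1024 (S L L)))) (V (F 262144 (S L L)) L)))))))) (F 72419332 w9_13))))) (F 15533332512868 w9_18))))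
noncomputable def treeW9 : Tr := (F 0xffffffffffffffffffffffffffffffffffffffffffffffffffffffffffffffffffffffffffffffffffffffffffffffffffffffecfffffe9bfff8ffffffffffffffff0ffffffffc31fff3fffffffffffff67fff9b2ffffffffffffffffffffffffffffffffffffffffffffffffffffffffffffffffffffffff93cfff3c3ffffffd33ffffff8ffffffffffffffffffffffffffffffffffffffffffffffffffffffffffffcfff93fffbfffff8cf23ffffffffbf1fffff9c3cffff33f1cffffffffc97fccffffffffffffffffffffffffffffffffffffffffffffffffffffffffc30fffffffff31ff (S (F 0x3880400088240d11011087043d87 (V (F 0x281420002280908a825 w9_2) (F 0x111420006010400250100 (U (F 0x500304010218c4000 (T (F 18878624077977032 (S (K 28) (F 1375463671012 (V (F 536870912 (S (K 20) (K 14))) (K 9))))) (F 15143608143419520 (S (K 26) (F 1539897831504 (U (K 7) (F 167772160 (V (F 2312 (S (K 7) (F 4194312 (V (F 257 (T (F 49154 (S (K 10) (K 5))) (F 147748 (S (K 9) L)))) (K 14))))) (K 18)))))))))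 (F 0x78de000043d8cdfdf w9_3))))) (F 0x87c16c81c010200e1002ce700381 (V (F 0x121100a880b140420880 (U (F 1130298239352848 (T (F 14703913986949264 (S (F 240523042854 (U (F 67108864 (V (K 15) (F 1052689 (T (F 2097228 (S (K 8) (V (K 11) (K 8)))) (K 13))))) (F 218103816 (T (F 131072 (S (F 1052708 (V (S (K 11) (K 11)) (V (U (T (K 8) (K 8)) (S (F 32 (T L L)) (T L L))) (K 8)))) (F 32 (V (F 131200 (S (K 7) (K 7))) (F 525316 (U (V (F 8 (S (S (K 11) (K 11)) (F 64 (S (K 6) (K 6))))) (K 10)) (T (F 8 (V (F 64 (S L (S L L))) (F 32 (S L L)))) (V (F 8 (S L L)) (F 24576 (S (K 6) L)))))))))) (F 1028 (S (F 36 (V (K 11) (F 32 (V (F 16 (U (K 7) (F 16 (T (S (K 10) L) L)))) (K 11))))) (V (K 10) (F 36 (U (F 32768 (V (K 7) (K 10))) (F 32 (T (F 16 (V (S L L) (F 17 (S (K 10) L)))) (F 278544 (V L L))))))))))))) (F 210457591812 w9_4))) (F 4398459650048 w9_5))) (F 72057604054777503 (T (F 860604072640 (S (F 1879184512 w9_6) (F 536870912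 w9_7))) (F 825325781184 (S (F 1946222728 w9_8) (F 129 w9_9))))))) (F 0x888044004820200002 w9_19)))))

theorem pW9 : chkW par treeW9 192 64 448 64 128 128 163840 327680 Lc = true := by decide +kernel

noncomputable def w10_0 : Tr := (T (F 103079583768 (S (F 203505736 (U (F 2097168 (T (F 133120 (V (F 514 (S (K 7) (F 8192 (S (K 10) L)))) (F 4096 (S (F 524292 (U (K 11) (F 41 (S L L)))) (F 9216 (T L (K 10))))))) (K 7))) (F 2097427 (V (F 69632 (S (F 64 (T (F 81920 (S L L)) (K 7))) (T (F 1 (S L L)) (S L L)))) (T (F 589824 (S (F 578 (S L L)) (F 32 (V L L)))) (S (F 526336 (S L L)) (T L L))))))) (F 3293192 (U (F 8388608 (V (F 17956992 (T (F 65552 (S (F 67586 (S L L)) (F 16386 (U (S L L) L)))) (F 9 (S (F 135184 (S (K 10) L)) (F 2 (T L L)))))) (F 524304 (T (F 48 (S (F 69632 (V (F 2 (S L L)) L)) (F 1114112 (V (F 270336 (S L L)) L)))) (F 51 (S (K 7) (S L L))))))) (F 8388643 (V (F 131072 (T (F 9 (S (F 270336 (V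 L L)) (F 65698 (S L L)))) (F 12 (S (F 8208 (S L L)) (F 524418 (T L L)))))) (F 1572880 (T (F 9 (V (S L L) (S L L))) (S (F 128 (T L L)) (F 8 (T L L))))))))))) (F 105229140179 (S (F 17039360 (S (K 16) (K 16))) (F 67108872 (U (F 256 (V (F 278528 (T (F 1088 (S (K 8) (F 139 (S (K 12) L)))) (K 14))) (K 8))) (F 452 (V (F 16384 (T (F 131072 (S (F 2048 (S L L)) L)) (F 1048576 (S (K 7) (T L L))))) (S (T (F 8 (S (K 13) L)) (K 8)) (F 1 (T (F 262272 (S L L)) (F 32768 (V L L))))))))))))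
noncomputable def w10_1 : Tr := (S (F 276957224 (U (F 147520 (V (F 16385 (T (F 67584 (S (F 36864 (V (F 20 (S L L)) (S L L))) (F 135172 (V (F 16 (T L L)) L)))) (F 67713 (S (F 18432 (V (K 9) (F 1 (S L L)))) (F 4 (V (K 11) L)))))) (F 67648 (T (F 272 (S (F 135168 (U (K 8) (F 8193 (S L L)))) (F 131081 (V L (F 32 (S L L)))))) (F 1048963 (S (F 8192 (U (F 16 (S L L)) (F 4098 (S L L)))) (F 4 (V (S L L) L)))))))) (F 8388929 (V (F 35073 (S (F 16899 (T (F 12288 (T L L)) (F 8192 (U L L)))) (F 2 (T (F 131584 (S L L)) (F 16 (V L L)))))) (F 4718624 (T (F 801 (S (F 16384 (V L L)) (F 1 (S L L)))) (F 528656 (S (F 49408 (T L L)) (T L (F 16385 (S L L))))))))))) (F 37752849 (U (F 17039360 (T (F 164864 (V (F 4 (S (F 264196 (V L (F 16384 (S L L)))) (F 65540 (V L L)))) (F 1179648 (S (F 66048 (V (S L L) (F 2066 (S L L)))) (V (F 262144 (S L L)) (F 129 (T L L))))))) (F 35651616 (V (F 256 (S (F 35332 (V L (S L L))) (F 1081856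 (S L L)))) (F 5242880 (S (F 29184 (V L (F 1029 (T L L)))) (F 64 (T (F 320 (S L L)) (F 2432 (V L L)))))))))) (F 16777473 (V (F 8454144 (T (F 2053 (S (F 131332 (S L L)) (F 131076 (S L L)))) (F 131076 (S (F 5248 (S L L)) (V L L))))) (F 292 (T (F 259 (S (F 196864 (S L L)) (F 256 (S L L)))) (F 2097161 (S (F 512 (T L L)) (V (F 266240 (S L L)) L))))))))))
noncomputable def w10_2 : Tr := (S (F 525312 (U (F 1048832 (T (F 4100 (V (F 262432 (S (K 6) (K 6))) (F 2097165 (S (F 10754 (U (F 4176 (S L L)) (F 4116 (S L L)))) (F 32774 (T (F 24 (S L L)) (F 296 (S L L)))))))) (F 2101257 (V (K 13) (F 264453 (S (F 1024 (U (F 80 (T L L)) (F 16 (T L (S L L))))) (F 512 (V (K 8) (F 16 (U (S (K 5) (K 5)) (S L L))))))))))) (F 4194689 (V (F 163848 (T (F 32768 (S (F 165380 (S L L)) (T L L))) (F 295042 (S (F 16386 (S L L)) L)))) (F 1576981 (T (F 16388 (S (F 9728 (S L L)) (F 1024 (V L (F 72 (S L L)))))) (F 32 (S (F 17408 (T (F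 2048 (S L L)) L)) (F 1024 (T L L)))))))))) (F 9 (U (F 8388864 (V (F 262144 (T (F 256 (S (K 6) (F 128 (S (K 14) (K 14))))) (K 16))) (F 33410 (T (F 262180 (S (F 65536 (V (F 32 (S L L)) (F 322 (U (S L L) L)))) (V (F 1024 (S L L)) (F 65536 (U (S (S (K 11) (K 11)) L) (S L L)))))) (F 262149 (S (F 128 (U (K 11) (T (F 10 (S L L)) (F 130 (S (K 4) (K 4)))))) (F 8192 (U (K 11) (V (K 11) (F 64 (S L L))))))))))) (F 416 (V (F 4 (T (F 524418 (S (V L L) (V L L))) (F 68 (S (F 524292 (T L L)) (F 262144 (V L (F 65537 (S L L)))))))) (F 5308680 (T (F 98304 (S (U (S L L) L) (T (S L L) L))) (F 512 (S (F 32770 (V L (F 80 (S L L)))) (F 6 (T (S L L) (S L L))))))))))))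
noncomputable def w10_3 : Tr := (V (F 0x220100800488810120 (U (F 20266199128473664 (T (F 2119867278823437 (S (K 11) (F 4299292688 (V (F 268599408 (U (K 9) (F 604373016 (S (K 18) (F 17825800 (V (K 11) (F 32768 (T (F 2112 (S L (K 10))) (K 16))))))))) (F 19327361024 (U (K 8) (F 1946615816 (T (F 1296 (U (K 7) (F 8912896 (S (K 14) (F 1081344 (S (K 5) L)))))) (K 19))))))))) (K 37))) (F 561252350417700296 w10_0))) (F 0x2220000001020210 (U (F 36310277902041617 (T (F 1081919477649413 (S (F 416754972740 (U (F 262400 (V (K 6) (K 7))) (F 1505 (V (F 2048 (T (F 768 (S (F 32768 (T (K 12) (K 13))) (F 1048576 (S (K 13) (K 13))))) (F 256 (S (K 6) (K 6))))) (F 40960 (T (K 14) (F 9760 (U (S (K 7) (F 1 (T (K 10) L))) (F 163840 (S (F 97 (S L L)) (S L L))))))))))) (F 275951648768 (V (F 138412032 (U (K 8) (F 52347731976 (T (F 33558560 (S (F 18088976 (U (K 14) (F 4 (S (K 5) L)))) (F 3147776 (U (K 15) (F 145 (T L L))))))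 (F 4260272 (S (K 6) (K 6))))))) (F 73283406084 (U (F 1280 (T (F 344192 (S (K 7) (F 5 (T (K 18) (K 19))))) (F 537350273 (S (K 5) (K 5))))) (F 2198503428 (T (F 135169 (S (F 262528 (U (K 12) (F 256 (S L L)))) (F 1 (T (F 512 (V L L)) (F 8232 (S L L)))))) (F 16810065 (S (F 3264 (V (K 11) (F 18 (T L L)))) (F 1024 (V (F 4096 (S (K 4) (K 4))) (F 256 (U L L)))))))))))))) (F 141845594452513 (S (F 2230162882852 (V (K 22) (F 2417150097 (U (S (K 7) (K 7)) (F 3809282 (U (S (F 128 (T L (K 6))) (K 9)) (S (F 128 (V (K 6) (T L L))) (T (F 24740 (T L (K 4))) (K 9))))))))) (F 283620933761 (V (K 24) (F 8862638273 (S (K 8) (K 8))))))))) (F 0x7e9fd45900000390 (T (F 27917300736 w10_1) (F 300790586385 w10_2))))))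
noncomputable def w10_4 : Tr := (T (F 26212358753903620 (S (F 277025398788 (V (F 1073742120 (U (K 15) (F 5704908800 (T (K 11) (F 8409184 (S (K 12) (K 12))))))) (F 10747972 (U (T (F 553648128 (S (F 135271456 (S (K 7) (K 12))) (K 15))) (F 2228265 (S (K 21) (F 132 (S (K 5) (K 11)))))) (F 2701131776 (T (F 67110928 (S (F 393220 (V L L)) (F 8650756 (V (F 262144 (S (K 11) (K 11))) L)))) (F 100665600 (S (F 1245192 (V L L)) (F 5242881 (T (F 64 (S L L)) (F 524386 (S L L)))))))))))) (F 2684362757 (V (F 1073939204 (T (F 889782280 (U (K 9) (F 4 (S (K 13) (F 5 (V (F 64 (T L L)) (K 8))))))) (K 14))) (F 262272 (U (F 16384 (S (K 18) (K 18))) (F 2315255808 (T (F 4104 (S (F 335564804 (V (K 11) (F 8388608 (S L L)))) (F 285343781 (V (K 10) (F 2048 (S L L)))))) (F 268767745 (S (F 12582912 (V (F 262144 (S (K 11) (K 11))) (F 2097186 (S L L)))) (F 2097152 (V (K 11) (F 16450 (S L L)))))))))))))) (F 36380646108577800 (S (F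 319202003255308 (V (F 549756141650 (U (F 52723712 (S (K 19) (K 13))) (F 6492782592 (T (F 272698636 (S (F 4134 (V (K 8) L)) (K 13))) (F 8404992 (S (K 8) (F 50987074 (V (K 9) (F 524288 (S L L)))))))))) (F 38654707712 (U (K 8) (F 31174164480 (S (K 22) (F 1073747986 (T (F 1378310 (T (S L L) (F 512 (S (K 5) L)))) (F 1057860 (T (F 524544 (S (K 4) L)) (K 15))))))))))) (F 357066409508873 (V (F 554051338240 (U (K 16) (F 14816903170 (T (K 11) (F 8192 (U (K 14) (F 16908288 (V (K 9) (F 8192 (S L (F 1049600 (S (K 8) (K 8))))))))))))) (F 17041432 (U (F 1056768 (T (F 6711972448 (S (F 8388624 (U (K 11) (F 256 (S L (K 11))))) (K 12))) (F 67109410 (S (F 672018 (U (K 8) (F 16 (S (K 6) L)))) (F 34603268 (V (K 12) (T L (K 7)))))))) (F 18858639360 (T (F 805308672 (S (F 33820706 (U (F 528384 (S L L)) (F 1048580 (S L L)))) (F 6144 (T (F 10486536 (S L L)) (F 256 (V L L)))))) (F 8520192 (S (F 67108882 (U (S L L) (F 12583428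 (S L L)))) (F 524292 (V (F 17301760 (U (S L (K 12)) (F 524292 (S L L)))) (F 4456448 (T (F 6 (S L L)) L)))))))))))))))
noncomputable def w10_5 : Tr := (S (F 30408708 (T (F 138543682 (U (V (F 4194320 (S (F 2560 (U (F 8192 (S L L)) (F 794624 (S L L)))) (F 524352 (T (F 512 (V (S L L) L)) (F 526848 (S L L)))))) (F 10240 (S (U (F 32 (S L L)) L) (T (F 162 (S L L)) (F 2097201 (S L L)))))) (F 12582912 (V (F 131104 (S (F 525312 (T (F 32772 (T L L)) L)) (F 4 (U (T (S L L) (F 516 (S L L))) (F 1 (T (S L L) L)))))) (F 1024 (S (F 1445888 (S L L)) (T (F 163840 (S L L)) L))))))) (F 8291 (U (F 544900 (V (F 32800 (S (T (F 131072 (S L L)) L) (F 131073 (V (T L L) (S L L))))) (S (F 65544 (S L L)) (F 524288 (S (S L L) (T L L)))))) (F 4 (V (F 659553 (S (F 132096 (T (S L L) L)) (F 1 (T (F 128 (S L L)) L)))) (F 1024 (S (F 2099208 (T L L)) (F 4327489 (T L L)))))))))) (F 25803358465 (T (F 402918785 (S (F 294912 (V (F 327680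 (U (T (V (F 8192 (S L L)) L) (V (S L L) L)) (T (F 8192 (S (S L L) (F 65536 (S L L)))) (F 32768 (S L (S L L)))))) (U (V (F 65536 (T L L)) L) (T L (F 4 (S L L)))))) (F 1 (V (F 1310720 (U (F 36864 (T (F 16 (V (S L L) (S L L))) (V (S L L) (S L L)))) (F 36864 (T (F 16 (V (F 16384 (S L L)) L)) (F 4 (S L L)))))) (F 64 (U (F 4 (T (F 8 (S L L)) (F 12 (S L L)))) (F 65536 (T (F 65536 (S L L)) L)))))))) (F 264600 (U (F 262148 (V (F 131105 (S (F 4096 (T (F 65536 (S L L)) (V (F 32768 (S L L)) L))) (T (F 4 (V (S L L) L)) (F 4096 (V (F 32768 (S L L)) (S L L)))))) (F 256 (S (F 2050 (V L (S L L))) (F 1081344 (V (F 16384 (U (S L L) L)) (F 131072 (S L L)))))))) (F 8650758 (V (F 65552 (S (T (S L L) (F 2048 (S L L))) (T (F 2 (S (S L L) L)) (F 2048 (S L L))))) (F 128 (S (T L L) (F 16384 (T (S L L) (S L L))))))))))))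
noncomputable def w10_6 : Tr := (S (F 42467340 (T (F 31457280 (V (F 131137 (S (F 1024 (U (V L (F 4 (S L L))) (F 393216 (S L L)))) (F 66592 (U (T (F 65536 (S L L)) L) (F 65536 (T L L)))))) (F 8 (U (F 65536 (S (F 131072 (S L L)) (F 1 (T L L)))) (F 8 (S (F 524288 (S L L)) (F 1114145 (S L L)))))))) (F 12582912 (V (F 261 (U (F 262144 (S (F 2048 (T L L)) (F 32776 (T (S L L) (F 260 (S L L)))))) (S (F 262659 (S L L)) (F 5 (T L L))))) (F 32 (U (F 65544 (S (F 1056836 (T L (K 12))) (F 5 (V (S L L) (F 34818 (S L L)))))) (F 2097152 (S (F 2629632 (V L L)) (F 5242945 (T L L)))))))))) (F 4113 (U (T (F 243269728 (V (F 4326416 (S (F 272 (T (U L (F 2 (S L L))) (S L L))) (T (F 16 (V (S L L) L)) (U (F 272 (S L L)) (F 18 (S L L)))))) (F 4096 (S (F 1048640 (V L (F 4 (S L L)))) (F 1 (T (F 99328 (S L L)) L)))))) (F 67113024 (V (F 35127424 (S (F 1048592 (V (T L (F 262148 (S L L))) (F 36 (S L L)))) (F 1048578 (T (F 67594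 (V L L)) (F 1024 (V (F 33024 (S L L)) (F 65536 (S L L)))))))) (F 4168 (S (F 3145856 (V (F 16384 (S L L)) L)) (F 36 (T L (F 1048644 (S L L))))))))) (F 33554497 (T (F 2621470 (V (F 65552 (S (F 256 (V (S L L) (F 128 (S L L)))) (F 256 (T (F 2 (S L L)) (F 2 (V L L)))))) (S (F 256 (T (S L L) (F 4 (S L L)))) (F 16 (V (F 8 (S L L)) (F 2048 (S L L))))))) (F 16777228 (V (F 131096 (S (F 69634 (T (S L L) (S L L))) (F 2 (T (F 131080 (V L L)) (F 128 (S L L)))))) (F 262656 (S (F 32770 (T L L)) (F 512 (U (F 8 (S L L)) (F 8 (S L L)))))))))))))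
noncomputable def w10_7 : Tr := (U (F 128 (T (F 4530240 (U (S (F 524288 (T (V (S L (S L L)) (U L (S L L))) (V (U (K 18) (S (K 18) L)) L))) (T (V (S L L) (S (T (S L L) L) (V (S L L) (S L L)))) (V (S (F 524288 (S L L)) (S L L)) (S (F 524288 (S L L)) (T L L))))) (S (F 524288 (T (F 4 (V (S L L) (S L L))) (V (T (F 4 (S L L)) L) L))) (T (V (S L L) (S (F 524288 (S L L)) (S L L))) (F 524288 (V (S (S L L) L) (S L L))))))) (F 262148 (U (F 16 (S (K 21) (F 32 (T (F 2304 (V (S (S L L) (S L L)) L)) (F 4202496 (S (K 18) L)))))) (F 16384 (S (F 524289 (T (F 131072 (V L L)) (F 196608 (S (K 17) L)))) (F 540704 (T (F 1024 (V (S L L) L)) (F 1212416 (S L L)))))))))) (F 35651584 (T (F 2443264 (S (F 262144 (T (U (V (F 16 (S L L)) (F 1 (S L L))) (F 49 (S L L))) (F 1 (U (V (F 32768 (S L L)) L) L)))) (T (U (V L (S (F 262144 (S L L)) L)) (F 1490944 (S L L))) (F 1048576 (V (F 16 (S L L)) (U (S L L) L)))))) (F 545 (S (F 2097152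 (T (F 152576 (U (S L L) L)) (F 4098 (U (S L L) (F 524288 (S L L)))))) (F 1051264 (T (F 16512 (U (V L L) (F 32768 (S L L)))) (V (F 16512 (S L L)) L))))))))
noncomputable def w10_8 : Tr := (S (F 30786862711096 (V (F 5242944 (U (F 8395392 (T (F 469836036 (S (K 4) (F 1 (U (T L (K 18)) (T L (F 524325 (S (K 2) L))))))) (K 22))) (F 21541945352 (T (F 21514240 (S (F 19939332 (T (F 524288 (V L L)) (F 1048608 (S L L)))) (F 2097159 (T (F 1040 (V L L)) (F 1154 (S L L)))))) (F 1073742610 (S (F 4359314 (S (K 14) (K 14))) (F 34481 (U (F 262144 (T L (K 2))) (F 10 (S L L)))))))))) (F 174281724416 (U (F 134217730 (T (F 4325380 (S (F 262144 (U (K 20) (F 1 (V (F 1050888 (S (K 16) (K 16))) L)))) (F 265 (U (T (F 18448 (U L L)) (K 20)) (T (F 18448 (V (U L L) L)) (F 1 (S L L))))))) (F 5 (S (K 4) (F 2120 (S (K 20) (K 20))))))) (F 1476395010 (T (F 1081344 (S (F 786432 (T (F 2305 (V (F 135424 (S L L)) L)) (F 17 (V L L))))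 (F 2099201 (U (F 524288 (T (F 67648 (V L L)) (S L L))) (F 24 (V (F 4228 (S L L)) (F 589824 (S L L)))))))) (F 336 (S (F 8945664 (V (F 16896 (S L L)) (T L L))) (T (F 2112 (V L L)) (F 12584960 (V L L))))))))))) (F 8813272893467 (V (F 21102848 (U (F 8530944 (T (F 1077936128 (S (F 100696064 (U (F 4194304 (T L (F 19 (S L L)))) (F 50331712 (T L (F 524290 (S L L)))))) (F 1048576 (V (K 17) (F 222302248 (U (S L L) (S L L))))))) (F 339738668 (U (F 17 (S (F 4195328 (V (F 32768 (S (K 17) (K 13))) (K 2))) (T (F 1056 (S L L)) (F 4195880 (S L L))))) (F 32768 (S (F 13107713 (V L (T (F 16384 (S L L)) L))) (F 8388640 (T (F 270337 (S L L)) (F 2367497 (S L L)))))))))) (F 8590065668 (T (F 4300210308 (S (F 33620033 (T (F 2080 (S L L)) (F 4325637 (S L L)))) (F 18874624 (T (F 17041420 (S L L)) (F 16777353 (S L L)))))) (F 2161121429 (S (F 2129925 (T (F 16384 (V L L)) (F 65538 (S L L)))) (F 1048577 (T (F 64 (U L L)) (F 655424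 (S L L)))))))))) (F 1007773851688 w10_7))))
noncomputable def w10_9 : Tr := (S (F 19792283173060 (V (F 34359738368 (U (K 8) (F 27149729800 (T (F 22530 (S (K 7) (F 8396869 (U (K 16) (F 524292 (S (K 3) L)))))) (K 22))))) (F 8724545797 (U (K 8) (F 625475588 (T (F 8388609 (S (F 1065990 (S (K 13) (K 13))) (F 2 (U (K 16) (F 4 (T (F 2 (S L L)) (F 270850 (S (K 12) (K 12))))))))) (F 8728 (S (K 7) (K 7))))))))) (F 17592202823752 (V (F 549797756992 (U (F 8589934592 (T (F 11275013282 (S (F 2097220 (V (F 540800 (S (K 3) L)) (K 16))) (F 2129987 (U L (F 262144 (S L L)))))) (F 3221752872 (S (K 6) (F 4194304 (U (F 557056 (S (K 6) L)) (F 2 (T L L)))))))) (F 11425284112 (T (F 67154050 (S (F 4194310 (U (F 524288 (T L L)) (V L L))) (F 65542 (U (F 524288 (T L L)) (T L (S L L)))))) (F 67108994 (S (F 33824770 (U (F 4608 (V L (K 5))) (F 4 (T L L)))) (F 73728 (U (T (F 1280 (S L L)) (F 8480 (S L L))) (F 256 (V (F 4 (S L L))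 (F 12845056 (S L L)))))))))))) (F 17716748804 (U (F 4112 (S (K 25) (F 6442450952 (T (F 319833093 (V (F 4096 (U L (S L L))) (K 20))) (K 3))))) (F 2432696336 (T (F 1611145218 (S (F 51380225 (V (F 4098 (T L L)) (F 520 (T L L)))) (F 4194304 (V (F 8410112 (U L (F 1048576 (S L L)))) (F 51 (T L L)))))) (F 540807 (S (F 2394118 (S (K 13) (F 262144 (T (V L L) (K 4))))) (F 3 (V (F 4098 (T (F 32768 (S L L)) L)) (F 584 (T (F 262144 (S L (K 15))) (K 3))))))))))))))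
noncomputable def w10_10 : Tr := (S (F 137456451592 (T (F 335554564 (U (F 2097152 (V (F 18432 (S (F 65796 (V L (F 65540 (S L L)))) (F 196679 (T L (F 1 (S L L)))))) (F 43122688 (S (F 540800 (T (F 32 (S L L)) (F 4105 (S L L)))) (F 192 (T L (F 5 (S L L)))))))) (F 103022592 (V (F 2320 (S (F 524292 (S L L)) L)) (F 5390337 (S (S L L) (S L L))))))) (F 2214592609 (U (F 4 (V (F 1346 (S (F 1048576 (S L (F 9344 (S L L)))) (F 8225 (V (F 1040 (S L L)) L)))) (F 19202052 (S (F 32768 (V (F 258 (S L L)) (S L L))) (F 524288 (V (F 320 (S L L)) (S L L))))))) (F 34865156 (V (F 128 (S (F 1048576 (T L L)) (F 2105345 (S L L)))) (F 2359298 (S (F 524320 (V L (F 2048 (S L L)))) (F 524448 (S L L)))))))))) (F 223371853827 (T (F 1610680832 (U (F 49185 (V (F 16448 (S (F 512 (V (F 64 (S L L)) (F 278544 (S L L)))) (F 1048576 (T (F 40 (S L L)) (F 1032 (S L L)))))) (F 2789392 (S (F 16 (T L L)) (F 67600 (S L L)))))) (F 68157440 (V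 (F 541184 (S (F 332801 (S L L)) (F 65537 (T (F 40 (S L L)) L)))) (F 20976648 (S (F 36 (S L L)) L)))))) (F 1073955336 (V (F 81984 (U (F 2097184 (S (F 131076 (V L (F 296960 (S L L)))) (F 257 (V L (F 163848 (S L L)))))) (F 2097153 (S (F 32772 (S L L)) (F 65537 (S L L)))))) (F 4195369 (U (F 1048576 (S (F 16 (T L (S L L))) (F 532 (T L (S L L))))) (F 1048577 (S (F 16384 (S L L)) (F 4 (S L L)))))))))))
noncomputable def w10_11 : Tr := (S (F 1382056068 (V (T (F 12583426 (S (F 1048576 (U (V L (F 20480 (S L L))) (F 32 (S L L)))) (F 32768 (U (T L (F 4098 (S L L))) (F 3 (S L L)))))) (F 4 (U (F 9216 (S (K 15) (F 258 (V L (F 540672 (S L L)))))) (F 12582916 (S (F 528 (V L L)) (F 4113 (T L L))))))) (F 32772 (U (F 256 (S (F 3145856 (T (V (S L L) (F 655874 (U L (S L L)))) (F 131584 (U (S (K 12) (K 12)) (F 65537 (T L L)))))) (F 2097152 (T (F 6 (V (F 2 (S L L)) (F 132 (S L L)))) (F 541696 (T (F 196608 (V L (F 65536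 (S L L)))) (V (S (K 12) L) (F 1 (S L L))))))))) (F 4 (S (F 2130053 (T (F 139266 (U (S L L) (S L L))) (F 514 (T L L)))) (F 7 (T (F 65542 (V L (F 2056 (S L L)))) (F 32768 (V (S L L) (F 133248 (S L L)))))))))))) (F 1075838976 (U (F 17301504 (T (F 268443672 (V (F 34613504 (S (F 151554 (T L (S L L))) (F 2 (T (F 288 (S L L)) (F 72 (S L L)))))) (F 8 (S (F 8978566 (V (F 294944 (S L L)) (F 66 (S L L)))) (F 35 (T L (F 38 (S L L)))))))) (F 37756928 (V (F 67633154 (S (F 65538 (T (F 1049920 (S L L)) (F 1286 (S L L)))) (F 2232320 (T (F 262304 (S L L)) (F 128 (S L L)))))) (F 524 (S (F 516 (V (F 32770 (T L L)) (F 1048641 (T L (F 1024 (S L L)))))) (F 4194435 (U (F 8192 (T L (F 8192 (S L L)))) (F 262145 (V L L)))))))))) (F 268435587 (T (F 36700168 (S (F 2360320 (V L (F 1573122 (T L L)))) (F 8658944 (V (F 152592 (S L L)) (F 524289 (T L L)))))) (F 67110976 (S (F 4198467 (V (F 65569 (S L L)) (F 32768 (V (F 8 (S L L))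 (F 133120 (S L L)))))) (F 16777248 (V (F 10272 (S L (F 128 (T L L)))) (F 6488064 (T L (F 128 (S L L)))))))))))))
noncomputable def w10_12 : Tr := (V (F 0x9000800022420a12902 (U (K 22) (F 0xf9fc8bc200003e4c (T (F 6493044748 (S (K 10) (F 33554452 (U (K 18) (F 16778594 (V (S (K 7) (F 8192 (U (K 12) (F 49 (T L (F 32 (S (K 9) L))))))) (K 7))))))) (K 22))))) (F 0x250100044040105010 (U (F 631498045947383828 (T (F 317230648928138 (S (F 69797478980 (S (K 19) (K 19))) (K 13))) (F 4399123141155 (S (K 15) (K 15))))) (F 0x7cff38bed00001c3c (T (F 1690305548 (S (F 67936268 (U (F 67584 (V (K 6) (F 67842 (T (S (F 16 (V (K 5) (S L L))) (U (K 8) (F 16 (T L L)))) (F 16 (S (V (K 5) L) (K 5))))))) (F 32 (T (F 393480 (V (S (K 8) (K 8)) (F 8264 (S (S L L) (S L L))))) (F 262152 (S (F 529 (V (K 6) (F 258 (S L L)))) (F 641 (V (K 6) (F 1026 (S L L)))))))))) (F 8192 (T (F 128 (U (F 4096 (S (K 14) (K 14))) (F 25427980 (V (F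 131088 (S (K 6) (F 33280 (S (K 9) (K 9))))) (F 2560 (S (F 5130 (S L L)) (F 2 (V L (F 16416 (S L L)))))))))) (F 8193 (V (F 65540 (S (K 13) (K 13))) (F 41992 (S (F 295106 (U (K 6) L)) (F 32768 (U (K 7) (F 270340 (S L L)))))))))))) (F 1078069253 (S (F 71958536 (V (K 12) (F 4458497 (U (F 144 (S (F 73985 (S (K 5) (K 5))) (K 10))) (F 540678 (T (F 9280 (S L (S L L))) (F 4 (S L (F 32 (S L L)))))))))) (F 1049600 (U (K 15) (F 12582977 (V (K 9) (F 2180096 (S (F 221184 (T L (F 2048 (S (K 8) (K 8))))) (F 8192 (U (K 8) (F 4 (T L L)))))))))))))))))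
noncomputable def w10_13 : Tr := (S (F 420907057764 (V (F 4295294984 (U (K 7) (F 131072 (S (K 20) (F 26 (T (F 2098208 (V (F 1048608 (U (K 10) L)) (F 589832 (S (K 4) L)))) (F 3163744 (V (T L L) (K 12))))))))) (K 24))) (F 137439510561 (V (F 262162 (U (F 1085824 (T (F 1024 (S (K 12) (K 12))) (F 1048704 (S (K 17) (F 1130496 (T (K 11) (K 7))))))) (F 437780480 (T (F 34078848 (S (F 8396864 (S (F 1310724 (V (F 131200 (T (K 7) L)) L)) (F 1052740 (V (K 10) L)))) (F 6292480 (U (F 33280 (V (K 11) (F 72 (S L (K 8))))) (F 34 (T (F 524352 (S L L)) (F 528448 (S L L)))))))) (F 10260488 (S (F 524288 (V (F 96 (T (F 65540 (S L L)) (F 198656 (S L L)))) (F 264 (U (S L (K 14)) (F 131080 (S L L)))))) (F 540672 (T (F 65570 (V (U (K 9) (F 32768 (S L L))) L)) (F 163 (S (V L L) (F 4 (V L L)))))))))))) (F 336592960 (U (F 134234112 (S (K 21) (F 536736 (T (K 17) (F 270352 (T (K 6) (K 6))))))) (F 176291856 (T (F 9218 (S (F 4456456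 (T (F 524288 (V L L)) (F 260 (U L (F 262144 (S L L)))))) (V (F 66116 (U L (F 10 (S L L)))) (F 262152 (T L L))))) (F 143444 (S (F 1179656 (S (K 11) (V (F 4129 (S L L)) (T (F 33 (S (K 6) L)) (K 11))))) (F 532480 (V (F 4096 (U (K 14) (F 131072 (S L L)))) (F 32773 (T (S L L) (S (F 32 (U L L)) L))))))))))))))
noncomputable def w10_14 : Tr := (V (F 9150923776 (U (F 8388624 (T (K 10) (F 874 (S (F 4718592 (V (K 2) (K 14))) (K 18))))) (F 1805688848 (T (F 385 (S (F 98304 (U (V (K 1) (F 4096 (S (K 5) (S L (K 13))))) (F 1 (V (T (F 4096 (S L (K 0))) (F 4104 (S L (K 0)))) (F 8 (T (S L L) (S (S (K 8) L) (S L L)))))))) (F 131072 (U (K 2) (U (K 2) (V (F 24 (T (F 4 (S L L)) (K 12))) (F 3 (S (F 8 (T L L)) (F 4096 (S L (K 0))))))))))) (F 270 (S (F 4104 (U (V (F 1 (S (V (K 13) (K 5)) (K 13))) (S (K 9) (F 1 (V (S (K 5) (K 13)) (K 5))))) (F 1 (S (T (V (F 2048 (S L L)) (U (K 5) L)) (V (F 2048 (U L (S L L))) (S (K 5) L)))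 (V (F 2048 (T (T L L) (V L (S L L)))) (T (V L (S L L)) (U (S L L) (S L L)))))))) (F 69632 (U (S (F 2048 (V (K 13) (T (K 13) (S L (K 13))))) (K 0)) (S (F 2048 (V (F 2048 (T (K 0) (S (S L (K 0)) (K 0)))) (T (F 2048 (V (S L (K 0)) L)) (F 2048 (V (S L L) (S L L)))))) (F 4 (V (K 13) (F 8 (T (S L (K 0)) (V L L)))))))))))))) (F 4294969992 (U (F 67211280 (S (K 20) (F 8288 (T (F 25268288 (V (K 3) (F 32768 (S (K 4) (K 4))))) (F 11538504 (U (K 14) (V (F 65 (S (K 5) (F 67584 (S L (K 0))))) (K 13)))))))) (F 6946029592 (T (F 11872 (S (S (K 6) (V (F 135200 (U (K 9) (F 1 (T L L)))) (K 6))) (F 65568 (S (T (F 17 (V (S L L) (U (K 5) L))) (U (V L (K 10)) (F 17 (V (S L L) (S L L))))) (F 17 (V (T (S L L) (V (S L L) L)) (U (T L L) (T L (S L L))))))))) (F 272386 (S (F 32768 (U (K 13) (F 272 (S (K 5) (F 66560 (V (F 8 (T (S (K 5) L) (S (K 5) L))) (K 9))))))) (F 3072 (U (V (F 97 (S (F 2048 (T (V L L) L)) (F 2048 (T (S L (K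 0)) (V L L))))) (S (K 12) (F 33 (T (F 4096 (S L L)) (S L L))))) (F 33 (V (F 6144 (S (T (S L L) (U (S L L) (S L L))) (T (V L (S L L)) (S (S L L) L)))) (S (F 4096 (T (S L L) L)) (T (F 6144 (V (S L L) L)) (F 6144 (S L L)))))))))))))))
noncomputable def w10_15 : Tr := (U (T (F 256 (V (F 2097412 (S (F 590080 (T (F 557058 (S L L)) (F 524800 (V L L)))) (F 2065 (T (V (F 1026 (U L L)) (F 72 (S L L))) (F 9288 (V (U L L) (F 1024 (S L L)))))))) (F 8848 (S (F 262660 (U (V (S L L) (F 135168 (S L L))) (F 262144 (V L (F 33 (S L L)))))) (F 1 (T (F 12 (V (F 16392 (S L L)) L)) (F 4104 (V L (F 67 (S L L)))))))))) (F 4859136 (V (F 1049152 (S (V (F 32792 (T (S L L) (F 1024 (S L L)))) (F 16451 (T L (S L L)))) (F 32792 (T (V (S L L) (U L L)) (U (F 1024 (V (S L L) (S L L))) (V (S L L) (F 1028 (S L L)))))))) (F 270344 (S (F 2 (T (F 65536 (V (F 1024 (S L L)) (S L L))) (F 65792 (V (F 512 (U (S L L) L)) (S L (S L L)))))) (F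 513 (U (V (F 32 (S (F 1 (S L L)) (S L L))) (F 32768 (T (S L L) (S L L)))) (F 32768 (V (F 512 (S L L)) (S (S L L) (S L L))))))))))) (F 4194305 (T (F 131076 (V (F 65536 (S (F 36 (S (F 262400 (T L L)) (F 24 (T L L)))) (F 394240 (V (T L L) (F 73728 (S L L)))))) (F 1214464 (S (S L (T L L)) (U (V L L) (S L L)))))) (F 36928 (V (F 557184 (S (F 4 (S (F 8193 (V (F 4160 (S L L)) L)) (F 1040 (U (F 16 (T L L)) (F 32768 (S L L)))))) (F 16640 (V (F 8 (T (S L L) (F 2080 (S L L)))) (F 18432 (S L L)))))) (F 278529 (S (F 270336 (T (F 16 (V L L)) (F 16 (S (S L L) (F 256 (S L L)))))) (F 4096 (T (F 32768 (U L (S L L))) (F 545 (V (F 4 (S L L)) (T L L))))))))))))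
noncomputable def w10_16 : Tr := (S (F 1 (T (F 32776 (V (T (F 4 (S (S L L) L)) (F 4 (S (U (S L L) (S L L)) (V L (S L L))))) (S (T (U L L) (U (S L L) L)) (T (U L L) (U (S L L) (S L L)))))) (F 32776 (V (S (T (F 4 (U (V L L) (S L L))) (F 4 (S (T L L) (U (S L L) L)))) (F 4 (T (U (S L L) (S L L)) (U (V (S L L) (S L L)) (V (S L L) L))))) (S (T (U (S L L) (S L L)) (U (S L L) L)) (T (U (S (S L L) L) (F 4 (S L L))) (V (F 4 (S L L)) (T L L)))))))) (T (V (F 24 (T (F 4 (S (F 1 (S L L)) (U (S L L) L))) (F 16388 (S (F 1025 (U L L)) (U (S L L) (S L L)))))) (F 3 (T (F 4104 (S (U L L) (F 1026 (S L L)))) (F 4104 (U (S (S L L) (V L (S L L))) (S (S L L) (S L L))))))) (F 1 (U (F 32768 (S (F 2048 (V (F 2048 (T (V L L) (S (S L L) (S L L)))) (T (F 2048 (T L (S L L))) (F 2048 (S L (V L L)))))) (F 4 (V (T (F 4096 (U (S L L) L)) (F 8 (S (T L L) (U L (S L L))))) (F 8 (T (S (S L L) (V L L)) (S (V L L) (V (S L L) L)))))))) (F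 4104 (S (F 1 (V (T (S L L) (S (S L L) (S L L))) (T (V (S L L) L) (S L L)))) (V (T (F 2048 (S L L)) (F 1 (V L (S L L)))) (F 1 (T (V L L) (V (S L L) L))))))))))
noncomputable def w10_17 : Tr := (V (F 92224 w10_16) (F 3145736 (S (T (F 352 (V (F 4096 (T (F 512 (S (S L L) (U L L))) (F 512 (U (S L (S L L)) (S L L))))) (U (S (K 6) (T L L)) (F 4096 (T (S L L) L))))) (F 64 (U (F 1024 (V (F 2088 (S (T L L) (T (S L L) L))) (T (F 32 (S (K 6) L)) L))) (F 16416 (T (F 80 (S L (V L L))) (F 64 (V (F 1024 (S L L)) L))))))) (F 288 (T (F 10240 (U (T (F 512 (S (V (S L L) L) (V L L))) (F 512 (V (S (S L L) (S (S L L) L)) (S L (S L L))))) (V (F 512 (S (T L (S L L)) (T (F 2048 (S L L)) L))) (S (F 512 (T L L)) (T (S L L) (F 512 (S L L))))))) (U (F 2080 (S (F 8 (V (T (V (S L L) L) (V L L)) (T (S L L) L))) (F 8 (V (T (S (S L L) (F 2048 (T L L))) (F 2048 (S L (S L L)))) (T (S L L) (S L L)))))) (F 10272 (V (T (S (S L L) (F 4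 (S L L))) (F 4 (S L (S L L)))) (S (S L L) (T (S L L) L))))))))))
noncomputable def w10_18 : Tr := (T (F 43008 (S (F 16416 (V (T (F 32 (U (F 1 (V (F 2052 (S L L)) (S L L))) (F 4104 (S L L)))) (F 32800 (S (V (F 4 (S L L)) (S L L)) (F 4 (U (V L L) L))))) (F 32768 (V (F 512 (S (S L L) (T L L))) (T (S L L) (F 512 (S L L))))))) (F 2048 (V (F 8192 (S (F 4112 (V (F 4 (T L (S L L))) (F 8192 (T L L)))) (F 8192 (V (F 4096 (T (S L L) (F 2056 (S L L)))) (F 1028 (T L (F 1 (S L L)))))))) (F 67592 (T (S (V L L) (V L L)) (V (S (S L L) (F 4 (S L L))) (S L (S L L))))))))) (F 24648 (S (F 1 (V (F 2560 (S (V (F 4 (U (T L L) (T L L))) (T (S L L) L)) (F 4 (V (T (U (S L L) L) (S L (S L L))) (U (T L L) (S L L)))))) (S (T L (F 512 (S L L))) (F 2560 (V (T L L) L))))) (F 160 (V (F 2048 (S (F 1 (V (T (F 4 (V L L)) (V (F 4 (S L L)) L)) (T (V L L) (V L L)))) (V (F 2048 (T (S L L) (F 4096 (S L L)))) (F 1 (T (V L L) (S L L))))))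 (F 16384 (T (S (V (F 4 (S L L)) L) (F 4 (V (S L L) L))) (F 4 (V (S (S L L) (S L L)) (S L L))))))))))
noncomputable def w10_19 : Tr := (T (F 755922776309 (S (F 262436 (T (F 1152 (U (F 256 (V (F 16778304 (S (F 1572868 (V L (F 8208 (T L (K 5))))) (F 32 (T (F 786448 (S L L)) (F 262144 (S L L)))))) (F 2228230 (S (K 6) (F 70145 (V (T L L) (F 48 (S (K 5) L)))))))) (F 34078732 (V (F 2130176 (S (F 270336 (T L L)) (T (F 8200 (S L L)) (F 262152 (S L L))))) (F 65539 (S (F 32768 (V L (F 8 (S L L)))) (F 4129 (S L L)))))))) (F 17825922 (V (F 303169 (U (F 2 (S (F 4096 (V (F 4096 (T L L)) (K 11))) (F 272 (V (F 512 (T L (F 16896 (S L L)))) (F 32 (T (S L L) (F 64 (S L L)))))))) (F 65 (S (F 65536 (V L (S L L))) (T (F 18 (S L L)) (F 65792 (S (S L L) L))))))) (F 4260864 (U (F 64 (S (K 7) (F 4161 (U (K 11) (F 1 (S (K 5) (F 4096 (T L L)))))))) (F 17 (S (F 49152 (V L (S (K 9) L))) (F 65 (T (F 80 (S L L)) (F 16 (S L L))))))))))))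 (F 50857985 w10_15))) (F 904170315957 (S (F 679870484 (T (F 1048643 (S (U (K 7) (F 65536 (V (F 266320 (V (F 144 (S L L)) (S (K 5) L))) (U (K 11) L)))) (F 16448 (U (F 131584 (V (F 4624 (V (S (T L L) (T (S L L) (U (S L L) L))) (T (S L L) (S (K 8) (S L L))))) (U (K 5) (V (F 4608 (S (K 8) L)) (K 5))))) (F 8 (V (F 2305 (V (F 512 (S (S L L) (S L L))) (S (S L L) (S L L)))) (S (T L L) (F 257 (T L L))))))))) (F 8257 (U (F 8 (V (F 549121 (S (K 4) (F 2560 (V (T (S (T L L) (S L L)) (S (S L L) (U (S L L) L))) (U (K 8) (S (K 8) L)))))) (K 12))) (F 65544 (S (V (F 266369 (V (F 1040 (S L L)) L)) (K 11)) (F 12289 (V (F 2561 (V (S (S L L) (F 4 (T L L))) (S L (S L L)))) (V (F 513 (S L L)) L))))))))) (F 1352667649 (U (F 524544 w10_17) (F 524321 w10_18))))))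
noncomputable def w10_20 : Tr := (T (F 2368367514124673 (S (K 11) (F 5519704064 (V (F 38688326152 (U (F 16 (T (F 65536 (U (K 7) (F 10518536 (S (K 17) (F 32768 (V L (K 4))))))) (K 21))) (F 8519704 (T (F 80 (S (F 10485760 (U (K 15) (F 5 (T (F 10240 (S (K 11) L)) (K 6))))) (F 6293504 (U (V L (F 1 (S (K 6) L))) (F 5 (T (F 4096 (S L L)) (S (F 4096 (S L L)) L))))))) (F 101 (S (K 6) (F 524544 (U (F 512 (V (F 2048 (S (K 11) (F 1 (S L L)))) (K 4))) (F 1 (T (F 1024 (V (F 80 (S L L)) (S (K 11) L))) (F 263168 (V (F 32 (S L L)) (S (K 10) L))))))))))))) (F 1073758597 (U (K 10) (F 8 (S (K 19) (F 286525442 (T (F 262144 (U (K 17) (F 9 (U (K 4) (F 262144 (T (F 262144 (S L (K 3))) (F 1 (S (K 6) (K 4))))))))) (F 524416 (U (K 14) (F 15 (S (K 6) (F 1 (T (S L L) L)))))))))))))))) (F 142938659170314 (S (K 14) (F 1924145545860 (V (F 137573173344 (U (K 9) (F 5369233412 (S (K 20) (F 50339870 (T (F 204800 (U (V (F 320 (S (K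 6) (S (K 6) (K 4)))) (K 12)) (F 1 (V (F 5120 (T (S L (S L L)) (S (K 9) (F 1024 (S L L))))) (S (K 6) (T L L)))))) (U (K 6) (F 2097152 (S (K 14) (T (F 408 (V L L)) (F 33024 (S L L)))))))))))) (F 65536 (U (K 11) (F 96636764160 (S (K 21) (F 4300226694 (T (F 9175060 (U (K 13) (F 3 (T (F 8 (S (K 11) L)) (K 7))))) (K 9))))))))))))
noncomputable def w10_21 : Tr := (U (S (F 6272 (V (F 2097281 (T (T (F 64 (S (F 2 (S L L)) (F 2048 (S L L)))) (V (F 336 (S L L)) (S L L))) (V (T (F 321 (S L (F 8192 (S L L)))) (F 2113 (U (F 1024 (S (K 9) L)) L))) (F 1 (U (K 6) (T L L)))))) (T (S (F 4260358 (U (K 11) (F 1 (T L L)))) (F 6291968 (T (F 262160 (S L L)) (F 262160 (S L L))))) (F 4259840 (U (K 12) (F 1 (V (S (K 8) L) L))))))) (F 33816706 (T (F 2099200 (V (F 128 (T (F 40960 (S L L)) (F 2048 (S (F 32 (S L L)) (F 8 (T L L)))))) (F 256 (T (V (U L L) (F 129 (S L L))) (V (S L (F 1 (T L L))) (F 16513 (S L L))))))) (F 2103296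 (V (F 1024 (V (F 5120 (T (F 8 (U L L)) (F 8 (U (S L L) (S L L))))) (U (T (F 1024 (S L L)) (S L L)) (S (T L L) (F 1024 (T L L)))))) (T (V (S L (F 1024 (U L L))) (F 264208 (S L L))) (F 1024 (V (U (S L L) L) (F 8321 (S L L)))))))))) (F 3 (T (F 262144 (V (F 4194824 (S (F 4096 (S (F 196616 (S L L)) (F 4096 (V L L)))) (F 64 (V (F 65616 (S L L)) (T L L))))) (S (F 784 (V (S (F 12 (S L L)) (F 1 (S L L))) (F 2 (T (F 65536 (S L L)) L)))) (F 4194304 (V (F 266304 (T L L)) (F 8193 (T (F 262416 (S L L)) (F 256 (S L L))))))))) (F 24576 (V (F 32 (S (S (T L (F 163840 (S L L))) (F 131201 (T (F 16 (S L L)) (F 16 (S L L))))) (F 131201 (V (F 64 (T (S L L) (F 256 (S L L)))) (T L L))))) (S (U (F 16 (V (F 65536 (S L L)) L)) (F 56 (S L L))) (F 32 (T (F 1 (V L (F 524288 (S L L)))) (F 132096 (V (F 264192 (S L L)) L))))))))))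
noncomputable def w10_22 : Tr := (S (F 34544288780 (S (F 25166339 (U (K 9) (F 262144 (V (K 13) (F 524352 (U (K 8) (T L L))))))) (F 1 (U (K 11) (F 136314928 (V (F 2623488 (T (F 1196032 (U L L)) (F 16896 (S (K 11) L)))) (F 128 (T (F 4198416 (S L L)) (F 67592 (S L L)))))))))) (F 51707380992 (U (F 4227072 (V (F 142615636 (S (U (K 13) (F 1 (S (K 7) (F 1 (T (F 32 (T L L)) L))))) (F 1048577 (T (F 8192 (U (T (V (F 160 (S L (F 4096 (S L L)))) (S L L)) (F 32 (V (F 1024 (S L L)) L))) (V (F 160 (T (F 4096 (S L L)) (F 4128 (S L L)))) (T (S L L) L)))) (F 4096 (V (F 4096 (S (S L L) (F 2560 (U (S L L) (F 8 (S L L)))))) (S L (F 4096 (S L L))))))))) (T (F 67117060 (S (F 2097225 (U (K 9) (F 16 (S (K 11) L)))) (F 2654217 (V (F 1 (T (F 32 (T L L)) L)) (F 37120 (U L L)))))) (F 1310724 (S (F 4198657 (S (K 9) (K 9))) (F 4354 (T L (F 2097440 (S L L))))))))) (F 12582912 (T (F 203436052 (V (F 4 (S (V (F 49281 (U L L)) (T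 (F 49152 (S L L)) L)) (F 32897 (T (S (F 16 (S L L)) (F 16 (V L L))) (F 16 (V (F 1056 (S L L)) L)))))) (S (F 16 (S L L)) (F 4 (V (F 129 (S L L)) L))))) (F 203689984 (V (F 1311748 (S (V (F 129 (T L L)) L) (F 193 (U (S (S L L) (S L L)) (S L L))))) (F 16 (S L (F 20 (S L L)))))))))))
noncomputable def treeW10 : Tr := (F 0xffffffffffffffffffffffffffffffffffffffffffffffffffffffffffffffffffffffffffffffffffffffffffffffffffffffe44ffff659fff47fffffffffffffe1870fffffe2187ff9ffffffffffffd247fed933fffe7ffffffffffffffffffffffffffffffffffffffffffffffffffffffffffe3fe7ff993e7ff1e1ffffff831e7ffffc7ffffffffffffffffffffffffffffffffffffffffffffffffffffffffffc47ff99ffcbfffff8c733ffdbffff1f0fffff8e3e7fff3171c7fffff4fe99fccffffffffffffffffffffffffffffffffffffffffffffffffffffffffc187ffff6fff19fc (T (F 0x4da1983ce181030e487e38401667fc393f81e121a7e (S (F 0x223f00e0402b91016000218b0 w10_3) (F 0x22c320270040e2800100b30c1 (V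 (F 0x44000088001110020 (U (F 0x100000ac40808000 w10_4) (F 0xf85f800fc0000280 (T (F 6459635269635 w10_5) (F 8796098548111 w10_6))))) (F 0x8000000550000400 (U (F 1196339585089536 (T (F 257268199314210828 w10_8) (F 0x1104a1202028c138 w10_9))) (F 0x3f83f141600000520 (T (F 4123168669761 w10_10) (F 19121213276423 w10_11))))))))) (F 0x61c0218e0c0082702588e3090207ff078480fe1e20e6 (S (F 0x38a7c48c5410b08201800428208c w10_12) (F 0x287c88d280818f262000600c21f0 (V (F 0x1001401000022048004 (U (F 594493430227540096 (T (F 5207287899857673 w10_13) (F 11425687013664 (S (F 42233554273028 (V (F 11006509128 (U (K 7) (F 73400332 (S (K 16) (F 132164 (V (F 4608 (U (K 11) (F 33 (S (K 4) (T (F 8192 (S (K 8) L)) (F 8192 (S (K 8) (T L L)))))))) (K 4))))))) (K 23))) (F 5231270166729 w10_14))))) (F 0x3d9fc10a080000388 w10_19))) (F 0xa142000284020090 (U (F 0x2088260022000a00 w10_20) (F 0xf8ff2e0040000340 (T (F 1187575303209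 (S (F 8585220 (U (F 4194304 (V (F 18874388 (T (F 128 (S (K 7) (F 1048576 (V (F 16448 (U (K 6) (S (K 6) L))) (K 13))))) (K 15))) (F 262144 (S (F 2129925 (S (K 8) (K 8))) (F 10518565 (U (K 7) (T (F 16384 (V L (F 131072 (S L L)))) (F 524288 (S (K 11) (K 11)))))))))) (F 41943047 (T (F 196620 (V (F 4 (S (U (K 6) (F 16384 (S L L))) (T (F 16384 (S L L)) (F 8192 (S L L))))) (S (F 2048 (S L L)) (F 4 (V (S L L) (F 130 (S L L))))))) (F 8 (V (F 4 (S (F 114688 (S (K 10) (K 10))) (V (F 49152 (S L L)) (F 65536 (S L L))))) (F 32 (S (F 4 (S L L)) (V L L))))))))) (F 612368488 w10_21))) (F 68722690057 w10_22)))))))))))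

theorem pW10 : chkW par treeW10 192 64 384 128 384 128 163840 327680 Lc = true := by decide +kernel

noncomputable def w11_0 : Tr := (U (F 16416 (T (F 1 (S (V (U (K 7) (T (V (S (S L L) (S L L)) (S (S L L) L)) (K 7))) (S (T (V (U (K 7) (S L L)) (F 2 (U L L))) (F 2 (U (K 6) (S L L)))) (U (K 7) (T (V (S L L) (F 2 (S L L))) (F 2 (V (K 6) L)))))) (V (U (T (S (V L (K 7)) (S (S L L) L)) (K 7)) (S (V (T (S L L) L) (T (S L L) L)) (F 4096 (T (V (S L L) L) (S L L))))) (T (U (S (K 7) (V (S (K 7) L) (K 7))) (S (V (S L L) (F 2 (S L L))) (F 4096 (V (S L L) L)))) (F 2 (U (K 6) (T (S (S L (K 6)) (F 2 (S L L))) (K 6)))))))) (S (K 7) (F 1 (S (K 7) (F 4096 (V (U (K 5) (S (K 5) L)) (K 5)))))))) (F 65536 (T (F 1026 (S (V (T (S (U (V L L) (S L L)) (V (S L L) (U (S L L) L))) (S (U (S L L) L) (V (S L L) (S L L)))) (T (U (S (V (S L L) L) (V L L)) (V (S L L) L)) (F 2 (U (S (S L L) (S L L)) (S L L))))) (V (T (S (U (V (S L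 L) (S L L)) (F 4096 (S L L))) (F 4112 (U (T L L) L))) (F 4096 (U (S (S L L) (F 256 (S L L))) (S L L)))) (T (S (V (U L L) (F 2 (S L L))) (F 4112 (V (S L L) L))) (F 4098 (S (V L L) (F 256 (T L L)))))))) (F 1024 (S (V (F 8192 (T (S (V L L) (V L L)) (S L L))) (F 2 (T (F 2 (S (V L L) (S L L))) (S L L)))) (F 12288 (V (T (U (S L L) (S L L)) (U (S L L) L)) (F 2048 (S (V L L) (F 8 (V L L)))))))))))
noncomputable def w11_1 : Tr := (U (F 4096 (S (F 3 (T (V (F 4136 (T (F 2 (S (V (U L L) L) (V (U L L) (U L L)))) (S (F 2 (V (S L L) L)) (F 2 (V (S L L) L))))) (F 516 (U (F 2056 (T (V (F 1032 (S L L)) (S L L)) (S L (S L L)))) (F 2056 (T (F 8 (S (F 2 (S L L)) (S L L))) (S L L)))))) (F 4104 (S (T (F 512 (V (S L L) (F 132 (U L L)))) (F 768 (V L L))) (T (F 512 (V (S L L) (U L L))) (F 512 (S L L))))))) (F 16417 (T (V (F 20496 (S (T (V (U L L) (U (S L L) L)) (V (S L L) L)) (V (T (F 2 (U L (S L L))) (F 2 (U (K 6) L)))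 (F 2 (T (S L L) L))))) (T (F 18432 (U (F 2 (S (F 272 (S L L)) (F 24 (S L L)))) (V (F 258 (S L L)) (S L L)))) (F 2048 (U (S L (F 4 (S L L))) (F 1 (S (F 16 (S L L)) L)))))) (V (S (F 16384 (S (K 6) (K 6))) (K 7)) (F 2048 (U (S (F 1 (S L (K 7))) (K 6)) (F 1 (S L L))))))))) (F 401416 (T (S (T (F 1024 (V (U (F 5120 (S (S L L) (S L L))) (F 4096 (V (S L L) L))) (F 1028 (S L L)))) (F 1032 (V (F 2048 (S (S L L) (V L L))) (S L (F 1024 (S L L)))))) (T (F 2 (V (F 16 (U (F 4 (S (T L L) (F 1032 (S L L)))) (F 2 (V (S L L) (F 1024 (S L L)))))) (F 6144 (S (F 384 (S L L)) (F 384 (S L L)))))) (F 12 (V (S (F 2064 (V (S L L) L)) (F 2072 (S L L))) (S L (F 2072 (T L L))))))) (F 8 (S (V (F 16 (S (F 2 (T L L)) (F 2 (U L L)))) (F 32 (T (S L L) L))) (F 2048 (V (F 258 (T (S (S L L) L) L)) (U (S (S L L) L) (S L L)))))))))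
noncomputable def w11_2 : Tr := (T (F 262441 (S (F 245808 (V (U (S (T (S L L) (V L L)) (F 64 (T (F 4 (S L L)) (S L L)))) (T (S (V (S L L) L) (F 512 (T L L))) (S (S L L) (S L L)))) (V (T (S (U L L) (U L L)) (F 1024 (S L (S L L)))) (F 1026 (S (U (S L L) (T L L)) (T (S L L) L)))))) (F 196624 (V (F 4354 (U (T (S (F 2056 (T L L)) (V L L)) (S (F 2056 (S L L)) (S L L))) (T (S (F 2056 (S L L)) (S L L)) (F 2048 (S L L))))) (F 8193 (T (S (F 4104 (U (F 2 (S L L)) (S L L))) (F 34 (U (F 4 (S L L)) L))) (F 4096 (S (F 256 (U L L)) (F 1026 (S L L)))))))))) (F 131137 (S (F 761888 (V (T (F 513 (U (F 2 (S (K 5) L)) (S L L))) (F 4096 (U L L))) (F 4100 (U (K 6) (F 2048 (S (F 128 (S (K 5) L)) L)))))) (F 229378 (S (F 2056 (T (F 8200 (V (F 1152 (S L L)) (F 4 (S L L)))) (F 8192 (V L (F 4 (S L L)))))) (U (F 520 (T (F 8 (V L L)) (F 1040 (S L L)))) (V (F 16896 (T L L)) (F 2065 (S L L)))))))))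
noncomputable def w11_3 : Tr := (U (F 1073152 (T (F 327946 (S (F 43016 (V (F 514 (T (F 1024 (U (S (U (K 4) (S L L)) (V L (S L L))) (S (V L L) (T L L)))) (F 1024 (U (K 4) (S (S L L) (S L L)))))) (U (T (F 512 (S (S L L) (S L L))) (U (K 6) (F 1 (S L L)))) (F 1 (V (F 2056 (S (S L L) (T L L))) (T (F 2048 (S L L)) (S L L))))))) (F 34824 (V (F 1026 (T (F 2048 (S (F 1 (U (S L L) (T L L))) (U (S L L) (S L L)))) (F 3072 (S (U L (S L L)) (S L L))))) (T (F 1024 (U (S (F 3072 (U L (S L L))) (F 2048 (V L L))) (F 2048 (S (F 2 (S L L)) L)))) (F 4 (U (F 8 (U (K 6) (S L L))) (F 4096 (S L L))))))))) (F 34 (S (F 532536 (U (K 8) (F 3 (V (F 1024 (S (K 5) L)) (S (S L L) (T L (K 6))))))) (F 16384 (V (F 4097 (S (F 36912 (U (K 6) (F 2 (S L L)))) (F 49168 (T (F 1028 (S L L)) (F 512 (S L L)))))) (F 8192 (U (K 8) (F 131072 (S (F 12304 (S L L)) (T L L))))))))))) (F 9437216 (T (F 393623 (S (F 8192 (V (F 2 (T (F 8 (V (S L L) (F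 2 (S (T L L) L)))) (F 1024 (S (F 128 (S L L)) (F 128 (S L L)))))) (F 4 (T (F 8 (S (U (F 2 (S L L)) L) L)) (U (S (S L L) L) (F 1024 (S L L))))))) (F 11264 (V (F 128 (T (S L L) (S L L))) (T (S (S L L) (S L L)) (S L L)))))) (F 529 (S (F 471064 (V (F 256 (T (F 512 (S L L)) (S L L))) (T (U (S L L) L) (S L L)))) (F 4096 (V (F 8214 (T (F 8200 (S L L)) (S L L))) (F 16384 (S (F 116744 (T L L)) (F 49152 (T L L)))))))))))
noncomputable def w11_4 : Tr := (V (F 17319329856 (U (F 1158730498 (U (F 17039392 w11_2) (F 54263904 (T (F 8215 (S (F 16 (V (U (T (S (S L L) L) (S (S L L) L)) (T (S L L) (S L L))) (T (U (S (T L L) (T L L)) (S L L)) (F 1024 (S (S L L) (U (S L L) L)))))) (V (F 4 (T (U (F 64 (S L L)) L) (U (S L L) L))) (F 2 (U (T (F 256 (S L L)) (F 256 (S L L))) (F 256 (T L L))))))) (F 4100 (S (F 53264 (V (U (S L L) (S L L)) (F 1024 (T (S L (S L L)) (S L L))))) (U (T (F 53264 (V L L)) (F 32770 (S L L))) (F 49170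 (S (F 2 (S L L)) L))))))))) (F 4177563647 (U (F 16896 (T (F 1028 (S (F 4096 (V (T L L) (S (T L L) (T L L)))) (T (S L L) (F 4096 (S L L))))) (F 1025 (S (F 2048 (V (S L L) (S L L))) (F 2 (S L L)))))) (F 81936 (T (F 34 (S (V L (S L L)) (S L L))) (F 4128 (S (F 1024 (S L L)) L)))))))) (F 833299222688 (U (F 1140860352 w11_3) (F 251668479 (U (T (F 28674 (S (V (F 256 (S (S L L) (S L L))) (F 2 (T L (S L L)))) (V (F 256 (U (S L L) L)) (F 2 (S L L))))) (F 2 (S (F 12 (V (F 2056 (S (S L L) L)) (F 1024 (S L L)))) (F 18 (V (F 1032 (S L L)) (S L L)))))) (F 2 (T (F 14 (S (F 8 (T L L)) L)) (S (F 2060 (S L L)) (F 2050 (S L L))))))))))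
noncomputable def w11_5 : Tr := (V (F 2128 (U (F 838927968 (U (F 4194306 (S (F 262369 (V (F 33 (T (F 19462 (S (K 5) L)) (F 84 (S (K 8) L)))) (K 10))) (F 1179936 (T (F 73920 (U (F 32768 (T (F 4104 (V L L)) (S L L))) (S (F 2069 (S L L)) (F 34820 (T L L))))) (F 524353 (S (F 8244 (S L L)) (F 4 (T (F 40 (S L L)) L)))))))) (F 4194432 (T (F 13156392 (S (F 88072 (V (S L L) (F 4 (S L L)))) (F 8 (T (F 37 (U L L)) (F 65 (S L L)))))) (F 12714249 (S (F 12288 (U (V L L) (F 2059 (S L L)))) (F 16384 (U (F 16384 (S L L)) (F 16384 (S L L)))))))))) (F 13748930169 (U (F 1024 (T (F 77824 (S (F 56320 (S L L)) L)) (F 72 (S (F 110608 (S L L)) L)))) (F 851968 (S (F 16454 (T L L)) (F 16384 (T L L)))))))) (F 3297772544 (U (F 663748608 (T (F 2228992 (U (F 1 (U (K 9) (S (K 9) (F 9 (V (F 16 (S (K 7) (F 16 (S L L)))) (K 10)))))) (F 1 (S (F 679968 (V (F 2560 (S L L)) (F 1280 (U (S L L) L)))) (F 9 (S (F 16484 (V L L)) (V (F 8212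 (S L L)) (T L L)))))))) (F 16973952 (U (K 10) (F 1081352 (S (F 167952 (V (S L L) L)) (F 32784 (V (T L L) (S L L))))))))) (F 664273049 (U (S (F 835584 (T (F 384 (S L L)) (F 34304 (V L (F 8 (S L L)))))) (F 1 (T (F 71680 (V (F 20488 (S L L)) (F 32768 (S L L)))) (F 24576 (S L L))))) (F 786433 (T (F 22016 (S L (S L L))) (F 6144 (S L (S L L))))))))))
noncomputable def w11_6 : Tr := (T (F 0x3012601c0807040f90 (S (F 68384767115006 (V (F 20972032 (U (F 163922 w11_0) (F 180315 (U (T (S (V (T (S L L) (S L L)) (T (V L (U L L)) (V L (S L L)))) (F 4096 (V (T (F 256 (S L L)) (S L L)) (T (F 256 (U (S L L) L)) (S L L))))) (S (V (S (S L L) L) (S (S L L) (F 4096 (S L L)))) (F 4096 (V (V (F 256 (S L L)) L) (S (S L L) L))))) (T (S (V (T L L) (S L L)) (F 4112 (V L (S L L)))) (F 4096 (V (S (S L L) L) (F 2048 (S L (F 8 (S L L))))))))))) (F 2359360 (U (F 1056772 w11_1) (F 131143 (T (F 128 (V (F 1026 (U (S (T (S L L) (F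 2 (S L L))) (F 4096 (T (F 256 (S L L)) (F 2048 (S L L))))) (F 2 (S L L)))) (F 16384 (S (F 16 (T (F 6 (S L L)) (F 516 (S L L)))) (F 4104 (T L L)))))) (S (F 32 (U (F 16896 (V (F 4096 (U (F 4 (S L L)) L)) L)) L)) (F 16512 (U (F 8192 (V (F 4112 (U (F 2 (S L L)) L)) (F 2048 (S L L)))) (F 9728 (S L L))))))))))) (F 62126707185664 w11_4))) (F 0x2e0b9f004000900440 (S (F 273245837988737 (V (F 6450906256 (U (F 262401 (U (K 13) (F 59507072 (T (F 1540 (S (F 16432 (V (F 4096 (S L L)) L)) (F 16 (V (F 16386 (S L L)) (F 9220 (S L L)))))) (F 395272 (U (K 8) (S L (F 12304 (S L L))))))))) (F 137364367 (U (T (F 66432 (S (F 19714 (S L L)) (F 19970 (S L L)))) (F 65601 (S (F 5378 (S L L)) (F 3074 (S L L))))) (F 65537 (T (F 26370 (S L L)) (F 2048 (S L L)))))))) (F 51577356288 (U (F 1231127044 (U (T (F 6488832 (S (F 4609 (V (F 32 (S (K 6) (K 6))) (F 2048 (S L L)))) (F 8 (V (K 9) (F 16 (S L (K 6))))))) (F 7372992 (S (F 4096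 (S L L)) (K 7)))) (F 7503872 (T (F 8964 (S (F 96 (V (S L L) L)) (V (F 32 (S L L)) (F 64 (U L L))))) (F 142336 (S (T L L) (F 2064 (V L (S L L))))))))) (F 1265107791 (T (F 33216 (S (F 1280 (T L L)) (F 896 (T L (F 1 (S L L)))))) (F 32801 (U (F 128 (S L (F 88 (S L L)))) (S L L))))))))) (F 40065872113825 w11_5))))
noncomputable def w11_7 : Tr := (T (F 2097168 (S (F 65793 (U (F 1154 (V (U (T (F 8 (T (F 8 (S L L)) (F 4 (S L L)))) (F 260 (S (F 2048 (T L L)) (F 516 (S L L))))) (F 268 (T (S L L) (F 4 (S L L))))) (F 256 (T (F 5120 (S (F 128 (V L (S L L))) (F 128 (V L (S L L))))) (F 5120 (U (S L (F 130 (S L L))) (F 128 (S L L)))))))) (F 16448 (V (F 8484 (T L L)) (F 1025 (T (F 2 (V (F 144 (S L L)) (S L L))) (F 256 (T (S L L) L)))))))) (F 296984 (U (F 772 (V (U (T (F 512 (S (F 1024 (T L L)) (T L L))) (S L (F 512 (S L L)))) (F 1 (T (F 4 (V L L)) (S L L)))) (F 512 (T (U (F 8 (S (F 3 (S L L)) (T L L))) (F 1024 (V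 L L))) (F 8 (U (S (F 3 (S L L)) (V L L)) (F 1 (S L L)))))))) (F 16392 (V (F 16 (T (F 4 (T L L)) (T L (F 16 (S L L))))) (F 1312 (T (V L L) (F 32 (S L L)))))))))) (F 2170896 (U (S (F 17473 (S (F 10240 (T (V (F 1056 (U L L)) (S L L)) (V L L))) (F 2122 (T (U (F 1 (T L L)) (V L L)) (V L L))))) (F 66056 (U (F 584 (V (T (F 512 (S L L)) L) (F 770 (T (S L L) L)))) (F 16392 (V (S L (F 512 (S L L))) (F 1680 (V (S L L) L))))))) (F 1025 (S (F 41992 (V (F 1312 (S L L)) (T L L))) (F 8338 (V (T (S L L) (S L L)) (F 785 (S L L)))))))))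
noncomputable def w11_8 : Tr := (T (F 4 (S (F 32800 (V (T (S (V (F 8192 (U L (S L L))) (U (S L L) (S L L))) (V (F 10368 (T L L)) (U (F 128 (S L L)) (S L L)))) (F 8192 (S (U (K 6) (S L L)) (V L (T L L))))) (U (S (K 6) (T (V L (K 6)) (K 6))) (V (T (S (S L L) (S L L)) (S L L)) (S (T (S L L) (K 6)) (T (S L L) L)))))) (F 32 (V (F 4352 (T (F 4096 (V (F 2304 (S (S L L) (F 288 (S L L)))) (S (U (S L L) (S L L)) (F 258 (S L L))))) (F 5121 (U (F 8 (S L (F 4 (S L L)))) (V L (S L L)))))) (F 1 (U (T (S (V L (S L L)) (F 68 (T L L))) (S (S (K 7) L) (F 4160 (V L L)))) (T (S (V (S L L) (S L L)) (F 4112 (V L (S L L)))) (S (V L L) (F 4112 (S L L)))))))))) (F 5 (S (V (F 1 (T (F 512 (S (S L L) (F 2048 (S L L)))) (F 18 (S (K 7) L)))) (K 8)) (F 8192 (V (F 8712 (U (F 40 (T L L)) (F 8 (S L L)))) (F 256 (U (S (K 7) (F 16 (S (K 5) L))) (S (S L L) L))))))))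
noncomputable def w11_9 : Tr := (U (F 82968 (U (F 131088 w11_8) (F 294992 (T (S (F 1 (V (U (T (V (F 1 (S L L)) (S L L)) (F 1 (S (S L L) (S L L)))) (T (V L (S L L)) (F 1 (S L L)))) (T (U (S (T (S L L) L) (V L (S L L))) (S (S L L) (T L L))) (U (S (S L L) (V L L)) (S L L))))) (V (F 4 (T (F 20 (V L (F 1 (U (S L L) L)))) (F 17 (U (F 1 (T L L)) L)))) (F 1 (S (T (U (V (S L L) L) (F 4096 (S L L))) (F 4096 (U (S L L) L))) (F 4112 (U (T (S L L) (S L L)) (T L L))))))) (F 1 (S (V (F 1 (U (S L L) (F 2 (S L L)))) (T (U (V L L) (S L L)) (S L (F 4096 (S L L))))) (F 4096 (V (F 4352 (T (S L L) L)) (U (S (S L L) L) (S (S L L) L)))))))))) (F 720955 (T (F 1024 (U (F 256 (S (V (T (U (S L L) L) (T L L)) (T (V (S L L) L) (S L L))) (F 4112 (V (T (S L L) L) (T (S L L) L))))) (F 256 (S (V (S L L) (T L L)) (F 4112 (T L L)))))) (F 64 (U (F 32 (S (V (F 4096 (T L L)) (V L (S L L))) (F 4112 (T (V L L) L)))) (F 2 (V (F 1 (S L L))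 (F 512 (S L L)))))))))
noncomputable def w11_10 : Tr := (T (F 18972696 (U (F 33280 (S (F 106504 (V (U (T (S (F 2112 (S L L)) (V L L)) (S (F 65 (V L L)) (S L L))) (F 1 (T (V (F 1024 (S L L)) (S L L)) (S L L)))) (F 2112 (T (V (U (S L L) (F 2048 (S L L))) (F 8 (S (F 1 (U L L)) L))) (U (F 8 (V L (F 1 (S L L)))) (F 2048 (S L L))))))) (F 98304 (V (S (F 4100 (T (F 1024 (U (T L L) (S L L))) (U (S L L) L))) (F 16 (T (F 8 (U (S L L) (S L L))) (F 4096 (U L L))))) (T (U (S (F 12420 (T L L)) (F 8192 (S L L))) (F 4 (S L (S L L)))) (F 4 (U (S L (S L L)) (F 16384 (S L L))))))))) (F 32791 (S (F 16392 (V (F 16 (S (T (S L L) (T L L)) (T (S L L) (S L L)))) (T (F 1024 (V (F 128 (S L L)) L)) (F 1296 (S L L))))) (F 512 (V (T (F 1025 (S (S L L) L)) (S (F 1025 (S L L)) L)) (S (F 1024 (T L L)) (T L L)))))))) (F 17305680 (U (F 128 (S (F 856080 (V (F 2048 (T (F 8192 (U (S L L) (S L L))) (S L L))) (F 512 (S (F 8332 (T (V L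 L) L)) (F 136 (U (F 512 (T L L)) L)))))) (F 65544 (V (F 64 (U (T (S L L) (K 7)) (F 65536 (S (F 4097 (S L L)) (T L L))))) (S (F 20547 (T L (V L L))) (F 65 (T (F 32768 (S L L)) L))))))) (F 9 (S (F 471064 (V (S (F 128 (T L L)) (U L L)) (T (S L L) L))) (F 8 (V (T (F 99 (S (F 8 (S L L)) L)) (F 33 (S L L))) (F 4129 (S (F 17416 (S L L)) (S L L))))))))))
noncomputable def w11_11 : Tr := (U (F 170240 (S (F 8200 (V (T (V (F 4160 (U (S L L) (F 1024 (S L L)))) (F 5 (U (S (S L L) L) (S L L)))) (F 4097 (U (F 32 (T (S (F 2 (S L L)) L) (F 2 (S L L)))) (S L (S L L))))) (F 5 (U (T (S (F 1024 (T L L)) (V L L)) (V (S (F 1024 (S L L)) L) (F 1024 (S L L)))) (T (F 1024 (V (S L L) (S L L))) (F 1024 (S L L))))))) (F 8192 (V (F 8192 (U (F 64 (T (S (F 512 (T L L)) L) (S L (S L L)))) (T (S L L) (F 4096 (S (F 512 (S L L)) L))))) (F 1 (T (U (S (F 2056 (V L L)) (V L L)) (S (F 2056 (T L L)) L)) (F 2048 (U (S (F 256 (V (F 1 (S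 L L)) L)) (V L L)) (S L L))))))))) (F 3 (S (F 133168 (V (F 2176 (T (U (F 16 (S L L)) L) (F 17 (S L L)))) (F 256 (T (F 4 (U (F 1 (T L (S L L))) (F 1 (S L L)))) (F 4100 (U (U L L) L)))))) (F 276 (V (F 16384 (U (T (F 128 (S L L)) (F 16 (S L L))) (F 8212 (S L L)))) (F 576 (U (T (S L L) (S L L)) (F 4104 (S L L)))))))))
noncomputable def w11_12 : Tr := (V (F 276824068 (U (F 1074792640 w11_10) (F 125831679 (T (F 24640 (S (U (F 8192 (V (F 256 (T L L)) (S L L))) (S L L)) (U (F 8192 (V (F 256 (S L L)) (T L L))) (S L L)))) (F 64 (S (F 12 (U (F 1 (V L (F 256 (S L L)))) L)) (U (F 32832 (T (F 3072 (S L L)) L)) (F 32768 (S L L))))))))) (F 4312793088 (U (F 4194496 (T (F 94765152 w11_11) (F 203686400 (U (F 65540 (S (F 165968 (T (F 2563 (U (F 5 (V (F 16 (S L L)) (F 1 (S L L)))) (V (F 133 (S L L)) (F 2048 (S L L))))) (F 32769 (U (F 32 (V L L)) (F 8200 (S L L)))))) (F 2309 (T (F 24610 (V (F 64 (U (S L L) (S L L)))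 (F 1024 (U (S (F 512 (S L L)) (S L L)) (S L L))))) (F 16384 (U (F 1152 (V (S L L) (F 8200 (S L L)))) (S L (T L L)))))))) (F 65540 (S (F 1869936 (V (F 5248 (S L L)) (F 1 (U (T (S L L) L) L)))) (F 260 (S (F 57383 (V L L)) (F 2 (U (F 8 (V L L)) L)))))))))) (F 63963647 (U (T (F 24576 (S (F 1024 (V (F 4 (S L L)) (F 8448 (T L L)))) (F 4096 (V (F 32 (S L L)) (F 8 (S L L)))))) (F 16384 (S (F 2053 (V L L)) (F 40960 (S L L))))) (T (F 24576 (S (T L L) (F 5120 (S L L)))) (F 16385 (S L L))))))))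
noncomputable def w11_13 : Tr := (V (F 2164277764 (U (F 38388630048 (U (F 10813440 (T (F 143360 (S (F 532640 (V (F 2 (T L (F 16 (S L (K 7))))) (F 2048 (U (F 128 (T L L)) (S L L))))) (V (F 131072 (U (K 9) (F 262144 (T (F 12 (S L L)) L)))) (F 524416 (U (S (F 12320 (S L (K 6))) (K 9)) (F 139264 (S L L))))))) (F 4341761 (S (F 8344 (V (S (K 8) (K 8)) (F 12 (S L L)))) (F 128 (V (K 9) (F 8192 (T (F 40 (S L L)) (F 8200 (S L L)))))))))) (F 10486048 (T (F 49472 (S (F 364592 (T (F 1 (U (S L L) (S L L))) (F 4097 (V L L)))) (F 1 (S (F 24653 (V L L)) (F 4 (V (S L L) L)))))) (F 4325705 (S (F 4160 (U (F 2048 (S L L)) L)) (V (S L L) (F 72 (S L L))))))))) (F 38440796793 (S (F 3375120 (T (F 1792 (U (F 32 (S L L)) L)) (F 36096 (U L L)))) (F 33345 (U (T (F 6146 (T L L)) (F 16 (S L L))) (F 3 (T L L)))))))) (F 34896609280 (U (F 16664494368 (T (F 36179072 (U (F 4259857 (S (F 17448 (U (F 576 (T (S L L) L)) (F 16388 (S L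 L)))) (F 2178 (U (F 32896 (T (F 2 (S L (T (F 16 (S L L)) L))) (T (F 2 (S L L)) L))) (S (F 10384 (S L L)) (F 32896 (T L L))))))) (F 6356993 (S (F 369172 (S L L)) (F 65 (T (F 4 (V L L)) L)))))) (F 278987201 (S (F 131693 (U (F 1 (S L L)) (F 1 (S L L)))) (F 544772 (U (F 1 (S L (F 32 (U (F 640 (S L L)) L)))) (F 16385 (T L L)))))))) (F 428678841145 (U (F 264 (S (F 131127 (T L L)) (F 540676 (T L L)))) (F 3670024 (T (F 7168 (S L L)) (F 9216 (S L L)))))))))
noncomputable def w11_14 : Tr := (T (F 0x1b050108003830780 (S (F 7198380015550 (V (F 4194848 (U (F 8388624 w11_7) (F 262163 (U (T (F 131072 (V (F 335908 (S (F 36 (S L L)) (F 72 (S L L)))) (F 21504 (S (F 33280 (T (S L L) (F 8194 (S L L)))) (F 8212 (S L L)))))) (F 196865 (S (F 4097 (V L (F 528 (S L L)))) (F 19456 (V L L))))) (F 196609 (T (F 6144 (T (F 10 (S L L)) (F 32 (S L L)))) (F 4608 (S L L)))))))) (F 67108944 w11_9))) (F 7911340051968 w11_12))) (F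 0x7807b00000080100 (S (F 272919942661891 (V (F 3288859648 (U (F 541065473 (U (F 1049104 (T (F 24675 (S (F 100360 (U (F 32 (S L L)) L)) (F 290 (U (F 32 (V L L)) (F 1 (T (S L L) L)))))) (F 79 (S (F 8328 (S L L)) (F 66594 (S L L)))))) (F 60031568 (T (F 1540 (S (F 8 (U L L)) (F 130 (V (T L L) L)))) (F 133120 (S (F 32772 (S L L)) (F 8193 (S L L)))))))) (F 560202575 (U (T (F 33152 (S L (F 8704 (S L L)))) (F 163905 (U (S L L) (S L L)))) (F 163840 (T L L)))))) (F 26310873232 (U (F 528492 (U (F 131073 (T (F 3083 (S (V (F 2056 (S (K 4) L)) (K 9)) (F 72 (V (F 264 (S L L)) (S (K 5) L))))) (F 524355 (S (K 10) (F 16432 (V L (K 4))))))) (F 3276800 (T (F 17154 (S (F 64 (V (F 8200 (S L L)) L)) (F 96 (U (F 4096 (S L L)) L)))) (F 394256 (S (F 32 (S L L)) (F 8244 (S L L)))))))) (F 134742351 (T (F 393992 (S (F 19216 (V L L)) (F 17920 (U L L)))) (F 131201 (U (F 34 (S L L)) L)))))))) (F 36146445009219 w11_13))))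
noncomputable def treeW11 : Tr := (F 0xffffffffffffffffffffffffffffffffffffffffffffffffffffffffffffffffffffffffffffffffffffffffffffffffffffffffffffffffffffffffffffffffffffffffffffffffffffffffffffffffffffffffffffffffffffffffffffffffffffffffffffffffffffffffffffffffffffffffffffffffff1e7fdec07ffffff1fffffffffffffffffffffffffffffffffffffffffffffffffffffffffffffffffffffffffffffffffff846001ff1ffffff0fffff0c1e3ffe1030c2dffffffffffffffffffffffffffffffffffffffffffffffffffffffffffffffffffffffffffffffff18f8 (V (F 0x905000400400888012054 w11_6) (F 0x20a2200808891112240a1 w11_14)))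

theorem pW11 : chkW par treeW11 64 64 384 128 256 256 327680 655360 Lc = true := by decide +kernel


end Pool.Agent.Lib.H56.Gen.D8
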