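import Pool.Agent.Lib.H56.Gen.D8.Par
import Pool.Agent.Lib.H56.Gen.D8.Cos

/-!
# Certificate tree W, part 3
-/

set_option maxRecDepth 100000

namespace Pool.Agent.Lib.H56.Gen.D8

open Tr

noncomputable def w12_0 : Tr := (T (F 26441154804 (U (F 2392064 (S (F 2101248 (T (F 290 (U (F 18432 (V (S (F 21 (T L L)) (F 17 (S L L))) (F 8224 (S (F 6400 (S L L)) (F 4096 (S L L)))))) (F 81920 (V (S L L) (F 8201 (S L L)))))) (F 262568 (U (V (F 8192 (S (F 16 (T L L)) (T L (S L L)))) (F 256 (S (F 36 (S L L)) (S L L)))) (S (F 24576 (V L L)) (F 8192 (V L L))))))) (F 2 (T (F 517 (V (U (S (S L L) (S L L)) (S L L)) (F 41216 (U (S (T L (F 32 (S L L))) (S L (S L L))) (S L L))))) (F 513 (U (F 32768 (S (F 82 (V (S L L) (F 1280 (V L L)))) (F 514 (V (F 1 (S L L)) (F 4096 (V (F 16384 (S L L)) (T L L))))))) (F 163840 (V (S (S L L) L) (F 264 (S (F 1024 (S L L)) (S L L))))))))))) (F 2097153 (S (F 2638080 (T (F 8193 (V (S L L) (F 83970 (S L L)))) (F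 33 (V (F 32 (S L L)) (F 86018 (S L L)))))) (F 2097440 (T (F 1 (S (F 135168 (V L L)) (F 131072 (T L L)))) (F 4 (S (F 4096 (V (S L L) L)) (V L L))))))))) (F 25904021524 (U (F 370278440 (S (F 4384768 (T (F 16384 (U (F 4 (V (F 16384 (S (F 1024 (S L L)) (F 128 (T L L)))) (F 68 (S (S L L) (S L L))))) (F 4 (S (F 12 (S L L)) (V L L))))) (U (F 64 (S (F 12296 (V (F 4096 (S L L)) L)) (F 9 (V (V L (F 4 (S L L))) (F 4 (S L L)))))) (F 73728 (S L (F 256 (S L L))))))) (F 4245504 (T (F 98304 (U (F 4352 (V (F 16384 (S (F 4096 (S L L)) (F 4096 (S L L)))) (S (F 32 (U (F 1 (T L L)) (F 2048 (S L L)))) (F 16384 (U (T (S L L) L) (S L L)))))) (F 1 (S (F 16 (V L L)) (F 256 (V L L)))))) (F 272 (U (F 9 (S (F 32 (V (T L L) (F 2048 (T (S L L) L)))) (V (F 8448 (S L L)) (T (F 8224 (S L L)) (F 36 (S L L)))))) (F 1 (S (F 8192 (V L L)) (F 8192 (V L (F 4096 (S L L)))))))))))) (F 100663337 (S (F 5653520 (T (F 16400 (V L (F 2 (S L L)))) (F 196628 (S L L))))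 (F 147 (T (F 525440 (S (F 2080 (S L L)) (F 32 (V (F 2 (S L L)) L)))) (F 1216 (U (F 8768 (S L L)) L)))))))))
noncomputable def w12_1 : Tr := (U (F 528386 (S (F 290816 (S (F 16386 (T (F 25600 (V (F 2049 (V L L)) (F 512 (U (S L L) L)))) (F 8192 (U (F 16 (V (F 8192 (S L L)) L)) (F 3 (V L L)))))) (F 16392 (T (F 24576 (V (F 4353 (T (S L L) L)) (U (S L L) L))) (V (F 32802 (T L L)) (F 16392 (U L L))))))) (F 131074 (T (F 8 (S (F 2048 (U (F 36928 (V (F 20480 (T L L)) (F 8704 (S L L)))) (F 32775 (V L L)))) (F 36 (V (F 5 (U (T (F 1024 (S L L)) (F 1024 (V (S L L) L))) (S L L))) (U (F 128 (V (F 40960 (S L L)) L)) (F 7 (S L L))))))) (F 8 (V (F 262180 (S (F 112 (U (V (S L L) L) L)) (U (F 48 (V (T L (F 512 (S L L))) L)) (T L L)))) (F 10240 (S (F 34 (U L L)) (F 2048 (U (T L L) L)))))))))) (F 51 (S (F 1069056 (T (F 16401 (V (F 18 (S L L)) (F 4096 (S (F 1024 (S L L)) (S L L))))) (F 25 (V (F 40 (S L L)) (F 16 (S L L)))))) (F 4098 (T (F 81923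 (V (F 16 (S L (S L L))) (S L L))) (U (F 16384 (S (F 10244 (S L L)) (F 36 (V L L)))) (F 16384 (V L (F 131072 (S L L))))))))))
noncomputable def w12_2 : Tr := (U (F 416613971712 (T (F 285212728 w12_1) (F 411566080 (U (F 6291456 (S (F 98304 (V (F 33049 (T (F 24 (S (F 2049 (T L L)) (F 8192 (T L L)))) (U (S L L) (F 65568 (S L L))))) (F 2 (T (F 270344 (U (F 12288 (S L L)) (F 8193 (S L L)))) (F 1048608 (S (F 72 (V L L)) (T L L))))))) (F 1048576 (V (F 2179081 (T (F 9220 (U (F 16 (S (T L L) (F 4 (S L L)))) (F 4096 (S L L)))) (F 12288 (S (F 32 (U (S L L) L)) (F 32 (U (F 1 (S L L)) L)))))) (F 128 (T (F 262216 (S (F 162 (S L L)) (F 135297 (S L L)))) (F 2129920 (S (F 1 (V L L)) (F 272388 (T L L)))))))))) (F 6291473 (S (F 98304 (T (F 73797 (V (F 8 (S L L)) (F 16 (S L L)))) (F 24585 (S (F 16384 (V L L)) (F 16385 (S L L)))))) (F 524352 (T (F 65536 (S (F 26624 (V L L)) (F 3 (V L L)))) (F 524336 (U (V L (F 16 (S L L))) (F 4 (S L L))))))))))))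 (F 169651214279 (T (F 58720320 (U (F 1048586 (S (F 20488 (T (F 8 (S L L)) (F 44 (S L L)))) (F 6152 (T (S L L) L)))) (F 1048586 (S L L)))) (F 2359298 (S (F 262349 (U (F 2048 (T L (F 34816 (S L L)))) L)) (F 132100 (U (F 32768 (T (S L L) L)) L)))))))
noncomputable def w12_3 : Tr := (U (F 4429251088 (S (F 306184714 (T (F 1048576 (V (S (F 3147776 (U L L)) (F 2097153 (S L L))) (F 3670272 (U (F 4 (S (F 9216 (V L (S L L))) (T L (F 1 (S L L))))) (S (F 16 (S L L)) (F 131072 (S L L))))))) (F 3 (V (F 1 (S (F 262400 (U (F 128 (S L L)) L)) (F 2048 (U (F 2 (T L L)) L)))) (F 1180160 (S (F 32776 (U (V L (T (F 1024 (S L L)) (F 1025 (S L L)))) (F 1 (S L L)))) (F 8 (U (F 5 (T (S L L) (S L L))) (F 4 (S L L)))))))))) (F 33558536 (T (F 1 (U (F 259 (S (F 1048593 (V (S L L) (F 262144 (T L (F 8 (S L L)))))) (F 1 (V (F 262147 (S L L)) (F 1048576 (U (F 786432 (S L L)) L)))))) (F 26214410 (S (F 8192 (V L (S L L))) (F 794624 (T (F 32768 (S L L)) (S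 L L))))))) (F 16777255 (U (F 1 (S (F 270336 (V (T L L) (F 16384 (T (S L L) (S L L))))) (F 8192 (V (F 65 (S L L)) (F 32768 (T (S L L) (S L L))))))) (F 5 (S (F 8192 (V L (F 16384 (S L L)))) (V L (F 8192 (T L L))))))))))) (F 2550137503 (S (F 16392 (T (F 1 (S (F 1048704 (V L (F 131074 (S L L)))) (F 3 (V L (F 9220 (S L L)))))) (F 3145728 (U (S (F 589856 (S L L)) (T L L)) (F 720896 (S L (S L L))))))) (F 3 (T (F 4 (V (F 524289 (S L L)) (F 4674 (S (F 1 (S L L)) L)))) (F 512 (S (F 2 (V L (F 18432 (T L L)))) (F 262658 (V L (F 4100 (S L L)))))))))))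
noncomputable def w12_4 : Tr := (S (F 140517428 (U (F 1056768 (T (F 2 (S (V (F 260 (T (S L L) L)) (F 33 (T (F 16896 (S L L)) (F 1536 (S L L))))) (F 4 (V (F 32 (S L L)) (F 69632 (T (S L L) (S L L))))))) (F 2048 (S (F 65696 (V (F 32 (S L L)) (F 16384 (T (S L L) (S L L))))) (V (F 2180 (S L L)) (F 65569 (T (S L L) L))))))) (F 1310720 (S (F 32 (T (V L (F 33 (S L L))) (F 385 (V L (F 1024 (S L L)))))) (T (F 65568 (V (S L L) (F 17 (S L L)))) (V (F 65600 (S L L)) L)))))) (F 4202517 (T (F 1048577 (V (F 262272 (U (F 8 (S (F 64 (T L (S L L))) (F 64 (S L L)))) (S (F 131072 (S L L)) (S L L)))) (F 65600 (S (F 32 (U (F 32768 (T (S L L) (S L L))) (F 32770 (S L L)))) (F 4 (U (T (S L L) (F 8256 (S L L))) (T L (S L L)))))))) (F 32 (V (F 2097408 (U (F 4 (S (F 132 (T (S L L) L)) (S (F 132 (S L L)) L))) (F 4 (S (F 6 (S L L)) (F 4 (S L L)))))) (F 32900 (S (F 1 (U (F 2112 (T (F 4 (S L L)) (F 1 (S L L)))) (F 2 (S L L)))) (F 4105 (U (T (S L L) L)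 L)))))))))
noncomputable def w12_5 : Tr := (S (F 38338562 (T (F 393216 (U (V (F 425984 (S (T (V L L) (V (S L L) L)) (T (S L L) (S L L)))) (F 16384 (S (F 2 (T (F 81920 (S L L)) (F 65536 (S L L)))) (F 9 (T (S L (S L L)) (F 32768 (S L L))))))) (F 425984 (S (F 2 (T (F 16384 (S L L)) (S L (S L L)))) (V (T L (F 32770 (S L L))) (F 2 (T (S L L) L))))))) (F 2 (U (F 4 (S (F 65536 (V (F 131072 (T (F 6 (S (S L L) L)) (F 4 (V L (F 2048 (S L L)))))) (F 16384 (T (F 1 (S L L)) L)))) (F 65537 (V (F 32768 (T (V (S L L) L) (F 32768 (S L L)))) (F 16384 (T (S L L) (S L L))))))) (F 524292 (S (F 4 (V (F 4 (T (F 2 (S L L)) (F 32768 (S L L)))) (S L L))) (F 131076 (V (F 16386 (U (S L L) (S L L))) (S L L))))))))) (F 16842768 (U (F 2097152 (T (F 2752512 (S (F 65540 (V (T (F 65536 (S L L)) (F 65536 (S L L))) (F 16384 (T (U (V L L) L) (F 1 (S L (S L L))))))) (V (F 262144 (T (F 131074 (S L L)) (F 163840 (S L L)))) (F 12 (T (F 4 (U (F 32768 (S L L))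 L)) (F 65537 (S L (S L L)))))))) (F 1114112 (S (F 131074 (V (F 163841 (T (S L L) (S L L))) (F 16384 (T (F 5 (S L L)) (F 65536 (S L L)))))) (F 524288 (V (F 294912 (T (F 1 (S (S L L) L)) (F 1 (V (S L L) (F 16384 (S L L)))))) (F 147456 (T (F 5 (V (S L L) L)) (S L (F 4 (S L L))))))))))) (F 6815778 (T (F 212992 (S (V (U (S L L) L) (F 2 (T L (S L L)))) (F 16384 (V (T L L) (F 4096 (T L L)))))) (F 196608 (S (V (F 2 (T L L)) (F 4 (T (F 8192 (S L L)) (S L L)))) (F 2 (V (T L L) (F 8192 (T (S L L) L)))))))))))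
noncomputable def w12_6 : Tr := (S (F 67633152 (U (F 6291474 (T (F 1049604 (S (F 36 (V (F 4 (V (F 16384 (S L L)) (S L L))) (F 1024 (S L L)))) (F 131076 (V (F 2 (S (F 16 (S L L)) (T L L))) (F 2048 (T (S L L) L)))))) (F 1196033 (S (F 16 (V (F 512 (T L (F 16 (S L L)))) (F 2048 (S L L)))) (V (F 128 (T (F 6 (S L L)) (S L L))) (T L L)))))) (F 23068723 (T (F 2 (S (F 272 (V (S L L) L)) (F 256 (V (F 2 (T (S L L) L)) (F 2048 (S L L)))))) (F 8192 (V (S (F 128 (T L L)) (F 32896 (S L L))) (S L L))))))) (F 35651584 (S (F 4194338 (U (F 1 (V (F 394240 (T (F 131072 (U (F 32768 (T (F 16384 (S L L)) (F 9216 (S L L)))) (F 32772 (T L L)))) (F 18432 (T (V (F 1 (S L L)) L) (F 16384 (S L L)))))) (F 72 (T (F 1030 (T (F 16384 (S L L)) (S L L))) (F 2 (V (F 65792 (S L L)) (S L L))))))) (F 2359309 (T (F 256 (V (F 2 (T L L)) (S L L))) (F 16 (V L (S L L))))))) (F 22020128 (T (F 524800 (U (V (F 65540 (T (F 65536 (V (S L L) L)) (U (S L L) L))) (F 8 (T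 (F 4 (U (S L L) L)) (F 4096 (S L L))))) (F 8 (V (F 163844 (S L L)) (T L L))))) (F 589824 (V (F 66048 (U (F 2048 (T (V L L) L)) (F 65536 (S L L)))) (F 32 (U (T (F 512 (S L L)) (F 2 (S L L))) (S L L))))))))))
noncomputable def w12_7 : Tr := (U (F 58413472321536 (T (F 150995560 (U (F 65792 w12_5) (F 83886151 (S (F 2523648 (T (F 2 (U (F 4 (S (F 1 (T L L)) (T L (S L L)))) (F 32772 (S (S L L) (S L L))))) (S (F 16384 (U (T L L) L)) (F 81920 (T (F 8192 (S L L)) L))))) (F 262657 (U (T (F 131077 (S (F 20480 (V L (T L L))) (F 1 (V (S L L) (F 10 (S L L)))))) (F 41 (S (T (F 16386 (V L L)) (F 16384 (S L L))) (F 16386 (V (S L L) (S L L)))))) (F 131117 (T (F 8192 (S (S L L) (F 4096 (S L L)))) (S (S L L) (S L L)))))))))) (F 2225078336 (U (F 135266304 w12_6) (F 402653411 (S (F 2097158 (T (F 131072 (U (F 8 (S (F 16 (S L L)) (V L L))) (F 8 (S L L)))) (F 16 (U (F 16 (S (S L L) (S L L))) (F 18 (S L L)))))) (F 2097162 (T (F 16384 (S (F 2 (U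 (F 256 (T (F 2 (S L L)) L)) L)) (V (F 66052 (T L L)) (U L L)))) (F 16384 (S (F 2 (S (F 16 (S L L)) L)) (V L L))))))))))) (F 61819074942919 (S (F 134746168 (U (F 1049600 (T (F 262148 (U (F 8452 (T (F 16384 (S L L)) L)) (F 5 (S L L)))) (F 65537 (T (S L L) (F 16 (S L L)))))) (F 1048584 (T L (F 1025 (S L L)))))) (F 8421907 (T (F 1835141 (U (F 288 (T (F 1 (S L L)) (S (T L L) L))) (F 32768 (S L L)))) (F 129 (U (F 258 (T (F 65536 (V L (S L L))) (S L L))) (F 2 (S L L)))))))))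
noncomputable def w12_8 : Tr := (S (F 0x5048180190347087 (V (F 35272687354112 (U (F 137875161089 w12_0) (F 152739775431 (U (F 640 (T (F 1049607 (S (F 66576 (T (F 32770 (S L L)) (F 65546 (S L L)))) (F 150 (T (V L L) (S L L))))) (F 16777217 (S (F 2506776 (S L L)) (F 147 (S L L)))))) (F 134218400 (T (F 2621955 (S (F 409600 (S L L)) (F 34 (S L L)))) (F 6815755 (S L L)))))))) (F 26388279627808 w12_2))) (F 9007199258497024 (V (F 18085390026539044 (U (F 35242354409480 (T (F 1109175830176 w12_3) (F 3235188310146 (U (F 1216380928 w12_4) (F 3254780001 (S (F 30 (T (F 1050624 (S (F 655360 (V (S L L) (F 4618 (S L L)))) (F 131328 (V (S L L) L)))) (F 4096 (V (F 262658 (S L L)) (F 1212480 (S L (F 33024 (S L L)))))))) (F 8413236 (S (F 131072 (U (F 2 (T (V L L) (S L L))) (F 65536 (T L L)))) (F 4 (T (U (F 2 (V L (F 2048 (S L L)))) L) (U (F 2 (S L L)) L))))))))))) (F 252769562803327 (T (F 33570824 (U (F 1048576 (S (F 8536096 (T (F 131073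 (S L L)) (F 524291 (S L L)))) (F 37 (T (F 3 (S L L)) (F 576 (S L L)))))) (F 5505027 (S (F 36865 (S L L)) (F 1 (S L L)))))) (F 17957025 (S (F 524288 (U (T (F 1311744 (S L L)) (F 1048576 (S L L))) L)) (F 1048580 (U (T (F 1538 (S L L)) (F 512 (S L L))) (S L L))))))))) (F 194789516484313104 w12_7))))
noncomputable def w12_9 : Tr := (T (F 17515426816 (U (F 193087488 (S (F 2203656 (T (F 8 (U (F 9217 (S (F 1024 (U L L)) (F 1024 (V (F 64 (S L L)) L)))) (F 8193 (S L (F 2064 (S L L)))))) (F 65548 (S (F 8 (V L L)) (U (T (F 512 (S L L)) L) L))))) (F 1 (T (F 40 (U (F 262148 (V (F 17024 (S (F 256 (S L L)) (S L L))) (F 36 (S (F 512 (T (S L L) L)) (F 512 (T L L)))))) (F 262148 (S (F 16556 (S L L)) (F 16384 (V L L)))))) (F 262465 (S (F 12288 (U (F 132 (V (F 256 (S L L)) (S L L))) (F 4 (S L L)))) (F 16512 (V (S L L) (F 4 (U (T L (S L L)) L)))))))))) (F 295698481 (S (F 852996 (S (F 4096 (T L L)) (F 65568 (T L L)))) (F 532613 (U (S (F 532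 (S L L)) (F 512 (T (F 4 (S L L)) L))) (F 4 (S L L)))))))) (F 26618109985 (S (F 6816768 (U (F 65824 (T (F 2312 (U (F 17 (S L (S L L))) (F 16 (S L L)))) (F 8448 (S (F 36864 (S L L)) (F 1 (V (F 4 (S L L)) L)))))) (F 65584 (T (F 4104 (S L L)) L)))) (F 21045760 (U (F 33802 (T (F 1028 (S (F 8 (U (V L (S L L)) L)) (U (V (S L L) (S L (S L L))) (T L L)))) (S (U (F 5120 (V L L)) (F 4096 (S L L))) (F 1028 (U (V (S L L) (F 8 (S L L))) (F 8 (S L L))))))) (F 32770 (S (F 41216 (T L L)) (F 2052 (U (F 260 (S L L)) L)))))))))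
noncomputable def w12_10 : Tr := (T (F 574622720 (U (F 3145728 (S (F 393216 (V (F 16416 (T (F 294912 (U (F 67584 (S L L)) (F 67584 (S L L)))) (F 262177 (S L L)))) (F 32769 (S (F 16384 (U (K 9) (F 131072 (S L L)))) (F 16384 (T (S L L) (F 131072 (S L L)))))))) (F 32768 (V (F 1089544 (T (F 49152 (S (U (F 32768 (S L L)) L) (F 32768 (U (S L L) L)))) (F 8193 (S (F 4104 (S L L)) (F 4 (U (F 8 (S L L)) L)))))) (F 65536 (T (F 65536 (S (F 17 (T L L)) (F 790536 (S L L)))) (F 1081345 (S (F 8 (T L L)) (F 131072 (U (F 40 (S L L)) L)))))))))) (F 19922960 (S (F 1114128 (T (F 8192 (S (F 16384 (V L L)) (F 20480 (V L L)))) (F 8196 (V (F 4096 (S L L)) (S L L))))) (F 147488 (U (S (F 8200 (V L L)) (F 131072 (T L L))) (F 8 (V L (F 65552 (S L L)))))))))) (F 538969344 (U (F 33816576 (S (F 262148 (S (F 41 (V (F 16388 (T L L)) (K 8))) (F 524329 (V (F 8192 (T L L)) (T L L))))) (F 1081356 (S (F 33 (V (F 32833 (T (F 1024 (S L L)) (F 2176 (S L L))))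 (F 16384 (T (F 2048 (U L L)) L)))) (F 540672 (V (F 20624 (T (V (F 4 (T L L)) L) (F 1025 (U (S L L) L)))) (F 8 (T (F 32 (V (F 4104 (S L L)) L)) (F 1025 (S L L)))))))))) (F 38010904 (S (F 1245216 (V (F 16384 (S L L)) (T L L))) (F 65540 (U (S (F 1 (T L L)) (F 8224 (T L L))) (F 16416 (S L L)))))))))
noncomputable def w12_11 : Tr := (F 1140850688 (U (F 536870912 (S (F 277086208 (T (F 25166144 (S (F 2228738 (U (F 16512 (V (F 128 (S L L)) (F 8196 (S L L)))) (F 32768 (V L (F 16384 (S L L)))))) (F 1032 (U (F 68096 (V (F 4096 (S L L)) (F 65538 (T L L)))) (F 262160 (S L L)))))) (F 8513 (S (F 2062 (V (F 16384 (U (F 256 (S L L)) L)) (F 32836 (U (T (S L L) (S L L)) (S L L))))) (F 6 (V (F 32768 (U (F 1282 (S L L)) L)) (F 263172 (U (F 4 (T L (F 32 (S L L)))) L)))))))) (F 4096 (T (F 44040224 (V (F 9700352 (S (F 262208 (U (S L L) L)) (F 262144 (U (F 4096 (V (S L L) L)) (S L L))))) (F 82178 (S (F 131074 (U (F 128 (S L L)) L)) (F 2048 (T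 L (F 4 (S L L)))))))) (F 1024 (S (F 69533702 (V (F 65536 (S L L)) (F 2056 (U (F 262146 (S L L)) L)))) (F 6 (V (F 5251081 (U (S L L) L)) (F 33058 (U (F 16 (S L L)) L)))))))))) (F 536870913 (S (F 8650764 (T (F 5242896 (U (S L (F 4 (S L L))) (F 1179652 (S L L)))) (F 265 (S (F 196618 (S L L)) (F 1026 (T L L)))))) (F 8388608 (T (F 4194312 (S (F 2228228 (V L L)) (F 2099204 (V L L)))) (F 16793864 (S (V L L) (F 40 (S L L))))))))))
noncomputable def w12_12 : Tr := (U (F 3849632919577 (T w12_11 (F 1074536449 (U (F 512 (S (F 34078728 (U (F 9 (S (F 345090 (T (F 20480 (V (S L L) (S (S L L) L))) (F 20480 (V (S L L) (F 8 (S (S L L) L)))))) (F 1026 (T (F 16 (V (F 18 (S L L)) (F 36872 (S (F 8192 (S L L)) L)))) (F 596 (V (S L L) (F 8 (U (F 512 (S L (S L L))) (F 4352 (S L L)))))))))) (F 1048665 (S (F 8706 (V (T L L) (F 4096 (T (S L L) (F 24 (S L L)))))) (F 2 (T (V L L) (F 144 (V L L)))))))) (F 2097152 (S (F 8388641 (T (V (T L L) (F 2360324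 (U (S L L) L))) (F 329732 (V (U L L) (F 2337 (U (F 8 (S L L)) L)))))) (F 8392704 (T (F 4194304 (V (F 1114112 (T L L)) (F 2072 (U (F 262144 (S L L)) L)))) (F 4620416 (V (T L L) (F 33025 (S (S L L) L)))))))))) (F 113 (S (F 4587524 (S (F 196608 (T L L)) (F 131072 (V (S L L) (F 522 (S L L)))))) (S (F 4456456 (V (S L L) (F 262152 (S L L)))) (T (V L L) (F 4591872 (S L L)))))))))) (F 8246605689631 (T (F 16777472 (S (F 12583073 (U (T L L) L)) (F 10485760 (U (S (F 2 (T L L)) (F 1042 (T L L))) L)))) (F 23863552 (U (S (F 393217 (S L (S L L))) (S L (F 528384 (S L L)))) (F 4097 (S L L)))))))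
noncomputable def w12_13 : Tr := (S (F 103809044 (T (F 32772 (U (F 8192 (S (F 65572 (V (T (S L L) L) L)) (F 65536 (V (V (T L L) (F 2048 (S L L))) (F 2048 (T L L)))))) (F 2 (S (F 100 (V L L)) (V (S L L) L))))) (F 192 (U (F 32 (S (F 65536 (V (F 16384 (T (S L L) L)) (F 4104 (S L L)))) (F 4 (V (F 256 (U (F 16384 (S L (S L L))) (F 16384 (S L L)))) (F 16 (T (S L L) (F 264 (S L L)))))))) (F 34 (S (V (F 4 (S L L)) L) (F 4 (V L L)))))))) (F 3145856 (T (F 16 (U (F 2097168 (S (F 262144 (V (F 2 (T (F 131072 (S L L)) (F 2112 (S L L)))) (S (F 528386 (T L L)) (F 2 (S L L))))) (V (F 657408 (T (F 256 (S L L)) L)) (F 262144 (T (F 2 (S L L)) (F 256 (S L L))))))) (F 2097168 (S (F 524289 (V (S L L) (F 2 (S L L)))) (V (F 657408 (S L L)) (T L L)))))) (F 2 (S (F 4227092 (V (F 1028 (U (T L L) L)) (F 64 (U (F 33024 (V (S L L) (F 2048 (S L L)))) (F 32768 (S L L)))))) (F 525312 (U (F 327680 (V (T (F 2 (S L L)) L) (F 256 (S (F 192 (S L L)) (T L L)))))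 (F 65537 (V (S L L) (F 4 (S L L)))))))))))
noncomputable def w12_14 : Tr := (S (F 16990216 (U (F 50208 (T (F 4096 (S (F 8192 (V (F 2048 (T L (S L L))) (F 8200 (S L L)))) (V (F 4 (U (T L (F 128 (S L L))) (F 2 (S L L)))) (F 1024 (V (F 2048 (S L L)) (F 8256 (S L L))))))) (F 4240 (S (F 2048 (V (V (F 512 (S L L)) L) (F 2048 (S L L)))) (V (F 4 (U (S L (S L L)) (F 2 (S L L)))) (F 1 (S (S L L) (T L L)))))))) (F 278568 (S (F 8 (T (V L L) (F 2304 (V L L)))) (F 128 (T (V L (F 3072 (S L L))) (F 3200 (V L (F 2048 (S L L)))))))))) (F 1377280 (U (F 148480 (T (S (F 132096 (V (F 4 (T (S L L) (F 2064 (S L L)))) (F 3088 (S (F 1024 (T L L)) (V L L))))) (F 147456 (V (T L L) (F 3104 (S (F 512 (S L L)) (S L L)))))) (F 136240 (S (V (F 4 (S (T L L) (T L (S L L)))) (S (V (S L L) (S L L)) (T (S L L) (S L L)))) (V (F 4 (S (S L L) L)) (S (V (F 4 (S L L)) (S L L)) (U (F 4 (T L L)) L))))))) (F 16385 (V (F 65536 (S (F 16416 (T (F 4096 (S L L)) (F 4400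 (S L L)))) (F 256 (T (S L L) (F 10312 (S L L)))))) (F 21064 (S (F 512 (T L (U (S L L) L))) (T (F 4 (S L L)) (F 512 (T L (S L L)))))))))))
noncomputable def w12_15 : Tr := (S (F 432349962517872675 (V (F 281543763363872 (U (F 4466766205506 w12_9) (F 9279276989383 (U (F 2097153 (S (F 10551384 (T (F 131136 (S L L)) (F 8208 (S L L)))) (F 35717124 (T (F 524352 (S L L)) (F 335872 (S L L)))))) (F 27263009 (S (F 147476 (S L L)) (F 5259268 (S L L)))))))) (F 706479208529938 (U (F 44560441858 w12_10) (F 336618071651 (T (F 6325092 (U (F 32 (S (F 69632 (U (S L L) L)) (T L L))) (F 17 (S L L)))) (F 33816804 (U (F 256 (S (F 98304 (T (F 6144 (S L L)) L)) (F 40976 (S L L)))) (F 12 (S L L)))))))))) (F 144590099251208 (V (F 5499991098512 w12_12) (F 2674082072100866 (U (F 16252160524352 (T (F 8607236096 (U (F 2149844096 w12_13) (F 2222982371 (S (F 1026 (T (F 540684 (S (F 4096 (S L L)) (S L L))) (F 524352 (S (F 20480 (S L L)) (F 65568 (S L L))))))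 (F 1049728 (T (S (F 393216 (S L L)) (V (F 65536 (S L L)) L)) (F 131072 (S (V L L) (T L L))))))))) (F 13222019073 (U (F 33849344 w12_14) (F 1048913 (S (F 329814 (S (U (F 2048 (T L (F 72 (S L L)))) L) (F 2048 (T (S L L) L)))) (F 6416 (S (F 65552 (T (F 16384 (T L L)) (F 2352 (S L L)))) (F 516 (U (F 4 (T (S L L) L)) L)))))))))) (F 30820685327303 (T (F 4457608 (U (F 83886240 (S (F 1049606 (T L (F 40 (S L L)))) (F 1048704 (T (F 4 (S L L)) (F 262144 (S L L)))))) (F 164 (S L L)))) (F 213910696 (S (F 3342848 (U L L)) (F 8487456 (U (F 514 (S L L)) L)))))))))))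
noncomputable def w12_16 : Tr := (T (F 3288334456 (U (F 2112 (S (F 4231168 (V (F 196 (U (T (S (F 69648 (S L L)) (F 65536 (S L L))) (F 16 (S (F 32 (T L L)) (S L L)))) (F 16 (T (F 2 (S L L)) (S L L))))) (F 65536 (T (F 135168 (S (F 66 (V L (F 4 (S L L)))) (F 34 (S L L)))) (F 4096 (U (S (F 128 (S L L)) (S L L)) (S L L))))))) (T (F 5312512 (S (F 32 (V (F 65536 (U (S L L) L)) (U L L))) (V (F 262148 (V L L)) (F 32 (U L L))))) (F 4227072 (V (F 580 (V (F 65568 (S L L)) (U (S L L) (F 16 (S L L))))) (F 131072 (U (F 16384 (S L L)) (F 262144 (S L L))))))))) (F 66 (S (F 2179088 (T (F 259 (V (F 73728 (S L L)) (S L L))) (F 67 (V (F 2048 (V L L)) (S L L))))) (F 2097152 (T (F 1287 (V (F 32768 (S L L)) L)) (F 321 (V (F 294912 (S L L)) (S L L))))))))) (F 3222536208 (U (F 16777232 (S (F 16842816 (T (F 786464 (V (U (F 10240 (S L L)) (F 524288 (S L L))) (F 32768 (U (S L (S L L)) (F 1 (S L L)))))) (F 49 (V (F 8 (U (S (K 10) L) (S L L))) (F 16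 (U (F 36864 (S L L)) (F 32768 (S L L)))))))) (F 16777224 (V (F 160 (S (F 32800 (T (F 65540 (V L L)) (F 1 (U L L)))) (T (F 524296 (V (F 262148 (S L L)) L)) (F 2129952 (U L L))))) (F 262144 (U (F 131072 (T (F 262144 (S (F 8192 (T L L)) (F 16384 (S L L)))) (F 32897 (S (F 32768 (S L L)) (F 1 (S L L)))))) (F 4325376 (S (F 64 (T L L)) (F 1048576 (T L L)))))))))) (F 26214547 (S (F 16384 (V (S (F 65544 (T L (S L L))) (T L L)) (F 65544 (T (S L L) (F 32 (S L L)))))) (T (F 8 (S (F 64 (V L L)) (F 524288 (V L L)))) (F 16385 (V (S L (F 36 (S L L))) (F 8200 (S L L))))))))))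
noncomputable def w12_17 : Tr := (T (F 1141375088 (U (F 1048578 (S (T (F 4202504 (V (F 1048594 (S (F 6272 (S L L)) (F 256 (V L L)))) (F 36864 (U (F 2048 (S (F 154 (S L L)) (F 18 (S L L)))) (F 442368 (S L L)))))) (F 294977 (S (F 135570 (V L (F 8192 (U (S L L) L)))) (V (F 2048 (S L L)) (F 135171 (U L L)))))) (F 1 (T (V (F 8228 (S (F 2052 (T L L)) (F 2052 (S L L)))) (F 1179648 (S (F 524352 (U L L)) (F 64 (T L L))))) (V (F 8192 (U (F 65536 (S (F 32896 (S L L)) (S L L))) (F 65536 (S L L)))) (F 1179648 (S (F 1671232 (V L L)) (S L L)))))))) (F 1048578 (S (F 4456448 (T (F 262147 (V (F 4097 (S L L)) (F 131360 (S L L)))) (F 75 (V (F 1 (S L L)) (F 72 (S L L)))))) (V (F 262145 (T (F 7 (S L L)) (F 1 (S L L)))) (F 8388616 (T (F 19 (S L L)) (F 65536 (S L L))))))))) (F 1611137280 (U (F 142868480 (S (F 17334288 (V (F 133140 (T (S (F 67584 (U L L)) (T L L)) (U (S L (F 1 (S L L))) (F 65537 (S L L))))) (F 266241 (T (F 81924 (U (F 16400 (S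 L L)) (S L L))) (F 18433 (U (F 264 (S L L)) (S L L))))))) (F 2097160 (S (F 524560 (V (F 33024 (T (F 1 (U L L)) (F 1 (U L L)))) (F 524293 (T (F 2049 (S L L)) (F 1025 (U (F 32 (S L L)) L)))))) (F 8192 (V (T (F 8 (U (F 1048576 (S L L)) L)) (F 2170881 (U L L))) (F 2097161 (U (F 135304 (T (S L L) L)) (F 8 (T L (F 2048 (S L L)))))))))))) (F 8388609 (S (F 2228272 (T (F 21 (V (F 1 (S L L)) (F 74 (S L L)))) (F 3178513 (S L (F 32768 (V L L)))))) (F 8388659 (T (V (F 4112 (S L L)) (F 65544 (S L L))) (F 65672 (S (F 16384 (V L L)) (F 128 (V L L)))))))))))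
noncomputable def w12_18 : Tr := (U (F 16 (S (F 301989938 (T (F 4196352 (V (F 131152 (S (F 2 (U (T L L) L)) (T (U (F 65536 (S L L)) L) (F 2 (U L L))))) (F 1572864 (U (S (F 160 (S L L)) (F 8196 (S L L))) (F 4 (S L L)))))) (F 2 (V (F 528514 (S (F 160 (S L L)) (F 16384 (U (T (S L L) L) L)))) (F 2179072 (U (F 262144 (S L L)) (S L L))))))) (F 37749780 (U (F 4194304 (T (F 2048 (V (F 327680 (S (F 4 (T (F 17 (S L L)) (F 4 (S L L)))) (F 32768 (T (F 65538 (S L L)) (F 262150 (S L L)))))) (F 524292 (S (T (F 131072 (S L L)) L) (F 1 (T L (S L L))))))) (F 1048576 (V (F 66560 (S (F 4 (T (S L L) L)) (F 262145 (T (V L L) (S L L))))) (F 2621440 (S (F 8192 (S L L)) (F 512 (V (F 32768 (S L L)) L)))))))) (F 13631492 (T (F 524800 (V (F 16385 (S (S L L) (F 16387 (S L L)))) (S (S L L) (F 131073 (S L L))))) (F 262144 (V (F 33280 (S (F 65536 (S L L)) (T L L))) (S L L))))))))) (F 318767261 (S (T (F 3145728 (S (F 129 (U (S L L) L)) (F 262272 (U (S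 L L) L)))) (F 2097152 (V (F 524288 (S (F 526336 (S L L)) (F 65 (S L L)))) (F 1 (S L L))))) (F 2097155 (T (F 8192 (S (F 512 (V (F 32770 (U L L)) L)) (F 513 (U (V (F 8194 (S L L)) L) L)))) (V (F 8192 (S (F 512 (S L L)) (F 512 (U L L)))) (U (F 8192 (S L L)) L)))))))
noncomputable def w12_19 : Tr := (U (F 70645903859716 (T (F 7333740930 w12_18) (F 243202523398 (U (S (F 134228033 (T (F 1310736 (S (F 1048832 (V (F 2 (U (F 16392 (S L L)) L)) (F 16 (U L L)))) (F 4194312 (V (F 262276 (U L L)) (F 1064960 (S L L)))))) (F 67174400 (U (F 16777376 (V (F 261 (S L (F 12 (S L L)))) (F 2097184 (S L (F 524288 (S L L)))))) (F 18874400 (V (F 32769 (S L L)) (F 2097168 (S L L)))))))) (F 1075840002 (T (F 5570576 (V (F 1048600 (S (F 4 (U (F 278528 (T L L)) L)) (F 33 (U (T L L) L)))) (F 4718592 (U (F 131072 (S L (F 262152 (S L L)))) (F 196610 (S L L)))))) (F 1376257 (S (F 2097184 (U (F 8192 (V (F 557080 (S L L)) (F 65536 (S L L)))) (F 2097154 (V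 L L)))) (F 24 (V (U (F 70 (S L L)) (F 262152 (S L L))) (F 4 (T L L))))))))) (F 2147483971 (S (F 655372 (V (F 4194380 (T (F 2 (S L L)) (S L L))) (F 262145 (T (F 8196 (S L L)) (F 8192 (S (S L L) L)))))) (F 26214401 (T (F 3670080 (V (F 40 (S L (S L L))) (F 16384 (S L L)))) (F 1048656 (S (F 6 (S L L)) (F 132 (T L L)))))))))))) (F 97240207146559 (T (F 33558552 (U (F 8 (S (F 4227072 (T (F 524297 (S L L)) (F 1048577 (S L L)))) (F 262147 (T (F 67 (V (F 1066 (S L L)) (S L L))) (F 64 (T L (F 262144 (S L L)))))))) (F 4194347 (S (F 16384 (S L L)) (F 1 (S L L)))))) (F 8392705 (U (S (F 6291776 (U (S (F 1048584 (S L L)) (F 294913 (S L L))) (F 1343488 (S L L)))) (F 2097156 (T (F 262149 (S L L)) (F 131072 (S L L))))) (F 2097188 (S L (F 5 (S L L)))))))))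
noncomputable def w12_20 : Tr := (T (F 9663677184 (U (F 47244640256 (S (F 4899078160 (U (F 16779776 (T (F 263168 (V (F 138 (S L L)) (F 5570560 (S L L)))) (F 8389648 (V (F 32 (S (S L L) L)) (F 2686976 (S L (S L L))))))) (F 16777218 (T (F 8421376 (V (F 8272 (S L L)) (F 2752640 (S L L)))) (F 163857 (V (F 8224 (S L L)) (F 131073 (S L L)))))))) (F 4096 (U (F 3355443200 (T (F 42483714 (V (F 262416 (S L (F 66049 (S L L)))) (F 10486272 (S L (F 4108 (S L L)))))) (F 71368704 (V (F 16779920 (S L (F 32 (S L L)))) (F 38801412 (S L (F 524416 (S L L)))))))) (F 268435524 (T (F 352321544 (S (F 512 (V L L)) (F 25165905 (T L L)))) (F 201588745 (V (F 8389284 (S L L)) (F 1311745 (S L L)))))))))) (F 13690208325 (S (F 134217728 (T (F 1061 (S (F 8716320 (V L L)) (F 43 (V L L)))) (F 201328897 (V (F 2114048 (S L L)) (F 8 (S L (S L L))))))) (F 268435463 (T (F 16777261 (V L (S L L))) (F 1 (S (F 65540 (T L L)) (F 6291713 (V L L)))))))))) (F 141767475209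 (U (F 9429319680 (S (F 541097984 (U (F 67633170 (T (F 8204 (S (V (S L L) (F 262145 (S L L))) (V L L))) (F 4202496 (S (F 262280 (V (F 16384 (S L L)) (F 516 (S L L)))) (V (F 16 (S L L)) (F 1032 (T L L))))))) (F 75497491 (V (F 8192 (T (F 262160 (S L L)) (F 32768 (S L (F 32768 (S L L)))))) (F 32 (T (F 262400 (S L L)) (F 264 (S L L)))))))) (F 285212673 (T (F 8388642 (V (F 81921 (U (F 288 (S L L)) (S L L))) (F 8397856 (S (F 262144 (U (F 1024 (S L L)) L)) (F 524288 (U L L)))))) (F 4098 (S (F 17825856 (U (F 2304 (V (F 1 (S L L)) (F 65536 (V L L)))) (F 524288 (V L (F 512 (S L L)))))) (F 2113 (V (F 256 (T L L)) (F 17 (U (T L L) L)))))))))) (F 26038239395 (S (F 134349132 (T (F 524288 (V (F 69760 (S L L)) (S L L))) (F 8192 (V (F 4096 (S L L)) (F 131076 (U (F 128 (S L L)) L)))))) (F 134221824 (T (F 6291456 (S (F 16452 (S L L)) (F 2097216 (V L L)))) (F 4850176 (S (F 12 (V L L)) (F 524296 (V L L)))))))))))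
noncomputable def w12_21 : Tr := (T (F 4362344584 (U (F 4194304 (S (F 17694720 (T (F 131072 (V (F 131072 (U (K 10) (F 266240 (S L L)))) (F 64 (S (F 32832 (S L L)) (F 4 (S L L)))))) (F 1048580 (U (K 8) (F 64 (V (F 32768 (S (K 6) L)) (S L L))))))) (F 917504 (V (F 262152 (S (F 524288 (U (F 262144 (T L L)) (F 262144 (T L L)))) (F 1 (T (F 32 (U L L)) (F 33 (U (S L L) L)))))) (F 16385 (T (F 131080 (U (F 131072 (S (S (K 6) L) (S L L))) (F 131072 (S L L)))) (F 1 (U (F 65540 (S (K 6) (S L L))) (F 65540 (S L L)))))))))) (F 37748961 (S (F 131136 (V (F 32768 (T (S L L) (S L L))) (S (F 1 (T L L)) (F 32768 (S L L))))) (F 131076 (U (V (T (S L L) (F 4096 (S L L))) (F 4096 (S (S L L) (S L L)))) (F 4 (V (S L L) (F 32 (S L L)))))))))) (F 6450839552 (S (F 100663360 (U (F 4260129 (U (K 12) (V (S (K 12) L) (F 128 (S L L))))) (F 12583201 (V (F 260 (S L L)) (F 1 (S L L)))))) (F 608436224 (U (F 540804 (S (F 32768 (U (K 7) (F 65536 (V (F 4 (S L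 L)) L)))) (F 32772 (V (F 4 (T (F 24 (V L L)) (F 16896 (S L L)))) (F 1024 (U (F 8 (S (K 7) L)) (F 8 (S L L)))))))) (F 6815876 (V (F 262404 (T (F 32816 (S L L)) L)) (S L L))))))))
noncomputable def w12_22 : Tr := (T (F 4563405824 (U (F 50364496 (S (F 794624 (U (F 1081408 (V (S (F 131336 (T L L)) (T L L)) (F 139530 (T (S (S L L) L) (F 32 (S L L)))))) (F 1146881 (V (T (S L L) (F 2048 (S L L))) (F 10370 (T (S L L) L)))))) (F 8225 (S (F 16 (T (F 32768 (V (F 4 (U (S L L) L)) (F 131073 (U L L)))) (F 32768 (V (S L L) (F 336 (S L L)))))) (V (F 20 (T (F 32768 (U L L)) (F 33792 (U L L)))) (F 1024 (T (F 32780 (V L L)) (F 548864 (S L L))))))))) (F 320864368 (S (F 2232328 (S (F 32 (V (F 256 (S L L)) L)) (F 512 (V (S L L) (F 2050 (S L L)))))) (F 512 (V (F 528 (S (F 65536 (T L L)) (F 65540 (T L L)))) (U (T (F 131585 (S L L)) L) (F 25 (S L L))))))))) (F 4320165889 (U (F 16777248 (S (F 655908 (S (F 131113 (V (F 2048 (S L L)) (F 17674 (T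 L L)))) (F 521 (V (F 2048 (T L L)) (F 33290 (T L L)))))) (F 4211460 (S (F 129 (V (F 16 (T L L)) (F 16384 (T (F 16384 (S L L)) (F 20484 (S L L)))))) (V (F 65536 (T (F 1024 (V L L)) (F 528384 (S L L)))) (F 160 (T (F 16 (S L L)) (F 294912 (V L L))))))))) (F 50331704 (S (F 4260112 (T (F 36868 (U (S L L) L)) (F 57472 (S L L)))) (F 8208 (V (F 16384 (S (F 524352 (S L L)) L)) (F 8193 (S (F 40968 (S L L)) (F 64 (S L L)))))))))))
noncomputable def w12_23 : Tr := (U (F 41943168 (S (F 135168 (U (F 67593 (S (T (F 16388 (V (F 4128 (S L L)) (F 8 (S L L)))) (F 516 (V (F 4160 (S L L)) L))) (V (F 4193 (T (F 16 (V (F 2112 (S L L)) (S L L))) (F 256 (S (S L L) (F 2560 (S L L)))))) (T (S (S L L) L) (F 544 (S L L)))))) (F 1114121 (S (V (F 16384 (T L L)) (F 33280 (S L L))) (F 512 (V (F 143440 (T L L)) (T L L))))))) (F 2103297 (V (F 84320 (U (F 16 (T (F 8 (S (T L (S L L)) (U (S (S L L) (S L L)) (S L L)))) (F 8 (S (F 4096 (V (T L L) (S L L))) (T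 (V (S L L) (F 4096 (S L L))) (U (F 4096 (S L L)) (F 4096 (S L L)))))))) (F 2064 (S (T (F 1 (S L L)) L) (T (S L L) (S L L)))))) (F 32768 (S (F 532480 (T (U (F 4688 (V (F 16 (S L L)) L)) (F 20 (S L L))) (F 8704 (U (F 16 (S L L)) L)))) (F 8480 (T (F 4256 (U (F 8192 (V (F 4 (S L L)) (S L L))) L)) (F 4105 (U (F 1280 (S L (S L L))) (S L L))))))))))) (F 524696 (S (F 4194316 (V (F 147712 (S (F 8192 (S L L)) (F 8193 (T L L)))) (F 512 (S L (F 1028 (S L L)))))) (F 4117 (S (F 513 (U (V L (S L L)) L)) (F 26192 (V (S L L) L)))))))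
noncomputable def w12_24 : Tr := (T (F 2281832520 (U (F 1140850688 (S (F 268533792 (U (F 1056 (V (F 82049 (T (S L (S L L)) (F 33 (S (F 2 (S L L)) (F 16 (T L L)))))) (F 4194368 (S (F 262192 (T (F 16384 (S L L)) (F 16384 (S L L)))) (F 32 (T (F 8193 (S L L)) (F 33792 (V L (S L L))))))))) (F 4194464 (T (V (F 16385 (S L L)) (F 2301952 (S L L))) (F 2170912 (S (V L (F 8 (S L L))) (V L L))))))) (F 4456705 (T (F 1024 (V (F 1638400 (S (F 128 (U (F 16 (T L L)) L)) (U (F 32896 (T (S L L) L)) (S L L)))) (F 8208 (S (F 3 (U (F 16416 (S L L)) L)) (F 4096 (U (F 8192 (S L L)) L)))))) (F 1313920 (S (F 526336 (V (F 8 (U (F 256 (V L L)) L)) (F 512 (U (F 67584 (S L L)) L)))) (F 256 (V (F 24 (U (F 144 (T L L)) L)) (F 67 (U (F 1024 (T L L)) L)))))))))) (F 1073741889 (S (F 2293772 (T (F 16 (V (F 294913 (S L L)) (F 2228304 (S (F 32 (T L L)) L)))) (F 327969 (S (F 16384 (V (F 4100 (S L L)) L)) (F 32768 (V L (S L L))))))) (F 16777217 (T (F 544 (V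 (F 2228544 (S L L)) (F 32900 (S L L)))) (F 8651296 (V (F 32864 (S L L)) (F 2237456 (S L L)))))))))) (F 34434187809 w12_23))
noncomputable def w12_25 : Tr := (T (F 4294967424 (U (F 2420113408 (S (F 402755584 (T (F 52 (U (F 131080 (V (S (F 65536 (S L L)) (F 256 (V L L))) (F 256 (S (F 4 (S L L)) (S L L))))) (F 131084 (V (S L L) (F 256 (S L L)))))) (F 4176 (U (V (F 327688 (S L (S L L))) (S (F 4 (S L L)) (F 262152 (S L L)))) (F 12 (V (F 20 (S L L)) (S L L))))))) (F 268441608 (U (F 9 (T (F 262144 (V (F 512 (S (T L L) (F 65 (T L (F 16 (S L L)))))) (F 16 (S (F 143360 (S L L)) (F 1 (T L L)))))) (F 143360 (S (F 16 (V (V L (S L L)) (F 32768 (V L L)))) (V (F 532496 (V L (S L L))) (S L L)))))) (F 137 (T (F 131072 (S (F 256 (V (S L L) L)) (V (F 1048576 (S L L)) (S L L)))) (F 8192 (S (F 272 (V L L)) (F 16 (V (F 4097 (S L L)) (S L L))))))))))) (F 2218787075 (S (F 2097164 (S (F 4880 (T (F 65536 (V L L)) (F 16384 (S L L)))) (F 4116 (T (F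 4096 (V (F 8 (S L L)) L)) L)))) (F 9437188 (T (F 2052 (S (F 262144 (V L L)) (F 1025 (S L L)))) (F 4100 (S (F 25600 (V L L)) (F 1024 (V L L)))))))))) (F 6460834817 (U (S (F 1 (U (F 68 (V (S (F 1048656 (T L L)) (F 526400 (T (F 131072 (S L L)) L))) (F 1048592 (S (F 1097728 (T L L)) (T L L))))) (F 1310728 (S (F 524288 (V (F 16 (S L L)) (F 1081344 (S L L)))) (F 589824 (V (F 131072 (S L L)) (S L L))))))) (F 524289 (S (T (F 20 (V (F 2116 (U (S L L) L)) (U (F 2048 (S L L)) L))) (F 133120 (V (F 655360 (U L L)) (F 16 (U L L))))) (F 2068 (T (U (F 2052 (V (F 65 (V (F 48 (S L L)) L)) (S L L))) (F 12 (V L L))) (F 32840 (V (F 32769 (S L L)) (V L L)))))))) (F 17 (S (F 1310796 (S (T (S L L) L) (V L L))) (F 16 (S (F 1048608 (V (F 262160 (S L L)) L)) (F 4 (T (F 36 (V L L)) (F 133280 (S L L)))))))))))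
noncomputable def w12_26 : Tr := (T (F 0x70c038d1184047920004 (S (F 71195527993411 (V (F 6208 (U (F 755918512130 w12_16) (F 222264567183 (T (F 58851328 (S (F 65576 (U (F 1 (T (F 32 (S L L)) (F 264 (S L L)))) (F 262145 (S L L)))) (U (F 2098176 (T (F 131072 (S L L)) L)) (F 2097156 (S L L))))) (F 34275361 (U (F 1024 (S (F 73728 (S (F 3 (S L L)) (T L L))) (V (F 147456 (S L L)) (S L L)))) (F 3 (S L L)))))))) (F 3298568437760 (U (F 217298507776 w12_17) (F 223103420487 (T (F 59047952 (U (S (F 2 (T (S L L) L)) (F 524288 (V (F 131072 (S L L)) (F 32 (S L L))))) (F 2 (S (F 262208 (S L L)) (F 1 (S L L)))))) (F 4522129 (U (S (F 77 (T (F 32768 (S L L)) L)) (F 524292 (V (F 32768 (S L L)) (F 131072 (S L L))))) (F 15 (S L L)))))))))) (F 35461414455298 (V (F 1099511631936 w12_19) (F 228874512236544 (U (F 143948513280 w12_20) (F 12264346223559 (T (F 134217752 (S (F 1048578 (U (T (F 5242880 (S L L)) (F 4341761 (S L L))) (F 5242881 (S L L))))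 (F 25165826 (T (F 2621441 (S L L)) (V (F 655616 (S L L)) L))))) (F 135266385 (S (F 1179904 (U (T (S L L) (F 131072 (S L L))) (S L L))) (F 131072 (U (S (F 260 (S L L)) (F 257 (S L L))) (S L L))))))))))))) (F 0x4dc09838864044702014 (S (F 18647854882103331 (V (F 4417407944705 (U (F 134234178 w12_21) (F 82141269191 (U (F 32 (S (F 131096 (T (F 270528 (V (F 16384 (S L L)) (S L L))) (V (F 270368 (S L L)) (F 1048576 (S L L))))) (F 65540 (T (F 794820 (V (S L L) (S L L))) (F 524352 (V (F 147584 (S L L)) L)))))) (F 3145888 (S (F 4 (T L L)) (F 16388 (T L L)))))))) (F 2199023256576 (U (F 2201707809030 w12_22) (F 1307817753543 (T (F 4196128 (S (F 65537 (U (F 1 (S L L)) L)) (F 1048576 (U (T L L) L)))) (F 33571073 (U (S (F 393260 (S L L)) (F 131072 (S L L))) (F 163844 (S L L)))))))))) (F 5368735404040 (V (F 26456998543361 (U (F 1105954078982 w12_24) (F 3487513446855 (T (F 33554480 (S (F 18883105 (U (F 8192 (T (F 4 (S L L)) L)) L)) (F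 8352 (U (T (F 1048576 (S L L)) L) L)))) (F 26739248 (S (F 1245313 (U (S L L) L)) (F 65536 (S (F 2244640 (S L L)) L)))))))) (F 41798621725696 (U (F 1383248036928 w12_25) (F 1924212460743 (S (F 524956 (T (F 2097180 (U (V (F 9216 (S L L)) (F 16384 (S L L))) L)) (F 9000 (U (S L L) L)))) (F 688 (T (F 20 (U (F 32772 (T (F 1028 (S L L)) (F 2048 (S L L)))) (F 2097156 (S L L)))) (F 18208 (U (S L L) L)))))))))))))
noncomputable def treeW12 : Tr := (F 0xfffffffffffffffffffffffffffffffffffffffffffffffffffffffffffffffffffffffffffffffffffffffffffffffffffffffffffffffffffffffffffffffffffffffffffffffffffffffffffffffffffffffffffffffffffffffffffffffffffffffffffffffffffffffffffffffffffffffffffffffff01cffc080ffffff903ffffffffffffffffffffffffffffffffffffffffffffffffffffffffffffffffffffffffffffffffff806023ff5fffe0e0fffff0c1c7f8e01b1ffffffffffffffffffffffffffffffffffffffffffffffffffffffffffffffffffffffffffffffffffe1180 (V (F 0x12000844108042820204204044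 (T (F 0x383003890380407008100 w12_8) (F 0x2770338e00c4000c40810 w12_15))) (F 0x4488088001085200409408289 w12_26)))

theorem pW12 : chkW par treeW12 192 64 384 128 256 256 327680 655360 Lc = true := by decide +kernel

noncomputable def w13_0 : Tr := (V (F 844426003880320 (T (F 420907049092 (S (F 536879232 (V (F 33556482 (U (F 322013257 (U (F 10270 (T (F 32 (U (S L L) L)) (F 34 (S L L)))) L)) L)) (F 1073807360 (U (F 322437152 (U (F 8470588 (T (F 32848 (V L L)) (F 2160 (S L L)))) L)) L)))) (F 128 (V (F 136314882 (U (F 1282476297 (U (F 24576 (U (F 16 (T (F 44 (S L L)) L)) (F 237584 (S L L)))) L)) L)) (F 4294969408 (U (F 610343204 (U (F 2147344 (T (F 32776 (U (F 22 (S L L)) L)) (F 16392 (S L L)))) L)) L)))))) (F 8796093809036 (S (F 1040189314 (U (F 289681468 (U (F 16384 (U (F 131084 (V (F 8256 (S L L)) (S L L))) (F 147468 (V L L)))) L)) L)) (F 570428162 (V (F 4430266370 (U (F 17694785 (U (F 16462 (U (F 4 (S L L)) L)) L)) L))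 (F 33554432 (U (F 611421203 (U (F 32780 (S (F 4096 (T L L)) L)) L)) L)))))))) (F 4398080065536 (T (F 16493748650540 (S (F 34577845056 (V (F 545259520 (U (F 46924352 (U (F 540700 (T (F 32 (S L L)) L)) (F 581663 (S L L)))) L)) (F 33 (U (F 85461316 (U (F 4126 (U (F 80 (T (S L L) L)) (F 80 (S L L)))) L)) L)))) (F 34577847168 (V (F 536870912 (U (F 524576 (U (F 17171248 (U (F 65538 (T (S L L) (F 4100 (S L L)))) (F 98306 (S L L)))) L)) L)) (F 10485760 (U (F 4588036 (U (F 98436 (U (F 32768 (T (S L L) L)) (F 98304 (S L L)))) (F 98333 (S L L)))) L)))))) (F 1126758904004668 (S (F 356717235937 (U (F 8388806 (U (F 131216 (V (S L L) (U (F 8198 (S L L)) L))) (F 491528 (S L L)))) L)) (F 1217 (U (F 18324946020 (U (F 1572864 (U (T (F 217088 (S L L)) (F 98308 (S L L))) (F 98304 (S L (F 1 (S L L)))))) (F 5767224 (S L L)))) L)))))))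
noncomputable def w13_1 : Tr := (V (F 8967958894976 (T (F 2313647394144847 (S (F 549873287360 (V (F 83888128 (U (F 12615937 (U (F 196616 (T (F 16404 (S L L)) (F 3145751 (S L L)))) (F 14352387 (S L L)))) L)) (F 1073741826 (U (F 286328832 (U (F 35749904 (S (F 1049656 (T L L)) (F 40 (S L L)))) L)) L)))) (F 134218956 (V (F 4899209216 (U (F 4423905 (U (F 131072 (S (F 1114114 (S L L)) (F 2 (T L L)))) (F 1048583 (S L L)))) L)) (F 1082130437 (U (F 135143873 (U (T (F 1310768 (S L L)) (F 1049136 (S L L))) (F 1310721 (S L L)))) L)))))) (F 15772494335049811 (S (F 16496969384112 (V (F 34494218306 (U (F 543425536 (U (F 392 (T (F 152 (S L L)) L)) L)) L)) (F 545259524 (U (F 139231361 (U (F 1540 (S (F 823572 (S L L)) L)) L)) L)))) (F 6871947675651 (V (F 1048704 (U (F 4581233152 (U (F 262656 (U (F 4587520 (S L L)) L)) L)) L)) (F 73014444298 (U (F 135038080 (U (F 512 (S L (F 131076 (S L L)))) L)) L)))))))) (F 0xc90004000000c000 (T (F 910404232478723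 (S (F 4416233014656 (V (F 17179869312 (U (F 543306276 (U (F 4292608 (T (F 32768 (S L (F 4 (S L L)))) (F 1212416 (S L L)))) L)) L)) (F 268501001 (U (F 34607620 (U (F 8585216 (S (F 1196112 (T L L)) (F 16577 (T L L)))) (F 43450368 (S L L)))) L)))) (F 67117441 (V (F 68753031434 (U (F 2297957890 (U (F 526336 (T (F 3 (S L L)) (F 1025 (S L L)))) (F 7012353 (S L L)))) L)) (F 274878038544 (U (F 141630995 (U (T (F 1026 (U (S L L) L)) (F 655376 (S L L))) (F 655371 (S L L)))) L)))))) (F 108158134203189316 (S (F 123149597542592 (V (F 12884902912 (U (F 10240795155 (U (F 16768 (T (F 12 (S L L)) L)) L)) L)) (F 292058333184 (U (F 5126492184 (U (F 262528 (U (F 1 (S L L)) L)) L)) L)))) (F 17601044416769 (V (F 1211734425600 (U (F 138707968 (U (F 138485776 (S (F 25190532 (S L L)) L)) L)) L)) (F 33619968 (U (F 17247537177 (U (F 1056832 (U (F 196864 (S L (F 5246976 (S L L)))) L)) L)) L)))))))))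
noncomputable def treeW13 : Tr := (F 0xfffffffffffffffffffffffffffffffffffffffffffffffffffffffffffffffffffffffffffffffffffffffffffffffffffffffffffffffffffffffffffffffffffffffffffffffffffffffffffffffffffffffffffffffffffffffffffffffffffffffffffffffffffffffffffffffffffffffffffffffffffffffffffffffffffffffffffffffffffffffffffffffffffffffffffffffffffffffffffffffffffffffffffffffffffff07e223ff0fffe0e0701c70c181fff3000ffffffffffffffffffffffffffffffffffffffffffffffffffffffffffffffffffffffffffffffffffe00f8 (S (F 0xf18f010008600079ff w13_0) (F 0x10782000180003f810 w13_1)))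

theorem pW13 : chkW par treeW13 128 128 384 128 256 256 655360 1310720 Lc = true := by decide +kernel

noncomputable def treeW14 : Tr := (F 0xfffffffffffffffffffffffffffffffffffffffffffffffffffffffffffffffffffffffffffffffffffffffffffffffffffffffffffffffffffffffffffffffffffffffffffffffffffffffffffffffffffffffffffffffffffffffffffffffffffffffffffffffffffffffffffffffffffffffffffffffffffffffffffffffffffffffffffffffffffffffffffffffffffffffffffffffffffffffffffffffffffffffffffffffffffffffffffffff7f00001fe0000000ffffffffffffffffffffffffffffffffffffffffffffffffffffffffffffffffffffffffffffffffffffffffffffff (T (F 415615468438018 (U (F 34360295427 (S L (F 1073799168 (T L L)))) L)) (F 145135730426887 (S (F 66985656368 (U L L)) (F 11534339 (U (F 402677760 (S L L)) L))))))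

theorem pW14 : chkW par treeW14 128 128 256 256 256 256 1310720 2621440 Lc = true := by decide +kernel


end Pool.Agent.Lib.H56.Gen.D8
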