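import Pool.Agent.Lib.H56.Gen.Split
import Pool.Agent.Lib.H56.Gen.D8.W0
import Pool.Agent.Lib.H56.Gen.D8.W1
import Pool.Agent.Lib.H56.Gen.D8.W2
import Pool.Agent.Lib.H56.Gen.D8.W3

/-!
# Certificate tree W
-/

set_option maxRecDepth 100000

namespace Pool.Agent.Lib.H56.Gen.D8

noncomputable def treeW : Tr := (Tr.U (Tr.T (Tr.U (Tr.U (Tr.U treeW0 (Tr.S treeW1 (Tr.V treeW2 treeW3))) treeW4) treeW5) (Tr.U (Tr.U (Tr.U treeW6 (Tr.S treeW7 (Tr.V (Tr.T treeW8 treeW9) treeW10))) (Tr.S treeW11 treeW12)) treeW13)) treeW14)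

theorem okW : chkW par treeW 128 128 256 256 256 256 0 2621440 Lc = true :=
  (chkW_U (c1 := 1310720) (by decide +kernel)
  (chkW_T (c1 := 128) (c2 := 384) (h := 128) (by decide +kernel) (by decide +kernel) (by decide +kernel)
  (chkW_U (c1 := 655360) (by decide +kernel)
  (chkW_U (c1 := 327680) (by decide +kernel)
  (chkW_U (c1 := 163840) (by decide +kernel)
  pW0
  (chkW_S (c1 := 64) (c2 := 192) (h := 64) (by decide +kernel) (by decide +kernel) (by decide +kernel)
  pW1
  (chkW_V (c1 := 128) (c2 := 384) (h := 128) (by decide +kernel) (by decide +kernel) (by decide +kernel)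
  pW2
  pW3)))
  pW4)
  pW5)
  (chkW_U (c1 := 655360) (by decide +kernel)
  (chkW_U (c1 := 327680) (by decide +kernel)
  (chkW_U (c1 := 163840) (by decide +kernel)
  pW6
  (chkW_S (c1 := 64) (c2 := 192) (h := 64) (by decide +kernel) (by decide +kernel) (by decide +kernel)
  pW7
  (chkW_V (c1 := 128) (c2 := 384) (h := 128) (by decide +kernel) (by decide +kernel) (by decide +kernel)
  (chkW_T (c1 := 320) (c2 := 448) (h := 64) (by decide +kernel) (by decide +kernel) (by decide +kernel)
  pW8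
  pW9)
  pW10)))
  (chkW_S (c1 := 64) (c2 := 192) (h := 64) (by decide +kernel) (by decide +kernel) (by decide +kernel)
  pW11
  pW12))
  pW13))
  pW14)

end Pool.Agent.Lib.H56.Gen.D8
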