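import Pool.Agent.Lib.H56.Gen.D8.Cert
import Pool.Agent.Lib.H56.Gen.Final

/-!
# The eigenvalue bound
-/

set_option maxRecDepth 100000

namespace Pool.Agent.Lib.H56.Gen.D8

theorem gap8 : GapAt q8 d8.K (21 / 20) := by
  have h : GapAt q8 d8.K ((21 : ℕ) / (20 : ℕ)) :=
    gapAt_LD (bn := 21) (bd := 20) cert okpd (by decide +kernel) (by decide +kernel)
      (by decide +kernel) (by norm_num) (by decide +kernel) d8 (ka := 1) (kb := 16) (by norm_num)
      (by norm_num) k0_8 (dP := 8) (Pu := 28285) (Pv := 10000)
      (by decide +kernel) (by decide +kernel) (by norm_num) (by norm_num) (by decide +kernel)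
      (by decide +kernel) (by decide +kernel)
  simpa only [Nat.cast_ofNat] using h


end Pool.Agent.Lib.H56.Gen.D8
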