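import Pool.Agent.Lib.H56.Gen.Fields
import Pool.Agent.Lib.H56.Gen.D8.Cos

/-!
# Certificate data: the list of cusps
-/

set_option maxRecDepth 100000

namespace Pool.Agent.Lib.H56.Gen.D8

noncomputable def r0 (t : List Ent) : List Ent :=
 ⟨⟨.ofNat 0, .ofNat 1, .ofNat 0, .ofNat 0, .ofNat 3, .ofNat 0⟩, (.ofNat 1, .ofNat 0), (.ofNat 0, .ofNat 0), (.ofNat 0, .negSucc 0)⟩ ::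
 ⟨⟨.ofNat 0, .ofNat 1, .ofNat 0, .ofNat 0, .ofNat 1, .ofNat 0⟩, (.ofNat 1, .ofNat 0), (.ofNat 0, .ofNat 0), (.ofNat 0, .ofNat 0)⟩ ::
 ⟨⟨.ofNat 0, .ofNat 1, .ofNat 0, .ofNat 0, .negSucc 0, .ofNat 0⟩, (.negSucc 0, .ofNat 0), (.ofNat 0, .ofNat 0), (.ofNat 0, .ofNat 0)⟩ ::
 ⟨⟨.ofNat 0, .ofNat 1, .ofNat 0, .ofNat 2, .ofNat 7, .negSucc 1⟩, (.negSucc 0, .negSucc 0), (.negSucc 1, .negSucc 0), (.negSucc 4, .ofNat 4)⟩ ::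
 ⟨⟨.ofNat 0, .ofNat 1, .ofNat 0, .ofNat 2, .ofNat 5, .negSucc 1⟩, (.ofNat 1, .ofNat 0), (.ofNat 2, .ofNat 0), (.negSucc 1, .negSucc 1)⟩ ::
 ⟨⟨.ofNat 0, .ofNat 1, .ofNat 0, .ofNat 2, .ofNat 3, .negSucc 1⟩, (.ofNat 1, .ofNat 0), (.ofNat 2, .ofNat 0), (.negSucc 1, .negSucc 0)⟩ ::
 ⟨⟨.ofNat 0, .ofNat 1, .ofNat 0, .ofNat 2, .ofNat 1, .negSucc 1⟩, (.negSucc 0, .negSucc 0), (.negSucc 1, .negSucc 0), (.ofNat 1, .ofNat 1)⟩ ::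
 ⟨⟨.ofNat 0, .ofNat 1, .ofNat 0, .ofNat 2, .negSucc 0, .negSucc 1⟩, (.ofNat 1, .negSucc 0), (.ofNat 2, .negSucc 0), (.negSucc 0, .ofNat 1)⟩ ::
 ⟨⟨.ofNat 0, .ofNat 1, .ofNat 2, .ofNat 0, .ofNat 3, .negSucc 0⟩, (.ofNat 1, .ofNat 0), (.ofNat 0, .negSucc 0), (.negSucc 0, .negSucc 0)⟩ ::
 ⟨⟨.ofNat 0, .ofNat 1, .ofNat 2, .ofNat 0, .ofNat 1, .negSucc 0⟩, (.ofNat 1, .negSucc 0), (.negSucc 1, .ofNat 0), (.ofNat 0, .ofNat 1)⟩ ::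
 ⟨⟨.ofNat 0, .ofNat 1, .ofNat 2, .ofNat 0, .negSucc 0, .negSucc 0⟩, (.negSucc 0, .ofNat 0), (.ofNat 0, .ofNat 1), (.ofNat 1, .ofNat 0)⟩ ::
 ⟨⟨.ofNat 0, .ofNat 1, .ofNat 2, .ofNat 0, .negSucc 2, .negSucc 0⟩, (.negSucc 0, .ofNat 0), (.ofNat 0, .ofNat 1), (.ofNat 1, .negSucc 0)⟩ ::
 ⟨⟨.ofNat 0, .ofNat 1, .ofNat 2, .ofNat 2, .ofNat 7, .negSucc 2⟩, (.ofNat 1, .ofNat 0), (.ofNat 2, .negSucc 0), (.negSucc 2, .negSucc 2)⟩ ::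
 ⟨⟨.ofNat 0, .ofNat 1, .ofNat 2, .ofNat 2, .ofNat 5, .negSucc 2⟩, (.ofNat 1, .ofNat 0), (.ofNat 2, .negSucc 0), (.negSucc 2, .negSucc 1)⟩ ::
 ⟨⟨.ofNat 0, .ofNat 1, .ofNat 2, .ofNat 2, .ofNat 3, .negSucc 2⟩, (.ofNat 1, .ofNat 0), (.ofNat 2, .negSucc 0), (.negSucc 2, .negSucc 0)⟩ ::
 ⟨⟨.ofNat 0, .ofNat 1, .ofNat 2, .ofNat 2, .ofNat 1, .negSucc 2⟩, (.ofNat 1, .ofNat 0), (.ofNat 2, .negSucc 0), (.negSucc 2, .ofNat 0)⟩ ::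
 ⟨⟨.ofNat 0, .ofNat 1, .ofNat 2, .ofNat 2, .negSucc 0, .negSucc 2⟩, (.ofNat 1, .negSucc 0), (.ofNat 0, .negSucc 1), (.ofNat 0, .ofNat 2)⟩ ::
 ⟨⟨.ofNat 0, .ofNat 1, .ofNat 2, .ofNat 2, .negSucc 2, .negSucc 2⟩, (.ofNat 1, .negSucc 0), (.ofNat 0, .negSucc 1), (.ofNat 2, .ofNat 3)⟩ ::
 ⟨⟨.ofNat 0, .ofNat 2, .ofNat 0, .negSucc 1, .ofNat 5, .negSucc 0⟩, (.negSucc 0, .negSucc 0), (.ofNat 2, .ofNat 1), (.negSucc 0, .ofNat 2)⟩ ::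
 ⟨⟨.ofNat 0, .ofNat 2, .ofNat 0, .negSucc 1, .ofNat 3, .negSucc 0⟩, (.ofNat 1, .negSucc 0), (.ofNat 0, .ofNat 1), (.negSucc 0, .ofNat 0)⟩ ::
 ⟨⟨.ofNat 0, .ofNat 2, .ofNat 0, .negSucc 1, .ofNat 1, .negSucc 0⟩, (.negSucc 0, .negSucc 0), (.ofNat 0, .ofNat 1), (.negSucc 0, .ofNat 1)⟩ ::
 ⟨⟨.ofNat 0, .ofNat 2, .ofNat 0, .negSucc 1, .negSucc 0, .negSucc 0⟩, (.ofNat 1, .negSucc 0), (.ofNat 0, .ofNat 1), (.ofNat 1, .ofNat 1)⟩ ::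
 ⟨⟨.ofNat 0, .ofNat 2, .ofNat 0, .negSucc 1, .negSucc 2, .negSucc 0⟩, (.negSucc 0, .negSucc 0), (.ofNat 0, .ofNat 1), (.ofNat 1, .ofNat 0)⟩ ::
 ⟨⟨.ofNat 0, .ofNat 2, .ofNat 0, .negSucc 1, .negSucc 4, .negSucc 0⟩, (.ofNat 1, .negSucc 0), (.negSucc 1, .ofNat 1), (.ofNat 1, .ofNat 2)⟩ ::
 ⟨⟨.ofNat 0, .ofNat 2, .ofNat 0, .ofNat 0, .ofNat 5, .ofNat 0⟩, (.ofNat 1, .ofNat 0), (.ofNat 0, .ofNat 0), (.ofNat 0, .negSucc 0)⟩ ::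
 ⟨⟨.ofNat 0, .ofNat 2, .ofNat 0, .ofNat 0, .ofNat 3, .ofNat 0⟩, (.negSucc 0, .ofNat 0), (.ofNat 0, .ofNat 0), (.ofNat 0, .ofNat 1)⟩ ::
 ⟨⟨.ofNat 0, .ofNat 2, .ofNat 0, .ofNat 0, .ofNat 1, .ofNat 0⟩, (.ofNat 1, .ofNat 0), (.ofNat 0, .ofNat 0), (.ofNat 0, .ofNat 0)⟩ ::
 ⟨⟨.ofNat 0, .ofNat 2, .ofNat 0, .ofNat 0, .negSucc 0, .ofNat 0⟩, (.negSucc 0, .ofNat 0), (.ofNat 0, .ofNat 0), (.ofNat 0, .ofNat 0)⟩ ::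
 ⟨⟨.ofNat 0, .ofNat 2, .ofNat 0, .ofNat 2, .ofNat 9, .negSucc 0⟩, (.negSucc 0, .negSucc 0), (.ofNat 0, .negSucc 0), (.negSucc 4, .ofNat 3)⟩ ::
 ⟨⟨.ofNat 0, .ofNat 2, .ofNat 0, .ofNat 2, .ofNat 7, .negSucc 0⟩, (.ofNat 1, .negSucc 0), (.ofNat 0, .negSucc 0), (.negSucc 2, .negSucc 0)⟩ ::
 ⟨⟨.ofNat 0, .ofNat 2, .ofNat 0, .ofNat 2, .ofNat 5, .negSucc 0⟩, (.negSucc 0, .negSucc 0), (.negSucc 1, .negSucc 0), (.negSucc 0, .ofNat 2)⟩ ::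
 ⟨⟨.ofNat 0, .ofNat 2, .ofNat 0, .ofNat 2, .ofNat 3, .negSucc 0⟩, (.ofNat 1, .negSucc 0), (.ofNat 2, .negSucc 0), (.negSucc 2, .ofNat 0)⟩ ::
 ⟨⟨.ofNat 0, .ofNat 2, .ofNat 0, .ofNat 2, .ofNat 1, .negSucc 0⟩, (.negSucc 0, .negSucc 0), (.ofNat 0, .negSucc 0), (.negSucc 0, .ofNat 1)⟩ ::
 ⟨⟨.ofNat 0, .ofNat 2, .ofNat 0, .ofNat 2, .negSucc 0, .negSucc 0⟩, (.ofNat 1, .negSucc 0), (.ofNat 0, .negSucc 0), (.ofNat 1, .ofNat 1)⟩ ::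
 ⟨⟨.ofNat 0, .ofNat 2, .ofNat 0, .ofNat 4, .ofNat 13, .negSucc 3⟩, (.ofNat 1, .negSucc 21), (.ofNat 4, .negSucc 46), (.negSucc 148, .ofNat 47)⟩ ::
 ⟨⟨.ofNat 0, .ofNat 2, .ofNat 0, .ofNat 4, .ofNat 11, .negSucc 3⟩, (.negSucc 0, .negSucc 3), (.negSucc 3, .negSucc 7), (.negSucc 15, .ofNat 11)⟩ ::
 ⟨⟨.ofNat 0, .ofNat 2, .ofNat 0, .ofNat 4, .ofNat 9, .negSucc 3⟩, (.ofNat 1, .ofNat 0), (.ofNat 2, .ofNat 0), (.negSucc 1, .negSucc 1)⟩ ::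
 ⟨⟨.ofNat 0, .ofNat 2, .ofNat 0, .ofNat 4, .ofNat 7, .negSucc 3⟩, (.negSucc 0, .negSucc 1), (.negSucc 1, .negSucc 2), (.negSucc 4, .ofNat 4)⟩ ::
 ⟨⟨.ofNat 0, .ofNat 2, .ofNat 0, .ofNat 4, .ofNat 5, .negSucc 3⟩, (.ofNat 1, .negSucc 5), (.ofNat 0, .negSucc 10), (.negSucc 12, .ofNat 9)⟩ ::
 ⟨⟨.ofNat 0, .ofNat 2, .ofNat 0, .ofNat 4, .ofNat 3, .negSucc 3⟩, (.negSucc 0, .negSucc 1), (.negSucc 1, .negSucc 4), (.negSucc 0, .ofNat 7)⟩ ::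
 ⟨⟨.ofNat 0, .ofNat 2, .ofNat 0, .ofNat 4, .ofNat 1, .negSucc 3⟩, (.ofNat 1, .negSucc 1), (.ofNat 2, .negSucc 2), (.negSucc 2, .ofNat 2)⟩ ::
 ⟨⟨.ofNat 0, .ofNat 2, .ofNat 0, .ofNat 4, .negSucc 0, .negSucc 3⟩, (.negSucc 0, .negSucc 1), (.negSucc 1, .negSucc 2), (.ofNat 3, .ofNat 2)⟩ ::
 ⟨⟨.ofNat 0, .ofNat 2, .ofNat 4, .negSucc 1, .ofNat 5, .negSucc 2⟩, (.negSucc 0, .negSucc 8), (.negSucc 13, .ofNat 10), (.negSucc 17, .ofNat 12)⟩ ::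
 ⟨⟨.ofNat 0, .ofNat 2, .ofNat 4, .negSucc 1, .ofNat 3, .negSucc 2⟩, (.ofNat 1, .negSucc 0), (.negSucc 3, .ofNat 0), (.negSucc 3, .ofNat 2)⟩ ::
 ⟨⟨.ofNat 0, .ofNat 2, .ofNat 4, .negSucc 1, .ofNat 1, .negSucc 2⟩, (.negSucc 0, .negSucc 0), (.ofNat 0, .ofNat 2), (.ofNat 2, .ofNat 1)⟩ ::
 ⟨⟨.ofNat 0, .ofNat 2, .ofNat 4, .negSucc 1, .negSucc 0, .negSucc 2⟩, (.ofNat 1, .negSucc 0), (.negSucc 3, .ofNat 0), (.negSucc 1, .ofNat 3)⟩ ::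
 ⟨⟨.ofNat 0, .ofNat 2, .ofNat 4, .negSucc 1, .negSucc 2, .negSucc 2⟩, (.negSucc 0, .negSucc 0), (.negSucc 1, .ofNat 2), (.ofNat 2, .ofNat 2)⟩ ::
 ⟨⟨.ofNat 0, .ofNat 2, .ofNat 4, .negSucc 1, .negSucc 4, .negSucc 2⟩, (.ofNat 1, .negSucc 0), (.negSucc 3, .ofNat 0), (.ofNat 0, .ofNat 4)⟩ ::
 ⟨⟨.ofNat 0, .ofNat 2, .ofNat 4, .negSucc 1, .negSucc 6, .negSucc 2⟩, (.negSucc 0, .negSucc 0), (.ofNat 0, .ofNat 2), (.ofNat 6, .negSucc 0)⟩ ::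
 ⟨⟨.ofNat 0, .ofNat 2, .ofNat 4, .negSucc 1, .negSucc 8, .negSucc 2⟩, (.ofNat 1, .negSucc 2), (.negSucc 5, .ofNat 1), (.ofNat 11, .ofNat 5)⟩ ::
 t

noncomputable def r1 (t : List Ent) : List Ent :=
 ⟨⟨.ofNat 0, .ofNat 2, .ofNat 4, .ofNat 0, .ofNat 5, .negSucc 1⟩, (.ofNat 1, .negSucc 1), (.negSucc 3, .ofNat 0), (.negSucc 3, .ofNat 1)⟩ ::
 ⟨⟨.ofNat 0, .ofNat 2, .ofNat 4, .ofNat 0, .ofNat 3, .negSucc 1⟩, (.negSucc 0, .ofNat 0), (.ofNat 0, .ofNat 1), (.ofNat 1, .ofNat 1)⟩ ::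
 ⟨⟨.ofNat 0, .ofNat 2, .ofNat 4, .ofNat 0, .ofNat 1, .negSucc 1⟩, (.ofNat 1, .negSucc 1), (.negSucc 3, .negSucc 1), (.negSucc 3, .ofNat 2)⟩ ::
 ⟨⟨.ofNat 0, .ofNat 2, .ofNat 4, .ofNat 0, .negSucc 0, .negSucc 1⟩, (.ofNat 3, .negSucc 1), (.negSucc 3, .negSucc 1), (.ofNat 0, .ofNat 3)⟩ ::
 ⟨⟨.ofNat 0, .ofNat 2, .ofNat 4, .ofNat 0, .negSucc 2, .negSucc 1⟩, (.ofNat 1, .ofNat 0), (.ofNat 0, .negSucc 0), (.negSucc 0, .ofNat 1)⟩ ::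
 ⟨⟨.ofNat 0, .ofNat 2, .ofNat 4, .ofNat 0, .negSucc 4, .negSucc 1⟩, (.negSucc 0, .negSucc 1), (.negSucc 3, .ofNat 0), (.ofNat 4, .ofNat 1)⟩ ::
 ⟨⟨.ofNat 0, .ofNat 2, .ofNat 4, .ofNat 2, .ofNat 9, .negSucc 2⟩, (.negSucc 0, .negSucc 2), (.negSucc 5, .negSucc 0), (.negSucc 10, .ofNat 5)⟩ ::
 ⟨⟨.ofNat 0, .ofNat 2, .ofNat 4, .ofNat 2, .ofNat 7, .negSucc 2⟩, (.ofNat 1, .negSucc 0), (.ofNat 0, .negSucc 1), (.negSucc 5, .negSucc 0)⟩ ::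
 ⟨⟨.ofNat 0, .ofNat 2, .ofNat 4, .ofNat 2, .ofNat 5, .negSucc 2⟩, (.negSucc 0, .negSucc 0), (.negSucc 3, .ofNat 0), (.ofNat 0, .ofNat 4)⟩ ::
 ⟨⟨.ofNat 0, .ofNat 2, .ofNat 4, .ofNat 2, .ofNat 3, .negSucc 2⟩, (.ofNat 1, .negSucc 0), (.negSucc 1, .negSucc 1), (.negSucc 1, .ofNat 2)⟩ ::
 ⟨⟨.ofNat 0, .ofNat 2, .ofNat 4, .ofNat 2, .ofNat 1, .negSucc 2⟩, (.negSucc 0, .negSucc 0), (.negSucc 3, .ofNat 0), (.ofNat 2, .ofNat 3)⟩ ::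
 ⟨⟨.ofNat 0, .ofNat 2, .ofNat 4, .ofNat 2, .negSucc 0, .negSucc 2⟩, (.ofNat 1, .negSucc 0), (.ofNat 0, .negSucc 1), (.negSucc 1, .ofNat 1)⟩ ::
 ⟨⟨.ofNat 0, .ofNat 2, .ofNat 4, .ofNat 2, .negSucc 2, .negSucc 2⟩, (.negSucc 0, .negSucc 0), (.negSucc 3, .ofNat 0), (.ofNat 4, .ofNat 2)⟩ ::
 ⟨⟨.ofNat 0, .ofNat 2, .ofNat 4, .ofNat 2, .negSucc 4, .negSucc 2⟩, (.ofNat 1, .negSucc 8), (.negSucc 13, .negSucc 9), (.ofNat 18, .ofNat 12)⟩ ::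
 ⟨⟨.ofNat 0, .ofNat 2, .ofNat 4, .ofNat 4, .ofNat 13, .negSucc 5⟩, (.ofNat 1, .negSucc 7), (.negSucc 13, .negSucc 14), (.negSucc 50, .ofNat 17)⟩ ::
 ⟨⟨.ofNat 0, .ofNat 2, .ofNat 4, .ofNat 4, .ofNat 11, .negSucc 5⟩, (.negSucc 0, .ofNat 0), (.negSucc 1, .ofNat 1), (.ofNat 3, .ofNat 3)⟩ ::
 ⟨⟨.ofNat 0, .ofNat 2, .ofNat 4, .ofNat 4, .ofNat 9, .negSucc 5⟩, (.ofNat 1, .negSucc 1), (.negSucc 1, .negSucc 5), (.negSucc 13, .ofNat 6)⟩ ::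
 ⟨⟨.ofNat 0, .ofNat 2, .ofNat 4, .ofNat 4, .ofNat 7, .negSucc 5⟩, (.negSucc 0, .negSucc 3), (.negSucc 7, .negSucc 6), (.negSucc 14, .ofNat 12)⟩ ::
 ⟨⟨.ofNat 0, .ofNat 2, .ofNat 4, .ofNat 4, .ofNat 5, .negSucc 5⟩, (.ofNat 1, .negSucc 5), (.negSucc 11, .negSucc 11), (.negSucc 11, .ofNat 17)⟩ ::
 ⟨⟨.ofNat 0, .ofNat 2, .ofNat 4, .ofNat 4, .ofNat 3, .negSucc 5⟩, (.negSucc 0, .ofNat 0), (.negSucc 1, .ofNat 1), (.ofNat 3, .ofNat 1)⟩ ::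
 ⟨⟨.ofNat 0, .ofNat 2, .ofNat 4, .ofNat 4, .ofNat 1, .negSucc 5⟩, (.ofNat 1, .negSucc 7), (.negSucc 13, .negSucc 14), (.negSucc 2, .ofNat 20)⟩ ::
 ⟨⟨.ofNat 0, .ofNat 2, .ofNat 4, .ofNat 4, .negSucc 0, .negSucc 5⟩, (.negSucc 0, .negSucc 5), (.negSucc 11, .negSucc 9), (.ofNat 4, .ofNat 14)⟩ ::
 ⟨⟨.ofNat 0, .ofNat 2, .ofNat 4, .ofNat 4, .negSucc 2, .negSucc 5⟩, (.ofNat 1, .ofNat 0), (.ofNat 2, .negSucc 0), (.negSucc 2, .ofNat 1)⟩ ::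
 ⟨⟨.ofNat 0, .ofNat 2, .ofNat 4, .ofNat 4, .negSucc 4, .negSucc 5⟩, (.negSucc 0, .negSucc 3), (.negSucc 11, .negSucc 6), (.ofNat 17, .ofNat 13)⟩ ::
 ⟨⟨.ofNat 0, .ofNat 3, .negSucc 1, .negSucc 1, .ofNat 7, .negSucc 0⟩, (.ofNat 3, .negSucc 0), (.negSucc 1, .ofNat 2), (.negSucc 3, .negSucc 2)⟩ ::
 ⟨⟨.ofNat 0, .ofNat 3, .negSucc 1, .negSucc 1, .ofNat 3, .negSucc 0⟩, (.negSucc 0, .negSucc 0), (.ofNat 2, .ofNat 0), (.ofNat 0, .ofNat 1)⟩ ::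
 ⟨⟨.ofNat 0, .ofNat 3, .negSucc 1, .negSucc 1, .ofNat 1, .negSucc 0⟩, (.ofNat 1, .negSucc 1), (.ofNat 0, .ofNat 1), (.negSucc 0, .ofNat 0)⟩ ::
 ⟨⟨.ofNat 0, .ofNat 3, .negSucc 1, .negSucc 1, .negSucc 2, .negSucc 0⟩, (.negSucc 0, .negSucc 0), (.ofNat 2, .ofNat 0), (.ofNat 2, .ofNat 0)⟩ ::
 ⟨⟨.ofNat 0, .ofNat 3, .negSucc 1, .ofNat 2, .ofNat 11, .negSucc 0⟩, (.ofNat 3, .negSucc 0), (.ofNat 2, .ofNat 0), (.negSucc 3, .negSucc 4)⟩ ::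
 ⟨⟨.ofNat 0, .ofNat 3, .negSucc 1, .ofNat 2, .ofNat 9, .negSucc 0⟩, (.ofNat 1, .negSucc 0), (.ofNat 2, .ofNat 0), (.negSucc 3, .negSucc 0)⟩ ::
 ⟨⟨.ofNat 0, .ofNat 3, .negSucc 1, .ofNat 2, .ofNat 5, .negSucc 0⟩, (.ofNat 3, .negSucc 0), (.ofNat 2, .ofNat 0), (.negSucc 1, .negSucc 1)⟩ ::
 ⟨⟨.ofNat 0, .ofNat 3, .negSucc 1, .ofNat 2, .ofNat 3, .negSucc 0⟩, (.ofNat 1, .negSucc 0), (.ofNat 2, .ofNat 0), (.negSucc 1, .ofNat 0)⟩ ::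
 ⟨⟨.ofNat 0, .ofNat 3, .negSucc 1, .ofNat 4, .ofNat 13, .negSucc 2⟩, (.negSucc 0, .negSucc 3), (.ofNat 0, .negSucc 4), (.negSucc 14, .ofNat 5)⟩ ::
 ⟨⟨.ofNat 0, .ofNat 3, .negSucc 1, .ofNat 4, .ofNat 11, .negSucc 2⟩, (.negSucc 2, .negSucc 0), (.negSucc 3, .negSucc 1), (.ofNat 0, .ofNat 6)⟩ ::
 ⟨⟨.ofNat 0, .ofNat 3, .negSucc 1, .ofNat 4, .ofNat 7, .negSucc 2⟩, (.negSucc 0, .negSucc 15), (.ofNat 12, .negSucc 22), (.negSucc 38, .ofNat 20)⟩ ::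
 ⟨⟨.ofNat 0, .ofNat 3, .negSucc 1, .ofNat 4, .ofNat 5, .negSucc 2⟩, (.ofNat 5, .negSucc 11), (.ofNat 12, .negSucc 14), (.negSucc 20, .ofNat 8)⟩ ::
 ⟨⟨.ofNat 0, .ofNat 3, .negSucc 1, .ofNat 4, .ofNat 1, .negSucc 2⟩, (.negSucc 0, .negSucc 0), (.ofNat 0, .negSucc 1), (.ofNat 0, .ofNat 2)⟩ ::
 ⟨⟨.ofNat 0, .ofNat 3, .ofNat 0, .ofNat 0, .ofNat 5, .ofNat 0⟩, (.negSucc 0, .ofNat 0), (.ofNat 0, .ofNat 0), (.ofNat 0, .ofNat 1)⟩ ::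
 ⟨⟨.ofNat 0, .ofNat 3, .ofNat 0, .ofNat 0, .ofNat 1, .ofNat 0⟩, (.ofNat 1, .ofNat 0), (.ofNat 0, .ofNat 0), (.ofNat 0, .ofNat 0)⟩ ::
 ⟨⟨.ofNat 0, .ofNat 3, .ofNat 2, .negSucc 1, .ofNat 5, .negSucc 0⟩, (.ofNat 3, .negSucc 0), (.negSucc 1, .ofNat 0), (.negSucc 1, .negSucc 1)⟩ ::
 ⟨⟨.ofNat 0, .ofNat 3, .ofNat 2, .negSucc 1, .ofNat 3, .negSucc 0⟩, (.ofNat 1, .negSucc 0), (.negSucc 1, .ofNat 0), (.negSucc 1, .ofNat 0)⟩ ::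
 ⟨⟨.ofNat 0, .ofNat 3, .ofNat 2, .negSucc 1, .negSucc 0, .negSucc 0⟩, (.negSucc 0, .negSucc 1), (.ofNat 0, .ofNat 1), (.ofNat 1, .ofNat 0)⟩ ::
 ⟨⟨.ofNat 0, .ofNat 3, .ofNat 2, .negSucc 1, .negSucc 2, .negSucc 0⟩, (.ofNat 1, .negSucc 0), (.negSucc 1, .ofNat 0), (.ofNat 0, .ofNat 1)⟩ ::
 ⟨⟨.ofNat 0, .ofNat 3, .ofNat 2, .ofNat 2, .ofNat 9, .negSucc 0⟩, (.negSucc 0, .negSucc 0), (.negSucc 1, .ofNat 0), (.negSucc 1, .ofNat 2)⟩ ::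
 ⟨⟨.ofNat 0, .ofNat 3, .ofNat 2, .ofNat 2, .ofNat 7, .negSucc 0⟩, (.ofNat 3, .negSucc 0), (.ofNat 2, .negSucc 1), (.negSucc 3, .negSucc 2)⟩ ::
 ⟨⟨.ofNat 0, .ofNat 3, .ofNat 2, .ofNat 2, .ofNat 3, .negSucc 0⟩, (.negSucc 0, .negSucc 0), (.negSucc 1, .ofNat 0), (.ofNat 0, .ofNat 1)⟩ ::
 ⟨⟨.ofNat 0, .ofNat 3, .ofNat 2, .ofNat 2, .ofNat 1, .negSucc 0⟩, (.ofNat 1, .negSucc 1), (.ofNat 0, .negSucc 0), (.negSucc 0, .ofNat 0)⟩ ::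
 ⟨⟨.ofNat 0, .ofNat 3, .ofNat 2, .ofNat 4, .ofNat 13, .negSucc 2⟩, (.negSucc 0, .negSucc 10), (.negSucc 9, .negSucc 15), (.negSucc 45, .ofNat 16)⟩ ::
 ⟨⟨.ofNat 0, .ofNat 3, .ofNat 2, .ofNat 4, .ofNat 11, .negSucc 2⟩, (.negSucc 2, .negSucc 1), (.negSucc 5, .negSucc 0), (.negSucc 2, .ofNat 7)⟩ ::
 ⟨⟨.ofNat 0, .ofNat 3, .ofNat 2, .ofNat 4, .ofNat 7, .negSucc 2⟩, (.ofNat 3, .negSucc 3), (.ofNat 0, .negSucc 6), (.negSucc 10, .ofNat 2)⟩ ::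
 t

noncomputable def r2 (t : List Ent) : List Ent :=
 ⟨⟨.ofNat 0, .ofNat 3, .ofNat 2, .ofNat 4, .ofNat 5, .negSucc 2⟩, (.ofNat 1, .negSucc 0), (.ofNat 0, .negSucc 1), (.negSucc 1, .ofNat 1)⟩ ::
 ⟨⟨.ofNat 0, .ofNat 3, .ofNat 2, .ofNat 4, .ofNat 1, .negSucc 2⟩, (.negSucc 0, .negSucc 1), (.negSucc 1, .negSucc 2), (.negSucc 0, .ofNat 3)⟩ ::
 ⟨⟨.ofNat 0, .ofNat 3, .ofNat 2, .ofNat 4, .negSucc 0, .negSucc 2⟩, (.negSucc 0, .negSucc 2), (.negSucc 1, .negSucc 3), (.ofNat 0, .ofNat 3)⟩ ::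
 ⟨⟨.ofNat 0, .ofNat 3, .ofNat 4, .negSucc 1, .ofNat 5, .negSucc 1⟩, (.ofNat 3, .negSucc 1), (.negSucc 3, .ofNat 0), (.negSucc 3, .negSucc 0)⟩ ::
 ⟨⟨.ofNat 0, .ofNat 3, .ofNat 4, .negSucc 1, .ofNat 3, .negSucc 1⟩, (.negSucc 0, .negSucc 2), (.negSucc 1, .ofNat 3), (.negSucc 0, .ofNat 2)⟩ ::
 ⟨⟨.ofNat 0, .ofNat 3, .ofNat 4, .negSucc 1, .negSucc 0, .negSucc 1⟩, (.negSucc 0, .negSucc 0), (.ofNat 0, .ofNat 1), (.ofNat 1, .ofNat 0)⟩ ::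
 ⟨⟨.ofNat 0, .ofNat 3, .ofNat 4, .negSucc 1, .negSucc 2, .negSucc 1⟩, (.negSucc 2, .negSucc 0), (.ofNat 0, .ofNat 3), (.ofNat 3, .ofNat 0)⟩ ::
 ⟨⟨.ofNat 0, .ofNat 3, .ofNat 4, .negSucc 1, .negSucc 6, .negSucc 1⟩, (.ofNat 1, .negSucc 2), (.negSucc 5, .ofNat 1), (.ofNat 5, .ofNat 4)⟩ ::
 ⟨⟨.ofNat 0, .ofNat 3, .ofNat 4, .ofNat 2, .ofNat 9, .negSucc 1⟩, (.ofNat 3, .negSucc 0), (.ofNat 0, .negSucc 2), (.negSucc 4, .negSucc 2)⟩ ::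
 ⟨⟨.ofNat 0, .ofNat 3, .ofNat 4, .ofNat 2, .ofNat 7, .negSucc 1⟩, (.negSucc 0, .negSucc 2), (.negSucc 5, .negSucc 0), (.negSucc 4, .ofNat 4)⟩ ::
 ⟨⟨.ofNat 0, .ofNat 3, .ofNat 4, .ofNat 2, .ofNat 3, .negSucc 1⟩, (.ofNat 3, .negSucc 0), (.ofNat 0, .negSucc 2), (.negSucc 2, .ofNat 0)⟩ ::
 ⟨⟨.ofNat 0, .ofNat 3, .ofNat 4, .ofNat 2, .ofNat 1, .negSucc 1⟩, (.ofNat 1, .negSucc 0), (.ofNat 0, .negSucc 0), (.negSucc 0, .ofNat 0)⟩ ::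
 ⟨⟨.ofNat 0, .ofNat 3, .ofNat 4, .ofNat 2, .negSucc 2, .negSucc 1⟩, (.ofNat 1, .negSucc 2), (.negSucc 1, .negSucc 2), (.ofNat 1, .ofNat 2)⟩ ::
 ⟨⟨.ofNat 0, .ofNat 3, .ofNat 4, .ofNat 4, .ofNat 13, .negSucc 3⟩, (.negSucc 0, .negSucc 11), (.negSucc 19, .negSucc 15), (.negSucc 47, .ofNat 21)⟩ ::
 ⟨⟨.ofNat 0, .ofNat 3, .ofNat 4, .ofNat 4, .ofNat 9, .negSucc 3⟩, (.ofNat 1, .negSucc 2), (.negSucc 3, .negSucc 4), (.negSucc 8, .ofNat 4)⟩ ::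
 ⟨⟨.ofNat 0, .ofNat 3, .ofNat 4, .ofNat 4, .ofNat 7, .negSucc 3⟩, (.negSucc 0, .negSucc 2), (.negSucc 3, .negSucc 2), (.negSucc 6, .ofNat 4)⟩ ::
 ⟨⟨.ofNat 0, .ofNat 3, .ofNat 4, .ofNat 4, .ofNat 3, .negSucc 3⟩, (.ofNat 3, .negSucc 1), (.ofNat 2, .negSucc 3), (.negSucc 5, .ofNat 0)⟩ ::
 ⟨⟨.ofNat 0, .ofNat 3, .ofNat 4, .ofNat 4, .ofNat 1, .negSucc 3⟩, (.ofNat 1, .negSucc 1), (.negSucc 1, .negSucc 3), (.negSucc 1, .ofNat 4)⟩ ::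
 ⟨⟨.ofNat 0, .ofNat 3, .ofNat 4, .ofNat 4, .negSucc 2, .negSucc 3⟩, (.ofNat 3, .negSucc 1), (.ofNat 2, .negSucc 3), (.negSucc 1, .ofNat 3)⟩ ::
 ⟨⟨.ofNat 0, .ofNat 3, .ofNat 6, .ofNat 0, .ofNat 5, .negSucc 2⟩, (.ofNat 5, .negSucc 17), (.negSucc 37, .negSucc 2), (.negSucc 30, .ofNat 16)⟩ ::
 ⟨⟨.ofNat 0, .ofNat 3, .ofNat 6, .ofNat 0, .ofNat 1, .negSucc 2⟩, (.ofNat 1, .negSucc 5), (.negSucc 9, .negSucc 0), (.negSucc 2, .ofNat 4)⟩ ::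
 ⟨⟨.ofNat 0, .ofNat 3, .ofNat 6, .ofNat 0, .negSucc 0, .negSucc 2⟩, (.negSucc 0, .negSucc 5), (.negSucc 9, .ofNat 1), (.ofNat 3, .ofNat 4)⟩ ::
 ⟨⟨.ofNat 0, .ofNat 3, .ofNat 6, .ofNat 0, .negSucc 4, .negSucc 2⟩, (.negSucc 4, .negSucc 17), (.negSucc 37, .ofNat 3), (.ofNat 31, .ofNat 16)⟩ ::
 ⟨⟨.ofNat 0, .ofNat 3, .ofNat 8, .negSucc 1, .ofNat 5, .negSucc 5⟩, (.ofNat 3, .negSucc 10), (.negSucc 33, .ofNat 3), (.negSucc 26, .ofNat 23)⟩ ::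
 ⟨⟨.ofNat 0, .ofNat 3, .ofNat 8, .negSucc 1, .ofNat 1, .negSucc 5⟩, (.negSucc 2, .negSucc 3), (.negSucc 9, .ofNat 6), (.ofNat 2, .ofNat 10)⟩ ::
 ⟨⟨.ofNat 0, .ofNat 3, .ofNat 8, .negSucc 1, .negSucc 0, .negSucc 5⟩, (.negSucc 0, .negSucc 5), (.negSucc 15, .ofNat 4), (.ofNat 0, .ofNat 12)⟩ ::
 ⟨⟨.ofNat 0, .ofNat 3, .ofNat 8, .negSucc 1, .negSucc 4, .negSucc 5⟩, (.negSucc 4, .negSucc 17), (.negSucc 47, .ofNat 18), (.ofNat 36, .ofNat 36)⟩ ::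
 ⟨⟨.ofNat 0, .ofNat 3, .ofNat 8, .negSucc 1, .negSucc 6, .negSucc 5⟩, (.ofNat 1, .negSucc 18), (.negSucc 53, .ofNat 13), (.ofNat 45, .ofNat 44)⟩ ::
 ⟨⟨.ofNat 0, .ofNat 3, .ofNat 8, .negSucc 1, .negSucc 10, .negSucc 5⟩, (.ofNat 3, .negSucc 0), (.negSucc 3, .negSucc 2), (.negSucc 0, .ofNat 7)⟩ ::
 ⟨⟨.ofNat 0, .ofNat 3, .ofNat 8, .ofNat 2, .ofNat 7, .negSucc 5⟩, (.negSucc 0, .negSucc 18), (.negSucc 53, .negSucc 12), (.negSucc 44, .ofNat 44)⟩ ::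
 ⟨⟨.ofNat 0, .ofNat 3, .ofNat 8, .ofNat 2, .ofNat 5, .negSucc 5⟩, (.ofNat 5, .negSucc 17), (.negSucc 47, .negSucc 17), (.negSucc 35, .ofNat 36)⟩ ::
 ⟨⟨.ofNat 0, .ofNat 3, .ofNat 8, .ofNat 2, .ofNat 1, .negSucc 5⟩, (.ofNat 1, .negSucc 5), (.negSucc 15, .negSucc 3), (.ofNat 0, .ofNat 12)⟩ ::
 ⟨⟨.ofNat 0, .ofNat 3, .ofNat 8, .ofNat 2, .negSucc 0, .negSucc 5⟩, (.ofNat 3, .negSucc 3), (.negSucc 9, .negSucc 5), (.negSucc 1, .ofNat 10)⟩ ::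
 ⟨⟨.ofNat 0, .ofNat 3, .ofNat 8, .ofNat 2, .negSucc 4, .negSucc 5⟩, (.negSucc 2, .negSucc 10), (.negSucc 33, .negSucc 2), (.ofNat 27, .ofNat 23)⟩ ::
 ⟨⟨.ofNat 0, .ofNat 3, .ofNat 8, .ofNat 2, .negSucc 6, .negSucc 5⟩, (.ofNat 1, .negSucc 10), (.negSucc 25, .negSucc 8), (.ofNat 21, .ofNat 20)⟩ ::
 ⟨⟨.ofNat 0, .ofNat 3, .ofNat 8, .ofNat 4, .ofNat 13, .negSucc 7⟩, (.ofNat 3, .negSucc 1), (.negSucc 1, .negSucc 5), (.negSucc 13, .negSucc 0)⟩ ::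
 ⟨⟨.ofNat 0, .ofNat 3, .ofNat 8, .ofNat 4, .ofNat 9, .negSucc 7⟩, (.ofNat 1, .negSucc 2), (.negSucc 7, .negSucc 4), (.negSucc 8, .ofNat 8)⟩ ::
 ⟨⟨.ofNat 0, .ofNat 3, .ofNat 8, .ofNat 4, .ofNat 7, .negSucc 7⟩, (.negSucc 0, .negSucc 2), (.negSucc 7, .negSucc 2), (.negSucc 6, .ofNat 8)⟩ ::
 ⟨⟨.ofNat 0, .ofNat 3, .ofNat 8, .ofNat 4, .ofNat 3, .negSucc 7⟩, (.ofNat 3, .negSucc 24), (.negSucc 65, .negSucc 38), (.negSucc 32, .ofNat 72)⟩ ::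
 ⟨⟨.ofNat 0, .ofNat 3, .ofNat 8, .ofNat 4, .ofNat 1, .negSucc 7⟩, (.ofNat 1, .negSucc 0), (.negSucc 1, .negSucc 2), (.negSucc 2, .ofNat 4)⟩ ::
 ⟨⟨.ofNat 0, .ofNat 3, .ofNat 8, .ofNat 4, .negSucc 2, .negSucc 7⟩, (.ofNat 1, .negSucc 17), (.negSucc 49, .negSucc 25), (.ofNat 18, .ofNat 54)⟩ ::
 ⟨⟨.ofNat 0, .ofNat 3, .ofNat 8, .ofNat 4, .negSucc 4, .negSucc 7⟩, (.ofNat 1, .negSucc 0), (.negSucc 1, .negSucc 2), (.negSucc 0, .ofNat 5)⟩ ::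
 ⟨⟨.ofNat 1, .negSucc 2, .negSucc 9, .negSucc 0, .negSucc 8, .ofNat 7⟩, (.ofNat 1, .ofNat 10), (.ofNat 32, .negSucc 1), (.ofNat 24, .negSucc 26)⟩ ::
 ⟨⟨.ofNat 1, .negSucc 2, .negSucc 9, .negSucc 0, .negSucc 2, .ofNat 8⟩, (.ofNat 1, .ofNat 10), (.ofNat 32, .negSucc 1), (.ofNat 4, .negSucc 25)⟩ ::
 ⟨⟨.ofNat 1, .negSucc 2, .negSucc 9, .negSucc 0, .ofNat 3, .ofNat 9⟩, (.ofNat 1, .ofNat 10), (.ofNat 32, .negSucc 1), (.negSucc 15, .negSucc 24)⟩ ::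
 ⟨⟨.ofNat 1, .negSucc 2, .negSucc 9, .negSucc 0, .ofNat 9, .ofNat 10⟩, (.negSucc 2, .ofNat 1), (.ofNat 4, .ofNat 4), (.ofNat 2, .negSucc 8)⟩ ::
 ⟨⟨.ofNat 1, .negSucc 2, .negSucc 7, .negSucc 4, .negSucc 14, .ofNat 7⟩, (.negSucc 20, .ofNat 61), (.ofNat 168, .ofNat 104), (.ofNat 304, .negSucc 151)⟩ ::
 ⟨⟨.ofNat 1, .negSucc 2, .negSucc 7, .negSucc 4, .negSucc 8, .ofNat 8⟩, (.ofNat 0, .ofNat 3), (.ofNat 8, .ofNat 4), (.ofNat 9, .negSucc 7)⟩ ::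
 ⟨⟨.ofNat 1, .negSucc 2, .negSucc 7, .negSucc 4, .negSucc 2, .ofNat 9⟩, (.ofNat 1, .ofNat 7), (.ofNat 22, .ofNat 8), (.ofNat 2, .negSucc 21)⟩ ::
 ⟨⟨.ofNat 1, .negSucc 2, .negSucc 7, .negSucc 4, .ofNat 3, .ofNat 10⟩, (.negSucc 4, .ofNat 21), (.ofNat 56, .ofNat 34), (.negSucc 17, .negSucc 66)⟩ ::
 t

noncomputable def r3 (t : List Ent) : List Ent :=
 ⟨⟨.ofNat 1, .negSucc 2, .negSucc 7, .negSucc 3, .negSucc 11, .ofNat 6⟩, (.ofNat 2, .ofNat 1), (.ofNat 4, .negSucc 1), (.negSucc 0, .negSucc 4)⟩ ::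
 ⟨⟨.ofNat 1, .negSucc 2, .negSucc 7, .negSucc 3, .negSucc 5, .ofNat 7⟩, (.negSucc 2, .ofNat 5), (.ofNat 14, .ofNat 9), (.ofNat 13, .negSucc 13)⟩ ::
 ⟨⟨.ofNat 1, .negSucc 2, .negSucc 7, .negSucc 3, .ofNat 0, .ofNat 8⟩, (.negSucc 2, .ofNat 4), (.ofNat 8, .ofNat 7), (.ofNat 3, .negSucc 8)⟩ ::
 ⟨⟨.ofNat 1, .negSucc 2, .negSucc 7, .negSucc 3, .ofNat 6, .ofNat 9⟩, (.ofNat 2, .ofNat 1), (.ofNat 4, .negSucc 1), (.negSucc 6, .ofNat 1)⟩ ::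
 ⟨⟨.ofNat 1, .negSucc 2, .negSucc 7, .negSucc 2, .negSucc 10, .ofNat 5⟩, (.ofNat 0, .ofNat 6), (.ofNat 16, .ofNat 2), (.ofNat 15, .negSucc 10)⟩ ::
 ⟨⟨.ofNat 1, .negSucc 2, .negSucc 7, .negSucc 2, .negSucc 4, .ofNat 6⟩, (.ofNat 0, .ofNat 6), (.ofNat 16, .ofNat 2), (.ofNat 3, .negSucc 10)⟩ ::
 ⟨⟨.ofNat 1, .negSucc 2, .negSucc 7, .negSucc 2, .ofNat 1, .ofNat 7⟩, (.negSucc 2, .ofNat 5), (.ofNat 14, .ofNat 6), (.negSucc 1, .negSucc 13)⟩ ::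
 ⟨⟨.ofNat 1, .negSucc 2, .negSucc 7, .negSucc 2, .ofNat 7, .ofNat 8⟩, (.negSucc 5, .ofNat 10), (.ofNat 26, .ofNat 12), (.negSucc 22, .negSucc 30)⟩ ::
 ⟨⟨.ofNat 1, .negSucc 2, .negSucc 7, .negSucc 1, .negSucc 5, .ofNat 5⟩, (.negSucc 1, .ofNat 8), (.ofNat 22, .ofNat 6), (.ofNat 19, .negSucc 14)⟩ ::
 ⟨⟨.ofNat 1, .negSucc 2, .negSucc 7, .negSucc 1, .ofNat 0, .ofNat 6⟩, (.ofNat 0, .ofNat 1), (.ofNat 2, .ofNat 0), (.negSucc 0, .negSucc 0)⟩ ::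
 ⟨⟨.ofNat 1, .negSucc 2, .negSucc 7, .negSucc 1, .ofNat 6, .ofNat 7⟩, (.negSucc 2, .ofNat 21), (.ofNat 58, .ofNat 11), (.negSucc 42, .negSucc 45)⟩ ::
 ⟨⟨.ofNat 1, .negSucc 2, .negSucc 7, .negSucc 0, .negSucc 2, .ofNat 5⟩, (.ofNat 1, .ofNat 2), (.ofNat 6, .negSucc 1), (.negSucc 1, .negSucc 4)⟩ ::
 ⟨⟨.ofNat 1, .negSucc 2, .negSucc 7, .negSucc 0, .ofNat 3, .ofNat 6⟩, (.ofNat 1, .ofNat 2), (.ofNat 6, .negSucc 1), (.negSucc 5, .negSucc 3)⟩ ::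
 ⟨⟨.ofNat 1, .negSucc 2, .negSucc 7, .ofNat 0, .negSucc 7, .ofNat 4⟩, (.ofNat 1, .ofNat 3), (.ofNat 6, .negSucc 2), (.ofNat 3, .negSucc 4)⟩ ::
 ⟨⟨.ofNat 1, .negSucc 2, .negSucc 7, .ofNat 0, .negSucc 1, .ofNat 5⟩, (.negSucc 3, .ofNat 2), (.ofNat 8, .ofNat 4), (.ofNat 7, .negSucc 4)⟩ ::
 ⟨⟨.ofNat 1, .negSucc 2, .negSucc 7, .ofNat 0, .ofNat 4, .ofNat 6⟩, (.ofNat 1, .ofNat 3), (.ofNat 6, .negSucc 2), (.negSucc 8, .negSucc 2)⟩ ::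
 ⟨⟨.ofNat 1, .negSucc 2, .negSucc 7, .ofNat 1, .negSucc 2, .ofNat 5⟩, (.ofNat 0, .ofNat 2), (.ofNat 4, .negSucc 1), (.negSucc 0, .negSucc 2)⟩ ::
 ⟨⟨.ofNat 1, .negSucc 2, .negSucc 7, .ofNat 1, .ofNat 3, .ofNat 6⟩, (.negSucc 0, .ofNat 4), (.ofNat 12, .negSucc 1), (.negSucc 3, .negSucc 9)⟩ ::
 ⟨⟨.ofNat 1, .negSucc 2, .negSucc 7, .ofNat 1, .ofNat 9, .ofNat 7⟩, (.negSucc 2, .ofNat 0), (.ofNat 2, .ofNat 4), (.ofNat 6, .negSucc 4)⟩ ::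
 ⟨⟨.ofNat 1, .negSucc 2, .negSucc 5, .negSucc 5, .negSucc 17, .ofNat 6⟩, (.negSucc 3, .ofNat 2), (.ofNat 0, .ofNat 8), (.ofNat 19, .ofNat 3)⟩ ::
 ⟨⟨.ofNat 1, .negSucc 2, .negSucc 5, .negSucc 5, .negSucc 11, .ofNat 7⟩, (.negSucc 3, .ofNat 2), (.ofNat 0, .ofNat 8), (.ofNat 15, .negSucc 0)⟩ ::
 ⟨⟨.ofNat 1, .negSucc 2, .negSucc 5, .negSucc 5, .negSucc 5, .ofNat 8⟩, (.ofNat 0, .ofNat 1), (.ofNat 2, .ofNat 2), (.ofNat 3, .negSucc 2)⟩ ::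
 ⟨⟨.ofNat 1, .negSucc 2, .negSucc 5, .negSucc 5, .ofNat 0, .ofNat 9⟩, (.ofNat 1, .ofNat 3), (.ofNat 8, .ofNat 3), (.negSucc 4, .negSucc 5)⟩ ::
 ⟨⟨.ofNat 1, .negSucc 2, .negSucc 5, .negSucc 4, .negSucc 12, .ofNat 5⟩, (.negSucc 4, .ofNat 18), (.ofNat 34, .ofNat 28), (.ofNat 78, .negSucc 26)⟩ ::
 ⟨⟨.ofNat 1, .negSucc 2, .negSucc 5, .negSucc 4, .negSucc 6, .ofNat 6⟩, (.negSucc 2, .ofNat 9), (.ofNat 16, .ofNat 16), (.ofNat 26, .negSucc 16)⟩ ::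
 ⟨⟨.ofNat 1, .negSucc 2, .negSucc 5, .negSucc 4, .negSucc 0, .ofNat 7⟩, (.negSucc 0, .ofNat 4), (.ofNat 10, .ofNat 6), (.negSucc 1, .negSucc 10)⟩ ::
 ⟨⟨.ofNat 1, .negSucc 2, .negSucc 5, .negSucc 4, .ofNat 5, .ofNat 8⟩, (.negSucc 0, .ofNat 4), (.ofNat 10, .ofNat 6), (.negSucc 9, .negSucc 11)⟩ ::
 ⟨⟨.ofNat 1, .negSucc 2, .negSucc 5, .negSucc 3, .negSucc 9, .ofNat 4⟩, (.negSucc 2, .ofNat 1), (.ofNat 0, .ofNat 5), (.ofNat 9, .ofNat 1)⟩ ::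
 ⟨⟨.ofNat 1, .negSucc 2, .negSucc 5, .negSucc 3, .negSucc 3, .ofNat 5⟩, (.negSucc 2, .ofNat 1), (.ofNat 0, .ofNat 5), (.ofNat 7, .negSucc 1)⟩ ::
 ⟨⟨.ofNat 1, .negSucc 2, .negSucc 5, .negSucc 3, .ofNat 2, .ofNat 6⟩, (.negSucc 0, .ofNat 11), (.ofNat 22, .ofNat 11), (.negSucc 10, .negSucc 16)⟩ ::
 ⟨⟨.ofNat 1, .negSucc 2, .negSucc 5, .negSucc 2, .negSucc 8, .ofNat 3⟩, (.ofNat 1, .ofNat 2), (.ofNat 4, .ofNat 0), (.ofNat 4, .negSucc 2)⟩ ::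
 ⟨⟨.ofNat 1, .negSucc 2, .negSucc 5, .negSucc 2, .negSucc 2, .ofNat 4⟩, (.ofNat 1, .ofNat 3), (.ofNat 8, .ofNat 0), (.negSucc 1, .negSucc 4)⟩ ::
 ⟨⟨.ofNat 1, .negSucc 2, .negSucc 5, .negSucc 2, .ofNat 3, .ofNat 5⟩, (.ofNat 1, .ofNat 2), (.ofNat 4, .ofNat 0), (.negSucc 3, .negSucc 0)⟩ ::
 ⟨⟨.ofNat 1, .negSucc 2, .negSucc 5, .negSucc 1, .negSucc 3, .ofNat 3⟩, (.negSucc 0, .ofNat 0), (.ofNat 0, .ofNat 1), (.ofNat 1, .ofNat 0)⟩ ::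
 ⟨⟨.ofNat 1, .negSucc 2, .negSucc 5, .negSucc 1, .ofNat 2, .ofNat 4⟩, (.negSucc 2, .ofNat 4), (.ofNat 6, .ofNat 5), (.ofNat 1, .negSucc 4)⟩ ::
 ⟨⟨.ofNat 1, .negSucc 2, .negSucc 5, .ofNat 0, .negSucc 5, .ofNat 2⟩, (.negSucc 2, .ofNat 4), (.ofNat 10, .ofNat 1), (.ofNat 9, .negSucc 2)⟩ ::
 ⟨⟨.ofNat 1, .negSucc 2, .negSucc 5, .ofNat 0, .ofNat 0, .ofNat 3⟩, (.ofNat 0, .ofNat 3), (.ofNat 6, .ofNat 0), (.ofNat 1, .negSucc 2)⟩ ::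
 ⟨⟨.ofNat 1, .negSucc 2, .negSucc 5, .ofNat 0, .ofNat 6, .ofNat 4⟩, (.negSucc 2, .ofNat 4), (.ofNat 10, .ofNat 1), (.negSucc 6, .negSucc 8)⟩ ::
 ⟨⟨.ofNat 1, .negSucc 2, .negSucc 5, .ofNat 1, .negSucc 6, .ofNat 2⟩, (.negSucc 7, .ofNat 20), (.ofNat 40, .negSucc 7), (.ofNat 43, .negSucc 12)⟩ ::
 ⟨⟨.ofNat 1, .negSucc 2, .negSucc 5, .ofNat 1, .negSucc 0, .ofNat 3⟩, (.ofNat 1, .ofNat 2), (.ofNat 4, .negSucc 1), (.ofNat 0, .negSucc 2)⟩ ::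
 ⟨⟨.ofNat 1, .negSucc 2, .negSucc 5, .ofNat 1, .ofNat 5, .ofNat 4⟩, (.ofNat 1, .ofNat 3), (.ofNat 4, .negSucc 1), (.negSucc 5, .negSucc 0)⟩ ::
 ⟨⟨.ofNat 1, .negSucc 2, .negSucc 3, .negSucc 5, .negSucc 13, .ofNat 5⟩, (.ofNat 2, .ofNat 4), (.ofNat 10, .ofNat 4), (.ofNat 11, .negSucc 10)⟩ ::
 ⟨⟨.ofNat 1, .negSucc 2, .negSucc 3, .negSucc 5, .negSucc 7, .ofNat 6⟩, (.ofNat 2, .ofNat 4), (.ofNat 10, .ofNat 4), (.ofNat 3, .negSucc 8)⟩ ::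
 ⟨⟨.ofNat 1, .negSucc 2, .negSucc 3, .negSucc 5, .negSucc 1, .ofNat 7⟩, (.negSucc 2, .ofNat 4), (.ofNat 4, .ofNat 9), (.ofNat 3, .negSucc 9)⟩ ::
 ⟨⟨.ofNat 1, .negSucc 2, .negSucc 3, .negSucc 5, .ofNat 4, .ofNat 8⟩, (.ofNat 0, .ofNat 3), (.ofNat 6, .ofNat 6), (.negSucc 4, .negSucc 8)⟩ ::
 ⟨⟨.ofNat 1, .negSucc 2, .negSucc 3, .negSucc 4, .negSucc 14, .ofNat 3⟩, (.ofNat 1, .ofNat 2), (.ofNat 6, .ofNat 2), (.ofNat 6, .negSucc 6)⟩ ::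
 ⟨⟨.ofNat 1, .negSucc 2, .negSucc 3, .negSucc 4, .negSucc 8, .ofNat 4⟩, (.ofNat 0, .ofNat 3), (.ofNat 4, .ofNat 4), (.ofNat 9, .negSucc 3)⟩ ::
 ⟨⟨.ofNat 1, .negSucc 2, .negSucc 3, .negSucc 4, .negSucc 2, .ofNat 5⟩, (.ofNat 0, .ofNat 3), (.ofNat 4, .ofNat 4), (.ofNat 3, .negSucc 3)⟩ ::
 ⟨⟨.ofNat 1, .negSucc 2, .negSucc 3, .negSucc 4, .ofNat 3, .ofNat 6⟩, (.negSucc 2, .ofNat 9), (.ofNat 10, .ofNat 14), (.negSucc 7, .negSucc 14)⟩ ::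
 ⟨⟨.ofNat 1, .negSucc 2, .negSucc 3, .negSucc 3, .negSucc 11, .ofNat 2⟩, (.negSucc 2, .ofNat 5), (.ofNat 6, .ofNat 9), (.ofNat 23, .negSucc 2)⟩ ::
 t

noncomputable def r4 (t : List Ent) : List Ent :=
 ⟨⟨.ofNat 1, .negSucc 2, .negSucc 3, .negSucc 3, .negSucc 5, .ofNat 3⟩, (.negSucc 1, .ofNat 0), (.negSucc 1, .ofNat 2), (.ofNat 3, .ofNat 1)⟩ ::
 ⟨⟨.ofNat 1, .negSucc 2, .negSucc 3, .negSucc 3, .ofNat 0, .ofNat 4⟩, (.negSucc 2, .ofNat 1), (.negSucc 1, .ofNat 3), (.ofNat 3, .negSucc 0)⟩ ::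
 ⟨⟨.ofNat 1, .negSucc 2, .negSucc 3, .negSucc 2, .negSucc 10, .ofNat 1⟩, (.negSucc 2, .ofNat 0), (.negSucc 1, .ofNat 2), (.ofNat 2, .ofNat 5)⟩ ::
 ⟨⟨.ofNat 1, .negSucc 2, .negSucc 3, .negSucc 2, .negSucc 4, .ofNat 2⟩, (.ofNat 0, .ofNat 2), (.ofNat 4, .ofNat 2), (.ofNat 3, .negSucc 2)⟩ ::
 ⟨⟨.ofNat 1, .negSucc 2, .negSucc 3, .negSucc 2, .ofNat 1, .ofNat 3⟩, (.ofNat 0, .ofNat 2), (.ofNat 4, .ofNat 2), (.negSucc 0, .negSucc 2)⟩ ::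
 ⟨⟨.ofNat 1, .negSucc 2, .negSucc 3, .negSucc 1, .negSucc 5, .ofNat 1⟩, (.ofNat 0, .ofNat 1), (.ofNat 2, .ofNat 0), (.ofNat 1, .negSucc 0)⟩ ::
 ⟨⟨.ofNat 1, .negSucc 2, .negSucc 3, .negSucc 1, .ofNat 0, .ofNat 2⟩, (.ofNat 1, .ofNat 3), (.ofNat 6, .ofNat 1), (.negSucc 0, .negSucc 2)⟩ ::
 ⟨⟨.ofNat 1, .negSucc 2, .negSucc 3, .negSucc 0, .negSucc 2, .ofNat 1⟩, (.ofNat 1, .ofNat 2), (.ofNat 2, .ofNat 0), (.ofNat 2, .negSucc 0)⟩ ::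
 ⟨⟨.ofNat 1, .negSucc 2, .negSucc 3, .negSucc 0, .ofNat 3, .ofNat 2⟩, (.ofNat 1, .ofNat 2), (.ofNat 2, .ofNat 0), (.negSucc 1, .ofNat 0)⟩ ::
 ⟨⟨.ofNat 1, .negSucc 2, .negSucc 3, .ofNat 0, .negSucc 1, .ofNat 1⟩, (.negSucc 2, .ofNat 1), (.ofNat 2, .ofNat 1), (.ofNat 1, .ofNat 0)⟩ ::
 ⟨⟨.ofNat 1, .negSucc 2, .negSucc 3, .ofNat 0, .ofNat 4, .ofNat 2⟩, (.negSucc 2, .ofNat 1), (.ofNat 2, .ofNat 1), (.negSucc 0, .negSucc 2)⟩ ::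
 ⟨⟨.ofNat 1, .negSucc 2, .negSucc 3, .ofNat 1, .negSucc 2, .ofNat 1⟩, (.negSucc 1, .ofNat 1), (.ofNat 2, .ofNat 0), (.ofNat 1, .ofNat 0)⟩ ::
 ⟨⟨.ofNat 1, .negSucc 2, .negSucc 3, .ofNat 1, .ofNat 3, .ofNat 2⟩, (.ofNat 3, .ofNat 1), (.ofNat 0, .negSucc 1), (.negSucc 1, .ofNat 1)⟩ ::
 ⟨⟨.ofNat 1, .negSucc 2, .negSucc 1, .negSucc 4, .negSucc 14, .ofNat 2⟩, (.negSucc 1, .ofNat 6), (.ofNat 2, .ofNat 10), (.ofNat 33, .negSucc 2)⟩ ::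
 ⟨⟨.ofNat 1, .negSucc 2, .negSucc 1, .negSucc 4, .negSucc 8, .ofNat 3⟩, (.negSucc 0, .ofNat 8), (.ofNat 10, .ofNat 12), (.ofNat 18, .negSucc 10)⟩ ::
 ⟨⟨.ofNat 1, .negSucc 2, .negSucc 1, .negSucc 4, .negSucc 2, .ofNat 4⟩, (.negSucc 2, .ofNat 0), (.negSucc 3, .ofNat 2), (.ofNat 4, .ofNat 0)⟩ ::
 ⟨⟨.ofNat 1, .negSucc 2, .negSucc 1, .negSucc 3, .negSucc 11, .ofNat 1⟩, (.negSucc 0, .ofNat 3), (.ofNat 2, .ofNat 3), (.ofNat 11, .ofNat 0)⟩ ::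
 ⟨⟨.ofNat 1, .negSucc 2, .negSucc 1, .negSucc 3, .negSucc 5, .ofNat 2⟩, (.ofNat 0, .ofNat 3), (.ofNat 2, .ofNat 4), (.ofNat 7, .negSucc 2)⟩ ::
 ⟨⟨.ofNat 1, .negSucc 2, .negSucc 1, .negSucc 3, .ofNat 0, .ofNat 3⟩, (.ofNat 0, .ofNat 3), (.ofNat 2, .ofNat 4), (.ofNat 1, .negSucc 2)⟩ ::
 ⟨⟨.ofNat 1, .negSucc 2, .negSucc 1, .negSucc 2, .negSucc 10, .ofNat 0⟩, (.ofNat 2, .ofNat 1), (.ofNat 2, .ofNat 0), (.ofNat 3, .negSucc 3)⟩ ::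
 ⟨⟨.ofNat 1, .negSucc 2, .negSucc 1, .negSucc 2, .negSucc 4, .ofNat 1⟩, (.ofNat 0, .ofNat 3), (.ofNat 4, .ofNat 2), (.ofNat 3, .negSucc 1)⟩ ::
 ⟨⟨.ofNat 1, .negSucc 2, .negSucc 1, .negSucc 2, .ofNat 1, .ofNat 2⟩, (.ofNat 2, .ofNat 1), (.ofNat 2, .ofNat 0), (.negSucc 0, .ofNat 0)⟩ ::
 ⟨⟨.ofNat 1, .negSucc 2, .negSucc 1, .negSucc 1, .negSucc 5, .ofNat 0⟩, (.negSucc 1, .ofNat 1), (.ofNat 0, .ofNat 2), (.ofNat 3, .ofNat 1)⟩ ::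
 ⟨⟨.ofNat 1, .negSucc 2, .negSucc 1, .negSucc 1, .ofNat 0, .ofNat 1⟩, (.negSucc 2, .ofNat 5), (.ofNat 4, .ofNat 3), (.negSucc 0, .negSucc 1)⟩ ::
 ⟨⟨.ofNat 1, .negSucc 2, .negSucc 1, .negSucc 0, .negSucc 2, .ofNat 0⟩, (.ofNat 0, .ofNat 1), (.ofNat 0, .ofNat 0), (.ofNat 1, .ofNat 0)⟩ ::
 ⟨⟨.ofNat 1, .negSucc 2, .negSucc 1, .ofNat 0, .negSucc 1, .ofNat 0⟩, (.negSucc 2, .ofNat 1), (.ofNat 0, .ofNat 1), (.ofNat 1, .ofNat 1)⟩ ::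
 ⟨⟨.ofNat 1, .negSucc 2, .negSucc 1, .ofNat 1, .negSucc 2, .ofNat 0⟩, (.ofNat 0, .ofNat 1), (.ofNat 0, .ofNat 0), (.ofNat 1, .ofNat 0)⟩ ::
 ⟨⟨.ofNat 1, .negSucc 2, .negSucc 1, .ofNat 1, .ofNat 3, .ofNat 1⟩, (.ofNat 1, .ofNat 3), (.ofNat 0, .negSucc 1), (.negSucc 3, .ofNat 0)⟩ ::
 ⟨⟨.ofNat 1, .negSucc 2, .negSucc 1, .ofNat 2, .negSucc 5, .ofNat 0⟩, (.ofNat 0, .ofNat 2), (.ofNat 0, .negSucc 1), (.ofNat 3, .negSucc 0)⟩ ::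
 ⟨⟨.ofNat 1, .negSucc 2, .negSucc 1, .ofNat 2, .ofNat 0, .ofNat 1⟩, (.negSucc 0, .ofNat 4), (.ofNat 4, .negSucc 2), (.ofNat 1, .negSucc 1)⟩ ::
 ⟨⟨.ofNat 1, .negSucc 2, .negSucc 1, .ofNat 2, .ofNat 6, .ofNat 2⟩, (.negSucc 2, .ofNat 0), (.ofNat 2, .ofNat 1), (.ofNat 1, .negSucc 2)⟩ ::
 ⟨⟨.ofNat 1, .negSucc 2, .ofNat 0, .negSucc 4, .negSucc 12, .ofNat 2⟩, (.ofNat 0, .ofNat 1), (.ofNat 0, .ofNat 2), (.ofNat 5, .negSucc 1)⟩ ::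
 ⟨⟨.ofNat 1, .negSucc 2, .ofNat 0, .negSucc 4, .negSucc 6, .ofNat 3⟩, (.ofNat 0, .ofNat 1), (.ofNat 0, .ofNat 2), (.ofNat 3, .negSucc 1)⟩ ::
 ⟨⟨.ofNat 1, .negSucc 2, .ofNat 0, .negSucc 4, .negSucc 0, .ofNat 4⟩, (.ofNat 0, .ofNat 1), (.ofNat 0, .ofNat 2), (.ofNat 1, .negSucc 1)⟩ ::
 ⟨⟨.ofNat 1, .negSucc 2, .ofNat 0, .negSucc 3, .negSucc 9, .ofNat 1⟩, (.negSucc 0, .ofNat 4), (.ofNat 2, .ofNat 5), (.ofNat 11, .negSucc 1)⟩ ::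
 ⟨⟨.ofNat 1, .negSucc 2, .ofNat 0, .negSucc 3, .negSucc 3, .ofNat 2⟩, (.negSucc 4, .ofNat 9), (.negSucc 3, .ofNat 11), (.ofNat 15, .negSucc 2)⟩ ::
 ⟨⟨.ofNat 1, .negSucc 2, .ofNat 0, .negSucc 2, .negSucc 8, .ofNat 0⟩, (.negSucc 1, .ofNat 0), (.negSucc 1, .ofNat 0), (.ofNat 1, .ofNat 3)⟩ ::
 ⟨⟨.ofNat 1, .negSucc 2, .ofNat 0, .negSucc 2, .negSucc 2, .ofNat 1⟩, (.negSucc 1, .ofNat 0), (.negSucc 1, .ofNat 0), (.ofNat 1, .ofNat 1)⟩ ::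
 ⟨⟨.ofNat 1, .negSucc 2, .ofNat 0, .negSucc 1, .negSucc 9, .negSucc 0⟩, (.ofNat 0, .ofNat 2), (.ofNat 0, .ofNat 2), (.ofNat 7, .negSucc 0)⟩ ::
 ⟨⟨.ofNat 1, .negSucc 2, .ofNat 0, .negSucc 1, .negSucc 3, .ofNat 0⟩, (.ofNat 0, .ofNat 2), (.ofNat 0, .ofNat 2), (.ofNat 3, .negSucc 0)⟩ ::
 ⟨⟨.ofNat 1, .negSucc 2, .ofNat 0, .negSucc 0, .negSucc 6, .negSucc 0⟩, (.negSucc 0, .ofNat 0), (.ofNat 0, .ofNat 0), (.ofNat 0, .ofNat 1)⟩ ::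
 ⟨⟨.ofNat 1, .negSucc 2, .ofNat 0, .negSucc 0, .negSucc 0, .ofNat 0⟩, (.negSucc 0, .ofNat 0), (.ofNat 0, .ofNat 0), (.ofNat 0, .ofNat 0)⟩ ::
 ⟨⟨.ofNat 1, .negSucc 2, .ofNat 0, .ofNat 1, .negSucc 6, .negSucc 0⟩, (.ofNat 0, .ofNat 3), (.ofNat 0, .ofNat 0), (.ofNat 7, .ofNat 0)⟩ ::
 ⟨⟨.ofNat 1, .negSucc 2, .ofNat 0, .ofNat 1, .negSucc 0, .ofNat 0⟩, (.ofNat 0, .ofNat 3), (.ofNat 0, .ofNat 0), (.ofNat 1, .ofNat 0)⟩ ::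
 ⟨⟨.ofNat 1, .negSucc 2, .ofNat 0, .ofNat 2, .negSucc 3, .ofNat 0⟩, (.ofNat 0, .ofNat 3), (.negSucc 1, .negSucc 1), (.ofNat 3, .negSucc 0)⟩ ::
 ⟨⟨.ofNat 1, .negSucc 2, .ofNat 0, .ofNat 2, .ofNat 2, .ofNat 1⟩, (.ofNat 1, .ofNat 2), (.ofNat 0, .negSucc 0), (.negSucc 0, .ofNat 0)⟩ ::
 ⟨⟨.ofNat 1, .negSucc 2, .ofNat 2, .negSucc 4, .negSucc 14, .ofNat 2⟩, (.negSucc 0, .ofNat 0), (.negSucc 1, .ofNat 0), (.ofNat 2, .ofNat 2)⟩ ::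
 ⟨⟨.ofNat 1, .negSucc 2, .ofNat 2, .negSucc 4, .negSucc 8, .ofNat 3⟩, (.ofNat 0, .ofNat 3), (.ofNat 0, .ofNat 6), (.ofNat 7, .negSucc 5)⟩ ::
 ⟨⟨.ofNat 1, .negSucc 2, .ofNat 2, .negSucc 4, .negSucc 2, .ofNat 4⟩, (.ofNat 2, .ofNat 4), (.ofNat 2, .ofNat 6), (.ofNat 1, .negSucc 4)⟩ ::
 ⟨⟨.ofNat 1, .negSucc 2, .ofNat 2, .negSucc 3, .negSucc 11, .ofNat 1⟩, (.negSucc 3, .ofNat 13), (.negSucc 5, .ofNat 16), (.ofNat 49, .negSucc 2)⟩ ::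
 t

noncomputable def r5 (t : List Ent) : List Ent :=
 ⟨⟨.ofNat 1, .negSucc 2, .ofNat 2, .negSucc 3, .negSucc 5, .ofNat 2⟩, (.ofNat 0, .ofNat 2), (.ofNat 0, .ofNat 2), (.ofNat 3, .negSucc 0)⟩ ::
 ⟨⟨.ofNat 1, .negSucc 2, .ofNat 2, .negSucc 2, .negSucc 10, .ofNat 0⟩, (.negSucc 1, .ofNat 0), (.negSucc 1, .ofNat 0), (.ofNat 1, .ofNat 3)⟩ ::
 ⟨⟨.ofNat 1, .negSucc 2, .ofNat 2, .negSucc 2, .negSucc 4, .ofNat 1⟩, (.negSucc 1, .ofNat 0), (.negSucc 1, .ofNat 0), (.ofNat 1, .ofNat 1)⟩ ::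
 ⟨⟨.ofNat 1, .negSucc 2, .ofNat 2, .negSucc 1, .negSucc 11, .negSucc 0⟩, (.negSucc 4, .ofNat 18), (.negSucc 7, .ofNat 13), (.ofNat 69, .ofNat 4)⟩ ::
 ⟨⟨.ofNat 1, .negSucc 2, .ofNat 2, .negSucc 1, .negSucc 5, .ofNat 0⟩, (.ofNat 0, .ofNat 2), (.ofNat 0, .ofNat 2), (.ofNat 3, .negSucc 0)⟩ ::
 ⟨⟨.ofNat 1, .negSucc 2, .ofNat 2, .negSucc 1, .ofNat 0, .ofNat 1⟩, (.negSucc 0, .ofNat 4), (.negSucc 3, .ofNat 3), (.ofNat 1, .negSucc 1)⟩ ::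
 ⟨⟨.ofNat 1, .negSucc 2, .ofNat 2, .negSucc 0, .negSucc 8, .negSucc 0⟩, (.ofNat 0, .ofNat 1), (.ofNat 0, .ofNat 0), (.ofNat 3, .ofNat 0)⟩ ::
 ⟨⟨.ofNat 1, .negSucc 2, .ofNat 2, .negSucc 0, .negSucc 2, .ofNat 0⟩, (.ofNat 0, .ofNat 1), (.ofNat 0, .ofNat 0), (.ofNat 1, .ofNat 0)⟩ ::
 ⟨⟨.ofNat 1, .negSucc 2, .ofNat 2, .ofNat 0, .negSucc 7, .negSucc 0⟩, (.negSucc 2, .ofNat 12), (.negSucc 9, .negSucc 0), (.ofNat 33, .ofNat 2)⟩ ::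
 ⟨⟨.ofNat 1, .negSucc 2, .ofNat 2, .ofNat 0, .negSucc 1, .ofNat 0⟩, (.ofNat 1, .ofNat 2), (.negSucc 1, .ofNat 1), (.ofNat 1, .negSucc 0)⟩ ::
 ⟨⟨.ofNat 1, .negSucc 2, .ofNat 2, .ofNat 1, .negSucc 8, .negSucc 0⟩, (.ofNat 0, .ofNat 1), (.ofNat 0, .ofNat 0), (.ofNat 3, .ofNat 0)⟩ ::
 ⟨⟨.ofNat 1, .negSucc 2, .ofNat 2, .ofNat 1, .negSucc 2, .ofNat 0⟩, (.ofNat 0, .ofNat 1), (.ofNat 0, .ofNat 0), (.ofNat 1, .ofNat 0)⟩ ::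
 ⟨⟨.ofNat 1, .negSucc 2, .ofNat 2, .ofNat 2, .negSucc 5, .ofNat 0⟩, (.negSucc 2, .ofNat 5), (.negSucc 3, .negSucc 2), (.ofNat 9, .ofNat 1)⟩ ::
 ⟨⟨.ofNat 1, .negSucc 2, .ofNat 2, .ofNat 2, .ofNat 0, .ofNat 1⟩, (.negSucc 2, .ofNat 5), (.negSucc 3, .negSucc 2), (.negSucc 0, .negSucc 1)⟩ ::
 ⟨⟨.ofNat 1, .negSucc 2, .ofNat 4, .negSucc 3, .negSucc 17, .ofNat 1⟩, (.negSucc 2, .ofNat 5), (.negSucc 9, .ofNat 7), (.ofNat 33, .ofNat 0)⟩ ::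
 ⟨⟨.ofNat 1, .negSucc 2, .ofNat 4, .negSucc 3, .negSucc 11, .ofNat 2⟩, (.ofNat 0, .ofNat 6), (.negSucc 3, .ofNat 10), (.ofNat 19, .negSucc 8)⟩ ::
 ⟨⟨.ofNat 1, .negSucc 2, .ofNat 4, .negSucc 3, .negSucc 5, .ofNat 3⟩, (.negSucc 2, .ofNat 0), (.negSucc 3, .negSucc 0), (.ofNat 3, .ofNat 2)⟩ ::
 ⟨⟨.ofNat 1, .negSucc 2, .ofNat 4, .negSucc 2, .negSucc 16, .ofNat 0⟩, (.negSucc 0, .ofNat 3), (.negSucc 3, .ofNat 2), (.ofNat 18, .ofNat 1)⟩ ::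
 ⟨⟨.ofNat 1, .negSucc 2, .ofNat 4, .negSucc 2, .negSucc 10, .ofNat 1⟩, (.ofNat 0, .ofNat 3), (.negSucc 3, .ofNat 4), (.ofNat 11, .negSucc 3)⟩ ::
 ⟨⟨.ofNat 1, .negSucc 2, .ofNat 4, .negSucc 2, .negSucc 4, .ofNat 2⟩, (.ofNat 0, .ofNat 3), (.negSucc 3, .ofNat 4), (.ofNat 5, .negSucc 3)⟩ ::
 ⟨⟨.ofNat 1, .negSucc 2, .ofNat 4, .negSucc 1, .negSucc 11, .ofNat 0⟩, (.negSucc 0, .ofNat 3), (.negSucc 3, .ofNat 3), (.ofNat 11, .negSucc 0)⟩ ::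
 ⟨⟨.ofNat 1, .negSucc 2, .ofNat 4, .negSucc 1, .negSucc 5, .ofNat 1⟩, (.ofNat 0, .ofNat 3), (.negSucc 1, .ofNat 2), (.ofNat 5, .negSucc 0)⟩ ::
 ⟨⟨.ofNat 1, .negSucc 2, .ofNat 4, .negSucc 1, .ofNat 0, .ofNat 2⟩, (.ofNat 0, .ofNat 3), (.negSucc 1, .ofNat 2), (.negSucc 0, .negSucc 0)⟩ ::
 ⟨⟨.ofNat 1, .negSucc 2, .ofNat 4, .ofNat 0, .negSucc 7, .ofNat 0⟩, (.negSucc 2, .ofNat 1), (.negSucc 1, .negSucc 0), (.ofNat 3, .ofNat 3)⟩ ::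
 ⟨⟨.ofNat 1, .negSucc 2, .ofNat 4, .ofNat 0, .negSucc 1, .ofNat 1⟩, (.ofNat 0, .ofNat 1), (.negSucc 1, .ofNat 0), (.ofNat 1, .negSucc 0)⟩ ::
 ⟨⟨.ofNat 1, .negSucc 1, .negSucc 5, .negSucc 1, .negSucc 5, .ofNat 4⟩, (.negSucc 0, .ofNat 2), (.ofNat 6, .ofNat 1), (.ofNat 3, .negSucc 3)⟩ ::
 ⟨⟨.ofNat 1, .negSucc 1, .negSucc 5, .negSucc 1, .negSucc 1, .ofNat 5⟩, (.ofNat 2, .ofNat 2), (.ofNat 6, .negSucc 1), (.negSucc 2, .negSucc 3)⟩ ::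
 ⟨⟨.ofNat 1, .negSucc 1, .negSucc 5, .negSucc 1, .ofNat 2, .ofNat 6⟩, (.negSucc 2, .ofNat 2), (.ofNat 4, .ofNat 5), (.ofNat 3, .negSucc 5)⟩ ::
 ⟨⟨.ofNat 1, .negSucc 1, .negSucc 5, .negSucc 0, .negSucc 6, .ofNat 3⟩, (.negSucc 1, .ofNat 1), (.ofNat 4, .ofNat 2), (.ofNat 5, .negSucc 0)⟩ ::
 ⟨⟨.ofNat 1, .negSucc 1, .negSucc 5, .negSucc 0, .negSucc 2, .ofNat 4⟩, (.ofNat 0, .ofNat 1), (.ofNat 2, .ofNat 0), (.ofNat 1, .negSucc 0)⟩ ::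
 ⟨⟨.ofNat 1, .negSucc 1, .negSucc 5, .negSucc 0, .ofNat 1, .ofNat 5⟩, (.negSucc 1, .ofNat 1), (.ofNat 4, .ofNat 2), (.ofNat 1, .negSucc 4)⟩ ::
 ⟨⟨.ofNat 1, .negSucc 1, .negSucc 5, .negSucc 0, .ofNat 5, .ofNat 6⟩, (.negSucc 0, .ofNat 2), (.ofNat 6, .ofNat 2), (.negSucc 1, .negSucc 5)⟩ ::
 ⟨⟨.ofNat 1, .negSucc 1, .negSucc 3, .negSucc 4, .negSucc 12, .ofNat 5⟩, (.negSucc 1, .ofNat 1), (.ofNat 0, .ofNat 4), (.ofNat 9, .ofNat 1)⟩ ::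
 ⟨⟨.ofNat 1, .negSucc 1, .negSucc 3, .negSucc 4, .negSucc 8, .ofNat 6⟩, (.negSucc 1, .ofNat 1), (.ofNat 0, .ofNat 4), (.ofNat 7, .negSucc 0)⟩ ::
 ⟨⟨.ofNat 1, .negSucc 1, .negSucc 3, .negSucc 4, .negSucc 4, .ofNat 7⟩, (.negSucc 1, .ofNat 1), (.ofNat 0, .ofNat 4), (.ofNat 5, .negSucc 2)⟩ ::
 ⟨⟨.ofNat 1, .negSucc 1, .negSucc 3, .negSucc 4, .negSucc 0, .ofNat 8⟩, (.negSucc 1, .ofNat 1), (.ofNat 0, .ofNat 4), (.ofNat 3, .negSucc 4)⟩ ::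
 ⟨⟨.ofNat 1, .negSucc 1, .negSucc 3, .negSucc 4, .ofNat 3, .ofNat 9⟩, (.negSucc 2, .ofNat 2), (.ofNat 2, .ofNat 8), (.ofNat 2, .negSucc 14)⟩ ::
 ⟨⟨.ofNat 1, .negSucc 1, .negSucc 3, .negSucc 2, .negSucc 8, .ofNat 2⟩, (.ofNat 1, .ofNat 1), (.ofNat 4, .ofNat 0), (.ofNat 2, .negSucc 4)⟩ ::
 ⟨⟨.ofNat 1, .negSucc 1, .negSucc 3, .negSucc 2, .negSucc 4, .ofNat 3⟩, (.ofNat 1, .ofNat 1), (.ofNat 4, .ofNat 0), (.ofNat 0, .negSucc 3)⟩ ::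
 ⟨⟨.ofNat 1, .negSucc 1, .negSucc 3, .negSucc 2, .negSucc 0, .ofNat 4⟩, (.ofNat 0, .ofNat 4), (.ofNat 8, .ofNat 4), (.ofNat 1, .negSucc 5)⟩ ::
 ⟨⟨.ofNat 1, .negSucc 1, .negSucc 3, .negSucc 2, .ofNat 3, .ofNat 5⟩, (.negSucc 3, .ofNat 5), (.ofNat 10, .ofNat 8), (.negSucc 8, .negSucc 14)⟩ ::
 ⟨⟨.ofNat 1, .negSucc 1, .negSucc 3, .negSucc 1, .negSucc 7, .ofNat 1⟩, (.negSucc 0, .ofNat 0), (.ofNat 0, .ofNat 1), (.ofNat 1, .ofNat 1)⟩ ::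
 ⟨⟨.ofNat 1, .negSucc 1, .negSucc 3, .negSucc 1, .negSucc 3, .ofNat 2⟩, (.negSucc 0, .ofNat 0), (.ofNat 0, .ofNat 1), (.ofNat 1, .ofNat 0)⟩ ::
 ⟨⟨.ofNat 1, .negSucc 1, .negSucc 3, .negSucc 1, .ofNat 0, .ofNat 3⟩, (.ofNat 0, .ofNat 2), (.ofNat 4, .ofNat 0), (.negSucc 2, .negSucc 1)⟩ ::
 ⟨⟨.ofNat 1, .negSucc 1, .negSucc 3, .negSucc 1, .ofNat 4, .ofNat 4⟩, (.negSucc 0, .ofNat 0), (.ofNat 0, .ofNat 1), (.ofNat 1, .negSucc 1)⟩ ::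
 ⟨⟨.ofNat 1, .negSucc 1, .negSucc 3, .ofNat 0, .negSucc 3, .ofNat 1⟩, (.negSucc 0, .ofNat 0), (.ofNat 0, .ofNat 1), (.ofNat 1, .ofNat 1)⟩ ::
 ⟨⟨.ofNat 1, .negSucc 1, .negSucc 3, .ofNat 0, .ofNat 0, .ofNat 2⟩, (.ofNat 0, .ofNat 2), (.ofNat 4, .ofNat 0), (.ofNat 1, .negSucc 1)⟩ ::
 ⟨⟨.ofNat 1, .negSucc 1, .negSucc 3, .ofNat 0, .ofNat 4, .ofNat 3⟩, (.negSucc 0, .ofNat 0), (.ofNat 0, .ofNat 1), (.ofNat 1, .negSucc 0)⟩ ::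
 ⟨⟨.ofNat 1, .negSucc 1, .negSucc 3, .ofNat 1, .negSucc 4, .ofNat 1⟩, (.negSucc 1, .ofNat 0), (.ofNat 2, .ofNat 2), (.ofNat 3, .ofNat 2)⟩ ::
 ⟨⟨.ofNat 1, .negSucc 1, .negSucc 3, .ofNat 1, .negSucc 0, .ofNat 2⟩, (.ofNat 2, .ofNat 1), (.ofNat 0, .negSucc 1), (.negSucc 0, .negSucc 0)⟩ ::
 t

noncomputable def r6 (t : List Ent) : List Ent :=
 ⟨⟨.ofNat 1, .negSucc 1, .negSucc 3, .ofNat 1, .ofNat 3, .ofNat 3⟩, (.ofNat 1, .ofNat 1), (.ofNat 0, .negSucc 1), (.negSucc 3, .ofNat 0)⟩ ::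
 ⟨⟨.ofNat 1, .negSucc 1, .negSucc 1, .negSucc 3, .negSucc 9, .ofNat 2⟩, (.negSucc 0, .ofNat 0), (.negSucc 1, .ofNat 1), (.ofNat 3, .ofNat 2)⟩ ::
 ⟨⟨.ofNat 1, .negSucc 1, .negSucc 1, .negSucc 3, .negSucc 5, .ofNat 3⟩, (.negSucc 2, .ofNat 2), (.ofNat 0, .ofNat 5), (.ofNat 7, .negSucc 0)⟩ ::
 ⟨⟨.ofNat 1, .negSucc 1, .negSucc 1, .negSucc 3, .negSucc 1, .ofNat 4⟩, (.ofNat 0, .ofNat 3), (.ofNat 4, .ofNat 4), (.ofNat 1, .negSucc 3)⟩ ::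
 ⟨⟨.ofNat 1, .negSucc 1, .negSucc 1, .negSucc 3, .ofNat 2, .ofNat 5⟩, (.negSucc 0, .ofNat 0), (.negSucc 1, .ofNat 1), (.ofNat 3, .negSucc 0)⟩ ::
 ⟨⟨.ofNat 1, .negSucc 1, .negSucc 1, .negSucc 2, .negSucc 6, .ofNat 1⟩, (.ofNat 1, .ofNat 1), (.ofNat 2, .ofNat 0), (.ofNat 2, .negSucc 1)⟩ ::
 ⟨⟨.ofNat 1, .negSucc 1, .negSucc 1, .negSucc 2, .negSucc 2, .ofNat 2⟩, (.negSucc 1, .ofNat 0), (.negSucc 1, .ofNat 2), (.ofNat 3, .ofNat 0)⟩ ::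
 ⟨⟨.ofNat 1, .negSucc 1, .negSucc 1, .negSucc 2, .ofNat 1, .ofNat 3⟩, (.ofNat 2, .ofNat 1), (.ofNat 4, .ofNat 0), (.negSucc 2, .negSucc 0)⟩ ::
 ⟨⟨.ofNat 1, .negSucc 1, .negSucc 1, .negSucc 0, .negSucc 2, .ofNat 0⟩, (.negSucc 0, .ofNat 2), (.ofNat 2, .ofNat 0), (.ofNat 2, .ofNat 0)⟩ ::
 ⟨⟨.ofNat 1, .negSucc 1, .negSucc 1, .negSucc 0, .ofNat 1, .ofNat 1⟩, (.ofNat 0, .ofNat 1), (.ofNat 2, .ofNat 0), (.negSucc 0, .negSucc 0)⟩ ::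
 ⟨⟨.ofNat 1, .negSucc 1, .negSucc 1, .ofNat 0, .negSucc 1, .ofNat 0⟩, (.ofNat 0, .ofNat 1), (.ofNat 0, .ofNat 0), (.ofNat 1, .ofNat 0)⟩ ::
 ⟨⟨.ofNat 1, .negSucc 1, .negSucc 1, .ofNat 0, .ofNat 2, .ofNat 1⟩, (.ofNat 0, .ofNat 1), (.ofNat 0, .ofNat 0), (.negSucc 0, .ofNat 0)⟩ ::
 ⟨⟨.ofNat 1, .negSucc 1, .ofNat 0, .negSucc 3, .negSucc 11, .ofNat 1⟩, (.negSucc 1, .ofNat 1), (.negSucc 1, .ofNat 2), (.ofNat 7, .ofNat 4)⟩ ::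
 ⟨⟨.ofNat 1, .negSucc 1, .ofNat 0, .negSucc 3, .negSucc 7, .ofNat 2⟩, (.negSucc 2, .ofNat 2), (.negSucc 1, .ofNat 5), (.ofNat 9, .ofNat 0)⟩ ::
 ⟨⟨.ofNat 1, .negSucc 1, .ofNat 0, .negSucc 3, .negSucc 3, .ofNat 3⟩, (.negSucc 1, .ofNat 1), (.negSucc 1, .ofNat 2), (.ofNat 3, .ofNat 0)⟩ ::
 ⟨⟨.ofNat 1, .negSucc 1, .ofNat 0, .negSucc 3, .ofNat 0, .ofNat 4⟩, (.negSucc 1, .ofNat 1), (.negSucc 1, .ofNat 2), (.ofNat 1, .negSucc 1)⟩ ::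
 ⟨⟨.ofNat 1, .negSucc 1, .ofNat 0, .negSucc 1, .negSucc 7, .negSucc 0⟩, (.negSucc 1, .ofNat 5), (.ofNat 2, .ofNat 6), (.ofNat 19, .ofNat 0)⟩ ::
 ⟨⟨.ofNat 1, .negSucc 1, .ofNat 0, .negSucc 1, .negSucc 3, .ofNat 0⟩, (.negSucc 1, .ofNat 0), (.negSucc 1, .ofNat 0), (.ofNat 1, .ofNat 2)⟩ ::
 ⟨⟨.ofNat 1, .negSucc 1, .ofNat 0, .negSucc 1, .ofNat 0, .ofNat 1⟩, (.ofNat 1, .ofNat 1), (.ofNat 2, .ofNat 1), (.negSucc 0, .negSucc 0)⟩ ::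
 ⟨⟨.ofNat 1, .negSucc 1, .ofNat 0, .negSucc 0, .negSucc 4, .negSucc 0⟩, (.negSucc 0, .ofNat 0), (.ofNat 0, .ofNat 0), (.ofNat 0, .ofNat 1)⟩ ::
 ⟨⟨.ofNat 1, .negSucc 1, .ofNat 0, .negSucc 0, .negSucc 0, .ofNat 0⟩, (.negSucc 0, .ofNat 0), (.ofNat 0, .ofNat 0), (.ofNat 0, .ofNat 0)⟩ ::
 ⟨⟨.ofNat 1, .negSucc 1, .ofNat 0, .ofNat 1, .negSucc 4, .negSucc 0⟩, (.ofNat 0, .ofNat 2), (.ofNat 0, .ofNat 0), (.ofNat 5, .ofNat 0)⟩ ::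
 ⟨⟨.ofNat 1, .negSucc 1, .ofNat 0, .ofNat 1, .negSucc 0, .ofNat 0⟩, (.ofNat 0, .ofNat 2), (.ofNat 0, .ofNat 0), (.ofNat 1, .ofNat 0)⟩ ::
 ⟨⟨.ofNat 1, .negSucc 1, .ofNat 0, .ofNat 2, .negSucc 3, .ofNat 0⟩, (.negSucc 2, .ofNat 0), (.ofNat 2, .negSucc 0), (.ofNat 1, .ofNat 2)⟩ ::
 ⟨⟨.ofNat 1, .negSucc 1, .ofNat 0, .ofNat 2, .ofNat 0, .ofNat 1⟩, (.ofNat 0, .ofNat 4), (.ofNat 0, .negSucc 3), (.ofNat 1, .negSucc 1)⟩ ::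
 ⟨⟨.ofNat 1, .negSucc 1, .ofNat 0, .ofNat 2, .ofNat 4, .ofNat 2⟩, (.ofNat 1, .ofNat 1), (.negSucc 1, .negSucc 0), (.negSucc 2, .ofNat 0)⟩ ::
 ⟨⟨.ofNat 1, .negSucc 1, .ofNat 2, .negSucc 2, .negSucc 10, .ofNat 0⟩, (.ofNat 0, .ofNat 2), (.ofNat 0, .ofNat 4), (.ofNat 9, .negSucc 3)⟩ ::
 ⟨⟨.ofNat 1, .negSucc 1, .ofNat 2, .negSucc 2, .negSucc 6, .ofNat 1⟩, (.negSucc 0, .ofNat 0), (.negSucc 1, .ofNat 0), (.ofNat 2, .ofNat 1)⟩ ::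
 ⟨⟨.ofNat 1, .negSucc 1, .ofNat 2, .negSucc 2, .negSucc 2, .ofNat 2⟩, (.negSucc 0, .ofNat 0), (.negSucc 1, .ofNat 0), (.ofNat 2, .ofNat 0)⟩ ::
 ⟨⟨.ofNat 1, .negSucc 1, .ofNat 2, .negSucc 1, .negSucc 9, .negSucc 0⟩, (.negSucc 1, .ofNat 5), (.negSucc 5, .ofNat 4), (.ofNat 27, .ofNat 2)⟩ ::
 ⟨⟨.ofNat 1, .negSucc 1, .ofNat 2, .negSucc 1, .negSucc 5, .ofNat 0⟩, (.negSucc 1, .ofNat 0), (.negSucc 1, .ofNat 0), (.ofNat 1, .ofNat 2)⟩ ::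
 ⟨⟨.ofNat 1, .negSucc 1, .ofNat 2, .negSucc 1, .negSucc 1, .ofNat 1⟩, (.ofNat 1, .ofNat 1), (.ofNat 0, .ofNat 1), (.ofNat 1, .negSucc 0)⟩ ::
 ⟨⟨.ofNat 1, .negSucc 1, .ofNat 2, .ofNat 0, .negSucc 5, .negSucc 0⟩, (.ofNat 0, .ofNat 1), (.ofNat 0, .ofNat 0), (.ofNat 3, .ofNat 0)⟩ ::
 ⟨⟨.ofNat 1, .negSucc 1, .ofNat 2, .ofNat 0, .negSucc 1, .ofNat 0⟩, (.negSucc 0, .ofNat 2), (.negSucc 1, .negSucc 0), (.ofNat 3, .ofNat 0)⟩ ::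
 ⟨⟨.ofNat 1, .negSucc 1, .ofNat 2, .ofNat 1, .negSucc 6, .negSucc 0⟩, (.ofNat 0, .ofNat 1), (.negSucc 1, .ofNat 0), (.ofNat 3, .negSucc 0)⟩ ::
 ⟨⟨.ofNat 1, .negSucc 1, .ofNat 2, .ofNat 1, .negSucc 2, .ofNat 0⟩, (.negSucc 0, .ofNat 2), (.negSucc 1, .ofNat 0), (.ofNat 2, .ofNat 0)⟩ ::
 ⟨⟨.ofNat 1, .negSucc 1, .ofNat 2, .ofNat 1, .ofNat 1, .ofNat 1⟩, (.ofNat 0, .ofNat 1), (.negSucc 1, .ofNat 0), (.negSucc 0, .negSucc 0)⟩ ::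
 ⟨⟨.ofNat 1, .negSucc 0, .negSucc 3, .negSucc 0, .negSucc 4, .ofNat 2⟩, (.ofNat 1, .ofNat 1), (.ofNat 2, .negSucc 1), (.ofNat 0, .negSucc 2)⟩ ::
 ⟨⟨.ofNat 1, .negSucc 0, .negSucc 3, .negSucc 0, .negSucc 2, .ofNat 3⟩, (.ofNat 1, .ofNat 1), (.ofNat 2, .negSucc 1), (.negSucc 1, .negSucc 1)⟩ ::
 ⟨⟨.ofNat 1, .negSucc 0, .negSucc 3, .negSucc 0, .negSucc 0, .ofNat 4⟩, (.ofNat 0, .ofNat 1), (.ofNat 4, .ofNat 0), (.ofNat 1, .negSucc 3)⟩ ::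
 ⟨⟨.ofNat 1, .negSucc 0, .negSucc 3, .negSucc 0, .ofNat 1, .ofNat 5⟩, (.negSucc 0, .ofNat 0), (.ofNat 0, .ofNat 2), (.ofNat 4, .negSucc 0)⟩ ::
 ⟨⟨.ofNat 1, .negSucc 0, .negSucc 3, .negSucc 0, .ofNat 3, .ofNat 6⟩, (.negSucc 0, .ofNat 0), (.ofNat 0, .ofNat 2), (.ofNat 4, .negSucc 1)⟩ ::
 ⟨⟨.ofNat 1, .negSucc 0, .negSucc 1, .negSucc 2, .negSucc 8, .ofNat 1⟩, (.negSucc 0, .ofNat 1), (.ofNat 2, .ofNat 2), (.ofNat 6, .ofNat 0)⟩ ::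
 ⟨⟨.ofNat 1, .negSucc 0, .negSucc 1, .negSucc 2, .negSucc 6, .ofNat 2⟩, (.negSucc 1, .ofNat 1), (.ofNat 2, .ofNat 4), (.ofNat 7, .negSucc 1)⟩ ::
 ⟨⟨.ofNat 1, .negSucc 0, .negSucc 1, .negSucc 2, .negSucc 4, .ofNat 3⟩, (.negSucc 0, .ofNat 1), (.ofNat 2, .ofNat 2), (.ofNat 2, .negSucc 1)⟩ ::
 ⟨⟨.ofNat 1, .negSucc 0, .negSucc 1, .negSucc 2, .negSucc 2, .ofNat 4⟩, (.ofNat 1, .ofNat 1), (.ofNat 4, .ofNat 0), (.negSucc 1, .negSucc 2)⟩ ::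
 ⟨⟨.ofNat 1, .negSucc 0, .negSucc 1, .negSucc 2, .negSucc 0, .ofNat 5⟩, (.ofNat 1, .ofNat 1), (.ofNat 4, .ofNat 0), (.negSucc 3, .negSucc 1)⟩ ::
 ⟨⟨.ofNat 1, .negSucc 0, .negSucc 1, .negSucc 2, .ofNat 1, .ofNat 6⟩, (.negSucc 0, .ofNat 1), (.ofNat 2, .ofNat 2), (.negSucc 3, .negSucc 4)⟩ ::
 ⟨⟨.ofNat 1, .negSucc 0, .negSucc 1, .negSucc 1, .negSucc 5, .ofNat 0⟩, (.negSucc 0, .ofNat 0), (.ofNat 0, .ofNat 1), (.ofNat 1, .ofNat 1)⟩ ::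
 ⟨⟨.ofNat 1, .negSucc 0, .negSucc 1, .negSucc 1, .negSucc 3, .ofNat 1⟩, (.negSucc 0, .ofNat 0), (.ofNat 0, .ofNat 1), (.ofNat 1, .ofNat 0)⟩ ::
 t

noncomputable def r7 (t : List Ent) : List Ent :=
 ⟨⟨.ofNat 1, .negSucc 0, .negSucc 1, .negSucc 1, .negSucc 1, .ofNat 2⟩, (.negSucc 0, .ofNat 0), (.ofNat 0, .ofNat 1), (.ofNat 1, .negSucc 0)⟩ ::
 ⟨⟨.ofNat 1, .negSucc 0, .negSucc 1, .negSucc 1, .ofNat 0, .ofNat 3⟩, (.negSucc 0, .ofNat 0), (.ofNat 0, .ofNat 1), (.ofNat 1, .negSucc 1)⟩ ::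
 ⟨⟨.ofNat 1, .negSucc 0, .negSucc 1, .negSucc 1, .ofNat 2, .ofNat 4⟩, (.negSucc 1, .ofNat 0), (.negSucc 1, .ofNat 2), (.ofNat 3, .negSucc 2)⟩ ::
 ⟨⟨.ofNat 1, .negSucc 0, .negSucc 1, .ofNat 0, .negSucc 3, .negSucc 0⟩, (.negSucc 0, .ofNat 0), (.ofNat 0, .ofNat 1), (.ofNat 1, .ofNat 2)⟩ ::
 ⟨⟨.ofNat 1, .negSucc 0, .negSucc 1, .ofNat 0, .negSucc 1, .ofNat 0⟩, (.negSucc 0, .ofNat 0), (.ofNat 0, .ofNat 1), (.ofNat 1, .ofNat 1)⟩ ::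
 ⟨⟨.ofNat 1, .negSucc 0, .negSucc 1, .ofNat 0, .ofNat 0, .ofNat 1⟩, (.ofNat 0, .ofNat 1), (.ofNat 2, .ofNat 0), (.ofNat 1, .negSucc 0)⟩ ::
 ⟨⟨.ofNat 1, .negSucc 0, .negSucc 1, .ofNat 0, .ofNat 2, .ofNat 2⟩, (.negSucc 0, .ofNat 0), (.ofNat 0, .ofNat 1), (.ofNat 1, .negSucc 0)⟩ ::
 ⟨⟨.ofNat 1, .negSucc 0, .ofNat 0, .negSucc 1, .negSucc 5, .negSucc 0⟩, (.negSucc 0, .ofNat 1), (.ofNat 0, .ofNat 1), (.ofNat 5, .ofNat 2)⟩ ::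
 ⟨⟨.ofNat 1, .negSucc 0, .ofNat 0, .negSucc 1, .negSucc 3, .ofNat 0⟩, (.negSucc 0, .ofNat 1), (.ofNat 0, .ofNat 1), (.ofNat 3, .ofNat 1)⟩ ::
 ⟨⟨.ofNat 1, .negSucc 0, .ofNat 0, .negSucc 1, .negSucc 1, .ofNat 1⟩, (.negSucc 0, .ofNat 1), (.ofNat 0, .ofNat 1), (.ofNat 1, .ofNat 0)⟩ ::
 ⟨⟨.ofNat 1, .negSucc 0, .ofNat 0, .negSucc 1, .ofNat 0, .ofNat 2⟩, (.negSucc 0, .ofNat 1), (.ofNat 0, .ofNat 1), (.negSucc 0, .negSucc 0)⟩ ::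
 ⟨⟨.ofNat 1, .negSucc 0, .ofNat 0, .negSucc 0, .negSucc 4, .negSucc 1⟩, (.negSucc 0, .ofNat 1), (.ofNat 0, .ofNat 2), (.ofNat 6, .ofNat 1)⟩ ::
 ⟨⟨.ofNat 1, .negSucc 0, .ofNat 0, .negSucc 0, .negSucc 2, .negSucc 0⟩, (.negSucc 0, .ofNat 0), (.ofNat 0, .ofNat 0), (.ofNat 0, .ofNat 1)⟩ ::
 ⟨⟨.ofNat 1, .negSucc 0, .ofNat 0, .negSucc 0, .negSucc 0, .ofNat 0⟩, (.negSucc 0, .ofNat 0), (.ofNat 0, .ofNat 0), (.ofNat 0, .ofNat 0)⟩ ::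
 ⟨⟨.ofNat 1, .negSucc 0, .ofNat 0, .negSucc 0, .ofNat 1, .ofNat 1⟩, (.negSucc 0, .ofNat 0), (.ofNat 0, .ofNat 0), (.ofNat 0, .negSucc 0)⟩ ::
 ⟨⟨.ofNat 1, .negSucc 0, .ofNat 0, .ofNat 1, .negSucc 2, .negSucc 0⟩, (.ofNat 0, .ofNat 1), (.ofNat 0, .ofNat 0), (.ofNat 3, .ofNat 0)⟩ ::
 ⟨⟨.ofNat 1, .negSucc 0, .ofNat 0, .ofNat 1, .negSucc 0, .ofNat 0⟩, (.ofNat 0, .ofNat 1), (.ofNat 0, .ofNat 0), (.ofNat 1, .ofNat 0)⟩ ::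
 ⟨⟨.ofNat 1, .negSucc 0, .ofNat 0, .ofNat 1, .ofNat 1, .ofNat 1⟩, (.ofNat 0, .ofNat 1), (.ofNat 0, .ofNat 0), (.negSucc 0, .ofNat 0)⟩ ::
 ⟨⟨.ofNat 1, .negSucc 0, .ofNat 2, .negSucc 0, .negSucc 6, .negSucc 1⟩, (.negSucc 0, .ofNat 0), (.negSucc 1, .ofNat 0), (.ofNat 2, .ofNat 2)⟩ ::
 ⟨⟨.ofNat 1, .negSucc 0, .ofNat 2, .negSucc 0, .negSucc 4, .negSucc 0⟩, (.negSucc 0, .ofNat 0), (.negSucc 1, .ofNat 0), (.ofNat 2, .ofNat 1)⟩ ::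
 ⟨⟨.ofNat 1, .negSucc 0, .ofNat 2, .negSucc 0, .negSucc 2, .ofNat 0⟩, (.negSucc 1, .ofNat 0), (.negSucc 1, .ofNat 0), (.ofNat 1, .ofNat 1)⟩ ::
 ⟨⟨.ofNat 1, .negSucc 0, .ofNat 2, .negSucc 0, .negSucc 0, .ofNat 1⟩, (.negSucc 1, .ofNat 0), (.negSucc 1, .ofNat 0), (.ofNat 1, .negSucc 0)⟩ ::
 ⟨⟨.ofNat 1, .negSucc 0, .ofNat 2, .ofNat 0, .negSucc 5, .negSucc 1⟩, (.negSucc 0, .ofNat 1), (.negSucc 1, .ofNat 1), (.ofNat 5, .ofNat 1)⟩ ::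
 ⟨⟨.ofNat 1, .negSucc 0, .ofNat 2, .ofNat 0, .negSucc 3, .negSucc 0⟩, (.negSucc 0, .ofNat 0), (.ofNat 0, .negSucc 0), (.ofNat 1, .ofNat 2)⟩ ::
 ⟨⟨.ofNat 1, .negSucc 0, .ofNat 2, .ofNat 0, .negSucc 1, .ofNat 0⟩, (.negSucc 0, .ofNat 0), (.ofNat 0, .negSucc 0), (.ofNat 1, .ofNat 1)⟩ ::
 ⟨⟨.ofNat 1, .negSucc 0, .ofNat 2, .ofNat 0, .ofNat 0, .ofNat 1⟩, (.negSucc 0, .ofNat 0), (.ofNat 0, .negSucc 0), (.ofNat 1, .ofNat 0)⟩ ::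
 ⟨⟨.ofNat 1, .ofNat 0, .ofNat 0, .negSucc 1, .negSucc 3, .negSucc 2⟩, (.ofNat 0, .ofNat 0), (.ofNat 0, .ofNat 0), (.ofNat 1, .ofNat 0)⟩ ::
 ⟨⟨.ofNat 1, .ofNat 0, .ofNat 0, .negSucc 1, .negSucc 3, .negSucc 1⟩, (.ofNat 0, .ofNat 0), (.ofNat 0, .ofNat 0), (.ofNat 1, .ofNat 0)⟩ ::
 ⟨⟨.ofNat 1, .ofNat 0, .ofNat 0, .negSucc 1, .negSucc 3, .negSucc 0⟩, (.ofNat 0, .ofNat 0), (.ofNat 0, .ofNat 0), (.ofNat 1, .ofNat 0)⟩ ::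
 ⟨⟨.ofNat 1, .ofNat 0, .ofNat 0, .negSucc 1, .negSucc 3, .ofNat 0⟩, (.ofNat 0, .ofNat 0), (.ofNat 0, .ofNat 0), (.ofNat 1, .ofNat 0)⟩ ::
 ⟨⟨.ofNat 1, .ofNat 0, .ofNat 0, .negSucc 1, .negSucc 3, .ofNat 1⟩, (.ofNat 0, .ofNat 0), (.ofNat 0, .ofNat 0), (.ofNat 1, .ofNat 0)⟩ ::
 ⟨⟨.ofNat 1, .ofNat 0, .ofNat 0, .negSucc 1, .negSucc 3, .ofNat 2⟩, (.ofNat 0, .ofNat 0), (.ofNat 0, .ofNat 0), (.ofNat 1, .ofNat 0)⟩ ::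
 ⟨⟨.ofNat 1, .ofNat 0, .ofNat 0, .negSucc 1, .negSucc 3, .ofNat 3⟩, (.ofNat 0, .ofNat 0), (.ofNat 0, .ofNat 0), (.ofNat 1, .ofNat 0)⟩ ::
 ⟨⟨.ofNat 1, .ofNat 0, .ofNat 0, .negSucc 1, .negSucc 3, .ofNat 4⟩, (.ofNat 0, .ofNat 0), (.ofNat 0, .ofNat 0), (.ofNat 1, .ofNat 0)⟩ ::
 ⟨⟨.ofNat 1, .ofNat 0, .ofNat 0, .negSucc 0, .negSucc 0, .negSucc 2⟩, (.ofNat 0, .ofNat 0), (.ofNat 0, .ofNat 0), (.ofNat 1, .ofNat 0)⟩ ::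
 ⟨⟨.ofNat 1, .ofNat 0, .ofNat 0, .negSucc 0, .negSucc 0, .negSucc 1⟩, (.ofNat 0, .ofNat 0), (.ofNat 0, .ofNat 0), (.ofNat 1, .ofNat 0)⟩ ::
 ⟨⟨.ofNat 1, .ofNat 0, .ofNat 0, .negSucc 0, .negSucc 0, .negSucc 0⟩, (.ofNat 0, .ofNat 0), (.ofNat 0, .ofNat 0), (.ofNat 1, .ofNat 0)⟩ ::
 ⟨⟨.ofNat 1, .ofNat 0, .ofNat 0, .negSucc 0, .negSucc 0, .ofNat 0⟩, (.ofNat 0, .ofNat 0), (.ofNat 0, .ofNat 0), (.ofNat 1, .ofNat 0)⟩ ::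
 ⟨⟨.ofNat 1, .ofNat 0, .ofNat 0, .negSucc 0, .negSucc 0, .ofNat 1⟩, (.ofNat 0, .ofNat 0), (.ofNat 0, .ofNat 0), (.ofNat 1, .ofNat 0)⟩ ::
 ⟨⟨.ofNat 1, .ofNat 0, .ofNat 0, .negSucc 0, .negSucc 0, .ofNat 2⟩, (.ofNat 0, .ofNat 0), (.ofNat 0, .ofNat 0), (.ofNat 1, .ofNat 0)⟩ ::
 ⟨⟨.ofNat 1, .ofNat 0, .ofNat 0, .negSucc 0, .negSucc 0, .ofNat 3⟩, (.ofNat 0, .ofNat 0), (.ofNat 0, .ofNat 0), (.ofNat 1, .ofNat 0)⟩ ::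
 ⟨⟨.ofNat 1, .ofNat 0, .ofNat 0, .ofNat 0, .ofNat 0, .negSucc 2⟩, (.ofNat 0, .ofNat 0), (.ofNat 0, .ofNat 0), (.ofNat 1, .ofNat 0)⟩ ::
 ⟨⟨.ofNat 1, .ofNat 0, .ofNat 0, .ofNat 0, .ofNat 0, .negSucc 1⟩, (.ofNat 0, .ofNat 0), (.ofNat 0, .ofNat 0), (.ofNat 1, .ofNat 0)⟩ ::
 ⟨⟨.ofNat 1, .ofNat 0, .ofNat 0, .ofNat 0, .ofNat 0, .negSucc 0⟩, (.ofNat 0, .ofNat 0), (.ofNat 0, .ofNat 0), (.ofNat 1, .ofNat 0)⟩ ::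
 ⟨⟨.ofNat 1, .ofNat 0, .ofNat 0, .ofNat 0, .ofNat 0, .ofNat 0⟩, (.ofNat 0, .ofNat 0), (.ofNat 0, .ofNat 0), (.ofNat 1, .ofNat 0)⟩ ::
 ⟨⟨.ofNat 1, .ofNat 0, .ofNat 0, .ofNat 0, .ofNat 0, .ofNat 1⟩, (.ofNat 0, .ofNat 0), (.ofNat 0, .ofNat 0), (.ofNat 1, .ofNat 0)⟩ ::
 ⟨⟨.ofNat 1, .ofNat 0, .ofNat 0, .ofNat 0, .ofNat 0, .ofNat 2⟩, (.ofNat 0, .ofNat 0), (.ofNat 0, .ofNat 0), (.ofNat 1, .ofNat 0)⟩ ::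
 ⟨⟨.ofNat 1, .ofNat 0, .ofNat 0, .ofNat 1, .negSucc 0, .negSucc 3⟩, (.ofNat 0, .ofNat 0), (.ofNat 0, .ofNat 0), (.ofNat 1, .ofNat 0)⟩ ::
 ⟨⟨.ofNat 1, .ofNat 0, .ofNat 0, .ofNat 1, .negSucc 0, .negSucc 2⟩, (.ofNat 0, .ofNat 0), (.ofNat 0, .ofNat 0), (.ofNat 1, .ofNat 0)⟩ ::
 ⟨⟨.ofNat 1, .ofNat 0, .ofNat 0, .ofNat 1, .negSucc 0, .negSucc 1⟩, (.ofNat 0, .ofNat 0), (.ofNat 0, .ofNat 0), (.ofNat 1, .ofNat 0)⟩ ::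
 t

noncomputable def r8 (t : List Ent) : List Ent :=
 ⟨⟨.ofNat 1, .ofNat 0, .ofNat 0, .ofNat 1, .negSucc 0, .negSucc 0⟩, (.ofNat 0, .ofNat 0), (.ofNat 0, .ofNat 0), (.ofNat 1, .ofNat 0)⟩ ::
 ⟨⟨.ofNat 1, .ofNat 0, .ofNat 0, .ofNat 1, .negSucc 0, .ofNat 0⟩, (.ofNat 0, .ofNat 0), (.ofNat 0, .ofNat 0), (.ofNat 1, .ofNat 0)⟩ ::
 ⟨⟨.ofNat 1, .ofNat 0, .ofNat 0, .ofNat 1, .negSucc 0, .ofNat 1⟩, (.ofNat 0, .ofNat 0), (.ofNat 0, .ofNat 0), (.ofNat 1, .ofNat 0)⟩ ::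
 ⟨⟨.ofNat 1, .ofNat 0, .ofNat 0, .ofNat 1, .negSucc 0, .ofNat 2⟩, (.ofNat 0, .ofNat 0), (.ofNat 0, .ofNat 0), (.ofNat 1, .ofNat 0)⟩ ::
 ⟨⟨.ofNat 1, .ofNat 0, .ofNat 2, .negSucc 1, .negSucc 5, .negSucc 4⟩, (.ofNat 0, .ofNat 0), (.ofNat 0, .ofNat 0), (.ofNat 1, .ofNat 0)⟩ ::
 ⟨⟨.ofNat 1, .ofNat 0, .ofNat 2, .negSucc 1, .negSucc 5, .negSucc 3⟩, (.ofNat 0, .ofNat 0), (.ofNat 0, .ofNat 0), (.ofNat 1, .ofNat 0)⟩ ::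
 ⟨⟨.ofNat 1, .ofNat 0, .ofNat 2, .negSucc 1, .negSucc 5, .negSucc 2⟩, (.ofNat 0, .ofNat 0), (.ofNat 0, .ofNat 0), (.ofNat 1, .ofNat 0)⟩ ::
 ⟨⟨.ofNat 1, .ofNat 0, .ofNat 2, .negSucc 1, .negSucc 5, .negSucc 1⟩, (.ofNat 0, .ofNat 0), (.ofNat 0, .ofNat 0), (.ofNat 1, .ofNat 0)⟩ ::
 ⟨⟨.ofNat 1, .ofNat 0, .ofNat 2, .negSucc 1, .negSucc 5, .negSucc 0⟩, (.ofNat 0, .ofNat 0), (.ofNat 0, .ofNat 0), (.ofNat 1, .ofNat 0)⟩ ::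
 ⟨⟨.ofNat 1, .ofNat 0, .ofNat 2, .negSucc 1, .negSucc 5, .ofNat 0⟩, (.ofNat 0, .ofNat 0), (.ofNat 0, .ofNat 0), (.ofNat 1, .ofNat 0)⟩ ::
 ⟨⟨.ofNat 1, .ofNat 0, .ofNat 2, .negSucc 1, .negSucc 5, .ofNat 1⟩, (.ofNat 0, .ofNat 0), (.ofNat 0, .ofNat 0), (.ofNat 1, .ofNat 0)⟩ ::
 ⟨⟨.ofNat 1, .ofNat 0, .ofNat 2, .negSucc 1, .negSucc 5, .ofNat 2⟩, (.ofNat 0, .ofNat 0), (.ofNat 0, .ofNat 0), (.ofNat 1, .ofNat 0)⟩ ::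
 ⟨⟨.ofNat 1, .ofNat 0, .ofNat 2, .negSucc 1, .negSucc 5, .ofNat 3⟩, (.ofNat 0, .ofNat 0), (.ofNat 0, .ofNat 0), (.ofNat 1, .ofNat 0)⟩ ::
 ⟨⟨.ofNat 1, .ofNat 0, .ofNat 2, .negSucc 1, .negSucc 5, .ofNat 4⟩, (.ofNat 0, .ofNat 0), (.ofNat 0, .ofNat 0), (.ofNat 1, .ofNat 0)⟩ ::
 ⟨⟨.ofNat 1, .ofNat 0, .ofNat 2, .negSucc 0, .negSucc 2, .negSucc 4⟩, (.ofNat 0, .ofNat 0), (.ofNat 0, .ofNat 0), (.ofNat 1, .ofNat 0)⟩ ::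
 ⟨⟨.ofNat 1, .ofNat 0, .ofNat 2, .negSucc 0, .negSucc 2, .negSucc 3⟩, (.ofNat 0, .ofNat 0), (.ofNat 0, .ofNat 0), (.ofNat 1, .ofNat 0)⟩ ::
 ⟨⟨.ofNat 1, .ofNat 0, .ofNat 2, .negSucc 0, .negSucc 2, .negSucc 2⟩, (.ofNat 0, .ofNat 0), (.ofNat 0, .ofNat 0), (.ofNat 1, .ofNat 0)⟩ ::
 ⟨⟨.ofNat 1, .ofNat 0, .ofNat 2, .negSucc 0, .negSucc 2, .negSucc 1⟩, (.ofNat 0, .ofNat 0), (.ofNat 0, .ofNat 0), (.ofNat 1, .ofNat 0)⟩ ::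
 ⟨⟨.ofNat 1, .ofNat 0, .ofNat 2, .negSucc 0, .negSucc 2, .negSucc 0⟩, (.ofNat 0, .ofNat 0), (.ofNat 0, .ofNat 0), (.ofNat 1, .ofNat 0)⟩ ::
 ⟨⟨.ofNat 1, .ofNat 0, .ofNat 2, .negSucc 0, .negSucc 2, .ofNat 0⟩, (.ofNat 0, .ofNat 0), (.ofNat 0, .ofNat 0), (.ofNat 1, .ofNat 0)⟩ ::
 ⟨⟨.ofNat 1, .ofNat 0, .ofNat 2, .negSucc 0, .negSucc 2, .ofNat 1⟩, (.ofNat 0, .ofNat 0), (.ofNat 0, .ofNat 0), (.ofNat 1, .ofNat 0)⟩ ::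
 ⟨⟨.ofNat 1, .ofNat 0, .ofNat 2, .negSucc 0, .negSucc 2, .ofNat 2⟩, (.ofNat 0, .ofNat 0), (.ofNat 0, .ofNat 0), (.ofNat 1, .ofNat 0)⟩ ::
 ⟨⟨.ofNat 1, .ofNat 0, .ofNat 2, .negSucc 0, .negSucc 2, .ofNat 3⟩, (.ofNat 0, .ofNat 0), (.ofNat 0, .ofNat 0), (.ofNat 1, .ofNat 0)⟩ ::
 ⟨⟨.ofNat 1, .ofNat 0, .ofNat 2, .ofNat 0, .negSucc 1, .negSucc 4⟩, (.ofNat 0, .ofNat 0), (.ofNat 0, .ofNat 0), (.ofNat 1, .ofNat 0)⟩ ::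
 ⟨⟨.ofNat 1, .ofNat 0, .ofNat 2, .ofNat 0, .negSucc 1, .negSucc 3⟩, (.ofNat 0, .ofNat 0), (.ofNat 0, .ofNat 0), (.ofNat 1, .ofNat 0)⟩ ::
 ⟨⟨.ofNat 1, .ofNat 0, .ofNat 2, .ofNat 0, .negSucc 1, .negSucc 2⟩, (.ofNat 0, .ofNat 0), (.ofNat 0, .ofNat 0), (.ofNat 1, .ofNat 0)⟩ ::
 ⟨⟨.ofNat 1, .ofNat 0, .ofNat 2, .ofNat 0, .negSucc 1, .negSucc 1⟩, (.ofNat 0, .ofNat 0), (.ofNat 0, .ofNat 0), (.ofNat 1, .ofNat 0)⟩ ::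
 ⟨⟨.ofNat 1, .ofNat 0, .ofNat 2, .ofNat 0, .negSucc 1, .negSucc 0⟩, (.ofNat 0, .ofNat 0), (.ofNat 0, .ofNat 0), (.ofNat 1, .ofNat 0)⟩ ::
 ⟨⟨.ofNat 1, .ofNat 0, .ofNat 2, .ofNat 0, .negSucc 1, .ofNat 0⟩, (.ofNat 0, .ofNat 0), (.ofNat 0, .ofNat 0), (.ofNat 1, .ofNat 0)⟩ ::
 ⟨⟨.ofNat 1, .ofNat 0, .ofNat 2, .ofNat 0, .negSucc 1, .ofNat 1⟩, (.ofNat 0, .ofNat 0), (.ofNat 0, .ofNat 0), (.ofNat 1, .ofNat 0)⟩ ::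
 ⟨⟨.ofNat 1, .ofNat 0, .ofNat 2, .ofNat 0, .negSucc 1, .ofNat 2⟩, (.ofNat 0, .ofNat 0), (.ofNat 0, .ofNat 0), (.ofNat 1, .ofNat 0)⟩ ::
 ⟨⟨.ofNat 1, .ofNat 0, .ofNat 2, .ofNat 1, .negSucc 2, .negSucc 5⟩, (.ofNat 0, .ofNat 0), (.ofNat 0, .ofNat 0), (.ofNat 1, .ofNat 0)⟩ ::
 ⟨⟨.ofNat 1, .ofNat 0, .ofNat 2, .ofNat 1, .negSucc 2, .negSucc 4⟩, (.ofNat 0, .ofNat 0), (.ofNat 0, .ofNat 0), (.ofNat 1, .ofNat 0)⟩ ::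
 ⟨⟨.ofNat 1, .ofNat 0, .ofNat 2, .ofNat 1, .negSucc 2, .negSucc 3⟩, (.ofNat 0, .ofNat 0), (.ofNat 0, .ofNat 0), (.ofNat 1, .ofNat 0)⟩ ::
 ⟨⟨.ofNat 1, .ofNat 0, .ofNat 2, .ofNat 1, .negSucc 2, .negSucc 2⟩, (.ofNat 0, .ofNat 0), (.ofNat 0, .ofNat 0), (.ofNat 1, .ofNat 0)⟩ ::
 ⟨⟨.ofNat 1, .ofNat 0, .ofNat 2, .ofNat 1, .negSucc 2, .negSucc 1⟩, (.ofNat 0, .ofNat 0), (.ofNat 0, .ofNat 0), (.ofNat 1, .ofNat 0)⟩ ::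
 ⟨⟨.ofNat 1, .ofNat 0, .ofNat 2, .ofNat 1, .negSucc 2, .negSucc 0⟩, (.ofNat 0, .ofNat 0), (.ofNat 0, .ofNat 0), (.ofNat 1, .ofNat 0)⟩ ::
 ⟨⟨.ofNat 1, .ofNat 0, .ofNat 2, .ofNat 1, .negSucc 2, .ofNat 0⟩, (.ofNat 0, .ofNat 0), (.ofNat 0, .ofNat 0), (.ofNat 1, .ofNat 0)⟩ ::
 ⟨⟨.ofNat 1, .ofNat 0, .ofNat 2, .ofNat 1, .negSucc 2, .ofNat 1⟩, (.ofNat 0, .ofNat 0), (.ofNat 0, .ofNat 0), (.ofNat 1, .ofNat 0)⟩ ::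
 ⟨⟨.ofNat 1, .ofNat 0, .ofNat 2, .ofNat 1, .negSucc 2, .ofNat 2⟩, (.ofNat 0, .ofNat 0), (.ofNat 0, .ofNat 0), (.ofNat 1, .ofNat 0)⟩ ::
 ⟨⟨.ofNat 1, .ofNat 1, .negSucc 1, .ofNat 0, .ofNat 4, .negSucc 2⟩, (.negSucc 0, .ofNat 0), (.ofNat 0, .negSucc 0), (.ofNat 1, .ofNat 2)⟩ ::
 ⟨⟨.ofNat 1, .ofNat 1, .negSucc 1, .ofNat 0, .ofNat 2, .negSucc 1⟩, (.negSucc 0, .ofNat 0), (.ofNat 0, .negSucc 0), (.ofNat 1, .ofNat 1)⟩ ::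
 ⟨⟨.ofNat 1, .ofNat 1, .negSucc 1, .ofNat 0, .ofNat 0, .negSucc 0⟩, (.negSucc 0, .ofNat 0), (.ofNat 0, .negSucc 0), (.ofNat 1, .ofNat 0)⟩ ::
 ⟨⟨.ofNat 1, .ofNat 1, .negSucc 1, .ofNat 0, .negSucc 1, .ofNat 0⟩, (.ofNat 1, .negSucc 0), (.ofNat 0, .ofNat 1), (.ofNat 1, .ofNat 1)⟩ ::
 ⟨⟨.ofNat 1, .ofNat 1, .ofNat 0, .negSucc 0, .ofNat 3, .negSucc 1⟩, (.ofNat 0, .negSucc 0), (.ofNat 0, .ofNat 0), (.negSucc 2, .ofNat 0)⟩ ::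
 ⟨⟨.ofNat 1, .ofNat 1, .ofNat 0, .negSucc 0, .ofNat 1, .negSucc 0⟩, (.negSucc 0, .ofNat 0), (.ofNat 0, .ofNat 0), (.ofNat 0, .ofNat 1)⟩ ::
 ⟨⟨.ofNat 1, .ofNat 1, .ofNat 0, .negSucc 0, .negSucc 0, .ofNat 0⟩, (.negSucc 0, .ofNat 0), (.ofNat 0, .ofNat 0), (.ofNat 0, .ofNat 0)⟩ ::
 ⟨⟨.ofNat 1, .ofNat 1, .ofNat 0, .negSucc 0, .negSucc 2, .ofNat 1⟩, (.negSucc 0, .ofNat 0), (.ofNat 0, .ofNat 0), (.ofNat 0, .negSucc 0)⟩ ::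
 ⟨⟨.ofNat 1, .ofNat 1, .ofNat 0, .ofNat 1, .ofNat 5, .negSucc 2⟩, (.negSucc 0, .ofNat 0), (.ofNat 0, .ofNat 0), (.ofNat 0, .ofNat 3)⟩ ::
 ⟨⟨.ofNat 1, .ofNat 1, .ofNat 0, .ofNat 1, .ofNat 3, .negSucc 1⟩, (.negSucc 0, .ofNat 0), (.ofNat 0, .ofNat 0), (.ofNat 0, .ofNat 2)⟩ ::
 t

noncomputable def r9 (t : List Ent) : List Ent :=
 ⟨⟨.ofNat 1, .ofNat 1, .ofNat 0, .ofNat 1, .ofNat 1, .negSucc 0⟩, (.ofNat 0, .negSucc 0), (.ofNat 0, .ofNat 0), (.negSucc 0, .ofNat 0)⟩ ::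
 ⟨⟨.ofNat 1, .ofNat 1, .ofNat 0, .ofNat 1, .negSucc 0, .ofNat 0⟩, (.ofNat 0, .negSucc 0), (.ofNat 0, .ofNat 0), (.ofNat 1, .ofNat 0)⟩ ::
 ⟨⟨.ofNat 1, .ofNat 1, .ofNat 0, .ofNat 2, .ofNat 6, .negSucc 4⟩, (.negSucc 0, .ofNat 0), (.negSucc 1, .negSucc 0), (.ofNat 3, .ofNat 4)⟩ ::
 ⟨⟨.ofNat 1, .ofNat 1, .ofNat 0, .ofNat 2, .ofNat 4, .negSucc 3⟩, (.negSucc 0, .negSucc 0), (.ofNat 0, .negSucc 0), (.negSucc 4, .ofNat 3)⟩ ::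
 ⟨⟨.ofNat 1, .ofNat 1, .ofNat 0, .ofNat 2, .ofNat 2, .negSucc 2⟩, (.ofNat 1, .negSucc 0), (.ofNat 2, .negSucc 0), (.negSucc 2, .ofNat 0)⟩ ::
 ⟨⟨.ofNat 1, .ofNat 1, .ofNat 0, .ofNat 2, .ofNat 0, .negSucc 1⟩, (.negSucc 0, .negSucc 0), (.ofNat 0, .negSucc 0), (.negSucc 0, .ofNat 1)⟩ ::
 ⟨⟨.ofNat 1, .ofNat 1, .ofNat 0, .ofNat 2, .negSucc 1, .negSucc 0⟩, (.negSucc 0, .negSucc 0), (.ofNat 0, .negSucc 0), (.ofNat 1, .ofNat 0)⟩ ::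
 ⟨⟨.ofNat 1, .ofNat 1, .ofNat 2, .negSucc 1, .ofNat 0, .negSucc 2⟩, (.negSucc 0, .ofNat 0), (.ofNat 0, .ofNat 1), (.ofNat 1, .ofNat 2)⟩ ::
 ⟨⟨.ofNat 1, .ofNat 1, .ofNat 2, .negSucc 1, .negSucc 1, .negSucc 1⟩, (.negSucc 0, .ofNat 0), (.ofNat 0, .ofNat 1), (.ofNat 1, .ofNat 1)⟩ ::
 ⟨⟨.ofNat 1, .ofNat 1, .ofNat 2, .negSucc 1, .negSucc 3, .negSucc 0⟩, (.negSucc 0, .ofNat 0), (.ofNat 0, .ofNat 1), (.ofNat 1, .ofNat 0)⟩ ::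
 ⟨⟨.ofNat 1, .ofNat 1, .ofNat 2, .negSucc 1, .negSucc 5, .ofNat 0⟩, (.negSucc 0, .ofNat 0), (.ofNat 0, .ofNat 1), (.ofNat 1, .negSucc 0)⟩ ::
 ⟨⟨.ofNat 1, .ofNat 1, .ofNat 2, .ofNat 0, .ofNat 4, .negSucc 2⟩, (.negSucc 0, .ofNat 0), (.ofNat 0, .ofNat 1), (.ofNat 1, .ofNat 2)⟩ ::
 ⟨⟨.ofNat 1, .ofNat 1, .ofNat 2, .ofNat 0, .ofNat 2, .negSucc 1⟩, (.negSucc 0, .ofNat 0), (.ofNat 0, .ofNat 1), (.ofNat 1, .ofNat 1)⟩ ::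
 ⟨⟨.ofNat 1, .ofNat 1, .ofNat 2, .ofNat 0, .ofNat 0, .negSucc 0⟩, (.ofNat 0, .negSucc 0), (.negSucc 1, .ofNat 0), (.ofNat 1, .ofNat 1)⟩ ::
 ⟨⟨.ofNat 1, .ofNat 1, .ofNat 2, .ofNat 0, .negSucc 1, .ofNat 0⟩, (.ofNat 1, .negSucc 0), (.ofNat 0, .negSucc 0), (.ofNat 1, .ofNat 1)⟩ ::
 ⟨⟨.ofNat 1, .ofNat 1, .ofNat 2, .ofNat 1, .ofNat 5, .negSucc 3⟩, (.ofNat 0, .negSucc 0), (.ofNat 0, .negSucc 1), (.negSucc 6, .ofNat 2)⟩ ::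
 ⟨⟨.ofNat 1, .ofNat 1, .ofNat 2, .ofNat 1, .ofNat 3, .negSucc 2⟩, (.ofNat 1, .negSucc 0), (.ofNat 0, .negSucc 1), (.negSucc 3, .ofNat 0)⟩ ::
 ⟨⟨.ofNat 1, .ofNat 1, .ofNat 2, .ofNat 1, .ofNat 1, .negSucc 1⟩, (.negSucc 1, .negSucc 0), (.negSucc 1, .ofNat 0), (.negSucc 0, .ofNat 2)⟩ ::
 ⟨⟨.ofNat 1, .ofNat 1, .ofNat 2, .ofNat 1, .negSucc 0, .negSucc 0⟩, (.negSucc 1, .ofNat 0), (.negSucc 1, .ofNat 0), (.ofNat 1, .ofNat 1)⟩ ::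
 ⟨⟨.ofNat 1, .ofNat 1, .ofNat 2, .ofNat 1, .negSucc 2, .ofNat 0⟩, (.negSucc 0, .ofNat 0), (.negSucc 1, .ofNat 0), (.ofNat 2, .ofNat 0)⟩ ::
 ⟨⟨.ofNat 1, .ofNat 1, .ofNat 4, .negSucc 0, .ofNat 1, .negSucc 4⟩, (.negSucc 0, .ofNat 0), (.ofNat 0, .ofNat 2), (.ofNat 4, .ofNat 1)⟩ ::
 ⟨⟨.ofNat 1, .ofNat 1, .ofNat 4, .negSucc 0, .negSucc 0, .negSucc 3⟩, (.ofNat 0, .negSucc 0), (.negSucc 3, .ofNat 0), (.ofNat 1, .ofNat 4)⟩ ::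
 ⟨⟨.ofNat 1, .ofNat 1, .ofNat 4, .negSucc 0, .negSucc 2, .negSucc 2⟩, (.ofNat 1, .negSucc 0), (.negSucc 1, .negSucc 1), (.negSucc 1, .ofNat 2)⟩ ::
 ⟨⟨.ofNat 1, .ofNat 1, .ofNat 4, .negSucc 0, .negSucc 4, .negSucc 1⟩, (.ofNat 1, .negSucc 0), (.negSucc 1, .negSucc 1), (.ofNat 0, .ofNat 3)⟩ ::
 ⟨⟨.ofNat 1, .ofNat 1, .ofNat 4, .negSucc 0, .negSucc 6, .negSucc 0⟩, (.negSucc 0, .ofNat 0), (.ofNat 0, .ofNat 2), (.ofNat 4, .negSucc 2)⟩ ::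
 ⟨⟨.ofNat 1, .ofNat 1, .ofNat 4, .ofNat 0, .ofNat 2, .negSucc 4⟩, (.negSucc 0, .negSucc 0), (.negSucc 3, .ofNat 1), (.ofNat 1, .ofNat 4)⟩ ::
 ⟨⟨.ofNat 1, .ofNat 1, .ofNat 4, .ofNat 0, .ofNat 0, .negSucc 3⟩, (.negSucc 0, .negSucc 0), (.negSucc 3, .ofNat 1), (.ofNat 3, .ofNat 3)⟩ ::
 ⟨⟨.ofNat 1, .ofNat 1, .ofNat 4, .ofNat 0, .negSucc 1, .negSucc 2⟩, (.negSucc 0, .ofNat 0), (.negSucc 1, .ofNat 1), (.ofNat 3, .ofNat 2)⟩ ::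
 ⟨⟨.ofNat 1, .ofNat 1, .ofNat 4, .ofNat 0, .negSucc 3, .negSucc 1⟩, (.negSucc 0, .ofNat 0), (.negSucc 1, .ofNat 1), (.ofNat 3, .ofNat 1)⟩ ::
 ⟨⟨.ofNat 1, .ofNat 1, .ofNat 4, .ofNat 0, .negSucc 5, .negSucc 0⟩, (.ofNat 0, .negSucc 0), (.negSucc 1, .negSucc 1), (.ofNat 1, .ofNat 3)⟩ ::
 ⟨⟨.ofNat 1, .ofNat 2, .negSucc 1, .ofNat 0, .ofNat 6, .negSucc 1⟩, (.negSucc 0, .negSucc 1), (.ofNat 2, .negSucc 0), (.negSucc 4, .ofNat 2)⟩ ::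
 ⟨⟨.ofNat 1, .ofNat 2, .negSucc 1, .ofNat 0, .ofNat 2, .negSucc 0⟩, (.negSucc 0, .negSucc 1), (.ofNat 2, .negSucc 0), (.negSucc 0, .ofNat 1)⟩ ::
 ⟨⟨.ofNat 1, .ofNat 2, .negSucc 1, .ofNat 0, .negSucc 1, .ofNat 0⟩, (.ofNat 0, .negSucc 0), (.ofNat 0, .ofNat 0), (.ofNat 1, .ofNat 0)⟩ ::
 ⟨⟨.ofNat 1, .ofNat 2, .negSucc 1, .ofNat 1, .ofNat 5, .negSucc 1⟩, (.negSucc 1, .negSucc 0), (.ofNat 0, .negSucc 1), (.negSucc 0, .ofNat 3)⟩ ::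
 ⟨⟨.ofNat 1, .ofNat 2, .negSucc 1, .ofNat 1, .ofNat 1, .negSucc 0⟩, (.ofNat 0, .negSucc 0), (.ofNat 2, .ofNat 0), (.negSucc 0, .ofNat 1)⟩ ::
 ⟨⟨.ofNat 1, .ofNat 2, .ofNat 0, .negSucc 1, .ofNat 4, .negSucc 1⟩, (.ofNat 1, .negSucc 0), (.negSucc 1, .ofNat 1), (.negSucc 2, .ofNat 0)⟩ ::
 ⟨⟨.ofNat 1, .ofNat 2, .ofNat 0, .negSucc 1, .ofNat 0, .negSucc 0⟩, (.ofNat 1, .negSucc 0), (.negSucc 1, .ofNat 1), (.negSucc 0, .ofNat 1)⟩ ::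
 ⟨⟨.ofNat 1, .ofNat 2, .ofNat 0, .negSucc 1, .negSucc 3, .ofNat 0⟩, (.ofNat 1, .negSucc 0), (.negSucc 1, .ofNat 1), (.ofNat 1, .ofNat 2)⟩ ::
 ⟨⟨.ofNat 1, .ofNat 2, .ofNat 0, .negSucc 0, .ofNat 3, .negSucc 0⟩, (.negSucc 0, .ofNat 0), (.ofNat 0, .ofNat 0), (.ofNat 0, .ofNat 1)⟩ ::
 ⟨⟨.ofNat 1, .ofNat 2, .ofNat 0, .negSucc 0, .negSucc 0, .ofNat 0⟩, (.negSucc 0, .ofNat 0), (.ofNat 0, .ofNat 0), (.ofNat 0, .ofNat 0)⟩ ::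
 ⟨⟨.ofNat 1, .ofNat 2, .ofNat 0, .ofNat 1, .ofNat 7, .negSucc 1⟩, (.negSucc 4, .negSucc 8), (.ofNat 2, .negSucc 5), (.negSucc 31, .ofNat 11)⟩ ::
 ⟨⟨.ofNat 1, .ofNat 2, .ofNat 0, .ofNat 1, .ofNat 3, .negSucc 0⟩, (.ofNat 0, .negSucc 1), (.ofNat 0, .ofNat 0), (.negSucc 2, .ofNat 0)⟩ ::
 ⟨⟨.ofNat 1, .ofNat 2, .ofNat 0, .ofNat 1, .negSucc 0, .ofNat 0⟩, (.ofNat 0, .negSucc 1), (.ofNat 0, .ofNat 0), (.ofNat 1, .ofNat 0)⟩ ::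
 ⟨⟨.ofNat 1, .ofNat 2, .ofNat 0, .ofNat 2, .ofNat 8, .negSucc 2⟩, (.negSucc 3, .negSucc 7), (.ofNat 0, .negSucc 9), (.negSucc 30, .ofNat 14)⟩ ::
 ⟨⟨.ofNat 1, .ofNat 2, .ofNat 0, .ofNat 2, .ofNat 4, .negSucc 1⟩, (.ofNat 1, .negSucc 0), (.ofNat 2, .negSucc 0), (.negSucc 2, .ofNat 0)⟩ ::
 ⟨⟨.ofNat 1, .ofNat 2, .ofNat 0, .ofNat 2, .ofNat 0, .negSucc 0⟩, (.negSucc 1, .ofNat 0), (.negSucc 1, .ofNat 0), (.ofNat 1, .ofNat 0)⟩ ::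
 ⟨⟨.ofNat 1, .ofNat 2, .ofNat 0, .ofNat 4, .ofNat 12, .negSucc 6⟩, (.negSucc 0, .negSucc 3), (.ofNat 0, .negSucc 6), (.negSucc 22, .ofNat 9)⟩ ::
 ⟨⟨.ofNat 1, .ofNat 2, .ofNat 0, .ofNat 4, .ofNat 8, .negSucc 5⟩, (.negSucc 0, .negSucc 1), (.ofNat 0, .negSucc 4), (.negSucc 6, .ofNat 8)⟩ ::
 ⟨⟨.ofNat 1, .ofNat 2, .ofNat 0, .ofNat 4, .ofNat 4, .negSucc 4⟩, (.negSucc 1, .negSucc 0), (.negSucc 1, .negSucc 1), (.negSucc 0, .ofNat 4)⟩ ::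
 ⟨⟨.ofNat 1, .ofNat 2, .ofNat 0, .ofNat 4, .ofNat 0, .negSucc 3⟩, (.negSucc 1, .negSucc 0), (.negSucc 1, .negSucc 1), (.ofNat 1, .ofNat 2)⟩ ::
 t

noncomputable def r10 (t : List Ent) : List Ent :=
 ⟨⟨.ofNat 1, .ofNat 2, .ofNat 2, .negSucc 0, .ofNat 1, .negSucc 0⟩, (.ofNat 0, .negSucc 0), (.negSucc 1, .ofNat 0), (.negSucc 0, .ofNat 1)⟩ ::
 ⟨⟨.ofNat 1, .ofNat 2, .ofNat 2, .negSucc 0, .negSucc 2, .ofNat 0⟩, (.ofNat 0, .negSucc 0), (.negSucc 1, .ofNat 0), (.ofNat 1, .ofNat 1)⟩ ::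
 ⟨⟨.ofNat 1, .ofNat 2, .ofNat 2, .ofNat 0, .ofNat 2, .negSucc 0⟩, (.ofNat 0, .negSucc 0), (.ofNat 0, .ofNat 0), (.negSucc 0, .ofNat 0)⟩ ::
 ⟨⟨.ofNat 1, .ofNat 2, .ofNat 2, .ofNat 0, .negSucc 1, .ofNat 0⟩, (.negSucc 0, .negSucc 1), (.negSucc 1, .ofNat 1), (.ofNat 3, .ofNat 0)⟩ ::
 ⟨⟨.ofNat 1, .ofNat 2, .ofNat 2, .ofNat 2, .ofNat 6, .negSucc 2⟩, (.ofNat 1, .negSucc 0), (.ofNat 0, .negSucc 0), (.negSucc 2, .negSucc 0)⟩ ::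
 ⟨⟨.ofNat 1, .ofNat 2, .ofNat 2, .ofNat 2, .ofNat 2, .negSucc 1⟩, (.ofNat 1, .negSucc 0), (.ofNat 0, .negSucc 0), (.negSucc 0, .ofNat 0)⟩ ::
 ⟨⟨.ofNat 1, .ofNat 2, .ofNat 2, .ofNat 2, .negSucc 1, .negSucc 0⟩, (.negSucc 1, .ofNat 0), (.negSucc 1, .ofNat 0), (.ofNat 1, .ofNat 0)⟩ ::
 ⟨⟨.ofNat 1, .ofNat 2, .ofNat 2, .ofNat 3, .ofNat 9, .negSucc 4⟩, (.ofNat 0, .negSucc 2), (.negSucc 1, .negSucc 3), (.negSucc 12, .ofNat 3)⟩ ::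
 ⟨⟨.ofNat 1, .ofNat 2, .ofNat 2, .ofNat 3, .ofNat 5, .negSucc 3⟩, (.ofNat 0, .negSucc 2), (.negSucc 1, .negSucc 3), (.negSucc 6, .ofNat 3)⟩ ::
 ⟨⟨.ofNat 1, .ofNat 2, .ofNat 2, .ofNat 3, .ofNat 1, .negSucc 2⟩, (.negSucc 2, .negSucc 1), (.negSucc 3, .negSucc 1), (.ofNat 0, .ofNat 3)⟩ ::
 ⟨⟨.ofNat 1, .ofNat 2, .ofNat 4, .negSucc 2, .ofNat 3, .negSucc 4⟩, (.negSucc 3, .negSucc 4), (.negSucc 9, .ofNat 8), (.negSucc 8, .ofNat 15)⟩ ::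
 ⟨⟨.ofNat 1, .ofNat 2, .ofNat 4, .negSucc 2, .negSucc 0, .negSucc 3⟩, (.ofNat 0, .negSucc 3), (.negSucc 7, .ofNat 4), (.ofNat 1, .ofNat 6)⟩ ::
 ⟨⟨.ofNat 1, .ofNat 2, .ofNat 4, .negSucc 2, .negSucc 4, .negSucc 2⟩, (.ofNat 1, .negSucc 0), (.negSucc 3, .ofNat 0), (.ofNat 0, .ofNat 4)⟩ ::
 ⟨⟨.ofNat 1, .ofNat 2, .ofNat 4, .negSucc 2, .negSucc 8, .negSucc 1⟩, (.ofNat 1, .negSucc 0), (.negSucc 3, .ofNat 0), (.ofNat 2, .ofNat 5)⟩ ::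
 ⟨⟨.ofNat 1, .ofNat 2, .ofNat 4, .negSucc 1, .ofNat 0, .negSucc 2⟩, (.negSucc 0, .ofNat 0), (.ofNat 0, .ofNat 1), (.ofNat 1, .ofNat 1)⟩ ::
 ⟨⟨.ofNat 1, .ofNat 2, .ofNat 4, .negSucc 1, .negSucc 3, .negSucc 1⟩, (.negSucc 0, .ofNat 0), (.ofNat 0, .ofNat 1), (.ofNat 1, .ofNat 0)⟩ ::
 ⟨⟨.ofNat 1, .ofNat 2, .ofNat 4, .negSucc 1, .negSucc 7, .negSucc 0⟩, (.ofNat 0, .negSucc 1), (.negSucc 3, .ofNat 0), (.ofNat 5, .ofNat 2)⟩ ::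
 ⟨⟨.ofNat 1, .ofNat 2, .ofNat 4, .ofNat 0, .ofNat 4, .negSucc 2⟩, (.negSucc 0, .ofNat 0), (.ofNat 0, .ofNat 1), (.ofNat 1, .ofNat 1)⟩ ::
 ⟨⟨.ofNat 1, .ofNat 2, .ofNat 4, .ofNat 0, .ofNat 0, .negSucc 1⟩, (.ofNat 0, .negSucc 1), (.negSucc 3, .ofNat 0), (.ofNat 1, .ofNat 2)⟩ ::
 ⟨⟨.ofNat 1, .ofNat 2, .ofNat 4, .ofNat 0, .negSucc 3, .negSucc 0⟩, (.negSucc 0, .ofNat 0), (.ofNat 0, .ofNat 1), (.ofNat 1, .negSucc 0)⟩ ::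
 ⟨⟨.ofNat 1, .ofNat 2, .ofNat 4, .ofNat 1, .ofNat 7, .negSucc 3⟩, (.negSucc 4, .negSucc 4), (.negSucc 9, .ofNat 0), (.negSucc 15, .ofNat 13)⟩ ::
 ⟨⟨.ofNat 1, .ofNat 2, .ofNat 4, .ofNat 1, .ofNat 3, .negSucc 2⟩, (.ofNat 1, .negSucc 0), (.ofNat 0, .negSucc 1), (.negSucc 3, .ofNat 0)⟩ ::
 ⟨⟨.ofNat 1, .ofNat 2, .ofNat 4, .ofNat 1, .negSucc 0, .negSucc 1⟩, (.ofNat 2, .negSucc 0), (.ofNat 0, .negSucc 1), (.negSucc 0, .ofNat 1)⟩ ::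
 ⟨⟨.ofNat 1, .ofNat 2, .ofNat 4, .ofNat 1, .negSucc 4, .negSucc 0⟩, (.negSucc 1, .ofNat 0), (.negSucc 1, .ofNat 2), (.ofNat 3, .negSucc 1)⟩ ::
 ⟨⟨.ofNat 1, .ofNat 2, .ofNat 4, .ofNat 3, .ofNat 7, .negSucc 5⟩, (.ofNat 0, .negSucc 0), (.negSucc 1, .negSucc 1), (.negSucc 2, .ofNat 3)⟩ ::
 ⟨⟨.ofNat 1, .ofNat 2, .ofNat 4, .ofNat 3, .ofNat 3, .negSucc 4⟩, (.negSucc 2, .negSucc 1), (.negSucc 5, .negSucc 1), (.negSucc 1, .ofNat 7)⟩ ::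
 ⟨⟨.ofNat 1, .ofNat 2, .ofNat 4, .ofNat 3, .negSucc 0, .negSucc 3⟩, (.ofNat 0, .negSucc 0), (.negSucc 1, .negSucc 1), (.ofNat 1, .ofNat 3)⟩ ::
 ⟨⟨.ofNat 1, .ofNat 2, .ofNat 4, .ofNat 3, .negSucc 4, .negSucc 2⟩, (.negSucc 1, .negSucc 0), (.negSucc 3, .ofNat 0), (.ofNat 5, .negSucc 0)⟩ ::
 ⟨⟨.ofNat 1, .ofNat 2, .ofNat 6, .negSucc 1, .ofNat 2, .negSucc 5⟩, (.negSucc 2, .negSucc 1), (.negSucc 3, .ofNat 5), (.ofNat 3, .ofNat 6)⟩ ::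
 ⟨⟨.ofNat 1, .ofNat 2, .ofNat 6, .negSucc 1, .negSucc 1, .negSucc 4⟩, (.ofNat 2, .negSucc 1), (.negSucc 5, .negSucc 1), (.negSucc 2, .ofNat 4)⟩ ::
 ⟨⟨.ofNat 1, .ofNat 2, .ofNat 6, .negSucc 1, .negSucc 5, .negSucc 3⟩, (.ofNat 0, .negSucc 0), (.negSucc 3, .ofNat 0), (.ofNat 1, .ofNat 4)⟩ ::
 ⟨⟨.ofNat 1, .ofNat 2, .ofNat 6, .negSucc 1, .negSucc 9, .negSucc 2⟩, (.negSucc 0, .negSucc 1), (.negSucc 5, .ofNat 1), (.ofNat 7, .ofNat 3)⟩ ::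
 ⟨⟨.ofNat 1, .ofNat 2, .ofNat 6, .negSucc 0, .ofNat 1, .negSucc 4⟩, (.negSucc 1, .negSucc 0), (.negSucc 3, .ofNat 2), (.ofNat 1, .ofNat 5)⟩ ::
 ⟨⟨.ofNat 1, .ofNat 2, .ofNat 6, .negSucc 0, .negSucc 2, .negSucc 3⟩, (.ofNat 0, .negSucc 0), (.negSucc 1, .ofNat 0), (.ofNat 1, .ofNat 1)⟩ ::
 ⟨⟨.ofNat 1, .ofNat 2, .ofNat 6, .negSucc 0, .negSucc 6, .negSucc 2⟩, (.negSucc 1, .negSucc 0), (.negSucc 3, .ofNat 2), (.ofNat 5, .ofNat 1)⟩ ::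
 ⟨⟨.ofNat 1, .ofNat 2, .ofNat 6, .ofNat 1, .ofNat 5, .negSucc 5⟩, (.negSucc 3, .negSucc 2), (.negSucc 9, .ofNat 2), (.negSucc 2, .ofNat 11)⟩ ::
 ⟨⟨.ofNat 1, .ofNat 2, .ofNat 6, .ofNat 1, .ofNat 1, .negSucc 4⟩, (.ofNat 1, .negSucc 0), (.negSucc 1, .negSucc 1), (.negSucc 1, .ofNat 2)⟩ ::
 ⟨⟨.ofNat 1, .ofNat 2, .ofNat 6, .ofNat 1, .negSucc 2, .negSucc 3⟩, (.ofNat 0, .negSucc 3), (.negSucc 7, .negSucc 3), (.ofNat 1, .ofNat 6)⟩ ::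
 ⟨⟨.ofNat 1, .ofNat 2, .ofNat 6, .ofNat 1, .negSucc 6, .negSucc 2⟩, (.negSucc 3, .negSucc 4), (.negSucc 17, .negSucc 1), (.ofNat 19, .ofNat 9)⟩ ::
 ⟨⟨.ofNat 1, .ofNat 2, .ofNat 6, .ofNat 2, .ofNat 6, .negSucc 6⟩, (.ofNat 0, .negSucc 1), (.negSucc 3, .negSucc 3), (.negSucc 10, .ofNat 6)⟩ ::
 ⟨⟨.ofNat 1, .ofNat 2, .ofNat 6, .ofNat 2, .ofNat 2, .negSucc 5⟩, (.negSucc 2, .negSucc 1), (.negSucc 7, .ofNat 1), (.ofNat 3, .ofNat 6)⟩ ::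
 ⟨⟨.ofNat 1, .ofNat 2, .ofNat 6, .ofNat 2, .negSucc 1, .negSucc 4⟩, (.ofNat 1, .negSucc 2), (.negSucc 3, .negSucc 4), (.negSucc 2, .ofNat 5)⟩ ::
 ⟨⟨.ofNat 1, .ofNat 2, .ofNat 6, .ofNat 2, .negSucc 5, .negSucc 3⟩, (.negSucc 0, .ofNat 0), (.negSucc 1, .ofNat 1), (.ofNat 3, .ofNat 0)⟩ ::
 ⟨⟨.ofNat 1, .ofNat 3, .negSucc 3, .ofNat 0, .ofNat 10, .negSucc 2⟩, (.ofNat 1, .negSucc 6), (.ofNat 10, .ofNat 1), (.negSucc 22, .ofNat 2)⟩ ::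
 ⟨⟨.ofNat 1, .ofNat 3, .negSucc 3, .ofNat 0, .ofNat 4, .negSucc 1⟩, (.ofNat 0, .negSucc 0), (.ofNat 2, .ofNat 0), (.negSucc 0, .ofNat 1)⟩ ::
 ⟨⟨.ofNat 1, .ofNat 3, .negSucc 3, .ofNat 0, .negSucc 1, .negSucc 0⟩, (.ofNat 0, .negSucc 0), (.ofNat 2, .ofNat 0), (.ofNat 1, .ofNat 1)⟩ ::
 ⟨⟨.ofNat 1, .ofNat 3, .negSucc 1, .negSucc 1, .ofNat 6, .negSucc 1⟩, (.ofNat 0, .negSucc 1), (.ofNat 0, .ofNat 2), (.negSucc 4, .ofNat 1)⟩ ::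
 ⟨⟨.ofNat 1, .ofNat 3, .negSucc 1, .negSucc 1, .ofNat 0, .negSucc 0⟩, (.negSucc 0, .negSucc 3), (.ofNat 4, .ofNat 3), (.ofNat 1, .ofNat 2)⟩ ::
 ⟨⟨.ofNat 1, .ofNat 3, .negSucc 1, .negSucc 0, .ofNat 3, .negSucc 0⟩, (.ofNat 0, .negSucc 0), (.ofNat 0, .ofNat 0), (.negSucc 0, .ofNat 0)⟩ ::
 ⟨⟨.ofNat 1, .ofNat 3, .negSucc 1, .negSucc 0, .negSucc 2, .ofNat 0⟩, (.ofNat 0, .negSucc 0), (.ofNat 0, .ofNat 0), (.ofNat 1, .ofNat 0)⟩ ::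
 t

noncomputable def r11 (t : List Ent) : List Ent :=
 ⟨⟨.ofNat 1, .ofNat 3, .negSucc 1, .ofNat 0, .ofNat 4, .negSucc 0⟩, (.negSucc 2, .negSucc 0), (.ofNat 0, .negSucc 0), (.negSucc 0, .ofNat 2)⟩ ::
 ⟨⟨.ofNat 1, .ofNat 3, .negSucc 1, .ofNat 1, .ofNat 9, .negSucc 1⟩, (.ofNat 0, .negSucc 0), (.ofNat 0, .ofNat 0), (.negSucc 2, .ofNat 0)⟩ ::
 ⟨⟨.ofNat 1, .ofNat 3, .negSucc 1, .ofNat 1, .ofNat 3, .negSucc 0⟩, (.negSucc 2, .negSucc 0), (.ofNat 0, .negSucc 1), (.ofNat 0, .ofNat 2)⟩ ::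
 ⟨⟨.ofNat 1, .ofNat 3, .negSucc 1, .ofNat 2, .ofNat 12, .negSucc 2⟩, (.negSucc 2, .ofNat 0), (.negSucc 1, .negSucc 0), (.ofNat 1, .ofNat 6)⟩ ::
 ⟨⟨.ofNat 1, .ofNat 3, .negSucc 1, .ofNat 2, .ofNat 6, .negSucc 1⟩, (.negSucc 1, .negSucc 0), (.ofNat 0, .negSucc 1), (.negSucc 0, .ofNat 3)⟩ ::
 ⟨⟨.ofNat 1, .ofNat 3, .negSucc 1, .ofNat 2, .ofNat 0, .negSucc 0⟩, (.negSucc 1, .negSucc 0), (.ofNat 0, .negSucc 1), (.ofNat 1, .ofNat 1)⟩ ::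
 ⟨⟨.ofNat 1, .ofNat 3, .negSucc 1, .ofNat 3, .ofNat 13, .negSucc 3⟩, (.negSucc 0, .negSucc 2), (.ofNat 2, .negSucc 3), (.negSucc 11, .ofNat 5)⟩ ::
 ⟨⟨.ofNat 1, .ofNat 3, .negSucc 1, .ofNat 3, .ofNat 7, .negSucc 2⟩, (.negSucc 0, .negSucc 2), (.ofNat 2, .negSucc 3), (.negSucc 5, .ofNat 4)⟩ ::
 ⟨⟨.ofNat 1, .ofNat 3, .negSucc 1, .ofNat 3, .ofNat 1, .negSucc 1⟩, (.ofNat 2, .negSucc 0), (.ofNat 2, .ofNat 0), (.negSucc 0, .ofNat 0)⟩ ::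
 ⟨⟨.ofNat 1, .ofNat 3, .negSucc 1, .ofNat 4, .ofNat 12, .negSucc 4⟩, (.negSucc 7, .negSucc 12), (.ofNat 2, .negSucc 17), (.negSucc 46, .ofNat 27)⟩ ::
 ⟨⟨.ofNat 1, .ofNat 3, .negSucc 1, .ofNat 4, .ofNat 6, .negSucc 3⟩, (.negSucc 2, .negSucc 4), (.ofNat 0, .negSucc 6), (.negSucc 6, .ofNat 7)⟩ ::
 ⟨⟨.ofNat 1, .ofNat 3, .negSucc 1, .ofNat 4, .ofNat 0, .negSucc 2⟩, (.ofNat 0, .negSucc 2), (.ofNat 2, .negSucc 3), (.ofNat 1, .ofNat 3)⟩ ::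
 ⟨⟨.ofNat 1, .ofNat 3, .ofNat 0, .negSucc 1, .ofNat 2, .negSucc 0⟩, (.ofNat 1, .negSucc 1), (.ofNat 0, .ofNat 1), (.negSucc 0, .ofNat 0)⟩ ::
 ⟨⟨.ofNat 1, .ofNat 3, .ofNat 0, .negSucc 1, .negSucc 3, .ofNat 0⟩, (.ofNat 0, .negSucc 2), (.negSucc 1, .ofNat 2), (.ofNat 3, .ofNat 1)⟩ ::
 ⟨⟨.ofNat 1, .ofNat 3, .ofNat 0, .negSucc 0, .ofNat 5, .negSucc 0⟩, (.negSucc 0, .ofNat 0), (.ofNat 0, .ofNat 0), (.ofNat 0, .ofNat 1)⟩ ::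
 ⟨⟨.ofNat 1, .ofNat 3, .ofNat 0, .negSucc 0, .negSucc 0, .ofNat 0⟩, (.negSucc 0, .ofNat 0), (.ofNat 0, .ofNat 0), (.ofNat 0, .ofNat 0)⟩ ::
 ⟨⟨.ofNat 1, .ofNat 3, .ofNat 0, .ofNat 1, .ofNat 5, .negSucc 0⟩, (.ofNat 0, .negSucc 2), (.ofNat 0, .ofNat 0), (.negSucc 4, .ofNat 0)⟩ ::
 ⟨⟨.ofNat 1, .ofNat 3, .ofNat 0, .ofNat 2, .ofNat 8, .negSucc 1⟩, (.ofNat 0, .negSucc 1), (.ofNat 0, .negSucc 1), (.negSucc 4, .ofNat 1)⟩ ::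
 ⟨⟨.ofNat 1, .ofNat 3, .ofNat 0, .ofNat 2, .ofNat 2, .negSucc 0⟩, (.ofNat 1, .negSucc 2), (.ofNat 2, .negSucc 0), (.negSucc 2, .ofNat 0)⟩ ::
 ⟨⟨.ofNat 1, .ofNat 3, .ofNat 0, .ofNat 3, .ofNat 9, .negSucc 2⟩, (.negSucc 2, .negSucc 0), (.negSucc 1, .negSucc 1), (.negSucc 1, .ofNat 6)⟩ ::
 ⟨⟨.ofNat 1, .ofNat 3, .ofNat 0, .ofNat 3, .ofNat 3, .negSucc 1⟩, (.negSucc 1, .ofNat 0), (.negSucc 1, .ofNat 0), (.ofNat 1, .ofNat 1)⟩ ::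
 ⟨⟨.ofNat 1, .ofNat 3, .ofNat 0, .ofNat 4, .ofNat 14, .negSucc 4⟩, (.negSucc 1, .negSucc 4), (.ofNat 0, .negSucc 7), (.negSucc 22, .ofNat 11)⟩ ::
 ⟨⟨.ofNat 1, .ofNat 3, .ofNat 0, .ofNat 4, .ofNat 8, .negSucc 3⟩, (.ofNat 0, .negSucc 1), (.ofNat 0, .negSucc 1), (.negSucc 4, .ofNat 1)⟩ ::
 ⟨⟨.ofNat 1, .ofNat 3, .ofNat 0, .ofNat 4, .ofNat 2, .negSucc 2⟩, (.negSucc 0, .negSucc 3), (.ofNat 2, .negSucc 4), (.negSucc 4, .ofNat 4)⟩ ::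
 ⟨⟨.ofNat 1, .ofNat 3, .ofNat 0, .ofNat 5, .ofNat 11, .negSucc 5⟩, (.ofNat 1, .negSucc 2), (.ofNat 2, .negSucc 3), (.negSucc 11, .ofNat 1)⟩ ::
 ⟨⟨.ofNat 1, .ofNat 3, .ofNat 0, .ofNat 5, .ofNat 5, .negSucc 4⟩, (.ofNat 0, .negSucc 0), (.ofNat 0, .negSucc 1), (.negSucc 0, .ofNat 2)⟩ ::
 ⟨⟨.ofNat 1, .ofNat 3, .ofNat 0, .ofNat 5, .negSucc 0, .negSucc 3⟩, (.ofNat 0, .negSucc 0), (.ofNat 0, .negSucc 1), (.ofNat 1, .ofNat 2)⟩ ::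
 ⟨⟨.ofNat 1, .ofNat 3, .ofNat 2, .negSucc 1, .ofNat 6, .negSucc 1⟩, (.negSucc 1, .negSucc 0), (.ofNat 0, .ofNat 2), (.negSucc 0, .ofNat 3)⟩ ::
 ⟨⟨.ofNat 1, .ofNat 3, .ofNat 2, .negSucc 1, .ofNat 0, .negSucc 0⟩, (.negSucc 1, .negSucc 0), (.ofNat 0, .ofNat 2), (.ofNat 1, .ofNat 1)⟩ ::
 ⟨⟨.ofNat 1, .ofNat 3, .ofNat 2, .negSucc 1, .negSucc 5, .ofNat 0⟩, (.negSucc 1, .negSucc 0), (.ofNat 0, .ofNat 2), (.ofNat 3, .negSucc 0)⟩ ::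
 ⟨⟨.ofNat 1, .ofNat 3, .ofNat 2, .negSucc 0, .ofNat 3, .negSucc 0⟩, (.negSucc 2, .negSucc 0), (.ofNat 0, .ofNat 2), (.ofNat 0, .ofNat 2)⟩ ::
 ⟨⟨.ofNat 1, .ofNat 3, .ofNat 2, .negSucc 0, .negSucc 2, .ofNat 0⟩, (.ofNat 0, .negSucc 0), (.ofNat 0, .ofNat 0), (.ofNat 1, .ofNat 0)⟩ ::
 ⟨⟨.ofNat 1, .ofNat 3, .ofNat 2, .ofNat 0, .ofNat 4, .negSucc 0⟩, (.negSucc 2, .negSucc 0), (.ofNat 0, .ofNat 1), (.negSucc 0, .ofNat 2)⟩ ::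
 ⟨⟨.ofNat 1, .ofNat 3, .ofNat 2, .ofNat 0, .negSucc 1, .ofNat 0⟩, (.negSucc 2, .negSucc 0), (.ofNat 0, .ofNat 1), (.ofNat 1, .negSucc 0)⟩ ::
 ⟨⟨.ofNat 1, .ofNat 3, .ofNat 2, .ofNat 1, .ofNat 9, .negSucc 1⟩, (.ofNat 2, .negSucc 2), (.negSucc 1, .negSucc 1), (.negSucc 8, .negSucc 1)⟩ ::
 ⟨⟨.ofNat 1, .ofNat 3, .ofNat 2, .ofNat 1, .ofNat 3, .negSucc 0⟩, (.ofNat 0, .negSucc 0), (.ofNat 0, .ofNat 0), (.negSucc 0, .ofNat 0)⟩ ::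
 ⟨⟨.ofNat 1, .ofNat 3, .ofNat 2, .ofNat 2, .ofNat 6, .negSucc 1⟩, (.ofNat 0, .negSucc 1), (.ofNat 0, .negSucc 1), (.negSucc 4, .ofNat 1)⟩ ::
 ⟨⟨.ofNat 1, .ofNat 3, .ofNat 2, .ofNat 2, .ofNat 0, .negSucc 0⟩, (.negSucc 0, .negSucc 3), (.negSucc 3, .negSucc 2), (.ofNat 1, .ofNat 2)⟩ ::
 ⟨⟨.ofNat 1, .ofNat 3, .ofNat 2, .ofNat 3, .ofNat 7, .negSucc 2⟩, (.negSucc 2, .negSucc 4), (.negSucc 3, .negSucc 5), (.negSucc 11, .ofNat 8)⟩ ::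
 ⟨⟨.ofNat 1, .ofNat 3, .ofNat 2, .ofNat 3, .ofNat 1, .negSucc 1⟩, (.negSucc 2, .negSucc 0), (.negSucc 3, .ofNat 0), (.ofNat 2, .ofNat 1)⟩ ::
 ⟨⟨.ofNat 1, .ofNat 3, .ofNat 2, .ofNat 4, .ofNat 12, .negSucc 4⟩, (.negSucc 2, .negSucc 8), (.negSucc 7, .negSucc 10), (.negSucc 32, .ofNat 14)⟩ ::
 ⟨⟨.ofNat 1, .ofNat 3, .ofNat 2, .ofNat 4, .ofNat 6, .negSucc 3⟩, (.ofNat 1, .negSucc 1), (.ofNat 2, .negSucc 2), (.negSucc 6, .ofNat 1)⟩ ::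
 ⟨⟨.ofNat 1, .ofNat 3, .ofNat 2, .ofNat 4, .ofNat 0, .negSucc 2⟩, (.ofNat 0, .negSucc 2), (.negSucc 1, .negSucc 3), (.ofNat 1, .ofNat 3)⟩ ::
 ⟨⟨.ofNat 1, .ofNat 3, .ofNat 2, .ofNat 5, .ofNat 15, .negSucc 6⟩, (.negSucc 2, .negSucc 19), (.negSucc 7, .negSucc 35), (.negSucc 103, .ofNat 41)⟩ ::
 ⟨⟨.ofNat 1, .ofNat 3, .ofNat 2, .ofNat 5, .ofNat 9, .negSucc 5⟩, (.negSucc 3, .negSucc 2), (.negSucc 7, .negSucc 3), (.negSucc 2, .ofNat 10)⟩ ::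
 ⟨⟨.ofNat 1, .ofNat 3, .ofNat 2, .ofNat 5, .ofNat 3, .negSucc 4⟩, (.negSucc 1, .negSucc 6), (.negSucc 1, .negSucc 11), (.negSucc 10, .ofNat 12)⟩ ::
 ⟨⟨.ofNat 1, .ofNat 3, .ofNat 4, .negSucc 2, .ofNat 1, .negSucc 2⟩, (.ofNat 0, .negSucc 1), (.negSucc 3, .ofNat 2), (.negSucc 0, .ofNat 3)⟩ ::
 ⟨⟨.ofNat 1, .ofNat 3, .ofNat 4, .negSucc 2, .negSucc 4, .negSucc 1⟩, (.ofNat 0, .negSucc 1), (.negSucc 3, .ofNat 2), (.ofNat 3, .ofNat 3)⟩ ::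
 ⟨⟨.ofNat 1, .ofNat 3, .ofNat 4, .negSucc 1, .ofNat 6, .negSucc 2⟩, (.ofNat 1, .negSucc 2), (.negSucc 5, .ofNat 1), (.negSucc 6, .ofNat 2)⟩ ::
 ⟨⟨.ofNat 1, .ofNat 3, .ofNat 4, .negSucc 1, .ofNat 0, .negSucc 1⟩, (.ofNat 1, .negSucc 2), (.negSucc 5, .ofNat 1), (.negSucc 0, .ofNat 3)⟩ ::
 t

noncomputable def r12 (t : List Ent) : List Ent :=
 ⟨⟨.ofNat 1, .ofNat 3, .ofNat 4, .negSucc 1, .negSucc 5, .negSucc 0⟩, (.ofNat 0, .negSucc 0), (.negSucc 1, .ofNat 0), (.ofNat 1, .ofNat 1)⟩ ::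
 ⟨⟨.ofNat 1, .ofNat 3, .ofNat 4, .negSucc 0, .ofNat 3, .negSucc 1⟩, (.ofNat 1, .negSucc 1), (.negSucc 1, .ofNat 0), (.negSucc 1, .ofNat 0)⟩ ::
 ⟨⟨.ofNat 1, .ofNat 3, .ofNat 4, .negSucc 0, .negSucc 2, .negSucc 0⟩, (.ofNat 1, .negSucc 1), (.negSucc 1, .ofNat 0), (.ofNat 2, .ofNat 1)⟩ ::
 ⟨⟨.ofNat 1, .ofNat 3, .ofNat 4, .ofNat 0, .ofNat 4, .negSucc 1⟩, (.negSucc 2, .negSucc 0), (.negSucc 1, .ofNat 1), (.negSucc 0, .ofNat 3)⟩ ::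
 ⟨⟨.ofNat 1, .ofNat 3, .ofNat 4, .ofNat 0, .negSucc 1, .negSucc 0⟩, (.negSucc 2, .negSucc 0), (.negSucc 1, .ofNat 1), (.ofNat 1, .ofNat 0)⟩ ::
 ⟨⟨.ofNat 1, .ofNat 3, .ofNat 4, .ofNat 1, .ofNat 9, .negSucc 2⟩, (.negSucc 2, .negSucc 4), (.negSucc 5, .ofNat 0), (.negSucc 13, .ofNat 6)⟩ ::
 ⟨⟨.ofNat 1, .ofNat 3, .ofNat 4, .ofNat 1, .ofNat 3, .negSucc 1⟩, (.negSucc 1, .negSucc 0), (.negSucc 1, .ofNat 0), (.negSucc 0, .ofNat 2)⟩ ::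
 ⟨⟨.ofNat 1, .ofNat 3, .ofNat 4, .ofNat 1, .negSucc 2, .negSucc 0⟩, (.negSucc 1, .negSucc 0), (.negSucc 1, .ofNat 0), (.ofNat 1, .ofNat 0)⟩ ::
 ⟨⟨.ofNat 1, .ofNat 3, .ofNat 4, .ofNat 2, .ofNat 6, .negSucc 2⟩, (.ofNat 2, .negSucc 0), (.ofNat 0, .negSucc 1), (.negSucc 2, .negSucc 0)⟩ ::
 ⟨⟨.ofNat 1, .ofNat 3, .ofNat 4, .ofNat 2, .ofNat 0, .negSucc 1⟩, (.ofNat 0, .negSucc 2), (.negSucc 1, .negSucc 1), (.negSucc 0, .ofNat 1)⟩ ::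
 ⟨⟨.ofNat 1, .ofNat 3, .ofNat 4, .ofNat 3, .ofNat 7, .negSucc 3⟩, (.ofNat 0, .negSucc 2), (.negSucc 3, .negSucc 3), (.negSucc 6, .ofNat 4)⟩ ::
 ⟨⟨.ofNat 1, .ofNat 3, .ofNat 4, .ofNat 3, .ofNat 1, .negSucc 2⟩, (.ofNat 2, .negSucc 0), (.ofNat 2, .negSucc 1), (.negSucc 2, .ofNat 0)⟩ ::
 ⟨⟨.ofNat 1, .ofNat 3, .ofNat 4, .ofNat 4, .ofNat 12, .negSucc 5⟩, (.negSucc 2, .ofNat 0), (.negSucc 3, .ofNat 1), (.ofNat 3, .ofNat 7)⟩ ::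
 ⟨⟨.ofNat 1, .ofNat 3, .ofNat 4, .ofNat 4, .ofNat 6, .negSucc 4⟩, (.ofNat 0, .negSucc 5), (.negSucc 3, .negSucc 9), (.negSucc 16, .ofNat 9)⟩ ::
 ⟨⟨.ofNat 1, .ofNat 3, .ofNat 4, .ofNat 4, .ofNat 0, .negSucc 3⟩, (.negSucc 2, .negSucc 4), (.negSucc 9, .negSucc 6), (.ofNat 3, .ofNat 9)⟩ ::
 ⟨⟨.ofNat 1, .ofNat 3, .ofNat 6, .negSucc 2, .ofNat 3, .negSucc 4⟩, (.negSucc 5, .negSucc 7), (.negSucc 13, .ofNat 10), (.negSucc 6, .ofNat 15)⟩ ::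
 ⟨⟨.ofNat 1, .ofNat 3, .ofNat 6, .negSucc 2, .negSucc 2, .negSucc 3⟩, (.ofNat 0, .negSucc 1), (.negSucc 3, .ofNat 2), (.ofNat 3, .ofNat 3)⟩ ::
 ⟨⟨.ofNat 1, .ofNat 3, .ofNat 6, .negSucc 2, .negSucc 8, .negSucc 2⟩, (.ofNat 0, .negSucc 1), (.negSucc 3, .ofNat 2), (.ofNat 7, .ofNat 3)⟩ ::
 ⟨⟨.ofNat 1, .ofNat 3, .ofNat 6, .negSucc 1, .ofNat 2, .negSucc 3⟩, (.ofNat 2, .negSucc 3), (.negSucc 9, .ofNat 0), (.negSucc 4, .ofNat 5)⟩ ::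
 ⟨⟨.ofNat 1, .ofNat 3, .ofNat 6, .negSucc 1, .negSucc 3, .negSucc 2⟩, (.negSucc 0, .ofNat 0), (.ofNat 0, .ofNat 1), (.ofNat 1, .ofNat 0)⟩ ::
 ⟨⟨.ofNat 1, .ofNat 3, .ofNat 6, .negSucc 1, .negSucc 9, .negSucc 1⟩, (.negSucc 0, .ofNat 0), (.ofNat 0, .ofNat 1), (.ofNat 1, .negSucc 0)⟩ ::
 ⟨⟨.ofNat 1, .ofNat 3, .ofNat 6, .ofNat 0, .ofNat 6, .negSucc 3⟩, (.ofNat 0, .negSucc 2), (.negSucc 5, .ofNat 0), (.negSucc 4, .ofNat 3)⟩ ::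
 ⟨⟨.ofNat 1, .ofNat 3, .ofNat 6, .ofNat 0, .ofNat 0, .negSucc 2⟩, (.ofNat 0, .negSucc 2), (.negSucc 5, .ofNat 0), (.ofNat 1, .ofNat 3)⟩ ::
 ⟨⟨.ofNat 1, .ofNat 3, .ofNat 6, .ofNat 0, .negSucc 5, .negSucc 1⟩, (.negSucc 0, .ofNat 0), (.ofNat 0, .ofNat 1), (.ofNat 1, .negSucc 0)⟩ ::
 ⟨⟨.ofNat 1, .ofNat 3, .ofNat 6, .ofNat 1, .ofNat 5, .negSucc 3⟩, (.ofNat 1, .negSucc 2), (.negSucc 3, .negSucc 1), (.negSucc 5, .ofNat 1)⟩ ::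
 ⟨⟨.ofNat 1, .ofNat 3, .ofNat 6, .ofNat 1, .negSucc 0, .negSucc 2⟩, (.ofNat 1, .negSucc 2), (.negSucc 3, .negSucc 1), (.ofNat 0, .ofNat 2)⟩ ::
 ⟨⟨.ofNat 1, .ofNat 3, .ofNat 6, .ofNat 1, .negSucc 6, .negSucc 1⟩, (.negSucc 7, .negSucc 19), (.negSucc 39, .negSucc 7), (.ofNat 43, .ofNat 13)⟩ ::
 ⟨⟨.ofNat 1, .ofNat 3, .ofNat 6, .ofNat 2, .ofNat 8, .negSucc 4⟩, (.negSucc 2, .negSucc 7), (.negSucc 13, .negSucc 4), (.negSucc 22, .ofNat 12)⟩ ::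
 ⟨⟨.ofNat 1, .ofNat 3, .ofNat 6, .ofNat 2, .ofNat 2, .negSucc 3⟩, (.negSucc 2, .negSucc 0), (.negSucc 3, .ofNat 1), (.ofNat 1, .ofNat 3)⟩ ::
 ⟨⟨.ofNat 1, .ofNat 3, .ofNat 6, .ofNat 2, .negSucc 3, .negSucc 2⟩, (.negSucc 1, .negSucc 6), (.negSucc 11, .negSucc 3), (.ofNat 9, .ofNat 5)⟩ ::
 ⟨⟨.ofNat 1, .ofNat 3, .ofNat 6, .ofNat 3, .ofNat 9, .negSucc 5⟩, (.ofNat 3, .negSucc 0), (.ofNat 2, .negSucc 3), (.negSucc 7, .negSucc 2)⟩ ::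
 ⟨⟨.ofNat 1, .ofNat 3, .ofNat 6, .ofNat 3, .ofNat 3, .negSucc 4⟩, (.negSucc 2, .ofNat 0), (.negSucc 3, .ofNat 2), (.ofNat 4, .ofNat 3)⟩ ::
 ⟨⟨.ofNat 1, .ofNat 3, .ofNat 6, .ofNat 3, .negSucc 2, .negSucc 3⟩, (.ofNat 0, .negSucc 1), (.negSucc 3, .negSucc 1), (.ofNat 3, .ofNat 3)⟩ ::
 ⟨⟨.ofNat 1, .ofNat 3, .ofNat 6, .ofNat 4, .ofNat 14, .negSucc 7⟩, (.negSucc 13, .negSucc 54), (.negSucc 107, .negSucc 73), (.negSucc 252, .ofNat 135)⟩ ::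
 ⟨⟨.ofNat 1, .ofNat 3, .ofNat 6, .ofNat 4, .ofNat 8, .negSucc 6⟩, (.ofNat 0, .negSucc 0), (.negSucc 1, .negSucc 1), (.negSucc 2, .ofNat 3)⟩ ::
 ⟨⟨.ofNat 1, .ofNat 3, .ofNat 6, .ofNat 4, .ofNat 2, .negSucc 5⟩, (.negSucc 3, .negSucc 1), (.negSucc 7, .ofNat 0), (.ofNat 3, .ofNat 5)⟩ ::
 ⟨⟨.ofNat 1, .ofNat 3, .ofNat 6, .ofNat 4, .negSucc 3, .negSucc 4⟩, (.negSucc 3, .negSucc 1), (.negSucc 7, .ofNat 0), (.ofNat 7, .ofNat 1)⟩ ::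
 ⟨⟨.ofNat 1, .ofNat 3, .ofNat 8, .negSucc 2, .ofNat 1, .negSucc 6⟩, (.negSucc 2, .negSucc 4), (.negSucc 13, .ofNat 6), (.negSucc 1, .ofNat 14)⟩ ::
 ⟨⟨.ofNat 1, .ofNat 3, .ofNat 8, .negSucc 2, .negSucc 4, .negSucc 5⟩, (.ofNat 0, .negSucc 5), (.negSucc 15, .ofNat 2), (.ofNat 3, .ofNat 11)⟩ ::
 ⟨⟨.ofNat 1, .ofNat 3, .ofNat 8, .negSucc 2, .negSucc 10, .negSucc 4⟩, (.ofNat 0, .negSucc 5), (.negSucc 15, .ofNat 2), (.ofNat 15, .ofNat 11)⟩ ::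
 ⟨⟨.ofNat 1, .ofNat 3, .ofNat 8, .negSucc 1, .ofNat 0, .negSucc 5⟩, (.ofNat 0, .negSucc 0), (.negSucc 1, .ofNat 0), (.negSucc 0, .ofNat 1)⟩ ::
 ⟨⟨.ofNat 1, .ofNat 3, .ofNat 8, .negSucc 1, .negSucc 5, .negSucc 4⟩, (.negSucc 1, .negSucc 7), (.negSucc 21, .ofNat 6), (.ofNat 19, .ofNat 15)⟩ ::
 ⟨⟨.ofNat 1, .ofNat 3, .ofNat 8, .negSucc 1, .negSucc 11, .negSucc 3⟩, (.ofNat 0, .negSucc 0), (.negSucc 1, .ofNat 0), (.ofNat 3, .ofNat 1)⟩ ::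
 ⟨⟨.ofNat 1, .ofNat 3, .ofNat 8, .negSucc 0, .ofNat 3, .negSucc 5⟩, (.ofNat 1, .negSucc 1), (.negSucc 5, .negSucc 1), (.negSucc 5, .ofNat 4)⟩ ::
 ⟨⟨.ofNat 1, .ofNat 3, .ofNat 8, .negSucc 0, .negSucc 2, .negSucc 4⟩, (.negSucc 2, .negSucc 0), (.negSucc 1, .ofNat 4), (.ofNat 6, .ofNat 0)⟩ ::
 ⟨⟨.ofNat 1, .ofNat 3, .ofNat 8, .negSucc 0, .negSucc 8, .negSucc 3⟩, (.negSucc 6, .negSucc 14), (.negSucc 37, .ofNat 6), (.ofNat 44, .ofNat 15)⟩ ::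
 ⟨⟨.ofNat 1, .ofNat 3, .ofNat 8, .ofNat 0, .ofNat 4, .negSucc 5⟩, (.ofNat 0, .negSucc 0), (.negSucc 1, .ofNat 0), (.negSucc 0, .ofNat 1)⟩ ::
 ⟨⟨.ofNat 1, .ofNat 3, .ofNat 8, .ofNat 0, .negSucc 1, .negSucc 4⟩, (.negSucc 3, .negSucc 1), (.negSucc 7, .ofNat 4), (.ofNat 7, .ofNat 5)⟩ ::
 ⟨⟨.ofNat 1, .ofNat 3, .ofNat 8, .ofNat 0, .negSucc 7, .negSucc 3⟩, (.ofNat 1, .negSucc 2), (.negSucc 5, .negSucc 2), (.ofNat 3, .ofNat 5)⟩ ::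
 ⟨⟨.ofNat 1, .ofNat 3, .ofNat 8, .ofNat 1, .ofNat 9, .negSucc 6⟩, (.negSucc 2, .ofNat 0), (.negSucc 1, .ofNat 4), (.ofNat 6, .ofNat 5)⟩ ::
 t

noncomputable def r13 (t : List Ent) : List Ent :=
 ⟨⟨.ofNat 1, .ofNat 3, .ofNat 8, .ofNat 1, .ofNat 3, .negSucc 5⟩, (.negSucc 0, .negSucc 3), (.negSucc 11, .negSucc 1), (.negSucc 3, .ofNat 10)⟩ ::
 ⟨⟨.ofNat 1, .ofNat 3, .ofNat 8, .ofNat 1, .negSucc 2, .negSucc 4⟩, (.ofNat 0, .negSucc 1), (.negSucc 3, .negSucc 1), (.negSucc 0, .ofNat 3)⟩ ::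
 ⟨⟨.ofNat 1, .ofNat 3, .ofNat 8, .ofNat 1, .negSucc 8, .negSucc 3⟩, (.ofNat 0, .negSucc 1), (.negSucc 3, .negSucc 1), (.ofNat 3, .ofNat 3)⟩ ::
 ⟨⟨.ofNat 1, .ofNat 3, .ofNat 8, .ofNat 2, .ofNat 6, .negSucc 6⟩, (.negSucc 1, .ofNat 0), (.negSucc 1, .ofNat 2), (.ofNat 3, .ofNat 3)⟩ ::
 ⟨⟨.ofNat 1, .ofNat 3, .ofNat 8, .ofNat 2, .ofNat 0, .negSucc 5⟩, (.ofNat 3, .negSucc 1), (.negSucc 1, .negSucc 4), (.negSucc 4, .ofNat 3)⟩ ::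
 ⟨⟨.ofNat 1, .ofNat 3, .ofNat 8, .ofNat 2, .negSucc 5, .negSucc 4⟩, (.ofNat 0, .negSucc 8), (.negSucc 21, .negSucc 7), (.ofNat 17, .ofNat 17)⟩ ::
 ⟨⟨.ofNat 1, .ofNat 3, .ofNat 8, .ofNat 3, .ofNat 7, .negSucc 7⟩, (.ofNat 0, .negSucc 2), (.negSucc 7, .negSucc 3), (.negSucc 6, .ofNat 8)⟩ ::
 ⟨⟨.ofNat 1, .ofNat 3, .ofNat 8, .ofNat 3, .ofNat 1, .negSucc 6⟩, (.ofNat 0, .negSucc 1), (.negSucc 3, .negSucc 1), (.negSucc 0, .ofNat 3)⟩ ::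
 ⟨⟨.ofNat 1, .ofNat 3, .ofNat 8, .ofNat 3, .negSucc 4, .negSucc 5⟩, (.ofNat 0, .negSucc 1), (.negSucc 3, .negSucc 1), (.ofNat 3, .ofNat 3)⟩ ::
 ⟨⟨.ofNat 1, .ofNat 3, .ofNat 8, .ofNat 4, .ofNat 12, .negSucc 9⟩, (.ofNat 0, .negSucc 2), (.negSucc 5, .negSucc 5), (.negSucc 16, .ofNat 9)⟩ ::
 ⟨⟨.ofNat 1, .ofNat 3, .ofNat 8, .ofNat 4, .ofNat 6, .negSucc 8⟩, (.negSucc 0, .ofNat 0), (.negSucc 1, .ofNat 1), (.ofNat 3, .ofNat 2)⟩ ::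
 ⟨⟨.ofNat 1, .ofNat 3, .ofNat 8, .ofNat 4, .ofNat 0, .negSucc 7⟩, (.negSucc 0, .ofNat 0), (.negSucc 1, .ofNat 1), (.ofNat 3, .ofNat 1)⟩ ::
 ⟨⟨.ofNat 1, .ofNat 3, .ofNat 8, .ofNat 4, .negSucc 5, .negSucc 6⟩, (.ofNat 0, .negSucc 2), (.negSucc 5, .negSucc 5), (.ofNat 1, .ofNat 9)⟩ ::
 ⟨⟨.ofNat 1, .ofNat 3, .ofNat 10, .negSucc 0, .ofNat 3, .negSucc 8⟩, (.ofNat 1, .negSucc 9), (.negSucc 31, .negSucc 1), (.negSucc 15, .ofNat 25)⟩ ::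
 ⟨⟨.ofNat 1, .ofNat 3, .ofNat 10, .negSucc 0, .negSucc 2, .negSucc 7⟩, (.ofNat 1, .negSucc 9), (.negSucc 31, .negSucc 1), (.ofNat 4, .ofNat 26)⟩ ::
 ⟨⟨.ofNat 1, .ofNat 3, .ofNat 10, .negSucc 0, .negSucc 8, .negSucc 6⟩, (.ofNat 1, .negSucc 9), (.negSucc 31, .negSucc 1), (.ofNat 24, .ofNat 27)⟩ ::
 ⟨⟨.ofNat 1, .ofNat 3, .ofNat 10, .ofNat 1, .ofNat 9, .negSucc 9⟩, (.negSucc 0, .negSucc 2), (.negSucc 9, .negSucc 1), (.negSucc 11, .ofNat 11)⟩ ::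
 ⟨⟨.ofNat 1, .ofNat 3, .ofNat 10, .ofNat 1, .ofNat 3, .negSucc 8⟩, (.ofNat 0, .negSucc 2), (.negSucc 7, .negSucc 1), (.negSucc 4, .ofNat 6)⟩ ::
 ⟨⟨.ofNat 1, .ofNat 3, .ofNat 10, .ofNat 1, .negSucc 2, .negSucc 7⟩, (.negSucc 7, .negSucc 12), (.negSucc 43, .ofNat 0), (.ofNat 17, .ofNat 32)⟩ ::
 ⟨⟨.ofNat 1, .ofNat 3, .ofNat 10, .ofNat 1, .negSucc 8, .negSucc 6⟩, (.ofNat 1, .negSucc 6), (.negSucc 19, .negSucc 5), (.ofNat 16, .ofNat 18)⟩ ::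
 ⟨⟨.ofNat 1, .ofNat 3, .ofNat 10, .ofNat 2, .ofNat 6, .negSucc 9⟩, (.ofNat 2, .negSucc 0), (.ofNat 0, .negSucc 3), (.negSucc 8, .negSucc 0)⟩ ::
 ⟨⟨.ofNat 1, .ofNat 3, .ofNat 10, .ofNat 2, .ofNat 0, .negSucc 8⟩, (.ofNat 2, .negSucc 0), (.ofNat 0, .negSucc 3), (.negSucc 6, .ofNat 1)⟩ ::
 ⟨⟨.ofNat 1, .ofNat 3, .ofNat 10, .ofNat 2, .negSucc 5, .negSucc 7⟩, (.negSucc 2, .negSucc 3), (.negSucc 13, .negSucc 0), (.ofNat 9, .ofNat 9)⟩ ::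
 ⟨⟨.ofNat 1, .ofNat 3, .ofNat 10, .ofNat 2, .negSucc 11, .negSucc 6⟩, (.ofNat 2, .negSucc 0), (.ofNat 0, .negSucc 3), (.negSucc 2, .ofNat 5)⟩ ::
 ⟨⟨.ofNat 1, .ofNat 3, .ofNat 10, .ofNat 3, .ofNat 7, .negSucc 10⟩, (.negSucc 2, .negSucc 7), (.negSucc 27, .negSucc 5), (.negSucc 11, .ofNat 29)⟩ ::
 ⟨⟨.ofNat 1, .ofNat 3, .ofNat 10, .ofNat 3, .ofNat 1, .negSucc 9⟩, (.negSucc 3, .negSucc 12), (.negSucc 39, .negSucc 13), (.negSucc 10, .ofNat 40)⟩ ::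
 ⟨⟨.ofNat 1, .ofNat 3, .ofNat 10, .ofNat 3, .negSucc 4, .negSucc 8⟩, (.negSucc 5, .negSucc 22), (.negSucc 77, .negSucc 25), (.ofNat 37, .ofNat 76)⟩ ::
 ⟨⟨.ofNat 1, .ofNat 3, .ofNat 10, .ofNat 3, .negSucc 10, .negSucc 7⟩, (.negSucc 0, .negSucc 7), (.negSucc 21, .negSucc 9), (.ofNat 22, .ofNat 20)⟩ ::
 ⟨⟨.ofNat 2, .negSucc 2, .negSucc 9, .negSucc 1, .negSucc 8, .ofNat 6⟩, (.negSucc 2, .ofNat 2), (.ofNat 6, .ofNat 4), (.ofNat 10, .negSucc 0)⟩ ::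
 ⟨⟨.ofNat 2, .negSucc 2, .negSucc 9, .negSucc 1, .negSucc 2, .ofNat 8⟩, (.negSucc 2, .ofNat 1), (.ofNat 4, .ofNat 5), (.ofNat 9, .negSucc 2)⟩ ::
 ⟨⟨.ofNat 2, .negSucc 2, .negSucc 9, .negSucc 1, .ofNat 3, .ofNat 10⟩, (.negSucc 2, .ofNat 2), (.ofNat 6, .ofNat 4), (.ofNat 2, .negSucc 6)⟩ ::
 ⟨⟨.ofNat 2, .negSucc 2, .negSucc 7, .negSucc 5, .negSucc 12, .ofNat 7⟩, (.negSucc 8, .ofNat 8), (.ofNat 20, .ofNat 21), (.ofNat 41, .negSucc 16)⟩ ::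
 ⟨⟨.ofNat 2, .negSucc 2, .negSucc 7, .negSucc 5, .negSucc 6, .ofNat 9⟩, (.negSucc 2, .ofNat 0), (.negSucc 1, .ofNat 5), (.ofNat 9, .negSucc 0)⟩ ::
 ⟨⟨.ofNat 2, .negSucc 2, .negSucc 7, .negSucc 5, .negSucc 0, .ofNat 11⟩, (.negSucc 6, .ofNat 9), (.ofNat 24, .ofNat 18), (.ofNat 0, .negSucc 33)⟩ ::
 ⟨⟨.ofNat 2, .negSucc 2, .negSucc 7, .negSucc 3, .negSucc 8, .ofNat 5⟩, (.negSucc 2, .ofNat 1), (.ofNat 2, .ofNat 4), (.ofNat 6, .ofNat 0)⟩ ::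
 ⟨⟨.ofNat 2, .negSucc 2, .negSucc 7, .negSucc 3, .negSucc 2, .ofNat 7⟩, (.negSucc 6, .ofNat 6), (.ofNat 14, .ofNat 11), (.ofNat 9, .negSucc 12)⟩ ::
 ⟨⟨.ofNat 2, .negSucc 2, .negSucc 7, .negSucc 3, .ofNat 3, .ofNat 9⟩, (.negSucc 6, .ofNat 6), (.ofNat 14, .ofNat 11), (.negSucc 2, .negSucc 19)⟩ ::
 ⟨⟨.ofNat 2, .negSucc 2, .negSucc 7, .negSucc 1, .negSucc 8, .ofNat 3⟩, (.negSucc 8, .ofNat 6), (.ofNat 18, .ofNat 9), (.ofNat 23, .negSucc 2)⟩ ::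
 ⟨⟨.ofNat 2, .negSucc 2, .negSucc 7, .negSucc 1, .negSucc 2, .ofNat 5⟩, (.negSucc 2, .ofNat 5), (.ofNat 12, .ofNat 2), (.ofNat 2, .negSucc 6)⟩ ::
 ⟨⟨.ofNat 2, .negSucc 2, .negSucc 7, .negSucc 1, .ofNat 3, .ofNat 7⟩, (.negSucc 2, .ofNat 7), (.ofNat 18, .ofNat 4), (.negSucc 5, .negSucc 13)⟩ ::
 ⟨⟨.ofNat 2, .negSucc 2, .negSucc 7, .ofNat 0, .negSucc 6, .ofNat 3⟩, (.negSucc 0, .ofNat 6), (.ofNat 12, .negSucc 2), (.ofNat 9, .negSucc 5)⟩ ::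
 ⟨⟨.ofNat 2, .negSucc 2, .negSucc 7, .ofNat 0, .negSucc 0, .ofNat 5⟩, (.ofNat 1, .ofNat 1), (.ofNat 2, .negSucc 1), (.negSucc 1, .negSucc 1)⟩ ::
 ⟨⟨.ofNat 2, .negSucc 2, .negSucc 7, .ofNat 0, .ofNat 5, .ofNat 7⟩, (.negSucc 8, .ofNat 9), (.ofNat 28, .ofNat 2), (.negSucc 11, .negSucc 27)⟩ ::
 ⟨⟨.ofNat 2, .negSucc 2, .negSucc 5, .negSucc 5, .negSucc 14, .ofNat 4⟩, (.negSucc 2, .ofNat 0), (.negSucc 3, .ofNat 4), (.ofNat 8, .ofNat 6)⟩ ::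
 ⟨⟨.ofNat 2, .negSucc 2, .negSucc 5, .negSucc 5, .negSucc 8, .ofNat 6⟩, (.negSucc 2, .ofNat 0), (.negSucc 3, .ofNat 4), (.ofNat 8, .ofNat 3)⟩ ::
 ⟨⟨.ofNat 2, .negSucc 2, .negSucc 5, .negSucc 5, .negSucc 2, .ofNat 8⟩, (.negSucc 2, .ofNat 7), (.ofNat 14, .ofNat 11), (.ofNat 3, .negSucc 14)⟩ ::
 ⟨⟨.ofNat 2, .negSucc 2, .negSucc 5, .negSucc 5, .ofNat 3, .ofNat 10⟩, (.negSucc 14, .ofNat 20), (.ofNat 40, .ofNat 40), (.negSucc 23, .negSucc 68)⟩ ::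
 ⟨⟨.ofNat 2, .negSucc 2, .negSucc 5, .negSucc 3, .negSucc 10, .ofNat 2⟩, (.negSucc 2, .ofNat 0), (.negSucc 1, .ofNat 4), (.ofNat 6, .ofNat 4)⟩ ::
 ⟨⟨.ofNat 2, .negSucc 2, .negSucc 5, .negSucc 3, .negSucc 4, .ofNat 4⟩, (.negSucc 0, .ofNat 5), (.ofNat 12, .ofNat 5), (.ofNat 7, .negSucc 8)⟩ ::
 ⟨⟨.ofNat 2, .negSucc 2, .negSucc 5, .negSucc 3, .ofNat 1, .ofNat 6⟩, (.negSucc 2, .ofNat 5), (.ofNat 10, .ofNat 5), (.negSucc 4, .negSucc 8)⟩ ::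
 t

noncomputable def r14 (t : List Ent) : List Ent :=
 ⟨⟨.ofNat 2, .negSucc 2, .negSucc 5, .ofNat 0, .negSucc 2, .ofNat 2⟩, (.negSucc 2, .ofNat 2), (.ofNat 4, .ofNat 2), (.ofNat 4, .ofNat 0)⟩ ::
 ⟨⟨.ofNat 2, .negSucc 2, .negSucc 5, .ofNat 0, .ofNat 3, .ofNat 4⟩, (.negSucc 2, .ofNat 2), (.ofNat 4, .ofNat 2), (.ofNat 0, .negSucc 2)⟩ ::
 ⟨⟨.ofNat 2, .negSucc 2, .negSucc 3, .negSucc 7, .negSucc 20, .ofNat 5⟩, (.negSucc 2, .ofNat 5), (.ofNat 6, .ofNat 12), (.ofNat 34, .negSucc 5)⟩ ::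
 ⟨⟨.ofNat 2, .negSucc 2, .negSucc 3, .negSucc 7, .negSucc 14, .ofNat 7⟩, (.negSucc 2, .ofNat 11), (.ofNat 20, .ofNat 24), (.ofNat 46, .negSucc 28)⟩ ::
 ⟨⟨.ofNat 2, .negSucc 2, .negSucc 3, .negSucc 7, .negSucc 8, .ofNat 9⟩, (.negSucc 4, .ofNat 9), (.ofNat 16, .ofNat 22), (.ofNat 18, .negSucc 28)⟩ ::
 ⟨⟨.ofNat 2, .negSucc 2, .negSucc 3, .negSucc 7, .negSucc 2, .ofNat 11⟩, (.negSucc 16, .ofNat 27), (.ofNat 34, .ofNat 72), (.ofNat 34, .negSucc 95)⟩ ::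
 ⟨⟨.ofNat 2, .negSucc 2, .negSucc 3, .negSucc 5, .negSucc 12, .ofNat 3⟩, (.ofNat 1, .ofNat 1), (.ofNat 4, .ofNat 0), (.ofNat 0, .negSucc 3)⟩ ::
 ⟨⟨.ofNat 2, .negSucc 2, .negSucc 3, .negSucc 5, .negSucc 6, .ofNat 5⟩, (.negSucc 2, .ofNat 2), (.ofNat 0, .ofNat 5), (.ofNat 7, .negSucc 0)⟩ ::
 ⟨⟨.ofNat 2, .negSucc 2, .negSucc 3, .negSucc 5, .negSucc 0, .ofNat 7⟩, (.negSucc 2, .ofNat 2), (.ofNat 0, .ofNat 5), (.ofNat 3, .negSucc 3)⟩ ::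
 ⟨⟨.ofNat 2, .negSucc 2, .negSucc 3, .negSucc 3, .negSucc 8, .ofNat 1⟩, (.negSucc 8, .ofNat 14), (.ofNat 16, .ofNat 19), (.ofNat 45, .negSucc 2)⟩ ::
 ⟨⟨.ofNat 2, .negSucc 2, .negSucc 3, .negSucc 3, .negSucc 2, .ofNat 3⟩, (.negSucc 2, .ofNat 2), (.ofNat 2, .ofNat 5), (.ofNat 5, .negSucc 2)⟩ ::
 ⟨⟨.ofNat 2, .negSucc 2, .negSucc 3, .negSucc 3, .ofNat 3, .ofNat 5⟩, (.negSucc 2, .ofNat 3), (.ofNat 4, .ofNat 4), (.negSucc 3, .negSucc 5)⟩ ::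
 ⟨⟨.ofNat 2, .negSucc 2, .negSucc 3, .negSucc 1, .negSucc 2, .ofNat 1⟩, (.negSucc 2, .ofNat 1), (.ofNat 0, .ofNat 2), (.ofNat 2, .ofNat 1)⟩ ::
 ⟨⟨.ofNat 2, .negSucc 2, .negSucc 3, .negSucc 1, .ofNat 3, .ofNat 3⟩, (.negSucc 2, .ofNat 1), (.ofNat 0, .ofNat 2), (.ofNat 0, .negSucc 1)⟩ ::
 ⟨⟨.ofNat 2, .negSucc 2, .negSucc 3, .ofNat 0, .negSucc 6, .negSucc 0⟩, (.negSucc 4, .ofNat 1), (.ofNat 4, .ofNat 2), (.ofNat 4, .ofNat 4)⟩ ::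
 ⟨⟨.ofNat 2, .negSucc 2, .negSucc 3, .ofNat 0, .negSucc 0, .ofNat 1⟩, (.negSucc 2, .ofNat 1), (.ofNat 2, .ofNat 2), (.ofNat 2, .ofNat 0)⟩ ::
 ⟨⟨.ofNat 2, .negSucc 2, .negSucc 3, .ofNat 0, .ofNat 5, .ofNat 3⟩, (.ofNat 1, .ofNat 3), (.ofNat 4, .negSucc 1), (.negSucc 5, .negSucc 0)⟩ ::
 ⟨⟨.ofNat 2, .negSucc 2, .negSucc 1, .negSucc 5, .negSucc 12, .ofNat 2⟩, (.negSucc 2, .ofNat 3), (.ofNat 2, .ofNat 7), (.ofNat 13, .negSucc 1)⟩ ::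
 ⟨⟨.ofNat 2, .negSucc 2, .negSucc 1, .negSucc 5, .negSucc 6, .ofNat 4⟩, (.negSucc 10, .ofNat 10), (.ofNat 2, .ofNat 22), (.ofNat 26, .negSucc 9)⟩ ::
 ⟨⟨.ofNat 2, .negSucc 2, .negSucc 1, .negSucc 5, .negSucc 0, .ofNat 6⟩, (.negSucc 2, .ofNat 2), (.negSucc 1, .ofNat 6), (.ofNat 6, .negSucc 4)⟩ ::
 ⟨⟨.ofNat 2, .negSucc 2, .negSucc 1, .negSucc 3, .negSucc 8, .ofNat 0⟩, (.negSucc 0, .ofNat 1), (.ofNat 0, .ofNat 1), (.ofNat 3, .ofNat 1)⟩ ::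
 ⟨⟨.ofNat 2, .negSucc 2, .negSucc 1, .negSucc 3, .negSucc 2, .ofNat 2⟩, (.negSucc 0, .ofNat 1), (.ofNat 0, .ofNat 1), (.ofNat 1, .ofNat 0)⟩ ::
 ⟨⟨.ofNat 2, .negSucc 2, .negSucc 1, .negSucc 1, .negSucc 8, .negSucc 1⟩, (.ofNat 1, .ofNat 3), (.ofNat 2, .ofNat 1), (.ofNat 9, .negSucc 1)⟩ ::
 ⟨⟨.ofNat 2, .negSucc 2, .negSucc 1, .negSucc 1, .negSucc 2, .ofNat 0⟩, (.negSucc 2, .ofNat 2), (.ofNat 2, .ofNat 2), (.ofNat 2, .ofNat 0)⟩ ::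
 ⟨⟨.ofNat 2, .negSucc 2, .negSucc 1, .ofNat 0, .negSucc 0, .ofNat 0⟩, (.negSucc 0, .ofNat 0), (.ofNat 0, .ofNat 0), (.ofNat 0, .ofNat 0)⟩ ::
 ⟨⟨.ofNat 2, .negSucc 2, .negSucc 1, .ofNat 2, .negSucc 2, .ofNat 0⟩, (.negSucc 2, .ofNat 2), (.ofNat 2, .negSucc 1), (.ofNat 2, .ofNat 0)⟩ ::
 ⟨⟨.ofNat 2, .negSucc 2, .negSucc 1, .ofNat 2, .ofNat 3, .ofNat 2⟩, (.negSucc 2, .ofNat 2), (.ofNat 2, .negSucc 1), (.negSucc 1, .negSucc 2)⟩ ::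
 ⟨⟨.ofNat 2, .negSucc 2, .ofNat 0, .negSucc 5, .negSucc 14, .ofNat 1⟩, (.negSucc 2, .ofNat 2), (.negSucc 3, .ofNat 5), (.ofNat 15, .ofNat 3)⟩ ::
 ⟨⟨.ofNat 2, .negSucc 2, .ofNat 0, .negSucc 5, .negSucc 8, .ofNat 3⟩, (.ofNat 1, .ofNat 3), (.ofNat 6, .ofNat 4), (.ofNat 2, .negSucc 5)⟩ ::
 ⟨⟨.ofNat 2, .negSucc 2, .ofNat 0, .negSucc 5, .negSucc 2, .ofNat 5⟩, (.negSucc 4, .ofNat 2), (.negSucc 5, .ofNat 5), (.ofNat 7, .negSucc 1)⟩ ::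
 ⟨⟨.ofNat 2, .negSucc 2, .ofNat 0, .negSucc 3, .negSucc 10, .negSucc 0⟩, (.negSucc 0, .ofNat 1), (.ofNat 0, .ofNat 2), (.ofNat 4, .ofNat 0)⟩ ::
 ⟨⟨.ofNat 2, .negSucc 2, .ofNat 0, .negSucc 3, .negSucc 4, .ofNat 1⟩, (.negSucc 2, .ofNat 0), (.negSucc 3, .ofNat 1), (.ofNat 3, .ofNat 2)⟩ ::
 ⟨⟨.ofNat 2, .negSucc 2, .ofNat 0, .negSucc 3, .ofNat 1, .ofNat 3⟩, (.negSucc 0, .ofNat 1), (.ofNat 0, .ofNat 2), (.ofNat 0, .negSucc 1)⟩ ::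
 ⟨⟨.ofNat 2, .negSucc 2, .ofNat 0, .negSucc 1, .negSucc 4, .negSucc 0⟩, (.negSucc 2, .ofNat 0), (.negSucc 1, .ofNat 1), (.ofNat 1, .ofNat 2)⟩ ::
 ⟨⟨.ofNat 2, .negSucc 2, .ofNat 0, .negSucc 1, .ofNat 1, .ofNat 1⟩, (.negSucc 2, .ofNat 2), (.ofNat 0, .ofNat 1), (.negSucc 0, .negSucc 0)⟩ ::
 ⟨⟨.ofNat 2, .negSucc 2, .ofNat 0, .ofNat 2, .negSucc 4, .negSucc 0⟩, (.negSucc 2, .ofNat 2), (.ofNat 0, .negSucc 0), (.ofNat 3, .ofNat 2)⟩ ::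
 ⟨⟨.ofNat 2, .negSucc 2, .ofNat 0, .ofNat 2, .ofNat 1, .ofNat 1⟩, (.negSucc 2, .ofNat 2), (.ofNat 0, .negSucc 0), (.negSucc 0, .negSucc 0)⟩ ::
 ⟨⟨.ofNat 2, .negSucc 2, .ofNat 2, .negSucc 5, .negSucc 18, .ofNat 0⟩, (.negSucc 2, .ofNat 1), (.negSucc 3, .ofNat 3), (.ofNat 9, .ofNat 5)⟩ ::
 ⟨⟨.ofNat 2, .negSucc 2, .ofNat 2, .negSucc 5, .negSucc 12, .ofNat 2⟩, (.negSucc 0, .ofNat 0), (.negSucc 1, .ofNat 0), (.ofNat 2, .ofNat 2)⟩ ::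
 ⟨⟨.ofNat 2, .negSucc 2, .ofNat 2, .negSucc 5, .negSucc 6, .ofNat 4⟩, (.negSucc 2, .ofNat 5), (.negSucc 3, .ofNat 9), (.ofNat 13, .negSucc 4)⟩ ::
 ⟨⟨.ofNat 2, .negSucc 2, .ofNat 2, .negSucc 3, .negSucc 14, .negSucc 1⟩, (.negSucc 8, .ofNat 13), (.negSucc 11, .ofNat 17), (.ofNat 69, .ofNat 10)⟩ ::
 ⟨⟨.ofNat 2, .negSucc 2, .ofNat 2, .negSucc 3, .negSucc 8, .ofNat 0⟩, (.negSucc 2, .ofNat 2), (.negSucc 3, .ofNat 2), (.ofNat 8, .ofNat 3)⟩ ::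
 ⟨⟨.ofNat 2, .negSucc 2, .ofNat 2, .negSucc 3, .negSucc 2, .ofNat 2⟩, (.ofNat 1, .ofNat 1), (.ofNat 2, .ofNat 1), (.negSucc 0, .negSucc 0)⟩ ::
 ⟨⟨.ofNat 2, .negSucc 2, .ofNat 2, .negSucc 1, .negSucc 8, .negSucc 1⟩, (.negSucc 2, .ofNat 2), (.negSucc 1, .ofNat 2), (.ofNat 6, .ofNat 3)⟩ ::
 ⟨⟨.ofNat 2, .negSucc 2, .ofNat 2, .negSucc 1, .negSucc 2, .ofNat 0⟩, (.negSucc 2, .ofNat 2), (.negSucc 1, .ofNat 2), (.ofNat 2, .ofNat 0)⟩ ::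
 ⟨⟨.ofNat 2, .negSucc 2, .ofNat 2, .ofNat 0, .negSucc 6, .negSucc 1⟩, (.negSucc 0, .ofNat 0), (.ofNat 0, .ofNat 0), (.ofNat 0, .ofNat 1)⟩ ::
 ⟨⟨.ofNat 2, .negSucc 2, .ofNat 2, .ofNat 0, .negSucc 0, .ofNat 0⟩, (.negSucc 2, .ofNat 1), (.negSucc 1, .negSucc 0), (.ofNat 1, .ofNat 0)⟩ ::
 ⟨⟨.ofNat 2, .negSucc 2, .ofNat 2, .ofNat 2, .negSucc 8, .negSucc 1⟩, (.ofNat 1, .ofNat 3), (.negSucc 1, .negSucc 0), (.ofNat 9, .negSucc 1)⟩ ::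
 ⟨⟨.ofNat 2, .negSucc 2, .ofNat 2, .ofNat 2, .negSucc 2, .ofNat 0⟩, (.negSucc 2, .ofNat 1), (.ofNat 0, .negSucc 0), (.ofNat 1, .ofNat 1)⟩ ::
 ⟨⟨.ofNat 2, .negSucc 2, .ofNat 4, .negSucc 3, .negSucc 14, .negSucc 0⟩, (.negSucc 14, .ofNat 22), (.negSucc 25, .ofNat 29), (.ofNat 105, .ofNat 9)⟩ ::
 t

noncomputable def r15 (t : List Ent) : List Ent :=
 ⟨⟨.ofNat 2, .negSucc 2, .ofNat 4, .negSucc 3, .negSucc 8, .ofNat 1⟩, (.negSucc 2, .ofNat 5), (.negSucc 5, .ofNat 8), (.ofNat 14, .negSucc 3)⟩ ::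
 ⟨⟨.ofNat 2, .negSucc 2, .ofNat 4, .negSucc 3, .negSucc 2, .ofNat 3⟩, (.negSucc 2, .ofNat 3), (.negSucc 3, .ofNat 4), (.ofNat 2, .negSucc 2)⟩ ::
 ⟨⟨.ofNat 2, .negSucc 2, .ofNat 4, .negSucc 1, .negSucc 14, .negSucc 2⟩, (.negSucc 4, .ofNat 4), (.negSucc 7, .ofNat 3), (.ofNat 21, .ofNat 8)⟩ ::
 ⟨⟨.ofNat 2, .negSucc 2, .ofNat 4, .negSucc 1, .negSucc 8, .negSucc 0⟩, (.negSucc 4, .ofNat 4), (.negSucc 7, .ofNat 3), (.ofNat 13, .ofNat 3)⟩ ::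
 ⟨⟨.ofNat 2, .negSucc 2, .ofNat 4, .negSucc 1, .negSucc 2, .ofNat 1⟩, (.negSucc 2, .ofNat 0), (.negSucc 1, .negSucc 0), (.ofNat 1, .ofNat 1)⟩ ::
 ⟨⟨.ofNat 2, .negSucc 2, .ofNat 4, .ofNat 0, .negSucc 6, .negSucc 0⟩, (.negSucc 4, .ofNat 1), (.negSucc 3, .negSucc 1), (.ofNat 4, .ofNat 4)⟩ ::
 ⟨⟨.ofNat 2, .negSucc 2, .ofNat 4, .ofNat 0, .negSucc 0, .ofNat 1⟩, (.negSucc 2, .ofNat 1), (.negSucc 1, .negSucc 1), (.ofNat 2, .ofNat 0)⟩ ::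
 ⟨⟨.ofNat 2, .negSucc 2, .ofNat 6, .negSucc 3, .negSucc 16, .ofNat 0⟩, (.negSucc 6, .ofNat 6), (.negSucc 15, .ofNat 8), (.ofNat 36, .ofNat 5)⟩ ::
 ⟨⟨.ofNat 2, .negSucc 2, .ofNat 6, .negSucc 3, .negSucc 10, .ofNat 2⟩, (.negSucc 2, .ofNat 1), (.negSucc 5, .ofNat 1), (.ofNat 7, .ofNat 1)⟩ ::
 ⟨⟨.ofNat 2, .negSucc 2, .ofNat 6, .negSucc 3, .negSucc 4, .ofNat 4⟩, (.ofNat 1, .ofNat 3), (.ofNat 0, .ofNat 5), (.negSucc 0, .negSucc 3)⟩ ::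
 ⟨⟨.ofNat 2, .negSucc 2, .ofNat 6, .negSucc 1, .negSucc 16, .negSucc 1⟩, (.negSucc 0, .ofNat 1), (.negSucc 1, .ofNat 1), (.ofNat 5, .ofNat 1)⟩ ::
 ⟨⟨.ofNat 2, .negSucc 2, .ofNat 6, .negSucc 1, .negSucc 10, .ofNat 0⟩, (.negSucc 2, .ofNat 0), (.negSucc 3, .negSucc 1), (.ofNat 4, .ofNat 4)⟩ ::
 ⟨⟨.ofNat 2, .negSucc 2, .ofNat 6, .negSucc 1, .negSucc 4, .ofNat 2⟩, (.negSucc 0, .ofNat 1), (.negSucc 1, .ofNat 1), (.ofNat 1, .negSucc 0)⟩ ::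
 ⟨⟨.ofNat 2, .negSucc 1, .negSucc 5, .negSucc 1, .negSucc 6, .ofNat 2⟩, (.negSucc 2, .ofNat 4), (.ofNat 10, .ofNat 2), (.ofNat 10, .negSucc 2)⟩ ::
 ⟨⟨.ofNat 2, .negSucc 1, .negSucc 5, .negSucc 1, .negSucc 4, .ofNat 3⟩, (.negSucc 0, .ofNat 1), (.ofNat 4, .ofNat 1), (.ofNat 3, .negSucc 2)⟩ ::
 ⟨⟨.ofNat 2, .negSucc 1, .negSucc 5, .negSucc 1, .negSucc 2, .ofNat 4⟩, (.negSucc 2, .ofNat 4), (.ofNat 12, .ofNat 4), (.ofNat 8, .negSucc 7)⟩ ::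
 ⟨⟨.ofNat 2, .negSucc 1, .negSucc 5, .negSucc 1, .negSucc 0, .ofNat 5⟩, (.negSucc 0, .ofNat 1), (.ofNat 4, .ofNat 1), (.ofNat 1, .negSucc 3)⟩ ::
 ⟨⟨.ofNat 2, .negSucc 1, .negSucc 5, .negSucc 1, .ofNat 1, .ofNat 6⟩, (.negSucc 0, .ofNat 0), (.ofNat 0, .ofNat 1), (.ofNat 1, .negSucc 0)⟩ ::
 ⟨⟨.ofNat 2, .negSucc 1, .negSucc 5, .negSucc 1, .ofNat 3, .ofNat 7⟩, (.ofNat 1, .ofNat 1), (.ofNat 2, .negSucc 1), (.negSucc 5, .ofNat 0)⟩ ::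
 ⟨⟨.ofNat 2, .negSucc 1, .negSucc 1, .negSucc 5, .negSucc 16, .ofNat 1⟩, (.negSucc 0, .ofNat 1), (.ofNat 2, .ofNat 3), (.ofNat 7, .negSucc 1)⟩ ::
 ⟨⟨.ofNat 2, .negSucc 1, .negSucc 1, .negSucc 5, .negSucc 14, .ofNat 2⟩, (.negSucc 4, .ofNat 6), (.ofNat 8, .ofNat 15), (.ofNat 37, .negSucc 5)⟩ ::
 ⟨⟨.ofNat 2, .negSucc 1, .negSucc 1, .negSucc 5, .negSucc 12, .ofNat 3⟩, (.negSucc 4, .ofNat 7), (.ofNat 12, .ofNat 17), (.ofNat 33, .negSucc 13)⟩ ::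
 ⟨⟨.ofNat 2, .negSucc 1, .negSucc 1, .negSucc 5, .negSucc 10, .ofNat 4⟩, (.negSucc 0, .ofNat 4), (.ofNat 8, .ofNat 9), (.ofNat 17, .negSucc 11)⟩ ::
 ⟨⟨.ofNat 2, .negSucc 1, .negSucc 1, .negSucc 5, .negSucc 8, .ofNat 5⟩, (.negSucc 6, .ofNat 5), (.ofNat 2, .ofNat 16), (.ofNat 24, .negSucc 8)⟩ ::
 ⟨⟨.ofNat 2, .negSucc 1, .negSucc 1, .negSucc 5, .negSucc 6, .ofNat 6⟩, (.negSucc 0, .ofNat 4), (.ofNat 8, .ofNat 9), (.ofNat 9, .negSucc 12)⟩ ::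
 ⟨⟨.ofNat 2, .negSucc 1, .negSucc 1, .negSucc 5, .negSucc 4, .ofNat 7⟩, (.negSucc 10, .ofNat 15), (.ofNat 20, .ofNat 42), (.ofNat 34, .negSucc 52)⟩ ::
 ⟨⟨.ofNat 2, .negSucc 1, .negSucc 1, .negSucc 5, .negSucc 2, .ofNat 8⟩, (.negSucc 2, .ofNat 0), (.negSucc 3, .ofNat 4), (.ofNat 8, .negSucc 3)⟩ ::
 ⟨⟨.ofNat 2, .negSucc 1, .negSucc 1, .negSucc 5, .negSucc 0, .ofNat 9⟩, (.ofNat 1, .ofNat 1), (.ofNat 4, .ofNat 0), (.negSucc 5, .negSucc 0)⟩ ::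
 ⟨⟨.ofNat 2, .negSucc 1, .negSucc 1, .negSucc 1, .negSucc 6, .negSucc 1⟩, (.negSucc 0, .ofNat 0), (.ofNat 0, .ofNat 1), (.ofNat 1, .ofNat 1)⟩ ::
 ⟨⟨.ofNat 2, .negSucc 1, .negSucc 1, .negSucc 1, .negSucc 4, .negSucc 0⟩, (.ofNat 1, .ofNat 1), (.ofNat 2, .ofNat 0), (.ofNat 2, .negSucc 1)⟩ ::
 ⟨⟨.ofNat 2, .negSucc 1, .negSucc 1, .negSucc 1, .negSucc 2, .ofNat 0⟩, (.ofNat 1, .ofNat 2), (.ofNat 2, .ofNat 0), (.ofNat 2, .negSucc 0)⟩ ::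
 ⟨⟨.ofNat 2, .negSucc 1, .negSucc 1, .negSucc 1, .negSucc 0, .ofNat 1⟩, (.ofNat 1, .ofNat 1), (.ofNat 2, .ofNat 0), (.ofNat 0, .negSucc 0)⟩ ::
 ⟨⟨.ofNat 2, .negSucc 1, .negSucc 1, .negSucc 1, .ofNat 1, .ofNat 2⟩, (.negSucc 0, .ofNat 0), (.ofNat 0, .ofNat 1), (.ofNat 1, .negSucc 0)⟩ ::
 ⟨⟨.ofNat 2, .negSucc 1, .negSucc 1, .ofNat 0, .negSucc 4, .negSucc 1⟩, (.negSucc 0, .ofNat 0), (.ofNat 0, .ofNat 0), (.ofNat 0, .ofNat 1)⟩ ::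
 ⟨⟨.ofNat 2, .negSucc 1, .negSucc 1, .ofNat 0, .negSucc 2, .negSucc 0⟩, (.negSucc 0, .ofNat 1), (.ofNat 2, .ofNat 0), (.ofNat 2, .ofNat 0)⟩ ::
 ⟨⟨.ofNat 2, .negSucc 1, .negSucc 1, .ofNat 0, .negSucc 0, .ofNat 0⟩, (.negSucc 0, .ofNat 0), (.ofNat 0, .ofNat 0), (.ofNat 0, .ofNat 0)⟩ ::
 ⟨⟨.ofNat 2, .negSucc 1, .negSucc 1, .ofNat 0, .ofNat 1, .ofNat 1⟩, (.ofNat 1, .ofNat 1), (.ofNat 0, .negSucc 0), (.negSucc 0, .ofNat 0)⟩ ::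
 ⟨⟨.ofNat 2, .negSucc 1, .negSucc 1, .ofNat 0, .ofNat 3, .ofNat 2⟩, (.negSucc 0, .ofNat 0), (.ofNat 0, .ofNat 0), (.ofNat 0, .negSucc 0)⟩ ::
 ⟨⟨.ofNat 2, .negSucc 1, .ofNat 2, .negSucc 3, .negSucc 12, .negSucc 1⟩, (.negSucc 2, .ofNat 0), (.negSucc 3, .ofNat 1), (.ofNat 3, .ofNat 7)⟩ ::
 ⟨⟨.ofNat 2, .negSucc 1, .ofNat 2, .negSucc 3, .negSucc 10, .negSucc 0⟩, (.ofNat 1, .ofNat 1), (.ofNat 2, .ofNat 1), (.ofNat 3, .negSucc 2)⟩ ::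
 ⟨⟨.ofNat 2, .negSucc 1, .ofNat 2, .negSucc 3, .negSucc 8, .ofNat 0⟩, (.negSucc 0, .ofNat 0), (.negSucc 1, .ofNat 0), (.ofNat 2, .ofNat 2)⟩ ::
 ⟨⟨.ofNat 2, .negSucc 1, .ofNat 2, .negSucc 3, .negSucc 6, .ofNat 1⟩, (.negSucc 2, .ofNat 3), (.negSucc 3, .ofNat 7), (.ofNat 13, .negSucc 2)⟩ ::
 ⟨⟨.ofNat 2, .negSucc 1, .ofNat 2, .negSucc 3, .negSucc 4, .ofNat 2⟩, (.negSucc 0, .ofNat 0), (.negSucc 1, .ofNat 0), (.ofNat 2, .ofNat 1)⟩ ::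
 ⟨⟨.ofNat 2, .negSucc 1, .ofNat 2, .negSucc 3, .negSucc 2, .ofNat 3⟩, (.negSucc 0, .ofNat 1), (.ofNat 0, .ofNat 2), (.ofNat 0, .negSucc 1)⟩ ::
 ⟨⟨.ofNat 2, .negSucc 1, .ofNat 2, .negSucc 3, .negSucc 0, .ofNat 4⟩, (.negSucc 0, .ofNat 0), (.negSucc 1, .ofNat 0), (.ofNat 2, .ofNat 0)⟩ ::
 ⟨⟨.ofNat 2, .negSucc 1, .ofNat 2, .ofNat 0, .negSucc 6, .negSucc 2⟩, (.negSucc 2, .ofNat 3), (.negSucc 1, .negSucc 0), (.ofNat 11, .ofNat 5)⟩ ::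
 ⟨⟨.ofNat 2, .negSucc 1, .ofNat 2, .ofNat 0, .negSucc 4, .negSucc 1⟩, (.negSucc 0, .ofNat 0), (.ofNat 0, .ofNat 0), (.ofNat 0, .ofNat 1)⟩ ::
 ⟨⟨.ofNat 2, .negSucc 1, .ofNat 2, .ofNat 0, .negSucc 2, .negSucc 0⟩, (.negSucc 0, .ofNat 1), (.negSucc 1, .ofNat 0), (.ofNat 2, .ofNat 0)⟩ ::
 ⟨⟨.ofNat 2, .negSucc 1, .ofNat 2, .ofNat 0, .negSucc 0, .ofNat 0⟩, (.negSucc 2, .ofNat 0), (.negSucc 1, .negSucc 0), (.ofNat 1, .ofNat 0)⟩ ::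
 ⟨⟨.ofNat 2, .negSucc 0, .negSucc 3, .negSucc 1, .negSucc 4, .ofNat 1⟩, (.negSucc 0, .ofNat 0), (.ofNat 0, .ofNat 1), (.ofNat 1, .ofNat 1)⟩ ::
 t

noncomputable def r16 (t : List Ent) : List Ent :=
 ⟨⟨.ofNat 2, .negSucc 0, .negSucc 3, .negSucc 1, .negSucc 2, .ofNat 3⟩, (.negSucc 0, .ofNat 0), (.ofNat 0, .ofNat 1), (.ofNat 1, .ofNat 0)⟩ ::
 ⟨⟨.ofNat 2, .negSucc 0, .negSucc 3, .negSucc 1, .negSucc 0, .ofNat 5⟩, (.negSucc 0, .ofNat 2), (.ofNat 6, .ofNat 1), (.negSucc 0, .negSucc 4)⟩ ::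
 ⟨⟨.ofNat 2, .negSucc 0, .negSucc 1, .negSucc 3, .negSucc 8, .ofNat 0⟩, (.negSucc 0, .ofNat 0), (.ofNat 0, .ofNat 2), (.ofNat 4, .ofNat 0)⟩ ::
 ⟨⟨.ofNat 2, .negSucc 0, .negSucc 1, .negSucc 3, .negSucc 6, .ofNat 2⟩, (.negSucc 0, .ofNat 1), (.ofNat 2, .ofNat 3), (.ofNat 7, .negSucc 1)⟩ ::
 ⟨⟨.ofNat 2, .negSucc 0, .negSucc 1, .negSucc 3, .negSucc 4, .ofNat 4⟩, (.negSucc 2, .ofNat 0), (.negSucc 1, .ofNat 4), (.ofNat 6, .negSucc 0)⟩ ::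
 ⟨⟨.ofNat 2, .negSucc 0, .negSucc 1, .negSucc 3, .negSucc 2, .ofNat 6⟩, (.negSucc 0, .ofNat 1), (.ofNat 2, .ofNat 3), (.ofNat 3, .negSucc 3)⟩ ::
 ⟨⟨.ofNat 2, .negSucc 0, .negSucc 1, .ofNat 0, .negSucc 2, .negSucc 1⟩, (.negSucc 0, .ofNat 0), (.ofNat 0, .ofNat 0), (.ofNat 0, .ofNat 1)⟩ ::
 ⟨⟨.ofNat 2, .negSucc 0, .negSucc 1, .ofNat 0, .negSucc 0, .ofNat 0⟩, (.negSucc 0, .ofNat 0), (.ofNat 0, .ofNat 0), (.ofNat 0, .ofNat 0)⟩ ::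
 ⟨⟨.ofNat 2, .negSucc 0, .negSucc 1, .ofNat 0, .ofNat 1, .ofNat 2⟩, (.negSucc 0, .ofNat 0), (.ofNat 0, .ofNat 0), (.ofNat 0, .negSucc 0)⟩ ::
 ⟨⟨.ofNat 2, .negSucc 0, .ofNat 0, .negSucc 3, .negSucc 8, .negSucc 0⟩, (.negSucc 2, .ofNat 0), (.negSucc 3, .ofNat 5), (.ofNat 11, .ofNat 4)⟩ ::
 ⟨⟨.ofNat 2, .negSucc 0, .ofNat 0, .negSucc 3, .negSucc 6, .ofNat 1⟩, (.negSucc 2, .ofNat 0), (.negSucc 3, .ofNat 5), (.ofNat 11, .ofNat 1)⟩ ::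
 ⟨⟨.ofNat 2, .negSucc 0, .ofNat 0, .negSucc 3, .negSucc 4, .ofNat 3⟩, (.negSucc 0, .ofNat 2), (.ofNat 4, .ofNat 5), (.ofNat 5, .negSucc 6)⟩ ::
 ⟨⟨.ofNat 2, .negSucc 0, .ofNat 0, .negSucc 3, .negSucc 2, .ofNat 5⟩, (.negSucc 6, .ofNat 2), (.negSucc 1, .ofNat 11), (.ofNat 9, .negSucc 14)⟩ ::
 ⟨⟨.ofNat 2, .negSucc 0, .ofNat 0, .negSucc 1, .negSucc 4, .negSucc 2⟩, (.negSucc 0, .ofNat 1), (.ofNat 0, .ofNat 2), (.ofNat 6, .ofNat 1)⟩ ::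
 ⟨⟨.ofNat 2, .negSucc 0, .ofNat 0, .negSucc 1, .negSucc 2, .negSucc 0⟩, (.negSucc 0, .ofNat 2), (.ofNat 2, .ofNat 1), (.ofNat 3, .ofNat 0)⟩ ::
 ⟨⟨.ofNat 2, .negSucc 0, .ofNat 0, .negSucc 1, .negSucc 0, .ofNat 1⟩, (.negSucc 0, .ofNat 0), (.ofNat 0, .ofNat 1), (.ofNat 1, .negSucc 0)⟩ ::
 ⟨⟨.ofNat 2, .negSucc 0, .ofNat 2, .negSucc 1, .negSucc 6, .negSucc 3⟩, (.negSucc 0, .ofNat 1), (.ofNat 0, .ofNat 1), (.ofNat 5, .ofNat 2)⟩ ::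
 ⟨⟨.ofNat 2, .negSucc 0, .ofNat 2, .negSucc 1, .negSucc 4, .negSucc 1⟩, (.negSucc 2, .ofNat 1), (.negSucc 1, .ofNat 3), (.ofNat 5, .ofNat 2)⟩ ::
 ⟨⟨.ofNat 2, .negSucc 0, .ofNat 2, .negSucc 1, .negSucc 2, .ofNat 0⟩, (.negSucc 0, .ofNat 1), (.ofNat 0, .ofNat 1), (.ofNat 1, .ofNat 0)⟩ ::
 ⟨⟨.ofNat 2, .negSucc 0, .ofNat 2, .negSucc 1, .negSucc 0, .ofNat 2⟩, (.negSucc 0, .ofNat 1), (.ofNat 0, .ofNat 1), (.negSucc 0, .negSucc 0)⟩ ::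
 ⟨⟨.ofNat 2, .negSucc 0, .ofNat 2, .ofNat 0, .negSucc 4, .negSucc 3⟩, (.negSucc 0, .ofNat 1), (.negSucc 1, .ofNat 1), (.ofNat 5, .ofNat 1)⟩ ::
 ⟨⟨.ofNat 2, .negSucc 0, .ofNat 2, .ofNat 0, .negSucc 2, .negSucc 1⟩, (.negSucc 0, .ofNat 1), (.negSucc 1, .ofNat 1), (.ofNat 3, .ofNat 0)⟩ ::
 ⟨⟨.ofNat 2, .negSucc 0, .ofNat 2, .ofNat 0, .negSucc 0, .ofNat 0⟩, (.negSucc 0, .ofNat 1), (.negSucc 1, .ofNat 1), (.ofNat 1, .negSucc 0)⟩ ::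
 ⟨⟨.ofNat 2, .negSucc 0, .ofNat 4, .ofNat 0, .negSucc 8, .negSucc 4⟩, (.negSucc 0, .ofNat 1), (.negSucc 1, .ofNat 0), (.ofNat 8, .ofNat 3)⟩ ::
 ⟨⟨.ofNat 2, .negSucc 0, .ofNat 4, .ofNat 0, .negSucc 6, .negSucc 2⟩, (.negSucc 2, .ofNat 0), (.negSucc 3, .negSucc 0), (.ofNat 3, .ofNat 5)⟩ ::
 ⟨⟨.ofNat 2, .negSucc 0, .ofNat 4, .ofNat 0, .negSucc 4, .negSucc 0⟩, (.negSucc 2, .ofNat 1), (.negSucc 3, .ofNat 0), (.ofNat 4, .ofNat 2)⟩ ::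
 ⟨⟨.ofNat 2, .negSucc 0, .ofNat 4, .ofNat 0, .negSucc 2, .ofNat 1⟩, (.negSucc 0, .ofNat 1), (.negSucc 1, .ofNat 0), (.ofNat 2, .ofNat 0)⟩ ::
 ⟨⟨.ofNat 2, .ofNat 0, .negSucc 1, .negSucc 1, .negSucc 2, .negSucc 2⟩, (.negSucc 0, .negSucc 0), (.ofNat 0, .ofNat 2), (.ofNat 0, .ofNat 2)⟩ ::
 ⟨⟨.ofNat 2, .ofNat 0, .negSucc 1, .negSucc 1, .negSucc 2, .negSucc 1⟩, (.negSucc 0, .ofNat 0), (.ofNat 0, .ofNat 1), (.ofNat 1, .ofNat 2)⟩ ::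
 ⟨⟨.ofNat 2, .ofNat 0, .negSucc 1, .negSucc 1, .negSucc 2, .negSucc 0⟩, (.negSucc 0, .ofNat 1), (.ofNat 2, .ofNat 0), (.ofNat 2, .ofNat 0)⟩ ::
 ⟨⟨.ofNat 2, .ofNat 0, .negSucc 1, .negSucc 1, .negSucc 2, .ofNat 0⟩, (.negSucc 0, .ofNat 0), (.ofNat 0, .ofNat 1), (.ofNat 1, .ofNat 1)⟩ ::
 ⟨⟨.ofNat 2, .ofNat 0, .negSucc 1, .negSucc 1, .negSucc 2, .ofNat 1⟩, (.negSucc 0, .ofNat 1), (.ofNat 2, .ofNat 0), (.ofNat 0, .negSucc 0)⟩ ::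
 ⟨⟨.ofNat 2, .ofNat 0, .negSucc 1, .negSucc 1, .negSucc 2, .ofNat 2⟩, (.negSucc 0, .ofNat 0), (.ofNat 2, .ofNat 1), (.ofNat 3, .negSucc 1)⟩ ::
 ⟨⟨.ofNat 2, .ofNat 0, .negSucc 1, .negSucc 1, .negSucc 2, .ofNat 3⟩, (.negSucc 0, .ofNat 1), (.ofNat 2, .ofNat 0), (.negSucc 1, .negSucc 1)⟩ ::
 ⟨⟨.ofNat 2, .ofNat 0, .negSucc 1, .negSucc 1, .negSucc 2, .ofNat 4⟩, (.negSucc 0, .ofNat 0), (.ofNat 2, .ofNat 1), (.ofNat 3, .negSucc 2)⟩ ::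
 ⟨⟨.ofNat 2, .ofNat 0, .negSucc 1, .negSucc 1, .negSucc 2, .ofNat 5⟩, (.negSucc 0, .ofNat 1), (.ofNat 4, .ofNat 0), (.negSucc 1, .negSucc 4)⟩ ::
 ⟨⟨.ofNat 2, .ofNat 0, .negSucc 1, .ofNat 0, .negSucc 0, .negSucc 2⟩, (.negSucc 0, .ofNat 1), (.ofNat 0, .negSucc 0), (.ofNat 3, .ofNat 1)⟩ ::
 ⟨⟨.ofNat 2, .ofNat 0, .negSucc 1, .ofNat 0, .negSucc 0, .negSucc 1⟩, (.negSucc 2, .ofNat 0), (.ofNat 2, .negSucc 0), (.ofNat 1, .ofNat 2)⟩ ::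
 ⟨⟨.ofNat 2, .ofNat 0, .negSucc 1, .ofNat 0, .negSucc 0, .negSucc 0⟩, (.negSucc 0, .negSucc 0), (.ofNat 0, .ofNat 1), (.negSucc 0, .ofNat 1)⟩ ::
 ⟨⟨.ofNat 2, .ofNat 0, .negSucc 1, .ofNat 0, .negSucc 0, .ofNat 0⟩, (.negSucc 0, .ofNat 0), (.ofNat 2, .ofNat 0), (.ofNat 2, .ofNat 0)⟩ ::
 ⟨⟨.ofNat 2, .ofNat 0, .negSucc 1, .ofNat 0, .negSucc 0, .ofNat 1⟩, (.negSucc 0, .negSucc 0), (.ofNat 0, .ofNat 1), (.ofNat 1, .ofNat 0)⟩ ::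
 ⟨⟨.ofNat 2, .ofNat 0, .negSucc 1, .ofNat 0, .negSucc 0, .ofNat 2⟩, (.negSucc 2, .ofNat 0), (.ofNat 2, .ofNat 1), (.ofNat 1, .negSucc 1)⟩ ::
 ⟨⟨.ofNat 2, .ofNat 0, .negSucc 1, .ofNat 0, .negSucc 0, .ofNat 3⟩, (.negSucc 0, .negSucc 0), (.ofNat 0, .ofNat 1), (.ofNat 3, .negSucc 0)⟩ ::
 ⟨⟨.ofNat 2, .ofNat 0, .ofNat 2, .negSucc 1, .negSucc 2, .negSucc 4⟩, (.negSucc 0, .negSucc 0), (.negSucc 1, .ofNat 0), (.negSucc 3, .ofNat 3)⟩ ::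
 ⟨⟨.ofNat 2, .ofNat 0, .ofNat 2, .negSucc 1, .negSucc 2, .negSucc 3⟩, (.negSucc 0, .ofNat 0), (.negSucc 1, .ofNat 1), (.ofNat 3, .ofNat 3)⟩ ::
 ⟨⟨.ofNat 2, .ofNat 0, .ofNat 2, .negSucc 1, .negSucc 2, .negSucc 2⟩, (.negSucc 0, .negSucc 0), (.negSucc 1, .ofNat 0), (.negSucc 1, .ofNat 2)⟩ ::
 ⟨⟨.ofNat 2, .ofNat 0, .ofNat 2, .negSucc 1, .negSucc 2, .negSucc 1⟩, (.negSucc 0, .ofNat 0), (.negSucc 1, .ofNat 1), (.ofNat 3, .ofNat 2)⟩ ::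
 ⟨⟨.ofNat 2, .ofNat 0, .ofNat 2, .negSucc 1, .negSucc 2, .negSucc 0⟩, (.negSucc 0, .negSucc 0), (.negSucc 1, .ofNat 0), (.ofNat 0, .ofNat 1)⟩ ::
 ⟨⟨.ofNat 2, .ofNat 0, .ofNat 2, .negSucc 1, .negSucc 2, .ofNat 0⟩, (.negSucc 0, .ofNat 0), (.negSucc 1, .ofNat 1), (.ofNat 3, .ofNat 1)⟩ ::
 ⟨⟨.ofNat 2, .ofNat 0, .ofNat 2, .negSucc 1, .negSucc 2, .ofNat 1⟩, (.negSucc 0, .ofNat 1), (.ofNat 0, .ofNat 2), (.ofNat 2, .negSucc 0)⟩ ::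
 t

noncomputable def r17 (t : List Ent) : List Ent :=
 ⟨⟨.ofNat 2, .ofNat 0, .ofNat 2, .negSucc 1, .negSucc 2, .ofNat 2⟩, (.negSucc 0, .ofNat 0), (.negSucc 1, .ofNat 1), (.ofNat 3, .ofNat 0)⟩ ::
 ⟨⟨.ofNat 2, .ofNat 0, .ofNat 2, .negSucc 1, .negSucc 2, .ofNat 3⟩, (.negSucc 0, .ofNat 1), (.ofNat 0, .ofNat 2), (.ofNat 0, .negSucc 1)⟩ ::
 ⟨⟨.ofNat 2, .ofNat 0, .ofNat 2, .ofNat 0, .negSucc 0, .negSucc 4⟩, (.negSucc 8, .ofNat 1), (.negSucc 5, .ofNat 1), (.ofNat 7, .ofNat 22)⟩ ::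
 ⟨⟨.ofNat 2, .ofNat 0, .ofNat 2, .ofNat 0, .negSucc 0, .negSucc 3⟩, (.negSucc 0, .ofNat 0), (.ofNat 0, .ofNat 0), (.ofNat 0, .ofNat 2)⟩ ::
 ⟨⟨.ofNat 2, .ofNat 0, .ofNat 2, .ofNat 0, .negSucc 0, .negSucc 2⟩, (.negSucc 0, .ofNat 1), (.ofNat 0, .ofNat 1), (.ofNat 3, .ofNat 1)⟩ ::
 ⟨⟨.ofNat 2, .ofNat 0, .ofNat 2, .ofNat 0, .negSucc 0, .negSucc 1⟩, (.negSucc 0, .ofNat 0), (.ofNat 0, .ofNat 0), (.ofNat 0, .ofNat 1)⟩ ::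
 ⟨⟨.ofNat 2, .ofNat 0, .ofNat 2, .ofNat 0, .negSucc 0, .negSucc 0⟩, (.negSucc 0, .negSucc 0), (.ofNat 0, .negSucc 0), (.negSucc 0, .ofNat 1)⟩ ::
 ⟨⟨.ofNat 2, .ofNat 0, .ofNat 2, .ofNat 0, .negSucc 0, .ofNat 0⟩, (.negSucc 0, .ofNat 0), (.ofNat 0, .ofNat 0), (.ofNat 0, .ofNat 0)⟩ ::
 ⟨⟨.ofNat 2, .ofNat 0, .ofNat 2, .ofNat 0, .negSucc 0, .ofNat 1⟩, (.negSucc 0, .negSucc 0), (.ofNat 0, .negSucc 0), (.ofNat 1, .ofNat 0)⟩ ::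
 ⟨⟨.ofNat 2, .ofNat 1, .negSucc 1, .ofNat 0, .ofNat 1, .negSucc 1⟩, (.negSucc 0, .ofNat 0), (.ofNat 0, .ofNat 0), (.ofNat 0, .ofNat 1)⟩ ::
 ⟨⟨.ofNat 2, .ofNat 1, .negSucc 1, .ofNat 0, .negSucc 0, .ofNat 0⟩, (.negSucc 0, .ofNat 0), (.ofNat 0, .ofNat 0), (.ofNat 0, .ofNat 0)⟩ ::
 ⟨⟨.ofNat 2, .ofNat 1, .ofNat 0, .negSucc 1, .ofNat 1, .negSucc 2⟩, (.negSucc 0, .negSucc 0), (.ofNat 0, .ofNat 2), (.ofNat 0, .ofNat 2)⟩ ::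
 ⟨⟨.ofNat 2, .ofNat 1, .ofNat 0, .negSucc 1, .negSucc 0, .negSucc 0⟩, (.negSucc 0, .ofNat 0), (.ofNat 0, .ofNat 1), (.ofNat 1, .ofNat 1)⟩ ::
 ⟨⟨.ofNat 2, .ofNat 1, .ofNat 0, .negSucc 1, .negSucc 2, .ofNat 1⟩, (.negSucc 0, .ofNat 0), (.ofNat 0, .ofNat 1), (.ofNat 1, .ofNat 0)⟩ ::
 ⟨⟨.ofNat 2, .ofNat 1, .ofNat 0, .ofNat 2, .ofNat 3, .negSucc 4⟩, (.negSucc 2, .ofNat 0), (.negSucc 1, .negSucc 0), (.ofNat 1, .ofNat 6)⟩ ::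
 ⟨⟨.ofNat 2, .ofNat 1, .ofNat 0, .ofNat 2, .ofNat 1, .negSucc 2⟩, (.negSucc 2, .ofNat 0), (.negSucc 1, .negSucc 0), (.ofNat 1, .ofNat 3)⟩ ::
 ⟨⟨.ofNat 2, .ofNat 1, .ofNat 0, .ofNat 2, .negSucc 0, .negSucc 0⟩, (.negSucc 0, .ofNat 0), (.ofNat 0, .negSucc 0), (.ofNat 1, .ofNat 1)⟩ ::
 ⟨⟨.ofNat 2, .ofNat 1, .ofNat 2, .ofNat 0, .ofNat 3, .negSucc 3⟩, (.negSucc 0, .negSucc 0), (.negSucc 1, .negSucc 0), (.negSucc 2, .ofNat 3)⟩ ::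
 ⟨⟨.ofNat 2, .ofNat 1, .ofNat 2, .ofNat 0, .ofNat 1, .negSucc 1⟩, (.negSucc 0, .negSucc 0), (.negSucc 1, .negSucc 0), (.negSucc 0, .ofNat 2)⟩ ::
 ⟨⟨.ofNat 2, .ofNat 1, .ofNat 2, .ofNat 0, .negSucc 0, .ofNat 0⟩, (.negSucc 0, .ofNat 0), (.ofNat 0, .ofNat 0), (.ofNat 0, .ofNat 0)⟩ ::
 ⟨⟨.ofNat 2, .ofNat 1, .ofNat 2, .ofNat 2, .ofNat 3, .negSucc 5⟩, (.negSucc 0, .negSucc 0), (.ofNat 0, .negSucc 0), (.negSucc 4, .ofNat 3)⟩ ::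
 ⟨⟨.ofNat 2, .ofNat 1, .ofNat 2, .ofNat 2, .ofNat 1, .negSucc 3⟩, (.negSucc 0, .ofNat 0), (.negSucc 1, .ofNat 0), (.ofNat 2, .ofNat 1)⟩ ::
 ⟨⟨.ofNat 2, .ofNat 1, .ofNat 2, .ofNat 2, .negSucc 0, .negSucc 1⟩, (.negSucc 0, .negSucc 0), (.ofNat 0, .negSucc 0), (.negSucc 0, .ofNat 1)⟩ ::
 ⟨⟨.ofNat 2, .ofNat 1, .ofNat 4, .negSucc 1, .negSucc 0, .negSucc 4⟩, (.negSucc 0, .negSucc 1), (.negSucc 5, .ofNat 1), (.negSucc 0, .ofNat 5)⟩ ::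
 ⟨⟨.ofNat 2, .ofNat 1, .ofNat 4, .negSucc 1, .negSucc 2, .negSucc 2⟩, (.negSucc 0, .ofNat 0), (.ofNat 0, .ofNat 1), (.ofNat 1, .ofNat 0)⟩ ::
 ⟨⟨.ofNat 2, .ofNat 1, .ofNat 4, .negSucc 1, .negSucc 4, .negSucc 0⟩, (.negSucc 0, .ofNat 0), (.ofNat 0, .ofNat 1), (.ofNat 1, .negSucc 0)⟩ ::
 ⟨⟨.ofNat 2, .ofNat 1, .ofNat 4, .negSucc 1, .negSucc 6, .ofNat 1⟩, (.negSucc 0, .negSucc 0), (.negSucc 3, .ofNat 0), (.ofNat 4, .ofNat 2)⟩ ::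
 ⟨⟨.ofNat 2, .ofNat 1, .ofNat 4, .ofNat 0, .ofNat 1, .negSucc 4⟩, (.negSucc 0, .negSucc 0), (.negSucc 1, .ofNat 0), (.negSucc 1, .ofNat 2)⟩ ::
 ⟨⟨.ofNat 2, .ofNat 1, .ofNat 4, .ofNat 0, .negSucc 0, .negSucc 2⟩, (.negSucc 0, .ofNat 0), (.negSucc 1, .ofNat 1), (.ofNat 3, .ofNat 1)⟩ ::
 ⟨⟨.ofNat 2, .ofNat 1, .ofNat 4, .ofNat 0, .negSucc 2, .negSucc 0⟩, (.negSucc 0, .negSucc 0), (.negSucc 1, .ofNat 0), (.ofNat 2, .ofNat 0)⟩ ::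
 ⟨⟨.ofNat 2, .ofNat 1, .ofNat 6, .negSucc 1, .negSucc 2, .negSucc 7⟩, (.negSucc 4, .negSucc 3), (.negSucc 17, .ofNat 4), (.ofNat 2, .ofNat 21)⟩ ::
 ⟨⟨.ofNat 2, .ofNat 1, .ofNat 6, .negSucc 1, .negSucc 4, .negSucc 5⟩, (.negSucc 2, .negSucc 0), (.negSucc 5, .ofNat 3), (.ofNat 5, .ofNat 6)⟩ ::
 ⟨⟨.ofNat 2, .ofNat 1, .ofNat 6, .negSucc 1, .negSucc 6, .negSucc 3⟩, (.negSucc 0, .ofNat 0), (.negSucc 1, .ofNat 2), (.ofNat 6, .ofNat 1)⟩ ::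
 ⟨⟨.ofNat 2, .ofNat 1, .ofNat 6, .negSucc 1, .negSucc 8, .negSucc 1⟩, (.negSucc 2, .ofNat 0), (.negSucc 3, .ofNat 4), (.ofNat 8, .negSucc 0)⟩ ::
 ⟨⟨.ofNat 2, .ofNat 1, .ofNat 6, .negSucc 1, .negSucc 10, .ofNat 0⟩, (.negSucc 2, .ofNat 0), (.negSucc 3, .ofNat 4), (.ofNat 8, .negSucc 3)⟩ ::
 ⟨⟨.ofNat 2, .ofNat 2, .negSucc 1, .ofNat 0, .ofNat 5, .negSucc 2⟩, (.negSucc 4, .negSucc 2), (.ofNat 2, .ofNat 0), (.negSucc 7, .ofNat 7)⟩ ::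
 ⟨⟨.ofNat 2, .ofNat 2, .negSucc 1, .ofNat 0, .ofNat 3, .negSucc 1⟩, (.negSucc 0, .ofNat 0), (.ofNat 0, .ofNat 0), (.ofNat 0, .ofNat 1)⟩ ::
 ⟨⟨.ofNat 2, .ofNat 2, .negSucc 1, .ofNat 0, .ofNat 1, .negSucc 0⟩, (.negSucc 0, .negSucc 0), (.ofNat 2, .ofNat 0), (.ofNat 0, .ofNat 1)⟩ ::
 ⟨⟨.ofNat 2, .ofNat 2, .negSucc 1, .ofNat 0, .negSucc 0, .ofNat 0⟩, (.negSucc 0, .ofNat 0), (.ofNat 0, .ofNat 0), (.ofNat 0, .ofNat 0)⟩ ::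
 ⟨⟨.ofNat 2, .ofNat 2, .ofNat 2, .negSucc 1, .ofNat 3, .negSucc 2⟩, (.negSucc 0, .negSucc 0), (.ofNat 0, .ofNat 1), (.negSucc 0, .ofNat 1)⟩ ::
 ⟨⟨.ofNat 2, .ofNat 2, .ofNat 2, .negSucc 1, .ofNat 1, .negSucc 1⟩, (.negSucc 0, .ofNat 0), (.ofNat 0, .ofNat 1), (.ofNat 1, .ofNat 1)⟩ ::
 ⟨⟨.ofNat 2, .ofNat 2, .ofNat 2, .negSucc 1, .negSucc 0, .negSucc 0⟩, (.ofNat 1, .negSucc 0), (.negSucc 1, .ofNat 0), (.ofNat 0, .ofNat 1)⟩ ::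
 ⟨⟨.ofNat 2, .ofNat 2, .ofNat 2, .negSucc 1, .negSucc 2, .ofNat 0⟩, (.ofNat 1, .negSucc 1), (.negSucc 1, .ofNat 0), (.ofNat 2, .ofNat 1)⟩ ::
 ⟨⟨.ofNat 2, .ofNat 2, .ofNat 2, .negSucc 1, .negSucc 4, .ofNat 1⟩, (.ofNat 1, .negSucc 0), (.negSucc 1, .ofNat 0), (.ofNat 2, .ofNat 2)⟩ ::
 ⟨⟨.ofNat 2, .ofNat 2, .ofNat 2, .ofNat 0, .ofNat 5, .negSucc 2⟩, (.ofNat 1, .negSucc 0), (.ofNat 0, .negSucc 0), (.negSucc 2, .negSucc 0)⟩ ::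
 ⟨⟨.ofNat 2, .ofNat 2, .ofNat 2, .ofNat 0, .ofNat 3, .negSucc 1⟩, (.negSucc 0, .ofNat 0), (.ofNat 0, .ofNat 0), (.ofNat 0, .ofNat 1)⟩ ::
 ⟨⟨.ofNat 2, .ofNat 2, .ofNat 2, .ofNat 0, .ofNat 1, .negSucc 0⟩, (.ofNat 1, .negSucc 0), (.ofNat 0, .negSucc 0), (.negSucc 0, .ofNat 0)⟩ ::
 ⟨⟨.ofNat 2, .ofNat 2, .ofNat 2, .ofNat 0, .negSucc 0, .ofNat 0⟩, (.negSucc 0, .ofNat 0), (.ofNat 0, .ofNat 0), (.ofNat 0, .ofNat 0)⟩ ::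
 ⟨⟨.ofNat 2, .ofNat 2, .ofNat 2, .ofNat 4, .ofNat 9, .negSucc 8⟩, (.negSucc 0, .negSucc 0), (.ofNat 0, .negSucc 1), (.negSucc 5, .ofNat 5)⟩ ::
 ⟨⟨.ofNat 2, .ofNat 2, .ofNat 2, .ofNat 4, .ofNat 7, .negSucc 7⟩, (.negSucc 8, .negSucc 7), (.negSucc 7, .negSucc 17), (.negSucc 27, .ofNat 38)⟩ ::
 t

noncomputable def r18 (t : List Ent) : List Ent :=
 ⟨⟨.ofNat 2, .ofNat 2, .ofNat 2, .ofNat 4, .ofNat 5, .negSucc 6⟩, (.negSucc 4, .negSucc 2), (.negSucc 7, .negSucc 5), (.negSucc 1, .ofNat 13)⟩ ::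
 ⟨⟨.ofNat 2, .ofNat 2, .ofNat 2, .ofNat 4, .ofNat 3, .negSucc 5⟩, (.negSucc 2, .ofNat 0), (.negSucc 3, .negSucc 0), (.ofNat 3, .ofNat 5)⟩ ::
 ⟨⟨.ofNat 2, .ofNat 2, .ofNat 2, .ofNat 4, .ofNat 1, .negSucc 4⟩, (.ofNat 1, .negSucc 0), (.ofNat 2, .negSucc 0), (.negSucc 2, .ofNat 0)⟩ ::
 ⟨⟨.ofNat 2, .ofNat 2, .ofNat 2, .ofNat 4, .negSucc 0, .negSucc 3⟩, (.negSucc 0, .ofNat 0), (.negSucc 1, .ofNat 0), (.ofNat 2, .ofNat 0)⟩ ::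
 ⟨⟨.ofNat 2, .ofNat 2, .ofNat 2, .ofNat 4, .negSucc 2, .negSucc 2⟩, (.negSucc 0, .negSucc 0), (.ofNat 0, .negSucc 1), (.ofNat 0, .ofNat 2)⟩ ::
 ⟨⟨.ofNat 2, .ofNat 2, .ofNat 6, .negSucc 1, .ofNat 1, .negSucc 5⟩, (.negSucc 0, .ofNat 0), (.ofNat 0, .ofNat 1), (.ofNat 1, .ofNat 1)⟩ ::
 ⟨⟨.ofNat 2, .ofNat 2, .ofNat 6, .negSucc 1, .negSucc 0, .negSucc 4⟩, (.negSucc 0, .negSucc 0), (.negSucc 3, .ofNat 1), (.ofNat 1, .ofNat 4)⟩ ::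
 ⟨⟨.ofNat 2, .ofNat 2, .ofNat 6, .negSucc 1, .negSucc 2, .negSucc 3⟩, (.negSucc 2, .ofNat 0), (.negSucc 1, .ofNat 4), (.ofNat 6, .ofNat 2)⟩ ::
 ⟨⟨.ofNat 2, .ofNat 2, .ofNat 6, .negSucc 1, .negSucc 4, .negSucc 2⟩, (.negSucc 0, .negSucc 0), (.negSucc 3, .ofNat 1), (.ofNat 3, .ofNat 3)⟩ ::
 ⟨⟨.ofNat 2, .ofNat 2, .ofNat 6, .negSucc 1, .negSucc 6, .negSucc 1⟩, (.negSucc 2, .negSucc 3), (.negSucc 9, .ofNat 2), (.ofNat 10, .ofNat 3)⟩ ::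
 ⟨⟨.ofNat 2, .ofNat 2, .ofNat 6, .negSucc 1, .negSucc 8, .negSucc 0⟩, (.negSucc 14, .negSucc 16), (.negSucc 47, .ofNat 12), (.ofNat 66, .ofNat 9)⟩ ::
 ⟨⟨.ofNat 2, .ofNat 2, .ofNat 6, .ofNat 2, .ofNat 7, .negSucc 8⟩, (.negSucc 4, .negSucc 2), (.negSucc 11, .negSucc 2), (.negSucc 8, .ofNat 21)⟩ ::
 ⟨⟨.ofNat 2, .ofNat 2, .ofNat 6, .ofNat 2, .ofNat 5, .negSucc 7⟩, (.negSucc 2, .ofNat 0), (.negSucc 3, .ofNat 2), (.ofNat 4, .ofNat 6)⟩ ::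
 ⟨⟨.ofNat 2, .ofNat 2, .ofNat 6, .ofNat 2, .ofNat 3, .negSucc 6⟩, (.negSucc 4, .negSucc 6), (.negSucc 19, .negSucc 8), (.negSucc 10, .ofNat 24)⟩ ::
 ⟨⟨.ofNat 2, .ofNat 2, .ofNat 6, .ofNat 2, .ofNat 1, .negSucc 5⟩, (.negSucc 6, .negSucc 9), (.negSucc 25, .negSucc 9), (.negSucc 5, .ofNat 24)⟩ ::
 ⟨⟨.ofNat 2, .ofNat 2, .ofNat 6, .ofNat 2, .negSucc 0, .negSucc 4⟩, (.negSucc 0, .negSucc 0), (.negSucc 1, .negSucc 0), (.negSucc 0, .ofNat 2)⟩ ::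
 ⟨⟨.ofNat 2, .ofNat 2, .ofNat 6, .ofNat 2, .negSucc 2, .negSucc 3⟩, (.negSucc 2, .ofNat 0), (.negSucc 3, .ofNat 2), (.ofNat 4, .ofNat 0)⟩ ::
 ⟨⟨.ofNat 2, .ofNat 2, .ofNat 6, .ofNat 2, .negSucc 4, .negSucc 2⟩, (.negSucc 6, .negSucc 4), (.negSucc 15, .negSucc 3), (.ofNat 12, .ofNat 6)⟩ ::
 ⟨⟨.ofNat 2, .ofNat 2, .ofNat 6, .ofNat 2, .negSucc 6, .negSucc 1⟩, (.negSucc 0, .ofNat 0), (.negSucc 1, .ofNat 1), (.ofNat 3, .negSucc 0)⟩ ::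
 ⟨⟨.ofNat 2, .ofNat 3, .negSucc 3, .ofNat 0, .ofNat 5, .negSucc 2⟩, (.ofNat 1, .negSucc 2), (.ofNat 4, .ofNat 2), (.negSucc 5, .ofNat 1)⟩ ::
 ⟨⟨.ofNat 2, .ofNat 3, .negSucc 3, .ofNat 0, .negSucc 0, .negSucc 0⟩, (.negSucc 2, .negSucc 0), (.ofNat 2, .negSucc 1), (.ofNat 2, .ofNat 0)⟩ ::
 ⟨⟨.ofNat 2, .ofNat 3, .negSucc 1, .negSucc 1, .ofNat 3, .negSucc 1⟩, (.ofNat 1, .negSucc 0), (.ofNat 0, .ofNat 1), (.negSucc 0, .ofNat 0)⟩ ::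
 ⟨⟨.ofNat 2, .ofNat 3, .negSucc 1, .negSucc 1, .negSucc 2, .ofNat 0⟩, (.negSucc 2, .negSucc 1), (.ofNat 2, .ofNat 2), (.ofNat 2, .ofNat 0)⟩ ::
 ⟨⟨.ofNat 2, .ofNat 3, .negSucc 1, .ofNat 0, .ofNat 5, .negSucc 1⟩, (.negSucc 0, .ofNat 0), (.ofNat 0, .ofNat 0), (.ofNat 0, .ofNat 1)⟩ ::
 ⟨⟨.ofNat 2, .ofNat 3, .negSucc 1, .ofNat 0, .negSucc 0, .ofNat 0⟩, (.negSucc 0, .ofNat 0), (.ofNat 0, .ofNat 0), (.ofNat 0, .ofNat 0)⟩ ::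
 ⟨⟨.ofNat 2, .ofNat 3, .negSucc 1, .ofNat 2, .ofNat 9, .negSucc 3⟩, (.ofNat 1, .negSucc 2), (.ofNat 2, .negSucc 0), (.negSucc 8, .negSucc 0)⟩ ::
 ⟨⟨.ofNat 2, .ofNat 3, .negSucc 1, .ofNat 2, .ofNat 3, .negSucc 1⟩, (.negSucc 2, .negSucc 0), (.ofNat 0, .negSucc 0), (.negSucc 0, .ofNat 2)⟩ ::
 ⟨⟨.ofNat 2, .ofNat 3, .negSucc 1, .ofNat 4, .ofNat 9, .negSucc 5⟩, (.negSucc 2, .negSucc 4), (.ofNat 2, .negSucc 6), (.negSucc 12, .ofNat 9)⟩ ::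
 ⟨⟨.ofNat 2, .ofNat 3, .negSucc 1, .ofNat 4, .ofNat 3, .negSucc 3⟩, (.negSucc 0, .negSucc 0), (.ofNat 0, .negSucc 0), (.negSucc 0, .ofNat 1)⟩ ::
 ⟨⟨.ofNat 2, .ofNat 3, .ofNat 0, .negSucc 1, .ofNat 1, .negSucc 0⟩, (.negSucc 2, .negSucc 1), (.ofNat 0, .ofNat 1), (.negSucc 0, .ofNat 1)⟩ ::
 ⟨⟨.ofNat 2, .ofNat 3, .ofNat 0, .negSucc 1, .negSucc 4, .ofNat 1⟩, (.negSucc 2, .negSucc 1), (.ofNat 0, .ofNat 1), (.ofNat 3, .negSucc 1)⟩ ::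
 ⟨⟨.ofNat 2, .ofNat 3, .ofNat 0, .ofNat 2, .ofNat 7, .negSucc 2⟩, (.negSucc 2, .ofNat 0), (.negSucc 1, .negSucc 0), (.ofNat 1, .ofNat 4)⟩ ::
 ⟨⟨.ofNat 2, .ofNat 3, .ofNat 0, .ofNat 2, .ofNat 1, .negSucc 0⟩, (.negSucc 2, .negSucc 1), (.ofNat 0, .negSucc 0), (.negSucc 0, .ofNat 1)⟩ ::
 ⟨⟨.ofNat 2, .ofNat 3, .ofNat 0, .ofNat 4, .ofNat 13, .negSucc 6⟩, (.negSucc 0, .negSucc 0), (.ofNat 0, .negSucc 1), (.negSucc 3, .ofNat 4)⟩ ::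
 ⟨⟨.ofNat 2, .ofNat 3, .ofNat 0, .ofNat 4, .ofNat 7, .negSucc 4⟩, (.negSucc 2, .ofNat 0), (.negSucc 3, .negSucc 0), (.ofNat 3, .ofNat 4)⟩ ::
 ⟨⟨.ofNat 2, .ofNat 3, .ofNat 0, .ofNat 4, .ofNat 1, .negSucc 2⟩, (.negSucc 0, .negSucc 0), (.ofNat 0, .negSucc 1), (.ofNat 0, .ofNat 2)⟩ ::
 ⟨⟨.ofNat 2, .ofNat 3, .ofNat 2, .negSucc 1, .ofNat 3, .negSucc 1⟩, (.negSucc 2, .negSucc 0), (.ofNat 0, .ofNat 1), (.negSucc 0, .ofNat 2)⟩ ::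
 ⟨⟨.ofNat 2, .ofNat 3, .ofNat 2, .negSucc 1, .negSucc 2, .ofNat 0⟩, (.negSucc 2, .negSucc 0), (.ofNat 0, .ofNat 1), (.ofNat 1, .negSucc 0)⟩ ::
 ⟨⟨.ofNat 2, .ofNat 3, .ofNat 2, .ofNat 0, .ofNat 5, .negSucc 1⟩, (.negSucc 2, .negSucc 0), (.negSucc 1, .ofNat 1), (.negSucc 0, .ofNat 3)⟩ ::
 ⟨⟨.ofNat 2, .ofNat 3, .ofNat 2, .ofNat 0, .negSucc 0, .ofNat 0⟩, (.negSucc 0, .ofNat 0), (.ofNat 0, .ofNat 0), (.ofNat 0, .ofNat 0)⟩ ::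
 ⟨⟨.ofNat 2, .ofNat 3, .ofNat 2, .ofNat 2, .ofNat 9, .negSucc 3⟩, (.negSucc 4, .negSucc 3), (.negSucc 5, .negSucc 1), (.negSucc 9, .ofNat 9)⟩ ::
 ⟨⟨.ofNat 2, .ofNat 3, .ofNat 2, .ofNat 2, .ofNat 3, .negSucc 1⟩, (.negSucc 2, .negSucc 1), (.negSucc 1, .negSucc 1), (.negSucc 1, .ofNat 3)⟩ ::
 ⟨⟨.ofNat 2, .ofNat 3, .ofNat 2, .ofNat 4, .ofNat 9, .negSucc 5⟩, (.ofNat 1, .negSucc 0), (.ofNat 2, .negSucc 0), (.negSucc 4, .negSucc 0)⟩ ::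
 ⟨⟨.ofNat 2, .ofNat 3, .ofNat 2, .ofNat 4, .ofNat 3, .negSucc 3⟩, (.negSucc 0, .negSucc 5), (.negSucc 1, .negSucc 7), (.negSucc 5, .ofNat 6)⟩ ::
 ⟨⟨.ofNat 2, .ofNat 3, .ofNat 2, .ofNat 6, .ofNat 11, .negSucc 9⟩, (.negSucc 2, .negSucc 4), (.negSucc 3, .negSucc 8), (.negSucc 16, .ofNat 14)⟩ ::
 ⟨⟨.ofNat 2, .ofNat 3, .ofNat 2, .ofNat 6, .ofNat 5, .negSucc 7⟩, (.negSucc 8, .negSucc 5), (.negSucc 11, .negSucc 11), (.negSucc 3, .ofNat 21)⟩ ::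
 ⟨⟨.ofNat 2, .ofNat 3, .ofNat 2, .ofNat 6, .negSucc 0, .negSucc 5⟩, (.negSucc 0, .ofNat 0), (.negSucc 1, .ofNat 0), (.ofNat 2, .ofNat 0)⟩ ::
 ⟨⟨.ofNat 2, .ofNat 3, .ofNat 4, .negSucc 3, .ofNat 3, .negSucc 4⟩, (.negSucc 2, .negSucc 2), (.negSucc 3, .ofNat 4), (.negSucc 3, .ofNat 6)⟩ ::
 ⟨⟨.ofNat 2, .ofNat 3, .ofNat 4, .negSucc 3, .negSucc 2, .negSucc 2⟩, (.negSucc 2, .negSucc 1), (.negSucc 1, .ofNat 5), (.ofNat 5, .ofNat 3)⟩ ::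
 ⟨⟨.ofNat 2, .ofNat 3, .ofNat 4, .negSucc 3, .negSucc 8, .negSucc 0⟩, (.negSucc 8, .negSucc 13), (.negSucc 15, .ofNat 19), (.ofNat 45, .ofNat 3)⟩ ::
 t

noncomputable def r19 (t : List Ent) : List Ent :=
 ⟨⟨.ofNat 2, .ofNat 3, .ofNat 4, .negSucc 1, .ofNat 3, .negSucc 2⟩, (.negSucc 2, .negSucc 0), (.ofNat 0, .ofNat 2), (.ofNat 0, .ofNat 2)⟩ ::
 ⟨⟨.ofNat 2, .ofNat 3, .ofNat 4, .negSucc 1, .negSucc 2, .negSucc 0⟩, (.negSucc 2, .negSucc 0), (.ofNat 0, .ofNat 2), (.ofNat 2, .negSucc 0)⟩ ::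
 ⟨⟨.ofNat 2, .ofNat 3, .ofNat 4, .ofNat 0, .ofNat 5, .negSucc 2⟩, (.ofNat 1, .negSucc 2), (.negSucc 3, .negSucc 1), (.negSucc 5, .ofNat 1)⟩ ::
 ⟨⟨.ofNat 2, .ofNat 3, .ofNat 4, .ofNat 0, .negSucc 0, .negSucc 0⟩, (.negSucc 2, .negSucc 0), (.negSucc 1, .ofNat 2), (.ofNat 2, .ofNat 0)⟩ ::
 ⟨⟨.ofNat 2, .ofNat 3, .ofNat 4, .ofNat 2, .ofNat 9, .negSucc 4⟩, (.negSucc 0, .negSucc 0), (.negSucc 1, .ofNat 0), (.negSucc 1, .ofNat 2)⟩ ::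
 ⟨⟨.ofNat 2, .ofNat 3, .ofNat 4, .ofNat 2, .ofNat 3, .negSucc 2⟩, (.negSucc 0, .negSucc 0), (.negSucc 1, .ofNat 0), (.ofNat 0, .ofNat 1)⟩ ::
 ⟨⟨.ofNat 2, .ofNat 3, .ofNat 4, .ofNat 2, .negSucc 2, .negSucc 0⟩, (.negSucc 2, .ofNat 0), (.negSucc 1, .ofNat 1), (.ofNat 1, .negSucc 0)⟩ ::
 ⟨⟨.ofNat 2, .ofNat 3, .ofNat 4, .ofNat 4, .ofNat 9, .negSucc 6⟩, (.negSucc 10, .negSucc 9), (.negSucc 17, .negSucc 10), (.negSucc 26, .ofNat 29)⟩ ::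
 ⟨⟨.ofNat 2, .ofNat 3, .ofNat 4, .ofNat 4, .ofNat 3, .negSucc 4⟩, (.negSucc 2, .ofNat 0), (.negSucc 3, .ofNat 1), (.ofNat 3, .ofNat 2)⟩ ::
 ⟨⟨.ofNat 2, .ofNat 3, .ofNat 4, .ofNat 4, .negSucc 2, .negSucc 2⟩, (.negSucc 2, .negSucc 2), (.negSucc 3, .negSucc 3), (.ofNat 2, .ofNat 3)⟩ ::
 ⟨⟨.ofNat 2, .ofNat 3, .ofNat 6, .negSucc 3, .ofNat 1, .negSucc 5⟩, (.negSucc 2, .negSucc 4), (.negSucc 9, .ofNat 5), (.negSucc 4, .ofNat 9)⟩ ::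
 ⟨⟨.ofNat 2, .ofNat 3, .ofNat 6, .negSucc 3, .negSucc 4, .negSucc 3⟩, (.negSucc 0, .negSucc 4), (.negSucc 11, .ofNat 5), (.ofNat 7, .ofNat 9)⟩ ::
 ⟨⟨.ofNat 2, .ofNat 3, .ofNat 6, .negSucc 3, .negSucc 10, .negSucc 1⟩, (.negSucc 2, .ofNat 0), (.ofNat 2, .ofNat 4), (.ofNat 6, .negSucc 3)⟩ ::
 ⟨⟨.ofNat 2, .ofNat 3, .ofNat 6, .ofNat 0, .ofNat 3, .negSucc 3⟩, (.negSucc 2, .ofNat 0), (.negSucc 1, .ofNat 2), (.ofNat 2, .ofNat 3)⟩ ::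
 ⟨⟨.ofNat 2, .ofNat 3, .ofNat 6, .ofNat 0, .negSucc 2, .negSucc 1⟩, (.negSucc 2, .negSucc 1), (.negSucc 3, .ofNat 2), (.ofNat 4, .ofNat 0)⟩ ::
 ⟨⟨.ofNat 2, .ofNat 3, .ofNat 6, .ofNat 2, .ofNat 7, .negSucc 5⟩, (.negSucc 4, .negSucc 3), (.negSucc 9, .ofNat 0), (.negSucc 5, .ofNat 10)⟩ ::
 ⟨⟨.ofNat 2, .ofNat 3, .ofNat 6, .ofNat 2, .ofNat 1, .negSucc 3⟩, (.negSucc 0, .negSucc 0), (.negSucc 1, .negSucc 0), (.negSucc 0, .ofNat 2)⟩ ::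
 ⟨⟨.ofNat 2, .ofNat 3, .ofNat 6, .ofNat 2, .negSucc 4, .negSucc 1⟩, (.negSucc 0, .negSucc 0), (.negSucc 1, .negSucc 0), (.ofNat 1, .ofNat 1)⟩ ::
 ⟨⟨.ofNat 2, .ofNat 3, .ofNat 6, .ofNat 4, .ofNat 13, .negSucc 9⟩, (.negSucc 12, .negSucc 19), (.negSucc 35, .negSucc 25), (.negSucc 91, .ofNat 63)⟩ ::
 ⟨⟨.ofNat 2, .ofNat 3, .ofNat 6, .ofNat 4, .ofNat 7, .negSucc 7⟩, (.negSucc 6, .negSucc 5), (.negSucc 15, .negSucc 7), (.negSucc 11, .ofNat 23)⟩ ::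
 ⟨⟨.ofNat 2, .ofNat 3, .ofNat 6, .ofNat 4, .ofNat 1, .negSucc 5⟩, (.ofNat 1, .negSucc 3), (.negSucc 1, .negSucc 5), (.negSucc 5, .ofNat 4)⟩ ::
 ⟨⟨.ofNat 2, .ofNat 3, .ofNat 6, .ofNat 4, .negSucc 4, .negSucc 3⟩, (.ofNat 1, .negSucc 2), (.ofNat 0, .negSucc 4), (.negSucc 0, .ofNat 4)⟩ ::
 ⟨⟨.ofNat 2, .ofNat 3, .ofNat 8, .negSucc 3, .negSucc 2, .negSucc 6⟩, (.negSucc 6, .negSucc 5), (.negSucc 13, .ofNat 11), (.ofNat 9, .ofNat 13)⟩ ::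
 ⟨⟨.ofNat 2, .ofNat 3, .ofNat 8, .negSucc 3, .negSucc 8, .negSucc 4⟩, (.negSucc 2, .negSucc 0), (.negSucc 1, .ofNat 4), (.ofNat 6, .ofNat 0)⟩ ::
 ⟨⟨.ofNat 2, .ofNat 3, .ofNat 8, .negSucc 3, .negSucc 14, .negSucc 2⟩, (.ofNat 1, .negSucc 2), (.negSucc 7, .ofNat 0), (.ofNat 10, .ofNat 7)⟩ ::
 ⟨⟨.ofNat 2, .ofNat 3, .ofNat 8, .negSucc 1, .ofNat 3, .negSucc 6⟩, (.negSucc 2, .negSucc 6), (.negSucc 17, .ofNat 4), (.negSucc 5, .ofNat 14)⟩ ::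
 ⟨⟨.ofNat 2, .ofNat 3, .ofNat 8, .negSucc 1, .negSucc 2, .negSucc 4⟩, (.negSucc 2, .negSucc 4), (.negSucc 11, .ofNat 2), (.ofNat 2, .ofNat 7)⟩ ::
 ⟨⟨.ofNat 2, .ofNat 3, .ofNat 8, .negSucc 1, .negSucc 8, .negSucc 2⟩, (.negSucc 8, .negSucc 5), (.negSucc 17, .ofNat 9), (.ofNat 23, .ofNat 3)⟩ ::
 ⟨⟨.ofNat 2, .ofNat 3, .ofNat 8, .ofNat 0, .ofNat 5, .negSucc 6⟩, (.negSucc 8, .negSucc 8), (.negSucc 27, .ofNat 2), (.negSucc 11, .ofNat 28)⟩ ::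
 ⟨⟨.ofNat 2, .ofNat 3, .ofNat 8, .ofNat 0, .negSucc 0, .negSucc 4⟩, (.ofNat 1, .negSucc 0), (.negSucc 1, .negSucc 1), (.negSucc 1, .ofNat 2)⟩ ::
 ⟨⟨.ofNat 2, .ofNat 3, .ofNat 8, .ofNat 0, .negSucc 6, .negSucc 2⟩, (.negSucc 0, .negSucc 5), (.negSucc 11, .negSucc 2), (.ofNat 9, .ofNat 6)⟩ ::
 ⟨⟨.ofNat 2, .ofNat 3, .ofNat 8, .ofNat 2, .ofNat 9, .negSucc 8⟩, (.negSucc 2, .negSucc 1), (.negSucc 7, .ofNat 1), (.negSucc 0, .ofNat 9)⟩ ::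
 ⟨⟨.ofNat 2, .ofNat 3, .ofNat 8, .ofNat 2, .ofNat 3, .negSucc 6⟩, (.negSucc 2, .negSucc 2), (.negSucc 9, .negSucc 1), (.negSucc 1, .ofNat 10)⟩ ::
 ⟨⟨.ofNat 2, .ofNat 3, .ofNat 8, .ofNat 2, .negSucc 2, .negSucc 4⟩, (.ofNat 1, .negSucc 0), (.ofNat 0, .negSucc 1), (.negSucc 1, .ofNat 1)⟩ ::
 ⟨⟨.ofNat 2, .ofNat 3, .ofNat 8, .ofNat 2, .negSucc 8, .negSucc 2⟩, (.negSucc 2, .negSucc 1), (.negSucc 7, .ofNat 1), (.ofNat 11, .ofNat 0)⟩ ::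
 ⟨⟨.ofNat 2, .ofNat 3, .ofNat 8, .ofNat 4, .ofNat 9, .negSucc 10⟩, (.negSucc 30, .negSucc 51), (.negSucc 135, .negSucc 74), (.negSucc 160, .ofNat 191)⟩ ::
 ⟨⟨.ofNat 2, .ofNat 3, .ofNat 8, .ofNat 4, .ofNat 3, .negSucc 8⟩, (.negSucc 0, .ofNat 0), (.negSucc 1, .ofNat 1), (.ofNat 3, .ofNat 1)⟩ ::
 ⟨⟨.ofNat 2, .ofNat 3, .ofNat 8, .ofNat 4, .negSucc 2, .negSucc 6⟩, (.negSucc 2, .negSucc 4), (.negSucc 13, .negSucc 5), (.ofNat 8, .ofNat 11)⟩ ::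
 ⟨⟨.ofNat 2, .ofNat 3, .ofNat 8, .ofNat 4, .negSucc 8, .negSucc 4⟩, (.negSucc 8, .negSucc 8), (.negSucc 31, .negSucc 9), (.ofNat 38, .ofNat 15)⟩ ::
 ⟨⟨.ofNat 2, .ofNat 3, .ofNat 10, .negSucc 1, .ofNat 3, .negSucc 9⟩, (.negSucc 2, .negSucc 1), (.negSucc 5, .ofNat 4), (.ofNat 2, .ofNat 7)⟩ ::
 ⟨⟨.ofNat 2, .ofNat 3, .ofNat 10, .negSucc 1, .negSucc 2, .negSucc 7⟩, (.negSucc 2, .negSucc 0), (.negSucc 3, .ofNat 5), (.ofNat 9, .ofNat 3)⟩ ::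
 ⟨⟨.ofNat 2, .ofNat 3, .ofNat 10, .negSucc 1, .negSucc 8, .negSucc 5⟩, (.negSucc 2, .negSucc 1), (.negSucc 5, .ofNat 4), (.ofNat 10, .ofNat 1)⟩ ::
 ⟨⟨.ofNat 2, .ofNat 3, .ofNat 10, .ofNat 0, .ofNat 5, .negSucc 9⟩, (.negSucc 0, .negSucc 0), (.negSucc 3, .ofNat 1), (.ofNat 1, .ofNat 4)⟩ ::
 ⟨⟨.ofNat 2, .ofNat 3, .ofNat 10, .ofNat 0, .negSucc 0, .negSucc 7⟩, (.negSucc 4, .negSucc 3), (.negSucc 15, .ofNat 2), (.ofNat 4, .ofNat 14)⟩ ::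
 ⟨⟨.ofNat 2, .ofNat 3, .ofNat 10, .ofNat 0, .negSucc 6, .negSucc 5⟩, (.negSucc 2, .negSucc 6), (.negSucc 19, .negSucc 2), (.ofNat 9, .ofNat 13)⟩ ::
 ⟨⟨.ofNat 2, .ofNat 3, .ofNat 10, .ofNat 0, .negSucc 12, .negSucc 3⟩, (.negSucc 2, .ofNat 0), (.negSucc 1, .ofNat 4), (.ofNat 6, .negSucc 4)⟩ ::
 ⟨⟨.ofNat 2, .ofNat 3, .ofNat 10, .ofNat 2, .ofNat 9, .negSucc 11⟩, (.negSucc 2, .ofNat 0), (.negSucc 3, .ofNat 4), (.ofNat 8, .ofNat 6)⟩ ::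
 ⟨⟨.ofNat 2, .ofNat 3, .ofNat 10, .ofNat 2, .ofNat 3, .negSucc 9⟩, (.negSucc 2, .negSucc 2), (.negSucc 9, .negSucc 0), (.negSucc 2, .ofNat 10)⟩ ::
 ⟨⟨.ofNat 2, .ofNat 3, .ofNat 10, .ofNat 2, .negSucc 2, .negSucc 7⟩, (.negSucc 2, .negSucc 4), (.negSucc 15, .negSucc 4), (.ofNat 1, .ofNat 15)⟩ ::
 ⟨⟨.ofNat 2, .ofNat 3, .ofNat 10, .ofNat 2, .negSucc 8, .negSucc 5⟩, (.negSucc 6, .negSucc 11), (.negSucc 35, .negSucc 9), (.ofNat 28, .ofNat 23)⟩ ::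
 t

noncomputable def r20 (t : List Ent) : List Ent :=
 ⟨⟨.ofNat 2, .ofNat 3, .ofNat 12, .ofNat 0, .ofNat 3, .negSucc 12⟩, (.negSucc 2, .negSucc 9), (.negSucc 37, .negSucc 6), (.negSucc 22, .ofNat 42)⟩ ::
 ⟨⟨.ofNat 2, .ofNat 3, .ofNat 12, .ofNat 0, .negSucc 2, .negSucc 10⟩, (.negSucc 8, .negSucc 7), (.negSucc 37, .ofNat 5), (.ofNat 19, .ofNat 36)⟩ ::
 ⟨⟨.ofNat 2, .ofNat 3, .ofNat 12, .ofNat 0, .negSucc 8, .negSucc 8⟩, (.negSucc 2, .ofNat 0), (.negSucc 3, .ofNat 5), (.ofNat 11, .ofNat 0)⟩ ::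
 ⟨⟨.ofNat 2, .ofNat 3, .ofNat 12, .ofNat 0, .negSucc 14, .negSucc 6⟩, (.negSucc 2, .negSucc 7), (.negSucc 27, .negSucc 4), (.ofNat 27, .ofNat 21)⟩ ::
 ⟨⟨.ofNat 2, .ofNat 3, .ofNat 12, .ofNat 2, .ofNat 7, .negSucc 14⟩, (.negSucc 26, .negSucc 41), (.negSucc 167, .negSucc 32), (.negSucc 108, .ofNat 216)⟩ ::
 ⟨⟨.ofNat 2, .ofNat 3, .ofNat 12, .ofNat 2, .ofNat 1, .negSucc 12⟩, (.negSucc 34, .negSucc 52), (.negSucc 211, .negSucc 39), (.negSucc 29, .ofNat 237)⟩ ::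
 ⟨⟨.ofNat 2, .ofNat 3, .ofNat 12, .ofNat 2, .negSucc 4, .negSucc 10⟩, (.negSucc 8, .negSucc 13), (.negSucc 57, .negSucc 10), (.ofNat 23, .ofNat 57)⟩ ::
 ⟨⟨.ofNat 2, .ofNat 3, .ofNat 12, .ofNat 2, .negSucc 10, .negSucc 8⟩, (.negSucc 12, .negSucc 20), (.negSucc 85, .negSucc 15), (.ofNat 78, .ofNat 70)⟩ ::
 ⟨⟨.ofNat 3, .negSucc 1, .negSucc 5, .negSucc 4, .negSucc 8, .ofNat 4⟩, (.negSucc 5, .ofNat 1), (.ofNat 4, .ofNat 10), (.ofNat 17, .negSucc 2)⟩ ::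
 ⟨⟨.ofNat 3, .negSucc 1, .negSucc 5, .negSucc 4, .negSucc 4, .ofNat 7⟩, (.negSucc 0, .ofNat 0), (.ofNat 0, .ofNat 2), (.ofNat 4, .negSucc 0)⟩ ::
 ⟨⟨.ofNat 3, .negSucc 1, .negSucc 5, .negSucc 4, .negSucc 0, .ofNat 10⟩, (.negSucc 1, .ofNat 4), (.ofNat 14, .ofNat 4), (.negSucc 6, .negSucc 15)⟩ ::
 ⟨⟨.ofNat 3, .negSucc 1, .negSucc 5, .negSucc 3, .negSucc 9, .ofNat 1⟩, (.negSucc 12, .ofNat 9), (.ofNat 24, .ofNat 17), (.ofNat 43, .negSucc 0)⟩ ::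
 ⟨⟨.ofNat 3, .negSucc 1, .negSucc 5, .negSucc 3, .negSucc 5, .ofNat 4⟩, (.negSucc 0, .ofNat 0), (.ofNat 0, .ofNat 1), (.ofNat 1, .ofNat 0)⟩ ::
 ⟨⟨.ofNat 3, .negSucc 1, .negSucc 5, .negSucc 3, .negSucc 1, .ofNat 7⟩, (.negSucc 1, .ofNat 3), (.ofNat 10, .ofNat 2), (.negSucc 2, .negSucc 9)⟩ ::
 ⟨⟨.ofNat 3, .negSucc 1, .negSucc 5, .negSucc 2, .negSucc 8, .ofNat 0⟩, (.negSucc 2, .ofNat 0), (.ofNat 2, .ofNat 4), (.ofNat 6, .ofNat 2)⟩ ::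
 ⟨⟨.ofNat 3, .negSucc 1, .negSucc 5, .negSucc 2, .negSucc 4, .ofNat 3⟩, (.negSucc 2, .ofNat 0), (.ofNat 2, .ofNat 4), (.ofNat 6, .negSucc 0)⟩ ::
 ⟨⟨.ofNat 3, .negSucc 1, .negSucc 5, .negSucc 2, .negSucc 0, .ofNat 6⟩, (.negSucc 7, .ofNat 6), (.ofNat 20, .ofNat 8), (.ofNat 3, .negSucc 19)⟩ ::
 ⟨⟨.ofNat 3, .negSucc 1, .negSucc 5, .negSucc 1, .negSucc 5, .ofNat 1⟩, (.negSucc 0, .ofNat 0), (.ofNat 0, .ofNat 1), (.ofNat 1, .ofNat 1)⟩ ::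
 ⟨⟨.ofNat 3, .negSucc 1, .negSucc 5, .negSucc 1, .negSucc 1, .ofNat 4⟩, (.negSucc 0, .ofNat 0), (.ofNat 0, .ofNat 1), (.ofNat 1, .ofNat 0)⟩ ::
 ⟨⟨.ofNat 3, .negSucc 1, .negSucc 5, .negSucc 1, .ofNat 2, .ofNat 7⟩, (.negSucc 0, .ofNat 0), (.ofNat 0, .ofNat 1), (.ofNat 1, .negSucc 0)⟩ ::
 ⟨⟨.ofNat 3, .negSucc 1, .negSucc 5, .negSucc 0, .negSucc 4, .ofNat 1⟩, (.negSucc 0, .ofNat 2), (.ofNat 4, .ofNat 0), (.ofNat 4, .negSucc 0)⟩ ::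
 ⟨⟨.ofNat 3, .negSucc 1, .negSucc 5, .negSucc 0, .negSucc 0, .ofNat 4⟩, (.negSucc 0, .ofNat 2), (.ofNat 4, .ofNat 0), (.ofNat 0, .negSucc 1)⟩ ::
 ⟨⟨.ofNat 3, .negSucc 1, .negSucc 5, .negSucc 0, .ofNat 3, .ofNat 7⟩, (.negSucc 5, .ofNat 5), (.ofNat 12, .ofNat 2), (.negSucc 8, .negSucc 12)⟩ ::
 ⟨⟨.ofNat 3, .negSucc 1, .negSucc 3, .negSucc 5, .negSucc 11, .ofNat 2⟩, (.negSucc 4, .ofNat 3), (.ofNat 6, .ofNat 11), (.ofNat 23, .negSucc 3)⟩ ::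
 ⟨⟨.ofNat 3, .negSucc 1, .negSucc 3, .negSucc 5, .negSucc 7, .ofNat 5⟩, (.negSucc 87, .ofNat 63), (.ofNat 124, .ofNat 182), (.ofNat 249, .negSucc 149)⟩ ::
 ⟨⟨.ofNat 3, .negSucc 1, .negSucc 3, .negSucc 5, .negSucc 3, .ofNat 8⟩, (.ofNat 1, .ofNat 1), (.ofNat 4, .negSucc 0), (.negSucc 4, .negSucc 1)⟩ ::
 ⟨⟨.ofNat 3, .negSucc 1, .negSucc 3, .negSucc 4, .negSucc 10, .ofNat 0⟩, (.negSucc 0, .ofNat 2), (.ofNat 6, .ofNat 2), (.ofNat 6, .negSucc 3)⟩ ::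
 ⟨⟨.ofNat 3, .negSucc 1, .negSucc 3, .negSucc 4, .negSucc 6, .ofNat 3⟩, (.negSucc 7, .ofNat 6), (.ofNat 12, .ofNat 12), (.ofNat 15, .negSucc 7)⟩ ::
 ⟨⟨.ofNat 3, .negSucc 1, .negSucc 3, .negSucc 4, .negSucc 2, .ofNat 6⟩, (.negSucc 7, .ofNat 6), (.ofNat 12, .ofNat 12), (.ofNat 3, .negSucc 15)⟩ ::
 ⟨⟨.ofNat 3, .negSucc 1, .negSucc 3, .negSucc 3, .negSucc 7, .ofNat 0⟩, (.negSucc 2, .ofNat 0), (.ofNat 0, .ofNat 3), (.ofNat 3, .ofNat 2)⟩ ::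
 ⟨⟨.ofNat 3, .negSucc 1, .negSucc 3, .negSucc 3, .negSucc 3, .ofNat 3⟩, (.negSucc 6, .ofNat 5), (.ofNat 8, .ofNat 9), (.ofNat 9, .negSucc 4)⟩ ::
 ⟨⟨.ofNat 3, .negSucc 1, .negSucc 3, .negSucc 3, .ofNat 0, .ofNat 6⟩, (.negSucc 1, .ofNat 3), (.ofNat 6, .ofNat 4), (.negSucc 0, .negSucc 5)⟩ ::
 ⟨⟨.ofNat 3, .negSucc 1, .negSucc 3, .negSucc 1, .negSucc 3, .ofNat 0⟩, (.ofNat 0, .ofNat 2), (.ofNat 4, .ofNat 0), (.ofNat 3, .negSucc 1)⟩ ::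
 ⟨⟨.ofNat 3, .negSucc 1, .negSucc 3, .negSucc 1, .ofNat 0, .ofNat 3⟩, (.negSucc 2, .ofNat 0), (.ofNat 0, .ofNat 3), (.ofNat 3, .negSucc 0)⟩ ::
 ⟨⟨.ofNat 3, .negSucc 1, .negSucc 3, .negSucc 0, .negSucc 2, .ofNat 0⟩, (.negSucc 0, .ofNat 2), (.ofNat 2, .ofNat 0), (.ofNat 2, .ofNat 0)⟩ ::
 ⟨⟨.ofNat 3, .negSucc 1, .negSucc 3, .negSucc 0, .ofNat 1, .ofNat 3⟩, (.negSucc 3, .ofNat 3), (.ofNat 6, .ofNat 0), (.negSucc 2, .negSucc 4)⟩ ::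
 ⟨⟨.ofNat 3, .negSucc 1, .negSucc 1, .negSucc 6, .negSucc 16, .ofNat 0⟩, (.ofNat 1, .ofNat 1), (.ofNat 4, .ofNat 0), (.ofNat 2, .negSucc 4)⟩ ::
 ⟨⟨.ofNat 3, .negSucc 1, .negSucc 1, .negSucc 6, .negSucc 12, .ofNat 3⟩, (.negSucc 4, .ofNat 3), (.ofNat 2, .ofNat 10), (.ofNat 18, .negSucc 1)⟩ ::
 ⟨⟨.ofNat 3, .negSucc 1, .negSucc 1, .negSucc 6, .negSucc 8, .ofNat 6⟩, (.ofNat 1, .ofNat 1), (.ofNat 4, .ofNat 0), (.negSucc 1, .negSucc 2)⟩ ::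
 ⟨⟨.ofNat 3, .negSucc 1, .negSucc 1, .negSucc 6, .negSucc 4, .ofNat 9⟩, (.ofNat 1, .ofNat 1), (.ofNat 4, .ofNat 0), (.negSucc 3, .negSucc 1)⟩ ::
 ⟨⟨.ofNat 3, .negSucc 1, .negSucc 1, .negSucc 5, .negSucc 13, .negSucc 0⟩, (.negSucc 0, .ofNat 4), (.ofNat 8, .ofNat 5), (.ofNat 17, .negSucc 4)⟩ ::
 ⟨⟨.ofNat 3, .negSucc 1, .negSucc 1, .negSucc 5, .negSucc 9, .ofNat 2⟩, (.negSucc 3, .ofNat 0), (.negSucc 3, .ofNat 6), (.ofNat 11, .ofNat 2)⟩ ::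
 ⟨⟨.ofNat 3, .negSucc 1, .negSucc 1, .negSucc 5, .negSucc 5, .ofNat 5⟩, (.negSucc 2, .ofNat 4), (.ofNat 6, .ofNat 9), (.ofNat 9, .negSucc 8)⟩ ::
 ⟨⟨.ofNat 3, .negSucc 1, .negSucc 1, .negSucc 5, .negSucc 1, .ofNat 8⟩, (.negSucc 1, .ofNat 0), (.negSucc 1, .ofNat 2), (.ofNat 3, .negSucc 1)⟩ ::
 ⟨⟨.ofNat 3, .negSucc 1, .negSucc 1, .negSucc 4, .negSucc 8, .ofNat 0⟩, (.negSucc 1, .ofNat 3), (.ofNat 4, .ofNat 4), (.ofNat 9, .negSucc 0)⟩ ::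
 ⟨⟨.ofNat 3, .negSucc 1, .negSucc 1, .negSucc 4, .negSucc 4, .ofNat 3⟩, (.negSucc 2, .ofNat 0), (.negSucc 1, .ofNat 4), (.ofNat 6, .negSucc 0)⟩ ::
 ⟨⟨.ofNat 3, .negSucc 1, .negSucc 1, .negSucc 4, .negSucc 0, .ofNat 6⟩, (.negSucc 1, .ofNat 3), (.ofNat 4, .ofNat 4), (.negSucc 2, .negSucc 4)⟩ ::
 ⟨⟨.ofNat 3, .negSucc 1, .negSucc 1, .negSucc 3, .negSucc 9, .negSucc 2⟩, (.negSucc 0, .ofNat 0), (.ofNat 0, .ofNat 1), (.ofNat 1, .ofNat 1)⟩ ::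
 ⟨⟨.ofNat 3, .negSucc 1, .negSucc 1, .negSucc 3, .negSucc 5, .ofNat 0⟩, (.negSucc 0, .ofNat 0), (.ofNat 0, .ofNat 1), (.ofNat 1, .ofNat 0)⟩ ::
 ⟨⟨.ofNat 3, .negSucc 1, .negSucc 1, .negSucc 3, .negSucc 1, .ofNat 3⟩, (.negSucc 0, .ofNat 0), (.ofNat 0, .ofNat 1), (.ofNat 1, .negSucc 0)⟩ ::
 t

noncomputable def r21 (t : List Ent) : List Ent :=
 ⟨⟨.ofNat 3, .negSucc 1, .negSucc 1, .negSucc 2, .negSucc 4, .negSucc 0⟩, (.negSucc 2, .ofNat 0), (.negSucc 1, .ofNat 2), (.ofNat 2, .ofNat 3)⟩ ::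
 ⟨⟨.ofNat 3, .negSucc 1, .negSucc 1, .negSucc 2, .negSucc 0, .ofNat 2⟩, (.negSucc 2, .ofNat 0), (.negSucc 1, .ofNat 2), (.ofNat 2, .ofNat 0)⟩ ::
 ⟨⟨.ofNat 3, .negSucc 1, .negSucc 1, .negSucc 1, .negSucc 5, .negSucc 2⟩, (.negSucc 2, .ofNat 2), (.ofNat 2, .ofNat 1), (.ofNat 5, .ofNat 3)⟩ ::
 ⟨⟨.ofNat 3, .negSucc 1, .negSucc 1, .negSucc 1, .negSucc 1, .ofNat 0⟩, (.negSucc 2, .ofNat 2), (.ofNat 2, .ofNat 1), (.ofNat 1, .ofNat 0)⟩ ::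
 ⟨⟨.ofNat 3, .negSucc 1, .negSucc 1, .negSucc 0, .negSucc 4, .negSucc 2⟩, (.negSucc 0, .ofNat 0), (.ofNat 0, .ofNat 0), (.ofNat 0, .ofNat 1)⟩ ::
 ⟨⟨.ofNat 3, .negSucc 1, .negSucc 1, .negSucc 0, .negSucc 0, .ofNat 0⟩, (.negSucc 0, .ofNat 0), (.ofNat 0, .ofNat 0), (.ofNat 0, .ofNat 0)⟩ ::
 ⟨⟨.ofNat 3, .negSucc 1, .negSucc 1, .ofNat 0, .negSucc 1, .negSucc 0⟩, (.negSucc 2, .ofNat 0), (.ofNat 2, .ofNat 1), (.ofNat 1, .ofNat 1)⟩ ::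
 ⟨⟨.ofNat 3, .negSucc 1, .negSucc 1, .ofNat 0, .ofNat 2, .ofNat 2⟩, (.negSucc 2, .ofNat 0), (.ofNat 2, .ofNat 1), (.ofNat 1, .negSucc 1)⟩ ::
 ⟨⟨.ofNat 3, .negSucc 1, .negSucc 1, .ofNat 1, .negSucc 4, .negSucc 2⟩, (.negSucc 1, .ofNat 0), (.ofNat 2, .ofNat 0), (.ofNat 1, .ofNat 2)⟩ ::
 ⟨⟨.ofNat 3, .negSucc 1, .negSucc 1, .ofNat 1, .negSucc 0, .ofNat 0⟩, (.negSucc 0, .ofNat 0), (.ofNat 0, .ofNat 0), (.ofNat 0, .ofNat 0)⟩ ::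
 ⟨⟨.ofNat 3, .negSucc 1, .negSucc 1, .ofNat 2, .negSucc 5, .negSucc 2⟩, (.negSucc 0, .ofNat 2), (.ofNat 0, .negSucc 0), (.ofNat 5, .ofNat 1)⟩ ::
 ⟨⟨.ofNat 3, .negSucc 1, .negSucc 1, .ofNat 2, .negSucc 1, .ofNat 0⟩, (.negSucc 2, .ofNat 0), (.ofNat 2, .negSucc 0), (.ofNat 1, .ofNat 0)⟩ ::
 ⟨⟨.ofNat 3, .negSucc 1, .negSucc 1, .ofNat 2, .ofNat 2, .ofNat 3⟩, (.negSucc 0, .ofNat 2), (.ofNat 0, .negSucc 0), (.negSucc 2, .negSucc 0)⟩ ::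
 ⟨⟨.ofNat 3, .negSucc 1, .ofNat 0, .negSucc 6, .negSucc 18, .negSucc 1⟩, (.negSucc 9, .ofNat 6), (.negSucc 1, .ofNat 24), (.ofNat 65, .ofNat 6)⟩ ::
 ⟨⟨.ofNat 3, .negSucc 1, .ofNat 0, .negSucc 6, .negSucc 14, .ofNat 1⟩, (.negSucc 15, .ofNat 15), (.ofNat 10, .ofNat 42), (.ofNat 89, .negSucc 12)⟩ ::
 ⟨⟨.ofNat 3, .negSucc 1, .ofNat 0, .negSucc 6, .negSucc 10, .ofNat 4⟩, (.negSucc 2, .ofNat 0), (.negSucc 3, .ofNat 4), (.ofNat 8, .ofNat 0)⟩ ::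
 ⟨⟨.ofNat 3, .negSucc 1, .ofNat 0, .negSucc 6, .negSucc 6, .ofNat 7⟩, (.negSucc 2, .ofNat 0), (.negSucc 3, .ofNat 4), (.ofNat 8, .negSucc 2)⟩ ::
 ⟨⟨.ofNat 3, .negSucc 1, .ofNat 0, .negSucc 5, .negSucc 15, .negSucc 2⟩, (.negSucc 27, .ofNat 15), (.negSucc 3, .ofNat 52), (.ofNat 129, .ofNat 30)⟩ ::
 ⟨⟨.ofNat 3, .negSucc 1, .ofNat 0, .negSucc 5, .negSucc 11, .ofNat 0⟩, (.negSucc 0, .ofNat 0), (.negSucc 1, .ofNat 1), (.ofNat 3, .ofNat 2)⟩ ::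
 ⟨⟨.ofNat 3, .negSucc 1, .ofNat 0, .negSucc 5, .negSucc 7, .ofNat 3⟩, (.negSucc 7, .ofNat 5), (.ofNat 0, .ofNat 14), (.ofNat 17, .negSucc 5)⟩ ::
 ⟨⟨.ofNat 3, .negSucc 1, .ofNat 0, .negSucc 5, .negSucc 3, .ofNat 6⟩, (.negSucc 0, .ofNat 0), (.negSucc 1, .ofNat 1), (.ofNat 3, .ofNat 0)⟩ ::
 ⟨⟨.ofNat 3, .negSucc 1, .ofNat 0, .negSucc 4, .negSucc 10, .negSucc 1⟩, (.negSucc 3, .ofNat 6), (.ofNat 4, .ofNat 10), (.ofNat 27, .ofNat 0)⟩ ::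
 ⟨⟨.ofNat 3, .negSucc 1, .ofNat 0, .negSucc 4, .negSucc 6, .ofNat 1⟩, (.negSucc 2, .ofNat 0), (.negSucc 3, .ofNat 2), (.ofNat 4, .ofNat 3)⟩ ::
 ⟨⟨.ofNat 3, .negSucc 1, .ofNat 0, .negSucc 4, .negSucc 2, .ofNat 4⟩, (.negSucc 2, .ofNat 0), (.negSucc 3, .ofNat 2), (.ofNat 4, .ofNat 0)⟩ ::
 ⟨⟨.ofNat 3, .negSucc 1, .ofNat 0, .negSucc 3, .negSucc 7, .negSucc 1⟩, (.ofNat 0, .ofNat 3), (.ofNat 4, .ofNat 2), (.ofNat 7, .negSucc 1)⟩ ::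
 ⟨⟨.ofNat 3, .negSucc 1, .ofNat 0, .negSucc 3, .negSucc 3, .ofNat 1⟩, (.negSucc 3, .ofNat 0), (.negSucc 3, .ofNat 2), (.ofNat 3, .ofNat 2)⟩ ::
 ⟨⟨.ofNat 3, .negSucc 1, .ofNat 0, .negSucc 3, .ofNat 0, .ofNat 4⟩, (.negSucc 6, .ofNat 1), (.negSucc 3, .ofNat 5), (.ofNat 3, .negSucc 5)⟩ ::
 ⟨⟨.ofNat 3, .negSucc 1, .ofNat 0, .negSucc 2, .negSucc 6, .negSucc 2⟩, (.negSucc 3, .ofNat 0), (.negSucc 3, .ofNat 2), (.ofNat 3, .ofNat 6)⟩ ::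
 ⟨⟨.ofNat 3, .negSucc 1, .ofNat 0, .negSucc 2, .negSucc 2, .ofNat 0⟩, (.ofNat 1, .ofNat 1), (.ofNat 2, .ofNat 0), (.ofNat 0, .negSucc 0)⟩ ::
 ⟨⟨.ofNat 3, .negSucc 1, .ofNat 0, .negSucc 2, .ofNat 1, .ofNat 3⟩, (.ofNat 1, .ofNat 1), (.ofNat 2, .ofNat 0), (.negSucc 1, .ofNat 0)⟩ ::
 ⟨⟨.ofNat 3, .negSucc 1, .ofNat 0, .negSucc 1, .negSucc 3, .negSucc 1⟩, (.negSucc 0, .ofNat 2), (.ofNat 2, .ofNat 1), (.ofNat 3, .ofNat 0)⟩ ::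
 ⟨⟨.ofNat 3, .negSucc 1, .ofNat 0, .negSucc 1, .ofNat 0, .ofNat 1⟩, (.negSucc 1, .negSucc 0), (.negSucc 1, .ofNat 0), (.ofNat 1, .ofNat 0)⟩ ::
 ⟨⟨.ofNat 3, .negSucc 1, .ofNat 0, .negSucc 0, .negSucc 2, .negSucc 1⟩, (.negSucc 2, .ofNat 0), (.ofNat 0, .ofNat 0), (.ofNat 0, .ofNat 2)⟩ ::
 ⟨⟨.ofNat 3, .negSucc 1, .ofNat 0, .negSucc 0, .ofNat 1, .ofNat 1⟩, (.negSucc 2, .ofNat 0), (.ofNat 0, .ofNat 0), (.ofNat 0, .negSucc 0)⟩ ::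
 ⟨⟨.ofNat 3, .negSucc 1, .ofNat 0, .ofNat 1, .negSucc 2, .negSucc 1⟩, (.ofNat 0, .ofNat 2), (.ofNat 0, .ofNat 0), (.ofNat 3, .ofNat 0)⟩ ::
 ⟨⟨.ofNat 3, .negSucc 1, .ofNat 0, .ofNat 1, .ofNat 1, .ofNat 1⟩, (.negSucc 2, .ofNat 0), (.ofNat 0, .ofNat 0), (.ofNat 0, .negSucc 0)⟩ ::
 ⟨⟨.ofNat 3, .negSucc 1, .ofNat 0, .ofNat 2, .negSucc 3, .negSucc 1⟩, (.negSucc 0, .ofNat 2), (.negSucc 1, .negSucc 0), (.ofNat 3, .ofNat 0)⟩ ::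
 ⟨⟨.ofNat 3, .negSucc 1, .ofNat 0, .ofNat 2, .ofNat 0, .ofNat 1⟩, (.negSucc 3, .ofNat 3), (.ofNat 0, .negSucc 3), (.ofNat 1, .negSucc 1)⟩ ::
 ⟨⟨.ofNat 3, .negSucc 1, .ofNat 2, .negSucc 5, .negSucc 17, .negSucc 3⟩, (.negSucc 2, .ofNat 0), (.negSucc 5, .ofNat 3), (.ofNat 9, .ofNat 8)⟩ ::
 ⟨⟨.ofNat 3, .negSucc 1, .ofNat 2, .negSucc 5, .negSucc 13, .negSucc 0⟩, (.negSucc 19, .ofNat 18), (.negSucc 7, .ofNat 46), (.ofNat 111, .ofNat 2)⟩ ::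
 ⟨⟨.ofNat 3, .negSucc 1, .ofNat 2, .negSucc 5, .negSucc 9, .ofNat 2⟩, (.negSucc 0, .ofNat 4), (.ofNat 4, .ofNat 7), (.ofNat 9, .negSucc 5)⟩ ::
 ⟨⟨.ofNat 3, .negSucc 1, .ofNat 2, .negSucc 5, .negSucc 5, .ofNat 5⟩, (.negSucc 7, .ofNat 5), (.negSucc 7, .ofNat 16), (.ofNat 21, .negSucc 11)⟩ ::
 ⟨⟨.ofNat 3, .negSucc 1, .ofNat 2, .negSucc 4, .negSucc 12, .negSucc 2⟩, (.negSucc 3, .ofNat 3), (.negSucc 1, .ofNat 6), (.ofNat 17, .ofNat 5)⟩ ::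
 ⟨⟨.ofNat 3, .negSucc 1, .ofNat 2, .negSucc 4, .negSucc 8, .ofNat 0⟩, (.negSucc 0, .ofNat 2), (.ofNat 0, .ofNat 4), (.ofNat 8, .negSucc 1)⟩ ::
 ⟨⟨.ofNat 3, .negSucc 1, .ofNat 2, .negSucc 4, .negSucc 4, .ofNat 3⟩, (.negSucc 3, .ofNat 3), (.negSucc 1, .ofNat 6), (.ofNat 5, .negSucc 2)⟩ ::
 ⟨⟨.ofNat 3, .negSucc 1, .ofNat 2, .negSucc 3, .negSucc 9, .negSucc 2⟩, (.negSucc 3, .ofNat 3), (.negSucc 3, .ofNat 6), (.ofNat 17, .ofNat 4)⟩ ::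
 ⟨⟨.ofNat 3, .negSucc 1, .ofNat 2, .negSucc 3, .negSucc 5, .ofNat 0⟩, (.negSucc 3, .ofNat 0), (.negSucc 3, .ofNat 2), (.ofNat 3, .ofNat 2)⟩ ::
 ⟨⟨.ofNat 3, .negSucc 1, .ofNat 2, .negSucc 3, .negSucc 1, .ofNat 3⟩, (.negSucc 3, .ofNat 0), (.negSucc 3, .ofNat 2), (.ofNat 3, .negSucc 1)⟩ ::
 ⟨⟨.ofNat 3, .negSucc 1, .ofNat 2, .negSucc 2, .negSucc 8, .negSucc 3⟩, (.negSucc 3, .ofNat 0), (.negSucc 3, .ofNat 2), (.ofNat 3, .ofNat 6)⟩ ::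
 ⟨⟨.ofNat 3, .negSucc 1, .ofNat 2, .negSucc 2, .negSucc 4, .negSucc 0⟩, (.negSucc 3, .ofNat 0), (.negSucc 3, .ofNat 2), (.ofNat 3, .ofNat 2)⟩ ::
 t

noncomputable def r22 (t : List Ent) : List Ent :=
 ⟨⟨.ofNat 3, .negSucc 1, .ofNat 2, .negSucc 2, .negSucc 0, .ofNat 2⟩, (.negSucc 1, .ofNat 0), (.negSucc 1, .ofNat 0), (.ofNat 1, .ofNat 0)⟩ ::
 ⟨⟨.ofNat 3, .negSucc 1, .ofNat 2, .negSucc 1, .negSucc 5, .negSucc 2⟩, (.negSucc 2, .ofNat 0), (.negSucc 1, .ofNat 1), (.ofNat 1, .ofNat 3)⟩ ::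
 ⟨⟨.ofNat 3, .negSucc 1, .ofNat 2, .negSucc 1, .negSucc 1, .ofNat 0⟩, (.negSucc 2, .ofNat 0), (.negSucc 1, .ofNat 1), (.ofNat 1, .ofNat 0)⟩ ::
 ⟨⟨.ofNat 3, .negSucc 1, .ofNat 2, .negSucc 0, .negSucc 4, .negSucc 2⟩, (.negSucc 1, .ofNat 0), (.negSucc 1, .ofNat 0), (.ofNat 1, .ofNat 2)⟩ ::
 ⟨⟨.ofNat 3, .negSucc 1, .ofNat 2, .negSucc 0, .negSucc 0, .ofNat 0⟩, (.negSucc 0, .ofNat 0), (.ofNat 0, .ofNat 0), (.ofNat 0, .ofNat 0)⟩ ::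
 ⟨⟨.ofNat 3, .negSucc 1, .ofNat 2, .ofNat 0, .negSucc 5, .negSucc 3⟩, (.negSucc 2, .ofNat 0), (.negSucc 1, .negSucc 0), (.ofNat 1, .ofNat 4)⟩ ::
 ⟨⟨.ofNat 3, .negSucc 1, .ofNat 2, .ofNat 0, .negSucc 1, .negSucc 0⟩, (.ofNat 0, .ofNat 1), (.ofNat 0, .ofNat 0), (.ofNat 1, .ofNat 0)⟩ ::
 ⟨⟨.ofNat 3, .negSucc 1, .ofNat 2, .ofNat 1, .negSucc 4, .negSucc 2⟩, (.negSucc 0, .ofNat 0), (.ofNat 0, .ofNat 0), (.ofNat 0, .ofNat 1)⟩ ::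
 ⟨⟨.ofNat 3, .negSucc 1, .ofNat 2, .ofNat 1, .negSucc 0, .ofNat 0⟩, (.negSucc 0, .ofNat 0), (.ofNat 0, .ofNat 0), (.ofNat 0, .ofNat 0)⟩ ::
 ⟨⟨.ofNat 3, .negSucc 1, .ofNat 2, .ofNat 2, .negSucc 5, .negSucc 2⟩, (.negSucc 2, .ofNat 2), (.negSucc 1, .negSucc 0), (.ofNat 5, .ofNat 3)⟩ ::
 ⟨⟨.ofNat 3, .negSucc 1, .ofNat 2, .ofNat 2, .negSucc 1, .ofNat 0⟩, (.negSucc 2, .ofNat 2), (.negSucc 1, .negSucc 0), (.ofNat 1, .ofNat 0)⟩ ::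
 ⟨⟨.ofNat 3, .negSucc 1, .ofNat 4, .negSucc 3, .negSucc 11, .negSucc 2⟩, (.negSucc 2, .ofNat 0), (.negSucc 3, .ofNat 1), (.ofNat 3, .ofNat 5)⟩ ::
 ⟨⟨.ofNat 3, .negSucc 1, .ofNat 4, .negSucc 3, .negSucc 7, .ofNat 0⟩, (.ofNat 0, .ofNat 1), (.ofNat 0, .ofNat 2), (.ofNat 3, .negSucc 1)⟩ ::
 ⟨⟨.ofNat 3, .negSucc 1, .ofNat 4, .negSucc 3, .negSucc 3, .ofNat 3⟩, (.ofNat 0, .ofNat 1), (.ofNat 0, .ofNat 2), (.ofNat 1, .negSucc 1)⟩ ::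
 ⟨⟨.ofNat 3, .negSucc 1, .ofNat 4, .negSucc 2, .negSucc 10, .negSucc 3⟩, (.negSucc 0, .ofNat 0), (.negSucc 1, .ofNat 0), (.ofNat 2, .ofNat 2)⟩ ::
 ⟨⟨.ofNat 3, .negSucc 1, .ofNat 4, .negSucc 2, .negSucc 6, .negSucc 0⟩, (.negSucc 1, .ofNat 0), (.negSucc 1, .ofNat 0), (.ofNat 1, .ofNat 2)⟩ ::
 ⟨⟨.ofNat 3, .negSucc 1, .ofNat 4, .negSucc 2, .negSucc 2, .ofNat 2⟩, (.negSucc 1, .ofNat 0), (.negSucc 1, .ofNat 0), (.ofNat 1, .ofNat 0)⟩ ::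
 ⟨⟨.ofNat 3, .negSucc 1, .ofNat 4, .negSucc 1, .negSucc 7, .negSucc 2⟩, (.negSucc 0, .ofNat 2), (.negSucc 1, .ofNat 3), (.ofNat 7, .negSucc 0)⟩ ::
 ⟨⟨.ofNat 3, .negSucc 1, .ofNat 4, .negSucc 1, .negSucc 3, .ofNat 0⟩, (.negSucc 0, .ofNat 2), (.negSucc 1, .ofNat 3), (.ofNat 3, .negSucc 1)⟩ ::
 ⟨⟨.ofNat 3, .negSucc 1, .ofNat 4, .negSucc 0, .negSucc 10, .negSucc 5⟩, (.negSucc 2, .ofNat 4), (.negSucc 3, .ofNat 2), (.ofNat 20, .ofNat 6)⟩ ::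
 ⟨⟨.ofNat 3, .negSucc 1, .ofNat 4, .negSucc 0, .negSucc 6, .negSucc 2⟩, (.negSucc 1, .ofNat 0), (.negSucc 1, .ofNat 0), (.ofNat 1, .ofNat 2)⟩ ::
 ⟨⟨.ofNat 3, .negSucc 1, .ofNat 4, .negSucc 0, .negSucc 2, .ofNat 0⟩, (.negSucc 1, .ofNat 0), (.negSucc 1, .ofNat 0), (.ofNat 1, .ofNat 0)⟩ ::
 ⟨⟨.ofNat 3, .negSucc 1, .ofNat 4, .ofNat 0, .negSucc 7, .negSucc 3⟩, (.ofNat 1, .ofNat 1), (.ofNat 0, .ofNat 1), (.ofNat 3, .negSucc 1)⟩ ::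
 ⟨⟨.ofNat 3, .negSucc 1, .ofNat 4, .ofNat 0, .negSucc 3, .negSucc 0⟩, (.negSucc 3, .ofNat 0), (.negSucc 3, .negSucc 1), (.ofNat 3, .ofNat 2)⟩ ::
 ⟨⟨.ofNat 3, .negSucc 1, .ofNat 6, .negSucc 2, .negSucc 16, .negSucc 5⟩, (.negSucc 1, .ofNat 3), (.negSucc 3, .ofNat 4), (.ofNat 21, .ofNat 3)⟩ ::
 ⟨⟨.ofNat 3, .negSucc 1, .ofNat 6, .negSucc 2, .negSucc 12, .negSucc 2⟩, (.ofNat 0, .ofNat 2), (.ofNat 0, .ofNat 4), (.ofNat 7, .negSucc 3)⟩ ::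
 ⟨⟨.ofNat 3, .negSucc 1, .ofNat 6, .negSucc 2, .negSucc 8, .ofNat 0⟩, (.ofNat 0, .ofNat 2), (.ofNat 0, .ofNat 4), (.ofNat 3, .negSucc 3)⟩ ::
 ⟨⟨.ofNat 3, .negSucc 1, .ofNat 6, .negSucc 2, .negSucc 4, .ofNat 3⟩, (.negSucc 1, .ofNat 3), (.negSucc 3, .ofNat 4), (.ofNat 3, .negSucc 2)⟩ ::
 ⟨⟨.ofNat 3, .negSucc 1, .ofNat 6, .negSucc 1, .negSucc 13, .negSucc 4⟩, (.negSucc 1, .negSucc 0), (.negSucc 1, .negSucc 1), (.negSucc 2, .ofNat 6)⟩ ::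
 ⟨⟨.ofNat 3, .negSucc 1, .ofNat 6, .negSucc 1, .negSucc 9, .negSucc 1⟩, (.negSucc 7, .ofNat 6), (.negSucc 15, .ofNat 8), (.ofNat 27, .ofNat 2)⟩ ::
 ⟨⟨.ofNat 3, .negSucc 1, .ofNat 6, .negSucc 1, .negSucc 5, .ofNat 1⟩, (.negSucc 0, .ofNat 2), (.negSucc 3, .ofNat 3), (.ofNat 5, .negSucc 2)⟩ ::
 ⟨⟨.ofNat 3, .negSucc 1, .ofNat 6, .negSucc 0, .negSucc 12, .negSucc 4⟩, (.ofNat 1, .ofNat 1), (.ofNat 0, .ofNat 2), (.ofNat 4, .negSucc 3)⟩ ::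
 ⟨⟨.ofNat 3, .negSucc 1, .ofNat 6, .negSucc 0, .negSucc 8, .negSucc 1⟩, (.ofNat 0, .ofNat 3), (.negSucc 1, .ofNat 4), (.ofNat 7, .negSucc 2)⟩ ::
 ⟨⟨.ofNat 3, .negSucc 1, .ofNat 6, .negSucc 0, .negSucc 4, .ofNat 1⟩, (.negSucc 3, .ofNat 0), (.negSucc 3, .negSucc 1), (.ofNat 3, .ofNat 2)⟩ ::
 ⟨⟨.ofNat 3, .negSucc 0, .negSucc 3, .negSucc 3, .negSucc 7, .ofNat 0⟩, (.negSucc 0, .ofNat 0), (.ofNat 0, .ofNat 1), (.ofNat 1, .ofNat 1)⟩ ::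
 ⟨⟨.ofNat 3, .negSucc 0, .negSucc 3, .negSucc 3, .negSucc 5, .ofNat 3⟩, (.negSucc 0, .ofNat 0), (.ofNat 0, .ofNat 1), (.ofNat 1, .ofNat 0)⟩ ::
 ⟨⟨.ofNat 3, .negSucc 0, .negSucc 3, .negSucc 3, .negSucc 3, .ofNat 6⟩, (.negSucc 0, .ofNat 0), (.ofNat 0, .ofNat 1), (.ofNat 1, .negSucc 0)⟩ ::
 ⟨⟨.ofNat 3, .negSucc 0, .negSucc 3, .negSucc 2, .negSucc 6, .negSucc 1⟩, (.negSucc 1, .ofNat 0), (.ofNat 2, .ofNat 2), (.ofNat 3, .ofNat 1)⟩ ::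
 ⟨⟨.ofNat 3, .negSucc 0, .negSucc 3, .negSucc 2, .negSucc 4, .ofNat 1⟩, (.negSucc 0, .negSucc 0), (.negSucc 1, .ofNat 2), (.ofNat 2, .ofNat 2)⟩ ::
 ⟨⟨.ofNat 3, .negSucc 0, .negSucc 3, .negSucc 2, .negSucc 2, .ofNat 4⟩, (.negSucc 0, .negSucc 0), (.negSucc 1, .ofNat 2), (.ofNat 4, .ofNat 1)⟩ ::
 ⟨⟨.ofNat 3, .negSucc 0, .negSucc 3, .negSucc 2, .negSucc 0, .ofNat 7⟩, (.negSucc 0, .negSucc 0), (.negSucc 1, .ofNat 2), (.ofNat 6, .ofNat 0)⟩ ::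
 ⟨⟨.ofNat 3, .negSucc 0, .negSucc 3, .negSucc 1, .negSucc 3, .ofNat 0⟩, (.negSucc 1, .negSucc 0), (.ofNat 0, .ofNat 2), (.ofNat 1, .ofNat 1)⟩ ::
 ⟨⟨.ofNat 3, .negSucc 0, .negSucc 3, .negSucc 1, .negSucc 1, .ofNat 3⟩, (.negSucc 0, .ofNat 0), (.ofNat 0, .ofNat 1), (.ofNat 1, .ofNat 0)⟩ ::
 ⟨⟨.ofNat 3, .negSucc 0, .negSucc 3, .negSucc 1, .ofNat 0, .ofNat 6⟩, (.negSucc 0, .ofNat 0), (.ofNat 0, .ofNat 1), (.ofNat 1, .negSucc 0)⟩ ::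
 ⟨⟨.ofNat 3, .negSucc 0, .negSucc 1, .negSucc 4, .negSucc 8, .ofNat 0⟩, (.negSucc 2, .ofNat 0), (.negSucc 1, .ofNat 4), (.ofNat 6, .ofNat 4)⟩ ::
 ⟨⟨.ofNat 3, .negSucc 0, .negSucc 1, .negSucc 4, .negSucc 6, .ofNat 3⟩, (.negSucc 2, .ofNat 0), (.negSucc 1, .ofNat 4), (.ofNat 6, .ofNat 1)⟩ ::
 ⟨⟨.ofNat 3, .negSucc 0, .negSucc 1, .negSucc 4, .negSucc 4, .ofNat 6⟩, (.negSucc 0, .ofNat 0), (.ofNat 0, .ofNat 2), (.ofNat 4, .negSucc 1)⟩ ::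
 ⟨⟨.ofNat 3, .negSucc 0, .negSucc 1, .negSucc 3, .negSucc 5, .ofNat 0⟩, (.ofNat 0, .ofNat 1), (.ofNat 2, .ofNat 0), (.ofNat 1, .negSucc 0)⟩ ::
 ⟨⟨.ofNat 3, .negSucc 0, .negSucc 1, .negSucc 3, .negSucc 3, .ofNat 3⟩, (.negSucc 2, .ofNat 0), (.ofNat 0, .ofNat 3), (.ofNat 3, .negSucc 1)⟩ ::
 ⟨⟨.ofNat 3, .negSucc 0, .negSucc 1, .negSucc 3, .negSucc 1, .ofNat 6⟩, (.ofNat 0, .ofNat 1), (.ofNat 2, .ofNat 0), (.negSucc 2, .negSucc 0)⟩ ::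
 t

noncomputable def r23 (t : List Ent) : List Ent :=
 ⟨⟨.ofNat 3, .negSucc 0, .negSucc 1, .negSucc 1, .negSucc 3, .negSucc 2⟩, (.ofNat 0, .ofNat 1), (.ofNat 2, .ofNat 0), (.ofNat 3, .negSucc 0)⟩ ::
 ⟨⟨.ofNat 3, .negSucc 0, .negSucc 1, .negSucc 1, .negSucc 1, .ofNat 0⟩, (.ofNat 0, .ofNat 1), (.ofNat 2, .ofNat 0), (.ofNat 1, .negSucc 0)⟩ ::
 ⟨⟨.ofNat 3, .negSucc 0, .negSucc 1, .negSucc 1, .ofNat 0, .ofNat 3⟩, (.negSucc 3, .ofNat 0), (.ofNat 0, .ofNat 2), (.ofNat 1, .negSucc 2)⟩ ::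
 ⟨⟨.ofNat 3, .negSucc 0, .negSucc 1, .negSucc 0, .negSucc 2, .negSucc 2⟩, (.negSucc 3, .ofNat 2), (.ofNat 4, .ofNat 0), (.ofNat 5, .ofNat 3)⟩ ::
 ⟨⟨.ofNat 3, .negSucc 0, .negSucc 1, .negSucc 0, .negSucc 0, .ofNat 0⟩, (.negSucc 0, .ofNat 0), (.ofNat 0, .ofNat 0), (.ofNat 0, .ofNat 0)⟩ ::
 ⟨⟨.ofNat 3, .negSucc 0, .negSucc 1, .negSucc 0, .ofNat 1, .ofNat 3⟩, (.negSucc 3, .ofNat 0), (.ofNat 0, .ofNat 2), (.ofNat 1, .negSucc 2)⟩ ::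
 ⟨⟨.ofNat 3, .negSucc 0, .negSucc 1, .ofNat 0, .negSucc 1, .negSucc 1⟩, (.negSucc 0, .negSucc 0), (.ofNat 0, .ofNat 1), (.negSucc 0, .ofNat 1)⟩ ::
 ⟨⟨.ofNat 3, .negSucc 0, .negSucc 1, .ofNat 0, .ofNat 0, .ofNat 1⟩, (.negSucc 1, .ofNat 0), (.ofNat 2, .ofNat 0), (.ofNat 1, .negSucc 0)⟩ ::
 ⟨⟨.ofNat 3, .negSucc 0, .negSucc 1, .ofNat 1, .negSucc 2, .negSucc 2⟩, (.negSucc 1, .negSucc 0), (.ofNat 2, .ofNat 0), (.negSucc 0, .ofNat 2)⟩ ::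
 ⟨⟨.ofNat 3, .negSucc 0, .negSucc 1, .ofNat 1, .negSucc 0, .ofNat 0⟩, (.negSucc 0, .ofNat 0), (.ofNat 0, .ofNat 0), (.ofNat 0, .ofNat 0)⟩ ::
 ⟨⟨.ofNat 3, .negSucc 0, .negSucc 1, .ofNat 1, .ofNat 1, .ofNat 3⟩, (.ofNat 0, .ofNat 2), (.ofNat 0, .negSucc 1), (.negSucc 2, .negSucc 0)⟩ ::
 ⟨⟨.ofNat 3, .negSucc 0, .ofNat 0, .negSucc 5, .negSucc 13, .negSucc 2⟩, (.negSucc 9, .ofNat 2), (.negSucc 1, .ofNat 18), (.ofNat 37, .ofNat 11)⟩ ::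
 ⟨⟨.ofNat 3, .negSucc 0, .ofNat 0, .negSucc 5, .negSucc 11, .ofNat 0⟩, (.negSucc 2, .ofNat 1), (.ofNat 0, .ofNat 5), (.ofNat 9, .ofNat 1)⟩ ::
 ⟨⟨.ofNat 3, .negSucc 0, .ofNat 0, .negSucc 5, .negSucc 9, .ofNat 3⟩, (.negSucc 6, .ofNat 2), (.negSucc 1, .ofNat 15), (.ofNat 29, .negSucc 5)⟩ ::
 ⟨⟨.ofNat 3, .negSucc 0, .ofNat 0, .negSucc 5, .negSucc 7, .ofNat 6⟩, (.negSucc 2, .ofNat 1), (.ofNat 0, .ofNat 5), (.ofNat 5, .negSucc 4)⟩ ::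
 ⟨⟨.ofNat 3, .negSucc 0, .ofNat 0, .negSucc 4, .negSucc 10, .negSucc 3⟩, (.negSucc 6, .ofNat 3), (.ofNat 4, .ofNat 12), (.ofNat 26, .ofNat 5)⟩ ::
 ⟨⟨.ofNat 3, .negSucc 0, .ofNat 0, .negSucc 4, .negSucc 8, .negSucc 0⟩, (.negSucc 1, .ofNat 0), (.negSucc 1, .ofNat 2), (.ofNat 3, .ofNat 3)⟩ ::
 ⟨⟨.ofNat 3, .negSucc 0, .ofNat 0, .negSucc 4, .negSucc 6, .ofNat 2⟩, (.negSucc 1, .ofNat 0), (.negSucc 1, .ofNat 2), (.ofNat 3, .ofNat 1)⟩ ::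
 ⟨⟨.ofNat 3, .negSucc 0, .ofNat 0, .negSucc 4, .negSucc 4, .ofNat 5⟩, (.negSucc 1, .ofNat 0), (.negSucc 1, .ofNat 2), (.ofNat 3, .negSucc 0)⟩ ::
 ⟨⟨.ofNat 3, .negSucc 0, .ofNat 0, .negSucc 3, .negSucc 7, .negSucc 3⟩, (.negSucc 0, .ofNat 0), (.ofNat 0, .ofNat 1), (.ofNat 1, .ofNat 1)⟩ ::
 ⟨⟨.ofNat 3, .negSucc 0, .ofNat 0, .negSucc 3, .negSucc 5, .negSucc 0⟩, (.negSucc 4, .ofNat 1), (.negSucc 1, .ofNat 5), (.ofNat 7, .ofNat 4)⟩ ::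
 ⟨⟨.ofNat 3, .negSucc 0, .ofNat 0, .negSucc 3, .negSucc 3, .ofNat 2⟩, (.negSucc 0, .ofNat 0), (.ofNat 0, .ofNat 1), (.ofNat 1, .negSucc 0)⟩ ::
 ⟨⟨.ofNat 3, .negSucc 0, .ofNat 0, .negSucc 3, .negSucc 1, .ofNat 5⟩, (.negSucc 0, .ofNat 0), (.ofNat 0, .ofNat 1), (.ofNat 1, .negSucc 1)⟩ ::
 ⟨⟨.ofNat 3, .negSucc 0, .ofNat 0, .negSucc 2, .negSucc 4, .negSucc 2⟩, (.negSucc 1, .ofNat 0), (.negSucc 1, .ofNat 2), (.ofNat 3, .ofNat 3)⟩ ::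
 ⟨⟨.ofNat 3, .negSucc 0, .ofNat 0, .negSucc 2, .negSucc 2, .ofNat 0⟩, (.negSucc 0, .negSucc 0), (.negSucc 1, .ofNat 0), (.ofNat 0, .ofNat 1)⟩ ::
 ⟨⟨.ofNat 3, .negSucc 0, .ofNat 0, .negSucc 2, .negSucc 0, .ofNat 3⟩, (.negSucc 1, .ofNat 0), (.negSucc 1, .ofNat 2), (.ofNat 3, .negSucc 0)⟩ ::
 ⟨⟨.ofNat 3, .negSucc 0, .ofNat 0, .negSucc 1, .negSucc 3, .negSucc 3⟩, (.negSucc 0, .ofNat 0), (.ofNat 0, .ofNat 1), (.ofNat 1, .ofNat 1)⟩ ::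
 ⟨⟨.ofNat 3, .negSucc 0, .ofNat 0, .negSucc 1, .negSucc 1, .negSucc 0⟩, (.negSucc 0, .ofNat 0), (.ofNat 0, .ofNat 1), (.ofNat 1, .ofNat 0)⟩ ::
 ⟨⟨.ofNat 3, .negSucc 0, .ofNat 0, .negSucc 1, .ofNat 0, .ofNat 2⟩, (.negSucc 0, .ofNat 0), (.ofNat 0, .ofNat 1), (.ofNat 1, .negSucc 0)⟩ ::
 ⟨⟨.ofNat 3, .negSucc 0, .ofNat 0, .negSucc 0, .negSucc 2, .negSucc 3⟩, (.negSucc 3, .ofNat 0), (.ofNat 0, .ofNat 2), (.ofNat 1, .ofNat 5)⟩ ::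
 ⟨⟨.ofNat 3, .negSucc 0, .ofNat 0, .negSucc 0, .negSucc 0, .negSucc 0⟩, (.ofNat 0, .ofNat 1), (.ofNat 0, .ofNat 0), (.ofNat 1, .ofNat 0)⟩ ::
 ⟨⟨.ofNat 3, .negSucc 0, .ofNat 0, .ofNat 1, .negSucc 2, .negSucc 3⟩, (.negSucc 3, .ofNat 0), (.ofNat 0, .negSucc 1), (.ofNat 1, .ofNat 5)⟩ ::
 ⟨⟨.ofNat 3, .negSucc 0, .ofNat 0, .ofNat 1, .negSucc 0, .negSucc 0⟩, (.ofNat 0, .ofNat 1), (.ofNat 0, .ofNat 0), (.ofNat 1, .ofNat 0)⟩ ::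
 ⟨⟨.ofNat 3, .negSucc 0, .ofNat 0, .ofNat 2, .negSucc 3, .negSucc 3⟩, (.negSucc 0, .ofNat 0), (.ofNat 0, .negSucc 0), (.ofNat 1, .ofNat 1)⟩ ::
 ⟨⟨.ofNat 3, .negSucc 0, .ofNat 0, .ofNat 2, .negSucc 1, .negSucc 0⟩, (.negSucc 0, .ofNat 0), (.ofNat 0, .negSucc 0), (.ofNat 1, .ofNat 0)⟩ ::
 ⟨⟨.ofNat 3, .negSucc 0, .ofNat 0, .ofNat 2, .ofNat 0, .ofNat 2⟩, (.negSucc 0, .ofNat 0), (.ofNat 0, .negSucc 0), (.ofNat 1, .negSucc 0)⟩ ::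
 ⟨⟨.ofNat 3, .negSucc 0, .ofNat 2, .negSucc 5, .negSucc 15, .negSucc 4⟩, (.negSucc 2, .ofNat 0), (.negSucc 3, .ofNat 5), (.ofNat 11, .ofNat 6)⟩ ::
 ⟨⟨.ofNat 3, .negSucc 0, .ofNat 2, .negSucc 5, .negSucc 13, .negSucc 1⟩, (.negSucc 0, .ofNat 0), (.negSucc 1, .ofNat 1), (.ofNat 3, .ofNat 3)⟩ ::
 ⟨⟨.ofNat 3, .negSucc 0, .ofNat 2, .negSucc 5, .negSucc 11, .ofNat 1⟩, (.negSucc 113, .ofNat 38), (.negSucc 77, .ofNat 234), (.ofNat 477, .negSucc 44)⟩ ::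
 ⟨⟨.ofNat 3, .negSucc 0, .ofNat 2, .negSucc 5, .negSucc 9, .ofNat 4⟩, (.negSucc 3, .ofNat 2), (.ofNat 0, .ofNat 8), (.ofNat 9, .negSucc 6)⟩ ::
 ⟨⟨.ofNat 3, .negSucc 0, .ofNat 2, .negSucc 5, .negSucc 7, .ofNat 7⟩, (.negSucc 3, .ofNat 3), (.ofNat 2, .ofNat 12), (.ofNat 11, .negSucc 16)⟩ ::
 ⟨⟨.ofNat 3, .negSucc 0, .ofNat 2, .negSucc 4, .negSucc 10, .negSucc 2⟩, (.negSucc 1, .ofNat 0), (.negSucc 1, .ofNat 2), (.ofNat 3, .ofNat 3)⟩ ::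
 ⟨⟨.ofNat 3, .negSucc 0, .ofNat 2, .negSucc 4, .negSucc 8, .ofNat 0⟩, (.negSucc 0, .negSucc 0), (.negSucc 3, .ofNat 0), (.ofNat 2, .ofNat 3)⟩ ::
 ⟨⟨.ofNat 3, .negSucc 0, .ofNat 2, .negSucc 4, .negSucc 6, .ofNat 3⟩, (.negSucc 0, .negSucc 0), (.negSucc 3, .ofNat 0), (.ofNat 4, .ofNat 2)⟩ ::
 ⟨⟨.ofNat 3, .negSucc 0, .ofNat 2, .negSucc 4, .negSucc 4, .ofNat 6⟩, (.negSucc 1, .ofNat 0), (.negSucc 1, .ofNat 2), (.ofNat 3, .negSucc 2)⟩ ::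
 ⟨⟨.ofNat 3, .negSucc 0, .ofNat 2, .negSucc 3, .negSucc 7, .negSucc 2⟩, (.ofNat 0, .ofNat 2), (.ofNat 4, .ofNat 2), (.ofNat 5, .negSucc 2)⟩ ::
 ⟨⟨.ofNat 3, .negSucc 0, .ofNat 2, .negSucc 3, .negSucc 5, .ofNat 0⟩, (.negSucc 1, .negSucc 0), (.negSucc 3, .ofNat 0), (.ofNat 1, .ofNat 3)⟩ ::
 ⟨⟨.ofNat 3, .negSucc 0, .ofNat 2, .negSucc 3, .negSucc 3, .ofNat 3⟩, (.negSucc 1, .negSucc 0), (.negSucc 3, .ofNat 0), (.ofNat 3, .ofNat 1)⟩ ::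
 ⟨⟨.ofNat 3, .negSucc 0, .ofNat 2, .negSucc 2, .negSucc 6, .negSucc 4⟩, (.negSucc 1, .ofNat 0), (.negSucc 1, .ofNat 2), (.ofNat 3, .ofNat 3)⟩ ::
 ⟨⟨.ofNat 3, .negSucc 0, .ofNat 2, .negSucc 2, .negSucc 4, .negSucc 1⟩, (.negSucc 1, .ofNat 1), (.negSucc 1, .ofNat 2), (.ofNat 5, .ofNat 2)⟩ ::
 t

noncomputable def r24 (t : List Ent) : List Ent :=
 ⟨⟨.ofNat 3, .negSucc 0, .ofNat 2, .negSucc 2, .negSucc 2, .ofNat 1⟩, (.negSucc 1, .ofNat 0), (.negSucc 1, .ofNat 2), (.ofNat 3, .negSucc 0)⟩ ::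
 ⟨⟨.ofNat 3, .negSucc 0, .ofNat 2, .negSucc 1, .negSucc 3, .negSucc 2⟩, (.negSucc 2, .ofNat 1), (.negSucc 1, .ofNat 3), (.ofNat 5, .ofNat 2)⟩ ::
 ⟨⟨.ofNat 3, .negSucc 0, .ofNat 2, .negSucc 1, .negSucc 1, .ofNat 0⟩, (.negSucc 1, .ofNat 0), (.negSucc 1, .ofNat 0), (.ofNat 1, .ofNat 1)⟩ ::
 ⟨⟨.ofNat 3, .negSucc 0, .ofNat 2, .negSucc 0, .negSucc 2, .negSucc 2⟩, (.negSucc 1, .negSucc 0), (.negSucc 1, .ofNat 0), (.negSucc 0, .ofNat 2)⟩ ::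
 ⟨⟨.ofNat 3, .negSucc 0, .ofNat 2, .negSucc 0, .negSucc 0, .ofNat 0⟩, (.negSucc 0, .ofNat 0), (.ofNat 0, .ofNat 0), (.ofNat 0, .ofNat 0)⟩ ::
 ⟨⟨.ofNat 3, .negSucc 0, .ofNat 2, .ofNat 0, .negSucc 3, .negSucc 4⟩, (.negSucc 0, .negSucc 0), (.ofNat 0, .negSucc 0), (.negSucc 2, .ofNat 2)⟩ ::
 ⟨⟨.ofNat 3, .negSucc 0, .ofNat 2, .ofNat 0, .negSucc 1, .negSucc 1⟩, (.negSucc 0, .negSucc 0), (.ofNat 0, .negSucc 0), (.negSucc 0, .ofNat 1)⟩ ::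
 ⟨⟨.ofNat 3, .negSucc 0, .ofNat 2, .ofNat 1, .negSucc 2, .negSucc 2⟩, (.negSucc 2, .ofNat 0), (.negSucc 1, .negSucc 1), (.ofNat 2, .ofNat 3)⟩ ::
 ⟨⟨.ofNat 3, .negSucc 0, .ofNat 2, .ofNat 1, .negSucc 0, .ofNat 0⟩, (.negSucc 0, .ofNat 0), (.ofNat 0, .ofNat 0), (.ofNat 0, .ofNat 0)⟩ ::
 ⟨⟨.ofNat 3, .negSucc 0, .ofNat 4, .negSucc 3, .negSucc 11, .negSucc 5⟩, (.negSucc 4, .ofNat 1), (.negSucc 5, .ofNat 5), (.ofNat 13, .ofNat 11)⟩ ::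
 ⟨⟨.ofNat 3, .negSucc 0, .ofNat 4, .negSucc 3, .negSucc 9, .negSucc 2⟩, (.ofNat 0, .ofNat 1), (.ofNat 2, .ofNat 2), (.ofNat 3, .negSucc 2)⟩ ::
 ⟨⟨.ofNat 3, .negSucc 0, .ofNat 4, .negSucc 3, .negSucc 7, .ofNat 0⟩, (.ofNat 0, .ofNat 1), (.ofNat 2, .ofNat 2), (.ofNat 1, .negSucc 2)⟩ ::
 ⟨⟨.ofNat 3, .negSucc 0, .ofNat 4, .negSucc 3, .negSucc 5, .ofNat 3⟩, (.ofNat 0, .ofNat 1), (.ofNat 2, .ofNat 2), (.negSucc 0, .negSucc 2)⟩ ::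
 ⟨⟨.ofNat 3, .negSucc 0, .ofNat 4, .negSucc 2, .negSucc 8, .negSucc 4⟩, (.negSucc 2, .ofNat 0), (.negSucc 3, .ofNat 2), (.ofNat 4, .ofNat 5)⟩ ::
 ⟨⟨.ofNat 3, .negSucc 0, .ofNat 4, .negSucc 2, .negSucc 6, .negSucc 1⟩, (.negSucc 3, .ofNat 0), (.negSucc 7, .ofNat 2), (.ofNat 9, .ofNat 5)⟩ ::
 ⟨⟨.ofNat 3, .negSucc 0, .ofNat 4, .negSucc 2, .negSucc 4, .ofNat 1⟩, (.negSucc 3, .ofNat 2), (.negSucc 3, .ofNat 4), (.ofNat 5, .negSucc 0)⟩ ::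
 ⟨⟨.ofNat 3, .negSucc 0, .ofNat 4, .negSucc 1, .negSucc 7, .negSucc 5⟩, (.negSucc 0, .negSucc 0), (.negSucc 1, .negSucc 0), (.negSucc 2, .ofNat 3)⟩ ::
 ⟨⟨.ofNat 3, .negSucc 0, .ofNat 4, .negSucc 1, .negSucc 5, .negSucc 2⟩, (.negSucc 1, .ofNat 0), (.negSucc 1, .ofNat 0), (.ofNat 1, .ofNat 3)⟩ ::
 ⟨⟨.ofNat 3, .negSucc 0, .ofNat 4, .negSucc 1, .negSucc 3, .ofNat 0⟩, (.negSucc 1, .ofNat 0), (.negSucc 1, .ofNat 0), (.ofNat 1, .ofNat 1)⟩ ::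
 ⟨⟨.ofNat 3, .negSucc 0, .ofNat 4, .negSucc 0, .negSucc 6, .negSucc 5⟩, (.negSucc 1, .negSucc 0), (.negSucc 1, .negSucc 1), (.negSucc 2, .ofNat 6)⟩ ::
 ⟨⟨.ofNat 3, .negSucc 0, .ofNat 4, .negSucc 0, .negSucc 4, .negSucc 2⟩, (.negSucc 0, .ofNat 0), (.negSucc 1, .ofNat 0), (.ofNat 2, .ofNat 1)⟩ ::
 ⟨⟨.ofNat 3, .negSucc 0, .ofNat 4, .negSucc 0, .negSucc 2, .ofNat 0⟩, (.negSucc 0, .ofNat 0), (.negSucc 1, .ofNat 0), (.ofNat 2, .ofNat 0)⟩ ::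
 ⟨⟨.ofNat 3, .negSucc 0, .ofNat 4, .ofNat 0, .negSucc 5, .negSucc 4⟩, (.negSucc 2, .ofNat 0), (.negSucc 1, .negSucc 0), (.ofNat 1, .ofNat 6)⟩ ::
 ⟨⟨.ofNat 3, .negSucc 0, .ofNat 4, .ofNat 0, .negSucc 3, .negSucc 1⟩, (.negSucc 1, .ofNat 0), (.negSucc 1, .ofNat 0), (.ofNat 1, .ofNat 1)⟩ ::
 ⟨⟨.ofNat 3, .negSucc 0, .ofNat 4, .ofNat 0, .negSucc 1, .ofNat 1⟩, (.negSucc 2, .ofNat 0), (.negSucc 1, .negSucc 0), (.ofNat 1, .ofNat 0)⟩ ::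
 ⟨⟨.ofNat 3, .negSucc 0, .ofNat 4, .ofNat 1, .negSucc 6, .negSucc 5⟩, (.negSucc 1, .ofNat 1), (.negSucc 1, .ofNat 0), (.ofNat 5, .ofNat 4)⟩ ::
 ⟨⟨.ofNat 3, .negSucc 0, .ofNat 4, .ofNat 1, .negSucc 4, .negSucc 2⟩, (.negSucc 1, .ofNat 1), (.negSucc 1, .ofNat 0), (.ofNat 3, .ofNat 2)⟩ ::
 ⟨⟨.ofNat 3, .negSucc 0, .ofNat 4, .ofNat 1, .negSucc 2, .ofNat 0⟩, (.negSucc 1, .ofNat 1), (.negSucc 1, .ofNat 0), (.ofNat 1, .ofNat 0)⟩ ::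
 ⟨⟨.ofNat 3, .negSucc 0, .ofNat 6, .negSucc 0, .negSucc 10, .negSucc 6⟩, (.ofNat 0, .ofNat 1), (.ofNat 0, .ofNat 2), (.ofNat 5, .negSucc 1)⟩ ::
 ⟨⟨.ofNat 3, .negSucc 0, .ofNat 6, .negSucc 0, .negSucc 8, .negSucc 3⟩, (.negSucc 4, .ofNat 1), (.negSucc 7, .ofNat 0), (.ofNat 10, .ofNat 9)⟩ ::
 ⟨⟨.ofNat 3, .negSucc 0, .ofNat 6, .negSucc 0, .negSucc 6, .negSucc 0⟩, (.negSucc 2, .ofNat 0), (.negSucc 5, .ofNat 0), (.ofNat 6, .ofNat 1)⟩ ::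
 ⟨⟨.ofNat 3, .negSucc 0, .ofNat 6, .negSucc 0, .negSucc 4, .ofNat 2⟩, (.negSucc 4, .ofNat 1), (.negSucc 7, .ofNat 0), (.ofNat 6, .negSucc 0)⟩ ::
 ⟨⟨.ofNat 3, .ofNat 0, .negSucc 1, .negSucc 3, .negSucc 5, .negSucc 1⟩, (.negSucc 0, .ofNat 1), (.ofNat 4, .ofNat 1), (.ofNat 5, .negSucc 1)⟩ ::
 ⟨⟨.ofNat 3, .ofNat 0, .negSucc 1, .negSucc 3, .negSucc 5, .negSucc 0⟩, (.negSucc 0, .ofNat 0), (.ofNat 0, .ofNat 1), (.ofNat 1, .ofNat 1)⟩ ::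
 ⟨⟨.ofNat 3, .ofNat 0, .negSucc 1, .negSucc 3, .negSucc 5, .ofNat 1⟩, (.negSucc 0, .ofNat 1), (.ofNat 4, .ofNat 1), (.ofNat 3, .negSucc 2)⟩ ::
 ⟨⟨.ofNat 3, .ofNat 0, .negSucc 1, .negSucc 3, .negSucc 5, .ofNat 2⟩, (.negSucc 0, .ofNat 0), (.ofNat 0, .ofNat 1), (.ofNat 1, .ofNat 0)⟩ ::
 ⟨⟨.ofNat 3, .ofNat 0, .negSucc 1, .negSucc 3, .negSucc 5, .ofNat 4⟩, (.negSucc 1, .ofNat 0), (.ofNat 2, .ofNat 2), (.ofNat 3, .negSucc 3)⟩ ::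
 ⟨⟨.ofNat 3, .ofNat 0, .negSucc 1, .negSucc 3, .negSucc 5, .ofNat 5⟩, (.negSucc 2, .ofNat 1), (.ofNat 6, .ofNat 3), (.ofNat 3, .negSucc 8)⟩ ::
 ⟨⟨.ofNat 3, .ofNat 0, .negSucc 1, .negSucc 1, .negSucc 1, .negSucc 2⟩, (.negSucc 0, .negSucc 0), (.ofNat 0, .ofNat 1), (.negSucc 0, .ofNat 1)⟩ ::
 ⟨⟨.ofNat 3, .ofNat 0, .negSucc 1, .negSucc 1, .negSucc 1, .negSucc 0⟩, (.negSucc 0, .ofNat 0), (.ofNat 0, .ofNat 1), (.ofNat 1, .ofNat 1)⟩ ::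
 ⟨⟨.ofNat 3, .ofNat 0, .negSucc 1, .negSucc 1, .negSucc 1, .ofNat 0⟩, (.negSucc 1, .ofNat 0), (.ofNat 2, .ofNat 2), (.ofNat 3, .ofNat 0)⟩ ::
 ⟨⟨.ofNat 3, .ofNat 0, .negSucc 1, .negSucc 1, .negSucc 1, .ofNat 2⟩, (.negSucc 0, .ofNat 0), (.ofNat 0, .ofNat 1), (.ofNat 1, .ofNat 0)⟩ ::
 ⟨⟨.ofNat 3, .ofNat 0, .negSucc 1, .negSucc 1, .negSucc 1, .ofNat 3⟩, (.negSucc 0, .negSucc 0), (.ofNat 0, .ofNat 1), (.ofNat 3, .negSucc 0)⟩ ::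
 ⟨⟨.ofNat 3, .ofNat 0, .negSucc 1, .negSucc 0, .negSucc 0, .negSucc 2⟩, (.negSucc 0, .ofNat 0), (.ofNat 0, .ofNat 0), (.ofNat 0, .ofNat 1)⟩ ::
 ⟨⟨.ofNat 3, .ofNat 0, .negSucc 1, .negSucc 0, .negSucc 0, .negSucc 0⟩, (.negSucc 1, .ofNat 0), (.ofNat 2, .ofNat 0), (.ofNat 1, .ofNat 0)⟩ ::
 ⟨⟨.ofNat 3, .ofNat 0, .negSucc 1, .negSucc 0, .negSucc 0, .ofNat 0⟩, (.negSucc 0, .ofNat 0), (.ofNat 0, .ofNat 0), (.ofNat 0, .ofNat 0)⟩ ::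
 ⟨⟨.ofNat 3, .ofNat 0, .negSucc 1, .negSucc 0, .negSucc 0, .ofNat 2⟩, (.negSucc 1, .ofNat 0), (.ofNat 2, .ofNat 0), (.ofNat 1, .negSucc 1)⟩ ::
 ⟨⟨.ofNat 3, .ofNat 0, .negSucc 1, .negSucc 0, .negSucc 0, .ofNat 3⟩, (.negSucc 0, .ofNat 0), (.ofNat 0, .ofNat 0), (.ofNat 0, .negSucc 0)⟩ ::
 ⟨⟨.ofNat 3, .ofNat 0, .negSucc 1, .ofNat 1, .negSucc 0, .negSucc 2⟩, (.negSucc 0, .ofNat 0), (.ofNat 0, .ofNat 0), (.ofNat 0, .ofNat 1)⟩ ::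
 ⟨⟨.ofNat 3, .ofNat 0, .negSucc 1, .ofNat 1, .negSucc 0, .negSucc 1⟩, (.negSucc 1, .ofNat 0), (.ofNat 2, .ofNat 0), (.ofNat 1, .ofNat 2)⟩ ::
 t

noncomputable def r25 (t : List Ent) : List Ent :=
 ⟨⟨.ofNat 3, .ofNat 0, .negSucc 1, .ofNat 1, .negSucc 0, .ofNat 0⟩, (.negSucc 0, .ofNat 0), (.ofNat 0, .ofNat 0), (.ofNat 0, .ofNat 0)⟩ ::
 ⟨⟨.ofNat 3, .ofNat 0, .negSucc 1, .ofNat 1, .negSucc 0, .ofNat 1⟩, (.negSucc 1, .ofNat 0), (.ofNat 2, .ofNat 0), (.ofNat 1, .ofNat 0)⟩ ::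
 ⟨⟨.ofNat 3, .ofNat 0, .ofNat 0, .negSucc 2, .negSucc 2, .negSucc 1⟩, (.ofNat 0, .negSucc 0), (.negSucc 1, .ofNat 0), (.negSucc 0, .ofNat 1)⟩ ::
 ⟨⟨.ofNat 3, .ofNat 0, .ofNat 0, .negSucc 2, .negSucc 2, .negSucc 0⟩, (.negSucc 2, .ofNat 1), (.ofNat 2, .ofNat 2), (.ofNat 2, .ofNat 0)⟩ ::
 ⟨⟨.ofNat 3, .ofNat 0, .ofNat 0, .negSucc 2, .negSucc 2, .ofNat 1⟩, (.negSucc 2, .negSucc 0), (.negSucc 1, .ofNat 2), (.ofNat 2, .ofNat 0)⟩ ::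
 ⟨⟨.ofNat 3, .ofNat 0, .ofNat 0, .negSucc 2, .negSucc 2, .ofNat 2⟩, (.ofNat 0, .ofNat 1), (.ofNat 2, .ofNat 0), (.negSucc 0, .negSucc 0)⟩ ::
 ⟨⟨.ofNat 3, .ofNat 0, .ofNat 0, .ofNat 0, .ofNat 0, .negSucc 1⟩, (.ofNat 0, .negSucc 0), (.ofNat 0, .ofNat 0), (.negSucc 0, .ofNat 0)⟩ ::
 ⟨⟨.ofNat 3, .ofNat 0, .ofNat 0, .ofNat 0, .ofNat 0, .negSucc 0⟩, (.ofNat 0, .ofNat 1), (.ofNat 0, .ofNat 0), (.ofNat 1, .ofNat 0)⟩ ::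
 ⟨⟨.ofNat 3, .ofNat 0, .ofNat 2, .negSucc 4, .negSucc 8, .negSucc 4⟩, (.negSucc 10, .ofNat 0), (.negSucc 5, .ofNat 20), (.ofNat 38, .ofNat 15)⟩ ::
 ⟨⟨.ofNat 3, .ofNat 0, .ofNat 2, .negSucc 4, .negSucc 8, .negSucc 3⟩, (.negSucc 1, .negSucc 0), (.negSucc 3, .ofNat 2), (.ofNat 1, .ofNat 5)⟩ ::
 ⟨⟨.ofNat 3, .ofNat 0, .ofNat 2, .negSucc 4, .negSucc 8, .negSucc 1⟩, (.negSucc 1, .ofNat 0), (.negSucc 1, .ofNat 4), (.ofNat 9, .ofNat 2)⟩ ::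
 ⟨⟨.ofNat 3, .ofNat 0, .ofNat 2, .negSucc 4, .negSucc 8, .negSucc 0⟩, (.negSucc 8, .ofNat 1), (.negSucc 1, .ofNat 14), (.ofNat 22, .ofNat 0)⟩ ::
 ⟨⟨.ofNat 3, .ofNat 0, .ofNat 2, .negSucc 4, .negSucc 8, .ofNat 1⟩, (.negSucc 8, .negSucc 0), (.negSucc 9, .ofNat 16), (.ofNat 34, .ofNat 0)⟩ ::
 ⟨⟨.ofNat 3, .ofNat 0, .ofNat 2, .negSucc 4, .negSucc 8, .ofNat 2⟩, (.negSucc 1, .negSucc 0), (.negSucc 3, .ofNat 2), (.ofNat 5, .ofNat 1)⟩ ::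
 ⟨⟨.ofNat 3, .ofNat 0, .ofNat 2, .negSucc 4, .negSucc 8, .ofNat 4⟩, (.negSucc 2, .negSucc 0), (.negSucc 3, .ofNat 4), (.ofNat 10, .negSucc 2)⟩ ::
 ⟨⟨.ofNat 3, .ofNat 0, .ofNat 2, .negSucc 4, .negSucc 8, .ofNat 5⟩, (.negSucc 1, .negSucc 0), (.negSucc 3, .ofNat 2), (.ofNat 7, .negSucc 0)⟩ ::
 ⟨⟨.ofNat 3, .ofNat 0, .ofNat 2, .negSucc 3, .negSucc 5, .negSucc 4⟩, (.negSucc 1, .negSucc 1), (.negSucc 5, .ofNat 2), (.negSucc 0, .ofNat 6)⟩ ::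
 ⟨⟨.ofNat 3, .ofNat 0, .ofNat 2, .negSucc 3, .negSucc 5, .negSucc 3⟩, (.negSucc 1, .ofNat 0), (.negSucc 1, .ofNat 2), (.ofNat 3, .ofNat 4)⟩ ::
 ⟨⟨.ofNat 3, .ofNat 0, .ofNat 2, .negSucc 3, .negSucc 5, .negSucc 1⟩, (.negSucc 0, .ofNat 0), (.ofNat 0, .ofNat 1), (.ofNat 1, .ofNat 0)⟩ ::
 ⟨⟨.ofNat 3, .ofNat 0, .ofNat 2, .negSucc 3, .negSucc 5, .negSucc 0⟩, (.negSucc 0, .negSucc 0), (.negSucc 3, .ofNat 1), (.ofNat 3, .ofNat 3)⟩ ::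
 ⟨⟨.ofNat 3, .ofNat 0, .ofNat 2, .negSucc 3, .negSucc 5, .ofNat 1⟩, (.negSucc 0, .ofNat 0), (.ofNat 0, .ofNat 1), (.ofNat 1, .negSucc 0)⟩ ::
 ⟨⟨.ofNat 3, .ofNat 0, .ofNat 2, .negSucc 3, .negSucc 5, .ofNat 2⟩, (.negSucc 0, .negSucc 0), (.negSucc 3, .ofNat 1), (.ofNat 5, .ofNat 2)⟩ ::
 ⟨⟨.ofNat 3, .ofNat 0, .ofNat 2, .negSucc 3, .negSucc 5, .ofNat 4⟩, (.negSucc 2, .ofNat 2), (.ofNat 2, .ofNat 5), (.ofNat 1, .negSucc 5)⟩ ::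
 ⟨⟨.ofNat 3, .ofNat 0, .ofNat 2, .negSucc 1, .negSucc 1, .negSucc 4⟩, (.negSucc 2, .ofNat 1), (.negSucc 1, .ofNat 3), (.ofNat 7, .ofNat 5)⟩ ::
 ⟨⟨.ofNat 3, .ofNat 0, .ofNat 2, .negSucc 1, .negSucc 1, .negSucc 2⟩, (.negSucc 2, .negSucc 0), (.negSucc 1, .ofNat 1), (.negSucc 0, .ofNat 3)⟩ ::
 ⟨⟨.ofNat 3, .ofNat 0, .ofNat 2, .negSucc 1, .negSucc 1, .negSucc 1⟩, (.negSucc 0, .ofNat 0), (.ofNat 0, .ofNat 1), (.ofNat 1, .ofNat 0)⟩ ::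
 ⟨⟨.ofNat 3, .ofNat 0, .ofNat 2, .negSucc 1, .negSucc 1, .ofNat 0⟩, (.negSucc 1, .ofNat 0), (.negSucc 1, .ofNat 2), (.ofNat 3, .ofNat 0)⟩ ::
 ⟨⟨.ofNat 3, .ofNat 0, .ofNat 2, .negSucc 1, .negSucc 1, .ofNat 1⟩, (.negSucc 1, .negSucc 0), (.negSucc 1, .ofNat 0), (.ofNat 1, .ofNat 0)⟩ ::
 ⟨⟨.ofNat 3, .ofNat 0, .ofNat 2, .negSucc 0, .negSucc 0, .negSucc 4⟩, (.negSucc 1, .ofNat 0), (.negSucc 1, .ofNat 0), (.ofNat 1, .ofNat 4)⟩ ::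
 ⟨⟨.ofNat 3, .ofNat 0, .ofNat 2, .negSucc 0, .negSucc 0, .negSucc 2⟩, (.negSucc 0, .ofNat 0), (.ofNat 0, .ofNat 0), (.ofNat 0, .ofNat 1)⟩ ::
 ⟨⟨.ofNat 3, .ofNat 0, .ofNat 2, .negSucc 0, .negSucc 0, .negSucc 1⟩, (.negSucc 1, .ofNat 0), (.negSucc 1, .ofNat 0), (.ofNat 1, .ofNat 2)⟩ ::
 ⟨⟨.ofNat 3, .ofNat 0, .ofNat 2, .negSucc 0, .negSucc 0, .ofNat 0⟩, (.negSucc 0, .ofNat 0), (.ofNat 0, .ofNat 0), (.ofNat 0, .ofNat 0)⟩ ::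
 ⟨⟨.ofNat 3, .ofNat 0, .ofNat 2, .negSucc 0, .negSucc 0, .ofNat 1⟩, (.negSucc 1, .ofNat 0), (.negSucc 1, .ofNat 0), (.ofNat 1, .ofNat 0)⟩ ::
 ⟨⟨.ofNat 3, .ofNat 0, .ofNat 2, .ofNat 1, .negSucc 0, .negSucc 5⟩, (.negSucc 0, .ofNat 0), (.ofNat 0, .ofNat 0), (.ofNat 0, .ofNat 2)⟩ ::
 ⟨⟨.ofNat 3, .ofNat 0, .ofNat 2, .ofNat 1, .negSucc 0, .negSucc 3⟩, (.negSucc 0, .ofNat 1), (.negSucc 1, .ofNat 0), (.ofNat 4, .ofNat 1)⟩ ::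
 ⟨⟨.ofNat 3, .ofNat 0, .ofNat 2, .ofNat 1, .negSucc 0, .negSucc 2⟩, (.negSucc 0, .ofNat 0), (.ofNat 0, .ofNat 0), (.ofNat 0, .ofNat 1)⟩ ::
 ⟨⟨.ofNat 3, .ofNat 0, .ofNat 2, .ofNat 1, .negSucc 0, .negSucc 0⟩, (.negSucc 1, .ofNat 0), (.negSucc 1, .ofNat 0), (.ofNat 1, .ofNat 0)⟩ ::
 ⟨⟨.ofNat 3, .ofNat 0, .ofNat 2, .ofNat 1, .negSucc 0, .ofNat 0⟩, (.negSucc 0, .ofNat 0), (.ofNat 0, .ofNat 0), (.ofNat 0, .ofNat 0)⟩ ::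
 ⟨⟨.ofNat 3, .ofNat 0, .ofNat 2, .ofNat 2, .negSucc 1, .negSucc 6⟩, (.negSucc 2, .negSucc 0), (.negSucc 1, .negSucc 2), (.negSucc 0, .ofNat 7)⟩ ::
 ⟨⟨.ofNat 3, .ofNat 0, .ofNat 2, .ofNat 2, .negSucc 1, .negSucc 5⟩, (.negSucc 1, .ofNat 0), (.negSucc 1, .negSucc 1), (.ofNat 3, .ofNat 4)⟩ ::
 ⟨⟨.ofNat 3, .ofNat 0, .ofNat 2, .ofNat 2, .negSucc 1, .negSucc 3⟩, (.negSucc 0, .ofNat 0), (.ofNat 0, .negSucc 0), (.ofNat 1, .ofNat 2)⟩ ::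
 ⟨⟨.ofNat 3, .ofNat 0, .ofNat 2, .ofNat 2, .negSucc 1, .negSucc 2⟩, (.negSucc 0, .negSucc 0), (.ofNat 0, .negSucc 0), (.negSucc 0, .ofNat 1)⟩ ::
 ⟨⟨.ofNat 3, .ofNat 0, .ofNat 2, .ofNat 2, .negSucc 1, .negSucc 0⟩, (.negSucc 0, .ofNat 0), (.ofNat 0, .negSucc 0), (.ofNat 1, .ofNat 1)⟩ ::
 ⟨⟨.ofNat 3, .ofNat 0, .ofNat 2, .ofNat 2, .negSucc 1, .ofNat 0⟩, (.negSucc 1, .ofNat 0), (.negSucc 1, .negSucc 1), (.ofNat 3, .ofNat 0)⟩ ::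
 ⟨⟨.ofNat 3, .ofNat 0, .ofNat 4, .negSucc 4, .negSucc 10, .negSucc 6⟩, (.negSucc 8, .ofNat 2), (.negSucc 5, .ofNat 16), (.ofNat 38, .ofNat 17)⟩ ::
 ⟨⟨.ofNat 3, .ofNat 0, .ofNat 4, .negSucc 4, .negSucc 10, .negSucc 5⟩, (.negSucc 10, .ofNat 0), (.negSucc 11, .ofNat 18), (.ofNat 36, .ofNat 18)⟩ ::
 ⟨⟨.ofNat 3, .ofNat 0, .ofNat 4, .negSucc 4, .negSucc 10, .negSucc 3⟩, (.negSucc 3, .ofNat 0), (.negSucc 3, .ofNat 6), (.ofNat 11, .ofNat 4)⟩ ::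
 ⟨⟨.ofNat 3, .ofNat 0, .ofNat 4, .negSucc 4, .negSucc 10, .negSucc 2⟩, (.negSucc 1, .ofNat 0), (.negSucc 1, .ofNat 4), (.ofNat 9, .ofNat 0)⟩ ::
 ⟨⟨.ofNat 3, .ofNat 0, .ofNat 4, .negSucc 4, .negSucc 10, .negSucc 0⟩, (.negSucc 2, .negSucc 0), (.negSucc 5, .ofNat 4), (.ofNat 10, .ofNat 2)⟩ ::
 ⟨⟨.ofNat 3, .ofNat 0, .ofNat 4, .negSucc 4, .negSucc 10, .ofNat 0⟩, (.negSucc 0, .negSucc 0), (.negSucc 3, .ofNat 0), (.ofNat 2, .ofNat 3)⟩ ::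
 t

noncomputable def r26 (t : List Ent) : List Ent :=
 ⟨⟨.ofNat 3, .ofNat 0, .ofNat 4, .negSucc 4, .negSucc 10, .ofNat 2⟩, (.negSucc 1, .ofNat 1), (.ofNat 0, .ofNat 4), (.ofNat 5, .negSucc 2)⟩ ::
 ⟨⟨.ofNat 3, .ofNat 0, .ofNat 4, .negSucc 4, .negSucc 10, .ofNat 3⟩, (.negSucc 7, .ofNat 0), (.negSucc 11, .ofNat 12), (.ofNat 27, .negSucc 3)⟩ ::
 ⟨⟨.ofNat 3, .ofNat 0, .ofNat 4, .negSucc 4, .negSucc 10, .ofNat 5⟩, (.negSucc 21, .ofNat 0), (.negSucc 29, .ofNat 34), (.ofNat 73, .negSucc 31)⟩ ::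
 ⟨⟨.ofNat 3, .ofNat 0, .ofNat 4, .negSucc 3, .negSucc 7, .negSucc 5⟩, (.negSucc 1, .ofNat 0), (.negSucc 1, .ofNat 2), (.ofNat 3, .ofNat 4)⟩ ::
 ⟨⟨.ofNat 3, .ofNat 0, .ofNat 4, .negSucc 3, .negSucc 7, .negSucc 4⟩, (.negSucc 0, .ofNat 0), (.negSucc 1, .ofNat 1), (.ofNat 3, .ofNat 3)⟩ ::
 ⟨⟨.ofNat 3, .ofNat 0, .ofNat 4, .negSucc 3, .negSucc 7, .negSucc 2⟩, (.negSucc 0, .ofNat 1), (.ofNat 2, .ofNat 3), (.ofNat 5, .negSucc 2)⟩ ::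
 ⟨⟨.ofNat 3, .ofNat 0, .ofNat 4, .negSucc 3, .negSucc 7, .negSucc 1⟩, (.negSucc 0, .ofNat 0), (.negSucc 1, .ofNat 1), (.ofNat 3, .ofNat 2)⟩ ::
 ⟨⟨.ofNat 3, .ofNat 0, .ofNat 4, .negSucc 3, .negSucc 7, .ofNat 0⟩, (.negSucc 1, .ofNat 0), (.negSucc 1, .ofNat 2), (.ofNat 3, .ofNat 0)⟩ ::
 ⟨⟨.ofNat 3, .ofNat 0, .ofNat 4, .negSucc 3, .negSucc 7, .ofNat 1⟩, (.negSucc 37, .negSucc 3), (.negSucc 57, .ofNat 48), (.ofNat 107, .negSucc 9)⟩ ::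
 ⟨⟨.ofNat 3, .ofNat 0, .ofNat 4, .negSucc 3, .negSucc 7, .ofNat 3⟩, (.negSucc 0, .ofNat 1), (.ofNat 2, .ofNat 3), (.ofNat 1, .negSucc 4)⟩ ::
 ⟨⟨.ofNat 3, .ofNat 0, .ofNat 4, .negSucc 3, .negSucc 7, .ofNat 4⟩, (.negSucc 0, .ofNat 0), (.negSucc 1, .ofNat 1), (.ofNat 3, .ofNat 0)⟩ ::
 ⟨⟨.ofNat 3, .ofNat 0, .ofNat 4, .negSucc 1, .negSucc 3, .negSucc 5⟩, (.negSucc 2, .negSucc 0), (.negSucc 3, .ofNat 1), (.negSucc 0, .ofNat 6)⟩ ::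
 ⟨⟨.ofNat 3, .ofNat 0, .ofNat 4, .negSucc 1, .negSucc 3, .negSucc 4⟩, (.negSucc 0, .negSucc 0), (.negSucc 1, .negSucc 0), (.negSucc 2, .ofNat 3)⟩ ::
 ⟨⟨.ofNat 3, .ofNat 0, .ofNat 4, .negSucc 1, .negSucc 3, .negSucc 2⟩, (.negSucc 2, .negSucc 0), (.negSucc 3, .ofNat 1), (.ofNat 1, .ofNat 3)⟩ ::
 ⟨⟨.ofNat 3, .ofNat 0, .ofNat 4, .negSucc 1, .negSucc 3, .negSucc 1⟩, (.negSucc 0, .negSucc 0), (.negSucc 1, .negSucc 0), (.negSucc 0, .ofNat 2)⟩ ::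
 ⟨⟨.ofNat 3, .ofNat 0, .ofNat 4, .negSucc 1, .negSucc 3, .ofNat 0⟩, (.negSucc 2, .negSucc 0), (.negSucc 3, .ofNat 1), (.ofNat 3, .ofNat 0)⟩ ::
 ⟨⟨.ofNat 3, .ofNat 0, .ofNat 4, .negSucc 1, .negSucc 3, .ofNat 1⟩, (.negSucc 0, .negSucc 0), (.negSucc 1, .negSucc 0), (.ofNat 1, .ofNat 1)⟩ ::
 ⟨⟨.ofNat 3, .ofNat 0, .ofNat 4, .negSucc 0, .negSucc 2, .negSucc 6⟩, (.negSucc 1, .negSucc 0), (.negSucc 3, .ofNat 0), (.negSucc 0, .ofNat 5)⟩ ::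
 ⟨⟨.ofNat 3, .ofNat 0, .ofNat 4, .negSucc 0, .negSucc 2, .negSucc 4⟩, (.negSucc 0, .ofNat 1), (.ofNat 0, .ofNat 2), (.ofNat 4, .ofNat 0)⟩ ::
 ⟨⟨.ofNat 3, .ofNat 0, .ofNat 4, .negSucc 0, .negSucc 2, .negSucc 3⟩, (.negSucc 3, .ofNat 0), (.negSucc 3, .ofNat 2), (.ofNat 3, .ofNat 4)⟩ ::
 ⟨⟨.ofNat 3, .ofNat 0, .ofNat 4, .negSucc 0, .negSucc 2, .negSucc 1⟩, (.negSucc 0, .ofNat 1), (.ofNat 0, .ofNat 2), (.ofNat 2, .negSucc 0)⟩ ::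
 ⟨⟨.ofNat 3, .ofNat 0, .ofNat 4, .negSucc 0, .negSucc 2, .negSucc 0⟩, (.negSucc 1, .negSucc 0), (.negSucc 3, .ofNat 0), (.ofNat 3, .ofNat 1)⟩ ::
 ⟨⟨.ofNat 3, .ofNat 0, .ofNat 4, .negSucc 0, .negSucc 2, .ofNat 1⟩, (.negSucc 1, .ofNat 0), (.negSucc 1, .ofNat 0), (.ofNat 1, .ofNat 0)⟩ ::
 ⟨⟨.ofNat 3, .ofNat 0, .ofNat 4, .ofNat 1, .negSucc 2, .negSucc 7⟩, (.negSucc 1, .ofNat 1), (.negSucc 3, .ofNat 0), (.ofNat 9, .ofNat 5)⟩ ::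
 ⟨⟨.ofNat 3, .ofNat 0, .ofNat 4, .ofNat 1, .negSucc 2, .negSucc 6⟩, (.negSucc 0, .negSucc 0), (.ofNat 0, .negSucc 1), (.negSucc 3, .ofNat 4)⟩ ::
 ⟨⟨.ofNat 3, .ofNat 0, .ofNat 4, .ofNat 1, .negSucc 2, .negSucc 4⟩, (.negSucc 0, .ofNat 0), (.negSucc 1, .ofNat 0), (.ofNat 2, .ofNat 1)⟩ ::
 ⟨⟨.ofNat 3, .ofNat 0, .ofNat 4, .ofNat 1, .negSucc 2, .negSucc 3⟩, (.negSucc 0, .negSucc 0), (.ofNat 0, .negSucc 1), (.negSucc 1, .ofNat 3)⟩ ::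
 ⟨⟨.ofNat 3, .ofNat 0, .ofNat 4, .ofNat 1, .negSucc 2, .negSucc 1⟩, (.negSucc 0, .ofNat 0), (.negSucc 1, .ofNat 0), (.ofNat 2, .ofNat 0)⟩ ::
 ⟨⟨.ofNat 3, .ofNat 0, .ofNat 4, .ofNat 1, .negSucc 2, .negSucc 0⟩, (.negSucc 1, .ofNat 0), (.negSucc 1, .ofNat 0), (.ofNat 1, .ofNat 0)⟩ ::
 ⟨⟨.ofNat 3, .ofNat 0, .ofNat 4, .ofNat 2, .negSucc 3, .negSucc 8⟩, (.negSucc 8, .ofNat 1), (.negSucc 13, .negSucc 2), (.ofNat 17, .ofNat 23)⟩ ::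
 ⟨⟨.ofNat 3, .ofNat 0, .ofNat 4, .ofNat 2, .negSucc 3, .negSucc 6⟩, (.negSucc 1, .ofNat 0), (.negSucc 1, .negSucc 1), (.ofNat 3, .ofNat 6)⟩ ::
 ⟨⟨.ofNat 3, .ofNat 0, .ofNat 4, .ofNat 2, .negSucc 3, .negSucc 5⟩, (.negSucc 0, .ofNat 0), (.negSucc 1, .negSucc 0), (.ofNat 3, .ofNat 2)⟩ ::
 ⟨⟨.ofNat 3, .ofNat 0, .ofNat 4, .ofNat 2, .negSucc 3, .negSucc 3⟩, (.negSucc 2, .negSucc 0), (.negSucc 3, .negSucc 2), (.ofNat 3, .ofNat 4)⟩ ::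
 ⟨⟨.ofNat 3, .ofNat 0, .ofNat 4, .ofNat 2, .negSucc 3, .negSucc 2⟩, (.negSucc 0, .ofNat 0), (.negSucc 1, .negSucc 0), (.ofNat 3, .ofNat 1)⟩ ::
 ⟨⟨.ofNat 3, .ofNat 0, .ofNat 4, .ofNat 2, .negSucc 3, .negSucc 0⟩, (.negSucc 1, .ofNat 0), (.negSucc 1, .negSucc 1), (.ofNat 3, .ofNat 2)⟩ ::
 ⟨⟨.ofNat 3, .ofNat 0, .ofNat 4, .ofNat 2, .negSucc 3, .ofNat 0⟩, (.negSucc 0, .ofNat 0), (.negSucc 1, .negSucc 0), (.ofNat 3, .ofNat 0)⟩ ::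
 ⟨⟨.ofNat 3, .ofNat 0, .ofNat 6, .negSucc 2, .negSucc 8, .negSucc 7⟩, (.negSucc 5, .negSucc 0), (.negSucc 11, .ofNat 4), (.ofNat 9, .ofNat 17)⟩ ::
 ⟨⟨.ofNat 3, .ofNat 0, .ofNat 6, .negSucc 2, .negSucc 8, .negSucc 6⟩, (.negSucc 2, .negSucc 1), (.negSucc 9, .ofNat 0), (.ofNat 2, .ofNat 11)⟩ ::
 ⟨⟨.ofNat 3, .ofNat 0, .ofNat 6, .negSucc 2, .negSucc 8, .negSucc 4⟩, (.ofNat 0, .negSucc 0), (.negSucc 1, .negSucc 1), (.negSucc 2, .ofNat 3)⟩ ::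
 ⟨⟨.ofNat 3, .ofNat 0, .ofNat 6, .negSucc 2, .negSucc 8, .negSucc 3⟩, (.negSucc 5, .ofNat 1), (.negSucc 7, .ofNat 8), (.ofNat 17, .ofNat 3)⟩ ::
 ⟨⟨.ofNat 3, .ofNat 0, .ofNat 6, .negSucc 2, .negSucc 8, .negSucc 1⟩, (.negSucc 5, .negSucc 0), (.negSucc 11, .ofNat 4), (.ofNat 13, .ofNat 5)⟩ ::
 ⟨⟨.ofNat 3, .ofNat 0, .ofNat 6, .negSucc 2, .negSucc 8, .negSucc 0⟩, (.negSucc 5, .ofNat 1), (.negSucc 11, .ofNat 8), (.ofNat 23, .ofNat 1)⟩ ::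
 ⟨⟨.ofNat 3, .ofNat 0, .ofNat 6, .negSucc 2, .negSucc 8, .ofNat 1⟩, (.negSucc 8, .negSucc 0), (.negSucc 17, .ofNat 6), (.ofNat 22, .ofNat 0)⟩ ::
 ⟨⟨.ofNat 3, .ofNat 0, .ofNat 6, .negSucc 2, .negSucc 8, .ofNat 2⟩, (.negSucc 8, .negSucc 1), (.negSucc 19, .ofNat 6), (.ofNat 28, .negSucc 3)⟩ ::
 ⟨⟨.ofNat 3, .ofNat 0, .ofNat 6, .ofNat 0, .negSucc 5, .negSucc 7⟩, (.negSucc 2, .negSucc 0), (.negSucc 5, .negSucc 2), (.ofNat 1, .ofNat 12)⟩ ::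
 ⟨⟨.ofNat 3, .ofNat 0, .ofNat 6, .ofNat 0, .negSucc 5, .negSucc 6⟩, (.negSucc 5, .ofNat 1), (.negSucc 9, .ofNat 2), (.ofNat 13, .ofNat 12)⟩ ::
 ⟨⟨.ofNat 3, .ofNat 0, .ofNat 6, .ofNat 0, .negSucc 5, .negSucc 4⟩, (.negSucc 5, .negSucc 0), (.negSucc 13, .negSucc 1), (.ofNat 13, .ofNat 12)⟩ ::
 ⟨⟨.ofNat 3, .ofNat 0, .ofNat 6, .ofNat 0, .negSucc 5, .negSucc 3⟩, (.ofNat 0, .ofNat 1), (.ofNat 0, .ofNat 2), (.ofNat 3, .negSucc 1)⟩ ::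
 ⟨⟨.ofNat 3, .ofNat 0, .ofNat 6, .ofNat 0, .negSucc 5, .negSucc 1⟩, (.ofNat 0, .negSucc 0), (.ofNat 0, .negSucc 1), (.negSucc 0, .ofNat 2)⟩ ::
 ⟨⟨.ofNat 3, .ofNat 0, .ofNat 6, .ofNat 0, .negSucc 5, .negSucc 0⟩, (.ofNat 0, .ofNat 1), (.ofNat 0, .ofNat 2), (.ofNat 1, .negSucc 1)⟩ ::
 t

noncomputable def r27 (t : List Ent) : List Ent :=
 ⟨⟨.ofNat 3, .ofNat 1, .negSucc 1, .negSucc 0, .ofNat 1, .negSucc 2⟩, (.ofNat 0, .negSucc 1), (.ofNat 0, .ofNat 2), (.negSucc 2, .ofNat 1)⟩ ::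
 ⟨⟨.ofNat 3, .ofNat 1, .negSucc 1, .negSucc 0, .negSucc 0, .ofNat 0⟩, (.negSucc 0, .ofNat 0), (.ofNat 0, .ofNat 0), (.ofNat 0, .ofNat 0)⟩ ::
 ⟨⟨.ofNat 3, .ofNat 1, .negSucc 1, .ofNat 0, .ofNat 2, .negSucc 3⟩, (.negSucc 0, .ofNat 1), (.ofNat 0, .negSucc 0), (.ofNat 3, .ofNat 1)⟩ ::
 ⟨⟨.ofNat 3, .ofNat 1, .negSucc 1, .ofNat 0, .ofNat 0, .negSucc 0⟩, (.negSucc 0, .ofNat 1), (.ofNat 0, .negSucc 0), (.ofNat 1, .ofNat 0)⟩ ::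
 ⟨⟨.ofNat 3, .ofNat 1, .negSucc 1, .ofNat 0, .negSucc 1, .ofNat 2⟩, (.negSucc 0, .ofNat 1), (.ofNat 0, .negSucc 0), (.negSucc 0, .negSucc 0)⟩ ::
 ⟨⟨.ofNat 3, .ofNat 1, .negSucc 1, .ofNat 1, .ofNat 1, .negSucc 2⟩, (.negSucc 3, .ofNat 0), (.ofNat 0, .negSucc 1), (.ofNat 1, .ofNat 3)⟩ ::
 ⟨⟨.ofNat 3, .ofNat 1, .negSucc 1, .ofNat 1, .negSucc 0, .ofNat 0⟩, (.negSucc 0, .ofNat 0), (.ofNat 0, .ofNat 0), (.ofNat 0, .ofNat 0)⟩ ::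
 ⟨⟨.ofNat 3, .ofNat 1, .ofNat 0, .negSucc 3, .negSucc 1, .negSucc 4⟩, (.negSucc 0, .ofNat 0), (.ofNat 0, .ofNat 1), (.ofNat 1, .ofNat 2)⟩ ::
 ⟨⟨.ofNat 3, .ofNat 1, .ofNat 0, .negSucc 3, .negSucc 3, .negSucc 1⟩, (.ofNat 0, .negSucc 1), (.negSucc 3, .ofNat 2), (.ofNat 1, .ofNat 3)⟩ ::
 ⟨⟨.ofNat 3, .ofNat 1, .ofNat 0, .negSucc 3, .negSucc 5, .ofNat 1⟩, (.negSucc 4, .negSucc 0), (.ofNat 2, .ofNat 5), (.ofNat 7, .negSucc 3)⟩ ::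
 ⟨⟨.ofNat 3, .ofNat 1, .ofNat 0, .negSucc 3, .negSucc 7, .ofNat 4⟩, (.negSucc 0, .ofNat 0), (.ofNat 0, .ofNat 1), (.ofNat 1, .negSucc 0)⟩ ::
 ⟨⟨.ofNat 3, .ofNat 1, .ofNat 0, .negSucc 2, .negSucc 0, .negSucc 2⟩, (.negSucc 1, .ofNat 0), (.ofNat 2, .ofNat 2), (.ofNat 3, .ofNat 1)⟩ ::
 ⟨⟨.ofNat 3, .ofNat 1, .ofNat 0, .negSucc 2, .negSucc 2, .ofNat 0⟩, (.negSucc 0, .ofNat 1), (.ofNat 2, .ofNat 0), (.ofNat 0, .negSucc 0)⟩ ::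
 ⟨⟨.ofNat 3, .ofNat 1, .ofNat 0, .negSucc 2, .negSucc 4, .ofNat 3⟩, (.negSucc 0, .ofNat 1), (.ofNat 2, .ofNat 0), (.negSucc 1, .negSucc 1)⟩ ::
 ⟨⟨.ofNat 3, .ofNat 1, .ofNat 0, .negSucc 1, .ofNat 0, .negSucc 1⟩, (.negSucc 0, .ofNat 0), (.ofNat 0, .ofNat 1), (.ofNat 1, .ofNat 1)⟩ ::
 ⟨⟨.ofNat 3, .ofNat 1, .ofNat 0, .negSucc 1, .negSucc 1, .ofNat 1⟩, (.negSucc 2, .ofNat 0), (.ofNat 2, .ofNat 1), (.ofNat 1, .negSucc 1)⟩ ::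
 ⟨⟨.ofNat 3, .ofNat 1, .ofNat 0, .negSucc 0, .ofNat 1, .negSucc 1⟩, (.ofNat 0, .negSucc 0), (.ofNat 0, .ofNat 0), (.negSucc 0, .ofNat 0)⟩ ::
 ⟨⟨.ofNat 3, .ofNat 1, .ofNat 0, .negSucc 0, .negSucc 0, .ofNat 1⟩, (.negSucc 2, .ofNat 0), (.ofNat 0, .ofNat 0), (.ofNat 0, .negSucc 0)⟩ ::
 ⟨⟨.ofNat 3, .ofNat 1, .ofNat 0, .ofNat 1, .ofNat 3, .negSucc 4⟩, (.negSucc 2, .ofNat 0), (.ofNat 0, .ofNat 0), (.ofNat 0, .ofNat 5)⟩ ::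
 ⟨⟨.ofNat 3, .ofNat 1, .ofNat 0, .ofNat 1, .ofNat 1, .negSucc 1⟩, (.ofNat 0, .negSucc 0), (.ofNat 0, .ofNat 0), (.negSucc 0, .ofNat 0)⟩ ::
 ⟨⟨.ofNat 3, .ofNat 1, .ofNat 0, .ofNat 2, .ofNat 2, .negSucc 4⟩, (.negSucc 22, .negSucc 5), (.ofNat 2, .negSucc 14), (.negSucc 10, .ofNat 40)⟩ ::
 ⟨⟨.ofNat 3, .ofNat 1, .ofNat 0, .ofNat 2, .ofNat 0, .negSucc 1⟩, (.negSucc 0, .ofNat 0), (.ofNat 0, .negSucc 0), (.ofNat 1, .ofNat 1)⟩ ::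
 ⟨⟨.ofNat 3, .ofNat 1, .ofNat 2, .negSucc 4, .negSucc 4, .negSucc 5⟩, (.negSucc 0, .ofNat 0), (.ofNat 0, .ofNat 2), (.ofNat 4, .ofNat 2)⟩ ::
 ⟨⟨.ofNat 3, .ofNat 1, .ofNat 2, .negSucc 4, .negSucc 6, .negSucc 2⟩, (.negSucc 2, .ofNat 0), (.ofNat 2, .ofNat 4), (.ofNat 6, .negSucc 0)⟩ ::
 ⟨⟨.ofNat 3, .ofNat 1, .ofNat 2, .negSucc 4, .negSucc 8, .ofNat 0⟩, (.negSucc 2, .ofNat 0), (.ofNat 2, .ofNat 4), (.ofNat 6, .negSucc 3)⟩ ::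
 ⟨⟨.ofNat 3, .ofNat 1, .ofNat 2, .negSucc 4, .negSucc 10, .ofNat 3⟩, (.negSucc 3, .negSucc 1), (.negSucc 3, .ofNat 8), (.ofNat 21, .negSucc 2)⟩ ::
 ⟨⟨.ofNat 3, .ofNat 1, .ofNat 2, .negSucc 3, .negSucc 3, .negSucc 2⟩, (.ofNat 0, .negSucc 0), (.negSucc 1, .ofNat 0), (.negSucc 0, .ofNat 1)⟩ ::
 ⟨⟨.ofNat 3, .ofNat 1, .ofNat 2, .negSucc 3, .negSucc 5, .ofNat 0⟩, (.ofNat 0, .negSucc 0), (.negSucc 1, .ofNat 0), (.ofNat 1, .ofNat 1)⟩ ::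
 ⟨⟨.ofNat 3, .ofNat 1, .ofNat 2, .negSucc 3, .negSucc 7, .ofNat 3⟩, (.negSucc 9, .negSucc 2), (.negSucc 3, .ofNat 12), (.ofNat 23, .negSucc 12)⟩ ::
 ⟨⟨.ofNat 3, .ofNat 1, .ofNat 2, .negSucc 1, .ofNat 0, .negSucc 2⟩, (.negSucc 3, .ofNat 0), (.ofNat 0, .ofNat 2), (.ofNat 1, .ofNat 3)⟩ ::
 ⟨⟨.ofNat 3, .ofNat 1, .ofNat 2, .negSucc 1, .negSucc 1, .ofNat 0⟩, (.ofNat 0, .negSucc 0), (.negSucc 1, .ofNat 0), (.ofNat 1, .ofNat 1)⟩ ::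
 ⟨⟨.ofNat 3, .ofNat 1, .ofNat 2, .negSucc 0, .ofNat 1, .negSucc 2⟩, (.negSucc 3, .ofNat 0), (.ofNat 0, .ofNat 2), (.ofNat 1, .ofNat 3)⟩ ::
 ⟨⟨.ofNat 3, .ofNat 1, .ofNat 2, .negSucc 0, .negSucc 0, .ofNat 0⟩, (.negSucc 0, .ofNat 0), (.ofNat 0, .ofNat 0), (.ofNat 0, .ofNat 0)⟩ ::
 ⟨⟨.ofNat 3, .ofNat 1, .ofNat 2, .ofNat 0, .ofNat 2, .negSucc 3⟩, (.negSucc 0, .ofNat 1), (.ofNat 0, .ofNat 1), (.ofNat 3, .ofNat 1)⟩ ::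
 ⟨⟨.ofNat 3, .ofNat 1, .ofNat 2, .ofNat 0, .ofNat 0, .negSucc 0⟩, (.negSucc 0, .ofNat 1), (.ofNat 0, .ofNat 1), (.ofNat 1, .ofNat 0)⟩ ::
 ⟨⟨.ofNat 3, .ofNat 1, .ofNat 2, .ofNat 1, .ofNat 3, .negSucc 5⟩, (.negSucc 0, .ofNat 0), (.ofNat 0, .ofNat 0), (.ofNat 0, .ofNat 2)⟩ ::
 ⟨⟨.ofNat 3, .ofNat 1, .ofNat 2, .ofNat 1, .ofNat 1, .negSucc 2⟩, (.ofNat 0, .negSucc 1), (.ofNat 0, .negSucc 1), (.negSucc 2, .ofNat 1)⟩ ::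
 ⟨⟨.ofNat 3, .ofNat 1, .ofNat 2, .ofNat 1, .negSucc 0, .ofNat 0⟩, (.negSucc 0, .ofNat 0), (.ofNat 0, .ofNat 0), (.ofNat 0, .ofNat 0)⟩ ::
 ⟨⟨.ofNat 3, .ofNat 1, .ofNat 2, .ofNat 2, .ofNat 2, .negSucc 5⟩, (.negSucc 2, .ofNat 0), (.negSucc 3, .negSucc 0), (.ofNat 3, .ofNat 5)⟩ ::
 ⟨⟨.ofNat 3, .ofNat 1, .ofNat 2, .ofNat 2, .ofNat 0, .negSucc 2⟩, (.negSucc 1, .negSucc 0), (.ofNat 0, .negSucc 1), (.negSucc 0, .ofNat 3)⟩ ::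
 ⟨⟨.ofNat 3, .ofNat 1, .ofNat 2, .ofNat 2, .negSucc 1, .ofNat 0⟩, (.negSucc 1, .ofNat 0), (.negSucc 1, .ofNat 0), (.ofNat 1, .negSucc 0)⟩ ::
 ⟨⟨.ofNat 3, .ofNat 1, .ofNat 2, .ofNat 3, .ofNat 1, .negSucc 6⟩, (.negSucc 1, .ofNat 0), (.negSucc 1, .negSucc 1), (.ofNat 3, .ofNat 5)⟩ ::
 ⟨⟨.ofNat 3, .ofNat 1, .ofNat 2, .ofNat 3, .negSucc 0, .negSucc 3⟩, (.negSucc 1, .negSucc 0), (.negSucc 1, .negSucc 1), (.ofNat 1, .ofNat 2)⟩ ::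
 ⟨⟨.ofNat 3, .ofNat 1, .ofNat 2, .ofNat 3, .negSucc 2, .negSucc 0⟩, (.negSucc 1, .ofNat 0), (.negSucc 1, .negSucc 1), (.ofNat 3, .ofNat 1)⟩ ::
 ⟨⟨.ofNat 3, .ofNat 1, .ofNat 4, .negSucc 3, .negSucc 3, .negSucc 5⟩, (.negSucc 0, .ofNat 0), (.ofNat 0, .ofNat 1), (.ofNat 1, .ofNat 1)⟩ ::
 ⟨⟨.ofNat 3, .ofNat 1, .ofNat 4, .negSucc 3, .negSucc 5, .negSucc 2⟩, (.negSucc 0, .ofNat 0), (.ofNat 0, .ofNat 1), (.ofNat 1, .ofNat 0)⟩ ::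
 ⟨⟨.ofNat 3, .ofNat 1, .ofNat 4, .negSucc 3, .negSucc 7, .ofNat 0⟩, (.negSucc 0, .ofNat 0), (.ofNat 0, .ofNat 1), (.ofNat 1, .negSucc 0)⟩ ::
 ⟨⟨.ofNat 3, .ofNat 1, .ofNat 4, .negSucc 2, .negSucc 2, .negSucc 3⟩, (.negSucc 0, .ofNat 1), (.ofNat 2, .ofNat 2), (.ofNat 4, .negSucc 0)⟩ ::
 ⟨⟨.ofNat 3, .ofNat 1, .ofNat 4, .negSucc 2, .negSucc 4, .negSucc 0⟩, (.negSucc 0, .ofNat 1), (.ofNat 2, .ofNat 2), (.ofNat 2, .negSucc 1)⟩ ::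
 ⟨⟨.ofNat 3, .ofNat 1, .ofNat 4, .negSucc 2, .negSucc 6, .ofNat 2⟩, (.negSucc 1, .ofNat 0), (.negSucc 1, .ofNat 2), (.ofNat 3, .negSucc 0)⟩ ::
 t

noncomputable def r28 (t : List Ent) : List Ent :=
 ⟨⟨.ofNat 3, .ofNat 1, .ofNat 4, .negSucc 1, .ofNat 0, .negSucc 5⟩, (.negSucc 0, .ofNat 0), (.ofNat 0, .ofNat 1), (.ofNat 1, .ofNat 1)⟩ ::
 ⟨⟨.ofNat 3, .ofNat 1, .ofNat 4, .negSucc 1, .negSucc 1, .negSucc 2⟩, (.negSucc 0, .ofNat 0), (.ofNat 0, .ofNat 1), (.ofNat 1, .ofNat 0)⟩ ::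
 ⟨⟨.ofNat 3, .ofNat 1, .ofNat 4, .negSucc 1, .negSucc 3, .ofNat 0⟩, (.negSucc 1, .ofNat 1), (.ofNat 0, .ofNat 2), (.ofNat 1, .negSucc 0)⟩ ::
 ⟨⟨.ofNat 3, .ofNat 1, .ofNat 4, .negSucc 0, .ofNat 1, .negSucc 5⟩, (.negSucc 1, .negSucc 0), (.negSucc 1, .ofNat 0), (.negSucc 2, .ofNat 4)⟩ ::
 ⟨⟨.ofNat 3, .ofNat 1, .ofNat 4, .negSucc 0, .negSucc 0, .negSucc 2⟩, (.negSucc 1, .negSucc 0), (.negSucc 1, .ofNat 0), (.negSucc 0, .ofNat 2)⟩ ::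
 ⟨⟨.ofNat 3, .ofNat 1, .ofNat 4, .negSucc 0, .negSucc 2, .ofNat 0⟩, (.negSucc 1, .negSucc 0), (.negSucc 1, .ofNat 0), (.ofNat 1, .ofNat 0)⟩ ::
 ⟨⟨.ofNat 3, .ofNat 1, .ofNat 4, .ofNat 0, .ofNat 2, .negSucc 6⟩, (.negSucc 2, .ofNat 0), (.negSucc 1, .ofNat 1), (.ofNat 1, .ofNat 6)⟩ ::
 ⟨⟨.ofNat 3, .ofNat 1, .ofNat 4, .ofNat 0, .ofNat 0, .negSucc 3⟩, (.negSucc 2, .negSucc 0), (.negSucc 3, .ofNat 1), (.ofNat 1, .ofNat 3)⟩ ::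
 ⟨⟨.ofNat 3, .ofNat 1, .ofNat 4, .ofNat 0, .negSucc 1, .negSucc 0⟩, (.negSucc 1, .ofNat 0), (.negSucc 1, .ofNat 0), (.ofNat 1, .ofNat 1)⟩ ::
 ⟨⟨.ofNat 3, .ofNat 1, .ofNat 4, .ofNat 1, .ofNat 1, .negSucc 5⟩, (.negSucc 0, .ofNat 0), (.negSucc 1, .ofNat 0), (.ofNat 2, .ofNat 2)⟩ ::
 ⟨⟨.ofNat 3, .ofNat 1, .ofNat 4, .ofNat 1, .negSucc 0, .negSucc 2⟩, (.negSucc 5, .ofNat 0), (.negSucc 5, .ofNat 0), (.ofNat 3, .ofNat 5)⟩ ::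
 ⟨⟨.ofNat 3, .ofNat 1, .ofNat 4, .ofNat 1, .negSucc 2, .ofNat 0⟩, (.negSucc 0, .ofNat 0), (.negSucc 1, .ofNat 0), (.ofNat 2, .ofNat 0)⟩ ::
 ⟨⟨.ofNat 3, .ofNat 1, .ofNat 4, .ofNat 2, .ofNat 2, .negSucc 8⟩, (.negSucc 4, .negSucc 1), (.negSucc 7, .negSucc 2), (.negSucc 2, .ofNat 14)⟩ ::
 ⟨⟨.ofNat 3, .ofNat 1, .ofNat 4, .ofNat 2, .ofNat 0, .negSucc 5⟩, (.negSucc 0, .ofNat 1), (.negSucc 1, .ofNat 1), (.ofNat 5, .ofNat 1)⟩ ::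
 ⟨⟨.ofNat 3, .ofNat 1, .ofNat 4, .ofNat 2, .negSucc 1, .negSucc 2⟩, (.negSucc 0, .ofNat 1), (.negSucc 1, .ofNat 1), (.ofNat 3, .ofNat 0)⟩ ::
 ⟨⟨.ofNat 3, .ofNat 1, .ofNat 4, .ofNat 3, .ofNat 1, .negSucc 9⟩, (.negSucc 0, .ofNat 0), (.negSucc 1, .ofNat 0), (.ofNat 2, .ofNat 2)⟩ ::
 ⟨⟨.ofNat 3, .ofNat 1, .ofNat 4, .ofNat 3, .negSucc 0, .negSucc 6⟩, (.negSucc 3, .negSucc 1), (.negSucc 3, .negSucc 3), (.negSucc 2, .ofNat 9)⟩ ::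
 ⟨⟨.ofNat 3, .ofNat 1, .ofNat 4, .ofNat 3, .negSucc 2, .negSucc 3⟩, (.negSucc 2, .ofNat 0), (.negSucc 3, .negSucc 1), (.ofNat 4, .ofNat 4)⟩ ::
 ⟨⟨.ofNat 3, .ofNat 1, .ofNat 4, .ofNat 3, .negSucc 4, .negSucc 0⟩, (.negSucc 3, .negSucc 1), (.negSucc 3, .negSucc 3), (.ofNat 5, .ofNat 1)⟩ ::
 ⟨⟨.ofNat 3, .ofNat 1, .ofNat 6, .negSucc 3, .negSucc 5, .negSucc 7⟩, (.negSucc 1, .negSucc 0), (.negSucc 3, .ofNat 2), (.ofNat 1, .ofNat 5)⟩ ::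
 ⟨⟨.ofNat 3, .ofNat 1, .ofNat 6, .negSucc 3, .negSucc 7, .negSucc 4⟩, (.negSucc 2, .negSucc 0), (.negSucc 5, .ofNat 3), (.ofNat 5, .ofNat 6)⟩ ::
 ⟨⟨.ofNat 3, .ofNat 1, .ofNat 6, .negSucc 3, .negSucc 9, .negSucc 1⟩, (.negSucc 6, .negSucc 2), (.negSucc 13, .ofNat 9), (.ofNat 23, .ofNat 3)⟩ ::
 ⟨⟨.ofNat 3, .ofNat 1, .ofNat 6, .negSucc 3, .negSucc 11, .ofNat 1⟩, (.negSucc 1, .negSucc 0), (.negSucc 3, .ofNat 2), (.ofNat 7, .negSucc 0)⟩ ::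
 ⟨⟨.ofNat 3, .ofNat 1, .ofNat 6, .negSucc 2, .negSucc 2, .negSucc 8⟩, (.negSucc 1, .negSucc 0), (.negSucc 5, .ofNat 2), (.ofNat 3, .ofNat 8)⟩ ::
 ⟨⟨.ofNat 3, .ofNat 1, .ofNat 6, .negSucc 2, .negSucc 4, .negSucc 5⟩, (.negSucc 1, .negSucc 0), (.negSucc 5, .ofNat 2), (.ofNat 5, .ofNat 6)⟩ ::
 ⟨⟨.ofNat 3, .ofNat 1, .ofNat 6, .negSucc 2, .negSucc 6, .negSucc 2⟩, (.negSucc 2, .ofNat 0), (.negSucc 1, .ofNat 4), (.ofNat 6, .negSucc 0)⟩ ::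
 ⟨⟨.ofNat 3, .ofNat 1, .ofNat 6, .negSucc 2, .negSucc 8, .ofNat 0⟩, (.negSucc 2, .ofNat 0), (.negSucc 1, .ofNat 4), (.ofNat 6, .negSucc 3)⟩ ::
 ⟨⟨.ofNat 3, .ofNat 1, .ofNat 6, .negSucc 1, .negSucc 1, .negSucc 7⟩, (.negSucc 5, .ofNat 0), (.negSucc 5, .ofNat 6), (.ofNat 9, .ofNat 11)⟩ ::
 ⟨⟨.ofNat 3, .ofNat 1, .ofNat 6, .negSucc 1, .negSucc 3, .negSucc 4⟩, (.negSucc 0, .ofNat 0), (.negSucc 1, .ofNat 1), (.ofNat 3, .ofNat 2)⟩ ::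
 ⟨⟨.ofNat 3, .ofNat 1, .ofNat 6, .negSucc 1, .negSucc 5, .negSucc 1⟩, (.ofNat 0, .negSucc 1), (.negSucc 3, .negSucc 1), (.ofNat 1, .ofNat 3)⟩ ::
 ⟨⟨.ofNat 3, .ofNat 1, .ofNat 6, .negSucc 1, .negSucc 7, .ofNat 1⟩, (.negSucc 0, .ofNat 0), (.negSucc 1, .ofNat 1), (.ofNat 3, .ofNat 0)⟩ ::
 ⟨⟨.ofNat 3, .ofNat 1, .ofNat 6, .negSucc 0, .negSucc 0, .negSucc 7⟩, (.negSucc 0, .ofNat 1), (.ofNat 0, .ofNat 2), (.ofNat 6, .ofNat 1)⟩ ::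
 ⟨⟨.ofNat 3, .ofNat 1, .ofNat 6, .negSucc 0, .negSucc 2, .negSucc 4⟩, (.negSucc 1, .ofNat 0), (.negSucc 1, .ofNat 2), (.ofNat 3, .ofNat 1)⟩ ::
 ⟨⟨.ofNat 3, .ofNat 1, .ofNat 6, .negSucc 0, .negSucc 4, .negSucc 1⟩, (.negSucc 5, .ofNat 0), (.negSucc 9, .ofNat 4), (.ofNat 11, .ofNat 3)⟩ ::
 ⟨⟨.ofNat 3, .ofNat 1, .ofNat 6, .negSucc 0, .negSucc 6, .ofNat 1⟩, (.negSucc 0, .ofNat 1), (.ofNat 0, .ofNat 2), (.ofNat 0, .negSucc 1)⟩ ::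
 ⟨⟨.ofNat 3, .ofNat 1, .ofNat 6, .ofNat 0, .ofNat 0, .negSucc 8⟩, (.negSucc 2, .ofNat 0), (.negSucc 3, .ofNat 1), (.ofNat 3, .ofNat 8)⟩ ::
 ⟨⟨.ofNat 3, .ofNat 1, .ofNat 6, .ofNat 0, .negSucc 1, .negSucc 5⟩, (.negSucc 0, .ofNat 0), (.negSucc 1, .ofNat 1), (.ofNat 3, .ofNat 1)⟩ ::
 ⟨⟨.ofNat 3, .ofNat 1, .ofNat 6, .ofNat 0, .negSucc 3, .negSucc 2⟩, (.negSucc 0, .ofNat 0), (.negSucc 1, .ofNat 1), (.ofNat 3, .ofNat 0)⟩ ::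
 ⟨⟨.ofNat 3, .ofNat 1, .ofNat 6, .ofNat 0, .negSucc 5, .ofNat 0⟩, (.negSucc 0, .ofNat 0), (.negSucc 1, .ofNat 1), (.ofNat 3, .negSucc 0)⟩ ::
 ⟨⟨.ofNat 3, .ofNat 1, .ofNat 6, .ofNat 1, .negSucc 0, .negSucc 7⟩, (.negSucc 1, .negSucc 2), (.negSucc 5, .negSucc 3), (.negSucc 6, .ofNat 8)⟩ ::
 ⟨⟨.ofNat 3, .ofNat 1, .ofNat 6, .ofNat 1, .negSucc 2, .negSucc 4⟩, (.negSucc 6, .negSucc 2), (.negSucc 13, .negSucc 1), (.ofNat 6, .ofNat 10)⟩ ::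
 ⟨⟨.ofNat 3, .ofNat 1, .ofNat 6, .ofNat 1, .negSucc 4, .negSucc 1⟩, (.negSucc 4, .negSucc 0), (.negSucc 7, .ofNat 0), (.ofNat 6, .ofNat 1)⟩ ::
 ⟨⟨.ofNat 3, .ofNat 1, .ofNat 8, .negSucc 1, .negSucc 3, .negSucc 11⟩, (.negSucc 4, .negSucc 1), (.negSucc 15, .ofNat 3), (.ofNat 9, .ofNat 23)⟩ ::
 ⟨⟨.ofNat 3, .ofNat 1, .ofNat 8, .negSucc 1, .negSucc 5, .negSucc 8⟩, (.negSucc 2, .ofNat 0), (.negSucc 5, .ofNat 3), (.ofNat 9, .ofNat 8)⟩ ::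
 ⟨⟨.ofNat 3, .ofNat 1, .ofNat 8, .negSucc 1, .negSucc 7, .negSucc 5⟩, (.negSucc 2, .ofNat 0), (.negSucc 5, .ofNat 3), (.ofNat 9, .ofNat 5)⟩ ::
 ⟨⟨.ofNat 3, .ofNat 1, .ofNat 8, .negSucc 1, .negSucc 9, .negSucc 2⟩, (.negSucc 30, .negSucc 14), (.negSucc 91, .ofNat 15), (.ofNat 107, .ofNat 38)⟩ ::
 ⟨⟨.ofNat 3, .ofNat 1, .ofNat 8, .negSucc 1, .negSucc 11, .ofNat 0⟩, (.negSucc 3, .ofNat 0), (.negSucc 7, .ofNat 6), (.ofNat 17, .negSucc 4)⟩ ::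
 ⟨⟨.ofNat 3, .ofNat 2, .negSucc 1, .negSucc 1, .ofNat 2, .negSucc 2⟩, (.negSucc 0, .negSucc 1), (.ofNat 0, .ofNat 1), (.negSucc 2, .ofNat 1)⟩ ::
 ⟨⟨.ofNat 3, .ofNat 2, .negSucc 1, .negSucc 1, .negSucc 1, .ofNat 0⟩, (.negSucc 2, .ofNat 0), (.ofNat 2, .ofNat 1), (.ofNat 1, .ofNat 0)⟩ ::
 ⟨⟨.ofNat 3, .ofNat 2, .negSucc 1, .negSucc 0, .ofNat 3, .negSucc 2⟩, (.negSucc 7, .negSucc 2), (.ofNat 6, .ofNat 0), (.negSucc 2, .ofNat 7)⟩ ::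
 t

noncomputable def r29 (t : List Ent) : List Ent :=
 ⟨⟨.ofNat 3, .ofNat 2, .negSucc 1, .negSucc 0, .negSucc 0, .ofNat 0⟩, (.negSucc 0, .ofNat 0), (.ofNat 0, .ofNat 0), (.ofNat 0, .ofNat 0)⟩ ::
 ⟨⟨.ofNat 3, .ofNat 2, .negSucc 1, .ofNat 0, .ofNat 2, .negSucc 1⟩, (.negSucc 2, .ofNat 0), (.ofNat 2, .negSucc 0), (.ofNat 1, .ofNat 2)⟩ ::
 ⟨⟨.ofNat 3, .ofNat 2, .negSucc 1, .ofNat 0, .negSucc 1, .ofNat 1⟩, (.ofNat 0, .negSucc 0), (.ofNat 0, .ofNat 0), (.ofNat 1, .ofNat 0)⟩ ::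
 ⟨⟨.ofNat 3, .ofNat 2, .negSucc 1, .ofNat 1, .ofNat 3, .negSucc 2⟩, (.negSucc 2, .negSucc 1), (.ofNat 2, .negSucc 1), (.negSucc 1, .ofNat 3)⟩ ::
 ⟨⟨.ofNat 3, .ofNat 2, .negSucc 1, .ofNat 1, .negSucc 0, .ofNat 0⟩, (.negSucc 0, .ofNat 0), (.ofNat 0, .ofNat 0), (.ofNat 0, .ofNat 0)⟩ ::
 ⟨⟨.ofNat 3, .ofNat 2, .negSucc 1, .ofNat 2, .ofNat 6, .negSucc 5⟩, (.negSucc 0, .ofNat 0), (.ofNat 0, .negSucc 0), (.ofNat 1, .ofNat 2)⟩ ::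
 ⟨⟨.ofNat 3, .ofNat 2, .negSucc 1, .ofNat 2, .ofNat 2, .negSucc 2⟩, (.negSucc 2, .negSucc 1), (.ofNat 2, .negSucc 0), (.negSucc 2, .ofNat 3)⟩ ::
 ⟨⟨.ofNat 3, .ofNat 2, .ofNat 0, .negSucc 1, .ofNat 0, .negSucc 0⟩, (.negSucc 0, .negSucc 1), (.negSucc 1, .ofNat 1), (.negSucc 0, .ofNat 1)⟩ ::
 ⟨⟨.ofNat 3, .ofNat 2, .ofNat 0, .negSucc 1, .negSucc 3, .ofNat 2⟩, (.negSucc 1, .ofNat 1), (.ofNat 2, .ofNat 0), (.negSucc 0, .negSucc 1)⟩ ::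
 ⟨⟨.ofNat 3, .ofNat 2, .ofNat 0, .negSucc 0, .ofNat 1, .negSucc 0⟩, (.ofNat 0, .negSucc 1), (.ofNat 0, .ofNat 0), (.negSucc 0, .ofNat 0)⟩ ::
 ⟨⟨.ofNat 3, .ofNat 2, .ofNat 0, .ofNat 1, .ofNat 5, .negSucc 3⟩, (.negSucc 1, .negSucc 2), (.ofNat 0, .negSucc 1), (.negSucc 6, .ofNat 3)⟩ ::
 ⟨⟨.ofNat 3, .ofNat 2, .ofNat 0, .ofNat 1, .ofNat 1, .negSucc 0⟩, (.ofNat 0, .negSucc 1), (.ofNat 0, .ofNat 0), (.negSucc 0, .ofNat 0)⟩ ::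
 ⟨⟨.ofNat 3, .ofNat 2, .ofNat 0, .ofNat 2, .ofNat 4, .negSucc 3⟩, (.negSucc 0, .negSucc 1), (.ofNat 2, .negSucc 0), (.negSucc 4, .ofNat 2)⟩ ::
 ⟨⟨.ofNat 3, .ofNat 2, .ofNat 0, .ofNat 2, .ofNat 0, .negSucc 0⟩, (.negSucc 0, .negSucc 1), (.ofNat 2, .negSucc 0), (.negSucc 0, .ofNat 1)⟩ ::
 ⟨⟨.ofNat 3, .ofNat 2, .ofNat 0, .ofNat 3, .ofNat 5, .negSucc 5⟩, (.negSucc 3, .ofNat 0), (.negSucc 3, .negSucc 1), (.ofNat 3, .ofNat 6)⟩ ::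
 ⟨⟨.ofNat 3, .ofNat 2, .ofNat 0, .ofNat 3, .ofNat 1, .negSucc 2⟩, (.ofNat 0, .negSucc 2), (.ofNat 2, .negSucc 1), (.negSucc 2, .ofNat 1)⟩ ::
 ⟨⟨.ofNat 3, .ofNat 2, .ofNat 2, .negSucc 4, .negSucc 0, .negSucc 5⟩, (.negSucc 1, .negSucc 2), (.negSucc 3, .ofNat 4), (.negSucc 2, .ofNat 5)⟩ ::
 ⟨⟨.ofNat 3, .ofNat 2, .ofNat 2, .negSucc 4, .negSucc 4, .negSucc 2⟩, (.negSucc 2, .ofNat 0), (.ofNat 2, .ofNat 4), (.ofNat 6, .ofNat 1)⟩ ::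
 ⟨⟨.ofNat 3, .ofNat 2, .ofNat 2, .negSucc 4, .negSucc 8, .ofNat 0⟩, (.negSucc 1, .negSucc 2), (.negSucc 3, .ofNat 4), (.ofNat 9, .ofNat 1)⟩ ::
 ⟨⟨.ofNat 3, .ofNat 2, .ofNat 2, .negSucc 4, .negSucc 12, .ofNat 3⟩, (.negSucc 5, .negSucc 4), (.negSucc 7, .ofNat 10), (.ofNat 27, .negSucc 2)⟩ ::
 ⟨⟨.ofNat 3, .ofNat 2, .ofNat 2, .negSucc 3, .negSucc 1, .negSucc 2⟩, (.negSucc 0, .ofNat 0), (.ofNat 0, .ofNat 1), (.ofNat 1, .ofNat 1)⟩ ::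
 ⟨⟨.ofNat 3, .ofNat 2, .ofNat 2, .negSucc 3, .negSucc 5, .ofNat 0⟩, (.negSucc 0, .ofNat 0), (.ofNat 0, .ofNat 1), (.ofNat 1, .ofNat 0)⟩ ::
 ⟨⟨.ofNat 3, .ofNat 2, .ofNat 2, .negSucc 2, .negSucc 0, .negSucc 1⟩, (.negSucc 2, .ofNat 0), (.ofNat 2, .ofNat 2), (.ofNat 2, .ofNat 0)⟩ ::
 ⟨⟨.ofNat 3, .ofNat 2, .ofNat 2, .negSucc 2, .negSucc 4, .ofNat 1⟩, (.negSucc 2, .ofNat 0), (.ofNat 2, .ofNat 2), (.ofNat 2, .negSucc 2)⟩ ::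
 ⟨⟨.ofNat 3, .ofNat 2, .ofNat 2, .negSucc 1, .ofNat 2, .negSucc 2⟩, (.negSucc 2, .negSucc 1), (.negSucc 1, .ofNat 1), (.negSucc 2, .ofNat 3)⟩ ::
 ⟨⟨.ofNat 3, .ofNat 2, .ofNat 2, .negSucc 1, .negSucc 1, .ofNat 0⟩, (.negSucc 2, .negSucc 1), (.negSucc 1, .ofNat 1), (.ofNat 1, .ofNat 0)⟩ ::
 ⟨⟨.ofNat 3, .ofNat 2, .ofNat 2, .negSucc 0, .ofNat 3, .negSucc 2⟩, (.negSucc 2, .negSucc 1), (.negSucc 1, .ofNat 2), (.negSucc 1, .ofNat 3)⟩ ::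
 ⟨⟨.ofNat 3, .ofNat 2, .ofNat 2, .negSucc 0, .negSucc 0, .ofNat 0⟩, (.negSucc 0, .ofNat 0), (.ofNat 0, .ofNat 0), (.ofNat 0, .ofNat 0)⟩ ::
 ⟨⟨.ofNat 3, .ofNat 2, .ofNat 2, .ofNat 0, .ofNat 2, .negSucc 1⟩, (.negSucc 2, .ofNat 0), (.negSucc 1, .ofNat 1), (.ofNat 1, .ofNat 2)⟩ ::
 ⟨⟨.ofNat 3, .ofNat 2, .ofNat 2, .ofNat 1, .ofNat 3, .negSucc 2⟩, (.negSucc 1, .ofNat 0), (.negSucc 1, .ofNat 0), (.ofNat 1, .ofNat 2)⟩ ::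
 ⟨⟨.ofNat 3, .ofNat 2, .ofNat 2, .ofNat 1, .negSucc 0, .ofNat 0⟩, (.negSucc 0, .ofNat 0), (.ofNat 0, .ofNat 0), (.ofNat 0, .ofNat 0)⟩ ::
 ⟨⟨.ofNat 3, .ofNat 2, .ofNat 2, .ofNat 2, .ofNat 6, .negSucc 5⟩, (.negSucc 0, .negSucc 1), (.ofNat 0, .negSucc 0), (.negSucc 6, .ofNat 2)⟩ ::
 ⟨⟨.ofNat 3, .ofNat 2, .ofNat 2, .ofNat 2, .ofNat 2, .negSucc 2⟩, (.negSucc 0, .negSucc 1), (.ofNat 0, .negSucc 0), (.negSucc 2, .ofNat 1)⟩ ::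
 ⟨⟨.ofNat 3, .ofNat 2, .ofNat 2, .ofNat 3, .ofNat 7, .negSucc 7⟩, (.negSucc 4, .negSucc 0), (.negSucc 5, .negSucc 1), (.ofNat 0, .ofNat 11)⟩ ::
 ⟨⟨.ofNat 3, .ofNat 2, .ofNat 2, .ofNat 3, .ofNat 3, .negSucc 4⟩, (.negSucc 1, .ofNat 0), (.negSucc 1, .ofNat 0), (.ofNat 1, .ofNat 2)⟩ ::
 ⟨⟨.ofNat 3, .ofNat 2, .ofNat 2, .ofNat 3, .negSucc 0, .negSucc 1⟩, (.negSucc 1, .ofNat 0), (.negSucc 1, .ofNat 0), (.ofNat 1, .ofNat 0)⟩ ::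
 ⟨⟨.ofNat 3, .ofNat 2, .ofNat 2, .ofNat 4, .ofNat 6, .negSucc 8⟩, (.ofNat 1, .negSucc 0), (.ofNat 2, .negSucc 0), (.negSucc 4, .negSucc 0)⟩ ::
 ⟨⟨.ofNat 3, .ofNat 2, .ofNat 2, .ofNat 4, .ofNat 2, .negSucc 5⟩, (.negSucc 4, .negSucc 2), (.negSucc 3, .negSucc 4), (.negSucc 2, .ofNat 8)⟩ ::
 ⟨⟨.ofNat 3, .ofNat 2, .ofNat 2, .ofNat 4, .negSucc 1, .negSucc 2⟩, (.ofNat 1, .negSucc 0), (.ofNat 2, .negSucc 0), (.negSucc 0, .ofNat 1)⟩ ::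
 ⟨⟨.ofNat 3, .ofNat 2, .ofNat 4, .negSucc 4, .negSucc 2, .negSucc 5⟩, (.negSucc 7, .negSucc 5), (.negSucc 11, .ofNat 12), (.ofNat 3, .ofNat 16)⟩ ::
 ⟨⟨.ofNat 3, .ofNat 2, .ofNat 4, .negSucc 4, .negSucc 6, .negSucc 2⟩, (.negSucc 7, .negSucc 5), (.negSucc 11, .ofNat 12), (.ofNat 15, .ofNat 8)⟩ ::
 ⟨⟨.ofNat 3, .ofNat 2, .ofNat 4, .negSucc 4, .negSucc 10, .ofNat 0⟩, (.negSucc 3, .negSucc 2), (.negSucc 5, .ofNat 8), (.ofNat 19, .ofNat 1)⟩ ::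
 ⟨⟨.ofNat 3, .ofNat 2, .ofNat 4, .negSucc 3, .ofNat 0, .negSucc 5⟩, (.negSucc 1, .negSucc 2), (.negSucc 5, .ofNat 4), (.negSucc 0, .ofNat 6)⟩ ::
 ⟨⟨.ofNat 3, .ofNat 2, .ofNat 4, .negSucc 3, .negSucc 3, .negSucc 2⟩, (.negSucc 6, .negSucc 4), (.negSucc 7, .ofNat 9), (.ofNat 9, .ofNat 5)⟩ ::
 ⟨⟨.ofNat 3, .ofNat 2, .ofNat 4, .negSucc 3, .negSucc 7, .ofNat 0⟩, (.negSucc 2, .ofNat 0), (.ofNat 0, .ofNat 3), (.ofNat 3, .negSucc 1)⟩ ::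
 ⟨⟨.ofNat 3, .ofNat 2, .ofNat 4, .negSucc 1, .ofNat 0, .negSucc 2⟩, (.negSucc 2, .ofNat 0), (.ofNat 0, .ofNat 3), (.ofNat 3, .ofNat 1)⟩ ::
 ⟨⟨.ofNat 3, .ofNat 2, .ofNat 4, .negSucc 1, .negSucc 3, .ofNat 0⟩, (.ofNat 0, .negSucc 1), (.negSucc 3, .ofNat 0), (.ofNat 3, .ofNat 2)⟩ ::
 ⟨⟨.ofNat 3, .ofNat 2, .ofNat 4, .negSucc 0, .ofNat 1, .negSucc 2⟩, (.negSucc 3, .negSucc 2), (.negSucc 5, .ofNat 0), (.negSucc 2, .ofNat 5)⟩ ::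
 ⟨⟨.ofNat 3, .ofNat 2, .ofNat 4, .negSucc 0, .negSucc 2, .ofNat 0⟩, (.negSucc 0, .negSucc 1), (.negSucc 1, .ofNat 0), (.ofNat 2, .ofNat 0)⟩ ::
 ⟨⟨.ofNat 3, .ofNat 2, .ofNat 4, .ofNat 0, .ofNat 4, .negSucc 4⟩, (.negSucc 4, .negSucc 2), (.negSucc 5, .negSucc 0), (.negSucc 6, .ofNat 9)⟩ ::
 t

noncomputable def r30 (t : List Ent) : List Ent :=
 ⟨⟨.ofNat 3, .ofNat 2, .ofNat 4, .ofNat 0, .ofNat 0, .negSucc 1⟩, (.ofNat 1, .negSucc 0), (.ofNat 0, .negSucc 0), (.negSucc 0, .ofNat 0)⟩ ::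
 ⟨⟨.ofNat 3, .ofNat 2, .ofNat 4, .ofNat 1, .ofNat 5, .negSucc 5⟩, (.negSucc 4, .negSucc 0), (.negSucc 3, .ofNat 0), (.negSucc 1, .ofNat 9)⟩ ::
 ⟨⟨.ofNat 3, .ofNat 2, .ofNat 4, .ofNat 1, .ofNat 1, .negSucc 2⟩, (.ofNat 0, .negSucc 2), (.negSucc 1, .negSucc 1), (.negSucc 2, .ofNat 1)⟩ ::
 ⟨⟨.ofNat 3, .ofNat 2, .ofNat 4, .ofNat 1, .negSucc 2, .ofNat 0⟩, (.negSucc 1, .ofNat 0), (.negSucc 1, .ofNat 0), (.ofNat 1, .ofNat 0)⟩ ::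
 ⟨⟨.ofNat 3, .ofNat 2, .ofNat 4, .ofNat 2, .ofNat 4, .negSucc 5⟩, (.negSucc 3, .negSucc 0), (.negSucc 3, .ofNat 0), (.negSucc 0, .ofNat 6)⟩ ::
 ⟨⟨.ofNat 3, .ofNat 2, .ofNat 4, .ofNat 2, .ofNat 0, .negSucc 2⟩, (.negSucc 0, .negSucc 1), (.negSucc 1, .negSucc 2), (.negSucc 0, .ofNat 3)⟩ ::
 ⟨⟨.ofNat 3, .ofNat 2, .ofNat 4, .ofNat 3, .ofNat 5, .negSucc 7⟩, (.negSucc 16, .negSucc 11), (.negSucc 25, .negSucc 17), (.negSucc 25, .ofNat 46)⟩ ::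
 ⟨⟨.ofNat 3, .ofNat 2, .ofNat 4, .ofNat 3, .ofNat 1, .negSucc 4⟩, (.negSucc 1, .ofNat 0), (.negSucc 1, .ofNat 0), (.ofNat 1, .ofNat 2)⟩ ::
 ⟨⟨.ofNat 3, .ofNat 2, .ofNat 4, .ofNat 3, .negSucc 2, .negSucc 1⟩, (.negSucc 1, .ofNat 0), (.negSucc 1, .ofNat 0), (.ofNat 1, .ofNat 0)⟩ ::
 ⟨⟨.ofNat 3, .ofNat 2, .ofNat 4, .ofNat 4, .ofNat 4, .negSucc 8⟩, (.negSucc 8, .negSucc 7), (.negSucc 9, .negSucc 16), (.negSucc 20, .ofNat 33)⟩ ::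
 ⟨⟨.ofNat 3, .ofNat 2, .ofNat 4, .ofNat 4, .ofNat 0, .negSucc 5⟩, (.ofNat 0, .negSucc 0), (.ofNat 0, .negSucc 1), (.negSucc 0, .ofNat 2)⟩ ::
 ⟨⟨.ofNat 3, .ofNat 2, .ofNat 4, .ofNat 4, .negSucc 3, .negSucc 2⟩, (.negSucc 2, .ofNat 0), (.negSucc 3, .negSucc 0), (.ofNat 3, .ofNat 1)⟩ ::
 ⟨⟨.ofNat 3, .ofNat 2, .ofNat 6, .negSucc 4, .negSucc 4, .negSucc 6⟩, (.negSucc 0, .ofNat 0), (.ofNat 0, .ofNat 2), (.ofNat 4, .ofNat 1)⟩ ::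
 ⟨⟨.ofNat 3, .ofNat 2, .ofNat 6, .negSucc 4, .negSucc 8, .negSucc 3⟩, (.negSucc 5, .negSucc 0), (.negSucc 3, .ofNat 10), (.ofNat 17, .ofNat 3)⟩ ::
 ⟨⟨.ofNat 3, .ofNat 2, .ofNat 6, .negSucc 4, .negSucc 12, .negSucc 0⟩, (.negSucc 2, .negSucc 1), (.negSucc 5, .ofNat 4), (.ofNat 10, .ofNat 1)⟩ ::
 ⟨⟨.ofNat 3, .ofNat 2, .ofNat 6, .negSucc 3, .negSucc 1, .negSucc 6⟩, (.negSucc 1, .negSucc 2), (.negSucc 9, .ofNat 2), (.negSucc 2, .ofNat 10)⟩ ::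
 ⟨⟨.ofNat 3, .ofNat 2, .ofNat 6, .negSucc 3, .negSucc 5, .negSucc 3⟩, (.negSucc 10, .negSucc 5), (.negSucc 17, .ofNat 13), (.ofNat 17, .ofNat 12)⟩ ::
 ⟨⟨.ofNat 3, .ofNat 2, .ofNat 6, .negSucc 3, .negSucc 9, .negSucc 0⟩, (.negSucc 12, .negSucc 8), (.negSucc 23, .ofNat 17), (.ofNat 43, .ofNat 1)⟩ ::
 ⟨⟨.ofNat 3, .ofNat 2, .ofNat 6, .negSucc 2, .negSucc 0, .negSucc 5⟩, (.negSucc 7, .negSucc 5), (.negSucc 19, .ofNat 8), (.ofNat 3, .ofNat 20)⟩ ::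
 ⟨⟨.ofNat 3, .ofNat 2, .ofNat 6, .negSucc 2, .negSucc 4, .negSucc 2⟩, (.negSucc 2, .ofNat 0), (.negSucc 1, .ofNat 4), (.ofNat 6, .ofNat 1)⟩ ::
 ⟨⟨.ofNat 3, .ofNat 2, .ofNat 6, .negSucc 2, .negSucc 8, .ofNat 0⟩, (.ofNat 0, .negSucc 0), (.negSucc 1, .ofNat 0), (.ofNat 3, .ofNat 1)⟩ ::
 ⟨⟨.ofNat 3, .ofNat 2, .ofNat 6, .negSucc 1, .ofNat 2, .negSucc 6⟩, (.negSucc 6, .negSucc 2), (.negSucc 9, .ofNat 7), (.ofNat 3, .ofNat 13)⟩ ::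
 ⟨⟨.ofNat 3, .ofNat 2, .ofNat 6, .negSucc 1, .negSucc 1, .negSucc 3⟩, (.negSucc 0, .ofNat 0), (.ofNat 0, .ofNat 1), (.ofNat 1, .ofNat 0)⟩ ::
 ⟨⟨.ofNat 3, .ofNat 2, .ofNat 6, .negSucc 1, .negSucc 5, .negSucc 0⟩, (.negSucc 0, .ofNat 0), (.ofNat 0, .ofNat 1), (.ofNat 1, .negSucc 0)⟩ ::
 ⟨⟨.ofNat 3, .ofNat 2, .ofNat 6, .negSucc 0, .ofNat 3, .negSucc 6⟩, (.negSucc 5, .negSucc 4), (.negSucc 11, .ofNat 2), (.negSucc 8, .ofNat 13)⟩ ::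
 ⟨⟨.ofNat 3, .ofNat 2, .ofNat 6, .negSucc 0, .negSucc 0, .negSucc 3⟩, (.negSucc 2, .ofNat 0), (.negSucc 1, .ofNat 2), (.ofNat 2, .ofNat 2)⟩ ::
 ⟨⟨.ofNat 3, .ofNat 2, .ofNat 6, .negSucc 0, .negSucc 4, .negSucc 0⟩, (.negSucc 0, .negSucc 1), (.negSucc 3, .ofNat 0), (.ofNat 4, .ofNat 1)⟩ ::
 ⟨⟨.ofNat 3, .ofNat 2, .ofNat 6, .ofNat 0, .ofNat 2, .negSucc 5⟩, (.negSucc 3, .ofNat 0), (.negSucc 3, .ofNat 2), (.ofNat 3, .ofNat 6)⟩ ::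
 ⟨⟨.ofNat 3, .ofNat 2, .ofNat 6, .ofNat 0, .negSucc 1, .negSucc 2⟩, (.negSucc 0, .negSucc 3), (.negSucc 7, .negSucc 2), (.ofNat 1, .ofNat 5)⟩ ::
 ⟨⟨.ofNat 3, .ofNat 2, .ofNat 6, .ofNat 0, .negSucc 5, .ofNat 0⟩, (.negSucc 4, .negSucc 2), (.negSucc 7, .ofNat 1), (.ofNat 9, .negSucc 1)⟩ ::
 ⟨⟨.ofNat 3, .ofNat 2, .ofNat 6, .ofNat 1, .ofNat 3, .negSucc 6⟩, (.negSucc 3, .ofNat 0), (.negSucc 3, .ofNat 2), (.ofNat 3, .ofNat 6)⟩ ::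
 ⟨⟨.ofNat 3, .ofNat 2, .ofNat 6, .ofNat 1, .negSucc 0, .negSucc 3⟩, (.negSucc 3, .ofNat 0), (.negSucc 3, .ofNat 2), (.ofNat 3, .ofNat 2)⟩ ::
 ⟨⟨.ofNat 3, .ofNat 2, .ofNat 6, .ofNat 1, .negSucc 4, .negSucc 0⟩, (.ofNat 1, .negSucc 0), (.ofNat 0, .negSucc 1), (.ofNat 0, .ofNat 2)⟩ ::
 ⟨⟨.ofNat 3, .ofNat 2, .ofNat 6, .ofNat 2, .ofNat 6, .negSucc 9⟩, (.negSucc 0, .negSucc 1), (.negSucc 3, .negSucc 2), (.negSucc 6, .ofNat 6)⟩ ::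
 ⟨⟨.ofNat 3, .ofNat 2, .ofNat 6, .ofNat 2, .ofNat 2, .negSucc 6⟩, (.negSucc 3, .negSucc 2), (.negSucc 7, .negSucc 1), (.negSucc 2, .ofNat 8)⟩ ::
 ⟨⟨.ofNat 3, .ofNat 2, .ofNat 6, .ofNat 2, .negSucc 1, .negSucc 3⟩, (.negSucc 0, .negSucc 1), (.negSucc 3, .negSucc 2), (.ofNat 1, .ofNat 4)⟩ ::
 ⟨⟨.ofNat 3, .ofNat 2, .ofNat 6, .ofNat 3, .ofNat 3, .negSucc 8⟩, (.ofNat 0, .negSucc 1), (.ofNat 0, .negSucc 3), (.negSucc 8, .ofNat 4)⟩ ::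
 ⟨⟨.ofNat 3, .ofNat 2, .ofNat 6, .ofNat 3, .negSucc 0, .negSucc 5⟩, (.ofNat 0, .negSucc 1), (.ofNat 0, .negSucc 3), (.negSucc 4, .ofNat 4)⟩ ::
 ⟨⟨.ofNat 3, .ofNat 2, .ofNat 6, .ofNat 3, .negSucc 4, .negSucc 2⟩, (.negSucc 1, .negSucc 2), (.negSucc 3, .negSucc 3), (.ofNat 3, .ofNat 3)⟩ ::
 ⟨⟨.ofNat 3, .ofNat 2, .ofNat 8, .negSucc 2, .negSucc 2, .negSucc 7⟩, (.negSucc 5, .negSucc 4), (.negSucc 19, .ofNat 4), (.ofNat 1, .ofNat 21)⟩ ::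
 ⟨⟨.ofNat 3, .ofNat 2, .ofNat 8, .negSucc 2, .negSucc 6, .negSucc 4⟩, (.negSucc 4, .negSucc 2), (.negSucc 11, .ofNat 4), (.ofNat 8, .ofNat 8)⟩ ::
 ⟨⟨.ofNat 3, .ofNat 2, .ofNat 8, .negSucc 2, .negSucc 10, .negSucc 1⟩, (.negSucc 3, .ofNat 0), (.negSucc 3, .ofNat 6), (.ofNat 11, .negSucc 1)⟩ ::
 ⟨⟨.ofNat 3, .ofNat 2, .ofNat 8, .negSucc 1, .ofNat 0, .negSucc 8⟩, (.ofNat 0, .negSucc 2), (.negSucc 7, .negSucc 1), (.negSucc 6, .ofNat 6)⟩ ::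
 ⟨⟨.ofNat 3, .ofNat 2, .ofNat 8, .negSucc 1, .negSucc 3, .negSucc 5⟩, (.negSucc 1, .ofNat 0), (.negSucc 1, .ofNat 2), (.ofNat 3, .ofNat 2)⟩ ::
 ⟨⟨.ofNat 3, .ofNat 2, .ofNat 8, .negSucc 1, .negSucc 7, .negSucc 2⟩, (.ofNat 0, .negSucc 2), (.negSucc 7, .negSucc 1), (.ofNat 5, .ofNat 6)⟩ ::
 ⟨⟨.ofNat 3, .ofNat 2, .ofNat 8, .negSucc 1, .negSucc 11, .ofNat 0⟩, (.ofNat 0, .negSucc 2), (.negSucc 7, .negSucc 1), (.ofNat 11, .ofNat 6)⟩ ::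
 ⟨⟨.ofNat 3, .ofNat 2, .ofNat 8, .negSucc 0, .ofNat 1, .negSucc 8⟩, (.negSucc 0, .negSucc 1), (.negSucc 5, .negSucc 1), (.negSucc 5, .ofNat 7)⟩ ::
 ⟨⟨.ofNat 3, .ofNat 2, .ofNat 8, .negSucc 0, .negSucc 2, .negSucc 5⟩, (.negSucc 0, .negSucc 1), (.negSucc 5, .negSucc 1), (.negSucc 1, .ofNat 6)⟩ ::
 ⟨⟨.ofNat 3, .ofNat 2, .ofNat 8, .negSucc 0, .negSucc 6, .negSucc 2⟩, (.negSucc 2, .ofNat 0), (.negSucc 3, .ofNat 4), (.ofNat 8, .negSucc 0)⟩ ::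
 ⟨⟨.ofNat 3, .ofNat 2, .ofNat 8, .ofNat 0, .ofNat 4, .negSucc 10⟩, (.negSucc 6, .negSucc 2), (.negSucc 15, .ofNat 1), (.negSucc 2, .ofNat 25)⟩ ::
 t

noncomputable def r31 (t : List Ent) : List Ent :=
 ⟨⟨.ofNat 3, .ofNat 2, .ofNat 8, .ofNat 0, .ofNat 0, .negSucc 7⟩, (.negSucc 0, .ofNat 0), (.negSucc 1, .ofNat 1), (.ofNat 3, .ofNat 2)⟩ ::
 ⟨⟨.ofNat 3, .ofNat 2, .ofNat 8, .ofNat 0, .negSucc 3, .negSucc 4⟩, (.negSucc 8, .negSucc 3), (.negSucc 17, .ofNat 3), (.ofNat 11, .ofNat 9)⟩ ::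
 ⟨⟨.ofNat 3, .ofNat 2, .ofNat 8, .ofNat 0, .negSucc 7, .negSucc 1⟩, (.negSucc 0, .ofNat 0), (.negSucc 1, .ofNat 1), (.ofNat 3, .ofNat 0)⟩ ::
 ⟨⟨.ofNat 3, .ofNat 2, .ofNat 8, .ofNat 1, .ofNat 5, .negSucc 11⟩, (.negSucc 1, .negSucc 3), (.negSucc 9, .negSucc 3), (.negSucc 14, .ofNat 12)⟩ ::
 ⟨⟨.ofNat 3, .ofNat 2, .ofNat 8, .ofNat 1, .ofNat 1, .negSucc 8⟩, (.negSucc 6, .negSucc 2), (.negSucc 17, .ofNat 0), (.ofNat 6, .ofNat 20)⟩ ::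
 ⟨⟨.ofNat 3, .ofNat 2, .ofNat 8, .ofNat 1, .negSucc 2, .negSucc 5⟩, (.negSucc 1, .negSucc 3), (.negSucc 9, .negSucc 3), (.ofNat 1, .ofNat 8)⟩ ::
 ⟨⟨.ofNat 3, .ofNat 2, .ofNat 8, .ofNat 1, .negSucc 6, .negSucc 2⟩, (.negSucc 2, .ofNat 0), (.negSucc 3, .ofNat 2), (.ofNat 4, .negSucc 0)⟩ ::
 ⟨⟨.ofNat 3, .ofNat 2, .ofNat 10, .negSucc 1, .negSucc 1, .negSucc 11⟩, (.negSucc 3, .ofNat 0), (.negSucc 3, .ofNat 6), (.ofNat 11, .ofNat 6)⟩ ::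
 ⟨⟨.ofNat 3, .ofNat 2, .ofNat 10, .negSucc 1, .negSucc 5, .negSucc 8⟩, (.negSucc 3, .ofNat 0), (.negSucc 3, .ofNat 6), (.ofNat 11, .ofNat 2)⟩ ::
 ⟨⟨.ofNat 3, .ofNat 2, .ofNat 10, .negSucc 1, .negSucc 9, .negSucc 5⟩, (.negSucc 4, .negSucc 2), (.negSucc 15, .ofNat 5), (.ofNat 21, .ofNat 8)⟩ ::
 ⟨⟨.ofNat 3, .ofNat 2, .ofNat 10, .negSucc 1, .negSucc 13, .negSucc 2⟩, (.negSucc 18, .negSucc 15), (.negSucc 73, .ofNat 11), (.ofNat 105, .ofNat 27)⟩ ::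
 ⟨⟨.ofNat 3, .ofNat 2, .ofNat 10, .negSucc 0, .negSucc 0, .negSucc 11⟩, (.negSucc 79, .negSucc 46), (.negSucc 245, .ofNat 32), (.ofNat 35, .ofNat 303)⟩ ::
 ⟨⟨.ofNat 3, .ofNat 2, .ofNat 10, .negSucc 0, .negSucc 4, .negSucc 8⟩, (.negSucc 1, .ofNat 1), (.ofNat 0, .ofNat 4), (.ofNat 7, .negSucc 0)⟩ ::
 ⟨⟨.ofNat 3, .ofNat 2, .ofNat 10, .negSucc 0, .negSucc 8, .negSucc 5⟩, (.negSucc 7, .negSucc 5), (.negSucc 27, .ofNat 0), (.ofNat 19, .ofNat 20)⟩ ::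
 ⟨⟨.ofNat 3, .ofNat 2, .ofNat 10, .negSucc 0, .negSucc 12, .negSucc 2⟩, (.negSucc 1, .ofNat 1), (.ofNat 0, .ofNat 4), (.ofNat 3, .negSucc 4)⟩ ::
 ⟨⟨.ofNat 3, .ofNat 2, .ofNat 10, .ofNat 0, .ofNat 2, .negSucc 13⟩, (.negSucc 9, .negSucc 5), (.negSucc 33, .ofNat 2), (.ofNat 3, .ofNat 46)⟩ ::
 ⟨⟨.ofNat 3, .ofNat 2, .ofNat 10, .ofNat 0, .negSucc 1, .negSucc 10⟩, (.negSucc 1, .negSucc 2), (.negSucc 9, .negSucc 1), (.negSucc 2, .ofNat 10)⟩ ::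
 ⟨⟨.ofNat 3, .ofNat 2, .ofNat 10, .ofNat 0, .negSucc 5, .negSucc 7⟩, (.negSucc 8, .negSucc 5), (.negSucc 27, .ofNat 1), (.ofNat 17, .ofNat 20)⟩ ::
 ⟨⟨.ofNat 3, .ofNat 2, .ofNat 10, .ofNat 0, .negSucc 9, .negSucc 4⟩, (.negSucc 2, .ofNat 0), (.negSucc 5, .ofNat 3), (.ofNat 9, .ofNat 1)⟩ ::
 ⟨⟨.ofNat 3, .ofNat 2, .ofNat 10, .ofNat 0, .negSucc 13, .negSucc 1⟩, (.negSucc 8, .negSucc 5), (.negSucc 27, .ofNat 1), (.ofNat 41, .ofNat 2)⟩ ::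
 ⟨⟨.ofNat 4, .negSucc 1, .negSucc 7, .negSucc 3, .negSucc 10, .ofNat 1⟩, (.negSucc 12, .ofNat 9), (.ofNat 30, .ofNat 11), (.ofNat 37, .negSucc 4)⟩ ::
 ⟨⟨.ofNat 4, .negSucc 1, .negSucc 7, .negSucc 3, .negSucc 8, .ofNat 3⟩, (.negSucc 70, .ofNat 29), (.ofNat 128, .ofNat 72), (.ofNat 150, .negSucc 46)⟩ ::
 ⟨⟨.ofNat 4, .negSucc 1, .negSucc 7, .negSucc 3, .negSucc 6, .ofNat 5⟩, (.negSucc 0, .ofNat 1), (.ofNat 4, .ofNat 1), (.ofNat 3, .negSucc 2)⟩ ::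
 ⟨⟨.ofNat 4, .negSucc 1, .negSucc 7, .negSucc 3, .negSucc 4, .ofNat 7⟩, (.negSucc 2, .ofNat 3), (.ofNat 10, .ofNat 1), (.negSucc 0, .negSucc 8)⟩ ::
 ⟨⟨.ofNat 4, .negSucc 1, .negSucc 7, .negSucc 3, .negSucc 2, .ofNat 9⟩, (.negSucc 0, .ofNat 1), (.ofNat 4, .ofNat 1), (.ofNat 1, .negSucc 3)⟩ ::
 ⟨⟨.ofNat 4, .negSucc 1, .negSucc 7, .negSucc 3, .negSucc 0, .ofNat 11⟩, (.negSucc 2, .negSucc 0), (.ofNat 0, .ofNat 5), (.ofNat 11, .negSucc 3)⟩ ::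
 ⟨⟨.ofNat 4, .negSucc 1, .negSucc 3, .negSucc 5, .negSucc 12, .negSucc 1⟩, (.negSucc 16, .ofNat 10), (.ofNat 22, .ofNat 24), (.ofNat 54, .ofNat 5)⟩ ::
 ⟨⟨.ofNat 4, .negSucc 1, .negSucc 3, .negSucc 5, .negSucc 10, .ofNat 0⟩, (.ofNat 1, .ofNat 2), (.ofNat 6, .negSucc 0), (.ofNat 1, .negSucc 4)⟩ ::
 ⟨⟨.ofNat 4, .negSucc 1, .negSucc 3, .negSucc 5, .negSucc 8, .ofNat 2⟩, (.negSucc 0, .ofNat 0), (.ofNat 0, .ofNat 1), (.ofNat 1, .ofNat 0)⟩ ::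
 ⟨⟨.ofNat 4, .negSucc 1, .negSucc 3, .negSucc 5, .negSucc 6, .ofNat 4⟩, (.negSucc 30, .ofNat 20), (.ofNat 40, .ofNat 50), (.ofNat 60, .negSucc 35)⟩ ::
 ⟨⟨.ofNat 4, .negSucc 1, .negSucc 3, .negSucc 5, .negSucc 4, .ofNat 6⟩, (.negSucc 12, .ofNat 4), (.ofNat 6, .ofNat 17), (.ofNat 15, .negSucc 13)⟩ ::
 ⟨⟨.ofNat 4, .negSucc 1, .negSucc 3, .negSucc 5, .negSucc 2, .ofNat 8⟩, (.negSucc 26, .ofNat 16), (.ofNat 30, .ofNat 42), (.ofNat 18, .negSucc 53)⟩ ::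
 ⟨⟨.ofNat 4, .negSucc 1, .negSucc 3, .negSucc 1, .negSucc 4, .negSucc 1⟩, (.negSucc 0, .ofNat 0), (.ofNat 0, .ofNat 1), (.ofNat 1, .ofNat 1)⟩ ::
 ⟨⟨.ofNat 4, .negSucc 1, .negSucc 3, .negSucc 1, .negSucc 2, .ofNat 0⟩, (.negSucc 2, .ofNat 0), (.ofNat 2, .ofNat 2), (.ofNat 2, .ofNat 0)⟩ ::
 ⟨⟨.ofNat 4, .negSucc 1, .negSucc 3, .negSucc 1, .negSucc 0, .ofNat 2⟩, (.negSucc 0, .ofNat 0), (.ofNat 0, .ofNat 1), (.ofNat 1, .ofNat 0)⟩ ::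
 ⟨⟨.ofNat 4, .negSucc 1, .negSucc 3, .negSucc 1, .ofNat 1, .ofNat 4⟩, (.ofNat 1, .ofNat 2), (.ofNat 2, .negSucc 0), (.negSucc 2, .ofNat 0)⟩ ::
 ⟨⟨.ofNat 4, .negSucc 1, .negSucc 3, .ofNat 0, .negSucc 4, .negSucc 2⟩, (.negSucc 2, .ofNat 3), (.ofNat 4, .negSucc 1), (.ofNat 6, .ofNat 1)⟩ ::
 ⟨⟨.ofNat 4, .negSucc 1, .negSucc 3, .ofNat 0, .negSucc 2, .negSucc 0⟩, (.negSucc 0, .ofNat 1), (.ofNat 2, .ofNat 0), (.ofNat 2, .ofNat 0)⟩ ::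
 ⟨⟨.ofNat 4, .negSucc 1, .negSucc 3, .ofNat 0, .negSucc 0, .ofNat 1⟩, (.negSucc 2, .ofNat 1), (.ofNat 2, .ofNat 1), (.ofNat 1, .ofNat 0)⟩ ::
 ⟨⟨.ofNat 4, .negSucc 1, .negSucc 3, .ofNat 0, .ofNat 1, .ofNat 3⟩, (.negSucc 0, .ofNat 1), (.ofNat 2, .ofNat 0), (.ofNat 0, .negSucc 0)⟩ ::
 ⟨⟨.ofNat 4, .negSucc 1, .negSucc 3, .ofNat 0, .ofNat 3, .ofNat 5⟩, (.negSucc 2, .negSucc 0), (.ofNat 2, .ofNat 2), (.ofNat 4, .negSucc 2)⟩ ::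
 ⟨⟨.ofNat 4, .negSucc 1, .ofNat 0, .negSucc 7, .negSucc 18, .negSucc 2⟩, (.negSucc 36, .ofNat 17), (.ofNat 0, .ofNat 73), (.ofNat 167, .ofNat 25)⟩ ::
 ⟨⟨.ofNat 4, .negSucc 1, .ofNat 0, .negSucc 7, .negSucc 16, .negSucc 0⟩, (.negSucc 38, .ofNat 15), (.negSucc 7, .ofNat 73), (.ofNat 149, .ofNat 15)⟩ ::
 ⟨⟨.ofNat 4, .negSucc 1, .ofNat 0, .negSucc 7, .negSucc 14, .ofNat 1⟩, (.negSucc 64, .ofNat 37), (.ofNat 8, .ofNat 133), (.ofNat 251, .negSucc 18)⟩ ::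
 ⟨⟨.ofNat 4, .negSucc 1, .ofNat 0, .negSucc 7, .negSucc 12, .ofNat 3⟩, (.negSucc 22, .ofNat 13), (.ofNat 2, .ofNat 46), (.ofNat 74, .negSucc 15)⟩ ::
 ⟨⟨.ofNat 4, .negSucc 1, .ofNat 0, .negSucc 7, .negSucc 10, .ofNat 5⟩, (.negSucc 4, .ofNat 1), (.negSucc 3, .ofNat 7), (.ofNat 11, .negSucc 0)⟩ ::
 ⟨⟨.ofNat 4, .negSucc 1, .ofNat 0, .negSucc 7, .negSucc 8, .ofNat 7⟩, (.negSucc 38, .ofNat 25), (.ofNat 12, .ofNat 88), (.ofNat 94, .negSucc 82)⟩ ::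
 ⟨⟨.ofNat 4, .negSucc 1, .ofNat 0, .negSucc 7, .negSucc 6, .ofNat 9⟩, (.negSucc 24, .ofNat 13), (.ofNat 4, .ofNat 49), (.ofNat 35, .negSucc 58)⟩ ::
 ⟨⟨.ofNat 4, .negSucc 1, .ofNat 0, .negSucc 7, .negSucc 4, .ofNat 11⟩, (.negSucc 10, .ofNat 7), (.ofNat 2, .ofNat 25), (.ofNat 15, .negSucc 32)⟩ ::
 ⟨⟨.ofNat 4, .negSucc 1, .ofNat 0, .negSucc 3, .negSucc 8, .negSucc 4⟩, (.negSucc 2, .negSucc 0), (.negSucc 3, .ofNat 1), (.negSucc 0, .ofNat 6)⟩ ::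
 t

noncomputable def r32 (t : List Ent) : List Ent :=
 ⟨⟨.ofNat 4, .negSucc 1, .ofNat 0, .negSucc 3, .negSucc 6, .negSucc 2⟩, (.negSucc 0, .ofNat 3), (.ofNat 4, .ofNat 2), (.ofNat 6, .negSucc 0)⟩ ::
 ⟨⟨.ofNat 4, .negSucc 1, .ofNat 0, .negSucc 3, .negSucc 4, .negSucc 0⟩, (.negSucc 2, .negSucc 0), (.negSucc 3, .ofNat 1), (.ofNat 1, .ofNat 3)⟩ ::
 ⟨⟨.ofNat 4, .negSucc 1, .ofNat 0, .negSucc 3, .negSucc 2, .ofNat 1⟩, (.negSucc 0, .ofNat 3), (.ofNat 4, .ofNat 2), (.ofNat 0, .negSucc 1)⟩ ::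
 ⟨⟨.ofNat 4, .negSucc 1, .ofNat 0, .negSucc 3, .negSucc 0, .ofNat 3⟩, (.negSucc 2, .ofNat 1), (.ofNat 0, .ofNat 2), (.ofNat 0, .negSucc 1)⟩ ::
 ⟨⟨.ofNat 4, .negSucc 1, .ofNat 0, .negSucc 1, .negSucc 4, .negSucc 3⟩, (.negSucc 0, .ofNat 0), (.ofNat 0, .ofNat 0), (.ofNat 0, .ofNat 1)⟩ ::
 ⟨⟨.ofNat 4, .negSucc 1, .ofNat 0, .negSucc 1, .negSucc 2, .negSucc 1⟩, (.negSucc 2, .ofNat 0), (.negSucc 1, .ofNat 1), (.ofNat 1, .ofNat 2)⟩ ::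
 ⟨⟨.ofNat 4, .negSucc 1, .ofNat 0, .negSucc 1, .negSucc 0, .ofNat 0⟩, (.negSucc 0, .ofNat 0), (.ofNat 0, .ofNat 0), (.ofNat 0, .ofNat 0)⟩ ::
 ⟨⟨.ofNat 4, .negSucc 1, .ofNat 0, .negSucc 1, .ofNat 1, .ofNat 2⟩, (.ofNat 1, .ofNat 2), (.ofNat 2, .ofNat 0), (.negSucc 1, .ofNat 0)⟩ ::
 ⟨⟨.ofNat 4, .negSucc 1, .ofNat 0, .ofNat 2, .negSucc 4, .negSucc 3⟩, (.negSucc 0, .ofNat 0), (.ofNat 0, .ofNat 0), (.ofNat 0, .ofNat 1)⟩ ::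
 ⟨⟨.ofNat 4, .negSucc 1, .ofNat 0, .ofNat 2, .negSucc 2, .negSucc 1⟩, (.ofNat 1, .ofNat 2), (.negSucc 1, .ofNat 0), (.ofNat 2, .negSucc 0)⟩ ::
 ⟨⟨.ofNat 4, .negSucc 1, .ofNat 0, .ofNat 2, .negSucc 0, .ofNat 0⟩, (.negSucc 0, .ofNat 0), (.ofNat 0, .ofNat 0), (.ofNat 0, .ofNat 0)⟩ ::
 ⟨⟨.ofNat 4, .negSucc 1, .ofNat 0, .ofNat 2, .ofNat 1, .ofNat 2⟩, (.ofNat 1, .ofNat 2), (.negSucc 1, .ofNat 0), (.negSucc 1, .ofNat 0)⟩ ::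
 ⟨⟨.ofNat 4, .negSucc 1, .ofNat 4, .negSucc 5, .negSucc 16, .negSucc 5⟩, (.negSucc 4, .ofNat 6), (.ofNat 0, .ofNat 12), (.ofNat 36, .ofNat 3)⟩ ::
 ⟨⟨.ofNat 4, .negSucc 1, .ofNat 4, .negSucc 5, .negSucc 14, .negSucc 3⟩, (.negSucc 14, .ofNat 10), (.negSucc 9, .ofNat 25), (.ofNat 61, .ofNat 12)⟩ ::
 ⟨⟨.ofNat 4, .negSucc 1, .ofNat 4, .negSucc 5, .negSucc 12, .negSucc 1⟩, (.negSucc 4, .ofNat 4), (.negSucc 3, .ofNat 9), (.ofNat 21, .ofNat 2)⟩ ::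
 ⟨⟨.ofNat 4, .negSucc 1, .ofNat 4, .negSucc 5, .negSucc 10, .ofNat 0⟩, (.negSucc 2, .ofNat 0), (.negSucc 3, .ofNat 2), (.ofNat 4, .ofNat 2)⟩ ::
 ⟨⟨.ofNat 4, .negSucc 1, .ofNat 4, .negSucc 5, .negSucc 8, .ofNat 2⟩, (.negSucc 12, .ofNat 6), (.negSucc 15, .ofNat 18), (.ofNat 32, .negSucc 2)⟩ ::
 ⟨⟨.ofNat 4, .negSucc 1, .ofNat 4, .negSucc 5, .negSucc 6, .ofNat 4⟩, (.negSucc 54, .ofNat 28), (.negSucc 51, .ofNat 80), (.ofNat 88, .negSucc 51)⟩ ::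
 ⟨⟨.ofNat 4, .negSucc 1, .ofNat 4, .negSucc 5, .negSucc 4, .ofNat 6⟩, (.negSucc 0, .ofNat 0), (.negSucc 1, .ofNat 1), (.ofNat 3, .negSucc 0)⟩ ::
 ⟨⟨.ofNat 4, .negSucc 1, .ofNat 4, .negSucc 3, .negSucc 12, .negSucc 6⟩, (.negSucc 2, .ofNat 1), (.negSucc 3, .ofNat 3), (.ofNat 9, .ofNat 5)⟩ ::
 ⟨⟨.ofNat 4, .negSucc 1, .ofNat 4, .negSucc 3, .negSucc 10, .negSucc 4⟩, (.negSucc 4, .negSucc 0), (.negSucc 7, .ofNat 1), (.ofNat 3, .ofNat 9)⟩ ::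
 ⟨⟨.ofNat 4, .negSucc 1, .ofNat 4, .negSucc 3, .negSucc 8, .negSucc 2⟩, (.negSucc 2, .negSucc 0), (.negSucc 3, .ofNat 0), (.ofNat 0, .ofNat 4)⟩ ::
 ⟨⟨.ofNat 4, .negSucc 1, .ofNat 4, .negSucc 3, .negSucc 6, .negSucc 0⟩, (.negSucc 0, .ofNat 1), (.ofNat 0, .ofNat 2), (.ofNat 2, .negSucc 0)⟩ ::
 ⟨⟨.ofNat 4, .negSucc 1, .ofNat 4, .negSucc 3, .negSucc 4, .ofNat 1⟩, (.negSucc 2, .ofNat 1), (.negSucc 3, .ofNat 3), (.ofNat 5, .negSucc 0)⟩ ::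
 ⟨⟨.ofNat 4, .negSucc 1, .ofNat 4, .negSucc 3, .negSucc 2, .ofNat 3⟩, (.negSucc 0, .ofNat 1), (.ofNat 0, .ofNat 2), (.ofNat 0, .negSucc 1)⟩ ::
 ⟨⟨.ofNat 4, .negSucc 1, .ofNat 4, .ofNat 0, .negSucc 8, .negSucc 6⟩, (.negSucc 2, .ofNat 3), (.negSucc 3, .ofNat 2), (.ofNat 12, .ofNat 4)⟩ ::
 ⟨⟨.ofNat 4, .negSucc 1, .ofNat 4, .ofNat 0, .negSucc 6, .negSucc 4⟩, (.negSucc 4, .ofNat 1), (.negSucc 3, .ofNat 0), (.ofNat 4, .ofNat 6)⟩ ::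
 ⟨⟨.ofNat 4, .negSucc 1, .ofNat 4, .ofNat 0, .negSucc 4, .negSucc 2⟩, (.negSucc 2, .ofNat 3), (.negSucc 3, .ofNat 2), (.ofNat 6, .ofNat 1)⟩ ::
 ⟨⟨.ofNat 4, .negSucc 1, .ofNat 4, .ofNat 0, .negSucc 2, .negSucc 0⟩, (.negSucc 0, .ofNat 1), (.negSucc 1, .ofNat 0), (.ofNat 2, .ofNat 0)⟩ ::
 ⟨⟨.ofNat 4, .negSucc 1, .ofNat 4, .ofNat 0, .negSucc 0, .ofNat 1⟩, (.negSucc 2, .ofNat 1), (.negSucc 1, .negSucc 0), (.ofNat 1, .ofNat 0)⟩ ::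
 ⟨⟨.ofNat 4, .negSucc 1, .ofNat 8, .negSucc 1, .negSucc 16, .negSucc 7⟩, (.negSucc 0, .ofNat 2), (.negSucc 1, .ofNat 3), (.ofNat 11, .ofNat 0)⟩ ::
 ⟨⟨.ofNat 4, .negSucc 1, .ofNat 8, .negSucc 1, .negSucc 14, .negSucc 5⟩, (.negSucc 90, .ofNat 46), (.negSucc 177, .ofNat 50), (.ofNat 334, .ofNat 131)⟩ ::
 ⟨⟨.ofNat 4, .negSucc 1, .ofNat 8, .negSucc 1, .negSucc 12, .negSucc 3⟩, (.negSucc 0, .ofNat 2), (.negSucc 1, .ofNat 3), (.ofNat 7, .negSucc 0)⟩ ::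
 ⟨⟨.ofNat 4, .negSucc 1, .ofNat 8, .negSucc 1, .negSucc 10, .negSucc 1⟩, (.ofNat 1, .ofNat 2), (.ofNat 0, .ofNat 4), (.ofNat 4, .negSucc 4)⟩ ::
 ⟨⟨.ofNat 4, .negSucc 1, .ofNat 8, .negSucc 1, .negSucc 8, .ofNat 0⟩, (.negSucc 0, .ofNat 0), (.negSucc 1, .ofNat 0), (.ofNat 2, .ofNat 0)⟩ ::
 ⟨⟨.ofNat 4, .negSucc 1, .ofNat 8, .negSucc 1, .negSucc 6, .ofNat 2⟩, (.ofNat 1, .ofNat 2), (.ofNat 0, .ofNat 4), (.ofNat 0, .negSucc 3)⟩ ::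
 ⟨⟨.ofNat 4, .negSucc 0, .negSucc 3, .negSucc 5, .negSucc 10, .ofNat 0⟩, (.negSucc 6, .ofNat 3), (.ofNat 10, .ofNat 9), (.ofNat 17, .negSucc 1)⟩ ::
 ⟨⟨.ofNat 4, .negSucc 0, .negSucc 3, .negSucc 5, .negSucc 8, .ofNat 4⟩, (.negSucc 6, .ofNat 5), (.ofNat 16, .ofNat 11), (.ofNat 17, .negSucc 12)⟩ ::
 ⟨⟨.ofNat 4, .negSucc 0, .negSucc 3, .negSucc 5, .negSucc 6, .ofNat 8⟩, (.negSucc 6, .ofNat 3), (.ofNat 10, .ofNat 9), (.ofNat 5, .negSucc 15)⟩ ::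
 ⟨⟨.ofNat 4, .negSucc 0, .negSucc 3, .negSucc 3, .negSucc 6, .negSucc 1⟩, (.negSucc 0, .ofNat 2), (.ofNat 4, .ofNat 0), (.ofNat 4, .negSucc 0)⟩ ::
 ⟨⟨.ofNat 4, .negSucc 0, .negSucc 3, .negSucc 3, .negSucc 4, .ofNat 2⟩, (.negSucc 2, .ofNat 0), (.ofNat 2, .ofNat 4), (.ofNat 6, .negSucc 0)⟩ ::
 ⟨⟨.ofNat 4, .negSucc 0, .negSucc 3, .negSucc 3, .negSucc 2, .ofNat 6⟩, (.negSucc 2, .ofNat 0), (.ofNat 2, .ofNat 4), (.ofNat 6, .negSucc 3)⟩ ::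
 ⟨⟨.ofNat 4, .negSucc 0, .negSucc 1, .negSucc 5, .negSucc 10, .negSucc 2⟩, (.negSucc 6, .ofNat 3), (.ofNat 8, .ofNat 12), (.ofNat 26, .ofNat 1)⟩ ::
 ⟨⟨.ofNat 4, .negSucc 0, .negSucc 1, .negSucc 5, .negSucc 8, .ofNat 1⟩, (.negSucc 18, .ofNat 6), (.ofNat 10, .ofNat 29), (.ofNat 45, .negSucc 2)⟩ ::
 ⟨⟨.ofNat 4, .negSucc 0, .negSucc 1, .negSucc 5, .negSucc 6, .ofNat 5⟩, (.negSucc 8, .ofNat 1), (.ofNat 2, .ofNat 12), (.ofNat 14, .negSucc 9)⟩ ::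
 ⟨⟨.ofNat 4, .negSucc 0, .negSucc 1, .negSucc 1, .negSucc 2, .negSucc 2⟩, (.negSucc 0, .ofNat 0), (.ofNat 0, .ofNat 1), (.ofNat 1, .ofNat 1)⟩ ::
 ⟨⟨.ofNat 4, .negSucc 0, .negSucc 1, .negSucc 1, .negSucc 0, .ofNat 1⟩, (.negSucc 0, .ofNat 0), (.ofNat 0, .ofNat 1), (.ofNat 1, .ofNat 0)⟩ ::
 ⟨⟨.ofNat 4, .negSucc 0, .negSucc 1, .ofNat 0, .negSucc 0, .negSucc 0⟩, (.negSucc 2, .ofNat 0), (.ofNat 2, .ofNat 1), (.ofNat 1, .ofNat 1)⟩ ::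
 ⟨⟨.ofNat 4, .negSucc 0, .ofNat 0, .negSucc 3, .negSucc 4, .negSucc 1⟩, (.negSucc 8, .negSucc 0), (.negSucc 3, .ofNat 7), (.ofNat 5, .ofNat 6)⟩ ::
 ⟨⟨.ofNat 4, .negSucc 0, .ofNat 0, .negSucc 3, .negSucc 2, .ofNat 2⟩, (.negSucc 2, .negSucc 1), (.negSucc 3, .ofNat 2), (.ofNat 4, .ofNat 0)⟩ ::
 t

noncomputable def r33 (t : List Ent) : List Ent :=
 ⟨⟨.ofNat 4, .negSucc 0, .ofNat 0, .negSucc 1, .negSucc 2, .negSucc 3⟩, (.negSucc 6, .ofNat 2), (.ofNat 2, .ofNat 4), (.ofNat 6, .ofNat 6)⟩ ::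
 ⟨⟨.ofNat 4, .negSucc 0, .ofNat 0, .negSucc 1, .negSucc 0, .ofNat 0⟩, (.negSucc 0, .ofNat 0), (.ofNat 0, .ofNat 0), (.ofNat 0, .ofNat 0)⟩ ::
 ⟨⟨.ofNat 4, .negSucc 0, .ofNat 0, .ofNat 2, .negSucc 2, .negSucc 3⟩, (.negSucc 6, .ofNat 2), (.negSucc 1, .negSucc 3), (.ofNat 6, .ofNat 6)⟩ ::
 ⟨⟨.ofNat 4, .negSucc 0, .ofNat 0, .ofNat 2, .negSucc 0, .ofNat 0⟩, (.negSucc 0, .ofNat 0), (.ofNat 0, .ofNat 0), (.ofNat 0, .ofNat 0)⟩ ::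
 ⟨⟨.ofNat 4, .negSucc 0, .ofNat 2, .negSucc 5, .negSucc 10, .negSucc 2⟩, (.negSucc 10, .ofNat 5), (.negSucc 1, .ofNat 18), (.ofNat 36, .ofNat 7)⟩ ::
 ⟨⟨.ofNat 4, .negSucc 0, .ofNat 2, .negSucc 5, .negSucc 8, .ofNat 1⟩, (.negSucc 2, .ofNat 2), (.ofNat 2, .ofNat 5), (.ofNat 5, .negSucc 2)⟩ ::
 ⟨⟨.ofNat 4, .negSucc 0, .ofNat 2, .negSucc 5, .negSucc 6, .ofNat 5⟩, (.negSucc 24, .ofNat 7), (.negSucc 7, .ofNat 40), (.ofNat 44, .negSucc 37)⟩ ::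
 ⟨⟨.ofNat 4, .negSucc 0, .ofNat 2, .negSucc 3, .negSucc 6, .negSucc 4⟩, (.negSucc 2, .ofNat 2), (.ofNat 0, .ofNat 5), (.ofNat 11, .ofNat 2)⟩ ::
 ⟨⟨.ofNat 4, .negSucc 0, .ofNat 2, .negSucc 3, .negSucc 4, .negSucc 0⟩, (.negSucc 0, .negSucc 0), (.negSucc 1, .ofNat 0), (.ofNat 0, .ofNat 1)⟩ ::
 ⟨⟨.ofNat 4, .negSucc 0, .ofNat 2, .negSucc 3, .negSucc 2, .ofNat 3⟩, (.negSucc 0, .negSucc 0), (.negSucc 1, .ofNat 0), (.ofNat 2, .ofNat 0)⟩ ::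
 ⟨⟨.ofNat 4, .negSucc 0, .ofNat 2, .ofNat 0, .negSucc 2, .negSucc 4⟩, (.negSucc 2, .ofNat 0), (.negSucc 1, .negSucc 0), (.ofNat 1, .ofNat 4)⟩ ::
 ⟨⟨.ofNat 4, .negSucc 0, .ofNat 2, .ofNat 0, .negSucc 0, .negSucc 0⟩, (.negSucc 2, .ofNat 0), (.negSucc 1, .negSucc 0), (.ofNat 1, .ofNat 1)⟩ ::
 ⟨⟨.ofNat 4, .negSucc 0, .ofNat 2, .ofNat 2, .negSucc 4, .negSucc 6⟩, (.negSucc 0, .ofNat 1), (.negSucc 1, .ofNat 0), (.ofNat 4, .ofNat 1)⟩ ::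
 ⟨⟨.ofNat 4, .negSucc 0, .ofNat 2, .ofNat 2, .negSucc 2, .negSucc 2⟩, (.negSucc 0, .ofNat 0), (.ofNat 0, .negSucc 0), (.ofNat 1, .ofNat 1)⟩ ::
 ⟨⟨.ofNat 4, .negSucc 0, .ofNat 4, .negSucc 5, .negSucc 14, .negSucc 7⟩, (.negSucc 38, .ofNat 10), (.negSucc 37, .ofNat 62), (.ofNat 154, .ofNat 72)⟩ ::
 ⟨⟨.ofNat 4, .negSucc 0, .ofNat 4, .negSucc 5, .negSucc 12, .negSucc 3⟩, (.negSucc 4, .ofNat 1), (.negSucc 3, .ofNat 7), (.ofNat 13, .ofNat 4)⟩ ::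
 ⟨⟨.ofNat 4, .negSucc 0, .ofNat 4, .negSucc 5, .negSucc 10, .ofNat 0⟩, (.negSucc 0, .ofNat 2), (.ofNat 2, .ofNat 4), (.ofNat 6, .negSucc 2)⟩ ::
 ⟨⟨.ofNat 4, .negSucc 0, .ofNat 4, .negSucc 5, .negSucc 8, .ofNat 4⟩, (.negSucc 14, .ofNat 4), (.negSucc 11, .ofNat 22), (.ofNat 28, .negSucc 16)⟩ ::
 ⟨⟨.ofNat 4, .negSucc 0, .ofNat 4, .negSucc 1, .negSucc 6, .negSucc 7⟩, (.negSucc 4, .ofNat 1), (.negSucc 3, .ofNat 3), (.ofNat 7, .ofNat 9)⟩ ::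
 ⟨⟨.ofNat 4, .negSucc 0, .ofNat 4, .negSucc 1, .negSucc 4, .negSucc 3⟩, (.negSucc 4, .ofNat 1), (.negSucc 3, .ofNat 3), (.ofNat 5, .ofNat 4)⟩ ::
 ⟨⟨.ofNat 4, .negSucc 0, .ofNat 4, .negSucc 1, .negSucc 2, .ofNat 0⟩, (.negSucc 2, .ofNat 2), (.negSucc 1, .ofNat 2), (.ofNat 2, .ofNat 0)⟩ ::
 ⟨⟨.ofNat 4, .negSucc 0, .ofNat 4, .ofNat 0, .negSucc 4, .negSucc 5⟩, (.negSucc 8, .ofNat 0), (.negSucc 9, .negSucc 1), (.ofNat 6, .ofNat 14)⟩ ::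
 ⟨⟨.ofNat 4, .negSucc 0, .ofNat 4, .ofNat 0, .negSucc 2, .negSucc 1⟩, (.negSucc 0, .negSucc 0), (.ofNat 0, .negSucc 0), (.negSucc 0, .ofNat 1)⟩ ::
 ⟨⟨.ofNat 4, .negSucc 0, .ofNat 6, .negSucc 1, .negSucc 8, .negSucc 6⟩, (.negSucc 2, .ofNat 0), (.negSucc 3, .ofNat 1), (.ofNat 3, .ofNat 5)⟩ ::
 ⟨⟨.ofNat 4, .negSucc 0, .ofNat 6, .negSucc 1, .negSucc 6, .negSucc 2⟩, (.negSucc 2, .ofNat 3), (.negSucc 3, .ofNat 4), (.ofNat 10, .ofNat 1)⟩ ::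
 ⟨⟨.ofNat 4, .negSucc 0, .ofNat 6, .negSucc 1, .negSucc 4, .ofNat 1⟩, (.negSucc 2, .ofNat 0), (.negSucc 3, .ofNat 1), (.ofNat 3, .negSucc 0)⟩ ::
 ⟨⟨.ofNat 4, .ofNat 0, .ofNat 0, .negSucc 5, .negSucc 8, .negSucc 3⟩, (.negSucc 16, .ofNat 0), (.negSucc 1, .ofNat 27), (.ofNat 43, .ofNat 20)⟩ ::
 ⟨⟨.ofNat 4, .ofNat 0, .ofNat 0, .negSucc 5, .negSucc 8, .negSucc 2⟩, (.negSucc 2, .negSucc 0), (.negSucc 1, .ofNat 4), (.ofNat 4, .ofNat 3)⟩ ::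
 ⟨⟨.ofNat 4, .ofNat 0, .ofNat 0, .negSucc 5, .negSucc 8, .negSucc 1⟩, (.negSucc 8, .ofNat 2), (.ofNat 6, .ofNat 12), (.ofNat 18, .ofNat 0)⟩ ::
 ⟨⟨.ofNat 4, .ofNat 0, .ofNat 0, .negSucc 5, .negSucc 8, .negSucc 0⟩, (.negSucc 10, .ofNat 1), (.ofNat 2, .ofNat 15), (.ofNat 21, .ofNat 2)⟩ ::
 ⟨⟨.ofNat 4, .ofNat 0, .ofNat 0, .negSucc 5, .negSucc 8, .ofNat 0⟩, (.negSucc 0, .ofNat 0), (.ofNat 0, .ofNat 1), (.ofNat 1, .ofNat 0)⟩ ::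
 ⟨⟨.ofNat 4, .ofNat 0, .ofNat 0, .negSucc 5, .negSucc 8, .ofNat 1⟩, (.negSucc 10, .negSucc 0), (.negSucc 1, .ofNat 15), (.ofNat 21, .negSucc 1)⟩ ::
 ⟨⟨.ofNat 4, .ofNat 0, .ofNat 0, .negSucc 5, .negSucc 8, .ofNat 2⟩, (.negSucc 8, .negSucc 1), (.negSucc 5, .ofNat 12), (.ofNat 18, .ofNat 0)⟩ ::
 ⟨⟨.ofNat 4, .ofNat 0, .ofNat 0, .negSucc 5, .negSucc 8, .ofNat 3⟩, (.negSucc 2, .ofNat 1), (.ofNat 2, .ofNat 5), (.ofNat 7, .negSucc 2)⟩ ::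
 ⟨⟨.ofNat 4, .ofNat 0, .ofNat 0, .negSucc 5, .negSucc 8, .ofNat 4⟩, (.negSucc 16, .ofNat 0), (.ofNat 2, .ofNat 27), (.ofNat 43, .negSucc 19)⟩ ::
 ⟨⟨.ofNat 4, .ofNat 0, .ofNat 0, .negSucc 5, .negSucc 8, .ofNat 5⟩, (.negSucc 26, .negSucc 0), (.negSucc 3, .ofNat 38), (.ofNat 56, .negSucc 29)⟩ ::
 ⟨⟨.ofNat 4, .ofNat 0, .ofNat 0, .negSucc 5, .negSucc 8, .ofNat 6⟩, (.negSucc 8, .negSucc 1), (.negSucc 5, .ofNat 12), (.ofNat 22, .negSucc 8)⟩ ::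
 ⟨⟨.ofNat 4, .ofNat 0, .ofNat 0, .negSucc 1, .negSucc 0, .negSucc 3⟩, (.negSucc 0, .ofNat 0), (.ofNat 0, .ofNat 0), (.ofNat 0, .ofNat 1)⟩ ::
 ⟨⟨.ofNat 4, .ofNat 0, .ofNat 0, .negSucc 1, .negSucc 0, .negSucc 2⟩, (.negSucc 2, .negSucc 0), (.ofNat 0, .ofNat 2), (.ofNat 0, .ofNat 2)⟩ ::
 ⟨⟨.ofNat 4, .ofNat 0, .ofNat 0, .negSucc 1, .negSucc 0, .negSucc 1⟩, (.negSucc 0, .negSucc 1), (.negSucc 1, .ofNat 1), (.negSucc 0, .ofNat 1)⟩ ::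
 ⟨⟨.ofNat 4, .ofNat 0, .ofNat 0, .negSucc 1, .negSucc 0, .negSucc 0⟩, (.negSucc 2, .ofNat 1), (.ofNat 0, .ofNat 1), (.ofNat 1, .ofNat 1)⟩ ::
 ⟨⟨.ofNat 4, .ofNat 0, .ofNat 0, .negSucc 1, .negSucc 0, .ofNat 0⟩, (.negSucc 0, .ofNat 0), (.ofNat 0, .ofNat 0), (.ofNat 0, .ofNat 0)⟩ ::
 ⟨⟨.ofNat 4, .ofNat 0, .ofNat 0, .negSucc 1, .negSucc 0, .ofNat 1⟩, (.negSucc 2, .negSucc 0), (.ofNat 0, .ofNat 1), (.ofNat 1, .negSucc 0)⟩ ::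
 ⟨⟨.ofNat 4, .ofNat 0, .ofNat 0, .negSucc 1, .negSucc 0, .ofNat 2⟩, (.negSucc 0, .negSucc 1), (.negSucc 1, .ofNat 1), (.ofNat 3, .ofNat 0)⟩ ::
 ⟨⟨.ofNat 4, .ofNat 0, .ofNat 0, .ofNat 2, .negSucc 0, .negSucc 5⟩, (.negSucc 48, .negSucc 1), (.ofNat 2, .negSucc 27), (.ofNat 10, .ofNat 74)⟩ ::
 ⟨⟨.ofNat 4, .ofNat 0, .ofNat 0, .ofNat 2, .negSucc 0, .negSucc 4⟩, (.negSucc 2, .ofNat 1), (.negSucc 1, .negSucc 0), (.ofNat 3, .ofNat 3)⟩ ::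
 ⟨⟨.ofNat 4, .ofNat 0, .ofNat 0, .ofNat 2, .negSucc 0, .negSucc 3⟩, (.negSucc 0, .ofNat 0), (.ofNat 0, .ofNat 0), (.ofNat 0, .ofNat 1)⟩ ::
 ⟨⟨.ofNat 4, .ofNat 0, .ofNat 0, .ofNat 2, .negSucc 0, .negSucc 2⟩, (.negSucc 2, .negSucc 0), (.ofNat 0, .negSucc 1), (.ofNat 0, .ofNat 2)⟩ ::
 ⟨⟨.ofNat 4, .ofNat 0, .ofNat 0, .ofNat 2, .negSucc 0, .negSucc 1⟩, (.negSucc 0, .negSucc 1), (.ofNat 2, .negSucc 0), (.negSucc 0, .ofNat 1)⟩ ::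
 ⟨⟨.ofNat 4, .ofNat 0, .ofNat 0, .ofNat 2, .negSucc 0, .negSucc 0⟩, (.negSucc 2, .ofNat 1), (.ofNat 0, .negSucc 0), (.ofNat 1, .ofNat 1)⟩ ::
 t

noncomputable def r34 (t : List Ent) : List Ent :=
 ⟨⟨.ofNat 4, .ofNat 0, .ofNat 0, .ofNat 2, .negSucc 0, .ofNat 0⟩, (.negSucc 0, .ofNat 0), (.ofNat 0, .ofNat 0), (.ofNat 0, .ofNat 0)⟩ ::
 ⟨⟨.ofNat 4, .ofNat 0, .ofNat 4, .negSucc 5, .negSucc 10, .negSucc 7⟩, (.negSucc 2, .ofNat 0), (.negSucc 1, .ofNat 4), (.ofNat 6, .ofNat 5)⟩ ::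
 ⟨⟨.ofNat 4, .ofNat 0, .ofNat 4, .negSucc 5, .negSucc 10, .negSucc 6⟩, (.negSucc 8, .negSucc 0), (.negSucc 13, .ofNat 12), (.ofNat 22, .ofNat 22)⟩ ::
 ⟨⟨.ofNat 4, .ofNat 0, .ofNat 4, .negSucc 5, .negSucc 10, .negSucc 5⟩, (.negSucc 18, .negSucc 1), (.negSucc 21, .ofNat 27), (.ofNat 45, .ofNat 29)⟩ ::
 ⟨⟨.ofNat 4, .ofNat 0, .ofNat 4, .negSucc 5, .negSucc 10, .negSucc 4⟩, (.negSucc 32, .negSucc 2), (.negSucc 39, .ofNat 49), (.ofNat 89, .ofNat 44)⟩ ::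
 ⟨⟨.ofNat 4, .ofNat 0, .ofNat 4, .negSucc 5, .negSucc 10, .negSucc 3⟩, (.negSucc 2, .ofNat 0), (.negSucc 3, .ofNat 5), (.ofNat 11, .ofNat 4)⟩ ::
 ⟨⟨.ofNat 4, .ofNat 0, .ofNat 4, .negSucc 5, .negSucc 10, .negSucc 2⟩, (.negSucc 16, .negSucc 0), (.negSucc 17, .ofNat 23), (.ofNat 39, .ofNat 14)⟩ ::
 ⟨⟨.ofNat 4, .ofNat 0, .ofNat 4, .negSucc 5, .negSucc 10, .negSucc 1⟩, (.negSucc 18, .negSucc 1), (.negSucc 21, .ofNat 26), (.ofNat 46, .ofNat 11)⟩ ::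
 ⟨⟨.ofNat 4, .ofNat 0, .ofNat 4, .negSucc 5, .negSucc 10, .negSucc 0⟩, (.negSucc 24, .ofNat 1), (.negSucc 21, .ofNat 36), (.ofNat 62, .ofNat 6)⟩ ::
 ⟨⟨.ofNat 4, .ofNat 0, .ofNat 4, .negSucc 5, .negSucc 10, .ofNat 0⟩, (.negSucc 2, .ofNat 0), (.negSucc 1, .ofNat 5), (.ofNat 9, .negSucc 1)⟩ ::
 ⟨⟨.ofNat 4, .ofNat 0, .ofNat 4, .negSucc 5, .negSucc 10, .ofNat 1⟩, (.negSucc 0, .negSucc 0), (.negSucc 3, .ofNat 1), (.ofNat 5, .ofNat 2)⟩ ::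
 ⟨⟨.ofNat 4, .ofNat 0, .ofNat 4, .negSucc 5, .negSucc 10, .ofNat 2⟩, (.negSucc 2, .negSucc 1), (.negSucc 7, .ofNat 3), (.ofNat 11, .ofNat 2)⟩ ::
 ⟨⟨.ofNat 4, .ofNat 0, .ofNat 4, .negSucc 5, .negSucc 10, .ofNat 3⟩, (.negSucc 8, .ofNat 1), (.negSucc 5, .ofNat 16), (.ofNat 28, .negSucc 10)⟩ ::
 ⟨⟨.ofNat 4, .ofNat 0, .ofNat 4, .negSucc 5, .negSucc 10, .ofNat 4⟩, (.negSucc 26, .ofNat 0), (.negSucc 29, .ofNat 42), (.ofNat 82, .negSucc 23)⟩ ::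
 ⟨⟨.ofNat 4, .ofNat 0, .ofNat 4, .negSucc 5, .negSucc 10, .ofNat 5⟩, (.negSucc 32, .ofNat 3), (.negSucc 27, .ofNat 52), (.ofNat 86, .negSucc 42)⟩ ::
 ⟨⟨.ofNat 4, .ofNat 0, .ofNat 4, .negSucc 5, .negSucc 10, .ofNat 6⟩, (.negSucc 10, .ofNat 2), (.negSucc 5, .ofNat 17), (.ofNat 21, .negSucc 18)⟩ ::
 ⟨⟨.ofNat 4, .ofNat 0, .ofNat 4, .negSucc 1, .negSucc 2, .negSucc 7⟩, (.negSucc 50, .ofNat 0), (.negSucc 51, .ofNat 22), (.ofNat 36, .ofNat 106)⟩ ::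
 ⟨⟨.ofNat 4, .ofNat 0, .ofNat 4, .negSucc 1, .negSucc 2, .negSucc 6⟩, (.negSucc 8, .negSucc 0), (.negSucc 7, .ofNat 4), (.ofNat 2, .ofNat 15)⟩ ::
 ⟨⟨.ofNat 4, .ofNat 0, .ofNat 4, .negSucc 1, .negSucc 2, .negSucc 5⟩, (.negSucc 2, .negSucc 1), (.negSucc 5, .ofNat 0), (.negSucc 1, .ofNat 6)⟩ ::
 ⟨⟨.ofNat 4, .ofNat 0, .ofNat 4, .negSucc 1, .negSucc 2, .negSucc 4⟩, (.negSucc 0, .ofNat 1), (.ofNat 0, .ofNat 1), (.ofNat 3, .ofNat 1)⟩ ::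
 ⟨⟨.ofNat 4, .ofNat 0, .ofNat 4, .negSucc 1, .negSucc 2, .negSucc 3⟩, (.negSucc 2, .ofNat 0), (.negSucc 3, .ofNat 1), (.ofNat 3, .ofNat 4)⟩ ::
 ⟨⟨.ofNat 4, .ofNat 0, .ofNat 4, .negSucc 1, .negSucc 2, .negSucc 2⟩, (.negSucc 0, .negSucc 0), (.negSucc 1, .ofNat 0), (.ofNat 0, .ofNat 1)⟩ ::
 ⟨⟨.ofNat 4, .ofNat 0, .ofNat 4, .negSucc 1, .negSucc 2, .negSucc 1⟩, (.negSucc 2, .ofNat 2), (.ofNat 0, .ofNat 3), (.ofNat 3, .ofNat 0)⟩ ::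
 ⟨⟨.ofNat 4, .ofNat 0, .ofNat 4, .negSucc 1, .negSucc 2, .negSucc 0⟩, (.negSucc 0, .ofNat 1), (.ofNat 0, .ofNat 2), (.ofNat 2, .negSucc 0)⟩ ::
 ⟨⟨.ofNat 4, .ofNat 0, .ofNat 4, .negSucc 1, .negSucc 2, .ofNat 0⟩, (.negSucc 2, .ofNat 0), (.negSucc 1, .ofNat 1), (.ofNat 1, .ofNat 0)⟩ ::
 ⟨⟨.ofNat 4, .ofNat 0, .ofNat 4, .negSucc 1, .negSucc 2, .ofNat 1⟩, (.negSucc 0, .negSucc 0), (.negSucc 1, .ofNat 0), (.ofNat 2, .ofNat 0)⟩ ::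
 ⟨⟨.ofNat 4, .ofNat 0, .ofNat 4, .negSucc 1, .negSucc 2, .ofNat 2⟩, (.negSucc 2, .ofNat 2), (.negSucc 1, .ofNat 3), (.ofNat 1, .negSucc 1)⟩ ::
 ⟨⟨.ofNat 4, .ofNat 0, .ofNat 4, .ofNat 2, .negSucc 2, .negSucc 9⟩, (.negSucc 10, .negSucc 1), (.negSucc 9, .negSucc 5), (.negSucc 1, .ofNat 27)⟩ ::
 ⟨⟨.ofNat 4, .ofNat 0, .ofNat 4, .ofNat 2, .negSucc 2, .negSucc 8⟩, (.negSucc 0, .ofNat 1), (.negSucc 1, .ofNat 1), (.ofNat 5, .ofNat 1)⟩ ::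
 ⟨⟨.ofNat 4, .ofNat 0, .ofNat 4, .ofNat 2, .negSucc 2, .negSucc 7⟩, (.negSucc 2, .ofNat 0), (.negSucc 3, .negSucc 1), (.ofNat 4, .ofNat 6)⟩ ::
 ⟨⟨.ofNat 4, .ofNat 0, .ofNat 4, .ofNat 2, .negSucc 2, .negSucc 6⟩, (.negSucc 32, .negSucc 0), (.negSucc 33, .negSucc 14), (.ofNat 21, .ofNat 55)⟩ ::
 ⟨⟨.ofNat 4, .ofNat 0, .ofNat 4, .ofNat 2, .negSucc 2, .negSucc 5⟩, (.negSucc 2, .ofNat 2), (.negSucc 3, .ofNat 1), (.ofNat 7, .ofNat 3)⟩ ::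
 ⟨⟨.ofNat 4, .ofNat 0, .ofNat 4, .ofNat 2, .negSucc 2, .negSucc 4⟩, (.negSucc 0, .ofNat 1), (.negSucc 1, .ofNat 1), (.ofNat 3, .ofNat 0)⟩ ::
 ⟨⟨.ofNat 4, .ofNat 0, .ofNat 4, .ofNat 2, .negSucc 2, .negSucc 3⟩, (.negSucc 2, .ofNat 0), (.negSucc 3, .negSucc 0), (.ofNat 3, .ofNat 2)⟩ ::
 ⟨⟨.ofNat 4, .ofNat 0, .ofNat 4, .ofNat 2, .negSucc 2, .negSucc 2⟩, (.negSucc 0, .negSucc 0), (.ofNat 0, .negSucc 0), (.negSucc 0, .ofNat 1)⟩ ::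
 ⟨⟨.ofNat 4, .ofNat 0, .ofNat 4, .ofNat 2, .negSucc 2, .negSucc 1⟩, (.negSucc 2, .negSucc 1), (.negSucc 1, .negSucc 2), (.ofNat 1, .ofNat 2)⟩ ::
 ⟨⟨.ofNat 4, .ofNat 0, .ofNat 4, .ofNat 2, .negSucc 2, .negSucc 0⟩, (.negSucc 0, .ofNat 1), (.negSucc 1, .ofNat 0), (.ofNat 2, .ofNat 0)⟩ ::
 ⟨⟨.ofNat 4, .ofNat 0, .ofNat 4, .ofNat 2, .negSucc 2, .ofNat 0⟩, (.negSucc 2, .ofNat 0), (.negSucc 1, .negSucc 0), (.ofNat 1, .ofNat 0)⟩ ::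
 ⟨⟨.ofNat 4, .ofNat 1, .negSucc 1, .ofNat 0, .ofNat 1, .negSucc 2⟩, (.negSucc 0, .negSucc 1), (.ofNat 0, .ofNat 1), (.negSucc 2, .ofNat 1)⟩ ::
 ⟨⟨.ofNat 4, .ofNat 1, .negSucc 1, .ofNat 0, .negSucc 0, .ofNat 1⟩, (.negSucc 2, .ofNat 0), (.ofNat 2, .negSucc 0), (.ofNat 1, .negSucc 0)⟩ ::
 ⟨⟨.ofNat 4, .ofNat 1, .negSucc 1, .ofNat 2, .ofNat 1, .negSucc 4⟩, (.negSucc 0, .ofNat 0), (.ofNat 0, .negSucc 0), (.ofNat 1, .ofNat 1)⟩ ::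
 ⟨⟨.ofNat 4, .ofNat 1, .negSucc 1, .ofNat 2, .negSucc 0, .negSucc 0⟩, (.negSucc 0, .negSucc 0), (.ofNat 2, .ofNat 0), (.ofNat 0, .ofNat 1)⟩ ::
 ⟨⟨.ofNat 4, .ofNat 1, .ofNat 0, .negSucc 3, .negSucc 2, .negSucc 1⟩, (.negSucc 0, .negSucc 1), (.negSucc 3, .ofNat 2), (.ofNat 0, .ofNat 3)⟩ ::
 ⟨⟨.ofNat 4, .ofNat 1, .ofNat 0, .negSucc 3, .negSucc 4, .ofNat 2⟩, (.negSucc 2, .ofNat 0), (.ofNat 2, .ofNat 2), (.ofNat 2, .negSucc 2)⟩ ::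
 ⟨⟨.ofNat 4, .ofNat 1, .ofNat 0, .negSucc 1, .ofNat 1, .negSucc 3⟩, (.negSucc 6, .negSucc 1), (.negSucc 1, .ofNat 4), (.negSucc 1, .ofNat 8)⟩ ::
 ⟨⟨.ofNat 4, .ofNat 1, .ofNat 0, .negSucc 1, .negSucc 0, .ofNat 0⟩, (.negSucc 0, .ofNat 0), (.ofNat 0, .ofNat 0), (.ofNat 0, .ofNat 0)⟩ ::
 ⟨⟨.ofNat 4, .ofNat 1, .ofNat 0, .ofNat 2, .ofNat 1, .negSucc 3⟩, (.negSucc 6, .negSucc 1), (.ofNat 2, .negSucc 3), (.negSucc 1, .ofNat 8)⟩ ::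
 ⟨⟨.ofNat 4, .ofNat 1, .ofNat 0, .ofNat 2, .negSucc 0, .ofNat 0⟩, (.negSucc 0, .ofNat 0), (.ofNat 0, .ofNat 0), (.ofNat 0, .ofNat 0)⟩ ::
 ⟨⟨.ofNat 4, .ofNat 1, .ofNat 2, .negSucc 5, .negSucc 6, .negSucc 4⟩, (.negSucc 8, .negSucc 0), (.negSucc 1, .ofNat 12), (.ofNat 14, .ofNat 10)⟩ ::
 ⟨⟨.ofNat 4, .ofNat 1, .ofNat 2, .negSucc 5, .negSucc 8, .negSucc 0⟩, (.negSucc 18, .negSucc 5), (.negSucc 9, .ofNat 29), (.ofNat 45, .ofNat 3)⟩ ::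
 t

noncomputable def r35 (t : List Ent) : List Ent :=
 ⟨⟨.ofNat 4, .ofNat 1, .ofNat 2, .negSucc 5, .negSucc 10, .ofNat 3⟩, (.negSucc 6, .negSucc 2), (.negSucc 7, .ofNat 12), (.ofNat 26, .negSucc 0)⟩ ::
 ⟨⟨.ofNat 4, .ofNat 1, .ofNat 2, .negSucc 1, .ofNat 1, .negSucc 4⟩, (.negSucc 0, .ofNat 0), (.ofNat 0, .ofNat 1), (.ofNat 1, .ofNat 1)⟩ ::
 ⟨⟨.ofNat 4, .ofNat 1, .ofNat 2, .negSucc 1, .negSucc 0, .negSucc 0⟩, (.negSucc 0, .negSucc 0), (.negSucc 1, .ofNat 0), (.ofNat 0, .ofNat 1)⟩ ::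
 ⟨⟨.ofNat 4, .ofNat 1, .ofNat 2, .ofNat 0, .ofNat 1, .negSucc 2⟩, (.negSucc 2, .ofNat 0), (.negSucc 1, .ofNat 1), (.ofNat 1, .ofNat 2)⟩ ::
 ⟨⟨.ofNat 4, .ofNat 1, .ofNat 4, .negSucc 5, .negSucc 8, .negSucc 3⟩, (.negSucc 6, .negSucc 4), (.negSucc 15, .ofNat 11), (.ofNat 17, .ofNat 13)⟩ ::
 ⟨⟨.ofNat 4, .ofNat 1, .ofNat 4, .negSucc 5, .negSucc 10, .ofNat 0⟩, (.negSucc 0, .negSucc 0), (.negSucc 3, .ofNat 1), (.ofNat 3, .ofNat 3)⟩ ::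
 ⟨⟨.ofNat 4, .ofNat 1, .ofNat 4, .negSucc 5, .negSucc 12, .ofNat 4⟩, (.negSucc 0, .ofNat 0), (.ofNat 0, .ofNat 2), (.ofNat 4, .negSucc 1)⟩ ::
 ⟨⟨.ofNat 4, .ofNat 1, .ofNat 4, .negSucc 3, .negSucc 2, .negSucc 5⟩, (.negSucc 2, .ofNat 0), (.negSucc 1, .ofNat 4), (.ofNat 6, .ofNat 4)⟩ ::
 ⟨⟨.ofNat 4, .ofNat 1, .ofNat 4, .negSucc 3, .negSucc 4, .negSucc 1⟩, (.negSucc 2, .ofNat 0), (.negSucc 1, .ofNat 4), (.ofNat 6, .ofNat 1)⟩ ::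
 ⟨⟨.ofNat 4, .ofNat 1, .ofNat 4, .negSucc 3, .negSucc 6, .ofNat 2⟩, (.negSucc 0, .negSucc 1), (.negSucc 3, .ofNat 0), (.ofNat 4, .ofNat 1)⟩ ::
 ⟨⟨.ofNat 4, .ofNat 1, .ofNat 4, .ofNat 0, .ofNat 1, .negSucc 5⟩, (.negSucc 6, .negSucc 3), (.negSucc 9, .negSucc 1), (.negSucc 5, .ofNat 12)⟩ ::
 ⟨⟨.ofNat 4, .ofNat 1, .ofNat 4, .ofNat 0, .negSucc 0, .negSucc 1⟩, (.negSucc 0, .ofNat 1), (.ofNat 0, .ofNat 1), (.ofNat 1, .ofNat 0)⟩ ::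
 ⟨⟨.ofNat 4, .ofNat 1, .ofNat 4, .ofNat 2, .ofNat 1, .negSucc 7⟩, (.negSucc 2, .negSucc 1), (.negSucc 1, .negSucc 1), (.negSucc 5, .ofNat 6)⟩ ::
 ⟨⟨.ofNat 4, .ofNat 1, .ofNat 4, .ofNat 2, .negSucc 0, .negSucc 3⟩, (.negSucc 0, .ofNat 1), (.negSucc 1, .ofNat 1), (.ofNat 3, .ofNat 0)⟩ ::
 ⟨⟨.ofNat 4, .ofNat 1, .ofNat 6, .negSucc 3, .negSucc 4, .negSucc 6⟩, (.negSucc 4, .negSucc 1), (.negSucc 7, .ofNat 5), (.ofNat 5, .ofNat 8)⟩ ::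
 ⟨⟨.ofNat 4, .ofNat 1, .ofNat 6, .negSucc 3, .negSucc 6, .negSucc 2⟩, (.negSucc 2, .negSucc 1), (.negSucc 7, .ofNat 1), (.ofNat 3, .ofNat 6)⟩ ::
 ⟨⟨.ofNat 4, .ofNat 1, .ofNat 6, .negSucc 3, .negSucc 8, .ofNat 1⟩, (.negSucc 16, .negSucc 3), (.negSucc 21, .ofNat 17), (.ofNat 35, .negSucc 7)⟩ ::
 ⟨⟨.ofNat 4, .ofNat 1, .ofNat 6, .negSucc 1, .negSucc 0, .negSucc 8⟩, (.negSucc 2, .negSucc 1), (.negSucc 5, .ofNat 1), (.negSucc 2, .ofNat 7)⟩ ::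
 ⟨⟨.ofNat 4, .ofNat 1, .ofNat 6, .negSucc 1, .negSucc 2, .negSucc 4⟩, (.negSucc 4, .negSucc 1), (.negSucc 9, .ofNat 1), (.ofNat 3, .ofNat 9)⟩ ::
 ⟨⟨.ofNat 4, .ofNat 1, .ofNat 6, .negSucc 1, .negSucc 4, .negSucc 0⟩, (.negSucc 2, .negSucc 1), (.negSucc 5, .ofNat 1), (.ofNat 5, .ofNat 1)⟩ ::
 ⟨⟨.ofNat 4, .ofNat 1, .ofNat 6, .ofNat 2, .negSucc 0, .negSucc 8⟩, (.negSucc 2, .ofNat 0), (.negSucc 3, .negSucc 0), (.ofNat 3, .ofNat 7)⟩ ::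
 ⟨⟨.ofNat 4, .ofNat 1, .ofNat 6, .ofNat 2, .negSucc 2, .negSucc 4⟩, (.negSucc 14, .negSucc 1), (.negSucc 21, .negSucc 2), (.ofNat 13, .ofNat 14)⟩ ::
 ⟨⟨.ofNat 4, .ofNat 1, .ofNat 6, .ofNat 2, .negSucc 4, .negSucc 0⟩, (.negSucc 2, .ofNat 0), (.negSucc 3, .negSucc 0), (.ofNat 3, .ofNat 1)⟩ ::
 ⟨⟨.ofNat 4, .ofNat 1, .ofNat 8, .negSucc 1, .negSucc 2, .negSucc 11⟩, (.negSucc 2, .ofNat 0), (.negSucc 3, .ofNat 2), (.ofNat 4, .ofNat 8)⟩ ::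
 ⟨⟨.ofNat 4, .ofNat 1, .ofNat 8, .negSucc 1, .negSucc 4, .negSucc 7⟩, (.negSucc 4, .negSucc 0), (.negSucc 7, .ofNat 3), (.ofNat 5, .ofNat 8)⟩ ::
 ⟨⟨.ofNat 4, .ofNat 1, .ofNat 8, .negSucc 1, .negSucc 6, .negSucc 3⟩, (.negSucc 0, .negSucc 1), (.negSucc 5, .negSucc 1), (.ofNat 2, .ofNat 5)⟩ ::
 ⟨⟨.ofNat 4, .ofNat 1, .ofNat 8, .negSucc 1, .negSucc 8, .ofNat 0⟩, (.negSucc 2, .ofNat 0), (.negSucc 3, .ofNat 2), (.ofNat 4, .negSucc 0)⟩ ::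
 ⟨⟨.ofNat 4, .ofNat 2, .negSucc 3, .ofNat 0, .ofNat 3, .negSucc 4⟩, (.negSucc 2, .ofNat 1), (.ofNat 2, .negSucc 1), (.ofNat 4, .ofNat 3)⟩ ::
 ⟨⟨.ofNat 4, .ofNat 2, .negSucc 3, .ofNat 0, .ofNat 1, .negSucc 2⟩, (.negSucc 0, .negSucc 0), (.ofNat 2, .ofNat 0), (.ofNat 0, .ofNat 1)⟩ ::
 ⟨⟨.ofNat 4, .ofNat 2, .negSucc 3, .ofNat 0, .negSucc 0, .negSucc 0⟩, (.negSucc 2, .negSucc 0), (.ofNat 2, .negSucc 0), (.ofNat 1, .ofNat 0)⟩ ::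
 ⟨⟨.ofNat 4, .ofNat 2, .negSucc 3, .ofNat 0, .negSucc 2, .ofNat 1⟩, (.negSucc 0, .negSucc 0), (.ofNat 2, .ofNat 0), (.ofNat 2, .ofNat 0)⟩ ::
 ⟨⟨.ofNat 4, .ofNat 2, .ofNat 0, .negSucc 3, .ofNat 1, .negSucc 4⟩, (.negSucc 4, .negSucc 2), (.negSucc 1, .ofNat 6), (.negSucc 1, .ofNat 8)⟩ ::
 ⟨⟨.ofNat 4, .ofNat 2, .ofNat 0, .negSucc 3, .negSucc 0, .negSucc 2⟩, (.negSucc 2, .negSucc 0), (.ofNat 0, .ofNat 2), (.ofNat 0, .ofNat 2)⟩ ::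
 ⟨⟨.ofNat 4, .ofNat 2, .ofNat 0, .negSucc 3, .negSucc 2, .negSucc 0⟩, (.negSucc 0, .negSucc 2), (.negSucc 3, .ofNat 2), (.ofNat 0, .ofNat 2)⟩ ::
 ⟨⟨.ofNat 4, .ofNat 2, .ofNat 0, .negSucc 3, .negSucc 4, .ofNat 1⟩, (.ofNat 1, .negSucc 2), (.negSucc 3, .ofNat 1), (.ofNat 3, .ofNat 2)⟩ ::
 ⟨⟨.ofNat 4, .ofNat 2, .ofNat 0, .negSucc 3, .negSucc 6, .ofNat 3⟩, (.negSucc 0, .negSucc 2), (.negSucc 3, .ofNat 2), (.ofNat 6, .ofNat 1)⟩ ::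
 ⟨⟨.ofNat 4, .ofNat 2, .ofNat 0, .negSucc 1, .ofNat 3, .negSucc 3⟩, (.negSucc 0, .ofNat 0), (.ofNat 0, .ofNat 0), (.ofNat 0, .ofNat 1)⟩ ::
 ⟨⟨.ofNat 4, .ofNat 2, .ofNat 0, .negSucc 1, .ofNat 1, .negSucc 1⟩, (.negSucc 2, .ofNat 0), (.ofNat 2, .ofNat 1), (.ofNat 1, .ofNat 1)⟩ ::
 ⟨⟨.ofNat 4, .ofNat 2, .ofNat 0, .negSucc 1, .negSucc 0, .ofNat 0⟩, (.negSucc 0, .ofNat 0), (.ofNat 0, .ofNat 0), (.ofNat 0, .ofNat 0)⟩ ::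
 ⟨⟨.ofNat 4, .ofNat 2, .ofNat 0, .negSucc 1, .negSucc 2, .ofNat 2⟩, (.negSucc 2, .ofNat 0), (.ofNat 2, .ofNat 1), (.ofNat 1, .negSucc 1)⟩ ::
 ⟨⟨.ofNat 4, .ofNat 2, .ofNat 0, .ofNat 2, .ofNat 5, .negSucc 5⟩, (.ofNat 1, .negSucc 1), (.ofNat 2, .ofNat 0), (.negSucc 5, .negSucc 0)⟩ ::
 ⟨⟨.ofNat 4, .ofNat 2, .ofNat 0, .ofNat 2, .ofNat 3, .negSucc 3⟩, (.negSucc 0, .ofNat 0), (.ofNat 0, .ofNat 0), (.ofNat 0, .ofNat 1)⟩ ::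
 ⟨⟨.ofNat 4, .ofNat 2, .ofNat 0, .ofNat 2, .ofNat 1, .negSucc 1⟩, (.negSucc 2, .ofNat 0), (.negSucc 1, .negSucc 0), (.ofNat 1, .ofNat 1)⟩ ::
 ⟨⟨.ofNat 4, .ofNat 2, .ofNat 0, .ofNat 2, .negSucc 0, .ofNat 0⟩, (.negSucc 0, .ofNat 0), (.ofNat 0, .ofNat 0), (.ofNat 0, .ofNat 0)⟩ ::
 ⟨⟨.ofNat 4, .ofNat 2, .ofNat 4, .negSucc 5, .negSucc 2, .negSucc 7⟩, (.negSucc 26, .negSucc 15), (.negSucc 29, .ofNat 42), (.ofNat 18, .ofNat 54)⟩ ::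
 ⟨⟨.ofNat 4, .ofNat 2, .ofNat 4, .negSucc 5, .negSucc 4, .negSucc 5⟩, (.negSucc 12, .negSucc 3), (.negSucc 5, .ofNat 17), (.ofNat 15, .ofNat 14)⟩ ::
 ⟨⟨.ofNat 4, .ofNat 2, .ofNat 4, .negSucc 5, .negSucc 6, .negSucc 3⟩, (.negSucc 30, .negSucc 19), (.negSucc 39, .ofNat 50), (.ofNat 60, .ofNat 36)⟩ ::
 ⟨⟨.ofNat 4, .ofNat 2, .ofNat 4, .negSucc 5, .negSucc 8, .negSucc 1⟩, (.negSucc 0, .ofNat 0), (.ofNat 0, .ofNat 1), (.ofNat 1, .ofNat 0)⟩ ::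
 ⟨⟨.ofNat 4, .ofNat 2, .ofNat 4, .negSucc 5, .negSucc 10, .ofNat 0⟩, (.negSucc 6, .negSucc 1), (.negSucc 3, .ofNat 11), (.ofNat 19, .negSucc 0)⟩ ::
 ⟨⟨.ofNat 4, .ofNat 2, .ofNat 4, .negSucc 5, .negSucc 12, .ofNat 2⟩, (.negSucc 16, .negSucc 9), (.negSucc 21, .ofNat 24), (.ofNat 54, .negSucc 4)⟩ ::
 t

noncomputable def r36 (t : List Ent) : List Ent :=
 ⟨⟨.ofNat 4, .ofNat 2, .ofNat 4, .negSucc 1, .ofNat 3, .negSucc 5⟩, (.negSucc 16, .negSucc 9), (.negSucc 17, .ofNat 10), (.negSucc 13, .ofNat 25)⟩ ::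
 ⟨⟨.ofNat 4, .ofNat 2, .ofNat 4, .negSucc 1, .ofNat 1, .negSucc 3⟩, (.ofNat 1, .negSucc 1), (.negSucc 1, .negSucc 0), (.negSucc 2, .ofNat 0)⟩ ::
 ⟨⟨.ofNat 4, .ofNat 2, .ofNat 4, .negSucc 1, .negSucc 0, .negSucc 1⟩, (.negSucc 0, .ofNat 0), (.ofNat 0, .ofNat 1), (.ofNat 1, .ofNat 0)⟩ ::
 ⟨⟨.ofNat 4, .ofNat 2, .ofNat 4, .negSucc 1, .negSucc 2, .ofNat 0⟩, (.ofNat 1, .negSucc 1), (.negSucc 1, .negSucc 0), (.ofNat 1, .ofNat 1)⟩ ::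
 ⟨⟨.ofNat 4, .ofNat 2, .ofNat 4, .negSucc 1, .negSucc 4, .ofNat 2⟩, (.negSucc 0, .ofNat 0), (.ofNat 0, .ofNat 1), (.ofNat 1, .negSucc 0)⟩ ::
 ⟨⟨.ofNat 4, .ofNat 2, .ofNat 4, .ofNat 0, .ofNat 5, .negSucc 6⟩, (.negSucc 0, .negSucc 2), (.negSucc 1, .negSucc 0), (.negSucc 8, .ofNat 2)⟩ ::
 ⟨⟨.ofNat 4, .ofNat 2, .ofNat 4, .ofNat 0, .ofNat 3, .negSucc 4⟩, (.negSucc 2, .ofNat 1), (.negSucc 1, .ofNat 2), (.ofNat 4, .ofNat 3)⟩ ::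
 ⟨⟨.ofNat 4, .ofNat 2, .ofNat 4, .ofNat 0, .ofNat 1, .negSucc 2⟩, (.negSucc 0, .negSucc 0), (.negSucc 1, .ofNat 0), (.ofNat 0, .ofNat 1)⟩ ::
 ⟨⟨.ofNat 4, .ofNat 2, .ofNat 4, .ofNat 0, .negSucc 0, .negSucc 0⟩, (.negSucc 2, .negSucc 0), (.negSucc 1, .ofNat 1), (.ofNat 1, .ofNat 0)⟩ ::
 ⟨⟨.ofNat 4, .ofNat 2, .ofNat 4, .ofNat 0, .negSucc 2, .ofNat 1⟩, (.negSucc 0, .negSucc 0), (.negSucc 1, .ofNat 0), (.ofNat 2, .ofNat 0)⟩ ::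
 ⟨⟨.ofNat 4, .ofNat 2, .ofNat 4, .ofNat 4, .ofNat 7, .negSucc 12⟩, (.negSucc 2, .ofNat 1), (.negSucc 3, .ofNat 0), (.ofNat 8, .ofNat 8)⟩ ::
 ⟨⟨.ofNat 4, .ofNat 2, .ofNat 4, .ofNat 4, .ofNat 5, .negSucc 10⟩, (.negSucc 4, .negSucc 2), (.negSucc 5, .negSucc 4), (.negSucc 6, .ofNat 13)⟩ ::
 ⟨⟨.ofNat 4, .ofNat 2, .ofNat 4, .ofNat 4, .ofNat 3, .negSucc 8⟩, (.negSucc 2, .ofNat 1), (.negSucc 3, .ofNat 0), (.ofNat 6, .ofNat 5)⟩ ::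
 ⟨⟨.ofNat 4, .ofNat 2, .ofNat 4, .ofNat 4, .ofNat 1, .negSucc 6⟩, (.negSucc 0, .negSucc 0), (.ofNat 0, .negSucc 1), (.negSucc 1, .ofNat 3)⟩ ::
 ⟨⟨.ofNat 4, .ofNat 2, .ofNat 4, .ofNat 4, .negSucc 0, .negSucc 4⟩, (.negSucc 2, .negSucc 0), (.negSucc 3, .negSucc 2), (.ofNat 3, .ofNat 4)⟩ ::
 ⟨⟨.ofNat 4, .ofNat 2, .ofNat 4, .ofNat 4, .negSucc 2, .negSucc 2⟩, (.negSucc 0, .negSucc 0), (.ofNat 0, .negSucc 1), (.ofNat 0, .ofNat 2)⟩ ::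
 ⟨⟨.ofNat 4, .ofNat 2, .ofNat 8, .negSucc 3, .negSucc 0, .negSucc 10⟩, (.negSucc 2, .ofNat 1), (.ofNat 0, .ofNat 5), (.ofNat 11, .ofNat 4)⟩ ::
 ⟨⟨.ofNat 4, .ofNat 2, .ofNat 8, .negSucc 3, .negSucc 2, .negSucc 8⟩, (.negSucc 12, .negSucc 2), (.negSucc 17, .ofNat 14), (.ofNat 16, .ofNat 25)⟩ ::
 ⟨⟨.ofNat 4, .ofNat 2, .ofNat 8, .negSucc 3, .negSucc 4, .negSucc 6⟩, (.negSucc 2, .negSucc 2), (.negSucc 9, .ofNat 1), (.negSucc 0, .ofNat 9)⟩ ::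
 ⟨⟨.ofNat 4, .ofNat 2, .ofNat 8, .negSucc 3, .negSucc 6, .negSucc 4⟩, (.negSucc 0, .negSucc 0), (.negSucc 3, .ofNat 1), (.ofNat 3, .ofNat 3)⟩ ::
 ⟨⟨.ofNat 4, .ofNat 2, .ofNat 8, .negSucc 3, .negSucc 8, .negSucc 2⟩, (.negSucc 2, .negSucc 0), (.negSucc 3, .ofNat 4), (.ofNat 8, .ofNat 0)⟩ ::
 ⟨⟨.ofNat 4, .ofNat 2, .ofNat 8, .negSucc 3, .negSucc 10, .negSucc 0⟩, (.negSucc 12, .negSucc 8), (.negSucc 29, .ofNat 11), (.ofNat 37, .ofNat 5)⟩ ::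
 ⟨⟨.ofNat 4, .ofNat 2, .ofNat 8, .negSucc 3, .negSucc 12, .ofNat 1⟩, (.negSucc 2, .negSucc 4), (.negSucc 13, .ofNat 0), (.ofNat 16, .ofNat 5)⟩ ::
 ⟨⟨.ofNat 4, .ofNat 2, .ofNat 8, .ofNat 0, .ofNat 3, .negSucc 10⟩, (.negSucc 2, .negSucc 2), (.negSucc 7, .negSucc 0), (.negSucc 6, .ofNat 9)⟩ ::
 ⟨⟨.ofNat 4, .ofNat 2, .ofNat 8, .ofNat 0, .ofNat 1, .negSucc 8⟩, (.negSucc 24, .negSucc 8), (.negSucc 41, .ofNat 5), (.ofNat 1, .ofNat 49)⟩ ::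
 ⟨⟨.ofNat 4, .ofNat 2, .ofNat 8, .ofNat 0, .negSucc 0, .negSucc 6⟩, (.negSucc 10, .negSucc 4), (.negSucc 19, .ofNat 2), (.ofNat 4, .ofNat 16)⟩ ::
 ⟨⟨.ofNat 4, .ofNat 2, .ofNat 8, .ofNat 0, .negSucc 2, .negSucc 4⟩, (.negSucc 0, .negSucc 0), (.negSucc 1, .negSucc 0), (.negSucc 0, .ofNat 2)⟩ ::
 ⟨⟨.ofNat 4, .ofNat 2, .ofNat 8, .ofNat 0, .negSucc 4, .negSucc 2⟩, (.negSucc 2, .negSucc 2), (.negSucc 7, .negSucc 0), (.ofNat 5, .ofNat 3)⟩ ::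
 ⟨⟨.ofNat 4, .ofNat 2, .ofNat 8, .ofNat 0, .negSucc 6, .negSucc 0⟩, (.negSucc 20, .negSucc 10), (.negSucc 39, .negSucc 1), (.ofNat 32, .ofNat 6)⟩ ::
 ⟨⟨.ofNat 4, .ofNat 2, .ofNat 8, .ofNat 2, .ofNat 5, .negSucc 13⟩, (.negSucc 122, .negSucc 63), (.negSucc 249, .negSucc 70), (.negSucc 166, .ofNat 444)⟩ ::
 ⟨⟨.ofNat 4, .ofNat 2, .ofNat 8, .ofNat 2, .ofNat 3, .negSucc 11⟩, (.negSucc 0, .ofNat 0), (.negSucc 1, .ofNat 0), (.ofNat 2, .ofNat 3)⟩ ::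
 ⟨⟨.ofNat 4, .ofNat 2, .ofNat 8, .ofNat 2, .ofNat 1, .negSucc 9⟩, (.negSucc 6, .negSucc 3), (.negSucc 13, .negSucc 2), (.negSucc 2, .ofNat 16)⟩ ::
 ⟨⟨.ofNat 4, .ofNat 2, .ofNat 8, .ofNat 2, .negSucc 0, .negSucc 7⟩, (.negSucc 0, .ofNat 0), (.negSucc 1, .ofNat 0), (.ofNat 2, .ofNat 2)⟩ ::
 ⟨⟨.ofNat 4, .ofNat 2, .ofNat 8, .ofNat 2, .negSucc 2, .negSucc 5⟩, (.ofNat 1, .negSucc 1), (.ofNat 0, .negSucc 3), (.negSucc 3, .ofNat 3)⟩ ::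
 ⟨⟨.ofNat 4, .ofNat 2, .ofNat 8, .ofNat 2, .negSucc 4, .negSucc 3⟩, (.negSucc 0, .ofNat 0), (.negSucc 1, .ofNat 0), (.ofNat 2, .ofNat 1)⟩ ::
 ⟨⟨.ofNat 4, .ofNat 2, .ofNat 8, .ofNat 2, .negSucc 6, .negSucc 1⟩, (.ofNat 1, .negSucc 1), (.ofNat 0, .negSucc 3), (.ofNat 0, .ofNat 4)⟩ ::
 ⟨⟨.ofNat 4, .ofNat 2, .ofNat 12, .negSucc 1, .negSucc 2, .negSucc 15⟩, (.negSucc 10, .negSucc 5), (.negSucc 31, .ofNat 5), (.ofNat 3, .ofNat 42)⟩ ::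
 ⟨⟨.ofNat 4, .ofNat 2, .ofNat 12, .negSucc 1, .negSucc 4, .negSucc 13⟩, (.negSucc 20, .negSucc 11), (.negSucc 63, .ofNat 7), (.ofNat 13, .ofNat 76)⟩ ::
 ⟨⟨.ofNat 4, .ofNat 2, .ofNat 12, .negSucc 1, .negSucc 6, .negSucc 11⟩, (.negSucc 38, .negSucc 19), (.negSucc 115, .ofNat 16), (.ofNat 56, .ofNat 120)⟩ ::
 ⟨⟨.ofNat 4, .ofNat 2, .ofNat 12, .negSucc 1, .negSucc 8, .negSucc 9⟩, (.negSucc 32, .negSucc 17), (.negSucc 99, .ofNat 16), (.ofNat 72, .ofNat 80)⟩ ::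
 ⟨⟨.ofNat 4, .ofNat 2, .ofNat 12, .negSucc 1, .negSucc 10, .negSucc 7⟩, (.negSucc 10, .negSucc 5), (.negSucc 31, .ofNat 5), (.ofNat 27, .ofNat 20)⟩ ::
 ⟨⟨.ofNat 4, .ofNat 2, .ofNat 12, .negSucc 1, .negSucc 12, .negSucc 5⟩, (.negSucc 4, .negSucc 5), (.negSucc 23, .negSucc 1), (.ofNat 20, .ofNat 16)⟩ ::
 ⟨⟨.ofNat 4, .ofNat 2, .ofNat 12, .negSucc 1, .negSucc 14, .negSucc 3⟩, (.negSucc 34, .negSucc 21), (.negSucc 115, .ofNat 13), (.ofNat 143, .ofNat 43)⟩ ::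
 ⟨⟨.ofNat 4, .ofNat 2, .ofNat 12, .negSucc 1, .negSucc 16, .negSucc 1⟩, (.negSucc 8, .negSucc 1), (.negSucc 21, .ofNat 8), (.ofNat 34, .ofNat 0)⟩ ::
 t

noncomputable def Le : List Ent :=
  r0 (r1 (r2 (r3 (r4 (r5 (r6 (r7 (r8 (r9 (r10 (r11 (r12 (r13 (r14 (r15 (r16 (r17 (r18 (r19 (r20 (r21 (r22 (r23 (r24 (r25 (r26 (r27 (r28 (r29 (r30 (r31 (r32 (r33 (r34 (r35 (r36 []))))))))))))))))))))))))))))))))))))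

theorem hgen : eqRL (gen E8) Le = true := by decide +kernel

theorem ent : allE (entOK E8) Le = true := by decide +kernel

theorem nodup : incK (keyR E8 2048) Le 0 = true := by decide +kernel

theorem small : allE (fun x => smallR 1024 E8 x.r) Le = true := by decide +kernel

theorem cos : eqCL (cosOf 1024 E8) Lc Le = true := by decide +kernel

end Pool.Agent.Lib.H56.Gen.D8
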